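import Mathlib

/-! Base objects for Calogero-Moser spaces (MP_64e2fc_ag): polynomial functions on `V`, rational functions on `V`,
polynomials in the momenta with rational coefficients; transport along linear isomorphisms. -/

namespace Pool.Agent.CM64

open Module MvPolynomial

/-- `ℂ[V]` in coordinates: the variable `X i` is the `i`-th coordinate function `x_i` of a basis of `V`. -/
abbrev Px (ι : Type) := MvPolynomial ι ℂ
/-- `ℂ(V)`. -/
abbrev Fx (ι : Type) := FractionRing (Px ι)
/-- `ℂ[V × V*] = ℂ[V][ξ]`: the variable `X i` is the `i`-th basis vector of `V`, seen as a function on `V*`. -/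
abbrev Rx (ι : Type) := MvPolynomial ι (Px ι)
/-- `ℂ(V)[ξ]`. -/
abbrev Ax (ι : Type) := MvPolynomial ι (Fx ι)

section Embeddings

variable {ι : Type}

/-- a polynomial function on `V` as an element of `ℂ(V)`. -/
noncomputable def pF : Px ι →ₐ[ℂ] Fx ι := Algebra.algHom ℂ (Px ι) (Fx ι)

/-- a polynomial function on `V` as an element of `ℂ(V)[ξ]`. -/
noncomputable def xA : Px ι →ₐ[ℂ] Ax ι :=
  (Algebra.algHom ℂ (Fx ι) (Ax ι)).comp pF

/-- `ℂ[V][ξ] → ℂ(V)[ξ]`. -/
noncomputable def jR : Rx ι →ₐ[ℂ] Ax ι := MvPolynomial.mapAlgHom pF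

theorem pF_apply (p : Px ι) : pF p = algebraMap (Px ι) (Fx ι) p := rfl

theorem pF_injective : Function.Injective (pF : Px ι → Fx ι) :=
  IsFractionRing.injective (Px ι) (Fx ι)

theorem xA_apply (p : Px ι) : xA p = C (pF p) := rfl

theorem xA_injective : Function.Injective (xA : Px ι → Ax ι) :=
  (C_injective _ _).comp pF_injective

theorem jR_C (p : Px ι) : jR (C p : Rx ι) = xA p := by
  simp [jR, xA_apply, MvPolynomial.mapAlgHom_apply]

theorem jR_X (i : ι) : jR (X i : Rx ι) = X i := by
  simp [jR, MvPolynomial.mapAlgHom_apply]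

theorem jR_apply (p : Rx ι) : jR p = MvPolynomial.map (algebraMap (Px ι) (Fx ι)) p := rfl

theorem jR_injective : Function.Injective (jR : Rx ι → Ax ι) := by
  intro p q h
  rw [jR_apply, jR_apply] at h
  exact MvPolynomial.map_injective _ (IsFractionRing.injective (Px ι) (Fx ι)) h

theorem coeff_jR (p : Rx ι) (m : ι →₀ ℕ) : coeff m (jR p) = pF (coeff m p) := by
  rw [jR_apply, MvPolynomial.coeff_map, pF_apply]

end Embeddings

section Linear

variable {V : Type} [AddCommGroup V] [Module ℂ V]
variable {ι : Type} [Fintype ι]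

/-- linear functions on `V` as polynomials. -/
noncomputable def xl (b : Basis ι ℂ V) : Dual ℂ V →ₗ[ℂ] Px ι where
  toFun f := ∑ i, f (b i) • (X i : Px ι)
  map_add' f g := by simp [add_smul, Finset.sum_add_distrib]
  map_smul' c f := by simp [Finset.smul_sum, smul_smul]

/-- vectors of `V` (linear functions on `V*`) as elements of `ℂ[V][ξ]`. -/
noncomputable def yR (b : Basis ι ℂ V) : V →ₗ[ℂ] Rx ι where
  toFun v := ∑ i, (b.repr v i) • (X i : Rx ι)
  map_add' f g := by simp [add_smul, Finset.sum_add_distrib]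
  map_smul' c f := by simp [Finset.smul_sum, smul_smul]

/-- vectors of `V` (linear functions on `V*`) as elements of `ℂ(V)[ξ]`. -/
noncomputable def yA (b : Basis ι ℂ V) : V →ₗ[ℂ] Ax ι where
  toFun v := ∑ i, (b.repr v i) • (X i : Ax ι)
  map_add' f g := by simp [add_smul, Finset.sum_add_distrib]
  map_smul' c f := by simp [Finset.smul_sum, smul_smul]

theorem xl_apply (b : Basis ι ℂ V) (f : Dual ℂ V) : xl b f = ∑ i, f (b i) • (X i : Px ι) := rfl
theorem yR_apply (b : Basis ι ℂ V) (v : V) : yR b v = ∑ i, (b.repr v i) • (X i : Rx ι) := rfl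
theorem yA_apply (b : Basis ι ℂ V) (v : V) : yA b v = ∑ i, (b.repr v i) • (X i : Ax ι) := rfl

theorem jR_yR (b : Basis ι ℂ V) (v : V) : jR (yR b v) = yA b v := by
  simp [yR_apply, yA_apply, map_sum, map_smul, jR_X]

theorem xl_coord [DecidableEq ι] (b : Basis ι ℂ V) (i : ι) : xl b (b.coord i) = X i := by
  rw [xl_apply, Finset.sum_eq_single i]
  · simp
  · intro j _ hj; simp [Basis.coord_apply, Basis.repr_self, Finsupp.single_eq_of_ne hj.symm]
  · intro h; exact absurd (Finset.mem_univ i) h

theorem yR_basis [DecidableEq ι] (b : Basis ι ℂ V) (i : ι) : yR b (b i) = X i := by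
  rw [yR_apply, Finset.sum_eq_single i]
  · simp
  · intro j _ hj; simp [Basis.repr_self, Finsupp.single_eq_of_ne hj]
  · intro h; exact absurd (Finset.mem_univ i) h

theorem yA_basis [DecidableEq ι] (b : Basis ι ℂ V) (i : ι) : yA b (b i) = X i := by
  rw [← jR_yR, yR_basis, jR_X]

end Linear

end Pool.Agent.CM64
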