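import Pool.Agent.LibCM64.Grp

/-! The cyclic groups `W_H`, continued: characters and the projection `P_H`. -/

set_option linter.unusedSectionVars false

namespace Pool.Agent.CM64

open Module MvPolynomial

section

variable {V : Type} [AddCommGroup V] [Module ℂ V] [FiniteDimensional ℂ V]
variable (W : Subgroup (V ≃ₗ[ℂ] V)) [Finite W]

/-- the determinant as a homomorphism on `W_H`. -/
noncomputable def grpB_hom (H : Submodule ℂ V) : pst W H →* ℂ where
  toFun g := dt (g : V ≃ₗ[ℂ] V)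
  map_one' := dt_one
  map_mul' _ _ := dt_mul _ _

theorem grpB_sum_coe (H : Submodule ℂ V) [Fintype (pst W H)] (F : (V ≃ₗ[ℂ] V) → ℂ) :
    ∑ g ∈ pstF W H, F g = ∑ g : pst W H, F (g : V ≃ₗ[ℂ] V) := by
  refine (Finset.sum_subtype (pstF W H) (fun x => ?_) F)
  exact mem_pstF

/-- orthogonality: the values of `det` on `W_H` are all the `e_H`-th roots of unity. -/
theorem sum_dt_pow {H : Submodule ℂ V} (hH : finrank ℂ H + 1 = finrank ℂ V) (j : ℕ) :
    ∑ g ∈ pstF W H, dt g ^ j = if eH W H ∣ j then (eH W H : ℂ) else 0 := by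
  classical
  have : Fintype (pst W H) := Fintype.ofFinite _
  rw [grpB_sum_coe W H (fun g => dt g ^ j)]
  split_ifs with hd
  · obtain ⟨m, hm⟩ := hd
    have h1 : ∀ g : pst W H, dt (g : V ≃ₗ[ℂ] V) ^ j = 1 := fun g => by
      rw [hm, pow_mul, dt_pow_eH W g.2, one_pow]
    rw [Finset.sum_congr rfl (fun g _ => h1 g), Finset.sum_const, Finset.card_univ, nsmul_eq_mul,
      mul_one, eH, Nat.card_eq_fintype_card]
  · have hne : (grpB_hom W H) ^ j ≠ 1 := by
      intro hcon
      apply hd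
      have hinj : Function.Injective (grpB_hom W H) := by
        rw [injective_iff_map_eq_one]
        intro a ha
        exact Subtype.ext (dt_injOn W hH a.2 ha)
      have : IsCyclic (pst W H) := isCyclic_of_injective_ringHom (grpB_hom W H) hinj
      have hexp : Monoid.exponent (pst W H) ∣ j := by
        apply Monoid.exponent_dvd_of_forall_pow_eq_one
        intro g
        apply hinj
        rw [map_pow, map_one]
        exact DFunLike.congr_fun hcon g
      rwa [IsCyclic.exponent_eq_card] at hexp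
    exact sum_hom_units_eq_zero ((grpB_hom W H) ^ j) hne

/-- dual orthogonality. -/
theorem sum_range_dt_pow {H : Submodule ℂ V} (hH : finrank ℂ H + 1 = finrank ℂ V) {g : V ≃ₗ[ℂ] V}
    (hg : g ∈ pst W H) (hg1 : g ≠ 1) : ∑ j ∈ Finset.range (eH W H), dt g ^ j = 0 := by
  have hne : dt g - 1 ≠ 0 := fun h => hg1 (dt_injOn W hH hg (sub_eq_zero.1 h))
  have h := geom_sum_mul (dt g) (eH W H)
  rw [dt_pow_eH W hg, sub_self] at h
  exact (mul_eq_zero.1 h).resolve_right hne

theorem grpB_projH_apply (H : Submodule ℂ V) (v : V) :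
    projH W H v = v - (eH W H : ℂ)⁻¹ • ∑ g ∈ pstF W H, g v := by
  unfold projH
  rw [LinearMap.sub_apply, LinearMap.smul_apply, LinearMap.sum_apply]
  rfl

theorem grpB_eH_ne (H : Submodule ℂ V) : (eH W H : ℂ) ≠ 0 :=
  Nat.cast_ne_zero.2 (eH_pos W H).ne'

theorem projH_of_mem (H : Submodule ℂ V) {v : V} (hv : v ∈ H) : projH W H v = 0 := by
  rw [grpB_projH_apply]
  have h1 : ∀ g ∈ pstF W H, g v = v := fun g hg => (mem_pstF.1 hg).2 v hv
  rw [Finset.sum_congr rfl h1, Finset.sum_const, card_pstF, ← Nat.cast_smul_eq_nsmul ℂ, smul_smul,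
    inv_mul_cancel₀ (grpB_eH_ne W H), one_smul, sub_self]

theorem grpB_sum_left (H : Submodule ℂ V) {g : V ≃ₗ[ℂ] V} (hg : g ∈ pst W H) (v : V) :
    ∑ h ∈ pstF W H, (g * h) v = ∑ h ∈ pstF W H, h v := by
  refine Finset.sum_bij (fun h _ => g * h) ?_ ?_ ?_ ?_
  · intro h hh
    exact mem_pstF.2 (mul_mem hg (mem_pstF.1 hh))
  · intro a _ b _ hab
    exact mul_left_cancel hab
  · intro b hb
    refine ⟨g⁻¹ * b, mem_pstF.2 (mul_mem (inv_mem hg) (mem_pstF.1 hb)), ?_⟩
    rw [mul_inv_cancel_left]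
  · intro a _
    rfl

theorem grpB_sum_apply_projH (H : Submodule ℂ V) (v : V) :
    ∑ g ∈ pstF W H, g (projH W H v) = 0 := by
  have h1 : ∀ g ∈ pstF W H, g (projH W H v) =
      g v - (eH W H : ℂ)⁻¹ • ∑ h ∈ pstF W H, h v := by
    intro g hg
    rw [grpB_projH_apply, map_sub, map_smul, map_sum, ← grpB_sum_left W H (mem_pstF.1 hg)]
    rfl
  rw [Finset.sum_congr rfl h1, Finset.sum_sub_distrib, Finset.sum_const, card_pstF,
    ← Nat.cast_smul_eq_nsmul ℂ, smul_smul, mul_inv_cancel₀ (grpB_eH_ne W H), one_smul, sub_self]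

theorem grpB_projH_idem (H : Submodule ℂ V) (v : V) :
    projH W H (projH W H v) = projH W H v := by
  rw [grpB_projH_apply W H (projH W H v), grpB_sum_apply_projH, smul_zero, sub_zero]

theorem grpB_sub_projH {H : Submodule ℂ V} {g : V ≃ₗ[ℂ] V}
    (hg : g ∈ pst W H) (v : V) : projH W H v - g (projH W H v) = v - g v := by
  rw [grpB_projH_apply, map_sub, map_smul, map_sum]
  have h := grpB_sum_left W H hg v
  have h2 : ∑ x ∈ pstF W H, g (x v) = ∑ x ∈ pstF W H, x v := h
  rw [h2]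
  abel

theorem grpB_vec {H : Submodule ℂ V} (hH : finrank ℂ H + 1 = finrank ℂ V) :
    ∃ u : V, (∀ v, projH W H v = lf H v • u) := by
  choose w hw using fun g : pst W H => grp_form W hH g.2
  classical
  have : Fintype (pst W H) := Fintype.ofFinite _
  refine ⟨-((eH W H : ℂ)⁻¹ • ∑ g : pst W H, w g), fun v => ?_⟩
  rw [grpB_projH_apply]
  have h1 : ∑ g ∈ pstF W H, g v = ∑ g : pst W H, (g : V ≃ₗ[ℂ] V) v :=
    Finset.sum_subtype (pstF W H) (fun x => mem_pstF) (fun g => g v)
  have h2 : ∀ g : pst W H, (g : V ≃ₗ[ℂ] V) v = v + lf H v • w g := fun g => (hw g).1 v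
  have h3 : (Finset.univ : Finset (pst W H)).card = eH W H := by
    rw [Finset.card_univ, eH, Nat.card_eq_fintype_card]
  rw [h1, Finset.sum_congr rfl (fun g _ => h2 g), Finset.sum_add_distrib, Finset.sum_const, h3,
    ← Nat.cast_smul_eq_nsmul ℂ, smul_add, smul_smul, inv_mul_cancel₀ (grpB_eH_ne W H), one_smul,
    ← Finset.smul_sum, smul_comm, smul_neg]
  abel

/-- `v - g v = (1 - det g) P_H v`. -/
theorem sub_apply_eq {H : Submodule ℂ V} (hH : finrank ℂ H + 1 = finrank ℂ V) {g : V ≃ₗ[ℂ] V}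
    (hg : g ∈ pst W H) (v : V) : v - g v = (1 - dt g) • projH W H v := by
  obtain ⟨u, hu⟩ := grpB_vec W hH
  obtain ⟨w, hw, hd⟩ := grp_form W hH hg
  -- `w = (g - 1) e₀` for every `e₀` with `lf H e₀ = 1`
  obtain ⟨hne, hker⟩ := lf_spec H hH
  obtain ⟨e, he⟩ : ∃ e, lf H e = 1 := by
    obtain ⟨e, he⟩ : ∃ e, lf H e ≠ 0 := by
      by_contra hcon
      push Not at hcon
      exact hne (LinearMap.ext hcon)
    exact ⟨(lf H e)⁻¹ • e, by rw [map_smul, smul_eq_mul, inv_mul_cancel₀ he]⟩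
  have hPe : projH W H e = u := by rw [hu, he, one_smul]
  -- w = φ(u) w
  have h1 : w = lf H u • w := by
    have h2 := grpB_sub_projH W hg e
    rw [hPe, hw u, hw e, he, one_smul] at h2
    have h3 : -(lf H u • w) = -w := by
      have e1 : u - (u + lf H u • w) = -(lf H u • w) := by abel
      have e2 : e - (e + w) = -w := by abel
      rw [e1, e2] at h2
      exact h2
    exact (neg_injective h3).symm
  -- P w = φ(w) u and P w = w because (g-1) commutes with the projection
  have hPw : projH W H w = w := by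
    -- `g` commutes with every `h ∈ W_H`
    have hcomm : ∀ h ∈ pst W H, h * g = g * h := by
      intro h hh
      have hm : (h * g) * (g * h)⁻¹ ∈ pst W H :=
        mul_mem (mul_mem hh hg) (inv_mem (mul_mem hg hh))
      have hd1 : dt ((h * g) * (g * h)⁻¹) = 1 := by
        have e3 : dt ((h * g) * (g * h)⁻¹) * dt (g * h) = dt (h * g) := by
          rw [← dt_mul, inv_mul_cancel_right]
        have e4 : dt (h * g) = dt (g * h) := by rw [dt_mul, dt_mul, mul_comm]
        rw [e4] at e3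
        exact mul_right_cancel₀ (dt_ne_zero (g * h)) (by rw [e3, one_mul])
      exact mul_inv_eq_one.1 (dt_injOn W hH hm hd1)
    have hwe : w = g e - e := by
      rw [hw e, he, one_smul]
      abel
    have hPg : ∀ v, projH W H (g v) = g (projH W H v) := by
      intro v
      rw [grpB_projH_apply, grpB_projH_apply, map_sub, map_smul, map_sum]
      congr 2
      refine Finset.sum_congr rfl fun h hh => ?_
      have h5 := hcomm h (mem_pstF.1 hh)
      have h6 : (h * g) v = (g * h) v := by rw [h5]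
      exact h6
    rw [hwe, map_sub, hPg]
    have h7 := grpB_sub_projH W hg e
    have h8 : g (projH W H e) - projH W H e = -(projH W H e - g (projH W H e)) := by abel
    rw [h8, h7]
    abel
  have h9 : w = lf H w • u := by rw [← hu, hPw]
  have hd' : lf H w = dt g - 1 := by rw [hd]; ring
  rw [hw v, hu v, smul_smul]
  have h10 : v - (v + lf H v • w) = -(lf H v • w) := by abel
  rw [h10]
  nth_rewrite 1 [h9]
  rw [hd', smul_smul, ← neg_smul]
  congr 1
  ring

theorem apply_projH {H : Submodule ℂ V} (hH : finrank ℂ H + 1 = finrank ℂ V) {g : V ≃ₗ[ℂ] V}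
    (hg : g ∈ pst W H) (v : V) : g (projH W H v) = dt g • projH W H v := by
  have h := sub_apply_eq W hH hg (projH W H v)
  rw [grpB_projH_idem, sub_smul, one_smul] at h
  exact sub_right_injective h

/-- for a reflecting hyperplane `α_H (P_H v) = α_H v`. -/
theorem lf_projH {H : Submodule ℂ V} (hH : H ∈ arr W) (v : V) : lf H (projH W H v) = lf H v := by
  obtain ⟨hH1, g, hg, hg1⟩ := (mem_arr_iff W).1 hH
  obtain ⟨u, hu⟩ := grpB_vec W hH1
  have hidem := grpB_projH_idem W H
  obtain ⟨e, he⟩ : ∃ e, projH W H e ≠ 0 := by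
    by_contra hcon
    push Not at hcon
    apply hg1
    ext x
    have h := sub_apply_eq W hH1 hg x
    rw [hcon x, smul_zero] at h
    exact (sub_eq_zero.1 h).symm
  have h1 := hidem e
  rw [hu (projH W H e)] at h1
  have hu0 : u ≠ 0 := by
    intro h0
    rw [hu e, h0, smul_zero] at he
    exact he rfl
  have h2 : lf H u = 1 := by
    rw [hu e, map_smul, smul_eq_mul] at h1
    have h3 : (lf H e * lf H u - lf H e) • u = 0 := by
      rw [sub_smul, h1, sub_self]
    rcases smul_eq_zero.1 h3 with h4 | h4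
    · have hle : lf H e ≠ 0 := by
        intro h0
        rw [hu e, h0, zero_smul] at he
        exact he rfl
      have h5 : lf H e * (lf H u - 1) = 0 := by rw [mul_sub, mul_one]; exact h4
      exact sub_eq_zero.1 ((mul_eq_zero.1 h5).resolve_left hle)
    · exact absurd h4 hu0
  rw [hu v, map_smul, h2, smul_eq_mul, mul_one]

theorem lf_smul_projH {H : Submodule ℂ V} (hH : finrank ℂ H + 1 = finrank ℂ V) (v v' : V) :
    lf H v' • projH W H v = lf H v • projH W H v' := by
  obtain ⟨u, hu⟩ := grpB_vec W hH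
  rw [hu v, hu v', smul_smul, smul_smul, mul_comm]

theorem grpB_dt_inv (g : V ≃ₗ[ℂ] V) : dt g⁻¹ = (dt g)⁻¹ := by
  have h : dt g⁻¹ * dt g = 1 := by rw [← dt_mul, inv_mul_cancel, dt_one]
  exact eq_inv_of_mul_eq_one_left h

/-- `α_H(v) (x ∘ g⁻¹ - x) = (det(g)⁻¹ - 1) x(P_H v) α_H`. -/
theorem form_sub_eq {H : Submodule ℂ V} (hH : finrank ℂ H + 1 = finrank ℂ V) {g : V ≃ₗ[ℂ] V}
    (hg : g ∈ pst W H) (f : Dual ℂ V) (v : V) :
    lf H v • (f.comp (g.symm : V →ₗ[ℂ] V) - f) = (((dt g)⁻¹ - 1) * f (projH W H v)) • lf H := by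
  ext x
  have h1 := sub_apply_eq W hH (inv_mem hg) x
  rw [grpB_dt_inv] at h1
  have h2 : g.symm x = x - (1 - (dt g)⁻¹) • projH W H x := by
    rw [← h1]
    have : g⁻¹ x = g.symm x := rfl
    rw [this]
    abel
  have h3 := congrArg f (lf_smul_projH W hH x v)
  rw [map_smul, map_smul, smul_eq_mul, smul_eq_mul] at h3
  simp only [LinearMap.smul_apply, LinearMap.sub_apply, LinearMap.comp_apply,
    LinearEquiv.coe_coe, smul_eq_mul]
  rw [h2, map_sub, map_smul, smul_eq_mul]
  linear_combination ((dt g)⁻¹ - 1) * h3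

/-- `α_H ∘ g⁻¹ = det(g)⁻¹ α_H`. -/
theorem lf_comp_symm {H : Submodule ℂ V} (hH : finrank ℂ H + 1 = finrank ℂ V) {g : V ≃ₗ[ℂ] V}
    (hg : g ∈ pst W H) : (lf H).comp (g.symm : V →ₗ[ℂ] V) = (dt g)⁻¹ • lf H := by
  obtain ⟨w, hw, hd⟩ := grp_form W hH (inv_mem hg)
  rw [grpB_dt_inv] at hd
  ext x
  have h1 : g.symm x = x + lf H x • w := hw x
  simp only [LinearMap.smul_apply, LinearMap.comp_apply, LinearEquiv.coe_coe, smul_eq_mul]
  rw [h1, map_add, map_smul, smul_eq_mul, hd]
  ring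

end

section

variable {V : Type} [AddCommGroup V] [Module ℂ V] [FiniteDimensional ℂ V]
variable (W : Subgroup (V ≃ₗ[ℂ] V)) [Finite W] (k : Submodule ℂ V → ℤ → ℂ)

/-- `∑_g κ_H(g) = 0`. -/
theorem sum_kap {H : Submodule ℂ V} (hH : finrank ℂ H + 1 = finrank ℂ V) :
    ∑ g ∈ pstF W H, kap W k H g = 0 := by
  unfold kap
  rw [Finset.sum_comm]
  apply Finset.sum_eq_zero
  intro j hj
  rw [← Finset.mul_sum, sum_dt_pow W hH]
  split_ifs with hd
  · have hj0 : j = 0 := Nat.eq_zero_of_dvd_of_lt hd (Finset.mem_range.1 hj)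
    subst hj0
    simp
  · rw [mul_zero]

/-- `κ_H(g)(det(g)⁻¹ - 1) = ∑_j (k_{H,j} - k_{H,j+1}) det(g)^j`. -/
theorem kap_mul (hk : Adm W k) {H : Submodule ℂ V} (hH : H ∈ arr W) {g : V ≃ₗ[ℂ] V}
    (hg : g ∈ pst W H) :
    kap W k H g * ((dt g)⁻¹ - 1) = ∑ j ∈ Finset.range (eH W H), (k H j - k H (j + 1)) * dt g ^ j := by
  have hz := dt_ne_zero g
  have hze := dt_pow_eH W hg
  have hshift : ∑ j ∈ Finset.range (eH W H), (k H 0 - k H (j + 1)) * dt g ^ (j + 1) =
      ∑ j ∈ Finset.range (eH W H), (k H 0 - k H j) * dt g ^ j := by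
    have h1 := Finset.sum_range_succ' (fun j : ℕ => (k H 0 - k H j) * dt g ^ j) (eH W H)
    have h2 := Finset.sum_range_succ (fun j : ℕ => (k H 0 - k H j) * dt g ^ j) (eH W H)
    rw [h2] at h1
    have h3 : k H ((eH W H : ℕ) : ℤ) = k H 0 := by
      have := hk.per H hH 0
      rwa [zero_add] at this
    rw [h3, sub_self, zero_mul, add_zero] at h1
    rw [h1]
    push_cast
    rw [sub_self, zero_mul, add_zero]
  have h4 : kap W k H g * (dt g)⁻¹ =
      ∑ j ∈ Finset.range (eH W H), (k H 0 - k H (j + 1)) * dt g ^ j := by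
    rw [mul_inv_eq_iff_eq_mul₀ hz]
    unfold kap
    rw [Finset.sum_mul, ← hshift]
    apply Finset.sum_congr rfl
    intro j _
    rw [pow_succ]
    ring
  rw [mul_sub, h4, mul_one]
  unfold kap
  rw [← Finset.sum_sub_distrib]
  apply Finset.sum_congr rfl
  intro j _
  ring

end

end Pool.Agent.CM64
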