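import Pool.Agent.LibCM64.Inv
import Pool.Agent.LibCM64.GrpB

/-! Chevalley's lemma. -/

set_option linter.unusedSectionVars false

namespace Pool.Agent.CM64

open Module MvPolynomial

section

variable {V : Type} [AddCommGroup V] [Module ℂ V] [FiniteDimensional ℂ V]
variable {ι : Type} [Fintype ι] [DecidableEq ι]
variable (Γ : Subgroup (V ≃ₗ[ℂ] V)) [Finite Γ]

/-- the ideal of `ℂ[V]` generated by the homogeneous invariants of positive degree. -/
noncomputable def Ipos (b : Basis ι ℂ V) : Ideal (Px ι) :=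
  Ideal.span {p | PInv Γ b p ∧ ∃ n, 0 < n ∧ p.IsHomogeneous n}

/-- a linear form vanishing where `p` vanishes on a hyperplane divides `p`. -/
theorem xl_dvd_of_vanish (b : Basis ι ℂ V) {f : Dual ℂ V} (hf : f ≠ 0) {p : Px ι}
    (h : ∀ v, f v = 0 → evP b v p = 0) : xl b f ∣ p := by
  obtain ⟨w, hw⟩ : ∃ w, f w ≠ 0 := by
    by_contra hc
    push Not at hc
    exact hf (LinearMap.ext hc)
  obtain ⟨e, he⟩ : ∃ e, f e = 1 := by
    refine ⟨(f w)⁻¹ • w, ?_⟩
    rw [map_smul, smul_eq_mul, inv_mul_cancel₀ hw]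
  set θ : Px ι →ₐ[ℂ] Px ι := aeval (fun i => X i - C (b.repr e i) * xl b f) with hθ
  have hcong : ∀ q : Px ι, xl b f ∣ q - θ q := by
    have hhom : (Ideal.Quotient.mkₐ ℂ (Ideal.span {xl b f})).comp θ
        = Ideal.Quotient.mkₐ ℂ (Ideal.span {xl b f}) := by
      apply MvPolynomial.algHom_ext
      intro i
      rw [AlgHom.comp_apply, hθ, aeval_X, map_sub, map_mul]
      have : (Ideal.Quotient.mkₐ ℂ (Ideal.span {xl b f})) (xl b f) = 0 := by
        rw [Ideal.Quotient.mkₐ_eq_mk, Ideal.Quotient.eq_zero_iff_mem]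
        exact Ideal.subset_span rfl
      rw [this, mul_zero, sub_zero]
    intro q
    rw [← Ideal.mem_span_singleton, ← Ideal.Quotient.eq_zero_iff_mem, map_sub, sub_eq_zero]
    have h1 := congrArg (fun F : Px ι →ₐ[ℂ] (Px ι ⧸ Ideal.span {xl b f}) => F q) hhom
    exact h1.symm
  have hev : ∀ v (q : Px ι), evP b v (θ q) = evP b (v - f v • e) q := by
    intro v
    have hhom : (evP b v).comp θ = evP b (v - f v • e) := by
      apply MvPolynomial.algHom_ext
      intro i
      rw [AlgHom.comp_apply, hθ, aeval_X, map_sub, map_mul, evP_xl]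
      have e1 : evP b v (C (b.repr e i)) = b.repr e i := by
        unfold evP
        rw [aeval_C]
        rfl
      have e2 : ∀ u : V, evP b u (X i) = b.repr u i := by
        intro u
        unfold evP
        rw [aeval_X]
      rw [e1, e2, e2, map_sub, map_smul]
      simp only [Finsupp.sub_apply, Finsupp.smul_apply, smul_eq_mul]
      ring
    intro q
    rw [← hhom]
    rfl
  have hz : θ p = 0 := by
    apply evP_ext b
    intro v
    rw [hev, map_zero]
    apply h
    rw [map_sub, map_smul, he, smul_eq_mul, mul_one, sub_self]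
  have := hcong p
  rw [hz, sub_zero] at this
  exact this

private theorem chevA_comp_mul {d : Px ι} (hd : d.IsHomogeneous 1) (q : Px ι) (n : ℕ) :
    homogeneousComponent (n + 1) (d * q) = d * homogeneousComponent n q := by
  conv_lhs => rw [← sum_homogeneousComponent q]
  rw [Finset.mul_sum, map_sum]
  have key : ∀ k, homogeneousComponent (n + 1) (d * homogeneousComponent k q)
      = if k = n then d * homogeneousComponent n q else 0 := by
    intro k
    have hk : (d * homogeneousComponent k q).IsHomogeneous (1 + k) :=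
      hd.mul (homogeneousComponent_isHomogeneous k q)
    rw [homogeneousComponent_of_mem hk]
    by_cases hkn : k = n
    · subst hkn
      rw [if_pos (by omega), if_pos rfl]
    · rw [if_neg (by omega), if_neg hkn]
  rw [Finset.sum_congr rfl (fun k _ => key k), Finset.sum_ite_eq']
  by_cases hn : n ∈ Finset.range (q.totalDegree + 1)
  · rw [if_pos hn]
  · rw [if_neg hn]
    have : homogeneousComponent n q = 0 := by
      apply homogeneousComponent_eq_zero
      rw [Finset.mem_range] at hn
      omega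
    rw [this, mul_zero]

private theorem chevA_quot {d : Px ι} (hd : d.IsHomogeneous 1) (hd0 : d ≠ 0) {q : Px ι} {e : ℕ}
    (h : (d * q).IsHomogeneous (e + 1)) : q.IsHomogeneous e := by
  have hn : ∀ n, n ≠ e → homogeneousComponent n q = 0 := by
    intro n hne
    have h1 := chevA_comp_mul hd q n
    rw [homogeneousComponent_of_mem h, if_neg (by omega)] at h1
    rcases mul_eq_zero.1 h1.symm with h2 | h2
    · exact absurd h2 hd0
    · exact h2
  rw [← sum_homogeneousComponent q]
  apply IsHomogeneous.sum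
  intro n _
  by_cases hne : n = e
  · rw [hne]
    exact homogeneousComponent_isHomogeneous e q
  · rw [hn n hne]
    exact isHomogeneous_zero _ _ _

/-- for a reflection `s` with hyperplane `H`, `α_H` divides `s p - p`; the quotient is homogeneous of degree one
less (it is `0` if `p` is constant). -/
theorem refl_dvd (b : Basis ι ℂ V) {s : V ≃ₗ[ℂ] V} (hs : IsRefl s) (p : Px ι) :
    ∃ q, trP b b s p - p = xl b (lf (fixSub s)) * q ∧ ∀ e, p.IsHomogeneous e → q.IsHomogeneous (e - 1) ∧
      (e = 0 → q = 0) := by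
  have hH : finrank ℂ (fixSub s) + 1 = finrank ℂ V := hs
  have hdvd : xl b (lf (fixSub s)) ∣ trP b b s p - p := by
    apply xl_dvd_of_vanish b (lf_spec _ hH).1
    intro v hv
    have hv' : s v = v := (mem_iff_lf _ hH v).2 hv
    have hv2 : s.symm v = v := by
      rw [LinearEquiv.symm_apply_eq, hv']
    rw [map_sub, evP_trP, hv2, sub_self]
  obtain ⟨q, hq⟩ := hdvd
  have hne := xl_lf_ne_zero b (fixSub s) hH
  refine ⟨q, hq, fun e he => ?_⟩
  have hhom : (xl b (lf (fixSub s)) * q).IsHomogeneous e := by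
    rw [← hq]
    exact (trP_isHomogeneous b b s he).sub he
  rcases Nat.eq_zero_or_pos e with h0 | h0
  · subst h0
    have hp : p = C (coeff 0 p) := by
      rw [← homogeneousComponent_zero, homogeneousComponent_of_mem he, if_pos rfl]
    have htr : trP b b s p = p := by
      rw [hp]
      exact (trP b b s).commutes _
    have hq0 : q = 0 := by
      rw [htr, sub_self] at hq
      rcases mul_eq_zero.1 hq.symm with h2 | h2
      · exact absurd h2 hne
      · exact h2
    refine ⟨?_, fun _ => hq0⟩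
    rw [hq0]
    exact isHomogeneous_zero _ _ _
  · refine ⟨?_, fun h => by omega⟩
    apply chevA_quot (xl_isHomogeneous b _) hne
    rw [Nat.sub_add_cancel h0]
    exact hhom

private theorem chevA_Ipos_stable (b : Basis ι ℂ V) {g : V ≃ₗ[ℂ] V} (hg : g ∈ Γ) {p : Px ι}
    (hp : p ∈ Ipos Γ b) : trP b b g p ∈ Ipos Γ b := by
  unfold Ipos at hp
  refine Submodule.span_induction (p := fun x _ => trP b b g x ∈ Ipos Γ b) ?_ ?_ ?_ ?_ hp
  · rintro x ⟨hx, n, hn, hxn⟩
    rw [hx g hg]
    exact Ideal.subset_span ⟨hx, n, hn, hxn⟩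
  · rw [map_zero]
    exact zero_mem _
  · intro x y _ _ hx hy
    rw [map_add]
    exact add_mem hx hy
  · intro a x _ hx
    rw [smul_eq_mul, map_mul]
    exact Ideal.mul_mem_left _ _ hx

private theorem chevA_avg (b : Basis ι ℂ V) {p : Px ι} {e : ℕ} (he : 0 < e) (hp : p.IsHomogeneous e)
    (h : ∀ g ∈ Γ, trP b b g p - p ∈ Ipos Γ b) : p ∈ Ipos Γ b := by
  have hcard : ((elF Γ).card : ℂ) ≠ 0 := by
    rw [Nat.cast_ne_zero, Finset.card_ne_zero]
    exact ⟨1, (mem_elF Γ).2 (one_mem _)⟩
  have hr : reyP Γ b p ∈ Ipos Γ b :=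
    Ideal.subset_span ⟨reyP_inv Γ b p, e, he, reyP_isHomogeneous Γ b hp⟩
  have hs : (∑ g ∈ elF Γ, (trP b b g p - p)) ∈ Ipos Γ b :=
    sum_mem (fun g hg => h g ((mem_elF Γ).1 hg))
  have heq : p = reyP Γ b p - C ((elF Γ).card : ℂ)⁻¹ * ∑ g ∈ elF Γ, (trP b b g p - p) := by
    have e1 : reyP Γ b p = C ((elF Γ).card : ℂ)⁻¹ * ∑ g ∈ elF Γ, trP b b g p := by
      unfold reyP
      rw [LinearMap.smul_apply, LinearMap.sum_apply, ← smul_eq_C_mul]
      rfl
    rw [e1, Finset.sum_sub_distrib, Finset.sum_const, nsmul_eq_mul, mul_sub]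
    have e2 : C ((elF Γ).card : ℂ)⁻¹ * (((elF Γ).card : Px ι) * p) = p := by
      rw [← mul_assoc]
      have e3 : (((elF Γ).card : ℕ) : Px ι) = C ((elF Γ).card : ℂ) := by
        rw [map_natCast]
      rw [e3, ← C_mul, inv_mul_cancel₀ hcard, C_1, one_mul]
    rw [e2]
    ring
  rw [heq]
  exact sub_mem hr (Ideal.mul_mem_left _ _ hs)

/-- Chevalley's lemma (by induction on the degree `e` of `p i₀`): apply `s - 1` and divide by `α_s`. -/
theorem chevalley_lemma (hΓ : ReflGen Γ) (b : Basis ι ℂ V) {κ : Type} [Fintype κ] [DecidableEq κ] (f : κ → Px ι)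
    (hf : ∀ i, PInv Γ b (f i)) (i₀ : κ) (h0 : f i₀ ∉ Ideal.span {q | ∃ j, j ≠ i₀ ∧ q = f j}) (e : ℕ)
    (p : κ → Px ι) (hp : (p i₀).IsHomogeneous e) (hsum : ∑ i, f i * p i = 0) : p i₀ ∈ Ipos Γ b := by
  induction e generalizing p with
  | zero =>
    have hc : p i₀ = C (coeff 0 (p i₀)) := by
      rw [← homogeneousComponent_zero, homogeneousComponent_of_mem hp, if_pos rfl]
    by_cases h : coeff 0 (p i₀) = 0
    · rw [hc, h, C_0]
      exact zero_mem _
    · exfalso
      apply h0
      set I := Ideal.span {q | ∃ j, j ≠ i₀ ∧ q = f j} with hI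
      have h1 : f i₀ * p i₀ ∈ I := by
        rw [← Finset.add_sum_erase Finset.univ (fun i => f i * p i) (Finset.mem_univ i₀)] at hsum
        have h2 : f i₀ * p i₀ = - ∑ x ∈ Finset.univ.erase i₀, f x * p x := by
          rw [eq_neg_iff_add_eq_zero]
          exact hsum
        rw [h2]
        apply neg_mem
        apply sum_mem
        intro j hj
        apply Ideal.mul_mem_right
        exact Ideal.subset_span ⟨j, (Finset.mem_erase.1 hj).1, rfl⟩
      have h3 : f i₀ = (f i₀ * p i₀) * C (coeff 0 (p i₀))⁻¹ := by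
        conv_rhs => rw [hc]
        rw [mul_assoc, ← C_mul, coeff_C, if_pos rfl, mul_inv_cancel₀ h, C_1, mul_one]
      rw [h3]
      exact Ideal.mul_mem_right _ _ h1
  | succ e ih =>
    apply chevA_avg Γ b (Nat.succ_pos e) hp
    have hrefl : ∀ s ∈ Γ, IsRefl s → trP b b s (p i₀) - p i₀ ∈ Ipos Γ b := by
      intro s hsΓ hs
      choose q hq hqh using fun i => refl_dvd b hs (p i)
      rw [hq i₀]
      apply Ideal.mul_mem_left
      apply ih q
      · have := (hqh i₀ (e + 1) hp).1
        simpa using this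
      · have h1 : xl b (lf (fixSub s)) * ∑ i, f i * q i = 0 := by
          have h2 : xl b (lf (fixSub s)) * ∑ i, f i * q i
              = trP b b s (∑ i, f i * p i) - ∑ i, f i * p i := by
            rw [map_sum, ← Finset.sum_sub_distrib, Finset.mul_sum]
            refine Finset.sum_congr rfl (fun i _ => ?_)
            rw [map_mul, hf i s hsΓ, ← mul_sub, hq i]
            ring
          rw [h2, hsum, map_zero, sub_zero]
        rcases mul_eq_zero.1 h1 with h2 | h2
        · exact absurd h2 (xl_lf_ne_zero b (fixSub s) hs)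
        · exact h2
    intro g hg
    have hg' : g ∈ Subgroup.closure {s | s ∈ Γ ∧ IsRefl s} := by
      rw [hΓ]
      exact hg
    refine Subgroup.closure_induction
      (p := fun x _ => trP b b x (p i₀) - p i₀ ∈ Ipos Γ b) ?_ ?_ ?_ ?_ hg'
    · rintro x ⟨hx, hxr⟩
      exact hrefl x hx hxr
    · have : trP b b (1 : V ≃ₗ[ℂ] V) (p i₀) = p i₀ := by
        have h1 := congrArg (fun F : Px ι →ₐ[ℂ] Px ι => F (p i₀)) (trP_refl b)
        exact h1
      rw [this, sub_self]
      exact zero_mem _
    · intro x y hx hy h1 h2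
      have hxΓ : x ∈ Γ := by rw [← hΓ]; exact hx
      have e1 : trP b b (x * y) (p i₀) = trP b b x (trP b b y (p i₀)) := by
        rw [trP_trans_apply]
        rfl
      have e2 : trP b b (x * y) (p i₀) - p i₀
          = trP b b x (trP b b y (p i₀) - p i₀) + (trP b b x (p i₀) - p i₀) := by
        rw [e1, map_sub]
        ring
      rw [e2]
      exact add_mem (chevA_Ipos_stable Γ b hxΓ h2) h1
    · intro x hx h1
      have hxΓ : x ∈ Γ := by rw [← hΓ]; exact hx
      have e1 : trP b b x⁻¹ (trP b b x (p i₀)) = p i₀ := trP_symm_apply b b x (p i₀)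
      have e2 : trP b b x⁻¹ (p i₀) - p i₀
          = - trP b b x⁻¹ (trP b b x (p i₀) - p i₀) := by
        rw [map_sub, e1]
        ring
      rw [e2]
      exact neg_mem (chevA_Ipos_stable Γ b (inv_mem hxΓ) h1)

end

end Pool.Agent.CM64
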