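import Pool.Agent.LibCM64.ChevA

/-! `ℂ[V]` is generated by `|Γ|` elements over `ℂ[V]^Γ`. -/

set_option linter.unusedSectionVars false

namespace Pool.Agent.CM64

open Module MvPolynomial

section

variable {V : Type} [AddCommGroup V] [Module ℂ V] [FiniteDimensional ℂ V]
variable {ι : Type} [Fintype ι] [DecidableEq ι]
variable (Γ : Subgroup (V ≃ₗ[ℂ] V)) [Finite Γ]

/-- homogeneous components of a product with a homogeneous factor. -/
private theorem comp_mul_hom {r h : Px ι} {e : ℕ} (hh : h.IsHomogeneous e) (n : ℕ) :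
    homogeneousComponent n (r * h) = if e ≤ n then homogeneousComponent (n - e) r * h else 0 := by
  have h1 : ∀ k, homogeneousComponent n (homogeneousComponent k r * h) =
      if n = k + e then homogeneousComponent k r * h else 0 := by
    intro k
    exact homogeneousComponent_of_mem ((homogeneousComponent_isHomogeneous k r).mul hh)
  have h2 : homogeneousComponent n (r * h) =
      ∑ k ∈ Finset.range (r.totalDegree + 1), if n = k + e then homogeneousComponent k r * h else 0 := by
    conv_lhs => rw [← sum_homogeneousComponent r, Finset.sum_mul, map_sum]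
    exact Finset.sum_congr rfl fun k _ => h1 k
  rw [h2]
  split_ifs with hen
  · rw [Finset.sum_eq_single (n - e)]
    · rw [if_pos (by omega)]
    · intro k _ hk
      rw [if_neg (by omega)]
    · intro hk
      rw [if_pos (by omega), homogeneousComponent_eq_zero _ _ (by
        rw [Finset.mem_range] at hk
        omega), zero_mul]
  · refine Finset.sum_eq_zero fun k _ => ?_
    rw [if_neg (by omega)]

/-- an invariant times a homogeneous element, modulo `I`. -/
private theorem comp_mod (b : Basis ι ℂ V) {r h : Px ι} {e : ℕ} (hr : PInv Γ b r)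
    (hh : h.IsHomogeneous e) (n : ℕ) :
    ∃ a : ℂ, homogeneousComponent n (r * h) - a • h ∈ Ipos Γ b := by
  rw [comp_mul_hom hh n]
  split_ifs with hen
  · rcases Nat.eq_zero_or_pos (n - e) with h0 | h0
    · refine ⟨coeff 0 r, ?_⟩
      rw [h0, homogeneousComponent_zero, C_mul', sub_self]
      exact Ideal.zero_mem _
    · refine ⟨0, ?_⟩
      rw [zero_smul, sub_zero]
      refine Ideal.mul_mem_right _ _ (Ideal.subset_span ?_)
      exact ⟨PInv_homogeneousComponent hr _, n - e, h0, homogeneousComponent_isHomogeneous _ _⟩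
  · refine ⟨0, ?_⟩
    rw [zero_smul, sub_zero]
    exact Ideal.zero_mem _

/-- the homogeneous case. -/
private theorem indep_hom (hΓ : ReflGen Γ) (b : Basis ι ℂ V) {N : ℕ} (m : Fin N → ι →₀ ℕ)
    (h : LinearIndependent ℂ (fun j => Ideal.Quotient.mk (Ipos Γ b) (monomial (m j) 1)))
    {c : Fin N → Px ι} (hc : ∀ j, PInv Γ b (c j)) (D : ℕ)
    (hD : ∀ j, c j = 0 ∨ ((m j).degree ≤ D ∧ (c j).IsHomogeneous (D - (m j).degree)))
    (hsum : ∑ j, c j * monomial (m j) 1 = 0) : c = 0 := by
  classical
  by_contra hne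
  obtain ⟨j0, hj0⟩ : ∃ j, c j ≠ 0 := by
    by_contra hcon
    push Not at hcon
    exact hne (funext hcon)
  have hm : ∀ j, (monomial (m j) (1 : ℂ)).IsHomogeneous (m j).degree :=
    fun j => isHomogeneous_monomial _ rfl
  let P : Finset (Fin N) → Prop := fun A => ∀ j, c j ∈ Ideal.span (c '' (A : Set (Fin N)))
  have hPu : P Finset.univ := fun j => Ideal.subset_span ⟨j, by simp, rfl⟩
  obtain ⟨A, hA, hmin⟩ := Finset.exists_min_image (Finset.univ.filter P) Finset.card
    ⟨Finset.univ, by simp only [Finset.mem_filter, Finset.mem_univ, true_and]; exact hPu⟩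
  have hPA : P A := (Finset.mem_filter.1 hA).2
  have hirr : ∀ i ∈ A, c i ∉ Ideal.span (c '' ((A.erase i : Finset (Fin N)) : Set (Fin N))) := by
    intro i hi hcon
    have hle : Ideal.span (c '' (A : Set (Fin N))) ≤
        Ideal.span (c '' ((A.erase i : Finset (Fin N)) : Set (Fin N))) := by
      rw [Ideal.span_le]
      rintro _ ⟨j, hj, rfl⟩
      by_cases hji : j = i
      · rw [hji]
        exact hcon
      · exact Ideal.subset_span ⟨j, by simpa [hji] using hj, rfl⟩
    have hP' : P (A.erase i) := fun j => hle (hPA j)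
    have := hmin (A.erase i) (by
      simp only [Finset.mem_filter, Finset.mem_univ, true_and]
      exact hP')
    have h2 := Finset.card_erase_lt_of_mem hi
    omega
  obtain ⟨i0, hi0⟩ : A.Nonempty := by
    by_contra hcon
    rw [Finset.not_nonempty_iff_eq_empty] at hcon
    have h1 := hPA j0
    rw [hcon] at h1
    simp only [Finset.coe_empty, Set.image_empty, Ideal.span_empty, Ideal.mem_bot] at h1
    exact hj0 h1
  -- coefficients
  have hex : ∀ j, ∃ r : Fin N → Px ι, (∀ i, PInv Γ b (r i)) ∧ c j = ∑ i ∈ A, c i * r i := by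
    intro j
    have h1 := hPA j
    rw [Ideal.span, Submodule.mem_span_image_finset_iff_exists_fun'] at h1
    obtain ⟨r, hr⟩ := h1
    refine ⟨fun i => reyP Γ b (r i), fun i => reyP_inv Γ b _, ?_⟩
    have h2 := congrArg (reyP Γ b) hr
    rw [map_sum, reyP_of_inv Γ b (hc j)] at h2
    rw [← h2]
    refine Finset.sum_congr rfl fun i _ => ?_
    rw [smul_eq_mul, mul_comm, reyP_mul Γ b (hc i)]
  choose r hrinv hr using hex
  -- the relation
  let p : Fin N → Px ι := fun i => monomial (m i) 1 +
    ∑ j ∈ Aᶜ, r j i * monomial (m j) 1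
  have hrel : ∑ i ∈ A, c i * p i = 0 := by
    rw [← hsum, ← Finset.sum_add_sum_compl A]
    have h1 : ∑ j ∈ Aᶜ, c j * monomial (m j) (1 : ℂ) =
        ∑ i ∈ A, c i * ∑ j ∈ Aᶜ, r j i * monomial (m j) 1 := by
      have h2 : ∀ j ∈ Aᶜ, c j * monomial (m j) (1 : ℂ) =
          ∑ i ∈ A, c i * (r j i * monomial (m j) 1) := by
        intro j _
        conv_lhs => rw [hr j]
        rw [Finset.sum_mul]
        exact Finset.sum_congr rfl fun i _ => mul_assoc _ _ _
      rw [Finset.sum_congr rfl h2, Finset.sum_comm]
      exact Finset.sum_congr rfl fun i _ => (Finset.mul_sum _ _ _).symm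
    rw [h1, ← Finset.sum_add_distrib]
    exact Finset.sum_congr rfl fun i _ => mul_add _ _ _
  let q : Fin N → Px ι := fun i => homogeneousComponent (m i).degree (p i)
  have hrel2 : ∑ i ∈ A, c i * q i = 0 := by
    have h1 := congrArg (homogeneousComponent D) hrel
    rw [map_sum, map_zero] at h1
    rw [← h1]
    refine Finset.sum_congr rfl fun i _ => ?_
    rcases hD i with h2 | ⟨h2, h3⟩
    · rw [h2, zero_mul, zero_mul, map_zero]
    · have h4 : D - (D - (m i).degree) = (m i).degree := by omega
      have h5 : homogeneousComponent D (p i * c i) =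
          homogeneousComponent (m i).degree (p i) * c i := by
        rw [comp_mul_hom h3, if_pos (by omega), h4]
      rw [mul_comm (c i) (p i), h5, mul_comm]
  have hq : q i0 ∈ Ipos Γ b := by
    refine chevalley_lemma Γ hΓ b (κ := {i // i ∈ A}) (fun i => c i) (fun i => hc i) ⟨i0, hi0⟩ ?_
      (m i0).degree (fun i => q i) (homogeneousComponent_isHomogeneous _ _) ?_
    · have h1 : {x | ∃ j : {i // i ∈ A}, j ≠ ⟨i0, hi0⟩ ∧ x = c j} =
          c '' ((A.erase i0 : Finset (Fin N)) : Set (Fin N)) := by
        ext x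
        constructor
        · rintro ⟨⟨j, hj⟩, hj1, hj2⟩
          refine ⟨j, ?_, hj2.symm⟩
          rw [Finset.mem_coe, Finset.mem_erase]
          exact ⟨fun h2 => hj1 (Subtype.ext h2), hj⟩
        · rintro ⟨j, hj, rfl⟩
          rw [Finset.mem_coe, Finset.mem_erase] at hj
          exact ⟨⟨j, hj.2⟩, fun h2 => hj.1 (congrArg Subtype.val h2), rfl⟩
      rw [h1]
      exact hirr i0 hi0
    · rw [← hrel2]
      exact Finset.sum_coe_sort A (fun i => c i * q i)
  -- modulo `I`
  have hmod : ∀ j, ∃ a : ℂ, homogeneousComponent (m i0).degree (r j i0 * monomial (m j) (1 : ℂ)) -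
      a • monomial (m j) (1 : ℂ) ∈ Ipos Γ b := fun j => comp_mod Γ b (hrinv j i0) (hm j) _
  choose a ha using hmod
  have hfin : monomial (m i0) (1 : ℂ) + ∑ j ∈ Aᶜ, a j • monomial (m j) (1 : ℂ) ∈ Ipos Γ b := by
    have h1 : q i0 = monomial (m i0) (1 : ℂ) + ∑ j ∈ Aᶜ,
        homogeneousComponent (m i0).degree (r j i0 * monomial (m j) (1 : ℂ)) := by
      show homogeneousComponent (m i0).degree (monomial (m i0) 1 +
        ∑ j ∈ Aᶜ, r j i0 * monomial (m j) 1) = _
      rw [map_add, map_sum, homogeneousComponent_eq_self (hm i0)]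
    have h2 : monomial (m i0) (1 : ℂ) + ∑ j ∈ Aᶜ, a j • monomial (m j) (1 : ℂ) = q i0 -
        ∑ j ∈ Aᶜ, (homogeneousComponent (m i0).degree (r j i0 * monomial (m j) (1 : ℂ)) -
          a j • monomial (m j) (1 : ℂ)) := by
      rw [h1, Finset.sum_sub_distrib]
      ring
    rw [h2]
    exact Ideal.sub_mem _ hq (Ideal.sum_mem _ fun j _ => ha j)
  rw [Fintype.linearIndependent_iff] at h
  have h3 := h (fun j => if j = i0 then 1 else if j ∈ Aᶜ then a j else 0) (by
    have h4 := (Ideal.Quotient.eq_zero_iff_mem).2 hfin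
    rw [map_add, map_sum] at h4
    have h5 : ∀ (x : ℂ) (y : Px ι), Ideal.Quotient.mk (Ipos Γ b) (x • y) =
        x • Ideal.Quotient.mk (Ipos Γ b) y := fun x y => rfl
    simp_rw [h5] at h4
    rw [← h4, ← Finset.sum_add_sum_compl {i0}, Finset.sum_singleton, if_pos rfl, one_smul]
    congr 1
    have h6 : Aᶜ ⊆ ({i0} : Finset (Fin N))ᶜ := by
      intro j hj
      rw [Finset.mem_compl] at hj ⊢
      intro h7
      rw [Finset.mem_singleton] at h7
      exact hj (h7 ▸ hi0)
    rw [← Finset.sum_subset h6]
    · refine Finset.sum_congr rfl fun j hj => ?_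
      have h7 : j ≠ i0 := by
        intro h8
        rw [Finset.mem_compl] at hj
        exact hj (h8 ▸ hi0)
      rw [if_neg h7, if_pos hj]
    · intro j hj hj'
      rw [Finset.mem_compl, Finset.mem_singleton] at hj
      rw [if_neg hj, if_neg hj', zero_smul]) i0
  simp at h3

/-- homogeneous elements independent modulo `I` are independent over the invariants. If `∑ c_j h_j = 0` with `c_j`
homogeneous invariants, not all `0`, choose a minimal subset `A` of the `c_j` generating the ideal of `ℂ[V]^Γ`
generated by all the `c_j`, write `c_j = ∑_{i ∈ A} a_{ji} c_i` (`a_{ji}` homogeneous invariants) and apply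
`chevalley_lemma` to `∑_{i ∈ A} c_i (h_i + ∑_{j ∉ A} a_{ji} h_j) = 0`; an element of `ℂ[V]^Γ` in the ideal of `ℂ[V]`
generated by invariants `c_i` is in the ideal of `ℂ[V]^Γ` they generate (Reynolds operator). -/
theorem indep_of_indep_mod (hΓ : ReflGen Γ) (b : Basis ι ℂ V) {N : ℕ} (m : Fin N → ι →₀ ℕ)
    (h : LinearIndependent ℂ (fun j => Ideal.Quotient.mk (Ipos Γ b) (monomial (m j) 1)))
    {c : Fin N → Px ι} (hc : ∀ j, PInv Γ b (c j)) (hsum : ∑ j, c j * monomial (m j) 1 = 0) : c = 0 := by
  classical
  have hm : ∀ j, (monomial (m j) (1 : ℂ)).IsHomogeneous (m j).degree :=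
    fun j => isHomogeneous_monomial _ rfl
  funext j
  rw [Pi.zero_apply, ← sum_homogeneousComponent (c j)]
  refine Finset.sum_eq_zero fun k _ => ?_
  let D := k + (m j).degree
  let c' : Fin N → Px ι := fun i =>
    if (m i).degree ≤ D then homogeneousComponent (D - (m i).degree) (c i) else 0
  have h1 : c' = 0 := by
    refine indep_hom Γ hΓ b m h (fun i => ?_) D (fun i => ?_) ?_
    · simp only [c']
      split_ifs
      · exact PInv_homogeneousComponent (hc i) _
      · intro g _
        exact map_zero _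
    · simp only [c']
      split_ifs with h2
      · exact Or.inr ⟨h2, homogeneousComponent_isHomogeneous _ _⟩
      · exact Or.inl rfl
    · have h2 := congrArg (homogeneousComponent D) hsum
      rw [map_sum, map_zero] at h2
      rw [← h2]
      refine Finset.sum_congr rfl fun i _ => ?_
      rw [comp_mul_hom (hm i)]
      simp only [c']
      split_ifs
      · rfl
      · exact zero_mul _
  have h2 := congrFun h1 j
  simp only [c', D] at h2
  rw [if_pos (by omega), Nat.add_sub_cancel] at h2
  exact h2

end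

end Pool.Agent.CM64
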