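import Pool.Agent.LibCM64.ChevA

/-! `ℂ[V]` is generated by `|Γ|` elements over `ℂ[V]^Γ`. -/

set_option linter.unusedSectionVars false

namespace Pool.Agent.CM64

open Module MvPolynomial

section

variable {V : Type} [AddCommGroup V] [Module ℂ V] [FiniteDimensional ℂ V]
variable {ι : Type} [Fintype ι] [DecidableEq ι]
variable (Γ : Subgroup (V ≃ₗ[ℂ] V)) [Finite Γ]

/-- more than `|Γ|` polynomials are linearly dependent over the invariants (Artin: `[ℂ(V) : ℂ(V)^Γ] ≤ |Γ|`; a fraction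
which is invariant is a quotient of invariants). -/
theorem exists_relation (b : Basis ι ℂ V) {N : ℕ} (hN : Nat.card Γ < N) (h : Fin N → Px ι) :
    ∃ c : Fin N → Px ι, (∀ j, PInv Γ b (c j)) ∧ c ≠ 0 ∧ ∑ j, c j * h j = 0 := by
  classical
  -- a nonzero solution of the system over `ℂ[V]`
  let e : Γ ≃ Fin (Nat.card Γ) := Finite.equivFin Γ
  let F : (Fin N → Px ι) →ₗ[Px ι] (Fin (Nat.card Γ) → Px ι) :=
    LinearMap.pi fun i => ∑ j, (trP b b ((e.symm i : Γ) : V ≃ₗ[ℂ] V) (h j)) •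
      (LinearMap.proj j : (Fin N → Px ι) →ₗ[Px ι] Px ι)
  have hF : ¬ Function.Injective F := fun hi =>
    absurd (le_of_fin_injective (Px ι) F hi) (by omega)
  rw [injective_iff_map_eq_zero F] at hF
  push Not at hF
  obtain ⟨p, hp, hp0⟩ := hF
  have hsol : ∀ g ∈ Γ, ∑ j, p j * trP b b g (h j) = 0 := by
    intro g hg
    have h1 := congrFun hp (e ⟨g, hg⟩)
    simp only [F, LinearMap.pi_apply, LinearMap.sum_apply, LinearMap.smul_apply,
      LinearMap.proj_apply, Equiv.symm_apply_apply, smul_eq_mul, Pi.zero_apply] at h1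
    rw [← h1]
    exact Finset.sum_congr rfl fun j _ => mul_comm _ _
  obtain ⟨j0, hj0⟩ : ∃ j, p j ≠ 0 := Function.ne_iff.mp hp0
  have hmul : ∀ g g' : V ≃ₗ[ℂ] V, ∀ q : Px ι, trP b b g (trP b b g' q) = trP b b (g * g') q :=
    fun g g' q => trP_trans_apply b b b g' g q
  have hone : ∀ q : Px ι, trP b b (1 : V ≃ₗ[ℂ] V) q = q := by
    intro q
    have h1 : trP b b (1 : V ≃ₗ[ℂ] V) q = trP b b (LinearEquiv.refl ℂ V) q := rfl
    rw [h1, trP_refl, AlgHom.id_apply]
  set f : Px ι := ∏ g ∈ (elF Γ).erase 1, trP b b g (p j0) with hf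
  set n : Px ι := ∏ g ∈ elF Γ, trP b b g (p j0) with hn
  have hfn : f * p j0 = n := by
    have h1 := Finset.prod_erase_mul (elF Γ) (fun g => trP b b g (p j0))
      ((mem_elF Γ).mpr Γ.one_mem)
    simp only [hone] at h1
    rw [hf, hn]
    exact h1
  have hninv : PInv Γ b n := by
    intro γ hγ
    rw [hn, map_prod]
    refine Finset.prod_bij (fun g _ => γ * g) ?_ ?_ ?_ ?_
    · intro g hg
      exact (mem_elF Γ).mpr (Γ.mul_mem hγ ((mem_elF Γ).mp hg))
    · intro a _ a' _ haa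
      exact mul_left_cancel haa
    · intro g hg
      refine ⟨γ⁻¹ * g, (mem_elF Γ).mpr (Γ.mul_mem (Γ.inv_mem hγ) ((mem_elF Γ).mp hg)), ?_⟩
      rw [mul_inv_cancel_left]
    · intro g _
      exact hmul γ g _
  have hn0 : n ≠ 0 := by
    rw [hn, Finset.prod_ne_zero_iff]
    intro g _ h0
    exact hj0 ((trP_injective b b g) (by rw [h0, map_zero]))
  refine ⟨fun j => reyP Γ b (f * p j), fun j => reyP_inv Γ b _, ?_, ?_⟩
  · intro h0
    have h1 := congrFun h0 j0
    simp only [Pi.zero_apply] at h1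
    rw [hfn, reyP_of_inv Γ b hninv] at h1
    exact hn0 h1
  · have h1 : ∀ j, reyP Γ b (f * p j) * h j =
        ((elF Γ).card : ℂ)⁻¹ • ∑ g ∈ elF Γ, trP b b g (f * p j) * h j := by
      intro j
      rw [reyP, LinearMap.smul_apply, LinearMap.sum_apply, smul_mul_assoc, Finset.sum_mul]
      rfl
    rw [Finset.sum_congr rfl fun j _ => h1 j, ← Finset.smul_sum, Finset.sum_comm]
    rw [Finset.sum_eq_zero, smul_zero]
    intro g hg
    have hgΓ : g ∈ Γ := (mem_elF Γ).mp hg
    have h2 : ∀ j, trP b b g (f * p j) * h j =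
        trP b b g (f * (p j * trP b b g⁻¹ (h j))) := by
      intro j
      have h3 : h j = trP b b g (trP b b g⁻¹ (h j)) := by
        rw [hmul, mul_inv_cancel, hone]
      conv_lhs => rw [h3]
      rw [← map_mul, mul_assoc]
    rw [Finset.sum_congr rfl fun j _ => h2 j, ← map_sum, ← Finset.mul_sum,
      hsol g⁻¹ (Γ.inv_mem hgΓ), mul_zero, map_zero]

end

end Pool.Agent.CM64
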