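import Pool.Agent.LibCM64.ChevB1
import Pool.Agent.LibCM64.ChevB2
import Pool.Agent.LibCM64.ChevB3

/-! `ℂ[V]` is generated by `|Γ|` elements over `ℂ[V]^Γ`. -/

set_option linter.unusedSectionVars false

namespace Pool.Agent.CM64

open Module MvPolynomial

section

variable {V : Type} [AddCommGroup V] [Module ℂ V] [FiniteDimensional ℂ V]
variable {ι : Type} [Fintype ι] [DecidableEq ι]
variable (Γ : Subgroup (V ≃ₗ[ℂ] V)) [Finite Γ]

/-- `0` is invariant. -/
private theorem chevB_PInv_zero (b : Basis ι ℂ V) : PInv Γ b (0 : Px ι) := by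
  intro g hg
  exact map_zero _

/-- `ℂ[V]` is generated by `|Γ|` elements over `ℂ[V]^Γ`. -/
theorem exists_gens (hΓ : ReflGen Γ) (b : Basis ι ℂ V) : ∃ h : Fin (Nat.card Γ) → Px ι, ∀ p : Px ι,
    ∃ c : Fin (Nat.card Γ) → Px ι, (∀ j, PInv Γ b (c j)) ∧ p = ∑ j, c j * h j := by
  obtain ⟨N, m, hli, hspan⟩ := exists_monomial_basis Γ b
  have hN : N ≤ Nat.card Γ := by
    by_contra hcon
    obtain ⟨c, hc, hc0, hsum⟩ := exists_relation Γ b (not_le.1 hcon)
      (fun j => monomial (m j) (1 : ℂ))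
    exact hc0 (indep_of_indep_mod Γ hΓ b m hli hc hsum)
  refine ⟨fun j => if hj : (j : ℕ) < N then monomial (m ⟨j, hj⟩) (1 : ℂ) else 0, fun p => ?_⟩
  obtain ⟨c, hc, hp⟩ := gen_of_span Γ b m hspan p
  refine ⟨fun j => if hj : (j : ℕ) < N then c ⟨j, hj⟩ else 0, fun j => ?_, ?_⟩
  · show PInv Γ b (if hj : (j : ℕ) < N then c ⟨j, hj⟩ else 0)
    split_ifs with hj
    · exact hc _
    · exact chevB_PInv_zero Γ b
  · rw [hp]
    obtain ⟨k, hk⟩ := Nat.exists_eq_add_of_le hN
    have key : ∀ (M : ℕ) (hM : M = N + k),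
        ∑ j : Fin N, c j * monomial (m j) (1 : ℂ) = ∑ j : Fin M,
          (if hj : (j : ℕ) < N then c ⟨j, hj⟩ else 0) *
          (if hj : (j : ℕ) < N then monomial (m ⟨j, hj⟩) (1 : ℂ) else 0) := by
      rintro M rfl
      rw [Fin.sum_univ_add]
      have h1 : ∀ i : Fin k, ((if hj : ((Fin.natAdd N i : Fin (N + k)) : ℕ) < N then
          c ⟨(Fin.natAdd N i : Fin (N + k)), hj⟩ else 0) *
          (if hj : ((Fin.natAdd N i : Fin (N + k)) : ℕ) < N then
            monomial (m ⟨(Fin.natAdd N i : Fin (N + k)), hj⟩) (1 : ℂ) else 0) : Px ι) = 0 := by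
        intro i
        have : ¬ ((Fin.natAdd N i : Fin (N + k)) : ℕ) < N := by simp
        rw [dif_neg this, zero_mul]
      rw [Finset.sum_congr rfl (fun i _ => h1 i), Finset.sum_const_zero, add_zero]
      refine Finset.sum_congr rfl fun i _ => ?_
      have h2 : ((Fin.castAdd k i : Fin (N + k)) : ℕ) < N := by simp
      rw [dif_pos h2, dif_pos h2]
      rfl
    exact key _ hk

end

end Pool.Agent.CM64
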