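import Pool.Agent.LibCM64.ChevA

/-! `ℂ[V]` is generated by `|Γ|` elements over `ℂ[V]^Γ`. -/

set_option linter.unusedSectionVars false

namespace Pool.Agent.CM64

open Module MvPolynomial

section

variable {V : Type} [AddCommGroup V] [Module ℂ V] [FiniteDimensional ℂ V]
variable {ι : Type} [Fintype ι] [DecidableEq ι]
variable (Γ : Subgroup (V ≃ₗ[ℂ] V)) [Finite Γ]

private theorem hc_mul (q c : Px ι) {j : ℕ} (hq : q.IsHomogeneous j) (D : ℕ) :
    homogeneousComponent D (c * q) =
      ∑ k ∈ Finset.range (c.totalDegree + 1),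
        if D = k + j then homogeneousComponent k c * q else 0 := by
  conv_lhs => rw [← sum_homogeneousComponent c]
  rw [Finset.sum_mul, map_sum]
  apply Finset.sum_congr rfl
  intro k _
  have h1 : homogeneousComponent k c * q ∈ homogeneousSubmodule ι ℂ (k + j) :=
    (homogeneousComponent_isHomogeneous k c).mul hq
  rw [homogeneousComponent_of_mem h1]

/-- low terms of an integral equation -/
private theorem hc_mem (b : Basis ι ℂ V) (i : ι) (c : Px ι) (hc : PInv Γ b c) {j D : ℕ}
    (hj : j < D) : homogeneousComponent D (c * X i ^ j) ∈ Ipos Γ b := by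
  rw [hc_mul (X i ^ j) c (isHomogeneous_X_pow (R := ℂ) i j) D]
  apply Ideal.sum_mem
  intro k _
  split_ifs with h
  · apply Ideal.mul_mem_right
    apply Ideal.subset_span
    exact ⟨PInv_homogeneousComponent hc k, k, by omega, homogeneousComponent_isHomogeneous k c⟩
  · exact Ideal.zero_mem _

private theorem pow_mem (b : Basis ι ℂ V) (i : ι) : ∃ D : ℕ, (X i : Px ι) ^ D ∈ Ipos Γ b := by
  obtain ⟨q, hq, hqi⟩ := isIntegral_invP Γ b (X i : Px ι)
  refine ⟨q.natDegree, ?_⟩
  rw [Polynomial.eval₂_eq_sum_range, Finset.sum_range_succ, hq.coeff_natDegree, map_one,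
    one_mul] at hqi
  have h1 : homogeneousComponent q.natDegree
      ((∑ x ∈ Finset.range q.natDegree,
        (algebraMap (invP Γ b) (Px ι)) (q.coeff x) * (X i : Px ι) ^ x) +
          (X i : Px ι) ^ q.natDegree) = 0 := by
    rw [hqi, map_zero]
  rw [map_add, map_sum] at h1
  have h2 : homogeneousComponent q.natDegree ((X i : Px ι) ^ q.natDegree) =
      (X i : Px ι) ^ q.natDegree := by
    have h3 : (X i : Px ι) ^ q.natDegree ∈ homogeneousSubmodule ι ℂ q.natDegree :=
      isHomogeneous_X_pow (R := ℂ) i q.natDegree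
    rw [homogeneousComponent_of_mem h3, if_pos rfl]
  rw [h2] at h1
  have h3 : (X i : Px ι) ^ q.natDegree = -∑ x ∈ Finset.range q.natDegree,
      homogeneousComponent q.natDegree
        ((algebraMap (invP Γ b) (Px ι)) (q.coeff x) * (X i : Px ι) ^ x) := by
    rw [eq_neg_iff_add_eq_zero, add_comm]
    exact h1
  rw [h3]
  apply Ideal.neg_mem_iff _ |>.2
  apply Ideal.sum_mem
  intro x hx
  exact hc_mem Γ b i _ (q.coeff x).2 (Finset.mem_range.1 hx)

/-- the quotient by the ideal of positive invariants is finite dimensional -/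
private theorem quot_finite (b : Basis ι ℂ V) : Module.Finite ℂ (Px ι ⧸ Ipos Γ b) := by
  choose D hD using fun i => pow_mem Γ b i
  -- the monomials with small exponents
  let S : Set (ι →₀ ℕ) := {m | ∀ i, m i ≤ D i}
  have hS : S.Finite := by
    have h1 : S ⊆ (Set.Iic (Finsupp.equivFunOnFinite.symm D)) := by
      intro m hm i
      exact hm i
    exact (Set.finite_Iic _).subset h1
  refine ⟨⟨(hS.image (fun m => Ideal.Quotient.mk (Ipos Γ b) (monomial m (1 : ℂ)))).toFinset, ?_⟩⟩
  rw [eq_top_iff]
  intro x _
  obtain ⟨p, rfl⟩ := Ideal.Quotient.mk_surjective x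
  induction p using MvPolynomial.induction_on' with
  | monomial m a =>
    have h1 : Ideal.Quotient.mk (Ipos Γ b) (monomial m a) =
        a • Ideal.Quotient.mk (Ipos Γ b) (monomial m (1 : ℂ)) := by
      have h2 : (monomial m a : Px ι) = a • monomial m (1 : ℂ) := by
        rw [smul_monomial, smul_eq_mul, mul_one]
      rw [h2]
      exact map_smul (Ideal.Quotient.mkₐ ℂ (Ipos Γ b)) a _
    rw [h1]
    apply Submodule.smul_mem
    by_cases hm : m ∈ S
    · apply Submodule.subset_span
      rw [Set.Finite.coe_toFinset]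
      exact ⟨m, hm, rfl⟩
    · have h3 : ∃ i, D i < m i := by
        by_contra hcon
        push Not at hcon
        exact hm hcon
      obtain ⟨i, hi⟩ := h3
      have h4 : (monomial m (1 : ℂ) : Px ι) ∈ Ipos Γ b := by
        have h5 : (monomial m (1 : ℂ) : Px ι) =
            monomial (m - Finsupp.single i (D i)) 1 * X i ^ D i := by
          rw [X_pow_eq_monomial, monomial_mul, one_mul, tsub_add_cancel_of_le]
          rw [Finsupp.single_le_iff]
          exact hi.le
        rw [h5]
        exact Ideal.mul_mem_left _ _ (hD i)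
      rw [Ideal.Quotient.eq_zero_iff_mem.2 h4]
      exact Submodule.zero_mem _
  | add p q hp hq =>
    rw [map_add]
    exact Submodule.add_mem _ (hp trivial) (hq trivial)

/-- `ℂ[V]/I` has a finite basis of classes of monomials (`x_i^{|Γ|} ∈ I`, as `x_i` is a root of `∏_g (T - g x_i)`). -/
theorem exists_monomial_basis (b : Basis ι ℂ V) : ∃ (N : ℕ) (m : Fin N → ι →₀ ℕ),
    LinearIndependent ℂ (fun j => Ideal.Quotient.mk (Ipos Γ b) (monomial (m j) 1)) ∧
    ∀ p : Px ι, ∃ c : Fin N → ℂ, p - ∑ j, c j • monomial (m j) (1 : ℂ) ∈ Ipos Γ b := by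
  have hfin := quot_finite Γ b
  obtain ⟨κ, a, ha, hspan, hli⟩ := exists_linearIndependent' ℂ
    (fun m : ι →₀ ℕ => Ideal.Quotient.mk (Ipos Γ b) (monomial m (1 : ℂ)))
  have hκ : Finite κ := hli.finite
  obtain ⟨N, ⟨e⟩⟩ := Finite.exists_equiv_fin κ
  refine ⟨N, fun j => a (e.symm j), ?_, ?_⟩
  · exact hli.comp e.symm e.symm.injective
  · intro p
    have h1 : Ideal.Quotient.mk (Ipos Γ b) p ∈ Submodule.span ℂ (Set.range
        (fun m : ι →₀ ℕ => Ideal.Quotient.mk (Ipos Γ b) (monomial m (1 : ℂ)))) := by
      induction p using MvPolynomial.induction_on' with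
      | monomial m a =>
        have h1 : Ideal.Quotient.mk (Ipos Γ b) (monomial m a) =
            a • Ideal.Quotient.mk (Ipos Γ b) (monomial m (1 : ℂ)) := by
          have h2 : (monomial m a : Px ι) = a • monomial m (1 : ℂ) := by
            rw [smul_monomial, smul_eq_mul, mul_one]
          rw [h2]
          exact map_smul (Ideal.Quotient.mkₐ ℂ (Ipos Γ b)) a _
        rw [h1]
        exact Submodule.smul_mem _ _ (Submodule.subset_span ⟨m, rfl⟩)
      | add p q hp hq =>
        rw [map_add]
        exact Submodule.add_mem _ hp hq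
    rw [← hspan] at h1
    have h2 : Set.range ((fun m : ι →₀ ℕ => Ideal.Quotient.mk (Ipos Γ b) (monomial m (1 : ℂ))) ∘ a) =
        Set.range (fun j : Fin N =>
          Ideal.Quotient.mk (Ipos Γ b) (monomial (a (e.symm j)) (1 : ℂ))) := by
      ext x
      constructor
      · rintro ⟨k, rfl⟩
        refine ⟨e k, ?_⟩
        simp
      · rintro ⟨j, rfl⟩
        exact ⟨e.symm j, rfl⟩
    rw [h2, Submodule.mem_span_range_iff_exists_fun] at h1
    obtain ⟨c, hc⟩ := h1
    refine ⟨c, ?_⟩
    rw [← Ideal.Quotient.eq, ← hc, map_sum]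
    apply Finset.sum_congr rfl
    intro j _
    exact (map_smul (Ideal.Quotient.mkₐ ℂ (Ipos Γ b)) (c j) _).symm

/-- homogeneous elements spanning modulo `I` generate `ℂ[V]` over the invariants (induction on the degree). -/
theorem gen_of_span (b : Basis ι ℂ V) {N : ℕ} (m : Fin N → ι →₀ ℕ)
    (h : ∀ p : Px ι, ∃ c : Fin N → ℂ, p - ∑ j, c j • monomial (m j) (1 : ℂ) ∈ Ipos Γ b) (p : Px ι) :
    ∃ c : Fin N → Px ι, (∀ j, PInv Γ b (c j)) ∧ p = ∑ j, c j * monomial (m j) 1 := by
  -- the set of good polynomials
  let G : Set (Px ι) := {p | ∃ c : Fin N → Px ι, (∀ j, PInv Γ b (c j)) ∧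
    p = ∑ j, c j * monomial (m j) 1}
  have G0 : (0 : Px ι) ∈ G := by
    refine ⟨fun _ => 0, fun j g _ => map_zero _, ?_⟩
    simp
  have Gadd : ∀ x y, x ∈ G → y ∈ G → x + y ∈ G := by
    rintro x y ⟨c, hc, rfl⟩ ⟨c', hc', rfl⟩
    refine ⟨fun j => c j + c' j, fun j g hg => ?_, ?_⟩
    · rw [map_add, hc j g hg, hc' j g hg]
    · rw [← Finset.sum_add_distrib]
      apply Finset.sum_congr rfl
      intro j _
      rw [add_mul]
  have Gmul : ∀ f x, PInv Γ b f → x ∈ G → x * f ∈ G := by
    rintro f x hf ⟨c, hc, rfl⟩
    refine ⟨fun j => c j * f, fun j g hg => ?_, ?_⟩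
    · rw [map_mul, hc j g hg, hf g hg]
    · rw [Finset.sum_mul]
      apply Finset.sum_congr rfl
      intro j _
      ring
  have Gsum : ∀ (κ : Type) (s : Finset κ) (f : κ → Px ι), (∀ k ∈ s, f k ∈ G) →
      ∑ k ∈ s, f k ∈ G := by
    intro κ s f
    classical
    induction s using Finset.induction_on with
    | empty => intro _; simpa using G0
    | insert a s ha ih =>
      intro hh
      rw [Finset.sum_insert ha]
      exact Gadd _ _ (hh a (Finset.mem_insert_self a s))
        (ih (fun k hk => hh k (Finset.mem_insert_of_mem hk)))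
  have Gmon : ∀ j, (monomial (m j) (1 : ℂ) : Px ι) ∈ G := by
    intro j
    refine ⟨fun k => if k = j then 1 else 0, fun k g _ => ?_, ?_⟩
    · by_cases hk : k = j
      · simp only [hk, if_true]
        exact map_one _
      · simp only [hk, if_false]
        exact map_zero _
    · simp [ite_mul]
  have GC : ∀ (a : ℂ) x, x ∈ G → a • x ∈ G := by
    intro a x hx
    have h1 : a • x = x * C a := by
      rw [mul_comm, C_mul']
    rw [h1]
    apply Gmul _ _ _ hx
    intro g _
    exact (trP b b g).commutes a
  have key : ∀ e : ℕ, ∀ p : Px ι, p.IsHomogeneous e → p ∈ G := by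
    intro e
    induction e using Nat.strong_induction_on with
    | _ e ih =>
      intro p hp
      obtain ⟨c, hc⟩ := h p
      have h1 : ∀ x ∈ Ipos Γ b, ∀ a : Px ι, homogeneousComponent e (a * x) ∈ G := by
        intro x hx
        unfold Ipos at hx
        induction hx using Submodule.span_induction with
        | mem x hx =>
          intro a
          obtain ⟨hx1, n, hn, hx2⟩ := hx
          rw [hc_mul x a hx2 e]
          apply Gsum
          intro k _
          split_ifs with hk
          · apply Gmul _ _ hx1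
            exact ih k (by omega) _ (homogeneousComponent_isHomogeneous k a)
          · exact G0
        | zero =>
          intro a
          rw [mul_zero, map_zero]
          exact G0
        | add x y _ _ hx hy =>
          intro a
          rw [mul_add, map_add]
          exact Gadd _ _ (hx a) (hy a)
        | smul a' x _ hx =>
          intro a
          rw [smul_eq_mul, ← mul_assoc]
          exact hx (a * a')
      have h2 : homogeneousComponent e p = p := by
        have h3 : p ∈ homogeneousSubmodule ι ℂ e := hp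
        rw [homogeneousComponent_of_mem h3, if_pos rfl]
      have h3 : p = homogeneousComponent e (1 * (p - ∑ j, c j • monomial (m j) (1 : ℂ))) +
          ∑ j, c j • homogeneousComponent e (monomial (m j) (1 : ℂ)) := by
        rw [one_mul, map_sub, h2, map_sum]
        simp only [map_smul]
        rw [sub_add_cancel]
      rw [h3]
      apply Gadd _ _ (h1 _ hc 1)
      apply Gsum
      intro j _
      apply GC
      have h4 : (monomial (m j) (1 : ℂ) : Px ι) ∈ homogeneousSubmodule ι ℂ (m j).degree :=
        isHomogeneous_monomial (1 : ℂ) rfl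
      rw [homogeneousComponent_of_mem h4]
      split_ifs
      · exact Gmon j
      · exact G0
  have hfinal : p ∈ G := by
    rw [← sum_homogeneousComponent p]
    apply Gsum
    intro k _
    exact key k _ (homogeneousComponent_isHomogeneous k p)
  exact hfinal

end

end Pool.Agent.CM64
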