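import Pool.Agent.LibCM64.ChevC2

/-! Chevalley's theorem: `ℂ[V]^Γ` is a polynomial algebra generated by `τ`-eigenvectors. -/

set_option linter.unusedSectionVars false

namespace Pool.Agent.CM64

open Module MvPolynomial

section

variable {V : Type} [AddCommGroup V] [Module ℂ V] [FiniteDimensional ℂ V]
variable {ι : Type} [Fintype ι] [DecidableEq ι]
variable (Γ : Subgroup (V ≃ₗ[ℂ] V)) [Finite Γ] (τ : V ≃ₗ[ℂ] V)

/-- `m = dim V`: `≤` by algebraic independence, `≥` as `ℂ[V]` is integral over the invariants. -/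
theorem exists_basic (hΓ : ReflGen Γ) (hτ : Normalizes τ Γ) (hfin : IsOfFinOrder τ) (b : Basis ι ℂ V) :
    ∃ (f : ι → Px ι) (d : ι → ℕ) (θ : ι → ℂ), Basic Γ τ b f d θ := by
  obtain ⟨m, f, d, θ, h1, h2, h3⟩ := exists_min_gens Γ τ hτ hfin b
  have hf : ∀ i, (f i).IsHomogeneous (d i) ∧ 0 < d i ∧ PInv Γ b (f i) :=
    fun i => ⟨(h1 i).1, (h1 i).2.1, (h1 i).2.2.1⟩
  have halg : AlgebraicIndependent ℂ f := algInd_of_min Γ hΓ b f d hf h2 h3
  have hgen : ∀ p, PInv Γ b p → p ∈ Algebra.adjoin ℂ (Set.range f) :=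
    fun p hp => adjoin_of_span Γ b f d hf h2 hp
  have hAdj : Algebra.adjoin ℂ (Set.range f) = invP Γ b := by
    apply le_antisymm
    · rw [Algebra.adjoin_le_iff]
      rintro _ ⟨j, rfl⟩
      exact (hf j).2.2
    · intro p hp
      exact hgen p hp
  have hft : IsTranscendenceBasis ℂ f := by
    refine isTranscendenceBasis_iff_algebraicIndependent_isAlgebraic.2 ⟨halg, ?_⟩
    rw [hAdj]
    exact ⟨fun p => (isIntegral_invP Γ b p).isAlgebraic⟩
  have hX := IsTranscendenceBasis.mvPolynomial ι ℂ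
  have hcard : Cardinal.mk (Fin m) = Cardinal.mk ι := hft.cardinalMk_eq hX
  obtain ⟨e⟩ := Cardinal.eq.1 hcard
  refine ⟨fun i => f (e.symm i), fun i => d (e.symm i), fun i => θ (e.symm i), ?_⟩
  have hr : Set.range (fun i => f (e.symm i)) = Set.range f := by
    ext x
    constructor
    · rintro ⟨i, rfl⟩
      exact ⟨e.symm i, rfl⟩
    · rintro ⟨j, rfl⟩
      exact ⟨e j, by simp⟩
  exact {
    inv := fun i => (h1 _).2.2.1
    hom := fun i => (h1 _).1
    pos := fun i => (h1 _).2.1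
    eig := fun i => (h1 _).2.2.2
    gen := fun p hp => by rw [hr]; exact hgen p hp
    alg := halg.comp e.symm e.symm.injective }

end

end Pool.Agent.CM64
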