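import Pool.Agent.LibCM64.ChevB

/-! Chevalley's theorem: `ℂ[V]^Γ` is a polynomial algebra generated by `τ`-eigenvectors. -/

set_option linter.unusedSectionVars false

namespace Pool.Agent.CM64

open Module MvPolynomial

section

variable {V : Type} [AddCommGroup V] [Module ℂ V] [FiniteDimensional ℂ V]
variable {ι : Type} [Fintype ι] [DecidableEq ι]
variable (Γ : Subgroup (V ≃ₗ[ℂ] V)) [Finite Γ] (τ : V ≃ₗ[ℂ] V)

/-- basic invariants which are eigenvectors of `τ`. -/
structure Basic (b : Basis ι ℂ V) (f : ι → Px ι) (d : ι → ℕ) (θ : ι → ℂ) : Prop where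
  inv : ∀ i, PInv Γ b (f i)
  hom : ∀ i, (f i).IsHomogeneous (d i)
  pos : ∀ i, 0 < d i
  eig : ∀ i, trP b b τ (f i) = θ i • f i
  gen : ∀ p, PInv Γ b p → p ∈ Algebra.adjoin ℂ (Set.range f)
  alg : AlgebraicIndependent ℂ f

/-- `τ` maps invariants of `Γ` to invariants. -/
theorem PInv_trP_tau (hτ : Normalizes τ Γ) (b : Basis ι ℂ V) {p : Px ι} (hp : PInv Γ b p) :
    PInv Γ b (trP b b τ p) := by
  intro g hg
  have hh : τ⁻¹ * g * τ ∈ Γ := by
    rw [hτ (τ⁻¹ * g * τ)]
    have : τ * (τ⁻¹ * g * τ) * τ⁻¹ = g := by group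
    rwa [this]
  rw [trP_trans_apply]
  have h1 : τ.trans g = (τ⁻¹ * g * τ).trans τ := by
    have h2 : g * τ = τ * (τ⁻¹ * g * τ) := by group
    exact h2
  rw [h1, ← trP_trans_apply b b b, hp _ hh]

private theorem chevC1_iter (b : Basis ι ℂ V) (j : ℕ) (p : Px ι) :
    (trP b b τ)^[j] p = trP b b (τ ^ j) p := by
  induction j with
  | zero =>
    have h : (τ ^ 0 : V ≃ₗ[ℂ] V) = LinearEquiv.refl ℂ V := pow_zero τ
    rw [h, trP_refl]
    rfl
  | succ j ih =>
    rw [Function.iterate_succ_apply', ih, trP_trans_apply]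
    have h : (τ ^ j).trans τ = τ ^ (j + 1) := by
      have h2 : τ * τ ^ j = τ ^ (j + 1) := (pow_succ' τ j).symm
      exact h2
    rw [h]

private theorem chevC1_iter_inv (hτ : Normalizes τ Γ) (b : Basis ι ℂ V) {p : Px ι} (hp : PInv Γ b p)
    (j : ℕ) : PInv Γ b ((trP b b τ)^[j] p) := by
  induction j with
  | zero => exact hp
  | succ j ih =>
    rw [Function.iterate_succ_apply']
    exact PInv_trP_tau Γ τ hτ b ih

private theorem chevC1_iter_hom (b : Basis ι ℂ V) {p : Px ι} {e : ℕ} (hp : p.IsHomogeneous e)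
    (j : ℕ) : ((trP b b τ)^[j] p).IsHomogeneous e := by
  induction j with
  | zero => exact hp
  | succ j ih =>
    rw [Function.iterate_succ_apply']
    exact trP_isHomogeneous b b τ ih

/-- an invariant is a sum of `τ`-eigenvectors which are invariant (and homogeneous if `p` is). -/
theorem exists_eigen_decomp (hτ : Normalizes τ Γ) (hfin : IsOfFinOrder τ) (b : Basis ι ℂ V) {p : Px ι}
    (hp : PInv Γ b p) : ∃ (s : Finset ℂ) (q : ℂ → Px ι), p = ∑ c ∈ s, q c ∧
      ∀ c ∈ s, PInv Γ b (q c) ∧ trP b b τ (q c) = c • q c ∧ (∀ e, p.IsHomogeneous e → (q c).IsHomogeneous e) := by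
  classical
  set N : ℕ := orderOf τ with hN
  have hN0 : 0 < N := hfin.orderOf_pos
  have hN1 : (N : ℂ) ≠ 0 := Nat.cast_ne_zero.2 hN0.ne'
  have hz : IsPrimitiveRoot (Complex.exp (2 * Real.pi * Complex.I / N)) N :=
    Complex.isPrimitiveRoot_exp N hN0.ne'
  set z : ℂ := Complex.exp (2 * Real.pi * Complex.I / N) with hzdef
  have hz0 : z ≠ 0 := Complex.exp_ne_zero _
  have hTN : (trP b b τ)^[N] p = p := by
    rw [chevC1_iter, hN, pow_orderOf_eq_one]
    have h : (1 : V ≃ₗ[ℂ] V) = LinearEquiv.refl ℂ V := rfl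
    rw [h, trP_refl]
    rfl
  set q : ℂ → Px ι := fun c => (N : ℂ)⁻¹ • ∑ j ∈ Finset.range N, (c⁻¹) ^ j • (trP b b τ)^[j] p with hq
  refine ⟨(Finset.range N).image (fun k => z ^ k), q, ?_, ?_⟩
  · rw [Finset.sum_image]
    · rw [hq]
      simp only
      rw [← Finset.smul_sum, Finset.sum_comm]
      have h1 : ∀ j ∈ Finset.range N, (∑ k ∈ Finset.range N, ((z ^ k)⁻¹) ^ j • (trP b b τ)^[j] p)
          = if j = 0 then (N : ℂ) • p else 0 := by
        intro j hj
        rw [← Finset.sum_smul]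
        split_ifs with hj0
        · subst hj0
          simp
        · have h2 : (z⁻¹) ^ j ≠ 1 := by
            rw [inv_pow, Ne, inv_eq_one]
            exact hz.pow_ne_one_of_pos_of_lt hj0 (Finset.mem_range.1 hj)
          have h3 : ((z⁻¹) ^ j - 1) * ∑ k ∈ Finset.range N, ((z⁻¹) ^ j) ^ k = 0 := by
            rw [mul_geom_sum, ← pow_mul, mul_comm j N, pow_mul, inv_pow, hz.pow_eq_one]
            simp
          have h4 : ∑ k ∈ Finset.range N, ((z⁻¹) ^ j) ^ k = 0 := by
            rcases mul_eq_zero.1 h3 with h | h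
            · exact absurd (sub_eq_zero.1 h) h2
            · exact h
          have h5 : ∑ k ∈ Finset.range N, ((z ^ k)⁻¹) ^ j = ∑ k ∈ Finset.range N, ((z⁻¹) ^ j) ^ k := by
            refine Finset.sum_congr rfl (fun k _ => ?_)
            rw [← inv_pow, ← pow_mul, ← pow_mul, mul_comm]
          rw [h5, h4, zero_smul]
      rw [Finset.sum_congr rfl h1, Finset.sum_ite_eq' (Finset.range N) 0 (fun _ => (N : ℂ) • p),
        if_pos (Finset.mem_range.2 hN0), smul_smul, inv_mul_cancel₀ hN1, one_smul]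
    · intro i hi j hj hij
      exact hz.pow_inj (Finset.mem_range.1 hi) (Finset.mem_range.1 hj) hij
  · intro c hc
    obtain ⟨k, _, rfl⟩ := Finset.mem_image.1 hc
    refine ⟨?_, ?_, ?_⟩
    · have h1 : q (z ^ k) ∈ invP Γ b := by
        rw [hq]
        refine Subalgebra.smul_mem _ (Subalgebra.sum_mem _ (fun j _ => Subalgebra.smul_mem _ ?_ _)) _
        exact chevC1_iter_inv Γ τ hτ b hp j
      exact h1
    · rw [hq]
      simp only
      rw [map_smul, map_sum]
      simp only [map_smul]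
      have hc0 : z ^ k ≠ 0 := pow_ne_zero _ hz0
      have hcN : ((z ^ k)⁻¹) ^ N = 1 := by
        rw [inv_pow, ← pow_mul, mul_comm, pow_mul, hz.pow_eq_one, one_pow, inv_one]
      set u : ℕ → Px ι := fun j => ((z ^ k)⁻¹) ^ j • (trP b b τ)^[j] p with hu
      have h1 : ∀ j, ((z ^ k)⁻¹) ^ j • trP b b τ ((trP b b τ)^[j] p) = z ^ k • u (j + 1) := by
        intro j
        rw [hu]
        simp only
        rw [smul_smul, Function.iterate_succ_apply', pow_succ' ((z ^ k)⁻¹) j, ← mul_assoc,
          mul_inv_cancel₀ hc0, one_mul]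
      rw [Finset.sum_congr rfl (fun j _ => h1 j), ← Finset.smul_sum, smul_comm]
      congr 1
      congr 1
      have h2 : ∑ j ∈ Finset.range N, u (j + 1) + u 0 = ∑ j ∈ Finset.range N, u j + u N := by
        rw [← Finset.sum_range_succ', Finset.sum_range_succ]
      have h3 : u N = u 0 := by
        rw [hu]
        simp only
        rw [hcN, hTN, pow_zero, Function.iterate_zero, id]
      rw [h3] at h2
      exact add_right_cancel h2
    · intro e he
      have h1 : q (z ^ k) ∈ homogeneousSubmodule ι ℂ e := by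
        rw [hq]
        refine Submodule.smul_mem _ _ (Submodule.sum_mem _ (fun j _ => Submodule.smul_mem _ _ ?_))
        exact chevC1_iter_hom τ b he j
      exact h1

private theorem chevC1_set (hτ : Normalizes τ Γ) (hfin : IsOfFinOrder τ) (b : Basis ι ℂ V) :
    Ipos Γ b = Ideal.span {p | PInv Γ b p ∧ ∃ (n : ℕ) (θ : ℂ), 0 < n ∧ p.IsHomogeneous n ∧ trP b b τ p = θ • p} := by
  apply le_antisymm
  · unfold Ipos
    rw [Ideal.span_le]
    rintro p ⟨hp, n, hn, hh⟩
    obtain ⟨s, q, h1, h2⟩ := exists_eigen_decomp Γ τ hτ hfin b hp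
    rw [SetLike.mem_coe, h1]
    refine Ideal.sum_mem _ (fun c hc => Ideal.subset_span ?_)
    exact ⟨(h2 c hc).1, n, c, hn, (h2 c hc).2.2 n hh, (h2 c hc).2.1⟩
  · rw [Ideal.span_le]
    rintro p ⟨hp, n, _, hn, hh, _⟩
    exact Ideal.subset_span ⟨hp, n, hn, hh⟩

/-- minimal generators of the ideal `I`, which are homogeneous invariant `τ`-eigenvectors (`Px ι` is noetherian). -/
theorem exists_min_gens (hτ : Normalizes τ Γ) (hfin : IsOfFinOrder τ) (b : Basis ι ℂ V) :
    ∃ (m : ℕ) (f : Fin m → Px ι) (d : Fin m → ℕ) (θ : Fin m → ℂ),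
      (∀ i, (f i).IsHomogeneous (d i) ∧ 0 < d i ∧ PInv Γ b (f i) ∧ trP b b τ (f i) = θ i • f i) ∧
      Ipos Γ b = Ideal.span (Set.range f) ∧ ∀ i, f i ∉ Ideal.span {q | ∃ j, j ≠ i ∧ q = f j} := by
  classical
  set G : Set (Px ι) :=
    {p | PInv Γ b p ∧ ∃ (n : ℕ) (θ : ℂ), 0 < n ∧ p.IsHomogeneous n ∧ trP b b τ p = θ • p} with hG
  have h0 : Ipos Γ b = Ideal.span G := chevC1_set Γ τ hτ hfin b
  have hfg : (Ideal.span G).FG := (isNoetherianRing_iff_ideal_fg _).1 inferInstance _
  obtain ⟨F0, hF0, hF0'⟩ := (Submodule.fg_span_iff_fg_span_finset_subset G).1 hfg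
  have hex : ∃ m : ℕ, ∃ F : Finset (Px ι), (F : Set (Px ι)) ⊆ G ∧
      Ideal.span G = Ideal.span (F : Set (Px ι)) ∧ F.card = m := ⟨F0.card, F0, hF0, hF0', rfl⟩
  obtain ⟨F, hF1, hF2, hF3⟩ := Nat.find_spec hex
  have hmin : ∀ F' : Finset (Px ι), (F' : Set (Px ι)) ⊆ G → Ideal.span G = Ideal.span (F' : Set (Px ι)) →
      F.card ≤ F'.card := by
    intro F' h1 h2
    rw [hF3]
    exact Nat.find_min' hex ⟨F', h1, h2, rfl⟩
  have hdat : ∀ i : Fin F.card, ∃ (n : ℕ) (θ : ℂ), 0 < n ∧ ((F.equivFin.symm i : Px ι)).IsHomogeneous n ∧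
      trP b b τ (F.equivFin.symm i : Px ι) = θ • (F.equivFin.symm i : Px ι) := fun i =>
    (hF1 (Finset.mem_coe.2 (F.equivFin.symm i).2)).2
  choose dd th h1 h2 h3 using hdat
  have hrange : Set.range (fun i : Fin F.card => (F.equivFin.symm i : Px ι)) = (F : Set (Px ι)) := by
    ext p
    constructor
    · rintro ⟨i, rfl⟩
      exact (F.equivFin.symm i).2
    · intro hp
      exact ⟨F.equivFin ⟨p, hp⟩, by simp⟩
  refine ⟨F.card, fun i => (F.equivFin.symm i : Px ι), dd, th, ?_, ?_, ?_⟩
  · intro i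
    exact ⟨h2 i, h1 i, (hF1 (Finset.mem_coe.2 (F.equivFin.symm i).2)).1, h3 i⟩
  · rw [hrange, h0, hF2]
  · intro i hi
    have hset : {q | ∃ j, j ≠ i ∧ q = (F.equivFin.symm j : Px ι)} ⊆
        ((F.erase (F.equivFin.symm i : Px ι) : Finset (Px ι)) : Set (Px ι)) := by
      rintro q ⟨j, hj, rfl⟩
      rw [Finset.mem_coe, Finset.mem_erase]
      refine ⟨?_, (F.equivFin.symm j).2⟩
      intro h
      exact hj (F.equivFin.symm.injective (Subtype.ext h))
    have h4 := hmin (F.erase (F.equivFin.symm i : Px ι))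
      (fun p hp => hF1 (Finset.mem_coe.2 (Finset.mem_of_mem_erase (Finset.mem_coe.1 hp)))) (by
        rw [hF2]
        apply le_antisymm
        · rw [Ideal.span_le]
          intro p hp
          by_cases hpi : p = (F.equivFin.symm i : Px ι)
          · rw [hpi]
            exact Ideal.span_mono hset hi
          · exact Ideal.subset_span (Finset.mem_coe.2 (Finset.mem_erase.2 ⟨hpi, Finset.mem_coe.1 hp⟩))
        · exact Ideal.span_mono (Finset.coe_subset.2 (Finset.erase_subset _ _)))
    have h5 := Finset.card_erase_lt_of_mem (F.equivFin.symm i).2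
    omega

private theorem chevC1_hc_mul {f : Px ι} {d : ℕ} (hf : f.IsHomogeneous d) (h : Px ι) (e : ℕ) :
    homogeneousComponent e (h * f) = if d ≤ e then homogeneousComponent (e - d) h * f else 0 := by
  classical
  conv_lhs => rw [← sum_homogeneousComponent (φ := h)]
  rw [Finset.sum_mul, map_sum]
  have h1 : ∀ k, homogeneousComponent e (homogeneousComponent k h * f) =
      if e = k + d then homogeneousComponent k h * f else 0 := by
    intro k
    exact homogeneousComponent_of_mem ((homogeneousComponent_isHomogeneous k h).mul hf)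
  simp only [h1]
  split_ifs with hd
  · have h2 : ∀ k, (if e = k + d then homogeneousComponent k h * f else 0) =
        if k = e - d then homogeneousComponent k h * f else 0 := by
      intro k
      by_cases hk : e = k + d
      · rw [if_pos hk, if_pos (by omega)]
      · rw [if_neg hk, if_neg (by omega)]
    simp only [h2]
    rw [Finset.sum_ite_eq' (Finset.range (h.totalDegree + 1)) (e - d) (fun k => homogeneousComponent k h * f)]
    split_ifs with h3
    · rfl
    · rw [homogeneousComponent_eq_zero _ _ (by rw [Finset.mem_range] at h3; omega), zero_mul]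
  · refine Finset.sum_eq_zero (fun k _ => ?_)
    rw [if_neg (by omega)]

private theorem chevC1_hom (b : Basis ι ℂ V) {m : ℕ} (f : Fin m → Px ι) (d : Fin m → ℕ)
    (hf : ∀ i, (f i).IsHomogeneous (d i) ∧ 0 < d i ∧ PInv Γ b (f i))
    (hI : Ipos Γ b = Ideal.span (Set.range f)) (e : ℕ) : ∀ p : Px ι, PInv Γ b p → p.IsHomogeneous e →
      p ∈ Algebra.adjoin ℂ (Set.range f) := by
  induction e using Nat.strong_induction_on with
  | _ e ih =>
    intro p hp hh
    rcases Nat.eq_zero_or_pos e with he | he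
    · subst he
      have h1 := totalDegree_eq_zero_iff_eq_C.1 ((totalDegree_zero_iff_isHomogeneous ι).2 hh)
      rw [h1]
      exact Subalgebra.algebraMap_mem _ _
    · have h1 : p ∈ Ideal.span (Set.range f) := by
        rw [← hI]
        exact Ideal.subset_span ⟨hp, e, he, hh⟩
      obtain ⟨c, hc⟩ := (Ideal.mem_span_range_iff_exists_fun).1 h1
      have h2 : p = ∑ i, reyP Γ b (homogeneousComponent e (c i * f i)) := by
        rw [← map_sum, ← map_sum, hc]
        rw [homogeneousComponent_of_mem hh, if_pos rfl, reyP_of_inv Γ b hp]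
      rw [h2]
      refine Subalgebra.sum_mem _ (fun i _ => ?_)
      rw [chevC1_hc_mul (hf i).1]
      split_ifs with h3
      · rw [mul_comm, reyP_mul Γ b (hf i).2.2]
        refine Subalgebra.mul_mem _ (Algebra.subset_adjoin ⟨i, rfl⟩) ?_
        exact ih (e - d i) (by have := (hf i).2.1; omega) _ (reyP_inv Γ b _)
          (reyP_isHomogeneous Γ b (homogeneousComponent_isHomogeneous _ _))
      · rw [map_zero]
        exact Subalgebra.zero_mem _

/-- homogeneous invariants of positive degree generating the ideal `I` generate the algebra of invariants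
(induction on the degree, Reynolds operator). -/
theorem adjoin_of_span (b : Basis ι ℂ V) {m : ℕ} (f : Fin m → Px ι) (d : Fin m → ℕ)
    (hf : ∀ i, (f i).IsHomogeneous (d i) ∧ 0 < d i ∧ PInv Γ b (f i))
    (hI : Ipos Γ b = Ideal.span (Set.range f)) {p : Px ι} (hp : PInv Γ b p) :
    p ∈ Algebra.adjoin ℂ (Set.range f) := by
  rw [← sum_homogeneousComponent (φ := p)]
  refine Subalgebra.sum_mem _ (fun k _ => ?_)
  exact chevC1_hom Γ b f d hf hI k _ (PInv_homogeneousComponent hp k)
    (homogeneousComponent_isHomogeneous _ _)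

end

end Pool.Agent.CM64
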