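import Pool.Agent.LibCM64.ChevC1

/-! Chevalley's theorem: `ℂ[V]^Γ` is a polynomial algebra generated by `τ`-eigenvectors. -/

set_option linter.unusedSectionVars false

namespace Pool.Agent.CM64

open Module MvPolynomial

section ChevC2aux

variable {ι : Type} [Fintype ι] [DecidableEq ι]

private theorem hc_mul_of {q : Px ι} {n : ℕ} (hq : q.IsHomogeneous n) (c : Px ι) (E : ℕ) :
    homogeneousComponent E (c * q) =
      if n ≤ E then homogeneousComponent (E - n) c * q else 0 := by
  have h1 : c * q = ∑ a ∈ Finset.range (c.totalDegree + 1), homogeneousComponent a c * q := by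
    rw [← Finset.sum_mul, sum_homogeneousComponent]
  rw [h1, map_sum]
  have h2 : ∀ a ∈ Finset.range (c.totalDegree + 1),
      homogeneousComponent E (homogeneousComponent a c * q) =
        if E = a + n then homogeneousComponent a c * q else 0 := by
    intro a _
    exact homogeneousComponent_of_mem ((homogeneousComponent_isHomogeneous a c).mul hq)
  rw [Finset.sum_congr rfl h2]
  split_ifs with hn
  · by_cases hE : E - n ∈ Finset.range (c.totalDegree + 1)
    · rw [Finset.sum_eq_single (E - n)]
      · rw [if_pos (by omega)]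
      · intro b _ hb
        rw [if_neg (by omega)]
      · intro h; exact absurd hE h
    · rw [Finset.sum_eq_zero]
      · rw [homogeneousComponent_eq_zero]
        · rw [zero_mul]
        · rw [Finset.mem_range] at hE
          omega
      · intro b hb
        rw [if_neg]
        intro h
        apply hE
        rw [h, Nat.add_sub_cancel]
        exact hb
  · apply Finset.sum_eq_zero
    intro a _
    rw [if_neg (by omega)]

private theorem aeval_whc {m : ℕ} (f : Fin m → Px ι) (d : Fin m → ℕ)
    (hf : ∀ i, (f i).IsHomogeneous (d i)) (n : ℕ) (h : MvPolynomial (Fin m) ℂ) :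
    aeval f (weightedHomogeneousComponent d n h) = homogeneousComponent n (aeval f h) := by
  induction h using MvPolynomial.induction_on' with
  | monomial u a =>
    have hm : (aeval f (monomial u a)).IsHomogeneous (Finsupp.weight d u) := by
      rw [aeval_monomial, Finsupp.prod_fintype _ _ (fun i => pow_zero _)]
      have h1 : ((algebraMap ℂ (Px ι)) a).IsHomogeneous 0 := isHomogeneous_C _ _
      have h2 : (∏ i, f i ^ u i).IsHomogeneous (∑ i, d i * u i) :=
        IsHomogeneous.prod _ _ _ (fun i _ => (hf i).pow (u i))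
      have h3 := h1.mul h2
      have h4 : Finsupp.weight d u = 0 + ∑ i, d i * u i := by
        rw [Finsupp.weight_apply, Finsupp.sum_fintype _ _ (fun i => by simp), zero_add]
        apply Finset.sum_congr rfl
        intro i _
        rw [smul_eq_mul, mul_comm]
      rw [h4]
      exact h3
    rw [homogeneousComponent_of_mem hm,
      weightedHomogeneousComponent_of_mem (isWeightedHomogeneous_monomial d u a rfl)]
    split_ifs with h1
    · rfl
    · exact map_zero _
  | add p q hp hq => rw [map_add, map_add, map_add, map_add, hp, hq]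

private theorem aeval_hom {m : ℕ} (f : Fin m → Px ι) (d : Fin m → ℕ)
    (hf : ∀ i, (f i).IsHomogeneous (d i)) {n : ℕ} {h : MvPolynomial (Fin m) ℂ}
    (hh : IsWeightedHomogeneous d h n) : (aeval f h).IsHomogeneous n := by
  have h1 := aeval_whc f d hf n h
  rw [IsWeightedHomogeneous.weightedHomogeneousComponent_same hh] at h1
  rw [h1]
  exact homogeneousComponent_isHomogeneous n _

private theorem chain {m : ℕ} (f : Fin m → Px ι) (h : MvPolynomial (Fin m) ℂ) (k : ι) :
    pderiv k (aeval f h) = ∑ i, aeval f (pderiv i h) * pderiv k (f i) := by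
  induction h using MvPolynomial.induction_on with
  | C a =>
    simp only [aeval_C, pderiv_C, map_zero, zero_mul, Finset.sum_const_zero]
    exact pderiv_C
  | add p q hp hq =>
    rw [map_add, map_add, hp, hq, ← Finset.sum_add_distrib]
    apply Finset.sum_congr rfl
    intro i _
    rw [map_add, map_add, add_mul]
  | mul_X p j hp =>
    rw [map_mul, aeval_X, Derivation.leibniz, hp]
    have h1 : ∀ i, aeval f (pderiv i (p * X j)) * pderiv k (f i) =
        (if i = j then aeval f p * pderiv k (f i) else 0) +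
          f j * (aeval f (pderiv i p) * pderiv k (f i)) := by
      intro i
      rw [Derivation.leibniz, pderiv_X, smul_eq_mul, smul_eq_mul, map_add, map_mul, map_mul,
        aeval_X]
      split_ifs with hij
      · subst hij
        rw [Pi.single_eq_same, map_one]; ring
      · rw [Pi.single_eq_of_ne (fun hh => hij hh.symm), map_zero]; ring
    rw [Finset.sum_congr rfl (fun i _ => h1 i), Finset.sum_add_distrib, Finset.sum_ite_eq',
      if_pos (Finset.mem_univ j), ← Finset.mul_sum, smul_eq_mul, smul_eq_mul]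

/-- homogeneous coefficients -/
private theorem hom_coeffs {κ : Type} [Fintype κ] [DecidableEq κ] (h : κ → Px ι) (d : κ → ℕ)
    {D : ℕ} (hd : ∀ i, d i ≤ D) (hh : ∀ i, (h i).IsHomogeneous (D - d i)) {q : Px ι} {e : ℕ}
    (he : e ≤ D) (hq : q.IsHomogeneous (D - e)) (hmem : q ∈ Ideal.span (Set.range h)) :
    ∃ g : κ → Px ι, q = ∑ i, g i * h i ∧
      ∀ i, (e ≤ d i → (g i).IsHomogeneous (d i - e)) ∧ (d i < e → g i = 0) := by
  obtain ⟨c, hc⟩ := (Ideal.mem_span_range_iff_exists_fun).1 hmem
  refine ⟨fun i => if e ≤ d i then homogeneousComponent (d i - e) (c i) else 0, ?_, ?_⟩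
  · have h1 : homogeneousComponent (D - e) q = q := by
      rw [homogeneousComponent_of_mem hq, if_pos rfl]
    rw [← h1, ← hc, map_sum]
    apply Finset.sum_congr rfl
    intro i _
    rw [hc_mul_of (hh i)]
    have hdi := hd i
    show _ = (if e ≤ d i then homogeneousComponent (d i - e) (c i) else 0) * h i
    by_cases hle : e ≤ d i
    · rw [if_pos (by omega), if_pos hle]
      congr 3
      omega
    · by_cases h2 : D - d i ≤ D - e
      · omega
      · rw [if_neg h2, if_neg hle, zero_mul]
  · intro i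
    refine ⟨fun hle => ?_, fun hlt => ?_⟩
    · show (if e ≤ d i then homogeneousComponent (d i - e) (c i) else 0).IsHomogeneous _
      rw [if_pos hle]; exact homogeneousComponent_isHomogeneous _ _
    · show (if e ≤ d i then homogeneousComponent (d i - e) (c i) else 0) = 0
      rw [if_neg (by omega)]

/-- a minimal subset generating the same ideal -/
private theorem exists_min_subset {m : ℕ} (h : Fin m → Px ι) :
    ∃ A : Finset (Fin m), (∀ j, h j ∈ Ideal.span (h '' (A : Set (Fin m)))) ∧
      ∀ i ∈ A, h i ∉ Ideal.span (h '' ((A.erase i : Finset (Fin m)) : Set (Fin m))) := by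
  classical
  let S : Finset (Finset (Fin m)) :=
    Finset.univ.filter (fun A => ∀ j, h j ∈ Ideal.span (h '' (A : Set (Fin m))))
  have hS : S.Nonempty := by
    refine ⟨Finset.univ, Finset.mem_filter.2 ⟨Finset.mem_univ _, fun j => ?_⟩⟩
    exact Ideal.subset_span ⟨j, by simp, rfl⟩
  obtain ⟨A, hA, hmin⟩ := Finset.exists_min_image S Finset.card hS
  have hA' := (Finset.mem_filter.1 hA).2
  refine ⟨A, hA', fun i hi hcon => ?_⟩
  have h1 : A.erase i ∈ S := by
    refine Finset.mem_filter.2 ⟨Finset.mem_univ _, fun j => ?_⟩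
    have h2 : Ideal.span (h '' (A : Set (Fin m))) ≤
        Ideal.span (h '' ((A.erase i : Finset (Fin m)) : Set (Fin m))) := by
      rw [Ideal.span_le]
      rintro _ ⟨l, hl, rfl⟩
      by_cases hli : l = i
      · subst hli; exact hcon
      · exact Ideal.subset_span ⟨l, by
          rw [Finset.mem_coe, Finset.mem_erase]; exact ⟨hli, hl⟩, rfl⟩
    exact h2 (hA' j)
  have h2 := hmin _ h1
  have h3 := Finset.card_erase_lt_of_mem hi
  omega

end ChevC2aux

section

variable {V : Type} [AddCommGroup V] [Module ℂ V] [FiniteDimensional ℂ V]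
variable {ι : Type} [Fintype ι] [DecidableEq ι]
variable (Γ : Subgroup (V ≃ₗ[ℂ] V)) [Finite Γ] (τ : V ≃ₗ[ℂ] V)

/-- the last step: a relation `d_i f_i + ∑ ... ∈ 𝔪 I` contradicts minimality -/
private theorem last_step {m : ℕ} (f : Fin m → Px ι) (d : Fin m → ℕ)
    (hf : ∀ i, (f i).IsHomogeneous (d i)) (i₀ : Fin m) (hd0 : 0 < d i₀)
    (hmin : f i₀ ∉ Ideal.span {q | ∃ j, j ≠ i₀ ∧ q = f j})
    (A : Finset (Fin m)) (hi0 : i₀ ∈ A) (g : Fin m → Px ι)
    (s : ι → Px ι) (hs : ∀ k, s k ∈ Ideal.span (Set.range f))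
    (hrel : ((d i₀ : ℕ) • f i₀ + ∑ j ∈ Finset.univ \ A, (d j : ℕ) • (g j * f j)) = ∑ k, X k * s k) :
    False := by
  classical
  apply hmin
  set J := Ideal.span {q : Px ι | ∃ j, j ≠ i₀ ∧ q = f j} with hJ
  choose c hc using fun k => (Ideal.mem_span_range_iff_exists_fun).1 (hs k)
  have hJmem : ∀ j, j ≠ i₀ → ∀ x : Px ι, x * f j ∈ J := by
    intro j hj x
    exact Ideal.mul_mem_left _ _ (Ideal.subset_span ⟨j, hj, rfl⟩)
  have hJc : ∀ j, j ≠ i₀ → ∀ x : Px ι, homogeneousComponent (d i₀) (x * f j) ∈ J := by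
    intro j hj x
    rw [hc_mul_of (hf j)]
    split_ifs
    · exact hJmem j hj _
    · exact zero_mem _
  have h1 : ∑ k, X k * s k = ∑ l, (∑ k, X k * c k l) * f l := by
    simp_rw [Finset.sum_mul]
    rw [Finset.sum_comm]
    apply Finset.sum_congr rfl
    intro k _
    rw [← hc k, Finset.mul_sum]
    apply Finset.sum_congr rfl
    intro l _
    ring
  rw [h1] at hrel
  have h2 := congrArg (homogeneousComponent (d i₀)) hrel
  rw [map_add, map_sum, map_sum] at h2
  have h3 : homogeneousComponent (d i₀) ((d i₀ : ℕ) • f i₀) = (d i₀ : ℕ) • f i₀ := by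
    rw [map_nsmul, homogeneousComponent_of_mem (hf i₀), if_pos rfl]
  rw [h3] at h2
  have h4 : (∑ x ∈ Finset.univ \ A, homogeneousComponent (d i₀) ((d x : ℕ) • (g x * f x))) ∈ J := by
    apply Ideal.sum_mem
    intro j hj
    rw [map_nsmul]
    have hj0 : j ≠ i₀ := by
      rintro rfl
      exact (Finset.mem_sdiff.1 hj).2 hi0
    exact nsmul_mem (hJc j hj0 _) _
  have h5 : (∑ x, homogeneousComponent (d i₀) ((∑ k, X k * c k x) * f x)) ∈ J := by
    apply Ideal.sum_mem
    intro l _
    by_cases hl : l = i₀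
    · subst hl
      rw [hc_mul_of (hf l), if_pos le_rfl, Nat.sub_self, homogeneousComponent_zero]
      have h6 : coeff 0 (∑ k, X k * c k l) = 0 := by
        have : constantCoeff (∑ k, X k * c k l) = 0 := by
          rw [map_sum]
          apply Finset.sum_eq_zero
          intro k _
          rw [map_mul, constantCoeff_X, zero_mul]
        exact this
      rw [h6, C_0, zero_mul]
      exact zero_mem _
    · exact hJc l hl _
  have h6 : (d i₀ : ℕ) • f i₀ ∈ J := by
    have : (d i₀ : ℕ) • f i₀ =
        (∑ x, homogeneousComponent (d i₀) ((∑ k, X k * c k x) * f x)) -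
          (∑ x ∈ Finset.univ \ A, homogeneousComponent (d i₀) ((d x : ℕ) • (g x * f x))) :=
      eq_sub_of_add_eq h2
    rw [this]
    exact sub_mem h5 h4
  have h7 : f i₀ = C ((d i₀ : ℂ)⁻¹) * ((d i₀ : ℕ) • f i₀) := by
    rw [nsmul_eq_mul, ← mul_assoc]
    have h8 : (C ((d i₀ : ℂ)⁻¹) : Px ι) * ((d i₀ : ℕ) : Px ι) = 1 := by
      have h9 : ((d i₀ : ℕ) : Px ι) = C (d i₀ : ℂ) := by simp
      rw [h9, ← C_mul, inv_mul_cancel₀, C_1]
      exact_mod_cast hd0.ne'
    rw [h8, one_mul]
  rw [h7]
  exact Ideal.mul_mem_left _ _ h6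

/-- Chevalley: a minimal system of generators is algebraically independent. Let `h ≠ 0` be a polynomial of minimal
(weighted) degree, weighted homogeneous, with `h(f) = 0`; `h_i = (∂h/∂Y_i)(f)` are invariants, not all zero, with
`∑_i h_i ∂f_i/∂x_k = 0`. Choose a minimal subset `A` of the `h_i` generating the ideal of invariants generated by all
`h_i`, `h_j = ∑_{i ∈ A} g_{ji} h_i`; by `chevalley_lemma` `∂f_i/∂x_k + ∑_{j ∉ A} g_{ji} ∂f_j/∂x_k ∈ I` for `i ∈ A`;
multiply by `x_k` and sum over `k` (Euler): `d_i f_i + ∑_j d_j g_{ji} f_j ∈ ∑_l f_l (x-multiples)`, compare the components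
of degree `d_i`: `f_i` is in the ideal generated by the other `f_j`. -/
theorem algInd_of_min (hΓ : ReflGen Γ) (b : Basis ι ℂ V) {m : ℕ} (f : Fin m → Px ι) (d : Fin m → ℕ)
    (hf : ∀ i, (f i).IsHomogeneous (d i) ∧ 0 < d i ∧ PInv Γ b (f i))
    (hI : Ipos Γ b = Ideal.span (Set.range f)) (hmin : ∀ i, f i ∉ Ideal.span {q | ∃ j, j ≠ i ∧ q = f j}) :
    AlgebraicIndependent ℂ f := by
  classical
  rw [algebraicIndependent_iff]
  intro h0 hh0
  by_contra hne
  have hfh : ∀ i, (f i).IsHomogeneous (d i) := fun i => (hf i).1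
  -- the set of degrees of weighted homogeneous relations
  have hex : ∃ D : ℕ, ∃ h : MvPolynomial (Fin m) ℂ, h ≠ 0 ∧ IsWeightedHomogeneous d h D ∧
      aeval f h = 0 := by
    obtain ⟨u, hu⟩ : ∃ u, coeff u h0 ≠ 0 := by
      by_contra hcon
      push Not at hcon
      exact hne (MvPolynomial.ext _ _ (fun u => by rw [hcon u, coeff_zero]))
    refine ⟨Finsupp.weight d u, weightedHomogeneousComponent d (Finsupp.weight d u) h0, ?_,
      weightedHomogeneousComponent_isWeightedHomogeneous _ _, ?_⟩
    · intro hz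
      apply hu
      have := congrArg (coeff u) hz
      rw [coeff_weightedHomogeneousComponent, if_pos rfl, coeff_zero] at this
      exact this
    · rw [aeval_whc f d hfh, hh0, map_zero]
  obtain ⟨D, hD, hDmin⟩ : ∃ D : ℕ, (∃ h : MvPolynomial (Fin m) ℂ, h ≠ 0 ∧
      IsWeightedHomogeneous d h D ∧ aeval f h = 0) ∧ ∀ D' < D, ∀ h : MvPolynomial (Fin m) ℂ,
      IsWeightedHomogeneous d h D' → aeval f h = 0 → h = 0 := by
    refine ⟨Nat.find hex, Nat.find_spec hex, fun D' hD' h h1 h2 => ?_⟩
    by_contra h3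
    exact Nat.find_min hex hD' ⟨h, h3, h1, h2⟩
  obtain ⟨h, hne', hw, hz⟩ := hD
  set H : Fin m → Px ι := fun i => aeval f (pderiv i h) with hH
  -- derivatives
  have hpd0 : ∀ i, D < d i → pderiv i h = 0 := by
    intro i hi
    by_contra hcon
    obtain ⟨u, hu⟩ : ∃ u, coeff u (pderiv i h) ≠ 0 := by
      by_contra hc2
      push Not at hc2
      exact hcon (MvPolynomial.ext _ _ (fun u => by rw [hc2 u, coeff_zero]))
    rw [MvPolynomial.coeff_pderiv] at hu
    have h1 : coeff (u + Finsupp.single i 1) h ≠ 0 := fun h2 => hu (by rw [h2, zero_mul])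
    have h2 := hw h1
    rw [map_add, Finsupp.weight_single] at h2
    simp at h2
    omega
  have hpdw : ∀ i, d i ≤ D → IsWeightedHomogeneous d (pderiv i h) (D - d i) := by
    intro i hi
    exact hw.pderiv (by omega)
  have hHhom : ∀ i, (H i).IsHomogeneous (D - d i) := by
    intro i
    by_cases hi : d i ≤ D
    · exact aeval_hom f d hfh (hpdw i hi)
    · have : H i = 0 := by
        rw [hH]; simp only; rw [hpd0 i (by omega), map_zero]
      rw [this]; exact isHomogeneous_zero _ _ _
  have hH0 : ∀ i, H i = 0 → pderiv i h = 0 := by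
    intro i hi
    by_cases hdi : d i ≤ D
    · exact hDmin (D - d i) (by have := (hf i).2.1; omega) _ (hpdw i hdi) hi
    · exact hpd0 i (by omega)
  have hHne : ∃ i, H i ≠ 0 := by
    by_contra hcon
    push Not at hcon
    have h1 : ∀ i, pderiv i h = 0 := fun i => hH0 i (hcon i)
    have h2 := hw.sum_weight_X_mul_pderiv
    rw [Finset.sum_eq_zero (fun i _ => by rw [h1 i, mul_zero, smul_zero])] at h2
    have hD0 : D = 0 := by
      by_contra hDne
      apply hne'
      rw [nsmul_eq_mul] at h2
      have h3 : ((D : ℕ) : MvPolynomial (Fin m) ℂ) ≠ 0 := by exact_mod_cast hDne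
      exact (mul_eq_zero.1 h2.symm).resolve_left h3
    subst hD0
    have h3 : h = C (coeff 0 h) := by
      apply MvPolynomial.ext
      intro u
      rw [coeff_C]
      split_ifs with hu
      · rw [hu]
      · by_contra h4
        have h5 := hw h4
        rw [Finsupp.weight_apply, Finsupp.sum_fintype _ _ (fun i => by simp)] at h5
        apply hu
        ext i
        have h6 := (Finset.sum_eq_zero_iff.1 h5) i (Finset.mem_univ i)
        rw [smul_eq_mul] at h6
        rcases Nat.mul_eq_zero.1 h6 with h7 | h7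
        · rw [h7]; rfl
        · have := (hf i).2.1; omega
    rw [h3, aeval_C] at hz
    have h4 : coeff 0 h = 0 := by
      have h5 : (C (coeff 0 h) : Px ι) = 0 := hz
      rwa [C_eq_zero] at h5
    rw [h4, C_0] at h3
    exact hne' h3
  have hHinv : ∀ i, PInv Γ b (H i) := by
    intro i
    have h1 : Algebra.adjoin ℂ (Set.range f) ≤ invP Γ b := by
      rw [Algebra.adjoin_le_iff]
      rintro _ ⟨j, rfl⟩
      exact (hf j).2.2
    apply mem_invP.1
    apply h1
    rw [Algebra.adjoin_range_eq_range_aeval]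
    exact ⟨_, rfl⟩
  have hchain : ∀ k, ∑ i, H i * pderiv k (f i) = 0 := by
    intro k
    rw [← chain f h k, hz, map_zero]
  -- the minimal subset
  obtain ⟨A, hA, hAmin⟩ := exists_min_subset H
  obtain ⟨i₀, hi₀⟩ : A.Nonempty := by
    rw [Finset.nonempty_iff_ne_empty]
    rintro rfl
    obtain ⟨i, hi⟩ := hHne
    have := hA i
    simp at this
    exact hi this
  have hHA : ∀ i ∈ A, H i ≠ 0 := by
    intro i hi h1
    apply hAmin i hi
    rw [h1]
    exact zero_mem _
  have hdA : ∀ i ∈ A, d i ≤ D := by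
    intro i hi
    by_contra hcon
    apply hHA i hi
    rw [hH]; simp only; rw [hpd0 i (by omega), map_zero]
  -- the coefficients
  have hg : ∀ j, ∃ g : A → Px ι, H j = ∑ i : A, g i * H i ∧
      ∀ i : A, (d j ≤ d i → (g i).IsHomogeneous (d i - d j)) ∧ (d i < d j → g i = 0) := by
    intro j
    by_cases hj : H j = 0
    · refine ⟨fun _ => 0, by simp [hj], fun i => ⟨fun _ => isHomogeneous_zero _ _ _, fun _ => rfl⟩⟩
    · have hdj : d j ≤ D := by
        by_contra hcon
        apply hj
        rw [hH]; simp only; rw [hpd0 j (by omega), map_zero]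
      have hmem : H j ∈ Ideal.span (Set.range (fun i : A => H i)) := by
        have : Set.range (fun i : A => H i) = H '' (A : Set (Fin m)) := by
          ext x
          simp
        rw [this]
        exact hA j
      exact hom_coeffs (fun i : A => H i) (fun i : A => d i) (fun i => hdA i i.2)
        (fun i => hHhom i) hdj (hHhom j) hmem
  choose g hg1 hg2 using hg
  -- Chevalley's lemma
  have hkey : ∀ k, (pderiv k (f i₀) + ∑ j ∈ Finset.univ \ A, g j ⟨i₀, hi₀⟩ * pderiv k (f j)) ∈
      Ipos Γ b := by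
    intro k
    refine chevalley_lemma Γ hΓ b (κ := A) (fun i : A => H i) (fun i => hHinv i) ⟨i₀, hi₀⟩ ?_
      (d i₀ - 1) (fun i : A => pderiv k (f i) + ∑ j ∈ Finset.univ \ A, g j i * pderiv k (f j))
      ?_ ?_
    · have hsub : {q : Px ι | ∃ j : A, j ≠ ⟨i₀, hi₀⟩ ∧ q = H j} =
          H '' ((A.erase i₀ : Finset (Fin m)) : Set (Fin m)) := by
        ext x
        constructor
        · rintro ⟨⟨j, hj⟩, hj1, hj2⟩
          refine ⟨j, ?_, hj2.symm⟩
          rw [Finset.mem_coe, Finset.mem_erase]
          exact ⟨fun h1 => hj1 (Subtype.ext h1), hj⟩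
        · rintro ⟨j, hj, rfl⟩
          rw [Finset.mem_coe, Finset.mem_erase] at hj
          exact ⟨⟨j, hj.2⟩, fun h1 => hj.1 (congrArg Subtype.val h1), rfl⟩
      rw [hsub]
      exact hAmin i₀ hi₀
    · refine IsHomogeneous.add (hfh i₀).pderiv ?_
      apply IsHomogeneous.sum
      intro j _
      rcases lt_or_ge (d i₀) (d j) with hlt | hle
      · rw [(hg2 j ⟨i₀, hi₀⟩).2 hlt, zero_mul]
        exact isHomogeneous_zero _ _ _
      · have h1 := ((hg2 j ⟨i₀, hi₀⟩).1 hle).mul ((hfh j).pderiv (i := k))
        have hdj := (hf j).2.1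
        have h2 : d i₀ - 1 = d i₀ - d j + (d j - 1) := by omega
        rw [h2]
        exact h1
    · have h1 : ∑ i : A, H i * (pderiv k (f i) + ∑ j ∈ Finset.univ \ A, g j i * pderiv k (f j)) =
          ∑ i, H i * pderiv k (f i) := by
        have h2 : ∑ i : A, H i * (pderiv k (f i) + ∑ j ∈ Finset.univ \ A, g j i * pderiv k (f j)) =
            ∑ i : A, H i * pderiv k (f i) +
              ∑ j ∈ Finset.univ \ A, (∑ i : A, g j i * H i) * pderiv k (f j) := by
          simp_rw [mul_add, Finset.sum_add_distrib, Finset.mul_sum, Finset.sum_mul]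
          congr 1
          rw [Finset.sum_comm]
          apply Finset.sum_congr rfl
          intro j _
          apply Finset.sum_congr rfl
          intro i _
          ring
        rw [h2]
        have h3 : ∑ j ∈ Finset.univ \ A, (∑ i : A, g j i * H i) * pderiv k (f j) =
            ∑ j ∈ Finset.univ \ A, H j * pderiv k (f j) := by
          apply Finset.sum_congr rfl
          intro j _
          rw [← hg1 j]
        have h4 : ∑ i : A, H i * pderiv k (f i) = ∑ i ∈ A, H i * pderiv k (f i) :=
          Finset.sum_coe_sort A (fun i => H i * pderiv k (f i))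
        rw [h3, h4, add_comm, Finset.sum_sdiff (Finset.subset_univ A)]
      rw [h1]
      exact hchain k
  -- conclusion
  refine last_step f d hfh i₀ (hf i₀).2.1 (hmin i₀) A hi₀ (fun j => g j ⟨i₀, hi₀⟩)
    (fun k => pderiv k (f i₀) + ∑ j ∈ Finset.univ \ A, g j ⟨i₀, hi₀⟩ * pderiv k (f j))
    (fun k => by rw [← hI]; exact hkey k) ?_
  have e1 : ∀ j, ∑ k, X k * pderiv k (f j) = (d j : ℕ) • f j := fun j => (hfh j).sum_X_mul_pderiv
  simp_rw [mul_add, Finset.sum_add_distrib, e1, Finset.mul_sum]
  congr 1
  rw [Finset.sum_comm]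
  apply Finset.sum_congr rfl
  intro j _
  rw [mul_comm (g j ⟨i₀, hi₀⟩) (f j), ← smul_mul_assoc, ← e1 j, Finset.sum_mul]
  apply Finset.sum_congr rfl
  intro k _
  ring

end

end Pool.Agent.CM64
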