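import Pool.Agent.LibCM64.Tact

/-! The commutator `[T_v, x]`. -/

set_option linter.unusedSectionVars false

namespace Pool.Agent.CM64

open Module MvPolynomial

section

variable {V : Type} [AddCommGroup V] [Module ℂ V] [FiniteDimensional ℂ V]
variable {ι : Type} [Fintype ι] [DecidableEq ι]
variable (W : Subgroup (V ≃ₗ[ℂ] V)) [Finite W] (k : Submodule ℂ V → ℤ → ℂ)

/-- `ε_{H,j}` as an operator on `ℂ(V)[ξ]`. -/
noncomputable def epsop (b : Basis ι ℂ V) (H : Submodule ℂ V) (j : ℕ) : Module.End ℂ (Ax ι) :=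
  (eH W H : ℂ)⁻¹ • ∑ g ∈ pstF W H, dt g ^ j • (act b g).toLinearMap

/-- `(α_H(v)/α_H) (x ∘ g⁻¹ - x) = (det(g)⁻¹ - 1) x(P_H v)` (from `form_sub_eq`, `qH_mul`). -/
theorem qH_mul_form_sub (b : Basis ι ℂ V) {H : Submodule ℂ V} (hH : finrank ℂ H + 1 = finrank ℂ V)
    {g : V ≃ₗ[ℂ] V} (hg : g ∈ pst W H) (f : Dual ℂ V) (v : V) :
    (C (qH b H v) : Ax ι) * (xA (xl b (f.comp (g.symm : V →ₗ[ℂ] V))) - xA (xl b f))
      = algebraMap ℂ (Ax ι) (((dt g)⁻¹ - 1) * f (projH W H v)) := by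
  set c : ℂ := ((dt g)⁻¹ - 1) * f (projH W H v) with hc
  have hA : pF (xl b (lf H)) ≠ 0 := by
    intro h0
    rw [← map_zero (pF : Px ι →ₐ[ℂ] Fx ι)] at h0
    exact xl_lf_ne_zero b H hH (pF_injective h0)
  have h1 := qH_mul b H hH v
  have h2 := congrArg (fun φ => (pF : Px ι →ₐ[ℂ] Fx ι) (xl b φ)) (form_sub_eq W hH hg f v)
  simp only [map_smul, map_sub] at h2
  rw [← hc] at h2
  have key : qH b H v * (pF (xl b (f.comp (g.symm : V →ₗ[ℂ] V))) - pF (xl b f)) =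
      algebraMap ℂ (Fx ι) c := by
    apply mul_right_cancel₀ hA
    calc qH b H v * (pF (xl b (f.comp (g.symm : V →ₗ[ℂ] V))) - pF (xl b f)) * pF (xl b (lf H))
        = (qH b H v * pF (xl b (lf H))) *
          (pF (xl b (f.comp (g.symm : V →ₗ[ℂ] V))) - pF (xl b f)) := by ring
      _ = algebraMap ℂ (Fx ι) (lf H v) *
          (pF (xl b (f.comp (g.symm : V →ₗ[ℂ] V))) - pF (xl b f)) := by rw [h1]
      _ = c • pF (xl b (lf H)) := by rw [← Algebra.smul_def, h2]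
      _ = algebraMap ℂ (Fx ι) c * pF (xl b (lf H)) := by rw [Algebra.smul_def]
  rw [xA_apply, xA_apply, ← map_sub, ← map_mul, key]
  rfl

/-- `[(α_H(v)/α_H) a_H, x] = x(P_H v) ∑_{g ∈ W_H} κ_H(g)(det(g)⁻¹ - 1) g`. -/
theorem aop_xl (b : Basis ι ℂ V) {H : Submodule ℂ V} (hH : finrank ℂ H + 1 = finrank ℂ V)
    (f : Dual ℂ V) (v : V) (m : Ax ι) :
    (C (qH b H v) : Ax ι) * aop W k b H (xA (xl b f) * m)
      = xA (xl b f) * (C (qH b H v) * aop W k b H m)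
        + f (projH W H v) • ∑ g ∈ pstF W H, (kap W k H g * ((dt g)⁻¹ - 1)) • act b g m := by
  rw [tact_aop_apply, tact_aop_apply, Finset.mul_sum, Finset.mul_sum, Finset.mul_sum,
    Finset.smul_sum, ← Finset.sum_add_distrib]
  refine Finset.sum_congr rfl fun g hg => ?_
  have h1 := qH_mul_form_sub W b hH (mem_pstF.1 hg) f v
  have h2 : act b g (xA (xl b f)) = xA (xl b (f.comp (g.symm : V →ₗ[ℂ] V))) := by
    rw [act, trA_xA, trP_xl]
  rw [map_mul, h2]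
  simp only [Algebra.smul_def]
  rw [map_mul] at h1
  simp only [map_mul]
  linear_combination (algebraMap ℂ (Ax ι) (kap W k H g)) * (act b g m) * h1

/-- `[T_v, x] = ∑_H x(P_H v) ∑_{g ∈ W_H} κ_H(g)(det(g)⁻¹ - 1) g`. -/
theorem dunkl_xl' (b : Basis ι ℂ V) (v : V) (f : Dual ℂ V) (m : Ax ι) :
    dunkl W k b v (xA (xl b f) * m) = xA (xl b f) * dunkl W k b v m
      + ∑ H ∈ arrF W, f (projH W H v) • ∑ g ∈ pstF W H, (kap W k H g * ((dt g)⁻¹ - 1)) • act b g m := by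
  rw [tact_dunkl_apply, tact_dunkl_apply, mul_add, Finset.mul_sum, add_assoc,
    ← Finset.sum_add_distrib]
  congr 1
  · ring
  · refine Finset.sum_congr rfl fun H hH => ?_
    exact aop_xl W k b (arr_finrank W (mem_arrF.1 hH)) f v m

/-- `[T_v, x] = ∑_H ∑_j e_H (k_{H,j} - k_{H,j+1}) x(P_H v) ε_{H,j}` (use `kap_mul`). -/
theorem dunkl_xl (hk : Adm W k) (b : Basis ι ℂ V) (v : V) (f : Dual ℂ V) (m : Ax ι) :
    dunkl W k b v (xA (xl b f) * m) = xA (xl b f) * dunkl W k b v m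
      + ∑ H ∈ arrF W, ∑ j ∈ Finset.range (eH W H),
          ((eH W H : ℂ) * (k H j - k H (j + 1)) * f (projH W H v)) • epsop W b H j m := by
  rw [dunkl_xl']
  congr 1
  refine Finset.sum_congr rfl fun H hH => ?_
  have he : (eH W H : ℂ) ≠ 0 := Nat.cast_ne_zero.2 (eH_pos W H).ne'
  have h1 : ∀ g ∈ pstF W H, (kap W k H g * ((dt g)⁻¹ - 1)) • act b g m =
      ∑ j ∈ Finset.range (eH W H), ((k H j - k H (j + 1)) * dt g ^ j) • act b g m := by
    intro g hg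
    rw [kap_mul W k hk (mem_arrF.1 hH) (mem_pstF.1 hg), Finset.sum_smul]
  rw [Finset.sum_congr rfl h1, Finset.sum_comm, Finset.smul_sum]
  refine Finset.sum_congr rfl fun j _ => ?_
  have h2 : epsop W b H j m = (eH W H : ℂ)⁻¹ • ∑ g ∈ pstF W H, dt g ^ j • act b g m := by
    unfold epsop
    rw [LinearMap.smul_apply, LinearMap.sum_apply]
    rfl
  rw [h2, smul_smul, Finset.smul_sum, Finset.smul_sum]
  refine Finset.sum_congr rfl fun g _ => ?_
  rw [smul_smul, smul_smul]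
  congr 1
  field_simp

end

end Pool.Agent.CM64
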