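import Pool.Agent.LibCM64.HatA

/-! The deformation `Θ̂ : Ĥ → End(ℂ(V)[ξ])[ε]`, `t ↦ ε`, `y ↦ T_y + ε ∂_y`. -/

set_option linter.unusedSectionVars false

namespace Pool.Agent.CM64

open Module MvPolynomial

section

variable {V : Type} [AddCommGroup V] [Module ℂ V] [FiniteDimensional ℂ V]
variable {ι : Type} [Fintype ι] [DecidableEq ι]
variable (W : Subgroup (V ≃ₗ[ℂ] V)) [Finite W] (k : Submodule ℂ V → ℤ → ℂ)

/-- `Θ̂` on the generators. -/
noncomputable def thhG (b : Basis ι ℂ V) : Gen W → DualNumber (Module.End ℂ (Ax ι))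
  | Gen.x f => TrivSqZeroExt.inl (LinearMap.mulLeft ℂ (xA (xl b f)))
  | Gen.y v => TrivSqZeroExt.inl (dunkl W k b v) + TrivSqZeroExt.inr (dA b v)
  | Gen.w g => TrivSqZeroExt.inl (act b (g : V ≃ₗ[ℂ] V)).toLinearMap
  | Gen.t => TrivSqZeroExt.inr 1

/-- `Θ̂` on the free algebra. -/
noncomputable def thhF (b : Basis ι ℂ V) :
    FreeAlgebra ℂ (Gen W) →ₐ[ℂ] DualNumber (Module.End ℂ (Ax ι)) :=
  FreeAlgebra.lift ℂ (thhG W k b)

theorem thhF_fst (b : Basis ι ℂ V) (a : FreeAlgebra ℂ (Gen W)) : (thhF W k b a).fst = thF W k b a := by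
  have key : (TrivSqZeroExt.fstHom ℂ (Module.End ℂ (Ax ι)) (Module.End ℂ (Ax ι))).comp (thhF W k b)
      = thF W k b := by
    apply FreeAlgebra.hom_ext
    funext s
    simp only [Function.comp_apply, AlgHom.comp_apply, thhF, thF, FreeAlgebra.lift_ι_apply]
    cases s with
    | x f => simp [thhG, thG]
    | y v => simp [thhG, thG]
    | w g => simp [thhG, thG]
    | t => simp [thhG, thG]
  exact congrArg (fun F => F a) key

private theorem thhF_xF (b : Basis ι ℂ V) (f : Dual ℂ V) :
    thhF W k b (xF W f) = TrivSqZeroExt.inl (LinearMap.mulLeft ℂ (xA (xl b f))) := by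
  rw [thhF, xF, FreeAlgebra.lift_ι_apply, thhG]

private theorem thhF_yF (b : Basis ι ℂ V) (v : V) :
    thhF W k b (yF W v) = TrivSqZeroExt.inl (dunkl W k b v) + TrivSqZeroExt.inr (dA b v) := by
  rw [thhF, yF, FreeAlgebra.lift_ι_apply, thhG]

private theorem thhF_wF (b : Basis ι ℂ V) (g : W) :
    thhF W k b (wF W g) = TrivSqZeroExt.inl (act b (g : V ≃ₗ[ℂ] V)).toLinearMap := by
  rw [thhF, wF, FreeAlgebra.lift_ι_apply, thhG]

private theorem thhF_tF (b : Basis ι ℂ V) :
    thhF W k b (tF W) = TrivSqZeroExt.inr 1 := by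
  rw [thhF, tF, FreeAlgebra.lift_ι_apply, thhG]

private theorem thF_xF (b : Basis ι ℂ V) (f : Dual ℂ V) :
    thF W k b (xF W f) = LinearMap.mulLeft ℂ (xA (xl b f)) := by
  rw [thF, xF, FreeAlgebra.lift_ι_apply, thG]

private theorem thF_yF (b : Basis ι ℂ V) (v : V) :
    thF W k b (yF W v) = dunkl W k b v := by
  rw [thF, yF, FreeAlgebra.lift_ι_apply, thG]

private theorem thF_wF (b : Basis ι ℂ V) (g : W) :
    thF W k b (wF W g) = (act b (g : V ≃ₗ[ℂ] V)).toLinearMap := by
  rw [thF, wF, FreeAlgebra.lift_ι_apply, thG]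

private theorem thhF_snd_mul (b : Basis ι ℂ V) (a a' : FreeAlgebra ℂ (Gen W)) :
    (thhF W k b (a * a')).snd = thF W k b a * (thhF W k b a').snd + (thhF W k b a).snd * thF W k b a' := by
  rw [map_mul, TrivSqZeroExt.snd_mul, thhF_fst, thhF_fst]
  rfl

private theorem thhF_snd_xF (b : Basis ι ℂ V) (f : Dual ℂ V) : (thhF W k b (xF W f)).snd = 0 := by
  rw [thhF_xF]; rfl

private theorem thhF_snd_yF (b : Basis ι ℂ V) (v : V) : (thhF W k b (yF W v)).snd = dA b v := by
  rw [thhF_yF, TrivSqZeroExt.snd_add, TrivSqZeroExt.snd_inl, TrivSqZeroExt.snd_inr, zero_add]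

private theorem thhF_snd_wF (b : Basis ι ℂ V) (g : W) : (thhF W k b (wF W g)).snd = 0 := by
  rw [thhF_wF]; rfl

private theorem thhF_snd_tF (b : Basis ι ℂ V) : (thhF W k b (tF W)).snd = 1 := by
  rw [thhF_tF]; rfl

private theorem thF_tF (b : Basis ι ℂ V) : thF W k b (tF W) = 0 := by
  rw [thF, tF, FreeAlgebra.lift_ι_apply, thG]

private theorem thhF_snd_add (b : Basis ι ℂ V) (a a' : FreeAlgebra ℂ (Gen W)) :
    (thhF W k b (a + a')).snd = (thhF W k b a).snd + (thhF W k b a').snd := by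
  rw [map_add, TrivSqZeroExt.snd_add]

private theorem thhF_snd_smul (b : Basis ι ℂ V) (c : ℂ) (a : FreeAlgebra ℂ (Gen W)) :
    (thhF W k b (c • a)).snd = c • (thhF W k b a).snd := by
  rw [map_smul, TrivSqZeroExt.snd_smul]

private theorem thhF_snd_sum (b : Basis ι ℂ V) {κ : Type} (s : Finset κ) (F : κ → FreeAlgebra ℂ (Gen W)) :
    (thhF W k b (∑ j ∈ s, F j)).snd = ∑ j ∈ s, (thhF W k b (F j)).snd := by
  classical
  induction s using Finset.induction_on with
  | empty => rw [Finset.sum_empty, Finset.sum_empty, map_zero]; rfl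
  | insert a s ha ih => rw [Finset.sum_insert ha, Finset.sum_insert ha, thhF_snd_add, ih]

private theorem thhF_snd_epsF (b : Basis ι ℂ V) (H : Submodule ℂ V) (j : ℕ) :
    (thhF W k b (epsF W H j)).snd = 0 := by
  rw [epsF, thhF_snd_smul, thhF_snd_sum, Finset.sum_eq_zero, smul_zero]
  intro g _
  rw [thhF_snd_smul, thhF_snd_wF, smul_zero]

private theorem thhF_snd_commF (b : Basis ι ℂ V) (v : V) (f : Dual ℂ V) :
    (thhF W k b (commF W k v f)).snd = f v • 1 := by
  rw [commF, thhF_snd_add, thhF_snd_smul, thhF_snd_tF, thhF_snd_sum, Finset.sum_eq_zero, add_zero]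
  intro H _
  rw [thhF_snd_sum]
  refine Finset.sum_eq_zero (fun j _ => ?_)
  rw [thhF_snd_smul, thhF_snd_epsF, smul_zero]

/-- the relations are satisfied: the `fst` components by `thF_rel`, the `snd` components by
`dA_dunkl_symm` (for `[y,y'] = 0`), `trA_dA`, `dA_mul`, `dA_xl`. -/
theorem thhF_rel (hk : Adm W k) (b : Basis ι ℂ V) {a a' : FreeAlgebra ℂ (Gen W)}
    (h : Rel W k False a a') : thhF W k b a = thhF W k b a' := by
  refine TrivSqZeroExt.ext ?_ ?_
  · rw [thhF_fst, thhF_fst]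
    exact thF_rel W k hk b (Rel_spec W k h)
  cases h with
  | x_add f f' => rw [thhF_snd_add, thhF_snd_xF, thhF_snd_xF, thhF_snd_xF, add_zero]
  | x_smul c f => rw [thhF_snd_smul, thhF_snd_xF, thhF_snd_xF, smul_zero]
  | y_add v v' => rw [thhF_snd_add, thhF_snd_yF, thhF_snd_yF, thhF_snd_yF, dA_add]
  | y_smul c v => rw [thhF_snd_smul, thhF_snd_yF, thhF_snd_yF, dA_smul]
  | w_one => rw [thhF_snd_wF, map_one]; rfl
  | w_mul g h => rw [thhF_snd_mul, thhF_snd_wF, thhF_snd_wF, thhF_snd_wF, mul_zero, zero_mul, add_zero]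
  | xx f f' => rw [thhF_snd_mul, thhF_snd_mul, thhF_snd_xF, thhF_snd_xF, mul_zero, zero_mul, add_zero,
      mul_zero, zero_mul, add_zero]
  | yy v v' =>
    rw [thhF_snd_mul, thhF_snd_mul, thhF_snd_yF, thhF_snd_yF, thF_yF, thF_yF]
    apply LinearMap.ext
    intro m
    have := dA_dunkl_symm W k b v v' m
    simp only [LinearMap.add_apply, Module.End.mul_apply]
    linear_combination this
  | wx g f =>
    rw [thhF_snd_mul, thhF_snd_mul, thhF_snd_wF, thhF_snd_xF, thhF_snd_xF, mul_zero, zero_mul, add_zero,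
      mul_zero, zero_mul, add_zero]
  | wy g v =>
    rw [thhF_snd_mul, thhF_snd_mul, thhF_snd_wF, thhF_snd_yF, thhF_snd_yF, zero_mul, add_zero,
      mul_zero, zero_add, thF_wF]
    apply LinearMap.ext
    intro m
    exact trA_dA b b g v m
  | tx f =>
    rw [thhF_snd_mul, thhF_snd_mul, thhF_snd_tF, thhF_snd_xF, mul_zero, zero_mul, mul_one, one_mul,
      zero_add, add_zero]
  | ty v =>
    rw [thhF_snd_mul, thhF_snd_mul, thhF_snd_tF, thhF_snd_yF, thF_tF, mul_one, one_mul, mul_zero,
      zero_mul, zero_add, add_zero]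
  | tw g =>
    rw [thhF_snd_mul, thhF_snd_mul, thhF_snd_tF, thhF_snd_wF, mul_zero, zero_mul, mul_one, one_mul,
      zero_add, add_zero]
  | yx v f =>
    rw [thhF_snd_add, thhF_snd_mul, thhF_snd_mul, thhF_snd_yF, thhF_snd_xF, thhF_snd_commF, mul_zero,
      zero_mul, zero_add, add_zero, thF_xF]
    apply LinearMap.ext
    intro m
    simp only [LinearMap.add_apply, Module.End.mul_apply, LinearMap.mulLeft_apply, LinearMap.smul_apply,
      Module.End.one_apply]
    rw [dA_mul, dA_xl, Algebra.smul_def]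
  | t_zero h => exact h.elim

/-- `Θ̂`. -/
noncomputable def ThetaHat (hk : Adm W k) (b : Basis ι ℂ V) :
    Ch W k False →ₐ[ℂ] DualNumber (Module.End ℂ (Ax ι)) :=
  RingQuot.liftAlgHom ℂ ⟨thhF W k b, fun _ _ h => thhF_rel W k hk b h⟩

theorem ThetaHat_fst (hk : Adm W k) (b : Basis ι ℂ V) (a : Ch W k False) :
    (ThetaHat W k hk b a).fst = Theta W k hk b (spec W k a) := by
  obtain ⟨a', rfl⟩ := RingQuot.mkAlgHom_surjective ℂ (Rel W k False) a
  rw [spec_mk, ThetaHat, Theta, RingQuot.liftAlgHom_mkAlgHom_apply, RingQuot.liftAlgHom_mkAlgHom_apply,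
    thhF_fst]

theorem ThetaHat_ct_mul (hk : Adm W k) (b : Basis ι ℂ V) (a : Ch W k False) :
    ThetaHat W k hk b (ct W k False * a) = TrivSqZeroExt.inr (Theta W k hk b (spec W k a)) := by
  have h1 : ThetaHat W k hk b (ct W k False) = TrivSqZeroExt.inr 1 := by
    rw [ThetaHat, ct, RingQuot.liftAlgHom_mkAlgHom_apply, thhF_tF]
  rw [map_mul, h1, ← ThetaHat_fst W k hk b a]
  refine TrivSqZeroExt.ext ?_ ?_
  · rw [TrivSqZeroExt.fst_mul, TrivSqZeroExt.fst_inr, TrivSqZeroExt.fst_inr, zero_mul]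
  · rw [TrivSqZeroExt.snd_mul, TrivSqZeroExt.fst_inr, TrivSqZeroExt.snd_inr, TrivSqZeroExt.snd_inr,
      zero_smul, zero_add, MulOpposite.smul_eq_mul_unop, MulOpposite.unop_op, one_mul]

theorem ThetaHat_cx (hk : Adm W k) (b : Basis ι ℂ V) (f : Dual ℂ V) :
    ThetaHat W k hk b (cx W k False f) = TrivSqZeroExt.inl (LinearMap.mulLeft ℂ (xA (xl b f))) := by
  rw [ThetaHat, cx, RingQuot.liftAlgHom_mkAlgHom_apply, thhF_xF]

theorem ThetaHat_cy (hk : Adm W k) (b : Basis ι ℂ V) (v : V) :
    ThetaHat W k hk b (cy W k False v) = TrivSqZeroExt.inl (dunkl W k b v) + TrivSqZeroExt.inr (dA b v) := by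
  rw [ThetaHat, cy, RingQuot.liftAlgHom_mkAlgHom_apply, thhF_yF]

theorem ThetaHat_cw (hk : Adm W k) (b : Basis ι ℂ V) (g : W) :
    ThetaHat W k hk b (cw W k False g) = TrivSqZeroExt.inl (act b (g : V ≃ₗ[ℂ] V)).toLinearMap := by
  rw [ThetaHat, cw, RingQuot.liftAlgHom_mkAlgHom_apply, thhF_wF]

/-- `T = A₀ + ε A₁` with `A₀ = ∑ a_g g` and `A₁ - ∑ ∇_{a_g} g ∈ OpAlg`. -/
def Hst (b : Basis ι ℂ V) (T : DualNumber (Module.End ℂ (Ax ι))) : Prop :=
  ∃ a : (V ≃ₗ[ℂ] V) → Ax ι, T.fst = opOf W b a ∧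
    T.snd - ∑ g ∈ elF W, nab b (a g) ∘ₗ (act b g).toLinearMap ∈ OpAlg W b

private theorem nab_add (b : Basis ι ℂ V) (f f' : Ax ι) : nab b (f + f') = nab b f + nab b f' := by
  rw [nab, nab, nab, ← Finset.sum_add_distrib]
  refine Finset.sum_congr rfl (fun i _ => ?_)
  apply LinearMap.ext
  intro m
  simp only [LinearMap.add_apply, LinearMap.comp_apply, LinearMap.mulLeft_apply, map_add, add_mul]

private theorem nab_C (b : Basis ι ℂ V) (c : Fx ι) : nab b (C c) = 0 := by
  rw [nab]
  refine Finset.sum_eq_zero (fun i _ => ?_)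
  apply LinearMap.ext
  intro m
  simp only [LinearMap.comp_apply, LinearMap.mulLeft_apply, pderiv_C, zero_mul, LinearMap.zero_apply]

private theorem nab_zero (b : Basis ι ℂ V) : nab b (0 : Ax ι) = 0 := by
  have := nab_C b (0 : Fx ι)
  rwa [C_0] at this

private theorem nab_sum (b : Basis ι ℂ V) {κ : Type} (s : Finset κ) (F : κ → Ax ι) :
    nab b (∑ j ∈ s, F j) = ∑ j ∈ s, nab b (F j) := by
  classical
  induction s using Finset.induction_on with
  | empty => rw [Finset.sum_empty, Finset.sum_empty, nab_zero]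
  | insert a s ha ih => rw [Finset.sum_insert ha, Finset.sum_insert ha, nab_add, ih]

private theorem nab_apply (b : Basis ι ℂ V) (f m : Ax ι) :
    nab b f m = ∑ i, pderiv i f * dA b (b i) m := by
  rw [nab, LinearMap.sum_apply]; rfl

/-- `∇_{f f'} = f ∇_{f'} + f' ∇_f`. -/
private theorem nab_mul (b : Basis ι ℂ V) (f f' m : Ax ι) :
    nab b (f * f') m = f * nab b f' m + f' * nab b f m := by
  rw [nab_apply, nab_apply, nab_apply, Finset.mul_sum, Finset.mul_sum, ← Finset.sum_add_distrib]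
  refine Finset.sum_congr rfl (fun i _ => ?_)
  rw [Derivation.leibniz, smul_eq_mul, smul_eq_mul]
  ring

/-- `∇_f(f' m) = f' ∇_f m + ∇_f(f') m`. -/
private theorem nab_leib (b : Basis ι ℂ V) (f f' m : Ax ι) :
    nab b f (f' * m) = f' * nab b f m + nab b f f' * m := by
  rw [nab_apply, nab_apply, nab_apply, Finset.mul_sum, Finset.sum_mul, ← Finset.sum_add_distrib]
  refine Finset.sum_congr rfl (fun i _ => ?_)
  rw [dA_mul]
  ring

private theorem sum_elF_mul {M : Type} [AddCommMonoid M] {g : V ≃ₗ[ℂ] V} (hg : g ∈ W)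
    (F : (V ≃ₗ[ℂ] V) → M) : ∑ u ∈ elF W, F u = ∑ h ∈ elF W, F (g * h) := by
  refine Finset.sum_nbij' (fun u => g⁻¹ * u) (fun h => g * h) ?_ ?_ ?_ ?_ ?_
  · intro u hu
    exact (mem_elF W).2 (W.mul_mem (W.inv_mem hg) ((mem_elF W).1 hu))
  · intro u hu
    exact (mem_elF W).2 (W.mul_mem hg ((mem_elF W).1 hu))
  · intro u _
    exact mul_inv_cancel_left g u
  · intro u _
    exact inv_mul_cancel_left g u
  · intro u _
    rw [mul_inv_cancel_left]

/-- closure under addition. -/
theorem Hst_add (b : Basis ι ℂ V) {T T' : DualNumber (Module.End ℂ (Ax ι))} (h : Hst W b T) (h' : Hst W b T') :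
    Hst W b (T + T') := by
  obtain ⟨a, h1, h2⟩ := h
  obtain ⟨a', h1', h2'⟩ := h'
  refine ⟨fun g => a g + a' g, ?_, ?_⟩
  · rw [TrivSqZeroExt.fst_add, h1, h1']
    apply LinearMap.ext
    intro m
    rw [LinearMap.add_apply, opOf_apply, opOf_apply, opOf_apply, ← Finset.sum_add_distrib]
    exact Finset.sum_congr rfl (fun g _ => by rw [add_mul])
  · have e : (T + T').snd - ∑ g ∈ elF W, nab b (a g + a' g) ∘ₗ (act b g).toLinearMap
        = (T.snd - ∑ g ∈ elF W, nab b (a g) ∘ₗ (act b g).toLinearMap)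
          + (T'.snd - ∑ g ∈ elF W, nab b (a' g) ∘ₗ (act b g).toLinearMap) := by
      have e' : ∑ g ∈ elF W, nab b (a g + a' g) ∘ₗ (act b g).toLinearMap
          = ∑ g ∈ elF W, nab b (a g) ∘ₗ (act b g).toLinearMap
            + ∑ g ∈ elF W, nab b (a' g) ∘ₗ (act b g).toLinearMap := by
        rw [← Finset.sum_add_distrib]
        exact Finset.sum_congr rfl (fun g _ => by rw [nab_add, LinearMap.add_comp])
      rw [e', TrivSqZeroExt.snd_add]
      abel
    rw [e]
    exact add_mem h2 h2'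

/-- closure under products: `∇_{f f'} = f ∇_{f'} + f' ∇_f`, `g ∇_f = ∇_{g f} g` (`trA_nab`), and
`∇_f ∘ f' = f' ∇_f + ∇_f(f')`. -/
theorem Hst_mul (b : Basis ι ℂ V) {T T' : DualNumber (Module.End ℂ (Ax ι))} (h : Hst W b T) (h' : Hst W b T') :
    Hst W b (T * T') := by
  obtain ⟨a, h1, h2⟩ := h
  obtain ⟨a', h1', h2'⟩ := h'
  have hact : ∀ (g h : V ≃ₗ[ℂ] V) (m : Ax ι), act b g (act b h m) = act b (g * h) m :=
    fun g h m => (act_mul b g h m).symm
  refine ⟨fun u => ∑ g ∈ elF W, a g * act b g (a' (g⁻¹ * u)), ?_, ?_⟩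
  · rw [TrivSqZeroExt.fst_mul, h1, h1']
    apply LinearMap.ext
    intro m
    rw [Module.End.mul_apply, opOf_apply, opOf_apply, opOf_apply]
    simp only [Finset.sum_mul]
    rw [Finset.sum_comm]
    refine Finset.sum_congr rfl (fun g hg => ?_)
    rw [sum_elF_mul W ((mem_elF W).1 hg) (fun u => a g * act b g (a' (g⁻¹ * u)) * act b u m), map_sum,
      Finset.mul_sum]
    refine Finset.sum_congr rfl (fun h _ => ?_)
    rw [inv_mul_cancel_left, map_mul, hact, mul_assoc]
  · set D := ∑ g ∈ elF W, nab b (a g) ∘ₗ (act b g).toLinearMap with hD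
    set D' := ∑ g ∈ elF W, nab b (a' g) ∘ₗ (act b g).toLinearMap with hD'
    have e1 : (T * T').snd = opOf W b a * (T'.snd - D') + (T.snd - D) * opOf W b a'
        + (opOf W b a * D' + D * opOf W b a') := by
      have e0 : (T * T').snd = T.fst * T'.snd + T.snd * T'.fst := by
        rw [TrivSqZeroExt.snd_mul]; rfl
      rw [e0, h1, h1']
      apply LinearMap.ext
      intro m
      simp only [LinearMap.add_apply, Module.End.mul_apply, LinearMap.sub_apply, map_sub]
      abel
    have e2 : opOf W b a * D' + D * opOf W b a'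
        = (∑ u ∈ elF W, nab b (∑ g ∈ elF W, a g * act b g (a' (g⁻¹ * u))) ∘ₗ (act b u).toLinearMap)
          + ∑ g ∈ elF W, ∑ h ∈ elF W, LinearMap.mulLeft ℂ (nab b (a g) (act b g (a' h)))
              ∘ₗ (act b (g * h)).toLinearMap := by
      apply LinearMap.ext
      intro m
      have l1 : (opOf W b a * D') m = ∑ g ∈ elF W, ∑ h ∈ elF W,
          a g * nab b (act b g (a' h)) (act b (g * h) m) := by
        rw [Module.End.mul_apply, opOf_apply]
        refine Finset.sum_congr rfl (fun g _ => ?_)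
        rw [hD', LinearMap.sum_apply, map_sum, Finset.mul_sum]
        refine Finset.sum_congr rfl (fun h _ => ?_)
        rw [LinearMap.comp_apply, AlgHom.toLinearMap_apply, trA_nab, hact]
      have l2 : (D * opOf W b a') m = ∑ g ∈ elF W, ∑ h ∈ elF W,
          (act b g (a' h) * nab b (a g) (act b (g * h) m)
            + nab b (a g) (act b g (a' h)) * act b (g * h) m) := by
        rw [Module.End.mul_apply, opOf_apply, hD, LinearMap.sum_apply]
        refine Finset.sum_congr rfl (fun g _ => ?_)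
        rw [LinearMap.comp_apply, AlgHom.toLinearMap_apply, map_sum, map_sum]
        refine Finset.sum_congr rfl (fun h _ => ?_)
        rw [map_mul, hact, nab_leib]
      have l3 : (∑ u ∈ elF W, nab b (∑ g ∈ elF W, a g * act b g (a' (g⁻¹ * u)))
          ∘ₗ (act b u).toLinearMap) m = ∑ g ∈ elF W, ∑ h ∈ elF W,
          (a g * nab b (act b g (a' h)) (act b (g * h) m)
            + act b g (a' h) * nab b (a g) (act b (g * h) m)) := by
        rw [LinearMap.sum_apply]
        have : ∀ u ∈ elF W, (nab b (∑ g ∈ elF W, a g * act b g (a' (g⁻¹ * u)))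
            ∘ₗ (act b u).toLinearMap) m
            = ∑ g ∈ elF W, nab b (a g * act b g (a' (g⁻¹ * u))) (act b u m) := by
          intro u _
          rw [LinearMap.comp_apply, AlgHom.toLinearMap_apply, nab_sum, LinearMap.sum_apply]
        rw [Finset.sum_congr rfl this, Finset.sum_comm]
        refine Finset.sum_congr rfl (fun g hg => ?_)
        rw [sum_elF_mul W ((mem_elF W).1 hg)]
        refine Finset.sum_congr rfl (fun h _ => ?_)
        rw [inv_mul_cancel_left, nab_mul]
      have l4 : (∑ g ∈ elF W, ∑ h ∈ elF W, LinearMap.mulLeft ℂ (nab b (a g) (act b g (a' h)))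
              ∘ₗ (act b (g * h)).toLinearMap) m
          = ∑ g ∈ elF W, ∑ h ∈ elF W, nab b (a g) (act b g (a' h)) * act b (g * h) m := by
        rw [LinearMap.sum_apply]
        refine Finset.sum_congr rfl (fun g _ => ?_)
        rw [LinearMap.sum_apply]
        rfl
      rw [LinearMap.add_apply, LinearMap.add_apply, l1, l2, l3, l4]
      simp only [Finset.sum_add_distrib]
      ring
    rw [e1, e2]
    have e3 : opOf W b a * (T'.snd - D') + (T.snd - D) * opOf W b a'
        + ((∑ u ∈ elF W, nab b (∑ g ∈ elF W, a g * act b g (a' (g⁻¹ * u))) ∘ₗ (act b u).toLinearMap)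
          + ∑ g ∈ elF W, ∑ h ∈ elF W, LinearMap.mulLeft ℂ (nab b (a g) (act b g (a' h)))
              ∘ₗ (act b (g * h)).toLinearMap)
        - (∑ u ∈ elF W, nab b (∑ g ∈ elF W, a g * act b g (a' (g⁻¹ * u))) ∘ₗ (act b u).toLinearMap)
        = opOf W b a * (T'.snd - D') + (T.snd - D) * opOf W b a'
          + ∑ g ∈ elF W, ∑ h ∈ elF W, LinearMap.mulLeft ℂ (nab b (a g) (act b g (a' h)))
              ∘ₗ (act b (g * h)).toLinearMap := by
      abel
    rw [e3]
    have ho : ∀ c : (V ≃ₗ[ℂ] V) → Ax ι, opOf W b c ∈ OpAlg W b := fun c => (mem_OpAlg_iff W b _).2 ⟨c, rfl⟩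
    refine add_mem (add_mem (mul_mem (ho a) h2') (mul_mem h2 (ho a'))) ?_
    refine sum_mem (fun g hg => sum_mem (fun h hh => ?_))
    exact mul_mem (mulLeft_mem_OpAlg W b _)
      (act_mem_OpAlg W b (W.mul_mem ((mem_elF W).1 hg) ((mem_elF W).1 hh)))

private theorem Hst_single (b : Basis ι ℂ V) {g : V ≃ₗ[ℂ] V} (hg : g ∈ W) (f : Ax ι) :
    Hst W b (TrivSqZeroExt.inl (LinearMap.mulLeft ℂ f ∘ₗ (act b g).toLinearMap)
      + TrivSqZeroExt.inr (nab b f ∘ₗ (act b g).toLinearMap)) := by
  classical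
  have h1 : opOf W b (fun u => if u = g then f else 0)
      = LinearMap.mulLeft ℂ f ∘ₗ (act b g).toLinearMap := by
    rw [opOf, Finset.sum_eq_single g]
    · rw [if_pos rfl]
    · intro u _ hu
      rw [if_neg hu]
      apply LinearMap.ext
      intro m
      simp only [LinearMap.comp_apply, LinearMap.mulLeft_apply, zero_mul, LinearMap.zero_apply]
    · intro h
      exact absurd ((mem_elF W).2 hg) h
  have h2 : ∑ u ∈ elF W, nab b (if u = g then f else 0) ∘ₗ (act b u).toLinearMap
      = nab b f ∘ₗ (act b g).toLinearMap := by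
    rw [Finset.sum_eq_single g]
    · rw [if_pos rfl]
    · intro u _ hu
      rw [if_neg hu, nab_zero, LinearMap.zero_comp]
    · intro h
      exact absurd ((mem_elF W).2 hg) h
  refine ⟨fun u => if u = g then f else 0, ?_, ?_⟩
  · rw [h1, TrivSqZeroExt.fst_add, TrivSqZeroExt.fst_inl, TrivSqZeroExt.fst_inr, add_zero]
  · rw [h2, TrivSqZeroExt.snd_add, TrivSqZeroExt.snd_inl, TrivSqZeroExt.snd_inr, zero_add]
    exact Eq.mpr (congrArg (fun x => x ∈ OpAlg W b) (sub_self (nab b f ∘ₗ (act b g).toLinearMap)))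
      (zero_mem (OpAlg W b))

private theorem Hst_C (b : Basis ι ℂ V) {g : V ≃ₗ[ℂ] V} (hg : g ∈ W) (c : Fx ι) :
    Hst W b (TrivSqZeroExt.inl (LinearMap.mulLeft ℂ (C c : Ax ι) ∘ₗ (act b g).toLinearMap)) := by
  have := Hst_single W b hg (C c : Ax ι)
  rwa [nab_C, LinearMap.zero_comp, TrivSqZeroExt.inr_zero, add_zero] at this

private theorem act_one_toLinearMap (b : Basis ι ℂ V) :
    (act b (1 : V ≃ₗ[ℂ] V)).toLinearMap = LinearMap.id := by
  apply LinearMap.ext
  intro m
  exact act_one b m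

private theorem Hst_zero (b : Basis ι ℂ V) : Hst W b (0 : DualNumber (Module.End ℂ (Ax ι))) := by
  have := Hst_C W b W.one_mem (0 : Fx ι)
  have e : (TrivSqZeroExt.inl (LinearMap.mulLeft ℂ (C (0 : Fx ι) : Ax ι)
      ∘ₗ (act b (1 : V ≃ₗ[ℂ] V)).toLinearMap) : DualNumber (Module.End ℂ (Ax ι))) = 0 := by
    rw [C_0]
    have : LinearMap.mulLeft ℂ (0 : Ax ι) ∘ₗ (act b (1 : V ≃ₗ[ℂ] V)).toLinearMap = 0 := by
      apply LinearMap.ext
      intro m
      simp only [LinearMap.comp_apply, LinearMap.mulLeft_apply, zero_mul, LinearMap.zero_apply]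
    rw [this, TrivSqZeroExt.inl_zero]
  rwa [e] at this

private theorem Hst_sum (b : Basis ι ℂ V) {κ : Type} (s : Finset κ)
    (F : κ → DualNumber (Module.End ℂ (Ax ι))) (h : ∀ j ∈ s, Hst W b (F j)) : Hst W b (∑ j ∈ s, F j) := by
  classical
  induction s using Finset.induction_on with
  | empty => rw [Finset.sum_empty]; exact Hst_zero W b
  | insert a s ha ih =>
    rw [Finset.sum_insert ha]
    exact Hst_add W b (h a (Finset.mem_insert_self a s))
      (ih (fun j hj => h j (Finset.mem_insert_of_mem hj)))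

theorem Hst_algebraMap (b : Basis ι ℂ V) (c : ℂ) :
    Hst W b (algebraMap ℂ (DualNumber (Module.End ℂ (Ax ι))) c) := by
  have h := Hst_C W b W.one_mem (algebraMap ℂ (Fx ι) c)
  have e : (TrivSqZeroExt.inl (LinearMap.mulLeft ℂ (C (algebraMap ℂ (Fx ι) c) : Ax ι)
      ∘ₗ (act b (1 : V ≃ₗ[ℂ] V)).toLinearMap) : DualNumber (Module.End ℂ (Ax ι)))
      = algebraMap ℂ (DualNumber (Module.End ℂ (Ax ι))) c := by
    have e1 : LinearMap.mulLeft ℂ (C (algebraMap ℂ (Fx ι) c) : Ax ι)
        ∘ₗ (act b (1 : V ≃ₗ[ℂ] V)).toLinearMap = algebraMap ℂ (Module.End ℂ (Ax ι)) c := by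
      rw [act_one_toLinearMap, LinearMap.comp_id]
      apply LinearMap.ext
      intro m
      rw [LinearMap.mulLeft_apply, Module.algebraMap_end_apply, Algebra.smul_def]
      rfl
    rw [e1]
    rfl
  rwa [e] at h

/-- by `Ch_ind` (with the subalgebra of the `T` satisfying `Hst`); `∇_{ξ_v} = ∂_v`. -/
theorem Hst_ThetaHat (hk : Adm W k) (b : Basis ι ℂ V) (a : Ch W k False) : Hst W b (ThetaHat W k hk b a) := by
  let N : Subalgebra ℂ (DualNumber (Module.End ℂ (Ax ι))) :=
    { carrier := {T | Hst W b T}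
      mul_mem' := fun h h' => Hst_mul W b h h'
      add_mem' := fun h h' => Hst_add W b h h'
      algebraMap_mem' := fun c => Hst_algebraMap W b c }
  have hmem : ∀ T, T ∈ N ↔ Hst W b T := fun T => Iff.rfl
  have key : a ∈ N.comap (ThetaHat W k hk b) := by
    refine Ch_ind W k False (N.comap (ThetaHat W k hk b)) ?_ ?_ ?_ ?_ a
    · intro f
      rw [Subalgebra.mem_comap, hmem, ThetaHat_cx]
      have h := Hst_C W b W.one_mem (pF (xl b f))
      rwa [act_one_toLinearMap, LinearMap.comp_id] at h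
    · intro v
      rw [Subalgebra.mem_comap, hmem, ThetaHat_cy, dunkl, TrivSqZeroExt.inl_add, add_assoc,
        add_comm (TrivSqZeroExt.inl _) (TrivSqZeroExt.inr (dA b v)), ← add_assoc]
      refine Hst_add W b ?_ ?_
      · have h := Hst_single W b W.one_mem (yA b v)
        rw [act_one_toLinearMap, LinearMap.comp_id, LinearMap.comp_id] at h
        have e : nab b (yA b v) = dA b v := by
          apply LinearMap.ext
          intro m
          rw [nab_apply]
          have e1 : ∀ i, pderiv i (yA b v) = algebraMap ℂ (Ax ι) (b.repr v i) := by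
            intro i
            rw [yA_apply, map_sum, Finset.sum_eq_single i]
            · rw [Derivation.map_smul_of_tower, pderiv_X_self, ← Algebra.algebraMap_eq_smul_one]
            · intro n _ hn
              rw [Derivation.map_smul_of_tower, pderiv_X_of_ne hn, smul_zero]
            · intro h; exact absurd (Finset.mem_univ _) h
          have e2 : ∀ (s : Finset ι), dA b (∑ i ∈ s, b.repr v i • b i) m
              = ∑ i ∈ s, b.repr v i • dA b (b i) m := by
            intro s
            induction s using Finset.induction_on with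
            | empty =>
              rw [Finset.sum_empty, Finset.sum_empty]
              have := dA_smul b (0 : ℂ) (0 : V)
              rw [zero_smul, zero_smul] at this
              rw [this, LinearMap.zero_apply]
            | insert a s ha ih =>
              rw [Finset.sum_insert ha, Finset.sum_insert ha, dA_add, LinearMap.add_apply, ih, dA_smul,
                LinearMap.smul_apply]
          have e3 := e2 Finset.univ
          rw [b.sum_repr v] at e3
          rw [e3]
          refine Finset.sum_congr rfl (fun i _ => ?_)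
          rw [e1, Algebra.smul_def]
        rwa [e] at h
      · have e : (TrivSqZeroExt.inl (∑ H ∈ arrF W, (LinearMap.mulLeft ℂ (C (qH b H v) : Ax ι))
            ∘ₗ aop W k b H) : DualNumber (Module.End ℂ (Ax ι)))
            = ∑ H ∈ arrF W, ∑ g ∈ pstF W H, TrivSqZeroExt.inl
              (LinearMap.mulLeft ℂ (C (kap W k H g • qH b H v) : Ax ι) ∘ₗ (act b g).toLinearMap) := by
          rw [TrivSqZeroExt.inl_sum]
          refine Finset.sum_congr rfl (fun H _ => ?_)
          have e1 : (LinearMap.mulLeft ℂ (C (qH b H v) : Ax ι)) ∘ₗ aop W k b H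
              = ∑ g ∈ pstF W H, (LinearMap.mulLeft ℂ (C (kap W k H g • qH b H v) : Ax ι)
                ∘ₗ (act b g).toLinearMap) := by
            apply LinearMap.ext
            intro m
            rw [LinearMap.comp_apply, LinearMap.mulLeft_apply, aop, LinearMap.sum_apply,
              LinearMap.sum_apply, Finset.mul_sum]
            refine Finset.sum_congr rfl (fun g _ => ?_)
            rw [LinearMap.smul_apply, LinearMap.comp_apply, LinearMap.mulLeft_apply, mul_smul_comm,
              Algebra.smul_def, Algebra.smul_def, C_mul, mul_assoc]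
            rfl
          rw [e1, TrivSqZeroExt.inl_sum]
        rw [e]
        refine Hst_sum W b _ _ (fun H _ => Hst_sum W b _ _ (fun g hg => ?_))
        exact Hst_C W b (mem_pst.1 (mem_pstF.1 hg)).1 _
    · intro g
      rw [Subalgebra.mem_comap, hmem, ThetaHat_cw]
      have h := Hst_C W b g.2 (1 : Fx ι)
      have e : LinearMap.mulLeft ℂ (C (1 : Fx ι) : Ax ι) ∘ₗ (act b (g : V ≃ₗ[ℂ] V)).toLinearMap
          = (act b (g : V ≃ₗ[ℂ] V)).toLinearMap := by
        apply LinearMap.ext
        intro m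
        rw [LinearMap.comp_apply, LinearMap.mulLeft_apply, C_1, one_mul]
      rwa [e] at h
    · rw [Subalgebra.mem_comap, hmem]
      have h1 : ThetaHat W k hk b (ct W k False) = TrivSqZeroExt.inr 1 := by
        rw [ThetaHat, ct, RingQuot.liftAlgHom_mkAlgHom_apply, thhF_tF]
      rw [h1]
      refine ⟨fun _ => 0, ?_, ?_⟩
      · rw [TrivSqZeroExt.fst_inr]
        apply LinearMap.ext
        intro m
        rw [opOf_apply, Finset.sum_eq_zero, LinearMap.zero_apply]
        intro g _
        rw [zero_mul]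
      · rw [TrivSqZeroExt.snd_inr, Finset.sum_eq_zero]
        · exact Eq.mpr (congrArg (fun x => x ∈ OpAlg W b) (sub_zero (1 : Module.End ℂ (Ax ι))))
            (one_mem (OpAlg W b))
        · intro g _
          rw [nab_zero, LinearMap.zero_comp]
  exact key

end

end Pool.Agent.CM64
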