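import Pool.Agent.LibCM64.ZDef
import Pool.Agent.LibCM64.Hat

/-! The Poisson bracket of `Z_k` is the restriction of the canonical bracket of `ℂ(V)[ξ]`. -/

set_option linter.unusedSectionVars false

namespace Pool.Agent.CM64

open Module MvPolynomial

section

variable {V : Type} [AddCommGroup V] [Module ℂ V] [FiniteDimensional ℂ V]
variable {ι : Type} [Fintype ι] [DecidableEq ι]
variable (W : Subgroup (V ≃ₗ[ℂ] V)) [Finite W] (k : Submodule ℂ V → ℤ → ℂ)

/-- `∇_0 = 0`. -/
private theorem pb_nab_zero (b : Basis ι ℂ V) : nab b (0 : Ax ι) = 0 := by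
  apply LinearMap.ext
  intro m
  rw [nab, LinearMap.sum_apply, LinearMap.zero_apply]
  refine Finset.sum_eq_zero (fun i _ => ?_)
  rw [LinearMap.comp_apply, LinearMap.mulLeft_apply, map_zero, zero_mul]

private theorem nab_app (b : Basis ι ℂ V) (f m : Ax ι) :
    nab b f m = ∑ i, pderiv i f * dA b (b i) m := by
  rw [nab, LinearMap.sum_apply]
  rfl

private theorem nab_one (b : Basis ι ℂ V) (f : Ax ι) : nab b f 1 = 0 := by
  rw [nab_app]
  refine Finset.sum_eq_zero (fun i _ => ?_)
  rw [dA_one, mul_zero]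

/-- the `ε`-part of `Θ̂(a)` for a lift `a` of a central element `z` is `∇_f + U`, `U` commuting with the
multiplications by invariant elements. -/
private theorem snd_lift (hk : Adm W k) (b : Basis ι ℂ V) {z : ZZ W k} {a : Ch W k False}
    (h : spec W k a = z) : ∃ U : Module.End ℂ (Ax ι), (ThetaHat W k hk b a).snd = nab b (zA W k hk b z) + U ∧
      ∀ f' : Ax ι, InvA W b f' → ∀ m, U (f' * m) = f' * U m := by
  classical
  obtain ⟨a0, h1, h2⟩ := Hst_ThetaHat W k hk b a
  rw [ThetaHat_fst, h, Theta_eq_mulLeft] at h1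
  have h3 : opOf W b (Pi.single (1 : V ≃ₗ[ℂ] V) (zA W k hk b z)) = LinearMap.mulLeft ℂ (zA W k hk b z) := by
    apply LinearMap.ext
    intro m
    rw [opOf_apply, Finset.sum_eq_single (1 : V ≃ₗ[ℂ] V)]
    · rw [Pi.single_eq_same, act_one, LinearMap.mulLeft_apply]
    · intro g _ hg
      rw [Pi.single_eq_of_ne hg, zero_mul]
    · intro hg
      exact absurd ((mem_elF W).2 W.one_mem) hg
  have h4 := opOf_inj W b (h1.symm.trans h3.symm)
  have h5 : ∑ g ∈ elF W, nab b (a0 g) ∘ₗ (act b g).toLinearMap = nab b (zA W k hk b z) := by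
    rw [Finset.sum_eq_single (1 : V ≃ₗ[ℂ] V)]
    · rw [h4 1 W.one_mem, Pi.single_eq_same]
      apply LinearMap.ext
      intro m
      rw [LinearMap.comp_apply, AlgHom.toLinearMap_apply, act_one]
    · intro g hg hg1
      rw [h4 g ((mem_elF W).1 hg), Pi.single_eq_of_ne hg1, pb_nab_zero, LinearMap.zero_comp]
    · intro hg
      exact absurd ((mem_elF W).2 W.one_mem) hg
  rw [h5] at h2
  refine ⟨_, (add_sub_cancel (nab b (zA W k hk b z)) (ThetaHat W k hk b a).snd).symm, ?_⟩
  intro f' hf' m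
  obtain ⟨u, hu⟩ := (mem_OpAlg_iff W b _).1 h2
  rw [hu, opOf_apply, opOf_apply, Finset.mul_sum]
  refine Finset.sum_congr rfl (fun g hg => ?_)
  rw [map_mul, hf' g ((mem_elF W).1 hg)]
  ring

/-- compare the coefficients at `1` (`opOf_inj`) in `Θ̂(a a' - a' a) = Θ̂(t c)`: with `A₀ = f`, `B₀ = f'`
(multiplications), `A₁ = ∇_f + …`, `B₁ = ∇_{f'} + …` one gets
`Θ(spec c) = ∇_f(f') - ∇_{f'}(f) + ∑_{g ≠ 1} …`. -/
theorem zA_of_isPB (hk : Adm W k) (b : Basis ι ℂ V) {z z' w : ZZ W k} (h : IsPB W k z z' w) :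
    zA W k hk b w = pb b (zA W k hk b z) (zA W k hk b z') := by
  obtain ⟨a, a', c, ha, ha', hc, hac⟩ := h
  obtain ⟨U, hU, hUc⟩ := snd_lift W k hk b ha
  obtain ⟨U', hU', hUc'⟩ := snd_lift W k hk b ha'
  have h1 := congrArg (ThetaHat W k hk b) hac
  rw [ThetaHat_ct_mul, map_sub, map_mul, map_mul, hc] at h1
  have h2 := congrArg (fun T : DualNumber (Module.End ℂ (Ax ι)) =>
    (TrivSqZeroExt.snd T : Module.End ℂ (Ax ι)) (1 : Ax ι)) h1
  simp only [TrivSqZeroExt.snd_sub, DualNumber.snd_mul, TrivSqZeroExt.snd_inr] at h2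
  rw [ThetaHat_fst, ThetaHat_fst, ha, ha', hU, hU', Theta_eq_mulLeft, Theta_eq_mulLeft] at h2
  have e1 := hUc _ (zA_inv W k hk b z') 1
  have e2 := hUc' _ (zA_inv W k hk b z) 1
  rw [mul_one] at e1 e2
  rw [zA_apply W k hk b w, ← h2]
  simp only [LinearMap.sub_apply, LinearMap.add_apply, Module.End.mul_apply, LinearMap.mulLeft_apply,
    mul_one, nab_one, zero_add, e1, e2]
  rw [nab_app, nab_app, pb, Finset.sum_sub_distrib]
  ring

/-- existence of the bracket: lifts exist (`spec_surjective`), `[a,a'] = t c` by `ker_spec`, and `spec c` is central: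
`t [c, h] = [[a,a'],h] = t² (…)` (Jacobi, `[a,h], [a',h] ∈ t Ĥ`, and `[a, u] ∈ t Ĥ` for all `u`), so
`Θ([spec c, spec h]) = 0` by `ThetaHat_ct_mul`; use `Theta_injective`. -/
theorem exists_isPB (hk : Adm W k) (z z' : ZZ W k) : ∃ w, IsPB W k z z' w := by
  have b : Basis (Fin (finrank ℂ V)) ℂ V := Module.finBasis ℂ V
  obtain ⟨a, ha⟩ := spec_surjective W k (z : Ch W k True)
  obtain ⟨a', ha'⟩ := spec_surjective W k (z' : Ch W k True)
  have hz : ∀ (z : ZZ W k) (u : Ch W k True), u * z = z * u := fun z u =>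
    Subalgebra.mem_center_iff.1 z.2 u
  have key : ∀ (z : ZZ W k) (a : Ch W k False), spec W k a = z →
      ∀ u : Ch W k False, ∃ e, a * u - u * a = ct W k False * e := by
    intro z a ha u
    apply ker_spec
    rw [map_sub, map_mul, map_mul, ha, hz, sub_self]
  obtain ⟨c, hc⟩ := key z a ha a'
  have hcen : spec W k c ∈ Subalgebra.center ℂ (Ch W k True) := by
    rw [Subalgebra.mem_center_iff]
    intro u
    obtain ⟨h, rfl⟩ := spec_surjective W k u
    obtain ⟨e, he⟩ := key z a ha h
    obtain ⟨e', he'⟩ := key z' a' ha' h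
    obtain ⟨d, hd⟩ := key z a ha e'
    obtain ⟨d', hd'⟩ := key z' a' ha' e
    have ht := ct_comm W k False
    have h1 : ct W k False * (c * h - h * c) = ct W k False * (ct W k False * (d - d')) := by
      calc ct W k False * (c * h - h * c) = (ct W k False * c) * h - h * (ct W k False * c) := by
            rw [mul_sub, ← mul_assoc, ← mul_assoc, ← mul_assoc, ht h]
        _ = (a * (a' * h - h * a') - (a' * h - h * a') * a)
            - (a' * (a * h - h * a) - (a * h - h * a) * a') := by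
            rw [← hc]
            simp only [mul_sub, sub_mul, mul_assoc]
            abel
        _ = (a * (ct W k False * e') - (ct W k False * e') * a)
            - (a' * (ct W k False * e) - (ct W k False * e) * a') := by rw [he, he']
        _ = ct W k False * (a * e' - e' * a) - ct W k False * (a' * e - e * a') := by
            rw [← mul_assoc a, ← ht a, ← mul_assoc a', ← ht a', mul_sub, mul_sub]
            simp only [mul_assoc]
        _ = ct W k False * (ct W k False * (d - d')) := by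
            rw [hd, hd', ← mul_sub, ← mul_sub]
    have h2 := congrArg (ThetaHat W k hk b) h1
    rw [ThetaHat_ct_mul, ThetaHat_ct_mul, map_mul (spec W k), spec_ct, zero_mul, map_zero] at h2
    have h3 := TrivSqZeroExt.inr_injective h2
    have h4 : spec W k (c * h - h * c) = 0 := Theta_injective W k hk b (by rw [h3, map_zero])
    rw [map_sub, map_mul, map_mul, sub_eq_zero] at h4
    exact h4.symm
  exact ⟨⟨spec W k c, hcen⟩, a, a', c, ha, ha', rfl, hc⟩

theorem isPB_iff (hk : Adm W k) (b : Basis ι ℂ V) {z z' w : ZZ W k} :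
    IsPB W k z z' w ↔ zA W k hk b w = pb b (zA W k hk b z) (zA W k hk b z') := by
  refine ⟨fun h => zA_of_isPB W k hk b h, fun h => ?_⟩
  obtain ⟨w', hw'⟩ := exists_isPB W k hk z z'
  have h1 : w' = w := zA_injective W k hk b ((zA_of_isPB W k hk b hw').trans h.symm)
  rw [← h1]
  exact hw'

theorem existsUnique_isPB (hk : Adm W k) (z z' : ZZ W k) : ∃! w, IsPB W k z z' w := by
  have b : Basis (Fin (finrank ℂ V)) ℂ V := Module.finBasis ℂ V
  obtain ⟨w, hw⟩ := exists_isPB W k hk z z'
  refine ⟨w, hw, fun w' hw' => ?_⟩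
  exact zA_injective W k hk b ((zA_of_isPB W k hk b hw').trans (zA_of_isPB W k hk b hw).symm)

end

end Pool.Agent.CM64
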