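import Pool.Agent.LibCM64.NerA
import Pool.Agent.LibCM64.PB

/-! The homomorphism `Z_k(V,W) → Z_l(U,G)` given by the restriction to `U × U*`. -/

set_option linter.unusedSectionVars false

namespace Pool.Agent.CM64

open Module MvPolynomial

section

variable {V : Type} [AddCommGroup V] [Module ℂ V] [FiniteDimensional ℂ V]
variable {ι : Type} [Fintype ι] [DecidableEq ι] {κ : Type} [Fintype κ] [DecidableEq κ]

variable (W : Subgroup (V ≃ₗ[ℂ] V)) [Finite W] (τ : V ≃ₗ[ℂ] V) (k : Submodule ℂ V → ℤ → ℂ) (hk : Adm W k)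
  (b : Basis ι ℂ V) (bU : Basis κ ℂ ↥(fixSub τ)) (l : Submodule ℂ ↥(fixSub τ) → ℤ → ℂ)
  (hl : Adm (fixGrp W τ) l)

/-- `φ : Z_k(V,W) → Z_l(U,G)` is the restriction to `U × U*`. -/
def IsRes (φ : ZZ W k →ₐ[ℂ] ZZ (fixGrp W τ) l) : Prop :=
  ∀ z, ResRel τ b bU (zA W k hk b z) (zA (fixGrp W τ) l hl bU (φ z))

theorem exists_phi (hreg : IsRegular W τ)
    (hle : BW W τ k hk b bU ≤ MkW (fixGrp W τ) l hl bU) :
    ∃ φ : ZZ W k →ₐ[ℂ] ZZ (fixGrp W τ) l, IsRes W τ k hk b bU l hl φ := by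
  classical
  have key : ∀ z : ZZ W k, ∃ z' : ZZ (fixGrp W τ) l,
      ResRel τ b bU (zA W k hk b z) (zA (fixGrp W τ) l hl bU z') := by
    intro z
    obtain ⟨s, hs⟩ := exists_res W k τ hreg b bU (zA_mem_Mk W k hk b z)
    have h1 : s ∈ BW W τ k hk b bU := ⟨_, ⟨zA_mem_Mk W k hk b z, zA_inv W k hk b z⟩, hs⟩
    have h2 := hle h1
    obtain ⟨z', hz'⟩ := exists_zA (fixGrp W τ) l hl bU h2.1 h2.2
    exact ⟨z', by rw [hz']; exact hs⟩
  choose f hf using key
  have hu : ∀ z z', ResRel τ b bU (zA W k hk b z) (zA (fixGrp W τ) l hl bU z') → f z = z' :=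
    fun z z' h => zA_injective (fixGrp W τ) l hl bU (ResRel.unique (hf z) h)
  have hc : ∀ c : ℂ, f (algebraMap ℂ (ZZ W k) c) = algebraMap ℂ (ZZ (fixGrp W τ) l) c := by
    intro c
    refine hu _ _ ?_
    rw [AlgHom.commutes, AlgHom.commutes]
    exact ResRel.const c
  refine ⟨{ toFun := f
            map_one' := by
              have h := hc 1
              rwa [map_one, map_one] at h
            map_mul' := fun x y => hu _ _ (by rw [map_mul, map_mul]; exact (hf x).mul (hf y))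
            map_zero' := by
              have h := hc 0
              rwa [map_zero, map_zero] at h
            map_add' := fun x y => hu _ _ (by rw [map_add, map_add]; exact (hf x).add (hf y))
            commutes' := hc }, hf⟩

/-- the image of `Z_l(U,G)` in `ℂ(U)[ξ]` is `M(G,l)^G`. -/
noncomputable def zEquiv : ZZ W k ≃ₐ[ℂ] MkW W k hk b :=
  AlgEquiv.ofBijective ((zA W k hk b).codRestrict (MkW W k hk b) (fun z => ⟨zA_mem_Mk W k hk b z, zA_inv W k hk b z⟩))
    ⟨fun z z' h => zA_injective W k hk b (congrArg Subtype.val h),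
      fun f => by
        obtain ⟨z, hz⟩ := exists_zA W k hk b f.2.1 f.2.2
        exact ⟨z, Subtype.ext hz⟩⟩

variable {W τ k hk b bU l hl}
variable {φ : ZZ W k →ₐ[ℂ] ZZ (fixGrp W τ) l}

/-- `φ` is invariant under `τ`. -/
theorem phi_tau (hfin : IsOfFinOrder τ) (hφ : IsRes W τ k hk b bU l hl φ) (hτ : Normalizes τ W)
    (hkτ : FixesParam τ k) (z : ZZ W k) : φ (indZ W k τ hτ hkτ z) = φ z := by
  have h1 := hφ (indZ W k τ hτ hkτ z)
  rw [zA_indZ] at h1
  exact zA_injective (fixGrp W τ) l hl bU (ResRel.unique h1 (ResRel.act_tau hfin (hφ z)))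

theorem Itau_le_ker (hfin : IsOfFinOrder τ) (hφ : IsRes W τ k hk b bU l hl φ) (hτ : Normalizes τ W)
    (hkτ : FixesParam τ k) : Itau W k τ hτ hkτ ≤ RingHom.ker φ := by
  rw [Itau, Ideal.span_le]
  rintro w ⟨z, rfl⟩
  show φ (z - indZ W k τ hτ hkτ z) = 0
  have h1 : z - indZ W k τ hτ hkτ z + indZ W k τ hτ hkτ z = z := by
    apply Subtype.ext
    show (z : Ch W k True) - (indZ W k τ hτ hkτ z : Ch W k True) + (indZ W k τ hτ hkτ z : Ch W k True) = z
    exact sub_add_cancel _ _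
  have h2 : φ (z - indZ W k τ hτ hkτ z) + φ (indZ W k τ hτ hkτ z) = φ z := by
    rw [← map_add, h1]
  rw [phi_tau hfin hφ hτ hkτ z] at h2
  exact add_eq_right.1 h2

/-- `φ` is `ℂ^×`-equivariant. -/
theorem phi_dil (hfin : IsOfFinOrder τ) (hφ : IsRes W τ k hk b bU l hl φ) (c : ℂˣ) (z : ZZ W k) :
    φ (dilZ W k c z) = dilZ (fixGrp W τ) l c (φ z) := by
  have h1 := hφ (dilZ W k c z)
  have hcomm : scal V c⁻¹ * τ = τ * scal V c⁻¹ := by
    ext v
    show scal V c⁻¹ (τ v) = τ (scal V c⁻¹ v)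
    rw [scal_apply, scal_apply, map_smul]
  have h2 := ResRel.equivar (g := scal ↥(fixSub τ) c⁻¹) hfin hcomm (fun u => rfl) (hφ z)
  have h3 : zA W k hk b (dilZ W k c z) = trA b b (scal V c⁻¹) (zA W k hk b z) :=
    zA_indZ W k hk b _ _ _ z
  have h4 : zA (fixGrp W τ) l hl bU (dilZ (fixGrp W τ) l c (φ z)) =
      trA bU bU (scal ↥(fixSub τ) c⁻¹) (zA (fixGrp W τ) l hl bU (φ z)) :=
    zA_indZ (fixGrp W τ) l hl bU _ _ _ (φ z)
  rw [h3] at h1
  rw [← h4] at h2
  exact zA_injective (fixGrp W τ) l hl bU (ResRel.unique h1 h2)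

/-- `φ` is compatible with the Poisson brackets of `τ`-invariant functions. -/
theorem phi_pb (hfin : IsOfFinOrder τ) (hφ : IsRes W τ k hk b bU l hl φ) (hτ : Normalizes τ W)
    (hkτ : FixesParam τ k) {z z' w : ZZ W k} (hz : indZ W k τ hτ hkτ z = z) (hz' : indZ W k τ hτ hkτ z' = z')
    (h : IsPB W k z z' w) : IsPB (fixGrp W τ) l (φ z) (φ z') (φ w) := by
  rw [isPB_iff (fixGrp W τ) l hl bU]
  have h1 := (isPB_iff W k hk b).1 h
  have e1 : trA b b τ (zA W k hk b z) = zA W k hk b z := by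
    have := zA_indZ W k hk b τ hτ hkτ z
    rw [hz] at this
    exact this.symm
  have e2 : trA b b τ (zA W k hk b z') = zA W k hk b z' := by
    have := zA_indZ W k hk b τ hτ hkτ z'
    rw [hz'] at this
    exact this.symm
  have h2 := ResRel.poisson hfin (hφ z) (hφ z') e1 e2
  rw [← h1] at h2
  exact ResRel.unique (hφ w) h2

/-- `s` is in `BW` iff it is in the image of `φ`. -/
theorem mem_BW_iff (hφ : IsRes W τ k hk b bU l hl φ) (s : ZZ (fixGrp W τ) l) :
    zA (fixGrp W τ) l hl bU s ∈ BW W τ k hk b bU ↔ ∃ z, φ z = s := by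
  constructor
  · rintro ⟨f, hf, hs⟩
    obtain ⟨z, hz⟩ := exists_zA W k hk b hf.1 hf.2
    refine ⟨z, zA_injective (fixGrp W τ) l hl bU (ResRel.unique (hφ z) ?_)⟩
    rw [hz]
    exact hs
  · rintro ⟨z, rfl⟩
    exact ⟨_, ⟨zA_mem_Mk W k hk b z, zA_inv W k hk b z⟩, hφ z⟩

theorem ker_isPrime (φ : ZZ W k →ₐ[ℂ] ZZ (fixGrp W τ) l) (hl : Adm (fixGrp W τ) l) : (RingHom.ker φ).IsPrime := by
  have bU : Basis (Fin (finrank ℂ ↥(fixSub τ))) ℂ ↥(fixSub τ) := Module.finBasis ℂ _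
  have hinj := zA_injective (fixGrp W τ) l hl bU
  have : IsDomain (ZZ (fixGrp W τ) l) :=
    Function.Injective.isDomain (zA (fixGrp W τ) l hl bU).toRingHom hinj
  exact RingHom.ker_isPrime φ

end

end Pool.Agent.CM64
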