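import Pool.Agent.LibCM64.NerB
import Pool.Agent.LibCM64.Phi

/-! Primes of `Z_k` containing all `z - τ z` and not containing the discriminant. -/

set_option linter.unusedSectionVars false
set_option maxSynthPendingDepth 3

namespace Pool.Agent.CM64

/-- abstract lying over. -/
private theorem ca_lying {M S G : Type} [CommRing M] [CommRing S] [Group G] [Finite G] [MulSemiringAction G S]
    (j : M →+* S) (hj : Function.Injective j) (hinv : ∀ (m : M) (g : G), g • j m = j m) (E : M)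
    (hE : ∀ f : S, (∀ g : G, g • f = f) → ∃ (n : ℕ) (m : M), j m = j E ^ n * f) (q : Ideal M) (hq : q.IsPrime)
    (hEq : E ∉ q) : ∃ P : Ideal S, P.IsPrime ∧ ∀ m : M, j m ∈ P ↔ m ∈ q := by
  let R : Subring S :=
    { carrier := {s | ∀ g : G, g • s = s}
      mul_mem' := fun {a b} ha hb g => by rw [smul_mul', ha g, hb g]
      one_mem' := fun g => smul_one g
      add_mem' := fun {a b} ha hb g => by rw [smul_add, ha g, hb g]
      zero_mem' := fun g => smul_zero g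
      neg_mem' := fun {a} ha g => by rw [smul_neg, ha g] }
  have hR : Algebra.IsInvariant R S G := ⟨fun s hs => ⟨⟨s, hs⟩, rfl⟩⟩
  have hint : Algebra.IsIntegral R S := Algebra.IsInvariant.isIntegral R S G
  let q' : Ideal R :=
    { carrier := {r | ∃ (n : ℕ) (m : M), m ∈ q ∧ j m = j E ^ n * (r : S)}
      add_mem' := by
        rintro r s ⟨n, m, hm, h⟩ ⟨n', m', hm', h'⟩
        refine ⟨n + n', E ^ n' * m + E ^ n * m', Ideal.add_mem _ (q.mul_mem_left _ hm) (q.mul_mem_left _ hm'), ?_⟩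
        rw [map_add, map_mul, map_mul, map_pow, map_pow, h, h', Subring.coe_add]
        ring
      zero_mem' := ⟨0, 0, q.zero_mem, by rw [map_zero, ZeroMemClass.coe_zero, mul_zero]⟩
      smul_mem' := by
        rintro c r ⟨n, m, hm, h⟩
        obtain ⟨l, mc, hc⟩ := hE (c : S) c.2
        refine ⟨l + n, mc * m, q.mul_mem_left _ hm, ?_⟩
        rw [map_mul, hc, h, smul_eq_mul, Subring.coe_mul]
        ring }
  have hq' : q'.IsPrime := by
    constructor
    · intro htop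
      have h1 : (1 : R) ∈ q' := by rw [htop]; exact Submodule.mem_top
      obtain ⟨n, m, hm, h⟩ := h1
      rw [Subring.coe_one, mul_one, ← map_pow] at h
      have h2 := hj h
      rw [h2] at hm
      exact hEq (hq.mem_of_pow_mem n hm)
    · rintro r s ⟨n, m, hm, h⟩
      obtain ⟨a, mr, hr⟩ := hE (r : S) r.2
      obtain ⟨c, ms, hs⟩ := hE (s : S) s.2
      have h1 : j (E ^ n * (mr * ms)) = j (E ^ (a + c) * m) := by
        rw [map_mul, map_mul, map_mul, map_pow, map_pow, hr, hs, h, Subring.coe_mul]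
        ring
      have h2 := hj h1
      have h3 : E ^ n * (mr * ms) ∈ q := by rw [h2]; exact q.mul_mem_left _ hm
      rcases hq.mem_or_mem h3 with h4 | h4
      · exact absurd (hq.mem_of_pow_mem n h4) hEq
      · rcases hq.mem_or_mem h4 with h5 | h5
        · exact Or.inl ⟨a, mr, h5, hr⟩
        · exact Or.inr ⟨c, ms, h5, hs⟩
  have hker : (⊥ : Ideal S).comap (algebraMap R S) ≤ q' := by
    intro r hr
    have h1 : (r : S) = 0 := hr
    have h2 : r = 0 := Subtype.ext h1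
    rw [h2]
    exact q'.zero_mem
  obtain ⟨P, _, hP, hPq⟩ := Ideal.exists_ideal_over_prime_of_isIntegral q' (⊥ : Ideal S) hker
  refine ⟨P, hP, fun m => ?_⟩
  have h1 : j m ∈ P ↔ (⟨j m, hinv m⟩ : R) ∈ q' := by
    rw [← hPq, Ideal.mem_comap]
    exact Iff.rfl
  rw [h1]
  constructor
  · rintro ⟨n, m', hm', h⟩
    have h2 : j m' = j (E ^ n * m) := by rw [map_mul, map_pow]; exact h
    have h3 := hj h2
    rw [h3] at hm'
    rcases hq.mem_or_mem hm' with h4 | h4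
    · exact absurd (hq.mem_of_pow_mem n h4) hEq
    · exact h4
  · intro hm
    exact ⟨0, m, hm, by rw [pow_zero, one_mul]⟩

open Polynomial in
/-- abstract form of `exists_w_trivial`. -/
private theorem ca_abs {S G : Type} [CommRing S] [Algebra ℂ S] [Group G] [Finite G] [MulSemiringAction G S]
    [SMulCommClass G ℂ S] (t : S →ₐ[ℂ] S) (σ : G ≃ G) (hσ : ∀ (g : G) (s : S), t (g • s) = σ g • t s)
    (P : Ideal S) (hP : P.IsPrime) (h : ∀ c : S, (∀ g : G, g • c = c) → c - t c ∈ P) :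
    ∃ g : G, ∀ a : S, a - g • t a ∈ P := by
  classical
  have := Fintype.ofFinite G
  by_contra hc
  push Not at hc
  let N : G → Submodule ℂ S := fun g =>
    { carrier := {a | a - g • t a ∈ P}
      add_mem' := by
        intro a b ha hb
        have e : a + b - g • t (a + b) = (a - g • t a) + (b - g • t b) := by
          rw [map_add, smul_add]; ring
        show a + b - g • t (a + b) ∈ P
        rw [e]
        exact P.add_mem ha hb
      zero_mem' := by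
        show (0 : S) - g • t 0 ∈ P
        rw [map_zero, smul_zero, sub_zero]
        exact P.zero_mem
      smul_mem' := by
        intro c a ha
        show c • a - g • t (c • a) ∈ P
        have e : c • a - g • t (c • a) = algebraMap ℂ S c * (a - g • t a) := by
          rw [map_smul, smul_comm, ← smul_sub, Algebra.smul_def]
        rw [e]
        exact P.mul_mem_left _ ha }
  have hN : ∀ g, N g ≠ ⊤ := by
    intro g hg
    obtain ⟨a, ha⟩ := hc g
    have : a ∈ N g := by rw [hg]; exact Submodule.mem_top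
    exact ha this
  have hex : ∃ a : S, ∀ g, a ∉ N g := by
    by_contra hcc
    push Not at hcc
    obtain ⟨g, hg⟩ := Subspace.exists_eq_top_of_iUnion_eq_univ (k := ℂ) (E := S) (p := N) (by
      rw [Set.eq_univ_iff_forall]
      intro a
      obtain ⟨g, hg⟩ := hcc a
      exact Set.mem_iUnion.2 ⟨g, hg⟩)
    exact hN g hg
  obtain ⟨a, ha⟩ := hex
  have hF := MulSemiringAction.eval_charpoly G a
  have h1 : (MulSemiringAction.charpoly G a).map (t : S →+* S) = ∏ g : G, (X - C (g • t a)) := by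
    rw [MulSemiringAction.charpoly_eq, Polynomial.map_prod, ← Equiv.prod_comp σ (fun g => (X - C (g • t a) : S[X]))]
    refine Finset.prod_congr rfl (fun g _ => ?_)
    rw [Polynomial.map_sub, Polynomial.map_X, Polynomial.map_C]
    congr 2
    exact hσ g a
  have h2 : ∀ n, (MulSemiringAction.charpoly G a).coeff n
      - ((MulSemiringAction.charpoly G a).map (t : S →+* S)).coeff n ∈ P := by
    intro n
    rw [Polynomial.coeff_map]
    exact h _ (fun g => MulSemiringAction.smul_coeff_charpoly a n g)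
  have h3 : (MulSemiringAction.charpoly G a).map (Ideal.Quotient.mk P)
      = ((MulSemiringAction.charpoly G a).map (t : S →+* S)).map (Ideal.Quotient.mk P) := by
    ext n
    rw [Polynomial.coeff_map, Polynomial.coeff_map, Ideal.Quotient.eq]
    exact h2 n
  have h4 : Ideal.Quotient.mk P (eval a ((MulSemiringAction.charpoly G a).map (t : S →+* S))) = 0 := by
    rw [← Polynomial.eval_map_apply, ← h3, Polynomial.eval_map_apply, hF, map_zero]
  rw [Ideal.Quotient.eq_zero_iff_mem, h1, Polynomial.eval_prod] at h4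
  rw [hP.prod_mem_iff] at h4
  obtain ⟨g, _, hg⟩ := h4
  rw [Polynomial.eval_sub, Polynomial.eval_X, Polynomial.eval_C] at hg
  exact ha g hg

open Module MvPolynomial

section

variable {V : Type} [AddCommGroup V] [Module ℂ V] [FiniteDimensional ℂ V]
variable {ι : Type} [Fintype ι] [DecidableEq ι]
variable (W : Subgroup (V ≃ₗ[ℂ] V)) [Finite W]

/-- the ring of functions on `V_reg × V*`. -/
noncomputable def Sreg (b : Basis ι ℂ V) : Subalgebra ℂ (Ax ι) where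
  carrier := {f | ∃ (N : ℕ) (p : Rx ι), jR p = xA (Del W b ^ N) * f}
  mul_mem' := by
    rintro f g ⟨N, p, hp⟩ ⟨M, q, hq⟩
    exact ⟨N + M, p * q, by rw [map_mul, hp, hq, pow_add, map_mul]; ring⟩
  add_mem' := by
    rintro f g ⟨N, p, hp⟩ ⟨M, q, hq⟩
    refine ⟨N + M, C (Del W b ^ M) * p + C (Del W b ^ N) * q, ?_⟩
    rw [map_add, map_mul, map_mul, jR_C, jR_C, hp, hq, pow_add, map_mul]; ring
  algebraMap_mem' := fun r => ⟨0, algebraMap ℂ (Rx ι) r, by rw [pow_zero, map_one, one_mul]; exact jR.commutes r⟩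

theorem jR_mem_Sreg (b : Basis ι ℂ V) (p : Rx ι) : jR p ∈ Sreg W b := by
  exact ⟨0, p, by rw [pow_zero, map_one, one_mul]⟩

theorem Mk_le_Sreg (k : Submodule ℂ V → ℤ → ℂ) (b : Basis ι ℂ V) {m : Ax ι} (hm : m ∈ Mk W k b) : m ∈ Sreg W b := by
  exact Mk_den W k b hm

/-- `Δ` is semi-invariant under the normaliser. -/
private theorem ca_trP_Del (b : Basis ι ℂ V) {g : V ≃ₗ[ℂ] V} (hg : Normalizes g W) :
    ∃ c : ℂ, c ≠ 0 ∧ Del W b = c • trP b b g (Del W b) := by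
  classical
  have hT : Tp g W W (fun _ _ => 0 : Submodule ℂ V → ℤ → ℂ) (fun _ _ => 0 : Submodule ℂ V → ℤ → ℂ) :=
    tp_of_normalizes hg (fun _ _ => rfl)
  have h1 := sum_arrF_map hT (M := Additive (Px ι)) (fun H => Additive.ofMul (xl b (lf H)))
  have h2 : Del W b = ∏ H ∈ arrF W, xl b (lf (H.map (g : V →ₗ[ℂ] V))) := h1
  have h3 : ∀ H : Submodule ℂ V, ∃ c : ℂ, c ≠ 0 ∧ (H ∈ arrF W →
      xl b (lf (H.map (g : V →ₗ[ℂ] V))) = c • trP b b g (xl b (lf H))) := by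
    intro H
    by_cases hH : H ∈ arrF W
    · obtain ⟨c, hc, hc'⟩ := lf_map g H (arr_finrank W (mem_arrF.1 hH))
      refine ⟨c, hc, fun _ => ?_⟩
      rw [hc', map_smul, trP_xl]
    · exact ⟨1, one_ne_zero, fun h => absurd h hH⟩
  choose c hc hc' using h3
  refine ⟨∏ H ∈ arrF W, c H, Finset.prod_ne_zero_iff.2 (fun H _ => hc H), ?_⟩
  have h4 : ∏ H ∈ arrF W, xl b (lf (H.map (g : V →ₗ[ℂ] V)))
      = ∏ H ∈ arrF W, (c H • trP b b g (xl b (lf H))) := Finset.prod_congr rfl (fun H hH => hc' H hH)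
  have h5 : trP b b g (Del W b) = ∏ H ∈ arrF W, trP b b g (xl b (lf H)) := by
    rw [Del, map_prod]
  rw [h5, h2, h4, Finset.prod_smul]

/-- an element normalising `W` preserves `Sreg`. -/
theorem act_mem_Sreg (b : Basis ι ℂ V) {g : V ≃ₗ[ℂ] V} (hg : Normalizes g W) {f : Ax ι} (hf : f ∈ Sreg W b) :
    trA b b g f ∈ Sreg W b := by
  obtain ⟨N, p, hp⟩ := hf
  obtain ⟨c, hc, hc'⟩ := ca_trP_Del W b hg
  refine ⟨N, c ^ N • trR b b g p, ?_⟩
  have h1 : xA (Del W b ^ N) = c ^ N • xA (trP b b g (Del W b) ^ N) := by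
    conv_lhs => rw [hc']
    rw [smul_pow, map_smul]
  rw [map_smul, jR_trR, hp, map_mul, trA_xA, map_pow, h1, smul_mul_assoc]

/-- `Δ` is a unit of `Sreg`. -/
theorem Del_unit (b : Basis ι ℂ V) : ∃ f ∈ Sreg W b, xA (Del W b) * f = 1 := by
  have h0 : pF (Del W b) ≠ 0 := fun h => Del_ne_zero W b (pF_injective (by rw [h, map_zero]))
  have h1 : (xA (Del W b) : Ax ι) * C (pF (Del W b))⁻¹ = 1 := by
    rw [xA_apply, ← C_mul, mul_inv_cancel₀ h0, C_1]
  refine ⟨C (pF (Del W b))⁻¹, ⟨1, 1, ?_⟩, h1⟩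
  rw [pow_one, h1, map_one]

/-- every element of `Sreg` is integral over its subring of `W`-invariants; a `W`-invariant of `Sreg` times a power of
`Δ^{|W|}` is in `M_k^W` (`Del_pow_mul_mem`). -/
theorem Sreg_inv (k : Submodule ℂ V → ℤ → ℂ) (hk : Adm W k) (b : Basis ι ℂ V) {f : Ax ι} (hf : f ∈ Sreg W b)
    (hinv : InvA W b f) : ∃ n : ℕ, xA (Del W b ^ (Nat.card W * n)) * f ∈ MkW W k hk b := by
  obtain ⟨N, p, hp⟩ := hf
  obtain ⟨M, hM⟩ := Del_pow_mul_mem W k hk b p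
  refine ⟨M + N, ?_, ?_⟩
  · have hc : 0 < Nat.card W := Nat.card_pos
    have hle : M + N ≤ Nat.card W * (M + N) := Nat.le_mul_of_pos_left _ hc
    obtain ⟨r, hr⟩ : ∃ r, Nat.card W * (M + N) = r + N ∧ M ≤ r := ⟨Nat.card W * (M + N) - N, by omega, by omega⟩
    have h1 := hM r hr.2
    rw [hp, ← mul_assoc, ← map_mul, ← pow_add, ← hr.1] at h1
    exact h1
  · intro w hw
    rw [act, map_mul, trA_xA, Del_pow_inv W b (M + N) w hw]
    have h2 := hinv w hw
    rw [act] at h2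
    rw [h2]

private theorem ca_norm {g : V ≃ₗ[ℂ] V} (hg : g ∈ W) : Normalizes g W := by
  intro u
  constructor
  · intro hu
    exact W.mul_mem (W.mul_mem hg hu) (W.inv_mem hg)
  · intro hu
    have h1 := W.mul_mem (W.mul_mem (W.inv_mem hg) hu) hg
    have h2 : g⁻¹ * (g * u * g⁻¹) * g = u := by group
    rwa [h2] at h1

/-- the action of `W` on `Sreg`. -/
@[reducible] private noncomputable def ca_action (b : Basis ι ℂ V) : MulSemiringAction ↥W ↥(Sreg W b) where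
  smul g f := ⟨trA b b (g : V ≃ₗ[ℂ] V) (f : Ax ι), act_mem_Sreg W b (ca_norm W g.2) f.2⟩
  one_smul f := Subtype.ext (act_one b (f : Ax ι))
  mul_smul g h f := Subtype.ext (act_mul b (g : V ≃ₗ[ℂ] V) (h : V ≃ₗ[ℂ] V) (f : Ax ι))
  smul_zero g := Subtype.ext (map_zero (trA b b (g : V ≃ₗ[ℂ] V)))
  smul_add g f f' := Subtype.ext (map_add (trA b b (g : V ≃ₗ[ℂ] V)) (f : Ax ι) (f' : Ax ι))
  smul_one g := Subtype.ext (map_one (trA b b (g : V ≃ₗ[ℂ] V)))
  smul_mul g f f' := Subtype.ext (map_mul (trA b b (g : V ≃ₗ[ℂ] V)) (f : Ax ι) (f' : Ax ι))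

/-- (a) a prime of `M_k^W` not containing `Δ^{|W|}` is the contraction of a prime of `Sreg`: lying over for the integral
extension `Sreg^W ⊂ Sreg`, where `Sreg^W = M_k^W[Δ^{-|W|}]`. -/
theorem exists_prime_over (k : Submodule ℂ V → ℤ → ℂ) (hk : Adm W k) (b : Basis ι ℂ V) (q : Ideal (MkW W k hk b))
    (hq : q.IsPrime) (D₀ : MkW W k hk b) (hD₀ : ∃ n : ℕ, 0 < n ∧ (D₀ : Ax ι) = xA (Del W b ^ (Nat.card W * n)))
    (h : D₀ ∉ q) :
    ∃ P : Ideal (Sreg W b), P.IsPrime ∧ ∀ (f : Ax ι) (hf : f ∈ MkW W k hk b) (hf' : f ∈ Sreg W b),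
      (⟨f, hf'⟩ : Sreg W b) ∈ P ↔ (⟨f, hf⟩ : MkW W k hk b) ∈ q := by
  classical
  let _ := ca_action W b
  obtain ⟨n₀, hn₀, hD₀'⟩ := hD₀
  have hle : MkW W k hk b ≤ Sreg W b := fun f hf => Mk_le_Sreg W k b hf.1
  have hEmem : ∀ n : ℕ, xA (Del W b ^ (Nat.card W * n)) ∈ MkW W k hk b := by
    intro n
    refine ⟨?_, fun w hw => ?_⟩
    · have h1 := Mk_xA W k (Mk_one W k b) (Del W b ^ (Nat.card W * n))
      rwa [mul_one] at h1
    · rw [act, trA_xA, Del_pow_inv W b n w hw]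
  have hEpow : ∀ n : ℕ, (⟨_, hEmem 1⟩ : MkW W k hk b) ^ n = ⟨_, hEmem n⟩ := by
    intro n
    apply Subtype.ext
    rw [SubmonoidClass.coe_pow, ← map_pow, ← pow_mul, mul_one]
  have hEq : (⟨_, hEmem 1⟩ : MkW W k hk b) ∉ q := by
    intro hE
    apply h
    have h1 : D₀ = (⟨_, hEmem 1⟩ : MkW W k hk b) ^ n₀ := by
      rw [hEpow]
      exact Subtype.ext hD₀'
    rw [h1]
    exact q.pow_mem_of_mem hE n₀ hn₀
  obtain ⟨P, hP, hPq⟩ := ca_lying (G := ↥W) (Subalgebra.inclusion hle).toRingHom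
    (Subalgebra.inclusion_injective hle)
    (fun m g => Subtype.ext (m.2.2 (g : V ≃ₗ[ℂ] V) g.2)) ⟨_, hEmem 1⟩
    (by
      intro f hf
      have hinv : InvA W b (f : Ax ι) := fun w hw => congrArg Subtype.val (hf ⟨w, hw⟩)
      obtain ⟨n, hn⟩ := Sreg_inv W k hk b f.2 hinv
      refine ⟨n, ⟨_, hn⟩, ?_⟩
      rw [← map_pow, hEpow]
      exact Subtype.ext rfl) q hq hEq
  exact ⟨P, hP, fun f hf hf' => hPq ⟨f, hf⟩⟩

private theorem ca_Del_unit (b : Basis ι ℂ V) (N : ℕ) (h : xA (Del W b ^ N) ∈ Sreg W b) :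
    IsUnit (⟨xA (Del W b ^ N), h⟩ : Sreg W b) := by
  obtain ⟨f, hf, hf1⟩ := Del_unit W b
  refine IsUnit.of_mul_eq_one ⟨f ^ N, (Sreg W b).pow_mem hf N⟩ (Subtype.ext ?_)
  show xA (Del W b ^ N) * f ^ N = 1
  rw [map_pow, ← mul_pow, hf1, one_pow]

private theorem ca_tau_mem (k : Submodule ℂ V → ℤ → ℂ) (hk : Adm W k) (b : Basis ι ℂ V) {τ : V ≃ₗ[ℂ] V}
    (hτ : Normalizes τ W) (hkτ : FixesParam τ k) {f : Ax ι} (hf : f ∈ MkW W k hk b) :
    trA b b τ f ∈ MkW W k hk b := by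
  refine ⟨trA_mem_Mk (tp_of_normalizes hτ hkτ) b b hf.1, fun w hw => ?_⟩
  have h1 : τ⁻¹ * w * τ ∈ W := by
    rw [hτ]
    have h2 : τ * (τ⁻¹ * w * τ) * τ⁻¹ = w := by group
    rwa [h2]
  have h2 : act b w (act b τ f) = act b τ (act b (τ⁻¹ * w * τ) f) := by
    have e : w * τ = τ * (τ⁻¹ * w * τ) := by group
    rw [← act_mul, ← act_mul, ← e]
  have h3 := hf.2 _ h1
  show act b w (act b τ f) = act b τ f
  rw [h2, h3]

/-- (b), (c): if moreover `q` contains all `f - τ f` and `P` is as in (a), there is `w ∈ W` such that `wτ` acts trivially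
on `Sreg/P`. If not, the subspaces `{a | wτ a - a ∈ P}` are proper for all `w ∈ W`, so some `a` avoids all of them; but
`∏_w (T - w a)` has coefficients in `Sreg^W`, on which `τ` acts trivially modulo `P`, so `∏_w (a - wτ a) ∈ P`. -/
theorem exists_w_trivial (k : Submodule ℂ V → ℤ → ℂ) (hk : Adm W k) (b : Basis ι ℂ V) {τ : V ≃ₗ[ℂ] V}
    (hτ : Normalizes τ W) (hfin : IsOfFinOrder τ) (hkτ : FixesParam τ k) (hreg : IsRegular W τ)
    (q : Ideal (MkW W k hk b))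
    (hqτ : ∀ (f : Ax ι) (hf : f ∈ MkW W k hk b) (hf' : f - trA b b τ f ∈ MkW W k hk b),
      (⟨f - trA b b τ f, hf'⟩ : MkW W k hk b) ∈ q)
    (P : Ideal (Sreg W b)) (hP : P.IsPrime)
    (hPq : ∀ (f : Ax ι) (hf : f ∈ MkW W k hk b) (hf' : f ∈ Sreg W b),
      (⟨f, hf'⟩ : Sreg W b) ∈ P ↔ (⟨f, hf⟩ : MkW W k hk b) ∈ q) :
    ∃ w ∈ W, ∀ (a : Ax ι) (_ : a ∈ Sreg W b) (h' : a - trA b b (w * τ) a ∈ Sreg W b),
      (⟨a - trA b b (w * τ) a, h'⟩ : Sreg W b) ∈ P := by
  classical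
  let _ := ca_action W b
  have hcomm : SMulCommClass ↥W ℂ ↥(Sreg W b) :=
    ⟨fun g c f => Subtype.ext (map_smul (trA b b (g : V ≃ₗ[ℂ] V)) c (f : Ax ι))⟩
  let t : ↥(Sreg W b) →ₐ[ℂ] ↥(Sreg W b) :=
    ((trA b b τ).comp (Sreg W b).val).codRestrict (Sreg W b) (fun f => act_mem_Sreg W b hτ f.2)
  have ht : ∀ f : Sreg W b, ((t f : Sreg W b) : Ax ι) = trA b b τ (f : Ax ι) := fun f => rfl
  let s₀ : ↥W → ↥W := fun g => ⟨τ * (g : V ≃ₗ[ℂ] V) * τ⁻¹, (hτ _).1 g.2⟩
  have hs₀ : Function.Injective s₀ := by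
    intro g g' hgg
    have h1 : τ * (g : V ≃ₗ[ℂ] V) * τ⁻¹ = τ * (g' : V ≃ₗ[ℂ] V) * τ⁻¹ := congrArg Subtype.val hgg
    exact Subtype.ext (mul_left_cancel (mul_right_cancel h1))
  let σ : ↥W ≃ ↥W := Equiv.ofBijective s₀ (Finite.injective_iff_bijective.1 hs₀)
  have hσ : ∀ (g : ↥W) (f : ↥(Sreg W b)), t (g • f) = σ g • t f := by
    intro g f
    apply Subtype.ext
    show act b τ (act b (g : V ≃ₗ[ℂ] V) (f : Ax ι))
      = act b (τ * (g : V ≃ₗ[ℂ] V) * τ⁻¹) (act b τ (f : Ax ι))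
    have e : τ * (g : V ≃ₗ[ℂ] V) = τ * (g : V ≃ₗ[ℂ] V) * τ⁻¹ * τ := by group
    rw [← act_mul, ← act_mul, ← e]
  have hle : ∀ f ∈ MkW W k hk b, f ∈ Sreg W b := fun f hf => Mk_le_Sreg W k b hf.1
  have hM : ∀ (f : Ax ι) (hf : f ∈ MkW W k hk b) (h' : f ∈ Sreg W b), (⟨f, h'⟩ : Sreg W b) - t ⟨f, h'⟩ ∈ P := by
    intro f hf h'
    have h1 := (MkW W k hk b).sub_mem hf (ca_tau_mem W k hk b hτ hkτ hf)
    exact (hPq _ h1 (hle _ h1)).2 (hqτ f hf h1)
  obtain ⟨g, hg⟩ := ca_abs t σ hσ P hP (by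
    intro c hc
    have hinv : InvA W b (c : Ax ι) := fun w hw => congrArg Subtype.val (hc ⟨w, hw⟩)
    obtain ⟨n, hn⟩ := Sreg_inv W k hk b c.2 hinv
    have hd : xA (Del W b ^ (Nat.card W * n)) ∈ MkW W k hk b := by
      refine ⟨?_, fun w hw => ?_⟩
      · have h1 := Mk_xA W k (Mk_one W k b) (Del W b ^ (Nat.card W * n))
        rwa [mul_one] at h1
      · rw [act, trA_xA, Del_pow_inv W b n w hw]
    have h1 := hM _ hd (hle _ hd)
    have h2 := hM _ hn (hle _ hn)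
    have h3 : (⟨_, hle _ hn⟩ : Sreg W b) = (⟨_, hle _ hd⟩ : Sreg W b) * c := rfl
    rw [h3, map_mul] at h2
    have h4 : (⟨_, hle _ hd⟩ : Sreg W b) * (c - t c) ∈ P := by
      have h5 : (⟨_, hle _ hd⟩ : Sreg W b) * (c - t c)
          = ((⟨_, hle _ hd⟩ : Sreg W b) * c - t (⟨_, hle _ hd⟩ : Sreg W b) * t c)
            - t c * ((⟨_, hle _ hd⟩ : Sreg W b) - t (⟨_, hle _ hd⟩ : Sreg W b)) := by ring
      rw [h5]
      exact P.sub_mem h2 (P.mul_mem_left _ h1)
    have h6 := ca_Del_unit W b (Nat.card W * n) (hle _ hd)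
    exact (Ideal.unit_mul_mem_iff_mem P h6).1 h4)
  refine ⟨(g : V ≃ₗ[ℂ] V), g.2, fun a ha h' => ?_⟩
  have h1 := hg ⟨a, ha⟩
  have h2 : (⟨a, ha⟩ : Sreg W b) - g • t ⟨a, ha⟩ = ⟨a - trA b b ((g : V ≃ₗ[ℂ] V) * τ) a, h'⟩ := by
    apply Subtype.ext
    show a - act b (g : V ≃ₗ[ℂ] V) (act b τ a) = a - act b ((g : V ≃ₗ[ℂ] V) * τ) a
    rw [act_mul]
  rwa [h2] at h1

private theorem ca_avgT_apply (τ : V ≃ₗ[ℂ] V) (v : V) : avgT τ v = (orderOf τ : ℂ)⁻¹ •
    ∑ j ∈ Finset.range (orderOf τ), (τ ^ j : V ≃ₗ[ℂ] V) v := by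
  rw [avgT, LinearMap.smul_apply, LinearMap.sum_apply]
  rfl

private theorem ca_sub_pow_mem (τ : V ≃ₗ[ℂ] V) (b : Basis ι ℂ V) (q : Rx ι) (j : ℕ) :
    q - trR b b (τ ^ j) q ∈ Ideal.span {r : Rx ι | ∃ q : Rx ι, r = q - trR b b τ q} := by
  induction j with
  | zero =>
    have h : trR b b (τ ^ 0) q = q := by
      have := trR_refl b
      exact congrArg (fun f => f q) this
    rw [h, sub_self]
    exact Ideal.zero_mem _
  | succ j ih =>
    have h : trR b b (τ ^ (j + 1)) q = trR b b τ (trR b b (τ ^ j) q) := by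
      rw [trR_trans_apply, pow_succ']
      rfl
    have h2 : q - trR b b (τ ^ (j + 1)) q
        = (q - trR b b (τ ^ j) q) + (trR b b (τ ^ j) q - trR b b τ (trR b b (τ ^ j) q)) := by
      rw [h]; ring
    rw [h2]
    exact Ideal.add_mem _ ih (Ideal.subset_span ⟨_, rfl⟩)

private theorem ca_sub_inv_mem (τ : V ≃ₗ[ℂ] V) (b : Basis ι ℂ V) (q : Rx ι) (j : ℕ) :
    q - trR b b (τ ^ j).symm q ∈ Ideal.span {r : Rx ι | ∃ q : Rx ι, r = q - trR b b τ q} := by
  have h := ca_sub_pow_mem τ b (trR b b (τ ^ j).symm q) j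
  have h1 : trR b b (τ ^ j) (trR b b (τ ^ j).symm q) = q := by
    have := trR_symm_apply b b (τ ^ j).symm q
    rwa [LinearEquiv.symm_symm] at this
  rw [h1] at h
  have h2 := Ideal.neg_mem_iff _ |>.2 h
  rwa [neg_sub] at h2

private theorem ca_smul_mem (I : Ideal (Rx ι)) (c : ℂ) {q : Rx ι} (hq : q ∈ I) : c • q ∈ I := by
  have h : c • q = algebraMap ℂ (Rx ι) c * q := by rw [Algebra.smul_def]
  rw [h]
  exact I.mul_mem_left _ hq

private theorem ca_y_mem {τ : V ≃ₗ[ℂ] V} (hfin : IsOfFinOrder τ) (b : Basis ι ℂ V) (v : V) :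
    yR b v - yR b (avgT τ v) ∈ Ideal.span {r : Rx ι | ∃ q : Rx ι, r = q - trR b b τ q} := by
  have hm : (orderOf τ : ℂ) ≠ 0 := by
    exact_mod_cast (orderOf_pos_iff.2 hfin).ne'
  have h1 : yR b v - yR b (avgT τ v) = (orderOf τ : ℂ)⁻¹ •
      ∑ j ∈ Finset.range (orderOf τ), (yR b v - trR b b (τ ^ j) (yR b v)) := by
    rw [ca_avgT_apply, map_smul, map_sum, Finset.sum_sub_distrib, Finset.sum_const, Finset.card_range, smul_sub,
      ← Nat.cast_smul_eq_nsmul ℂ, smul_smul, inv_mul_cancel₀ hm, one_smul]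
    congr 2
    refine Finset.sum_congr rfl (fun j _ => ?_)
    rw [trR_yR]
  rw [h1]
  exact ca_smul_mem _ _ (Ideal.sum_mem _ (fun j _ => ca_sub_pow_mem τ b _ j))

private theorem ca_x_mem {τ : V ≃ₗ[ℂ] V} (hfin : IsOfFinOrder τ) (b : Basis ι ℂ V) (f : Dual ℂ V) :
    (C (xl b f) : Rx ι) - C (xl b (f.comp (avgT τ))) ∈
      Ideal.span {r : Rx ι | ∃ q : Rx ι, r = q - trR b b τ q} := by
  have hm : (orderOf τ : ℂ) ≠ 0 := by
    exact_mod_cast (orderOf_pos_iff.2 hfin).ne'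
  have h0 : f.comp (avgT τ) = (orderOf τ : ℂ)⁻¹ •
      ∑ j ∈ Finset.range (orderOf τ), f.comp ((τ ^ j : V ≃ₗ[ℂ] V) : V →ₗ[ℂ] V) := by
    apply LinearMap.ext
    intro v
    rw [LinearMap.comp_apply, ca_avgT_apply, map_smul, map_sum, LinearMap.smul_apply, LinearMap.sum_apply]
    rfl
  have hC : ∀ (c : ℂ) (q : Px ι), (C (c • q) : Rx ι) = c • C q := by
    intro c q
    rw [Algebra.smul_def, C_mul, Algebra.smul_def]
    rfl
  have h1 : (C (xl b f) : Rx ι) - C (xl b (f.comp (avgT τ))) = (orderOf τ : ℂ)⁻¹ •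
      ∑ j ∈ Finset.range (orderOf τ), ((C (xl b f) : Rx ι) - trR b b (τ ^ j).symm (C (xl b f))) := by
    rw [h0, map_smul, map_sum, hC, map_sum, Finset.sum_sub_distrib, Finset.sum_const, Finset.card_range, smul_sub,
      ← Nat.cast_smul_eq_nsmul ℂ, smul_smul, inv_mul_cancel₀ hm, one_smul]
    congr 2
    refine Finset.sum_congr rfl (fun j _ => ?_)
    rw [trR_C, trP_xl]
    rfl
  rw [h1]
  exact ca_smul_mem _ _ (Ideal.sum_mem _ (fun j _ => ca_sub_inv_mem τ b _ j))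

/-- pull back along the projection. -/
private noncomputable def ca_sec {κ : Type} [Fintype κ] (τ : V ≃ₗ[ℂ] V) (b : Basis ι ℂ V)
    (bU : Basis κ ℂ ↥(fixSub τ)) : Rx κ →ₐ[ℂ] Rx ι :=
  MvPolynomial.aevalTower ((Algebra.algHom ℂ (Px ι) (Rx ι)).comp (pbP b bU (projT τ)))
    (fun k => yR b ((bU k : ↥(fixSub τ)) : V))

/-- the kernel of the restriction on polynomials is generated by the `q - τ q`. -/
theorem ker_resR {κ : Type} [Fintype κ] [DecidableEq κ] {τ : V ≃ₗ[ℂ] V} (hfin : IsOfFinOrder τ) (b : Basis ι ℂ V)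
    (bU : Basis κ ℂ ↥(fixSub τ)) {p : Rx ι} (hp : resR τ b bU p = 0) :
    p ∈ Ideal.span {r | ∃ q : Rx ι, r = q - trR b b τ q} := by
  classical
  have hCs : ∀ c : Px κ, ca_sec τ b bU (C c) = C (pbP b bU (projT τ) c) := by
    intro c
    rw [ca_sec, MvPolynomial.aevalTower_C]
    rfl
  have hXs : ∀ u : ↥(fixSub τ), ca_sec τ b bU (yR bU u) = yR b (u : V) := by
    intro u
    have h := bU.sum_repr u
    have h2 : ((u : ↥(fixSub τ)) : V) = ∑ k, bU.repr u k • ((bU k : ↥(fixSub τ)) : V) := by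
      conv_lhs => rw [← h]
      rw [Submodule.coe_sum]
      rfl
    rw [h2, yR_apply, map_sum, map_sum]
    refine Finset.sum_congr rfl (fun i _ => ?_)
    rw [map_smul, map_smul, ca_sec, MvPolynomial.aevalTower_X]
  have hcomp : (projT τ : V →ₗ[ℂ] ↥(fixSub τ)) = LinearMap.codRestrict (fixSub τ) (avgT τ) (avgT_mem τ) := rfl
  have key : (Ideal.Quotient.mkₐ ℂ (Ideal.span {r : Rx ι | ∃ q : Rx ι, r = q - trR b b τ q})).comp
      ((ca_sec τ b bU).comp (resR τ b bU))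
      = Ideal.Quotient.mkₐ ℂ (Ideal.span {r : Rx ι | ∃ q : Rx ι, r = q - trR b b τ q}) := by
    apply algHom_Rx_ext
    · intro c
      have h3 : ((Ideal.Quotient.mkₐ ℂ (Ideal.span {r : Rx ι | ∃ q : Rx ι, r = q - trR b b τ q})).comp
          ((Algebra.algHom ℂ (Px ι) (Rx ι)).comp ((pbP b bU (projT τ)).comp (resP τ b bU))))
          = (Ideal.Quotient.mkₐ ℂ (Ideal.span {r : Rx ι | ∃ q : Rx ι, r = q - trR b b τ q})).comp
            (Algebra.algHom ℂ (Px ι) (Rx ι)) := by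
        apply MvPolynomial.algHom_ext
        intro i
        rw [AlgHom.comp_apply, AlgHom.comp_apply, AlgHom.comp_apply, AlgHom.comp_apply, ← xl_coord b i, resP_xl,
          pbP_xl, Ideal.Quotient.mkₐ_eq_mk, Ideal.Quotient.eq]
        have h4 := ca_x_mem hfin b (b.coord i)
        have h5 := Ideal.neg_mem_iff _ |>.2 h4
        rw [neg_sub] at h5
        exact h5
      have h6 := congrArg (fun f => f c) h3
      rw [AlgHom.comp_apply, AlgHom.comp_apply, resR_C, hCs]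
      exact h6
    · intro i
      rw [AlgHom.comp_apply, AlgHom.comp_apply, ← yR_basis b i, resR_yR, hXs, projT_apply_coe,
        Ideal.Quotient.mkₐ_eq_mk, Ideal.Quotient.eq]
      have h4 := ca_y_mem hfin b (b i)
      have h5 := Ideal.neg_mem_iff _ |>.2 h4
      rw [neg_sub] at h5
      exact h5
  have h7 := congrArg (fun f => f p) key
  simp only [AlgHom.comp_apply, hp, map_zero] at h7
  exact Ideal.Quotient.eq_zero_iff_mem.1 h7.symm

private theorem ca_span_mem (b : Basis ι ℂ V) (P : Ideal (Sreg W b)) {g : V ≃ₗ[ℂ] V}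
    (hPw : ∀ (a : Ax ι) (_ : a ∈ Sreg W b) (h' : a - trA b b g a ∈ Sreg W b),
      (⟨a - trA b b g a, h'⟩ : Sreg W b) ∈ P) {p : Rx ι}
    (hp : p ∈ Ideal.span {r : Rx ι | ∃ q : Rx ι, r = q - trR b b g q}) :
    (⟨jR p, jR_mem_Sreg W b p⟩ : Sreg W b) ∈ P := by
  let J : Rx ι →ₐ[ℂ] ↥(Sreg W b) := (jR : Rx ι →ₐ[ℂ] Ax ι).codRestrict (Sreg W b) (fun p => jR_mem_Sreg W b p)
  have h1 : Ideal.span {r : Rx ι | ∃ q : Rx ι, r = q - trR b b g q} ≤ P.comap J := by
    rw [Ideal.span_le]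
    rintro r ⟨q, rfl⟩
    have h2 : jR q - trA b b g (jR q) = jR (q - trR b b g q) := by
      rw [map_sub, jR_trR]
    have h3 : jR q - trA b b g (jR q) ∈ Sreg W b := by
      rw [h2]
      exact jR_mem_Sreg W b _
    have h4 := hPw (jR q) (jR_mem_Sreg W b q) h3
    have h5 : (⟨jR q - trA b b g (jR q), h3⟩ : Sreg W b) = J (q - trR b b g q) := Subtype.ext h2
    rw [h5] at h4
    exact h4
  exact h1 hp

/-- (d), (e): if `wτ` acts trivially on `Sreg/P` then `Fix(wτ)` meets `V_reg` (otherwise it is contained in some `H` and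
`α_H ∈ P` is a unit), so by `springer_conj` `wτ = xτx⁻¹` and `P` contains all `W`-invariant `z` which restrict to `0` on
`U × U*`. -/
theorem mem_P_of_res_zero {κ : Type} [Fintype κ] [DecidableEq κ] (hW : ReflGen W) {τ : V ≃ₗ[ℂ] V}
    (hτ : Normalizes τ W) (hfin : IsOfFinOrder τ) (hreg : IsRegular W τ) (b : Basis ι ℂ V)
    (bU : Basis κ ℂ ↥(fixSub τ)) (P : Ideal (Sreg W b)) (hP : P.IsPrime) {w : V ≃ₗ[ℂ] V} (hw : w ∈ W)
    (hPw : ∀ (a : Ax ι) (_ : a ∈ Sreg W b) (h' : a - trA b b (w * τ) a ∈ Sreg W b),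
      (⟨a - trA b b (w * τ) a, h'⟩ : Sreg W b) ∈ P)
    {z : Ax ι} (hz : z ∈ Sreg W b) (hinv : InvA W b z) (hz0 : ResRel τ b bU z 0) :
    (⟨z, hz⟩ : Sreg W b) ∈ P := by
  classical
  have hfing : IsOfFinOrder (w * τ) := by
    have hf := finite_sup W hτ hfin
    have hm : w * τ ∈ W ⊔ Subgroup.zpowers τ :=
      (W ⊔ Subgroup.zpowers τ).mul_mem (Subgroup.mem_sup_left hw)
        (Subgroup.mem_sup_right (Subgroup.mem_zpowers τ))
    have h1 : IsOfFinOrder (⟨w * τ, hm⟩ : ↥(W ⊔ Subgroup.zpowers τ)) := isOfFinOrder_of_finite _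
    exact (Submonoid.isOfFinOrder_coe (H := (W ⊔ Subgroup.zpowers τ).toSubmonoid) (x := ⟨w * τ, hm⟩)).2 h1
  have hnot : ∀ H ∈ arr W, ¬ fixSub (w * τ) ≤ H := by
    intro H hH hle
    have h1 : (lf H).comp (avgT (w * τ)) = 0 := by
      apply LinearMap.ext
      intro v
      rw [LinearMap.comp_apply, LinearMap.zero_apply]
      exact (mem_iff_lf H (arr_finrank W hH) _).1 (hle (avgT_mem (w * τ) v))
    have h2 := ca_x_mem hfing b (lf H)
    rw [h1, map_zero, C_0, sub_zero] at h2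
    have h3 : (C (Del W b) : Rx ι) ∈ Ideal.span {r : Rx ι | ∃ q : Rx ι, r = q - trR b b (w * τ) q} := by
      obtain ⟨c, hc⟩ := Finset.dvd_prod_of_mem (fun H => xl b (lf H)) (mem_arrF.2 hH)
      have h4 : Del W b = xl b (lf H) * c := hc
      rw [h4, C_mul]
      exact Ideal.mul_mem_right _ _ h2
    have h4 := ca_span_mem W b P hPw h3
    have h5 : xA (Del W b ^ 1) ∈ Sreg W b := ⟨0, C (Del W b), by rw [pow_one, pow_zero, map_one, one_mul, jR_C]⟩
    have h6 := ca_Del_unit W b 1 h5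
    have h7 : (⟨jR (C (Del W b)), jR_mem_Sreg W b _⟩ : Sreg W b) = ⟨xA (Del W b ^ 1), h5⟩ := by
      apply Subtype.ext
      show jR (C (Del W b)) = xA (Del W b ^ 1)
      rw [pow_one, jR_C]
    rw [h7] at h4
    exact hP.ne_top (Ideal.eq_top_of_isUnit_mem P h4 h6)
  obtain ⟨v, hv, hvH⟩ : ∃ v : V, v ∈ fixSub (w * τ) ∧ ∀ H ∈ arr W, v ∉ H := by
    by_contra hc
    push Not at hc
    obtain ⟨H, hH⟩ := Subspace.exists_eq_top_of_iUnion_eq_univ (k := ℂ) (E := ↥(fixSub (w * τ)))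
      (p := fun H : ↥(arrF W) => (H : Submodule ℂ V).comap (fixSub (w * τ)).subtype) (by
        rw [Set.eq_univ_iff_forall]
        intro v
        obtain ⟨H, hH, hvH⟩ := hc v v.2
        exact Set.mem_iUnion.2 ⟨⟨H, mem_arrF.2 hH⟩, hvH⟩)
    refine hnot H (mem_arrF.1 H.2) (fun v hv => ?_)
    have h1 : (⟨v, hv⟩ : ↥(fixSub (w * τ))) ∈ (H : Submodule ℂ V).comap (fixSub (w * τ)).subtype := by
      rw [hH]
      exact Submodule.mem_top
    exact h1
  obtain ⟨u, hu1, hu2⟩ := free_of_isRegular W hW hreg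
  obtain ⟨f, d, θ, hB⟩ := exists_basic W τ hW hτ hfin b
  obtain ⟨x, hx, hxw, _⟩ := springer_conj hB hτ hu2 hu1 hw
    (fun g hg hgv => steinberg W hW hvH hg hgv) hv
  obtain ⟨N, p, hp⟩ := hz
  have hp0 : resR τ b bU p = 0 := by
    have h1 : ResRel τ b bU (jR p) (jR (resR τ b bU p)) := ResRel.ofR p
    have h2 : ResRel τ b bU (jR p) (xA (resP τ b bU (Del W b ^ N)) * 0) := by
      rw [hp]
      exact (ResRel.ofP (Del W b ^ N)).mul hz0
    have h3 := h1.unique h2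
    rw [mul_zero] at h3
    exact jR_injective (by rw [h3, map_zero])
  have hker := ker_resR hfin b bU hp0
  have hx1 : trR b b x p ∈ Ideal.span {r : Rx ι | ∃ q : Rx ι, r = q - trR b b (w * τ) q} := by
    have h1 : Ideal.span {r : Rx ι | ∃ q : Rx ι, r = q - trR b b τ q}
        ≤ (Ideal.span {r : Rx ι | ∃ q : Rx ι, r = q - trR b b (w * τ) q}).comap (trR b b x) := by
      rw [Ideal.span_le]
      rintro r ⟨q, rfl⟩
      refine Ideal.subset_span ⟨trR b b x q, ?_⟩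
      have e : (x * τ * x⁻¹) * x = x * τ := by group
      have e' : x.trans (x * τ * x⁻¹) = τ.trans x := e
      rw [map_sub, trR_trans_apply, hxw, trR_trans_apply, e']
    exact h1 hker
  have hz' : z ∈ Sreg W b := ⟨N, p, hp⟩
  have h1 := ca_span_mem W b P hPw hx1
  obtain ⟨c, hc, hc'⟩ := ca_trP_Del W b (ca_norm W hx)
  have hDN : xA (Del W b ^ N) ∈ Sreg W b := ⟨0, C (Del W b ^ N), by rw [pow_zero, map_one, one_mul, jR_C]⟩
  have h2 : (⟨xA (Del W b ^ N), hDN⟩ : Sreg W b) * ⟨z, hz'⟩ = c ^ N • ⟨jR (trR b b x p), jR_mem_Sreg W b _⟩ := by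
    apply Subtype.ext
    show xA (Del W b ^ N) * z = c ^ N • jR (trR b b x p)
    have h3 : trA b b x z = z := hinv x hx
    have h4 : xA (Del W b ^ N) = c ^ N • xA (trP b b x (Del W b) ^ N) := by
      conv_lhs => rw [hc']
      rw [smul_pow, map_smul]
    have h5 : trP b b x (Del W b ^ N) = trP b b x (Del W b) ^ N := map_pow _ _ _
    rw [jR_trR, hp, map_mul, trA_xA, h3, h4, smul_mul_assoc, h5]
  have h3 : (⟨xA (Del W b ^ N), hDN⟩ : Sreg W b) * ⟨z, hz'⟩ ∈ P := by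
    rw [h2, Algebra.smul_def]
    exact P.mul_mem_left _ h1
  exact (Ideal.unit_mul_mem_iff_mem P (ca_Del_unit W b N hDN)).1 h3

end

end Pool.Agent.CM64
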