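import Mathlib

/-! Krull dimension and integral extensions. -/

set_option linter.unusedSectionVars false

namespace Pool.Agent.CM64

/-- incomparability and lying over. -/
theorem ringKrullDim_le_of_integral {A B : Type} [CommRing A] [CommRing B] (f : A →+* B) (hint : f.IsIntegral) :
    ringKrullDim B ≤ ringKrullDim A := by
  let _ := f.toAlgebra
  refine Order.krullDim_le_of_strictMono (PrimeSpectrum.comap f) ?_
  intro P Q hPQ
  have hle : P.asIdeal ≤ Q.asIdeal := hPQ.le
  obtain ⟨x, hxQ, hxP⟩ := SetLike.exists_of_lt (show P.asIdeal < Q.asIdeal from hPQ)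
  exact Ideal.comap_lt_comap_of_integral_mem_sdiff (R := A) hle ⟨hxQ, hxP⟩ (hint x)

private theorem pm_KrullA_lift {A B : Type} [CommRing A] [CommRing B] (f : A →+* B) (hint : f.IsIntegral)
    (hf : Function.Injective f) (l : LTSeries (PrimeSpectrum A)) :
    ∃ l' : LTSeries (PrimeSpectrum B), l'.length = l.length ∧ PrimeSpectrum.comap f l'.last = l.last := by
  let _ := f.toAlgebra
  have : Algebra.IsIntegral A B := ⟨hint⟩
  induction l using RelSeries.inductionOn' with
  | singleton P =>
    obtain ⟨Q, -, hQ, hQP⟩ := Ideal.exists_ideal_over_prime_of_isIntegral (S := B) P.asIdeal ⊥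
      (by
        have : RingHom.ker (algebraMap A B) = ⊥ := (RingHom.injective_iff_ker_eq_bot _).1 hf
        change RingHom.ker (algebraMap A B) ≤ _
        rw [this]; exact bot_le)
    refine ⟨RelSeries.singleton _ ⟨Q, hQ⟩, rfl, ?_⟩
    simp only [RelSeries.last_singleton]
    exact PrimeSpectrum.ext hQP
  | snoc p x hx hp =>
    obtain ⟨l', h1, h2⟩ := hp
    have hlt : (PrimeSpectrum.comap f l'.last).asIdeal < x.asIdeal := by
      rw [h2]; exact hx
    obtain ⟨Q, hQ, hQp, hQx⟩ := Ideal.exists_ideal_over_prime_of_isIntegral (S := B) x.asIdeal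
      l'.last.asIdeal hlt.le
    have hQl : l'.last < ⟨Q, hQp⟩ := by
      refine lt_of_le_of_ne hQ ?_
      intro h
      have h3 : (PrimeSpectrum.comap f l'.last).asIdeal = x.asIdeal := by
        rw [h]; exact hQx
      exact hlt.ne h3
    refine ⟨l'.snoc ⟨Q, hQp⟩ hQl, by simp [h1], ?_⟩
    simp only [RelSeries.last_snoc]
    exact PrimeSpectrum.ext hQx

/-- going up. -/
theorem ringKrullDim_eq_of_integral {A B : Type} [CommRing A] [CommRing B] (f : A →+* B) (hint : f.IsIntegral)
    (hf : Function.Injective f) : ringKrullDim A = ringKrullDim B := by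
  refine le_antisymm ?_ (ringKrullDim_le_of_integral f hint)
  refine iSup_le fun l => ?_
  obtain ⟨l', h1, -⟩ := pm_KrullA_lift f hint hf l
  rw [← h1]
  exact le_iSup (fun l : LTSeries (PrimeSpectrum B) => (l.length : WithBot ℕ∞)) l'

theorem ringKrullDim_eq_card {σ : Type} [Finite σ] {B : Type} [CommRing B] (f : MvPolynomial σ ℂ →+* B)
    (hint : f.IsIntegral) (hf : Function.Injective f) : ringKrullDim B = Nat.card σ := by
  rw [← ringKrullDim_eq_of_integral f hint hf, MvPolynomial.ringKrullDim_of_isNoetherianRing,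
    ringKrullDim_eq_zero_of_field, zero_add]

/-- a noninjective integral map from a polynomial ring: `dim B ≤ dim (ℂ[σ]/ker f) < |σ|`. -/
theorem ringKrullDim_lt_card {σ : Type} [Finite σ] {B : Type} [CommRing B] (f : MvPolynomial σ ℂ →+* B)
    (hint : f.IsIntegral) (hf : ¬ Function.Injective f) : ringKrullDim B < Nat.card σ := by
  have hker : RingHom.ker f ≠ ⊥ := fun h => hf ((RingHom.injective_iff_ker_eq_bot f).2 h)
  obtain ⟨r, hr, hr0⟩ := Submodule.exists_mem_ne_zero_of_ne_bot hker
  have h1 : ringKrullDim B ≤ ringKrullDim (MvPolynomial σ ℂ ⧸ RingHom.ker f) := by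
    refine ringKrullDim_le_of_integral (RingHom.kerLift f) ?_
    intro b
    obtain ⟨p, hp, hpb⟩ := hint b
    refine ⟨p.map (Ideal.Quotient.mk (RingHom.ker f)), hp.map _, ?_⟩
    rw [Polynomial.eval₂_map]
    exact hpb
  have h2 := ringKrullDim_succ_le_of_surjective (Ideal.Quotient.mk (RingHom.ker f))
    Ideal.Quotient.mk_surjective (mem_nonZeroDivisors_of_ne_zero hr0)
    (Ideal.Quotient.eq_zero_iff_mem.2 hr)
  rw [MvPolynomial.ringKrullDim_of_isNoetherianRing, ringKrullDim_eq_zero_of_field, zero_add] at h2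
  have h3 : ringKrullDim B + 1 ≤ (Nat.card σ : WithBot ℕ∞) := (add_le_add_left h1 1).trans h2
  generalize ringKrullDim B = d at h3 ⊢
  generalize Nat.card σ = n at h3 ⊢
  induction d with
  | bot => exact WithBot.bot_lt_coe _
  | coe d =>
    have h4 : d + 1 ≤ (n : ℕ∞) := by exact_mod_cast h3
    have h5 : d < (n : ℕ∞) := by
      rw [← ENat.add_one_le_iff]
      · exact h4
      · rintro rfl
        exact absurd h4 (by simp)
    exact_mod_cast h5

end Pool.Agent.CM64
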