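import Pool.Agent.LibCM64.CompA
import Pool.Agent.LibCM64.KrullA

/-! The polynomial rings over which `Z_k/q` is integral. -/

set_option linter.unusedSectionVars false
set_option maxSynthPendingDepth 3

namespace Pool.Agent.CM64

open Module MvPolynomial

section

variable {V : Type} [AddCommGroup V] [Module ℂ V] [FiniteDimensional ℂ V]
variable {ι : Type} [Fintype ι] [DecidableEq ι] {κ : Type} [Fintype κ] [DecidableEq κ]
variable {W : Subgroup (V ≃ₗ[ℂ] V)} [Finite W] {τ : V ≃ₗ[ℂ] V} {k : Submodule ℂ V → ℤ → ℂ} {hk : Adm W k}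
  {b : Basis ι ℂ V} {bU : Basis κ ℂ ↥(fixSub τ)}
  {f : ι → Px ι} {d : ι → ℕ} {θ : ι → ℂ} {g : ι → Px ι} {d' : ι → ℕ} {θ' : ι → ℂ}

private theorem compB_aeval {σ : Type} {A B : Type} [CommRing A] [CommRing B] [Algebra ℂ A] [Algebra ℂ B]
    (φ : A →ₐ[ℂ] B) (x : σ → A) (P : MvPolynomial σ ℂ) : φ (aeval x P) = aeval (fun i => φ (x i)) P := by
  have h : φ.comp (aeval x) = aeval (fun i => φ (x i)) := by
    ext i
    simp
  rw [← h]
  rfl

private theorem compB_aeval' {σ : Type} {A B : Type} [CommRing A] [CommRing B] [Algebra ℂ A] [Algebra ℂ B]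
    (φ : A →+* B) (hφ : ∀ c, φ (algebraMap ℂ A c) = algebraMap ℂ B c) (x : σ → A) (P : MvPolynomial σ ℂ) :
    φ (aeval x P) = aeval (fun i => φ (x i)) P :=
  compB_aeval { φ with commutes' := hφ } x P

/-- the restrictions to `U` of the basic invariants with `θ_i = 1` are algebraically independent: `ℂ[U]` is integral over
the algebra they generate, and there are `dim U` of them. -/
theorem algInd_resP (hτ : Normalizes τ W) (hfin : IsOfFinOrder τ) (hB : Basic W τ b f d θ) {u : V}
    (hu : ∀ g ∈ W, g u = u → g = 1) (hτu : τ u = u) :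
    AlgebraicIndependent ℂ (fun i : {i // θ i = 1} => resP τ b bU (f i)) := by
  classical
  rw [algebraicIndependent_iff]
  intro P hP
  apply MvPolynomial.funext
  intro c
  obtain ⟨v, hv, hvc⟩ := basic_surj hB hu hτu (fun i => if h : θ i = 1 then c ⟨i, h⟩ else 0)
    (fun i hi => dif_neg hi)
  have h1 : evP bU ⟨v, hv⟩ (aeval (fun i : {i // θ i = 1} => resP τ b bU (f i)) P) =
      aeval (fun i : {i // θ i = 1} => evP bU ⟨v, hv⟩ (resP τ b bU (f i))) P :=
    compB_aeval _ _ _
  have h2 : (fun i : {i // θ i = 1} => evP bU ⟨v, hv⟩ (resP τ b bU (f i))) = c := by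
    funext i
    rw [evP_resP, hvc, dif_pos i.2]
  rw [hP, h2, map_zero] at h1
  have h3 : (aeval c P : ℂ) = eval c P := by
    rw [← coe_aeval_eq_eval]
    rfl
  rw [map_zero, ← h3, ← h1]

/-- a `τ`-invariant linear form factors through the projection. -/
private theorem compB_dual (hfin : IsOfFinOrder τ) {v : Dual ℂ V} (hv : v ∈ fixSub (dgHom V τ)) :
    ∃ v' : Dual ℂ ↥(fixSub τ), (projT τ).dualMap v' = v := by
  have h0 : dgHom V τ v = v := hv
  rw [dgHom_apply] at h0
  have h1 : ∀ x, v (τ x) = v x := by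
    intro x
    have h2 := LinearMap.congr_fun h0 (τ x)
    rw [LinearMap.comp_apply] at h2
    rw [← h2]
    show v (τ.symm (τ x)) = v x
    rw [LinearEquiv.symm_apply_apply]
  have h3 : ∀ (j : ℕ) (x : V), v ((τ ^ j : V ≃ₗ[ℂ] V) x) = v x := by
    intro j
    induction j with
    | zero => intro x; rw [pow_zero]; rfl
    | succ j ih => intro x; rw [pow_succ, LinearEquiv.mul_apply, ih, h1]
  refine ⟨v.comp (fixSub τ).subtype, ?_⟩
  apply LinearMap.ext
  intro x
  rw [LinearMap.dualMap_apply, LinearMap.comp_apply]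
  show v ((projT τ x : ↥(fixSub τ)) : V) = v x
  rw [projT_apply_coe]
  have hm : (orderOf τ : ℂ) ≠ 0 := by
    exact_mod_cast (orderOf_pos_iff.2 hfin).ne'
  rw [avgT, LinearMap.smul_apply, map_smul, LinearMap.sum_apply, map_sum]
  have h4 : ∑ j ∈ Finset.range (orderOf τ), v (((τ ^ j : V ≃ₗ[ℂ] V) : V →ₗ[ℂ] V) x) =
      ∑ j ∈ Finset.range (orderOf τ), v x := Finset.sum_congr rfl (fun j _ => h3 j x)
  rw [h4, Finset.sum_const, Finset.card_range, nsmul_eq_mul, smul_eq_mul, ← mul_assoc, inv_mul_cancel₀ hm, one_mul]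

/-- the same for the dual representation. -/
theorem algInd_resP_dual (hτ : Normalizes τ W) (hfin : IsOfFinOrder τ)
    (hB' : Basic (dualGrp W) (dgHom V τ) b.dualBasis g d' θ') {u : V}
    (hu : ∀ g ∈ W, g u = u → g = 1) (hτu : τ u = u) :
    AlgebraicIndependent ℂ (fun j : {j // θ' j = 1} =>
      pbP bU.dualBasis b.dualBasis (projT τ).dualMap (g j)) := by
  classical
  obtain ⟨e, he, he1⟩ := exists_free_covector hτ hfin hu hτu
  rw [algebraicIndependent_iff]
  intro P hP
  apply MvPolynomial.funext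
  intro c
  obtain ⟨v, hv, hvc⟩ := basic_surj hB' he1 he (fun i => if h : θ' i = 1 then c ⟨i, h⟩ else 0)
    (fun i hi => dif_neg hi)
  obtain ⟨v', hv'⟩ := compB_dual hfin hv
  have h1 : evP bU.dualBasis v' (aeval (fun j : {j // θ' j = 1} =>
      pbP bU.dualBasis b.dualBasis (projT τ).dualMap (g j)) P) =
      aeval (fun j : {j // θ' j = 1} => evP bU.dualBasis v'
        (pbP bU.dualBasis b.dualBasis (projT τ).dualMap (g j))) P :=
    compB_aeval _ _ _
  have h2 : (fun j : {j // θ' j = 1} => evP bU.dualBasis v'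
      (pbP bU.dualBasis b.dualBasis (projT τ).dualMap (g j))) = c := by
    funext i
    rw [evP_pbP, hv', hvc, dif_pos i.2]
  rw [hP, h2, map_zero] at h1
  have h3 : (aeval c P : ℂ) = eval c P := by
    rw [← coe_aeval_eq_eval]
    rfl
  rw [map_zero, ← h3, ← h1]

/-- `card {θ' = 1} = dim U` for the dual representation. -/
theorem card_dual (hτ : Normalizes τ W) (hfin : IsOfFinOrder τ)
    (hB' : Basic (dualGrp W) (dgHom V τ) b.dualBasis g d' θ') {u : V}
    (hu : ∀ g ∈ W, g u = u → g = 1) (hτu : τ u = u) :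
    Nat.card {j // θ' j = 1} = finrank ℂ (fixSub τ) := by
  obtain ⟨e, he, he1⟩ := exists_free_covector hτ hfin hu hτu
  rw [basic_card hB' he1 he, finrank_fixSub_dual]

/-- `S` is the leading term (of degree `D`) of `a`. -/
private def LeadB (D : ℕ) (a S : Ax κ) : Prop := S.IsHomogeneous D ∧ Ld D (a - S)

private theorem LeadB_one : LeadB 0 (1 : Ax κ) 1 := by
  refine ⟨isHomogeneous_one _ _, ?_⟩
  rw [sub_self]
  exact Ld_zero 0

private theorem LeadB_Ld {D : ℕ} {a S : Ax κ} (h : LeadB D a S) : Ld (D + 1) a := by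
  have h1 : Ld (D + 1) S := by
    intro n hn
    rw [homogeneousComponent_of_mem h.1, if_neg (by omega)]
  have h2 := Ld_add h1 (Ld_mono (Nat.le_succ D) h.2)
  rwa [add_sub_cancel] at h2

private theorem LeadB_LdS {D : ℕ} {a S : Ax κ} (h : LeadB D a S) : Ld (D + 1) S := by
  intro n hn
  rw [homogeneousComponent_of_mem h.1, if_neg (by omega)]

private theorem LeadB_mul {D E : ℕ} {a S a' S' : Ax κ} (h : LeadB D a S) (h' : LeadB E a' S') :
    LeadB (D + E) (a * a') (S * S') := by
  refine ⟨h.1.mul h'.1, ?_⟩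
  have h1 : a * a' - S * S' = a * (a' - S') + S' * (a - S) := by ring
  rw [h1]
  refine Ld_add (Ld_mul (LeadB_Ld h) h'.2) ?_
  rw [add_comm D E]
  exact Ld_mul (LeadB_LdS h') h.2

private theorem LeadB_pow {D : ℕ} {a S : Ax κ} (h : LeadB D a S) (n : ℕ) :
    LeadB (n * D) (a ^ n) (S ^ n) := by
  induction n with
  | zero => rw [zero_mul, pow_zero, pow_zero]; exact LeadB_one
  | succ n ih =>
    rw [pow_succ, pow_succ, add_mul, one_mul]
    exact LeadB_mul ih h

private theorem LeadB_prod {J : Type} (s : Finset J) (D : J → ℕ) (a S : J → Ax κ)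
    (h : ∀ j ∈ s, LeadB (D j) (a j) (S j)) (e : J → ℕ) :
    LeadB (∑ j ∈ s, e j * D j) (∏ j ∈ s, a j ^ e j) (∏ j ∈ s, S j ^ e j) := by
  classical
  induction s using Finset.induction_on with
  | empty => rw [Finset.sum_empty, Finset.prod_empty, Finset.prod_empty]; exact LeadB_one
  | insert j s hj ih =>
    rw [Finset.sum_insert hj, Finset.prod_insert hj, Finset.prod_insert hj]
    exact LeadB_mul (LeadB_pow (h j (Finset.mem_insert_self j s)) (e j))
      (ih (fun i hi => h i (Finset.mem_insert_of_mem hi)))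

/-- elements whose leading terms are homogeneous with constant coefficients and algebraically independent are
algebraically independent over `ℂ(x)`. -/
private theorem LeadB_algInd {J : Type} [Fintype J] (D : J → ℕ) (q : J → Px κ) (s : J → Ax κ)
    (hq : ∀ j, LeadB (D j) (s j) (jR (xiR (q j)))) (halg : AlgebraicIndependent ℂ q) :
    AlgebraicIndependent (Fx κ) s := by
  classical
  rw [algebraicIndependent_iff]
  intro P hP
  by_contra hne
  have hsupp : P.support.Nonempty := by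
    rw [Finset.nonempty_iff_ne_empty]
    intro h0
    exact hne (support_eq_empty.1 h0)
  obtain ⟨β₀, hβ₀, hmax⟩ := Finset.exists_max_image P.support (fun β => ∑ j, β j * D j) hsupp
  set N := ∑ j, β₀ j * D j with hN
  have hmon : ∀ β : J →₀ ℕ, LeadB (∑ j, β j * D j) (∏ j, s j ^ β j) (∏ j, jR (xiR (q j)) ^ β j) := fun β =>
    LeadB_prod Finset.univ D s (fun j => jR (xiR (q j))) (fun j _ => hq j) β
  have h1 : ∑ β ∈ P.support, C (coeff β P) * ∏ j, s j ^ β j = 0 := by
    rw [← hP]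
    conv_rhs => rw [P.as_sum, map_sum]
    refine Finset.sum_congr rfl (fun β _ => ?_)
    rw [aeval_monomial, Finsupp.prod_fintype _ _ (fun i => pow_zero _)]
    rfl
  have h2 : ∑ β ∈ P.support with ∑ j, β j * D j = N, C (coeff β P) * ∏ j, jR (xiR (q j)) ^ β j = 0 := by
    have h3 := congrArg (homogeneousComponent N) h1
    rw [map_sum, map_zero] at h3
    rw [Finset.sum_filter]
    refine Eq.trans ?_ h3
    refine Finset.sum_congr rfl (fun β hβ => ?_)
    rw [homogeneousComponent_C_mul]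
    split_ifs with hb
    · congr 1
      have h4 := (hmon β).2 N (le_of_eq hb)
      rw [map_sub, sub_eq_zero, homogeneousComponent_of_mem (hmon β).1, if_pos hb.symm] at h4
      exact h4.symm
    · have h5 : ∑ j, β j * D j + 1 ≤ N := Nat.lt_of_le_of_ne (hmax β hβ) hb
      rw [LeadB_Ld (hmon β) N h5, mul_zero]
  have h6 : coeff β₀ P = 0 := by
    rw [← Module.forall_dual_apply_eq_zero_iff ℂ (coeff β₀ P)]
    intro φ
    set Q : MvPolynomial J ℂ := ∑ β ∈ P.support with ∑ j, β j * D j = N, monomial β (φ (coeff β P)) with hQ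
    have h7 : aeval q Q = 0 := by
      ext m
      have h8 := congrArg (coeff m) h2
      rw [coeff_sum, coeff_zero] at h8
      rw [hQ, map_sum, coeff_sum, coeff_zero]
      have h9 := congrArg φ h8
      rw [map_sum, map_zero] at h9
      refine Eq.trans ?_ h9
      refine Finset.sum_congr rfl (fun β _ => ?_)
      rw [aeval_monomial, Finsupp.prod_fintype _ _ (fun i => pow_zero _), algebraMap_eq, coeff_C_mul, coeff_C_mul]
      have h10 : (∏ j, jR (xiR (q j)) ^ β j : Ax κ) = jR (xiR (∏ j, q j ^ β j)) := by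
        rw [map_prod, map_prod]
        refine Finset.prod_congr rfl (fun j _ => ?_)
        rw [map_pow, map_pow]
      rw [h10, coeff_jR]
      have h11 : ∀ p : Px κ, coeff m (xiR p) = C (coeff m p) := by
        intro p
        rw [xiR, mapAlgHom_apply, coeff_map]
        rfl
      have h14 : (pF (C (coeff m (∏ j, q j ^ β j)) : Px κ) : Fx κ) =
          algebraMap ℂ (Fx κ) (coeff m (∏ j, q j ^ β j)) := pF.commutes _
      rw [h11, h14, mul_comm (coeff β P), ← Algebra.smul_def, map_smul, smul_eq_mul, mul_comm]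
    have h12 := (algebraicIndependent_iff.1 halg) Q h7
    have h13 := congrArg (coeff β₀) h12
    rw [hQ, coeff_sum, coeff_zero, Finset.sum_eq_single_of_mem β₀ (Finset.mem_filter.2 ⟨hβ₀, hN.symm⟩)] at h13
    · rw [coeff_monomial, if_pos rfl] at h13
      exact h13
    · intro β _ hβ
      rw [coeff_monomial, if_neg hβ]
  exact (mem_support_iff.1 hβ₀) h6

private theorem compB_resR_xiR (q : Px ι) :
    resR τ b bU (xiR q) = xiR (pbP bU.dualBasis b.dualBasis (projT τ).dualMap q) := by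
  have h : (resR τ b bU).comp xiR = (xiR : Px κ →ₐ[ℂ] Rx κ).comp
      (pbP bU.dualBasis b.dualBasis (projT τ).dualMap) := by
    ext1 i
    rw [AlgHom.comp_apply, AlgHom.comp_apply]
    have h1 : (X i : Px ι) = xl b.dualBasis (Dual.eval ℂ V (b i)) := by
      rw [← xl_coord b.dualBasis i]
      congr 1
      apply LinearMap.ext
      intro v
      rw [Basis.coord_apply, Basis.dualBasis_repr]
      rfl
    rw [h1, xiR_xl, pbP_xl, resR_yR]
    have h2 : (Dual.eval ℂ V (b i)).comp (projT τ).dualMap = Dual.eval ℂ ↥(fixSub τ) (projT τ (b i)) := rfl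
    rw [h2, xiR_xl]
  exact DFunLike.congr_fun h q

/-- the restrictions `f_i|_U` (`θ_i = 1`) and `s_j = f_{g_j}|_{U×U*}` (`θ'_j = 1`) are algebraically independent: take the
leading `ξ`-components (`Y_j` has weight `d'_j`); `s_j = g_j|_{U*}(ξ)` + lower. -/
theorem algInd_res (hτ : Normalizes τ W) (hfin : IsOfFinOrder τ) (hB : Basic W τ b f d θ)
    (hB' : Basic (dualGrp W) (dgHom V τ) b.dualBasis g d' θ') {u : V}
    (hu : ∀ g ∈ W, g u = u → g = 1) (hτu : τ u = u) (s : {j // θ' j = 1} → Ax κ)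
    (hs : ∀ j : {j // θ' j = 1}, ResRel τ b bU (fq W k b (g j)) (s j)) :
    AlgebraicIndependent ℂ (Sum.elim (fun i : {i // θ i = 1} => (xA (resP τ b bU (f i)) : Ax κ)) s) := by
  classical
  have hfs : AlgebraicIndependent (Fx κ) s := by
    have hfin' : Fintype {j // θ' j = 1} := Fintype.ofFinite _
    refine LeadB_algInd (fun j : {j // θ' j = 1} => d' j)
      (fun j : {j // θ' j = 1} => pbP bU.dualBasis b.dualBasis (projT τ).dualMap (g j)) s (fun j => ?_)
      (algInd_resP_dual (bU := bU) hτ hfin hB' hu hτu)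
    have hhom := pbP_isHomogeneous bU.dualBasis b.dualBasis (projT τ).dualMap (hB'.hom j)
    refine ⟨?_, ?_⟩
    · have h1 := xiR_isHomogeneous hhom
      intro m hm
      apply h1
      intro h0
      apply hm
      rw [coeff_jR, h0, map_zero]
    · intro n hn
      rw [← compB_resR_xiR]
      have h2 := ((hs j).hcomp n)
      have h3 := (ResRel.ofR (τ := τ) (b := b) (bU := bU) (xiR (g j))).hcomp n
      have h4 := Ld_fq_sub W k b (hB'.hom j) n hn
      rw [map_sub, sub_eq_zero] at h4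
      rw [h4] at h2
      rw [map_sub, sub_eq_zero]
      exact h2.unique h3
  have hfp : AlgebraicIndependent ℂ (fun i : {i // θ i = 1} => (xA (resP τ b bU (f i)) : Ax κ)) :=
    (algInd_resP (bU := bU) hτ hfin hB hu hτu).map' (f := (xA : Px κ →ₐ[ℂ] Ax κ)) xA_injective
  have h5 := hfp.sumElim_of_tower (S := Fx κ) (y := s) (by
    rintro _ ⟨i, rfl⟩
    exact ⟨pF (resP τ b bU (f i)), rfl⟩) hfs
  rw [← algebraicIndependent_equiv' (Equiv.sumComm {i // θ i = 1} {j // θ' j = 1})
    (g := Sum.elim (fun i : {i // θ i = 1} => (xA (resP τ b bU (f i)) : Ax κ)) s)] at h5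
  · exact h5
  · funext x
    rcases x with x | x <;> rfl

variable (zf : {i // θ i = 1} → ZZ W k) (zg : {j // θ' j = 1} → ZZ W k)

/-- the map `ℂ[X_i, Y_j] → Z_k/q`, `X_i ↦ f_i`, `Y_j ↦ f_{g_j}`. -/
noncomputable def evq (q : Ideal (ZZ W k)) :
    MvPolynomial ({i // θ i = 1} ⊕ {j // θ' j = 1}) ℂ →ₐ[ℂ] ZZ W k ⧸ q :=
  aeval (Sum.elim (fun i => Ideal.Quotient.mk q (zf i)) (fun j => Ideal.Quotient.mk q (zg j)))

private theorem compB_int {R S A B : Type} [CommRing R] [CommRing S] [CommRing A] [CommRing B] (inc : R →+* A)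
    (ψ : A →+* B) (ev : S →+* B) (hr : ∀ r, ∃ s, ev s = ψ (inc r))
    (hs : ∀ x : B, ∃ a, ψ a = x ∧ ∃ P : Polynomial R, P.Monic ∧ Polynomial.eval₂ inc a P = 0) : ev.IsIntegral := by
  intro x
  obtain ⟨a, rfl, P, hPm, hP0⟩ := hs x
  have h5 : P.map (ψ.comp inc) ∈ Polynomial.lifts ev := by
    rw [Polynomial.lifts_iff_coeff_lifts]
    intro n
    rw [Polynomial.coeff_map]
    obtain ⟨r, hr⟩ := hr (P.coeff n)
    exact ⟨r, hr⟩
  obtain ⟨Q, hQ, _, hQm⟩ := Polynomial.lifts_and_natDegree_eq_and_monic h5 (hPm.map _)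
  refine ⟨Q, hQm, ?_⟩
  rw [← Polynomial.eval_map, hQ, Polynomial.eval_map, ← Polynomial.hom_eval₂, hP0, map_zero]

omit [Fintype κ] [DecidableEq κ] in
private theorem compB_zf {p : Px ι} (hp : PInv W b p) : ∃ z : ZZ W k, zA W k hk b z = xA p := by
  have h := Pk_le_Mk W k hk b (Algebra.subset_adjoin (Or.inl ⟨p, hp, rfl⟩) : xA p ∈ Pk W k b)
  exact exists_zA W k hk b h.1 h.2

private theorem compB_zg {p : Px ι} (hp : PInv (dualGrp W) b.dualBasis p) :
    ∃ z : ZZ W k, zA W k hk b z = fq W k b p := by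
  have h := Pk_le_Mk W k hk b (Algebra.subset_adjoin (Or.inr ⟨p, hp, rfl⟩) : fq W k b p ∈ Pk W k b)
  exact exists_zA W k hk b h.1 h.2

private theorem compB_mem_of_eig (hτ : Normalizes τ W) (hkτ : FixesParam τ k) (q : Ideal (ZZ W k))
    (hq : Itau W k τ hτ hkτ ≤ q) {c : ℂ} (hc : c ≠ 1) {z : ZZ W k}
    (h : trA b b τ (zA W k hk b z) = c • zA W k hk b z) : z ∈ q := by
  have h1 : indZ W k τ hτ hkτ z = c • z := zA_injective W k hk b (by
    rw [zA_indZ, map_smul]
    exact h)
  have h2 : z - indZ W k τ hτ hkτ z ∈ q := hq (Ideal.subset_span ⟨z, rfl⟩)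
  have h3 : z = (1 - c)⁻¹ • (z - indZ W k τ hτ hkτ z) := by
    have h4 : z - c • z = (1 - c) • z := by rw [sub_smul, one_smul]
    rw [h1, h4, smul_smul, inv_mul_cancel₀ (sub_ne_zero.2 (Ne.symm hc)), one_smul]
  rw [h3, Algebra.smul_def]
  exact q.mul_mem_left _ h2

/-- `Z_k/q` is integral over `ℂ[X_i, Y_j]` if `q` contains all `z - τ z`: `Z_k` is integral over the algebra generated by
all the `f_i`, `f_{g_j}` (`isIntegral_Pk`), and those with `θ ≠ 1` are in `q`. -/
theorem evq_integral (hB : Basic W τ b f d θ) (hB' : Basic (dualGrp W) (dgHom V τ) b.dualBasis g d' θ')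
    (hτ : Normalizes τ W) (hkτ : FixesParam τ k) (hzf : ∀ i, zA W k hk b (zf i) = xA (f i))
    (hzg : ∀ j, zA W k hk b (zg j) = fq W k b (g j)) (q : Ideal (ZZ W k)) (hq : Itau W k τ hτ hkτ ≤ q) :
    (evq zf zg q).toRingHom.IsIntegral := by
  set ψ : MkW W k hk b →ₐ[ℂ] ZZ W k ⧸ q := (Ideal.Quotient.mkₐ ℂ q).comp (zEquiv W k hk b).symm.toAlgHom with hψ
  have hψz : ∀ (z : ZZ W k) (hz : zA W k hk b z ∈ MkW W k hk b),
      ψ ⟨zA W k hk b z, hz⟩ = Ideal.Quotient.mk q z := by
    intro z hz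
    have h1 : (zEquiv W k hk b).symm ⟨zA W k hk b z, hz⟩ = z := by
      rw [AlgEquiv.symm_apply_eq]
      rfl
    show Ideal.Quotient.mk q ((zEquiv W k hk b).symm ⟨zA W k hk b z, hz⟩) = _
    rw [h1]
  set T : Subalgebra ℂ (Ax ι) := ((evq zf zg q).range.comap ψ).map (MkW W k hk b).val with hT
  have hmem : ∀ z : ZZ W k, zA W k hk b z ∈ MkW W k hk b := fun z => ⟨zA_mem_Mk W k hk b z, zA_inv W k hk b z⟩
  have hTz : ∀ z : ZZ W k, Ideal.Quotient.mk q z ∈ (evq zf zg q).range → zA W k hk b z ∈ T := by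
    intro z hz
    refine ⟨⟨zA W k hk b z, hmem z⟩, ?_, rfl⟩
    show ψ ⟨zA W k hk b z, hmem z⟩ ∈ (evq zf zg q).range
    rw [hψz]
    exact hz
  have hxf : ∀ i, xA (f i) ∈ T := by
    intro i
    obtain ⟨z, hz⟩ := compB_zf (hk := hk) (b := b) (hB.inv i)
    rw [← hz]
    apply hTz
    by_cases hi : θ i = 1
    · have h1 : z = zf ⟨i, hi⟩ := zA_injective W k hk b (by rw [hz, hzf])
      rw [h1]
      exact ⟨X (Sum.inl ⟨i, hi⟩), aeval_X _ _⟩
    · have h1 : z ∈ q := compB_mem_of_eig hτ hkτ q hq hi (by rw [hz, trA_xA, hB.eig, map_smul])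
      rw [Ideal.Quotient.eq_zero_iff_mem.2 h1]
      exact (evq zf zg q).range.zero_mem
  have hxg : ∀ j, fq W k b (g j) ∈ T := by
    intro j
    obtain ⟨z, hz⟩ := compB_zg (hk := hk) (b := b) (hB'.inv j)
    rw [← hz]
    apply hTz
    by_cases hj : θ' j = 1
    · have h1 : z = zg ⟨j, hj⟩ := zA_injective W k hk b (by rw [hz, hzg])
      rw [h1]
      exact ⟨X (Sum.inr ⟨j, hj⟩), aeval_X _ _⟩
    · have h1 : z ∈ q := compB_mem_of_eig hτ hkτ q hq hj (by
        rw [hz, act_fq W k b (tp_of_normalizes hτ hkτ) hk, hB'.eig, fq_smul])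
      rw [Ideal.Quotient.eq_zero_iff_mem.2 h1]
      exact (evq zf zg q).range.zero_mem
  have hPk : Pk W k b ≤ T := by
    refine Algebra.adjoin_le ?_
    rintro a (⟨p, hp, rfl⟩ | ⟨p, hp, rfl⟩)
    · have h1 : Algebra.adjoin ℂ (Set.range f) ≤ T.comap (xA : Px ι →ₐ[ℂ] Ax ι) := by
        refine Algebra.adjoin_le ?_
        rintro _ ⟨i, rfl⟩
        exact hxf i
      exact h1 (hB.gen p hp)
    · have h1 := hB'.gen p hp
      have h2 : PInv (dualGrp W) b.dualBasis p ∧ fq W k b p ∈ T := by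
        refine Algebra.adjoin_induction (p := fun p _ => PInv (dualGrp W) b.dualBasis p ∧ fq W k b p ∈ T)
          ?_ ?_ ?_ ?_ h1
        · rintro _ ⟨j, rfl⟩
          exact ⟨hB'.inv j, hxg j⟩
        · intro r
          refine ⟨(invP (dualGrp W) b.dualBasis).algebraMap_mem r, ?_⟩
          rw [Algebra.algebraMap_eq_smul_one, fq_smul, fq_one]
          exact T.smul_mem T.one_mem r
        · rintro x y _ _ ⟨hx, hx'⟩ ⟨hy, hy'⟩
          refine ⟨(invP (dualGrp W) b.dualBasis).add_mem hx hy, ?_⟩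
          rw [fq_add]
          exact T.add_mem hx' hy'
        · rintro x y _ _ ⟨hx, hx'⟩ ⟨hy, hy'⟩
          refine ⟨(invP (dualGrp W) b.dualBasis).mul_mem hx hy, ?_⟩
          rw [fq_mul W k hk b x hy]
          exact T.mul_mem hy' hx'
      exact h2.2
  have hPkM : ∀ a : Pk W k b, (a : Ax ι) ∈ MkW W k hk b := fun a => Pk_le_Mk W k hk b a.2
  set inc : Pk W k b →+* MkW W k hk b := (Subalgebra.inclusion (fun a ha => hPkM ⟨a, ha⟩ :
    Pk W k b ≤ MkW W k hk b)).toRingHom with hinc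
  have hrange : ∀ a : Pk W k b, ψ (inc a) ∈ (evq zf zg q).range := by
    intro a
    obtain ⟨m, hm, hma⟩ := hPk a.2
    have h1 : m = inc a := Subtype.ext hma
    rw [← h1]
    exact hm
  refine compB_int inc ψ.toRingHom (evq zf zg q).toRingHom (fun a => hrange a) ?_
  intro x
  obtain ⟨z, rfl⟩ := Ideal.Quotient.mk_surjective x
  refine ⟨⟨zA W k hk b z, hmem z⟩, hψz z (hmem z), ?_⟩
  obtain ⟨P, hPm, hP0⟩ := isIntegral_Pk W k hk b (zA_mem_Mk W k hk b z) (zA_inv W k hk b z)
  refine ⟨P, hPm, ?_⟩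
  apply Subtype.ext
  have h2 : ((Polynomial.eval₂ inc (⟨zA W k hk b z, hmem z⟩ : MkW W k hk b) P : MkW W k hk b) : Ax ι) =
      Polynomial.eval₂ (algebraMap (Pk W k b) (Ax ι)) (zA W k hk b z) P :=
    Polynomial.hom_eval₂ P inc (MkW W k hk b).val.toRingHom _
  rw [h2, hP0]
  rfl

/-- if `q` contains `Δ^{|W|}` then the map is not injective (`Δ^{|W|}|_U ≠ 0`). -/
theorem evq_not_injective (hB : Basic W τ b f d θ) (hB' : Basic (dualGrp W) (dgHom V τ) b.dualBasis g d' θ')
    (hτ : Normalizes τ W) (hkτ : FixesParam τ k) (hreg : IsRegular W τ)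
    (hzf : ∀ i, zA W k hk b (zf i) = xA (f i))
    (hzg : ∀ j, zA W k hk b (zg j) = fq W k b (g j)) (q : Ideal (ZZ W k)) (hq : Itau W k τ hτ hkτ ≤ q)
    {D₀ : ZZ W k} (hD₀ : zA W k hk b D₀ = xA (Del W b ^ Nat.card W)) (h : D₀ ∈ q) :
    ¬ Function.Injective (evq zf zg q) := by
  classical
  intro hinj
  have hinv : PInv W b (Del W b ^ Nat.card W) := by
    have h1 := Del_pow_inv W b 1
    rwa [mul_one] at h1
  have hgen := hB.gen _ hinv
  rw [Algebra.adjoin_range_eq_range_aeval] at hgen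
  obtain ⟨P, hP⟩ := hgen
  have hP' : aeval f P = Del W b ^ Nat.card W := hP
  choose z hz using fun i => compB_zf (hk := hk) (b := b) (hB.inv i)
  set y : ι → MvPolynomial ({i // θ i = 1} ⊕ {j // θ' j = 1}) ℂ :=
    fun i => if h : θ i = 1 then X (Sum.inl ⟨i, h⟩) else 0 with hy
  have hevy : ∀ i, evq zf zg q (y i) = Ideal.Quotient.mk q (z i) := by
    intro i
    by_cases hi : θ i = 1
    · have h1 : z i = zf ⟨i, hi⟩ := zA_injective W k hk b (by rw [hz, hzf])
      rw [hy, h1]
      simp only [dif_pos hi]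
      exact aeval_X _ _
    · have h1 : z i ∈ q := compB_mem_of_eig hτ hkτ q hq hi (by rw [hz, trA_xA, hB.eig, map_smul])
      rw [Ideal.Quotient.eq_zero_iff_mem.2 h1, hy]
      simp only [dif_neg hi]
      exact map_zero (evq zf zg q)
  have hD : aeval z P = D₀ := by
    apply zA_injective W k hk b
    rw [hD₀, ← hP', compB_aeval, compB_aeval]
    congr 2
    funext i
    exact hz i
  have h2 : evq zf zg q (aeval y P) = evq zf zg q 0 := by
    rw [compB_aeval, funext hevy]
    have h3 := compB_aeval' (B := ZZ W k ⧸ q) (Ideal.Quotient.mk q) (fun _ => rfl) z P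
    rw [hD] at h3
    have h4 : (Ideal.Quotient.mk q) D₀ = 0 := Ideal.Quotient.eq_zero_iff_mem.2 h
    exact (h3.symm.trans h4).trans (map_zero (evq zf zg q)).symm
  have h5 : aeval y P = 0 := hinj h2
  set bU := Module.finBasis ℂ ↥(fixSub τ) with hbU
  have h6 : resP τ b bU (Del W b ^ Nat.card W) = 0 := by
    rw [← hP', compB_aeval]
    have h7 : (fun i => resP τ b bU (f i)) = fun i => (aeval (Sum.elim (fun i : {i // θ i = 1} => resP τ b bU (f i))
        (fun _ : {j // θ' j = 1} => 0)) : MvPolynomial _ ℂ →ₐ[ℂ] _) (y i) := by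
      funext i
      by_cases hi : θ i = 1
      · rw [hy]
        simp only [dif_pos hi]
        rw [aeval_X]
        rfl
      · rw [hy]
        simp only [dif_neg hi, map_zero]
        apply evP_ext bU
        intro v
        rw [evP_resP, map_zero]
        exact basic_vanish hB v.2 hi
    rw [h7, ← compB_aeval, h5, map_zero]
  rw [map_pow] at h6
  exact resP_Del_ne_zero W τ hreg b bU (pow_eq_zero_iff (Nat.card_pos.ne') |>.1 h6)

/-- for the kernel of the restriction the map is injective (`algInd_res`). -/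
theorem evq_injective (hB : Basic W τ b f d θ) (hB' : Basic (dualGrp W) (dgHom V τ) b.dualBasis g d' θ')
    (hτ : Normalizes τ W) (hfin : IsOfFinOrder τ) {u : V}
    (hu : ∀ g ∈ W, g u = u → g = 1) (hτu : τ u = u)
    (hzf : ∀ i, zA W k hk b (zf i) = xA (f i)) (hzg : ∀ j, zA W k hk b (zg j) = fq W k b (g j))
    {l : Submodule ℂ ↥(fixSub τ) → ℤ → ℂ} {hl : Adm (fixGrp W τ) l}
    {φ : ZZ W k →ₐ[ℂ] ZZ (fixGrp W τ) l} (hφ : IsRes W τ k hk b bU l hl φ) :
    Function.Injective (evq zf zg (RingHom.ker φ)) := by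
  have hs : ∀ j : {j // θ' j = 1}, ResRel τ b bU (fq W k b (g j)) (zA (fixGrp W τ) l hl bU (φ (zg j))) := by
    intro j
    have h1 := hφ (zg j)
    rwa [hzg] at h1
  have halg := algInd_res (bU := bU) hτ hfin hB hB' hu hτu (fun j => zA (fixGrp W τ) l hl bU (φ (zg j))) hs
  rw [injective_iff_map_eq_zero]
  intro P hP
  apply (algebraicIndependent_iff.1 halg) P
  have h2 : aeval (Sum.elim zf zg) P ∈ RingHom.ker φ := by
    have h3 := compB_aeval' (B := ZZ W k ⧸ RingHom.ker φ) (Ideal.Quotient.mk (RingHom.ker φ)) (fun _ => rfl) (Sum.elim zf zg) P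
    rw [← Ideal.Quotient.eq_zero_iff_mem]
    refine h3.trans (Eq.trans ?_ hP)
    rw [evq]
    congr 2
    funext x
    rcases x with x | x <;> rfl
  have h4 : φ (aeval (Sum.elim zf zg) P) = 0 := h2
  have h5 := congrArg (zA (fixGrp W τ) l hl bU) h4
  rw [compB_aeval, compB_aeval, map_zero] at h5
  refine Eq.trans ?_ h5
  congr 2
  funext x
  rcases x with x | x
  · have h6 := hφ (zf x)
    rw [hzf] at h6
    exact (h6.unique (ResRel.ofP (f x))).symm
  · rfl

end

end Pool.Agent.CM64
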