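import Pool.Agent.LibCM64.CompB

/-! The kernel of the restriction is the component of maximal dimension. -/

set_option linter.unusedSectionVars false
set_option maxSynthPendingDepth 3

namespace Pool.Agent.CM64

open Module MvPolynomial

section

variable {V : Type} [AddCommGroup V] [Module ℂ V] [FiniteDimensional ℂ V]
variable {ι : Type} [Fintype ι] [DecidableEq ι] {κ : Type} [Fintype κ] [DecidableEq κ]
variable {W : Subgroup (V ≃ₗ[ℂ] V)} [Finite W] {τ : V ≃ₗ[ℂ] V} {k : Submodule ℂ V → ℤ → ℂ} {hk : Adm W k}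
  {b : Basis ι ℂ V} {bU : Basis κ ℂ ↥(fixSub τ)}
  {l : Submodule ℂ ↥(fixSub τ) → ℤ → ℂ} {hl : Adm (fixGrp W τ) l} {φ : ZZ W k →ₐ[ℂ] ZZ (fixGrp W τ) l}

/-- a prime `q` containing all `z - τ z` and not containing `Δ^{|W|}` contains the kernel of the restriction
(`exists_prime_over`, `exists_w_trivial`, `mem_P_of_res_zero`, through `zEquiv`). -/
theorem ker_le_of_prime (hW : ReflGen W) (hτ : Normalizes τ W) (hfin : IsOfFinOrder τ) (hreg : IsRegular W τ)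
    (hkτ : FixesParam τ k) (hφ : IsRes W τ k hk b bU l hl φ) (q : Ideal (ZZ W k)) (hq : q.IsPrime)
    (hqτ : Itau W k τ hτ hkτ ≤ q) {D₀ : ZZ W k} (hD₀ : zA W k hk b D₀ = xA (Del W b ^ Nat.card W)) (h : D₀ ∉ q) :
    RingHom.ker φ ≤ q := by
  have hmem : ∀ z : ZZ W k, zA W k hk b z ∈ MkW W k hk b := fun z => ⟨zA_mem_Mk W k hk b z, zA_inv W k hk b z⟩
  have hsymm : ∀ (z : ZZ W k) (hz : zA W k hk b z ∈ MkW W k hk b),
      (zEquiv W k hk b).symm ⟨zA W k hk b z, hz⟩ = z := by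
    intro z hz
    rw [AlgEquiv.symm_apply_eq]
    rfl
  set q' : Ideal (MkW W k hk b) := q.comap (zEquiv W k hk b).symm.toAlgHom.toRingHom with hq'
  have hq'p : q'.IsPrime := Ideal.comap_isPrime _ _
  have hq'm : ∀ (z : ZZ W k) (hz : zA W k hk b z ∈ MkW W k hk b),
      (⟨zA W k hk b z, hz⟩ : MkW W k hk b) ∈ q' ↔ z ∈ q := by
    intro z hz
    rw [hq', Ideal.mem_comap]
    show (zEquiv W k hk b).symm ⟨zA W k hk b z, hz⟩ ∈ q ↔ z ∈ q
    rw [hsymm]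
  obtain ⟨P, hP, hPq⟩ := exists_prime_over W k hk b q' hq'p ⟨zA W k hk b D₀, hmem D₀⟩
    ⟨1, one_pos, by rw [mul_one]; exact hD₀⟩ (fun h1 => h ((hq'm D₀ (hmem D₀)).1 h1))
  have hqτ' : ∀ (f : Ax ι) (_ : f ∈ MkW W k hk b) (hf' : f - trA b b τ f ∈ MkW W k hk b),
      (⟨f - trA b b τ f, hf'⟩ : MkW W k hk b) ∈ q' := by
    intro f hf hf'
    obtain ⟨z, rfl⟩ := exists_zA W k hk b hf.1 hf.2
    have h1 : zA W k hk b (z - indZ W k τ hτ hkτ z) = zA W k hk b z - trA b b τ (zA W k hk b z) := by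
      rw [map_sub, zA_indZ]
    have h2 : (⟨zA W k hk b z - trA b b τ (zA W k hk b z), hf'⟩ : MkW W k hk b) =
        ⟨zA W k hk b (z - indZ W k τ hτ hkτ z), hmem _⟩ := Subtype.ext h1.symm
    rw [h2, hq'm]
    exact hqτ (Ideal.subset_span ⟨z, rfl⟩)
  obtain ⟨w, hw, hPw⟩ := exists_w_trivial W k hk b hτ hfin hkτ hreg q' hqτ' P hP hPq
  intro z hz
  have hz0 : φ z = 0 := hz
  have h3 : ResRel τ b bU (zA W k hk b z) 0 := by
    have h4 := hφ z
    rwa [hz0, map_zero] at h4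
  have h5 : zA W k hk b z ∈ Sreg W b := Mk_le_Sreg W k b (zA_mem_Mk W k hk b z)
  have h6 := mem_P_of_res_zero W hW hτ hfin hreg b bU P hP hw hPw h5 (zA_inv W k hk b z) h3
  exact (hq'm z (hmem z)).1 ((hPq _ (hmem z) h5).1 h6)

/-- all the data needed below. -/
private theorem compC_data (hW : ReflGen W) (hτ : Normalizes τ W) (hfin : IsOfFinOrder τ) (hreg : IsRegular W τ)
    (hk : Adm W k) (b : Basis ι ℂ V) :
    ∃ (f : ι → Px ι) (d : ι → ℕ) (θ : ι → ℂ) (g : ι → Px ι) (d' : ι → ℕ) (θ' : ι → ℂ) (u : V)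
      (zf : {i // θ i = 1} → ZZ W k) (zg : {j // θ' j = 1} → ZZ W k),
      Basic W τ b f d θ ∧ Basic (dualGrp W) (dgHom V τ) b.dualBasis g d' θ' ∧ (∀ g ∈ W, g u = u → g = 1) ∧
      τ u = u ∧ (∀ i, zA W k hk b (zf i) = xA (f i)) ∧ (∀ j, zA W k hk b (zg j) = fq W k b (g j)) ∧
      Nat.card ({i // θ i = 1} ⊕ {j // θ' j = 1}) = 2 * finrank ℂ (fixSub τ) := by
  obtain ⟨f, d, θ, hB⟩ := exists_basic W τ hW hτ hfin b
  obtain ⟨g, d', θ', hB'⟩ := exists_basic (dualGrp W) (dgHom V τ) (reflGen_dual hW) (normalizes_dual hτ)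
    (isOfFinOrder_dual hfin) b.dualBasis
  obtain ⟨u, hτu, hu⟩ := free_of_isRegular W hW hreg
  have hf : ∀ i, ∃ z : ZZ W k, zA W k hk b z = xA (f i) := fun i => by
    have h := Pk_le_Mk W k hk b (Algebra.subset_adjoin (Or.inl ⟨f i, hB.inv i, rfl⟩) : xA (f i) ∈ Pk W k b)
    exact exists_zA W k hk b h.1 h.2
  have hg : ∀ j, ∃ z : ZZ W k, zA W k hk b z = fq W k b (g j) := fun j => by
    have h := Pk_le_Mk W k hk b (Algebra.subset_adjoin (Or.inr ⟨g j, hB'.inv j, rfl⟩) : fq W k b (g j) ∈ Pk W k b)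
    exact exists_zA W k hk b h.1 h.2
  choose zf hzf using hf
  choose zg hzg using hg
  refine ⟨f, d, θ, g, d', θ', u, fun i => zf i, fun j => zg j, hB, hB', hu, hτu, fun i => hzf i, fun j => hzg j, ?_⟩
  rw [Nat.card_sum, basic_card hB hu hτu, card_dual hτ hfin hB' hu hτu, two_mul]

/-- `Δ^{|W|}` as an element of `Z_k`. -/
private theorem compC_D (W : Subgroup (V ≃ₗ[ℂ] V)) [Finite W] (k : Submodule ℂ V → ℤ → ℂ) (hk : Adm W k)
    (b : Basis ι ℂ V) : ∃ D₀ : ZZ W k, zA W k hk b D₀ = xA (Del W b ^ Nat.card W) := by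
  have hinv : PInv W b (Del W b ^ Nat.card W) := by
    have h1 := Del_pow_inv W b 1
    rwa [mul_one] at h1
  have h := Pk_le_Mk W k hk b (Algebra.subset_adjoin (Or.inl ⟨_, hinv, rfl⟩) : xA (Del W b ^ Nat.card W) ∈ Pk W k b)
  exact exists_zA W k hk b h.1 h.2

private theorem compC_D_notMem (hreg : IsRegular W τ) (hφ : IsRes W τ k hk b bU l hl φ) {D₀ : ZZ W k}
    (hD₀ : zA W k hk b D₀ = xA (Del W b ^ Nat.card W)) : D₀ ∉ RingHom.ker φ := by
  intro h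
  have h0 : φ D₀ = 0 := h
  have h1 := hφ D₀
  rw [h0, map_zero, hD₀] at h1
  have h2 := h1.unique (ResRel.ofP _)
  have h3 : resP τ b bU (Del W b ^ Nat.card W) = 0 := xA_injective (h2.symm.trans (map_zero _).symm)
  rw [map_pow] at h3
  exact resP_Del_ne_zero W τ hreg b bU (pow_eq_zero_iff (Nat.card_pos.ne') |>.1 h3)

theorem dim_ker (hW : ReflGen W) (hτ : Normalizes τ W) (hfin : IsOfFinOrder τ) (hreg : IsRegular W τ)
    (hkτ : FixesParam τ k) (hφ : IsRes W τ k hk b bU l hl φ) :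
    ringKrullDim (ZZ W k ⧸ RingHom.ker φ) = ((2 * finrank ℂ (fixSub τ) : ℕ) : WithBot ℕ∞) := by
  obtain ⟨f, d, θ, g, d', θ', u, zf, zg, hB, hB', hu, hτu, hzf, hzg, hcard⟩ :=
    compC_data hW hτ hfin hreg hk b
  rw [← hcard]
  exact ringKrullDim_eq_card (evq zf zg (RingHom.ker φ)).toRingHom
    (evq_integral zf zg hB hB' hτ hkτ hzf hzg _ (Itau_le_ker hfin hφ hτ hkτ))
    (evq_injective zf zg hB hB' hτ hfin hu hτu hzf hzg hφ)

theorem ker_mem_minimalPrimes (hW : ReflGen W) (hτ : Normalizes τ W) (hfin : IsOfFinOrder τ) (hreg : IsRegular W τ)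
    (hkτ : FixesParam τ k) (hφ : IsRes W τ k hk b bU l hl φ) :
    RingHom.ker φ ∈ (Itau W k τ hτ hkτ).minimalPrimes := by
  obtain ⟨D₀, hD₀⟩ := compC_D W k hk b
  refine ⟨⟨ker_isPrime φ hl, Itau_le_ker hfin hφ hτ hkτ⟩, ?_⟩
  rintro q ⟨hq, hqτ⟩ hle
  exact ker_le_of_prime hW hτ hfin hreg hkτ hφ q hq hqτ hD₀
    (fun h => compC_D_notMem hreg hφ hD₀ (hle h))

theorem dim_lt_of_ne (hW : ReflGen W) (hτ : Normalizes τ W) (hfin : IsOfFinOrder τ) (hreg : IsRegular W τ)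
    (hkτ : FixesParam τ k) (hφ : IsRes W τ k hk b bU l hl φ) (q : Ideal (ZZ W k))
    (hq : q ∈ (Itau W k τ hτ hkτ).minimalPrimes) (hne : q ≠ RingHom.ker φ) :
    ringKrullDim (ZZ W k ⧸ q) < ((2 * finrank ℂ (fixSub τ) : ℕ) : WithBot ℕ∞) := by
  obtain ⟨D₀, hD₀⟩ := compC_D W k hk b
  obtain ⟨f, d, θ, g, d', θ', u, zf, zg, hB, hB', hu, hτu, hzf, hzg, hcard⟩ :=
    compC_data hW hτ hfin hreg hk b
  have hD : D₀ ∈ q := by
    by_contra h
    have h1 := ker_le_of_prime hW hτ hfin hreg hkτ hφ q hq.1.1 hq.1.2 hD₀ h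
    exact hne (le_antisymm (hq.2 ⟨ker_isPrime φ hl, Itau_le_ker hfin hφ hτ hkτ⟩ h1) h1)
  rw [← hcard]
  exact ringKrullDim_lt_card (evq zf zg q).toRingHom
    (evq_integral zf zg hB hB' hτ hkτ hzf hzg q hq.1.2)
    (evq_not_injective zf zg hB hB' hτ hkτ hreg hzf hzg q hq.1.2 hD₀ hD)

end

end Pool.Agent.CM64
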