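import Pool.Agent.LibCM64.GrpB

/-! Transport of groups, hyperplanes and parameters along a linear isomorphism. -/

set_option linter.unusedSectionVars false

namespace Pool.Agent.CM64

open Module MvPolynomial

section

variable {V : Type} [AddCommGroup V] [Module ℂ V] [FiniteDimensional ℂ V]
variable {V' : Type} [AddCommGroup V'] [Module ℂ V'] [FiniteDimensional ℂ V']

/-- `g h g⁻¹`. -/
def cj (g : V ≃ₗ[ℂ] V') (h : V ≃ₗ[ℂ] V) : V' ≃ₗ[ℂ] V' := (g.symm.trans h).trans g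

theorem cj_apply (g : V ≃ₗ[ℂ] V') (h : V ≃ₗ[ℂ] V) (v : V') : cj g h v = g (h (g.symm v)) := rfl

theorem cj_eq_conj (g h : V ≃ₗ[ℂ] V) : cj g h = g * h * g⁻¹ := rfl

/-- `g` transports `(W,k)` to `(W',k')`. -/
structure Tp (g : V ≃ₗ[ℂ] V') (W : Subgroup (V ≃ₗ[ℂ] V)) (W' : Subgroup (V' ≃ₗ[ℂ] V'))
    (k : Submodule ℂ V → ℤ → ℂ) (k' : Submodule ℂ V' → ℤ → ℂ) : Prop where
  grp : ∀ h, h ∈ W ↔ cj g h ∈ W'
  par : ∀ H ∈ arr W, ∀ j, k' (H.map (g : V →ₗ[ℂ] V')) j = k H j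

variable {g : V ≃ₗ[ℂ] V'} {W : Subgroup (V ≃ₗ[ℂ] V)} {W' : Subgroup (V' ≃ₗ[ℂ] V')}
  {k : Submodule ℂ V → ℤ → ℂ} {k' : Submodule ℂ V' → ℤ → ℂ}

private theorem cj_symm_cj (g : V ≃ₗ[ℂ] V') (h : V ≃ₗ[ℂ] V) : cj g.symm (cj g h) = h := by
  ext v
  simp [cj_apply]

private theorem cj_cj_symm (g : V ≃ₗ[ℂ] V') (h : V' ≃ₗ[ℂ] V') : cj g (cj g.symm h) = h := by
  ext v
  simp [cj_apply]

private theorem cj_map_symm_map (g : V ≃ₗ[ℂ] V') (H : Submodule ℂ V) :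
    (H.map (g : V →ₗ[ℂ] V')).map (g.symm : V' →ₗ[ℂ] V) = H := by
  rw [← Submodule.map_comp]
  have : ((g.symm : V' →ₗ[ℂ] V).comp (g : V →ₗ[ℂ] V')) = LinearMap.id := by
    ext v
    simp
  rw [this, Submodule.map_id]

private theorem cj_map_map_symm (g : V ≃ₗ[ℂ] V') (H : Submodule ℂ V') :
    (H.map (g.symm : V' →ₗ[ℂ] V)).map (g : V →ₗ[ℂ] V') = H := by
  rw [← Submodule.map_comp]
  have : ((g : V →ₗ[ℂ] V').comp (g.symm : V' →ₗ[ℂ] V)) = LinearMap.id := by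
    ext v
    simp
  rw [this, Submodule.map_id]

private theorem cj_fixSub (g : V ≃ₗ[ℂ] V') (h : V ≃ₗ[ℂ] V) :
    fixSub (cj g h) = (fixSub h).map (g : V →ₗ[ℂ] V') := by
  ext v
  rw [mem_fixSub, cj_apply, Submodule.mem_map]
  constructor
  · intro hv
    refine ⟨g.symm v, ?_, by simp⟩
    rw [mem_fixSub]
    have := congrArg g.symm hv
    simpa using this
  · rintro ⟨w, hw, rfl⟩
    rw [mem_fixSub] at hw
    simp [hw]

private theorem cj_isRefl (g : V ≃ₗ[ℂ] V') (h : V ≃ₗ[ℂ] V) : IsRefl (cj g h) ↔ IsRefl h := by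
  unfold IsRefl
  rw [cj_fixSub, LinearEquiv.finrank_map_eq, ← g.finrank_eq]

theorem cj_bijOn (h : Tp g W W' k k') : Set.BijOn (cj g) (W : Set (V ≃ₗ[ℂ] V)) (W' : Set (V' ≃ₗ[ℂ] V')) := by
  refine ⟨fun u hu => (h.grp u).1 hu, ?_, ?_⟩
  · intro a _ b _ hab
    have := congrArg (cj g.symm) hab
    rwa [cj_symm_cj, cj_symm_cj] at this
  · intro u hu
    refine ⟨cj g.symm u, ?_, cj_cj_symm g u⟩
    have := (h.grp (cj g.symm u)).2
    rw [cj_cj_symm] at this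
    exact this hu

theorem dt_cj (g : V ≃ₗ[ℂ] V') (h : V ≃ₗ[ℂ] V) : dt (cj g h) = dt h := by
  unfold dt
  have := LinearMap.det_conj (h : V →ₗ[ℂ] V) g
  rw [← this]
  rfl

theorem mem_arr_map (h : Tp g W W' k k') (H : Submodule ℂ V) :
    H.map (g : V →ₗ[ℂ] V') ∈ arr W' ↔ H ∈ arr W := by
  constructor
  · rintro ⟨s, hs, hr, hf⟩
    refine ⟨cj g.symm s, ?_, (cj_isRefl g.symm s).2 hr, ?_⟩
    · have := (h.grp (cj g.symm s)).2
      rw [cj_cj_symm] at this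
      exact this hs
    · rw [cj_fixSub, hf, cj_map_symm_map]
  · rintro ⟨s, hs, hr, rfl⟩
    exact ⟨cj g s, (h.grp s).1 hs, (cj_isRefl g s).2 hr, cj_fixSub g s⟩

/-- every hyperplane of `W'` is the image of a hyperplane of `W`. -/
theorem exists_arr_map (h : Tp g W W' k k') {H' : Submodule ℂ V'} (hH' : H' ∈ arr W') :
    ∃ H ∈ arr W, H.map (g : V →ₗ[ℂ] V') = H' := by
  refine ⟨H'.map (g.symm : V' →ₗ[ℂ] V), ?_, cj_map_map_symm g H'⟩
  rw [← mem_arr_map h, cj_map_map_symm]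
  exact hH'

theorem mem_pst_map (h : Tp g W W' k k') (H : Submodule ℂ V) (u : V ≃ₗ[ℂ] V) :
    cj g u ∈ pst W' (H.map (g : V →ₗ[ℂ] V')) ↔ u ∈ pst W H := by
  rw [mem_pst, mem_pst, ← h.grp u]
  refine and_congr_right fun _ => ?_
  constructor
  · intro hh v hv
    have := hh (g v) (Submodule.mem_map_of_mem hv)
    rw [cj_apply, LinearEquiv.symm_apply_apply] at this
    exact g.injective this
  · intro hh v' hv'
    obtain ⟨v, hv, rfl⟩ := Submodule.mem_map.1 hv'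
    rw [cj_apply]
    simp [hh v hv]

theorem eH_map (h : Tp g W W' k k') (H : Submodule ℂ V) :
    eH W' (H.map (g : V →ₗ[ℂ] V')) = eH W H := by
  unfold eH
  symm
  refine Nat.card_eq_of_bijective
    (fun u : pst W H => (⟨cj g u, (mem_pst_map h H u).2 u.2⟩ :
      pst W' (H.map (g : V →ₗ[ℂ] V')))) ⟨?_, ?_⟩
  · intro a b hab
    have h1 : cj g (a : V ≃ₗ[ℂ] V) = cj g b := congrArg Subtype.val hab
    have h2 := congrArg (cj g.symm) h1
    rw [cj_symm_cj, cj_symm_cj] at h2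
    exact Subtype.ext h2
  · rintro ⟨u, hu⟩
    refine ⟨⟨cj g.symm u, ?_⟩, ?_⟩
    · rw [← mem_pst_map h, cj_cj_symm]
      exact hu
    · exact Subtype.ext (cj_cj_symm g u)

theorem tp_symm (h : Tp g W W' k k') : Tp g.symm W' W k' k := by
  refine ⟨fun u => ?_, fun H' hH' j => ?_⟩
  · rw [h.grp (cj g.symm u), cj_cj_symm]
  · obtain ⟨H, hH, rfl⟩ := exists_arr_map h hH'
    rw [cj_map_symm_map, h.par H hH j]

theorem tp_trans {V'' : Type} [AddCommGroup V''] [Module ℂ V''] [FiniteDimensional ℂ V'']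
    {g' : V' ≃ₗ[ℂ] V''} {W'' : Subgroup (V'' ≃ₗ[ℂ] V'')} {k'' : Submodule ℂ V'' → ℤ → ℂ}
    (h : Tp g W W' k k') (h' : Tp g' W' W'' k' k'') : Tp (g.trans g') W W'' k k'' := by
  refine ⟨fun u => ?_, fun H hH j => ?_⟩
  · rw [h.grp u, h'.grp (cj g u)]
    rfl
  · have e : H.map ((g.trans g' : V ≃ₗ[ℂ] V'') : V →ₗ[ℂ] V'') =
        (H.map (g : V →ₗ[ℂ] V')).map (g' : V' →ₗ[ℂ] V'') := by
      rw [← Submodule.map_comp]
      rfl
    rw [e, h'.par _ ((mem_arr_map h H).2 hH) j, h.par H hH j]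

/-- `Tp` for the point stabiliser `W_H`, `H` any subspace. -/
theorem tp_pst (h : Tp g W W' k k') (H : Submodule ℂ V) :
    Tp g (pst W H) (pst W' (H.map (g : V →ₗ[ℂ] V'))) k k' := by
  refine ⟨fun u => (mem_pst_map h H u).symm, fun K hK j => ?_⟩
  obtain ⟨s, hs, hr, rfl⟩ := hK
  exact h.par _ ⟨s, pst_le W H hs, hr, rfl⟩ j

/-- an element of `W` preserves `(W,k)`. -/
theorem tp_of_mem {W : Subgroup (V ≃ₗ[ℂ] V)} {k : Submodule ℂ V → ℤ → ℂ} (hk : Adm W k) {w : V ≃ₗ[ℂ] V}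
    (hw : w ∈ W) : Tp w W W k k := by
  refine ⟨fun u => ?_, fun H hH j => hk.inv w hw H hH j⟩
  rw [cj_eq_conj]
  constructor
  · intro hu
    exact W.mul_mem (W.mul_mem hw hu) (W.inv_mem hw)
  · intro hu
    have h1 := W.mul_mem (W.mul_mem (W.inv_mem hw) hu) hw
    have h2 : w⁻¹ * (w * u * w⁻¹) * w = u := by group
    rwa [h2] at h1

theorem tp_of_normalizes {W : Subgroup (V ≃ₗ[ℂ] V)} {k : Submodule ℂ V → ℤ → ℂ} {w : V ≃ₗ[ℂ] V}
    (hw : Normalizes w W) (hk : FixesParam w k) : Tp w W W k k := by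
  refine ⟨fun u => ?_, fun H _ j => hk H j⟩
  rw [cj_eq_conj]
  exact hw u

end

section

variable {V : Type} [AddCommGroup V] [Module ℂ V] [FiniteDimensional ℂ V]
variable {V' : Type} [AddCommGroup V'] [Module ℂ V'] [FiniteDimensional ℂ V']
variable {g : V ≃ₗ[ℂ] V'} {W : Subgroup (V ≃ₗ[ℂ] V)} [Finite W] {W' : Subgroup (V' ≃ₗ[ℂ] V')} [Finite W']
  {k : Submodule ℂ V → ℤ → ℂ} {k' : Submodule ℂ V' → ℤ → ℂ}

/-- sums over `W'_{gH}` are sums over `W_H`. -/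
theorem sum_pstF_map (h : Tp g W W' k k') (H : Submodule ℂ V) {M : Type} [AddCommMonoid M]
    (F : (V' ≃ₗ[ℂ] V') → M) :
    ∑ u ∈ pstF W' (H.map (g : V →ₗ[ℂ] V')), F u = ∑ u ∈ pstF W H, F (cj g u) := by
  refine Finset.sum_nbij' (cj g.symm) (cj g) ?_ ?_ ?_ ?_ ?_
  · intro u hu
    rw [mem_pstF] at hu ⊢
    rw [← mem_pst_map h, cj_cj_symm]
    exact hu
  · intro u hu
    rw [mem_pstF] at hu ⊢
    exact (mem_pst_map h H u).2 hu
  · intro u _
    exact cj_cj_symm g u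
  · intro u _
    exact cj_symm_cj g u
  · intro u _
    rw [cj_cj_symm]

/-- sums over the hyperplanes of `W'` are sums over the hyperplanes of `W`. -/
theorem sum_arrF_map (h : Tp g W W' k k') {M : Type} [AddCommMonoid M] (F : Submodule ℂ V' → M) :
    ∑ H ∈ arrF W', F H = ∑ H ∈ arrF W, F (H.map (g : V →ₗ[ℂ] V')) := by
  refine Finset.sum_nbij' (fun H => H.map (g.symm : V' →ₗ[ℂ] V))
    (fun H => H.map (g : V →ₗ[ℂ] V')) ?_ ?_ ?_ ?_ ?_
  · intro H hH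
    rw [mem_arrF] at hH ⊢
    rw [← mem_arr_map h, cj_map_map_symm]
    exact hH
  · intro H hH
    rw [mem_arrF] at hH ⊢
    exact (mem_arr_map h H).2 hH
  · intro H _
    exact cj_map_map_symm g H
  · intro H _
    exact cj_map_symm_map g H
  · intro H _
    rw [cj_map_map_symm]

theorem projH_map (h : Tp g W W' k k') (H : Submodule ℂ V) (v : V) :
    projH W' (H.map (g : V →ₗ[ℂ] V')) (g v) = g (projH W H v) := by
  unfold projH
  rw [sum_pstF_map h H (fun u => (u : V' →ₗ[ℂ] V')), eH_map h]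
  simp only [LinearMap.sub_apply, LinearMap.smul_apply, LinearMap.id_apply, map_sub, map_smul,
    LinearMap.coe_sum, Finset.sum_apply, map_sum, LinearEquiv.coe_coe, cj_apply,
    LinearEquiv.symm_apply_apply]

theorem kap_map (h : Tp g W W' k k') {H : Submodule ℂ V} (hH : H ∈ arr W) (u : V ≃ₗ[ℂ] V) :
    kap W' k' (H.map (g : V →ₗ[ℂ] V')) (cj g u) = kap W k H u := by
  unfold kap
  rw [eH_map h, dt_cj]
  refine Finset.sum_congr rfl fun j _ => ?_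
  rw [h.par H hH, h.par H hH]

end

end Pool.Agent.CM64
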