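import Pool.Agent.LibCM64.GmF

/-! `SurjR` for `G(m,p,n)`: reduction to the model. -/

set_option linter.unusedSectionVars false

namespace Pool.Agent.CM64

open Module MvPolynomial

section

variable {ι : Type} [Fintype ι] [DecidableEq ι] {m p : ℕ}

/-- the monomial automorphism `e_i ↦ ε_i e_{s i}`. -/
private noncomputable def monE (s : Equiv.Perm ι) (ε : ι → ℂˣ) : (ι → ℂ) ≃ₗ[ℂ] (ι → ℂ) where
  toFun v := fun x => (ε (s.symm x) : ℂ) * v (s.symm x)
  invFun v := fun i => ((ε i)⁻¹ : ℂˣ) * v (s i)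
  map_add' v w := by
    funext x
    simp only [Pi.add_apply]
    ring
  map_smul' c v := by
    funext x
    simp only [Pi.smul_apply, smul_eq_mul, RingHom.id_apply]
    ring
  left_inv v := by
    funext x
    simp
  right_inv v := by
    funext x
    simp

private theorem monE_apply (s : Equiv.Perm ι) (ε : ι → ℂˣ) (v : ι → ℂ) (i : ι) :
    monE s ε v (s i) = (ε i : ℂ) * v i := by
  show (ε (s.symm (s i)) : ℂ) * v (s.symm (s i)) = _
  rw [Equiv.symm_apply_apply]

/-- the reflection `e_i ↦ ζ e_{i'}`, `e_{i'} ↦ ζ⁻¹ e_i`: the hyperplane `v_{i'} = ζ v_i` is in the arrangement. -/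
theorem mem_arr_Gmpn (hm : 0 < m) {i i' : ι} (hne : i ≠ i') {ζ : ℂ} (hζ : ζ ^ m = 1) :
    ∃ H ∈ arr (Gmpn ι m p), ∀ v : ι → ℂ, v ∈ H ↔ v i' = ζ * v i := by
  have hζ0 : ζ ≠ 0 := by
    rintro rfl
    rw [zero_pow hm.ne'] at hζ
    exact zero_ne_one hζ
  let u : ℂˣ := Units.mk0 ζ hζ0
  let ε : ι → ℂˣ := fun x => if x = i then u else if x = i' then u⁻¹ else 1
  have hu : u ^ m = 1 := by
    ext
    rw [Units.val_pow_eq_pow_val, Units.val_one]
    exact hζ
  have hεi : ε i = u := if_pos rfl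
  have hεi' : ε i' = u⁻¹ := by
    show (if i' = i then u else if i' = i' then u⁻¹ else 1) = _
    rw [if_neg hne.symm, if_pos rfl]
  have hεx : ∀ x, x ≠ i → x ≠ i' → ε x = 1 := by
    intro x h1 h2
    show (if x = i then u else if x = i' then u⁻¹ else 1) = _
    rw [if_neg h1, if_neg h2]
  have hprod : ∏ x, ε x = 1 := by
    rw [Finset.prod_eq_mul i i' hne]
    · rw [hεi, hεi', mul_inv_cancel]
    · intro x _ hx
      exact hεx x hx.1 hx.2
    · intro h; exact absurd (Finset.mem_univ i) h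
    · intro h; exact absurd (Finset.mem_univ i') h
  have hmem : monE (Equiv.swap i i') ε ∈ Gmpn ι m p := by
    refine ⟨Equiv.swap i i', ε, fun x => ?_, by rw [hprod, one_pow], fun v x => monE_apply _ _ _ _⟩
    by_cases h1 : x = i
    · rw [h1, hεi, hu]
    · by_cases h2 : x = i'
      · rw [h2, hεi', inv_pow, hu, inv_one]
      · rw [hεx x h1 h2, one_pow]
  -- the fixed space
  have hfix : ∀ v : ι → ℂ, v ∈ fixSub (monE (Equiv.swap i i') ε) ↔ v i' = ζ * v i := by
    intro v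
    rw [mem_fixSub]
    have e1 : monE (Equiv.swap i i') ε v i' = ζ * v i := by
      have h := monE_apply (Equiv.swap i i') ε v i
      rw [Equiv.swap_apply_left, hεi] at h
      exact h
    have e2 : monE (Equiv.swap i i') ε v i = ζ⁻¹ * v i' := by
      have h := monE_apply (Equiv.swap i i') ε v i'
      rw [Equiv.swap_apply_right, hεi'] at h
      rw [h, Units.val_inv_eq_inv_val]
      rfl
    constructor
    · intro h
      rw [← e1, h]
    · intro h
      funext x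
      by_cases h1 : x = i
      · rw [h1, e2, h, ← mul_assoc, inv_mul_cancel₀ hζ0, one_mul]
      · by_cases h2 : x = i'
        · rw [h2, e1, h]
        · have h3 := monE_apply (Equiv.swap i i') ε v x
          rw [Equiv.swap_apply_of_ne_of_ne h1 h2, hεx x h1 h2, Units.val_one, one_mul] at h3
          exact h3
  refine ⟨fixSub (monE (Equiv.swap i i') ε), ⟨_, hmem, ?_, rfl⟩, hfix⟩
  -- it is a hyperplane
  let f : Dual ℂ (ι → ℂ) := LinearMap.proj i' - ζ • LinearMap.proj i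
  have hf : f ≠ 0 := by
    intro h
    have h1 : f (Pi.single i' 1) = 0 := by rw [h]; rfl
    have h2 : f (Pi.single i' 1) = 1 := by
      show (Pi.single i' (1 : ℂ) : ι → ℂ) i' - ζ • (Pi.single i' (1 : ℂ) : ι → ℂ) i = 1
      rw [Pi.single_eq_same, Pi.single_eq_of_ne hne, smul_zero, sub_zero]
    rw [h1] at h2
    exact zero_ne_one h2
  have hker : fixSub (monE (Equiv.swap i i') ε) = LinearMap.ker f := by
    ext v
    rw [hfix, LinearMap.mem_ker]
    show _ ↔ v i' - ζ • v i = 0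
    rw [sub_eq_zero, smul_eq_mul]
  unfold IsRefl
  rw [hker]
  exact Module.Dual.finrank_ker_add_one_of_ne_zero hf

/-- the coordinates of a regular vector have distinct `m`-th powers. -/
theorem regular_distinct (hm : 0 < m) {v : ι → ℂ} (hv : ∀ H ∈ arr (Gmpn ι m p), v ∉ H) {i i' : ι}
    (h : v i ^ m = v i' ^ m) : i = i' := by
  by_contra hne
  by_cases h0 : v i = 0
  · have h1 : v i' = 0 := by
      rw [h0, zero_pow hm.ne'] at h
      exact pow_eq_zero_iff hm.ne' |>.1 h.symm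
    obtain ⟨H, hH, hH'⟩ := mem_arr_Gmpn (p := p) hm hne (ζ := 1) (one_pow m)
    exact hv H hH ((hH' v).2 (by rw [h0, h1, mul_zero]))
  · have hζ : (v i' / v i) ^ m = 1 := by
      rw [div_pow, ← h, div_self (pow_ne_zero m h0)]
    obtain ⟨H, hH, hH'⟩ := mem_arr_Gmpn (p := p) hm hne hζ
    exact hv H hH ((hH' v).2 (by rw [div_mul_cancel₀ _ h0]))

variable {τ : (ι → ℂ) ≃ₗ[ℂ] (ι → ℂ)} {s : Equiv.Perm ι} {θ : ι → ℂ}

/-- a good fixed vector: if `v z = 0` then `s z = z` (`v` has at most one zero coordinate), and if `θ_z = 1` replace `v` by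
`v + t e_z`, `t^m ≠ 0, v_i^m`. -/
theorem exists_good_vector (hm : 0 < m) (hreg : IsRegular (Gmpn ι m p) τ) (hτ : ∀ v i, τ v (s i) = θ i * v i) :
    ∃ v ∈ fixSub τ, (∀ i i', v i ^ m = v i' ^ m → i = i') ∧ ∀ z, v z = 0 → s z = z ∧ θ z ≠ 1 := by
  obtain ⟨v, hvf, hvH⟩ := hreg
  have hdist : ∀ i i', v i ^ m = v i' ^ m → i = i' := fun i i' h => regular_distinct hm hvH h
  have hfix : ∀ i, v (s i) = θ i * v i := by
    intro i
    rw [← hτ, mem_fixSub.1 hvf]
  have hs : ∀ z, v z = 0 → s z = z := by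
    intro z hz
    apply hdist
    rw [hfix z, hz, mul_zero]
  by_cases hbad : ∃ z, v z = 0 ∧ θ z = 1
  · obtain ⟨z, hz, hθ⟩ := hbad
    have hsz := hs z hz
    obtain ⟨y, hy⟩ := Infinite.exists_notMem_finset
      (insert (0 : ℂ) (Finset.univ.image (fun i => v i ^ m)))
    obtain ⟨t, ht⟩ := IsAlgClosed.exists_pow_nat_eq y hm
    rw [Finset.mem_insert, not_or] at hy
    obtain ⟨hy0, hy1⟩ := hy
    have ht0 : t ≠ 0 := by
      rintro rfl
      rw [zero_pow hm.ne'] at ht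
      exact hy0 ht.symm
    have hti : ∀ i, v i ^ m ≠ t ^ m := by
      intro i h
      apply hy1
      rw [← ht, ← h]
      exact Finset.mem_image_of_mem (fun i => v i ^ m) (Finset.mem_univ i)
    have hvz : (Function.update v z t) z = t := Function.update_self _ _ _
    have hvx : ∀ x, x ≠ z → (Function.update v z t) x = v x :=
      fun x hx => Function.update_of_ne hx _ _
    refine ⟨Function.update v z t, ?_, ?_, ?_⟩
    · rw [mem_fixSub]
      funext x
      obtain ⟨i, rfl⟩ := s.surjective x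
      rw [hτ]
      by_cases hi : i = z
      · rw [hi, hsz, hvz, hθ, one_mul]
      · have hsi : s i ≠ z := by
          intro h
          apply hi
          apply s.injective
          rw [h, hsz]
        rw [hvx i hi, hvx _ hsi, hfix i]
    · intro i i' h
      by_cases hi : i = z
      · by_cases hi' : i' = z
        · rw [hi, hi']
        · rw [hi, hvz, hvx i' hi'] at h
          exact absurd h.symm (hti i')
      · by_cases hi' : i' = z
        · rw [hi', hvz, hvx i hi] at h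
          exact absurd h (hti i)
        · rw [hvx i hi, hvx i' hi'] at h
          exact hdist i i' h
    · intro x hx
      exfalso
      by_cases hxz : x = z
      · rw [hxz, hvz] at hx
        exact ht0 hx
      · rw [hvx x hxz] at hx
        apply hxz
        apply hdist
        rw [hx, hz]
  · push Not at hbad
    exact ⟨v, hvf, hdist, fun z hz => ⟨hs z hz, hbad z hz⟩⟩

/-- the decomposition into cycles: `ω = θ_i^m` has order `d`; for `v i ≠ 0`, `s^k i = i` iff `ω^k = 1`; the cycles with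
`v ≠ 0` correspond to the values `a = v_i^{md}`. -/
theorem exists_cycles (hm : 0 < m) {ω : ℂ} (hω : ∀ i, θ i ^ m = ω) {d : ℕ} (hd : 0 < d) (hωd : IsPrimitiveRoot ω d)
    {v : ι → ℂ} (hv : ∀ i, v (s i) = θ i * v i) (hdist : ∀ i i', v i ^ m = v i' ^ m → i = i') :
    ∃ (κ : Type) (_ : Fintype κ) (_ : DecidableEq κ) (rep : κ → ι) (e : (κ × Fin d) ⊕ {z : ι // v z = 0} ≃ ι),
      (∀ j (k : Fin d), e (Sum.inl (j, k)) = (s ^ (k : ℕ)) (rep j)) ∧ (∀ z, e (Sum.inr z) = z.1) ∧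
      (∀ j, v (rep j) ≠ 0) ∧ ∀ j, (s ^ d) (rep j) = rep j := by
  classical
  have hω0 : ω ≠ 0 := by
    intro h
    have := hωd.pow_eq_one
    rw [h, zero_pow hd.ne'] at this
    exact zero_ne_one this
  have hpow : ∀ (k : ℕ) (i : ι), v ((s ^ k) i) ^ m = ω ^ k * v i ^ m := by
    intro k
    induction k with
    | zero => intro i; simp
    | succ k ih =>
      intro i
      rw [pow_succ', Equiv.Perm.mul_apply, hv, mul_pow, hω, ih, pow_succ']
      ring
  let A : Finset ℂ := (Finset.univ.filter (fun i => v i ≠ 0)).image (fun i => v i ^ (m * d))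
  have hA : ∀ a : {a // a ∈ A}, ∃ i, v i ≠ 0 ∧ v i ^ (m * d) = a.1 := by
    rintro ⟨a, ha⟩
    obtain ⟨i, hi, h⟩ := Finset.mem_image.1 ha
    exact ⟨i, (Finset.mem_filter.1 hi).2, h⟩
  choose rep hrep0 hrepA using hA
  have hd0 : NeZero d := ⟨hd.ne'⟩
  let F : ({a // a ∈ A} × Fin d) ⊕ {z : ι // v z = 0} → ι :=
    Sum.elim (fun x => (s ^ (x.2 : ℕ)) (rep x.1)) (fun z => z.1)
  have hF0 : ∀ x : {a // a ∈ A} × Fin d, v (F (Sum.inl x)) ≠ 0 := by
    intro x h
    have h1 := hpow (x.2 : ℕ) (rep x.1)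
    have h2 : v ((s ^ (x.2 : ℕ)) (rep x.1)) = 0 := h
    rw [h2, zero_pow hm.ne'] at h1
    exact mul_ne_zero (pow_ne_zero _ hω0) (pow_ne_zero _ (hrep0 x.1)) h1.symm
  have hinj : Function.Injective F := by
    rintro (⟨j, k⟩ | z) (⟨j', k'⟩ | z') h
    · have h1 : (s ^ (k : ℕ)) (rep j) = (s ^ (k' : ℕ)) (rep j') := h
      have h2 : ω ^ (k : ℕ) * v (rep j) ^ m = ω ^ (k' : ℕ) * v (rep j') ^ m := by
        rw [← hpow, ← hpow, h1]
      have h3 : v (rep j) ^ (m * d) = v (rep j') ^ (m * d) := by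
        have h4 := congrArg (fun x => x ^ d) h2
        simp only [mul_pow, ← pow_mul] at h4
        rw [mul_comm (k : ℕ) d, mul_comm (k' : ℕ) d, pow_mul ω d, pow_mul ω d, hωd.pow_eq_one,
          one_pow, one_pow, one_mul, one_mul] at h4
        exact h4
      have h5 : j = j' := by
        apply Subtype.ext
        rw [← hrepA j, ← hrepA j', h3]
      subst h5
      have h6 : ω ^ (k : ℕ) = ω ^ (k' : ℕ) := mul_right_cancel₀ (pow_ne_zero _ (hrep0 j)) h2
      have h7 := hωd.pow_inj k.2 k'.2 h6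
      rw [Fin.ext h7]
    · exfalso
      have h1 := hF0 (j, k)
      rw [h] at h1
      exact h1 z'.2
    · exfalso
      have h1 := hF0 (j', k')
      rw [← h] at h1
      exact h1 z.2
    · have h1 : z.1 = z'.1 := h
      rw [Subtype.ext h1]
  have hsurj : Function.Surjective F := by
    intro x
    by_cases hx : v x = 0
    · exact ⟨Sum.inr ⟨x, hx⟩, rfl⟩
    · have ha : v x ^ (m * d) ∈ A :=
        Finset.mem_image_of_mem (fun i => v i ^ (m * d))
          (Finset.mem_filter.2 ⟨Finset.mem_univ x, hx⟩)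
      set j : {a // a ∈ A} := ⟨v x ^ (m * d), ha⟩ with hj
      have h1 : v (rep j) ^ (m * d) = v x ^ (m * d) := hrepA j
      have h2 : (v x ^ m / v (rep j) ^ m) ^ d = 1 := by
        rw [div_pow, ← pow_mul, ← pow_mul, h1, div_self (pow_ne_zero _ hx)]
      obtain ⟨k, hk, hk'⟩ := hωd.eq_pow_of_pow_eq_one h2
      refine ⟨Sum.inl (j, ⟨k, hk⟩), ?_⟩
      show (s ^ k) (rep j) = x
      apply hdist
      rw [hpow, hk', div_mul_cancel₀ _ (pow_ne_zero _ (hrep0 j))]
  refine ⟨{a // a ∈ A}, inferInstance, inferInstance, rep, Equiv.ofBijective F ⟨hinj, hsurj⟩,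
    fun j k => rfl, fun z => rfl, hrep0, fun j => ?_⟩
  apply hdist
  rw [hpow, hωd.pow_eq_one, one_mul]

private theorem Gmpn_transport_aux {ι' : Type} [Fintype ι'] [DecidableEq ι'] (hm : 0 < m) (e : ι' ≃ ι) (δ : ι' → ℂ)
    (hδ : ∀ x, δ x ^ m = 1) (g : (ι → ℂ) ≃ₗ[ℂ] (ι' → ℂ)) (hg : ∀ v x, g v x = δ x * v (e x))
    (w : (ι → ℂ) ≃ₗ[ℂ] (ι → ℂ)) (hw : w ∈ Gmpn ι m p) : cj g w ∈ Gmpn ι' m p := by
  obtain ⟨s, ε, h1, h2, h3⟩ := hw
  have hδ0 : ∀ x, δ x ≠ 0 := by
    intro x h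
    have := hδ x
    rw [h, zero_pow hm.ne'] at this
    exact zero_ne_one this
  let D : ι' → ℂˣ := fun x => Units.mk0 (δ x) (hδ0 x)
  have hD : ∀ x, D x ^ m = 1 := by
    intro x
    ext
    rw [Units.val_pow_eq_pow_val, Units.val_one]
    exact hδ x
  let s' : Equiv.Perm ι' := (e.trans s).trans e.symm
  have hs' : ∀ x, e (s' x) = s (e x) := fun x => e.apply_symm_apply _
  refine ⟨s', fun x => D (s' x) * ε (e x) * (D x)⁻¹, fun x => ?_, ?_, fun u x => ?_⟩
  · rw [mul_pow, mul_pow, inv_pow, hD, hD, h1, inv_one, one_mul, one_mul]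
  · rw [Finset.prod_mul_distrib, Finset.prod_mul_distrib, Equiv.prod_comp s' D, Equiv.prod_comp e ε,
      Finset.prod_inv_distrib, mul_comm (∏ x, D x), mul_assoc, mul_inv_cancel, mul_one, h2]
  · rw [cj_apply, hg, hs', h3]
    have h4 := hg (g.symm u) x
    rw [LinearEquiv.apply_symm_apply] at h4
    rw [Units.val_mul, Units.val_mul, Units.val_inv_eq_inv_val]
    show δ (s' x) * ((ε (e x) : ℂ) * g.symm u (e x)) = δ (s' x) * (ε (e x) : ℂ) * (δ x)⁻¹ * u x
    rw [h4]
    have h5 := hδ0 x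
    field_simp

/-- transport of `G(m,p,n)` by reindexing and a diagonal matrix with entries in `μ_m`. -/
theorem Gmpn_transport {ι' : Type} [Fintype ι'] [DecidableEq ι'] (hm : 0 < m) (e : ι' ≃ ι) (δ : ι' → ℂ)
    (hδ : ∀ x, δ x ^ m = 1) (g : (ι → ℂ) ≃ₗ[ℂ] (ι' → ℂ)) (hg : ∀ v x, g v x = δ x * v (e x))
    (w : (ι → ℂ) ≃ₗ[ℂ] (ι → ℂ)) : w ∈ Gmpn ι m p ↔ cj g w ∈ Gmpn ι' m p := by
  refine ⟨Gmpn_transport_aux hm e δ hδ g hg w, fun h => ?_⟩
  have hδ0 : ∀ x, δ x ≠ 0 := by
    intro x h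
    have := hδ x
    rw [h, zero_pow hm.ne'] at this
    exact zero_ne_one this
  have h1 := Gmpn_transport_aux hm e.symm (fun i => (δ (e.symm i))⁻¹)
    (fun i => by rw [inv_pow, hδ, inv_one]) g.symm (fun u i => by
      have h4 := hg (g.symm u) (e.symm i)
      rw [LinearEquiv.apply_symm_apply, Equiv.apply_symm_apply] at h4
      rw [h4, ← mul_assoc, inv_mul_cancel₀ (hδ0 _), one_mul]) (cj g w) h
  have h2 : cj g.symm (cj g w) = w := by
    ext v
    simp [cj_apply]
  rw [h2] at h1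
  exact h1

/-- the transported `τ` is the model: `δ_{(j,k)} = c^k v(rep j) / v(s^k (rep j))`. -/
theorem exists_model (hm : 0 < m) {ω : ℂ} (hω : ∀ i, θ i ^ m = ω) {d : ℕ} (hd : 0 < d)
    {c : ℂ} (hc : c ^ m = ω) (hc0 : c ≠ 0) (hτ : ∀ v i, τ v (s i) = θ i * v i)
    {v : ι → ℂ} (hv : v ∈ fixSub τ) (hz : ∀ z, v z = 0 → s z = z ∧ θ z ≠ 1)
    {κ : Type} [Fintype κ] [DecidableEq κ] (rep : κ → ι) (e : (κ × Fin d) ⊕ {z : ι // v z = 0} ≃ ι)
    (he : ∀ j (k : Fin d), e (Sum.inl (j, k)) = (s ^ (k : ℕ)) (rep j)) (he' : ∀ z, e (Sum.inr z) = z.1)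
    (hrep : ∀ j, v (rep j) ≠ 0) (hcyc : ∀ j, (s ^ d) (rep j) = rep j) :
    ∃ (δ : (κ × Fin d) ⊕ {z : ι // v z = 0} → ℂ) (g : (ι → ℂ) ≃ₗ[ℂ] ((κ × Fin d) ⊕ {z : ι // v z = 0} → ℂ)),
      (∀ x, δ x ^ m = 1) ∧ (∀ u x, g u x = δ x * u (e x)) ∧ IsModel κ {z : ι // v z = 0} d c (cj g τ) := by
  have hfix : ∀ i, v (s i) = θ i * v i := by
    intro i
    rw [← hτ, mem_fixSub.1 hv]
  have hω0 : ω ≠ 0 := by
    rw [← hc]
    exact pow_ne_zero _ hc0
  have hpow : ∀ (k : ℕ) (i : ι), v ((s ^ k) i) ^ m = ω ^ k * v i ^ m := by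
    intro k
    induction k with
    | zero => intro i; simp
    | succ k ih =>
      intro i
      rw [pow_succ', Equiv.Perm.mul_apply, hfix, mul_pow, hω, ih, pow_succ']
      ring
  have hne : ∀ (k : ℕ) (j : κ), v ((s ^ k) (rep j)) ≠ 0 := by
    intro k j h
    have h1 := hpow k (rep j)
    rw [h, zero_pow hm.ne'] at h1
    exact mul_ne_zero (pow_ne_zero _ hω0) (pow_ne_zero _ (hrep j)) h1.symm
  let δ : (κ × Fin d) ⊕ {z : ι // v z = 0} → ℂ :=
    Sum.elim (fun x => c ^ (x.2 : ℕ) * v (rep x.1) / v ((s ^ (x.2 : ℕ)) (rep x.1))) (fun _ => 1)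
  have hδl : ∀ (j : κ) (k : Fin d), δ (Sum.inl (j, k)) = c ^ (k : ℕ) * v (rep j) / v ((s ^ (k : ℕ)) (rep j)) :=
    fun j k => rfl
  have hδr : ∀ z, δ (Sum.inr z) = 1 := fun z => rfl
  have hδm : ∀ x, δ x ^ m = 1 := by
    rintro (⟨j, k⟩ | z)
    · rw [hδl, div_pow, mul_pow, hpow, ← pow_mul, mul_comm (k : ℕ) m, pow_mul, hc]
      exact div_self (mul_ne_zero (pow_ne_zero _ hω0) (pow_ne_zero _ (hrep j)))
    · rw [hδr, one_pow]
  have hδ0 : ∀ x, δ x ≠ 0 := by
    intro x h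
    have := hδm x
    rw [h, zero_pow hm.ne'] at this
    exact zero_ne_one this
  let g : (ι → ℂ) ≃ₗ[ℂ] ((κ × Fin d) ⊕ {z : ι // v z = 0} → ℂ) :=
    { toFun := fun u x => δ x * u (e x)
      invFun := fun u i => (δ (e.symm i))⁻¹ * u (e.symm i)
      map_add' := by
        intro u u'
        funext x
        simp only [Pi.add_apply]
        ring
      map_smul' := by
        intro a u
        funext x
        simp only [Pi.smul_apply, smul_eq_mul, RingHom.id_apply]
        ring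
      left_inv := by
        intro u
        funext i
        show (δ (e.symm i))⁻¹ * (δ (e.symm i) * u (e (e.symm i))) = u i
        rw [← mul_assoc, inv_mul_cancel₀ (hδ0 _), one_mul, Equiv.apply_symm_apply]
      right_inv := by
        intro u
        funext x
        show δ x * ((δ (e.symm (e x)))⁻¹ * u (e.symm (e x))) = u x
        rw [Equiv.symm_apply_apply, ← mul_assoc, mul_inv_cancel₀ (hδ0 _), one_mul] }
  have hg : ∀ u x, g u x = δ x * u (e x) := fun u x => rfl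
  have hgs : ∀ u x, u x = δ x * g.symm u (e x) := by
    intro u x
    rw [← hg, LinearEquiv.apply_symm_apply]
  refine ⟨δ, g, hδm, hg, ?_, ?_, ?_⟩
  · intro u j k hk
    rw [cj_apply, hg, he, hgs u (Sum.inl (j, ⟨k, Nat.lt_of_succ_lt hk⟩)), he, hδl, hδl]
    simp only
    rw [pow_succ' s k, Equiv.Perm.mul_apply, hτ, hfix]
    have h1 := hne k j
    have h2 : θ ((s ^ k) (rep j)) ≠ 0 := by
      intro h
      have h3 := hne (k + 1) j
      rw [pow_succ', Equiv.Perm.mul_apply, hfix, h, zero_mul] at h3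
      exact h3 rfl
    field_simp
    ring
  · intro u j hd'
    rw [cj_apply, hg, he, hgs u (Sum.inl (j, ⟨d - 1, Nat.sub_lt hd Nat.one_pos⟩)), he, hδl, hδl]
    simp only
    rw [pow_zero, pow_zero, Equiv.Perm.one_apply, one_mul, div_self (hrep j), one_mul]
    have h1 : s ((s ^ (d - 1)) (rep j)) = rep j := by
      rw [← Equiv.Perm.mul_apply, ← pow_succ', Nat.sub_add_cancel hd, hcyc]
    have h2 := hτ (g.symm u) ((s ^ (d - 1)) (rep j))
    rw [h1] at h2
    have h3 := hfix ((s ^ (d - 1)) (rep j))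
    rw [h1] at h3
    rw [h2, h3]
    have h4 := hne (d - 1) j
    field_simp
  · intro z
    obtain ⟨h1, h2⟩ := hz z.1 z.2
    refine ⟨θ z.1, h2, fun u => ?_⟩
    rw [cj_apply, hg, hgs u (Sum.inr z), he', hδr, one_mul, one_mul]
    have h3 := hτ (g.symm u) z.1
    rw [h1] at h3
    exact h3

/-- `SurjR` for `G(m,p,n)` and `τ` a scalar multiple of an element of `G(m,1,n)`: `θ_i = a ε_i`, `ω = a^m`, a root of unity since
`τ` has finite order. -/
theorem surjR_Gmpn (hm : 0 < m) (hp : p ∣ m) {τ : (ι → ℂ) ≃ₗ[ℂ] (ι → ℂ)} (hfin : IsOfFinOrder τ)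
    (hreg : IsRegular (Gmpn ι m p) τ) (a : ℂ) (t : (ι → ℂ) ≃ₗ[ℂ] (ι → ℂ)) (ht : t ∈ Gmpn ι m 1)
    (hτ : ∀ v, τ v = a • t v) {ι' : Type} [Fintype ι'] [DecidableEq ι'] (b : Basis ι' ℂ (ι → ℂ))
    {κ : Type} [Fintype κ] [DecidableEq κ] (bU : Basis κ ℂ ↥(fixSub τ)) :
    SurjR (Gmpn ι m p) τ b bU := by
  classical
  rcases isEmpty_or_nonempty ι with hι | hι
  · have h1 : τ = 1 := by
      ext v x
      exact (IsEmpty.false x).elim
    subst h1
    exact surjR_one _ _ _
  obtain ⟨s, ε, hε, _, hs⟩ := ht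
  have hτ' : ∀ v i, τ v (s i) = a * (ε i : ℂ) * v i := by
    intro v i
    rw [hτ, Pi.smul_apply, hs, smul_eq_mul, mul_assoc]
  have hω : ∀ i, (a * (ε i : ℂ)) ^ m = a ^ m := by
    intro i
    have h1 : ((ε i : ℂ)) ^ m = 1 := by
      rw [← Units.val_pow_eq_pow_val, hε, Units.val_one]
    rw [mul_pow, h1, mul_one]
  -- `a ^ m` is a root of unity
  obtain ⟨N, hN, hN'⟩ : ∃ N, 0 < N ∧ (a ^ m) ^ N = 1 := by
    obtain ⟨n, hn, hn'⟩ := isOfFinOrder_iff_pow_eq_one.1 hfin
    have hpow : ∀ (k : ℕ) (v : ι → ℂ) (i : ι), ((τ ^ k) v ((s ^ k) i)) ^ m = (a ^ m) ^ k * v i ^ m := by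
      intro k
      induction k with
      | zero => intro v i; simp
      | succ k ih =>
        intro v i
        rw [pow_succ' τ, pow_succ' s, LinearEquiv.mul_apply, Equiv.Perm.mul_apply, hτ', mul_pow, hω,
          ih, pow_succ']
        ring
    obtain ⟨i0⟩ := hι
    refine ⟨n * orderOf s, Nat.mul_pos hn (orderOf_pos s), ?_⟩
    have h1 := hpow (n * orderOf s) (fun _ => 1) i0
    rw [pow_mul, hn', one_pow, mul_comm n, pow_mul s, pow_orderOf_eq_one, one_pow] at h1
    simp only [LinearEquiv.coe_one, id_eq, one_pow, mul_one] at h1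
    rw [mul_comm]
    exact h1.symm
  set ω : ℂ := a ^ m with hωdef
  have hω0 : ω ≠ 0 := by
    intro h
    rw [h, zero_pow hN.ne'] at hN'
    exact zero_ne_one hN'
  set d : ℕ := orderOf ω with hd'
  have hd : 0 < d := by
    rw [hd', orderOf_pos_iff]
    exact isOfFinOrder_iff_pow_eq_one.2 ⟨N, hN, hN'⟩
  have hωd : IsPrimitiveRoot ω d := IsPrimitiveRoot.orderOf ω
  obtain ⟨v, hv, hdist, hz⟩ := exists_good_vector hm hreg hτ'
  have hvfix : ∀ i, v (s i) = a * (ε i : ℂ) * v i := by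
    intro i
    rw [← hτ', mem_fixSub.1 hv]
  obtain ⟨κ', iF, iD, rep, e, he, he', hrep, hcyc⟩ := exists_cycles hm hω hd hωd hvfix hdist
  obtain ⟨c, hc⟩ := IsAlgClosed.exists_pow_nat_eq ω hm
  have hc0 : c ≠ 0 := by
    rintro rfl
    rw [zero_pow hm.ne'] at hc
    exact hω0 hc.symm
  obtain ⟨δ, g, hδ, hg, hmod⟩ := exists_model hm hω hd hc hc0 hτ' hv hz rep e he he' hrep hcyc
  obtain ⟨bU', hbU'⟩ := exists_basis_model hmod hd hc0
  have hcd : IsPrimitiveRoot (c ^ m) d := by rw [hc]; exact hωd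
  have h1 := surjR_model (m := m) (p := p) hmod (isOfFinOrder_cj g hfin) hm hp hd hcd bU' hbU'
  exact surjR_conj g (Gmpn ι m p) (Gmpn _ m p) (fun w => Gmpn_transport hm e δ hδ g hg w) hfin b bU
    (Pi.basisFun ℂ _) bU' h1

end

section

variable {V : Type} [AddCommGroup V] [Module ℂ V] [FiniteDimensional ℂ V]
variable {A : Type} [AddCommGroup A] [Module ℂ A] [FiniteDimensional ℂ A]

/-- the reflections of `W × 1` are those of `W` (the hyperplanes are `H × A`); so `τ × α` is regular: `(v, 0)`. -/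
theorem isRegular_of_isMono {W : Subgroup (V ≃ₗ[ℂ] V)} {τ : V ≃ₗ[ℂ] V} (hreg : IsRegular W τ) {ι : Type} [Fintype ι]
    [DecidableEq ι] {m p : ℕ} {α : A ≃ₗ[ℂ] A} (g : (V × A) ≃ₗ[ℂ] (ι → ℂ))
    (hg : ∀ w : (ι → ℂ) ≃ₗ[ℂ] (ι → ℂ), w ∈ Gmpn ι m p ↔ ∃ w' ∈ W, ∀ x : V × A, w (g x) = g (w' x.1, x.2))
    (τ' : (ι → ℂ) ≃ₗ[ℂ] (ι → ℂ)) (hτ' : ∀ x : V × A, τ' (g x) = g (τ x.1, α x.2)) :
    IsRegular (Gmpn ι m p) τ' := by
  obtain ⟨v, hv, hvH⟩ := hreg
  refine ⟨g (v, 0), ?_, ?_⟩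
  · rw [mem_fixSub, hτ']
    simp only [map_zero]
    rw [mem_fixSub.1 hv]
  · rintro H ⟨s', hs', hrefl, rfl⟩ hmem
    obtain ⟨w', hw', hww'⟩ := (hg s').1 hs'
    have hmem_iff : ∀ x : V × A, g x ∈ fixSub s' ↔ x.1 ∈ fixSub w' := by
      intro x
      rw [mem_fixSub, mem_fixSub, hww', g.injective.eq_iff]
      constructor
      · intro h
        exact congrArg Prod.fst h
      · intro h
        exact Prod.ext h rfl
    -- dimension
    let E : (↥(fixSub w') × A) ≃ₗ[ℂ] ↥(fixSub s') :=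
      { toFun := fun x => ⟨g (x.1.1, x.2), (hmem_iff _).2 x.1.2⟩
        invFun := fun u => (⟨(g.symm u.1).1, by
          have h := u.2
          rw [← LinearEquiv.apply_symm_apply g u.1, hmem_iff] at h
          exact h⟩, (g.symm u.1).2)
        map_add' := by
          intro x y
          apply Subtype.ext
          show g (x.1.1 + y.1.1, x.2 + y.2) = g (x.1.1, x.2) + g (y.1.1, y.2)
          rw [← map_add]
          rfl
        map_smul' := by
          intro a x
          apply Subtype.ext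
          show g (a • x.1.1, a • x.2) = a • g (x.1.1, x.2)
          rw [← map_smul]
          rfl
        left_inv := by
          intro x
          apply Prod.ext
          · apply Subtype.ext
            show (g.symm (g (x.1.1, x.2))).1 = _
            rw [LinearEquiv.symm_apply_apply]
          · show (g.symm (g (x.1.1, x.2))).2 = _
            rw [LinearEquiv.symm_apply_apply]
        right_inv := by
          intro u
          apply Subtype.ext
          show g ((g.symm u.1).1, (g.symm u.1).2) = u.1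
          exact LinearEquiv.apply_symm_apply g u.1 }
    have h1 : finrank ℂ ↥(fixSub w') + finrank ℂ A = finrank ℂ ↥(fixSub s') := by
      rw [← E.finrank_eq, Module.finrank_prod]
    have h2 : finrank ℂ V + finrank ℂ A = finrank ℂ (ι → ℂ) := by
      rw [← g.finrank_eq, Module.finrank_prod]
    have h3 : finrank ℂ ↥(fixSub s') + 1 = finrank ℂ (ι → ℂ) := hrefl
    have h4 : IsRefl w' := by
      show finrank ℂ ↥(fixSub w') + 1 = finrank ℂ V
      omega
    exact hvH (fixSub w') ⟨w', hw', h4, rfl⟩ ((hmem_iff (v, 0)).1 hmem)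

/-- `surjR_Gmpn` and `surjR_of_summand` (`S v = g (v, 0)`, `P = fst ∘ g⁻¹`). -/
theorem surjR_of_isMono (W : Subgroup (V ≃ₗ[ℂ] V)) {τ : V ≃ₗ[ℂ] V} (hfin : IsOfFinOrder τ) (hreg : IsRegular W τ)
    {ι : Type} [Fintype ι] {m p : ℕ} (hm : 0 < m) (hp : p ∣ m) (h : IsMono W τ A ι m p)
    {ι' : Type} [Fintype ι'] [DecidableEq ι'] (b : Basis ι' ℂ V)
    {κ : Type} [Fintype κ] [DecidableEq κ] (bU : Basis κ ℂ ↥(fixSub τ)) : SurjR W τ b bU := by
  classical
  obtain ⟨α, g, hα, hg, a, t, ht, hτt⟩ := h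
  have hτ0 : ∀ x : V × A, cj g (τ.prodCongr α) (g x) = g (τ x.1, α x.2) := by
    intro x
    rw [cj_apply, LinearEquiv.symm_apply_apply]
    rfl
  have hfin' : IsOfFinOrder (cj g (τ.prodCongr α)) := by
    apply isOfFinOrder_cj
    obtain ⟨n, hn, hn'⟩ := isOfFinOrder_iff_pow_eq_one.1 hfin
    obtain ⟨n', hnn, hnn'⟩ := isOfFinOrder_iff_pow_eq_one.1 hα
    refine isOfFinOrder_iff_pow_eq_one.2 ⟨n * n', Nat.mul_pos hn hnn, ?_⟩
    have hpow : ∀ (k : ℕ) (x : V × A), ((τ.prodCongr α : (V × A) ≃ₗ[ℂ] (V × A)) ^ k) x =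
        ((τ ^ k) x.1, (α ^ k) x.2) := by
      intro k
      induction k with
      | zero => intro x; simp
      | succ k ih =>
        intro x
        rw [pow_succ', LinearEquiv.mul_apply, ih, pow_succ' τ, pow_succ' α, LinearEquiv.mul_apply,
          LinearEquiv.mul_apply]
        rfl
    apply LinearEquiv.ext
    intro x
    rw [hpow, pow_mul τ, hn', one_pow, mul_comm n, pow_mul α, hnn', one_pow]
    rfl
  have hreg' := isRegular_of_isMono hreg g hg (cj g (τ.prodCongr α)) hτ0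
  have hτa : ∀ v, cj g (τ.prodCongr α) v = a • t v := by
    intro v
    have h1 := hτt (g.symm v)
    rw [LinearEquiv.apply_symm_apply] at h1
    rw [← h1, ← hτ0, LinearEquiv.apply_symm_apply]
  have h1 := surjR_Gmpn hm hp hfin' hreg' a t ht hτa (Pi.basisFun ℂ ι)
    (Module.finBasis ℂ ↥(fixSub (cj g (τ.prodCongr α))))
  refine surjR_of_summand W (Gmpn ι m p) hfin hfin'
    ((g : (V × A) →ₗ[ℂ] (ι → ℂ)).comp (LinearMap.inl ℂ V A))
    ((LinearMap.fst ℂ V A).comp (g.symm : (ι → ℂ) →ₗ[ℂ] (V × A)))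
    ?_ ?_ ?_ ?_ ?_ b bU (Pi.basisFun ℂ ι) (Module.finBasis ℂ ↥(fixSub (cj g (τ.prodCongr α)))) h1
  · intro v
    show (g.symm (g (v, 0))).1 = v
    rw [LinearEquiv.symm_apply_apply]
  · intro v
    show cj g (τ.prodCongr α) (g (v, 0)) = g (τ v, 0)
    rw [hτ0]
    simp only [map_zero]
  · intro v
    show (g.symm (cj g (τ.prodCongr α) v)).1 = τ (g.symm v).1
    rw [cj_apply, LinearEquiv.symm_apply_apply]
    rfl
  · intro w hw
    refine ⟨cj g (w.prodCongr (LinearEquiv.refl ℂ A)), (hg _).2 ⟨w, hw, fun x => ?_⟩, fun v => ?_, fun v => ?_⟩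
    · rw [cj_apply, LinearEquiv.symm_apply_apply]
      rfl
    · show cj g (w.prodCongr (LinearEquiv.refl ℂ A)) (g (v, 0)) = g (w v, 0)
      rw [cj_apply, LinearEquiv.symm_apply_apply]
      rfl
    · show (g.symm (cj g (w.prodCongr (LinearEquiv.refl ℂ A)) v)).1 = w (g.symm v).1
      rw [cj_apply, LinearEquiv.symm_apply_apply]
      rfl
  · intro w' hw'
    obtain ⟨w, hw, hww⟩ := (hg w').1 hw'
    refine ⟨w, hw, fun v => ?_, fun v => ?_⟩
    · show w' (g (v, 0)) = g (w v, 0)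
      rw [hww]
    · show (g.symm (w' v)).1 = w (g.symm v).1
      have h2 := hww (g.symm v)
      rw [LinearEquiv.apply_symm_apply] at h2
      rw [h2, LinearEquiv.symm_apply_apply]

end

end Pool.Agent.CM64
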