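import Pool.Agent.LibCM64.GlA

/-! The linear map `λ` and the inclusion of the restrictions of `Z_k(V,W)` in `Z_{λ(k)}(U,G)`. -/

set_option linter.unusedSectionVars false

namespace Pool.Agent.CM64

open Module MvPolynomial

section

variable {V : Type} [AddCommGroup V] [Module ℂ V] [FiniteDimensional ℂ V]

/-- a representative of each `G`-orbit of subspaces. -/
theorem exists_rep (G : Subgroup (V ≃ₗ[ℂ] V)) : ∃ rep : Submodule ℂ V → Submodule ℂ V,
    (∀ H, ∃ g ∈ G, (rep H).map (g : V →ₗ[ℂ] V) = H) ∧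
    ∀ H, ∀ g ∈ G, rep (H.map (g : V →ₗ[ℂ] V)) = rep H := by
  classical
  have hmm : ∀ (H : Submodule ℂ V) (g h : V ≃ₗ[ℂ] V), (H.map (g : V →ₗ[ℂ] V)).map (h : V →ₗ[ℂ] V) =
      H.map ((h * g : V ≃ₗ[ℂ] V) : V →ₗ[ℂ] V) := by
    intro H g h
    rw [← Submodule.map_comp]
    rfl
  have h1 : ∀ H : Submodule ℂ V, H.map ((1 : V ≃ₗ[ℂ] V) : V →ₗ[ℂ] V) = H := by
    intro H
    have : ((1 : V ≃ₗ[ℂ] V) : V →ₗ[ℂ] V) = LinearMap.id := rfl
    rw [this, Submodule.map_id]
  let st : Setoid (Submodule ℂ V) :=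
    { r := fun H H' => ∃ g ∈ G, H.map (g : V →ₗ[ℂ] V) = H'
      iseqv :=
        { refl := fun H => ⟨1, G.one_mem, h1 H⟩
          symm := by
            rintro H _ ⟨g, hg, rfl⟩
            refine ⟨g⁻¹, G.inv_mem hg, ?_⟩
            rw [hmm, inv_mul_cancel, h1]
          trans := by
            rintro H _ _ ⟨g, hg, rfl⟩ ⟨h, hh, rfl⟩
            exact ⟨h * g, G.mul_mem hh hg, (hmm H g h).symm⟩ } }
  refine ⟨fun H => (Quotient.mk st H).out, fun H => ?_, fun H g hg => ?_⟩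
  · exact Quotient.exact (Quotient.out_eq (Quotient.mk st H))
  · have hrel : st.r H (H.map (g : V →ₗ[ℂ] V)) := ⟨g, hg, rfl⟩
    have : Quotient.mk st (H.map (g : V →ₗ[ℂ] V)) = Quotient.mk st H :=
      (Quotient.sound hrel).symm
    simp only
    rw [this]

private theorem glB_tp {G : Subgroup (V ≃ₗ[ℂ] V)} {g : V ≃ₗ[ℂ] V} (hg : g ∈ G) :
    Tp g G G 0 0 := by
  refine ⟨fun u => ?_, fun H _ j => rfl⟩
  rw [cj_eq_conj]
  constructor
  · intro hu
    exact G.mul_mem (G.mul_mem hg hu) (G.inv_mem hg)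
  · intro hu
    have h1 := G.mul_mem (G.mul_mem (G.inv_mem hg) hu) hg
    have h2 : g⁻¹ * (g * u * g⁻¹) * g = u := by group
    rwa [h2] at h1

theorem eH_map_of_mem {G : Subgroup (V ≃ₗ[ℂ] V)} {g : V ≃ₗ[ℂ] V} (hg : g ∈ G) (H : Submodule ℂ V) :
    eH G (H.map (g : V →ₗ[ℂ] V)) = eH G H :=
  eH_map (glB_tp hg) H

/-- construction of parameters: given functionals `ell H i` on a space `K` for every hyperplane `H`, there is a linear map
`K → Param G` with `λ(k)_{H,j} = ell (rep H) (-j mod e_H) / e_H` for `H` a reflecting hyperplane. -/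
theorem exists_lam (G : Subgroup (V ≃ₗ[ℂ] V)) [Finite G] {K : Type} [AddCommGroup K] [Module ℂ K]
    (ell : Submodule ℂ V → ℕ → (K →ₗ[ℂ] ℂ)) (h0 : ∀ H, ell H 0 = 0) (rep : Submodule ℂ V → Submodule ℂ V)
    (hrep : ∀ H, ∀ g ∈ G, rep (H.map (g : V →ₗ[ℂ] V)) = rep H) :
    ∃ lam : K →ₗ[ℂ] ↥(Param G), ∀ k, ∀ H ∈ arr G,
      (lam k : Submodule ℂ V → ℤ → ℂ) H 0 = 0 ∧
      ∀ i < eH G H, (eH G H : ℂ) * (lam k : Submodule ℂ V → ℤ → ℂ) H (-(i : ℤ)) = ell (rep H) i k := by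
  classical
  let f : K → Submodule ℂ V → ℤ → ℂ := fun k H j =>
    if H ∈ arr G then (eH G H : ℂ)⁻¹ * ell (rep H) ((-j) % (eH G H : ℤ)).toNat k else 0
  have hf : ∀ k, f k ∈ Param G := by
    intro k
    refine ⟨fun H hH j => ?_, fun g hg H j => ?_, fun H j => ?_⟩
    · show (if H ∈ arr G then _ else (0 : ℂ)) = 0
      rw [if_neg hH]
    · show (if H.map (g : V →ₗ[ℂ] V) ∈ arr G then _ else (0 : ℂ)) = (if H ∈ arr G then _ else (0 : ℂ))
      rw [eH_map_of_mem hg, hrep H g hg]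
      by_cases hH : H ∈ arr G
      · rw [if_pos hH, if_pos ((mem_arr_map (glB_tp hg) H).2 hH)]
      · rw [if_neg hH, if_neg (fun h => hH ((mem_arr_map (glB_tp hg) H).1 h))]
    · show (if H ∈ arr G then _ else (0 : ℂ)) = (if H ∈ arr G then _ else (0 : ℂ))
      have h1 : (-(j + (eH G H : ℤ))) % (eH G H : ℤ) = (-j) % (eH G H : ℤ) := by
        rw [neg_add, ← sub_eq_add_neg, Int.sub_emod_right]
      rw [h1]
  refine ⟨{ toFun := fun k => ⟨f k, hf k⟩
            map_add' := ?_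
            map_smul' := ?_ }, ?_⟩
  · intro k k'
    apply Subtype.ext
    funext H j
    show (if H ∈ arr G then _ else (0 : ℂ)) =
      (if H ∈ arr G then _ else (0 : ℂ)) + (if H ∈ arr G then _ else (0 : ℂ))
    split_ifs
    · rw [map_add, mul_add]
    · simp
  · intro c k
    apply Subtype.ext
    funext H j
    show (if H ∈ arr G then _ else (0 : ℂ)) = c * (if H ∈ arr G then _ else (0 : ℂ))
    split_ifs
    · rw [map_smul, smul_eq_mul]
      ring
    · simp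
  · intro k H hH
    have he : 0 < eH G H := eH_pos G H
    refine ⟨?_, ?_⟩
    · show (if H ∈ arr G then (eH G H : ℂ)⁻¹ * ell (rep H) ((-(0 : ℤ)) % (eH G H : ℤ)).toNat k
        else 0) = 0
      rw [if_pos hH]
      simp [h0]
    · intro i hi
      show (eH G H : ℂ) * (if H ∈ arr G then
        (eH G H : ℂ)⁻¹ * ell (rep H) ((-(-(i : ℤ))) % (eH G H : ℤ)).toNat k else 0) = _
      rw [if_pos hH, neg_neg, Int.emod_eq_of_lt (by omega) (by omega), Int.toNat_natCast,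
        ← mul_assoc, mul_inv_cancel₀ (by exact_mod_cast he.ne'), one_mul]

end

section

variable {V : Type} [AddCommGroup V] [Module ℂ V] [FiniteDimensional ℂ V]
variable {ι : Type} [Fintype ι] [DecidableEq ι] {κ : Type} [Fintype κ] [DecidableEq κ]

/-- (5.1): there is a linear `λ` such that for all `τ`-stable `k` the restriction to `U × U*` of every element of
`M(W,k)^W` is in `M(G,λ(k))^G` (`mem_Mk_of_Loc` for `G`; at `H' ∈ arr G` move to the representative by `Loc_act` and the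
`G`-invariance of `s`; at the other hyperplanes `rst G H' = 1` and any parameter satisfies the condition). -/
theorem exists_lambda (W : Subgroup (V ≃ₗ[ℂ] V)) [Finite W] (hW : ReflGen W) (τ : V ≃ₗ[ℂ] V)
    (hτ : Normalizes τ W) (hfin : IsOfFinOrder τ) (hreg : IsRegular W τ) (b : Basis ι ℂ V)
    (bU : Basis κ ℂ ↥(fixSub τ)) :
    ∃ lam : ↥(Param W) →ₗ[ℂ] ↥(Param (fixGrp W τ)), ∀ k : ↥(Param W),
      FixesParam τ (k : Submodule ℂ V → ℤ → ℂ) → ∀ z ∈ Mk W (k : Submodule ℂ V → ℤ → ℂ) b, InvA W b z →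
        ∀ s, ResRel τ b bU z s →
          s ∈ Mk (fixGrp W τ) (lam k : Submodule ℂ ↥(fixSub τ) → ℤ → ℂ) bU ∧ InvA (fixGrp W τ) bU s := by
  classical
  obtain ⟨rep, hrep1, hrep2⟩ := exists_rep (fixGrp W τ)
  -- the functionals of the rank one theorem
  have hr1 : ∀ H' : Submodule ℂ ↥(fixSub τ), finrank ℂ H' + 1 = finrank ℂ ↥(fixSub τ) →
      ∃ ell : ℕ → (Kfix W τ →ₗ[ℂ] ℂ), ell 0 = 0 ∧
      ∀ (k : Kfix W τ) (l : Submodule ℂ ↥(fixSub τ) → ℤ → ℂ), Adm (rst (fixGrp W τ) H') l →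
        (∀ i < Nat.card (rst (fixGrp W τ) H'),
          (Nat.card (rst (fixGrp W τ) H') : ℂ) * (l H' 0 - l H' (-(i : ℤ))) = -(ell i k)) →
        ∀ z : Ax ι, z ∈ Mk W (k : Submodule ℂ V → ℤ → ℂ) b → InvA W b z → ∀ s : Ax κ, ResRel τ b bU z s →
          Loc (fixGrp W τ) l bU H' s := fun H' hH' => rank_one_W hW hτ hfin hreg b bU H' hH'
  choose ell hell0 hell using hr1
  have hext : ∀ f : Kfix W τ →ₗ[ℂ] ℂ, ∃ g : (Submodule ℂ V → ℤ → ℂ) →ₗ[ℂ] ℂ,
      g.comp (Kfix W τ).subtype = f := fun f => LinearMap.exists_extend f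
  choose ext hext using hext
  let ellF : Submodule ℂ ↥(fixSub τ) → ℕ → (↥(Param W) →ₗ[ℂ] ℂ) := fun H i =>
    if h : finrank ℂ H + 1 = finrank ℂ ↥(fixSub τ) then
      (if i = 0 then 0 else (ext (ell H h i)).comp (Param W).subtype) else 0
  have hellF0 : ∀ H, ellF H 0 = 0 := by
    intro H
    show (if h : _ then (if (0 : ℕ) = 0 then (0 : ↥(Param W) →ₗ[ℂ] ℂ) else _) else 0) = 0
    by_cases h : finrank ℂ H + 1 = finrank ℂ ↥(fixSub τ)
    · rw [dif_pos h, if_pos rfl]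
    · rw [dif_neg h]
  have hellF : ∀ (H : Submodule ℂ ↥(fixSub τ)) (h : finrank ℂ H + 1 = finrank ℂ ↥(fixSub τ)) (i : ℕ) (k : ↥(Param W))
      (hk : FixesParam τ (k : Submodule ℂ V → ℤ → ℂ)), ellF H i k =
      ell H h i ⟨(k : Submodule ℂ V → ℤ → ℂ), k.2, hk⟩ := by
    intro H h i k hk
    by_cases hi : i = 0
    · subst hi
      rw [hellF0, hell0]
      rfl
    · show (if h : _ then (if i = 0 then (0 : ↥(Param W) →ₗ[ℂ] ℂ) else _) else 0) k = _
      rw [dif_pos h, if_neg hi]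
      have := congrArg (fun f => f ⟨(k : Submodule ℂ V → ℤ → ℂ), k.2, hk⟩) (hext (ell H h i))
      exact this
  obtain ⟨lam, hlam⟩ := exists_lam (fixGrp W τ) ellF hellF0 rep hrep2
  refine ⟨lam, ?_⟩
  intro k hk z hz hzi s hs
  have hinv : InvA (fixGrp W τ) bU s := res_inv hfin hzi hs
  refine ⟨?_, hinv⟩
  have hadm : Adm (fixGrp W τ) (lam k : Submodule ℂ ↥(fixSub τ) → ℤ → ℂ) := adm_of_mem_Param (lam k).2
  refine mem_Mk_of_Loc (fixGrp W τ) _ hadm bU (res_HypDen hreg hz hs) ?_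
  intro H' hH'
  by_cases hA : H' ∈ arr (fixGrp W τ)
  · obtain ⟨g, hg, hgH⟩ := hrep1 H'
    have hrr : rep (rep H') = rep H' := by
      have := hrep2 (rep H') g hg
      rw [hgH] at this
      exact this.symm
    have hA0 : rep H' ∈ arr (fixGrp W τ) := by
      rw [← mem_arr_map (glB_tp hg) (rep H'), hgH]
      exact hA
    have hH0 : finrank ℂ (rep H') + 1 = finrank ℂ ↥(fixSub τ) := by
      obtain ⟨t, _, ht, ht2⟩ := hA0
      rw [← ht2]
      exact ht
    have h1 : Loc (fixGrp W τ) (lam k : Submodule ℂ ↥(fixSub τ) → ℤ → ℂ) bU (rep H') s := by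
      refine hell (rep H') hH0 ⟨(k : Submodule ℂ V → ℤ → ℂ), k.2, hk⟩ _ (adm_rst hadm _) ?_ z hz hzi s hs
      intro i hi
      have hc : Nat.card (rst (fixGrp W τ) (rep H')) = eH (fixGrp W τ) (rep H') := by
        unfold eH
        rw [rst_hyper (fixGrp W τ) hH0]
      rw [hc] at hi ⊢
      have h2 := (hlam k (rep H') hA0).2 i hi
      rw [hrr, hellF (rep H') hH0 i k hk] at h2
      rw [(hlam k (rep H') hA0).1, zero_sub, mul_neg, h2]
    have h3 := Loc_act (fixGrp W τ) _ hadm bU hH0 hg h1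
    rw [hgH, hinv g hg] at h3
    exact h3
  · refine hell H' hH' ⟨(k : Submodule ℂ V → ℤ → ℂ), k.2, hk⟩ _ (adm_rst hadm _) ?_ z hz hzi s hs
    intro i hi
    have hc : Nat.card (rst (fixGrp W τ) H') = 1 := by
      rw [rst_hyper (fixGrp W τ) hH']
      have hbot : pst (fixGrp W τ) H' = ⊥ := by
        rw [Subgroup.eq_bot_iff_forall]
        intro g hg
        by_contra hg1
        exact hA ((mem_arr_iff (fixGrp W τ)).2 ⟨hH', g, hg, hg1⟩)
      rw [hbot]
      exact Nat.card_unique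
    rw [hc] at hi
    have hi0 : i = 0 := by omega
    subst hi0
    rw [hell0]
    simp

end

end Pool.Agent.CM64
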