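import Pool.Agent.LibCM64.MainA
import Pool.Agent.LibCM64.GlB

/-! The component of maximal dimension of the fixed locus; normalisation; Q1. -/

set_option linter.unusedSectionVars false
set_option maxSynthPendingDepth 3

namespace Pool.Agent.CM64

open Module MvPolynomial

section

variable {V : Type} [AddCommGroup V] [Module ℂ V] [FiniteDimensional ℂ V]
variable (W : Subgroup (V ≃ₗ[ℂ] V)) [Finite W] (τ : V ≃ₗ[ℂ] V)

/-- The restriction of polynomial functions `ℂ[V × V*]^W → ℂ[U × U*]^{W^τ}` is surjective. -/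
def Surj : Prop := SurjR W τ (Module.finBasis ℂ V) (Module.finBasis ℂ ↥(fixSub τ))

variable {W τ}

/-- there is at most one component of maximal dimension. -/
theorem IsMaxComp.unique {k : Submodule ℂ V → ℤ → ℂ} {hτ : Normalizes τ W} {hkτ : FixesParam τ k}
    {p q : Ideal (ZZ W k)} (hp : IsMaxComp W τ k hτ hkτ p) (hq : IsMaxComp W τ k hτ hkτ q) : p = q := by
  by_contra hne
  exact lt_asymm (hp.max q hq.minimal (fun h => hne h.symm)) (hq.max p hp.minimal hne)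

/-- `ker_mem_minimalPrimes`, `dim_lt_of_ne`, `dim_ker`. -/
theorem isMaxComp_ker {ι : Type} [Fintype ι] [DecidableEq ι] {κ : Type} [Fintype κ] [DecidableEq κ]
    {k : Submodule ℂ V → ℤ → ℂ} {hk : Adm W k} {b : Basis ι ℂ V} {bU : Basis κ ℂ ↥(fixSub τ)}
    {l : Submodule ℂ ↥(fixSub τ) → ℤ → ℂ} {hl : Adm (fixGrp W τ) l} {φ : ZZ W k →ₐ[ℂ] ZZ (fixGrp W τ) l}
    (hW : ReflGen W) (hτ : Normalizes τ W) (hfin : IsOfFinOrder τ) (hreg : IsRegular W τ)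
    (hkτ : FixesParam τ k) (hφ : IsRes W τ k hk b bU l hl φ) :
    IsMaxComp W τ k hτ hkτ (RingHom.ker φ) := by
  refine ⟨ker_mem_minimalPrimes hW hτ hfin hreg hkτ hφ, fun q hq hne => ?_⟩
  rw [dim_ker hW hτ hfin hreg hkτ hφ]
  exact dim_lt_of_ne hW hτ hfin hreg hkτ hφ q hq hne

/-- `phi_dil`, `phi_pb`. -/
theorem isCMMap_of_isRes {ι : Type} [Fintype ι] [DecidableEq ι] {κ : Type} [Fintype κ] [DecidableEq κ]
    {k : Submodule ℂ V → ℤ → ℂ} {hk : Adm W k} {b : Basis ι ℂ V} {bU : Basis κ ℂ ↥(fixSub τ)}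
    {l : Submodule ℂ ↥(fixSub τ) → ℤ → ℂ} {hl : Adm (fixGrp W τ) l} {φ : ZZ W k →ₐ[ℂ] ZZ (fixGrp W τ) l}
    (hτ : Normalizes τ W) (hfin : IsOfFinOrder τ)
    (hkτ : FixesParam τ k) (hφ : IsRes W τ k hk b bU l hl φ) :
    IsCMMap W τ k hτ hkτ (RingHom.ker φ) l φ := by
  exact ⟨rfl, fun c z => phi_dil hfin hφ c z, fun z z' w hz hz' h => phi_pb hfin hφ hτ hkτ hz hz' h⟩

/-- `exists_lambda` and `exists_phi` (with the bases `Module.finBasis`). -/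
theorem exists_lam_phi (hW : ReflGen W) (hτ : Normalizes τ W) (hfin : IsOfFinOrder τ) (hreg : IsRegular W τ) :
    ∃ lam : ↥(Param W) →ₗ[ℂ] ↥(Param (fixGrp W τ)),
      ∀ (k : ↥(Param W)), FixesParam τ (k : Submodule ℂ V → ℤ → ℂ) →
        ∃ φ : ZZ W (k : Submodule ℂ V → ℤ → ℂ) →ₐ[ℂ]
            ZZ (fixGrp W τ) (lam k : Submodule ℂ ↥(fixSub τ) → ℤ → ℂ),
          IsRes W τ k (adm_of_mem_Param k.2) (Module.finBasis ℂ V) (Module.finBasis ℂ ↥(fixSub τ))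
            (lam k) (adm_of_mem_Param (lam k).2) φ := by
  obtain ⟨lam, hlam⟩ := exists_lambda W hW τ hτ hfin hreg (Module.finBasis ℂ V)
    (Module.finBasis ℂ ↥(fixSub τ))
  refine ⟨lam, fun k hkτ => ?_⟩
  refine exists_phi W τ k (adm_of_mem_Param k.2) (Module.finBasis ℂ V) (Module.finBasis ℂ ↥(fixSub τ))
    (lam k) (adm_of_mem_Param (lam k).2) hreg ?_
  rintro s ⟨z, hz, hr⟩
  exact hlam k hkτ z hz.1 hz.2 s hr

/-- the linear map `λ` and the homomorphisms `φ`. -/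
theorem main_E (hW : ReflGen W) (hτ : Normalizes τ W) (hfin : IsOfFinOrder τ) (hreg : IsRegular W τ) :
    ∃ lam : ↥(Param W) →ₗ[ℂ] ↥(Param (fixGrp W τ)),
      ∀ (k : ↥(Param W)) (hkτ : FixesParam τ (k : Submodule ℂ V → ℤ → ℂ)),
        ∃ φ : ZZ W (k : Submodule ℂ V → ℤ → ℂ) →ₐ[ℂ]
            ZZ (fixGrp W τ) (lam k : Submodule ℂ ↥(fixSub τ) → ℤ → ℂ),
          IsMaxComp W τ k hτ hkτ (RingHom.ker φ) ∧
          ringKrullDim (ZZ W (k : Submodule ℂ V → ℤ → ℂ) ⧸ RingHom.ker φ)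
            = ((2 * finrank ℂ ↥(fixSub τ) : ℕ) : WithBot ℕ∞) ∧
          IsCMMap W τ k hτ hkτ (RingHom.ker φ) (lam k : Submodule ℂ ↥(fixSub τ) → ℤ → ℂ) φ ∧
          (∀ s : ZZ (fixGrp W τ) (lam k : Submodule ℂ ↥(fixSub τ) → ℤ → ℂ), IsIntegral φ.range s) ∧
          (∀ s : ZZ (fixGrp W τ) (lam k : Submodule ℂ ↥(fixSub τ) → ℤ → ℂ),
            ∃ z d : ZZ W (k : Submodule ℂ V → ℤ → ℂ), φ d ≠ 0 ∧ φ d * s = φ z) := by
  obtain ⟨lam, hlam⟩ := exists_lam_phi hW hτ hfin hreg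
  refine ⟨lam, fun k hkτ => ?_⟩
  obtain ⟨φ, hφ⟩ := hlam k hkτ
  exact ⟨φ, isMaxComp_ker hW hτ hfin hreg hkτ hφ, dim_ker hW hτ hfin hreg hkτ hφ,
    isCMMap_of_isRes hτ hfin hkτ hφ, fun s => isIntegral_of_isRes hW hfin hreg hφ s,
    fun s => birational_of_isRes hW hτ hfin hreg hφ s⟩

theorem Q1_of_surj (hW : ReflGen W) (hτ : Normalizes τ W) (hfin : IsOfFinOrder τ) (hreg : IsRegular W τ)
    (hS : Surj W τ) : Q1 W τ hτ := by
  obtain ⟨lam, hlam⟩ := exists_lam_phi hW hτ hfin hreg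
  refine ⟨lam, fun k hkτ => ?_⟩
  obtain ⟨φ, hφ⟩ := hlam k hkτ
  exact ⟨RingHom.ker φ, isMaxComp_ker hW hτ hfin hreg hkτ hφ, φ, isCMMap_of_isRes hτ hfin hkτ hφ,
    surjective_of_surjR hfin hreg hφ hS⟩

/-- the converse: at `k = 0`, `λ(0) = 0`. The component is unique, so its prime is the kernel of the map `φ₀` of
`exists_lam_phi` (for `k = 0`, with `λ₀(0) = 0`), and `Z_0/p` is isomorphic to `Z_0(U,G)`, which is integrally closed; as
`Z_0(U,G)` is integral and birational over the image of `φ₀`, `φ₀` is surjective (`surjective_of_ker_eq`); this is `SurjR`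
(`surjR_of_surjective`). -/
theorem surj_of_Q1 (hW : ReflGen W) (hτ : Normalizes τ W) (hfin : IsOfFinOrder τ) (hreg : IsRegular W τ)
    (hQ : Q1 W τ hτ) : Surj W τ := by
  obtain ⟨lam, hlam⟩ := exists_lam_phi hW hτ hfin hreg
  obtain ⟨lam', hlam'⟩ := hQ
  have h0 : FixesParam τ ((0 : ↥(Param W)) : Submodule ℂ V → ℤ → ℂ) := fun _ _ => rfl
  obtain ⟨φ₀, hφ₀⟩ := hlam 0 h0
  obtain ⟨p, hp, φ₁, hφ₁, hsur⟩ := hlam' 0 h0
  have hpe : p = RingHom.ker φ₀ := hp.unique (isMaxComp_ker hW hτ hfin hreg h0 hφ₀)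
  have := ZZ_isDomain (W := fixGrp W τ) (lam 0 : Submodule ℂ ↥(fixSub τ) → ℤ → ℂ)
    (adm_of_mem_Param (lam 0).2)
  have := ZZ_isDomain (W := fixGrp W τ) (lam' 0 : Submodule ℂ ↥(fixSub τ) → ℤ → ℂ)
    (adm_of_mem_Param (lam' 0).2)
  have := ZZ_isIntegrallyClosed (W := fixGrp W τ) (lam' 0 : Submodule ℂ ↥(fixSub τ) → ℤ → ℂ)
    (adm_of_mem_Param (lam' 0).2)
  have hs : Function.Surjective φ₀ :=
    surjective_of_ker_eq φ₀ φ₁ (fun s => isIntegral_of_isRes hW hfin hreg hφ₀ s)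
      (fun s => birational_of_isRes hW hτ hfin hreg hφ₀ s) hsur (hφ₁.ker.trans hpe)
  exact surjR_of_surjective hfin hφ₀ rfl (by rw [map_zero]; rfl) hs

end

end Pool.Agent.CM64
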