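import Pool.Agent.LibCM64.Defs

/-! The groups `G(m,p,n)`; the triples `(V, W, τ)` for which Q1 is proved. -/

set_option linter.unusedSectionVars false

namespace Pool.Agent.CM64

open Module

section

/-- The group `G(m,p,n)` (`p` divides `m`) acting on `ℂ^ι`, `n = |ι|`: monomial matrices `e_i ↦ ε_i e_{s i}` with
`ε_i^m = 1` and `(∏ ε_i)^{m/p} = 1`. -/
def Gmpn (ι : Type) [Fintype ι] (m p : ℕ) : Subgroup ((ι → ℂ) ≃ₗ[ℂ] (ι → ℂ)) where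
  carrier := {g | ∃ (s : Equiv.Perm ι) (ε : ι → ℂˣ), (∀ i, ε i ^ m = 1) ∧ (∏ i, ε i) ^ (m / p) = 1 ∧
    ∀ v i, g v (s i) = (ε i : ℂ) * v i}
  mul_mem' := by
    rintro g g' ⟨s, ε, h1, h2, h3⟩ ⟨s', ε', h1', h2', h3'⟩
    refine ⟨s * s', fun i => ε (s' i) * ε' i, fun i => ?_, ?_, fun v i => ?_⟩
    · rw [mul_pow, h1, h1', one_mul]
    · rw [Finset.prod_mul_distrib, Equiv.prod_comp s' ε, mul_pow, h2, h2', one_mul]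
    · rw [LinearEquiv.mul_apply, Equiv.Perm.mul_apply, h3, h3', Units.val_mul, mul_assoc]
  one_mem' := ⟨1, 1, fun i => one_pow _, by simp, fun v i => by simp⟩
  inv_mem' := by
    rintro g ⟨s, ε, h1, h2, h3⟩
    refine ⟨s⁻¹, fun i => (ε (s⁻¹ i))⁻¹, fun i => ?_, ?_, fun v i => ?_⟩
    · rw [inv_pow, h1, inv_one]
    · rw [Equiv.prod_comp s⁻¹ (fun i => (ε i)⁻¹), Finset.prod_inv_distrib, inv_pow, h2, inv_one]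
    · have h4 := h3 (g⁻¹ v) (s⁻¹ i)
      have h5 : g (g⁻¹ v) = v := by rw [← LinearEquiv.mul_apply, mul_inv_cancel]; rfl
      rw [h5, show s (s⁻¹ i) = i from s.apply_symm_apply i] at h4
      rw [h4, Units.val_inv_eq_inv_val, ← mul_assoc, inv_mul_cancel₀ (Units.ne_zero _), one_mul]

end

section

variable {V : Type} [AddCommGroup V] [Module ℂ V]
variable {A : Type} [AddCommGroup A] [Module ℂ A]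

/-- `(V, W, τ)` is a summand of type `G(m,p,n)`: `V × A ≃ ℂ^ι` such that `W × 1` becomes `G(m,p,n)` and `τ × α` becomes a scalar
multiple of an element of `G(m,1,n)`. (`A = 0`: `W = G(m,p,n)`; `m = 1`, `A = ℂ`: `W = 𝔖_n` acting on `ℂ^{n-1}`.) -/
def IsMono (W : Subgroup (V ≃ₗ[ℂ] V)) (τ : V ≃ₗ[ℂ] V) (A : Type) [AddCommGroup A] [Module ℂ A] (ι : Type) [Fintype ι]
    (m p : ℕ) : Prop :=
  ∃ (α : A ≃ₗ[ℂ] A) (g : (V × A) ≃ₗ[ℂ] (ι → ℂ)), IsOfFinOrder α ∧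
    (∀ w : (ι → ℂ) ≃ₗ[ℂ] (ι → ℂ), w ∈ Gmpn ι m p ↔
      ∃ w' ∈ W, ∀ x : V × A, w (g x) = g (w' x.1, x.2)) ∧
    ∃ (a : ℂ) (t : (ι → ℂ) ≃ₗ[ℂ] (ι → ℂ)), t ∈ Gmpn ι m 1 ∧ ∀ x : V × A, g (τ x.1, α x.2) = a • t (g x)

end

section

variable {V : Type} [AddCommGroup V] [Module ℂ V]
variable {V₁ : Type} [AddCommGroup V₁] [Module ℂ V₁]
variable {V₂ : Type} [AddCommGroup V₂] [Module ℂ V₂]

/-- `(V,W,τ)` is the product of `(V₁,W₁,τ₁)` and `(V₂,W₂,τ₂)`. -/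
def IsProd (W : Subgroup (V ≃ₗ[ℂ] V)) (τ : V ≃ₗ[ℂ] V) (W₁ : Subgroup (V₁ ≃ₗ[ℂ] V₁)) (τ₁ : V₁ ≃ₗ[ℂ] V₁)
    (W₂ : Subgroup (V₂ ≃ₗ[ℂ] V₂)) (τ₂ : V₂ ≃ₗ[ℂ] V₂) : Prop :=
  ∃ g : (V₁ × V₂) ≃ₗ[ℂ] V, (∀ w : V ≃ₗ[ℂ] V, w ∈ W ↔ ∃ w₁ ∈ W₁, ∃ w₂ ∈ W₂, ∀ x : V₁ × V₂, w (g x) = g (w₁ x.1, w₂ x.2)) ∧
    ∀ x : V₁ × V₂, τ (g x) = g (τ₁ x.1, τ₂ x.2)

/-- `(V,W,τ)`: `W` is the product of `l` copies of `W₁`, cyclically permuted by `τ`, `τ^l` is `σ` on the first factor. -/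
def IsCyc (W : Subgroup (V ≃ₗ[ℂ] V)) (τ : V ≃ₗ[ℂ] V) (W₁ : Subgroup (V₁ ≃ₗ[ℂ] V₁)) (σ : V₁ ≃ₗ[ℂ] V₁) (l : ℕ) : Prop :=
  ∃ g : (Fin (l + 1) → V₁) ≃ₗ[ℂ] V, (∀ w : V ≃ₗ[ℂ] V, w ∈ W ↔
      ∃ u : Fin (l + 1) → (V₁ ≃ₗ[ℂ] V₁), (∀ i, u i ∈ W₁) ∧ ∀ x, w (g x) = g (fun i => u i (x i))) ∧
    ∀ x : Fin (l + 1) → V₁, τ (g x) = g (Fin.cons (σ (x (Fin.last l))) (fun i : Fin l => x i.castSucc))

end

/-- The triples `(V,W,τ)` covered: `dim V^τ ≤ 1`; `dim V ≤ 2`; `τ = 1`; `G(m,p,n)` (and `𝔖_n` on `ℂ^{n-1}`) with `τ` a scalar multiple of an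
element of `G(m,1,n)`; products of such triples; cyclically permuted copies of such triples. -/
inductive Cov : (V : Type) → [AddCommGroup V] → [Module ℂ V] → Subgroup (V ≃ₗ[ℂ] V) → (V ≃ₗ[ℂ] V) → Prop
  | line {V : Type} [AddCommGroup V] [Module ℂ V] [FiniteDimensional ℂ V] (W : Subgroup (V ≃ₗ[ℂ] V)) [Finite W]
      (τ : V ≃ₗ[ℂ] V) (hW : ReflGen W) (hτ : Normalizes τ W) (hfin : IsOfFinOrder τ) (hreg : IsRegular W τ)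
      (h : finrank ℂ ↥(fixSub τ) ≤ 1) : Cov V W τ
  | plane {V : Type} [AddCommGroup V] [Module ℂ V] [FiniteDimensional ℂ V] (W : Subgroup (V ≃ₗ[ℂ] V)) [Finite W]
      (τ : V ≃ₗ[ℂ] V) (hW : ReflGen W) (hτ : Normalizes τ W) (hfin : IsOfFinOrder τ) (hreg : IsRegular W τ)
      (h : finrank ℂ V ≤ 2) : Cov V W τ
  | one {V : Type} [AddCommGroup V] [Module ℂ V] [FiniteDimensional ℂ V] (W : Subgroup (V ≃ₗ[ℂ] V)) : Cov V W 1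
  | mono {V : Type} [AddCommGroup V] [Module ℂ V] [FiniteDimensional ℂ V] (W : Subgroup (V ≃ₗ[ℂ] V))
      (τ : V ≃ₗ[ℂ] V) (hfin : IsOfFinOrder τ) (hreg : IsRegular W τ) {A : Type} [AddCommGroup A] [Module ℂ A]
      [FiniteDimensional ℂ A] {ι : Type} [Fintype ι] {m p : ℕ} (hm : 0 < m) (hp : p ∣ m)
      (h : IsMono W τ A ι m p) : Cov V W τ
  | prod {V : Type} [AddCommGroup V] [Module ℂ V] [FiniteDimensional ℂ V] (W : Subgroup (V ≃ₗ[ℂ] V))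
      (τ : V ≃ₗ[ℂ] V) {V₁ : Type} [AddCommGroup V₁] [Module ℂ V₁] [FiniteDimensional ℂ V₁]
      (W₁ : Subgroup (V₁ ≃ₗ[ℂ] V₁)) [Finite W₁] (τ₁ : V₁ ≃ₗ[ℂ] V₁)
      {V₂ : Type} [AddCommGroup V₂] [Module ℂ V₂] [FiniteDimensional ℂ V₂]
      (W₂ : Subgroup (V₂ ≃ₗ[ℂ] V₂)) [Finite W₂] (τ₂ : V₂ ≃ₗ[ℂ] V₂)
      (h : IsProd W τ W₁ τ₁ W₂ τ₂) (h₁ : Cov V₁ W₁ τ₁) (h₂ : Cov V₂ W₂ τ₂) : Cov V W τ
  | cyc {V : Type} [AddCommGroup V] [Module ℂ V] [FiniteDimensional ℂ V] (W : Subgroup (V ≃ₗ[ℂ] V))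
      (τ : V ≃ₗ[ℂ] V) {V₁ : Type} [AddCommGroup V₁] [Module ℂ V₁] [FiniteDimensional ℂ V₁]
      (W₁ : Subgroup (V₁ ≃ₗ[ℂ] V₁)) (σ : V₁ ≃ₗ[ℂ] V₁) {l : ℕ}
      (h : IsCyc W τ W₁ σ l) (h₁ : Cov V₁ W₁ σ) : Cov V W τ

end Pool.Agent.CM64
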