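import Pool.Agent.LibCM64.SurjT
import Pool.Agent.LibCM64.CovDefs

/-! `SurjR` for products and for cyclically permuted factors. -/

set_option linter.unusedSectionVars false

namespace Pool.Agent.CM64

open Module MvPolynomial


section Mix

variable {E : Type} [AddCommGroup E] [Module ℂ E] [FiniteDimensional ℂ E]
variable {E' : Type} [AddCommGroup E'] [Module ℂ E'] [FiniteDimensional ℂ E']
variable {E'' : Type} [AddCommGroup E''] [Module ℂ E''] [FiniteDimensional ℂ E'']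
variable {α : Type} [Fintype α] [DecidableEq α] {α' : Type} [Fintype α'] [DecidableEq α']
variable {α'' : Type} [Fintype α''] [DecidableEq α'']

/-- functions are pulled back along `P`, vectors pushed along `S`. -/
private noncomputable def prodA_mx (b : Basis α ℂ E) (b' : Basis α' ℂ E') (P : E' →ₗ[ℂ] E) (S : E →ₗ[ℂ] E') :
    Rx α →ₐ[ℂ] Rx α' :=
  MvPolynomial.aevalTower ((Algebra.algHom ℂ (Px α') (Rx α')).comp (pbP b' b P)) (fun i => yR b' (S (b i)))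

private theorem prodA_mx_C (b : Basis α ℂ E) (b' : Basis α' ℂ E') (P : E' →ₗ[ℂ] E) (S : E →ₗ[ℂ] E') (p : Px α) :
    prodA_mx b b' P S (C p) = C (pbP b' b P p) := by
  rw [prodA_mx, MvPolynomial.aevalTower_C]; rfl

private theorem prodA_mx_X (b : Basis α ℂ E) (b' : Basis α' ℂ E') (P : E' →ₗ[ℂ] E) (S : E →ₗ[ℂ] E') (i : α) :
    prodA_mx b b' P S (X i) = yR b' (S (b i)) := by
  rw [prodA_mx, MvPolynomial.aevalTower_X]

private theorem prodA_mx_yR (b : Basis α ℂ E) (b' : Basis α' ℂ E') (P : E' →ₗ[ℂ] E) (S : E →ₗ[ℂ] E') (v : E) :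
    prodA_mx b b' P S (yR b v) = yR b' (S v) := by
  have h := b.sum_repr v
  conv_rhs => rw [← h]
  rw [yR_apply, map_sum, map_sum, map_sum]
  refine Finset.sum_congr rfl (fun i _ => ?_)
  rw [map_smul, prodA_mx_X, map_smul, map_smul]

private theorem prodA_pbP_pbP (b : Basis α ℂ E) (b' : Basis α' ℂ E') (b'' : Basis α'' ℂ E'') (P : E' →ₗ[ℂ] E)
    (P' : E'' →ₗ[ℂ] E') (p : Px α) : pbP b'' b' P' (pbP b' b P p) = pbP b'' b (P.comp P') p := by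
  apply evP_ext b''
  intro v
  rw [evP_pbP, evP_pbP, evP_pbP]
  rfl

private theorem prodA_mx_comp (b : Basis α ℂ E) (b' : Basis α' ℂ E') (b'' : Basis α'' ℂ E'')
    (P : E' →ₗ[ℂ] E) (S : E →ₗ[ℂ] E') (P' : E'' →ₗ[ℂ] E') (S' : E' →ₗ[ℂ] E'') (r : Rx α) :
    prodA_mx b' b'' P' S' (prodA_mx b b' P S r) = prodA_mx b b'' (P.comp P') (S'.comp S) r := by
  have h : (prodA_mx b' b'' P' S').comp (prodA_mx b b' P S) = prodA_mx b b'' (P.comp P') (S'.comp S) := by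
    apply algHom_Rx_ext
    · intro c
      rw [AlgHom.comp_apply, prodA_mx_C, prodA_mx_C, prodA_mx_C, prodA_pbP_pbP]
    · intro i
      rw [AlgHom.comp_apply, prodA_mx_X, prodA_mx_yR, prodA_mx_X]
      rfl
  exact congrArg (fun f => f r) h

private theorem prodA_trR (b : Basis α ℂ E) (b' : Basis α' ℂ E') (g : E ≃ₗ[ℂ] E') (r : Rx α) :
    trR b b' g r = prodA_mx b b' (g.symm : E' →ₗ[ℂ] E) (g : E →ₗ[ℂ] E') r := rfl

private theorem prodA_resR {τ : E ≃ₗ[ℂ] E} (b : Basis α ℂ E) (bU : Basis α' ℂ ↥(fixSub τ)) (r : Rx α) :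
    resR τ b bU r = prodA_mx b bU (fixSub τ).subtype (projT τ) r := rfl

private theorem prodA_projT_unique {τ : E ≃ₗ[ℂ] E} (hfin : IsOfFinOrder τ) (φ : E →ₗ[ℂ] ↥(fixSub τ))
    (h1 : ∀ v, φ (τ v) = φ v) (h2 : ∀ u : ↥(fixSub τ), φ (u : E) = u) : φ = projT τ := by
  apply LinearMap.ext
  intro v
  have hpow : ∀ j : ℕ, φ ((τ ^ j : E ≃ₗ[ℂ] E) v) = φ v := by
    intro j
    induction j with
    | zero => rfl
    | succ j ih => rw [pow_succ', LinearEquiv.mul_apply, h1, ih]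
  have hm : (orderOf τ : ℂ) ≠ 0 := by
    exact_mod_cast (orderOf_pos_iff.2 hfin).ne'
  have h3 : φ (avgT τ v) = φ v := by
    rw [avgT, LinearMap.smul_apply, LinearMap.sum_apply, map_smul, map_sum]
    have h4 : ∀ j ∈ Finset.range (orderOf τ), φ (((τ ^ j : E ≃ₗ[ℂ] E) : E →ₗ[ℂ] E) v) = φ v := fun j _ => hpow j
    rw [Finset.sum_congr rfl h4, Finset.sum_const, Finset.card_range, ← Nat.cast_smul_eq_nsmul ℂ, smul_smul,
      inv_mul_cancel₀ hm, one_smul]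
  have h5 := h2 (projT τ v)
  rw [projT_apply_coe, h3] at h5
  exact h5

/-- the restriction of a commuting map to the fixed space. -/
private noncomputable def prodA_restr {τ : E ≃ₗ[ℂ] E} (w : E ≃ₗ[ℂ] E) (hw : w * τ = τ * w) :
    ↥(fixSub τ) ≃ₗ[ℂ] ↥(fixSub τ) :=
  LinearEquiv.ofLinearMap
    (LinearMap.codRestrict (fixSub τ) ((w : E →ₗ[ℂ] E).comp (fixSub τ).subtype) (fun u => by
      have h : (τ * w) (u : E) = (w * τ) (u : E) := by rw [hw]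
      have h' : τ (w (u : E)) = w (τ (u : E)) := h
      rw [mem_fixSub.1 u.2] at h'
      exact h'))
    (LinearMap.codRestrict (fixSub τ) ((w.symm : E →ₗ[ℂ] E).comp (fixSub τ).subtype) (fun u => by
      have h : (τ * w) (w.symm (u : E)) = (w * τ) (w.symm (u : E)) := by rw [hw]
      have h' : τ (w (w.symm (u : E))) = w (τ (w.symm (u : E))) := h
      rw [LinearEquiv.apply_symm_apply, mem_fixSub.1 u.2] at h'
      show τ (w.symm (u : E)) = w.symm (u : E)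
      conv_rhs => rw [h']
      rw [LinearEquiv.symm_apply_apply]))
    (by
      apply LinearMap.ext; intro u; apply Subtype.ext
      show w (w.symm (u : E)) = u
      rw [LinearEquiv.apply_symm_apply])
    (by
      apply LinearMap.ext; intro u; apply Subtype.ext
      show w.symm (w (u : E)) = u
      rw [LinearEquiv.symm_apply_apply])

private theorem prodA_restr_coe {τ : E ≃ₗ[ℂ] E} (w : E ≃ₗ[ℂ] E) (hw : w * τ = τ * w) (u : ↥(fixSub τ)) :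
    ((prodA_restr w hw u : ↥(fixSub τ)) : E) = w (u : E) := rfl

private theorem prodA_restr_symm_coe {τ : E ≃ₗ[ℂ] E} (w : E ≃ₗ[ℂ] E) (hw : w * τ = τ * w) (u : ↥(fixSub τ)) :
    (((prodA_restr w hw).symm u : ↥(fixSub τ)) : E) = w.symm (u : E) := rfl

/-- the orbit sum is invariant. -/
private theorem prodA_sum_inv (G : Subgroup (E ≃ₗ[ℂ] E)) [Fintype G] (b : Basis α ℂ E) (r : Rx α) :
    ∀ h ∈ G, trR b b h (∑ g : G, trR b b (g : E ≃ₗ[ℂ] E) r) = ∑ g : G, trR b b (g : E ≃ₗ[ℂ] E) r := by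
  intro h hh
  rw [map_sum]
  refine Fintype.sum_equiv (Equiv.mulLeft (⟨h, hh⟩ : G)) _ _ (fun g => ?_)
  rw [trR_trans_apply]
  rfl

end Mix

section

variable {V : Type} [AddCommGroup V] [Module ℂ V] [FiniteDimensional ℂ V]
variable {V₁ : Type} [AddCommGroup V₁] [Module ℂ V₁] [FiniteDimensional ℂ V₁]
variable {V₂ : Type} [AddCommGroup V₂] [Module ℂ V₂] [FiniteDimensional ℂ V₂]
variable {ι : Type} [Fintype ι] [DecidableEq ι] {κ : Type} [Fintype κ] [DecidableEq κ]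
variable {ι₁ : Type} [Fintype ι₁] [DecidableEq ι₁] {κ₁ : Type} [Fintype κ₁] [DecidableEq κ₁]
variable {ι₂ : Type} [Fintype ι₂] [DecidableEq ι₂] {κ₂ : Type} [Fintype κ₂] [DecidableEq κ₂]

private theorem prodA_pow_prod {τ : V ≃ₗ[ℂ] V} {τ₁ : V₁ ≃ₗ[ℂ] V₁} {τ₂ : V₂ ≃ₗ[ℂ] V₂} (g : (V₁ × V₂) ≃ₗ[ℂ] V)
    (hτ : ∀ x : V₁ × V₂, τ (g x) = g (τ₁ x.1, τ₂ x.2)) (n : ℕ) :
    ∀ x : V₁ × V₂, (τ ^ n) (g x) = g ((τ₁ ^ n) x.1, (τ₂ ^ n) x.2) := by
  induction n with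
  | zero => intro x; rfl
  | succ n ih =>
    intro x
    rw [pow_succ, LinearEquiv.mul_apply, hτ, ih, pow_succ, pow_succ]
    rfl

private theorem prodA_fin_prod {τ : V ≃ₗ[ℂ] V} {τ₁ : V₁ ≃ₗ[ℂ] V₁} {τ₂ : V₂ ≃ₗ[ℂ] V₂} (g : (V₁ × V₂) ≃ₗ[ℂ] V)
    (hτ : ∀ x : V₁ × V₂, τ (g x) = g (τ₁ x.1, τ₂ x.2)) : IsOfFinOrder τ ↔ IsOfFinOrder τ₁ ∧ IsOfFinOrder τ₂ := by
  constructor
  · intro h
    obtain ⟨n, hn, h1⟩ := isOfFinOrder_iff_pow_eq_one.1 h
    constructor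
    · refine isOfFinOrder_iff_pow_eq_one.2 ⟨n, hn, ?_⟩
      apply LinearEquiv.ext
      intro x
      have h2 := prodA_pow_prod g hτ n (x, 0)
      rw [h1] at h2
      have h3 : g (x, 0) = g ((τ₁ ^ n) x, (τ₂ ^ n) 0) := h2
      have h4 := g.injective h3
      exact (congrArg Prod.fst h4).symm
    · refine isOfFinOrder_iff_pow_eq_one.2 ⟨n, hn, ?_⟩
      apply LinearEquiv.ext
      intro x
      have h2 := prodA_pow_prod g hτ n (0, x)
      rw [h1] at h2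
      have h3 : g (0, x) = g ((τ₁ ^ n) 0, (τ₂ ^ n) x) := h2
      have h4 := g.injective h3
      exact (congrArg Prod.snd h4).symm
  · rintro ⟨h₁, h₂⟩
    obtain ⟨n, hn, h1⟩ := isOfFinOrder_iff_pow_eq_one.1 h₁
    obtain ⟨m, hm, h2⟩ := isOfFinOrder_iff_pow_eq_one.1 h₂
    refine isOfFinOrder_iff_pow_eq_one.2 ⟨n * m, Nat.mul_pos hn hm, ?_⟩
    apply LinearEquiv.ext
    intro v
    obtain ⟨x, rfl⟩ := g.surjective v
    rw [prodA_pow_prod g hτ, pow_mul, h1, one_pow, mul_comm n m, pow_mul, h2, one_pow]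
    rfl

private theorem prodA_pow_cyc {τ : V ≃ₗ[ℂ] V} {σ : V₁ ≃ₗ[ℂ] V₁} {l : ℕ} (g : (Fin (l + 1) → V₁) ≃ₗ[ℂ] V)
    (hτ : ∀ x : Fin (l + 1) → V₁, τ (g x) = g (Fin.cons (σ (x (Fin.last l))) (fun i : Fin l => x i.castSucc))) (k : ℕ)
    (hk : k ≤ l + 1) (x : Fin (l + 1) → V₁) :
    (τ ^ k) (g x) = g (fun i => if h : (i : ℕ) < k then σ (x ⟨l + 1 - k + i, by omega⟩)
      else x ⟨i - k, by omega⟩) := by
  induction k with
  | zero =>
    have h0 : (τ ^ 0 : V ≃ₗ[ℂ] V) (g x) = g x := rfl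
    rw [h0]
    apply congrArg g
    funext i
    rw [dif_neg (Nat.not_lt_zero _)]
    rfl
  | succ k ih =>
    rw [pow_succ', LinearEquiv.mul_apply, ih (by omega), hτ]
    congr 1
    funext i
    refine Fin.cases ?_ (fun j => ?_) i
    · rw [Fin.cons_zero, dif_neg (by rw [Fin.val_last]; omega), dif_pos (by rw [Fin.val_zero]; omega)]
      congr 2
      apply Fin.ext
      show (Fin.last l : ℕ) - k = l + 1 - (k + 1) + ((0 : Fin (l + 1)) : ℕ)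
      rw [Fin.val_last, Fin.val_zero]
      omega
    · rw [Fin.cons_succ]
      by_cases hj : (j : ℕ) < k
      · rw [dif_pos (by rw [Fin.val_castSucc]; exact hj), dif_pos (by rw [Fin.val_succ]; omega)]
        congr 2
        apply Fin.ext
        show l + 1 - k + (j.castSucc : ℕ) = l + 1 - (k + 1) + (j.succ : ℕ)
        rw [Fin.val_castSucc, Fin.val_succ]
        omega
      · rw [dif_neg (by rw [Fin.val_castSucc]; exact hj), dif_neg (by rw [Fin.val_succ]; omega)]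
        congr 1
        apply Fin.ext
        show (j.castSucc : ℕ) - k = (j.succ : ℕ) - (k + 1)
        rw [Fin.val_castSucc, Fin.val_succ]
        omega

private theorem prodA_pow_cyc' {τ : V ≃ₗ[ℂ] V} {σ : V₁ ≃ₗ[ℂ] V₁} {l : ℕ} (g : (Fin (l + 1) → V₁) ≃ₗ[ℂ] V)
    (hτ : ∀ x : Fin (l + 1) → V₁, τ (g x) = g (Fin.cons (σ (x (Fin.last l))) (fun i : Fin l => x i.castSucc)))
    (x : Fin (l + 1) → V₁) : (τ ^ (l + 1)) (g x) = g (fun i => σ (x i)) := by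
  rw [prodA_pow_cyc g hτ (l + 1) le_rfl x]
  congr 1
  funext i
  rw [dif_pos i.2]
  congr 2
  apply Fin.ext
  show l + 1 - (l + 1) + (i : ℕ) = i
  omega

private theorem prodA_pow_cyc'' {τ : V ≃ₗ[ℂ] V} {σ : V₁ ≃ₗ[ℂ] V₁} {l : ℕ} (g : (Fin (l + 1) → V₁) ≃ₗ[ℂ] V)
    (hτ : ∀ x : Fin (l + 1) → V₁, τ (g x) = g (Fin.cons (σ (x (Fin.last l))) (fun i : Fin l => x i.castSucc)))
    (n : ℕ) : ∀ (x : Fin (l + 1) → V₁), (τ ^ ((l + 1) * n)) (g x) = g (fun i => (σ ^ n) (x i)) := by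
  induction n with
  | zero => intro x; rfl
  | succ n ih =>
    intro x
    rw [Nat.mul_succ, pow_add, LinearEquiv.mul_apply, prodA_pow_cyc' g hτ, ih, pow_succ]
    rfl

private theorem prodA_fin_cyc {τ : V ≃ₗ[ℂ] V} {σ : V₁ ≃ₗ[ℂ] V₁} {l : ℕ} (g : (Fin (l + 1) → V₁) ≃ₗ[ℂ] V)
    (hτ : ∀ x : Fin (l + 1) → V₁, τ (g x) = g (Fin.cons (σ (x (Fin.last l))) (fun i : Fin l => x i.castSucc))) :
    IsOfFinOrder τ ↔ IsOfFinOrder σ := by
  constructor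
  · intro h
    obtain ⟨n, hn, h1⟩ := isOfFinOrder_iff_pow_eq_one.1 h
    refine isOfFinOrder_iff_pow_eq_one.2 ⟨n, hn, ?_⟩
    apply LinearEquiv.ext
    intro v
    have h2 := prodA_pow_cyc'' g hτ n (fun _ => v)
    rw [mul_comm, pow_mul, h1, one_pow] at h2
    have h3 : g (fun _ : Fin (l + 1) => v) = g (fun _ => (σ ^ n) v) := h2
    have h4 := congrFun (g.injective h3) 0
    exact h4.symm
  · intro h
    obtain ⟨n, hn, h1⟩ := isOfFinOrder_iff_pow_eq_one.1 h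
    refine isOfFinOrder_iff_pow_eq_one.2 ⟨(l + 1) * n, Nat.mul_pos (Nat.succ_pos l) hn, ?_⟩
    apply LinearEquiv.ext
    intro v
    obtain ⟨x, rfl⟩ := g.surjective v
    rw [prodA_pow_cyc'' g hτ, h1]
    rfl


/-- the product. `U = g(U₁ × U₂)`, `G` contains the `g (g₁ × g₂) g⁻¹`. The ring `Rx κ` is spanned by the products
`A₁ p₁ * A₂ p₂` of the pull backs of polynomials on `U₁ × U₁*`, `U₂ × U₂*`; average over `G₁` and `G₂` (finite groups) and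
lift. -/
theorem surjR_prod {W : Subgroup (V ≃ₗ[ℂ] V)} {τ : V ≃ₗ[ℂ] V} {W₁ : Subgroup (V₁ ≃ₗ[ℂ] V₁)} [Finite W₁]
    {τ₁ : V₁ ≃ₗ[ℂ] V₁} {W₂ : Subgroup (V₂ ≃ₗ[ℂ] V₂)} [Finite W₂] {τ₂ : V₂ ≃ₗ[ℂ] V₂}
    (hfin : IsOfFinOrder τ) (h : IsProd W τ W₁ τ₁ W₂ τ₂)
    (b₁ : Basis ι₁ ℂ V₁) (bU₁ : Basis κ₁ ℂ ↥(fixSub τ₁)) (h₁ : SurjR W₁ τ₁ b₁ bU₁)
    (b₂ : Basis ι₂ ℂ V₂) (bU₂ : Basis κ₂ ℂ ↥(fixSub τ₂)) (h₂ : SurjR W₂ τ₂ b₂ bU₂)
    (b : Basis ι ℂ V) (bU : Basis κ ℂ ↥(fixSub τ)) : SurjR W τ b bU := by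
  classical
  obtain ⟨g, hW, hτ⟩ := h
  obtain ⟨hf₁, hf₂⟩ := (prodA_fin_prod g hτ).1 hfin
  have := Fintype.ofFinite ↥(fixGrp W₁ τ₁)
  have := Fintype.ofFinite ↥(fixGrp W₂ τ₂)
  -- maps
  let S₁ : V₁ →ₗ[ℂ] V := (g : (V₁ × V₂) →ₗ[ℂ] V).comp (LinearMap.inl ℂ V₁ V₂)
  let S₂ : V₂ →ₗ[ℂ] V := (g : (V₁ × V₂) →ₗ[ℂ] V).comp (LinearMap.inr ℂ V₁ V₂)
  let P₁ : V →ₗ[ℂ] V₁ := (LinearMap.fst ℂ V₁ V₂).comp (g.symm : V →ₗ[ℂ] (V₁ × V₂))
  let P₂ : V →ₗ[ℂ] V₂ := (LinearMap.snd ℂ V₁ V₂).comp (g.symm : V →ₗ[ℂ] (V₁ × V₂))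
  have hS₁ : ∀ x, S₁ x = g (x, 0) := fun x => rfl
  have hS₂ : ∀ x, S₂ x = g (0, x) := fun x => rfl
  have hP₁ : ∀ x, P₁ (g x) = x.1 := by
    intro x
    show (g.symm (g x)).1 = x.1
    rw [LinearEquiv.symm_apply_apply]
  have hP₂ : ∀ x, P₂ (g x) = x.2 := by
    intro x
    show (g.symm (g x)).2 = x.2
    rw [LinearEquiv.symm_apply_apply]
  have hdec : ∀ v, v = S₁ (P₁ v) + S₂ (P₂ v) := by
    intro v
    obtain ⟨x, rfl⟩ := g.surjective v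
    rw [hP₁, hP₂, hS₁, hS₂, ← map_add]
    congr 1
    ext <;> simp
  have hmS₁ : ∀ u : ↥(fixSub τ₁), (S₁.comp (fixSub τ₁).subtype) u ∈ fixSub τ := by
    intro u
    show τ (g ((u : V₁), 0)) = g ((u : V₁), 0)
    rw [hτ]
    show g (τ₁ (u : V₁), τ₂ 0) = _
    rw [mem_fixSub.1 u.2, map_zero]
  have hmS₂ : ∀ u : ↥(fixSub τ₂), (S₂.comp (fixSub τ₂).subtype) u ∈ fixSub τ := by
    intro u
    show τ (g (0, (u : V₂))) = g (0, (u : V₂))
    rw [hτ]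
    show g (τ₁ 0, τ₂ (u : V₂)) = _
    rw [mem_fixSub.1 u.2, map_zero]
  have hPτ₁ : ∀ v, P₁ (τ v) = τ₁ (P₁ v) := by
    intro v
    obtain ⟨x, rfl⟩ := g.surjective v
    rw [hτ, hP₁, hP₁]
  have hPτ₂ : ∀ v, P₂ (τ v) = τ₂ (P₂ v) := by
    intro v
    obtain ⟨x, rfl⟩ := g.surjective v
    rw [hτ, hP₂, hP₂]
  have hmP₁ : ∀ u : ↥(fixSub τ), (P₁.comp (fixSub τ).subtype) u ∈ fixSub τ₁ := by
    intro u
    show τ₁ (P₁ (u : V)) = P₁ (u : V)
    rw [← hPτ₁, mem_fixSub.1 u.2]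
  have hmP₂ : ∀ u : ↥(fixSub τ), (P₂.comp (fixSub τ).subtype) u ∈ fixSub τ₂ := by
    intro u
    show τ₂ (P₂ (u : V)) = P₂ (u : V)
    rw [← hPτ₂, mem_fixSub.1 u.2]
  let s₁ : ↥(fixSub τ₁) →ₗ[ℂ] ↥(fixSub τ) := LinearMap.codRestrict (fixSub τ) (S₁.comp (fixSub τ₁).subtype) hmS₁
  let s₂ : ↥(fixSub τ₂) →ₗ[ℂ] ↥(fixSub τ) := LinearMap.codRestrict (fixSub τ) (S₂.comp (fixSub τ₂).subtype) hmS₂
  let p₁ : ↥(fixSub τ) →ₗ[ℂ] ↥(fixSub τ₁) := LinearMap.codRestrict (fixSub τ₁) (P₁.comp (fixSub τ).subtype) hmP₁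
  let p₂ : ↥(fixSub τ) →ₗ[ℂ] ↥(fixSub τ₂) := LinearMap.codRestrict (fixSub τ₂) (P₂.comp (fixSub τ).subtype) hmP₂
  have hs₁ : ∀ u : ↥(fixSub τ₁), ((s₁ u : ↥(fixSub τ)) : V) = S₁ (u : V₁) := fun u => rfl
  have hs₂ : ∀ u : ↥(fixSub τ₂), ((s₂ u : ↥(fixSub τ)) : V) = S₂ (u : V₂) := fun u => rfl
  have hp₁ : ∀ u : ↥(fixSub τ), ((p₁ u : ↥(fixSub τ₁)) : V₁) = P₁ (u : V) := fun u => rfl
  have hp₂ : ∀ u : ↥(fixSub τ), ((p₂ u : ↥(fixSub τ₂)) : V₂) = P₂ (u : V) := fun u => rfl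
  have hdecU : ∀ u : ↥(fixSub τ), u = s₁ (p₁ u) + s₂ (p₂ u) := by
    intro u
    apply Subtype.ext
    exact hdec (u : V)
  -- the projection
  have hproj : (s₁.comp ((projT τ₁).comp P₁) + s₂.comp ((projT τ₂).comp P₂)) = projT τ := by
    apply prodA_projT_unique hfin
    · intro v
      show s₁ (projT τ₁ (P₁ (τ v))) + s₂ (projT τ₂ (P₂ (τ v))) = s₁ (projT τ₁ (P₁ v)) + s₂ (projT τ₂ (P₂ v))
      rw [hPτ₁, hPτ₂, projT_tau hf₁, projT_tau hf₂]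
    · intro u
      show s₁ (projT τ₁ (P₁ (u : V))) + s₂ (projT τ₂ (P₂ (u : V))) = u
      rw [← hp₁, ← hp₂, projT_of_mem hf₁, projT_of_mem hf₂, ← hdecU]
  have hproj₁ : (projT τ).comp S₁ = s₁.comp (projT τ₁) := by
    apply LinearMap.ext
    intro x
    rw [← hproj]
    show s₁ (projT τ₁ (P₁ (S₁ x))) + s₂ (projT τ₂ (P₂ (S₁ x))) = s₁ (projT τ₁ x)
    rw [hS₁, hP₁, hP₂, map_zero, map_zero, add_zero]
  have hproj₂ : (projT τ).comp S₂ = s₂.comp (projT τ₂) := by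
    apply LinearMap.ext
    intro x
    rw [← hproj]
    show s₁ (projT τ₁ (P₁ (S₂ x))) + s₂ (projT τ₂ (P₂ (S₂ x))) = s₂ (projT τ₂ x)
    rw [hS₂, hP₁, hP₂, map_zero, map_zero, zero_add]
  -- the ring maps
  let A₁ : Rx κ₁ →ₐ[ℂ] Rx κ := prodA_mx bU₁ bU p₁ s₁
  let A₂ : Rx κ₂ →ₐ[ℂ] Rx κ := prodA_mx bU₂ bU p₂ s₂
  let B₁ : Rx ι₁ →ₐ[ℂ] Rx ι := prodA_mx b₁ b P₁ S₁
  let B₂ : Rx ι₂ →ₐ[ℂ] Rx ι := prodA_mx b₂ b P₂ S₂
  have hres₁ : ∀ q, resR τ b bU (B₁ q) = A₁ (resR τ₁ b₁ bU₁ q) := by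
    intro q
    show resR τ b bU (prodA_mx b₁ b P₁ S₁ q) = prodA_mx bU₁ bU p₁ s₁ (resR τ₁ b₁ bU₁ q)
    rw [prodA_resR, prodA_resR, prodA_mx_comp, prodA_mx_comp, hproj₁]
    rfl
  have hres₂ : ∀ q, resR τ b bU (B₂ q) = A₂ (resR τ₂ b₂ bU₂ q) := by
    intro q
    show resR τ b bU (prodA_mx b₂ b P₂ S₂ q) = prodA_mx bU₂ bU p₂ s₂ (resR τ₂ b₂ bU₂ q)
    rw [prodA_resR, prodA_resR, prodA_mx_comp, prodA_mx_comp, hproj₂]
    rfl
  -- invariance of the lifts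
  have hinv : ∀ w ∈ W, ∀ q₁ : Rx ι₁, (∀ w ∈ W₁, trR b₁ b₁ w q₁ = q₁) → ∀ q₂ : Rx ι₂,
      (∀ w ∈ W₂, trR b₂ b₂ w q₂ = q₂) → trR b b w (B₁ q₁ * B₂ q₂) = B₁ q₁ * B₂ q₂ := by
    intro w hw q₁ hq₁ q₂ hq₂
    obtain ⟨w₁, hw₁, w₂, hw₂, hww⟩ := (hW w).1 hw
    have e₁ : trR b b w (B₁ q₁) = B₁ q₁ := by
      have h1 : trR b b w (B₁ q₁) = B₁ (trR b₁ b₁ w₁ q₁) := by
        show trR b b w (prodA_mx b₁ b P₁ S₁ q₁) = prodA_mx b₁ b P₁ S₁ (trR b₁ b₁ w₁ q₁)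
        rw [prodA_trR, prodA_trR, prodA_mx_comp, prodA_mx_comp]
        have h2 : P₁.comp (w.symm : V →ₗ[ℂ] V) = (w₁.symm : V₁ →ₗ[ℂ] V₁).comp P₁ := by
          apply LinearMap.ext
          intro v
          obtain ⟨v', rfl⟩ := w.surjective v
          obtain ⟨x, rfl⟩ := g.surjective v'
          show P₁ (w.symm (w (g x))) = w₁.symm (P₁ (w (g x)))
          rw [LinearEquiv.symm_apply_apply, hww, hP₁, hP₁, LinearEquiv.symm_apply_apply]
        have h3 : (w : V →ₗ[ℂ] V).comp S₁ = S₁.comp (w₁ : V₁ →ₗ[ℂ] V₁) := by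
          apply LinearMap.ext
          intro x
          show w (g (x, 0)) = g (w₁ x, 0)
          rw [hww, map_zero]
        rw [h2, h3]
      rw [h1, hq₁ w₁ hw₁]
    have e₂ : trR b b w (B₂ q₂) = B₂ q₂ := by
      have h1 : trR b b w (B₂ q₂) = B₂ (trR b₂ b₂ w₂ q₂) := by
        show trR b b w (prodA_mx b₂ b P₂ S₂ q₂) = prodA_mx b₂ b P₂ S₂ (trR b₂ b₂ w₂ q₂)
        rw [prodA_trR, prodA_trR, prodA_mx_comp, prodA_mx_comp]
        have h2 : P₂.comp (w.symm : V →ₗ[ℂ] V) = (w₂.symm : V₂ →ₗ[ℂ] V₂).comp P₂ := by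
          apply LinearMap.ext
          intro v
          obtain ⟨v', rfl⟩ := w.surjective v
          obtain ⟨x, rfl⟩ := g.surjective v'
          show P₂ (w.symm (w (g x))) = w₂.symm (P₂ (w (g x)))
          rw [LinearEquiv.symm_apply_apply, hww, hP₂, hP₂, LinearEquiv.symm_apply_apply]
        have h3 : (w : V →ₗ[ℂ] V).comp S₂ = S₂.comp (w₂ : V₂ →ₗ[ℂ] V₂) := by
          apply LinearMap.ext
          intro x
          show w (g (0, x)) = g (0, w₂ x)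
          rw [hww, map_zero]
        rw [h2, h3]
      rw [h1, hq₂ w₂ hw₂]
    rw [map_mul, e₁, e₂]
  -- the group of `U` contains the products
  have hgrp : ∀ g₁ ∈ fixGrp W₁ τ₁, ∀ g₂ ∈ fixGrp W₂ τ₂, ∃ γ ∈ fixGrp W τ,
      (∀ r, trR bU bU γ (A₁ r) = A₁ (trR bU₁ bU₁ g₁ r)) ∧ ∀ r, trR bU bU γ (A₂ r) = A₂ (trR bU₂ bU₂ g₂ r) := by
    rintro g₁ ⟨w₁, hw₁, hc₁, hg₁⟩ g₂ ⟨w₂, hw₂, hc₂, hg₂⟩
    let w : V ≃ₗ[ℂ] V := (g.symm.trans (LinearEquiv.prodCongr w₁ w₂)).trans g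
    have hwg : ∀ x : V₁ × V₂, w (g x) = g (w₁ x.1, w₂ x.2) := by
      intro x
      show g (LinearEquiv.prodCongr w₁ w₂ (g.symm (g x))) = _
      rw [LinearEquiv.symm_apply_apply]
      rfl
    have hwW : w ∈ W := (hW w).2 ⟨w₁, hw₁, w₂, hw₂, hwg⟩
    have hc : w * τ = τ * w := by
      apply LinearEquiv.ext
      intro v
      obtain ⟨x, rfl⟩ := g.surjective v
      show w (τ (g x)) = τ (w (g x))
      rw [hτ, hwg, hwg, hτ]
      have e1 : w₁ (τ₁ x.1) = τ₁ (w₁ x.1) := by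
        have := congrArg (fun f : V₁ ≃ₗ[ℂ] V₁ => f x.1) hc₁
        exact this
      have e2 : w₂ (τ₂ x.2) = τ₂ (w₂ x.2) := by
        have := congrArg (fun f : V₂ ≃ₗ[ℂ] V₂ => f x.2) hc₂
        exact this
      show g (w₁ (τ₁ x.1), w₂ (τ₂ x.2)) = g (τ₁ (w₁ x.1), τ₂ (w₂ x.2))
      rw [e1, e2]
    have hPw₁ : ∀ v, P₁ (w v) = w₁ (P₁ v) := by
      intro v
      obtain ⟨x, rfl⟩ := g.surjective v
      rw [hwg, hP₁, hP₁]
    have hPw₂ : ∀ v, P₂ (w v) = w₂ (P₂ v) := by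
      intro v
      obtain ⟨x, rfl⟩ := g.surjective v
      rw [hwg, hP₂, hP₂]
    refine ⟨prodA_restr w hc, ⟨w, hwW, hc, fun u => rfl⟩, ?_, ?_⟩
    · intro r
      show trR bU bU (prodA_restr w hc) (prodA_mx bU₁ bU p₁ s₁ r) = prodA_mx bU₁ bU p₁ s₁ (trR bU₁ bU₁ g₁ r)
      rw [prodA_trR, prodA_trR, prodA_mx_comp, prodA_mx_comp]
      have h2 : p₁.comp ((prodA_restr w hc).symm : ↥(fixSub τ) →ₗ[ℂ] ↥(fixSub τ))
          = (g₁.symm : ↥(fixSub τ₁) →ₗ[ℂ] ↥(fixSub τ₁)).comp p₁ := by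
        apply LinearMap.ext
        intro u
        obtain ⟨u', rfl⟩ := (prodA_restr w hc).surjective u
        show p₁ ((prodA_restr w hc).symm (prodA_restr w hc u')) = g₁.symm (p₁ (prodA_restr w hc u'))
        rw [LinearEquiv.symm_apply_apply, eq_comm, LinearEquiv.symm_apply_eq]
        apply Subtype.ext
        rw [hg₁, hp₁, hp₁, prodA_restr_coe, hPw₁]
      have h3 : ((prodA_restr w hc : ↥(fixSub τ) ≃ₗ[ℂ] ↥(fixSub τ)) : ↥(fixSub τ) →ₗ[ℂ] ↥(fixSub τ)).comp s₁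
          = s₁.comp (g₁ : ↥(fixSub τ₁) →ₗ[ℂ] ↥(fixSub τ₁)) := by
        apply LinearMap.ext
        intro u
        apply Subtype.ext
        show w (g ((u : V₁), 0)) = g (((g₁ u : ↥(fixSub τ₁)) : V₁), 0)
        rw [hwg, hg₁, map_zero]
      rw [h2, h3]
    · intro r
      show trR bU bU (prodA_restr w hc) (prodA_mx bU₂ bU p₂ s₂ r) = prodA_mx bU₂ bU p₂ s₂ (trR bU₂ bU₂ g₂ r)
      rw [prodA_trR, prodA_trR, prodA_mx_comp, prodA_mx_comp]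
      have h2 : p₂.comp ((prodA_restr w hc).symm : ↥(fixSub τ) →ₗ[ℂ] ↥(fixSub τ))
          = (g₂.symm : ↥(fixSub τ₂) →ₗ[ℂ] ↥(fixSub τ₂)).comp p₂ := by
        apply LinearMap.ext
        intro u
        obtain ⟨u', rfl⟩ := (prodA_restr w hc).surjective u
        show p₂ ((prodA_restr w hc).symm (prodA_restr w hc u')) = g₂.symm (p₂ (prodA_restr w hc u'))
        rw [LinearEquiv.symm_apply_apply, eq_comm, LinearEquiv.symm_apply_eq]
        apply Subtype.ext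
        rw [hg₂, hp₂, hp₂, prodA_restr_coe, hPw₂]
      have h3 : ((prodA_restr w hc : ↥(fixSub τ) ≃ₗ[ℂ] ↥(fixSub τ)) : ↥(fixSub τ) →ₗ[ℂ] ↥(fixSub τ)).comp s₂
          = s₂.comp (g₂ : ↥(fixSub τ₂) →ₗ[ℂ] ↥(fixSub τ₂)) := by
        apply LinearMap.ext
        intro u
        apply Subtype.ext
        show w (g (0, (u : V₂))) = g (0, ((g₂ u : ↥(fixSub τ₂)) : V₂))
        rw [hwg, hg₂, map_zero]
      rw [h2, h3]
  -- the products span
  have hspan : ∀ r : Rx κ, r ∈ (Algebra.TensorProduct.productMap A₁ A₂).range := by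
    have hA₁ : ∀ x, A₁ x ∈ (Algebra.TensorProduct.productMap A₁ A₂).range := by
      intro x
      refine ⟨x ⊗ₜ[ℂ] 1, ?_⟩
      show Algebra.TensorProduct.productMap A₁ A₂ (x ⊗ₜ[ℂ] 1) = A₁ x
      rw [Algebra.TensorProduct.productMap_apply_tmul, map_one, mul_one]
    have hA₂ : ∀ x, A₂ x ∈ (Algebra.TensorProduct.productMap A₁ A₂).range := by
      intro x
      refine ⟨1 ⊗ₜ[ℂ] x, ?_⟩
      show Algebra.TensorProduct.productMap A₁ A₂ (1 ⊗ₜ[ℂ] x) = A₂ x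
      rw [Algebra.TensorProduct.productMap_apply_tmul, map_one, one_mul]
    have hfun : ∀ c : Px κ, (C c : Rx κ) ∈ (Algebra.TensorProduct.productMap A₁ A₂).range := by
      intro c
      induction c using MvPolynomial.induction_on with
      | C a => exact Subalgebra.algebraMap_mem _ a
      | add p q hp hq =>
        rw [C_add]
        exact Subalgebra.add_mem _ hp hq
      | mul_X p j hp =>
        rw [C_mul]
        refine Subalgebra.mul_mem _ hp ?_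
        have e1 : bU.coord j = ((bU.coord j).comp s₁).comp p₁ + ((bU.coord j).comp s₂).comp p₂ := by
          apply LinearMap.ext
          intro u
          show bU.coord j u = bU.coord j (s₁ (p₁ u)) + bU.coord j (s₂ (p₂ u))
          rw [← map_add, ← hdecU]
        have e2 : (C (X j : Px κ) : Rx κ) = A₁ (C (xl bU₁ ((bU.coord j).comp s₁)))
            + A₂ (C (xl bU₂ ((bU.coord j).comp s₂))) := by
          show _ = prodA_mx bU₁ bU p₁ s₁ (C (xl bU₁ ((bU.coord j).comp s₁)))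
            + prodA_mx bU₂ bU p₂ s₂ (C (xl bU₂ ((bU.coord j).comp s₂)))
          rw [prodA_mx_C, prodA_mx_C, pbP_xl, pbP_xl, ← C_add, ← map_add, ← e1, xl_coord]
        rw [e2]
        exact Subalgebra.add_mem _ (hA₁ _) (hA₂ _)
    intro r
    induction r using MvPolynomial.induction_on with
    | C a => exact hfun a
    | add p q hp hq => exact Subalgebra.add_mem _ hp hq
    | mul_X p j hp =>
      refine Subalgebra.mul_mem _ hp ?_
      have e2 : (X j : Rx κ) = A₁ (yR bU₁ (p₁ (bU j))) + A₂ (yR bU₂ (p₂ (bU j))) := by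
        show _ = prodA_mx bU₁ bU p₁ s₁ (yR bU₁ (p₁ (bU j))) + prodA_mx bU₂ bU p₂ s₂ (yR bU₂ (p₂ (bU j)))
        rw [prodA_mx_yR, prodA_mx_yR, ← map_add, ← hdecU, yR_basis]
      rw [e2]
      exact Subalgebra.add_mem _ (hA₁ _) (hA₂ _)
  -- lifting the orbit sums
  have hlift : ∀ t : TensorProduct ℂ (Rx κ₁) (Rx κ₂), ∃ q : Rx ι, (∀ w ∈ W, trR b b w q = q) ∧
      resR τ b bU q = ∑ x : ↥(fixGrp W₁ τ₁), ∑ y : ↥(fixGrp W₂ τ₂),
        Algebra.TensorProduct.productMap (A₁.comp (trR bU₁ bU₁ (x : ↥(fixSub τ₁) ≃ₗ[ℂ] ↥(fixSub τ₁))))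
          (A₂.comp (trR bU₂ bU₂ (y : ↥(fixSub τ₂) ≃ₗ[ℂ] ↥(fixSub τ₂)))) t := by
    intro t
    induction t using TensorProduct.induction_on with
    | zero =>
      refine ⟨0, fun w _ => map_zero _, ?_⟩
      simp only [map_zero, Finset.sum_const_zero]
    | tmul x y =>
      obtain ⟨q₁, hq₁, hr₁⟩ := h₁ _ (prodA_sum_inv (fixGrp W₁ τ₁) bU₁ x)
      obtain ⟨q₂, hq₂, hr₂⟩ := h₂ _ (prodA_sum_inv (fixGrp W₂ τ₂) bU₂ y)
      refine ⟨B₁ q₁ * B₂ q₂, fun w hw => hinv w hw q₁ hq₁ q₂ hq₂, ?_⟩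
      rw [map_mul, hres₁, hres₂, hr₁, hr₂, map_sum, map_sum, Finset.sum_mul_sum]
      refine Finset.sum_congr rfl (fun i _ => Finset.sum_congr rfl (fun j _ => ?_))
      rw [Algebra.TensorProduct.productMap_apply_tmul]
      rfl
    | add x y hx hy =>
      obtain ⟨q, hq, hr⟩ := hx
      obtain ⟨q', hq', hr'⟩ := hy
      refine ⟨q + q', fun w hw => by rw [map_add, hq w hw, hq' w hw], ?_⟩
      rw [map_add, hr, hr', ← Finset.sum_add_distrib]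
      refine Finset.sum_congr rfl (fun i _ => ?_)
      rw [← Finset.sum_add_distrib]
      refine Finset.sum_congr rfl (fun j _ => ?_)
      rw [map_add]
  intro p hp
  obtain ⟨t, ht⟩ := hspan p
  have ht' : Algebra.TensorProduct.productMap A₁ A₂ t = p := ht
  obtain ⟨q, hq, hr⟩ := hlift t
  have hsum : ∑ x : ↥(fixGrp W₁ τ₁), ∑ y : ↥(fixGrp W₂ τ₂),
        Algebra.TensorProduct.productMap (A₁.comp (trR bU₁ bU₁ (x : ↥(fixSub τ₁) ≃ₗ[ℂ] ↥(fixSub τ₁))))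
          (A₂.comp (trR bU₂ bU₂ (y : ↥(fixSub τ₂) ≃ₗ[ℂ] ↥(fixSub τ₂)))) t
      = ∑ x : ↥(fixGrp W₁ τ₁), ∑ y : ↥(fixGrp W₂ τ₂), p := by
    refine Finset.sum_congr rfl (fun x _ => Finset.sum_congr rfl (fun y _ => ?_))
    obtain ⟨γ, hγ, hγ₁, hγ₂⟩ := hgrp x.1 x.2 y.1 y.2
    have e1 : Algebra.TensorProduct.productMap (A₁.comp (trR bU₁ bU₁ (x : ↥(fixSub τ₁) ≃ₗ[ℂ] ↥(fixSub τ₁))))
          (A₂.comp (trR bU₂ bU₂ (y : ↥(fixSub τ₂) ≃ₗ[ℂ] ↥(fixSub τ₂))))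
        = (trR bU bU γ).comp (Algebra.TensorProduct.productMap A₁ A₂) := by
      apply Algebra.TensorProduct.ext'
      intro r r'
      rw [Algebra.TensorProduct.productMap_apply_tmul, AlgHom.comp_apply, AlgHom.comp_apply, AlgHom.comp_apply,
        Algebra.TensorProduct.productMap_apply_tmul, map_mul, hγ₁, hγ₂]
    rw [e1, AlgHom.comp_apply, ht', hp γ hγ]
  rw [hsum, Finset.sum_const, Finset.sum_const, smul_smul, ← Nat.cast_smul_eq_nsmul ℂ] at hr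
  set N : ℕ := Finset.card (Finset.univ : Finset ↥(fixGrp W₁ τ₁)) * Finset.card (Finset.univ : Finset ↥(fixGrp W₂ τ₂))
    with hN
  have hN0 : (N : ℂ) ≠ 0 := by
    rw [Nat.cast_ne_zero, hN]
    refine Nat.mul_ne_zero ?_ ?_
    · exact (Finset.card_pos.2 ⟨1, Finset.mem_univ _⟩).ne'
    · exact (Finset.card_pos.2 ⟨1, Finset.mem_univ _⟩).ne'
  refine ⟨((N : ℂ))⁻¹ • q, fun w hw => by rw [map_smul, hq w hw], ?_⟩
  rw [map_smul, hr, smul_smul, inv_mul_cancel₀ hN0, one_smul]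

/-- cyclically permuted factors. `U = {g(u,…,u) | σ u = u}`, `G` contains the `g (w₁,…,w₁) g⁻¹`, `w₁ ∈ W₁^σ`. Given `p`
invariant under `G`, its pull back to `U₁ × U₁*` along `u ↦ g(u,…,u)` is invariant under `W₁^σ`, so it is the restriction of
`q₁`, and `q` = the image of `q₁` under `f ↦ f ∘ pr₀ ∘ g⁻¹` on functions and `y ↦ (l+1) g(y,0,…,0)` on vectors (the projection
of `g(y,0,…,0)` to `U` is `g(u,…,u)/(l+1)`, `u = π_σ y`, by `projT_tau`). -/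
theorem surjR_cyc {W : Subgroup (V ≃ₗ[ℂ] V)} {τ : V ≃ₗ[ℂ] V} {W₁ : Subgroup (V₁ ≃ₗ[ℂ] V₁)}
    {σ : V₁ ≃ₗ[ℂ] V₁} {l : ℕ} (hfin : IsOfFinOrder τ) (h : IsCyc W τ W₁ σ l)
    (b₁ : Basis ι₁ ℂ V₁) (bU₁ : Basis κ₁ ℂ ↥(fixSub σ)) (h₁ : SurjR W₁ σ b₁ bU₁)
    (b : Basis ι ℂ V) (bU : Basis κ ℂ ↥(fixSub τ)) : SurjR W τ b bU := by
  obtain ⟨g, hW, hτ⟩ := h
  have hfσ : IsOfFinOrder σ := (prodA_fin_cyc g hτ).1 hfin
  have hl : ((l + 1 : ℕ) : ℂ) ≠ 0 := Nat.cast_ne_zero.2 (Nat.succ_ne_zero l)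
  -- `U₁ ≃ U`
  let Δ : V₁ →ₗ[ℂ] V := (g : (Fin (l + 1) → V₁) →ₗ[ℂ] V).comp (LinearMap.pi (fun _ => LinearMap.id))
  have hΔ : ∀ x, Δ x = g (fun _ => x) := fun x => rfl
  let P : V →ₗ[ℂ] V₁ := (LinearMap.proj 0).comp (g.symm : V →ₗ[ℂ] (Fin (l + 1) → V₁))
  have hP : ∀ x, P (g x) = x 0 := by
    intro x
    show (g.symm (g x)) 0 = x 0
    rw [LinearEquiv.symm_apply_apply]
  have hmΔ : ∀ u : ↥(fixSub σ), (Δ.comp (fixSub σ).subtype) u ∈ fixSub τ := by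
    intro u
    show τ (g (fun _ => (u : V₁))) = g (fun _ => (u : V₁))
    rw [hτ, mem_fixSub.1 u.2]
    congr 1
    funext i
    refine Fin.cases ?_ (fun j => ?_) i
    · rw [Fin.cons_zero]
    · rw [Fin.cons_succ]
  have hconst : ∀ v ∈ fixSub τ, ∃ x ∈ fixSub σ, v = g (fun _ => x) := by
    intro v hv
    obtain ⟨x, rfl⟩ := g.surjective v
    have h1 : τ (g x) = g x := hv
    rw [hτ] at h1
    have h2 := g.injective h1
    have h3 : ∀ (n : ℕ) (hn : n < l + 1), x ⟨n, hn⟩ = x 0 := by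
      intro n
      induction n with
      | zero => intro _; rfl
      | succ n ih =>
        intro hn
        have h4 := congrFun h2 (Fin.succ ⟨n, by omega⟩)
        rw [Fin.cons_succ] at h4
        have h5 : x ⟨n + 1, hn⟩ = x ⟨n, by omega⟩ := h4.symm
        rw [h5, ih]
    refine ⟨x 0, ?_, ?_⟩
    · have h4 := congrFun h2 0
      rw [Fin.cons_zero] at h4
      have h5 : x (Fin.last l) = x 0 := h3 l (by omega)
      rw [h5] at h4
      exact h4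
    · congr 1
      funext i
      exact h3 i i.2
  have hmP : ∀ u : ↥(fixSub τ), (P.comp (fixSub τ).subtype) u ∈ fixSub σ := by
    intro u
    obtain ⟨x, hx, hux⟩ := hconst (u : V) u.2
    show σ (P (u : V)) = P (u : V)
    rw [hux, hP]
    exact hx
  let δ : ↥(fixSub σ) ≃ₗ[ℂ] ↥(fixSub τ) := LinearEquiv.ofLinearMap
    (LinearMap.codRestrict (fixSub τ) (Δ.comp (fixSub σ).subtype) hmΔ)
    (LinearMap.codRestrict (fixSub σ) (P.comp (fixSub τ).subtype) hmP)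
    (by
      apply LinearMap.ext
      intro u
      apply Subtype.ext
      obtain ⟨x, hx, hux⟩ := hconst (u : V) u.2
      show Δ (P (u : V)) = (u : V)
      rw [hux, hP, hΔ])
    (by
      apply LinearMap.ext
      intro u
      apply Subtype.ext
      show P (Δ (u : V₁)) = (u : V₁)
      rw [hΔ, hP])
  have hδ : ∀ u : ↥(fixSub σ), ((δ u : ↥(fixSub τ)) : V) = g (fun _ => (u : V₁)) := fun u => rfl
  have hδs : ∀ u : ↥(fixSub τ), ((δ.symm u : ↥(fixSub σ)) : V₁) = P (u : V) := fun u => rfl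
  let S : V₁ →ₗ[ℂ] V := ((l + 1 : ℕ) : ℂ) • ((g : (Fin (l + 1) → V₁) →ₗ[ℂ] V).comp (LinearMap.single ℂ (fun _ => V₁) 0))
  have hS : ∀ x, S x = ((l + 1 : ℕ) : ℂ) • g (Pi.single 0 x) := fun x => rfl
  -- the projection
  let smE : (Fin (l + 1) → V₁) →ₗ[ℂ] ↥(fixSub σ) := ∑ i : Fin (l + 1), (projT σ).comp (LinearMap.proj i)
  have hsmE : ∀ x, smE x = ∑ i : Fin (l + 1), projT σ (x i) := by
    intro x
    show (∑ i : Fin (l + 1), (projT σ).comp (LinearMap.proj i)) x = _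
    rw [LinearMap.sum_apply]
    rfl
  have hproj : (((l + 1 : ℕ) : ℂ)⁻¹ • ((δ : ↥(fixSub σ) →ₗ[ℂ] ↥(fixSub τ)).comp
      (smE.comp (g.symm : V →ₗ[ℂ] (Fin (l + 1) → V₁))))) = projT τ := by
    apply prodA_projT_unique hfin
    · intro v
      obtain ⟨x, rfl⟩ := g.surjective v
      show ((l + 1 : ℕ) : ℂ)⁻¹ • δ (smE (g.symm (τ (g x)))) = ((l + 1 : ℕ) : ℂ)⁻¹ • δ (smE (g.symm (g x)))
      rw [hτ, LinearEquiv.symm_apply_apply, LinearEquiv.symm_apply_apply, hsmE, hsmE, Fin.sum_univ_succ,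
        Fin.sum_univ_castSucc, Fin.cons_zero, projT_tau hfσ]
      simp only [Fin.cons_succ]
      rw [add_comm (projT σ (x (Fin.last l)))]
    · intro u
      obtain ⟨x, hx, hux⟩ := hconst (u : V) u.2
      show ((l + 1 : ℕ) : ℂ)⁻¹ • δ (smE (g.symm (u : V))) = u
      have e1 : smE (g.symm (u : V)) = ((l + 1 : ℕ) : ℂ) • (⟨x, hx⟩ : ↥(fixSub σ)) := by
        rw [hux, LinearEquiv.symm_apply_apply, hsmE]
        have e2 : projT σ x = (⟨x, hx⟩ : ↥(fixSub σ)) := projT_of_mem hfσ (⟨x, hx⟩ : ↥(fixSub σ))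
        rw [e2, Finset.sum_const, Finset.card_univ, Fintype.card_fin, Nat.cast_smul_eq_nsmul]
      rw [e1, map_smul, smul_smul, inv_mul_cancel₀ hl, one_smul]
      apply Subtype.ext
      rw [hδ, hux]
  have hprojS : (projT τ).comp S = (δ : ↥(fixSub σ) →ₗ[ℂ] ↥(fixSub τ)).comp (projT σ) := by
    apply LinearMap.ext
    intro x
    rw [← hproj]
    show ((l + 1 : ℕ) : ℂ)⁻¹ • δ (smE (g.symm (S x))) = δ (projT σ x)
    have e1 : smE (Pi.single 0 x) = projT σ x := by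
      rw [hsmE, Finset.sum_eq_single 0]
      · rw [Pi.single_eq_same]
      · intro j _ hj
        rw [Pi.single_eq_of_ne hj, map_zero]
      · intro h0
        exact absurd (Finset.mem_univ _) h0
    rw [hS, map_smul, map_smul, map_smul, LinearEquiv.symm_apply_apply, e1, smul_smul, inv_mul_cancel₀ hl, one_smul]
  intro p hp
  -- the pull back to `U₁`
  have hp₁ : ∀ h ∈ fixGrp W₁ σ, trR bU₁ bU₁ h (trR bU bU₁ δ.symm p) = trR bU bU₁ δ.symm p := by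
    rintro h ⟨w₁, hw₁, hc₁, hh⟩
    let w : V ≃ₗ[ℂ] V := (g.symm.trans (LinearEquiv.piCongrRight (fun _ : Fin (l + 1) => w₁))).trans g
    have hwg : ∀ x : Fin (l + 1) → V₁, w (g x) = g (fun i => w₁ (x i)) := by
      intro x
      show g (LinearEquiv.piCongrRight (fun _ : Fin (l + 1) => w₁) (g.symm (g x))) = _
      rw [LinearEquiv.symm_apply_apply]
      rfl
    have hwW : w ∈ W := (hW w).2 ⟨fun _ => w₁, fun _ => hw₁, hwg⟩
    have hc1 : ∀ y, w₁ (σ y) = σ (w₁ y) := by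
      intro y
      have := congrArg (fun f : V₁ ≃ₗ[ℂ] V₁ => f y) hc₁
      exact this
    have hc : w * τ = τ * w := by
      apply LinearEquiv.ext
      intro v
      obtain ⟨x, rfl⟩ := g.surjective v
      show w (τ (g x)) = τ (w (g x))
      rw [hτ, hwg, hwg, hτ]
      congr 1
      funext i
      refine Fin.cases ?_ (fun j => ?_) i
      · rw [Fin.cons_zero, Fin.cons_zero, hc1]
      · rw [Fin.cons_succ, Fin.cons_succ]
    have hγ : prodA_restr w hc ∈ fixGrp W τ := ⟨w, hwW, hc, fun u => rfl⟩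
    have e1 : δ.symm.trans h = (prodA_restr w hc).trans δ.symm := by
      apply LinearEquiv.ext
      intro u
      obtain ⟨u', rfl⟩ := δ.surjective u
      show h (δ.symm (δ u')) = δ.symm (prodA_restr w hc (δ u'))
      rw [LinearEquiv.symm_apply_apply, eq_comm, LinearEquiv.symm_apply_eq]
      apply Subtype.ext
      rw [prodA_restr_coe, hδ, hδ, hwg]
      congr 1
      funext i
      rw [hh]
    rw [trR_trans_apply, e1, ← trR_trans_apply bU bU bU₁, hp _ hγ]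
  obtain ⟨q₁, hq₁, hr₁⟩ := h₁ _ hp₁
  refine ⟨prodA_mx b₁ b P S q₁, ?_, ?_⟩
  · intro w hw
    obtain ⟨u, hu, hwu⟩ := (hW w).1 hw
    have h1 : trR b b w (prodA_mx b₁ b P S q₁) = prodA_mx b₁ b P S (trR b₁ b₁ (u 0) q₁) := by
      rw [prodA_trR, prodA_trR, prodA_mx_comp, prodA_mx_comp]
      have h2 : P.comp (w.symm : V →ₗ[ℂ] V) = ((u 0).symm : V₁ →ₗ[ℂ] V₁).comp P := by
        apply LinearMap.ext
        intro v
        obtain ⟨v', rfl⟩ := w.surjective v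
        obtain ⟨x, rfl⟩ := g.surjective v'
        show P (w.symm (w (g x))) = (u 0).symm (P (w (g x)))
        rw [LinearEquiv.symm_apply_apply, hwu, hP, hP, LinearEquiv.symm_apply_apply]
      have h3 : (w : V →ₗ[ℂ] V).comp S = S.comp ((u 0 : V₁ ≃ₗ[ℂ] V₁) : V₁ →ₗ[ℂ] V₁) := by
        apply LinearMap.ext
        intro x
        show w (S x) = S (u 0 x)
        rw [hS, hS, map_smul, hwu]
        congr 2
        funext i
        by_cases hi : i = 0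
        · subst hi
          rw [Pi.single_eq_same, Pi.single_eq_same]
        · rw [Pi.single_eq_of_ne hi, Pi.single_eq_of_ne hi, map_zero]
      rw [h2, h3]
    rw [h1, hq₁ _ (hu 0)]
  · have h4 : resR τ b bU (prodA_mx b₁ b P S q₁) = trR bU₁ bU δ (resR σ b₁ bU₁ q₁) := by
      rw [prodA_resR, prodA_resR, prodA_trR, prodA_mx_comp, prodA_mx_comp, hprojS]
      rfl
    rw [h4, hr₁, trR_trans_apply, LinearEquiv.symm_trans_self, trR_refl, AlgHom.id_apply]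

/-- the factors of a product: finite order, finiteness. -/
theorem isOfFinOrder_of_isProd {W : Subgroup (V ≃ₗ[ℂ] V)} {τ : V ≃ₗ[ℂ] V} {W₁ : Subgroup (V₁ ≃ₗ[ℂ] V₁)}
    {τ₁ : V₁ ≃ₗ[ℂ] V₁} {W₂ : Subgroup (V₂ ≃ₗ[ℂ] V₂)} {τ₂ : V₂ ≃ₗ[ℂ] V₂}
    (h : IsProd W τ W₁ τ₁ W₂ τ₂) : IsOfFinOrder τ ↔ IsOfFinOrder τ₁ ∧ IsOfFinOrder τ₂ := by
  obtain ⟨g, _, hτ⟩ := h
  exact prodA_fin_prod g hτ

theorem isOfFinOrder_of_isCyc {W : Subgroup (V ≃ₗ[ℂ] V)} {τ : V ≃ₗ[ℂ] V} {W₁ : Subgroup (V₁ ≃ₗ[ℂ] V₁)}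
    {σ : V₁ ≃ₗ[ℂ] V₁} {l : ℕ} (h : IsCyc W τ W₁ σ l) : IsOfFinOrder τ ↔ IsOfFinOrder σ := by
  obtain ⟨g, _, hτ⟩ := h
  exact prodA_fin_cyc g hτ

end

end Pool.Agent.CM64
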