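import Pool.Agent.LibCM64.SurjA
import Pool.Agent.LibCM64.GmG
import Pool.Agent.LibCM64.ProdA
import Pool.Agent.LibCM64.Main

/-! The triples `(V, W, τ)` for which Q1 is proved. -/

set_option linter.unusedSectionVars false
set_option maxSynthPendingDepth 3

namespace Pool.Agent.CM64

open Module MvPolynomial

theorem surjR_of_cov {V : Type} [AddCommGroup V] [Module ℂ V] {W : Subgroup (V ≃ₗ[ℂ] V)} {τ : V ≃ₗ[ℂ] V}
    (h : Cov V W τ) : IsOfFinOrder τ ∧ ∀ [FiniteDimensional ℂ V] {ι : Type} [Fintype ι] [DecidableEq ι]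
      (b : Basis ι ℂ V) {κ : Type} [Fintype κ] [DecidableEq κ] (bU : Basis κ ℂ ↥(fixSub τ)), SurjR W τ b bU := by
  induction h with
  | line W τ hW hτ hfin hreg h =>
    exact ⟨hfin, fun b _ _ _ bU => surjR_of_finrank_le_one W hW hτ hfin hreg h b bU⟩
  | plane W τ hW hτ hfin hreg h =>
    exact ⟨hfin, fun b _ _ _ bU => surjR_of_finrank_le_two W hW hτ hfin hreg h b bU⟩
  | one W => exact ⟨IsOfFinOrder.one, fun b _ _ _ bU => surjR_one W b bU⟩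
  | mono W τ hfin hreg hm hp h =>
    exact ⟨hfin, fun b _ _ _ bU => surjR_of_isMono W hfin hreg hm hp h b bU⟩
  | prod W τ W₁ τ₁ W₂ τ₂ h h₁ h₂ ih₁ ih₂ =>
    have hfin : IsOfFinOrder τ := (isOfFinOrder_of_isProd h).2 ⟨ih₁.1, ih₂.1⟩
    exact ⟨hfin, fun b _ _ _ bU => surjR_prod hfin h (Module.finBasis ℂ _) (Module.finBasis ℂ _)
      (ih₁.2 _ _) (Module.finBasis ℂ _) (Module.finBasis ℂ _) (ih₂.2 _ _) b bU⟩
  | cyc W τ W₁ σ h h₁ ih₁ =>
    have hfin : IsOfFinOrder τ := (isOfFinOrder_of_isCyc h).2 ih₁.1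
    exact ⟨hfin, fun b _ _ _ bU => surjR_cyc hfin h (Module.finBasis ℂ _) (Module.finBasis ℂ _)
      (ih₁.2 _ _) b bU⟩

theorem Q1_of_cov {V : Type} [AddCommGroup V] [Module ℂ V] [FiniteDimensional ℂ V] {W : Subgroup (V ≃ₗ[ℂ] V)}
    [Finite W] {τ : V ≃ₗ[ℂ] V} (hW : ReflGen W) (hτ : Normalizes τ W) (hfin : IsOfFinOrder τ)
    (hreg : IsRegular W τ) (h : Cov V W τ) : Q1 W τ hτ :=
  Q1_of_surj hW hτ hfin hreg ((surjR_of_cov h).2 _ _)

end Pool.Agent.CM64
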