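import Pool.Agent.LibCM64.Symb

/-! The lemma (1.8): an operator `∑ a_g g` preserving `ℂ[V][ξ]` has its coefficients in `ℂ[V][ξ]`. -/

set_option linter.unusedSectionVars false

namespace Pool.Agent.CM64

open Module MvPolynomial

section

variable {V : Type} [AddCommGroup V] [Module ℂ V] [FiniteDimensional ℂ V]
variable {ι : Type} [Fintype ι] [DecidableEq ι]
variable (W : Subgroup (V ≃ₗ[ℂ] V)) [Finite W] (k : Submodule ℂ V → ℤ → ℂ)

/-- `q ∣ p` in `ℂ[V][ξ]` iff `q` divides all coefficients. -/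
theorem C_dvd_iff (q : Px ι) (p : Rx ι) : (C q : Rx ι) ∣ p ↔ ∀ m, q ∣ coeff m p :=
  MvPolynomial.C_dvd_iff_dvd_coeff q p

/-- coefficients of `yR b v`. -/
private theorem coeff_yR_single (b : Basis ι ℂ V) (v : V) (i : ι) :
    coeff (Finsupp.single i 1) (yR b v : Rx ι) = C (b.repr v i) := by
  rw [yR_apply, coeff_sum, Finset.sum_eq_single i]
  · rw [coeff_smul, coeff_X, MvPolynomial.smul_eq_C_mul, if_pos rfl, mul_one]
  · intro j _ hj
    rw [coeff_smul, coeff_X, if_neg, smul_zero]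
    intro h
    exact hj ((Finsupp.single_left_inj one_ne_zero).1 h)
  · intro h
    exact absurd (Finset.mem_univ i) h

/-- Dedekind modulo a prime `q` of `ℂ[V]`: the ring maps `p ↦ g(p) mod q`, `ℂ[V][ξ] → ℂ[V][ξ]/q`, are different
(`g ξ_v - g' ξ_v` is a nonzero form with constant coefficients) so they are linearly independent. -/
theorem dede_mod {q : Px ι} (hq : Prime q) (b : Basis ι ℂ V) {u : (V ≃ₗ[ℂ] V) → Rx ι}
    (h : ∀ p : Rx ι, (C q : Rx ι) ∣ ∑ g ∈ elF W, u g * trR b b g p) : ∀ g ∈ W, (C q : Rx ι) ∣ u g := by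
  classical
  set I : Ideal (Px ι) := Ideal.span {q} with hI
  have hIp : I.IsPrime := (Ideal.span_singleton_prime hq.ne_zero).2 hq
  have : IsDomain (Px ι ⧸ I) := (Ideal.Quotient.isDomain_iff_prime I).2 hIp
  set π : Rx ι →+* MvPolynomial ι (Px ι ⧸ I) := MvPolynomial.map (Ideal.Quotient.mk I) with hπ
  have hker : ∀ x : Rx ι, (C q : Rx ι) ∣ x ↔ π x = 0 := by
    intro x
    rw [C_dvd_iff]
    constructor
    · intro hx
      ext m
      rw [hπ, MvPolynomial.coeff_map, coeff_zero, Ideal.Quotient.eq_zero_iff_mem, hI,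
        Ideal.mem_span_singleton]
      exact hx m
    · intro hx m
      have h1 : coeff m (π x) = 0 := by rw [hx, coeff_zero]
      rw [hπ, MvPolynomial.coeff_map, Ideal.Quotient.eq_zero_iff_mem, hI,
        Ideal.mem_span_singleton] at h1
      exact h1
  set L := MvPolynomial ι (Px ι ⧸ I) with hL
  set φ : {g : V ≃ₗ[ℂ] V // g ∈ elF W} → (Rx ι →* L) := fun g =>
    (π : Rx ι →* L).comp ((trR b b g.1 : Rx ι →ₐ[ℂ] Rx ι) : Rx ι →* Rx ι) with hφ
  have hφa : ∀ g p, φ g p = π (trR b b g.1 p) := fun _ _ => rfl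
  have hinj : Function.Injective φ := by
    intro g g' hgg
    apply Subtype.ext
    apply LinearEquiv.ext
    intro v
    apply b.repr.injective
    ext i
    have h1 : φ g (yR b v) = φ g' (yR b v) := by rw [hgg]
    rw [hφa, hφa, trR_yR, trR_yR] at h1
    have h1' : π (yR b (g.1 v - g'.1 v)) = 0 := by
      rw [map_sub, map_sub, sub_eq_zero]
      exact h1
    rw [← hker, C_dvd_iff] at h1'
    have h2 := h1' (Finsupp.single i 1)
    rw [coeff_yR_single] at h2
    by_contra hne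
    have h3 : b.repr (g.1 v - g'.1 v) i ≠ 0 := by
      rw [map_sub, Finsupp.sub_apply]
      exact sub_ne_zero.2 hne
    have h4 : IsUnit (C (b.repr (g.1 v - g'.1 v) i) : Px ι) :=
      (IsUnit.mk0 _ h3).map (C : ℂ →+* Px ι)
    exact hq.not_isUnit (isUnit_of_dvd_unit h2 h4)
  have hli := (linearIndependent_monoidHom (Rx ι) L).comp φ hinj
  have hli' := (Fintype.linearIndependent_iff (R := L) (M := Rx ι → L)).1 hli
  have hsum : ∑ g : {g : V ≃ₗ[ℂ] V // g ∈ elF W}, (π (u g.1)) •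
      ((fun f : Rx ι →* L => (f : Rx ι → L)) ∘ φ) g = 0 := by
    funext p
    rw [Finset.sum_apply, Pi.zero_apply]
    have h1 := (hker _).1 (h p)
    rw [map_sum] at h1
    rw [← Finset.sum_coe_sort (elF W) (fun g => π (u g * trR b b g p))] at h1
    rw [← h1]
    apply Finset.sum_congr rfl
    intro g _
    rw [map_mul]
    rfl
  intro g hg
  rw [hker]
  exact hli' (fun g => π (u g.1)) hsum ⟨g, (mem_elF W).2 hg⟩

/-- there is a common denominator. -/
theorem exists_common_den (b : Basis ι ℂ V) (a : (V ≃ₗ[ℂ] V) → Ax ι) :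
    ∃ D : Px ι, D ≠ 0 ∧ ∀ g ∈ W, ∃ u : Rx ι, jR u = xA D * a g := by
  classical
  have _ := b
  set s : Finset (Fx ι) := (elF W).biUnion (fun g => (a g).support.image (fun m => coeff m (a g)))
    with hs
  obtain ⟨D, hD⟩ := IsLocalization.exist_integer_multiples_of_finset (nonZeroDivisors (Px ι)) s
  refine ⟨(D : Px ι), nonZeroDivisors.coe_ne_zero D, ?_⟩
  intro g hg
  have hcoeff : ∀ m ∈ (a g).support, ∃ r : Px ι, pF r = pF (D : Px ι) * coeff m (a g) := by
    intro m hm
    have h1 : coeff m (a g) ∈ s := by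
      rw [hs, Finset.mem_biUnion]
      exact ⟨g, (mem_elF W).2 hg, Finset.mem_image_of_mem _ hm⟩
    obtain ⟨r, hr⟩ := hD _ h1
    refine ⟨r, ?_⟩
    rw [pF_apply, pF_apply, hr, Algebra.smul_def]
  choose! r hr using hcoeff
  refine ⟨∑ m ∈ (a g).support, monomial m (r m), ?_⟩
  ext m
  rw [coeff_jR, xA_apply, coeff_C_mul, coeff_sum]
  simp only [coeff_monomial]
  rw [Finset.sum_ite_eq']
  split_ifs with hm
  · exact hr m hm
  · rw [map_zero, MvPolynomial.notMem_support_iff.1 hm, mul_zero]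

private theorem KZero_aux (b : Basis ι ℂ V) (D : Px ι) :
    D ≠ 0 → ∀ (a : (V ≃ₗ[ℂ] V) → Ax ι) (u : (V ≃ₗ[ℂ] V) → Rx ι),
      (∀ p : Rx ι, ∃ q : Rx ι, jR q = opOf W b a (jR p)) →
      (∀ g ∈ W, jR (u g) = xA D * a g) → ∀ g ∈ W, ∃ v : Rx ι, jR v = a g := by
  refine UniqueFactorizationMonoid.induction_on_prime D ?_ ?_ ?_
  · intro h
    exact absurd rfl h
  · intro x hx _ a u _ hu g hg
    obtain ⟨y, hy⟩ := hx.exists_left_inv
    refine ⟨C y * u g, ?_⟩
    rw [map_mul, jR_C, hu g hg, ← mul_assoc, ← map_mul, hy, map_one, one_mul]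
  · intro D' q hD' hq ih _ a u hpres hu g hg
    have hdiv : ∀ p : Rx ι, (C q : Rx ι) ∣ ∑ g ∈ elF W, u g * trR b b g p := by
      intro p
      obtain ⟨r, hr⟩ := hpres p
      refine ⟨C D' * r, ?_⟩
      apply jR_injective
      rw [map_sum, map_mul, map_mul, jR_C, jR_C, hr]
      have h1 : opOf W b a (jR p) = ∑ g ∈ elF W, a g * act b g (jR p) := opOf_apply W b a (jR p)
      rw [h1, ← mul_assoc, ← map_mul, Finset.mul_sum]
      apply Finset.sum_congr rfl
      intro g hg
      rw [map_mul, hu g ((mem_elF W).1 hg), jR_trR, mul_assoc]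
    have hdv := dede_mod W hq b hdiv
    have hex : ∀ g : V ≃ₗ[ℂ] V, ∃ u' : Rx ι, g ∈ W → u g = C q * u' := by
      intro g
      by_cases hg : g ∈ W
      · obtain ⟨u', hu'⟩ := hdv g hg
        exact ⟨u', fun _ => hu'⟩
      · exact ⟨0, fun h => absurd h hg⟩
    choose u' hu' using hex
    refine ih hD' a u' hpres ?_ g hg
    intro g hg
    have h1 := hu g hg
    rw [hu' g hg, map_mul, jR_C, map_mul, mul_assoc] at h1
    have hq0 : (xA q : Ax ι) ≠ 0 := by
      intro h0
      apply hq.ne_zero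
      apply xA_injective
      rw [h0, map_zero]
    exact mul_left_cancel₀ hq0 h1

/-- (1.8): induction on the prime factors of a common denominator (`UniqueFactorizationMonoid.induction_on_prime`). -/
theorem coeff_poly_of_preserves (b : Basis ι ℂ V) {a : (V ≃ₗ[ℂ] V) → Ax ι}
    (h : ∀ p : Rx ι, ∃ q : Rx ι, jR q = opOf W b a (jR p)) : ∀ g ∈ W, ∃ u : Rx ι, jR u = a g := by
  obtain ⟨D, hD, hu⟩ := exists_common_den W b a
  have hex : ∀ g : V ≃ₗ[ℂ] V, ∃ u : Rx ι, g ∈ W → jR u = xA D * a g := by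
    intro g
    by_cases hg : g ∈ W
    · obtain ⟨u, hu⟩ := hu g hg
      exact ⟨u, fun _ => hu⟩
    · exact ⟨0, fun h => absurd h hg⟩
  choose u hu' using hex
  exact KZero_aux W b D hD a u h (fun g hg => hu' g hg)

end

end Pool.Agent.CM64
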