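import Pool.Agent.LibCM64.ThInj
import Pool.Agent.LibCM64.KZero

/-! Operators preserving `M_k`; the centre of `𝐇_k` is `M_k^W`. -/

set_option linter.unusedSectionVars false

namespace Pool.Agent.CM64

open Module MvPolynomial

section

variable {V : Type} [AddCommGroup V] [Module ℂ V] [FiniteDimensional ℂ V]
variable {ι : Type} [Fintype ι] [DecidableEq ι]
variable (W : Subgroup (V ≃ₗ[ℂ] V)) [Finite W] (k : Submodule ℂ V → ℤ → ℂ)

private theorem dc_hc_hc (n m : ℕ) (f : Ax ι) : homogeneousComponent m (homogeneousComponent n f)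
    = if m = n then homogeneousComponent n f else 0 :=
  homogeneousComponent_of_mem (homogeneousComponent_mem n f)

private theorem dc_isHom_of_hc {n : ℕ} {f : Ax ι} (h : homogeneousComponent n f = f) :
    f.IsHomogeneous n := by
  rw [← h]; exact homogeneousComponent_isHomogeneous n f

private theorem dc_Ld_sub_hc {D : ℕ} {f : Ax ι} (hf : Ld (D + 1) f) :
    Ld D (f - homogeneousComponent D f) := by
  intro n hn
  rw [map_sub, dc_hc_hc]
  split_ifs with h
  · subst h; exact sub_self _
  · rw [sub_zero]; exact hf n (by omega)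

private theorem dc_Ld_isHom {n : ℕ} {f : Ax ι} (hf : f.IsHomogeneous n) : Ld (n + 1) f := by
  intro m hm
  rw [homogeneousComponent_of_mem ((mem_homogeneousSubmodule n f).2 hf), if_neg (by omega)]

private theorem dc_hc_isHom {n : ℕ} {f : Ax ι} (hf : f.IsHomogeneous n) :
    homogeneousComponent n f = f := by
  rw [homogeneousComponent_of_mem ((mem_homogeneousSubmodule n f).2 hf), if_pos rfl]

private theorem dc_act_isHom (b : Basis ι ℂ V) (g : V ≃ₗ[ℂ] V) {n : ℕ} {f : Ax ι}
    (hf : f.IsHomogeneous n) : (act b g f).IsHomogeneous n := by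
  apply dc_isHom_of_hc
  rw [homogeneousComponent_trA, dc_hc_isHom hf]

private theorem dc_opOf_leading (b : Basis ι ℂ V) {a : (V ≃ₗ[ℂ] V) → Ax ι} {D n : ℕ}
    (hD : ∀ g ∈ W, Ld (D + 1) (a g)) {m p : Ax ι} (hp : p.IsHomogeneous n) (hm : Ld n (m - p)) :
    Ld (D + n) (opOf W b a m - opOf W b (fun g => homogeneousComponent D (a g)) p) := by
  rw [opOf_apply, opOf_apply, ← Finset.sum_sub_distrib]
  refine Ld_sum _ _ (fun g hg => ?_)
  have hg' := (mem_elF W).1 hg
  have h1 : a g * act b g m - homogeneousComponent D (a g) * act b g p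
      = act b g p * (a g - homogeneousComponent D (a g)) + a g * act b g (m - p) := by
    rw [map_sub]; ring
  rw [h1]
  refine Ld_add ?_ ?_
  · have := Ld_mul (dc_Ld_isHom (dc_act_isHom b g hp)) (dc_Ld_sub_hc (hD g hg'))
    rwa [add_comm] at this
  · exact Ld_mul (hD g hg') (Ld_trA b b g hm)

private theorem dc_opOf_isHom (b : Basis ι ℂ V) {a : (V ≃ₗ[ℂ] V) → Ax ι} {D n : ℕ}
    {p : Ax ι} (hp : p.IsHomogeneous n) :
    (opOf W b (fun g => homogeneousComponent D (a g)) p).IsHomogeneous (D + n) := by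
  rw [opOf_apply]
  refine MvPolynomial.IsHomogeneous.sum _ _ _ (fun g _ => ?_)
  exact (homogeneousComponent_isHomogeneous D (a g)).mul (dc_act_isHom b g hp)

private theorem dc_jR_isHom {n : ℕ} {p : Rx ι} (hp : p.IsHomogeneous n) :
    (jR p).IsHomogeneous n := by
  apply dc_isHom_of_hc
  rw [homogeneousComponent_jR, homogeneousComponent_of_mem ((mem_homogeneousSubmodule n p).2 hp),
    if_pos rfl]

/-- if `∑ a_g g` preserves `M_k` and the `a_g` have degree `≤ D`, then the components of degree `D` of the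
`a_g` are polynomial: apply to `m ∈ M_k` with leading component `jR p` (`Mk_lift`), use `Mk_leading`,
then `coeff_poly_of_preserves`. -/
theorem leading_coeff_poly (hk : Adm W k) (b : Basis ι ℂ V) {a : (V ≃ₗ[ℂ] V) → Ax ι} {D : ℕ}
    (hD : ∀ g ∈ W, Ld (D + 1) (a g)) (h : ∀ m ∈ Mk W k b, opOf W b a m ∈ Mk W k b) :
    ∀ g ∈ W, ∃ u : Rx ι, jR u = homogeneousComponent D (a g) := by
  have key : ∀ (n : ℕ) (p : Rx ι), p.IsHomogeneous n →
      ∃ q : Rx ι, jR q = opOf W b (fun g => homogeneousComponent D (a g)) (jR p) := by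
    intro n p hp
    obtain ⟨m, hm, hmp⟩ := Mk_lift W k hk b hp
    have h1 := dc_opOf_leading W b hD (dc_jR_isHom hp) hmp
    have h2 : (opOf W b (fun g => homogeneousComponent D (a g)) (jR p)).IsHomogeneous (D + n) :=
      dc_opOf_isHom W b (dc_jR_isHom hp)
    have h3 : Ld (D + n + 1) (opOf W b a m) := by
      have := Ld_add (Ld_mono (Nat.le_succ (D + n)) h1) (dc_Ld_isHom h2)
      rwa [sub_add_cancel] at this
    obtain ⟨q, hq⟩ := Mk_leading W k hk b (h m hm) h3
    refine ⟨q, ?_⟩
    rw [hq]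
    have h4 := h1 (D + n) le_rfl
    rw [map_sub, dc_hc_isHom h2, sub_eq_zero] at h4
    exact h4
  refine coeff_poly_of_preserves W b (a := fun g => homogeneousComponent D (a g)) (fun p => ?_)
  choose f hf using fun n : ℕ => key n (homogeneousComponent n p)
    (homogeneousComponent_isHomogeneous n p)
  refine ⟨∑ n ∈ Finset.range (p.totalDegree + 1), f n, ?_⟩
  conv_rhs => rw [← sum_homogeneousComponent p]
  rw [map_sum, map_sum, map_sum]
  exact Finset.sum_congr rfl (fun n _ => hf n)

private theorem dc_opOf_sub (b : Basis ι ℂ V) (a a' : (V ≃ₗ[ℂ] V) → Ax ι) :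
    opOf W b a - opOf W b a' = opOf W b (fun g => a g - a' g) := by
  apply LinearMap.ext
  intro m
  rw [LinearMap.sub_apply, opOf_apply, opOf_apply, opOf_apply, ← Finset.sum_sub_distrib]
  exact Finset.sum_congr rfl (fun g _ => by ring)

private theorem dc_opOf_zero (b : Basis ι ℂ V) {a : (V ≃ₗ[ℂ] V) → Ax ι} (ha : ∀ g ∈ W, a g = 0) :
    opOf W b a = 0 := by
  apply LinearMap.ext
  intro m
  rw [opOf_apply, LinearMap.zero_apply]
  exact Finset.sum_eq_zero (fun g hg => by rw [ha g ((mem_elF W).1 hg), zero_mul])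

private theorem dc_ind (hk : Adm W k) (b : Basis ι ℂ V) (D : ℕ) : ∀ a : (V ≃ₗ[ℂ] V) → Ax ι,
    (∀ g ∈ W, Ld D (a g)) → (∀ m ∈ Mk W k b, opOf W b a m ∈ Mk W k b) →
    ∃ c : Ch W k True, Theta W k hk b c = opOf W b a := by
  induction D with
  | zero =>
    intro a ha _
    refine ⟨0, ?_⟩
    rw [map_zero, dc_opOf_zero W b (fun g hg => (Ld_zero_iff _).1 (ha g hg))]
  | succ D ih =>
    intro a ha h
    have h0 := leading_coeff_poly W k hk b ha h
    choose u hu using h0
    set p : W → Rx ι := fun g => u g g.2 with hpdef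
    have hhom : ∀ g : W, homogeneousComponent D (p g) = p g := by
      intro g
      apply jR_injective
      rw [← homogeneousComponent_jR, hpdef]
      simp only
      rw [hu, dc_hc_hc, if_pos rfl]
    have hp : ∀ g n, D < n → homogeneousComponent n (p g) = 0 := by
      intro g n hn
      have h1 : (p g).IsHomogeneous D := by
        rw [← hhom g]; exact homogeneousComponent_isHomogeneous D _
      rw [homogeneousComponent_of_mem ((mem_homogeneousSubmodule D _).2 h1), if_neg (by omega)]
    obtain ⟨a'', ha'', hLd⟩ := OpLd_Theta_Psi_sub W k hk b p hp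
    have hsub : opOf W b a - Theta W k hk b (Psi W k b p)
        = opOf W b (fun g => (a g - extR W p g) - a'' g) := by
      rw [← dc_opOf_sub, ← dc_opOf_sub, ← ha'']
      abel
    have hLd' : ∀ g ∈ W, Ld D ((a g - extR W p g) - a'' g) := by
      intro g hg
      refine Ld_sub ?_ (hLd g hg)
      have : extR W p g = homogeneousComponent D (a g) := by
        rw [extR, dif_pos hg, hpdef]
        exact hu g hg
      rw [this]
      exact dc_Ld_sub_hc (ha g hg)
    obtain ⟨c, hc⟩ := ih _ hLd' (by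
      intro m hm
      rw [← hsub, LinearMap.sub_apply]
      exact Submodule.sub_mem _ (h m hm) (Theta_apply_mem_Mk W k hk b _ hm))
    refine ⟨c + Psi W k b p, ?_⟩
    rw [map_add, hc, ← hsub]
    exact sub_add_cancel (opOf W b a) (Theta W k hk b (Psi W k b p))

/-- (1.9): an operator `∑ a_g g` preserving `M_k` is in the image of `𝐇_k` (induction on the degree). -/
theorem mem_range_Theta (hk : Adm W k) (b : Basis ι ℂ V) {T : Module.End ℂ (Ax ι)}
    (hT : T ∈ OpAlg W b) (h : ∀ m ∈ Mk W k b, T m ∈ Mk W k b) :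
    ∃ a : Ch W k True, Theta W k hk b a = T := by
  obtain ⟨a, rfl⟩ := (mem_OpAlg_iff W b T).1 hT
  choose d hd using fun g : V ≃ₗ[ℂ] V => exists_Ld (a g)
  refine dc_ind W k hk b ((elF W).sup d) a (fun g hg => ?_) h
  exact Ld_mono (Finset.le_sup ((mem_elF W).2 hg)) (hd g)

/-- a central element acts by multiplication by an element of `M_k^W`. -/
theorem Theta_center (hk : Adm W k) (b : Basis ι ℂ V) {z : Ch W k True}
    (hz : z ∈ Subalgebra.center ℂ (Ch W k True)) :
    Theta W k hk b z 1 ∈ Mk W k b ∧ InvA W b (Theta W k hk b z 1) ∧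
      Theta W k hk b z = LinearMap.mulLeft ℂ (Theta W k hk b z 1) := by
  have hz' : ∀ a : Ch W k True, a * z = z * a := Subalgebra.mem_center_iff.1 hz
  refine ⟨Theta_apply_mem_Mk W k hk b z (Mk_one W k b), ?_, ?_⟩
  · intro g hg
    have h1 := congrArg (fun a => Theta W k hk b a 1) (hz' (cw W k True ⟨g, hg⟩))
    simp only [map_mul, Module.End.mul_apply] at h1
    rw [Theta_cw] at h1
    simp only [AlgHom.toLinearMap_apply, map_one] at h1
    exact h1
  · refine OpAlg_comm_x W b (Theta_mem_OpAlg W k hk b z) (fun f m => ?_)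
    have h1 := congrArg (fun a => Theta W k hk b a m) (hz' (cx W k True f))
    simp only [map_mul, Module.End.mul_apply] at h1
    rw [Theta_cx, LinearMap.mulLeft_apply, LinearMap.mulLeft_apply] at h1
    exact h1.symm

private theorem dc_mul_inv (hk : Adm W k) (b : Basis ι ℂ V) {f m : Ax ι} (hf : f ∈ Mk W k b)
    (hinv : InvA W b f) (hm : m ∈ Mk W k b) : f * m ∈ Mk W k b := by
  obtain ⟨a, rfl⟩ := (mem_Mk_iff W k hk b m).1 hm
  rw [← Theta_mul_inv W k hk b a hinv, mul_one]
  exact Theta_apply_mem_Mk W k hk b a hf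

/-- an element `f ∈ M_k^W` comes from a central element (`f M_k ⊂ M_k` by `Theta_mul_inv`, `mem_Mk_iff`). -/
theorem exists_center (hk : Adm W k) (b : Basis ι ℂ V) {f : Ax ι} (hf : f ∈ Mk W k b)
    (hinv : InvA W b f) : ∃ z ∈ Subalgebra.center ℂ (Ch W k True), Theta W k hk b z = LinearMap.mulLeft ℂ f := by
  obtain ⟨z, hz⟩ := mem_range_Theta W k hk b (mulLeft_mem_OpAlg W b f) (fun m hm => by
    rw [LinearMap.mulLeft_apply]; exact dc_mul_inv W k hk b hf hinv hm)
  refine ⟨z, ?_, hz⟩
  rw [Subalgebra.mem_center_iff]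
  intro a
  apply Theta_injective W k hk b
  rw [map_mul, map_mul, hz]
  apply LinearMap.ext
  intro m
  rw [Module.End.mul_apply, Module.End.mul_apply, LinearMap.mulLeft_apply, LinearMap.mulLeft_apply,
    Theta_mul_inv W k hk b a hinv]

/-- `M_k^W M_k ⊂ M_k`. -/
theorem Mk_mul_inv (hk : Adm W k) (b : Basis ι ℂ V) {f m : Ax ι} (hf : f ∈ Mk W k b)
    (hinv : InvA W b f) (hm : m ∈ Mk W k b) : f * m ∈ Mk W k b :=
  dc_mul_inv W k hk b hf hinv hm

end

end Pool.Agent.CM64
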