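import Pool.Agent.LibCM64.Tact

/-! Independence of the automorphisms `g ∈ W` (Dedekind) and the algebra of operators `∑ a_g g`. -/

set_option linter.unusedSectionVars false

namespace Pool.Agent.CM64

open Module MvPolynomial

section

variable {V : Type} [AddCommGroup V] [Module ℂ V] [FiniteDimensional ℂ V]
variable {ι : Type} [Fintype ι] [DecidableEq ι]
variable (W : Subgroup (V ≃ₗ[ℂ] V)) [Finite W] (k : Submodule ℂ V → ℤ → ℂ)

theorem dede_coeff_yA (b : Basis ι ℂ V) (v : V) (j : ι) :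
    coeff (Finsupp.single j 1) (yA b v) = algebraMap ℂ (Fx ι) (b.repr v j) := by
  rw [yA_apply, coeff_sum, Finset.sum_eq_single j]
  · rw [coeff_smul, coeff_X, if_pos rfl, Algebra.smul_def, mul_one]
  · intro i _ hij
    rw [coeff_smul, coeff_X, if_neg, smul_zero]
    intro h
    exact hij (Finsupp.single_left_injective one_ne_zero h)
  · intro h
    exact absurd (Finset.mem_univ j) h

theorem yA_injective (b : Basis ι ℂ V) : Function.Injective (yA b) := by
  rw [injective_iff_map_eq_zero]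
  intro v hv
  have h1 : ∀ j, b.repr v j = 0 := by
    intro j
    have h2 := dede_coeff_yA b v j
    rw [hv, coeff_zero] at h2
    exact (FaithfulSMul.algebraMap_injective ℂ (Fx ι)) (by rw [← h2, map_zero])
  apply b.repr.injective
  rw [map_zero]
  ext j
  exact h1 j

theorem yR_injective (b : Basis ι ℂ V) : Function.Injective (yR b) := by
  intro v w h
  apply yA_injective b
  rw [← jR_yR, ← jR_yR, h]

/-- the ring homomorphisms `p ↦ g p`. -/
noncomputable def dede_chi (b : Basis ι ℂ V) (g : V ≃ₗ[ℂ] V) : Rx ι →* Ax ι :=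
  (((act b g).comp jR : Rx ι →ₐ[ℂ] Ax ι) : Rx ι →* Ax ι)

theorem dede_chi_apply (b : Basis ι ℂ V) (g : V ≃ₗ[ℂ] V) (p : Rx ι) :
    dede_chi b g p = act b g (jR p) := rfl

theorem dede_chi_injective (b : Basis ι ℂ V) : Function.Injective (dede_chi b) := by
  intro g h hgh
  ext v
  have h1 := DFunLike.congr_fun hgh (yR b v)
  rw [dede_chi_apply, dede_chi_apply, jR_yR, act, act, trA_yA, trA_yA] at h1
  exact yA_injective b h1

theorem opOf_apply (b : Basis ι ℂ V) (a : (V ≃ₗ[ℂ] V) → Ax ι) (m : Ax ι) :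
    opOf W b a m = ∑ g ∈ elF W, a g * act b g m := by
  unfold opOf
  rw [LinearMap.sum_apply]
  rfl

/-- Dedekind: `∑_g a_g g(p)`, `p ∈ ℂ[V][ξ]`, determines the `a_g` (`linearIndependent_monoidHom` for the
monoid homomorphisms `p ↦ g (jR p)` from `Rx ι` to the domain `Ax ι`; they are different since
`g (jR (yR b v)) = yA b (g v)`). -/
theorem opOf_inj_on (b : Basis ι ℂ V) {a a' : (V ≃ₗ[ℂ] V) → Ax ι}
    (h : ∀ p : Rx ι, opOf W b a (jR p) = opOf W b a' (jR p)) : ∀ g ∈ W, a g = a' g := by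
  intro g hg
  have hli := (linearIndependent_monoidHom (Rx ι) (Ax ι)).comp (dede_chi b) (dede_chi_injective b)
  rw [linearIndependent_iff'] at hli
  have hs : ∑ g ∈ elF W, (a g - a' g) • ((fun f : Rx ι →* Ax ι => (f : Rx ι → Ax ι)) ∘ dede_chi b) g
      = 0 := by
    funext p
    rw [Finset.sum_apply]
    have h1 := h p
    rw [opOf_apply, opOf_apply] at h1
    have h2 : ∀ g ∈ elF W, ((a g - a' g) • ((fun f : Rx ι →* Ax ι => (f : Rx ι → Ax ι)) ∘
        dede_chi b) g) p = a g * act b g (jR p) - a' g * act b g (jR p) := by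
      intro g _
      rw [← sub_mul]
      rfl
    rw [Finset.sum_congr rfl h2, Finset.sum_sub_distrib, h1, sub_self]
    rfl
  have := hli (elF W) (fun g => a g - a' g) hs g ((mem_elF W).2 hg)
  exact sub_eq_zero.1 this

theorem opOf_inj (b : Basis ι ℂ V) {a a' : (V ≃ₗ[ℂ] V) → Ax ι} (h : opOf W b a = opOf W b a') :
    ∀ g ∈ W, a g = a' g :=
  opOf_inj_on W b (fun p => by rw [h])

theorem opOf_congr (b : Basis ι ℂ V) {a a' : (V ≃ₗ[ℂ] V) → Ax ι} (h : ∀ g ∈ W, a g = a' g) :
    opOf W b a = opOf W b a' := by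
  unfold opOf
  exact Finset.sum_congr rfl fun g hg => by rw [h g ((mem_elF W).1 hg)]

/-- the algebra of operators generated by the multiplications and by `W`. -/
noncomputable def OpAlg (b : Basis ι ℂ V) : Subalgebra ℂ (Module.End ℂ (Ax ι)) :=
  Algebra.adjoin ℂ (Set.range (fun a : Ax ι => LinearMap.mulLeft ℂ a) ∪
    (fun g : V ≃ₗ[ℂ] V => (act b g).toLinearMap) '' (W : Set (V ≃ₗ[ℂ] V)))

theorem mulLeft_mem_OpAlg (b : Basis ι ℂ V) (a : Ax ι) : LinearMap.mulLeft ℂ a ∈ OpAlg W b :=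
  Algebra.subset_adjoin (Or.inl ⟨a, rfl⟩)

theorem act_mem_OpAlg (b : Basis ι ℂ V) {g : V ≃ₗ[ℂ] V} (hg : g ∈ W) :
    (act b g).toLinearMap ∈ OpAlg W b :=
  Algebra.subset_adjoin (Or.inr ⟨g, hg, rfl⟩)

theorem dede_single (b : Basis ι ℂ V) {g : V ≃ₗ[ℂ] V} (hg : g ∈ W) (x : Ax ι) (m : Ax ι) :
    opOf W b (fun h => by classical exact if h = g then x else 0) m = x * act b g m := by
  classical
  rw [opOf_apply, Finset.sum_eq_single g]
  · simp
  · intro h _ hne
    simp [hne]
  · intro h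
    exact absurd ((mem_elF W).2 hg) h

theorem dede_shift {h : V ≃ₗ[ℂ] V} (hh : h ∈ W) (F : (V ≃ₗ[ℂ] V) → Ax ι) :
    ∑ k ∈ elF W, F k = ∑ g ∈ elF W, F (h * g) := by
  refine (Finset.sum_bij (fun g _ => h * g) ?_ ?_ ?_ ?_).symm
  · intro g hg
    exact (mem_elF W).2 (W.mul_mem hh ((mem_elF W).1 hg))
  · intro x _ y _ hxy
    exact mul_left_cancel hxy
  · intro k hk
    refine ⟨h⁻¹ * k, (mem_elF W).2 (W.mul_mem (W.inv_mem hh) ((mem_elF W).1 hk)), ?_⟩
    rw [mul_inv_cancel_left]
  · intro g _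
    rfl

/-- the elements of `OpAlg` are the `∑ a_g g` (composition: `(∑ a_h h)(∑ a'_g g) = ∑_{h,g} a_h h(a'_g) hg`). -/
theorem mem_OpAlg_iff (b : Basis ι ℂ V) (T : Module.End ℂ (Ax ι)) :
    T ∈ OpAlg W b ↔ ∃ a : (V ≃ₗ[ℂ] V) → Ax ι, T = opOf W b a := by
  classical
  constructor
  · intro hT
    induction hT using Algebra.adjoin_induction with
    | mem x hx =>
      rcases hx with ⟨a, rfl⟩ | ⟨g, hg, rfl⟩
      · refine ⟨fun h => if h = 1 then a else 0, LinearMap.ext fun m => ?_⟩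
        have := dede_single W b W.one_mem a m
        rw [act_one] at this
        rw [LinearMap.mulLeft_apply, ← this]
      · refine ⟨fun h => if h = g then 1 else 0, LinearMap.ext fun m => ?_⟩
        have := dede_single W b hg 1 m
        rw [one_mul] at this
        show act b g m = _
        rw [← this]
    | algebraMap r =>
      refine ⟨fun h => if h = 1 then algebraMap ℂ (Ax ι) r else 0, LinearMap.ext fun m => ?_⟩
      have := dede_single W b W.one_mem (algebraMap ℂ (Ax ι) r) m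
      rw [act_one] at this
      rw [Module.algebraMap_end_apply, Algebra.smul_def, ← this]
    | add x y _ _ hx hy =>
      obtain ⟨a, rfl⟩ := hx
      obtain ⟨a', rfl⟩ := hy
      refine ⟨fun g => a g + a' g, LinearMap.ext fun m => ?_⟩
      rw [LinearMap.add_apply, opOf_apply, opOf_apply, opOf_apply, ← Finset.sum_add_distrib]
      exact Finset.sum_congr rfl fun g _ => by rw [add_mul]
    | mul x y _ _ hx hy =>
      obtain ⟨a, rfl⟩ := hx
      obtain ⟨a', rfl⟩ := hy
      refine ⟨fun k => ∑ h ∈ elF W, a h * act b h (a' (h⁻¹ * k)), LinearMap.ext fun m => ?_⟩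
      rw [Module.End.mul_apply, opOf_apply, opOf_apply, opOf_apply]
      have h1 : ∑ k ∈ elF W, (∑ h ∈ elF W, a h * act b h (a' (h⁻¹ * k))) * act b k m =
          ∑ h ∈ elF W, ∑ k ∈ elF W, a h * act b h (a' (h⁻¹ * k)) * act b k m := by
        rw [Finset.sum_comm]
        exact Finset.sum_congr rfl fun k _ => by rw [Finset.sum_mul]
      rw [h1]
      refine Finset.sum_congr rfl fun h hh => ?_
      rw [dede_shift W ((mem_elF W).1 hh) (fun k => a h * act b h (a' (h⁻¹ * k)) * act b k m),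
        map_sum, Finset.mul_sum]
      refine Finset.sum_congr rfl fun g _ => ?_
      rw [inv_mul_cancel_left, act_mul, map_mul, mul_assoc]
  · rintro ⟨a, rfl⟩
    unfold opOf
    refine Subalgebra.sum_mem _ fun g hg => ?_
    exact Subalgebra.mul_mem _ (mulLeft_mem_OpAlg W b (a g)) (act_mem_OpAlg W b ((mem_elF W).1 hg))

theorem dunkl_mem_OpAlg (b : Basis ι ℂ V) (v : V) : dunkl W k b v ∈ OpAlg W b := by
  unfold dunkl
  refine Subalgebra.add_mem _ (mulLeft_mem_OpAlg W b _) (Subalgebra.sum_mem _ fun H _ => ?_)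
  refine Subalgebra.mul_mem _ (mulLeft_mem_OpAlg W b _) ?_
  unfold aop
  refine Subalgebra.sum_mem _ fun g hg => ?_
  exact Subalgebra.smul_mem _ (act_mem_OpAlg W b (mem_pstF.1 hg).1) _

/-- an operator `∑ a_g g` commuting with all `x ∈ V*` is the multiplication by `a_1`
(compare `∑ a_g (x ∘ g⁻¹) g` and `∑ x a_g g` by `opOf_inj`; if `g ≠ 1` choose `x` with `x ∘ g⁻¹ ≠ x`). -/
theorem opOf_comm_x (b : Basis ι ℂ V) {a : (V ≃ₗ[ℂ] V) → Ax ι}
    (h : ∀ (f : Dual ℂ V) (m : Ax ι), opOf W b a (xA (xl b f) * m) = xA (xl b f) * opOf W b a m) :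
    (∀ g ∈ W, g ≠ 1 → a g = 0) ∧ opOf W b a = LinearMap.mulLeft ℂ (a 1) := by
  have h1 : ∀ g ∈ W, g ≠ 1 → a g = 0 := by
    intro g hg hg1
    obtain ⟨v, hv⟩ : ∃ v, g.symm v ≠ v := by
      by_contra hcon
      push Not at hcon
      apply hg1
      ext v
      have := hcon (g v)
      rw [LinearEquiv.symm_apply_apply] at this
      exact this.symm
    obtain ⟨f, hf⟩ : ∃ f : Dual ℂ V, f (g.symm v) ≠ f v := by
      by_contra hcon
      push Not at hcon
      apply hv
      rw [← sub_eq_zero]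
      rw [← Module.forall_dual_apply_eq_zero_iff ℂ]
      intro f
      rw [map_sub, hcon f, sub_self]
    have h2 : opOf W b (fun g => a g * xA (xl b (f.comp (g.symm : V →ₗ[ℂ] V)))) =
        opOf W b (fun g => xA (xl b f) * a g) := by
      refine LinearMap.ext fun m => ?_
      have h3 := h f m
      rw [opOf_apply, opOf_apply] at h3
      rw [opOf_apply, opOf_apply]
      calc ∑ g ∈ elF W, a g * xA (xl b (f.comp (g.symm : V →ₗ[ℂ] V))) * act b g m
          = ∑ g ∈ elF W, a g * act b g (xA (xl b f) * m) := by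
            refine Finset.sum_congr rfl fun g _ => ?_
            rw [map_mul, act, trA_xA, trP_xl, mul_assoc]
        _ = xA (xl b f) * ∑ g ∈ elF W, a g * act b g m := h3
        _ = ∑ g ∈ elF W, xA (xl b f) * a g * act b g m := by
            rw [Finset.mul_sum]
            exact Finset.sum_congr rfl fun g _ => by rw [mul_assoc]
    have h4 := opOf_inj W b h2 g hg
    have h5 : a g * (xA (xl b (f.comp (g.symm : V →ₗ[ℂ] V))) - xA (xl b f)) = 0 := by
      have h4' : a g * xA (xl b (f.comp (g.symm : V →ₗ[ℂ] V))) = xA (xl b f) * a g := h4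
      rw [mul_sub, h4']
      ring
    rcases mul_eq_zero.1 h5 with h6 | h6
    · exact h6
    · exfalso
      have h7 := xl_injective b (xA_injective (sub_eq_zero.1 h6))
      apply hf
      have h8 := LinearMap.congr_fun h7 v
      exact h8
  refine ⟨h1, LinearMap.ext fun m => ?_⟩
  rw [opOf_apply, Finset.sum_eq_single 1]
  · rw [act_one]
    rfl
  · intro g hg hg1
    rw [h1 g ((mem_elF W).1 hg) hg1, zero_mul]
  · intro hcon
    exact absurd ((mem_elF W).2 W.one_mem) hcon

theorem OpAlg_comm_x (b : Basis ι ℂ V) {T : Module.End ℂ (Ax ι)} (hT : T ∈ OpAlg W b)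
    (h : ∀ (f : Dual ℂ V) (m : Ax ι), T (xA (xl b f) * m) = xA (xl b f) * T m) :
    T = LinearMap.mulLeft ℂ (T 1) := by
  obtain ⟨a, rfl⟩ := (mem_OpAlg_iff W b T).1 hT
  have h1 := (opOf_comm_x W b h).2
  have h2 : opOf W b a 1 = a 1 := by
    rw [h1, LinearMap.mulLeft_apply, mul_one]
  rw [h2]
  exact h1

end

end Pool.Agent.CM64
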