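import Pool.Agent.LibCM64.CommX
import Pool.Agent.LibCM64.Dede

/-! The Dunkl operators commute. -/

set_option linter.unusedSectionVars false

namespace Pool.Agent.CM64

open Module MvPolynomial

section

variable {V : Type} [AddCommGroup V] [Module ℂ V] [FiniteDimensional ℂ V]
variable {ι : Type} [Fintype ι] [DecidableEq ι]
variable (W : Subgroup (V ≃ₗ[ℂ] V)) [Finite W] (k : Submodule ℂ V → ℤ → ℂ)

/-- `T_v g = g T_v + (1 - det g) T_{P_H v} g` for `g ∈ W_H` (from `trA_dunkl` for `g ∈ W` and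
`v - g v = (1 - det g) P_H v`). -/
theorem dunkl_act (hk : Adm W k) (b : Basis ι ℂ V) {H : Submodule ℂ V} (hH : H ∈ arr W)
    {g : V ≃ₗ[ℂ] V} (hg : g ∈ pst W H) (v : V) (m : Ax ι) :
    dunkl W k b v (act b g m) = act b g (dunkl W k b v m)
      + (1 - dt g) • dunkl W k b (projH W H v) (act b g m) := by
  have h1 : act b g (dunkl W k b v m) = dunkl W k b (g v) (act b g m) :=
    trA_dunkl (tp_of_mem hk hg.1) b b v m
  have h2 : v = g v + (1 - dt g) • projH W H v := by
    rw [← sub_apply_eq W (arr_finrank W hH) hg v]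
    abel
  rw [h1]
  nth_rewrite 1 [h2]
  rw [dunkl_add, dunkl_smul]
  rfl

/-- `f(P_H v') P_H v = f(P_H v) P_H v'` (`P_H` has rank one). -/
theorem projH_symm {H : Submodule ℂ V} (hH : H ∈ arr W) (f : Dual ℂ V) (v v' : V) :
    f (projH W H v') • projH W H v = f (projH W H v) • projH W H v' := by
  have hH1 := arr_finrank W hH
  obtain ⟨hne, _⟩ := lf_spec H hH1
  obtain ⟨e, he⟩ : ∃ e, lf H e ≠ 0 := by
    by_contra hcon
    push Not at hcon
    exact hne (LinearMap.ext hcon)
  have hP : ∀ x, projH W H x = (lf H x * (lf H e)⁻¹) • projH W H e := by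
    intro x
    have h := lf_smul_projH W hH1 x e
    rw [mul_comm, mul_smul, ← h, smul_smul, inv_mul_cancel₀ he, one_smul]
  rw [hP v, hP v', map_smul, map_smul, smul_smul, smul_smul, smul_eq_mul, smul_eq_mul]
  congr 1
  ring

theorem dcomm_aux (hk : Adm W k) (b : Basis ι ℂ V) (v v' : V) (f : Dual ℂ V) (m : Ax ι) :
    dunkl W k b v (dunkl W k b v' (xA (xl b f) * m)) =
      xA (xl b f) * dunkl W k b v (dunkl W k b v' m) +
      ∑ H ∈ arrF W, ∑ g ∈ pstF W H, (kap W k H g * ((dt g)⁻¹ - 1)) •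
        (f (projH W H v) • act b g (dunkl W k b v' m) + f (projH W H v') • act b g (dunkl W k b v m)
          + (1 - dt g) • dunkl W k b (f (projH W H v') • projH W H v) (act b g m)) := by
  rw [dunkl_xl' W k b v' f m, map_add, dunkl_xl' W k b v f (dunkl W k b v' m), map_sum, add_assoc,
    ← Finset.sum_add_distrib]
  congr 1
  refine Finset.sum_congr rfl fun H hH => ?_
  rw [map_smul, map_sum, Finset.smul_sum, Finset.smul_sum, ← Finset.sum_add_distrib]
  refine Finset.sum_congr rfl fun g hg => ?_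
  rw [map_smul, dunkl_act W k hk b (mem_arrF.1 hH) (mem_pstF.1 hg) v m, dunkl_smul,
    LinearMap.smul_apply]
  simp only [smul_add, smul_smul]
  rw [← add_assoc]
  congr 1
  · congr 1
    · congr 1
      ring
    · congr 1
      ring
  · congr 1
    ring

/-- `[T_v, T_{v'}]` commutes with `x ∈ V*`: Jacobi identity, `dunkl_xl'`, `dunkl_act`, `projH_symm`. -/
theorem comm_comm_x (hk : Adm W k) (b : Basis ι ℂ V) (v v' : V) (f : Dual ℂ V) (m : Ax ι) :
    (dunkl W k b v ∘ₗ dunkl W k b v' - dunkl W k b v' ∘ₗ dunkl W k b v) (xA (xl b f) * m)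
      = xA (xl b f) * (dunkl W k b v ∘ₗ dunkl W k b v' - dunkl W k b v' ∘ₗ dunkl W k b v) m := by
  simp only [LinearMap.sub_apply, LinearMap.comp_apply]
  rw [dcomm_aux W k hk b v v' f m, dcomm_aux W k hk b v' v f m]
  have h1 : ∑ H ∈ arrF W, ∑ g ∈ pstF W H, (kap W k H g * ((dt g)⁻¹ - 1)) •
        (f (projH W H v) • act b g (dunkl W k b v' m) + f (projH W H v') • act b g (dunkl W k b v m)
          + (1 - dt g) • dunkl W k b (f (projH W H v') • projH W H v) (act b g m)) =
      ∑ H ∈ arrF W, ∑ g ∈ pstF W H, (kap W k H g * ((dt g)⁻¹ - 1)) •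
        (f (projH W H v') • act b g (dunkl W k b v m) + f (projH W H v) • act b g (dunkl W k b v' m)
          + (1 - dt g) • dunkl W k b (f (projH W H v) • projH W H v') (act b g m)) := by
    refine Finset.sum_congr rfl fun H hH => Finset.sum_congr rfl fun g _ => ?_
    rw [projH_symm W (mem_arrF.1 hH) f v v',
      add_comm (f (projH W H v) • act b g (dunkl W k b v' m))]
  rw [h1, mul_sub]
  abel

/-- `a_H ξ_v = - (∑_g κ_H(g)(1 - det g)) ξ_{P_H v}`. -/
theorem aop_yA (b : Basis ι ℂ V) {H : Submodule ℂ V} (hH : finrank ℂ H + 1 = finrank ℂ V) (v : V) :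
    aop W k b H (yA b v) = -(∑ g ∈ pstF W H, kap W k H g * (1 - dt g)) • yA b (projH W H v) := by
  rw [tact_aop_apply]
  have h1 : ∀ g ∈ pstF W H, kap W k H g • act b g (yA b v) =
      kap W k H g • yA b v - (kap W k H g * (1 - dt g)) • yA b (projH W H v) := by
    intro g hg
    have h2 : g v = v - (1 - dt g) • projH W H v := by
      rw [← sub_apply_eq W hH (mem_pstF.1 hg) v]
      abel
    rw [act, trA_yA, h2, map_sub, map_smul, smul_sub, smul_smul]
  rw [Finset.sum_congr rfl h1, Finset.sum_sub_distrib, ← Finset.sum_smul, ← Finset.sum_smul,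
    sum_kap W k hH, zero_smul, zero_sub, neg_smul]

theorem dcomm_q_symm (b : Basis ι ℂ V) {H : Submodule ℂ V} (hH : finrank ℂ H + 1 = finrank ℂ V)
    (v v' : V) : (C (qH b H v) : Ax ι) * yA b (projH W H v') =
      C (qH b H v') * yA b (projH W H v) := by
  have hq : ∀ x : V, ∀ y : V, (C (qH b H x) : Ax ι) * yA b y =
      C (pF (xl b (lf H)))⁻¹ * yA b (lf H x • y) := by
    intro x y
    unfold qH
    rw [div_eq_mul_inv, map_mul, map_smul, Algebra.smul_def]
    have : (algebraMap ℂ (Ax ι) (lf H x)) = C (algebraMap ℂ (Fx ι) (lf H x)) := rfl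
    rw [this]
    ring
  rw [hq, hq, lf_smul_projH W hH v v']

/-- `T_v ξ_{v'} = T_{v'} ξ_v`. -/
theorem dunkl_yA_symm (b : Basis ι ℂ V) (v v' : V) :
    dunkl W k b v (yA b v') = dunkl W k b v' (yA b v) := by
  rw [tact_dunkl_apply, tact_dunkl_apply]
  congr 1
  · exact mul_comm _ _
  · refine Finset.sum_congr rfl fun H hH => ?_
    have hH1 := arr_finrank W (mem_arrF.1 hH)
    rw [aop_yA W k b hH1, aop_yA W k b hH1, mul_smul_comm, mul_smul_comm,
      dcomm_q_symm W b hH1 v v']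

/-- `[T_v, T_{v'}] = 0`: by `comm_comm_x` and `OpAlg_comm_x` it is the multiplication by
`[T_v,T_{v'}] 1 = 0`. -/
theorem dunkl_comm (hk : Adm W k) (b : Basis ι ℂ V) (v v' : V) :
    dunkl W k b v ∘ₗ dunkl W k b v' = dunkl W k b v' ∘ₗ dunkl W k b v := by
  have hT1 : dunkl W k b v * dunkl W k b v' ∈ OpAlg W b :=
    Subalgebra.mul_mem _ (dunkl_mem_OpAlg W k b v) (dunkl_mem_OpAlg W k b v')
  have hT2 : dunkl W k b v' * dunkl W k b v ∈ OpAlg W b :=
    Subalgebra.mul_mem _ (dunkl_mem_OpAlg W k b v') (dunkl_mem_OpAlg W k b v)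
  have hT : dunkl W k b v ∘ₗ dunkl W k b v' - dunkl W k b v' ∘ₗ dunkl W k b v ∈ OpAlg W b := by
    have e : dunkl W k b v ∘ₗ dunkl W k b v' - dunkl W k b v' ∘ₗ dunkl W k b v =
        dunkl W k b v * dunkl W k b v' + (-1 : ℂ) • (dunkl W k b v' * dunkl W k b v) := by
      refine LinearMap.ext fun m => ?_
      show dunkl W k b v (dunkl W k b v' m) - dunkl W k b v' (dunkl W k b v m) =
        dunkl W k b v (dunkl W k b v' m) + (-1 : ℂ) • dunkl W k b v' (dunkl W k b v m)
      rw [neg_smul, one_smul, sub_eq_add_neg]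
    rw [e]
    exact Subalgebra.add_mem _ hT1 (Subalgebra.smul_mem _ hT2 _)
  have h1 := OpAlg_comm_x W b hT (comm_comm_x W k hk b v v')
  have h2 : (dunkl W k b v ∘ₗ dunkl W k b v' - dunkl W k b v' ∘ₗ dunkl W k b v) (1 : Ax ι) = 0 := by
    rw [LinearMap.sub_apply, LinearMap.comp_apply, LinearMap.comp_apply, dunkl_one, dunkl_one,
      dunkl_yA_symm, sub_self]
  rw [h2] at h1
  have h3 : LinearMap.mulLeft ℂ (0 : Ax ι) = 0 := by
    refine LinearMap.ext fun m => ?_
    rw [LinearMap.mulLeft_apply, zero_mul]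
    rfl
  rw [h3] at h1
  exact sub_eq_zero.1 h1

end

end Pool.Agent.CM64
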