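import Mathlib

/-! Definitions for the statement: reflection groups, parameters, rational Cherednik algebras. -/

set_option linter.unusedSectionVars false

namespace Pool.Agent.CM64

open Module

section Groups

variable {V : Type} [AddCommGroup V] [Module ℂ V]

/-- The fixed subspace `V^g`. -/
def fixSub (g : V ≃ₗ[ℂ] V) : Submodule ℂ V where
  carrier := {v | g v = v}
  add_mem' := by
    intro a b (ha : g a = a) (hb : g b = b)
    show g (a + b) = a + b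
    rw [map_add, ha, hb]
  zero_mem' := by simp
  smul_mem' := by
    intro c a (ha : g a = a)
    show g (c • a) = c • a
    rw [map_smul, ha]

theorem mem_fixSub {g : V ≃ₗ[ℂ] V} {v : V} : v ∈ fixSub g ↔ g v = v := Iff.rfl

/-- `g` is a reflection: `codim V^g = 1`. -/
def IsRefl (g : V ≃ₗ[ℂ] V) : Prop := finrank ℂ (fixSub g) + 1 = finrank ℂ V

/-- `W_H`: the pointwise stabiliser in `W` of the subspace `H`. -/
def pst (W : Subgroup (V ≃ₗ[ℂ] V)) (H : Submodule ℂ V) : Subgroup (V ≃ₗ[ℂ] V) where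
  carrier := {g | g ∈ W ∧ ∀ v ∈ H, g v = v}
  mul_mem' := by
    rintro a b ⟨ha, ha'⟩ ⟨hb, hb'⟩
    refine ⟨W.mul_mem ha hb, fun v hv => ?_⟩
    rw [LinearEquiv.mul_apply, hb' v hv, ha' v hv]
  one_mem' := ⟨W.one_mem, fun v _ => rfl⟩
  inv_mem' := by
    rintro a ⟨ha, ha'⟩
    refine ⟨W.inv_mem ha, fun v hv => ?_⟩
    have := ha' v hv
    calc a⁻¹ v = a⁻¹ (a v) := by rw [this]
      _ = v := by rw [← LinearEquiv.mul_apply, inv_mul_cancel]; rfl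

theorem mem_pst {W : Subgroup (V ≃ₗ[ℂ] V)} {H : Submodule ℂ V} {g : V ≃ₗ[ℂ] V} :
    g ∈ pst W H ↔ g ∈ W ∧ ∀ v ∈ H, g v = v := Iff.rfl

theorem pst_le (W : Subgroup (V ≃ₗ[ℂ] V)) (H : Submodule ℂ V) : pst W H ≤ W := fun _ h => h.1

/-- The set `𝒜` of reflecting hyperplanes `V^s`, `s` a reflection in `W`. -/
def arr (W : Subgroup (V ≃ₗ[ℂ] V)) : Set (Submodule ℂ V) := {H | ∃ s ∈ W, IsRefl s ∧ fixSub s = H}

/-- `e_H = |W_H|`. -/
noncomputable def eH (W : Subgroup (V ≃ₗ[ℂ] V)) (H : Submodule ℂ V) : ℕ := Nat.card (pst W H)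

/-- `W` is generated by its reflections. -/
def ReflGen (W : Subgroup (V ≃ₗ[ℂ] V)) : Prop := Subgroup.closure {s | s ∈ W ∧ IsRefl s} = W

theorem arr_finite (W : Subgroup (V ≃ₗ[ℂ] V)) [Finite W] : (arr W).Finite := by
  have h : (arr W) ⊆ (fun s => fixSub s) '' (W : Set (V ≃ₗ[ℂ] V)) := by
    rintro H ⟨s, hs, _, rfl⟩
    exact ⟨s, hs, rfl⟩
  exact Set.Finite.subset ((Set.toFinite (W : Set (V ≃ₗ[ℂ] V))).image _) h

/-- the finite set of reflecting hyperplanes. -/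
noncomputable def arrF (W : Subgroup (V ≃ₗ[ℂ] V)) [Finite W] : Finset (Submodule ℂ V) :=
  (arr_finite W).toFinset

theorem mem_arrF {W : Subgroup (V ≃ₗ[ℂ] V)} [Finite W] {H : Submodule ℂ V} :
    H ∈ arrF W ↔ H ∈ arr W := by simp [arrF]

theorem pst_finite (W : Subgroup (V ≃ₗ[ℂ] V)) [Finite W] (H : Submodule ℂ V) :
    ((pst W H : Subgroup (V ≃ₗ[ℂ] V)) : Set (V ≃ₗ[ℂ] V)).Finite :=
  Set.Finite.subset (Set.toFinite (W : Set (V ≃ₗ[ℂ] V))) (fun _ h => h.1)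

instance pst.instFinite (W : Subgroup (V ≃ₗ[ℂ] V)) [Finite W] (H : Submodule ℂ V) : Finite (pst W H) :=
  (pst_finite W H).to_subtype

/-- the finite set of elements of `W_H`. -/
noncomputable def pstF (W : Subgroup (V ≃ₗ[ℂ] V)) [Finite W] (H : Submodule ℂ V) : Finset (V ≃ₗ[ℂ] V) :=
  (pst_finite W H).toFinset

theorem mem_pstF {W : Subgroup (V ≃ₗ[ℂ] V)} [Finite W] {H : Submodule ℂ V} {g : V ≃ₗ[ℂ] V} :
    g ∈ pstF W H ↔ g ∈ pst W H := by simp [pstF]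

theorem card_pstF (W : Subgroup (V ≃ₗ[ℂ] V)) [Finite W] (H : Submodule ℂ V) :
    (pstF W H).card = eH W H := by
  rw [eH, pstF, ← Set.ncard_eq_toFinset_card _ (pst_finite W H)]
  rfl

/-- the determinant of `g ∈ GL(V)`. -/
noncomputable def dt (g : V ≃ₗ[ℂ] V) : ℂ := LinearMap.det (g : V →ₗ[ℂ] V)

/-- The projection `P_H` of `V` onto the `W_H`-stable complement of `H`, along `H`:
`P_H(y) = ⟨y, α_H⟩ / ⟨α_H^∨, α_H⟩ • α_H^∨`; it equals `1 - (1/e_H) ∑_{g ∈ W_H} g`. -/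
noncomputable def projH (W : Subgroup (V ≃ₗ[ℂ] V)) [Finite W] (H : Submodule ℂ V) : V →ₗ[ℂ] V :=
  LinearMap.id - (eH W H : ℂ)⁻¹ • ∑ g ∈ pstF W H, (g : V →ₗ[ℂ] V)

/-- The space `ℂ^ℵ` of parameters: functions `k_{H,j}`, `H` a reflecting hyperplane and `j` an integer
modulo `e_H`, which are constant on `W`-orbits of hyperplanes (and `0` by convention if `H` is not a
reflecting hyperplane). -/
def Param (W : Subgroup (V ≃ₗ[ℂ] V)) : Submodule ℂ (Submodule ℂ V → ℤ → ℂ) where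
  carrier := {k | (∀ H, H ∉ arr W → ∀ j, k H j = 0) ∧
    (∀ g ∈ W, ∀ H j, k (H.map (g : V →ₗ[ℂ] V)) j = k H j) ∧ (∀ H j, k H (j + eH W H) = k H j)}
  add_mem' := by
    rintro a b ⟨h1, h2, h3⟩ ⟨h1', h2', h3'⟩
    refine ⟨fun H hH j => ?_, fun g hg H j => ?_, fun H j => ?_⟩
    · simp [h1 H hH j, h1' H hH j]
    · simp [h2 g hg H j, h2' g hg H j]
    · simp [h3 H j, h3' H j]
  zero_mem' := ⟨fun _ _ _ => rfl, fun _ _ _ _ => rfl, fun _ _ => rfl⟩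
  smul_mem' := by
    rintro c a ⟨h1, h2, h3⟩
    refine ⟨fun H hH j => ?_, fun g hg H j => ?_, fun H j => ?_⟩
    · simp [h1 H hH j]
    · simp [h2 g hg H j]
    · simp [h3 H j]

/-- admissible parameters: what the algebra needs from a parameter (all elements of `Param W` are admissible). -/
structure Adm (W : Subgroup (V ≃ₗ[ℂ] V)) (k : Submodule ℂ V → ℤ → ℂ) : Prop where
  inv : ∀ g ∈ W, ∀ H ∈ arr W, ∀ j, k (H.map (g : V →ₗ[ℂ] V)) j = k H j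
  per : ∀ H ∈ arr W, ∀ j, k H (j + eH W H) = k H j

theorem adm_of_mem_Param {W : Subgroup (V ≃ₗ[ℂ] V)} {k : Submodule ℂ V → ℤ → ℂ} (hk : k ∈ Param W) :
    Adm W k := ⟨fun g hg H _ j => hk.2.1 g hg H j, fun H _ j => hk.2.2 H j⟩

/-- `g` normalises `W`. -/
def Normalizes (g : V ≃ₗ[ℂ] V) (W : Subgroup (V ≃ₗ[ℂ] V)) : Prop :=
  ∀ h, h ∈ W ↔ g * h * g⁻¹ ∈ W

/-- the parameter `k` is fixed by `g`. -/
def FixesParam (g : V ≃ₗ[ℂ] V) (k : Submodule ℂ V → ℤ → ℂ) : Prop :=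
  ∀ H j, k (H.map (g : V →ₗ[ℂ] V)) j = k H j

/-- `τ` is regular: some `τ`-fixed vector lies on no reflecting hyperplane of `W`. -/
def IsRegular (W : Subgroup (V ≃ₗ[ℂ] V)) (τ : V ≃ₗ[ℂ] V) : Prop :=
  ∃ v ∈ fixSub τ, ∀ H ∈ arr W, v ∉ H

/-- `W^τ` acting on `V^τ`. -/
def fixGrp (W : Subgroup (V ≃ₗ[ℂ] V)) (τ : V ≃ₗ[ℂ] V) :
    Subgroup (↥(fixSub τ) ≃ₗ[ℂ] ↥(fixSub τ)) where
  carrier := {g | ∃ w ∈ W, w * τ = τ * w ∧ ∀ u : ↥(fixSub τ), ((g u : ↥(fixSub τ)) : V) = w (u : V)}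
  mul_mem' := by
    rintro a b ⟨w, hw, hc, h⟩ ⟨w', hw', hc', h'⟩
    refine ⟨w * w', W.mul_mem hw hw', ?_, fun u => ?_⟩
    · rw [mul_assoc, hc', ← mul_assoc, hc, mul_assoc]
    · rw [LinearEquiv.mul_apply, LinearEquiv.mul_apply, h, h']
  one_mem' := ⟨1, W.one_mem, by rw [one_mul, mul_one], fun u => rfl⟩
  inv_mem' := by
    rintro a ⟨w, hw, hc, h⟩
    refine ⟨w⁻¹, W.inv_mem hw, ?_, fun u => ?_⟩
    · rw [eq_comm, mul_inv_eq_iff_eq_mul] 
      rw [mul_assoc, ← hc, ← mul_assoc, inv_mul_cancel, one_mul]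
    · have h1 := h (a⁻¹ u)
      have h2 : a (a⁻¹ u) = u := by rw [← LinearEquiv.mul_apply, mul_inv_cancel]; rfl
      rw [h2] at h1
      rw [h1, ← LinearEquiv.mul_apply, inv_mul_cancel]; rfl

end Groups

section Cherednik

variable {V : Type} [AddCommGroup V] [Module ℂ V]

/-- generators of the rational Cherednik algebra: `V*`, `V`, `W` and the deformation parameter `t`. -/
inductive Gen (W : Subgroup (V ≃ₗ[ℂ] V)) : Type
  | x (f : Dual ℂ V) : Gen W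
  | y (v : V) : Gen W
  | w (g : W) : Gen W
  | t : Gen W

variable (W : Subgroup (V ≃ₗ[ℂ] V))

/-- the generator `t`. -/
def tF : FreeAlgebra ℂ (Gen W) := FreeAlgebra.ι ℂ Gen.t
/-- the generator `x ∈ V*`. -/
def xF (f : Dual ℂ V) : FreeAlgebra ℂ (Gen W) := FreeAlgebra.ι ℂ (Gen.x f)
/-- the generator `y ∈ V`. -/
def yF (v : V) : FreeAlgebra ℂ (Gen W) := FreeAlgebra.ι ℂ (Gen.y v)
/-- the generator `g ∈ W`. -/
def wF (g : W) : FreeAlgebra ℂ (Gen W) := FreeAlgebra.ι ℂ (Gen.w g)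

open Classical in
/-- `ε_{H,j} = (1/e_H) ∑_{g ∈ W_H} det(g)^j g`. -/
noncomputable def epsF [Finite W] (H : Submodule ℂ V) (j : ℕ) : FreeAlgebra ℂ (Gen W) :=
  (eH W H : ℂ)⁻¹ • ∑ g ∈ (pstF W H).attach,
    (dt (g : V ≃ₗ[ℂ] V)) ^ j • wF W ⟨g.1, (mem_pstF.1 g.2).1⟩

/-- the right hand side of the commutation relation
`[y,x] = t⟨y,x⟩ + ∑_H ∑_j e_H (k_{H,j} - k_{H,j+1}) ⟨y,α_H⟩⟨α_H^∨,x⟩/⟨α_H^∨,α_H⟩ ε_{H,j}`. -/
noncomputable def commF [Finite W] (k : Submodule ℂ V → ℤ → ℂ) (v : V) (f : Dual ℂ V) :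
    FreeAlgebra ℂ (Gen W) :=
  f v • tF W + ∑ H ∈ arrF W, ∑ j ∈ Finset.range (eH W H),
    ((eH W H : ℂ) * (k H j - k H (j + 1)) * f (projH W H v)) • epsF W H j

/-- The defining relations of the rational Cherednik algebra; `P = False`: `t` is a central indeterminate,
`P = True`: moreover `t = 0`. -/
inductive Rel [Finite W] (k : Submodule ℂ V → ℤ → ℂ) (P : Prop) :
    FreeAlgebra ℂ (Gen W) → FreeAlgebra ℂ (Gen W) → Prop
  | x_add (f f' : Dual ℂ V) : Rel k P (xF W (f + f')) (xF W f + xF W f')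
  | x_smul (c : ℂ) (f : Dual ℂ V) : Rel k P (xF W (c • f)) (c • xF W f)
  | y_add (v v' : V) : Rel k P (yF W (v + v')) (yF W v + yF W v')
  | y_smul (c : ℂ) (v : V) : Rel k P (yF W (c • v)) (c • yF W v)
  | w_one : Rel k P (wF W 1) 1
  | w_mul (g h : W) : Rel k P (wF W (g * h)) (wF W g * wF W h)
  | xx (f f' : Dual ℂ V) : Rel k P (xF W f * xF W f') (xF W f' * xF W f)
  | yy (v v' : V) : Rel k P (yF W v * yF W v') (yF W v' * yF W v)
  | wx (g : W) (f : Dual ℂ V) :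
      Rel k P (wF W g * xF W f) (xF W (f.comp ((g : V ≃ₗ[ℂ] V).symm : V →ₗ[ℂ] V)) * wF W g)
  | wy (g : W) (v : V) : Rel k P (wF W g * yF W v) (yF W ((g : V ≃ₗ[ℂ] V) v) * wF W g)
  | tx (f : Dual ℂ V) : Rel k P (tF W * xF W f) (xF W f * tF W)
  | ty (v : V) : Rel k P (tF W * yF W v) (yF W v * tF W)
  | tw (g : W) : Rel k P (tF W * wF W g) (wF W g * tF W)
  | yx (v : V) (f : Dual ℂ V) : Rel k P (yF W v * xF W f) (xF W f * yF W v + commF W k v f)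
  | t_zero (h : P) : Rel k P (tF W) 0

/-- The rational Cherednik algebra: `Ch W k False` is the algebra over `ℂ[t]`, `Ch W k True` is `𝐇_k`, its
specialisation at `t = 0`. -/
abbrev Ch [Finite W] (k : Submodule ℂ V → ℤ → ℂ) (P : Prop) : Type := RingQuot (Rel W k P)

variable [Finite W] (k : Submodule ℂ V → ℤ → ℂ) (P : Prop)

/-- `x ∈ V*` in the Cherednik algebra. -/
noncomputable def cx (f : Dual ℂ V) : Ch W k P := RingQuot.mkAlgHom ℂ (Rel W k P) (xF W f)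
/-- `y ∈ V` in the Cherednik algebra. -/
noncomputable def cy (v : V) : Ch W k P := RingQuot.mkAlgHom ℂ (Rel W k P) (yF W v)
/-- `g ∈ W` in the Cherednik algebra. -/
noncomputable def cw (g : W) : Ch W k P := RingQuot.mkAlgHom ℂ (Rel W k P) (wF W g)
/-- `t` in the Cherednik algebra. -/
noncomputable def ct : Ch W k P := RingQuot.mkAlgHom ℂ (Rel W k P) (tF W)

end Cherednik

end Pool.Agent.CM64
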