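import Pool.Agent.LibCM64.Transport

/-! Directional derivatives in the `x`-directions on `ℂ(V)[ξ]`, Poisson bracket. -/

set_option linter.unusedSectionVars false

namespace Pool.Agent.CM64

open Module MvPolynomial

section Deriv

variable {V : Type} [AddCommGroup V] [Module ℂ V]
variable {ι : Type} [Fintype ι]

/-- `p ↦ p + ε ∂_v p` on polynomials. -/
noncomputable def dhP (b : Basis ι ℂ V) (v : V) : Px ι →ₐ[ℂ] DualNumber (Ax ι) :=
  aeval (fun i => (TrivSqZeroExt.inl (xA (X i : Px ι)) + TrivSqZeroExt.inr (algebraMap ℂ (Ax ι) (b.repr v i)) :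
    DualNumber (Ax ι)))

theorem dhP_fst (b : Basis ι ℂ V) (v : V) (p : Px ι) : (dhP b v p).fst = xA p := by
  have : (TrivSqZeroExt.fstHom ℂ (Ax ι) (Ax ι)).comp (dhP b v) = xA := by
    apply MvPolynomial.algHom_ext
    intro i
    rw [AlgHom.comp_apply]
    simp [dhP]
  exact congrArg (fun f => f p) this

theorem dhP_isUnit (b : Basis ι ℂ V) (v : V) {p : Px ι} (hp : p ≠ 0) : IsUnit (dhP b v p) := by
  rw [TrivSqZeroExt.isUnit_iff_isUnit_fst, dhP_fst, xA_apply]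
  have : pF p ≠ 0 := fun h => hp (pF_injective (by rw [h, map_zero]))
  exact (IsUnit.mk0 _ this).map (C : Fx ι →+* Ax ι)

/-- `f ↦ f + ε ∂_v f` on rational functions. -/
noncomputable def dhF (b : Basis ι ℂ V) (v : V) : Fx ι →ₐ[ℂ] DualNumber (Ax ι) :=
  IsLocalization.liftAlgHom (M := nonZeroDivisors (Px ι)) (S := Fx ι) (f := dhP b v)
    (fun y => dhP_isUnit b v (nonZeroDivisors.ne_zero y.2))

theorem dhF_pF (b : Basis ι ℂ V) (v : V) (p : Px ι) : dhF b v (pF p) = dhP b v p := by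
  rw [pF_apply, dhF]
  exact IsLocalization.lift_eq _ _

theorem dhF_fst (b : Basis ι ℂ V) (v : V) (c : Fx ι) : (dhF b v c).fst = (C c : Ax ι) := by
  obtain ⟨p, q, hq, rfl⟩ := IsFractionRing.div_surjective (A := Px ι) c
  have hq0 : pF q ≠ 0 := fun h => (nonZeroDivisors.ne_zero hq) (pF_injective (by rw [h, map_zero]))
  have h1 : (algebraMap (Px ι) (Fx ι) p / algebraMap (Px ι) (Fx ι) q) * pF q = pF p := by
    rw [pF_apply, pF_apply, div_mul_cancel₀]
    rwa [pF_apply] at hq0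
  have h2 := congrArg (fun z => (dhF b v z).fst) h1
  simp only [map_mul, TrivSqZeroExt.fst_mul, dhF_pF, dhP_fst] at h2
  have h3 : (C (algebraMap (Px ι) (Fx ι) p / algebraMap (Px ι) (Fx ι) q) : Ax ι) * xA q = xA p := by
    rw [xA_apply, xA_apply, ← C_mul, h1]
  have hx : (xA q : Ax ι) ≠ 0 := fun h => (nonZeroDivisors.ne_zero hq) (xA_injective (by rw [h, map_zero]))
  exact mul_right_cancel₀ hx (h2.trans h3.symm)

/-- `f ↦ f + ε ∂_v f` on `ℂ(V)[ξ]`. -/
noncomputable def dhA (b : Basis ι ℂ V) (v : V) : Ax ι →ₐ[ℂ] DualNumber (Ax ι) :=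
  MvPolynomial.aevalTower (dhF b v) (fun i => TrivSqZeroExt.inl (X i))

theorem dhA_C (b : Basis ι ℂ V) (v : V) (c : Fx ι) : dhA b v (C c) = dhF b v c := by
  rw [dhA, MvPolynomial.aevalTower_C]

theorem dhA_X (b : Basis ι ℂ V) (v : V) (i : ι) : dhA b v (X i) = TrivSqZeroExt.inl (X i) := by
  rw [dhA, MvPolynomial.aevalTower_X]

theorem dhA_xA (b : Basis ι ℂ V) (v : V) (p : Px ι) : dhA b v (xA p) = dhP b v p := by
  rw [xA_apply, dhA_C, dhF_pF]

theorem dhA_fst (b : Basis ι ℂ V) (v : V) (p : Ax ι) : (dhA b v p).fst = p := by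
  have : (TrivSqZeroExt.fstHom ℂ (Ax ι) (Ax ι)).comp (dhA b v) = AlgHom.id ℂ (Ax ι) := by
    apply algHom_Ax_ext
    · intro c
      rw [AlgHom.comp_apply, dhA_C, AlgHom.id_apply]
      exact dhF_fst b v c
    · intro i
      rw [AlgHom.comp_apply, dhA_X, AlgHom.id_apply]
      simp
  exact congrArg (fun f => f p) this

/-- the derivative `∂_v` in the direction `v ∈ V` (acting on the coefficients). -/
noncomputable def dA (b : Basis ι ℂ V) (v : V) : Module.End ℂ (Ax ι) :=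
  (TrivSqZeroExt.sndHom (Ax ι) (Ax ι)).restrictScalars ℂ ∘ₗ (dhA b v).toLinearMap

theorem dA_apply (b : Basis ι ℂ V) (v : V) (p : Ax ι) : dA b v p = (dhA b v p).snd := rfl

theorem dA_mul (b : Basis ι ℂ V) (v : V) (p q : Ax ι) :
    dA b v (p * q) = p * dA b v q + dA b v p * q := by
  rw [dA_apply, dA_apply, dA_apply, map_mul, TrivSqZeroExt.snd_mul, dhA_fst, dhA_fst]
  simp [mul_comm]

theorem dA_X (b : Basis ι ℂ V) (v : V) (i : ι) : dA b v (X i) = 0 := by
  rw [dA_apply, dhA_X]; simp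

theorem dA_one (b : Basis ι ℂ V) (v : V) : dA b v 1 = 0 := by
  rw [dA_apply, map_one]; simp

theorem dA_yA (b : Basis ι ℂ V) (v u : V) : dA b v (yA b u) = 0 := by
  rw [yA_apply, map_sum]
  refine Finset.sum_eq_zero (fun i _ => ?_)
  rw [map_smul, dA_X, smul_zero]

theorem dA_xA_X (b : Basis ι ℂ V) (v : V) (i : ι) :
    dA b v (xA (X i : Px ι)) = algebraMap ℂ (Ax ι) (b.repr v i) := by
  rw [dA_apply, dhA_xA, dhP, aeval_X]; simp

theorem dA_xl (b : Basis ι ℂ V) (v : V) (f : Dual ℂ V) :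
    dA b v (xA (xl b f)) = algebraMap ℂ (Ax ι) (f v) := by
  rw [xl_apply, map_sum, map_sum]
  have h := b.sum_repr v
  have hf : f v = ∑ i, f (b i) * b.repr v i := by
    conv_lhs => rw [← h]
    rw [map_sum]
    refine Finset.sum_congr rfl (fun i _ => ?_)
    rw [map_smul, smul_eq_mul, mul_comm]
  rw [hf, map_sum]
  refine Finset.sum_congr rfl (fun i _ => ?_)
  rw [map_smul, map_smul, dA_xA_X, Algebra.smul_def, map_mul]

/-- the canonical Poisson bracket `∑_i (∂_{ξ_i} f ∂_{x_i} g - ∂_{ξ_i} g ∂_{x_i} f)`. -/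
noncomputable def pb (b : Basis ι ℂ V) (f g : Ax ι) : Ax ι :=
  ∑ i, (pderiv i f * dA b (b i) g - pderiv i g * dA b (b i) f)

/-- `∇ f = ∑_i (∂_{ξ_i} f) ∂_{x_i}`. -/
noncomputable def nab (b : Basis ι ℂ V) (f : Ax ι) : Module.End ℂ (Ax ι) :=
  ∑ i, (LinearMap.mulLeft ℂ (pderiv i f)) ∘ₗ dA b (b i)

end Deriv

end Pool.Agent.CM64
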