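import Pool.Agent.LibCM64.Tact

/-! One dimensional `U`: `ℂ[a^{±1}, ξ]` as Laurent polynomials in `a^e` over `ℂ[T]`, `T = a ξ`. -/

set_option linter.unusedSectionVars false

namespace Pool.Agent.CM64

open Module MvPolynomial

/-- Laurent polynomials with coefficients in `ℂ[T]`. -/
abbrev LP : Type := LaurentPolynomial (Polynomial ℂ)

/-- `a^m`. -/
noncomputable def aZ (m : ℤ) : Ax Unit := C ((pF (X () : Px Unit)) ^ m)

theorem pF_X_ne_zero : pF (X () : Px Unit) ≠ 0 := by
  intro h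
  have h1 : pF (X () : Px Unit) = pF 0 := by rw [h, map_zero]
  exact X_ne_zero () (pF_injective h1)

theorem aZ_zero : aZ 0 = 1 := by
  unfold aZ
  rw [zpow_zero, map_one]

theorem aZ_add (m n : ℤ) : aZ (m + n) = aZ m * aZ n := by
  unfold aZ
  rw [zpow_add₀ pF_X_ne_zero, map_mul]

theorem aZ_one : aZ 1 = xA (X () : Px Unit) := by
  unfold aZ
  rw [zpow_one, xA_apply]

theorem aZ_natCast (n : ℕ) : aZ (n : ℤ) = xA ((X () : Px Unit) ^ n) := by
  unfold aZ
  rw [zpow_natCast, xA_apply]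
  congr 1
  exact (map_pow pF _ _).symm

/-- `T = a ξ`. -/
noncomputable def tU : Ax Unit := aZ 1 * X ()

/-- powers of `a^e`. -/
noncomputable def lauG (e : ℕ) : Multiplicative ℤ →* Ax Unit where
  toFun m := aZ ((e : ℤ) * Multiplicative.toAdd m)
  map_one' := by
    rw [toAdd_one, mul_zero]; exact aZ_zero
  map_mul' m n := by
    rw [toAdd_mul, mul_add]; exact aZ_add _ _

/-- `∑_m x^m F_m(T) ↦ ∑_m a^{e m} F_m(a ξ)`. -/
noncomputable def lau (e : ℕ) : LP →ₐ[ℂ] Ax Unit :=
  AddMonoidAlgebra.liftNCAlgHom (Polynomial.aeval tU) (lauG e) (fun _ _ => Commute.all _ _)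

private theorem rka_lau_single (e : ℕ) (m : ℤ) (P : Polynomial ℂ) :
    lau e (AddMonoidAlgebra.single m P) = Polynomial.aeval tU P * aZ ((e : ℤ) * m) := by
  unfold lau
  rw [AddMonoidAlgebra.coe_liftNCAlgHom, AddMonoidAlgebra.liftNC_single]
  rfl

private theorem rka_lau_apply (e : ℕ) (F : LP) :
    lau e F = F.coeff.sum (fun m P => Polynomial.aeval tU P * aZ ((e : ℤ) * m)) := by
  have h : F = F.coeff.sum (fun m P => (AddMonoidAlgebra.single m P : LP)) :=
    (AddMonoidAlgebra.sum_coeff_single F).symm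
  conv_lhs => rw [h]
  rw [map_finsuppSum]
  exact Finsupp.sum_congr (fun m _ => rka_lau_single e m _)

theorem lau_T (e : ℕ) (m : ℤ) : lau e (LaurentPolynomial.T m) = aZ ((e : ℤ) * m) := by
  have h := rka_lau_single e m 1
  rw [map_one, one_mul] at h
  exact h

theorem lau_C (e : ℕ) (P : Polynomial ℂ) : lau e (LaurentPolynomial.C P) = Polynomial.aeval tU P := by
  have h := rka_lau_single e 0 P
  rw [mul_zero, aZ_zero, mul_one] at h
  exact h

private theorem rka_aZ_pow (m : ℤ) (n : ℕ) : aZ m ^ n = aZ (m * n) := by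
  unfold aZ
  rw [← map_pow, ← zpow_natCast, ← zpow_mul]

private theorem rka_tU_pow (n : ℕ) : tU ^ n = aZ n * X () ^ n := by
  unfold tU
  rw [mul_pow, rka_aZ_pow, one_mul]

private theorem rka_algebraMap (c : ℂ) :
    algebraMap ℂ (Ax Unit) c = C (algebraMap ℂ (Fx Unit) c) := by
  rw [MvPolynomial.algebraMap_apply]

/-- the coefficients of `P(T) a^k`. -/
private theorem rka_coeff (P : Polynomial ℂ) (k : ℤ) (n : ℕ) :
    coeff (Finsupp.single () n) (Polynomial.aeval tU P * aZ k) =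
      algebraMap ℂ (Fx Unit) (P.coeff n) * (pF (X () : Px Unit)) ^ (k + n) := by
  induction P using Polynomial.induction_on' with
  | add p q hp hq =>
    rw [map_add, add_mul, coeff_add, hp, hq, Polynomial.coeff_add, map_add, add_mul]
  | monomial j c =>
    rw [Polynomial.aeval_monomial, rka_tU_pow, rka_algebraMap]
    have h1 : C (algebraMap ℂ (Fx Unit) c) * (aZ (j : ℤ) * X () ^ j) * aZ k =
        C (algebraMap ℂ (Fx Unit) c * (pF (X () : Px Unit)) ^ (k + j)) * X () ^ j := by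
      have h2 : aZ (k + j) = C ((pF (X () : Px Unit)) ^ (k + (j : ℤ))) := rfl
      rw [map_mul, ← h2, aZ_add]
      ring
    rw [h1, coeff_C_mul, X_pow_eq_monomial, coeff_monomial, Polynomial.coeff_monomial]
    by_cases hjn : j = n
    · subst hjn
      rw [if_pos rfl, if_pos rfl, mul_one]
    · rw [if_neg, if_neg hjn, map_zero, mul_zero, zero_mul]
      intro h
      apply hjn
      have := congrArg (fun f => f ()) h
      simpa using this

/-- powers of `a` are linearly independent. -/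
private theorem rka_indep (S : Finset ℤ) (c : ℤ → ℂ) (k : ℤ → ℤ) (hk : Function.Injective k)
    (h : ∑ m ∈ S, algebraMap ℂ (Fx Unit) (c m) * (pF (X () : Px Unit)) ^ (k m) = 0) :
    ∀ m ∈ S, c m = 0 := by
  classical
  obtain ⟨N, hN⟩ : ∃ N : ℕ, ∀ m ∈ S, 0 ≤ k m + N := by
    refine ⟨∑ m ∈ S, (k m).natAbs, fun m hm => ?_⟩
    have h1 : (k m).natAbs ≤ ∑ m ∈ S, (k m).natAbs :=
      Finset.single_le_sum (f := fun m => (k m).natAbs) (fun _ _ => Nat.zero_le _) hm
    omega
  have h2 : pF (∑ m ∈ S, C (c m) * (X () : Px Unit) ^ (k m + N).toNat) = 0 := by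
    rw [map_sum]
    have h3 : ∑ m ∈ S, pF (C (c m) * (X () : Px Unit) ^ (k m + N).toNat) =
        (∑ m ∈ S, algebraMap ℂ (Fx Unit) (c m) * (pF (X () : Px Unit)) ^ (k m)) *
          (pF (X () : Px Unit)) ^ N := by
      rw [Finset.sum_mul]
      refine Finset.sum_congr rfl fun m hm => ?_
      rw [map_mul, map_pow, ← MvPolynomial.algebraMap_eq, AlgHom.commutes, mul_assoc]
      congr 1
      rw [← zpow_natCast, ← zpow_natCast, ← zpow_add₀ pF_X_ne_zero]
      congr 1
      exact Int.toNat_of_nonneg (hN m hm)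
    rw [h3, h, zero_mul]
  have h4 : ∑ m ∈ S, C (c m) * (X () : Px Unit) ^ (k m + N).toNat = 0 := by
    apply pF_injective
    rw [h2, map_zero]
  intro m hm
  have h5 := congrArg (coeff (Finsupp.single () (k m + N).toNat)) h4
  rw [coeff_sum, coeff_zero] at h5
  rw [Finset.sum_eq_single m] at h5
  · rw [coeff_C_mul, X_pow_eq_monomial, coeff_monomial, if_pos rfl, mul_one] at h5
    exact h5
  · intro b hb hbm
    rw [coeff_C_mul, X_pow_eq_monomial, coeff_monomial, if_neg, mul_zero]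
    intro hh
    have h6 := congrArg (fun f => f ()) hh
    simp only [Finsupp.single_eq_same] at h6
    have h7 := hN b hb
    have h8 := hN m hm
    apply hbm
    apply hk
    omega
  · intro hh
    exact absurd hm hh

/-- key lemma: comparison of coefficients. -/
private theorem rka_key {e : ℕ} (he : 0 < e) (F : LP) (u : ℤ → ℂ)
    (h : F.coeff.sum (fun m P => u m • (Polynomial.aeval tU P * aZ ((e : ℤ) * m))) = 0) :
    ∀ m, u m • F.coeff m = 0 := by
  intro m
  by_cases hm : m ∈ F.coeff.support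
  · ext n
    have h1 := congrArg (coeff (Finsupp.single () n)) h
    rw [Finsupp.sum, coeff_sum, coeff_zero] at h1
    have h2 : ∑ x ∈ F.coeff.support, algebraMap ℂ (Fx Unit) (u x * (F.coeff x).coeff n) *
        (pF (X () : Px Unit)) ^ ((e : ℤ) * x + n) = 0 := by
      rw [← h1]
      refine Finset.sum_congr rfl fun x _ => ?_
      rw [coeff_smul, rka_coeff, map_mul, Algebra.smul_def, mul_assoc]
    have h3 := rka_indep F.coeff.support (fun x => u x * (F.coeff x).coeff n)
      (fun x => (e : ℤ) * x + n) (by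
        intro x y hxy
        have hxy' : (e : ℤ) * x + n = (e : ℤ) * y + n := hxy
        have he' : (e : ℤ) ≠ 0 := by exact_mod_cast he.ne'
        have h4 : (e : ℤ) * x = (e : ℤ) * y := by linarith
        exact mul_left_cancel₀ he' h4) h2 m hm
    rw [Polynomial.coeff_smul, smul_eq_mul, Polynomial.coeff_zero]
    exact h3
  · rw [Finsupp.notMem_support_iff] at hm
    rw [hm, smul_zero]

theorem lau_injective {e : ℕ} (he : 0 < e) : Function.Injective (lau e) := by
  rw [injective_iff_map_eq_zero]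
  intro F hF
  have h := rka_key he F (fun _ => 1) (by
    rw [rka_lau_apply] at hF
    simpa using hF)
  apply AddMonoidAlgebra.coeff_injective
  ext1 m
  have := h m
  rw [one_smul] at this
  rw [this]
  rfl

private theorem rka_aZ_mem (m : ℤ) : aZ m ∈ (lau 1).range :=
  ⟨LaurentPolynomial.T m, by
    have := lau_T 1 m
    rw [Nat.cast_one, one_mul] at this
    exact this⟩

private theorem rka_X_mem : (X () : Ax Unit) ∈ (lau 1).range := by
  have h : (X () : Ax Unit) = aZ (-1) * tU := by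
    unfold tU
    rw [← mul_assoc, ← aZ_add, neg_add_cancel, aZ_zero, one_mul]
  rw [h]
  refine Subalgebra.mul_mem _ (rka_aZ_mem _) ⟨LaurentPolynomial.C Polynomial.X, ?_⟩
  have := lau_C 1 Polynomial.X
  rw [Polynomial.aeval_X] at this
  exact this

private theorem rka_xA_mem (q : Px Unit) : xA q ∈ (lau 1).range := by
  induction q using MvPolynomial.induction_on with
  | C a =>
    rw [← MvPolynomial.algebraMap_eq, AlgHom.commutes]
    exact Subalgebra.algebraMap_mem _ _
  | add p q hp hq => rw [map_add]; exact Subalgebra.add_mem _ hp hq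
  | mul_X p i hp =>
    rw [map_mul]
    refine Subalgebra.mul_mem _ hp ?_
    have : xA (X i : Px Unit) = aZ 1 := aZ_one.symm
    rw [this]
    exact rka_aZ_mem 1

private theorem rka_jR_mem (p : Rx Unit) : jR p ∈ (lau 1).range := by
  induction p using MvPolynomial.induction_on with
  | C a => rw [jR_C]; exact rka_xA_mem a
  | add p q hp hq => rw [map_add]; exact Subalgebra.add_mem _ hp hq
  | mul_X p i hp =>
    rw [map_mul, jR_X]
    exact Subalgebra.mul_mem _ hp rka_X_mem

/-- the image of `lau 1` consists of the elements with a power of `a` as denominator. -/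
theorem exists_lau {s : Ax Unit} (h : ∃ (N : ℕ) (p : Rx Unit), jR p = xA ((X () : Px Unit) ^ N) * s) :
    ∃ F : LP, lau 1 F = s := by
  obtain ⟨N, p, hp⟩ := h
  have h1 : s = aZ (-(N : ℤ)) * jR p := by
    rw [hp, ← aZ_natCast, ← mul_assoc, ← aZ_add, neg_add_cancel, aZ_zero, one_mul]
  have h2 : s ∈ (lau 1).range := by
    rw [h1]
    exact Subalgebra.mul_mem _ (rka_aZ_mem _) (rka_jR_mem p)
  exact h2

section

variable {L : Type} [AddCommGroup L] [Module ℂ L] [FiniteDimensional ℂ L]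

/-- the action of a scalar: `a ↦ c⁻¹ a`, `ξ ↦ c ξ`, `T ↦ T`. -/
theorem act_scal_aZ (bL : Basis Unit ℂ L) {g : L ≃ₗ[ℂ] L} {c : ℂ} (hc : c ≠ 0) (hg : ∀ u, g u = c • u) (m : ℤ) :
    trA bL bL g (aZ m) = algebraMap ℂ (Ax Unit) (c ^ (-m)) * aZ m := by
  have hsymm : ∀ u, g.symm u = c⁻¹ • u := by
    intro u
    apply g.injective
    rw [LinearEquiv.apply_symm_apply, hg, smul_smul, mul_inv_cancel₀ hc, one_smul]
  have h1 : (bL.coord ()).comp (g.symm : L →ₗ[ℂ] L) = c⁻¹ • bL.coord () := by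
    ext u
    rw [LinearMap.comp_apply, LinearMap.smul_apply]
    show bL.coord () (g.symm u) = _
    rw [hsymm, map_smul]
  have h2 : trF bL bL g (pF (X () : Px Unit)) =
      algebraMap ℂ (Fx Unit) c⁻¹ * pF (X () : Px Unit) := by
    rw [trF_pF, trP_X, h1, map_smul, xl_coord, map_smul, Algebra.smul_def]
  unfold aZ
  rw [trA_C, map_zpow₀, h2, mul_zpow, map_mul, rka_algebraMap, ← map_zpow₀, inv_zpow, zpow_neg]

theorem act_scal_tU (bL : Basis Unit ℂ L) {g : L ≃ₗ[ℂ] L} {c : ℂ} (hc : c ≠ 0) (hg : ∀ u, g u = c • u) :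
    trA bL bL g tU = tU := by
  unfold tU
  rw [map_mul, act_scal_aZ bL hc hg, trA_X, hg, map_smul, yA_basis, Algebra.smul_def, zpow_neg,
    zpow_one]
  have h1 : algebraMap ℂ (Ax Unit) c⁻¹ * algebraMap ℂ (Ax Unit) c = 1 := by
    rw [← map_mul, inv_mul_cancel₀ hc, map_one]
  calc algebraMap ℂ (Ax Unit) c⁻¹ * aZ 1 * (algebraMap ℂ (Ax Unit) c * X ())
      = (algebraMap ℂ (Ax Unit) c⁻¹ * algebraMap ℂ (Ax Unit) c) * (aZ 1 * X ()) := by ring
    _ = aZ 1 * X () := by rw [h1, one_mul]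

private theorem rka_trA_lau (bL : Basis Unit ℂ L) {g : L ≃ₗ[ℂ] L} {c : ℂ} (hc : c ≠ 0)
    (hg : ∀ u, g u = c • u) (F : LP) :
    trA bL bL g (lau 1 F) =
      F.coeff.sum (fun m P => (c ^ (-m)) • (Polynomial.aeval tU P * aZ (((1 : ℕ) : ℤ) * m))) := by
  rw [rka_lau_apply, map_finsuppSum]
  refine Finsupp.sum_congr (fun m _ => ?_)
  rw [map_mul, Nat.cast_one, one_mul, act_scal_aZ bL hc hg]
  have h1 : trA bL bL g (Polynomial.aeval tU (F.coeff m)) = Polynomial.aeval tU (F.coeff m) := by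
    rw [← Polynomial.aeval_algHom_apply, act_scal_tU bL hc hg]
  rw [h1, Algebra.smul_def]
  ring

private theorem rka_sub_key (F : LP) (u v : ℤ → ℂ)
    (h : F.coeff.sum (fun m P => u m • (Polynomial.aeval tU P * aZ (((1 : ℕ) : ℤ) * m))) =
      F.coeff.sum (fun m P => v m • (Polynomial.aeval tU P * aZ (((1 : ℕ) : ℤ) * m)))) (m : ℤ)
    (huv : u m ≠ v m) : F.coeff m = 0 := by
  have h1 := rka_key one_pos F (fun x => u x - v x) (by
    rw [← sub_eq_zero] at h
    rw [← h, Finsupp.sum, Finsupp.sum, Finsupp.sum, ← Finset.sum_sub_distrib]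
    refine Finset.sum_congr rfl fun x _ => ?_
    rw [sub_smul]) m
  rcases smul_eq_zero.1 h1 with h2 | h2
  · exact absurd (sub_eq_zero.1 h2) huv
  · exact h2

/-- an element of the image of `lau 1` invariant under a primitive `e`-th root of unity is in the image of `lau e`. -/
theorem lau_of_inv (bL : Basis Unit ℂ L) {e : ℕ} (he : 0 < e) {ζ : ℂ} (hζ : IsPrimitiveRoot ζ e)
    {g : L ≃ₗ[ℂ] L} (hg : ∀ u, g u = ζ • u) {F : LP} (hF : trA bL bL g (lau 1 F) = lau 1 F) :
    ∃ F' : LP, lau e F' = lau 1 F := by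
  have hζ0 : ζ ≠ 0 := hζ.ne_zero he.ne'
  rw [rka_trA_lau bL hζ0 hg, rka_lau_apply] at hF
  have h1 : ∀ m : ℤ, ¬ (e : ℤ) ∣ m → F.coeff m = 0 := by
    intro m hm
    apply rka_sub_key F (fun m => ζ ^ (-m)) (fun _ => 1) _ m
    · intro hh
      have hh' : ζ ^ (-m) = 1 := hh
      rw [hζ.zpow_eq_one_iff_dvd] at hh'
      exact hm ((dvd_neg).1 hh')
    · rw [hF]
      simp only [one_smul]
  have h2 : lau 1 F ∈ (lau e).range := by
    rw [rka_lau_apply]
    refine Subalgebra.sum_mem _ fun m _ => ?_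
    show Polynomial.aeval tU (F.coeff m) * aZ (((1 : ℕ) : ℤ) * m) ∈ (lau e).range
    by_cases hm : (e : ℤ) ∣ m
    · obtain ⟨k, rfl⟩ := hm
      rw [Nat.cast_one, one_mul]
      exact ⟨AddMonoidAlgebra.single k (F.coeff ((e : ℤ) * k)), rka_lau_single e k _⟩
    · rw [h1 m hm, map_zero, zero_mul]
      exact Subalgebra.zero_mem _
  exact h2

/-- an element of weight `e`: if all scalars `c` multiply `s` by `c^e` then `s = a^{-e} P(T)`. -/
theorem lau_of_weight (bL : Basis Unit ℂ L) {e : ℕ} {F : LP}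
    (h : ∀ (c : ℂ) (g : L ≃ₗ[ℂ] L), c ≠ 0 → (∀ u, g u = c • u) → trA bL bL g (lau 1 F) = c ^ e • lau 1 F) :
    ∃ P : Polynomial ℂ, lau 1 F = aZ (-(e : ℤ)) * Polynomial.aeval tU P := by
  have h2 : (2 : ℂ) ≠ 0 := two_ne_zero
  have h3 := h 2 (LinearEquiv.smulOfNeZero ℂ L 2 h2) h2 (fun u => rfl)
  rw [rka_trA_lau bL h2 (fun u => rfl), rka_lau_apply, Finsupp.smul_sum] at h3
  have h4 : ∀ m : ℤ, m ≠ -(e : ℤ) → F.coeff m = 0 := by
    intro m hm
    apply rka_sub_key F (fun m => (2 : ℂ) ^ (-m)) (fun _ => 2 ^ e) h3 m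
    intro hh
    have hh' : (2 : ℂ) ^ (-m) = (2 : ℂ) ^ e := hh
    rw [← zpow_natCast] at hh'
    apply hm
    have h5 : ((2 : ℝ) ^ (-m)) = (2 : ℝ) ^ (e : ℤ) := by
      have h6 := congrArg (fun z : ℂ => ‖z‖) hh'
      simpa [norm_zpow] using h6
    have h7 := zpow_right_injective₀ (by norm_num : (0 : ℝ) < 2) (by norm_num) h5
    have h8 : -m = (e : ℤ) := h7
    omega
  refine ⟨F.coeff (-(e : ℤ)), ?_⟩
  rw [rka_lau_apply, Finsupp.sum, Finset.sum_eq_single (-(e : ℤ))]
  · rw [Nat.cast_one, one_mul, mul_comm]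
  · intro m _ hm
    rw [h4 m hm, map_zero, zero_mul]
  · intro hm
    rw [Finsupp.notMem_support_iff] at hm
    rw [hm, map_zero, zero_mul]

end

/-- the homogeneous components of `a^{-e} P(T)`. -/
theorem hc_aZ_mul (m : ℤ) (P : Polynomial ℂ) (n : ℕ) :
    homogeneousComponent n (aZ m * Polynomial.aeval tU P) = P.coeff n • (aZ (m + n) * X () ^ n) := by
  ext d
  obtain ⟨j, rfl⟩ : ∃ j, d = Finsupp.single () j := ⟨d (), by
    ext
    simp⟩
  have haZ : aZ (m + n) = C ((pF (X () : Px Unit)) ^ (m + (n : ℤ))) := rfl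
  rw [coeff_homogeneousComponent, Finsupp.degree_single, mul_comm, rka_coeff, coeff_smul, haZ,
    coeff_C_mul, X_pow_eq_monomial, coeff_monomial, Algebra.smul_def]
  by_cases hjn : j = n
  · subst hjn
    rw [if_pos rfl, if_pos rfl, mul_one]
  · rw [if_neg hjn, if_neg, mul_zero, mul_zero]
    intro h
    apply hjn
    have := congrArg (fun f => f ()) h
    simpa using this.symm

end Pool.Agent.CM64
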