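import Pool.Agent.LibCM64.RkB
import Pool.Agent.LibCM64.RkA
import Pool.Agent.LibCM64.DCent

/-! One dimensional space `L` with a finite group `G` of scalars: `M(G,l)` contains `ℂ[a^e, T, a^{-e} R_l(T)]`. -/

set_option linter.unusedSectionVars false

namespace Pool.Agent.CM64

open Module MvPolynomial

/-- `R_l(X) = ∏_{0 ≤ i < e} (X + e (l_0 - l_{-i}))`. -/
noncomputable def Rl (e : ℕ) (l : ℤ → ℂ) : Polynomial ℂ :=
  ∏ i ∈ Finset.range e, (Polynomial.X + Polynomial.C ((e : ℂ) * (l 0 - l (-(i : ℤ)))))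

section

variable {L : Type} [AddCommGroup L] [Module ℂ L] [FiniteDimensional ℂ L]
variable (G : Subgroup (L ≃ₗ[ℂ] L)) [Finite G] (l : Submodule ℂ L → ℤ → ℂ)

private theorem rkh_repr (bL : Basis Unit ℂ L) (u : L) : u = bL.repr u () • bL () := by
  have h := bL.sum_repr u
  simpa using h.symm

/-- the scalar of an element of `GL(L)`. -/
private noncomputable def rkhChi (bL : Basis Unit ℂ L) (g : L ≃ₗ[ℂ] L) : ℂ := bL.repr (g (bL ())) ()

private theorem rkh_apply (bL : Basis Unit ℂ L) (g : L ≃ₗ[ℂ] L) (u : L) : g u = rkhChi bL g • u := by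
  conv_lhs => rw [rkh_repr bL u]
  conv_rhs => rw [rkh_repr bL u]
  rw [map_smul, rkh_repr bL (g (bL ())), smul_smul, smul_smul, mul_comm]
  rfl

private theorem rkh_eq_of (bL : Basis Unit ℂ L) {g : L ≃ₗ[ℂ] L} {c : ℂ} (h : ∀ u, g u = c • u) :
    rkhChi bL g = c := by
  unfold rkhChi
  rw [h]
  simp

private theorem rkh_mul (bL : Basis Unit ℂ L) (g h : L ≃ₗ[ℂ] L) :
    rkhChi bL (g * h) = rkhChi bL g * rkhChi bL h := by
  apply rkh_eq_of
  intro u
  rw [LinearEquiv.mul_apply, rkh_apply bL g, rkh_apply bL h, smul_smul]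

private theorem rkh_one (bL : Basis Unit ℂ L) : rkhChi bL (1 : L ≃ₗ[ℂ] L) = 1 := by
  apply rkh_eq_of
  intro u
  rw [one_smul]
  rfl

private theorem rkh_pow (bL : Basis Unit ℂ L) (g : L ≃ₗ[ℂ] L) (n : ℕ) :
    rkhChi bL (g ^ n) = rkhChi bL g ^ n := by
  induction n with
  | zero => rw [pow_zero, pow_zero, rkh_one]
  | succ n ih => rw [pow_succ, pow_succ, rkh_mul, ih]

private theorem rkh_inj (bL : Basis Unit ℂ L) {g h : L ≃ₗ[ℂ] L} (e : rkhChi bL g = rkhChi bL h) :
    g = h := by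
  ext u
  rw [rkh_apply bL g, rkh_apply bL h, e]

private theorem rkh_ne_zero (bL : Basis Unit ℂ L) (g : L ≃ₗ[ℂ] L) : rkhChi bL g ≠ 0 := by
  intro h
  have h1 := rkh_mul bL g g⁻¹
  rw [mul_inv_cancel, rkh_one, h, zero_mul] at h1
  exact one_ne_zero h1

private theorem rkh_pow_card (bL : Basis Unit ℂ L) {g : L ≃ₗ[ℂ] L} (hg : g ∈ G) :
    rkhChi bL g ^ Nat.card G = 1 := by
  have h : (⟨g, hg⟩ : G) ^ Nat.card G = 1 := pow_card_eq_one'
  have h1 : ((⟨g, hg⟩ : G) ^ Nat.card G : G).1 = (1 : G).1 := congrArg Subtype.val h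
  rw [SubmonoidClass.coe_pow] at h1
  have h2 : g ^ Nat.card G = 1 := h1
  rw [← rkh_pow, h2, rkh_one]

private theorem rkh_card_elF : (elF G).card = Nat.card G := by
  rw [elF, ← Set.ncard_eq_toFinset_card _ (Set.toFinite (G : Set (L ≃ₗ[ℂ] L)))]
  rfl

private theorem rkh_card_pos : 0 < Nat.card G := Nat.card_pos

private theorem rkh_image (bL : Basis Unit ℂ L) :
    (elF G).image (rkhChi bL) = Polynomial.nthRootsFinset (Nat.card G) (1 : ℂ) := by
  classical
  have he : 0 < Nat.card G := rkh_card_pos G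
  apply Finset.eq_of_subset_of_card_le
  · intro z hz
    obtain ⟨g, hg, rfl⟩ := Finset.mem_image.1 hz
    rw [Polynomial.mem_nthRootsFinset he]
    exact rkh_pow_card G bL ((mem_elF G).1 hg)
  · rw [Finset.card_image_of_injective _ (fun g h e => rkh_inj bL e), rkh_card_elF]
    have hp : IsPrimitiveRoot (Complex.exp (2 * Real.pi * Complex.I / (Nat.card G : ℕ))) (Nat.card G) :=
      Complex.isPrimitiveRoot_exp _ he.ne'
    rw [hp.card_nthRootsFinset]

private theorem rkh_exists (bL : Basis Unit ℂ L) {z : ℂ} (hz : z ^ Nat.card G = 1) :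
    ∃ g ∈ G, rkhChi bL g = z := by
  classical
  have he : 0 < Nat.card G := rkh_card_pos G
  have h1 : z ∈ (elF G).image (rkhChi bL) := by
    rw [rkh_image, Polynomial.mem_nthRootsFinset he]
    exact hz
  obtain ⟨g, hg, rfl⟩ := Finset.mem_image.1 h1
  exact ⟨g, (mem_elF G).1 hg, rfl⟩

/-- the sum of the powers. -/
private theorem rkh_sum (bL : Basis Unit ℂ L) (m : ℤ) :
    ∑ g ∈ elF G, rkhChi bL g ^ m = if (Nat.card G : ℤ) ∣ m then (Nat.card G : ℂ) else 0 := by
  classical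
  have he : 0 < Nat.card G := rkh_card_pos G
  split_ifs with h
  · obtain ⟨q, rfl⟩ := h
    have h1 : ∀ g ∈ elF G, rkhChi bL g ^ ((Nat.card G : ℤ) * q) = 1 := by
      intro g hg
      rw [zpow_mul, zpow_natCast, rkh_pow_card G bL ((mem_elF G).1 hg), one_zpow]
    rw [Finset.sum_congr rfl h1, Finset.sum_const, rkh_card_elF, nsmul_eq_mul, mul_one]
  · have hp : IsPrimitiveRoot (Complex.exp (2 * Real.pi * Complex.I / (Nat.card G : ℕ))) (Nat.card G) :=
      Complex.isPrimitiveRoot_exp _ he.ne'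
    obtain ⟨g0, hg0, hz⟩ := rkh_exists G bL hp.pow_eq_one
    have h1 : ∑ g ∈ elF G, rkhChi bL g ^ m = ∑ g ∈ elF G, rkhChi bL (g0 * g) ^ m := by
      refine (Finset.sum_bij (fun g _ => g0 * g) ?_ ?_ ?_ ?_).symm
      · intro g hg
        exact (mem_elF G).2 (G.mul_mem hg0 ((mem_elF G).1 hg))
      · intro g _ h _ e
        exact mul_left_cancel e
      · intro g hg
        refine ⟨g0⁻¹ * g, (mem_elF G).2 (G.mul_mem (G.inv_mem hg0) ((mem_elF G).1 hg)), ?_⟩
        rw [← mul_assoc, mul_inv_cancel, one_mul]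
      · intro g _
        rfl
    have h2 : ∑ g ∈ elF G, rkhChi bL (g0 * g) ^ m =
        rkhChi bL g0 ^ m * ∑ g ∈ elF G, rkhChi bL g ^ m := by
      rw [Finset.mul_sum]
      refine Finset.sum_congr rfl fun g _ => ?_
      rw [rkh_mul, mul_zpow]
    have h3 : rkhChi bL g0 ^ m ≠ 1 := by
      rw [hz]
      intro h4
      exact h ((hp.zpow_eq_one_iff_dvd m).1 h4)
    have h4 : (rkhChi bL g0 ^ m - 1) * ∑ g ∈ elF G, rkhChi bL g ^ m = 0 := by
      rw [sub_mul, one_mul, ← h2, ← h1, sub_self]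
    rcases mul_eq_zero.1 h4 with h5 | h5
    · exact absurd (sub_eq_zero.1 h5) h3
    · exact h5

/-- `G` is the group of all the roots of unity of order dividing `e = |G|`. -/
theorem scalar_group (bL : Basis Unit ℂ L) (g : L ≃ₗ[ℂ] L) :
    g ∈ G ↔ ∃ ζ : ℂ, ζ ^ Nat.card G = 1 ∧ ∀ u, g u = ζ • u := by
  constructor
  · intro hg
    exact ⟨rkhChi bL g, rkh_pow_card G bL hg, rkh_apply bL g⟩
  · rintro ⟨z, hz, hg⟩
    obtain ⟨h, hh, e⟩ := rkh_exists G bL hz
    have h1 : g = h := rkh_inj bL (by rw [e, rkh_eq_of bL hg])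
    rw [h1]
    exact hh

private theorem rkh_pst_bot : pst G (⊥ : Submodule ℂ L) = G := by
  ext g
  rw [mem_pst]
  constructor
  · exact fun h => h.1
  · intro h
    refine ⟨h, fun v hv => ?_⟩
    rw [(Submodule.mem_bot ℂ).1 hv, map_zero]

private theorem rkh_pstF_bot : pstF G (⊥ : Submodule ℂ L) = elF G := by
  ext g
  rw [mem_pstF, rkh_pst_bot, mem_elF]

private theorem rkh_finrank (bL : Basis Unit ℂ L) : finrank ℂ L = 1 := by
  rw [Module.finrank_eq_card_basis bL]
  rfl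

private theorem rkh_dt (bL : Basis Unit ℂ L) (g : L ≃ₗ[ℂ] L) : dt g = rkhChi bL g := by
  have h : (g : L →ₗ[ℂ] L) = rkhChi bL g • LinearMap.id := by
    ext u
    exact rkh_apply bL g u
  unfold dt
  rw [h, LinearMap.det_smul, rkh_finrank bL, pow_one, LinearMap.det_id, mul_one]

theorem eH_bot (bL : Basis Unit ℂ L) : eH G (⊥ : Submodule ℂ L) = Nat.card G := by
  unfold eH
  rw [rkh_pst_bot]

theorem arr_line (bL : Basis Unit ℂ L) (H : Submodule ℂ L) :
    H ∈ arr G ↔ H = ⊥ ∧ 1 < Nat.card G := by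
  rw [mem_arr_iff, rkh_finrank bL]
  constructor
  · rintro ⟨h1, g, hg, hg1⟩
    have h2 : H = ⊥ := by
      apply Submodule.finrank_eq_zero.1
      omega
    refine ⟨h2, ?_⟩
    have : Nontrivial G := ⟨⟨g, hg.1⟩, 1, fun h => hg1 (congrArg Subtype.val h)⟩
    exact Finite.one_lt_card
  · rintro ⟨rfl, h⟩
    rw [finrank_bot]
    refine ⟨rfl, ?_⟩
    have : Nontrivial G := Finite.one_lt_card_iff_nontrivial.1 h
    obtain ⟨g, hg⟩ := exists_ne (1 : G)
    refine ⟨g, ?_, fun h => hg (Subtype.ext h)⟩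
    rw [rkh_pst_bot]
    exact g.2

private theorem rkh_act_aeval (bL : Basis Unit ℂ L) (g : L ≃ₗ[ℂ] L) (P : Polynomial ℂ) :
    act bL g (Polynomial.aeval tU P) = Polynomial.aeval tU P := by
  rw [← Polynomial.aeval_algHom_apply]
  have h := act_scal_tU bL (rkh_ne_zero bL g) (rkh_apply bL g)
  rw [show act bL g tU = tU from h]

private theorem rkh_act (bL : Basis Unit ℂ L) (g : L ≃ₗ[ℂ] L) (m : ℤ) (P : Polynomial ℂ) :
    act bL g (aZ m * Polynomial.aeval tU P) = rkhChi bL g ^ (-m) • (aZ m * Polynomial.aeval tU P) := by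
  rw [map_mul, rkh_act_aeval, show act bL g (aZ m) = _ from
    act_scal_aZ bL (rkh_ne_zero bL g) (rkh_apply bL g) m, Algebra.smul_def, mul_assoc]

private theorem rkh_X : (X () : Ax Unit) = aZ (-1) * tU := by
  unfold tU
  rw [← mul_assoc, ← aZ_add, neg_add_cancel, aZ_zero, one_mul]

private theorem rkh_qH (bL : Basis Unit ℂ L) :
    (C (qH bL (⊥ : Submodule ℂ L) (bL ())) : Ax Unit) = aZ (-1) := by
  have hfr : finrank ℂ (⊥ : Submodule ℂ L) + 1 = finrank ℂ L := by
    rw [finrank_bot, rkh_finrank bL]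
  have h0 : lf (⊥ : Submodule ℂ L) (bL ()) ≠ 0 := by
    intro h
    have h1 := (mem_iff_lf (⊥ : Submodule ℂ L) hfr (bL ())).2 h
    exact bL.ne_zero () ((Submodule.mem_bot ℂ).1 h1)
  have h1 : xl bL (lf (⊥ : Submodule ℂ L)) = lf (⊥ : Submodule ℂ L) (bL ()) • (X () : Px Unit) := by
    rw [xl_apply]
    simp
  have h2 := qH_mul bL (⊥ : Submodule ℂ L) hfr (bL ())
  rw [h1] at h2
  generalize qH bL (⊥ : Submodule ℂ L) (bL ()) = q at h2 ⊢
  generalize lf (⊥ : Submodule ℂ L) (bL ()) = c at h0 h2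
  have hc : algebraMap ℂ (Fx Unit) c ≠ 0 := by
    intro h
    exact h0 ((algebraMap ℂ (Fx Unit)).injective (by rw [h, map_zero]))
  have h4 : pF (c • (X () : Px Unit)) = algebraMap ℂ (Fx Unit) c * pF (X () : Px Unit) := by
    rw [MvPolynomial.smul_eq_C_mul, map_mul, ← MvPolynomial.algebraMap_eq, AlgHom.commutes]
  rw [h4] at h2
  have h3 : q * pF (X () : Px Unit) = 1 := by
    apply mul_left_cancel₀ hc
    rw [mul_one]
    calc algebraMap ℂ (Fx Unit) c * (q * pF (X () : Px Unit))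
        = q * (algebraMap ℂ (Fx Unit) c * pF (X () : Px Unit)) := by ring
      _ = algebraMap ℂ (Fx Unit) c := h2
  unfold aZ
  rw [eq_inv_of_mul_eq_one_left h3, zpow_neg, zpow_one]

private theorem rkh_aop (bL : Basis Unit ℂ L) (hl : Adm G l) (h1 : 1 < Nat.card G) {n : ℕ}
    (hn : n < Nat.card G) (P : Polynomial ℂ) :
    aop G l bL ⊥ (aZ (-(n : ℤ)) * Polynomial.aeval tU P)
      = ((Nat.card G : ℂ) * (l ⊥ 0 - l ⊥ (-(n : ℤ)))) • (aZ (-(n : ℤ)) * Polynomial.aeval tU P) := by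
  classical
  have hbot : (⊥ : Submodule ℂ L) ∈ arr G := by
    rw [mem_arr_iff, finrank_bot, rkh_finrank bL]
    refine ⟨rfl, ?_⟩
    have : Nontrivial G := Finite.one_lt_card_iff_nontrivial.1 h1
    obtain ⟨g, hg⟩ := exists_ne (1 : G)
    refine ⟨g, ?_, fun h => hg (Subtype.ext h)⟩
    rw [rkh_pst_bot]
    exact g.2
  have heH : eH G (⊥ : Submodule ℂ L) = Nat.card G := by
    unfold eH
    rw [rkh_pst_bot]
  rw [tact_aop_apply, rkh_pstF_bot]
  have h2 : ∀ g ∈ elF G, kap G l ⊥ g • act bL g (aZ (-(n : ℤ)) * Polynomial.aeval tU P) =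
      (∑ j ∈ Finset.range (Nat.card G), (l ⊥ 0 - l ⊥ j) * rkhChi bL g ^ ((j : ℤ) + n)) •
        (aZ (-(n : ℤ)) * Polynomial.aeval tU P) := by
    intro g _
    rw [rkh_act, smul_smul, neg_neg]
    congr 1
    unfold kap
    rw [heH, Finset.sum_mul]
    refine Finset.sum_congr rfl fun j _ => ?_
    rw [rkh_dt bL, zpow_add₀ (rkh_ne_zero bL g), zpow_natCast, zpow_natCast, mul_assoc]
  rw [Finset.sum_congr rfl h2, ← Finset.sum_smul, Finset.sum_comm]
  congr 1
  have h3 : ∀ j ∈ Finset.range (Nat.card G),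
      ∑ g ∈ elF G, (l ⊥ 0 - l ⊥ (j : ℤ)) * rkhChi bL g ^ ((j : ℤ) + n) =
      (l ⊥ 0 - l ⊥ (j : ℤ)) * (if (Nat.card G : ℤ) ∣ (j : ℤ) + n then (Nat.card G : ℂ) else 0) := by
    intro j _
    rw [← Finset.mul_sum, rkh_sum]
  rw [Finset.sum_congr rfl h3]
  rcases Nat.eq_zero_or_pos n with h0 | h0
  · subst h0
    rw [Finset.sum_eq_single 0]
    · simp
    · intro j hj hj0
      rw [if_neg, mul_zero]
      intro h4
      have h5 : Nat.card G ∣ j := by
        have : (Nat.card G : ℤ) ∣ (j : ℤ) := by simpa using h4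
        exact_mod_cast this
      have h6 := Nat.le_of_dvd (Nat.pos_of_ne_zero hj0) h5
      have h7 := Finset.mem_range.1 hj
      omega
    · intro h4
      exact absurd (Finset.mem_range.2 hn) h4
  · rw [Finset.sum_eq_single (Nat.card G - n)]
    · have h4 : ((Nat.card G - n : ℕ) : ℤ) + n = Nat.card G := by omega
      have h5 : ((Nat.card G - n : ℕ) : ℤ) = -(n : ℤ) + (eH G (⊥ : Submodule ℂ L) : ℤ) := by
        rw [heH]
        omega
      rw [h4, if_pos (dvd_refl _), h5, hl.per ⊥ hbot, mul_comm]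
    · intro j hj hj0
      rw [if_neg, mul_zero]
      rintro ⟨q, hq⟩
      have h7 := Finset.mem_range.1 hj
      have h8 : (0 : ℤ) < q := by
        by_contra hq0
        have : (Nat.card G : ℤ) * q ≤ 0 := mul_nonpos_of_nonneg_of_nonpos (by positivity) (by omega)
        omega
      have h9 : q < 2 := by
        by_contra hq2
        have : (Nat.card G : ℤ) * 2 ≤ (Nat.card G : ℤ) * q :=
          mul_le_mul_of_nonneg_left (by omega) (by positivity)
        omega
      have h10 : q = 1 := by omega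
      subst h10
      apply hj0
      omega
    · intro h4
      exfalso
      apply h4
      rw [Finset.mem_range]
      omega

/-- `T (a^{-n} P(T)) = a^{-n-1} (T + e (l_0 - l_{-n})) P(T)`, `T` the Dunkl operator of the basis vector, `n < e`. -/
theorem dunkl_line (bL : Basis Unit ℂ L) (hl : Adm G l) {n : ℕ} (hn : n < Nat.card G) (P : Polynomial ℂ) :
    dunkl G l bL (bL ()) (aZ (-(n : ℤ)) * Polynomial.aeval tU P)
      = aZ (-(n : ℤ) - 1) * Polynomial.aeval tU
          ((Polynomial.X + Polynomial.C ((Nat.card G : ℂ) * (l ⊥ 0 - l ⊥ (-(n : ℤ))))) * P) := by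
  classical
  have hfirst : (X () : Ax Unit) * (aZ (-(n : ℤ)) * Polynomial.aeval tU P) =
      aZ (-(n : ℤ) - 1) * (tU * Polynomial.aeval tU P) := by
    rw [rkh_X, sub_eq_add_neg, aZ_add]
    ring
  have hsum : ∑ H ∈ arrF G, C (qH bL H (bL ())) * aop G l bL H (aZ (-(n : ℤ)) * Polynomial.aeval tU P)
      = aZ (-1) * (((Nat.card G : ℂ) * (l ⊥ 0 - l ⊥ (-(n : ℤ)))) •
        (aZ (-(n : ℤ)) * Polynomial.aeval tU P)) := by
    by_cases h1 : 1 < Nat.card G
    · have h2 : arrF G = {⊥} := by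
        ext H
        rw [mem_arrF, arr_line G bL, Finset.mem_singleton]
        exact ⟨fun h => h.1, fun h => ⟨h, h1⟩⟩
      rw [h2, Finset.sum_singleton, rkh_qH bL, rkh_aop G l bL hl h1 hn]
    · have h2 : arrF G = ∅ := by
        rw [Finset.eq_empty_iff_forall_notMem]
        intro H hH
        rw [mem_arrF, arr_line G bL] at hH
        exact h1 hH.2
      have h3 : n = 0 := by omega
      subst h3
      rw [h2, Finset.sum_empty, Nat.cast_zero, neg_zero, sub_self, mul_zero, zero_smul, mul_zero]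
  rw [tact_dunkl_apply, yA_basis, hfirst, hsum, map_mul, map_add, Polynomial.aeval_X,
    Polynomial.aeval_C, Algebra.smul_def, sub_eq_add_neg, aZ_add]
  ring

/-- `T^e 1 = a^{-e} R_l(T)`. -/
theorem dunkl_pow_line (bL : Basis Unit ℂ L) (hl : Adm G l) :
    ((dunkl G l bL (bL ())) ^ Nat.card G) 1
      = aZ (-(Nat.card G : ℤ)) * Polynomial.aeval tU (Rl (Nat.card G) (l ⊥)) := by
  have key : ∀ n : ℕ, n ≤ Nat.card G → ((dunkl G l bL (bL ())) ^ n) 1 =
      aZ (-(n : ℤ)) * Polynomial.aeval tU (∏ i ∈ Finset.range n, (Polynomial.X +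
        Polynomial.C ((Nat.card G : ℂ) * (l ⊥ 0 - l ⊥ (-(i : ℤ)))))) := by
    intro n
    induction n with
    | zero =>
      intro _
      rw [pow_zero, Module.End.one_apply, Finset.range_zero, Finset.prod_empty,
        map_one (Polynomial.aeval tU), Nat.cast_zero, neg_zero, aZ_zero, mul_one]
    | succ n ih =>
      intro hn
      rw [pow_succ', Module.End.mul_apply, ih (by omega), dunkl_line G l bL hl (by omega),
        Finset.prod_range_succ, mul_comm (∏ i ∈ Finset.range n, _) _]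
      congr 2
      push_cast
      ring
  exact key _ le_rfl

/-- `ℂ[a^e, T, a^{-e} R_l(T)] ⊂ M(G,l)^G`. -/
theorem adjoin_le_Mk (bL : Basis Unit ℂ L) (hl : Adm G l) {f : Ax Unit}
    (hf : f ∈ Algebra.adjoin ℂ ({aZ (Nat.card G : ℤ), tU, aZ (-(Nat.card G : ℤ)) *
      Polynomial.aeval tU (Rl (Nat.card G) (l ⊥))} : Set (Ax Unit))) :
    f ∈ Mk G l bL ∧ InvA G bL f := by
  induction hf using Algebra.adjoin_induction with
  | mem x hx =>
    simp only [Set.mem_insert_iff, Set.mem_singleton_iff] at hx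
    rcases hx with rfl | rfl | rfl
    · refine ⟨?_, ?_⟩
      · have h := Mk_xA G l (Mk_one G l bL) ((X () : Px Unit) ^ Nat.card G)
        rwa [mul_one, ← aZ_natCast] at h
      · intro g hg
        have h := rkh_act bL g (Nat.card G : ℤ) 1
        rw [map_one, mul_one, zpow_neg, zpow_natCast, rkh_pow_card G bL hg, inv_one, one_smul] at h
        exact h
    · refine ⟨?_, ?_⟩
      · have h := Mk_xA G l (Mk_dunkl G l (Mk_one G l bL) (bL ())) (X () : Px Unit)
        rwa [dunkl_one, yA_basis, ← aZ_one] at h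
      · intro g _
        exact act_scal_tU bL (rkh_ne_zero bL g) (rkh_apply bL g)
    · refine ⟨?_, ?_⟩
      · rw [← dunkl_pow_line G l bL hl]
        have h : ∀ n : ℕ, ((dunkl G l bL (bL ())) ^ n) 1 ∈ Mk G l bL := by
          intro n
          induction n with
          | zero => exact Mk_one G l bL
          | succ n ih =>
            rw [pow_succ', Module.End.mul_apply]
            exact Mk_dunkl G l ih _
        exact h _
      · intro g hg
        have h := rkh_act bL g (-(Nat.card G : ℤ)) (Rl (Nat.card G) (l ⊥))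
        rw [neg_neg, zpow_natCast, rkh_pow_card G bL hg, one_smul] at h
        exact h
  | algebraMap c =>
    refine ⟨?_, ?_⟩
    · rw [Algebra.algebraMap_eq_smul_one]
      exact Submodule.smul_mem _ _ (Mk_one G l bL)
    · intro g _
      exact (act bL g).commutes c
  | add x y _ _ hx hy =>
    refine ⟨Submodule.add_mem _ hx.1 hy.1, ?_⟩
    intro g hg
    rw [map_add, hx.2 g hg, hy.2 g hg]
  | mul x y _ _ hx hy =>
    refine ⟨Mk_mul_inv G l hl bL hx.1 hx.2 hy.1, ?_⟩
    intro g hg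
    rw [map_mul, hx.2 g hg, hy.2 g hg]

private theorem rkh_decomp (F : LP) :
    F = ∑ m ∈ F.coeff.support, LaurentPolynomial.C (F.coeff m) * LaurentPolynomial.T m := by
  apply LaurentPolynomial.ext
  intro a
  rw [AddMonoidAlgebra.coeff_sum, Finsupp.finsetSum_apply]
  have h1 : ∀ m ∈ F.coeff.support, (LaurentPolynomial.C (F.coeff m) * LaurentPolynomial.T m : LP).coeff a
      = if m = a then F.coeff m else 0 := by
    intro m _
    rw [← LaurentPolynomial.single_eq_C_mul_T, AddMonoidAlgebra.coeff_single, Finsupp.single_apply]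
  rw [Finset.sum_congr rfl h1, Finset.sum_ite_eq' F.coeff.support a (fun m => F.coeff m)]
  split_ifs with h2
  · rfl
  · exact Finsupp.notMem_support_iff.1 h2

private theorem rkh_lau (e : ℕ) (F : LP) :
    lau e F = ∑ m ∈ F.coeff.support, aZ ((e : ℤ) * m) * Polynomial.aeval tU (F.coeff m) := by
  conv_lhs => rw [rkh_decomp F]
  rw [map_sum]
  refine Finset.sum_congr rfl fun m _ => ?_
  rw [map_mul, lau_C, lau_T, mul_comm]

private theorem rkh_exists_sub (e₀ : ℕ) (Q : Polynomial ℂ) {s : Ax Unit}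
    (hs : s ∈ Algebra.adjoin ℂ ({aZ (e₀ : ℤ), tU, aZ (-(e₀ : ℤ)) * Polynomial.aeval tU Q} : Set (Ax Unit))) :
    ∃ F ∈ subTQ Q, lau e₀ F = s := by
  have h1 : Algebra.adjoin ℂ ({aZ (e₀ : ℤ), tU, aZ (-(e₀ : ℤ)) * Polynomial.aeval tU Q} : Set (Ax Unit))
      ≤ (subTQ Q).map (lau e₀) := by
    apply Algebra.adjoin_le
    intro x hx
    simp only [Set.mem_insert_iff, Set.mem_singleton_iff] at hx
    rcases hx with rfl | rfl | rfl
    · refine ⟨LaurentPolynomial.T 1, Algebra.subset_adjoin (by simp), ?_⟩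
      have := lau_T e₀ 1
      rw [mul_one] at this
      exact this
    · refine ⟨LaurentPolynomial.C Polynomial.X, Algebra.subset_adjoin (by simp), ?_⟩
      have := lau_C e₀ Polynomial.X
      rw [Polynomial.aeval_X] at this
      exact this
    · refine ⟨LaurentPolynomial.C Q * LaurentPolynomial.T (-1), Algebra.subset_adjoin (by simp), ?_⟩
      show lau e₀ (LaurentPolynomial.C Q * LaurentPolynomial.T (-1)) = _
      rw [map_mul, lau_C, lau_T, mul_comm]
      congr 2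
      ring
  obtain ⟨F, hF, e⟩ := h1 hs
  exact ⟨F, hF, e⟩

/-- averaging: if `e₀ ∣ e = |G|` and `Q^{e/e₀} = R_l`, then the average over `G` of an element of
`ℂ[a^{e₀}, T, a^{-e₀} Q(T)]` is in `ℂ[a^e, T, a^{-e} R_l(T)]` (use `mem_subTQ_iff` and the expansion in powers
of `a^{e₀}`). -/
theorem avg_mem (bL : Basis Unit ℂ L) {e₀ : ℕ} (h0 : 0 < e₀) (hdvd : e₀ ∣ Nat.card G) {Q : Polynomial ℂ}
    (hQ : Q ^ (Nat.card G / e₀) = Rl (Nat.card G) (l ⊥)) {s : Ax Unit}
    (hs : s ∈ Algebra.adjoin ℂ ({aZ (e₀ : ℤ), tU, aZ (-(e₀ : ℤ)) * Polynomial.aeval tU Q} : Set (Ax Unit))) :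
    (∑ g ∈ elF G, trA bL bL g s) ∈ Algebra.adjoin ℂ ({aZ (Nat.card G : ℤ), tU, aZ (-(Nat.card G : ℤ)) *
      Polynomial.aeval tU (Rl (Nat.card G) (l ⊥))} : Set (Ax Unit)) := by
  classical
  obtain ⟨F, hF, rfl⟩ := rkh_exists_sub e₀ Q hs
  have hsum : (∑ g ∈ elF G, trA bL bL g (lau e₀ F)) = ∑ m ∈ F.coeff.support,
      (if (Nat.card G : ℤ) ∣ -((e₀ : ℤ) * m) then (Nat.card G : ℂ) else 0) •
        (aZ ((e₀ : ℤ) * m) * Polynomial.aeval tU (F.coeff m)) := by
    rw [rkh_lau]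
    have h1 : ∀ g ∈ elF G, trA bL bL g (∑ m ∈ F.coeff.support, aZ ((e₀ : ℤ) * m) *
        Polynomial.aeval tU (F.coeff m)) = ∑ m ∈ F.coeff.support, rkhChi bL g ^ (-((e₀ : ℤ) * m)) •
          (aZ ((e₀ : ℤ) * m) * Polynomial.aeval tU (F.coeff m)) := by
      intro g _
      rw [map_sum]
      exact Finset.sum_congr rfl fun m _ => rkh_act bL g _ _
    rw [Finset.sum_congr rfl h1, Finset.sum_comm]
    refine Finset.sum_congr rfl fun m _ => ?_
    rw [← Finset.sum_smul, rkh_sum]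
  rw [hsum]
  set A := Algebra.adjoin ℂ ({aZ (Nat.card G : ℤ), tU, aZ (-(Nat.card G : ℤ)) *
      Polynomial.aeval tU (Rl (Nat.card G) (l ⊥))} : Set (Ax Unit)) with hA
  have hm1 : aZ (Nat.card G : ℤ) ∈ A := Algebra.subset_adjoin (by simp)
  have hm2 : tU ∈ A := Algebra.subset_adjoin (by simp)
  have hm3 : aZ (-(Nat.card G : ℤ)) * Polynomial.aeval tU (Rl (Nat.card G) (l ⊥)) ∈ A :=
    Algebra.subset_adjoin (by simp)
  have hP : ∀ P : Polynomial ℂ, Polynomial.aeval tU P ∈ A := by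
    intro P
    have := Polynomial.aeval_mem_adjoin_singleton ℂ tU (p := P)
    exact Algebra.adjoin_mono (by simp) this
  have hpow : ∀ (m : ℤ) (n : ℕ), aZ m ^ n = aZ (m * n) := by
    intro m n
    unfold aZ
    rw [← map_pow, ← zpow_natCast, ← zpow_mul]
  refine Subalgebra.sum_mem _ fun m _ => ?_
  split_ifs with h
  · refine Subalgebra.smul_mem _ ?_ _
    obtain ⟨q, hq⟩ := h
    obtain ⟨d, hd⟩ := hdvd
    have he0 : (e₀ : ℤ) ≠ 0 := by exact_mod_cast h0.ne'
    have hmd : m = -((d : ℤ) * q) := by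
      have h3 : (e₀ : ℤ) * m = (e₀ : ℤ) * (-((d : ℤ) * q)) := by
        rw [hd] at hq
        push_cast at hq
        linarith
      exact mul_left_cancel₀ he0 h3
    have hexp : (e₀ : ℤ) * m = (Nat.card G : ℤ) * (-q) := by linarith
    rcases le_or_gt q 0 with hq0 | hq0
    · obtain ⟨k, hk⟩ := Int.eq_ofNat_of_zero_le (show 0 ≤ -q by omega)
      rw [hexp, hk]
      refine Subalgebra.mul_mem _ ?_ (hP _)
      rw [← hpow]
      exact Subalgebra.pow_mem _ hm1 k
    · obtain ⟨k, hk⟩ := Int.eq_ofNat_of_zero_le (show 0 ≤ q by omega)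
      have h4 : m = -((d * k : ℕ) : ℤ) := by
        rw [hmd, hk]
        push_cast
        ring
      have h5 := (mem_subTQ_iff Q F).1 hF (d * k)
      rw [← h4] at h5
      have h6 : Nat.card G / e₀ = d := by
        rw [hd, Nat.mul_div_cancel_left _ h0]
      rw [pow_mul, ← h6, hQ] at h5
      obtain ⟨R, hR⟩ := h5
      rw [hexp, hR, hk]
      have h7 : aZ ((Nat.card G : ℤ) * -(k : ℤ)) * Polynomial.aeval tU (Rl (Nat.card G) (l ⊥) ^ k * R) =
          (aZ (-(Nat.card G : ℤ)) * Polynomial.aeval tU (Rl (Nat.card G) (l ⊥))) ^ k *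
            Polynomial.aeval tU R := by
        rw [mul_pow, hpow, map_mul, map_pow]
        rw [show (Nat.card G : ℤ) * -(k : ℤ) = -(Nat.card G : ℤ) * (k : ℤ) by ring]
        ring
      rw [h7]
      exact Subalgebra.mul_mem _ (Subalgebra.pow_mem _ hm3 k) (hP R)
  · rw [zero_smul]
    exact Subalgebra.zero_mem _

theorem rkU (bL : Basis Unit ℂ L) (hl : Adm G l) {e₀ : ℕ} (h0 : 0 < e₀) (hdvd : e₀ ∣ Nat.card G)
    {Q : Polynomial ℂ} (hQ : Q ^ (Nat.card G / e₀) = Rl (Nat.card G) (l ⊥)) {s : Ax Unit}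
    (hs : s ∈ Algebra.adjoin ℂ ({aZ (e₀ : ℤ), tU, aZ (-(e₀ : ℤ)) * Polynomial.aeval tU Q} : Set (Ax Unit))) :
    (∑ g ∈ elF G, trA bL bL g s) ∈ Mk G l bL :=
  (adjoin_le_Mk G l bL hl (avg_mem G l bL h0 hdvd hQ hs)).1

end

end Pool.Agent.CM64
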