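import Pool.Agent.LibCM64.SpA

/-! Spectator variables, continued: Dunkl operators and `M_k`. -/

set_option linter.unusedSectionVars false

namespace Pool.Agent.CM64

open Module MvPolynomial

section

variable {V : Type} [AddCommGroup V] [Module ℂ V] [FiniteDimensional ℂ V]
variable {ιA ιE : Type} [Fintype ιA] [DecidableEq ιA] [Fintype ιE] [DecidableEq ιE]
variable {Γ : Subgroup (V ≃ₗ[ℂ] V)} [Finite Γ] {E : Submodule ℂ V} {b : Basis (ιA ⊕ ιE) ℂ V}
  {bE : Basis ιE ℂ ↥E} {k : Submodule ℂ V → ℤ → ℂ}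

private theorem spB_repr (hb : ∀ i, b (Sum.inr i) = (bE i : V)) (e : ↥E) :
    (∀ i, b.repr (e : V) (Sum.inl i) = 0) ∧ ∀ i, b.repr (e : V) (Sum.inr i) = bE.repr e i := by
  constructor
  · intro i
    have h : (b.coord (Sum.inl i)).comp E.subtype = 0 := by
      refine bE.ext fun j => ?_
      rw [LinearMap.comp_apply, Submodule.subtype_apply, ← hb j, Basis.coord_apply, b.repr_self,
        Finsupp.single_eq_of_ne (by simp)]
      rfl
    exact congrArg (fun f => f e) h
  · intro i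
    have h : (b.coord (Sum.inr i)).comp E.subtype = bE.coord i := by
      refine bE.ext fun j => ?_
      rw [LinearMap.comp_apply, Submodule.subtype_apply, ← hb j, Basis.coord_apply, b.repr_self,
        Basis.coord_apply, bE.repr_self]
      by_cases hij : i = j
      · rw [hij, Finsupp.single_eq_same, Finsupp.single_eq_same]
      · rw [Finsupp.single_eq_of_ne hij, Finsupp.single_eq_of_ne (by simpa using hij)]
    exact congrArg (fun f => f e) h

private theorem spB_embE_C (c : Fx ιE) : embE (ιA := ιA) (C c) = C (embF c) := by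
  rw [embE, MvPolynomial.aevalTower_C, AlgHom.comp_apply]
  rfl

private theorem spB_xl_inr {V V' : Type} [AddCommGroup V] [Module ℂ V] [AddCommGroup V'] [Module ℂ V']
    {ιA ιE : Type} [Fintype ιA] [Fintype ιE] (b : Basis (ιA ⊕ ιE) ℂ V) (bE : Basis ιE ℂ V')
    (f : Dual ℂ V) (f' : Dual ℂ V') (hl : ∀ i, f (b (Sum.inl i)) = 0)
    (hr : ∀ i, f (b (Sum.inr i)) = f' (bE i)) :
    xl b f = MvPolynomial.rename Sum.inr (xl bE f') := by
  rw [xl_apply, xl_apply, Fintype.sum_sum_type, map_sum, Finset.sum_eq_zero, zero_add]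
  · refine Finset.sum_congr rfl fun i _ => ?_
    rw [hr, map_smul, rename_X]
  · intro i _
    rw [hl, zero_smul]

private theorem spB_embE_yA (hb : ∀ i, b (Sum.inr i) = (bE i : V)) (e : ↥E) :
    embE (yA bE e) = yA b (e : V) := by
  have h1 : ∑ i : ιA, (b.repr (e : V)) (Sum.inl i) • (X (Sum.inl i) : Ax (ιA ⊕ ιE)) = 0 := by
    refine Finset.sum_eq_zero fun i _ => ?_
    rw [(spB_repr hb e).1, zero_smul]
  rw [yA_apply, yA_apply, Fintype.sum_sum_type, map_sum, h1, zero_add]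
  refine Finset.sum_congr rfl fun i _ => ?_
  rw [(spB_repr hb e).2, map_smul, embE_X]

private theorem spB_symm {g : V ≃ₗ[ℂ] V} {h : ↥E ≃ₗ[ℂ] ↥E}
    (hh : ∀ e : ↥E, ((h e : ↥E) : V) = g (e : V)) (e : ↥E) : g.symm (e : V) = ((h.symm e : ↥E) : V) := by
  rw [LinearEquiv.symm_apply_eq, ← hh, LinearEquiv.apply_symm_apply]

private theorem spB_trP_inr (hb : ∀ i, b (Sum.inr i) = (bE i : V)) {g : V ≃ₗ[ℂ] V}
    (hgA : ∀ i, g (b (Sum.inl i)) = b (Sum.inl i)) {h : ↥E ≃ₗ[ℂ] ↥E}
    (hh : ∀ e : ↥E, ((h e : ↥E) : V) = g (e : V)) (p : Px ιE) :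
    trP b b g (MvPolynomial.rename Sum.inr p) = MvPolynomial.rename Sum.inr (trP bE bE h p) := by
  have key : (trP b b g).comp (MvPolynomial.rename (Sum.inr : ιE → ιA ⊕ ιE)) =
      (MvPolynomial.rename (Sum.inr : ιE → ιA ⊕ ιE)).comp (trP bE bE h) := by
    apply MvPolynomial.algHom_ext
    intro i
    rw [AlgHom.comp_apply, AlgHom.comp_apply, rename_X, trP_X, trP_X]
    refine spB_xl_inr b bE _ _ (fun j => ?_) (fun j => ?_)
    · have h1 : g.symm (b (Sum.inl j)) = b (Sum.inl j) := by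
        rw [LinearEquiv.symm_apply_eq, hgA]
      change b.repr (g.symm (b (Sum.inl j))) (Sum.inr i) = 0
      rw [h1, b.repr_self, Finsupp.single_eq_of_ne (by simp)]
    · change b.repr (g.symm (b (Sum.inr j))) (Sum.inr i) = bE.repr (h.symm (bE j)) i
      rw [hb j, spB_symm hh, (spB_repr hb _).2]
  exact congrArg (fun f => f p) key

private theorem spB_trP_inl (hb : ∀ i, b (Sum.inr i) = (bE i : V)) {g : V ≃ₗ[ℂ] V}
    (hgA : ∀ i, g (b (Sum.inl i)) = b (Sum.inl i)) {h : ↥E ≃ₗ[ℂ] ↥E}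
    (hh : ∀ e : ↥E, ((h e : ↥E) : V) = g (e : V)) (p : Px ιA) :
    trP b b g (MvPolynomial.rename Sum.inl p) = MvPolynomial.rename Sum.inl p := by
  have key : (trP b b g).comp (MvPolynomial.rename (Sum.inl : ιA → ιA ⊕ ιE)) =
      (MvPolynomial.rename (Sum.inl : ιA → ιA ⊕ ιE)) := by
    apply MvPolynomial.algHom_ext
    intro i
    rw [AlgHom.comp_apply, rename_X, trP_X, ← xl_coord b (Sum.inl i)]
    congr 1
    refine b.ext fun j => ?_
    rcases j with j | j
    · have h1 : g.symm (b (Sum.inl j)) = b (Sum.inl j) := by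
        rw [LinearEquiv.symm_apply_eq, hgA]
      change b.repr (g.symm (b (Sum.inl j))) (Sum.inl i) = b.repr (b (Sum.inl j)) (Sum.inl i)
      rw [h1]
    · change b.repr (g.symm (b (Sum.inr j))) (Sum.inl i) = b.repr (b (Sum.inr j)) (Sum.inl i)
      rw [hb j, spB_symm hh, (spB_repr hb _).1, (spB_repr hb _).1]
  exact congrArg (fun f => f p) key

/-- `g ∈ Γ` (or any automorphism trivial on `A` and preserving `E`) acts on functions on `E × E*` through its
restriction. -/
theorem trA_embE (hb : ∀ i, b (Sum.inr i) = (bE i : V)) {g : V ≃ₗ[ℂ] V}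
    (hgA : ∀ i, g (b (Sum.inl i)) = b (Sum.inl i)) {h : ↥E ≃ₗ[ℂ] ↥E}
    (hh : ∀ e : ↥E, ((h e : ↥E) : V) = g (e : V)) (m : Ax ιE) :
    trA b b g (embE m) = embE (trA bE bE h m) := by
  have key : (trA b b g).comp (embE (ιA := ιA)) = (embE (ιA := ιA)).comp (trA bE bE h) := by
    apply algHom_Ax_ext
    · intro c
      rw [AlgHom.comp_apply, AlgHom.comp_apply, spB_embE_C, trA_C, trA_C, spB_embE_C]
      congr 1
      have k2 : (trF b b g).comp (embF (ιA := ιA)) = (embF (ιA := ιA)).comp (trF bE bE h) := by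
        apply algHom_Fx_ext
        intro p
        rw [AlgHom.comp_apply, AlgHom.comp_apply, embF_pF, trF_pF, trF_pF, embF_pF,
          spB_trP_inr hb hgA hh]
      exact congrArg (fun f => f c) k2
    · intro i
      rw [AlgHom.comp_apply, AlgHom.comp_apply, embE_X, trA_X, trA_X, spB_embE_yA hb, hb i, hh]
  exact congrArg (fun f => f m) key

theorem trR_embA (hb : ∀ i, b (Sum.inr i) = (bE i : V)) {g : V ≃ₗ[ℂ] V}
    (hgA : ∀ i, g (b (Sum.inl i)) = b (Sum.inl i)) {h : ↥E ≃ₗ[ℂ] ↥E}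
    (hh : ∀ e : ↥E, ((h e : ↥E) : V) = g (e : V)) (p : Rx ιA) :
    trR b b g (embA p) = embA p := by
  have key : (trR b b g).comp (embA (ιE := ιE)) = embA (ιE := ιE) := by
    apply algHom_Rx_ext
    · intro c
      rw [AlgHom.comp_apply, embA_C, trR_C, spB_trP_inl hb hgA hh]
    · intro i
      rw [AlgHom.comp_apply, embA_X, trR_X, hgA, yR_basis]
  exact congrArg (fun f => f p) key

theorem aop_emb (hS : Spl Γ E b bE) {H : Submodule ℂ ↥E} (hH : H ∈ arr (resE Γ E)) (p : Rx ιA) (m : Ax ιE) :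
    aop Γ k b (upH E b H) (jR (embA p) * embE m)
      = jR (embA p) * embE (aop (resE Γ E) (resK E b k) bE H m) := by
  rw [tact_aop_apply, tact_aop_apply, map_sum, Finset.mul_sum]
  have hf : ∀ g ∈ pstF Γ (upH E b H), ∃ h ∈ pstF (resE Γ E) H, ∀ e : ↥E, ((h e : ↥E) : V) = g (e : V) := by
    intro g hg
    rw [mem_pstF] at hg
    obtain ⟨h, _, hh⟩ := exists_resE hS (pst_le _ _ hg)
    exact ⟨h, mem_pstF.2 ((mem_pst_resE hS H (pst_le _ _ hg) hh).1 hg), hh⟩
  choose f hf1 hf2 using hf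
  refine Finset.sum_bij f hf1 ?_ ?_ ?_
  · intro g hg g' hg' hgg
    refine resE_inj hS (pst_le _ _ (mem_pstF.1 hg)) (pst_le _ _ (mem_pstF.1 hg')) fun e he => ?_
    have h1 := hf2 g hg ⟨e, he⟩
    have h2 := hf2 g' hg' ⟨e, he⟩
    rw [hgg] at h1
    exact h1.symm.trans h2
  · intro h hh
    obtain ⟨g, hg, hgh⟩ := pst_le _ _ (mem_pstF.1 hh)
    have hg1 : g ∈ pstF Γ (upH E b H) := mem_pstF.2 ((mem_pst_resE hS H hg hgh).2 (mem_pstF.1 hh))
    refine ⟨g, hg1, ?_⟩
    apply LinearEquiv.ext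
    intro e
    apply Subtype.ext
    rw [hf2, hgh]
  · intro g hg
    have hgΓ : g ∈ Γ := pst_le _ _ (mem_pstF.1 hg)
    have hh := hf2 g hg
    have hkap : kap Γ k (upH E b H) g = kap (resE Γ E) (resK E b k) H (f g hg) := by
      unfold kap
      rw [eH_resE hS, dt_resE hS hgΓ hh]
      rfl
    rw [hkap, map_smul, mul_smul_comm, map_mul]
    congr 2
    · rw [← jR_trR, trR_embA hS.basis (hS.triv g hgΓ) hh]
    · exact trA_embE hS.basis (hS.triv g hgΓ) hh m

private theorem spB_lf (hS : Spl Γ E b bE) {H : Submodule ℂ ↥E} (hH : finrank ℂ H + 1 = finrank ℂ ↥E) :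
    finrank ℂ (upH E b H) + 1 = finrank ℂ V ∧
      ∃ c : ℂ, c ≠ 0 ∧ lf (upH E b H) = c • (lf H).comp (spPr b bE) := by
  have h1 : finrank ℂ (upH E b H) + 1 = finrank ℂ V := by
    have := finrank_upH hS H
    omega
  refine ⟨h1, ?_⟩
  have h2 := lf_spec H hH
  have h3 := lf_spec (upH E b H) h1
  have hne : (lf H).comp (spPr b bE) ≠ 0 := by
    intro h0
    apply h2.1
    ext e
    have := congrArg (fun f : Dual ℂ V => f (e : V)) h0
    simp only [LinearMap.comp_apply, spPr_coe hS, LinearMap.zero_apply] at this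
    rw [this]
    rfl
  have hker : LinearMap.ker ((lf H).comp (spPr b bE)) ≤ LinearMap.ker (lf (upH E b H)) := by
    rw [h3.2, LinearMap.ker_comp, h2.2, upH_eq hS]
  obtain ⟨c, hc⟩ := exists_smul_of_ker_le _ _ hne hker
  refine ⟨c, ?_, hc⟩
  rintro rfl
  rw [zero_smul] at hc
  exact h3.1 hc

private theorem spB_qH (hS : Spl Γ E b bE) {H : Submodule ℂ ↥E} (hH : finrank ℂ H + 1 = finrank ℂ ↥E)
    (v : V) : qH b (upH E b H) v = embF (ιA := ιA) (qH bE H (spPr b bE v)) := by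
  obtain ⟨_, c, hc, hlf⟩ := spB_lf hS hH
  unfold qH
  rw [map_div₀, AlgHom.commutes, embF_pF, hlf]
  have e1 : (c • (lf H).comp (spPr b bE)) v = c * lf H (spPr b bE v) := by
    simp
  have e2 : pF (xl b (c • (lf H).comp (spPr b bE)))
      = algebraMap ℂ (Fx (ιA ⊕ ιE)) c * pF (MvPolynomial.rename Sum.inr (xl bE (lf H))) := by
    rw [map_smul, map_smul, Algebra.smul_def]
    congr 2
    refine spB_xl_inr b bE _ _ (fun i => ?_) (fun i => ?_)
    · rw [LinearMap.comp_apply, spPr_inl, map_zero]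
    · rw [LinearMap.comp_apply, spPr_inr]
  have hc' : algebraMap ℂ (Fx (ιA ⊕ ιE)) c ≠ 0 := by
    intro h0
    exact hc ((algebraMap ℂ (Fx (ιA ⊕ ιE))).injective (by rw [h0, map_zero]))
  rw [e1, e2, map_mul, mul_div_mul_left _ _ hc']

private theorem spB_sum_arr (hS : Spl Γ E b bE) {M : Type} [AddCommMonoid M] (F : Submodule ℂ V → M) :
    ∑ H ∈ arrF Γ, F H = ∑ H ∈ arrF (resE Γ E), F (upH E b H) := by
  symm
  refine Finset.sum_bij (fun H _ => upH E b H) ?_ ?_ ?_ ?_
  · intro H hH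
    exact mem_arrF.2 ((arr_resE hS _).2 ⟨H, mem_arrF.1 hH, rfl⟩)
  · intro H _ H' _ h
    exact upH_injective hS h
  · intro H hH
    obtain ⟨H', hH', rfl⟩ := (arr_resE hS H).1 (mem_arrF.1 hH)
    exact ⟨H', mem_arrF.2 hH', rfl⟩
  · intro H _
    rfl

theorem qH_emb (hS : Spl Γ E b bE) {H : Submodule ℂ ↥E} (hH : finrank ℂ H + 1 = finrank ℂ ↥E) (e : ↥E) :
    qH b (upH E b H) (e : V) = embF (ιA := ιA) (qH bE H e) := by
  rw [spB_qH hS hH, spPr_coe hS]

theorem qH_emb_inl (hS : Spl Γ E b bE) {H : Submodule ℂ ↥E} (hH : finrank ℂ H + 1 = finrank ℂ ↥E) (i : ιA) :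
    qH b (upH E b H) (b (Sum.inl i)) = 0 := by
  rw [spB_qH hS hH, spPr_inl]
  unfold qH
  rw [map_zero, map_zero, zero_div, map_zero]

theorem dunkl_emb_inl (hS : Spl Γ E b bE) (i : ιA) (p : Rx ιA) (m : Ax ιE) :
    dunkl Γ k b (b (Sum.inl i)) (jR (embA p) * embE m) = jR (embA (X i * p)) * embE m := by
  rw [tact_dunkl_apply, yA_basis, spB_sum_arr hS, Finset.sum_eq_zero, add_zero, map_mul, map_mul, embA_X,
    jR_X, mul_assoc]
  intro H hH
  rw [qH_emb_inl hS (arr_finrank (resE Γ E) (mem_arrF.1 hH)), map_zero, zero_mul]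

theorem dunkl_emb_inr (hS : Spl Γ E b bE) (i : ιE) (p : Rx ιA) (m : Ax ιE) :
    dunkl Γ k b (b (Sum.inr i)) (jR (embA p) * embE m)
      = jR (embA p) * embE (dunkl (resE Γ E) (resK E b k) bE (bE i) m) := by
  rw [tact_dunkl_apply, tact_dunkl_apply, hS.basis i, ← spB_embE_yA hS.basis, spB_sum_arr hS, map_add,
    map_mul, map_sum, mul_add, Finset.mul_sum]
  congr 1
  · ring
  · refine Finset.sum_congr rfl fun H hH => ?_
    rw [qH_emb hS (arr_finrank (resE Γ E) (mem_arrF.1 hH)), aop_emb hS (mem_arrF.1 hH), map_mul,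
      spB_embE_C]
    ring

private theorem spB_repr_sum (b : Basis (ιA ⊕ ιE) ℂ V) (v : V) :
    v = ∑ i, b.repr v i • b i := (b.sum_repr v).symm

private theorem spB_dunkl_sum (b : Basis (ιA ⊕ ιE) ℂ V) (v : V) (z : Ax (ιA ⊕ ιE)) :
    dunkl Γ k b v z = ∑ i, b.repr v i • dunkl Γ k b (b i) z := by
  have h : ∀ (s : Finset (ιA ⊕ ιE)) (c : ιA ⊕ ιE → ℂ),
      dunkl Γ k b (∑ i ∈ s, c i • b i) z = ∑ i ∈ s, c i • dunkl Γ k b (b i) z := by
    intro s c
    classical
    induction s using Finset.induction_on with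
    | empty =>
      have h0 : dunkl Γ k b (0 : V) = 0 := by
        have := dunkl_smul Γ k b 0 (0 : V)
        rwa [zero_smul, zero_smul] at this
      rw [Finset.sum_empty, Finset.sum_empty, h0]
      rfl
    | insert a s ha ih =>
      rw [Finset.sum_insert ha, Finset.sum_insert ha, dunkl_add, dunkl_smul, LinearMap.add_apply,
        LinearMap.smul_apply, ih]
  conv_lhs => rw [spB_repr_sum b v]
  exact h _ _

theorem Mk_le_span (hS : Spl Γ E b bE) {z : Ax (ιA ⊕ ιE)} (hz : z ∈ Mk Γ k b) :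
    z ∈ Submodule.span ℂ {f | ∃ (p : Rx ιA) (m : Ax ιE), m ∈ Mk (resE Γ E) (resK E b k) bE ∧
      f = jR (embA p) * embE m} := by
  set N := Submodule.span ℂ {f | ∃ (p : Rx ιA) (m : Ax ιE), m ∈ Mk (resE Γ E) (resK E b k) bE ∧
      f = jR (embA p) * embE m} with hN
  have hst : IsStab Γ k b N := by
    refine ⟨?_, ?_, ?_⟩
    · refine Submodule.subset_span ⟨1, 1, Mk_one _ _ _, ?_⟩
      rw [map_one, map_one, map_one, mul_one]
    · intro f m hm
      rw [xl_apply, map_sum, Finset.sum_mul]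
      refine Submodule.sum_mem _ fun i _ => ?_
      rw [map_smul, smul_mul_assoc]
      refine Submodule.smul_mem _ _ ?_
      have hle : N ≤ N.comap (LinearMap.mulLeft ℂ (xA (X i : Px (ιA ⊕ ιE)))) := by
        conv_lhs => rw [hN]
        rw [Submodule.span_le]
        rintro _ ⟨p, m, hm, rfl⟩
        change xA (X i : Px (ιA ⊕ ιE)) * (jR (embA p) * embE m) ∈ N
        rcases i with i | i
        · refine Submodule.subset_span ⟨C (X i) * p, m, hm, ?_⟩
          rw [map_mul, map_mul, embA_C, jR_C, rename_X, mul_assoc]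
        · refine Submodule.subset_span ⟨p, xA (X i) * m, Mk_xA _ _ hm _, ?_⟩
          rw [map_mul, embE_xA, rename_X]
          ring
      exact hle hm
    · intro v m hm
      rw [spB_dunkl_sum]
      refine Submodule.sum_mem _ fun i _ => Submodule.smul_mem _ _ ?_
      have hle : N ≤ N.comap (dunkl Γ k b (b i)) := by
        conv_lhs => rw [hN]
        rw [Submodule.span_le]
        rintro _ ⟨p, m, hm, rfl⟩
        change dunkl Γ k b (b i) (jR (embA p) * embE m) ∈ N
        rcases i with i | i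
        · rw [dunkl_emb_inl hS]
          exact Submodule.subset_span ⟨_, m, hm, rfl⟩
        · rw [dunkl_emb_inr hS]
          exact Submodule.subset_span ⟨p, _, Mk_dunkl _ _ hm _, rfl⟩
      exact hle hm
  exact Mk_le Γ k hst hz

theorem emb_mem_Mk (hS : Spl Γ E b bE) (p : Rx ιA) {m : Ax ιE} (hm : m ∈ Mk (resE Γ E) (resK E b k) bE) :
    jR (embA p) * embE m ∈ Mk Γ k b := by
  have h1 : embE (ιA := ιA) m ∈ Mk Γ k b := by
    have hst : IsStab (resE Γ E) (resK E b k) bE ((Mk Γ k b).comap (embE (ιA := ιA)).toLinearMap) := by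
      refine ⟨?_, ?_, ?_⟩
      · change embE (ιA := ιA) 1 ∈ Mk Γ k b
        rw [map_one]
        exact Mk_one _ _ _
      · intro f m hm
        change embE (ιA := ιA) (xA (xl bE f) * m) ∈ Mk Γ k b
        rw [map_mul, embE_xA]
        exact Mk_xA _ _ hm _
      · intro v m hm
        change embE (ιA := ιA) (dunkl (resE Γ E) (resK E b k) bE v m) ∈ Mk Γ k b
        have h2 : ∀ (s : Finset ιE) (c : ιE → ℂ),
            embE (ιA := ιA) (dunkl (resE Γ E) (resK E b k) bE (∑ i ∈ s, c i • bE i) m) ∈ Mk Γ k b := by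
          intro s c
          induction s using Finset.induction_on with
          | empty =>
            have h0 : dunkl (resE Γ E) (resK E b k) bE (0 : ↥E) = 0 := by
              have := dunkl_smul (resE Γ E) (resK E b k) bE 0 (0 : ↥E)
              rwa [zero_smul, zero_smul] at this
            rw [Finset.sum_empty, h0, LinearMap.zero_apply, map_zero]
            exact Submodule.zero_mem _
          | insert a s ha ih =>
            rw [Finset.sum_insert ha, dunkl_add, dunkl_smul, LinearMap.add_apply,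
              LinearMap.smul_apply, map_add, map_smul]
            refine Submodule.add_mem _ (Submodule.smul_mem _ _ ?_) ih
            have h3 := dunkl_emb_inr (k := k) hS a (1 : Rx ιA) m
            rw [map_one, map_one, one_mul, one_mul] at h3
            rw [← h3]
            exact Mk_dunkl _ _ hm _
        rw [← bE.sum_repr v]
        exact h2 _ _
    exact Mk_le _ _ hst hm
  induction p using MvPolynomial.induction_on with
  | C a =>
    rw [embA_C, jR_C]
    exact Mk_xA _ _ h1 _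
  | add p q hp hq =>
    rw [map_add, map_add, add_mul]
    exact Submodule.add_mem _ hp hq
  | mul_X p i hp =>
    rw [mul_comm p (X i), ← dunkl_emb_inl hS]
    exact Mk_dunkl _ _ hp _

/-- averaging over `Γ` sends products to products with invariant second factor. -/
private theorem spB_avg (hk : Adm Γ k) (hS : Spl Γ E b bE) (p : Rx ιA) {m : Ax ιE}
    (hm : m ∈ Mk (resE Γ E) (resK E b k) bE) : ∃ m', m' ∈ Mk (resE Γ E) (resK E b k) bE ∧
      InvA (resE Γ E) bE m' ∧
      ((elF Γ).card : ℂ)⁻¹ • ∑ g ∈ elF Γ, act b g (jR (embA p) * embE m) = jR (embA p) * embE m' := by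
  have hf : ∀ g : V ≃ₗ[ℂ] V, ∃ h : ↥E ≃ₗ[ℂ] ↥E, g ∈ Γ →
      (h ∈ resE Γ E ∧ ∀ e : ↥E, ((h e : ↥E) : V) = g (e : V)) := by
    intro g
    by_cases hg : g ∈ Γ
    · obtain ⟨h, h1, h2⟩ := exists_resE hS hg
      exact ⟨h, fun _ => ⟨h1, h2⟩⟩
    · exact ⟨1, fun h => absurd h hg⟩
  choose f hf using hf
  refine ⟨((elF Γ).card : ℂ)⁻¹ • ∑ g ∈ elF Γ, act bE (f g) m, ?_, ?_, ?_⟩
  · refine Submodule.smul_mem _ _ (Submodule.sum_mem _ fun g hg => ?_)
    exact act_mem_Mk (adm_resE hS hk) bE (hf g ((mem_elF Γ).1 hg)).1 hm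
  · rintro h₀ ⟨g₀, hg₀, hh₀⟩
    rw [map_smul, map_sum]
    refine congrArg (fun w : Ax ιE => ((elF Γ).card : ℂ)⁻¹ • w) ?_
    refine Finset.sum_bij (fun g _ => g₀ * g) ?_ ?_ ?_ ?_
    · intro g hg
      exact (mem_elF Γ).2 (Γ.mul_mem hg₀ ((mem_elF Γ).1 hg))
    · intro g _ g' _ h
      exact mul_left_cancel h
    · intro g hg
      refine ⟨g₀⁻¹ * g, (mem_elF Γ).2 (Γ.mul_mem (Γ.inv_mem hg₀) ((mem_elF Γ).1 hg)), ?_⟩
      rw [mul_inv_cancel_left]
    · intro g hg
      rw [← act_mul]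
      have h1 := (hf g ((mem_elF Γ).1 hg)).2
      have h2 := (hf (g₀ * g) (Γ.mul_mem hg₀ ((mem_elF Γ).1 hg))).2
      have h3 : h₀ * f g = f (g₀ * g) := by
        apply LinearEquiv.ext
        intro e
        apply Subtype.ext
        rw [h2, LinearEquiv.mul_apply, hh₀, h1, LinearEquiv.mul_apply]
      rw [h3]
  · rw [map_smul, map_sum, mul_smul_comm, Finset.mul_sum]
    refine congrArg (fun w : Ax (ιA ⊕ ιE) => ((elF Γ).card : ℂ)⁻¹ • w) ?_
    refine Finset.sum_congr rfl fun g hg => ?_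
    have hgΓ := (mem_elF Γ).1 hg
    rw [map_mul, trA_embE hS.basis (hS.triv g hgΓ) (hf g hgΓ).2 m, ← jR_trR,
      trR_embA hS.basis (hS.triv g hgΓ) (hf g hgΓ).2]

/-- the `Γ`-invariant version (average over `Γ`). -/
theorem Mk_inv_span (hk : Adm Γ k) (hS : Spl Γ E b bE) {z : Ax (ιA ⊕ ιE)} (hz : z ∈ Mk Γ k b)
    (hinv : InvA Γ b z) : z ∈ Submodule.span ℂ {f | ∃ (p : Rx ιA) (m : Ax ιE),
      m ∈ Mk (resE Γ E) (resK E b k) bE ∧ InvA (resE Γ E) bE m ∧ f = jR (embA p) * embE m} := by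
  set R : Ax (ιA ⊕ ιE) →ₗ[ℂ] Ax (ιA ⊕ ιE) :=
    ((elF Γ).card : ℂ)⁻¹ • ∑ g ∈ elF Γ, (act b g).toLinearMap with hR
  have hRa : ∀ w, R w = ((elF Γ).card : ℂ)⁻¹ • ∑ g ∈ elF Γ, act b g w := by
    intro w
    rw [hR, LinearMap.smul_apply, LinearMap.sum_apply]
    rfl
  have hRz : R z = z := by
    rw [hRa, Finset.sum_congr rfl (fun g hg => hinv g ((mem_elF Γ).1 hg)), Finset.sum_const,
      ← Nat.cast_smul_eq_nsmul ℂ, smul_smul, inv_mul_cancel₀, one_smul]
    have : 0 < (elF Γ).card := Finset.card_pos.2 ⟨1, (mem_elF Γ).2 Γ.one_mem⟩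
    exact Nat.cast_ne_zero.2 this.ne'
  set N := Submodule.span ℂ {f | ∃ (p : Rx ιA) (m : Ax ιE),
      m ∈ Mk (resE Γ E) (resK E b k) bE ∧ InvA (resE Γ E) bE m ∧ f = jR (embA p) * embE m} with hN
  have hle : Submodule.span ℂ {f | ∃ (p : Rx ιA) (m : Ax ιE), m ∈ Mk (resE Γ E) (resK E b k) bE ∧
      f = jR (embA p) * embE m} ≤ N.comap R := by
    rw [Submodule.span_le]
    rintro _ ⟨p, m, hm, rfl⟩
    change R (jR (embA p) * embE m) ∈ N
    rw [hRa]
    obtain ⟨m', h1, h2, h3⟩ := spB_avg hk hS p hm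
    rw [h3]
    exact Submodule.subset_span ⟨p, m', h1, h2, rfl⟩
  have := hle (Mk_le_span hS hz)
  rw [Submodule.mem_comap, hRz] at this
  exact this

/-- `Rx ιE → Rx (ιA ⊕ ιE)`. -/
private noncomputable def spR {ιA ιE : Type} : Rx ιE →ₐ[ℂ] Rx (ιA ⊕ ιE) :=
  MvPolynomial.aevalTower ((Algebra.algHom ℂ (Px (ιA ⊕ ιE)) (Rx (ιA ⊕ ιE))).comp
    (MvPolynomial.rename (Sum.inr : ιE → ιA ⊕ ιE))) (fun i => X (Sum.inr i))

private theorem spR_C {ιA ιE : Type} (c : Px ιE) :
    spR (ιA := ιA) (C c) = C (MvPolynomial.rename Sum.inr c) := by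
  rw [spR, MvPolynomial.aevalTower_C]
  rfl

private theorem spR_X {ιA ιE : Type} (i : ιE) : spR (ιA := ιA) (X i) = X (Sum.inr i) := by
  rw [spR, MvPolynomial.aevalTower_X]

private theorem spR_jR (q : Rx ιE) : embE (ιA := ιA) (jR q) = jR (spR q) := by
  have key : (embE (ιA := ιA)).comp (jR : Rx ιE →ₐ[ℂ] Ax ιE) =
      (jR : Rx (ιA ⊕ ιE) →ₐ[ℂ] Ax (ιA ⊕ ιE)).comp spR := by
    apply algHom_Rx_ext
    · intro c
      rw [AlgHom.comp_apply, AlgHom.comp_apply, jR_C, embE_xA, spR_C, jR_C]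
    · intro i
      rw [AlgHom.comp_apply, AlgHom.comp_apply, jR_X, embE_X, spR_X, jR_X]
  exact congrArg (fun f => f q) key

private theorem spR_inj : Function.Injective (MvPolynomial.rename (R := ℂ) (Sum.inr : ιE → ιA ⊕ ιE)) :=
  MvPolynomial.rename_injective _ Sum.inr_injective

private theorem spB_pow {τ : V ≃ₗ[ℂ] V} {τE : ↥E ≃ₗ[ℂ] ↥E}
    (hτE : ∀ e : ↥E, ((τE e : ↥E) : V) = τ (e : V)) (j : ℕ) (e : ↥E) :
    (((τE ^ j) e : ↥E) : V) = (τ ^ j) (e : V) := by
  induction j generalizing e with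
  | zero => rw [pow_zero, pow_zero]; rfl
  | succ j ih => rw [pow_succ, pow_succ, LinearEquiv.mul_apply, LinearEquiv.mul_apply, ih, hτE]

private theorem spB_powA {τ : V ≃ₗ[ℂ] V} {v : V} (hv : τ v = v) (j : ℕ) : (τ ^ j) v = v := by
  induction j with
  | zero => rw [pow_zero]; rfl
  | succ j ih => rw [pow_succ, LinearEquiv.mul_apply, hv, ih]

private theorem spB_order {τ : V ≃ₗ[ℂ] V} (hb : ∀ i, b (Sum.inr i) = (bE i : V))
    (hτA : ∀ i, τ (b (Sum.inl i)) = b (Sum.inl i)) {τE : ↥E ≃ₗ[ℂ] ↥E}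
    (hτE : ∀ e : ↥E, ((τE e : ↥E) : V) = τ (e : V)) : orderOf τ = orderOf τE := by
  rw [orderOf_eq_orderOf_iff]
  intro n
  constructor
  · intro h
    apply LinearEquiv.ext
    intro e
    apply Subtype.ext
    rw [spB_pow hτE, h]
    rfl
  · intro h
    refine b.ext' fun i => ?_
    rcases i with i | i
    · rw [spB_powA (hτA i)]
      rfl
    · rw [hb i, ← spB_pow hτE, h]
      rfl

private theorem spB_avgT {τ : V ≃ₗ[ℂ] V} (hb : ∀ i, b (Sum.inr i) = (bE i : V))
    (hτA : ∀ i, τ (b (Sum.inl i)) = b (Sum.inl i)) {τE : ↥E ≃ₗ[ℂ] ↥E}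
    (hτE : ∀ e : ↥E, ((τE e : ↥E) : V) = τ (e : V)) (e : ↥E) :
    avgT τ (e : V) = ((avgT τE e : ↥E) : V) := by
  unfold avgT
  rw [LinearMap.smul_apply, LinearMap.smul_apply, LinearMap.sum_apply, LinearMap.sum_apply,
    spB_order hb hτA hτE, Submodule.coe_smul, AddSubmonoidClass.coe_finsetSum]
  congr 1
  refine Finset.sum_congr rfl fun j _ => ?_
  exact (spB_pow hτE j e).symm

/-- restriction to `U × U*` of products. -/
theorem ResRel_emb {τ : V ≃ₗ[ℂ] V} (hfin : IsOfFinOrder τ) (hb : ∀ i, b (Sum.inr i) = (bE i : V))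
    (hτA : ∀ i, τ (b (Sum.inl i)) = b (Sum.inl i)) {τE : ↥E ≃ₗ[ℂ] ↥E}
    (hτE : ∀ e : ↥E, ((τE e : ↥E) : V) = τ (e : V)) (bU : Basis (ιA ⊕ Unit) ℂ ↥(fixSub τ))
    (bUE : Basis Unit ℂ ↥(fixSub τE)) (hbU : ∀ i, ((bU (Sum.inl i) : ↥(fixSub τ)) : V) = b (Sum.inl i))
    (hbUE : ((bU (Sum.inr ()) : ↥(fixSub τ)) : V) = (((bUE () : ↥(fixSub τE)) : ↥E) : V))
    (p : Rx ιA) {m : Ax ιE} {s : Ax Unit} (h : ResRel τE bE bUE m s) :
    ResRel τ b bU (jR (embA p) * embE m) (jR (embA p) * embE s) := by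
  have hcoord : ∀ i : ιE, ∀ v : ↥(fixSub τE), b.repr ((v : ↥E) : V) (Sum.inr i) = bE.repr (v : ↥E) i :=
    fun i v => (spB_repr hb (v : ↥E)).2 i
  -- polynomial coefficients
  have hP : ∀ d : Px ιE, resP τ b bU (MvPolynomial.rename Sum.inr d)
      = MvPolynomial.rename Sum.inr (resP τE bE bUE d) := by
    intro d
    have key : (resP τ b bU).comp (MvPolynomial.rename (Sum.inr : ιE → ιA ⊕ ιE)) =
        (MvPolynomial.rename (Sum.inr : Unit → ιA ⊕ Unit)).comp (resP τE bE bUE) := by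
      apply MvPolynomial.algHom_ext
      intro i
      rw [AlgHom.comp_apply, AlgHom.comp_apply, rename_X, ← xl_coord b (Sum.inr i), resP_xl,
        ← xl_coord bE i, resP_xl]
      refine spB_xl_inr bU bUE _ _ (fun j => ?_) (fun j => ?_)
      · change b.repr ((bU (Sum.inl j) : ↥(fixSub τ)) : V) (Sum.inr i) = 0
        rw [hbU, b.repr_self, Finsupp.single_eq_of_ne (by simp)]
      · change b.repr ((bU (Sum.inr j) : ↥(fixSub τ)) : V) (Sum.inr i) =
          bE.repr ((bUE j : ↥(fixSub τE)) : ↥E) i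
        rw [← hcoord]
        have hj : j = () := rfl
        rw [hj, hbUE]
    exact congrArg (fun f => f d) key
  have hPl : ∀ d : Px ιA, resP τ b bU (MvPolynomial.rename Sum.inl d) = MvPolynomial.rename Sum.inl d := by
    intro d
    have key : (resP τ b bU).comp (MvPolynomial.rename (Sum.inl : ιA → ιA ⊕ ιE)) =
        (MvPolynomial.rename (Sum.inl : ιA → ιA ⊕ Unit)) := by
      apply MvPolynomial.algHom_ext
      intro i
      rw [AlgHom.comp_apply, rename_X, rename_X, ← xl_coord b (Sum.inl i), resP_xl,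
        ← xl_coord bU (Sum.inl i)]
      congr 1
      refine bU.ext fun j => ?_
      change b.repr ((bU j : ↥(fixSub τ)) : V) (Sum.inl i) = bU.repr (bU j) (Sum.inl i)
      rw [bU.repr_self]
      rcases j with j | j
      · rw [hbU, b.repr_self]
        by_cases hij : i = j
        · rw [hij, Finsupp.single_eq_same, Finsupp.single_eq_same]
        · rw [Finsupp.single_eq_of_ne (by simpa using hij), Finsupp.single_eq_of_ne (by simpa using hij)]
      · have hj : j = () := rfl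
        rw [hj, hbUE, (spB_repr hb _).1, Finsupp.single_eq_of_ne (by simp)]
    exact congrArg (fun f => f d) key
  -- momenta
  have hyl : ∀ i : ιA, projT τ (b (Sum.inl i)) = bU (Sum.inl i) := by
    intro i
    rw [← hbU i, projT_of_mem hfin]
  have hyr : ∀ u : ↥(fixSub τE), ∀ u' : ↥(fixSub τ), ((u' : ↥(fixSub τ)) : V) = ((u : ↥E) : V) →
      yR bU u' = spR (yR bUE u) := by
    intro u u' huu
    obtain ⟨c, h1⟩ : ∃ c : ℂ, u = c • bUE () := by
      refine ⟨bUE.repr u (), ?_⟩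
      conv_lhs => rw [← bUE.sum_repr u]
      simp
    have h2 : u' = c • bU (Sum.inr ()) := by
      apply Subtype.ext
      rw [huu, Submodule.coe_smul, hbUE, h1]
      rfl
    rw [h1, h2, map_smul, map_smul, yR_basis, yR_basis, map_smul, spR_X]
  have hR : ∀ q : Rx ιE, resR τ b bU (spR q) = spR (resR τE bE bUE q) := by
    intro q
    have key : (resR τ b bU).comp (spR (ιA := ιA)) = (spR (ιA := ιA)).comp (resR τE bE bUE) := by
      apply algHom_Rx_ext
      · intro c
        rw [AlgHom.comp_apply, AlgHom.comp_apply, spR_C, resR_C, resR_C, spR_C, hP]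
      · intro i
        rw [AlgHom.comp_apply, AlgHom.comp_apply, spR_X, ← yR_basis b (Sum.inr i), resR_yR,
          ← yR_basis bE i, resR_yR]
        apply hyr
        rw [projT_apply_coe, projT_apply_coe, hb i]
        exact spB_avgT hb hτA hτE (bE i)
    exact congrArg (fun f => f q) key
  have hRA : resR τ b bU (embA p) = embA p := by
    have key : (resR τ b bU).comp (embA (ιE := ιE)) = embA (ιE := Unit) := by
      apply algHom_Rx_ext
      · intro c
        rw [AlgHom.comp_apply, embA_C, embA_C, resR_C, hPl]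
      · intro i
        rw [AlgHom.comp_apply, embA_X, embA_X, ← yR_basis b (Sum.inl i), resR_yR, hyl, yR_basis]
    exact congrArg (fun f => f p) key
  have h1 : ResRel τ b bU (jR (embA (ιE := ιE) p)) (jR (embA p)) := by
    have := ResRel.ofR (τ := τ) (b := b) (bU := bU) (embA p)
    rwa [hRA] at this
  refine h1.mul ?_
  obtain ⟨d, q, hd, h2, h3⟩ := h
  refine ⟨MvPolynomial.rename Sum.inr d, spR q, ?_, ?_, ?_⟩
  · rw [hP]
    intro h0
    exact hd (spR_inj (by rw [h0, map_zero]))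
  · rw [← embE_xA, ← map_mul, h2, spR_jR]
  · rw [hP, ← embE_xA, ← map_mul, h3, spR_jR, hR]

end

end Pool.Agent.CM64
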