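import Pool.Agent.LibCM64.RkG
import Pool.Agent.LibCM64.RkH
import Pool.Agent.LibCM64.SpB

/-! Rank one theorem for general `V`: `H' ⊂ U = V^τ` a hyperplane of `U` fixed pointwise by `Γ`. -/

set_option linter.unusedSectionVars false

namespace Pool.Agent.CM64

open Module MvPolynomial

section

variable {V : Type} [AddCommGroup V] [Module ℂ V] [FiniteDimensional ℂ V]
variable {ι : Type} [Fintype ι] [DecidableEq ι] {κ : Type} [Fintype κ] [DecidableEq κ]

/-- change of bases in `ResRel` (`trA b b' refl` is the change of coordinates). -/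
theorem ResRel_change {τ : V ≃ₗ[ℂ] V} {b : Basis ι ℂ V} {bU : Basis κ ℂ ↥(fixSub τ)}
    {ι' : Type} [Fintype ι'] [DecidableEq ι'] {κ' : Type} [Fintype κ'] [DecidableEq κ']
    (b' : Basis ι' ℂ V) (bU' : Basis κ' ℂ ↥(fixSub τ)) {f : Ax ι} {s : Ax κ} (h : ResRel τ b bU f s) :
    ResRel τ b' bU' (trA b b' (LinearEquiv.refl ℂ V) f) (trA bU bU' (LinearEquiv.refl ℂ _) s) := by
  have hP : ∀ d : Px ι, resP τ b' bU' (trP b b' (LinearEquiv.refl ℂ V) d)
      = trP bU bU' (LinearEquiv.refl ℂ _) (resP τ b bU d) := by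
    intro d
    refine evP_ext bU' (fun u => ?_)
    rw [evP_resP, evP_trP, evP_trP, evP_resP]
    rfl
  have hR : ∀ p : Rx ι, resR τ b' bU' (trR b b' (LinearEquiv.refl ℂ V) p)
      = trR bU bU' (LinearEquiv.refl ℂ _) (resR τ b bU p) := by
    intro p
    have key : (resR τ b' bU').comp (trR b b' (LinearEquiv.refl ℂ V))
        = (trR bU bU' (LinearEquiv.refl ℂ _)).comp (resR τ b bU) := by
      apply algHom_Rx_ext
      · intro c
        rw [AlgHom.comp_apply, AlgHom.comp_apply, trR_C, resR_C, resR_C, trR_C, hP]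
      · intro i
        rw [AlgHom.comp_apply, AlgHom.comp_apply, ← yR_basis b i, trR_yR, resR_yR, resR_yR, trR_yR]
        rfl
    exact congrArg (fun F => F p) key
  obtain ⟨d, p, hd, h1, h2⟩ := h
  refine ⟨trP b b' (LinearEquiv.refl ℂ V) d, trR b b' (LinearEquiv.refl ℂ V) p, ?_, ?_, ?_⟩
  · rw [hP]
    intro h0
    exact hd (trP_injective bU bU' (LinearEquiv.refl ℂ _) (by rw [h0, map_zero]))
  · rw [← trA_xA, ← map_mul, h1, jR_trR]
  · rw [hP, ← trA_xA, ← map_mul, h2, hR, jR_trR]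

theorem tp_refl (W : Subgroup (V ≃ₗ[ℂ] V)) (k : Submodule ℂ V → ℤ → ℂ) :
    Tp (LinearEquiv.refl ℂ V) W W k k := by
  constructor
  · intro h
    have h1 : cj (LinearEquiv.refl ℂ V) h = h := by
      apply LinearEquiv.ext
      intro v
      rfl
    rw [h1]
  · intro H _ j
    have h1 : H.map ((LinearEquiv.refl ℂ V : V ≃ₗ[ℂ] V) : V →ₗ[ℂ] V) = H := by
      ext v
      constructor
      · rintro ⟨w, hw, rfl⟩
        exact hw
      · intro hv
        exact ⟨v, hv, rfl⟩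
    rw [h1]

/-- the average over `N` of a projection onto a subspace fixed pointwise by `N`. -/
private theorem exists_adapted_proj (N : Subgroup (V ≃ₗ[ℂ] V)) [Finite N] (A : Submodule ℂ V)
    (hA : ∀ g ∈ N, ∀ a ∈ A, g a = a) : ∃ π : V →ₗ[ℂ] V, (∀ v, π v ∈ A) ∧ (∀ a ∈ A, π a = a) ∧
      ∀ g ∈ N, ∀ v, π (g v) = π v := by
  classical
  obtain ⟨B, hB⟩ := Submodule.exists_isCompl A
  have _ : Fintype N := Fintype.ofFinite N
  let π₀ : V →ₗ[ℂ] V := A.subtype.comp (A.projectionOnto B hB)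
  have h0 : ∀ v, π₀ v ∈ A := fun v => (A.projectionOnto B hB v).2
  have h1 : ∀ a ∈ A, π₀ a = a := by
    intro a ha
    show ((A.projectionOnto B hB a : ↥A) : V) = a
    have := Submodule.projectionOnto_apply_left hB ⟨a, ha⟩
    exact congrArg Subtype.val this
  let π : V →ₗ[ℂ] V := (Fintype.card N : ℂ)⁻¹ • ∑ g : N, π₀.comp ((g : V ≃ₗ[ℂ] V) : V →ₗ[ℂ] V)
  have hπ : ∀ v, π v = (Fintype.card N : ℂ)⁻¹ • ∑ g : N, π₀ ((g : V ≃ₗ[ℂ] V) v) := by
    intro v
    show ((Fintype.card N : ℂ)⁻¹ • ∑ g : N, π₀.comp ((g : V ≃ₗ[ℂ] V) : V →ₗ[ℂ] V)) v = _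
    rw [LinearMap.smul_apply, LinearMap.sum_apply]
    rfl
  have hc : (Fintype.card N : ℂ) ≠ 0 := by
    exact_mod_cast Fintype.card_ne_zero
  refine ⟨π, ?_, ?_, ?_⟩
  · intro v
    rw [hπ]
    exact A.smul_mem _ (A.sum_mem fun g _ => h0 _)
  · intro a ha
    rw [hπ]
    have h2 : ∀ g : N, π₀ ((g : V ≃ₗ[ℂ] V) a) = a := by
      intro g
      rw [hA g g.2 a ha, h1 a ha]
    rw [Finset.sum_congr rfl (fun g _ => h2 g), Finset.sum_const, Finset.card_univ,
      ← Nat.cast_smul_eq_nsmul ℂ, smul_smul, inv_mul_cancel₀ hc, one_smul]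
  · intro g hg v
    rw [hπ, hπ]
    congr 1
    exact Fintype.sum_equiv (Equiv.mulRight (⟨g, hg⟩ : N)) _ _ (fun h => rfl)

/-- existence of adapted bases: `E` a complement of (the image in `V` of) `H'` stable under the finite group `N` (kernel of
the average over `N` of a projection onto `H'`, which is fixed pointwise by `N`); then `E^τ` is a line. -/
theorem exists_adapted {Γ N : Subgroup (V ≃ₗ[ℂ] V)} [Finite N] {τ : V ≃ₗ[ℂ] V} (hΓN : Γ ≤ N) (hτN : τ ∈ N)
    (H' : Submodule ℂ ↥(fixSub τ)) (hH' : finrank ℂ H' + 1 = finrank ℂ ↥(fixSub τ))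
    (hfix : ∀ g ∈ N, ∀ h ∈ H', g (h : V) = h) :
    ∃ (E : Submodule ℂ V) (b : Basis (Fin (finrank ℂ H') ⊕ Fin (finrank ℂ E)) ℂ V)
      (bE : Basis (Fin (finrank ℂ E)) ℂ ↥E) (τE : ↥E ≃ₗ[ℂ] ↥E)
      (bU : Basis (Fin (finrank ℂ H') ⊕ Unit) ℂ ↥(fixSub τ)) (bUE : Basis Unit ℂ ↥(fixSub τE)),
      Spl Γ E b bE ∧ (∀ g ∈ N, ∀ i, g (b (Sum.inl i)) = b (Sum.inl i)) ∧ (∀ g ∈ N, ∀ e ∈ E, g e ∈ E) ∧
      (∀ e : ↥E, ((τE e : ↥E) : V) = τ (e : V)) ∧
      (∀ i, ((bU (Sum.inl i) : ↥(fixSub τ)) : V) = b (Sum.inl i)) ∧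
      (∀ i, bU (Sum.inl i) ∈ H') ∧
      ((bU (Sum.inr ()) : ↥(fixSub τ)) : V) = (((bUE () : ↥(fixSub τE)) : ↥E) : V) := by
  classical
  -- the image `A` of `H'` in `V` and the `N`-stable complement `E`
  set A : Submodule ℂ V := H'.map (fixSub τ).subtype with hA
  have hAfix : ∀ g ∈ N, ∀ a ∈ A, g a = a := by
    rintro g hg a ⟨h, hh, rfl⟩
    exact hfix g hg h hh
  obtain ⟨π, hπ⟩ := exists_adapted_proj N A hAfix
  obtain ⟨hπA, hπid, hπN⟩ := hπ
  set E : Submodule ℂ V := LinearMap.ker π with hE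
  have hdis : ∀ v ∈ A, v ∈ E → v = 0 := by
    intro v hv hvE
    rw [← hπid v hv]
    exact hvE
  have hcompl : IsCompl A E := by
    constructor
    · rw [Submodule.disjoint_def]
      exact hdis
    · rw [codisjoint_iff, eq_top_iff]
      intro v _
      rw [Submodule.mem_sup]
      refine ⟨π v, hπA v, v - π v, ?_, by abel⟩
      rw [hE, LinearMap.mem_ker, map_sub, hπid _ (hπA v), sub_self]
  have hEN : ∀ g ∈ N, ∀ e ∈ E, g e ∈ E := by
    intro g hg e he
    rw [hE, LinearMap.mem_ker] at he ⊢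
    rw [hπN g hg, he]
  -- bases
  let bH : Basis (Fin (finrank ℂ H')) ℂ H' := finBasis ℂ H'
  let eA : ↥H' ≃ₗ[ℂ] ↥A := Submodule.equivMapOfInjective (fixSub τ).subtype
    (Submodule.injective_subtype _) H'
  let bA : Basis (Fin (finrank ℂ H')) ℂ ↥A := bH.map eA
  let bE : Basis (Fin (finrank ℂ E)) ℂ ↥E := finBasis ℂ ↥E
  let b : Basis (Fin (finrank ℂ H') ⊕ Fin (finrank ℂ E)) ℂ V :=
    (bA.prod bE).map (Submodule.prodEquivOfIsCompl A E hcompl)
  have hbl : ∀ i, b (Sum.inl i) = ((bH i : ↥(fixSub τ)) : V) := by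
    intro i
    simp [b, bA, eA]
    rfl
  have hbr : ∀ i, b (Sum.inr i) = (bE i : V) := by
    intro i
    simp [b]
  have hblA : ∀ i, b (Sum.inl i) ∈ A := by
    intro i
    rw [hbl i]
    exact ⟨(bH i : ↥(fixSub τ)), (bH i).2, rfl⟩
  -- the restriction of `τ` to `E`
  have hτi : ∀ e ∈ E, τ.symm e ∈ E := fun e he => hEN τ⁻¹ (N.inv_mem hτN) e he
  let τE : ↥E ≃ₗ[ℂ] ↥E :=
    { toFun := fun e => ⟨τ (e : V), hEN τ hτN e e.2⟩
      invFun := fun e => ⟨τ.symm (e : V), hτi e e.2⟩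
      map_add' := by
        intro x y
        apply Subtype.ext
        simp
      map_smul' := by
        intro c x
        apply Subtype.ext
        simp
      left_inv := by
        intro x
        apply Subtype.ext
        simp
      right_inv := by
        intro x
        apply Subtype.ext
        simp }
  have hτE : ∀ e : ↥E, ((τE e : ↥E) : V) = τ (e : V) := fun e => rfl
  -- the line
  let L : Submodule ℂ ↥(fixSub τ) := E.comap (fixSub τ).subtype
  have hcompl' : IsCompl H' L := by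
    constructor
    · rw [Submodule.disjoint_def]
      intro v hv hvL
      apply Subtype.ext
      exact hdis (v : V) ⟨v, hv, rfl⟩ hvL
    · rw [codisjoint_iff, eq_top_iff]
      intro v _
      rw [Submodule.mem_sup]
      obtain ⟨h, hh, hhv⟩ := hπA (v : V)
      refine ⟨h, hh, v - h, ?_, by abel⟩
      show ((v - h : ↥(fixSub τ)) : V) ∈ E
      have h2 : (h : V) = π (v : V) := hhv
      rw [hE, LinearMap.mem_ker, Submodule.coe_sub, h2, map_sub, hπid _ (hπA _), sub_self]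
  have hL1 : finrank ℂ ↥L = 1 := by
    have h3 := Submodule.finrank_add_eq_of_isCompl hcompl'
    omega
  let bL : Basis Unit ℂ ↥L := basisUnique Unit hL1
  let bU : Basis (Fin (finrank ℂ H') ⊕ Unit) ℂ ↥(fixSub τ) :=
    (bH.prod bL).map (Submodule.prodEquivOfIsCompl H' L hcompl')
  have hbUl : ∀ i, bU (Sum.inl i) = (bH i : ↥(fixSub τ)) := by
    intro i
    simp [bU]
  have hbUr : bU (Sum.inr ()) = (bL () : ↥(fixSub τ)) := by
    simp [bU]
  let eL : ↥L ≃ₗ[ℂ] ↥(fixSub τE) :=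
    { toFun := fun x => ⟨⟨((x : ↥(fixSub τ)) : V), x.2⟩, by
        rw [mem_fixSub]
        apply Subtype.ext
        rw [hτE]
        exact mem_fixSub.1 (x : ↥(fixSub τ)).2⟩
      invFun := fun x => ⟨⟨((x : ↥E) : V), by
        rw [mem_fixSub, ← hτE]
        exact congrArg Subtype.val (mem_fixSub.1 x.2)⟩, (x : ↥E).2⟩
      map_add' := by
        intro x y
        rfl
      map_smul' := by
        intro c x
        rfl
      left_inv := by
        intro x
        rfl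
      right_inv := by
        intro x
        rfl }
  let bUE : Basis Unit ℂ ↥(fixSub τE) := bL.map eL
  refine ⟨E, b, bE, τE, bU, bUE, ⟨hbr, ?_, ?_⟩, ?_, hEN, hτE, ?_, ?_, ?_⟩
  · intro g hg i
    exact hAfix g (hΓN hg) _ (hblA i)
  · intro g hg e he
    exact hEN g (hΓN hg) e he
  · intro g hg i
    exact hAfix g hg _ (hblA i)
  · intro i
    rw [hbUl, hbl]
  · intro i
    rw [hbUl]
    exact (bH i).2
  · rw [hbUr]
    show _ = (((bL.map eL () : ↥(fixSub τE)) : ↥E) : V)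
    rw [Basis.map_apply]
    rfl

/-- the objects on `E`: `τE` normalises `resE Γ E`, has a free fixed vector, and `eFix` is the same. -/
theorem resE_tau {Γ : Subgroup (V ≃ₗ[ℂ] V)} [Finite Γ] {τ : V ≃ₗ[ℂ] V} (hτ : Normalizes τ Γ)
    (hfin : IsOfFinOrder τ) {ιA ιE : Type} [Fintype ιA] [DecidableEq ιA] [Fintype ιE] [DecidableEq ιE]
    {E : Submodule ℂ V} {b : Basis (ιA ⊕ ιE) ℂ V} {bE : Basis ιE ℂ ↥E} (hS : Spl Γ E b bE)
    (hτA : ∀ i, τ (b (Sum.inl i)) = b (Sum.inl i)) {τE : ↥E ≃ₗ[ℂ] ↥E}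
    (hτE : ∀ e : ↥E, ((τE e : ↥E) : V) = τ (e : V)) {u : V} (hu : ∀ g ∈ Γ, g u = u → g = 1) (hτu : τ u = u) :
    Normalizes τE (resE Γ E) ∧ IsOfFinOrder τE ∧ eFix (resE Γ E) τE = eFix Γ τ ∧
      (∃ u' : ↥E, τE u' = u' ∧ ∀ g ∈ resE Γ E, g u' = u' → g = 1) ∧
      ∀ k : Submodule ℂ V → ℤ → ℂ, Tp τ Γ Γ k k → Tp τE (resE Γ E) (resE Γ E) (resK E b k) (resK E b k) := by
  classical
  have hτEi : ∀ e : ↥E, ((τE.symm e : ↥E) : V) = τ.symm (e : V) := by
    intro e
    rw [LinearEquiv.eq_symm_apply, ← hτE, LinearEquiv.apply_symm_apply]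
  -- conjugation
  have hconj : ∀ (g : V ≃ₗ[ℂ] V) (h : ↥E ≃ₗ[ℂ] ↥E), (∀ e : ↥E, ((h e : ↥E) : V) = g (e : V)) →
      ∀ e : ↥E, (((τE * h * τE⁻¹) e : ↥E) : V) = (τ * g * τ⁻¹) (e : V) := by
    intro g h hh e
    show ((τE (h (τE.symm e)) : ↥E) : V) = τ (g (τ.symm (e : V)))
    rw [hτE, hh, hτEi]
  have hconj' : ∀ (g : V ≃ₗ[ℂ] V) (h : ↥E ≃ₗ[ℂ] ↥E),
      (∀ e : ↥E, (((τE * h * τE⁻¹ : ↥E ≃ₗ[ℂ] ↥E) e : ↥E) : V) = g (e : V)) →
      ∀ e : ↥E, ((h e : ↥E) : V) = (τ⁻¹ * g * τ) (e : V) := by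
    intro g h hh e
    have h1 := hh (τE e)
    have h2 : (τE * h * τE⁻¹ : ↥E ≃ₗ[ℂ] ↥E) (τE e) = τE (h e) := by
      show τE (h (τE.symm (τE e))) = τE (h e)
      rw [LinearEquiv.symm_apply_apply]
    rw [h2, hτE, hτE] at h1
    show _ = τ.symm (g (τ (e : V)))
    rw [LinearEquiv.eq_symm_apply]
    exact h1
  have hnorm : Normalizes τE (resE Γ E) := by
    intro h
    constructor
    · rintro ⟨g, hg, hh⟩
      exact ⟨τ * g * τ⁻¹, (hτ g).1 hg, hconj g h hh⟩
    · rintro ⟨g, hg, hh⟩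
      refine ⟨τ⁻¹ * g * τ, (hτ _).2 ?_, hconj' g h hh⟩
      have h3 : τ * (τ⁻¹ * g * τ) * τ⁻¹ = g := by group
      rwa [h3]
  refine ⟨hnorm, ?_, ?_, ?_, ?_⟩
  · -- finite order
    rw [isOfFinOrder_iff_pow_eq_one] at hfin ⊢
    obtain ⟨n, hn, hn1⟩ := hfin
    refine ⟨n, hn, ?_⟩
    have h1 : ∀ (m : ℕ) (e : ↥E), (((τE ^ m) e : ↥E) : V) = (τ ^ m) (e : V) := by
      intro m
      induction m with
      | zero => intro e; rfl
      | succ m ih =>
        intro e
        rw [pow_succ, pow_succ, LinearEquiv.mul_apply, LinearEquiv.mul_apply, ih, hτE]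
    apply LinearEquiv.ext
    intro e
    apply Subtype.ext
    rw [h1, hn1]
    rfl
  · -- the number of commuting elements
    unfold eFix
    symm
    have hres : ∀ g : {g : V ≃ₗ[ℂ] V // g ∈ Γ ∧ g * τ = τ * g},
        ∃ h : {h : ↥E ≃ₗ[ℂ] ↥E // h ∈ resE Γ E ∧ h * τE = τE * h},
          ∀ e : ↥E, ((h.1 e : ↥E) : V) = g.1 (e : V) := by
      rintro ⟨g, hg, hgc⟩
      obtain ⟨h, hh, hhe⟩ := exists_resE hS hg
      refine ⟨⟨h, hh, ?_⟩, hhe⟩
      apply LinearEquiv.ext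
      intro e
      apply Subtype.ext
      rw [LinearEquiv.mul_apply, LinearEquiv.mul_apply, hhe, hτE, hτE, hhe,
        ← LinearEquiv.mul_apply, ← LinearEquiv.mul_apply, hgc]
    choose F hF using hres
    refine Nat.card_congr (Equiv.ofBijective F ⟨?_, ?_⟩)
    · intro g g' hgg
      apply Subtype.ext
      refine resE_inj hS g.2.1 g'.2.1 (fun e he => ?_)
      have h1 := hF g ⟨e, he⟩
      have h2 := hF g' ⟨e, he⟩
      rw [hgg] at h1
      exact h1.symm.trans h2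
    · rintro ⟨h, ⟨g, hg, hge⟩, hhc⟩
      have hgc : g * τ = τ * g := by
        have h1 : τ * g * τ⁻¹ = g := by
          refine resE_inj hS ((hτ g).1 hg) hg (fun e he => ?_)
          have h2 := hconj g h hge ⟨e, he⟩
          have h3 : τE * h * τE⁻¹ = h := by
            rw [← hhc, mul_assoc, mul_inv_cancel, mul_one]
          rw [h3, hge] at h2
          exact h2.symm
        calc g * τ = τ * g * τ⁻¹ * τ := by rw [h1]
          _ = τ * g := by group
      refine ⟨⟨g, hg, hgc⟩, ?_⟩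
      apply Subtype.ext
      apply LinearEquiv.ext
      intro e
      apply Subtype.ext
      rw [hF ⟨g, hg, hgc⟩ e, hge]
  · -- the free vector
    have hdec : ∀ v : V, ∃ (a : V) (e : ↥E), v = a + (e : V) ∧ τ a = a ∧ (∀ g ∈ Γ, g a = a) ∧
        a = ∑ i, b.repr v (Sum.inl i) • b (Sum.inl i) := by
      intro v
      refine ⟨∑ i, b.repr v (Sum.inl i) • b (Sum.inl i), ∑ i, b.repr v (Sum.inr i) • bE i, ?_, ?_, ?_, rfl⟩
      · conv_lhs => rw [← b.sum_repr v, Fintype.sum_sum_type]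
        congr 1
        rw [Submodule.coe_sum]
        refine Finset.sum_congr rfl (fun i _ => ?_)
        rw [Submodule.coe_smul, hS.basis]
      · rw [map_sum]
        refine Finset.sum_congr rfl (fun i _ => ?_)
        rw [map_smul, hτA]
      · intro g hg
        rw [map_sum]
        refine Finset.sum_congr rfl (fun i _ => ?_)
        rw [map_smul, hS.triv g hg]
    obtain ⟨a, e, hv, ha, hag, _⟩ := hdec u
    refine ⟨e, ?_, ?_⟩
    · apply Subtype.ext
      rw [hτE]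
      have h1 := hτu
      rw [hv, map_add, ha] at h1
      exact add_left_cancel h1
    · rintro h ⟨g, hg, hge⟩ hhe
      have h1 : g u = u := by
        rw [hv, map_add, hag g hg, ← hge, hhe]
      have h2 := hu g hg h1
      apply LinearEquiv.ext
      intro x
      apply Subtype.ext
      rw [hge, h2]
      rfl
  · intro k hk
    constructor
    · intro h
      rw [cj_eq_conj]
      exact hnorm h
    · intro H hH j
      show k (upH E b (H.map (τE : ↥E →ₗ[ℂ] ↥E))) j = k (upH E b H) j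
      have h1 : upH E b (H.map (τE : ↥E →ₗ[ℂ] ↥E)) = (upH E b H).map (τ : V →ₗ[ℂ] V) := by
        unfold upH
        rw [Submodule.map_sup]
        congr 1
        · rw [Submodule.map_span, ← Set.range_comp]
          congr 2
          funext i
          exact (hτA i).symm
        · rw [← Submodule.map_comp, ← Submodule.map_comp]
          congr 1
          apply LinearMap.ext
          intro e
          exact hτE e
      rw [h1]
      exact hk.par _ ((arr_resE hS _).2 ⟨H, hH, rfl⟩) j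

end

end Pool.Agent.CM64
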