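import Pool.Agent.LibCM64.NerD
import Pool.Agent.LibCM64.RkI

/-! `SurjR`: independence of the bases, transport along isomorphisms, trivial summands. -/

set_option linter.unusedSectionVars false

namespace Pool.Agent.CM64

open Module MvPolynomial

section

variable {V : Type} [AddCommGroup V] [Module ℂ V] [FiniteDimensional ℂ V]
variable {V' : Type} [AddCommGroup V'] [Module ℂ V'] [FiniteDimensional ℂ V']
variable {ι : Type} [Fintype ι] [DecidableEq ι] {κ : Type} [Fintype κ] [DecidableEq κ]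
variable {ι' : Type} [Fintype ι'] [DecidableEq ι'] {κ' : Type} [Fintype κ'] [DecidableEq κ']

/-- push forward of vectors along `S : V → V'`, pull back of functions along `P : V' → V`. -/
private noncomputable def LLT (b : Basis ι ℂ V) (b' : Basis ι' ℂ V') (S : V →ₗ[ℂ] V') (P : V' →ₗ[ℂ] V) :
    Rx ι →ₐ[ℂ] Rx ι' :=
  MvPolynomial.aevalTower ((Algebra.algHom ℂ (Px ι') (Rx ι')).comp (pbP b' b P)) (fun i => yR b' (S (b i)))

private theorem LLT_C (b : Basis ι ℂ V) (b' : Basis ι' ℂ V') (S : V →ₗ[ℂ] V') (P : V' →ₗ[ℂ] V) (c : Px ι) :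
    LLT b b' S P (C c) = C (pbP b' b P c) := by
  rw [LLT, MvPolynomial.aevalTower_C]; rfl

private theorem LLT_X (b : Basis ι ℂ V) (b' : Basis ι' ℂ V') (S : V →ₗ[ℂ] V') (P : V' →ₗ[ℂ] V) (i : ι) :
    LLT b b' S P (X i) = yR b' (S (b i)) := by
  rw [LLT, MvPolynomial.aevalTower_X]

private theorem LLT_yR (b : Basis ι ℂ V) (b' : Basis ι' ℂ V') (S : V →ₗ[ℂ] V') (P : V' →ₗ[ℂ] V) (v : V) :
    LLT b b' S P (yR b v) = yR b' (S v) := by
  have h := b.sum_repr v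
  conv_rhs => rw [← h]
  rw [yR_apply, map_sum, map_sum, map_sum]
  refine Finset.sum_congr rfl (fun i _ => ?_)
  rw [map_smul, LLT_X, map_smul, map_smul]

private theorem pbP_pbP_T {V'' : Type} [AddCommGroup V''] [Module ℂ V''] [FiniteDimensional ℂ V'']
    {ι'' : Type} [Fintype ι''] [DecidableEq ι''] (b : Basis ι ℂ V) (b' : Basis ι' ℂ V') (b'' : Basis ι'' ℂ V'')
    (P : V' →ₗ[ℂ] V) (P' : V'' →ₗ[ℂ] V') (c : Px ι) :
    pbP b'' b' P' (pbP b' b P c) = pbP b'' b (P.comp P') c := by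
  refine evP_ext b'' (fun v => ?_)
  rw [evP_pbP, evP_pbP, evP_pbP]
  rfl

private theorem LLT_LLT {V'' : Type} [AddCommGroup V''] [Module ℂ V''] [FiniteDimensional ℂ V'']
    {ι'' : Type} [Fintype ι''] [DecidableEq ι''] (b : Basis ι ℂ V) (b' : Basis ι' ℂ V') (b'' : Basis ι'' ℂ V'')
    (S : V →ₗ[ℂ] V') (P : V' →ₗ[ℂ] V) (S' : V' →ₗ[ℂ] V'') (P' : V'' →ₗ[ℂ] V') (p : Rx ι) :
    LLT b' b'' S' P' (LLT b b' S P p) = LLT b b'' (S'.comp S) (P.comp P') p := by
  have key : (LLT b' b'' S' P').comp (LLT b b' S P) = LLT b b'' (S'.comp S) (P.comp P') := by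
    apply algHom_Rx_ext
    · intro c
      rw [AlgHom.comp_apply, LLT_C, LLT_C, LLT_C, pbP_pbP_T]
    · intro i
      rw [AlgHom.comp_apply, LLT_X, LLT_yR, LLT_X]
      rfl
  exact congrArg (fun F => F p) key

private theorem trR_eq_LLT (b : Basis ι ℂ V) (b' : Basis ι' ℂ V') (g : V ≃ₗ[ℂ] V') (p : Rx ι) :
    trR b b' g p = LLT b b' (g : V →ₗ[ℂ] V') (g.symm : V' →ₗ[ℂ] V) p := by
  have key : trR b b' g = LLT b b' (g : V →ₗ[ℂ] V') (g.symm : V' →ₗ[ℂ] V) := by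
    apply algHom_Rx_ext
    · intro c
      rw [trR_C, LLT_C]
      rfl
    · intro i
      rw [trR_X, LLT_X]
      rfl
  exact congrArg (fun F => F p) key

private theorem resR_eq_LLT (τ : V ≃ₗ[ℂ] V) (b : Basis ι ℂ V) (bU : Basis κ ℂ ↥(fixSub τ)) (p : Rx ι) :
    resR τ b bU p = LLT b bU (projT τ) (fixSub τ).subtype p := rfl

private theorem LLT_congr (b : Basis ι ℂ V) (b' : Basis ι' ℂ V') {S S₁ : V →ₗ[ℂ] V'} {P P₁ : V' →ₗ[ℂ] V}
    (hS : ∀ v, S v = S₁ v) (hP : ∀ v, P v = P₁ v) (p : Rx ι) : LLT b b' S P p = LLT b b' S₁ P₁ p := by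
  have h1 : S = S₁ := LinearMap.ext hS
  have h2 : P = P₁ := LinearMap.ext hP
  rw [h1, h2]

private theorem LLT_id (b : Basis ι ℂ V) (p : Rx ι) : LLT b b LinearMap.id LinearMap.id p = p := by
  have h := trR_eq_LLT b b (LinearEquiv.refl ℂ V) p
  rw [trR_refl, AlgHom.id_apply] at h
  have h2 := LLT_congr b b (S := LinearMap.id) (P := LinearMap.id) (S₁ := ((LinearEquiv.refl ℂ V : V ≃ₗ[ℂ] V) : V →ₗ[ℂ] V))
    (P₁ := ((LinearEquiv.refl ℂ V).symm : V →ₗ[ℂ] V)) (fun _ => rfl) (fun _ => rfl) p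
  exact h2.trans h.symm

/-- the element of `GL(V^τ)` induced by `w` commuting with `τ`. -/
private theorem exists_induced (τ w : V ≃ₗ[ℂ] V) (h : w * τ = τ * w) :
    ∃ g : ↥(fixSub τ) ≃ₗ[ℂ] ↥(fixSub τ), ∀ u : ↥(fixSub τ), ((g u : ↥(fixSub τ)) : V) = w (u : V) := by
  have hm : ∀ u ∈ fixSub τ, w u ∈ fixSub τ := by
    intro u hu
    rw [mem_fixSub] at hu ⊢
    have h1 : τ (w u) = (τ * w) u := rfl
    rw [h1, ← h, LinearEquiv.mul_apply, hu]
  have h' : w⁻¹ * τ = τ * w⁻¹ := by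
    rw [inv_mul_eq_iff_eq_mul, ← mul_assoc, h, mul_assoc, mul_inv_cancel, mul_one]
  have hm' : ∀ u ∈ fixSub τ, w⁻¹ u ∈ fixSub τ := by
    intro u hu
    rw [mem_fixSub] at hu ⊢
    have h1 : τ (w⁻¹ u) = (τ * w⁻¹) u := rfl
    rw [h1, ← h', LinearEquiv.mul_apply, hu]
  have e1 : ∀ v, w (w⁻¹ v) = v := by
    intro v
    rw [← LinearEquiv.mul_apply, mul_inv_cancel]; rfl
  have e2 : ∀ v, w⁻¹ (w v) = v := by
    intro v
    rw [← LinearEquiv.mul_apply, inv_mul_cancel]; rfl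
  refine ⟨LinearEquiv.ofLinearMap ((w : V →ₗ[ℂ] V).restrict hm) (((w⁻¹ : V ≃ₗ[ℂ] V) : V →ₗ[ℂ] V).restrict hm') ?_ ?_,
    fun u => rfl⟩
  · apply LinearMap.ext
    intro u
    exact Subtype.ext (e1 (u : V))
  · apply LinearMap.ext
    intro u
    exact Subtype.ext (e2 (u : V))

/-- general transport: let `S : V → V'` and `P : V' → V` be linear with `P ∘ S = id` (`V` is a direct summand of `V'`), `W`
acts on `V'` through `w ↦ w'` with `w' S = S w`, `P w' = w P`, and similarly for `τ, τ'` (so `S` maps `U = V^τ` into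
`U' = V'^{τ'}` and `P` maps `U'` into `U`); every element of `G' = W'^{τ'}` preserves the pull back of an element of
`ℂ[U × U*]^G`. If `SurjR` holds for `(V', W', τ')` then it holds for `(V, W, τ)`.
Proof: the pull back `f ∘ P` on functions on `V` and `y ↦ S y` on vectors defines `A : Rx ι → Rx ι'`
(`C (X i) ↦ C (xl b' (b.coord i ∘ P))`, `X i ↦ yR b' (S (b i))`), the pull back along `S` defines `B : Rx ι' → Rx ι`
(`C (X i) ↦ C (xl b (b'.coord i ∘ S))`, `X i ↦ yR b (P (b' i))`); the same for `U, U'` (`A_U`, `B_U`). `B_U ∘ A_U = id`,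
`resR τ b bU ∘ B = B_U ∘ resR τ' b' bU'`, `B` maps `W'`-invariants to `W`-invariants, `A_U` maps `G`-invariants to
`G'`-invariants. Given `p`, take `q'` with `resR q' = A_U p` and put `q = B q'`. -/
theorem surjR_of_summand (W : Subgroup (V ≃ₗ[ℂ] V)) (W' : Subgroup (V' ≃ₗ[ℂ] V')) {τ : V ≃ₗ[ℂ] V} {τ' : V' ≃ₗ[ℂ] V'}
    (hfin : IsOfFinOrder τ) (hfin' : IsOfFinOrder τ')
    (S : V →ₗ[ℂ] V') (P : V' →ₗ[ℂ] V) (hPS : ∀ v, P (S v) = v)
    (hτS : ∀ v, τ' (S v) = S (τ v)) (hτP : ∀ v, P (τ' v) = τ (P v))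
    (hW : ∀ w ∈ W, ∃ w' ∈ W', (∀ v, w' (S v) = S (w v)) ∧ ∀ v, P (w' v) = w (P v))
    (hW' : ∀ w' ∈ W', ∃ w ∈ W, (∀ v, w' (S v) = S (w v)) ∧ ∀ v, P (w' v) = w (P v))
    (b : Basis ι ℂ V) (bU : Basis κ ℂ ↥(fixSub τ)) (b' : Basis ι' ℂ V') (bU' : Basis κ' ℂ ↥(fixSub τ'))
    (h : SurjR W' τ' b' bU') : SurjR W τ b bU := by
  have _ := hfin'
  intro p hp
  have hSm : ∀ u ∈ fixSub τ, S u ∈ fixSub τ' := by
    intro u hu
    rw [mem_fixSub] at hu ⊢
    rw [hτS, hu]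
  have hPm : ∀ u ∈ fixSub τ', P u ∈ fixSub τ := by
    intro u hu
    rw [mem_fixSub] at hu ⊢
    rw [← hτP, hu]
  let SU : ↥(fixSub τ) →ₗ[ℂ] ↥(fixSub τ') := S.restrict hSm
  let PU : ↥(fixSub τ') →ₗ[ℂ] ↥(fixSub τ) := P.restrict hPm
  have hSU : ∀ u : ↥(fixSub τ), ((SU u : ↥(fixSub τ')) : V') = S (u : V) := fun u => rfl
  have hPU : ∀ u : ↥(fixSub τ'), ((PU u : ↥(fixSub τ)) : V) = P (u : V') := fun u => rfl
  have hinv : ∀ g' ∈ fixGrp W' τ', trR bU' bU' g' (LLT bU bU' SU PU p) = LLT bU bU' SU PU p := by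
    rintro g' ⟨w', hw', hc', hg'⟩
    obtain ⟨w, hw, h1, h2⟩ := hW' w' hw'
    have hc : w * τ = τ * w := by
      apply LinearEquiv.ext
      intro v
      rw [LinearEquiv.mul_apply, LinearEquiv.mul_apply, ← hPS (w (τ v)), ← h1, ← hτS]
      have h3 : w' (τ' (S v)) = τ' (w' (S v)) := by
        rw [← LinearEquiv.mul_apply, hc', LinearEquiv.mul_apply]
      rw [h3, hτP, h2, hPS]
    obtain ⟨g, hg⟩ := exists_induced τ w hc
    have hgp : trR bU bU g p = p := hp g ⟨w, hw, hc, hg⟩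
    conv_rhs => rw [← hgp]
    rw [trR_eq_LLT, trR_eq_LLT, LLT_LLT, LLT_LLT]
    apply LLT_congr
    · intro u
      apply Subtype.ext
      show ((g' (SU u) : ↥(fixSub τ')) : V') = S ((g u : ↥(fixSub τ)) : V)
      rw [hg', hg, hSU, h1]
    · intro u'
      show PU (g'.symm u') = g.symm (PU u')
      rw [LinearEquiv.eq_symm_apply]
      apply Subtype.ext
      rw [hg, hPU, hPU, ← h2, ← hg', LinearEquiv.apply_symm_apply]
  obtain ⟨q', hq'inv, hq'⟩ := h (LLT bU bU' SU PU p) hinv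
  refine ⟨LLT b' b P S q', ?_, ?_⟩
  · intro w hw
    obtain ⟨w', hw', h1, h2⟩ := hW w hw
    conv_rhs => rw [← hq'inv w' hw']
    rw [trR_eq_LLT, trR_eq_LLT, LLT_LLT, LLT_LLT]
    apply LLT_congr
    · intro v
      show w (P v) = P (w' v)
      rw [h2]
    · intro v
      show S (w.symm v) = w'.symm (S v)
      rw [LinearEquiv.eq_symm_apply, h1, LinearEquiv.apply_symm_apply]
  · have hproj : ∀ v' : V', projT τ (P v') = PU (projT τ' v') := by
      intro v'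
      have h1 : ∀ j : ℕ, projT τ (P ((τ' ^ j : V' ≃ₗ[ℂ] V') v')) = projT τ (P v') := by
        intro j
        induction j with
        | zero => rfl
        | succ j ih => rw [pow_succ', LinearEquiv.mul_apply, hτP, projT_tau hfin, ih]
      have h2 : projT τ (P (avgT τ' v')) = projT τ (P v') := by
        have hm : (orderOf τ' : ℂ) ≠ 0 := by
          exact_mod_cast (orderOf_pos_iff.2 hfin').ne'
        have h3 : avgT τ' v' = (orderOf τ' : ℂ)⁻¹ • ∑ j ∈ Finset.range (orderOf τ'), (τ' ^ j : V' ≃ₗ[ℂ] V') v' := by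
          rw [avgT, LinearMap.smul_apply, LinearMap.sum_apply]
          rfl
        rw [h3, map_smul, map_smul, map_sum, map_sum, Finset.sum_congr rfl (fun j _ => h1 j), Finset.sum_const,
          Finset.card_range, ← Nat.cast_smul_eq_nsmul ℂ, smul_smul, inv_mul_cancel₀ hm, one_smul]
      rw [← h2]
      have h4 : P (avgT τ' v') = ((PU (projT τ' v') : ↥(fixSub τ)) : V) := by
        rw [hPU, projT_apply_coe]
      rw [h4, projT_of_mem hfin]
    have h5 : resR τ b bU (LLT b' b P S q') = LLT bU' bU PU SU (resR τ' b' bU' q') := by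
      rw [resR_eq_LLT, resR_eq_LLT, LLT_LLT, LLT_LLT]
      apply LLT_congr
      · intro v
        exact hproj v
      · intro u
        rfl
    rw [h5, hq', LLT_LLT]
    have h6 : LLT bU bU (PU.comp SU) (PU.comp SU) p = LLT bU bU LinearMap.id LinearMap.id p := by
      apply LLT_congr
      · intro u
        exact Subtype.ext (hPS (u : V))
      · intro u
        exact Subtype.ext (hPS (u : V))
    rw [h6, LLT_id]

/-- `SurjR` does not depend on the bases (`S = P = id`). -/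
theorem surjR_bases (W : Subgroup (V ≃ₗ[ℂ] V)) {τ : V ≃ₗ[ℂ] V} (hfin : IsOfFinOrder τ)
    {b : Basis ι ℂ V} {bU : Basis κ ℂ ↥(fixSub τ)} {b' : Basis ι' ℂ V} {bU' : Basis κ' ℂ ↥(fixSub τ)}
    (h : SurjR W τ b' bU') : SurjR W τ b bU :=
  surjR_of_summand W W hfin hfin LinearMap.id LinearMap.id (fun _ => rfl) (fun _ => rfl) (fun _ => rfl)
    (fun w hw => ⟨w, hw, fun _ => rfl, fun _ => rfl⟩) (fun w hw => ⟨w, hw, fun _ => rfl, fun _ => rfl⟩) b bU b' bU' h

/-- `cj g τ` has finite order. -/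
theorem isOfFinOrder_cj (g : V ≃ₗ[ℂ] V') {τ : V ≃ₗ[ℂ] V} (hfin : IsOfFinOrder τ) : IsOfFinOrder (cj g τ) := by
  rw [isOfFinOrder_iff_pow_eq_one] at hfin ⊢
  obtain ⟨n, hn, h⟩ := hfin
  refine ⟨n, hn, ?_⟩
  have h1 : ∀ m : ℕ, (cj g τ) ^ m = cj g (τ ^ m) := by
    intro m
    induction m with
    | zero =>
      apply LinearEquiv.ext
      intro v
      rw [cj_apply, pow_zero, pow_zero]
      show v = g (g.symm v)
      rw [LinearEquiv.apply_symm_apply]
    | succ m ih =>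
      apply LinearEquiv.ext
      intro v
      rw [pow_succ, LinearEquiv.mul_apply, ih, cj_apply, cj_apply, cj_apply, LinearEquiv.symm_apply_apply, pow_succ,
        LinearEquiv.mul_apply]
  rw [h1, h]
  apply LinearEquiv.ext
  intro v
  rw [cj_apply]
  show g (g.symm v) = v
  rw [LinearEquiv.apply_symm_apply]

/-- transport along `g : V ≃ V'` (`S = g`, `P = g⁻¹`). -/
theorem surjR_conj (g : V ≃ₗ[ℂ] V') (W : Subgroup (V ≃ₗ[ℂ] V)) (W' : Subgroup (V' ≃ₗ[ℂ] V'))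
    (hW : ∀ w, w ∈ W ↔ cj g w ∈ W') {τ : V ≃ₗ[ℂ] V} (hfin : IsOfFinOrder τ)
    (b : Basis ι ℂ V) (bU : Basis κ ℂ ↥(fixSub τ)) (b' : Basis ι' ℂ V') (bU' : Basis κ' ℂ ↥(fixSub (cj g τ)))
    (h : SurjR W' (cj g τ) b' bU') : SurjR W τ b bU := by
  have hS : ∀ (u : V ≃ₗ[ℂ] V) (v : V), cj g u (g v) = g (u v) := by
    intro u v
    rw [cj_apply, LinearEquiv.symm_apply_apply]
  have hP : ∀ (u : V ≃ₗ[ℂ] V) (v : V'), g.symm (cj g u v) = u (g.symm v) := by
    intro u v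
    rw [cj_apply, LinearEquiv.symm_apply_apply]
  have hs : ∀ u' : V' ≃ₗ[ℂ] V', cj g (cj g.symm u') = u' := by
    intro u'
    apply LinearEquiv.ext
    intro v
    simp [cj_apply]
  refine surjR_of_summand W W' hfin (isOfFinOrder_cj g hfin) (g : V →ₗ[ℂ] V') (g.symm : V' →ₗ[ℂ] V)
    (fun v => g.symm_apply_apply v) (fun v => hS τ v) (fun v => hP τ v)
    (fun w hw => ⟨cj g w, (hW w).1 hw, fun v => hS w v, fun v => hP w v⟩) (fun w' hw' => ?_) b bU b' bU' h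
  refine ⟨cj g.symm w', ?_, ?_, ?_⟩
  · rw [hW, hs]
    exact hw'
  · intro v
    have h1 := hS (cj g.symm w') v
    rw [hs] at h1
    exact h1
  · intro v
    have h1 := hP (cj g.symm w') v
    rw [hs] at h1
    exact h1

/-- if `τ = 1` the restriction is the identity. -/
theorem surjR_one (W : Subgroup (V ≃ₗ[ℂ] V)) (b : Basis ι ℂ V) (bU : Basis κ ℂ ↥(fixSub (1 : V ≃ₗ[ℂ] V))) :
    SurjR W 1 b bU := by
  intro p hp
  have hfin : IsOfFinOrder (1 : V ≃ₗ[ℂ] V) := IsOfFinOrder.one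
  let e : V →ₗ[ℂ] ↥(fixSub (1 : V ≃ₗ[ℂ] V)) := LinearMap.codRestrict _ LinearMap.id (fun v => rfl)
  let i : ↥(fixSub (1 : V ≃ₗ[ℂ] V)) →ₗ[ℂ] V := (fixSub (1 : V ≃ₗ[ℂ] V)).subtype
  refine ⟨LLT bU b i e p, ?_, ?_⟩
  · intro w hw
    obtain ⟨g, hg⟩ := exists_induced (1 : V ≃ₗ[ℂ] V) w (by rw [mul_one, one_mul])
    have hgp : trR bU bU g p = p := hp g ⟨w, hw, by rw [mul_one, one_mul], hg⟩
    conv_rhs => rw [← hgp]
    rw [trR_eq_LLT, trR_eq_LLT, LLT_LLT, LLT_LLT]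
    apply LLT_congr
    · intro u
      exact (hg u).symm
    · intro v
      show e (w.symm v) = g.symm (e v)
      rw [LinearEquiv.eq_symm_apply]
      apply Subtype.ext
      rw [hg]
      show w (w.symm v) = v
      rw [LinearEquiv.apply_symm_apply]
  · rw [resR_eq_LLT, LLT_LLT]
    have h6 : LLT bU bU ((projT (1 : V ≃ₗ[ℂ] V)).comp i) (e.comp (fixSub (1 : V ≃ₗ[ℂ] V)).subtype) p
        = LLT bU bU LinearMap.id LinearMap.id p := by
      apply LLT_congr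
      · intro u
        exact projT_of_mem hfin u
      · intro u
        rfl
    rw [h6, LLT_id]

end

end Pool.Agent.CM64
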