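import Pool.Agent.LibCM64.DiagDef
import Pool.Agent.LibCM64.SurjT

/-! `DiagRes` is `SurjR`. -/

set_option linter.unusedSectionVars false

namespace Pool.Agent.CM64

open Module MvPolynomial

section

variable {V : Type} [AddCommGroup V] [Module ℂ V] [FiniteDimensional ℂ V]
variable {ι : Type} [Fintype ι] [DecidableEq ι] {κ : Type} [Fintype κ] [DecidableEq κ]

/-- evaluation of `p ∈ ℂ[V][ξ]` at `(x,ξ)`: `x_i ↦ b.repr x i`, `ξ_i ↦ ξ(b_i)`. -/
noncomputable def evD (b : Basis ι ℂ V) : Rx ι →ₐ[ℂ] (V × Dual ℂ V → ℂ) :=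
  MvPolynomial.aevalTower (aeval (fun i => (fun a : V × Dual ℂ V => b.repr a.1 i)))
    (fun i => (fun a : V × Dual ℂ V => a.2 (b i)))

theorem evD_C (b : Basis ι ℂ V) (p : Px ι) (a : V × Dual ℂ V) : evD b (C p) a = evP b a.1 p := by
  rw [evD, MvPolynomial.aevalTower_C]
  have h : (Pi.evalAlgHom ℂ (fun _ : V × Dual ℂ V => ℂ) a).comp
      (aeval (fun i => (fun a : V × Dual ℂ V => b.repr a.1 i))) = evP b a.1 := by
    apply MvPolynomial.algHom_ext
    intro i
    rw [AlgHom.comp_apply, aeval_X, evP, aeval_X]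
    rfl
  exact congrArg (fun F => F p) h

private theorem diag_X (b : Basis ι ℂ V) (i : ι) (a : V × Dual ℂ V) : evD b (X i) a = a.2 (b i) := by
  rw [evD, MvPolynomial.aevalTower_X]

theorem evD_yR (b : Basis ι ℂ V) (v : V) (a : V × Dual ℂ V) : evD b (yR b v) a = a.2 v := by
  have h := b.sum_repr v
  conv_rhs => rw [← h]
  rw [yR_apply, map_sum, Finset.sum_apply, map_sum]
  refine Finset.sum_congr rfl (fun i _ => ?_)
  rw [map_smul, Pi.smul_apply, diag_X, map_smul]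

/-- evaluation in two steps. -/
private theorem diag_two (b : Basis ι ℂ V) (p : Rx ι) (a : V × Dual ℂ V) :
    evD b p a = eval (fun i => a.2 (b i)) (MvPolynomial.map ((evP b a.1 : Px ι →ₐ[ℂ] ℂ) : Px ι →+* ℂ) p) := by
  induction p using MvPolynomial.induction_on with
  | C c =>
    rw [evD_C, MvPolynomial.map_C, eval_C]
    rfl
  | add p q hp hq => rw [map_add, Pi.add_apply, hp, hq, map_add, map_add]
  | mul_X p i hp => rw [map_mul, Pi.mul_apply, hp, diag_X, map_mul, map_mul, MvPolynomial.map_X, eval_X]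

/-- `evD` is injective (an infinite field). -/
theorem evD_injective (b : Basis ι ℂ V) : Function.Injective (evD b) := by
  intro p q h
  have h1 : ∀ v : V, MvPolynomial.map ((evP b v : Px ι →ₐ[ℂ] ℂ) : Px ι →+* ℂ) p =
      MvPolynomial.map ((evP b v : Px ι →ₐ[ℂ] ℂ) : Px ι →+* ℂ) q := by
    intro v
    apply MvPolynomial.funext
    intro x
    have h2 := congrFun h (v, b.constr ℂ x)
    rw [diag_two, diag_two] at h2
    have h3 : (fun i => (v, b.constr ℂ x).2 (b i)) = x := by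
      funext i
      exact b.constr_basis ℂ x i
    rw [h3] at h2
    exact h2
  apply MvPolynomial.ext
  intro m
  apply evP_ext b
  intro v
  have h2 := congrArg (coeff m) (h1 v)
  rw [coeff_map, coeff_map] at h2
  exact h2

/-- the range of `evD`. -/
theorem mem_PolyFun_iff (b : Basis ι ℂ V) (F : V × Dual ℂ V → ℂ) : F ∈ PolyFun V ↔ ∃ p : Rx ι, evD b p = F := by
  constructor
  · intro hF
    have hle : PolyFun V ≤ (evD b).range := by
      rw [PolyFun, Algebra.adjoin_le_iff]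
      rintro G (⟨φ, rfl⟩ | ⟨v, rfl⟩)
      · refine ⟨C (xl b φ), ?_⟩
        funext a
        show evD b (C (xl b φ)) a = φ a.1
        rw [evD_C, evP_xl]
      · refine ⟨yR b v, ?_⟩
        funext a
        exact evD_yR b v a
    exact hle hF
  · rintro ⟨p, rfl⟩
    have hC : ∀ c : Px ι, evD b (C c) ∈ PolyFun V := by
      intro c
      induction c using MvPolynomial.induction_on with
      | C r =>
        have h : evD b (C (C r)) = algebraMap ℂ (V × Dual ℂ V → ℂ) r := (evD b).commutes r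
        rw [h]
        exact Subalgebra.algebraMap_mem _ r
      | add p q hp hq =>
        rw [C_add, map_add]
        exact Subalgebra.add_mem _ hp hq
      | mul_X p i hp =>
        rw [C_mul, map_mul]
        refine Subalgebra.mul_mem _ hp ?_
        have h : evD b (C (X i)) = fun a : V × Dual ℂ V => b.coord i a.1 := by
          funext a
          rw [evD_C, ← xl_coord b i, evP_xl]
        rw [h]
        exact Algebra.subset_adjoin (Or.inl ⟨b.coord i, rfl⟩)
    induction p using MvPolynomial.induction_on with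
    | C c => exact hC c
    | add p q hp hq =>
      rw [map_add]
      exact Subalgebra.add_mem _ hp hq
    | mul_X p i hp =>
      rw [map_mul]
      refine Subalgebra.mul_mem _ hp ?_
      have h : evD b (X i) = fun a : V × Dual ℂ V => a.2 (b i) := by
        funext a
        exact diag_X b i a
      rw [h]
      exact Algebra.subset_adjoin (Or.inr ⟨b i, rfl⟩)

theorem evD_trR (b : Basis ι ℂ V) (w : V ≃ₗ[ℂ] V) (p : Rx ι) (x : V) (ξ : Dual ℂ V) :
    evD b (trR b b w p) (w x, ξ.comp (w.symm : V →ₗ[ℂ] V)) = evD b p (x, ξ) := by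
  have h : (Pi.evalAlgHom ℂ (fun _ : V × Dual ℂ V => ℂ) (w x, ξ.comp (w.symm : V →ₗ[ℂ] V))).comp
      ((evD b).comp (trR b b w)) = (Pi.evalAlgHom ℂ (fun _ : V × Dual ℂ V => ℂ) (x, ξ)).comp (evD b) := by
    apply algHom_Rx_ext
    · intro c
      show evD b (trR b b w (C c)) (w x, ξ.comp (w.symm : V →ₗ[ℂ] V)) = evD b (C c) (x, ξ)
      rw [trR_C, evD_C, evD_C, evP_trP, LinearEquiv.symm_apply_apply]
    · intro i
      show evD b (trR b b w (X i)) (w x, ξ.comp (w.symm : V →ₗ[ℂ] V)) = evD b (X i) (x, ξ)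
      rw [trR_X, evD_yR, diag_X, LinearMap.comp_apply, LinearEquiv.coe_coe, LinearEquiv.symm_apply_apply]
  exact congrArg (fun F => F p) h

theorem evD_resR {τ : V ≃ₗ[ℂ] V} (b : Basis ι ℂ V) (bU : Basis κ ℂ ↥(fixSub τ)) (p : Rx ι) (u : ↥(fixSub τ))
    (η : Dual ℂ ↥(fixSub τ)) : evD bU (resR τ b bU p) (u, η) = evD b p ((u : V), η.comp (projT τ)) := by
  have h : (Pi.evalAlgHom ℂ (fun _ : ↥(fixSub τ) × Dual ℂ ↥(fixSub τ) => ℂ) (u, η)).comp
      ((evD bU).comp (resR τ b bU)) =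
      (Pi.evalAlgHom ℂ (fun _ : V × Dual ℂ V => ℂ) ((u : V), η.comp (projT τ))).comp (evD b) := by
    apply algHom_Rx_ext
    · intro c
      show evD bU (resR τ b bU (C c)) (u, η) = evD b (C c) ((u : V), η.comp (projT τ))
      rw [resR_C, evD_C, evD_C, evP_resP]
    · intro i
      show evD bU (resR τ b bU (X i)) (u, η) = evD b (X i) ((u : V), η.comp (projT τ))
      rw [diag_X, ← yR_basis b i, resR_yR, evD_yR, LinearMap.comp_apply]
  exact congrArg (fun F => F p) h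

/-- the covectors fixed by `τ` are the `η ∘ π`, `η ∈ U*`. -/
theorem fixed_covector {τ : V ≃ₗ[ℂ] V} (hfin : IsOfFinOrder τ) (ξ : Dual ℂ V) :
    (∀ v, ξ (τ v) = ξ v) ↔ ξ = (ξ.comp (fixSub τ).subtype).comp (projT τ) := by
  constructor
  · intro h1
    have h2 : ∀ (j : ℕ) (v : V), ξ ((τ ^ j : V ≃ₗ[ℂ] V) v) = ξ v := by
      intro j
      induction j with
      | zero => intro v; rfl
      | succ j ih =>
        intro v
        rw [pow_succ', LinearEquiv.mul_apply, h1, ih]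
    ext v
    show ξ v = ξ ((projT τ v : ↥(fixSub τ)) : V)
    rw [projT_apply_coe, avgT, LinearMap.smul_apply, LinearMap.sum_apply, map_smul, map_sum]
    have h3 : ∀ j ∈ Finset.range (orderOf τ),
        ξ (((τ ^ j : V ≃ₗ[ℂ] V) : V →ₗ[ℂ] V) v) = ξ v := fun j _ => h2 j v
    have h4 : (orderOf τ : ℂ) ≠ 0 := by
      exact_mod_cast (orderOf_pos_iff.2 hfin).ne'
    rw [Finset.sum_congr rfl h3, Finset.sum_const, Finset.card_range, ← Nat.cast_smul_eq_nsmul ℂ, smul_smul,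
      inv_mul_cancel₀ h4, one_smul]
  · intro h v
    rw [h]
    show ξ ((projT τ (τ v) : ↥(fixSub τ)) : V) = ξ ((projT τ v : ↥(fixSub τ)) : V)
    rw [projT_tau hfin]

private theorem diag_comm {τ w : V ≃ₗ[ℂ] V} (hw : w * τ = τ * w) (v : V) : w (τ v) = τ (w v) :=
  congrArg (fun F : V ≃ₗ[ℂ] V => F v) hw

private theorem diag_mem {τ w : V ≃ₗ[ℂ] V} (hw : w * τ = τ * w) {x : V} (hx : x ∈ fixSub τ) :
    w x ∈ fixSub τ := by
  rw [mem_fixSub] at hx ⊢
  rw [← diag_comm hw, hx]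

private theorem diag_mem_symm {τ w : V ≃ₗ[ℂ] V} (hw : w * τ = τ * w) {x : V} (hx : x ∈ fixSub τ) :
    w.symm x ∈ fixSub τ := by
  rw [mem_fixSub] at hx ⊢
  rw [LinearEquiv.eq_symm_apply, diag_comm hw, LinearEquiv.apply_symm_apply, hx]

/-- the restriction of `w` to `V^τ`. -/
private noncomputable def diag_g {τ w : V ≃ₗ[ℂ] V} (hw : w * τ = τ * w) :
    ↥(fixSub τ) ≃ₗ[ℂ] ↥(fixSub τ) :=
  LinearEquiv.ofLinearMap
    ((w : V →ₗ[ℂ] V).restrict (p := fixSub τ) (q := fixSub τ) (fun _ hx => diag_mem hw hx))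
    ((w.symm : V →ₗ[ℂ] V).restrict (p := fixSub τ) (q := fixSub τ) (fun _ hx => diag_mem_symm hw hx))
    (by
      ext u
      exact LinearEquiv.apply_symm_apply w (u : V))
    (by
      ext u
      exact LinearEquiv.symm_apply_apply w (u : V))

private theorem diag_g_coe {τ w : V ≃ₗ[ℂ] V} (hw : w * τ = τ * w) (u : ↥(fixSub τ)) :
    ((diag_g hw u : ↥(fixSub τ)) : V) = w (u : V) := rfl

private theorem diag_g_mem {W : Subgroup (V ≃ₗ[ℂ] V)} {τ w : V ≃ₗ[ℂ] V} (hwW : w ∈ W) (hw : w * τ = τ * w) :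
    diag_g hw ∈ fixGrp W τ := ⟨w, hwW, hw, fun u => diag_g_coe hw u⟩

/-- the two extensions of a covector of `U` moved by `w`. -/
private theorem diag_cov {τ w : V ≃ₗ[ℂ] V} (hfin : IsOfFinOrder τ) (hw : w * τ = τ * w)
    {g : ↥(fixSub τ) ≃ₗ[ℂ] ↥(fixSub τ)} (hg : ∀ u : ↥(fixSub τ), ((g u : ↥(fixSub τ)) : V) = w (u : V))
    (η : Dual ℂ ↥(fixSub τ)) :
    (η.comp (projT τ)).comp (w.symm : V →ₗ[ℂ] V) =
      (η.comp (g.symm : ↥(fixSub τ) →ₗ[ℂ] ↥(fixSub τ))).comp (projT τ) := by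
  have h1 : ∀ v, ((η.comp (projT τ)).comp (w.symm : V →ₗ[ℂ] V)) (τ v) =
      ((η.comp (projT τ)).comp (w.symm : V →ₗ[ℂ] V)) v := by
    intro v
    show η (projT τ (w.symm (τ v))) = η (projT τ (w.symm v))
    have h2 : w.symm (τ v) = τ (w.symm v) := by
      rw [LinearEquiv.symm_apply_eq, diag_comm hw, LinearEquiv.apply_symm_apply]
    rw [h2, projT_tau hfin]
  rw [(fixed_covector hfin _).1 h1]
  congr 1
  ext u
  show η (projT τ (w.symm (u : V))) = η (g.symm u)
  have h3 : w.symm (u : V) = ((g.symm u : ↥(fixSub τ)) : V) := by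
    rw [LinearEquiv.symm_apply_eq, ← hg, LinearEquiv.apply_symm_apply]
  rw [h3, projT_of_mem hfin]

/-- the two formulations are equivalent. -/
theorem diagRes_iff (W : Subgroup (V ≃ₗ[ℂ] V)) {τ : V ≃ₗ[ℂ] V} (hfin : IsOfFinOrder τ) (b : Basis ι ℂ V)
    (bU : Basis κ ℂ ↥(fixSub τ)) : DiagRes W τ ↔ SurjR W τ b bU := by
  have hfix : ∀ (η : Dual ℂ ↥(fixSub τ)) (v : V), (η.comp (projT τ)) (τ v) = (η.comp (projT τ)) v := by
    intro η v
    show η (projT τ (τ v)) = η (projT τ v)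
    rw [projT_tau hfin]
  constructor
  · intro hD p hp
    obtain ⟨p', hp'⟩ := resR_surjective τ b bU hfin p
    have hinv : ∀ w ∈ W, w * τ = τ * w → ∀ (x : V) (ξ : Dual ℂ V), τ x = x → (∀ v, ξ (τ v) = ξ v) →
        evD b p' (w x, ξ.comp (w.symm : V →ₗ[ℂ] V)) = evD b p' (x, ξ) := by
      intro w hwW hw x ξ hx hξ
      rw [(fixed_covector hfin ξ).1 hξ]
      set η : Dual ℂ ↥(fixSub τ) := ξ.comp (fixSub τ).subtype with hη
      rw [diag_cov hfin hw (diag_g_coe hw) η]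
      have h1 := evD_resR b bU p' (⟨x, hx⟩ : ↥(fixSub τ)) η
      have h2 := evD_resR b bU p' (diag_g hw ⟨x, hx⟩)
        (η.comp ((diag_g hw).symm : ↥(fixSub τ) →ₗ[ℂ] ↥(fixSub τ)))
      have h3 := evD_trR bU (diag_g hw) p ⟨x, hx⟩ η
      rw [hp (diag_g hw) (diag_g_mem hwW hw)] at h3
      rw [hp'] at h1 h2
      rw [diag_g_coe] at h2
      rw [← h2, h3, h1]
    obtain ⟨Q, hQ, hQW, hQP⟩ := hD (evD b p') ((mem_PolyFun_iff b _).2 ⟨p', rfl⟩) hinv
    obtain ⟨q, rfl⟩ := (mem_PolyFun_iff b Q).1 hQ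
    refine ⟨q, fun w hw => ?_, ?_⟩
    · apply evD_injective b
      funext a
      obtain ⟨x, ξ⟩ := a
      have h1 := evD_trR b w q (w.symm x) (ξ.comp (w : V →ₗ[ℂ] V))
      have h2 := hQW w hw (w.symm x) (ξ.comp (w : V →ₗ[ℂ] V))
      have h3 : (ξ.comp (w : V →ₗ[ℂ] V)).comp (w.symm : V →ₗ[ℂ] V) = ξ := by
        ext v
        show ξ (w (w.symm v)) = ξ v
        rw [LinearEquiv.apply_symm_apply]
      rw [h3, LinearEquiv.apply_symm_apply] at h1 h2
      rw [h1, ← h2]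
    · apply evD_injective bU
      funext a
      obtain ⟨u, η⟩ := a
      rw [evD_resR, hQP (u : V) (η.comp (projT τ)) u.2 (hfix η), ← evD_resR b bU, hp']
  · intro hS P hP hinv
    obtain ⟨p', rfl⟩ := (mem_PolyFun_iff b P).1 hP
    have hp : ∀ g ∈ fixGrp W τ, trR bU bU g (resR τ b bU p') = resR τ b bU p' := by
      rintro g ⟨w, hwW, hw, hg⟩
      apply evD_injective bU
      funext a
      obtain ⟨u, η⟩ := a
      have h1 := evD_trR bU g (resR τ b bU p') (g.symm u) (η.comp (g : ↥(fixSub τ) →ₗ[ℂ] ↥(fixSub τ)))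
      have h3 : (η.comp (g : ↥(fixSub τ) →ₗ[ℂ] ↥(fixSub τ))).comp
          (g.symm : ↥(fixSub τ) →ₗ[ℂ] ↥(fixSub τ)) = η := by
        ext v
        show η (g (g.symm v)) = η v
        rw [LinearEquiv.apply_symm_apply]
      rw [h3, LinearEquiv.apply_symm_apply] at h1
      rw [h1, evD_resR, evD_resR,
        ← hinv w hwW hw ((g.symm u : ↥(fixSub τ)) : V) _ (g.symm u).2 (hfix _), ← hg,
        LinearEquiv.apply_symm_apply, diag_cov hfin hw hg, h3]
    obtain ⟨q, hq, hq'⟩ := hS (resR τ b bU p') hp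
    refine ⟨evD b q, (mem_PolyFun_iff b _).2 ⟨q, rfl⟩, fun w hw x ξ => ?_, fun x ξ hx hξ => ?_⟩
    · have h1 := evD_trR b w q x ξ
      rw [hq w hw] at h1
      exact h1
    · rw [(fixed_covector hfin ξ).1 hξ]
      have h1 := evD_resR b bU q (⟨x, hx⟩ : ↥(fixSub τ)) (ξ.comp (fixSub τ).subtype)
      have h2 := evD_resR b bU p' (⟨x, hx⟩ : ↥(fixSub τ)) (ξ.comp (fixSub τ).subtype)
      rw [hq'] at h1
      rw [← h1, ← h2]

end

end Pool.Agent.CM64
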