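import Pool.Agent.LibCM64.Defs

/-! Polynomial functions on `V × V*`; the restriction to the fixed points of `τ`. -/

set_option linter.unusedSectionVars false

namespace Pool.Agent.CM64

open Module

section

variable {V : Type} [AddCommGroup V] [Module ℂ V]

/-- The algebra of polynomial functions on `V × V*`: generated by the functions `(x,ξ) ↦ φ(x)`, `φ ∈ V*`, and
`(x,ξ) ↦ ξ(v)`, `v ∈ V`. -/
def PolyFun (V : Type) [AddCommGroup V] [Module ℂ V] : Subalgebra ℂ (V × Dual ℂ V → ℂ) :=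
  Algebra.adjoin ℂ ({F | ∃ φ : Dual ℂ V, F = fun a => φ a.1} ∪ {F | ∃ v : V, F = fun a => a.2 v})

/-- Every polynomial function on the fixed space `(V × V*)^τ` which is invariant under the centraliser
`W^τ = {w ∈ W | w τ = τ w}` is the restriction of a `W`-invariant polynomial function on `V × V*`. -/
def DiagRes (W : Subgroup (V ≃ₗ[ℂ] V)) (τ : V ≃ₗ[ℂ] V) : Prop :=
  ∀ P ∈ PolyFun V,
    (∀ w ∈ W, w * τ = τ * w → ∀ (x : V) (ξ : Dual ℂ V), τ x = x → (∀ v, ξ (τ v) = ξ v) →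
      P (w x, ξ.comp (w.symm : V →ₗ[ℂ] V)) = P (x, ξ)) →
    ∃ Q ∈ PolyFun V,
      (∀ w ∈ W, ∀ (x : V) (ξ : Dual ℂ V), Q (w x, ξ.comp (w.symm : V →ₗ[ℂ] V)) = Q (x, ξ)) ∧
      ∀ (x : V) (ξ : Dual ℂ V), τ x = x → (∀ v, ξ (τ v) = ξ v) → Q (x, ξ) = P (x, ξ)

end

end Pool.Agent.CM64
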