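import Pool.Agent.LibCM64.Conj

/-! Transport of Dunkl operators and of `M_k` along a linear isomorphism `g : V ≃ V'` with `Tp g W W' k k'`. -/

set_option linter.unusedSectionVars false

namespace Pool.Agent.CM64

open Module MvPolynomial

section

variable {V : Type} [AddCommGroup V] [Module ℂ V] [FiniteDimensional ℂ V]
variable {V' : Type} [AddCommGroup V'] [Module ℂ V'] [FiniteDimensional ℂ V']
variable {ι : Type} [Fintype ι] [DecidableEq ι] {ι' : Type} [Fintype ι'] [DecidableEq ι']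
variable {g : V ≃ₗ[ℂ] V'} {W : Subgroup (V ≃ₗ[ℂ] V)} [Finite W] {W' : Subgroup (V' ≃ₗ[ℂ] V')} [Finite W']
  {k : Submodule ℂ V → ℤ → ℂ} {k' : Submodule ℂ V' → ℤ → ℂ}

theorem tact_aop_apply {V : Type} [AddCommGroup V] [Module ℂ V] [FiniteDimensional ℂ V]
    {ι : Type} [Fintype ι] [DecidableEq ι] (W : Subgroup (V ≃ₗ[ℂ] V)) [Finite W]
    (k : Submodule ℂ V → ℤ → ℂ) (b : Basis ι ℂ V) (H : Submodule ℂ V) (p : Ax ι) :
    aop W k b H p = ∑ g ∈ pstF W H, kap W k H g • act b g p := by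
  unfold aop
  rw [LinearMap.sum_apply]
  rfl

theorem tact_dunkl_apply {V : Type} [AddCommGroup V] [Module ℂ V] [FiniteDimensional ℂ V]
    {ι : Type} [Fintype ι] [DecidableEq ι] (W : Subgroup (V ≃ₗ[ℂ] V)) [Finite W]
    (k : Submodule ℂ V → ℤ → ℂ) (b : Basis ι ℂ V) (v : V) (p : Ax ι) :
    dunkl W k b v p = yA b v * p + ∑ H ∈ arrF W, C (qH b H v) * aop W k b H p := by
  unfold dunkl
  rw [LinearMap.add_apply, LinearMap.sum_apply]
  rfl

/-- `g (h p) = (g h g⁻¹) (g p)` (by `trA_trans_apply`). -/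
theorem trA_act (b : Basis ι ℂ V) (b' : Basis ι' ℂ V') (g : V ≃ₗ[ℂ] V') (h : V ≃ₗ[ℂ] V) (p : Ax ι) :
    trA b b' g (act b h p) = act b' (cj g h) (trA b b' g p) := by
  have e : h.trans g = g.trans (cj g h) := by
    ext v
    simp [cj]
  rw [act, trA_trans_apply, act, trA_trans_apply, e]

/-- by `sum_pstF_map`, `kap_map`, `trA_act`. -/
theorem trA_aop (h : Tp g W W' k k') (b : Basis ι ℂ V) (b' : Basis ι' ℂ V') {H : Submodule ℂ V}
    (hH : H ∈ arr W) (p : Ax ι) :
    trA b b' g (aop W k b H p) = aop W' k' b' (H.map (g : V →ₗ[ℂ] V')) (trA b b' g p) := by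
  rw [tact_aop_apply, tact_aop_apply, map_sum,
    sum_pstF_map h H (fun u => kap W' k' (H.map (g : V →ₗ[ℂ] V')) u • act b' u (trA b b' g p))]
  refine Finset.sum_congr rfl fun u _ => ?_
  rw [map_smul, kap_map h hH u, trA_act]

/-- `g T_v = T_{g v} g` (by `sum_arrF_map`, `trF_qH`, `trA_yA`, `trA_aop`). -/
theorem trA_dunkl (h : Tp g W W' k k') (b : Basis ι ℂ V) (b' : Basis ι' ℂ V') (v : V) (p : Ax ι) :
    trA b b' g (dunkl W k b v p) = dunkl W' k' b' (g v) (trA b b' g p) := by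
  rw [tact_dunkl_apply, tact_dunkl_apply, map_add, map_mul, trA_yA, map_sum,
    sum_arrF_map h (fun H' => C (qH b' H' (g v)) * aop W' k' b' H' (trA b b' g p))]
  congr 1
  refine Finset.sum_congr rfl fun H hH => ?_
  have hH' := mem_arrF.1 hH
  rw [map_mul, trA_C, trF_qH b b' g H (arr_finrank W hH') v, trA_aop h b b' hH' p]

/-- apply `Mk_le` to the comap of `Mk W' k' b'`. -/
theorem trA_mem_Mk (h : Tp g W W' k k') (b : Basis ι ℂ V) (b' : Basis ι' ℂ V') {m : Ax ι}
    (hm : m ∈ Mk W k b) : trA b b' g m ∈ Mk W' k' b' := by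
  have hst : IsStab W k b ((Mk W' k' b').comap (trA b b' g).toLinearMap) := by
    constructor
    · show trA b b' g 1 ∈ Mk W' k' b'
      rw [map_one]
      exact Mk_one W' k' b'
    · intro f m hm
      show trA b b' g (xA (xl b f) * m) ∈ Mk W' k' b'
      rw [map_mul, trA_xA, trP_xl]
      exact Mk_xl W' k' hm _
    · intro v m hm
      show trA b b' g (dunkl W k b v m) ∈ Mk W' k' b'
      rw [trA_dunkl h]
      exact Mk_dunkl W' k' hm _
  exact Mk_le W k hst hm

theorem trA_mem_Mk_iff (h : Tp g W W' k k') (b : Basis ι ℂ V) (b' : Basis ι' ℂ V') {m : Ax ι} :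
    trA b b' g m ∈ Mk W' k' b' ↔ m ∈ Mk W k b := by
  constructor
  · intro hm
    have h1 := trA_mem_Mk (tp_symm h) b' b hm
    rwa [trA_symm_apply] at h1
  · exact trA_mem_Mk h b b'

/-- `W` preserves `M_k`. -/
theorem act_mem_Mk (hk : Adm W k) (b : Basis ι ℂ V) {w : V ≃ₗ[ℂ] V} (hw : w ∈ W) {m : Ax ι}
    (hm : m ∈ Mk W k b) : act b w m ∈ Mk W k b :=
  trA_mem_Mk (tp_of_mem hk hw) b b hm

end

section

variable {V : Type} [AddCommGroup V] [Module ℂ V] [FiniteDimensional ℂ V]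
variable {ι : Type} [Fintype ι] [DecidableEq ι]
variable (W : Subgroup (V ≃ₗ[ℂ] V)) [Finite W] (k : Submodule ℂ V → ℤ → ℂ)

theorem act_C_algebraMap (b : Basis ι ℂ V) (g : V ≃ₗ[ℂ] V) (c : ℂ) :
    act b g (algebraMap ℂ (Ax ι) c) = algebraMap ℂ (Ax ι) c :=
  (act b g).commutes c

theorem tact_qH_add (b : Basis ι ℂ V) (H : Submodule ℂ V) (v v' : V) :
    qH b H (v + v') = qH b H v + qH b H v' := by
  unfold qH
  rw [map_add, map_add, add_div]

theorem tact_qH_smul (b : Basis ι ℂ V) (H : Submodule ℂ V) (c : ℂ) (v : V) :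
    (C (qH b H (c • v)) : Ax ι) = c • C (qH b H v) := by
  unfold qH
  rw [map_smul, smul_eq_mul, map_mul, mul_div_assoc, map_mul, Algebra.smul_def]
  rfl

/-- `T_v` is linear in `v`. -/
theorem dunkl_add (b : Basis ι ℂ V) (v v' : V) :
    dunkl W k b (v + v') = dunkl W k b v + dunkl W k b v' := by
  refine LinearMap.ext fun m => ?_
  rw [LinearMap.add_apply, tact_dunkl_apply, tact_dunkl_apply, tact_dunkl_apply, map_add, add_mul]
  have : ∑ H ∈ arrF W, C (qH b H (v + v')) * aop W k b H m =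
      ∑ H ∈ arrF W, C (qH b H v) * aop W k b H m + ∑ H ∈ arrF W, C (qH b H v') * aop W k b H m := by
    rw [← Finset.sum_add_distrib]
    refine Finset.sum_congr rfl fun H _ => ?_
    rw [tact_qH_add, map_add, add_mul]
  rw [this]
  ring

theorem dunkl_smul (b : Basis ι ℂ V) (c : ℂ) (v : V) : dunkl W k b (c • v) = c • dunkl W k b v := by
  refine LinearMap.ext fun m => ?_
  rw [LinearMap.smul_apply, tact_dunkl_apply, tact_dunkl_apply, map_smul, smul_add, smul_mul_assoc,
    Finset.smul_sum]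
  congr 1
  refine Finset.sum_congr rfl fun H _ => ?_
  rw [tact_qH_smul, smul_mul_assoc]

/-- `a_H 1 = 0` as `∑_g κ_H(g) = 0`. -/
theorem aop_one (b : Basis ι ℂ V) {H : Submodule ℂ V} (hH : finrank ℂ H + 1 = finrank ℂ V) :
    aop W k b H 1 = 0 := by
  rw [tact_aop_apply]
  have h1 : ∀ g ∈ pstF W H, kap W k H g • act b g (1 : Ax ι) = kap W k H g • (1 : Ax ι) := by
    intro g _
    rw [map_one]
  rw [Finset.sum_congr rfl h1, ← Finset.sum_smul, sum_kap W k hH, zero_smul]

/-- `T_v 1 = ξ_v`. -/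
theorem dunkl_one (b : Basis ι ℂ V) (v : V) : dunkl W k b v 1 = yA b v := by
  rw [tact_dunkl_apply, mul_one, Finset.sum_eq_zero, add_zero]
  intro H hH
  rw [aop_one W k b (arr_finrank W (mem_arrF.1 hH)), mul_zero]

theorem tact_aop_mul_inv (b : Basis ι ℂ V) (H : Submodule ℂ V) {f : Ax ι} (hf : InvA W b f)
    (m : Ax ι) : aop W k b H (f * m) = f * aop W k b H m := by
  rw [tact_aop_apply, tact_aop_apply, Finset.mul_sum]
  refine Finset.sum_congr rfl fun g hg => ?_
  rw [map_mul, hf g (mem_pstF.1 hg).1, mul_smul_comm]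

/-- multiplication by a `W`-invariant element commutes with `T_v`. -/
theorem dunkl_mul_inv (b : Basis ι ℂ V) (v : V) {f : Ax ι} (hf : InvA W b f) (m : Ax ι) :
    dunkl W k b v (f * m) = f * dunkl W k b v m := by
  rw [tact_dunkl_apply, tact_dunkl_apply, mul_add, Finset.mul_sum]
  congr 1
  · ring
  · refine Finset.sum_congr rfl fun H _ => ?_
    rw [tact_aop_mul_inv W k b H hf]
    ring

/-- if `W' ≤ W` is the trivial group on hyperplanes, i.e. `W` has no reflecting hyperplane, `T_v = ξ_v`. -/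
theorem dunkl_of_arr_empty (b : Basis ι ℂ V) (h : arr W = ∅) (v : V) :
    dunkl W k b v = LinearMap.mulLeft ℂ (yA b v) := by
  have h1 : arrF W = ∅ := by
    rw [Finset.eq_empty_iff_forall_notMem]
    intro H hH
    rw [mem_arrF, h] at hH
    exact hH
  unfold dunkl
  rw [h1, Finset.sum_empty, add_zero]

end

end Pool.Agent.CM64
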