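import Pool.Agent.LibCM64.Spr
import Pool.Agent.LibCM64.Tact

/-! The dual representation; covectors. -/

set_option linter.unusedSectionVars false

namespace Pool.Agent.CM64

open Module MvPolynomial

section

variable {V : Type} [AddCommGroup V] [Module ℂ V] [FiniteDimensional ℂ V]
variable {ι : Type} [Fintype ι] [DecidableEq ι]

/-- `g ↦ (f ↦ f ∘ g⁻¹)`. -/
noncomputable def dgHom (V : Type) [AddCommGroup V] [Module ℂ V] :
    (V ≃ₗ[ℂ] V) →* (Dual ℂ V ≃ₗ[ℂ] Dual ℂ V) where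
  toFun g := g.symm.dualMap
  map_one' := by ext f v; rfl
  map_mul' g h := by ext f v; rfl

theorem dgHom_apply (g : V ≃ₗ[ℂ] V) (f : Dual ℂ V) : dgHom V g f = f.comp (g.symm : V →ₗ[ℂ] V) := rfl

theorem dgHom_injective : Function.Injective (dgHom V) := by
  intro g h hgh
  have h1 : ∀ v : V, g.symm v = h.symm v := by
    intro v
    rw [← sub_eq_zero]
    refine (Module.forall_dual_apply_eq_zero_iff ℂ (g.symm v - h.symm v)).mp (fun f => ?_)
    have h2 : dgHom V g f v = dgHom V h f v := by rw [hgh]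
    have h3 : f (g.symm v) = f (h.symm v) := h2
    rw [map_sub, h3, sub_self]
  have h2 : g.symm = h.symm := LinearEquiv.ext h1
  calc g = g.symm.symm := rfl
    _ = h.symm.symm := by rw [h2]
    _ = h := rfl

/-- the group acting on the dual space. -/
noncomputable def dualGrp (Γ : Subgroup (V ≃ₗ[ℂ] V)) : Subgroup (Dual ℂ V ≃ₗ[ℂ] Dual ℂ V) := Γ.map (dgHom V)

instance dualGrp.instFinite (Γ : Subgroup (V ≃ₗ[ℂ] V)) [Finite Γ] : Finite (dualGrp Γ) := by
  have : ((dualGrp Γ : Subgroup _) : Set (Dual ℂ V ≃ₗ[ℂ] Dual ℂ V)) = (dgHom V) '' (Γ : Set (V ≃ₗ[ℂ] V)) := rfl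
  have h2 : ((dualGrp Γ : Subgroup _) : Set (Dual ℂ V ≃ₗ[ℂ] Dual ℂ V)).Finite := by
    rw [this]; exact (Set.toFinite (Γ : Set (V ≃ₗ[ℂ] V))).image _
  exact h2.to_subtype

theorem finrank_fixSub_dual (g : V ≃ₗ[ℂ] V) : finrank ℂ (fixSub (dgHom V g)) = finrank ℂ (fixSub g) := by
  have h1 : fixSub (dgHom V g) =
      (LinearMap.range ((g.symm : V →ₗ[ℂ] V) - LinearMap.id)).dualAnnihilator := by
    ext f
    rw [mem_fixSub, Submodule.mem_dualAnnihilator]
    constructor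
    · rintro h w ⟨v, rfl⟩
      have h2 : dgHom V g f v = f v := by rw [h]
      have h3 : f (g.symm v) = f v := h2
      show f (g.symm v - v) = 0
      rw [map_sub, h3, sub_self]
    · intro h
      ext v
      have h2 := h (g.symm v - v) ⟨v, rfl⟩
      rw [map_sub, sub_eq_zero] at h2
      exact h2
  have h2 : LinearMap.ker ((g.symm : V →ₗ[ℂ] V) - LinearMap.id) = fixSub g := by
    ext v
    rw [LinearMap.mem_ker, mem_fixSub]
    show g.symm v - v = 0 ↔ g v = v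
    rw [sub_eq_zero, LinearEquiv.symm_apply_eq, eq_comm]
  have h3 := LinearMap.finrank_range_add_finrank_ker ((g.symm : V →ₗ[ℂ] V) - LinearMap.id)
  have h4 := Subspace.finrank_add_finrank_dualAnnihilator_eq
    (LinearMap.range ((g.symm : V →ₗ[ℂ] V) - LinearMap.id))
  rw [h2] at h3
  rw [← h1] at h4
  omega

theorem reflGen_dual {Γ : Subgroup (V ≃ₗ[ℂ] V)} (h : ReflGen Γ) : ReflGen (dualGrp Γ) := by
  have h1 : {s | s ∈ dualGrp Γ ∧ IsRefl s} = dgHom V '' {s | s ∈ Γ ∧ IsRefl s} := by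
    ext s
    constructor
    · rintro ⟨⟨g, hg, rfl⟩, hs⟩
      refine ⟨g, ⟨hg, ?_⟩, rfl⟩
      unfold IsRefl at hs ⊢
      rw [finrank_fixSub_dual, Subspace.dual_finrank_eq] at hs
      exact hs
    · rintro ⟨g, ⟨hg, hs⟩, rfl⟩
      refine ⟨⟨g, hg, rfl⟩, ?_⟩
      unfold IsRefl at hs ⊢
      rw [finrank_fixSub_dual, Subspace.dual_finrank_eq]
      exact hs
  unfold ReflGen at h ⊢
  rw [h1, ← MonoidHom.map_closure, h]
  rfl

theorem normalizes_dual {Γ : Subgroup (V ≃ₗ[ℂ] V)} {τ : V ≃ₗ[ℂ] V} (h : Normalizes τ Γ) :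
    Normalizes (dgHom V τ) (dualGrp Γ) := by
  intro x
  constructor
  · rintro ⟨g, hg, rfl⟩
    refine ⟨τ * g * τ⁻¹, (h g).mp hg, ?_⟩
    rw [map_mul, map_mul, map_inv]
  · rintro ⟨g, hg, hx⟩
    refine ⟨τ⁻¹ * g * τ, (h _).mpr ?_, ?_⟩
    · have h1 : τ * (τ⁻¹ * g * τ) * τ⁻¹ = g := by group
      rw [h1]
      exact hg
    · rw [map_mul, map_mul, map_inv, hx]
      group

theorem isOfFinOrder_dual {τ : V ≃ₗ[ℂ] V} (h : IsOfFinOrder τ) : IsOfFinOrder (dgHom V τ) := by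
  exact (dgHom V).isOfFinOrder h

/-- a finite group preserves a hermitian form: there is an injective equivariant conjugate linear map `V → V*`. -/
theorem exists_conj_dual (G : Subgroup (V ≃ₗ[ℂ] V)) [Finite G] : ∃ J : V →ₛₗ[starRingEnd ℂ] Dual ℂ V,
    Function.Injective J ∧ ∀ g ∈ G, ∀ v, J (g v) = (J v).comp (g.symm : V →ₗ[ℂ] V) := by
  classical
  let β := Module.finBasis ℂ V
  let J0 : V →ₛₗ[starRingEnd ℂ] Dual ℂ V :=
    { toFun := fun v => ∑ i, (starRingEnd ℂ (β.coord i v)) • β.coord i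
      map_add' := fun v w => by simp only [map_add, add_smul, Finset.sum_add_distrib]
      map_smul' := fun c v => by
        simp only [map_smul, smul_eq_mul, map_mul, mul_smul, Finset.smul_sum] }
  have hJ0 : ∀ v w, J0 v w = ∑ i, starRingEnd ℂ (β.coord i v) * β.coord i w := by
    intro v w
    show (∑ i, (starRingEnd ℂ (β.coord i v)) • β.coord i) w = _
    rw [LinearMap.sum_apply]
    rfl
  have := Fintype.ofFinite G
  let J : V →ₛₗ[starRingEnd ℂ] Dual ℂ V :=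
    { toFun := fun v => ∑ g : G, (J0 ((g : V ≃ₗ[ℂ] V) v)).comp ((g : V ≃ₗ[ℂ] V) : V →ₗ[ℂ] V)
      map_add' := fun v w => by
        simp only [map_add, LinearMap.add_comp, Finset.sum_add_distrib]
      map_smul' := fun c v => by
        simp only [map_smul, LinearMap.map_smulₛₗ, LinearMap.smul_comp, Finset.smul_sum] }
  have hJ : ∀ v w, J v w = ∑ g : G, J0 ((g : V ≃ₗ[ℂ] V) v) ((g : V ≃ₗ[ℂ] V) w) := by
    intro v w
    show (∑ g : G, (J0 ((g : V ≃ₗ[ℂ] V) v)).comp ((g : V ≃ₗ[ℂ] V) : V →ₗ[ℂ] V)) w = _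
    rw [LinearMap.sum_apply]
    rfl
  refine ⟨J, ?_, ?_⟩
  · rw [injective_iff_map_eq_zero]
    intro v hv
    have h1 : J v v = 0 := by rw [hv]; rfl
    rw [hJ] at h1
    have h2 : (∑ g : G, ∑ i, Complex.normSq (β.coord i ((g : V ≃ₗ[ℂ] V) v)) : ℝ) = 0 := by
      have h3 : ((∑ g : G, ∑ i, Complex.normSq (β.coord i ((g : V ≃ₗ[ℂ] V) v)) : ℝ) : ℂ) = 0 := by
        rw [← h1]
        push_cast
        refine Finset.sum_congr rfl (fun g _ => ?_)
        rw [hJ0]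
        refine Finset.sum_congr rfl (fun i _ => ?_)
        exact Complex.normSq_eq_conj_mul_self
      exact_mod_cast h3
    have h4 := (Finset.sum_eq_zero_iff_of_nonneg (fun g _ =>
      Finset.sum_nonneg (fun i _ => Complex.normSq_nonneg _))).mp h2 1 (Finset.mem_univ _)
    have h5 := (Finset.sum_eq_zero_iff_of_nonneg (fun i _ => Complex.normSq_nonneg _)).mp h4
    have h6 : ∀ i, β.coord i v = 0 := fun i => Complex.normSq_eq_zero.mp (h5 i (Finset.mem_univ i))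
    refine β.ext_elem (fun i => ?_)
    rw [map_zero]
    exact h6 i
  · intro h hh v
    ext w
    rw [hJ]
    show _ = J v (h.symm w)
    rw [hJ]
    refine Fintype.sum_equiv (Equiv.mulRight (⟨h, hh⟩ : G)) _ _ (fun g => ?_)
    show J0 ((g : V ≃ₗ[ℂ] V) (h v)) ((g : V ≃ₗ[ℂ] V) w) =
      J0 ((g : V ≃ₗ[ℂ] V) (h v)) ((g : V ≃ₗ[ℂ] V) (h (h.symm w)))
    rw [LinearEquiv.apply_symm_apply]

/-- a `τ`-fixed vector with trivial stabiliser gives a `τ`-fixed covector with trivial stabiliser (the group generated by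
`Γ` and `τ` is finite). -/
theorem exists_free_covector {Γ : Subgroup (V ≃ₗ[ℂ] V)} [Finite Γ] {τ : V ≃ₗ[ℂ] V} (hτ : Normalizes τ Γ)
    (hfin : IsOfFinOrder τ) {u : V} (hu : ∀ g ∈ Γ, g u = u → g = 1) (hτu : τ u = u) :
    ∃ f : Dual ℂ V, dgHom V τ f = f ∧ ∀ g ∈ dualGrp Γ, g f = f → g = 1 := by
  have hn : τ ∈ Subgroup.normalizer (Γ : Set (V ≃ₗ[ℂ] V)) := by
    rw [Subgroup.mem_normalizer_iff]
    exact hτ
  have hconj : ∀ (k : ℤ) (g : V ≃ₗ[ℂ] V), g ∈ Γ → τ ^ k * g * (τ ^ k)⁻¹ ∈ Γ := fun k g hg =>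
    (Subgroup.mem_normalizer_iff.mp (zpow_mem hn k) g).mp hg
  let G : Subgroup (V ≃ₗ[ℂ] V) :=
    { carrier := {x | ∃ (k : ℤ), ∃ g ∈ Γ, x = τ ^ k * g}
      mul_mem' := by
        rintro a c ⟨k, g, hg, rfl⟩ ⟨l, h, hh, rfl⟩
        refine ⟨k + l, (τ ^ (-l) * g * (τ ^ (-l))⁻¹) * h, Γ.mul_mem (hconj (-l) g hg) hh, ?_⟩
        rw [zpow_add, zpow_neg]
        group
      one_mem' := ⟨0, 1, Γ.one_mem, by rw [zpow_zero, one_mul]⟩
      inv_mem' := by
        rintro a ⟨k, g, hg, rfl⟩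
        refine ⟨-k, τ ^ k * g⁻¹ * (τ ^ k)⁻¹, hconj k _ (Γ.inv_mem hg), ?_⟩
        rw [zpow_neg]
        group }
  have hfinG : Finite G := by
    have h1 : ((Subgroup.zpowers τ : Subgroup (V ≃ₗ[ℂ] V)) : Set (V ≃ₗ[ℂ] V)).Finite := by
      have := hfin.finite_zpowers
      exact this
    have h2 : (G : Set (V ≃ₗ[ℂ] V)) ⊆ Set.image2 (fun x y => x * y)
        ((Subgroup.zpowers τ : Subgroup (V ≃ₗ[ℂ] V)) : Set (V ≃ₗ[ℂ] V)) (Γ : Set (V ≃ₗ[ℂ] V)) := by
      rintro x ⟨k, g, hg, rfl⟩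
      exact ⟨τ ^ k, ⟨k, rfl⟩, g, hg, rfl⟩
    exact ((h1.image2 _ (Set.toFinite (Γ : Set (V ≃ₗ[ℂ] V)))).subset h2).to_subtype
  obtain ⟨J, hJi, hJ⟩ := exists_conj_dual G
  refine ⟨J u, ?_, ?_⟩
  · rw [dgHom_apply, ← hJ τ ⟨1, 1, Γ.one_mem, by rw [zpow_one, mul_one]⟩ u, hτu]
  · rintro x ⟨g, hg, rfl⟩ hx
    rw [dgHom_apply, ← hJ g ⟨0, g, hg, by rw [zpow_zero, one_mul]⟩ u] at hx
    rw [hu g hg (hJi hx), map_one]

/-- a polynomial on `V*` as an element of `ℂ[V][ξ]`. -/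
noncomputable def xiR : Px ι →ₐ[ℂ] Rx ι := MvPolynomial.mapAlgHom (Algebra.ofId ℂ (Px ι))

theorem xiR_X (i : ι) : xiR (X i : Px ι) = X i := by
  simp [xiR, MvPolynomial.mapAlgHom_apply]

theorem xiR_injective : Function.Injective (xiR : Px ι → Rx ι) := by
  intro p q h
  have h1 : MvPolynomial.map (algebraMap ℂ (Px ι)) p = MvPolynomial.map (algebraMap ℂ (Px ι)) q := h
  exact MvPolynomial.map_injective _ (MvPolynomial.C_injective ι ℂ) h1

theorem xiR_isHomogeneous {q : Px ι} {n : ℕ} (hq : q.IsHomogeneous n) : (xiR q).IsHomogeneous n := by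
  exact hq.map _

/-- compatibility of the actions (`b.dualBasis` is the dual basis, whose coordinates are the `ξ_i`). -/
theorem xiR_trP (b : Basis ι ℂ V) (g : V ≃ₗ[ℂ] V) (q : Px ι) :
    xiR (trP b.dualBasis b.dualBasis (dgHom V g) q) = trR b b g (xiR q) := by
  have h1 : (xiR : Px ι →ₐ[ℂ] Rx ι).comp (trP b.dualBasis b.dualBasis (dgHom V g)) =
      (trR b b g).comp xiR := by
    apply MvPolynomial.algHom_ext
    intro i
    rw [AlgHom.comp_apply, AlgHom.comp_apply, trP_X, xiR_X, trR_X, xl_apply, yR_apply, map_sum]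
    refine Finset.sum_congr rfl (fun j _ => ?_)
    rw [map_smul, xiR_X]
    congr 1
    show b.dualBasis.coord i ((dgHom V g).symm (b.dualBasis j)) = _
    have h2 : (dgHom V g).symm (b.dualBasis j) = (b.dualBasis j).comp (g : V →ₗ[ℂ] V) := rfl
    rw [h2, Basis.coord_apply, Basis.dualBasis_repr, Basis.coe_dualBasis]
    rfl
  have h3 := AlgHom.congr_fun h1 q
  exact h3

theorem xiR_xl (b : Basis ι ℂ V) (v : V) : xiR (xl b.dualBasis (Dual.eval ℂ V v)) = yR b v := by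
  rw [xl_apply, yR_apply, map_sum]
  refine Finset.sum_congr rfl (fun j _ => ?_)
  rw [map_smul, xiR_X, Basis.coe_dualBasis]
  rfl

end

end Pool.Agent.CM64
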