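import Pool.Agent.LibCM64.Transport
import Pool.Agent.LibCM64.Defs

/-! Dunkl operators at `t = 0` and the module `M_k`. -/

set_option linter.unusedSectionVars false

namespace Pool.Agent.CM64

open Module MvPolynomial

section Dunkl

variable {V : Type} [AddCommGroup V] [Module ℂ V]
variable {ι : Type} [Fintype ι]

open Classical in
/-- a nonzero linear form with kernel `H` (if `H` is a hyperplane). -/
noncomputable def lf (H : Submodule ℂ V) : Dual ℂ V :=
  if h : ∃ f : Dual ℂ V, f ≠ 0 ∧ LinearMap.ker f = H then h.choose else 0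

/-- `α_H(v) / α_H ∈ ℂ(V)`. -/
noncomputable def qH (b : Basis ι ℂ V) (H : Submodule ℂ V) (v : V) : Fx ι :=
  algebraMap ℂ (Fx ι) (lf H v) / pF (xl b (lf H))

variable (W : Subgroup (V ≃ₗ[ℂ] V)) [Finite W] (k : Submodule ℂ V → ℤ → ℂ)

/-- `κ_H(g) = ∑_j (k_{H,0} - k_{H,j}) det(g)^j`. -/
noncomputable def kap (H : Submodule ℂ V) (g : V ≃ₗ[ℂ] V) : ℂ :=
  ∑ j ∈ Finset.range (eH W H), (k H 0 - k H j) * dt g ^ j

/-- `a_H = ∑_{g ∈ W_H} κ_H(g) g = ∑_j e_H (k_{H,0} - k_{H,j}) ε_{H,j}`. -/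
noncomputable def aop (b : Basis ι ℂ V) (H : Submodule ℂ V) : Module.End ℂ (Ax ι) :=
  ∑ g ∈ pstF W H, kap W k H g • (act b g).toLinearMap

/-- The Dunkl operator `T_v = ξ_v + ∑_H (α_H(v)/α_H) a_H`. -/
noncomputable def dunkl (b : Basis ι ℂ V) (v : V) : Module.End ℂ (Ax ι) :=
  LinearMap.mulLeft ℂ (yA b v) +
    ∑ H ∈ arrF W, (LinearMap.mulLeft ℂ (C (qH b H v) : Ax ι)) ∘ₗ aop W k b H

/-- the stability conditions defining `M_k`. -/
structure IsStab (b : Basis ι ℂ V) (N : Submodule ℂ (Ax ι)) : Prop where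
  one : (1 : Ax ι) ∈ N
  x : ∀ (f : Dual ℂ V) (m : Ax ι), m ∈ N → xA (xl b f) * m ∈ N
  y : ∀ (v : V) (m : Ax ι), m ∈ N → dunkl W k b v m ∈ N

/-- `M_k = 𝐇_k e = 𝐇_k · 1 ⊂ ℂ(V)[ξ]`. -/
noncomputable def Mk (b : Basis ι ℂ V) : Submodule ℂ (Ax ι) := sInf {N | IsStab W k b N}

theorem Mk_le {b : Basis ι ℂ V} {N : Submodule ℂ (Ax ι)} (hN : IsStab W k b N) : Mk W k b ≤ N :=
  sInf_le hN

theorem Mk_isStab (b : Basis ι ℂ V) : IsStab W k b (Mk W k b) where
  one := Submodule.mem_sInf.2 (fun _ hN => hN.one)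
  x := fun f m hm => Submodule.mem_sInf.2 (fun N hN => hN.x f m (Submodule.mem_sInf.1 hm N hN))
  y := fun v m hm => Submodule.mem_sInf.2 (fun N hN => hN.y v m (Submodule.mem_sInf.1 hm N hN))

theorem Mk_one (b : Basis ι ℂ V) : (1 : Ax ι) ∈ Mk W k b := (Mk_isStab W k b).one
theorem Mk_xl {b : Basis ι ℂ V} {m : Ax ι} (hm : m ∈ Mk W k b) (f : Dual ℂ V) :
    xA (xl b f) * m ∈ Mk W k b := (Mk_isStab W k b).x f m hm
theorem Mk_dunkl {b : Basis ι ℂ V} {m : Ax ι} (hm : m ∈ Mk W k b) (v : V) :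
    dunkl W k b v m ∈ Mk W k b := (Mk_isStab W k b).y v m hm

theorem Mk_xA {b : Basis ι ℂ V} {m : Ax ι} (hm : m ∈ Mk W k b) (p : Px ι) :
    xA p * m ∈ Mk W k b := by
  classical
  induction p using MvPolynomial.induction_on generalizing m with
  | C a =>
    have : xA (C a : Px ι) = algebraMap ℂ (Ax ι) a := by
      rw [← MvPolynomial.algebraMap_eq]; exact xA.commutes a
    rw [this, ← Algebra.smul_def]
    exact Submodule.smul_mem _ _ hm
  | add p q hp hq => rw [map_add, add_mul]; exact Submodule.add_mem _ (hp hm) (hq hm)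
  | mul_X p i hp =>
    rw [map_mul, mul_assoc, ← xl_coord b i]
    exact hp (Mk_xl W k hm _)

/-- `T^β`: product of the powers of the `T_{b_i}` (in a fixed order). -/
noncomputable def TT (b : Basis ι ℂ V) (β : ι →₀ ℕ) : Module.End ℂ (Ax ι) :=
  ((Finset.univ : Finset ι).toList.map (fun i => (dunkl W k b (b i)) ^ (β i))).prod

/-- `∑ p_β ξ^β ↦ ∑ p_β T^β 1`. -/
noncomputable def Ups (b : Basis ι ℂ V) : Rx ι →ₗ[ℂ] Ax ι where
  toFun p := ∑ β ∈ p.support, xA (coeff β p) * TT W k b β 1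
  map_add' p q := by
    classical
    have h : ∀ (r : Rx ι) (s : Finset (ι →₀ ℕ)), r.support ⊆ s →
        ∑ β ∈ r.support, xA (coeff β r) * TT W k b β 1 = ∑ β ∈ s, xA (coeff β r) * TT W k b β 1 := by
      intro r s hs
      refine Finset.sum_subset hs (fun β _ hβ => ?_)
      rw [MvPolynomial.notMem_support_iff.1 hβ, map_zero, zero_mul]
    rw [h (p + q) (p.support ∪ q.support) MvPolynomial.support_add,
      h p (p.support ∪ q.support) Finset.subset_union_left,
      h q (p.support ∪ q.support) Finset.subset_union_right, ← Finset.sum_add_distrib]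
    refine Finset.sum_congr rfl (fun β _ => ?_)
    rw [MvPolynomial.coeff_add, map_add, add_mul]
  map_smul' c p := by
    classical
    by_cases hc : c = 0
    · subst hc; simp
    have hs : (c • p).support ⊆ p.support := MvPolynomial.support_smul
    have h : ∑ β ∈ (c • p).support, xA (coeff β (c • p)) * TT W k b β 1
        = ∑ β ∈ p.support, xA (coeff β (c • p)) * TT W k b β 1 := by
      refine Finset.sum_subset hs (fun β _ hβ => ?_)
      rw [MvPolynomial.notMem_support_iff.1 hβ, map_zero, zero_mul]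
    rw [h, RingHom.id_apply, Finset.smul_sum]
    refine Finset.sum_congr rfl (fun β _ => ?_)
    rw [MvPolynomial.coeff_smul, map_smul, smul_mul_assoc]

/-- the finite set of elements of `W`. -/
noncomputable def elF : Finset (V ≃ₗ[ℂ] V) := (Set.toFinite (W : Set (V ≃ₗ[ℂ] V))).toFinset

theorem mem_elF {g : V ≃ₗ[ℂ] V} : g ∈ elF W ↔ g ∈ W := by simp [elF]

/-- the operator `∑_g a_g g`. -/
noncomputable def opOf (b : Basis ι ℂ V) (a : (V ≃ₗ[ℂ] V) → Ax ι) : Module.End ℂ (Ax ι) :=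
  ∑ g ∈ elF W, (LinearMap.mulLeft ℂ (a g)) ∘ₗ (act b g).toLinearMap

/-- `f` has `ξ`-degree `< D`. -/
def Ld (D : ℕ) (f : Ax ι) : Prop := ∀ n, D ≤ n → homogeneousComponent n f = 0

/-- `f` is `W`-invariant. -/
def InvA (b : Basis ι ℂ V) (f : Ax ι) : Prop := ∀ g ∈ W, act b g f = f

end Dunkl

end Pool.Agent.CM64
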