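import Pool.Agent.LibCM64.DCent
import Pool.Agent.LibCM64.Dualz

/-! The elements `q(T)1`, `q` a polynomial on `V*`. -/

set_option linter.unusedSectionVars false

namespace Pool.Agent.CM64

open Module MvPolynomial

section

variable {V : Type} [AddCommGroup V] [Module ℂ V] [FiniteDimensional ℂ V]
variable {ι : Type} [Fintype ι] [DecidableEq ι]
variable (W : Subgroup (V ≃ₗ[ℂ] V)) [Finite W] (k : Submodule ℂ V → ℤ → ℂ)

/-- `q(T)`, `q` a polynomial on `V*` (`X i` stands for `ξ_i`). -/
noncomputable def qT (b : Basis ι ℂ V) (q : Px ι) : Module.End ℂ (Ax ι) :=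
  ∑ β ∈ q.support, coeff β q • TT W k b β

/-- `f_q = q(T) 1`. -/
noncomputable def fq (b : Basis ι ℂ V) (q : Px ι) : Ax ι := qT W k b q 1

private theorem fq_qT_eq (b : Basis ι ℂ V) {q : Px ι} {s : Finset (ι →₀ ℕ)} (hs : q.support ⊆ s) :
    qT W k b q = ∑ β ∈ s, coeff β q • TT W k b β := by
  rw [qT]
  refine Finset.sum_subset hs (fun β _ hβ => ?_)
  rw [MvPolynomial.notMem_support_iff.1 hβ, zero_smul]

theorem qT_add (b : Basis ι ℂ V) (q q' : Px ι) : qT W k b (q + q') = qT W k b q + qT W k b q' := by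
  have h1 := fq_qT_eq W k b (q := q) (s := q.support ∪ q'.support) Finset.subset_union_left
  have h2 := fq_qT_eq W k b (q := q') (s := q.support ∪ q'.support) Finset.subset_union_right
  have h3 := fq_qT_eq W k b (q := q + q') (s := q.support ∪ q'.support) MvPolynomial.support_add
  rw [h1, h2, h3, ← Finset.sum_add_distrib]
  exact Finset.sum_congr rfl (fun β _ => by rw [MvPolynomial.coeff_add, add_smul])

theorem qT_smul (b : Basis ι ℂ V) (c : ℂ) (q : Px ι) : qT W k b (c • q) = c • qT W k b q := by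
  have h1 := fq_qT_eq W k b (q := c • q) (s := q.support) MvPolynomial.support_smul
  rw [h1, qT, Finset.smul_sum]
  exact Finset.sum_congr rfl (fun β _ => by rw [MvPolynomial.coeff_smul, smul_eq_mul, mul_smul])

/-- `T^β T^γ = T^{β+γ}` as the `T_i` commute. -/
theorem TT_mul (hk : Adm W k) (b : Basis ι ℂ V) (β γ : ι →₀ ℕ) :
    TT W k b β ∘ₗ TT W k b γ = TT W k b (β + γ) := by
  rw [← Module.End.mul_eq_comp, TT, TT, TT]
  have key : ∀ l : List ι, (l.map (fun i => (dunkl W k b (b i)) ^ (β i))).prod *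
      (l.map (fun i => (dunkl W k b (b i)) ^ (γ i))).prod =
      (l.map (fun i => (dunkl W k b (b i)) ^ ((β + γ) i))).prod := by
    intro l
    induction l with
    | nil => simp
    | cons a l ih =>
      rw [List.map_cons, List.map_cons, List.map_cons, List.prod_cons, List.prod_cons,
        List.prod_cons, ← ih]
      have hc : Commute ((dunkl W k b (b a)) ^ (γ a))
          (l.map (fun i => (dunkl W k b (b i)) ^ (β i))).prod := by
        refine Commute.list_prod_right _ _ (fun x hx => ?_)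
        obtain ⟨i, _, rfl⟩ := List.mem_map.1 hx
        have hcc : Commute (dunkl W k b (b a)) (dunkl W k b (b i)) := dunkl_comm W k hk b (b a) (b i)
        exact hcc.pow_pow _ _
      rw [Finsupp.add_apply, pow_add]
      calc _ = (dunkl W k b (b a)) ^ (β a) *
            ((l.map (fun i => (dunkl W k b (b i)) ^ (β i))).prod * (dunkl W k b (b a)) ^ (γ a)) *
            (l.map (fun i => (dunkl W k b (b i)) ^ (γ i))).prod := by simp only [mul_assoc]
        _ = _ := by rw [← hc.eq]; simp only [mul_assoc]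
  exact key _

private theorem fq_qT_monomial (b : Basis ι ℂ V) (β : ι →₀ ℕ) (c : ℂ) :
    qT W k b (monomial β c) = c • TT W k b β := by
  rw [fq_qT_eq W k b (s := {β}) MvPolynomial.support_monomial_subset, Finset.sum_singleton,
    MvPolynomial.coeff_monomial, if_pos rfl]

private theorem fq_TT_zero (b : Basis ι ℂ V) : TT W k b 0 = 1 := by
  rw [TT]
  simp

private theorem fq_TT_single (b : Basis ι ℂ V) (i : ι) :
    TT W k b (Finsupp.single i 1) = dunkl W k b (b i) := by
  rw [TT]
  have key : ∀ l : List ι, l.Nodup →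
      (l.map (fun j => (dunkl W k b (b j)) ^ ((Finsupp.single i 1 : ι →₀ ℕ) j))).prod =
      if i ∈ l then dunkl W k b (b i) else 1 := by
    intro l
    induction l with
    | nil => intro _; simp
    | cons a l ih =>
      intro hl
      rw [List.nodup_cons] at hl
      rw [List.map_cons, List.prod_cons, ih hl.2]
      by_cases h : i = a
      · subst h
        rw [if_neg hl.1, if_pos List.mem_cons_self, Finsupp.single_eq_same, pow_one, mul_one]
      · rw [Finsupp.single_eq_of_ne (Ne.symm h), pow_zero, one_mul]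
        by_cases h' : i ∈ l
        · rw [if_pos h', if_pos (List.mem_cons_of_mem _ h')]
        · rw [if_neg h', if_neg (by simp [h, h'])]
  rw [key _ (Finset.nodup_toList _), if_pos (by simp)]

private noncomputable def fq_qTl (b : Basis ι ℂ V) : Px ι →ₗ[ℂ] Module.End ℂ (Ax ι) where
  toFun := qT W k b
  map_add' := qT_add W k b
  map_smul' c q := qT_smul W k b c q

private noncomputable def fq_dl (b : Basis ι ℂ V) : V →ₗ[ℂ] Module.End ℂ (Ax ι) where
  toFun := dunkl W k b
  map_add' := dunkl_add W k b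
  map_smul' c q := dunkl_smul W k b c q

private theorem fq_qT_X (b : Basis ι ℂ V) (i : ι) : qT W k b (X i) = dunkl W k b (b i) := by
  have : (X i : Px ι) = monomial (Finsupp.single i 1) 1 := rfl
  rw [this, fq_qT_monomial, one_smul, fq_TT_single]

theorem qT_mul (hk : Adm W k) (b : Basis ι ℂ V) (q q' : Px ι) :
    qT W k b (q * q') = qT W k b q ∘ₗ qT W k b q' := by
  rw [← Module.End.mul_eq_comp]
  induction q using MvPolynomial.induction_on' with
  | monomial u a =>
    induction q' using MvPolynomial.induction_on' with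
    | monomial v c =>
      rw [MvPolynomial.monomial_mul, fq_qT_monomial, fq_qT_monomial, fq_qT_monomial, ← TT_mul W k hk,
        ← Module.End.mul_eq_comp, smul_mul_smul_comm]
    | add p p' hp hp' => rw [mul_add, qT_add, qT_add, mul_add, hp, hp']
  | add p p' hp hp' => rw [add_mul, qT_add, qT_add, add_mul, hp, hp']

theorem qT_one (b : Basis ι ℂ V) : qT W k b 1 = LinearMap.id := by
  have h : (1 : Px ι) = monomial 0 1 := rfl
  rw [h, fq_qT_monomial, fq_TT_zero, one_smul]
  rfl

/-- for a linear form `y ∈ V` on `V*`. -/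
theorem qT_xl (b : Basis ι ℂ V) (v : V) : qT W k b (xl b.dualBasis (Dual.eval ℂ V v)) = dunkl W k b v := by
  have h1 : xl b.dualBasis (Dual.eval ℂ V v) = ∑ i, b.repr v i • (X i : Px ι) := by
    rw [xl_apply]
    refine Finset.sum_congr rfl (fun i _ => ?_)
    rw [Dual.eval_apply, Basis.dualBasis_apply]
  have h2 : qT W k b (xl b.dualBasis (Dual.eval ℂ V v)) =
      fq_qTl W k b (xl b.dualBasis (Dual.eval ℂ V v)) := rfl
  rw [h2, h1, map_sum]
  have h3 : dunkl W k b v = fq_dl W k b v := rfl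
  rw [h3]
  conv_rhs => rw [← b.sum_repr v]
  rw [map_sum]
  refine Finset.sum_congr rfl (fun i _ => ?_)
  rw [map_smul, map_smul]
  exact congrArg _ (fq_qT_X W k b i)

/-- `g q(T) g⁻¹ = (g q)(T)` for `g` preserving `(W,k)`. -/
theorem act_qT (b : Basis ι ℂ V) {g : V ≃ₗ[ℂ] V} (h : Tp g W W k k) (hk : Adm W k) (q : Px ι) (m : Ax ι) :
    trA b b g (qT W k b q m) = qT W k b (trP b.dualBasis b.dualBasis (dgHom V g) q) (trA b b g m) := by
  induction q using MvPolynomial.induction_on generalizing m with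
  | C a =>
    have e1 : (C a : Px ι) = a • 1 := by rw [MvPolynomial.smul_eq_C_mul, mul_one]
    rw [e1, map_smul, map_one, qT_smul, qT_one, LinearMap.smul_apply, LinearMap.smul_apply, map_smul]
    rfl
  | add p p' hp hp' =>
    rw [map_add, qT_add, qT_add, LinearMap.add_apply, LinearMap.add_apply, map_add, hp, hp']
  | mul_X p i hp =>
    rw [map_mul, qT_mul W k hk, qT_mul W k hk, LinearMap.comp_apply, LinearMap.comp_apply, hp,
      fq_qT_X, trA_dunkl h b b]
    have e : trP b.dualBasis b.dualBasis (dgHom V g) (X i) =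
        xl b.dualBasis (Dual.eval ℂ V (g (b i))) := by
      rw [trP_X]
      congr 1
      ext f
      have e2 : (dgHom V g).symm f = f.comp (g : V →ₗ[ℂ] V) := by
        rw [LinearEquiv.symm_apply_eq, dgHom_apply]
        ext v
        simp
      rw [LinearMap.comp_apply, Dual.eval_apply]
      show b.dualBasis.coord i ((dgHom V g).symm f) = _
      rw [e2]
      simp [Basis.coord_apply, Basis.dualBasis_repr]
    rw [e, qT_xl]

theorem act_fq (b : Basis ι ℂ V) {g : V ≃ₗ[ℂ] V} (h : Tp g W W k k) (hk : Adm W k) (q : Px ι) :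
    trA b b g (fq W k b q) = fq W k b (trP b.dualBasis b.dualBasis (dgHom V g) q) := by
  rw [fq, fq, act_qT W k b h hk, map_one]

theorem fq_eq_Ups (b : Basis ι ℂ V) (q : Px ι) : fq W k b q = Ups W k b (xiR q) := by
  have hc : ∀ β, coeff β (xiR q) = (C (coeff β q) : Px ι) := by
    intro β
    rw [xiR, MvPolynomial.mapAlgHom_apply, MvPolynomial.coeff_map]
    rfl
  have hsupp : (xiR q).support ⊆ q.support := by
    intro β hβ
    rw [MvPolynomial.mem_support_iff, hc] at hβ
    rw [MvPolynomial.mem_support_iff]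
    intro h0
    exact hβ (by rw [h0, map_zero])
  have hU : Ups W k b (xiR q) = ∑ β ∈ q.support, xA (coeff β (xiR q)) * TT W k b β 1 := by
    show ∑ β ∈ (xiR q).support, xA (coeff β (xiR q)) * TT W k b β 1 = _
    refine Finset.sum_subset hsupp (fun β _ hβ => ?_)
    rw [MvPolynomial.notMem_support_iff.1 hβ, map_zero, zero_mul]
  rw [hU, fq, qT, LinearMap.sum_apply]
  refine Finset.sum_congr rfl (fun β _ => ?_)
  rw [LinearMap.smul_apply, hc, ← MvPolynomial.algebraMap_eq, Algebra.smul_def]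
  congr 1

private theorem fq_TT_mem (b : Basis ι ℂ V) (β : ι →₀ ℕ) {m : Ax ι} (hm : m ∈ Mk W k b) :
    TT W k b β m ∈ Mk W k b := by
  rw [TT]
  have key : ∀ l : List ι, (l.map (fun i => (dunkl W k b (b i)) ^ (β i))).prod m ∈ Mk W k b := by
    intro l
    induction l with
    | nil => simpa using hm
    | cons a l ih =>
      rw [List.map_cons, List.prod_cons, Module.End.mul_apply]
      have h2 : ∀ (n : ℕ) (m' : Ax ι), m' ∈ Mk W k b → ((dunkl W k b (b a)) ^ n) m' ∈ Mk W k b := by
        intro n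
        induction n with
        | zero => intro m' hm'; simpa using hm'
        | succ n ihn =>
          intro m' hm'
          rw [pow_succ, Module.End.mul_apply]
          exact ihn _ (Mk_dunkl W k hm' _)
      exact h2 _ _ ih
  exact key _

theorem fq_mem (b : Basis ι ℂ V) (q : Px ι) : fq W k b q ∈ Mk W k b := by
  rw [fq_eq_Ups]
  -- membership of `Ups`
  show ∑ β ∈ (xiR q).support, xA (coeff β (xiR q)) * TT W k b β 1 ∈ Mk W k b
  exact Submodule.sum_mem _ (fun β _ => Mk_xA W k (fq_TT_mem W k b β (Mk_one W k b)) _)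

/-- `q(T)` commutes with the multiplication by a `W`-invariant. -/
theorem qT_mul_inv (b : Basis ι ℂ V) (q : Px ι) {f : Ax ι} (hf : InvA W b f) (m : Ax ι) :
    qT W k b q (f * m) = f * qT W k b q m := by
  have hd : ∀ v, Commute (LinearMap.mulLeft ℂ f) (dunkl W k b v) := by
    intro v
    apply LinearMap.ext
    intro m'
    rw [Module.End.mul_apply, Module.End.mul_apply, LinearMap.mulLeft_apply, LinearMap.mulLeft_apply,
      dunkl_mul_inv W k b v hf]
  have hT : ∀ β, Commute (LinearMap.mulLeft ℂ f) (TT W k b β) := by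
    intro β
    rw [TT]
    refine Commute.list_prod_right _ _ (fun x hx => ?_)
    obtain ⟨i, _, rfl⟩ := List.mem_map.1 hx
    exact (hd (b i)).pow_right _
  rw [qT, LinearMap.sum_apply, LinearMap.sum_apply, Finset.mul_sum]
  refine Finset.sum_congr rfl (fun β _ => ?_)
  rw [LinearMap.smul_apply, LinearMap.smul_apply, mul_smul_comm]
  have := congrArg (fun T : Module.End ℂ (Ax ι) => T m) (hT β).eq
  simp only [Module.End.mul_apply, LinearMap.mulLeft_apply] at this
  rw [this]

theorem fq_inv (hk : Adm W k) (b : Basis ι ℂ V) {q : Px ι} (hq : PInv (dualGrp W) b.dualBasis q) :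
    InvA W b (fq W k b q) := by
  intro g hg
  have h := act_fq W k b (tp_of_mem hk hg) hk q
  have h2 : trP b.dualBasis b.dualBasis (dgHom V g) q = q := hq _ ⟨g, hg, rfl⟩
  rw [h2] at h
  exact h

/-- `f_{q q'} = f_{q'} f_q` if `q'` is invariant. -/
theorem fq_mul (hk : Adm W k) (b : Basis ι ℂ V) (q : Px ι) {q' : Px ι} (hq' : PInv (dualGrp W) b.dualBasis q') :
    fq W k b (q * q') = fq W k b q' * fq W k b q := by
  rw [fq, qT_mul W k hk, LinearMap.comp_apply]
  have h := qT_mul_inv W k b q (fq_inv W k hk b hq') 1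
  rw [mul_one] at h
  exact h

theorem fq_add (b : Basis ι ℂ V) (q q' : Px ι) : fq W k b (q + q') = fq W k b q + fq W k b q' := by
  rw [fq, qT_add, LinearMap.add_apply, fq, fq]

theorem fq_smul (b : Basis ι ℂ V) (c : ℂ) (q : Px ι) : fq W k b (c • q) = c • fq W k b q := by
  rw [fq, qT_smul, LinearMap.smul_apply, fq]

theorem fq_one (b : Basis ι ℂ V) : fq W k b 1 = 1 := by
  rw [fq, qT_one, LinearMap.id_apply]

/-- leading term. -/
theorem Ld_fq_sub (b : Basis ι ℂ V) {q : Px ι} {n : ℕ} (hq : q.IsHomogeneous n) :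
    Ld n (fq W k b q - jR (xiR q)) := by
  rw [fq_eq_Ups]
  refine Ld_Ups_sub W k b (fun m hm => ?_)
  rw [homogeneousComponent_of_mem ((mem_homogeneousSubmodule n _).2 (xiR_isHomogeneous hq)),
    if_neg (by omega)]

private theorem fq_cc_yA (b : Basis ι ℂ V) (v : V) : constantCoeff (yA b v : Ax ι) = 0 := by
  rw [yA_apply, map_sum]
  refine Finset.sum_eq_zero (fun i _ => ?_)
  rw [MvPolynomial.constantCoeff_eq, MvPolynomial.coeff_smul]
  simp

private theorem fq_cc_act (b : Basis ι ℂ V) (g : V ≃ₗ[ℂ] V) {f : Ax ι} (hf : constantCoeff f = 0) :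
    constantCoeff (act b g f) = 0 := by
  have h := homogeneousComponent_trA b b g 0 f
  rw [homogeneousComponent_zero, homogeneousComponent_zero] at h
  have h2 : coeff 0 f = 0 := hf
  rw [h2, map_zero, map_zero] at h
  exact (MvPolynomial.C_eq_zero).1 h

private theorem fq_cc_dunkl (b : Basis ι ℂ V) (v : V) {f : Ax ι} (hf : constantCoeff f = 0) :
    constantCoeff (dunkl W k b v f) = 0 := by
  rw [dunkl, LinearMap.add_apply, map_add, LinearMap.mulLeft_apply, map_mul, fq_cc_yA, zero_mul,
    zero_add, LinearMap.sum_apply, map_sum]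
  refine Finset.sum_eq_zero (fun H _ => ?_)
  rw [LinearMap.comp_apply, LinearMap.mulLeft_apply, map_mul]
  have h : constantCoeff (aop W k b H f) = 0 := by
    rw [aop, LinearMap.sum_apply, map_sum]
    refine Finset.sum_eq_zero (fun g _ => ?_)
    rw [LinearMap.smul_apply, AlgHom.toLinearMap_apply, MvPolynomial.constantCoeff_eq,
      MvPolynomial.coeff_smul]
    have := fq_cc_act b g hf
    rw [MvPolynomial.constantCoeff_eq] at this
    rw [this, smul_zero]
  rw [h, mul_zero]

private theorem fq_cc_pow (b : Basis ι ℂ V) (v : V) (n : ℕ) {f : Ax ι} (hf : constantCoeff f = 0) :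
    constantCoeff (((dunkl W k b v) ^ n) f) = 0 := by
  induction n generalizing f with
  | zero => simpa using hf
  | succ n ih =>
    rw [pow_succ, Module.End.mul_apply]
    exact ih (fq_cc_dunkl W k b v hf)

private theorem fq_cc_pow_one (b : Basis ι ℂ V) (v : V) {n : ℕ} (hn : n ≠ 0) :
    constantCoeff (((dunkl W k b v) ^ n) (1 : Ax ι)) = 0 := by
  obtain ⟨m, rfl⟩ := Nat.exists_eq_succ_of_ne_zero hn
  rw [pow_succ, Module.End.mul_apply, dunkl_one]
  exact fq_cc_pow W k b v m (fq_cc_yA b v)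

private theorem fq_TT_one (b : Basis ι ℂ V) {β : ι →₀ ℕ} (hβ : β ≠ 0) :
    constantCoeff (TT W k b β (1 : Ax ι)) = 0 := by
  rw [TT]
  have key : ∀ l : List ι, ((∀ i ∈ l, β i = 0) ∧
      (l.map (fun i => (dunkl W k b (b i)) ^ (β i))).prod (1 : Ax ι) = 1) ∨
      constantCoeff ((l.map (fun i => (dunkl W k b (b i)) ^ (β i))).prod (1 : Ax ι)) = 0 := by
    intro l
    induction l with
    | nil => left; simp
    | cons a l ih =>
      rw [List.map_cons, List.prod_cons, Module.End.mul_apply]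
      rcases ih with ⟨h1, h2⟩ | h
      · rw [h2]
        by_cases ha : β a = 0
        · left
          refine ⟨fun i hi => ?_, by rw [ha, pow_zero]; rfl⟩
          rcases List.mem_cons.1 hi with rfl | hi
          · exact ha
          · exact h1 i hi
        · right
          exact fq_cc_pow_one W k b _ ha
      · right
        exact fq_cc_pow W k b _ _ h
  rcases key (Finset.univ : Finset ι).toList with ⟨h1, _⟩ | h
  · exact absurd (Finsupp.ext (fun i => h1 i (by simp))) hβ
  · exact h

/-- `f_q` has no component of `ξ`-degree `0` if `q` has no constant term. -/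
theorem hc_zero_fq (b : Basis ι ℂ V) {q : Px ι} (hq : coeff 0 q = 0) :
    homogeneousComponent 0 (fq W k b q) = 0 := by
  rw [fq, qT, LinearMap.sum_apply, map_sum]
  refine Finset.sum_eq_zero (fun β _ => ?_)
  rw [LinearMap.smul_apply]
  by_cases hβ : β = 0
  · subst hβ
    rw [hq, zero_smul, map_zero]
  · rw [homogeneousComponent_zero]
    have h1 : constantCoeff (TT W k b β 1) = (0 : Fx ι) := fq_TT_one W k b hβ
    have h2 : coeff 0 (coeff β q • TT W k b β 1 : Ax ι) = 0 := by
      rw [MvPolynomial.coeff_smul]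
      have h3 : coeff 0 (TT W k b β 1 : Ax ι) = 0 := h1
      rw [h3, smul_zero]
    rw [h2, map_zero]

/-- every element of `M_k` is a sum of elements `x^α T^β 1`. -/
theorem mem_Mk_iff_fq (hk : Adm W k) (b : Basis ι ℂ V) (m : Ax ι) :
    m ∈ Mk W k b ↔ m ∈ Submodule.span ℂ {f | ∃ p q : Px ι, f = xA p * fq W k b q} := by
  constructor
  · intro hm
    obtain ⟨p, rfl⟩ := (mem_Mk_iff_Ups W k hk b m).1 hm
    show ∑ β ∈ p.support, xA (coeff β p) * TT W k b β 1 ∈ _
    refine Submodule.sum_mem _ (fun β _ => Submodule.subset_span ⟨coeff β p, monomial β 1, ?_⟩)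
    rw [fq, fq_qT_monomial, one_smul]
  · intro hm
    have hle : Submodule.span ℂ {f | ∃ p q : Px ι, f = xA p * fq W k b q} ≤ Mk W k b := by
      rw [Submodule.span_le]
      rintro _ ⟨p, q, rfl⟩
      exact Mk_xA W k (fq_mem W k b q) p
    exact hle hm

/-- the subalgebra generated by `ℂ[V]^W` and the `f_q`, `q ∈ ℂ[V*]^W`. -/
noncomputable def Pk (b : Basis ι ℂ V) : Subalgebra ℂ (Ax ι) :=
  Algebra.adjoin ℂ ({f | ∃ p, PInv W b p ∧ f = xA p} ∪
    {f | ∃ q, PInv (dualGrp W) b.dualBasis q ∧ f = fq W k b q})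

theorem Pk_le_Mk (hk : Adm W k) (b : Basis ι ℂ V) {f : Ax ι} (hf : f ∈ Pk W k b) : f ∈ Mk W k b ∧ InvA W b f := by
  have h : ∀ x ∈ Pk W k b, x ∈ Mk W k b ∧ InvA W b x := by
    intro x hx
    refine Algebra.adjoin_induction (p := fun x _ => x ∈ Mk W k b ∧ InvA W b x) ?_ ?_ ?_ ?_ hx
    · rintro x (⟨p, hp, rfl⟩ | ⟨q, hq, rfl⟩)
      · refine ⟨?_, fun g hg => ?_⟩
        · have := Mk_xA W k (Mk_one W k b) p
          rwa [mul_one] at this
        · rw [trA_xA, hp g hg]
      · exact ⟨fq_mem W k b q, fq_inv W k hk b hq⟩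
    · intro r
      refine ⟨?_, fun g _ => (act b g).commutes r⟩
      rw [Algebra.algebraMap_eq_smul_one]
      exact Submodule.smul_mem _ _ (Mk_one W k b)
    · intro x y _ _ hx hy
      exact ⟨Submodule.add_mem _ hx.1 hy.1, fun g hg => by rw [map_add, hx.2 g hg, hy.2 g hg]⟩
    · intro x y _ _ hx hy
      exact ⟨Mk_mul_inv W k hk b hx.1 hx.2 hy.1, fun g hg => by rw [map_mul, hx.2 g hg, hy.2 g hg]⟩
  exact h f hf

private theorem fq_fin {V : Type} [AddCommGroup V] [Module ℂ V] [FiniteDimensional ℂ V]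
    (Γ : Subgroup (V ≃ₗ[ℂ] V)) [Finite Γ] (b : Basis ι ℂ V) : ∃ s : Finset (Px ι), ∀ p : Px ι,
    ∃ c : Px ι → Px ι, (∀ x ∈ s, PInv Γ b (c x)) ∧ p = ∑ x ∈ s, c x * x := by
  classical
  have hint : Algebra.IsIntegral (invP Γ b) (Px ι) := ⟨fun p => isIntegral_invP Γ b p⟩
  have hft : Algebra.FiniteType (invP Γ b) (Px ι) := by
    have : Algebra.FiniteType ℂ (Px ι) := inferInstance
    exact Algebra.FiniteType.of_restrictScalars_finiteType ℂ (invP Γ b) (Px ι)
  have hfin : Module.Finite (invP Γ b) (Px ι) := Algebra.IsIntegral.finite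
  obtain ⟨s, hs⟩ := hfin.fg_top
  refine ⟨s, fun p => ?_⟩
  have hp : p ∈ Submodule.span (invP Γ b) (s : Set (Px ι)) := by rw [hs]; trivial
  rw [Submodule.mem_span_finset] at hp
  obtain ⟨c, _, hc⟩ := hp
  exact ⟨fun x => (c x : Px ι), fun x _ => (c x).2, hc.symm⟩

/-- `M_k` is a finitely generated module over `Pk`: if `ℂ[V] = ∑ ℂ[V]^W h_a` and `ℂ[V*] = ∑ ℂ[V*]^W h'_b`
(integrality, `isIntegral_invP`), it is generated by the `h_a(x) h'_b(T) 1`. -/
theorem Mk_fg (hk : Adm W k) (b : Basis ι ℂ V) : ∃ s : Finset (Ax ι), (∀ m ∈ s, m ∈ Mk W k b) ∧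
    ∀ m ∈ Mk W k b, ∃ c : Ax ι → Ax ι, (∀ x ∈ s, c x ∈ Pk W k b) ∧ m = ∑ x ∈ s, c x * x := by
  classical
  obtain ⟨s1, hs1⟩ := fq_fin W b
  obtain ⟨s2, hs2⟩ := fq_fin (dualGrp W) b.dualBasis
  -- generators
  let N : Submodule (Pk W k b) (Ax ι) :=
    Submodule.span (Pk W k b) (((s1 ×ˢ s2).image (fun x => xA x.1 * fq W k b x.2) : Finset (Ax ι)) : Set (Ax ι))
  have hxA : ∀ p, PInv W b p → xA p ∈ Pk W k b := fun p hp =>
    Algebra.subset_adjoin (Or.inl ⟨p, hp, rfl⟩)
  have hfq : ∀ q, PInv (dualGrp W) b.dualBasis q → fq W k b q ∈ Pk W k b := fun q hq =>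
    Algebra.subset_adjoin (Or.inr ⟨q, hq, rfl⟩)
  have hpq : ∀ p q : Px ι, xA p * fq W k b q ∈ N := by
    intro p q
    obtain ⟨c, hc, rfl⟩ := hs1 p
    obtain ⟨d, hd, rfl⟩ := hs2 q
    have h1 : fq W k b (∑ x ∈ s2, d x * x) = ∑ x ∈ s2, fq W k b (d x) * fq W k b x := by
      have : fq W k b (∑ x ∈ s2, d x * x) = (fq_qTl W k b (∑ x ∈ s2, d x * x)) 1 := rfl
      rw [this, map_sum, LinearMap.sum_apply]
      refine Finset.sum_congr rfl (fun x hx => ?_)
      have h2 : (fq_qTl W k b (d x * x)) 1 = fq W k b (d x * x) := rfl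
      rw [h2, mul_comm (d x) x, fq_mul W k hk b x (hd x hx)]
    rw [h1, map_sum, Finset.sum_mul_sum]
    refine Submodule.sum_mem _ (fun x hx => Submodule.sum_mem _ (fun y hy => ?_))
    have h3 : xA (c x * x) * (fq W k b (d y) * fq W k b y) =
        (⟨xA (c x) * fq W k b (d y), Subalgebra.mul_mem _ (hxA _ (hc x hx)) (hfq _ (hd y hy))⟩ : Pk W k b) •
          (xA x * fq W k b y) := by
      rw [map_mul, Subalgebra.smul_def]
      simp only [smul_eq_mul]
      ring
    rw [h3]
    refine Submodule.smul_mem _ _ (Submodule.subset_span ?_)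
    rw [Finset.mem_coe, Finset.mem_image]
    exact ⟨(x, y), Finset.mem_product.2 ⟨hx, hy⟩, rfl⟩
  refine ⟨(s1 ×ˢ s2).image (fun x => xA x.1 * fq W k b x.2), ?_, ?_⟩
  · intro m hm
    obtain ⟨x, _, rfl⟩ := Finset.mem_image.1 hm
    exact Mk_xA W k (fq_mem W k b x.2) x.1
  · intro m hm
    have hmN : m ∈ N := by
      have hle : Submodule.span ℂ {f | ∃ p q : Px ι, f = xA p * fq W k b q} ≤
          N.restrictScalars ℂ := by
        rw [Submodule.span_le]
        rintro _ ⟨p, q, rfl⟩
        exact hpq p q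
      exact hle ((mem_Mk_iff_fq W k hk b m).1 hm)
    rw [Submodule.mem_span_finset] at hmN
    obtain ⟨c, _, hc⟩ := hmN
    refine ⟨fun x => (c x : Ax ι), fun x _ => (c x).2, ?_⟩
    rw [← hc]
    rfl

/-- (2.2): an element of `M_k^W` is integral over `Pk` (`f M_k ⊂ M_k`, `isIntegral_of_smul_mem_submodule`). -/
theorem isIntegral_Pk (hk : Adm W k) (b : Basis ι ℂ V) {f : Ax ι} (hf : f ∈ Mk W k b) (hinv : InvA W b f) :
    IsIntegral (Pk W k b) f := by
  obtain ⟨s, hs, hgen⟩ := Mk_fg W k hk b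
  let N : Submodule (Pk W k b) (Ax ι) :=
    { carrier := {m | m ∈ Mk W k b}
      add_mem' := fun {a a'} ha ha' => Submodule.add_mem (Mk W k b) ha ha'
      zero_mem' := Submodule.zero_mem (Mk W k b)
      smul_mem' := by
        intro c m hm
        have h := Pk_le_Mk W k hk b c.2
        exact Mk_mul_inv W k hk b h.1 h.2 hm }
  have hN : N.FG := by
    refine ⟨s, le_antisymm ?_ ?_⟩
    · rw [Submodule.span_le]
      exact fun m hm => hs m hm
    · intro m hm
      obtain ⟨c, hc, hm'⟩ := hgen m hm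
      rw [hm']
      refine Submodule.sum_mem _ (fun x hx => ?_)
      have : c x * x = (⟨c x, hc x hx⟩ : Pk W k b) • x := rfl
      rw [this]
      exact Submodule.smul_mem _ _ (Submodule.subset_span hx)
  refine isIntegral_of_smul_mem_submodule (N := N) ?_ hN f (fun n hn => ?_)
  · intro hbot
    have h1 : (1 : Ax ι) ∈ N := Mk_one W k b
    rw [hbot, Submodule.mem_bot] at h1
    exact one_ne_zero h1
  · exact Mk_mul_inv W k hk b hf hinv hn

end

end Pool.Agent.CM64
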