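import Pool.Agent.LibCM64.SpecB

/-! The centre `Z_k` of the rational Cherednik algebra `𝐇_k` (the functions on the Calogero-Moser space `𝒵_k`), the action of
`τ`, the `ℂ^×`-action, the Poisson bracket, the component of maximal dimension of the fixed locus, and Q1. -/

set_option linter.unusedSectionVars false
set_option maxSynthPendingDepth 3

namespace Pool.Agent.CM64

open Module

section

variable {V : Type} [AddCommGroup V] [Module ℂ V] [FiniteDimensional ℂ V]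
variable (W : Subgroup (V ≃ₗ[ℂ] V)) [Finite W] (k : Submodule ℂ V → ℤ → ℂ)

/-- `Z_k = Z(𝐇_k)`, the algebra of functions on the Calogero-Moser space. -/
abbrev ZZ : Type := Subalgebra.center ℂ (Ch W k True)

/-- the automorphism induced by `g` preserves the centre. -/
theorem ind_mem_center (g : V ≃ₗ[ℂ] V) (hg : Normalizes g W) (hk : FixesParam g k) {z : Ch W k True}
    (hz : z ∈ Subalgebra.center ℂ (Ch W k True)) :
    ind W k True g hg hk z ∈ Subalgebra.center ℂ (Ch W k True) := by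
  rw [Subalgebra.mem_center_iff] at hz ⊢
  intro a
  obtain ⟨a, rfl⟩ := ind_surjective W k True g hg hk a
  rw [← map_mul, ← map_mul, hz a]

/-- the automorphism of `Z_k` induced by `g`. -/
noncomputable def indZ (g : V ≃ₗ[ℂ] V) (hg : Normalizes g W) (hk : FixesParam g k) : ZZ W k →ₐ[ℂ] ZZ W k :=
  ((ind W k True g hg hk).comp (Subalgebra.center ℂ (Ch W k True)).val).codRestrict
    (Subalgebra.center ℂ (Ch W k True)) (fun z => ind_mem_center W k g hg hk z.2)

/-- The `ℂ^×`-action on `Z_k`: it is induced by the scalars of `GL(V)`, so that `x ∈ V*` has degree `1`, `y ∈ V` has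
degree `-1` and `w ∈ W` has degree `0`. -/
noncomputable def dilZ (c : ℂˣ) : ZZ W k →ₐ[ℂ] ZZ W k :=
  indZ W k (scal V c⁻¹) (normalizes_scal W c⁻¹) (fixesParam_scal k c⁻¹)

/-- The Poisson bracket on `Z_k`: `{z,z'} = w` if `[ẑ,ẑ'] = t ŵ` for some lifts `ẑ, ẑ', ŵ` to the algebra over `ℂ[t]`. -/
def IsPB (z z' w : ZZ W k) : Prop :=
  ∃ a a' c : Ch W k False, spec W k a = z ∧ spec W k a' = z' ∧ spec W k c = w ∧
    a * a' - a' * a = ct W k False * c

end

section

variable {V : Type} [AddCommGroup V] [Module ℂ V] [FiniteDimensional ℂ V]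

/-- `W^τ` is finite. -/
instance fixGrp.instFinite (W : Subgroup (V ≃ₗ[ℂ] V)) [Finite W] (τ : V ≃ₗ[ℂ] V) : Finite (fixGrp W τ) := by
  have hc : ∀ g : fixGrp W τ, ∃ w : W, ∀ u : ↥(fixSub τ),
      (((g : ↥(fixSub τ) ≃ₗ[ℂ] ↥(fixSub τ)) u : ↥(fixSub τ)) : V) = (w : V ≃ₗ[ℂ] V) (u : V) := by
    intro g
    obtain ⟨w, hw, _, h⟩ := g.2
    exact ⟨⟨w, hw⟩, h⟩
  choose F hF using hc
  refine Finite.of_injective F fun g g' h => ?_
  apply Subtype.ext
  apply LinearEquiv.ext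
  intro u
  apply Subtype.ext
  rw [hF g u, hF g' u, h]

/-- The ideal of `Z_k` generated by the `z - τ(z)`: the ideal of the fixed locus `𝒵_k^τ`. -/
noncomputable def Itau (W : Subgroup (V ≃ₗ[ℂ] V)) [Finite W] (k : Submodule ℂ V → ℤ → ℂ) (τ : V ≃ₗ[ℂ] V)
    (hτ : Normalizes τ W) (hkτ : FixesParam τ k) : Ideal (ZZ W k) :=
  Ideal.span {w | ∃ z, w = z - indZ W k τ hτ hkτ z}

variable (W : Subgroup (V ≃ₗ[ℂ] V)) [Finite W] (τ : V ≃ₗ[ℂ] V)

/-- `p` is the prime ideal of the irreducible component of maximal dimension of the fixed locus `𝒵_k^τ` (every other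
component has smaller dimension). -/
structure IsMaxComp (k : Submodule ℂ V → ℤ → ℂ) (hτ : Normalizes τ W) (hkτ : FixesParam τ k)
    (p : Ideal (ZZ W k)) : Prop where
  minimal : p ∈ (Itau W k τ hτ hkτ).minimalPrimes
  max : ∀ q ∈ (Itau W k τ hτ hkτ).minimalPrimes, q ≠ p →
    ringKrullDim (ZZ W k ⧸ q) < ringKrullDim (ZZ W k ⧸ p)

/-- `φ : Z_k(V,W) → Z_l(V^τ,W^τ)` induces an injective, `ℂ^×`-equivariant homomorphism of Poisson algebras on
`Z_k(V,W)/p`. (The Poisson bracket of the classes modulo `p` of `τ`-invariant elements `z`, `z'` is the class of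
`{z,z'}`, and every class modulo `p` is the class of a `τ`-invariant element.) -/
structure IsCMMap (k : Submodule ℂ V → ℤ → ℂ) (hτ : Normalizes τ W) (hkτ : FixesParam τ k)
    (p : Ideal (ZZ W k)) (l : Submodule ℂ ↥(fixSub τ) → ℤ → ℂ) (φ : ZZ W k →ₐ[ℂ] ZZ (fixGrp W τ) l) : Prop where
  ker : RingHom.ker φ = p
  dil : ∀ (c : ℂˣ) (z : ZZ W k), φ (dilZ W k c z) = dilZ (fixGrp W τ) l c (φ z)
  pb : ∀ z z' w : ZZ W k, indZ W k τ hτ hkτ z = z → indZ W k τ hτ hkτ z' = z' → IsPB W k z z' w →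
    IsPB (fixGrp W τ) l (φ z) (φ z') (φ w)

/-- Q1 for `(V,W,τ)`: there is a linear map `λ` such that for every `τ`-stable `k` the component of maximal dimension
of `𝒵_k(V,W)^τ` is isomorphic to `𝒵_{λ(k)}(V^τ,W^τ)`, `ℂ^×`-equivariantly and as Poisson varieties. -/
def Q1 (hτ : Normalizes τ W) : Prop :=
  ∃ lam : ↥(Param W) →ₗ[ℂ] ↥(Param (fixGrp W τ)),
    ∀ (k : ↥(Param W)) (hkτ : FixesParam τ (k : Submodule ℂ V → ℤ → ℂ)),
      ∃ p : Ideal (ZZ W (k : Submodule ℂ V → ℤ → ℂ)), IsMaxComp W τ k hτ hkτ p ∧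
        ∃ φ : ZZ W (k : Submodule ℂ V → ℤ → ℂ) →ₐ[ℂ]
            ZZ (fixGrp W τ) (lam k : Submodule ℂ ↥(fixSub τ) → ℤ → ℂ),
          IsCMMap W τ k hτ hkτ p (lam k : Submodule ℂ ↥(fixSub τ) → ℤ → ℂ) φ ∧ Function.Surjective φ

end

end Pool.Agent.CM64
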