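import Pool.Agent.LibCM64.RkJ
import Pool.Agent.LibCM64.StDefs

/-! The group `G = W^τ` acting on `U = V^τ`; rank one theorem for `(W, τ)`. -/

set_option linter.unusedSectionVars false

namespace Pool.Agent.CM64

open Module MvPolynomial

section

variable {V : Type} [AddCommGroup V] [Module ℂ V] [FiniteDimensional ℂ V]

/-- the group generated by `W` and `τ` is finite. -/
theorem finite_sup (W : Subgroup (V ≃ₗ[ℂ] V)) [Finite W] {τ : V ≃ₗ[ℂ] V} (hτ : Normalizes τ W)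
    (hfin : IsOfFinOrder τ) : Finite ↥(W ⊔ Subgroup.zpowers τ) := by
  have hN : ∀ t ∈ Subgroup.zpowers τ, ∀ h, h ∈ W ↔ t * h * t⁻¹ ∈ W := by
    have h1 : Subgroup.zpowers τ ≤ Subgroup.normalizer (W : Set (V ≃ₗ[ℂ] V)) := by
      rw [Subgroup.zpowers_le, Subgroup.mem_normalizer_iff]
      exact hτ
    intro t ht
    exact Subgroup.mem_normalizer_iff.1 (h1 ht)
  let S : Subgroup (V ≃ₗ[ℂ] V) :=
    { carrier := {g | ∃ w ∈ W, ∃ t ∈ Subgroup.zpowers τ, g = w * t}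
      mul_mem' := by
        rintro a b ⟨w, hw, t, ht, rfl⟩ ⟨w', hw', t', ht', rfl⟩
        refine ⟨w * (t * w' * t⁻¹), W.mul_mem hw ((hN t ht w').1 hw'), t * t', mul_mem ht ht', ?_⟩
        group
      one_mem' := ⟨1, W.one_mem, 1, one_mem _, by rw [one_mul]⟩
      inv_mem' := by
        rintro a ⟨w, hw, t, ht, rfl⟩
        refine ⟨t⁻¹ * w⁻¹ * (t⁻¹)⁻¹, (hN _ (inv_mem ht) _).1 (W.inv_mem hw), t⁻¹, inv_mem ht, ?_⟩
        group }
  have hle : W ⊔ Subgroup.zpowers τ ≤ S := by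
    refine sup_le ?_ ?_
    · intro w hw
      exact ⟨w, hw, 1, one_mem _, by rw [mul_one]⟩
    · intro t ht
      exact ⟨1, W.one_mem, t, ht, by rw [one_mul]⟩
  have hfz : (Subgroup.zpowers τ : Set (V ≃ₗ[ℂ] V)).Finite := finite_zpowers.2 hfin
  have hS : (S : Set (V ≃ₗ[ℂ] V)).Finite := by
    refine Set.Finite.subset (Set.Finite.image2 (fun a b => a * b) (Set.toFinite (W : Set (V ≃ₗ[ℂ] V))) hfz) ?_
    rintro g ⟨w, hw, t, ht, rfl⟩
    exact ⟨w, hw, t, ht, rfl⟩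
  exact (Set.Finite.subset hS hle).to_subtype

private theorem glA_map {τ : V ≃ₗ[ℂ] V} (H' : Submodule ℂ ↥(fixSub τ)) :
    (H'.map (fixSub τ).subtype).map (τ : V →ₗ[ℂ] V) = H'.map (fixSub τ).subtype := by
  ext v
  constructor
  · rintro ⟨e, ⟨u, hu, rfl⟩, rfl⟩
    refine ⟨u, hu, ?_⟩
    exact (mem_fixSub.1 u.2).symm
  · rintro ⟨u, hu, rfl⟩
    refine ⟨_, ⟨u, hu, rfl⟩, ?_⟩
    exact mem_fixSub.1 u.2

/-- `τ` normalises the reflection subgroup fixing a subspace of `V^τ`. -/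
theorem normalizes_rst {W : Subgroup (V ≃ₗ[ℂ] V)} {τ : V ≃ₗ[ℂ] V} (hτ : Normalizes τ W)
    (H' : Submodule ℂ ↥(fixSub τ)) : Normalizes τ (rst W (H'.map (fixSub τ).subtype)) := by
  have h0 : Tp τ W W (fun _ _ => 0) (fun _ _ => 0) :=
    tp_of_normalizes hτ (fun _ _ => rfl)
  have h1 := tp_rst h0 (H'.map (fixSub τ).subtype)
  rw [glA_map] at h1
  intro h
  have h2 := h1.grp h
  rwa [cj_eq_conj] at h2

/-- the `τ`-stable parameters. -/
def Kfix (W : Subgroup (V ≃ₗ[ℂ] V)) (τ : V ≃ₗ[ℂ] V) : Submodule ℂ (Submodule ℂ V → ℤ → ℂ) where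
  carrier := {k | k ∈ Param W ∧ FixesParam τ k}
  add_mem' := by
    rintro a b ⟨h1, h2⟩ ⟨h1', h2'⟩
    refine ⟨(Param W).add_mem h1 h1', fun H j => ?_⟩
    simp [h2 H j, h2' H j]
  zero_mem' := ⟨(Param W).zero_mem, fun _ _ => rfl⟩
  smul_mem' := by
    rintro c a ⟨h1, h2⟩
    refine ⟨(Param W).smul_mem c h1, fun H j => ?_⟩
    simp [h2 H j]

theorem tp_Kfix {W : Subgroup (V ≃ₗ[ℂ] V)} {τ : V ≃ₗ[ℂ] V} (hτ : Normalizes τ W)
    (H' : Submodule ℂ ↥(fixSub τ)) {k : Submodule ℂ V → ℤ → ℂ} (hk : k ∈ Kfix W τ) :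
    Tp τ (rst W (H'.map (fixSub τ).subtype)) (rst W (H'.map (fixSub τ).subtype)) k k := by
  have h1 := tp_rst (tp_of_normalizes hτ hk.2) (H'.map (fixSub τ).subtype)
  rwa [glA_map] at h1

/-- elements of `(W^τ)_{H'}` are induced by elements of `W` commuting with `τ` and fixing `H'` pointwise. -/
theorem exists_of_mem_rst {W : Subgroup (V ≃ₗ[ℂ] V)} {τ : V ≃ₗ[ℂ] V} (H' : Submodule ℂ ↥(fixSub τ))
    {h : ↥(fixSub τ) ≃ₗ[ℂ] ↥(fixSub τ)} (hh : h ∈ rst (fixGrp W τ) H') :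
    ∃ w ∈ W, w * τ = τ * w ∧ (∀ v : ↥(fixSub τ), ((h v : ↥(fixSub τ)) : V) = w (v : V)) ∧
      ∀ v ∈ H', w (v : V) = v := by
  obtain ⟨w, hw, hc, hv⟩ := rst_le (fixGrp W τ) H' hh
  refine ⟨w, hw, hc, hv, fun v hv' => ?_⟩
  rw [← hv v, rst_fix (fixGrp W τ) H' hh hv']

/-- elements of `rst W H'` commuting with `τ` induce elements of `(W^τ)_{H'}`. -/
theorem mem_rst_of_comm {W : Subgroup (V ≃ₗ[ℂ] V)} {τ : V ≃ₗ[ℂ] V} (H' : Submodule ℂ ↥(fixSub τ))
    (hH' : finrank ℂ H' + 1 = finrank ℂ ↥(fixSub τ)) {g : V ≃ₗ[ℂ] V}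
    (hg : g ∈ rst W (H'.map (fixSub τ).subtype)) (hc : g * τ = τ * g) :
    ∃ h ∈ rst (fixGrp W τ) H', ∀ v : ↥(fixSub τ), ((h v : ↥(fixSub τ)) : V) = g (v : V) := by
  have hc' : ∀ v : V, g (τ v) = τ (g v) := fun v => by
    have := congrArg (fun f : V ≃ₗ[ℂ] V => f v) hc
    exact this
  have hmap : (fixSub τ).map (g : V →ₗ[ℂ] V) = fixSub τ := by
    ext v
    constructor
    · rintro ⟨u, hu, rfl⟩
      rw [mem_fixSub]
      show τ (g u) = g u
      rw [← hc', mem_fixSub.1 hu]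
    · intro hv
      refine ⟨g.symm v, ?_, g.apply_symm_apply v⟩
      show g.symm v ∈ fixSub τ
      rw [mem_fixSub]
      apply g.injective
      rw [hc', g.apply_symm_apply, mem_fixSub.1 hv]
  refine ⟨g.ofSubmodules (fixSub τ) (fixSub τ) hmap, ?_, fun v => rfl⟩
  rw [rst_hyper (fixGrp W τ) hH']
  refine ⟨⟨g, rst_le W _ hg, hc, fun u => rfl⟩, fun v hv => ?_⟩
  apply Subtype.ext
  show g (v : V) = v
  exact rst_fix W _ hg ⟨v, hv, rfl⟩

end

section

variable {V : Type} [AddCommGroup V] [Module ℂ V] [FiniteDimensional ℂ V]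
variable {ι : Type} [Fintype ι] [DecidableEq ι] {κ : Type} [Fintype κ] [DecidableEq κ]

/-- `DelE` restricted to `U` is nonzero and prime to `α_{H'}`, `E = H'`. -/
theorem resP_DelE (W : Subgroup (V ≃ₗ[ℂ] V)) [Finite W] {τ : V ≃ₗ[ℂ] V} (hreg : IsRegular W τ)
    (b : Basis ι ℂ V) (bU : Basis κ ℂ ↥(fixSub τ)) (H' : Submodule ℂ ↥(fixSub τ))
    (hH' : finrank ℂ H' + 1 = finrank ℂ ↥(fixSub τ)) (n : ℕ) :
    ¬ xl bU (lf H') ∣ resP τ b bU (DelE W b (H'.map (fixSub τ).subtype) ^ n) := by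
  classical
  have _ := hreg
  have hp : Prime (xl bU (lf H')) := prime_xl bU (lf_spec H' hH').1
  intro h
  rw [map_pow] at h
  have h1 := hp.dvd_of_dvd_pow h
  unfold DelE at h1
  rw [map_prod] at h1
  obtain ⟨H, hH, h2⟩ := hp.exists_mem_finset_dvd h1
  rw [Finset.mem_filter] at hH
  apply hH.2
  rintro v ⟨u, hu, rfl⟩
  rw [mem_iff_lf H (arr_finrank W (mem_arrF.1 hH.1))]
  obtain ⟨c, hc⟩ := h2
  rw [resP_xl] at hc
  have h3 := congrArg (evP bU u) hc
  rw [map_mul, evP_xl, evP_xl, (mem_iff_lf H' hH' u).1 hu, zero_mul] at h3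
  exact h3

/-- restrictions of elements of `M_k^W` are invariant under `W^τ`. -/
theorem res_inv {W : Subgroup (V ≃ₗ[ℂ] V)} [Finite W] {τ : V ≃ₗ[ℂ] V} (hfin : IsOfFinOrder τ)
    {b : Basis ι ℂ V} {bU : Basis κ ℂ ↥(fixSub τ)} {z : Ax ι} (hinv : InvA W b z) {s : Ax κ}
    (hs : ResRel τ b bU z s) : InvA (fixGrp W τ) bU s := by
  intro g hg
  obtain ⟨w, hw, hc, hu⟩ := hg
  have h1 := ResRel.equivar hfin hc hu hs
  have h2 : trA b b w z = z := hinv w hw
  rw [h2] at h1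
  exact h1.unique hs

/-- restrictions of elements of `M_k` have denominators which are products of linear forms. -/
theorem res_HypDen {W : Subgroup (V ≃ₗ[ℂ] V)} [Finite W] {τ : V ≃ₗ[ℂ] V} (hreg : IsRegular W τ)
    {k : Submodule ℂ V → ℤ → ℂ} {b : Basis ι ℂ V} {bU : Basis κ ℂ ↥(fixSub τ)} {z : Ax ι} (hz : z ∈ Mk W k b)
    {s : Ax κ} (hs : ResRel τ b bU z s) : HypDen bU s := by
  obtain ⟨N, p, hp⟩ := Mk_den W k b hz
  have h1 := ResRel.mul (ResRel.ofP (τ := τ) (b := b) (bU := bU) (Del W b ^ N)) hs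
  rw [← hp] at h1
  have h2 := h1.unique (ResRel.ofR p)
  obtain ⟨v, hv, hvH⟩ := hreg
  have h3 : ∀ n : ℕ, ∃ L : List (Dual ℂ ↥(fixSub τ)), (∀ f ∈ L, f ≠ 0) ∧
      (L.map (xl bU)).prod = resP τ b bU (Del W b ^ n) := by
    intro n
    induction n with
    | zero =>
      refine ⟨[], by simp, ?_⟩
      rw [pow_zero, map_one]
      rfl
    | succ n ih =>
      obtain ⟨L, hL, hL'⟩ := ih
      refine ⟨L ++ (arrF W).toList.map (fun H => (lf H).comp (fixSub τ).subtype), ?_, ?_⟩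
      · intro f hf
        rcases List.mem_append.1 hf with hf | hf
        · exact hL f hf
        · obtain ⟨H, hH, rfl⟩ := List.mem_map.1 hf
          intro h0
          rw [Finset.mem_toList] at hH
          apply hvH H (mem_arrF.1 hH)
          rw [mem_iff_lf H (arr_finrank W (mem_arrF.1 hH))]
          exact congrArg (fun f : Dual ℂ ↥(fixSub τ) => f ⟨v, hv⟩) h0
      · rw [List.map_append, List.prod_append, hL', pow_succ, map_mul]
        congr 1
        unfold Del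
        rw [map_prod, List.map_map, ← Finset.prod_map_toList]
        congr 1
        refine List.map_congr_left fun H _ => ?_
        rw [Function.comp_apply, resP_xl]
  obtain ⟨L, hL, hL'⟩ := h3 N
  exact ⟨L, hL, resR τ b bU p, by rw [hL', h2]⟩

private theorem glA_prod (e₀ m : ℕ) (F : ℕ → Polynomial ℂ) :
    ∏ i ∈ Finset.range (e₀ * m), F (i % e₀) = (∏ i ∈ Finset.range e₀, F i) ^ m := by
  induction m with
  | zero => simp
  | succ m ih =>
    rw [Nat.mul_succ, Finset.prod_range_add, ih, pow_succ]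
    congr 1
    refine Finset.prod_congr rfl fun i hi => ?_
    rw [Nat.mul_add_mod, Nat.mod_eq_of_lt (Finset.mem_range.1 hi)]

/-- the rank one theorem at a hyperplane `H'` of `U`: there are functionals `ell i` on the space of `τ`-stable parameters
such that the restriction `s` of `z ∈ M_k^W` satisfies `Loc` at `H'` for every parameter `l` with
`e (l_0 - l_{-i}) = - ell i k`. (`rank_one` for `Γ = rst W H'`, `N` the stabiliser of `H'` in the finite group `⟨W,τ⟩`,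
`G = rst (fixGrp W τ) H'`, `z` replaced by `DelE^{|W| N} z`; `ell i = ℓ (i mod e₀)`.) -/
theorem rank_one_W {W : Subgroup (V ≃ₗ[ℂ] V)} [Finite W] (hW : ReflGen W) {τ : V ≃ₗ[ℂ] V} (hτ : Normalizes τ W)
    (hfin : IsOfFinOrder τ) (hreg : IsRegular W τ) (b : Basis ι ℂ V) (bU : Basis κ ℂ ↥(fixSub τ))
    (H' : Submodule ℂ ↥(fixSub τ)) (hH' : finrank ℂ H' + 1 = finrank ℂ ↥(fixSub τ)) :
    ∃ ell : ℕ → (Kfix W τ →ₗ[ℂ] ℂ), ell 0 = 0 ∧
      ∀ (k : Kfix W τ) (l : Submodule ℂ ↥(fixSub τ) → ℤ → ℂ), Adm (rst (fixGrp W τ) H') l →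
        (∀ i < Nat.card (rst (fixGrp W τ) H'),
          (Nat.card (rst (fixGrp W τ) H') : ℂ) * (l H' 0 - l H' (-(i : ℤ))) = -(ell i k)) →
        ∀ z : Ax ι, z ∈ Mk W (k : Submodule ℂ V → ℤ → ℂ) b → InvA W b z → ∀ s : Ax κ, ResRel τ b bU z s →
          Loc (fixGrp W τ) l bU H' s := by
  obtain ⟨u, hτu, hu⟩ := free_of_isRegular W hW hreg
  have hfs := finite_sup W hτ hfin
  have key := rank_one (Γ := rst W (H'.map (fixSub τ).subtype))
    (N := pst (W ⊔ Subgroup.zpowers τ) (H'.map (fixSub τ).subtype)) (τ := τ)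
    (fun g hg => ⟨(le_sup_left : W ≤ W ⊔ Subgroup.zpowers τ) (rst_le W _ hg),
      fun v hv => rst_fix W _ hg hv⟩)
    ⟨(le_sup_right : Subgroup.zpowers τ ≤ W ⊔ Subgroup.zpowers τ) (Subgroup.mem_zpowers τ), by
      rintro v ⟨x, _, rfl⟩
      exact mem_fixSub.1 x.2⟩
    (reflGen_rst W _) (normalizes_rst hτ H') hfin
    (fun g hg hgu => hu g (rst_le W _ hg) hgu) hτu H' hH'
    (fun g hg h hh => hg.2 _ ⟨h, hh, rfl⟩) b bU (rst (fixGrp W τ) H')
    (fun h hh => by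
      obtain ⟨w, hw, _, hv, hH⟩ := exists_of_mem_rst H' hh
      refine ⟨w, ⟨(le_sup_left : W ≤ W ⊔ Subgroup.zpowers τ) hw, ?_⟩, hv⟩
      rintro v ⟨x, hx, rfl⟩
      exact hH x hx)
    (fun g hg hc => mem_rst_of_comm H' hH' hg hc)
    (Kfix W τ) (fun k hk => adm_rst (adm_of_mem_Param hk.1) _) (fun k hk => tp_Kfix hτ H' hk)
  obtain ⟨hdvd, ℓ, hℓ0, hℓ⟩ := key
  have he₀ : 0 < eFix (rst W (H'.map (fixSub τ).subtype)) τ := eFix_pos _ _
  refine ⟨fun i => ℓ ⟨i % eFix (rst W (H'.map (fixSub τ).subtype)) τ, Nat.mod_lt _ he₀⟩,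
    hℓ0 _ (Nat.zero_mod _), ?_⟩
  intro k l hl hkl z hz hinv s hs
  obtain ⟨m, hm⟩ := hdvd
  have hR : (∏ i, (Polynomial.X - Polynomial.C (ℓ i k))) ^
      (Nat.card (rst (fixGrp W τ) H') / eFix (rst W (H'.map (fixSub τ).subtype)) τ) =
      Rl (Nat.card (rst (fixGrp W τ) H')) (l H') := by
    have e1 : Nat.card (rst (fixGrp W τ) H') / eFix (rst W (H'.map (fixSub τ).subtype)) τ = m := by
      rw [hm, Nat.mul_div_cancel_left _ he₀]
    rw [e1]
    unfold Rl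
    have e2 : ∀ i ∈ Finset.range (Nat.card (rst (fixGrp W τ) H')),
        (Polynomial.X + Polynomial.C ((Nat.card (rst (fixGrp W τ) H') : ℂ) * (l H' 0 - l H' (-(i : ℤ)))) :
          Polynomial ℂ) =
        (fun i : ℕ => Polynomial.X - Polynomial.C
          (ℓ ⟨i % eFix (rst W (H'.map (fixSub τ).subtype)) τ, Nat.mod_lt _ he₀⟩ k))
          (i % eFix (rst W (H'.map (fixSub τ).subtype)) τ) := by
      intro i hi
      rw [hkl i (Finset.mem_range.1 hi), map_neg, ← sub_eq_add_neg]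
      simp only [Nat.mod_mod]
    rw [Finset.prod_congr rfl e2]
    rw [show Finset.range (Nat.card (rst (fixGrp W τ) H')) =
      Finset.range (eFix (rst W (H'.map (fixSub τ).subtype)) τ * m) from by rw [← hm]]
    rw [glA_prod (eFix (rst W (H'.map (fixSub τ).subtype)) τ) m (fun i : ℕ => Polynomial.X -
      Polynomial.C (ℓ ⟨i % eFix (rst W (H'.map (fixSub τ).subtype)) τ, Nat.mod_lt _ he₀⟩ k))]
    congr 1
    rw [← Fin.prod_univ_eq_prod_range (fun i : ℕ => (Polynomial.X -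
      Polynomial.C (ℓ ⟨i % eFix (rst W (H'.map (fixSub τ).subtype)) τ, Nat.mod_lt _ he₀⟩ k) :
        Polynomial ℂ))]
    refine Finset.prod_congr rfl fun i _ => ?_
    have e3 : i = ⟨(i : ℕ) % eFix (rst W (H'.map (fixSub τ).subtype)) τ, Nat.mod_lt _ he₀⟩ :=
      Fin.ext (Nat.mod_eq_of_lt i.2).symm
    show Polynomial.X - Polynomial.C (ℓ i k) = Polynomial.X - Polynomial.C (ℓ ⟨(i : ℕ) % eFix (rst W
      (H'.map (fixSub τ).subtype)) τ, Nat.mod_lt _ he₀⟩ k)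
    rw [← e3]
  obtain ⟨N, hN⟩ := DelE_mul_mem W (k : Submodule ℂ V → ℤ → ℂ) (adm_of_mem_Param k.2.1) b
    (H'.map (fixSub τ).subtype) hz
  have hcard : 1 ≤ Nat.card W := Nat.card_pos
  have hz' := hN (Nat.card W * N) (Nat.le_mul_of_pos_left N hcard)
  have hDinv : ∀ w ∈ W, (∀ v ∈ H'.map (fixSub τ).subtype, w v = v) →
      act b w (xA (DelE W b (H'.map (fixSub τ).subtype) ^ (Nat.card W * N)) * z) =
        xA (DelE W b (H'.map (fixSub τ).subtype) ^ (Nat.card W * N)) * z := by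
    intro w hw hfix
    rw [map_mul, hinv w hw, trA_xA, DelE_pow_inv W b _ hw hfix N]
  have hs' := ResRel.mul (ResRel.ofP (τ := τ) (b := b) (bU := bU)
    (DelE W b (H'.map (fixSub τ).subtype) ^ (Nat.card W * N))) hs
  refine ⟨resP τ b bU (DelE W b (H'.map (fixSub τ).subtype) ^ (Nat.card W * N)),
    resP_DelE W hreg b bU H' hH' _, ?_⟩
  refine hℓ k l hl hR _ hz' (fun g hg => hDinv g (rst_le W _ hg) (fun v hv => rst_fix W _ hg hv)) _ hs' ?_
  intro g hg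
  obtain ⟨w, hw, hc, hv, hH⟩ := exists_of_mem_rst H' hg
  have h1 := ResRel.equivar hfin hc hv hs'
  have h2 := hDinv w hw (by
    rintro v ⟨x, hx, rfl⟩
    exact hH x hx)
  have h3 : trA b b w (xA (DelE W b (H'.map (fixSub τ).subtype) ^ (Nat.card W * N)) * z) =
        xA (DelE W b (H'.map (fixSub τ).subtype) ^ (Nat.card W * N)) * z := h2
  rw [h3] at h1
  exact h1.unique hs'

end

end Pool.Agent.CM64
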