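import Mathlib

/-! Algebra for `G(m,p,n)`: polarisation, truncated roots, coefficients of polynomial families. -/

set_option linter.unusedSectionVars false

namespace Pool.Agent.CM64

/-- polarisation: the symmetrised product is an alternating sum of products of sums (expand the products; the alternating
sum over the subsets `A` containing the image of a function `κ → κ` is `1` if the function is onto, `0` otherwise). -/
theorem polarise {κ R : Type} [Fintype κ] [DecidableEq κ] [CommRing R] (F : κ → κ → R) :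
    ∑ π : Equiv.Perm κ, ∏ j, F j (π j)
      = ∑ A : Finset κ, (-1 : R) ^ (Fintype.card κ - A.card) * ∏ k, ∑ j ∈ A, F j k := by
  classical
  have h1 : ∀ A : Finset κ, ∏ k, ∑ j ∈ A, F j k
      = ∑ f : κ → κ, if ∀ k, f k ∈ A then ∏ k, F (f k) k else 0 := by
    intro A
    rw [Finset.prod_univ_sum, ← Finset.sum_filter]
    refine Finset.sum_congr ?_ (fun _ _ => rfl)
    ext f
    simp [Fintype.mem_piFinset]
  have h2 : ∀ f : κ → κ, ∑ A : Finset κ, (-1 : R) ^ (Fintype.card κ - A.card) *
      (if ∀ k, f k ∈ A then ∏ k, F (f k) k else 0)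
      = if Function.Bijective f then ∏ k, F (f k) k else 0 := by
    intro f
    have e1 : ∑ A : Finset κ, (-1 : R) ^ (Fintype.card κ - A.card) *
        (if ∀ k, f k ∈ A then ∏ k, F (f k) k else 0)
        = ∑ C : Finset κ, (-1 : R) ^ C.card * (if ∀ k, f k ∉ C then ∏ k, F (f k) k else 0) := by
      refine Fintype.sum_equiv (Function.Involutive.toPerm (compl : Finset κ → Finset κ) compl_involutive) _ _ ?_
      intro A
      have e2 : (Function.Involutive.toPerm (compl : Finset κ → Finset κ) compl_involutive) A = Aᶜ := rfl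
      rw [e2, Finset.card_compl]
      simp only [Finset.mem_compl, not_not]
    rw [e1]
    have e3 : ∑ C : Finset κ, (-1 : R) ^ C.card * (if ∀ k, f k ∉ C then ∏ k, F (f k) k else 0)
        = (∑ C ∈ ((Finset.univ.image f)ᶜ).powerset, (-1 : R) ^ C.card) * ∏ k, F (f k) k := by
      rw [Finset.sum_mul]
      have e4 : ((Finset.univ.image f)ᶜ).powerset
          = Finset.univ.filter (fun C : Finset κ => ∀ k, f k ∉ C) := by
        ext C
        simp only [Finset.mem_powerset, Finset.mem_filter, Finset.mem_univ, true_and]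
        constructor
        · intro h k hk
          have := h hk
          rw [Finset.mem_compl] at this
          exact this (Finset.mem_image_of_mem f (Finset.mem_univ k))
        · intro h x hx
          rw [Finset.mem_compl, Finset.mem_image]
          rintro ⟨k, _, rfl⟩
          exact h k hx
      rw [e4, Finset.sum_filter]
      refine Finset.sum_congr rfl (fun C _ => ?_)
      split_ifs <;> simp
    rw [e3]
    have e5 : (∑ C ∈ ((Finset.univ.image f)ᶜ).powerset, (-1 : R) ^ C.card)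
        = if ((Finset.univ.image f)ᶜ : Finset κ) = ∅ then 1 else 0 := by
      have e6 := congrArg (Int.cast : ℤ → R)
        (Finset.sum_powerset_neg_one_pow_card (x := (Finset.univ.image f)ᶜ))
      rw [Int.cast_sum] at e6
      simp only [Int.cast_pow, Int.cast_neg, Int.cast_one] at e6
      rw [e6]
      split_ifs <;> simp
    rw [e5]
    have e7 : (((Finset.univ.image f)ᶜ : Finset κ) = ∅) ↔ Function.Bijective f := by
      rw [Finset.compl_eq_empty_iff, ← Finite.surjective_iff_bijective]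
      constructor
      · intro h x
        have hx : x ∈ Finset.univ.image f := by rw [h]; exact Finset.mem_univ x
        obtain ⟨k, _, hk⟩ := Finset.mem_image.1 hx
        exact ⟨k, hk⟩
      · intro h
        exact Finset.image_univ_of_surjective h
    by_cases hb : Function.Bijective f
    · rw [if_pos hb, if_pos (e7.2 hb), one_mul]
    · rw [if_neg hb, if_neg (fun h => hb (e7.1 h)), zero_mul]
  have h3 : ∑ A : Finset κ, (-1 : R) ^ (Fintype.card κ - A.card) * ∏ k, ∑ j ∈ A, F j k
      = ∑ f : κ → κ, if Function.Bijective f then ∏ k, F (f k) k else 0 := by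
    simp only [h1, Finset.mul_sum]
    rw [Finset.sum_comm]
    exact Finset.sum_congr rfl (fun f _ => h2 f)
  rw [h3, ← Finset.sum_filter]
  symm
  refine Finset.sum_bij (fun f h ↦ (Equiv.ofBijective f (Finset.mem_filter.1 h).2).symm)
    (fun _ _ ↦ Finset.mem_univ _) ?_ ?_ ?_
  · intro f hf g hg h
    have h' := congrArg Equiv.symm h
    rw [Equiv.symm_symm, Equiv.symm_symm] at h'
    have h'' := congrArg (fun e : Equiv.Perm κ => (e : κ → κ)) h'
    exact h''
  · intro b _
    refine ⟨b.symm, Finset.mem_filter.2 ⟨Finset.mem_univ _, b.symm.bijective⟩, ?_⟩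
    ext x
    rw [Equiv.symm_apply_eq]
    simp
  · intro f hf
    have hb := (Finset.mem_filter.1 hf).2
    rw [← Equiv.prod_comp (Equiv.ofBijective f hb)
      (fun j => F j ((Equiv.ofBijective f hb).symm j))]
    refine Finset.prod_congr rfl (fun k _ => ?_)
    rw [Equiv.symm_apply_apply]
    rfl

/-- truncated `d`-th roots of `1 + T` (induction on `N`: if `H^d = 1 + T + c T^{N+1} + …` replace `H` by
`H - (c/d) T^{N+1}`). -/
theorem exists_root_trunc (d : ℕ) (hd : 0 < d) (N : ℕ) :
    ∃ H : Polynomial ℂ, H.coeff 0 = 1 ∧ (Polynomial.X : Polynomial ℂ) ^ (N + 1) ∣ H ^ d - (1 + Polynomial.X) := by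
  have hdc : (d : ℂ) ≠ 0 := Nat.cast_ne_zero.2 hd.ne'
  induction N with
  | zero =>
    refine ⟨1, by simp, ?_⟩
    rw [one_pow]
    exact ⟨-1, by ring⟩
  | succ N ih =>
    obtain ⟨H, h0, R, hR⟩ := ih
    obtain ⟨Q, hQ⟩ := Polynomial.powAddExpansion H
      (-(Polynomial.C (R.coeff 0 / d) * Polynomial.X ^ (N + 1))) d
    have h4 : (Polynomial.X : Polynomial ℂ) ∣ R - Polynomial.C (R.coeff 0) * H ^ (d - 1) := by
      rw [Polynomial.X_dvd_iff, Polynomial.coeff_sub, Polynomial.coeff_C_mul,
        Polynomial.coeff_zero_eq_eval_zero (H ^ (d - 1)), Polynomial.eval_pow,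
        ← Polynomial.coeff_zero_eq_eval_zero, h0, one_pow, mul_one, sub_self]
    obtain ⟨S, hS⟩ := h4
    refine ⟨H + -(Polynomial.C (R.coeff 0 / d) * Polynomial.X ^ (N + 1)), ?_, ?_⟩
    · rw [Polynomial.coeff_add, Polynomial.coeff_neg, Polynomial.coeff_C_mul,
        Polynomial.coeff_X_pow, if_neg (by omega), mul_zero, neg_zero, add_zero, h0]
    · refine ⟨S + Q * (Polynomial.C (R.coeff 0 / d)) ^ 2 * Polynomial.X ^ N, ?_⟩
      have h5 : (d : Polynomial ℂ) * Polynomial.C (R.coeff 0 / d) = Polynomial.C (R.coeff 0) := by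
        have h6 : (d : Polynomial ℂ) = Polynomial.C (d : ℂ) := (map_natCast Polynomial.C d).symm
        rw [h6, ← Polynomial.C_mul, mul_div_cancel₀ _ hdc]
      have h7 : H ^ d = 1 + Polynomial.X + Polynomial.X ^ (N + 1) * R := by
        rw [← hR]; ring
      rw [hQ, h7]
      have h8 : R = Polynomial.C (R.coeff 0) * H ^ (d - 1) + Polynomial.X * S := by
        rw [← hS]; ring
      have h9 : (1 + Polynomial.X + Polynomial.X ^ (N + 1) * R : Polynomial ℂ)
          + (d : Polynomial ℂ) * H ^ (d - 1) * (-(Polynomial.C (R.coeff 0 / d) * Polynomial.X ^ (N + 1)))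
          + Q * (-(Polynomial.C (R.coeff 0 / d) * Polynomial.X ^ (N + 1))) ^ 2 - (1 + Polynomial.X)
          = Polynomial.X ^ (N + 1) * (R - ((d : Polynomial ℂ) * Polynomial.C (R.coeff 0 / d)) * H ^ (d - 1))
            + Q * (Polynomial.C (R.coeff 0 / d)) ^ 2 * Polynomial.X ^ (2 * N + 2) := by ring
      rw [h9, h5, hS]
      ring

/-- the coefficients of a polynomial family of elements of a submodule are in the submodule (Vandermonde/Lagrange). -/
theorem coeff_mem_of_forall_eval {R : Type} [CommRing R] [Algebra ℂ R] (I : Submodule ℂ R) (F : Polynomial R)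
    (h : ∀ s : ℂ, F.eval (algebraMap ℂ R s) ∈ I) (n : ℕ) : F.coeff n ∈ I := by
  by_contra hn
  obtain ⟨f, hf, hI⟩ := Submodule.exists_le_ker_of_notMem hn
  have hnd : n < F.natDegree + 1 := by
    by_contra hlt
    apply hf
    rw [Polynomial.coeff_eq_zero_of_natDegree_lt (by omega), map_zero]
  obtain ⟨P, hP⟩ : ∃ P : Polynomial ℂ,
      P = ∑ k ∈ Finset.range (F.natDegree + 1), Polynomial.monomial k (f (F.coeff k)) := ⟨_, rfl⟩
  have h1 : ∀ s : ℂ, P.eval s = 0 := by
    intro s
    have h2 : f (F.eval (algebraMap ℂ R s)) = 0 := hI (h s)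
    rw [Polynomial.eval_eq_sum_range, map_sum] at h2
    rw [hP, Polynomial.eval_finsetSum, ← h2]
    refine Finset.sum_congr rfl (fun k _ => ?_)
    rw [Polynomial.eval_monomial, ← map_pow, mul_comm (F.coeff k), ← Algebra.smul_def, map_smul,
      smul_eq_mul, mul_comm]
  have h3 : P = 0 := Polynomial.funext (fun s => by rw [h1 s, Polynomial.eval_zero])
  apply hf
  have h4 : P.coeff n = f (F.coeff n) := by
    rw [hP, Polynomial.finsetSum_coeff]
    simp only [Polynomial.coeff_monomial]
    rw [Finset.sum_ite_eq' (Finset.range (F.natDegree + 1)) n (fun k => f (F.coeff k)),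
      if_pos (Finset.mem_range.2 hnd)]
  rw [← h4, h3, Polynomial.coeff_zero]

/-- `∏_{k<d} (X + ε^{-k} Y) = X^d - (-Y)^d` for a primitive `d`-th root of unity `ε`. -/
theorem prod_root {R : Type} [CommRing R] [Algebra ℂ R] {d : ℕ} (hd : 0 < d) {ε : ℂ} (hε : IsPrimitiveRoot ε d)
    (x y : R) : ∏ k ∈ Finset.range d, (x + algebraMap ℂ R ((ε ^ k)⁻¹) * y) = x ^ d - (-y) ^ d := by
  have key : ∏ k ∈ Finset.range d,
      ((MvPolynomial.X 0 : MvPolynomial (Fin 2) ℂ) + MvPolynomial.C ((ε ^ k)⁻¹) * MvPolynomial.X 1)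
      = (MvPolynomial.X 0) ^ d - (-(MvPolynomial.X 1)) ^ d := by
    have hinj : Function.Injective (MvPolynomial.C : ℂ →+* MvPolynomial (Fin 2) ℂ) :=
      MvPolynomial.C_injective (Fin 2) ℂ
    have hp : IsPrimitiveRoot ((MvPolynomial.C : ℂ →+* MvPolynomial (Fin 2) ℂ) ε⁻¹) d :=
      hε.inv.map_of_injective hinj
    rw [hp.pow_sub_pow_eq_prod_sub_mul _ _ hd, ← Finset.prod_map_val]
    have h1 : (Polynomial.nthRootsFinset d (1 : MvPolynomial (Fin 2) ℂ))
        = (Finset.range d).image (fun k => ((MvPolynomial.C : ℂ →+* MvPolynomial (Fin 2) ℂ) ε⁻¹) ^ k) := by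
      symm
      apply Finset.eq_of_subset_of_card_le
      · intro x hx
        obtain ⟨k, _, rfl⟩ := Finset.mem_image.1 hx
        rw [Polynomial.mem_nthRootsFinset hd]
        rw [← pow_mul, mul_comm, pow_mul, hp.pow_eq_one, one_pow]
      · rw [hp.card_nthRootsFinset, Finset.card_image_of_injOn, Finset.card_range]
        intro a ha b hb hab
        exact hp.pow_inj (Finset.mem_range.1 ha) (Finset.mem_range.1 hb) hab
    rw [Finset.prod_map_val, h1, Finset.prod_image]
    · refine Finset.prod_congr rfl (fun k _ => ?_)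
      rw [← map_pow, inv_pow]
      ring
    · intro a ha b hb hab
      exact hp.pow_inj (Finset.mem_range.1 ha) (Finset.mem_range.1 hb) hab
  have h2 := congrArg (MvPolynomial.aeval (R := ℂ) ![x, y]) key
  rw [map_prod] at h2
  simp only [map_add, map_sub, map_mul, map_pow, map_neg, MvPolynomial.aeval_X, MvPolynomial.algHom_C,
    Matrix.cons_val_zero, Matrix.cons_val_one] at h2
  rw [← h2]

/-- exponents: `n_j` integers with `∏ ρ_j^{n_j} = 1` for all `ρ_j` with `ρ_j^{md} = 1`, `(∏ ρ_j)^{qd} = 1` (`q p = m`): all the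
`n_j` are congruent to the same `w d` modulo `m d`, `w < m` a multiple of `q`. -/
theorem exponents {κ : Type} [Fintype κ] [DecidableEq κ] {m q d : ℕ} (hm : 0 < m) (hq : q ∣ m) (hd : 0 < d)
    (n : κ → ℤ) (h : ∀ ρ : κ → ℂ, (∀ j, ρ j ^ (m * d) = 1) → (∏ j, ρ j) ^ (q * d) = 1 → ∏ j, ρ j ^ n j = 1) :
    ∃ w : ℕ, w < m ∧ q ∣ w ∧ ∀ j, ((m * d : ℕ) : ℤ) ∣ n j - (w * d : ℕ) := by
  have hmd : m * d ≠ 0 := Nat.mul_ne_zero hm.ne' hd.ne'
  have hq0 : 0 < q := Nat.pos_of_dvd_of_pos hq hm
  have hqd : q * d ≠ 0 := Nat.mul_ne_zero hq0.ne' hd.ne'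
  have hζ := Complex.isPrimitiveRoot_exp (m * d) hmd
  have hη := Complex.isPrimitiveRoot_exp (q * d) hqd
  obtain ⟨ζ, hζe⟩ : ∃ ζ : ℂ, ζ = Complex.exp (2 * Real.pi * Complex.I / ((m * d : ℕ) : ℂ)) := ⟨_, rfl⟩
  obtain ⟨η, hηe⟩ : ∃ η : ℂ, η = Complex.exp (2 * Real.pi * Complex.I / ((q * d : ℕ) : ℂ)) := ⟨_, rfl⟩
  rw [← hζe] at hζ
  rw [← hηe] at hη
  have hζ0 : ζ ≠ 0 := hζ.ne_zero hmd
  have hsub : ∀ i j, ((m * d : ℕ) : ℤ) ∣ n i - n j := by
    intro i j
    by_cases hij : i = j
    · subst hij; simp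
    have h1 := h (fun k => if k = i then ζ else if k = j then ζ⁻¹ else 1) ?_ ?_
    · rw [← Finset.mul_prod_erase Finset.univ _ (Finset.mem_univ i),
        ← Finset.mul_prod_erase (Finset.univ.erase i) _ (Finset.mem_erase.2 ⟨Ne.symm hij, Finset.mem_univ j⟩),
        Finset.prod_eq_one] at h1
      · simp only [if_true, if_neg (Ne.symm hij), mul_one] at h1
        rw [inv_zpow, ← zpow_neg, ← zpow_add₀ hζ0, ← sub_eq_add_neg] at h1
        exact (hζ.zpow_eq_one_iff_dvd _).1 h1
      · intro k hk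
        rw [Finset.mem_erase, Finset.mem_erase] at hk
        rw [if_neg hk.2.1, if_neg hk.1, one_zpow]
    · intro k
      show (if k = i then ζ else if k = j then ζ⁻¹ else 1) ^ (m * d) = 1
      split_ifs
      · exact hζ.pow_eq_one
      · rw [inv_pow, hζ.pow_eq_one, inv_one]
      · exact one_pow _
    · rw [← Finset.mul_prod_erase Finset.univ _ (Finset.mem_univ i),
        ← Finset.mul_prod_erase (Finset.univ.erase i) _ (Finset.mem_erase.2 ⟨Ne.symm hij, Finset.mem_univ j⟩),
        Finset.prod_eq_one]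
      · simp only [if_true, if_neg (Ne.symm hij), mul_one]
        rw [mul_inv_cancel₀ hζ0, one_pow]
      · intro k hk
        rw [Finset.mem_erase, Finset.mem_erase] at hk
        rw [if_neg hk.2.1, if_neg hk.1]
  have hqn : ∀ j, ((q * d : ℕ) : ℤ) ∣ n j := by
    intro j
    have h1 := h (fun k => if k = j then η else 1) ?_ ?_
    · rw [← Finset.mul_prod_erase Finset.univ _ (Finset.mem_univ j), Finset.prod_eq_one] at h1
      · simp only [if_true, mul_one] at h1
        exact (hη.zpow_eq_one_iff_dvd _).1 h1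
      · intro k hk
        rw [Finset.mem_erase] at hk
        rw [if_neg hk.1, one_zpow]
    · intro k
      show (if k = j then η else 1) ^ (m * d) = 1
      split_ifs
      · obtain ⟨t, rfl⟩ := hq
        rw [mul_assoc, mul_comm t d, ← mul_assoc, pow_mul, hη.pow_eq_one, one_pow]
      · exact one_pow _
    · rw [← Finset.mul_prod_erase Finset.univ _ (Finset.mem_univ j), Finset.prod_eq_one]
      · simp only [if_true, mul_one]
        exact hη.pow_eq_one
      · intro k hk
        rw [Finset.mem_erase] at hk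
        rw [if_neg hk.1]
  rcases isEmpty_or_nonempty κ with hE | ⟨⟨j0⟩⟩
  · exact ⟨0, hm, dvd_zero _, fun j => (hE.false j).elim⟩
  · obtain ⟨t, ht⟩ := hqn j0
    obtain ⟨q', hq'⟩ := hq
    have hmz : (0 : ℤ) < (m : ℤ) := by exact_mod_cast hm
    have hw0 : 0 ≤ ((q : ℤ) * t) % (m : ℤ) := Int.emod_nonneg _ hmz.ne'
    refine ⟨(((q : ℤ) * t) % (m : ℤ)).toNat, ?_, ?_, ?_⟩
    · have := Int.emod_lt_of_pos ((q : ℤ) * t) hmz
      omega
    · rw [← Int.natCast_dvd_natCast, Int.toNat_of_nonneg hw0]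
      have h1 : (q : ℤ) ∣ (m : ℤ) := ⟨q', by rw [hq']; push_cast; ring⟩
      rw [Int.emod_def]
      exact dvd_sub (dvd_mul_right _ _) (dvd_mul_of_dvd_left h1 _)
    · intro j
      have h2 : ((m * d : ℕ) : ℤ) ∣ n j0 - ((((q : ℤ) * t) % (m : ℤ)).toNat * d : ℕ) := by
        rw [ht]
        push_cast
        rw [Int.toNat_of_nonneg hw0]
        have h3 := Int.emod_add_mul_ediv ((q : ℤ) * t) (m : ℤ)
        refine ⟨((q : ℤ) * t) / (m : ℤ), ?_⟩
        have h4 : ((q : ℤ) * t) % (m : ℤ) = (q : ℤ) * t - (m : ℤ) * (((q : ℤ) * t) / (m : ℤ)) := by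
          linarith
        rw [h4]
        ring
      have h5 := dvd_add (hsub j j0) h2
      have h6 : n j - n j0 + (n j0 - ((((q : ℤ) * t) % (m : ℤ)).toNat * d : ℕ))
          = n j - ((((q : ℤ) * t) % (m : ℤ)).toNat * d : ℕ) := by ring
      rwa [h6] at h5

/-- the same without the condition on the product: all the `n_j` are multiples of `m d`. -/
theorem exponents' {κ : Type} [Fintype κ] [DecidableEq κ] {m d : ℕ} (hm : 0 < m) (hd : 0 < d)
    (n : κ → ℤ) (h : ∀ ρ : κ → ℂ, (∀ j, ρ j ^ (m * d) = 1) → ∏ j, ρ j ^ n j = 1) (j : κ) :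
    ((m * d : ℕ) : ℤ) ∣ n j := by
  have hmd : m * d ≠ 0 := Nat.mul_ne_zero hm.ne' hd.ne'
  have hζ := Complex.isPrimitiveRoot_exp (m * d) hmd
  obtain ⟨ζ, hζe⟩ : ∃ ζ : ℂ, ζ = Complex.exp (2 * Real.pi * Complex.I / ((m * d : ℕ) : ℂ)) := ⟨_, rfl⟩
  rw [← hζe] at hζ
  have h1 := h (fun k => if k = j then ζ else 1) ?_
  · rw [← Finset.mul_prod_erase Finset.univ _ (Finset.mem_univ j), Finset.prod_eq_one] at h1
    · simp only [if_true, mul_one] at h1
      exact (hζ.zpow_eq_one_iff_dvd _).1 h1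
    · intro k hk
      rw [Finset.mem_erase] at hk
      rw [if_neg hk.1, one_zpow]
  · intro k
    show (if k = j then ζ else 1) ^ (m * d) = 1
    split_ifs
    · exact hζ.pow_eq_one
    · exact one_pow _

end Pool.Agent.CM64
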