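import Pool.Agent.LibCM64.Res
import Pool.Agent.LibCM64.GmA

/-! `G(m,p,n)`: monomial automorphisms of `ℂ[V × V*]`, the restriction in the model, invariants of product type. -/

set_option linter.unusedSectionVars false

namespace Pool.Agent.CM64

open MvPolynomial

section

variable {ι : Type} [Fintype ι] [DecidableEq ι]

/-- the action on `ℂ[V × V*]` of the monomial matrix `e_i ↦ ε_i e_{s i}`: `x_i ↦ ε_i⁻¹ x_{s i}`, `ξ_i ↦ ε_i ξ_{s i}`. -/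
noncomputable def monA (s : Equiv.Perm ι) (ε : ι → ℂ) : Rx ι →ₐ[ℂ] Rx ι :=
  MvPolynomial.aevalTower ((Algebra.algHom ℂ (Px ι) (Rx ι)).comp (aeval (fun i => ((ε i)⁻¹ • X (s i) : Px ι))))
    (fun i => (ε i • X (s i) : Rx ι))

theorem monA_C_X (s : Equiv.Perm ι) (ε : ι → ℂ) (i : ι) :
    monA s ε (C (X i)) = C ((ε i)⁻¹ • X (s i) : Px ι) := by
  rw [monA, MvPolynomial.aevalTower_C]
  show C (aeval _ (X i)) = _
  rw [aeval_X]

theorem monA_X (s : Equiv.Perm ι) (ε : ι → ℂ) (i : ι) : monA s ε (X i) = ε i • X (s i) := by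
  rw [monA, MvPolynomial.aevalTower_X]

/-- polynomials in two variables `x, ξ`. -/
abbrev P2 := MvPolynomial (Fin 2) ℂ

/-- `φ ↦ φ(x_i, ξ_i)`. -/
noncomputable def e2 (i : ι) : P2 →ₐ[ℂ] Rx ι := aeval ![C (X i), X i]

/-- `φ ↦ φ(a x, b ξ)`. -/
noncomputable def sc2 (a b : ℂ) : P2 →ₐ[ℂ] P2 := aeval ![a • X 0, b • X 1]

/-- `φ(ζ x, ζ⁻¹ ξ) = ζ^w φ(x, ξ)` for all `ζ` with `ζ^M = 1`. -/
def Wt (M w : ℕ) (φ : P2) : Prop := ∀ ζ : ℂ, ζ ^ M = 1 → sc2 ζ ζ⁻¹ φ = ζ ^ w • φ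

/-- the restrictions of `W`-invariants, `W = {ε ∈ μ_m^ι, (∏ ε)^q = 1} ⋊ S_ι`. -/
def monInv (m q : ℕ) (p : Rx ι) : Prop :=
  ∀ (s : Equiv.Perm ι) (ε : ι → ℂ), (∀ i, ε i ^ m = 1) → (∏ i, ε i) ^ q = 1 → monA s ε p = p

/-- `∏_i φ(x_i, ξ_i)` is invariant if `φ` has weight `w`, a multiple of `q`. -/
theorem monInv_prod {m q w : ℕ} (hqw : q ∣ w) {φ : P2} (hφ : Wt m w φ) : monInv m q (∏ i : ι, e2 i φ) := by
  intro s ε hm hq
  have h1 : ∀ i, monA s ε (e2 i φ) = ((ε i)⁻¹) ^ w • e2 (s i) φ := by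
    intro i
    have h2 : (monA s ε).comp (e2 i) = (e2 (s i)).comp (sc2 (ε i)⁻¹ ((ε i)⁻¹)⁻¹) := by
      apply MvPolynomial.algHom_ext
      intro j
      fin_cases j
      · show monA s ε (e2 i (X 0)) = e2 (s i) (sc2 (ε i)⁻¹ ((ε i)⁻¹)⁻¹ (X 0))
        rw [e2, sc2, aeval_X, aeval_X]
        show monA s ε (C (X i)) = e2 (s i) ((ε i)⁻¹ • X 0)
        rw [monA_C_X, show e2 (s i) ((ε i)⁻¹ • X 0 : P2) = (ε i)⁻¹ • e2 (s i) (X 0) from map_smul _ _ _,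
          e2, aeval_X]
        show C ((ε i)⁻¹ • X (s i) : Px ι) = (ε i)⁻¹ • (C (X (s i)) : Rx ι)
        exact map_smul (Algebra.algHom ℂ (Px ι) (Rx ι)) _ _
      · show monA s ε (e2 i (X 1)) = e2 (s i) (sc2 (ε i)⁻¹ ((ε i)⁻¹)⁻¹ (X 1))
        rw [e2, sc2, aeval_X, aeval_X, inv_inv]
        show monA s ε (X i) = e2 (s i) (ε i • X 1)
        rw [monA_X, map_smul, e2, aeval_X]
        rfl
    have h3 := DFunLike.congr_fun h2 φ
    rw [AlgHom.comp_apply, AlgHom.comp_apply] at h3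
    rw [h3, hφ _ (by rw [inv_pow, hm i, inv_one]), map_smul]
  rw [map_prod]
  simp only [h1]
  rw [Finset.prod_smul, Finset.prod_pow, Finset.prod_inv_distrib]
  obtain ⟨t, rfl⟩ := hqw
  rw [pow_mul, inv_pow, hq, inv_one, one_pow, one_smul]
  exact Equiv.prod_comp s (fun i => e2 i φ)

theorem monInv_add {m q : ℕ} {p p' : Rx ι} (h : monInv m q p) (h' : monInv m q p') : monInv m q (p + p') := by
  intro s ε hm hq
  rw [map_add, h s ε hm hq, h' s ε hm hq]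

theorem monInv_smul {m q : ℕ} {p : Rx ι} (c : ℂ) (h : monInv m q p) : monInv m q (c • p) := by
  intro s ε hm hq
  rw [map_smul, h s ε hm hq]

end

section

variable {κ : Type} [Fintype κ] [DecidableEq κ] {Z : Type} [Fintype Z] [DecidableEq Z]

/-- the restriction in the model: `V` has the coordinates `(j,k)` (`j ∈ κ`, `k < d`) and `Z`; on `U`: `x_{(j,k)} = c^k u_j`,
`ξ_{(j,k)} = c^{-k} υ_j / d`, `x_z = 0`, `ξ_z = 0`. -/
noncomputable def resM (κ Z : Type) (d : ℕ) (c : ℂ) : Rx ((κ × Fin d) ⊕ Z) →ₐ[ℂ] Rx κ :=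
  MvPolynomial.aevalTower ((Algebra.algHom ℂ (Px κ) (Rx κ)).comp
      (aeval (Sum.elim (fun jk => (c ^ (jk.2 : ℕ) • X jk.1 : Px κ)) (fun _ => 0))))
    (Sum.elim (fun jk => (((c ^ (jk.2 : ℕ))⁻¹ * (d : ℂ)⁻¹) • X jk.1 : Rx κ)) (fun _ => 0))

theorem resM_e2_inl (d : ℕ) (c : ℂ) (jk : κ × Fin d) (φ : P2) :
    resM κ Z d c (e2 (Sum.inl jk) φ) = e2 jk.1 (sc2 (c ^ (jk.2 : ℕ)) ((c ^ (jk.2 : ℕ))⁻¹ * (d : ℂ)⁻¹) φ) := by
  have h2 : (resM κ Z d c).comp (e2 (Sum.inl jk))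
      = (e2 jk.1).comp (sc2 (c ^ (jk.2 : ℕ)) ((c ^ (jk.2 : ℕ))⁻¹ * (d : ℂ)⁻¹)) := by
    apply MvPolynomial.algHom_ext
    intro j
    fin_cases j
    · show resM κ Z d c (e2 (Sum.inl jk) (X 0)) = e2 jk.1 (sc2 _ _ (X 0))
      rw [e2, sc2, aeval_X, aeval_X]
      show resM κ Z d c (C (X (Sum.inl jk))) = e2 jk.1 (c ^ (jk.2 : ℕ) • X 0)
      rw [resM, MvPolynomial.aevalTower_C, map_smul, e2, aeval_X]
      show C (aeval _ (X (Sum.inl jk))) = c ^ (jk.2 : ℕ) • (C (X jk.1) : Rx κ)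
      rw [aeval_X]
      show C (c ^ (jk.2 : ℕ) • X jk.1 : Px κ) = _
      exact map_smul (Algebra.algHom ℂ (Px κ) (Rx κ)) _ _
    · show resM κ Z d c (e2 (Sum.inl jk) (X 1)) = e2 jk.1 (sc2 _ _ (X 1))
      rw [e2, sc2, aeval_X, aeval_X]
      show resM κ Z d c (X (Sum.inl jk)) = e2 jk.1 (((c ^ (jk.2 : ℕ))⁻¹ * (d : ℂ)⁻¹) • X 1)
      rw [resM, MvPolynomial.aevalTower_X, map_smul, e2, aeval_X]
      rfl
  have h3 := DFunLike.congr_fun h2 φ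
  rw [AlgHom.comp_apply, AlgHom.comp_apply] at h3
  exact h3

theorem resM_e2_inr (d : ℕ) (c : ℂ) (z : Z) (φ : P2) :
    resM κ Z d c (e2 (Sum.inr z) φ) = C (C (coeff 0 φ)) := by
  have h2 : (resM κ Z d c).comp (e2 (Sum.inr z)) = aeval (fun _ => (0 : Rx κ)) := by
    apply MvPolynomial.algHom_ext
    intro j
    fin_cases j
    · show resM κ Z d c (e2 (Sum.inr z) (X 0)) = aeval (fun _ => (0 : Rx κ)) (X 0)
      rw [e2, aeval_X, aeval_X]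
      show resM κ Z d c (C (X (Sum.inr z))) = 0
      rw [resM, MvPolynomial.aevalTower_C]
      show C (aeval _ (X (Sum.inr z))) = 0
      rw [aeval_X]
      show C (0 : Px κ) = 0
      exact map_zero _
    · show resM κ Z d c (e2 (Sum.inr z) (X 1)) = aeval (fun _ => (0 : Rx κ)) (X 1)
      rw [e2, aeval_X, aeval_X]
      show resM κ Z d c (X (Sum.inr z)) = 0
      rw [resM, MvPolynomial.aevalTower_X]
      rfl
  have h3 := DFunLike.congr_fun h2 φ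
  rw [AlgHom.comp_apply] at h3
  rw [h3, MvPolynomial.aeval_zero']
  rfl

/-- the restrictions of the invariants. -/
def ImM (κ Z : Type) [Fintype κ] [DecidableEq κ] [Fintype Z] [DecidableEq Z] (d : ℕ) (c : ℂ) (m q : ℕ) :
    Submodule ℂ (Rx κ) where
  carrier := {p | ∃ r : Rx ((κ × Fin d) ⊕ Z), monInv m q r ∧ resM κ Z d c r = p}
  add_mem' := by
    rintro _ _ ⟨r, hr, rfl⟩ ⟨r', hr', rfl⟩
    exact ⟨r + r', monInv_add hr hr', map_add _ _ _⟩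
  zero_mem' := ⟨0, fun s ε _ _ => map_zero _, map_zero _⟩
  smul_mem' := by
    rintro a _ ⟨r, hr, rfl⟩
    exact ⟨a • r, monInv_smul a hr, map_smul _ _ _⟩

/-- the norm: `∏_{k<d} φ(c^k x, c^{-k} ξ / d)`. -/
noncomputable def nm (d : ℕ) (c : ℂ) (φ : P2) : P2 :=
  ∏ k ∈ Finset.range d, sc2 (c ^ k) ((c ^ k)⁻¹ * (d : ℂ)⁻¹) φ

/-- the restriction of `∏ φ(x_i, ξ_i)` is `φ(0,0)^{|Z|} ∏_j (nm φ)(u_j, υ_j)`. -/
theorem resM_prod (d : ℕ) (c : ℂ) (φ : P2) :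
    resM κ Z d c (∏ i, e2 i φ) = (coeff 0 φ) ^ Fintype.card Z • ∏ j : κ, e2 j (nm d c φ) := by
  rw [map_prod, Fintype.prod_sum_type, Fintype.prod_prod_type]
  simp only [resM_e2_inl, resM_e2_inr]
  rw [Finset.prod_const, Finset.card_univ, mul_comm, Algebra.smul_def]
  congr 1
  · rw [map_pow]
    rfl
  · refine Finset.prod_congr rfl (fun j _ => ?_)
    rw [nm, Finset.prod_range, map_prod]

theorem prod_nm_mem (d : ℕ) (c : ℂ) {m q w : ℕ} (hqw : q ∣ w) {φ : P2} (hφ : Wt m w φ) :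
    (coeff 0 φ) ^ Fintype.card Z • ∏ j : κ, e2 j (nm d c φ) ∈ ImM κ Z d c m q := by
  exact ⟨∏ i, e2 i φ, monInv_prod hqw hφ, resM_prod d c φ⟩

end

end Pool.Agent.CM64
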