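import Pool.Agent.LibCM64.GmB

/-! `G(m,p,n)`: all the products `∏_j ψ(u_j, υ_j)` are restrictions of invariants. -/

set_option linter.unusedSectionVars false

namespace Pool.Agent.CM64

open MvPolynomial

section

variable {κ : Type} [Fintype κ] [DecidableEq κ] {Z : Type} [Fintype Z] [DecidableEq Z]
variable {m q d : ℕ} {c : ℂ}

private theorem gmc_sc2_X0 (a b : ℂ) : sc2 a b (X 0) = a • X 0 := by
  rw [sc2, aeval_X]
  rfl

private theorem gmc_sc2_X1 (a b : ℂ) : sc2 a b (X 1) = b • X 1 := by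
  rw [sc2, aeval_X]
  rfl

/-- `sc2` composes. -/
theorem sc2_sc2 (a b a' b' : ℂ) (φ : P2) : sc2 a b (sc2 a' b' φ) = sc2 (a * a') (b * b') φ := by
  have h : (sc2 a b).comp (sc2 a' b') = sc2 (a * a') (b * b') := by
    apply MvPolynomial.algHom_ext
    intro i
    fin_cases i
    · show sc2 a b (sc2 a' b' (X 0)) = sc2 (a * a') (b * b') (X 0)
      rw [gmc_sc2_X0, map_smul, gmc_sc2_X0, gmc_sc2_X0, smul_smul, mul_comm]
    · show sc2 a b (sc2 a' b' (X 1)) = sc2 (a * a') (b * b') (X 1)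
      rw [gmc_sc2_X1, map_smul, gmc_sc2_X1, gmc_sc2_X1, smul_smul, mul_comm]
  rw [← h, AlgHom.comp_apply]

theorem sc2_one (φ : P2) : sc2 1 1 φ = φ := by
  have h : sc2 1 1 = AlgHom.id ℂ P2 := by
    apply MvPolynomial.algHom_ext
    intro i
    fin_cases i
    · show sc2 1 1 (X 0) = X 0
      rw [gmc_sc2_X0, one_smul]
    · show sc2 1 1 (X 1) = X 1
      rw [gmc_sc2_X1, one_smul]
  rw [h, AlgHom.id_apply]

theorem Wt_mul {M w w' : ℕ} {φ φ' : P2} (h : Wt M w φ) (h' : Wt M w' φ') : Wt M (w + w') (φ * φ') := by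
  intro ζ hζ
  rw [map_mul, h ζ hζ, h' ζ hζ, smul_mul_smul_comm, ← pow_add]

theorem Wt_add {M w : ℕ} {φ φ' : P2} (h : Wt M w φ) (h' : Wt M w φ') : Wt M w (φ + φ') := by
  intro ζ hζ
  rw [map_add, h ζ hζ, h' ζ hζ, smul_add]

theorem Wt_smul {M w : ℕ} {φ : P2} (a : ℂ) (h : Wt M w φ) : Wt M w (a • φ) := by
  intro ζ hζ
  rw [map_smul, h ζ hζ, smul_comm]

theorem Wt_one (M : ℕ) : Wt M 0 1 := by
  intro ζ _
  rw [map_one, pow_zero, one_smul]

theorem Wt_pow {M w : ℕ} {φ : P2} (h : Wt M w φ) (n : ℕ) : Wt M (n * w) (φ ^ n) := by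
  induction n with
  | zero =>
    rw [zero_mul, pow_zero]
    exact Wt_one M
  | succ n ih =>
    rw [Nat.succ_mul, pow_succ]
    exact Wt_mul ih h

/-- weight `M` is the same as weight `0`. -/
theorem Wt_mod {M w w' : ℕ} {φ : P2} (h : Wt M w φ) (hw : w ≡ w' [MOD M]) : Wt M w' φ := by
  intro ζ hζ
  have h1 : ζ ^ w = ζ ^ w' := by
    rw [pow_eq_pow_mod w hζ, pow_eq_pow_mod w' hζ]
    exact congrArg (fun n => ζ ^ n) hw
  rw [h ζ hζ, h1]

theorem Wt_X0 (M w : ℕ) : Wt M w ((X 0 : P2) ^ w) := by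
  intro ζ _
  rw [map_pow, gmc_sc2_X0, smul_pow]

/-- `ξ^{M-w}` has weight `w`. -/
theorem Wt_X1 {M w : ℕ} (hw : w ≤ M) : Wt M w ((X 1 : P2) ^ (M - w)) := by
  intro ζ hζ
  have h1 : ζ ^ w * ζ ^ (M - w) = 1 := by rw [← pow_add, Nat.add_sub_cancel' hw, hζ]
  have h2 : (ζ⁻¹) ^ (M - w) = ζ ^ w := by
    rw [inv_pow]
    exact (eq_inv_of_mul_eq_one_left h1).symm
  rw [map_pow, gmc_sc2_X1, smul_pow, h2]

/-- if `φ` has weight `0` for `μ_{md}` then it is invariant under `(x,ξ) ↦ (c^k x, c^{-k} ξ)` and has weight `0` for `μ_m`. -/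
theorem Wt_of_dvd {φ : P2} (h : Wt (m * d) 0 φ) : Wt m 0 φ := by
  intro ζ hζ
  exact h ζ (by rw [pow_mul, hζ, one_pow])

private theorem gmc_coeff_sc2 (a b : ℂ) (φ : P2) : coeff 0 (sc2 a b φ) = coeff 0 φ := by
  have h : (constantCoeff : P2 →+* ℂ).comp (sc2 a b : P2 →+* P2) = constantCoeff := by
    apply MvPolynomial.ringHom_ext
    · intro r
      show constantCoeff (sc2 a b (C r)) = constantCoeff (C r)
      have : sc2 a b (C r) = C r := (sc2 a b).commutes r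
      rw [this]
    · intro i
      fin_cases i
      · show constantCoeff (sc2 a b (X 0)) = constantCoeff (X 0)
        rw [gmc_sc2_X0, constantCoeff_smul, constantCoeff_X, smul_zero]
      · show constantCoeff (sc2 a b (X 1)) = constantCoeff (X 1)
        rw [gmc_sc2_X1, constantCoeff_smul, constantCoeff_X, smul_zero]
  exact congrArg (fun f => f φ) h

/-- the norm of `h_1 κ_1 x^w + h_2 κ_2 ξ^{m-w}` (`h_1, h_2` invariant under `μ_{md}`): up to a nonzero constant it is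
`κ_1^d h_1'^d x^{wd} - (-κ_2)^d h_2'^d (ξ/d)^{(m-w)d}`, `h'(x,ξ) = h(x,ξ/d)`; all cross terms vanish (`prod_root` with
`ε = c^m`). Given `a_1, a_2 : P2` invariant under `μ_{md}` there is `φ` of weight `w` and a nonzero constant `η` with
`nm φ = η (a_1^d x^{wd} + a_2^d ξ^{(m-w)d})`, and `coeff 0 φ = coeff 0 a_1` if `w = 0`. -/
theorem exists_nm (hm : 0 < m) (hd : 0 < d) (hc : IsPrimitiveRoot (c ^ m) d) {w : ℕ} (hw : w < m) :
    ∃ η : ℂ, η ≠ 0 ∧ ∀ a₁ a₂ : P2, Wt (m * d) 0 a₁ → Wt (m * d) 0 a₂ → ∃ φ : P2, Wt m w φ ∧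
      (w = 0 → coeff 0 φ = coeff 0 a₁) ∧
      nm d c φ = η • (a₁ ^ d * X 0 ^ (w * d) + a₂ ^ d * X 1 ^ ((m - w) * d)) := by
  classical
  have hd0 : (d : ℂ) ≠ 0 := by exact_mod_cast hd.ne'
  have hcm : c ^ (m * d) = 1 := by rw [pow_mul, hc.pow_eq_one]
  have hc0 : c ≠ 0 := by
    rintro rfl
    rw [zero_pow (Nat.mul_pos hm hd).ne'] at hcm
    exact zero_ne_one hcm
  obtain ⟨ρ, hρ⟩ := IsAlgClosed.exists_pow_nat_eq (-1 : ℂ) hd
  have hη : (∏ k ∈ Finset.range d, c ^ (k * w)) ≠ 0 :=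
    Finset.prod_ne_zero_iff.2 (fun k _ => pow_ne_zero _ hc0)
  refine ⟨∏ k ∈ Finset.range d, c ^ (k * w), hη, fun a₁ a₂ h₁ h₂ => ?_⟩
  have hsc : ∀ a : P2, Wt (m * d) 0 a → Wt m 0 (sc2 1 (d : ℂ) a) := by
    intro a ha ζ hζ
    have h3 := Wt_of_dvd ha ζ hζ
    rw [sc2_sc2, mul_comm ζ 1, mul_comm ζ⁻¹ (d : ℂ), ← sc2_sc2, h3, map_smul]
  have hsc' : ∀ (a : P2) (k : ℕ), Wt (m * d) 0 a →
      sc2 (c ^ k) ((c ^ k)⁻¹ * (d : ℂ)⁻¹) (sc2 1 (d : ℂ) a) = a := by
    intro a k ha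
    have h3 := ha (c ^ k) (by rw [← pow_mul, mul_comm, pow_mul, hcm, one_pow])
    rw [sc2_sc2, mul_one, mul_assoc, inv_mul_cancel₀ hd0, mul_one, h3, pow_zero, one_smul]
  refine ⟨sc2 1 (d : ℂ) a₁ * X 0 ^ w + (-(d : ℂ) ^ (m - w) * ρ) • (sc2 1 (d : ℂ) a₂ * X 1 ^ (m - w)), ?_, ?_, ?_⟩
  · refine Wt_add ?_ (Wt_smul _ ?_)
    · have h3 := Wt_mul (hsc a₁ h₁) (Wt_X0 m w)
      rwa [zero_add] at h3
    · have h3 := Wt_mul (hsc a₂ h₂) (Wt_X1 (M := m) hw.le)
      rwa [zero_add] at h3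
  · intro hw0
    subst hw0
    rw [pow_zero, mul_one, coeff_add, gmc_coeff_sc2, coeff_smul]
    have h3 : coeff 0 (sc2 1 (d : ℂ) a₂ * X 1 ^ (m - 0)) = 0 := by
      show constantCoeff _ = 0
      rw [map_mul, map_pow, constantCoeff_X, Nat.sub_zero, zero_pow hm.ne', mul_zero]
    rw [h3, smul_zero, add_zero]
  · have hk : ∀ k ∈ Finset.range d, sc2 (c ^ k) ((c ^ k)⁻¹ * (d : ℂ)⁻¹)
        (sc2 1 (d : ℂ) a₁ * X 0 ^ w + (-(d : ℂ) ^ (m - w) * ρ) • (sc2 1 (d : ℂ) a₂ * X 1 ^ (m - w)))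
        = C (c ^ (k * w)) * (a₁ * X 0 ^ w
          + algebraMap ℂ P2 (((c ^ m) ^ k)⁻¹) * (C (-ρ) * (a₂ * X 1 ^ (m - w)))) := by
      intro k _
      rw [map_add, map_smul, map_mul, map_mul, hsc' a₁ k h₁, hsc' a₂ k h₂, map_pow, map_pow, gmc_sc2_X0, gmc_sc2_X1,
        smul_pow, smul_pow]
      have h4 : ((c ^ k) ^ w : ℂ) = c ^ (k * w) := by rw [← pow_mul]
      have h5 : ((c ^ k)⁻¹ * (d : ℂ)⁻¹) ^ (m - w) * (-(d : ℂ) ^ (m - w) * ρ)
          = c ^ (k * w) * (((c ^ m) ^ k)⁻¹ * (-ρ)) := by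
        have h6 : c ^ (k * w) * ((c ^ m) ^ k)⁻¹ = ((c ^ k)⁻¹) ^ (m - w) := by
          rw [← pow_mul, inv_pow, ← pow_mul]
          have h7 : m * k = k * w + k * (m - w) := by
            rw [← Nat.mul_add, Nat.add_sub_cancel' hw.le, mul_comm]
          rw [h7, pow_add, mul_inv, ← mul_assoc, mul_inv_cancel₀ (pow_ne_zero _ hc0), one_mul]
        rw [← mul_assoc (c ^ (k * w)), h6, mul_pow, inv_pow (d : ℂ)]
        have h8 : (d : ℂ) ^ (m - w) ≠ 0 := pow_ne_zero _ hd0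
        field_simp
      rw [h4, mul_smul_comm, mul_smul_comm, smul_smul, mul_comm (-(d : ℂ) ^ (m - w) * ρ), h5, smul_eq_C_mul,
        smul_eq_C_mul, mul_add]
      show _ = _ + C (c ^ (k * w)) * (C (((c ^ m) ^ k)⁻¹) * (C (-ρ) * (a₂ * X 1 ^ (m - w))))
      rw [← mul_assoc (C (((c ^ m) ^ k)⁻¹)), ← C_mul, ← mul_assoc (C (c ^ (k * w))) (C _), ← C_mul]
    have h9 : (-ρ) ^ d * (-1 : ℂ) ^ d = -1 := by
      rw [← mul_pow, neg_mul_neg, mul_one, hρ]
    rw [nm, Finset.prod_congr rfl hk, Finset.prod_mul_distrib, prod_root hd hc, ← map_prod, smul_eq_C_mul]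
    congr 1
    have h10 : (-(C (-ρ) * (a₂ * X 1 ^ (m - w)))) ^ d = -(a₂ ^ d * X 1 ^ ((m - w) * d) : P2) := by
      have h11 : -(C (-ρ) * (a₂ * X 1 ^ (m - w))) = C (-ρ * (-1)) * (a₂ * X 1 ^ (m - w)) := by
        rw [mul_neg, mul_one, neg_neg, C_neg]
        ring
      rw [h11, mul_pow, ← C_pow, mul_pow (-ρ) (-1), h9, mul_pow, ← pow_mul, C_neg, C_1]
      ring
    rw [h10, mul_pow, ← pow_mul, sub_neg_eq_add]

/-- `∏_j (a_1^d u^{wd} + a_2^d υ^{(m-w)d})(u_j, υ_j)` is a restriction if `Z` is empty (or if `w = 0` and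
`coeff 0 a_1 = 1`). -/
theorem prod_pow_mem (hm : 0 < m) (hd : 0 < d) (hc : IsPrimitiveRoot (c ^ m) d) {w : ℕ} (hw : w < m) (hqw : q ∣ w)
    {a₁ a₂ : P2} (h₁ : Wt (m * d) 0 a₁) (h₂ : Wt (m * d) 0 a₂)
    (hZ : IsEmpty Z ∨ (w = 0 ∧ coeff 0 a₁ = 1)) :
    ∏ j : κ, e2 j (a₁ ^ d * X 0 ^ (w * d) + a₂ ^ d * X 1 ^ ((m - w) * d)) ∈ ImM κ Z d c m q := by
  classical
  obtain ⟨η, hη, h3⟩ := exists_nm hm hd hc hw
  obtain ⟨φ, hφ, hφ0, hnm⟩ := h3 a₁ a₂ h₁ h₂
  have h4 := prod_nm_mem (κ := κ) (Z := Z) d c hqw hφ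
  have h5 : (coeff 0 φ) ^ Fintype.card Z = 1 := by
    rcases hZ with hZ | ⟨hw0, ha⟩
    · rw [Fintype.card_eq_zero, pow_zero]
    · rw [hφ0 hw0, ha, one_pow]
  rw [h5, one_smul, hnm] at h4
  have h6 : ∏ j : κ, e2 j (η • (a₁ ^ d * X 0 ^ (w * d) + a₂ ^ d * X 1 ^ ((m - w) * d)))
      = η ^ Fintype.card κ • ∏ j : κ, e2 j (a₁ ^ d * X 0 ^ (w * d) + a₂ ^ d * X 1 ^ ((m - w) * d)) := by
    have h7 : ∀ j : κ, e2 j (η • (a₁ ^ d * X 0 ^ (w * d) + a₂ ^ d * X 1 ^ ((m - w) * d)))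
        = η • e2 j (a₁ ^ d * X 0 ^ (w * d) + a₂ ^ d * X 1 ^ ((m - w) * d)) := fun j => map_smul _ _ _
    rw [Finset.prod_congr rfl (fun j _ => h7 j), Finset.prod_smul, Finset.prod_const, Finset.card_univ]
  rw [h6] at h4
  have h8 := (ImM κ Z d c m q).smul_mem ((η ^ Fintype.card κ)⁻¹) h4
  rwa [smul_smul, inv_mul_cancel₀ (pow_ne_zero _ hη), one_smul] at h8

/-- truncation of a product. -/
private theorem gmc_trunc {κ R : Type} [Fintype κ] [CommRing R] (N : ℕ) (G L : κ → Polynomial R)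
    (h : ∀ j, (Polynomial.X : Polynomial R) ^ (N + 1) ∣ G j - L j) {n : ℕ} (hn : n ≤ N) :
    (∏ j, G j).coeff n = (∏ j, L j).coeff n := by
  have h1 : Ideal.Quotient.mk (Ideal.span {(Polynomial.X : Polynomial R) ^ (N + 1)}) (∏ j, G j)
      = Ideal.Quotient.mk (Ideal.span {(Polynomial.X : Polynomial R) ^ (N + 1)}) (∏ j, L j) := by
    rw [map_prod, map_prod]
    refine Finset.prod_congr rfl (fun j _ => ?_)
    rw [Ideal.Quotient.eq, Ideal.mem_span_singleton]
    exact h j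
  rw [Ideal.Quotient.eq, Ideal.mem_span_singleton, Polynomial.X_pow_dvd_iff] at h1
  have h2 := h1 n (by omega)
  rw [Polynomial.coeff_sub, sub_eq_zero] at h2
  exact h2

/-- a truncated root evaluated at a multiple of the variable. -/
private theorem gmc_root {R : Type} [CommRing R] [Algebra ℂ R] {N d : ℕ} {H : Polynomial ℂ}
    (hH : (Polynomial.X : Polynomial ℂ) ^ (N + 1) ∣ H ^ d - (1 + Polynomial.X)) (β : R) :
    (Polynomial.X : Polynomial R) ^ (N + 1) ∣
      (Polynomial.aeval (Polynomial.C β * Polynomial.X : Polynomial R) H) ^ d - (1 + Polynomial.C β * Polynomial.X) := by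
  obtain ⟨Q, hQ⟩ := hH
  have h1 := congrArg (Polynomial.aeval (Polynomial.C β * Polynomial.X : Polynomial R)) hQ
  rw [map_sub, map_pow, map_add, map_one, Polynomial.aeval_X, map_mul, map_pow, Polynomial.aeval_X, mul_pow] at h1
  rw [h1]
  exact ⟨Polynomial.C β ^ (N + 1) * Polynomial.aeval (Polynomial.C β * Polynomial.X : Polynomial R) Q, by ring⟩

/-- evaluation of the family. -/
private theorem gmc_eval {R : Type} [CommRing R] [Algebra ℂ R] (H : Polynomial ℂ) (β : R) (t : ℂ) :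
    (Polynomial.aeval (Polynomial.C β * Polynomial.X : Polynomial R) H).eval (algebraMap ℂ R t)
      = Polynomial.aeval (t • β) H := by
  have h : ((Polynomial.aeval (algebraMap ℂ R t) : Polynomial R →ₐ[R] R).restrictScalars ℂ).comp
      (Polynomial.aeval (Polynomial.C β * Polynomial.X : Polynomial R)) = Polynomial.aeval (t • β) := by
    apply Polynomial.algHom_ext
    rw [AlgHom.comp_apply, Polynomial.aeval_X, Polynomial.aeval_X]
    show Polynomial.aeval (algebraMap ℂ R t) (Polynomial.C β * Polynomial.X : Polynomial R) = t • β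
    rw [map_mul, Polynomial.aeval_C, Polynomial.aeval_X, Algebra.smul_def, mul_comm]
    rfl
  have h2 := congrArg (fun f => f H) h
  exact h2

/-- `H(s b)` has weight `0`. -/
private theorem gmc_Wt_aeval {M : ℕ} {b : P2} (h : Wt M 0 b) (t : ℂ) (H : Polynomial ℂ) :
    Wt M 0 (Polynomial.aeval (t • b) H) := by
  intro ζ hζ
  have h1 := h ζ hζ
  rw [pow_zero, one_smul] at h1 ⊢
  have h2 : (sc2 ζ ζ⁻¹).comp (Polynomial.aeval (t • b)) = Polynomial.aeval (t • b) := by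
    apply Polynomial.algHom_ext
    rw [AlgHom.comp_apply, Polynomial.aeval_X, map_smul, h1]
  exact congrArg (fun f => f H) h2

/-- `Z` empty: for `b_1, b_2` invariant under `μ_{md}`, `∏_j (b_1 u^{wd} + b_2 υ^{(m-w)d})(u_j, υ_j)` is a restriction: take
`H` with `X^{r+1} ∣ H^d - (1 + X)` (`r = |κ|`, `exists_root_trunc`), `a_i = H(s b_i)`; the coefficient of `s^r` in
`∏_j (a_1^d u^{wd} + a_2^d υ^{(m-w)d})` is the product in question (`coeff_mem_of_forall_eval`). -/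
theorem prod_lin_mem (hm : 0 < m) (hd : 0 < d) (hc : IsPrimitiveRoot (c ^ m) d) {w : ℕ} (hw : w < m) (hqw : q ∣ w)
    [IsEmpty Z] {b₁ b₂ : P2} (h₁ : Wt (m * d) 0 b₁) (h₂ : Wt (m * d) 0 b₂) :
    ∏ j : κ, e2 j (b₁ * X 0 ^ (w * d) + b₂ * X 1 ^ ((m - w) * d)) ∈ ImM κ Z d c m q := by
  classical
  obtain ⟨H, _, hH⟩ := exists_root_trunc d hd (Fintype.card κ)
  let F : κ → Polynomial (Rx κ) := fun j =>
    (Polynomial.aeval (Polynomial.C (e2 j b₁) * Polynomial.X : Polynomial (Rx κ)) H) ^ d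
        * Polynomial.C (e2 j (X 0 ^ (w * d)))
      + (Polynomial.aeval (Polynomial.C (e2 j b₂) * Polynomial.X : Polynomial (Rx κ)) H) ^ d
        * Polynomial.C (e2 j (X 1 ^ ((m - w) * d)))
  let L : κ → Polynomial (Rx κ) := fun j =>
    Polynomial.C (e2 j (X 0 ^ (w * d)) + e2 j (X 1 ^ ((m - w) * d)))
      + Polynomial.C (e2 j (b₁ * X 0 ^ (w * d) + b₂ * X 1 ^ ((m - w) * d))) * Polynomial.X
  have hFL : ∀ j, (Polynomial.X : Polynomial (Rx κ)) ^ (Fintype.card κ + 1) ∣ F j - L j := by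
    intro j
    have h3 := gmc_root (R := Rx κ) hH (e2 j b₁)
    have h4 := gmc_root (R := Rx κ) hH (e2 j b₂)
    have h5 : F j - L j = ((Polynomial.aeval (Polynomial.C (e2 j b₁) * Polynomial.X : Polynomial (Rx κ)) H) ^ d
          - (1 + Polynomial.C (e2 j b₁) * Polynomial.X)) * Polynomial.C (e2 j (X 0 ^ (w * d)))
        + ((Polynomial.aeval (Polynomial.C (e2 j b₂) * Polynomial.X : Polynomial (Rx κ)) H) ^ d
          - (1 + Polynomial.C (e2 j b₂) * Polynomial.X)) * Polynomial.C (e2 j (X 1 ^ ((m - w) * d))) := by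
      show _ * _ + _ * _ - (Polynomial.C (_ + _) + Polynomial.C (e2 j (b₁ * X 0 ^ (w * d) + b₂ * X 1 ^ ((m - w) * d)))
        * Polynomial.X) = _
      rw [map_add (e2 j), map_mul (e2 j), map_mul (e2 j), Polynomial.C_add, Polynomial.C_add, Polynomial.C_mul,
        Polynomial.C_mul]
      ring
    rw [h5]
    exact dvd_add (Dvd.dvd.mul_right h3 _) (Dvd.dvd.mul_right h4 _)
  have hmem := coeff_mem_of_forall_eval (ImM κ Z d c m q) (∏ j, F j) (by
    intro t
    have h3 := prod_pow_mem (κ := κ) (Z := Z) hm hd hc hw hqw (gmc_Wt_aeval h₁ t H) (gmc_Wt_aeval h₂ t H)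
      (Or.inl inferInstance)
    rw [Polynomial.eval_prod]
    have h4 : ∀ j : κ, (F j).eval (algebraMap ℂ (Rx κ) t) = e2 j ((Polynomial.aeval (t • b₁) H) ^ d * X 0 ^ (w * d)
        + (Polynomial.aeval (t • b₂) H) ^ d * X 1 ^ ((m - w) * d)) := by
      intro j
      show Polynomial.eval _ (_ * _ + _ * _) = _
      rw [Polynomial.eval_add, Polynomial.eval_mul, Polynomial.eval_mul, Polynomial.eval_pow, Polynomial.eval_pow,
        Polynomial.eval_C, Polynomial.eval_C, gmc_eval, gmc_eval, map_add, map_mul, map_mul, map_pow (e2 j) _ d,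
        map_pow (e2 j) _ d, ← Polynomial.aeval_algHom_apply, ← Polynomial.aeval_algHom_apply, map_smul, map_smul]
    rw [Finset.prod_congr rfl (fun j _ => h4 j)]
    exact h3) (Fintype.card κ)
  rw [gmc_trunc (Fintype.card κ) F L hFL le_rfl] at hmem
  have h6 := Polynomial.coeff_prod_of_natDegree_le (s := Finset.univ) L 1 (by
    intro j _
    show Polynomial.natDegree (Polynomial.C _ + Polynomial.C _ * Polynomial.X) ≤ 1
    rw [add_comm]
    exact Polynomial.natDegree_linear_le)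
  rw [mul_one, Finset.card_univ] at h6
  rw [h6] at hmem
  have h7 : ∀ j : κ, (L j).coeff 1 = e2 j (b₁ * X 0 ^ (w * d) + b₂ * X 1 ^ ((m - w) * d)) := by
    intro j
    show Polynomial.coeff (Polynomial.C _ + Polynomial.C _ * Polynomial.X) 1 = _
    rw [Polynomial.coeff_add, Polynomial.coeff_C_succ, Polynomial.coeff_C_mul_X, zero_add, if_pos rfl]
  rw [Finset.prod_congr rfl (fun j _ => h7 j)] at hmem
  exact hmem

/-- `w = 0`, any `Z`: for `b` invariant under `μ_{md}`, `∏_j b(u_j, υ_j)` is a restriction: first `b = α + b'` with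
`b'(0,0) = 0`: `a_1 = H(s b')`, `a_2 = 0` gives that the coefficients of `∏_j (1 + s b')(u_j,υ_j)` are restrictions
(`coeff 0 (a_1) = 1`), and `∏_j (α + b')(u_j,υ_j) = ∑_k α^{r-k} (coefficient of s^k)`. -/
theorem prod_zero_mem (hm : 0 < m) (hd : 0 < d) (hc : IsPrimitiveRoot (c ^ m) d)
    {b : P2} (h : Wt (m * d) 0 b) : ∏ j : κ, e2 j b ∈ ImM κ Z d c m q := by
  classical
  obtain ⟨H, hH0, hH⟩ := exists_root_trunc d hd (Fintype.card κ)
  let b' : P2 := b - C (coeff 0 b)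
  have hb' : Wt (m * d) 0 b' := by
    have h3 := Wt_add h (Wt_smul (-(coeff 0 b)) (Wt_one (m * d)))
    have h4 : b + -(coeff 0 b) • (1 : P2) = b' := by
      show _ = b - C (coeff 0 b)
      rw [neg_smul, smul_eq_C_mul, mul_one, sub_eq_add_neg]
    rwa [h4] at h3
  have hb0 : coeff 0 b' = 0 := by
    show coeff 0 (b - C (coeff 0 b)) = 0
    rw [coeff_sub, coeff_zero_C, sub_self]
  let F : κ → Polynomial (Rx κ) := fun j =>
    (Polynomial.aeval (Polynomial.C (e2 j b') * Polynomial.X : Polynomial (Rx κ)) H) ^ d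
  let L : κ → Polynomial (Rx κ) := fun j => Polynomial.C 1 + Polynomial.C (e2 j b') * Polynomial.X
  have hFL : ∀ j, (Polynomial.X : Polynomial (Rx κ)) ^ (Fintype.card κ + 1) ∣ F j - L j := by
    intro j
    exact gmc_root (R := Rx κ) hH (e2 j b')
  have hc0 : ∀ t : ℂ, coeff 0 (Polynomial.aeval (t • b') H) = 1 := by
    intro t
    have h3 : constantCoeff (Polynomial.aeval (t • b') H) = Polynomial.eval 0 H := by
      have h5 : (constantCoeff (R := ℂ) (σ := Fin 2)).comp ((Polynomial.aeval (t • b') : Polynomial ℂ →ₐ[ℂ] P2) :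
          Polynomial ℂ →+* P2) = Polynomial.evalRingHom 0 := by
        apply Polynomial.ringHom_ext
        · intro r
          show constantCoeff (Polynomial.aeval (t • b') (Polynomial.C r)) = Polynomial.eval 0 (Polynomial.C r)
          rw [Polynomial.aeval_C, Polynomial.eval_C]
          exact constantCoeff_C (σ := Fin 2) r
        · show constantCoeff (Polynomial.aeval (t • b') Polynomial.X) = Polynomial.eval 0 Polynomial.X
          rw [Polynomial.aeval_X, Polynomial.eval_X, constantCoeff_smul]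
          show t • coeff 0 b' = 0
          rw [hb0, smul_zero]
      exact congrArg (fun f => f H) h5
    have h6 : coeff 0 (Polynomial.aeval (t • b') H) = constantCoeff (Polynomial.aeval (t • b') H) := rfl
    rw [h6, h3, ← Polynomial.coeff_zero_eq_eval_zero, hH0]
  have hmem : ∀ n ≤ Fintype.card κ, (∏ j, L j).coeff n ∈ ImM κ Z d c m q := by
    intro n hn
    rw [← gmc_trunc (Fintype.card κ) F L hFL hn]
    refine coeff_mem_of_forall_eval (ImM κ Z d c m q) (∏ j, F j) (fun t => ?_) n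
    have h3 := prod_pow_mem (κ := κ) (Z := Z) (w := 0) (a₂ := 0) hm hd hc hm (dvd_zero q) (gmc_Wt_aeval hb' t H)
      (fun ζ _ => by rw [map_zero, smul_zero]) (Or.inr ⟨rfl, hc0 t⟩)
    rw [Polynomial.eval_prod]
    have h4 : ∀ j : κ, (F j).eval (algebraMap ℂ (Rx κ) t) = e2 j ((Polynomial.aeval (t • b') H) ^ d * X 0 ^ (0 * d)
        + (0 : P2) ^ d * X 1 ^ ((m - 0) * d)) := by
      intro j
      show Polynomial.eval _ (_ ^ d) = _
      rw [Polynomial.eval_pow, gmc_eval, zero_pow hd.ne', zero_mul, pow_zero, zero_mul, add_zero, mul_one,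
        map_pow (e2 j) _ d, ← Polynomial.aeval_algHom_apply, map_smul]
    rw [Finset.prod_congr rfl (fun j _ => h4 j)]
    exact h3
  have hdeg : ∀ j ∈ (Finset.univ : Finset κ), (L j).natDegree ≤ 1 := by
    intro j _
    show Polynomial.natDegree (Polynomial.C _ + Polynomial.C _ * Polynomial.X) ≤ 1
    rw [add_comm]
    exact Polynomial.natDegree_linear_le
  have hb : ∀ j : κ, e2 j b = algebraMap ℂ (Rx κ) (coeff 0 b) + e2 j b' := by
    intro j
    have h3 : b = C (coeff 0 b) + b' := by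
      show b = C (coeff 0 b) + (b - C (coeff 0 b))
      ring
    conv_lhs => rw [h3]
    rw [map_add]
    congr 1
    exact (e2 j).commutes _
  by_cases hα : coeff 0 b = 0
  · have h6 := Polynomial.coeff_prod_of_natDegree_le (s := Finset.univ) L 1 hdeg
    rw [mul_one, Finset.card_univ] at h6
    have h7 : ∀ j : κ, (L j).coeff 1 = e2 j b := by
      intro j
      show Polynomial.coeff (Polynomial.C _ + Polynomial.C _ * Polynomial.X) 1 = _
      rw [Polynomial.coeff_add, Polynomial.coeff_C_succ, Polynomial.coeff_C_mul_X, zero_add, if_pos rfl, hb j, hα,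
        map_zero, zero_add]
    have h8 := hmem (Fintype.card κ) le_rfl
    rw [h6, Finset.prod_congr rfl (fun j _ => h7 j)] at h8
    exact h8
  · have h9 : ∏ j : κ, e2 j b = (coeff 0 b) ^ Fintype.card κ •
        (∏ j, L j).eval (algebraMap ℂ (Rx κ) (coeff 0 b)⁻¹) := by
      have h10 : ∀ j : κ, e2 j b = (coeff 0 b) • (L j).eval (algebraMap ℂ (Rx κ) (coeff 0 b)⁻¹) := by
        intro j
        have h11 : (L j).eval (algebraMap ℂ (Rx κ) (coeff 0 b)⁻¹)
            = 1 + e2 j b' * algebraMap ℂ (Rx κ) (coeff 0 b)⁻¹ := by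
          show Polynomial.eval _ (Polynomial.C _ + Polynomial.C _ * Polynomial.X) = _
          rw [Polynomial.eval_add, Polynomial.eval_C, Polynomial.eval_mul, Polynomial.eval_C, Polynomial.eval_X]
        rw [h11, hb j, Algebra.smul_def, mul_add, mul_one, mul_left_comm, ← map_mul, mul_inv_cancel₀ hα, map_one,
          mul_one]
      rw [Finset.prod_congr rfl (fun j _ => h10 j), Finset.prod_smul, Finset.prod_const, Finset.card_univ,
        Polynomial.eval_prod]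
    rw [h9]
    refine (ImM κ Z d c m q).smul_mem _ ?_
    have h12 : (∏ j, L j).natDegree ≤ Fintype.card κ := by
      refine (Polynomial.natDegree_prod_le _ _).trans ?_
      refine (Finset.sum_le_sum hdeg).trans ?_
      rw [Finset.sum_const, Finset.card_univ, smul_eq_mul, mul_one]
    rw [Polynomial.eval_eq_sum_range' (Nat.lt_succ_of_le h12)]
    refine Submodule.sum_mem _ (fun n hn => ?_)
    have h13 : (∏ j, L j).coeff n * algebraMap ℂ (Rx κ) (coeff 0 b)⁻¹ ^ n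
        = ((coeff 0 b)⁻¹ ^ n) • (∏ j, L j).coeff n := by
      rw [Algebra.smul_def, map_pow, mul_comm]
    rw [h13]
    exact (ImM κ Z d c m q).smul_mem _ (hmem n (Nat.lt_succ_iff.1 (Finset.mem_range.1 hn)))

end

end Pool.Agent.CM64
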