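import Pool.Agent.LibCM64.GmC

/-! `G(m,p,n)`: every polynomial on `U × U*` invariant under `W^τ` is a restriction (algebraic form). -/

set_option linter.unusedSectionVars false

namespace Pool.Agent.CM64

open MvPolynomial

section

variable {κ : Type} [Fintype κ] [DecidableEq κ] {Z : Type} [Fintype Z] [DecidableEq Z]
variable {m q d : ℕ} {c : ℂ}

private theorem gmd_sc2_X0 (a b : ℂ) : sc2 a b (X 0 : P2) = a • X 0 := by
  rw [sc2, aeval_X]
  rfl

private theorem gmd_sc2_X1 (a b : ℂ) : sc2 a b (X 1 : P2) = b • X 1 := by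
  rw [sc2, aeval_X]
  rfl

private theorem gmd_ne {M : ℕ} (hM : 0 < M) {ζ : ℂ} (h : ζ ^ M = 1) : ζ ≠ 0 := by
  rintro rfl
  rw [zero_pow hM.ne'] at h
  exact zero_ne_one h

private theorem gmd_wt_mono {M : ℕ} (hM : 0 < M) {a b : ℕ} (h : ((M : ℕ) : ℤ) ∣ (a : ℤ) - b) :
    Wt M 0 (X 0 ^ a * X 1 ^ b : P2) := by
  intro ζ hζ
  have hne := gmd_ne hM hζ
  rw [map_mul, map_pow, map_pow, gmd_sc2_X0, gmd_sc2_X1, smul_pow, smul_pow, smul_mul_smul_comm]
  congr 1
  obtain ⟨k, hk⟩ := h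
  have h1 : (ζ ^ a * ζ⁻¹ ^ b : ℂ) = ζ ^ ((a : ℤ) - b) := by
    rw [zpow_sub₀ hne, zpow_natCast, zpow_natCast, inv_pow]
    rfl
  rw [h1, hk, zpow_mul, zpow_natCast, hζ, one_zpow, pow_zero]

private theorem gmd_wt_zero {M w : ℕ} : Wt M w (0 : P2) := by
  intro ζ _
  rw [map_zero, smul_zero]

private theorem gmd_wt_sum {M w : ℕ} {α : Type} (A : Finset α) (f : α → P2) (h : ∀ j ∈ A, Wt M w (f j)) :
    Wt M w (∑ j ∈ A, f j) := by
  intro ζ hζ
  rw [map_sum, Finset.smul_sum]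
  exact Finset.sum_congr rfl (fun j hj => h j hj ζ hζ)

/-- a monomial `x^a ξ^b` with `a - b ≡ w d` modulo `m d`, `w < m`, is `b_1 x^{wd} + b_2 ξ^{(m-w)d}` with `b_1, b_2` invariant
under `μ_{md}` (one of them `0`): if `a ≥ b`, `a - b = w d + m d l` and `b_1 = (xξ)^b x^{mdl}`; if `a < b`,
`b - a = (m-w) d + m d l` and `b_2 = (xξ)^a ξ^{mdl}`. -/
theorem split_mono (hm : 0 < m) (hd : 0 < d) {w : ℕ} (hw : w < m) {a b : ℕ}
    (h : ((m * d : ℕ) : ℤ) ∣ (a : ℤ) - b - (w * d : ℕ)) :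
    ∃ b₁ b₂ : P2, Wt (m * d) 0 b₁ ∧ Wt (m * d) 0 b₂ ∧
      (X 0 ^ a * X 1 ^ b : P2) = b₁ * X 0 ^ (w * d) + b₂ * X 1 ^ ((m - w) * d) := by
  have hmd : 0 < m * d := Nat.mul_pos hm hd
  obtain ⟨k, hk⟩ := h
  have hwd : w * d < m * d := Nat.mul_lt_mul_of_pos_right hw hd
  rcases Nat.lt_or_ge a b with hab | hab
  · -- a < b
    have hk1 : k ≤ -1 := by
      by_contra hcon
      have hk0 : 0 ≤ k := by omega
      have h2 : (0 : ℤ) ≤ ((m * d : ℕ) : ℤ) * k := mul_nonneg (by positivity) hk0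
      have h3 : (a : ℤ) < b := by exact_mod_cast hab
      have h4 : (0 : ℤ) ≤ ((w * d : ℕ) : ℤ) := by positivity
      linarith
    obtain ⟨l, hl⟩ := Int.eq_ofNat_of_zero_le (show (0 : ℤ) ≤ -k - 1 by omega)
    have hb : b = a + (m * d * l + (m - w) * d) := by
      have e1 : (((m - w) * d : ℕ) : ℤ) = (m * d : ℕ) - (w * d : ℕ) := by
        rw [Nat.sub_mul, Nat.cast_sub hwd.le]
      have e2 : (k : ℤ) = -(l : ℤ) - 1 := by
        have : -k - 1 = (l : ℤ) := hl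
        omega
      have e3 : (b : ℤ) = a + ((m * d : ℕ) * (l : ℤ) + ((m - w) * d : ℕ)) := by
        rw [e1]
        rw [e2] at hk
        linear_combination -hk
      exact_mod_cast e3
    refine ⟨0, X 0 ^ a * X 1 ^ (a + m * d * l), gmd_wt_zero, ?_, ?_⟩
    · apply gmd_wt_mono hmd
      refine ⟨-(l : ℤ), ?_⟩
      push_cast
      ring
    · rw [zero_mul, zero_add, mul_assoc, ← pow_add, hb]
      congr 2
      ring
  · -- b ≤ a
    have hk1 : 0 ≤ k := by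
      by_contra hcon
      have hk0 : k ≤ -1 := by omega
      have h2 : ((m * d : ℕ) : ℤ) * k ≤ ((m * d : ℕ) : ℤ) * (-1) :=
        mul_le_mul_of_nonneg_left hk0 (by positivity)
      have h3 : (b : ℤ) ≤ a := by exact_mod_cast hab
      have h4 : ((w * d : ℕ) : ℤ) < ((m * d : ℕ) : ℤ) := by exact_mod_cast hwd
      linarith
    obtain ⟨l, rfl⟩ := Int.eq_ofNat_of_zero_le hk1
    have ha : a = b + m * d * l + w * d := by
      have e3 : (a : ℤ) = b + (m * d : ℕ) * (l : ℤ) + (w * d : ℕ) := by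
        linear_combination hk
      exact_mod_cast e3
    refine ⟨X 0 ^ (b + m * d * l) * X 1 ^ b, 0, ?_, gmd_wt_zero, ?_⟩
    · apply gmd_wt_mono hmd
      refine ⟨(l : ℤ), ?_⟩
      push_cast
      ring
    · rw [zero_mul, add_zero]
      conv_lhs => rw [ha]
      ring

/-- sums of such monomials. -/
theorem prod_sum_mem [IsEmpty Z] (hm : 0 < m) (hd : 0 < d) (hc : IsPrimitiveRoot (c ^ m) d) {w : ℕ} (hw : w < m)
    (hqw : q ∣ w) (a b : κ → ℕ) (h : ∀ j, ((m * d : ℕ) : ℤ) ∣ (a j : ℤ) - b j - (w * d : ℕ)) (A : Finset κ) :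
    ∏ k : κ, ∑ j ∈ A, e2 k (X 0 ^ a j * X 1 ^ b j : P2) ∈ ImM κ Z d c m q := by
  have h1 : ∀ j, ∃ b₁ b₂ : P2, Wt (m * d) 0 b₁ ∧ Wt (m * d) 0 b₂ ∧
      (X 0 ^ a j * X 1 ^ b j : P2) = b₁ * X 0 ^ (w * d) + b₂ * X 1 ^ ((m - w) * d) :=
    fun j => split_mono hm hd hw (h j)
  choose b₁ b₂ hb₁ hb₂ hb using h1
  have h2 := prod_lin_mem (κ := κ) (Z := Z) (q := q) hm hd hc hw hqw
    (gmd_wt_sum A b₁ (fun j _ => hb₁ j)) (gmd_wt_sum A b₂ (fun j _ => hb₂ j))
  have h3 : ∀ k : κ, ∑ j ∈ A, e2 k (X 0 ^ a j * X 1 ^ b j : P2) =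
      e2 k ((∑ j ∈ A, b₁ j) * X 0 ^ (w * d) + (∑ j ∈ A, b₂ j) * X 1 ^ ((m - w) * d)) := by
    intro k
    rw [← map_sum]
    congr 1
    rw [Finset.sum_mul, Finset.sum_mul, ← Finset.sum_add_distrib]
    exact Finset.sum_congr rfl (fun j _ => hb j)
  rw [Finset.prod_congr rfl (fun k _ => h3 k)]
  exact h2

theorem prod_sum_mem_zero (hm : 0 < m) (hd : 0 < d) (hc : IsPrimitiveRoot (c ^ m) d)
    (a b : κ → ℕ) (h : ∀ j, ((m * d : ℕ) : ℤ) ∣ (a j : ℤ) - b j) (A : Finset κ) :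
    ∏ k : κ, ∑ j ∈ A, e2 k (X 0 ^ a j * X 1 ^ b j : P2) ∈ ImM κ Z d c m q := by
  have hmd : 0 < m * d := Nat.mul_pos hm hd
  have h2 := prod_zero_mem (κ := κ) (Z := Z) (q := q) hm hd hc
    (gmd_wt_sum A (fun j => (X 0 ^ a j * X 1 ^ b j : P2)) (fun j _ => gmd_wt_mono hmd (h j)))
  rw [Finset.prod_congr rfl (fun k _ => (map_sum (e2 k) (fun j => (X 0 ^ a j * X 1 ^ b j : P2)) A).symm)]
  exact h2

/-- the monomial `u^a υ^b`. -/
noncomputable def monR (a b : κ → ℕ) : Rx κ := ∏ j, e2 j (X 0 ^ a j * X 1 ^ b j : P2)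

/-- the coefficient of `monR a b`. -/
noncomputable def cfR (a b : κ → ℕ) (p : Rx κ) : ℂ :=
  coeff (Finsupp.equivFunOnFinite.symm a) (coeff (Finsupp.equivFunOnFinite.symm b) p)

private theorem gmd_e2_X0 (i : κ) : e2 i (X 0 : P2) = C (X i) := by
  rw [e2, aeval_X]
  rfl

private theorem gmd_e2_X1 (i : κ) : e2 i (X 1 : P2) = X i := by
  rw [e2, aeval_X]
  rfl

private theorem gmd_C_smul (a : ℂ) (p : Px κ) : (C (a • p) : Rx κ) = a • C p := by
  rw [smul_eq_C_mul, Algebra.smul_def, map_mul]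
  rfl

private theorem gmd_monR (a b : κ → ℕ) : monR a b =
    monomial (Finsupp.equivFunOnFinite.symm b) (monomial (Finsupp.equivFunOnFinite.symm a) (1 : ℂ)) := by
  have h1 : ∀ j : κ, e2 j (X 0 ^ a j * X 1 ^ b j : P2) = C ((X j : Px κ) ^ a j) * (X j : Rx κ) ^ b j := by
    intro j
    rw [map_mul, map_pow, map_pow, gmd_e2_X0, gmd_e2_X1, map_pow]
  rw [monR, Finset.prod_congr rfl (fun j _ => h1 j), Finset.prod_mul_distrib, ← map_prod,
    monomial_eq, monomial_eq]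
  rw [Finsupp.prod_fintype _ _ (fun _ => pow_zero _), Finsupp.prod_fintype _ _ (fun _ => pow_zero _),
    map_one, one_mul]
  rfl

private theorem gmd_cfR_smul (a b : κ → ℕ) (r : ℂ) (p : Rx κ) : cfR a b (r • p) = r * cfR a b p := by
  rw [cfR, cfR, coeff_smul, coeff_smul, smul_eq_mul]

private theorem gmd_cfR_sum (a b : κ → ℕ) {α : Type} (t : Finset α) (f : α → Rx κ) :
    cfR a b (∑ x ∈ t, f x) = ∑ x ∈ t, cfR a b (f x) := by
  rw [cfR, coeff_sum, coeff_sum]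
  rfl

private theorem gmd_cfR_monR (a b a' b' : κ → ℕ) :
    cfR a b (monR a' b') = if a = a' ∧ b = b' then 1 else 0 := by
  rw [cfR, gmd_monR, coeff_monomial]
  by_cases hb : b = b'
  · subst hb
    rw [if_pos rfl, coeff_monomial]
    by_cases ha : a = a'
    · subst ha
      rw [if_pos rfl, if_pos ⟨rfl, rfl⟩]
    · rw [if_neg, if_neg]
      · exact fun h => ha h.1
      · exact fun h => ha (Finsupp.equivFunOnFinite.symm.injective h).symm
  · rw [if_neg, coeff_zero, if_neg]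
    · exact fun h => hb h.2
    · exact fun h => hb (Finsupp.equivFunOnFinite.symm.injective h).symm

/-- `p` is the sum of its terms. -/
theorem eq_sum_monR (p : Rx κ) : ∃ s : Finset ((κ → ℕ) × (κ → ℕ)), (∀ x ∈ s, cfR x.1 x.2 p ≠ 0) ∧
    p = ∑ x ∈ s, cfR x.1 x.2 p • monR x.1 x.2 := by
  classical
  refine ⟨(p.support.sigma (fun m => (coeff m p).support)).image
    (fun x : (Σ _ : κ →₀ ℕ, κ →₀ ℕ) => ((⇑x.2 : κ → ℕ), (⇑x.1 : κ → ℕ))), ?_, ?_⟩
  · intro x hx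
    rw [Finset.mem_image] at hx
    obtain ⟨y, hy, rfl⟩ := hx
    rw [Finset.mem_sigma] at hy
    have h1 := hy.2
    rw [mem_support_iff] at h1
    rw [cfR, Finsupp.equivFunOnFinite_symm_coe, Finsupp.equivFunOnFinite_symm_coe]
    exact h1
  · rw [Finset.sum_image (by
      intro x _ y _ hxy
      have e1 : (x.2 : κ →₀ ℕ) = y.2 := DFunLike.coe_injective (congrArg Prod.fst hxy)
      have e2 : x.1 = y.1 := DFunLike.coe_injective (congrArg Prod.snd hxy)
      obtain ⟨x1, x2⟩ := x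
      obtain ⟨y1, y2⟩ := y
      simp only at e1 e2
      subst e1 e2
      rfl)]
    rw [Finset.sum_sigma]
    conv_lhs => rw [p.as_sum]
    refine Finset.sum_congr rfl (fun m _ => ?_)
    conv_lhs => rw [(coeff m p).as_sum]
    rw [map_sum]
    refine Finset.sum_congr rfl (fun n _ => ?_)
    rw [gmd_monR, cfR, Finsupp.equivFunOnFinite_symm_coe, Finsupp.equivFunOnFinite_symm_coe,
      smul_monomial, smul_monomial, smul_eq_mul, mul_one]

theorem monA_monR (π : Equiv.Perm κ) (ρ : κ → ℂ) (hρ : ∀ j, ρ j ≠ 0) (a b : κ → ℕ) :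
    monA π ρ (monR a b) = (∏ j, ρ j ^ ((b j : ℤ) - a j)) • ∏ j, e2 (π j) (X 0 ^ a j * X 1 ^ b j : P2) := by
  rw [monR, map_prod]
  have h1 : ∀ j : κ, monA π ρ (e2 j (X 0 ^ a j * X 1 ^ b j : P2)) =
      (ρ j ^ ((b j : ℤ) - a j)) • e2 (π j) (X 0 ^ a j * X 1 ^ b j : P2) := by
    intro j
    rw [map_mul, map_pow, map_pow, gmd_e2_X0, gmd_e2_X1, map_mul, map_pow, map_pow, monA_C_X, monA_X,
      map_mul, map_pow, map_pow, gmd_e2_X0, gmd_e2_X1, gmd_C_smul, smul_pow, smul_pow,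
      smul_mul_smul_comm]
    congr 1
    rw [zpow_sub₀ (hρ j), zpow_natCast, zpow_natCast, inv_pow]
    ring
  rw [Finset.prod_congr rfl (fun j _ => h1 j)]
  rw [Finset.prod_smul]

theorem cfR_monA_one (ρ : κ → ℂ) (hρ : ∀ j, ρ j ≠ 0) (a b : κ → ℕ) (p : Rx κ) :
    cfR a b (monA 1 ρ p) = (∏ j, ρ j ^ ((b j : ℤ) - a j)) * cfR a b p := by
  obtain ⟨s, _, hs⟩ := eq_sum_monR p
  have hlin : ∀ (t : Finset ((κ → ℕ) × (κ → ℕ))) (f : (κ → ℕ) × (κ → ℕ) → ℂ),
      cfR a b (monA 1 ρ (∑ x ∈ t, f x • monR x.1 x.2)) =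
        (∏ j, ρ j ^ ((b j : ℤ) - a j)) * cfR a b (∑ x ∈ t, f x • monR x.1 x.2) := by
    intro t f
    rw [map_sum, gmd_cfR_sum, gmd_cfR_sum, Finset.mul_sum]
    refine Finset.sum_congr rfl (fun x _ => ?_)
    have e1 : monA 1 ρ (f x • monR x.1 x.2) =
        (f x * ∏ j, ρ j ^ ((x.2 j : ℤ) - x.1 j)) • monR x.1 x.2 := by
      rw [map_smul, monA_monR 1 ρ hρ x.1 x.2, smul_smul]
      rfl
    rw [e1, gmd_cfR_smul, gmd_cfR_smul, gmd_cfR_monR]
    by_cases hx : a = x.1 ∧ b = x.2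
    · rw [if_pos hx, hx.1, hx.2]
      ring
    · rw [if_neg hx]
      ring
  have := hlin s (fun x => cfR x.1 x.2 p)
  rw [← hs] at this
  exact this

/-- every invariant polynomial is a restriction. For every term of `p` the exponents satisfy the congruences (`cfR_monA_one`,
`exponents`, `exponents'`; replace `w` by `(m - w) % m` if the sign requires it); `p` is the average of the `monA π 1 p`;
`∑_π monA π 1 (monR a b)` is an alternating sum of products (`polarise`), all in `ImM`. -/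
theorem mono_surj (hm : 0 < m) (hq : q ∣ m) (hd : 0 < d) (hc : IsPrimitiveRoot (c ^ m) d) (p : Rx κ)
    (hp : ∀ (π : Equiv.Perm κ) (ρ : κ → ℂ), (∀ j, ρ j ^ (m * d) = 1) →
      (Nonempty Z ∨ (∏ j, ρ j) ^ (q * d) = 1) → monA π ρ p = p) : p ∈ ImM κ Z d c m q := by
  classical
  obtain ⟨s, hs0, hs⟩ := eq_sum_monR p
  -- the products of sums are in the image
  have hprod : ∀ x ∈ s, ∀ A : Finset κ,
      ∏ k : κ, ∑ j ∈ A, e2 k (X 0 ^ x.1 j * X 1 ^ x.2 j : P2) ∈ ImM κ Z d c m q := by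
    intro x hx A
    have hρ1 : ∀ ρ : κ → ℂ, (∀ j, ρ j ^ (m * d) = 1) →
        (Nonempty Z ∨ (∏ j, ρ j) ^ (q * d) = 1) → ∏ j, ρ j ^ ((x.2 j : ℤ) - x.1 j) = 1 := by
      intro ρ h1 h2
      have hmd : 0 < m * d := Nat.mul_pos hm hd
      have h3 := cfR_monA_one ρ (fun j => gmd_ne hmd (h1 j)) x.1 x.2 p
      rw [hp 1 ρ h1 h2] at h3
      have h4 := hs0 x hx
      have h5 : (∏ j, ρ j ^ ((x.2 j : ℤ) - x.1 j) - 1) * cfR x.1 x.2 p = 0 := by
        linear_combination -h3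
      rcases mul_eq_zero.1 h5 with h6 | h6
      · exact sub_eq_zero.1 h6
      · exact absurd h6 h4
    rcases isEmpty_or_nonempty Z with hZ | hZ
    · obtain ⟨w, hw, hqw, hn⟩ := exponents hm hq hd (fun j => (x.1 j : ℤ) - x.2 j) (by
        intro ρ h1 h2
        have h3 := hρ1 ρ h1 (Or.inr h2)
        have h4 : ∏ j, ρ j ^ ((x.1 j : ℤ) - x.2 j) = (∏ j, ρ j ^ ((x.2 j : ℤ) - x.1 j))⁻¹ := by
          rw [← Finset.prod_inv_distrib]
          refine Finset.prod_congr rfl (fun j _ => ?_)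
          rw [← zpow_neg]
          congr 1
          ring
        rw [h4, h3, inv_one])
      exact prod_sum_mem hm hd hc hw hqw x.1 x.2 hn A
    · refine prod_sum_mem_zero hm hd hc x.1 x.2 (fun j => ?_) A
      have h3 := exponents' hm hd (fun j => (x.2 j : ℤ) - x.1 j) (fun ρ h1 => hρ1 ρ h1 (Or.inl hZ)) j
      have h4 := (dvd_neg (a := ((m * d : ℕ) : ℤ))).2 h3
      rwa [neg_sub] at h4
  -- the symmetrised monomials are in the image
  have hsym : ∀ x ∈ s, ∑ π : Equiv.Perm κ, monA π (fun _ => 1) (monR x.1 x.2) ∈ ImM κ Z d c m q := by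
    intro x hx
    have h1 : ∀ π : Equiv.Perm κ, monA π (fun _ => 1) (monR x.1 x.2) =
        ∏ j, e2 (π j) (X 0 ^ x.1 j * X 1 ^ x.2 j : P2) := by
      intro π
      rw [monA_monR π (fun _ => 1) (fun _ => one_ne_zero)]
      simp only [one_zpow, Finset.prod_const_one, one_smul]
    rw [Finset.sum_congr rfl (fun π _ => h1 π),
      polarise (fun j k => e2 k (X 0 ^ x.1 j * X 1 ^ x.2 j : P2))]
    refine Submodule.sum_mem _ (fun A _ => ?_)
    rcases neg_one_pow_eq_or (Rx κ) (Fintype.card κ - A.card) with h2 | h2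
    · rw [h2, one_mul]
      exact hprod x hx A
    · rw [h2, neg_one_mul]
      exact Submodule.neg_mem _ (hprod x hx A)
  -- average
  have havg : ∑ π : Equiv.Perm κ, monA π (fun _ => 1) p ∈ ImM κ Z d c m q := by
    have h1 : ∀ π : Equiv.Perm κ, monA π (fun _ => 1) p =
        ∑ x ∈ s, cfR x.1 x.2 p • monA π (fun _ => 1) (monR x.1 x.2) := by
      intro π
      refine (congrArg (monA π (fun _ => 1)) hs).trans ?_
      rw [map_sum]
      exact Finset.sum_congr rfl (fun x _ => map_smul _ _ _)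
    rw [Finset.sum_congr rfl (fun π _ => h1 π), Finset.sum_comm]
    refine Submodule.sum_mem _ (fun x hx => ?_)
    rw [← Finset.smul_sum]
    exact Submodule.smul_mem _ _ (hsym x hx)
  have h2 : ∑ π : Equiv.Perm κ, monA π (fun _ => 1) p = (Fintype.card (Equiv.Perm κ) : ℂ) • p := by
    rw [Finset.sum_congr rfl (fun π _ => hp π (fun _ => 1) (fun _ => one_pow _)
      (Or.inr (by rw [Finset.prod_const_one, one_pow])))]
    rw [Finset.sum_const, Finset.card_univ, ← Nat.cast_smul_eq_nsmul ℂ]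
  rw [h2] at havg
  have h3 : (Fintype.card (Equiv.Perm κ) : ℂ) ≠ 0 := by
    exact_mod_cast Fintype.card_ne_zero
  have h4 := Submodule.smul_mem _ ((Fintype.card (Equiv.Perm κ) : ℂ)⁻¹) havg
  rwa [smul_smul, inv_mul_cancel₀ h3, one_smul] at h4

end

end Pool.Agent.CM64
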