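import Pool.Agent.LibCM64.GmB
import Pool.Agent.LibCM64.SurjT
import Pool.Agent.LibCM64.CovDefs

/-! The group `G(m,p,n)`; the model. -/

set_option linter.unusedSectionVars false

namespace Pool.Agent.CM64

open Module MvPolynomial

section

variable {ι : Type} [Fintype ι] [DecidableEq ι]

private theorem gmE_trR_basis {κ U : Type} [Fintype κ] [DecidableEq κ] [AddCommGroup U] [Module ℂ U] (bU : Basis κ ℂ U)
    (g : U ≃ₗ[ℂ] U) (π : Equiv.Perm κ) (ρ : κ → ℂ) (hρ : ∀ j, ρ j ≠ 0) (h : ∀ j, g (bU j) = ρ j • bU (π j))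
    (p : Rx κ) : trR bU bU g p = monA π ρ p := by
  have hs : ∀ j, g.symm (bU (π j)) = (ρ j)⁻¹ • bU j := by
    intro j
    rw [LinearEquiv.symm_apply_eq, map_smul, h, smul_smul, inv_mul_cancel₀ (hρ j), one_smul]
  have hP : ∀ c : Px κ, trP bU bU g c = aeval (fun i => ((ρ i)⁻¹ • X (π i) : Px κ)) c := by
    intro c
    have h1 : trP bU bU g = aeval (fun i => ((ρ i)⁻¹ • X (π i) : Px κ)) := by
      apply MvPolynomial.algHom_ext
      intro i
      rw [trP_X, aeval_X]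
      have h2 : (bU.coord i).comp (g.symm : U →ₗ[ℂ] U) = (ρ i)⁻¹ • bU.coord (π i) := by
        apply bU.ext
        intro k
        obtain ⟨j, rfl⟩ : ∃ j, k = π j := ⟨π.symm k, (π.apply_symm_apply k).symm⟩
        rw [LinearMap.comp_apply, LinearEquiv.coe_coe, hs, map_smul, Basis.coord_apply, Basis.repr_self,
          LinearMap.smul_apply, Basis.coord_apply, Basis.repr_self, smul_eq_mul, smul_eq_mul]
        by_cases hij : j = i
        · subst hij
          rw [Finsupp.single_eq_same, Finsupp.single_eq_same]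
        · have hij' : π j ≠ π i := fun hh => hij (π.injective hh)
          rw [Finsupp.single_eq_of_ne (Ne.symm hij), Finsupp.single_eq_of_ne (Ne.symm hij'), mul_zero, mul_zero]
      rw [h2, map_smul, xl_coord]
    rw [h1]
  have hA : trR bU bU g = monA π ρ := by
    apply algHom_Rx_ext
    · intro c
      rw [trR_C, hP, monA, MvPolynomial.aevalTower_C]
      rfl
    · intro i
      rw [trR_X, h, map_smul, yR_basis, monA_X]
  rw [hA]

/-- the action of a monomial matrix on polynomial functions. -/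
theorem trR_mono (g : (ι → ℂ) ≃ₗ[ℂ] (ι → ℂ)) (s : Equiv.Perm ι) (ε : ι → ℂ) (hε : ∀ i, ε i ≠ 0)
    (h : ∀ v i, g v (s i) = ε i * v i) (p : Rx ι) :
    trR (Pi.basisFun ℂ ι) (Pi.basisFun ℂ ι) g p = monA s ε p := by
  refine gmE_trR_basis (Pi.basisFun ℂ ι) g s ε hε (fun j => ?_) p
  rw [Pi.basisFun_apply, Pi.basisFun_apply]
  funext k
  have h1 := h (Pi.single j (1 : ℂ)) (s⁻¹ k)
  rw [show s (s⁻¹ k) = k from s.apply_symm_apply k] at h1
  rw [h1, Pi.smul_apply, smul_eq_mul]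
  by_cases hk : s⁻¹ k = j
  · have hk' : k = s j := by rw [← hk]; exact (s.apply_symm_apply k).symm
    rw [hk, hk', Pi.single_eq_same, Pi.single_eq_same]
  · have hk' : k ≠ s j := by
      intro h2
      exact hk (by rw [h2]; exact s.symm_apply_apply j)
    rw [Pi.single_eq_of_ne hk, Pi.single_eq_of_ne hk', mul_zero, mul_zero]

/-- `monInv` implies invariance under `G(m,p,n)`. -/
theorem inv_of_monInv {m p : ℕ} {r : Rx ι} (hr : monInv m (m / p) r) (g : (ι → ℂ) ≃ₗ[ℂ] (ι → ℂ))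
    (hg : g ∈ Gmpn ι m p) : trR (Pi.basisFun ℂ ι) (Pi.basisFun ℂ ι) g r = r := by
  obtain ⟨s, ε, h1, h2, h3⟩ := hg
  rw [trR_mono g s (fun i => (ε i : ℂ)) (fun i => Units.ne_zero _) h3]
  refine hr s _ (fun i => ?_) ?_
  · rw [← Units.val_pow_eq_pow_val, h1, Units.val_one]
  · have h4 := congrArg (fun u : ℂˣ => (u : ℂ)) h2
    simp only [Units.val_pow_eq_pow_val, Units.val_one, Units.coe_prod] at h4
    exact h4

/-- the action of a monomial automorphism of a space with a basis `bU`. -/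
theorem trR_basis {κ U : Type} [Fintype κ] [DecidableEq κ] [AddCommGroup U] [Module ℂ U] (bU : Basis κ ℂ U)
    (g : U ≃ₗ[ℂ] U) (π : Equiv.Perm κ) (ρ : κ → ℂ) (hρ : ∀ j, ρ j ≠ 0) (h : ∀ j, g (bU j) = ρ j • bU (π j))
    (p : Rx κ) : trR bU bU g p = monA π ρ p :=
  gmE_trR_basis bU g π ρ hρ h p

end

section

variable {κ : Type} [Fintype κ] [DecidableEq κ] {Z : Type} [Fintype Z] [DecidableEq Z]

/-- the automorphism `τ` of the model: `e_{(j,k)} ↦ c e_{(j,k+1)}` (`k < d - 1`), `e_{(j,d-1)} ↦ c^{-(d-1)} e_{(j,0)}`,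
`e_z ↦ θ_z e_z` with `θ_z ≠ 1`. -/
structure IsModel (κ Z : Type) (d : ℕ) (c : ℂ)
    (τ : ((κ × Fin d) ⊕ Z → ℂ) ≃ₗ[ℂ] ((κ × Fin d) ⊕ Z → ℂ)) : Prop where
  step : ∀ v (j : κ) (k : ℕ) (hk : k + 1 < d),
    τ v (Sum.inl (j, ⟨k + 1, hk⟩)) = c * v (Sum.inl (j, ⟨k, Nat.lt_of_succ_lt hk⟩))
  wrap : ∀ v (j : κ) (hd : 0 < d),
    τ v (Sum.inl (j, ⟨0, hd⟩)) = (c ^ (d - 1))⁻¹ * v (Sum.inl (j, ⟨d - 1, Nat.sub_lt hd Nat.one_pos⟩))
  zero : ∀ z : Z, ∃ θ : ℂ, θ ≠ 1 ∧ ∀ v, τ v (Sum.inr z) = θ * v (Sum.inr z)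

variable {d : ℕ} {c : ℂ} {τ : ((κ × Fin d) ⊕ Z → ℂ) ≃ₗ[ℂ] ((κ × Fin d) ⊕ Z → ℂ)}

/-- the vector `E_j = ∑_k c^k e_{(j,k)}`. -/
noncomputable def Evec (κ Z : Type) [DecidableEq κ] (d : ℕ) (c : ℂ) (j : κ) : (κ × Fin d) ⊕ Z → ℂ :=
  Sum.elim (fun jk => if jk.1 = j then c ^ (jk.2 : ℕ) else 0) (fun _ => 0)

/-- the fixed space: `v(j,k) = c^k v(j,0)`, `v(z) = 0`. -/
theorem mem_fixSub_model (hτ : IsModel κ Z d c τ) (hd : 0 < d) (hc : c ≠ 0) (v : (κ × Fin d) ⊕ Z → ℂ) :
    v ∈ fixSub τ ↔ (∀ j (k : Fin d), v (Sum.inl (j, k)) = c ^ (k : ℕ) * v (Sum.inl (j, ⟨0, hd⟩))) ∧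
      ∀ z, v (Sum.inr z) = 0 := by
  rw [mem_fixSub]
  constructor
  · intro hv
    refine ⟨?_, ?_⟩
    · rintro j ⟨k, hk⟩
      induction k with
      | zero => rw [pow_zero, one_mul]
      | succ k ih =>
        have h1 := hτ.step v j k hk
        rw [hv, ih (Nat.lt_of_succ_lt hk)] at h1
        rw [h1, pow_succ', mul_assoc]
    · intro z
      obtain ⟨θ, hθ, h1⟩ := hτ.zero z
      have h2 := h1 v
      rw [hv] at h2
      have h3 : (θ - 1) * v (Sum.inr z) = 0 := by rw [sub_mul, one_mul, ← h2, sub_self]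
      exact (mul_eq_zero.1 h3).resolve_left (sub_ne_zero.2 hθ)
  · rintro ⟨h1, h2⟩
    funext x
    rcases x with ⟨j, ⟨k, hk⟩⟩ | z
    · cases k with
      | zero =>
        rw [hτ.wrap v j hd, h1 j ⟨d - 1, _⟩]
        simp only
        rw [← mul_assoc, inv_mul_cancel₀ (pow_ne_zero _ hc), one_mul]
      | succ k =>
        rw [hτ.step v j k hk, h1 j ⟨k, _⟩, h1 j ⟨k + 1, hk⟩]
        simp only
        rw [pow_succ', mul_assoc]
    · obtain ⟨θ, hθ, h3⟩ := hτ.zero z
      rw [h3, h2, mul_zero]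

/-- the basis `E_j` of the fixed space. -/
theorem exists_basis_model (hτ : IsModel κ Z d c τ) (hd : 0 < d) (hc : c ≠ 0) :
    ∃ bU : Basis κ ℂ ↥(fixSub τ), ∀ j, ((bU j : ↥(fixSub τ)) : (κ × Fin d) ⊕ Z → ℂ) = Evec κ Z d c j := by
  let e : ↥(fixSub τ) ≃ₗ[ℂ] (κ → ℂ) :=
    { toFun := fun v j => (v : (κ × Fin d) ⊕ Z → ℂ) (Sum.inl (j, ⟨0, hd⟩))
      map_add' := fun v w => rfl
      map_smul' := fun a v => rfl
      invFun := fun w => ⟨Sum.elim (fun jk => c ^ (jk.2 : ℕ) * w jk.1) (fun _ => 0), by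
        rw [mem_fixSub_model hτ hd hc]
        refine ⟨fun j k => ?_, fun z => rfl⟩
        simp⟩
      left_inv := fun v => by
        apply Subtype.ext
        have hv := (mem_fixSub_model hτ hd hc _).1 v.2
        funext x
        rcases x with ⟨j, k⟩ | z
        · exact (hv.1 j k).symm
        · exact (hv.2 z).symm
      right_inv := fun w => by
        funext j
        simp }
  refine ⟨Basis.ofEquivFun e, fun j => ?_⟩
  rw [Basis.coe_ofEquivFun]
  funext x
  rcases x with ⟨j', k⟩ | z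
  · change c ^ (k : ℕ) * (Pi.single j (1 : ℂ) : κ → ℂ) j' = if j' = j then c ^ (k : ℕ) else 0
    by_cases hj : j' = j
    · rw [hj, Pi.single_eq_same, mul_one, if_pos rfl]
    · rw [Pi.single_eq_of_ne hj, mul_zero, if_neg hj]
  · rfl

/-- the projection of the basis vectors: `projT_tau` gives `π(e_{(j,k+1)}) = c⁻¹ π(e_{(j,k)})`, and `π(E_j) = E_j`;
`π(e_z) = θ_z π(e_z)`. -/
theorem projT_model (hτ : IsModel κ Z d c τ) (hfin : IsOfFinOrder τ) (hd : 0 < d) (hc : c ≠ 0)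
    (bU : Basis κ ℂ ↥(fixSub τ))
    (hbU : ∀ j, ((bU j : ↥(fixSub τ)) : (κ × Fin d) ⊕ Z → ℂ) = Evec κ Z d c j) :
    (∀ j (k : Fin d), projT τ (Pi.single (Sum.inl (j, k)) (1 : ℂ)) = ((c ^ (k : ℕ))⁻¹ * (d : ℂ)⁻¹) • bU j) ∧
      ∀ z, projT τ (Pi.single (Sum.inr z) (1 : ℂ)) = 0 := by
  have hd0 : (d : ℂ) ≠ 0 := by exact_mod_cast hd.ne'
  have hstep : ∀ (j : κ) (k : ℕ) (hk : k + 1 < d),
      τ (Pi.single (Sum.inl (j, ⟨k, Nat.lt_of_succ_lt hk⟩)) (1 : ℂ)) =
        c • (Pi.single (Sum.inl (j, ⟨k + 1, hk⟩)) (1 : ℂ) : (κ × Fin d) ⊕ Z → ℂ) := by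
    intro j k hk
    funext x
    rw [Pi.smul_apply, smul_eq_mul]
    rcases x with ⟨j', ⟨k', hk'⟩⟩ | z
    · cases k' with
      | zero =>
        rw [hτ.wrap _ j' hd, Pi.single_eq_of_ne, Pi.single_eq_of_ne, mul_zero, mul_zero]
        · intro h
          simp at h
        · intro h
          simp at h
          omega
      | succ k' =>
        rw [hτ.step _ j' k' hk']
        congr 1
        by_cases h : j' = j ∧ k' = k
        · obtain ⟨rfl, rfl⟩ := h
          rw [Pi.single_eq_same, Pi.single_eq_same]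
        · rw [Pi.single_eq_of_ne, Pi.single_eq_of_ne]
          · intro h1
            apply h
            simpa using h1
          · intro h1
            apply h
            simpa using h1
    · obtain ⟨θ, -, h3⟩ := hτ.zero z
      rw [h3, Pi.single_eq_of_ne (by simp), Pi.single_eq_of_ne (by simp), mul_zero, mul_zero]
  have hk0 : ∀ (j : κ) (k : ℕ) (hk : k < d),
      projT τ (Pi.single (Sum.inl (j, ⟨k, hk⟩)) (1 : ℂ)) =
        (c ^ k)⁻¹ • projT τ (Pi.single (Sum.inl (j, ⟨0, hd⟩)) (1 : ℂ)) := by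
    intro j k
    induction k with
    | zero => intro hk; rw [pow_zero, inv_one, one_smul]
    | succ k ih =>
      intro hk
      have h1 := projT_tau hfin (Pi.single (Sum.inl (j, ⟨k, Nat.lt_of_succ_lt hk⟩)) (1 : ℂ))
      rw [hstep j k hk, map_smul, ih (Nat.lt_of_succ_lt hk)] at h1
      have h2 := congrArg (fun w => c⁻¹ • w) h1
      simp only [smul_smul] at h2
      rw [inv_mul_cancel₀ hc, one_smul] at h2
      rw [h2, pow_succ', mul_inv]
  have hE : ∀ j : κ, Evec κ Z d c j =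
      ∑ k : Fin d, c ^ (k : ℕ) • (Pi.single (Sum.inl (j, k)) (1 : ℂ) : (κ × Fin d) ⊕ Z → ℂ) := by
    intro j
    funext x
    rw [Finset.sum_apply]
    rcases x with ⟨j', k'⟩ | z
    · rw [Finset.sum_eq_single k']
      · change (if j' = j then c ^ (k' : ℕ) else 0) = c ^ (k' : ℕ) *
          (Pi.single (Sum.inl (j, k')) (1 : ℂ) : (κ × Fin d) ⊕ Z → ℂ) (Sum.inl (j', k'))
        by_cases hj : j' = j
        · rw [hj, Pi.single_eq_same, mul_one, if_pos rfl]
        · rw [Pi.single_eq_of_ne (by simp [hj]), mul_zero, if_neg hj]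
      · intro k _ hk
        rw [Pi.smul_apply, Pi.single_eq_of_ne (by simp [hk.symm]), smul_zero]
      · intro h
        exact absurd (Finset.mem_univ _) h
    · change (0 : ℂ) = _
      symm
      apply Finset.sum_eq_zero
      intro k _
      rw [Pi.smul_apply, Pi.single_eq_of_ne (by simp), smul_zero]
  have hb0 : ∀ j : κ, projT τ (Pi.single (Sum.inl (j, ⟨0, hd⟩)) (1 : ℂ)) = (d : ℂ)⁻¹ • bU j := by
    intro j
    have h1 := projT_of_mem hfin (bU j)
    rw [hbU, hE, map_sum] at h1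
    have h2 : ∀ k : Fin d, projT τ (c ^ (k : ℕ) •
        (Pi.single (Sum.inl (j, k)) (1 : ℂ) : (κ × Fin d) ⊕ Z → ℂ)) =
        projT τ (Pi.single (Sum.inl (j, ⟨0, hd⟩)) (1 : ℂ)) := by
      intro k
      rw [map_smul, hk0 j k k.2, smul_smul, mul_inv_cancel₀ (pow_ne_zero _ hc), one_smul]
    rw [Finset.sum_congr rfl (fun k _ => h2 k), Finset.sum_const, Finset.card_univ, Fintype.card_fin,
      ← Nat.cast_smul_eq_nsmul ℂ] at h1
    rw [← h1, smul_smul, inv_mul_cancel₀ hd0, one_smul]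
  refine ⟨fun j k => ?_, fun z => ?_⟩
  · rw [hk0 j k k.2, hb0, smul_smul]
  · obtain ⟨θ, hθ, h3⟩ := hτ.zero z
    have h4 : τ (Pi.single (Sum.inr z) (1 : ℂ)) =
        θ • (Pi.single (Sum.inr z) (1 : ℂ) : (κ × Fin d) ⊕ Z → ℂ) := by
      funext x
      rw [Pi.smul_apply, smul_eq_mul]
      rcases x with ⟨j', ⟨k', hk'⟩⟩ | z'
      · cases k' with
        | zero =>
          rw [hτ.wrap _ j' hd, Pi.single_eq_of_ne (by simp), Pi.single_eq_of_ne (by simp), mul_zero,
            mul_zero]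
        | succ k' =>
          rw [hτ.step _ j' k' hk', Pi.single_eq_of_ne (by simp), Pi.single_eq_of_ne (by simp), mul_zero,
            mul_zero]
      · by_cases hz : z' = z
        · rw [hz, h3]
        · obtain ⟨θ', -, h5⟩ := hτ.zero z'
          rw [h5, Pi.single_eq_of_ne (by simpa using hz), mul_zero, mul_zero]
    have h5 := projT_tau hfin (Pi.single (Sum.inr z) (1 : ℂ))
    rw [h4, map_smul] at h5
    generalize projT τ (Pi.single (Sum.inr z) (1 : ℂ)) = w at h5 ⊢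
    have h6 : (θ - 1) • (w : (κ × Fin d) ⊕ Z → ℂ) = 0 := by
      have h7 := congrArg (fun u : ↥(fixSub τ) => (u : (κ × Fin d) ⊕ Z → ℂ)) h5
      simp only [Submodule.coe_smul] at h7
      rw [sub_smul, one_smul, h7, sub_self]
    exact Subtype.ext ((smul_eq_zero.1 h6).resolve_left (sub_ne_zero.2 hθ))

/-- the restriction in the model. -/
theorem resR_model (hτ : IsModel κ Z d c τ) (hfin : IsOfFinOrder τ) (hd : 0 < d) (hc : c ≠ 0)
    (bU : Basis κ ℂ ↥(fixSub τ))
    (hbU : ∀ j, ((bU j : ↥(fixSub τ)) : (κ × Fin d) ⊕ Z → ℂ) = Evec κ Z d c j) (p : Rx ((κ × Fin d) ⊕ Z)) :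
    resR τ (Pi.basisFun ℂ _) bU p = resM κ Z d c p := by
  obtain ⟨hp1, hp2⟩ := projT_model hτ hfin hd hc bU hbU
  have hP : resP τ (Pi.basisFun ℂ _) bU =
      aeval (Sum.elim (fun jk : κ × Fin d => (c ^ (jk.2 : ℕ) • X jk.1 : Px κ)) (fun _ => 0)) := by
    apply MvPolynomial.algHom_ext
    intro i
    rw [← xl_coord (Pi.basisFun ℂ _) i, resP_xl, xl_coord, aeval_X, xl_apply]
    have h1 : ∀ j : κ, (((Pi.basisFun ℂ ((κ × Fin d) ⊕ Z)).coord i).comp (fixSub τ).subtype) (bU j) =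
        Evec κ Z d c j i := by
      intro j
      rw [← hbU j]
      rfl
    rw [Finset.sum_congr rfl (fun j _ => by rw [h1 j])]
    rcases i with ⟨j', k⟩ | z
    · rw [Finset.sum_eq_single j']
      · change (if j' = j' then c ^ (k : ℕ) else 0) • X j' = c ^ (k : ℕ) • X j'
        rw [if_pos rfl]
      · intro j _ hj
        change (if j' = j then c ^ (k : ℕ) else 0) • X j = 0
        rw [if_neg (Ne.symm hj), zero_smul]
      · intro h
        exact absurd (Finset.mem_univ _) h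
    · apply Finset.sum_eq_zero
      intro j _
      exact zero_smul ℂ _
  have hA : resR τ (Pi.basisFun ℂ _) bU = resM κ Z d c := by
    apply algHom_Rx_ext
    · intro q
      rw [resR_C, hP, resM, MvPolynomial.aevalTower_C]
      rfl
    · intro i
      have h1 : resR τ (Pi.basisFun ℂ _) bU (X i) = yR bU (projT τ (Pi.single i (1 : ℂ))) := by
        rw [← yR_basis (Pi.basisFun ℂ _) i, resR_yR, Pi.basisFun_apply]
      rw [h1, resM, MvPolynomial.aevalTower_X]
      rcases i with ⟨j, k⟩ | z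
      · rw [hp1, map_smul, yR_basis]
        rfl
      · rw [hp2, map_zero]
        rfl
  rw [hA]

end

end Pool.Agent.CM64
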