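import Pool.Agent.LibCM64.GmE
import Pool.Agent.LibCM64.GmD

/-! `SurjR` for `G(m,p,n)`: elements of the centraliser in the model. -/

set_option linter.unusedSectionVars false

namespace Pool.Agent.CM64

open Module MvPolynomial

section

variable {κ : Type} [Fintype κ] [DecidableEq κ] {Z : Type} [Fintype Z] [DecidableEq Z]
variable {m p d : ℕ} {c : ℂ} {τ : ((κ × Fin d) ⊕ Z → ℂ) ≃ₗ[ℂ] ((κ × Fin d) ⊕ Z → ℂ)}

/-- a monomial matrix. -/
private def gmF_mon {ι : Type} (s : Equiv.Perm ι) (ε : ι → ℂˣ) : (ι → ℂ) ≃ₗ[ℂ] (ι → ℂ) where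
  toFun v i := (ε (s.symm i) : ℂ) * v (s.symm i)
  map_add' v v' := by
    funext i
    simp [mul_add]
  map_smul' a v := by
    funext i
    simp [mul_left_comm]
  invFun v i := ((ε i)⁻¹ : ℂˣ) * v (s i)
  left_inv v := by
    funext i
    simp
  right_inv v := by
    funext i
    simp

private theorem gmF_mon_apply {ι : Type} (s : Equiv.Perm ι) (ε : ι → ℂˣ) (v : ι → ℂ) (i : ι) :
    gmF_mon s ε v (s i) = (ε i : ℂ) * v i := by
  show (ε (s.symm (s i)) : ℂ) * v (s.symm (s i)) = _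
  rw [Equiv.symm_apply_apply]

private theorem gmF_c_ne {m d : ℕ} {c : ℂ} (hm : 0 < m) (hd : 0 < d) (hc : IsPrimitiveRoot (c ^ m) d) : c ≠ 0 := by
  intro h
  have h1 : c ^ m ≠ 0 := hc.ne_zero hd.ne'
  exact h1 (by rw [h, zero_pow hm.ne'])

private theorem gmF_tau (hτ : IsModel κ Z d c τ) [NeZero d] (hc0 : c ≠ 0) (v : (κ × Fin d) ⊕ Z → ℂ) (j : κ)
    (k : Fin d) :
    τ v (Sum.inl (j, k + 1)) = c ^ ((k + 1 : Fin d) : ℕ) * (c ^ (k : ℕ))⁻¹ * v (Sum.inl (j, k)) := by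
  by_cases hk : (k : ℕ) + 1 < d
  · have h1 : (k + 1 : Fin d) = ⟨(k : ℕ) + 1, hk⟩ := by
      apply Fin.ext
      rw [Fin.val_add, Fin.val_one', Nat.add_mod_mod, Nat.mod_eq_of_lt hk]
    rw [h1, hτ.step v j k hk]
    have h2 : c ^ ((k : ℕ) + 1) * (c ^ (k : ℕ))⁻¹ = c := by
      rw [pow_succ, mul_assoc, mul_comm c, ← mul_assoc, mul_inv_cancel₀ (pow_ne_zero _ hc0), one_mul]
    show c * _ = c ^ ((k : ℕ) + 1) * (c ^ (k : ℕ))⁻¹ * _
    rw [h2]
  · have hd0 : 0 < d := Nat.pos_of_ne_zero (NeZero.ne d)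
    have h0 : (k : ℕ) = d - 1 := by
      have := k.2
      omega
    have h1 : (k + 1 : Fin d) = ⟨0, hd0⟩ := by
      apply Fin.ext
      rw [Fin.val_add, Fin.val_one', Nat.add_mod_mod, h0]
      show (d - 1 + 1) % d = 0
      rw [Nat.sub_add_cancel hd0, Nat.mod_self]
    have h2 : k = ⟨d - 1, Nat.sub_lt hd0 Nat.one_pos⟩ := Fin.ext h0
    rw [h1, hτ.wrap v j hd0]
    show (c ^ (d - 1))⁻¹ * _ = c ^ 0 * (c ^ (k : ℕ))⁻¹ * _
    rw [pow_zero, one_mul, h0, ← h2]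

/-- the element `w` of `G(m,p,n)`: choose `l_j` with `ρ_j^m = (c^m)^{-l_j}`; `w e_{(j,k)} = ρ_j c^{k' - k} e_{(π j, k')}`,
`k' = (k + l_j) % d`; the product of the coefficients is `∏ ρ_j^d`; on `Z`: `w e_z = ε_z e_z`, with `∏ ε_z = ∏ ρ_j^{-d}` if `Z`
is not empty. It commutes with `τ` and maps `E_j` to `ρ_j E_{π j}`. -/
theorem exists_elt_model (hτ : IsModel κ Z d c τ) (hm : 0 < m) (hp : p ∣ m) (hd : 0 < d)
    (hc : IsPrimitiveRoot (c ^ m) d) (π : Equiv.Perm κ) (ρ : κ → ℂ) (hρ : ∀ j, ρ j ^ (m * d) = 1)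
    (hρ' : Nonempty Z ∨ (∏ j, ρ j) ^ (m / p * d) = 1) :
    ∃ w ∈ Gmpn ((κ × Fin d) ⊕ Z) m p, w * τ = τ * w ∧ ∀ j, w (Evec κ Z d c j) = ρ j • Evec κ Z d c (π j) := by
  have hNZ : NeZero d := ⟨hd.ne'⟩
  have hc0 : c ≠ 0 := gmF_c_ne hm hd hc
  have hmd : m * d ≠ 0 := (Nat.mul_pos hm hd).ne'
  have hρ0 : ∀ j, ρ j ≠ 0 := by
    intro j h
    have := hρ j
    rw [h, zero_pow hmd] at this
    exact zero_ne_one this
  -- the shifts
  have hl : ∀ j, ∃ l : Fin d, (c ^ m) ^ (l : ℕ) = ((ρ j) ^ m)⁻¹ := by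
    intro j
    have h1 : (((ρ j) ^ m)⁻¹) ^ d = 1 := by rw [inv_pow, ← pow_mul, hρ j, inv_one]
    obtain ⟨i, hi, hi'⟩ := hc.eq_pow_of_pow_eq_one h1
    exact ⟨⟨i, hi⟩, hi'⟩
  choose l hl using hl
  -- the coefficients on `Z`
  have hεZ : ∃ δ : Z → ℂˣ, (∀ z, δ z ^ m = 1) ∧ ((∏ j, ρ j ^ d) * ∏ z, (δ z : ℂ)) ^ (m / p) = 1 := by
    rcases isEmpty_or_nonempty Z with hZ | hZ
    · refine ⟨fun _ => 1, fun z => one_pow _, ?_⟩
      rcases hρ' with h | h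
      · exact (hZ.false h.some).elim
      · have h1 : ∏ z : Z, (((1 : ℂˣ)) : ℂ) = 1 := by simp
        rw [h1, mul_one, Finset.prod_pow, ← pow_mul, mul_comm d]
        exact h
    · obtain ⟨z0⟩ := hZ
      have hne : (∏ j, ρ j ^ d) ≠ 0 := Finset.prod_ne_zero_iff.2 (fun j _ => pow_ne_zero _ (hρ0 j))
      refine ⟨fun z => if z = z0 then (Units.mk0 _ hne)⁻¹ else 1, fun z => ?_, ?_⟩
      · by_cases hz : z = z0
        · simp only [if_pos hz]
          apply Units.ext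
          rw [inv_pow, Units.val_inv_eq_inv_val, Units.val_pow_eq_pow_val, Units.val_mk0, Units.val_one,
            ← Finset.prod_pow]
          have : ∀ j ∈ Finset.univ, (ρ j ^ d) ^ m = 1 := by
            intro j _
            rw [← pow_mul, mul_comm, hρ j]
          rw [Finset.prod_congr rfl this, Finset.prod_const_one, inv_one]
        · simp only [if_neg hz, one_pow]
      · have h1 : ∏ z : Z, (((if z = z0 then (Units.mk0 _ hne)⁻¹ else 1 : ℂˣ)) : ℂ) = (∏ j, ρ j ^ d)⁻¹ := by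
          rw [Finset.prod_eq_single z0]
          · simp
          · intro z _ hz
            simp [hz]
          · intro h
            exact (h (Finset.mem_univ _)).elim
        rw [h1, mul_inv_cancel₀ hne, one_pow]
  obtain ⟨δ, hδ1, hδ2⟩ := hεZ
  -- the permutation and the coefficients
  let s0 : Equiv.Perm (κ × Fin d) :=
    { toFun := fun x => (π x.1, x.2 + l x.1)
      invFun := fun x => (π.symm x.1, x.2 - l (π.symm x.1))
      left_inv := fun x => by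
        apply Prod.ext
        · exact π.symm_apply_apply _
        · show x.2 + l x.1 - l (π.symm (π x.1)) = x.2
          rw [π.symm_apply_apply, add_sub_cancel_right]
      right_inv := fun x => by
        apply Prod.ext
        · exact π.apply_symm_apply _
        · show x.2 - l (π.symm x.1) + l (π.symm x.1) = x.2
          rw [sub_add_cancel] }
  let s : Equiv.Perm ((κ × Fin d) ⊕ Z) := Equiv.sumCongr s0 (Equiv.refl Z)
  have hs_inl : ∀ j k, s (Sum.inl (j, k)) = Sum.inl (π j, k + l j) := fun j k => rfl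
  have hs_inr : ∀ z, s (Sum.inr z) = Sum.inr z := fun z => rfl
  have hne1 : ∀ x : κ × Fin d, ρ x.1 * (c ^ ((x.2 + l x.1 : Fin d) : ℕ) * (c ^ (x.2 : ℕ))⁻¹) ≠ 0 := fun x =>
    mul_ne_zero (hρ0 _) (mul_ne_zero (pow_ne_zero _ hc0) (inv_ne_zero (pow_ne_zero _ hc0)))
  let ε : (κ × Fin d) ⊕ Z → ℂˣ := Sum.elim (fun x => Units.mk0 _ (hne1 x)) δ
  have hε_inl : ∀ j k, ((ε (Sum.inl (j, k)) : ℂˣ) : ℂ)
      = ρ j * (c ^ ((k + l j : Fin d) : ℕ) * (c ^ (k : ℕ))⁻¹) := fun j k => rfl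
  have hε_inr : ∀ z, ε (Sum.inr z) = δ z := fun z => rfl
  refine ⟨gmF_mon s ε, ⟨s, ε, ?_, ?_, fun v i => gmF_mon_apply s ε v i⟩, ?_, ?_⟩
  · -- `ε^m = 1`
    rintro (⟨j, k⟩ | z)
    · apply Units.ext
      rw [Units.val_pow_eq_pow_val, hε_inl, Units.val_one, mul_pow, mul_pow, inv_pow]
      have hcd : (c ^ m) ^ d = 1 := hc.pow_eq_one
      have h1 : (c ^ ((k + l j : Fin d) : ℕ)) ^ m = (c ^ (k : ℕ)) ^ m * (c ^ m) ^ (l j : ℕ) := by
        rw [← pow_mul, ← pow_mul, mul_comm _ m, mul_comm _ m, pow_mul, pow_mul, ← pow_add, Fin.val_add]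
        exact (pow_eq_pow_mod _ hcd).symm
      rw [h1, hl j, mul_comm ((c ^ (k : ℕ)) ^ m), mul_assoc, mul_inv_cancel₀ (pow_ne_zero _ (pow_ne_zero _ hc0)),
        mul_one, mul_inv_cancel₀ (pow_ne_zero _ (hρ0 j))]
    · rw [hε_inr, hδ1 z]
  · -- the product
    apply Units.ext
    rw [Units.val_pow_eq_pow_val, Units.val_one, Units.coe_prod, Fintype.prod_sum_type]
    have h1 : ∏ x : κ × Fin d, ((ε (Sum.inl x) : ℂˣ) : ℂ) = ∏ j, ρ j ^ d := by
      rw [Fintype.prod_prod_type]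
      apply Finset.prod_congr rfl
      intro j _
      have h2 : ∀ k ∈ (Finset.univ : Finset (Fin d)), ((ε (Sum.inl (j, k)) : ℂˣ) : ℂ)
          = ρ j * (c ^ ((k + l j : Fin d) : ℕ) * (c ^ (k : ℕ))⁻¹) := fun k _ => rfl
      rw [Finset.prod_congr rfl h2, Finset.prod_mul_distrib, Finset.prod_mul_distrib, Finset.prod_const,
        Finset.card_univ, Fintype.card_fin, Finset.prod_inv_distrib]
      have h3 : ∏ k : Fin d, c ^ ((k + l j : Fin d) : ℕ) = ∏ k : Fin d, c ^ (k : ℕ) :=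
        Equiv.prod_comp (Equiv.addRight (l j)) (fun k : Fin d => c ^ (k : ℕ))
      rw [h3, mul_inv_cancel₀ (Finset.prod_ne_zero_iff.2 (fun k _ => pow_ne_zero _ hc0)), mul_one]
    rw [h1]
    exact hδ2
  · -- commutation
    apply LinearEquiv.ext
    intro v
    rw [LinearEquiv.mul_apply, LinearEquiv.mul_apply]
    funext i
    obtain ⟨i', rfl⟩ := s.surjective i
    rcases i' with ⟨j, k⟩ | z
    · obtain ⟨k, rfl⟩ : ∃ k', k = k' + 1 := ⟨k - 1, (sub_add_cancel k 1).symm⟩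
      rw [gmF_mon_apply, hε_inl, gmF_tau hτ hc0, hs_inl]
      have h1 : k + 1 + l j = (k + l j) + 1 := by rw [add_right_comm]
      rw [h1, gmF_tau hτ hc0, ← hs_inl, gmF_mon_apply, hε_inl]
      have h2 : c ^ ((k + 1 : Fin d) : ℕ) ≠ 0 := pow_ne_zero _ hc0
      have h3 : c ^ ((k + l j : Fin d) : ℕ) ≠ 0 := pow_ne_zero _ hc0
      have h4 : c ^ (k : ℕ) ≠ 0 := pow_ne_zero _ hc0
      field_simp
    · obtain ⟨θ, _, hθ⟩ := hτ.zero z
      rw [gmF_mon_apply, hε_inr, hθ, hs_inr, hθ, ← hs_inr z, gmF_mon_apply, hε_inr, hs_inr]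
      ring
  · -- the vectors `E_j`
    intro j
    funext i
    obtain ⟨i', rfl⟩ := s.surjective i
    rcases i' with ⟨j', k⟩ | z
    · rw [gmF_mon_apply, hε_inl, hs_inl]
      show _ * (if j' = j then c ^ (k : ℕ) else 0) = ρ j * (if π j' = π j then c ^ ((k + l j' : Fin d) : ℕ) else 0)
      by_cases h : j' = j
      · subst h
        rw [if_pos rfl, if_pos rfl, mul_assoc, mul_assoc, inv_mul_cancel₀ (pow_ne_zero _ hc0), mul_one]
      · rw [if_neg h, if_neg (fun h' => h (π.injective h')), mul_zero, mul_zero]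
    · rw [gmF_mon_apply, hε_inr, hs_inr]
      show _ * (0 : ℂ) = ρ j * 0
      rw [mul_zero, mul_zero]

private theorem gmF_exists_fixGrp {V : Type} [AddCommGroup V] [Module ℂ V] {W : Subgroup (V ≃ₗ[ℂ] V)}
    {τ : V ≃ₗ[ℂ] V} {w : V ≃ₗ[ℂ] V} (hw : w ∈ W) (hc : w * τ = τ * w) :
    ∃ g ∈ fixGrp W τ, ∀ u : ↥(fixSub τ), ((g u : ↥(fixSub τ)) : V) = w (u : V) := by
  have h1 : ∀ x ∈ fixSub τ, w x ∈ fixSub τ := by
    intro x hx
    have : τ (w x) = w (τ x) := by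
      rw [← LinearEquiv.mul_apply, ← LinearEquiv.mul_apply, hc]
    rw [mem_fixSub, this, mem_fixSub.1 hx]
  have hc' : w⁻¹ * τ = τ * w⁻¹ := by
    rw [eq_comm, mul_inv_eq_iff_eq_mul, mul_assoc, ← hc, ← mul_assoc, inv_mul_cancel, one_mul]
  have h2 : ∀ x ∈ fixSub τ, w⁻¹ x ∈ fixSub τ := by
    intro x hx
    have : τ (w⁻¹ x) = w⁻¹ (τ x) := by
      rw [← LinearEquiv.mul_apply, ← LinearEquiv.mul_apply, hc']
    rw [mem_fixSub, this, mem_fixSub.1 hx]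
  let f : ↥(fixSub τ) →ₗ[ℂ] ↥(fixSub τ) := (w : V →ₗ[ℂ] V).restrict h1
  let f' : ↥(fixSub τ) →ₗ[ℂ] ↥(fixSub τ) := ((w⁻¹ : V ≃ₗ[ℂ] V) : V →ₗ[ℂ] V).restrict h2
  let g : ↥(fixSub τ) ≃ₗ[ℂ] ↥(fixSub τ) := LinearEquiv.ofLinearMap f f'
    (by
      apply LinearMap.ext
      intro x
      apply Subtype.ext
      change w (w⁻¹ (x : V)) = x
      rw [← LinearEquiv.mul_apply, mul_inv_cancel]
      rfl)
    (by
      apply LinearMap.ext
      intro x
      apply Subtype.ext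
      change w⁻¹ (w (x : V)) = x
      rw [← LinearEquiv.mul_apply, inv_mul_cancel]
      rfl)
  exact ⟨g, ⟨w, hw, hc, fun u => rfl⟩, fun u => rfl⟩

/-- elements of `W^τ` on `U`. -/
theorem exists_fixGrp_model (hτ : IsModel κ Z d c τ) (hm : 0 < m) (hp : p ∣ m) (hd : 0 < d)
    (hc : IsPrimitiveRoot (c ^ m) d) (bU : Basis κ ℂ ↥(fixSub τ))
    (hbU : ∀ j, ((bU j : ↥(fixSub τ)) : (κ × Fin d) ⊕ Z → ℂ) = Evec κ Z d c j)
    (π : Equiv.Perm κ) (ρ : κ → ℂ) (hρ : ∀ j, ρ j ^ (m * d) = 1)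
    (hρ' : Nonempty Z ∨ (∏ j, ρ j) ^ (m / p * d) = 1) :
    ∃ g ∈ fixGrp (Gmpn ((κ × Fin d) ⊕ Z) m p) τ, ∀ j, g (bU j) = ρ j • bU (π j) := by
  obtain ⟨w, hw, hc', hE⟩ := exists_elt_model (p := p) hτ hm hp hd hc π ρ hρ hρ'
  obtain ⟨g, hg, hg'⟩ := gmF_exists_fixGrp hw hc'
  refine ⟨g, hg, fun j => ?_⟩
  apply Subtype.ext
  rw [hg', hbU, hE, Submodule.coe_smul, hbU]

/-- `SurjR` in the model: `mono_surj`, `resR_model`, `inv_of_monInv`, `trR_basis`. -/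
theorem surjR_model (hτ : IsModel κ Z d c τ) (hfin : IsOfFinOrder τ) (hm : 0 < m) (hp : p ∣ m) (hd : 0 < d)
    (hc : IsPrimitiveRoot (c ^ m) d) (bU : Basis κ ℂ ↥(fixSub τ))
    (hbU : ∀ j, ((bU j : ↥(fixSub τ)) : (κ × Fin d) ⊕ Z → ℂ) = Evec κ Z d c j) :
    SurjR (Gmpn ((κ × Fin d) ⊕ Z) m p) τ (Pi.basisFun ℂ _) bU := by
  intro f hf
  have hc0 : c ≠ 0 := gmF_c_ne hm hd hc
  have hmd : m * d ≠ 0 := (Nat.mul_pos hm hd).ne'
  have h1 : f ∈ ImM κ Z d c m (m / p) := by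
    refine mono_surj hm (Nat.div_dvd_of_dvd hp) hd hc f (fun π ρ hρ hρ' => ?_)
    obtain ⟨g, hg, hg'⟩ := exists_fixGrp_model (p := p) hτ hm hp hd hc bU hbU π ρ hρ hρ'
    have hρ0 : ∀ j, ρ j ≠ 0 := by
      intro j h
      have := hρ j
      rw [h, zero_pow hmd] at this
      exact zero_ne_one this
    rw [← trR_basis bU g π ρ hρ0 hg' f]
    exact hf g hg
  obtain ⟨r, hr, hr'⟩ := h1
  refine ⟨r, fun w hw => inv_of_monInv hr w hw, ?_⟩
  rw [resR_model hτ hfin hd hc0 bU hbU r]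
  exact hr'

end

end Pool.Agent.CM64
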