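import Pool.Agent.LibCM64.Lf

/-! The cyclic groups `W_H`. -/

set_option linter.unusedSectionVars false

namespace Pool.Agent.CM64

open Module MvPolynomial

section

variable {V : Type} [AddCommGroup V] [Module ℂ V] [FiniteDimensional ℂ V]
variable (W : Subgroup (V ≃ₗ[ℂ] V)) [Finite W]

theorem arr_finrank {H : Submodule ℂ V} (hH : H ∈ arr W) : finrank ℂ H + 1 = finrank ℂ V := by
  obtain ⟨s, _, hs, rfl⟩ := hH
  exact hs

theorem grp_fixSub_ne_top {g : V ≃ₗ[ℂ] V} (hg1 : g ≠ 1) : fixSub g ≠ ⊤ := by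
  intro h
  apply hg1
  ext v
  have hv : v ∈ fixSub g := by rw [h]; trivial
  exact hv

theorem fixSub_of_mem_pst {H : Submodule ℂ V} (hH : finrank ℂ H + 1 = finrank ℂ V) {g : V ≃ₗ[ℂ] V}
    (hg : g ∈ pst W H) (hg1 : g ≠ 1) : fixSub g = H := by
  have hle : H ≤ fixSub g := fun v hv => hg.2 v hv
  have hlt : finrank ℂ (fixSub g) < finrank ℂ V := Submodule.finrank_lt (grp_fixSub_ne_top hg1)
  exact (Submodule.eq_of_le_of_finrank_le hle (by omega)).symm

theorem mem_arr_iff {H : Submodule ℂ V} :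
    H ∈ arr W ↔ finrank ℂ H + 1 = finrank ℂ V ∧ ∃ g ∈ pst W H, g ≠ 1 := by
  constructor
  · intro hH
    refine ⟨arr_finrank W hH, ?_⟩
    obtain ⟨s, hs, hs1, rfl⟩ := hH
    refine ⟨s, ⟨hs, fun v hv => hv⟩, ?_⟩
    rintro rfl
    have h : fixSub (1 : V ≃ₗ[ℂ] V) = ⊤ := by
      ext v
      simp [mem_fixSub]
    unfold IsRefl at hs1
    rw [h, finrank_top] at hs1
    omega
  · rintro ⟨hH, g, hg, hg1⟩
    have h := fixSub_of_mem_pst W hH hg hg1
    refine ⟨g, hg.1, ?_, h⟩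
    unfold IsRefl
    rw [h]
    exact hH

theorem dt_mul (g h : V ≃ₗ[ℂ] V) : dt (g * h) = dt g * dt h := by
  unfold dt
  rw [← LinearMap.det_comp]
  rfl

theorem dt_one : dt (1 : V ≃ₗ[ℂ] V) = 1 := by
  unfold dt
  exact LinearMap.det_id

theorem dt_ne_zero (g : V ≃ₗ[ℂ] V) : dt g ≠ 0 := by
  intro h
  have h1 : dt (g * g⁻¹) = 1 := by rw [mul_inv_cancel, dt_one]
  rw [dt_mul, h, zero_mul] at h1
  exact zero_ne_one h1

theorem grp_dt_pow (g : V ≃ₗ[ℂ] V) (n : ℕ) : dt (g ^ n) = dt g ^ n := by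
  induction n with
  | zero => rw [pow_zero, pow_zero, dt_one]
  | succ n ih => rw [pow_succ, pow_succ, dt_mul, ih]

theorem grp_pow_eH {H : Submodule ℂ V} {g : V ≃ₗ[ℂ] V} (hg : g ∈ pst W H) : g ^ eH W H = 1 := by
  have h : (⟨g, hg⟩ : pst W H) ^ Nat.card (pst W H) = 1 := pow_card_eq_one'
  have h1 : ((⟨g, hg⟩ : pst W H) ^ Nat.card (pst W H) : pst W H).1 = (1 : pst W H).1 :=
    congrArg Subtype.val h
  rw [SubmonoidClass.coe_pow] at h1
  exact h1

/-- elements of `W_H` are transvections or reflections. -/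
theorem grp_form {H : Submodule ℂ V} (hH : finrank ℂ H + 1 = finrank ℂ V) {g : V ≃ₗ[ℂ] V}
    (hg : g ∈ pst W H) : ∃ w : V, (∀ v, g v = v + lf H v • w) ∧ dt g = 1 + lf H w := by
  obtain ⟨hne, hker⟩ := lf_spec H hH
  obtain ⟨e, he⟩ : ∃ e, lf H e ≠ 0 := by
    by_contra hcon
    push Not at hcon
    exact hne (LinearMap.ext hcon)
  have hgv : ∀ v, g v = v + lf H v • ((lf H e)⁻¹ • (g e - e)) := by
    intro v
    have hmem : v - (lf H v * (lf H e)⁻¹) • e ∈ H := by
      rw [mem_iff_lf H hH, map_sub, map_smul, smul_eq_mul, mul_assoc, inv_mul_cancel₀ he, mul_one,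
        sub_self]
    have h1 := hg.2 _ hmem
    rw [map_sub, map_smul] at h1
    have h2 : g v = v - (lf H v * (lf H e)⁻¹) • e + (lf H v * (lf H e)⁻¹) • g e := by
      rw [← h1]
      abel
    rw [h2, smul_smul, smul_sub]
    abel
  refine ⟨(lf H e)⁻¹ • (g e - e), hgv, ?_⟩
  have h3 : (g : V →ₗ[ℂ] V) = LinearMap.transvection (lf H) ((lf H e)⁻¹ • (g e - e)) := by
    ext v
    rw [LinearMap.transvection.apply]
    exact hgv v
  unfold dt
  rw [h3, LinearMap.transvection.det]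

/-- the determinant is injective on `W_H` (a kernel element would be unipotent of finite order). -/
theorem dt_injOn {H : Submodule ℂ V} (hH : finrank ℂ H + 1 = finrank ℂ V) {g : V ≃ₗ[ℂ] V}
    (hg : g ∈ pst W H) (h1 : dt g = 1) : g = 1 := by
  obtain ⟨w, hw, hd⟩ := grp_form W hH hg
  have hw0 : lf H w = 0 := by
    rw [h1] at hd
    exact left_eq_add.mp hd
  have hpow : ∀ n : ℕ, ∀ v, (g ^ n) v = v + (n : ℂ) • (lf H v • w) := by
    intro n
    induction n with
    | zero => intro v; simp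
    | succ n ih =>
      intro v
      rw [pow_succ', LinearEquiv.mul_apply, ih, map_add, map_smul, map_smul, hw v, hw w, hw0,
        zero_smul, add_zero]
      push_cast
      rw [add_smul, one_smul]
      abel
  have he := grp_pow_eH W hg
  have hpos : 0 < eH W H := Nat.card_pos
  ext v
  have h2 := hpow (eH W H) v
  rw [he] at h2
  have h3 : (eH W H : ℂ) • (lf H v • w) = 0 := by
    have : v = v + (eH W H : ℂ) • (lf H v • w) := h2
    exact left_eq_add.mp this
  have h4 : lf H v • w = 0 := by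
    rcases smul_eq_zero.1 h3 with h5 | h5
    · exact absurd (Nat.cast_eq_zero.1 h5) hpos.ne'
    · exact h5
  rw [hw v, h4, add_zero]
  rfl

theorem dt_pow_eH {H : Submodule ℂ V} {g : V ≃ₗ[ℂ] V} (hg : g ∈ pst W H) : dt g ^ eH W H = 1 := by
  rw [← grp_dt_pow, grp_pow_eH W hg, dt_one]

theorem eH_pos (H : Submodule ℂ V) : 0 < eH W H := Nat.card_pos

theorem one_mem_pstF (H : Submodule ℂ V) : (1 : V ≃ₗ[ℂ] V) ∈ pstF W H :=
  mem_pstF.2 (one_mem _)

end

end Pool.Agent.CM64
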