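import Pool.Agent.LibCM64.Theta
import Pool.Agent.LibCM64.Deriv

/-! Derivatives and Dunkl operators: `[∂_v, T_{v'}] = [∂_{v'}, T_v]`. -/

set_option linter.unusedSectionVars false

namespace Pool.Agent.CM64

open Module MvPolynomial

section

variable {V : Type} [AddCommGroup V] [Module ℂ V] [FiniteDimensional ℂ V]
variable {V' : Type} [AddCommGroup V'] [Module ℂ V'] [FiniteDimensional ℂ V']
variable {ι : Type} [Fintype ι] [DecidableEq ι] {ι' : Type} [Fintype ι'] [DecidableEq ι']
variable (W : Subgroup (V ≃ₗ[ℂ] V)) [Finite W] (k : Submodule ℂ V → ℤ → ℂ)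

/-- two `ℂ`-linear maps satisfying the same twisted Leibniz rule and equal on `x`'s and `ξ`'s are equal. -/
theorem der_ext {B : Type} [CommRing B] [NoZeroDivisors B] [Algebra ℂ B] (φ : Ax ι →ₐ[ℂ] B)
    (hφ : Function.Injective φ) {D D' : Ax ι →ₗ[ℂ] B}
    (h : ∀ p q, D (p * q) = φ p * D q + D p * φ q) (h' : ∀ p q, D' (p * q) = φ p * D' q + D' p * φ q)
    (hx : ∀ i, D (xA (X i : Px ι)) = D' (xA (X i : Px ι))) (hX : ∀ i, D (X i) = D' (X i)) : D = D' := by
  have h1 : D 1 = 0 := by
    have := h 1 1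
    rw [mul_one, map_one φ, one_mul, mul_one] at this
    exact left_eq_add.1 this
  have h1' : D' 1 = 0 := by
    have := h' 1 1
    rw [mul_one, map_one φ, one_mul, mul_one] at this
    exact left_eq_add.1 this
  have hpoly : ∀ p : Px ι, D (xA p) = D' (xA p) := by
    intro p
    induction p using MvPolynomial.induction_on with
    | C a =>
      have : xA (C a : Px ι) = a • (1 : Ax ι) := by
        rw [← MvPolynomial.algebraMap_eq, ← Algebra.algebraMap_eq_smul_one]
        exact (xA (ι := ι)).commutes a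
      rw [this, map_smul, map_smul, h1, h1']
    | add p q hp hq => rw [map_add, map_add, map_add, hp, hq]
    | mul_X p i hp => rw [map_mul, h, h', hp, hx]
  have hC : ∀ c : Fx ι, D (C c) = D' (C c) := by
    intro c
    obtain ⟨p, q, hq, rfl⟩ := IsFractionRing.div_surjective (A := Px ι) c
    have hq0 : pF q ≠ 0 := fun h0 => (nonZeroDivisors.ne_zero hq) (pF_injective (by rw [h0, map_zero]))
    have e1 : (algebraMap (Px ι) (Fx ι) p / algebraMap (Px ι) (Fx ι) q) * pF q = pF p := by
      rw [pF_apply, pF_apply, div_mul_cancel₀]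
      rwa [pF_apply] at hq0
    have e2 : (C (algebraMap (Px ι) (Fx ι) p / algebraMap (Px ι) (Fx ι) q) : Ax ι) * xA q = xA p := by
      rw [xA_apply, xA_apply, ← C_mul, e1]
    have e3 := h (C (algebraMap (Px ι) (Fx ι) p / algebraMap (Px ι) (Fx ι) q)) (xA q)
    have e4 := h' (C (algebraMap (Px ι) (Fx ι) p / algebraMap (Px ι) (Fx ι) q)) (xA q)
    rw [e2] at e3 e4
    rw [hpoly p, e4, hpoly q] at e3
    have hx0 : φ (xA q) ≠ 0 := by
      intro h0
      have : xA q = 0 := hφ (by rw [h0, map_zero])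
      exact (nonZeroDivisors.ne_zero hq) (xA_injective (by rw [this, map_zero]))
    exact (mul_right_cancel₀ hx0 (add_left_cancel e3)).symm
  apply LinearMap.ext
  intro m
  induction m using MvPolynomial.induction_on with
  | C a => exact hC a
  | add p q hp hq => rw [map_add, map_add, hp, hq]
  | mul_X p i hp => rw [h, h', hp, hX]

theorem dA_add (b : Basis ι ℂ V) (v v' : V) : dA b (v + v') = dA b v + dA b v' := by
  refine der_ext (AlgHom.id ℂ (Ax ι)) (fun _ _ h => h) ?_ ?_ ?_ ?_
  · intro p q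
    rw [dA_mul]; rfl
  · intro p q
    rw [LinearMap.add_apply, dA_mul, dA_mul, LinearMap.add_apply, LinearMap.add_apply, AlgHom.id_apply,
      AlgHom.id_apply]
    ring
  · intro i
    rw [LinearMap.add_apply, dA_xA_X, dA_xA_X, dA_xA_X, map_add, Finsupp.add_apply, map_add]
  · intro i
    rw [LinearMap.add_apply, dA_X, dA_X, dA_X, add_zero]

theorem dA_smul (b : Basis ι ℂ V) (c : ℂ) (v : V) : dA b (c • v) = c • dA b v := by
  refine der_ext (AlgHom.id ℂ (Ax ι)) (fun _ _ h => h) ?_ ?_ ?_ ?_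
  · intro p q
    rw [dA_mul]; rfl
  · intro p q
    rw [LinearMap.smul_apply, dA_mul, LinearMap.smul_apply, LinearMap.smul_apply, AlgHom.id_apply,
      AlgHom.id_apply, smul_add, mul_smul_comm, smul_mul_assoc]
  · intro i
    rw [LinearMap.smul_apply, dA_xA_X, dA_xA_X, map_smul, Finsupp.smul_apply, smul_eq_mul, map_mul,
      Algebra.smul_def]
  · intro i
    rw [LinearMap.smul_apply, dA_X, dA_X, smul_zero]

private theorem dA_zero (b : Basis ι ℂ V) : dA b (0 : V) = 0 := by
  have := dA_smul b (0 : ℂ) (0 : V)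
  rwa [zero_smul, zero_smul] at this

private theorem dA_sum (b : Basis ι ℂ V) {κ : Type} (s : Finset κ) (F : κ → V) :
    dA b (∑ j ∈ s, F j) = ∑ j ∈ s, dA b (F j) := by
  classical
  induction s using Finset.induction_on with
  | empty => rw [Finset.sum_empty, Finset.sum_empty, dA_zero]
  | insert a s ha ih => rw [Finset.sum_insert ha, Finset.sum_insert ha, dA_add, ih]

/-- `g ∂_v = ∂_{g v} g`. -/
theorem trA_dA (b : Basis ι ℂ V) (b' : Basis ι' ℂ V') (g : V ≃ₗ[ℂ] V') (v : V) (m : Ax ι) :
    trA b b' g (dA b v m) = dA b' (g v) (trA b b' g m) := by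
  have key : (trA b b' g).toLinearMap ∘ₗ (dA b v : Ax ι →ₗ[ℂ] Ax ι)
      = (dA b' (g v) : Ax ι' →ₗ[ℂ] Ax ι') ∘ₗ (trA b b' g).toLinearMap := by
    refine der_ext (trA b b' g) (trA_injective b b' g) ?_ ?_ ?_ ?_
    · intro p q
      simp only [LinearMap.comp_apply, AlgHom.toLinearMap_apply]
      rw [dA_mul, map_add, map_mul, map_mul]
    · intro p q
      simp only [LinearMap.comp_apply, AlgHom.toLinearMap_apply]
      rw [map_mul, dA_mul]
    · intro i
      simp only [LinearMap.comp_apply, AlgHom.toLinearMap_apply]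
      rw [dA_xA_X, trA_xA, trP_X, dA_xl, AlgHom.commutes]
      congr 1
      simp [Basis.coord_apply]
    · intro i
      simp only [LinearMap.comp_apply, AlgHom.toLinearMap_apply]
      rw [dA_X, trA_X, dA_yA, map_zero]
  exact congrArg (fun F => F m) key

/-- `[∂_{v'}, α_H(v)/α_H] = - α_H(v) α_H(v') / α_H²`. -/
theorem dA_qH_mul (b : Basis ι ℂ V) {H : Submodule ℂ V} (hH : finrank ℂ H + 1 = finrank ℂ V) (v v' : V)
    (m : Ax ι) : dA b v' ((C (qH b H v) : Ax ι) * m)
      = C (qH b H v) * dA b v' m - C (qH b H v * qH b H v') * m := by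
  have hα : (xA (xl b (lf H)) : Ax ι) ≠ 0 := by
    intro h0
    exact xl_lf_ne_zero b H hH (xA_injective (by rw [h0, map_zero]))
  have h1 : ∀ u : V, (C (qH b H u) : Ax ι) * xA (xl b (lf H)) = algebraMap ℂ (Ax ι) (lf H u) := by
    intro u
    rw [xA_apply, ← C_mul, qH_mul b H hH u]
    rfl
  have h2 : dA b v' (algebraMap ℂ (Ax ι) (lf H v)) = 0 := by
    rw [Algebra.algebraMap_eq_smul_one, map_smul, dA_one, smul_zero]
  rw [← h1 v, dA_mul, dA_xl, ← h1 v', ← mul_assoc, ← add_mul] at h2
  have h3 : (C (qH b H v) : Ax ι) * C (qH b H v') + dA b v' (C (qH b H v)) = 0 := by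
    rcases mul_eq_zero.1 h2 with h | h
    · exact h
    · exact absurd h hα
  have h4 : dA b v' (C (qH b H v) : Ax ι) = - (C (qH b H v) * C (qH b H v')) := by
    rw [eq_neg_iff_add_eq_zero, add_comm]; exact h3
  rw [dA_mul, h4, C_mul]
  ring

/-- `∂_v (a_H m) - a_H (∂_v m) = ∑_g κ_H(g) (1 - det g) ∂_{P_H v} (g m)`. -/
private theorem dA_aop (b : Basis ι ℂ V) {H : Submodule ℂ V} (hH : finrank ℂ H + 1 = finrank ℂ V) (v : V)
    (m : Ax ι) : dA b v (aop W k b H m) - aop W k b H (dA b v m)
      = dA b (projH W H v) (∑ g ∈ pstF W H, (kap W k H g * (1 - dt g)) • act b g m) := by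
  rw [aop, LinearMap.sum_apply, LinearMap.sum_apply, map_sum, map_sum, ← Finset.sum_sub_distrib]
  refine Finset.sum_congr rfl (fun g hg => ?_)
  have hg' : g ∈ pst W H := mem_pstF.1 hg
  rw [LinearMap.smul_apply, LinearMap.smul_apply, AlgHom.toLinearMap_apply, AlgHom.toLinearMap_apply,
    map_smul, trA_dA, ← smul_sub, map_smul, mul_smul]
  congr 1
  have h1 : dA b v (act b g m) - dA b (g v) (act b g m) = dA b (v - g v) (act b g m) := by
    have h2 : dA b v = dA b (v - g v) + dA b (g v) := by rw [← dA_add, sub_add_cancel]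
    rw [h2, LinearMap.add_apply, add_sub_cancel_right]
  rw [h1, sub_apply_eq W hH hg' v, dA_smul, LinearMap.smul_apply]

private theorem qH_dA (b : Basis ι ℂ V) {H : Submodule ℂ V} (hH : finrank ℂ H + 1 = finrank ℂ V) (v v' : V)
    (m : Ax ι) : (C (qH b H v') : Ax ι) * dA b (projH W H v) m = C (qH b H v) * dA b (projH W H v') m := by
  have h1 : ∀ u : V, (C (qH b H u) : Ax ι) = lf H u • C (pF (xl b (lf H)))⁻¹ := by
    intro u
    rw [qH, div_eq_mul_inv, C_mul, Algebra.smul_def]
    rfl
  rw [h1 v, h1 v', smul_mul_assoc, smul_mul_assoc, ← mul_smul_comm, ← mul_smul_comm,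
    ← LinearMap.smul_apply, ← LinearMap.smul_apply, ← dA_smul, ← dA_smul, lf_smul_projH W hH v v']

/-- `[∂_v, T_{v'}] = [∂_{v'}, T_v]` (use `trA_dA`, `v - g v = (1 - det g) P_H v`, `lf_smul_projH`). -/
theorem dA_dunkl_symm (b : Basis ι ℂ V) (v v' : V) (m : Ax ι) :
    dA b v (dunkl W k b v' m) - dunkl W k b v' (dA b v m)
      = dA b v' (dunkl W k b v m) - dunkl W k b v (dA b v' m) := by
  have key : ∀ u u' : V, dA b u (dunkl W k b u' m) - dunkl W k b u' (dA b u m)
      = ∑ H ∈ arrF W, (C (qH b H u') * dA b (projH W H u)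
          (∑ g ∈ pstF W H, (kap W k H g * (1 - dt g)) • act b g m)
            - C (qH b H u' * qH b H u) * aop W k b H m) := by
    intro u u'
    rw [dunkl, LinearMap.add_apply, LinearMap.add_apply, LinearMap.mulLeft_apply, LinearMap.mulLeft_apply,
      LinearMap.sum_apply, LinearMap.sum_apply, map_add, dA_mul, dA_yA, zero_mul, add_zero,
      add_sub_add_left_eq_sub, map_sum, ← Finset.sum_sub_distrib]
    refine Finset.sum_congr rfl (fun H hH => ?_)
    have hH' := arr_finrank W (mem_arrF.1 hH)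
    rw [LinearMap.comp_apply, LinearMap.comp_apply, LinearMap.mulLeft_apply, LinearMap.mulLeft_apply,
      dA_qH_mul b hH', ← dA_aop W k b hH' u m]
    ring
  rw [key v v', key v' v]
  refine Finset.sum_congr rfl (fun H hH => ?_)
  have hH' := arr_finrank W (mem_arrF.1 hH)
  rw [qH_dA W b hH' v v', mul_comm (qH b H v') (qH b H v)]

/-- chain rule in the momenta. -/
private theorem trA_pderiv (b : Basis ι ℂ V) (b' : Basis ι' ℂ V') (g : V ≃ₗ[ℂ] V') (i : ι) (f : Ax ι) :
    trA b b' g (pderiv i f) = ∑ j, b.coord i (g.symm (b' j)) • pderiv j (trA b b' g f) := by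
  induction f using MvPolynomial.induction_on with
  | C a =>
    rw [pderiv_C, map_zero, trA_C]
    symm
    refine Finset.sum_eq_zero (fun j _ => ?_)
    rw [pderiv_C, smul_zero]
  | add p q hp hq =>
    rw [map_add, map_add, map_add, hp, hq, ← Finset.sum_add_distrib]
    refine Finset.sum_congr rfl (fun j _ => ?_)
    rw [map_add, smul_add]
  | mul_X p l hp =>
    have hX : trA b b' g (pderiv i (X l : Ax ι))
        = ∑ j, b.coord i (g.symm (b' j)) • pderiv j (trA b b' g (X l)) := by
      rw [trA_X, yA_apply]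
      have h1 : ∀ j, b.coord i (g.symm (b' j)) • pderiv j (∑ n, (b'.repr (g (b l)) n) • (X n : Ax ι'))
          = algebraMap ℂ (Ax ι') (b.coord i (g.symm (b' j)) * b'.repr (g (b l)) j) := by
        intro j
        rw [map_sum, Finset.sum_eq_single j]
        · rw [Derivation.map_smul_of_tower, pderiv_X_self, smul_smul, ← Algebra.algebraMap_eq_smul_one]
        · intro n _ hn
          rw [Derivation.map_smul_of_tower, pderiv_X_of_ne hn, smul_zero]
        · intro h; exact absurd (Finset.mem_univ _) h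
      rw [Finset.sum_congr rfl (fun j _ => h1 j), ← map_sum]
      have h2 : ∑ j, b.coord i (g.symm (b' j)) * b'.repr (g (b l)) j = b.coord i (b l) := by
        have h3 := b'.sum_repr (g (b l))
        have h4 : b l = g.symm (∑ j, b'.repr (g (b l)) j • b' j) := by
          rw [h3, LinearEquiv.symm_apply_apply]
        conv_rhs => rw [h4]
        rw [map_sum, map_sum]
        refine Finset.sum_congr rfl (fun j _ => ?_)
        rw [map_smul, map_smul, smul_eq_mul, mul_comm]
      rw [h2, Basis.coord_apply, Basis.repr_self]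
      by_cases hil : l = i
      · subst hil
        rw [pderiv_X_self, map_one, Finsupp.single_eq_same, map_one]
      · rw [pderiv_X_of_ne hil, map_zero, Finsupp.single_eq_of_ne (Ne.symm hil), map_zero]
    rw [Derivation.leibniz, smul_eq_mul, smul_eq_mul, map_add, map_mul, map_mul, hp, hX, map_mul,
      Finset.mul_sum, Finset.mul_sum, ← Finset.sum_add_distrib]
    refine Finset.sum_congr rfl (fun j _ => ?_)
    rw [Derivation.leibniz, smul_eq_mul, smul_eq_mul, smul_add, mul_smul_comm, mul_smul_comm]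

private theorem trA_nab' (b : Basis ι ℂ V) (b' : Basis ι' ℂ V') (g : V ≃ₗ[ℂ] V') (f : Ax ι) (m : Ax ι) :
    trA b b' g (∑ i, pderiv i f * dA b (b i) m)
      = ∑ j, pderiv j (trA b b' g f) * dA b' (b' j) (trA b b' g m) := by
  rw [map_sum]
  have h1 : ∀ i, trA b b' g (pderiv i f * dA b (b i) m)
      = ∑ j, pderiv j (trA b b' g f) * dA b' (b.coord i (g.symm (b' j)) • g (b i)) (trA b b' g m) := by
    intro i
    rw [map_mul, trA_pderiv, trA_dA, Finset.sum_mul]
    refine Finset.sum_congr rfl (fun j _ => ?_)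
    rw [dA_smul, LinearMap.smul_apply, smul_mul_assoc, mul_smul_comm]
  rw [Finset.sum_congr rfl (fun i _ => h1 i), Finset.sum_comm]
  refine Finset.sum_congr rfl (fun j _ => ?_)
  rw [← Finset.mul_sum, ← LinearMap.sum_apply, ← dA_sum]
  have h2 : ∑ i, b.coord i (g.symm (b' j)) • g (b i) = b' j := by
    have h3 := b.sum_repr (g.symm (b' j))
    have h4 : b' j = g (∑ i, b.repr (g.symm (b' j)) i • b i) := by
      rw [h3, LinearEquiv.apply_symm_apply]
    conv_rhs => rw [h4]
    rw [map_sum]
    refine Finset.sum_congr rfl (fun i _ => ?_)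
    rw [map_smul]; rfl
  rw [h2]

/-- the canonical bracket is invariant under linear isomorphisms. -/
theorem trA_pb (b : Basis ι ℂ V) (b' : Basis ι' ℂ V') (g : V ≃ₗ[ℂ] V') (f f' : Ax ι) :
    trA b b' g (pb b f f') = pb b' (trA b b' g f) (trA b b' g f') := by
  rw [pb, pb, Finset.sum_sub_distrib, Finset.sum_sub_distrib, map_sub, trA_nab', trA_nab']

/-- `g ∇_f g⁻¹ = ∇_{g f}`. -/
theorem trA_nab (b : Basis ι ℂ V) (b' : Basis ι' ℂ V') (g : V ≃ₗ[ℂ] V') (f : Ax ι) (m : Ax ι) :
    trA b b' g (nab b f m) = nab b' (trA b b' g f) (trA b b' g m) := by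
  rw [nab, nab, LinearMap.sum_apply, LinearMap.sum_apply]
  exact trA_nab' b b' g f m

end

end Pool.Agent.CM64
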