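import Pool.Agent.LibCM64.Base

/-! Homogeneous systems of parameters. -/

set_option linter.unusedSectionVars false

namespace Pool.Agent.CM64

open Module MvPolynomial

/-- the homogeneous component of a multiple of a homogeneous polynomial -/
private theorem hs_comp {κ : Type} (n e : ℕ) (h p : MvPolynomial κ ℂ) (hp : p.IsHomogeneous e) :
    homogeneousComponent n (h * p) =
      ∑ k ∈ Finset.range (h.totalDegree + 1),
        if n = k + e then homogeneousComponent k h * p else 0 := by
  conv_lhs => rw [← sum_homogeneousComponent h, Finset.sum_mul, map_sum]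
  refine Finset.sum_congr rfl fun k _ => ?_
  exact homogeneousComponent_of_mem ((homogeneousComponent_isHomogeneous k h).mul hp)

/-- a power of each variable lies in the ideal of a homogeneous system without nontrivial zero -/
private theorem hs_pow {κ : Type} [Fintype κ] [DecidableEq κ] (φ : κ → MvPolynomial κ ℂ)
    (hz : ∀ x : κ → ℂ, (∀ i, eval x (φ i) = 0) → x = 0) :
    ∃ N : ℕ, ∀ j, (X j : MvPolynomial κ ℂ) ^ N ∈ Ideal.span (Set.range φ) := by
  have h1 : ∀ j, ∃ N : ℕ, (X j : MvPolynomial κ ℂ) ^ N ∈ Ideal.span (Set.range φ) := by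
    intro j
    have h2 : (X j : MvPolynomial κ ℂ) ∈ (Ideal.span (Set.range φ)).radical := by
      rw [← vanishingIdeal_zeroLocus_eq_radical (K := ℂ), mem_vanishingIdeal_iff]
      intro x hx
      rw [zeroLocus_span] at hx
      have h3 : x = 0 := by
        apply hz
        intro i
        have h4 := hx (φ i) ⟨i, rfl⟩
        have h5 : aeval x (φ i) = eval x (φ i) := by
          rw [← coe_aeval_eq_eval]
          rfl
        rw [← h5]
        exact h4
      rw [h3]
      simp
    exact h2
  choose N hN using h1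
  refine ⟨∑ j, N j, fun j => ?_⟩
  have h4 : N j ≤ ∑ j, N j := Finset.single_le_sum (f := N) (fun _ _ => Nat.zero_le _)
    (Finset.mem_univ j)
  obtain ⟨c, hc⟩ := Nat.exists_eq_add_of_le h4
  rw [hc, pow_add]
  exact Ideal.mul_mem_right _ _ (hN j)

/-- the polynomial ring is integral over the subalgebra generated by the system -/
private theorem hs_int {κ : Type} [Fintype κ] [DecidableEq κ] (φ : κ → MvPolynomial κ ℂ)
    (hom : ∀ i, ∃ d, 0 < d ∧ (φ i).IsHomogeneous d)
    (hz : ∀ x : κ → ℂ, (∀ i, eval x (φ i) = 0) → x = 0) :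
    Algebra.IsIntegral (Algebra.adjoin ℂ (Set.range φ)) (MvPolynomial κ ℂ) := by
  obtain ⟨N, hN⟩ := hs_pow φ hz
  choose dg hdg0 hdg using hom
  set S := Algebra.adjoin ℂ (Set.range φ) with hS
  set G : Set (MvPolynomial κ ℂ) := (fun a : κ → Fin (N + 1) =>
    monomial (Finsupp.equivFunOnFinite.symm (fun j => (a j : ℕ))) (1 : ℂ)) '' Set.univ with hG
  set T : Submodule S (MvPolynomial κ ℂ) := Submodule.span S G with hT
  have hsm : ∀ i : κ, ∀ q ∈ T, q * φ i ∈ T := by
    intro i q hq
    have h1 : φ i ∈ S := Algebra.subset_adjoin ⟨i, rfl⟩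
    have h2 := T.smul_mem (⟨φ i, h1⟩ : S) hq
    rw [Subalgebra.smul_def, smul_eq_mul, mul_comm] at h2
    exact h2
  have hC : ∀ c : ℂ, ∀ q ∈ T, C c * q ∈ T := by
    intro c q hq
    have h1 : (C c : MvPolynomial κ ℂ) ∈ S := S.algebraMap_mem c
    have h2 := T.smul_mem (⟨C c, h1⟩ : S) hq
    rwa [Subalgebra.smul_def, smul_eq_mul] at h2
  have key : ∀ n : ℕ, ∀ q : MvPolynomial κ ℂ, q.IsHomogeneous n → q ∈ T := by
    intro n
    induction n using Nat.strong_induction_on with
    | _ n ih =>
      intro q hq
      -- elements of the ideal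
      have hI : ∀ q : MvPolynomial κ ℂ, q.IsHomogeneous n → q ∈ Ideal.span (Set.range φ) →
          q ∈ T := by
        intro q hq hqI
        obtain ⟨h, hh⟩ := (Submodule.mem_span_range_iff_exists_fun (MvPolynomial κ ℂ)).1 hqI
        have h1 : q = ∑ i, homogeneousComponent n (h i * φ i) := by
          rw [← map_sum]
          have h2 : ∑ i, h i * φ i = q := by simpa using hh
          rw [h2, homogeneousComponent_eq_self hq]
        rw [h1]
        refine T.sum_mem fun i _ => ?_
        rw [hs_comp n (dg i) (h i) (φ i) (hdg i)]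
        refine T.sum_mem fun k _ => ?_
        split_ifs with hk
        · exact hsm i _ (ih k (by have := hdg0 i; omega) _ (homogeneousComponent_isHomogeneous k _))
        · exact T.zero_mem
      rw [q.as_sum]
      refine T.sum_mem fun a ha => ?_
      have hdeg : a.degree = n := by
        by_contra hne
        exact (mem_support_iff.1 ha) (hq.coeff_eq_zero hne)
      by_cases hsmall : ∀ j, a j ≤ N
      · have h1 : monomial a (coeff a q) = C (coeff a q) * monomial a 1 := by
          rw [C_mul_monomial, mul_one]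
        rw [h1]
        refine hC _ _ (Submodule.subset_span ⟨fun j => ⟨a j, by have := hsmall j; omega⟩,
          Set.mem_univ _, ?_⟩)
        show monomial (Finsupp.equivFunOnFinite.symm (fun j => a j)) (1 : ℂ) = monomial a 1
        congr 2
        ext j
        rfl
      · push Not at hsmall
        obtain ⟨j, hj⟩ := hsmall
        refine hI _ (isHomogeneous_monomial _ hdeg) ?_
        have h1 : a = (a - Finsupp.single j N) + Finsupp.single j N := by
          ext i
          by_cases hi : i = j
          · subst hi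
            simp only [Finsupp.coe_add, Finsupp.coe_tsub, Pi.add_apply, Pi.sub_apply,
              Finsupp.single_eq_same]
            omega
          · simp [Finsupp.single_eq_of_ne hi]
        have h2 : monomial a (coeff a q) = monomial (a - Finsupp.single j N) (coeff a q) *
            (X j : MvPolynomial κ ℂ) ^ N := by
          rw [X_pow_eq_monomial, monomial_mul, mul_one, ← h1]
        rw [h2]
        exact Ideal.mul_mem_left _ _ (hN j)
  have htop : T = ⊤ := by
    rw [eq_top_iff]
    intro q _
    rw [← sum_homogeneousComponent q]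
    exact T.sum_mem fun k _ => key k _ (homogeneousComponent_isHomogeneous k q)
  have hfg : (⊤ : Submodule S (MvPolynomial κ ℂ)).FG := by
    rw [← htop, hT]
    exact Submodule.fg_span (Set.toFinite _)
  have : Module.Finite S (MvPolynomial κ ℂ) := ⟨hfg⟩
  infer_instance

/-- homogeneous systems of parameters are surjective: `κ` homogeneous polynomials of positive degree in `κ` variables
without common zero except `0` take all values. (By the Nullstellensatz the `X_j^N` are in the ideal of the `φ_i`, so the
polynomial ring is finite over `ℂ[φ]`, the `φ_i` are algebraically independent by `trdeg`; lying over and the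
Nullstellensatz for the maximal ideal `(φ_i - c_i)`.) -/
theorem homog_system_surj {κ : Type} [Fintype κ] [DecidableEq κ] (φ : κ → MvPolynomial κ ℂ)
    (hom : ∀ i, ∃ d, 0 < d ∧ (φ i).IsHomogeneous d)
    (hz : ∀ x : κ → ℂ, (∀ i, eval x (φ i) = 0) → x = 0) (c : κ → ℂ) : ∃ x : κ → ℂ, ∀ i, eval x (φ i) = c i := by
  have hint := hs_int φ hom hz
  have halg : Algebra.IsAlgebraic (Algebra.adjoin ℂ (Set.range φ)) (MvPolynomial κ ℂ) :=
    inferInstance
  have htb : IsTranscendenceBasis ℂ φ := by
    refine Algebra.IsAlgebraic.isTranscendenceBasis_of_le_trdeg_of_finite ℂ φ ?_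
    rw [MvPolynomial.trdeg_of_isDomain]
    simp
  have hind : AlgebraicIndependent ℂ φ := htb.1
  set S := Algebra.adjoin ℂ (Set.range φ) with hS
  let ψ : S →ₐ[ℂ] ℂ := (aeval c).comp (hind.aevalEquiv.symm : S →ₐ[ℂ] MvPolynomial κ ℂ)
  have hsurj : Function.Surjective ψ := by
    intro z
    refine ⟨algebraMap ℂ S z, ?_⟩
    rw [AlgHom.commutes]
    rfl
  have hmax : (RingHom.ker ψ).IsMaximal := RingHom.ker_isMaximal_of_surjective ψ hsurj
  have hker : RingHom.ker (algebraMap S (MvPolynomial κ ℂ)) ≤ RingHom.ker ψ := by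
    intro s hs
    have h1 : (s : MvPolynomial κ ℂ) = 0 := hs
    have h2 : s = 0 := Subtype.ext h1
    rw [h2]
    exact (RingHom.ker ψ).zero_mem
  obtain ⟨Q, hQ, hQc⟩ := Ideal.exists_ideal_over_maximal_of_isIntegral (RingHom.ker ψ) hker
  obtain ⟨x, hx⟩ := isMaximal_iff_eq_vanishingIdeal_singleton.1 hQ
  refine ⟨x, fun i => ?_⟩
  have hmem : φ i ∈ S := Algebra.subset_adjoin ⟨i, rfl⟩
  have h1 : (⟨φ i, hmem⟩ : S) - algebraMap ℂ S (c i) ∈ RingHom.ker ψ := by
    rw [RingHom.mem_ker, map_sub, AlgHom.commutes]
    have h2 : hind.aevalEquiv.symm ⟨φ i, hmem⟩ = X i := by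
      rw [AlgEquiv.symm_apply_eq]
      apply Subtype.ext
      have := hind.algebraMap_aevalEquiv (X i)
      rw [aeval_X] at this
      exact this.symm
    have h3 : ψ ⟨φ i, hmem⟩ = c i := by
      show aeval c (hind.aevalEquiv.symm ⟨φ i, hmem⟩) = c i
      rw [h2, aeval_X]
    rw [h3]
    simp
  rw [← hQc, Ideal.mem_comap, hx, mem_vanishingIdeal_singleton_iff, map_sub, map_sub] at h1
  have h4 : aeval x ((algebraMap S (MvPolynomial κ ℂ)) (algebraMap ℂ S (c i))) = c i := by
    rw [← IsScalarTower.algebraMap_apply]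
    simp
  rw [h4] at h1
  have h5 : aeval x ((algebraMap S (MvPolynomial κ ℂ)) ⟨φ i, hmem⟩) = eval x (φ i) := by
    rw [← coe_aeval_eq_eval]
    rfl
  rw [h5] at h1
  exact sub_eq_zero.1 h1

end Pool.Agent.CM64
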