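import Pool.Agent.LibCM64.Lf
import Pool.Agent.LibCM64.Deriv

/-! Polynomial functions on `V`: evaluation, invariants, derivatives. -/

set_option linter.unusedSectionVars false

namespace Pool.Agent.CM64

open Module MvPolynomial

section

variable {V : Type} [AddCommGroup V] [Module ℂ V] [FiniteDimensional ℂ V]
variable {V' : Type} [AddCommGroup V'] [Module ℂ V'] [FiniteDimensional ℂ V']
variable {ι : Type} [Fintype ι] [DecidableEq ι] {ι' : Type} [Fintype ι'] [DecidableEq ι']

/-- evaluation of a polynomial function at a vector. -/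
noncomputable def evP (b : Basis ι ℂ V) (v : V) : Px ι →ₐ[ℂ] ℂ := aeval (fun i => b.repr v i)

theorem evP_xl (b : Basis ι ℂ V) (v : V) (f : Dual ℂ V) : evP b v (xl b f) = f v := by
  rw [xl_apply, map_sum]
  conv_rhs => rw [← b.sum_repr v]
  rw [map_sum]
  refine Finset.sum_congr rfl (fun i _ => ?_)
  rw [map_smul, map_smul, smul_eq_mul, smul_eq_mul, evP, aeval_X, mul_comm]

theorem evP_trP (b : Basis ι ℂ V) (b' : Basis ι' ℂ V') (g : V ≃ₗ[ℂ] V') (v : V') (p : Px ι) :
    evP b' v (trP b b' g p) = evP b (g.symm v) p := by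
  have h : (evP b' v).comp (trP b b' g) = evP b (g.symm v) := by
    apply MvPolynomial.algHom_ext
    intro i
    rw [AlgHom.comp_apply, trP_X, evP_xl]
    unfold evP
    rw [aeval_X]
    rfl
  rw [← h, AlgHom.comp_apply]

/-- a polynomial is determined by its values. -/
theorem evP_ext (b : Basis ι ℂ V) {p q : Px ι} (h : ∀ v, evP b v p = evP b v q) : p = q := by
  apply MvPolynomial.funext
  intro x
  have h1 := h (b.equivFun.symm x)
  have h2 : (fun i => b.repr (b.equivFun.symm x) i) = x := by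
    have := b.equivFun.apply_symm_apply x
    exact this
  unfold evP at h1
  rw [h2] at h1
  exact h1

/-- a nonzero polynomial has a nonzero value; moreover finitely many nonzero polynomials have a common
non-zero. -/
theorem exists_evP_ne (b : Basis ι ℂ V) (s : Finset (Px ι)) (h : ∀ p ∈ s, p ≠ 0) :
    ∃ v, ∀ p ∈ s, evP b v p ≠ 0 := by
  by_contra hc
  push Not at hc
  have h0 : ∏ p ∈ s, p = 0 := by
    apply evP_ext b
    intro v
    obtain ⟨p, hp, hv⟩ := hc v
    rw [map_prod, map_zero]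
    exact Finset.prod_eq_zero hp hv
  obtain ⟨p, hp, hp0⟩ := Finset.prod_eq_zero_iff.1 h0
  exact h p hp hp0

/-- values of a homogeneous polynomial. -/
theorem evP_smul (b : Basis ι ℂ V) {p : Px ι} {d : ℕ} (hp : p.IsHomogeneous d) (c : ℂ) (v : V) :
    evP b (c • v) p = c ^ d * evP b v p := by
  unfold evP
  have e : (fun i => b.repr (c • v) i) = fun i => c * b.repr v i := by
    funext i
    rw [map_smul]
    rfl
  rw [e]
  change eval (fun i => c * b.repr v i) p = c ^ d * eval (fun i => b.repr v i) p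
  rw [MvPolynomial.eval_eq, MvPolynomial.eval_eq, Finset.mul_sum]
  refine Finset.sum_congr rfl (fun m hm => ?_)
  have hdeg : ∑ i ∈ m.support, m i = d := by
    have := hp (MvPolynomial.mem_support_iff.1 hm)
    rw [← this]
    simp [Finsupp.weight_apply, Finsupp.sum]
  have h2 : ∏ i ∈ m.support, (c * b.repr v i) ^ m i = c ^ d * ∏ i ∈ m.support, (b.repr v i) ^ m i := by
    simp only [mul_pow]
    rw [Finset.prod_mul_distrib, Finset.prod_pow_eq_pow_sum, hdeg]
  rw [h2]
  ring

private theorem xl_hom_aux (b : Basis ι ℂ V) (f : Dual ℂ V) : (xl b f).IsHomogeneous 1 := by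
  rw [xl_apply]
  have h : ∑ i, f (b i) • (X i : Px ι) ∈ homogeneousSubmodule ι ℂ 1 := by
    refine Submodule.sum_mem _ (fun i _ => Submodule.smul_mem _ _ ?_)
    exact isHomogeneous_X ℂ i
  exact h

/-- `trP` preserves homogeneous polynomials. -/
theorem trP_isHomogeneous (b : Basis ι ℂ V) (b' : Basis ι' ℂ V') (g : V ≃ₗ[ℂ] V') {p : Px ι} {d : ℕ}
    (hp : p.IsHomogeneous d) : (trP b b' g p).IsHomogeneous d := by
  have h := hp.aeval (n := 1) (fun i => xl b' ((b.coord i).comp (g.symm : V' →ₗ[ℂ] V)))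
    (fun i => xl_hom_aux b' _)
  rw [one_mul] at h
  exact h

theorem homogeneousComponent_trP (b : Basis ι ℂ V) (b' : Basis ι' ℂ V') (g : V ≃ₗ[ℂ] V') (p : Px ι) (d : ℕ) :
    homogeneousComponent d (trP b b' g p) = trP b b' g (homogeneousComponent d p) := by
  have key : ∀ i, homogeneousComponent d (trP b b' g (homogeneousComponent i p)) =
      trP b b' g (homogeneousComponent d (homogeneousComponent i p)) := by
    intro i
    rw [homogeneousComponent_of_mem (trP_isHomogeneous b b' g (homogeneousComponent_isHomogeneous i p)),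
      homogeneousComponent_of_mem (homogeneousComponent_isHomogeneous i p)]
    split_ifs
    · rfl
    · rw [map_zero]
  conv_lhs => rw [← sum_homogeneousComponent p]
  conv_rhs => rw [← sum_homogeneousComponent p]
  rw [map_sum, map_sum, map_sum, map_sum]
  exact Finset.sum_congr rfl (fun i _ => key i)

theorem xl_isHomogeneous (b : Basis ι ℂ V) (f : Dual ℂ V) : (xl b f).IsHomogeneous 1 :=
  xl_hom_aux b f

/-- `p` is `Γ`-invariant. -/
def PInv (Γ : Subgroup (V ≃ₗ[ℂ] V)) (b : Basis ι ℂ V) (p : Px ι) : Prop := ∀ g ∈ Γ, trP b b g p = p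

/-- the algebra `ℂ[V]^Γ`. -/
def invP (Γ : Subgroup (V ≃ₗ[ℂ] V)) (b : Basis ι ℂ V) : Subalgebra ℂ (Px ι) where
  carrier := {p | PInv Γ b p}
  mul_mem' := by
    intro p q hp hq g hg
    rw [map_mul, hp g hg, hq g hg]
  add_mem' := by
    intro p q hp hq g hg
    rw [map_add, hp g hg, hq g hg]
  algebraMap_mem' := by
    intro r g _
    exact (trP b b g).commutes r

theorem mem_invP {Γ : Subgroup (V ≃ₗ[ℂ] V)} {b : Basis ι ℂ V} {p : Px ι} : p ∈ invP Γ b ↔ PInv Γ b p :=
  Iff.rfl

/-- homogeneous components of invariants are invariant. -/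
theorem PInv_homogeneousComponent {Γ : Subgroup (V ≃ₗ[ℂ] V)} {b : Basis ι ℂ V} {p : Px ι}
    (hp : PInv Γ b p) (d : ℕ) : PInv Γ b (homogeneousComponent d p) := by
  intro g hg
  rw [← homogeneousComponent_trP, hp g hg]

/-- the derivative of `p` in the direction `v`. -/
noncomputable def dP (b : Basis ι ℂ V) (v : V) : Px ι →ₗ[ℂ] Px ι := ∑ i, (b.repr v i) • (pderiv i).toLinearMap

private theorem dP_apply_aux (b : Basis ι ℂ V) (v : V) (p : Px ι) :
    dP b v p = ∑ i, b.repr v i • pderiv i p := by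
  unfold dP
  rw [LinearMap.sum_apply]
  rfl

theorem dP_mul (b : Basis ι ℂ V) (v : V) (p q : Px ι) : dP b v (p * q) = p * dP b v q + dP b v p * q := by
  rw [dP_apply_aux, dP_apply_aux, dP_apply_aux]
  rw [Finset.mul_sum, Finset.sum_mul, ← Finset.sum_add_distrib]
  refine Finset.sum_congr rfl (fun i _ => ?_)
  rw [Derivation.leibniz, smul_add, smul_eq_mul, smul_eq_mul, mul_smul_comm, smul_mul_assoc,
    mul_comm q]

theorem dP_xl (b : Basis ι ℂ V) (v : V) (f : Dual ℂ V) : dP b v (xl b f) = C (f v) := by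
  rw [dP_apply_aux]
  have h1 : ∀ i, pderiv i (xl b f) = C (f (b i)) := by
    intro i
    rw [xl_apply, map_sum, Finset.sum_eq_single i]
    · rw [Derivation.map_smul, pderiv_X_self, Algebra.smul_def, mul_one]
      rfl
    · intro j _ hj
      rw [Derivation.map_smul, pderiv_X_of_ne hj, smul_zero]
    · intro h
      exact absurd (Finset.mem_univ i) h
  have h2 : f v = ∑ i, b.repr v i * f (b i) := by
    conv_lhs => rw [← b.sum_repr v]
    rw [map_sum]
    exact Finset.sum_congr rfl (fun i _ => by rw [map_smul, smul_eq_mul])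
  rw [h2, map_sum]
  refine Finset.sum_congr rfl (fun i _ => ?_)
  rw [h1, C_mul, Algebra.smul_def]
  rfl

private theorem dP_C_aux (b : Basis ι ℂ V) (v : V) (a : ℂ) : dP b v (C a) = 0 := by
  unfold dP
  simp

theorem dP_trP (b : Basis ι ℂ V) (b' : Basis ι' ℂ V') (g : V ≃ₗ[ℂ] V') (v : V) (p : Px ι) :
    dP b' (g v) (trP b b' g p) = trP b b' g (dP b v p) := by
  induction p using MvPolynomial.induction_on with
  | C a =>
    have h : trP b b' g (C a) = C a := (trP b b' g).commutes a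
    rw [h, dP_C_aux, dP_C_aux, map_zero]
  | add p q hp hq => rw [map_add, map_add, map_add, map_add, hp, hq]
  | mul_X p i hp =>
    have h1 : trP b b' g (C (b.repr v i)) = C (b.repr v i) := (trP b b' g).commutes _
    have h2 : dP b v (X i) = C (b.repr v i) := by
      rw [← xl_coord b i, dP_xl]
      rfl
    have h3 : dP b' (g v) (trP b b' g (X i)) = C (b.repr v i) := by
      rw [trP_X, dP_xl]
      simp
    rw [map_mul, dP_mul, dP_mul, map_add, map_mul, map_mul, hp, h2, h3, h1]

/-- the differential of `p` at `u`, a linear form on `V`. -/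
noncomputable def dfl (b : Basis ι ℂ V) (u : V) (p : Px ι) : Dual ℂ V where
  toFun v := evP b u (dP b v p)
  map_add' v w := by
    simp [dP, add_smul, Finset.sum_add_distrib]
  map_smul' c v := by
    simp [dP, mul_smul, Finset.mul_sum]

theorem dfl_apply (b : Basis ι ℂ V) (u v : V) (p : Px ι) : dfl b u p v = evP b u (dP b v p) := rfl

theorem dfl_trP (b : Basis ι ℂ V) (b' : Basis ι' ℂ V') (g : V ≃ₗ[ℂ] V') (u : V) (p : Px ι) :
    dfl b' (g u) (trP b b' g p) = (dfl b u p).comp (g.symm : V' →ₗ[ℂ] V) := by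
  ext v
  rw [dfl_apply, LinearMap.comp_apply, dfl_apply]
  have h := dP_trP b b' g (g.symm v) p
  rw [LinearEquiv.apply_symm_apply] at h
  rw [h, evP_trP, LinearEquiv.symm_apply_apply]
  rfl

end

section

variable {V : Type} [AddCommGroup V] [Module ℂ V] [FiniteDimensional ℂ V]
variable {ι : Type} [Fintype ι] [DecidableEq ι]
variable (Γ : Subgroup (V ≃ₗ[ℂ] V)) [Finite Γ]

/-- Reynolds operator. -/
noncomputable def reyP (b : Basis ι ℂ V) : Px ι →ₗ[ℂ] Px ι :=
  ((elF Γ).card : ℂ)⁻¹ • ∑ g ∈ elF Γ, (trP b b g).toLinearMap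

/-- reindexing over the group -/
private theorem sum_elF_aux {M : Type*} [AddCommMonoid M] (F : (V ≃ₗ[ℂ] V) → M) {h : V ≃ₗ[ℂ] V}
    (hh : h ∈ Γ) : ∑ g ∈ elF Γ, F (h * g) = ∑ g ∈ elF Γ, F g := by
  refine Finset.sum_nbij' (fun g => h * g) (fun g => h⁻¹ * g) ?_ ?_ ?_ ?_ ?_
  · intro g hg
    exact (mem_elF Γ).2 (Γ.mul_mem hh ((mem_elF Γ).1 hg))
  · intro g hg
    exact (mem_elF Γ).2 (Γ.mul_mem (Γ.inv_mem hh) ((mem_elF Γ).1 hg))
  · intro g _
    simp
  · intro g _
    simp
  · intro g _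
    rfl

private theorem prod_elF_aux {M : Type*} [CommMonoid M] (F : (V ≃ₗ[ℂ] V) → M) {h : V ≃ₗ[ℂ] V}
    (hh : h ∈ Γ) : ∏ g ∈ elF Γ, F (h * g) = ∏ g ∈ elF Γ, F g := by
  refine Finset.prod_nbij' (fun g => h * g) (fun g => h⁻¹ * g) ?_ ?_ ?_ ?_ ?_
  · intro g hg
    exact (mem_elF Γ).2 (Γ.mul_mem hh ((mem_elF Γ).1 hg))
  · intro g hg
    exact (mem_elF Γ).2 (Γ.mul_mem (Γ.inv_mem hh) ((mem_elF Γ).1 hg))
  · intro g _
    simp
  · intro g _
    simp
  · intro g _
    rfl

private theorem trP_mul_aux (b : Basis ι ℂ V) (h g : V ≃ₗ[ℂ] V) (p : Px ι) :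
    trP b b h (trP b b g p) = trP b b (h * g) p :=
  trP_trans_apply b b b g h p

private theorem elF_card_aux : ((elF Γ).card : ℂ) ≠ 0 := by
  rw [Nat.cast_ne_zero]
  exact (Finset.card_pos.2 ⟨1, (mem_elF Γ).2 Γ.one_mem⟩).ne'

private theorem reyP_apply_aux (b : Basis ι ℂ V) (p : Px ι) :
    reyP Γ b p = ((elF Γ).card : ℂ)⁻¹ • ∑ g ∈ elF Γ, trP b b g p := by
  unfold reyP
  rw [LinearMap.smul_apply, LinearMap.sum_apply]
  rfl

/-- separation of a point from a finite set -/
private theorem interp_aux (b : Basis ι ℂ V) (v₀ : V) (s : Finset V) (h : v₀ ∉ s) :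
    ∃ E : Px ι, evP b v₀ E = 1 ∧ ∀ x ∈ s, evP b x E = 0 := by
  classical
  induction s using Finset.induction_on with
  | empty => exact ⟨1, by simp, by simp⟩
  | insert x s _ ih =>
    rw [Finset.mem_insert, not_or] at h
    obtain ⟨E, hE1, hE0⟩ := ih h.2
    obtain ⟨f, hf⟩ : ∃ f : Dual ℂ V, f (v₀ - x) ≠ 0 := by
      by_contra hc
      push Not at hc
      exact h.1 (sub_eq_zero.1 ((Module.forall_dual_apply_eq_zero_iff ℂ (v₀ - x)).1 hc))
    rw [map_sub] at hf
    refine ⟨E * (C (f v₀ - f x)⁻¹ * (xl b f - C (f x))), ?_, ?_⟩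
    · have e1 : ∀ (w : V) (a : ℂ), evP b w (C a) = a := fun w a => (evP b w).commutes a
      rw [map_mul, hE1, map_mul, map_sub, evP_xl, e1, e1, inv_mul_cancel₀ hf, mul_one]
    · intro y hy
      have e1 : ∀ (w : V) (a : ℂ), evP b w (C a) = a := fun w a => (evP b w).commutes a
      rw [Finset.mem_insert] at hy
      rcases hy with rfl | hy
      · rw [map_mul, map_mul, map_sub, evP_xl, e1, e1, sub_self, mul_zero, mul_zero]
      · rw [map_mul, hE0 y hy, zero_mul]

theorem reyP_inv (b : Basis ι ℂ V) (p : Px ι) : PInv Γ b (reyP Γ b p) := by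
  intro h hh
  rw [reyP_apply_aux, map_smul, map_sum]
  congr 1
  rw [← sum_elF_aux Γ (fun g => trP b b g p) hh]
  exact Finset.sum_congr rfl (fun g _ => trP_mul_aux b h g p)

theorem reyP_of_inv (b : Basis ι ℂ V) {p : Px ι} (hp : PInv Γ b p) : reyP Γ b p = p := by
  rw [reyP_apply_aux, Finset.sum_congr rfl (fun g hg => hp g ((mem_elF Γ).1 hg)), Finset.sum_const,
    ← Nat.cast_smul_eq_nsmul ℂ, smul_smul, inv_mul_cancel₀ (elF_card_aux Γ), one_smul]

theorem reyP_mul (b : Basis ι ℂ V) {p : Px ι} (hp : PInv Γ b p) (q : Px ι) :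
    reyP Γ b (p * q) = p * reyP Γ b q := by
  rw [reyP_apply_aux, reyP_apply_aux, mul_smul_comm, Finset.mul_sum]
  congr 1
  refine Finset.sum_congr rfl (fun g hg => ?_)
  rw [map_mul, hp g ((mem_elF Γ).1 hg)]

theorem reyP_isHomogeneous (b : Basis ι ℂ V) {p : Px ι} {d : ℕ} (hp : p.IsHomogeneous d) :
    (reyP Γ b p).IsHomogeneous d := by
  rw [reyP_apply_aux]
  have h : ((elF Γ).card : ℂ)⁻¹ • ∑ g ∈ elF Γ, trP b b g p ∈ homogeneousSubmodule ι ℂ d :=
    Submodule.smul_mem _ _ (Submodule.sum_mem _ (fun g _ => trP_isHomogeneous b b g hp))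
  exact h

/-- every `p` is a root of `∏_g (T - g p)`, monic with invariant coefficients. -/
theorem isIntegral_invP (b : Basis ι ℂ V) (p : Px ι) : IsIntegral (invP Γ b) p := by
  letI inst : MulSemiringAction Γ (Px ι) :=
    { smul := fun g p => trP b b (g : V ≃ₗ[ℂ] V) p
      one_smul := fun p => by
        change trP b b (LinearEquiv.refl ℂ V) p = p
        rw [trP_refl, AlgHom.id_apply]
      mul_smul := fun g h p => (trP_mul_aux b (g : V ≃ₗ[ℂ] V) (h : V ≃ₗ[ℂ] V) p).symm
      smul_zero := fun g => map_zero _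
      smul_add := fun g p q => map_add _ p q
      smul_one := fun g => map_one _
      smul_mul := fun g p q => map_mul _ p q }
  have hinv : Algebra.IsInvariant (invP Γ b) (Px ι) Γ :=
    ⟨fun p hp => ⟨⟨p, fun g hg => hp ⟨g, hg⟩⟩, rfl⟩⟩
  have := Algebra.IsInvariant.isIntegral (invP Γ b) (Px ι) Γ
  exact this.isIntegral p

/-- `v, v'` with the same values of all invariants are in the same orbit: otherwise take `p` with value `1` on
the orbit of `v` and `0` on the orbit of `v'` and average. -/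
theorem orbit_of_inv_eq (b : Basis ι ℂ V) {v v' : V} (h : ∀ p, PInv Γ b p → evP b v p = evP b v' p) :
    ∃ g ∈ Γ, v' = g v := by
  classical
  by_contra hc
  push Not at hc
  have hnot : v' ∉ (elF Γ).image (fun g => g v) := by
    intro hm
    rw [Finset.mem_image] at hm
    obtain ⟨g, hg, he⟩ := hm
    exact hc g ((mem_elF Γ).1 hg) he.symm
  obtain ⟨E, hE1, hE0⟩ := interp_aux b v' _ hnot
  have hN : PInv Γ b (∏ g ∈ elF Γ, trP b b g (1 - E)) := by
    intro k hk
    rw [map_prod, ← prod_elF_aux Γ (fun g => trP b b g (1 - E)) hk]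
    exact Finset.prod_congr rfl (fun g _ => trP_mul_aux b k g _)
  have h1 := h _ hN
  rw [map_prod, map_prod] at h1
  have h2 : ∏ g ∈ elF Γ, evP b v (trP b b g (1 - E)) = 1 := by
    refine Finset.prod_eq_one (fun g hg => ?_)
    rw [evP_trP, map_sub, map_one]
    have hmem : g.symm v ∈ (elF Γ).image (fun g => g v) := by
      rw [Finset.mem_image]
      exact ⟨g⁻¹, (mem_elF Γ).2 (Γ.inv_mem ((mem_elF Γ).1 hg)), rfl⟩
    rw [hE0 _ hmem, sub_zero]
  have h3 : ∏ g ∈ elF Γ, evP b v' (trP b b g (1 - E)) = 0 := by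
    refine Finset.prod_eq_zero ((mem_elF Γ).2 Γ.one_mem) ?_
    rw [evP_trP]
    have e : (1 : V ≃ₗ[ℂ] V).symm v' = v' := rfl
    rw [e, map_sub, map_one, hE1, sub_self]
  rw [h2, h3] at h1
  exact one_ne_zero h1

/-- `u` with trivial stabiliser: every linear form is the differential at `u` of an invariant: average
`(f - f(u)) E²` with `E(u) = 1`, `E(g u) = 0` for `g ≠ 1`. -/
theorem exists_inv_dfl (b : Basis ι ℂ V) {u : V} (hu : ∀ g ∈ Γ, g u = u → g = 1) (f : Dual ℂ V) :
    ∃ p, PInv Γ b p ∧ dfl b u p = f := by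
  classical
  have hnot : u ∉ ((elF Γ).erase 1).image (fun g => g u) := by
    intro hm
    rw [Finset.mem_image] at hm
    obtain ⟨g, hg, he⟩ := hm
    rw [Finset.mem_erase] at hg
    exact hg.1 (hu g ((mem_elF Γ).1 hg.2) he)
  obtain ⟨E, hE1, hE0⟩ := interp_aux b u _ hnot
  set q : Px ι := (xl b f - C (f u)) * (E * E) with hq
  have e1 : ∀ (w : V) (a : ℂ), evP b w (C a) = a := fun w a => (evP b w).commutes a
  have hdq : ∀ x v : V, dfl b x q v = (f x - f u) * (2 * evP b x E * evP b x (dP b v E)) +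
      f v * (evP b x E * evP b x E) := by
    intro x v
    rw [dfl_apply, hq, dP_mul, dP_mul, map_sub, dP_xl, dP_C_aux, sub_zero]
    simp only [map_add, map_mul, map_sub, evP_xl, e1]
    ring
  refine ⟨∑ g ∈ elF Γ, trP b b g q, ?_, ?_⟩
  · intro k hk
    rw [map_sum, ← sum_elF_aux Γ (fun g => trP b b g q) hk]
    exact Finset.sum_congr rfl (fun g _ => trP_mul_aux b k g _)
  · have hsum : dfl b u (∑ g ∈ elF Γ, trP b b g q) = ∑ g ∈ elF Γ, dfl b u (trP b b g q) := by
      ext v
      rw [dfl_apply, map_sum, map_sum, LinearMap.sum_apply]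
      rfl
    rw [hsum, Finset.sum_eq_single 1]
    · have e : trP b b (1 : V ≃ₗ[ℂ] V) q = q := by
        change trP b b (LinearEquiv.refl ℂ V) q = q
        rw [trP_refl, AlgHom.id_apply]
      rw [e]
      ext v
      rw [hdq, hE1, sub_self]
      ring
    · intro g hg hg1
      have h1 := dfl_trP b b g (g.symm u) q
      rw [LinearEquiv.apply_symm_apply] at h1
      rw [h1]
      ext v
      rw [LinearMap.comp_apply, hdq]
      have hmem : g.symm u ∈ ((elF Γ).erase 1).image (fun g => g u) := by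
        rw [Finset.mem_image]
        refine ⟨g⁻¹, ?_, rfl⟩
        rw [Finset.mem_erase]
        exact ⟨inv_ne_one.2 hg1, (mem_elF Γ).2 (Γ.inv_mem ((mem_elF Γ).1 hg))⟩
      rw [hE0 _ hmem]
      simp
    · intro h
      exact absurd ((mem_elF Γ).2 Γ.one_mem) h

end

end Pool.Agent.CM64
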