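import Pool.Agent.LibCM64.Dunkl

/-! Linear forms of hyperplanes. -/

set_option linter.unusedSectionVars false

namespace Pool.Agent.CM64

open Module MvPolynomial

section

variable {V : Type} [AddCommGroup V] [Module ℂ V] [FiniteDimensional ℂ V]
variable {V' : Type} [AddCommGroup V'] [Module ℂ V'] [FiniteDimensional ℂ V']
variable {ι : Type} [Fintype ι] [DecidableEq ι] {ι' : Type} [Fintype ι'] [DecidableEq ι']

theorem lf_spec (H : Submodule ℂ V) (hH : finrank ℂ H + 1 = finrank ℂ V) :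
    lf H ≠ 0 ∧ LinearMap.ker (lf H) = H := by
  have hlt : H < ⊤ := by
    rw [lt_top_iff_ne_top]
    rintro rfl
    rw [finrank_top] at hH
    omega
  obtain ⟨f, hf, hle⟩ := Submodule.exists_le_ker_of_lt_top H hlt
  have hex : ∃ f : Dual ℂ V, f ≠ 0 ∧ LinearMap.ker f = H := by
    refine ⟨f, hf, ?_⟩
    have h1 : finrank ℂ (LinearMap.ker f) + 1 = finrank ℂ V :=
      Module.Dual.finrank_ker_add_one_of_ne_zero hf
    exact (Submodule.eq_of_le_of_finrank_le hle (by omega)).symm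
  have e : lf H = hex.choose := by
    unfold lf
    rw [dif_pos hex]
  rw [e]
  exact hex.choose_spec

theorem mem_iff_lf (H : Submodule ℂ V) (hH : finrank ℂ H + 1 = finrank ℂ V) (v : V) :
    v ∈ H ↔ lf H v = 0 := by
  rw [← LinearMap.mem_ker, (lf_spec H hH).2]

/-- two linear forms with the same kernel are proportional. -/
theorem exists_smul_of_ker_le (f f' : Dual ℂ V) (hf : f ≠ 0) (h : LinearMap.ker f ≤ LinearMap.ker f') :
    ∃ c : ℂ, f' = c • f := by
  obtain ⟨v, hv⟩ : ∃ v, f v ≠ 0 := by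
    by_contra hc
    push Not at hc
    exact hf (LinearMap.ext hc)
  refine ⟨f' v / f v, LinearMap.ext (fun u => ?_)⟩
  have hu : u - (f u / f v) • v ∈ LinearMap.ker f := by
    rw [LinearMap.mem_ker, map_sub, map_smul, smul_eq_mul, div_mul_cancel₀ _ hv, sub_self]
  have hu' := h hu
  rw [LinearMap.mem_ker, map_sub, map_smul, smul_eq_mul, sub_eq_zero] at hu'
  rw [hu', LinearMap.smul_apply, smul_eq_mul]
  ring

theorem finrank_map_equiv (g : V ≃ₗ[ℂ] V') (H : Submodule ℂ V) (hH : finrank ℂ H + 1 = finrank ℂ V) :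
    finrank ℂ (H.map (g : V →ₗ[ℂ] V')) + 1 = finrank ℂ V' := by
  rw [LinearEquiv.finrank_map_eq g H, hH]
  exact LinearEquiv.finrank_eq g

theorem lf_map (g : V ≃ₗ[ℂ] V') (H : Submodule ℂ V) (hH : finrank ℂ H + 1 = finrank ℂ V) :
    ∃ c : ℂ, c ≠ 0 ∧ lf (H.map (g : V →ₗ[ℂ] V')) = c • (lf H).comp (g.symm : V' →ₗ[ℂ] V) := by
  have h1 := lf_spec H hH
  have h2 := lf_spec (H.map (g : V →ₗ[ℂ] V')) (finrank_map_equiv g H hH)
  have hne : (lf H).comp (g.symm : V' →ₗ[ℂ] V) ≠ 0 := by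
    intro h0
    apply h1.1
    ext v
    have := congrArg (fun f : Dual ℂ V' => f (g v)) h0
    simpa using this
  have hker : LinearMap.ker ((lf H).comp (g.symm : V' →ₗ[ℂ] V))
      ≤ LinearMap.ker (lf (H.map (g : V →ₗ[ℂ] V'))) := by
    rw [h2.2]
    intro v hv
    rw [LinearMap.mem_ker, LinearMap.comp_apply] at hv
    refine ⟨g.symm v, ?_, by simp⟩
    exact (mem_iff_lf H hH _).2 hv
  obtain ⟨c, hc⟩ := exists_smul_of_ker_le _ _ hne hker
  refine ⟨c, ?_, hc⟩
  rintro rfl
  rw [zero_smul] at hc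
  exact h2.1 hc

theorem xl_injective (b : Basis ι ℂ V) : Function.Injective (xl b) := by
  intro f f' h
  refine b.ext (fun i => ?_)
  have := congrArg (fun p : Px ι => coeff (Finsupp.single i 1) p) h
  simp only [xl_apply, coeff_sum, coeff_smul, coeff_X, smul_eq_mul] at this
  have key : ∀ F : Dual ℂ V,
      ∑ x, F (b x) * (if Finsupp.single x 1 = Finsupp.single i 1 then (1 : ℂ) else 0) = F (b i) := by
    intro F
    rw [Finset.sum_eq_single i]
    · simp
    · intro j _ hj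
      rw [if_neg, mul_zero]
      intro he
      exact hj (Finsupp.single_left_injective one_ne_zero he)
    · intro hi
      exact absurd (Finset.mem_univ i) hi
  rw [key f, key f'] at this
  exact this

theorem xl_lf_ne_zero (b : Basis ι ℂ V) (H : Submodule ℂ V) (hH : finrank ℂ H + 1 = finrank ℂ V) :
    xl b (lf H) ≠ 0 := by
  intro h0
  have : lf H = 0 := xl_injective b (by rw [h0, map_zero])
  exact (lf_spec H hH).1 this

theorem qH_mul (b : Basis ι ℂ V) (H : Submodule ℂ V) (hH : finrank ℂ H + 1 = finrank ℂ V) (v : V) :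
    qH b H v * pF (xl b (lf H)) = algebraMap ℂ (Fx ι) (lf H v) := by
  have hne : pF (xl b (lf H)) ≠ 0 := by
    intro h0
    exact xl_lf_ne_zero b H hH (pF_injective (by rw [h0, map_zero]))
  unfold qH
  rw [div_mul_cancel₀ _ hne]

/-- transport of `α_H(v)/α_H`. -/
theorem trF_qH (b : Basis ι ℂ V) (b' : Basis ι' ℂ V') (g : V ≃ₗ[ℂ] V') (H : Submodule ℂ V)
    (hH : finrank ℂ H + 1 = finrank ℂ V) (v : V) :
    trF b b' g (qH b H v) = qH b' (H.map (g : V →ₗ[ℂ] V')) (g v) := by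
  obtain ⟨c, hc, hlf⟩ := lf_map g H hH
  unfold qH
  rw [map_div₀, AlgHom.commutes, trF_pF, trP_xl, hlf]
  have e1 : (c • (lf H).comp (g.symm : V' →ₗ[ℂ] V)) (g v) = c * lf H v := by
    simp
  have e2 : pF (xl b' (c • (lf H).comp (g.symm : V' →ₗ[ℂ] V)))
      = algebraMap ℂ (Fx ι') c * pF (xl b' ((lf H).comp (g.symm : V' →ₗ[ℂ] V))) := by
    rw [map_smul, map_smul, Algebra.smul_def]
  have hc' : algebraMap ℂ (Fx ι') c ≠ 0 := by
    intro h0
    exact hc ((algebraMap ℂ (Fx ι')).injective (by rw [h0, map_zero]))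
  rw [e1, e2, map_mul, mul_div_mul_left _ _ hc']

end

end Pool.Agent.CM64
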