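import Pool.Agent.LibCM64.ChevB

/-! Steinberg's theorem: a finite reflection group acts freely off its reflecting hyperplanes. -/

set_option linter.unusedSectionVars false

namespace Pool.Agent.CM64

open Module MvPolynomial

section

variable {V : Type} [AddCommGroup V] [Module ℂ V] [FiniteDimensional ℂ V]
variable {ι : Type} [Fintype ι] [DecidableEq ι]
variable (Γ : Subgroup (V ≃ₗ[ℂ] V)) [Finite Γ]

private theorem evP_C_stein (b : Basis ι ℂ V) (w : V) (a : ℂ) : evP b w (C a) = a :=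
  (evP b w).commutes a

/-- separation of a point from a finite set -/
private theorem sep_stein (b : Basis ι ℂ V) (v₀ : V) (s : Finset V) (h : v₀ ∉ s) :
    ∃ E : Px ι, evP b v₀ E = 1 ∧ ∀ x ∈ s, evP b x E = 0 := by
  classical
  induction s using Finset.induction_on with
  | empty => exact ⟨1, by simp, by simp⟩
  | insert x s _ ih =>
    rw [Finset.mem_insert, not_or] at h
    obtain ⟨E, hE1, hE0⟩ := ih h.2
    obtain ⟨f, hf⟩ : ∃ f : Dual ℂ V, f (v₀ - x) ≠ 0 := by
      by_contra hc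
      push Not at hc
      exact h.1 (sub_eq_zero.1 ((Module.forall_dual_apply_eq_zero_iff ℂ (v₀ - x)).1 hc))
    rw [map_sub] at hf
    refine ⟨E * (C (f v₀ - f x)⁻¹ * (xl b f - C (f x))), ?_, ?_⟩
    · rw [map_mul, hE1, map_mul, map_sub, evP_xl, evP_C_stein, evP_C_stein, inv_mul_cancel₀ hf,
        mul_one]
    · intro y hy
      rw [Finset.mem_insert] at hy
      rcases hy with rfl | hy
      · rw [map_mul, map_mul, map_sub, evP_xl, evP_C_stein, evP_C_stein, sub_self, mul_zero,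
          mul_zero]
      · rw [map_mul, hE0 y hy, zero_mul]

/-- interpolation on a finite set of vectors. -/
theorem exists_interp (b : Basis ι ℂ V) (s : Finset V) (c : V → ℂ) : ∃ p : Px ι, ∀ v ∈ s, evP b v p = c v := by
  classical
  have h : ∀ v : V, ∃ E : Px ι, evP b v E = 1 ∧ ∀ x ∈ s.erase v, evP b x E = 0 := fun v =>
    sep_stein b v _ (Finset.notMem_erase v s)
  choose E hE1 hE0 using h
  refine ⟨∑ w ∈ s, C (c w) * E w, ?_⟩
  intro v hv
  rw [map_sum, Finset.sum_eq_single v]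
  · rw [map_mul, evP_C_stein, hE1, mul_one]
  · intro w _ hne
    rw [map_mul, hE0 w v (Finset.mem_erase.2 ⟨fun h => hne h.symm, hv⟩), mul_zero]
  · intro h
    exact absurd hv h

/-- the discriminant `D = det (g h_j)`, `h_j` generators of `ℂ[V]` over `ℂ[V]^Γ`: it vanishes exactly at the
vectors with nontrivial stabiliser. -/
theorem exists_disc (hΓ : ReflGen Γ) (b : Basis ι ℂ V) :
    ∃ D : Px ι, ∀ v, evP b v D = 0 ↔ ∃ g ∈ Γ, g ≠ 1 ∧ g v = v := by
  classical
  obtain ⟨h, hh⟩ := exists_gens Γ hΓ b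
  obtain ⟨e⟩ : Nonempty (Fin (Nat.card Γ) ≃ Γ) := ⟨(Finite.equivFin Γ).symm⟩
  set M : Matrix (Fin (Nat.card Γ)) (Fin (Nat.card Γ)) (Px ι) :=
    Matrix.of (fun i j => trP b b (e i : V ≃ₗ[ℂ] V) (h j)) with hM
  have hval : ∀ v, evP b v M.det = (Matrix.of (fun i j =>
      evP b ((e i : V ≃ₗ[ℂ] V).symm v) (h j)) :
        Matrix (Fin (Nat.card Γ)) (Fin (Nat.card Γ)) ℂ).det := by
    intro v
    rw [AlgHom.map_det]
    congr 1
    ext i j
    simp only [hM, AlgHom.mapMatrix_apply, Matrix.map_apply, Matrix.of_apply]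
    exact evP_trP b b _ v (h j)
  refine ⟨M.det, fun v => ?_⟩
  rw [hval]
  constructor
  · intro h0
    by_contra hc
    push Not at hc
    obtain ⟨c, hc0, hcv⟩ := Matrix.exists_vecMul_eq_zero_iff.2 h0
    have hinj : Function.Injective (fun i => (e i : V ≃ₗ[ℂ] V).symm v) := by
      intro i j hij
      by_contra hne
      have h1 : ((e j : V ≃ₗ[ℂ] V) * (e i : V ≃ₗ[ℂ] V)⁻¹) v = v := by
        change (e j : V ≃ₗ[ℂ] V) ((e i : V ≃ₗ[ℂ] V).symm v) = v
        have hij' : (e i : V ≃ₗ[ℂ] V).symm v = (e j : V ≃ₗ[ℂ] V).symm v := hij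
        rw [hij', LinearEquiv.apply_symm_apply]
      refine hc _ (Γ.mul_mem (e j).2 (Γ.inv_mem (e i).2)) ?_ h1
      intro h2
      apply hne
      have h3 : (e j : V ≃ₗ[ℂ] V) = (e i : V ≃ₗ[ℂ] V) := mul_inv_eq_one.1 h2
      exact e.injective (Subtype.ext h3.symm)
    have hall : ∀ p : Px ι, ∑ i, c i * evP b ((e i : V ≃ₗ[ℂ] V).symm v) p = 0 := by
      intro p
      obtain ⟨a, ha, hp⟩ := hh p
      have h1 : ∀ i j, evP b ((e i : V ≃ₗ[ℂ] V).symm v) (a j) = evP b v (a j) := by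
        intro i j
        rw [← evP_trP b b (e i : V ≃ₗ[ℂ] V) v (a j), ha j _ (e i).2]
      calc ∑ i, c i * evP b ((e i : V ≃ₗ[ℂ] V).symm v) p
          = ∑ i, ∑ j, evP b v (a j) * (c i * evP b ((e i : V ≃ₗ[ℂ] V).symm v) (h j)) := by
            refine Finset.sum_congr rfl (fun i _ => ?_)
            conv_lhs => rw [hp]
            rw [map_sum, Finset.mul_sum]
            refine Finset.sum_congr rfl (fun j _ => ?_)
            rw [map_mul, h1]
            ring
        _ = ∑ j, evP b v (a j) * ∑ i, c i * evP b ((e i : V ≃ₗ[ℂ] V).symm v) (h j) := by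
            rw [Finset.sum_comm]
            exact Finset.sum_congr rfl (fun j _ => (Finset.mul_sum _ _ _).symm)
        _ = 0 := by
            refine Finset.sum_eq_zero (fun j _ => ?_)
            have h2 := congrFun hcv j
            have h3 : ∑ i, c i * evP b ((e i : V ≃ₗ[ℂ] V).symm v) (h j) = 0 := by
              simpa [Matrix.vecMul, dotProduct] using h2
            rw [h3, mul_zero]
    apply hc0
    funext i
    obtain ⟨E, hE1, hE0⟩ := sep_stein b ((e i : V ≃ₗ[ℂ] V).symm v)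
      ((Finset.univ.erase i).image (fun j => (e j : V ≃ₗ[ℂ] V).symm v)) (by
        intro hm
        rw [Finset.mem_image] at hm
        obtain ⟨j, hj, hje⟩ := hm
        exact (Finset.mem_erase.1 hj).1 (hinj hje))
    have h4 := hall E
    rw [Finset.sum_eq_single i] at h4
    · rw [hE1, mul_one] at h4
      exact h4
    · intro j _ hj
      rw [hE0 _ (Finset.mem_image.2 ⟨j, Finset.mem_erase.2 ⟨hj, Finset.mem_univ j⟩, rfl⟩), mul_zero]
    · intro hi
      exact absurd (Finset.mem_univ i) hi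
  · rintro ⟨g, hg, hg1, hgv⟩
    have hne : e.symm ⟨g, hg⟩ ≠ e.symm 1 := by
      intro h1
      apply hg1
      exact congrArg Subtype.val (e.symm.injective h1)
    refine Matrix.det_zero_of_row_eq hne ?_
    funext j
    simp only [Matrix.of_apply, Equiv.apply_symm_apply]
    have h1 : (g : V ≃ₗ[ℂ] V).symm v = v := by
      conv_lhs => rw [← hgv]
      exact LinearEquiv.symm_apply_apply g v
    have h2 : ((1 : Γ) : V ≃ₗ[ℂ] V).symm v = v := rfl
    rw [h1, h2]

/-- Nullstellensatz for one irreducible polynomial: if `q` is prime and `p` vanishes wherever `q` vanishes then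
`q ∣ p`. -/
theorem prime_dvd_of_vanish (b : Basis ι ℂ V) {q p : Px ι} (hq : Prime q)
    (h : ∀ v, evP b v q = 0 → evP b v p = 0) : q ∣ p := by
  have hprime : (Ideal.span {q} : Ideal (Px ι)).IsPrime := (Ideal.span_singleton_prime hq.ne_zero).2 hq
  have h1 := MvPolynomial.IsPrime.vanishingIdeal_zeroLocus (K := ℂ) (Ideal.span {q} : Ideal (Px ι))
  have h2 : p ∈ vanishingIdeal ℂ (zeroLocus ℂ (Ideal.span {q} : Ideal (Px ι))) := by
    rw [mem_vanishingIdeal_iff]
    intro x hx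
    rw [mem_zeroLocus_iff] at hx
    have h3 := h (b.equivFun.symm x)
    have h4 : (fun i => b.repr (b.equivFun.symm x) i) = x := b.equivFun.apply_symm_apply x
    unfold evP at h3
    rw [h4] at h3
    exact h3 (hx q (Ideal.subset_span rfl))
  rw [h1] at h2
  exact Ideal.mem_span_singleton.1 h2

private theorem unit_smul_stein (b : Basis ι ℂ V) {f f' : Dual ℂ V}
    (h : Associated (xl b f) (xl b f')) : ∃ c : ℂ, f' = c • f := by
  obtain ⟨u, hu⟩ := h
  obtain ⟨c, hc⟩ : ∃ c : ℂ, (u : Px ι) = C c := by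
    have h1 := u.isUnit
    rw [MvPolynomial.isUnit_iff_totalDegree_of_isReduced] at h1
    exact ⟨_, MvPolynomial.totalDegree_eq_zero_iff_eq_C.1 h1.2⟩
  refine ⟨c, xl_injective b ?_⟩
  rw [← hu, hc, map_smul, mul_comm]
  exact (Algebra.smul_def _ _).symm

/-- a proper subspace of codimension at least two lies in the kernel of a nonzero form whose `xl` is not associated to
a given polynomial `q`. -/
theorem exists_form_not_assoc (b : Basis ι ℂ V) (q : Px ι) (E : Submodule ℂ V)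
    (hE : finrank ℂ E + 2 ≤ finrank ℂ V) : ∃ f : Dual ℂ V, f ≠ 0 ∧ (∀ v ∈ E, f v = 0) ∧ ¬ Associated q (xl b f) := by
  have h1 : 2 ≤ finrank ℂ E.dualAnnihilator := by
    have h := Subspace.finrank_add_finrank_dualAnnihilator_eq E
    omega
  have h2 : 1 < finrank ℂ E.dualAnnihilator := by omega
  obtain ⟨f₁, hf₁⟩ : ∃ f₁ : E.dualAnnihilator, f₁ ≠ 0 := by
    have : Nontrivial E.dualAnnihilator := Module.nontrivial_of_finrank_pos (R := ℂ) (by omega)
    exact exists_ne 0
  obtain ⟨f₂, hf₂⟩ : ∃ f₂ : E.dualAnnihilator, ∀ c : ℂ, c • f₁ ≠ f₂ := by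
    by_contra hc
    push Not at hc
    have h3 : finrank ℂ E.dualAnnihilator ≤ 1 := by
      rw [finrank_le_one_iff]
      exact ⟨f₁, fun w => hc w⟩
    omega
  have hf₁0 : (f₁ : Dual ℂ V) ≠ 0 := fun h => hf₁ (Subtype.ext h)
  have hf₂0 : (f₂ : Dual ℂ V) ≠ 0 := fun h => hf₂ 0 (by
    rw [zero_smul]
    exact Subtype.ext h.symm)
  by_cases hA : Associated q (xl b (f₁ : Dual ℂ V))
  · refine ⟨f₂, hf₂0, fun v hv => (Submodule.mem_dualAnnihilator _).1 f₂.2 v hv, fun hB => ?_⟩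
    obtain ⟨c, hc⟩ := unit_smul_stein b (hA.symm.trans hB)
    exact hf₂ c (Subtype.ext hc.symm)
  · exact ⟨f₁, hf₁0, fun v hv => (Submodule.mem_dualAnnihilator _).1 f₁.2 v hv, hA⟩

private theorem assoc_stein (b : Basis ι ℂ V) {q : Px ι} (hq : Prime q) {f : Dual ℂ V} (hf : f ≠ 0)
    (h : q ∣ xl b f) : Associated q (xl b f) := by
  obtain ⟨r, hr⟩ := h
  have hx0 : xl b f ≠ 0 := fun h0 => hf (xl_injective b (by rw [h0, map_zero]))
  have hr0 : r ≠ 0 := by
    rintro rfl
    rw [mul_zero] at hr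
    exact hx0 hr
  have hdeg : (xl b f).totalDegree = 1 := (xl_isHomogeneous b f).totalDegree hx0
  rw [hr, totalDegree_mul_of_isDomain hq.ne_zero hr0] at hdeg
  have hq1 : q.totalDegree ≠ 0 := by
    intro h0
    rw [totalDegree_eq_zero_iff_eq_C] at h0
    apply hq.not_isUnit
    rw [h0]
    have hc : coeff 0 q ≠ 0 := by
      intro hc
      rw [hc, map_zero] at h0
      exact hq.ne_zero h0
    exact (IsUnit.mk0 _ hc).map (C : ℂ →+* Px ι)
  have hr1 : r.totalDegree = 0 := by omega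
  rw [totalDegree_eq_zero_iff_eq_C] at hr1
  have hc : coeff 0 r ≠ 0 := by
    intro hc
    rw [hc, map_zero] at hr1
    exact hr0 hr1
  have hu : IsUnit r := by
    rw [hr1]
    exact (IsUnit.mk0 _ hc).map (C : ℂ →+* Px ι)
  obtain ⟨u, hu'⟩ := hu
  exact ⟨u, by rw [hu', hr]⟩

private theorem fixSub_ne_top_stein {g : V ≃ₗ[ℂ] V} (hg1 : g ≠ 1) : fixSub g ≠ ⊤ := by
  intro h
  apply hg1
  ext v
  have hv : v ∈ fixSub g := by rw [h]; trivial
  exact hv

/-- Steinberg: off the reflecting hyperplanes the stabilisers are trivial. Let `D` be as in `exists_disc`, `D(v) = 0`,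
`q` a prime factor of `D` with `q(v) = 0`; `q` divides any product of linear forms `ℓ_g`, `g ≠ 1`, `ℓ_g` vanishing on
`V^g`, so `q` is associated to the linear form of a reflecting hyperplane. -/
theorem steinberg (hΓ : ReflGen Γ) {v : V} (hv : ∀ H ∈ arr Γ, v ∉ H) {g : V ≃ₗ[ℂ] V} (hg : g ∈ Γ)
    (h : g v = v) : g = 1 := by
  classical
  have b := Module.finBasis ℂ V
  by_contra hg1
  obtain ⟨D, hD⟩ := exists_disc Γ hΓ b
  have hDv : evP b v D = 0 := (hD v).2 ⟨g, hg, hg1, h⟩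
  have hform : ∀ k : V ≃ₗ[ℂ] V, k ≠ 1 → ∃ f : Dual ℂ V, f ≠ 0 ∧ ∀ w ∈ fixSub k, f w = 0 := by
    intro k hk
    obtain ⟨f, hf, hle⟩ := Submodule.exists_le_ker_of_lt_top (fixSub k)
      (lt_top_iff_ne_top.2 (fixSub_ne_top_stein hk))
    exact ⟨f, hf, fun w hw => hle hw⟩
  have hD0 : D ≠ 0 := by
    rintro rfl
    have h1 : ∀ k : V ≃ₗ[ℂ] V, ∃ f : Dual ℂ V, f ≠ 0 ∧ (k ≠ 1 → ∀ w ∈ fixSub k, f w = 0) := by
      intro k
      by_cases hk : k = 1
      · obtain ⟨f, hf, _⟩ := hform g hg1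
        exact ⟨f, hf, fun h => absurd hk h⟩
      · obtain ⟨f, hf, hf'⟩ := hform k hk
        exact ⟨f, hf, fun _ => hf'⟩
    choose f hf hf' using h1
    obtain ⟨w, hw⟩ := exists_evP_ne b (((elF Γ).erase 1).image (fun k => xl b (f k))) (by
      intro p hp
      rw [Finset.mem_image] at hp
      obtain ⟨k, _, rfl⟩ := hp
      intro h0
      exact hf k (xl_injective b (by rw [h0, map_zero])))
    obtain ⟨k, hk, hk1, hkw⟩ := (hD w).1 (map_zero _)
    have h2 := hw (xl b (f k)) (Finset.mem_image.2 ⟨k, Finset.mem_erase.2 ⟨hk1, (mem_elF Γ).2 hk⟩, rfl⟩)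
    rw [evP_xl] at h2
    exact h2 (hf' k hk1 w hkw)
  -- a prime factor of `D` vanishing at `v`
  obtain ⟨q, hq, hqD, hqv⟩ : ∃ q : Px (Fin (finrank ℂ V)), Prime q ∧ q ∣ D ∧ evP b v q = 0 := by
    obtain ⟨s, hs, hsD⟩ := UniqueFactorizationMonoid.exists_prime_factors D hD0
    have h1 : evP b v s.prod = 0 := by
      obtain ⟨u, hu⟩ := hsD
      have h2 : evP b v (s.prod * (u : Px (Fin (finrank ℂ V)))) = 0 := by rw [hu]; exact hDv
      rw [map_mul] at h2
      have h3 : evP b v (u : Px (Fin (finrank ℂ V))) ≠ 0 := by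
        have := (u.isUnit).map (evP b v)
        exact this.ne_zero
      exact (mul_eq_zero.1 h2).resolve_right h3
    rw [map_multiset_prod, Multiset.prod_eq_zero_iff] at h1
    obtain ⟨q, hqs, hq0⟩ := Multiset.mem_map.1 h1
    exact ⟨q, hs q hqs, (Multiset.dvd_prod hqs).trans hsD.dvd, hq0⟩
  -- choice of the linear forms
  have h1 : ∀ k : V ≃ₗ[ℂ] V, ∃ f : Dual ℂ V, f ≠ 0 ∧ (k ≠ 1 → ∀ w ∈ fixSub k, f w = 0) ∧
      (k ≠ 1 → Associated q (xl b f) → finrank ℂ (fixSub k) + 1 = finrank ℂ V ∧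
        ∀ w, f w = 0 → w ∈ fixSub k) := by
    intro k
    by_cases hk : k = 1
    · obtain ⟨f, hf, _⟩ := hform g hg1
      exact ⟨f, hf, fun h => absurd hk h, fun h => absurd hk h⟩
    · by_cases hcod : finrank ℂ (fixSub k) + 1 = finrank ℂ V
      · refine ⟨lf (fixSub k), (lf_spec _ hcod).1, ?_, ?_⟩
        · intro _ w hw
          exact (mem_iff_lf _ hcod w).1 hw
        · intro _ _
          exact ⟨hcod, fun w hw => (mem_iff_lf _ hcod w).2 hw⟩
      · have hlt : finrank ℂ (fixSub k) < finrank ℂ V :=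
          Submodule.finrank_lt (fixSub_ne_top_stein hk)
        obtain ⟨f, hf, hf', hf''⟩ := exists_form_not_assoc b q (fixSub k) (by omega)
        exact ⟨f, hf, fun _ => hf', fun _ hA => absurd hA hf''⟩
  choose f hf hf' hf'' using h1
  have hdvd : q ∣ ∏ k ∈ (elF Γ).erase 1, xl b (f k) := by
    apply prime_dvd_of_vanish b hq
    intro w hw
    have hDw : evP b w D = 0 := by
      obtain ⟨r, hr⟩ := hqD
      rw [hr, map_mul, hw, zero_mul]
    obtain ⟨k, hk, hk1, hkw⟩ := (hD w).1 hDw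
    rw [map_prod]
    refine Finset.prod_eq_zero (Finset.mem_erase.2 ⟨hk1, (mem_elF Γ).2 hk⟩) ?_
    rw [evP_xl]
    exact hf' k hk1 w hkw
  obtain ⟨k, hk, hkq⟩ := (hq.dvd_finsetProd_iff _).1 hdvd
  rw [Finset.mem_erase] at hk
  have hA := assoc_stein b hq (hf k) hkq
  obtain ⟨hcod, hmem⟩ := hf'' k hk.1 hA
  have hfv : f k v = 0 := by
    rw [← evP_xl b]
    obtain ⟨r, hr⟩ := hkq
    rw [hr, map_mul, hqv, zero_mul]
  exact hv (fixSub k) ⟨k, (mem_elF Γ).1 hk.2, hcod, rfl⟩ (hmem v hfv)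

end

end Pool.Agent.CM64
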