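import Pool.Agent.LibCM64.Res
import Pool.Agent.LibCM64.HatA
import Pool.Agent.LibCM64.Stein

/-! Restriction from `V × V*` to `U × U*`: equivariance, Poisson brackets, elements of `M_k`. -/

set_option linter.unusedSectionVars false

namespace Pool.Agent.CM64

open Module MvPolynomial

section

variable {V : Type} [AddCommGroup V] [Module ℂ V] [FiniteDimensional ℂ V]
variable {ι : Type} [Fintype ι] [DecidableEq ι] {κ : Type} [Fintype κ] [DecidableEq κ]
variable {τ : V ≃ₗ[ℂ] V} {b : Basis ι ℂ V} {bU : Basis κ ℂ ↥(fixSub τ)}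


/-! auxiliary lemmas -/

private theorem resb_symm_fix {τ : V ≃ₗ[ℂ] V} {w : V ≃ₗ[ℂ] V}
    {g : ↥(fixSub τ) ≃ₗ[ℂ] ↥(fixSub τ)} (hg : ∀ u : ↥(fixSub τ), ((g u : ↥(fixSub τ)) : V) = w (u : V))
    (u : ↥(fixSub τ)) : w.symm (u : V) = ((g.symm u : ↥(fixSub τ)) : V) := by
  rw [LinearEquiv.symm_apply_eq, ← hg, LinearEquiv.apply_symm_apply]

private theorem resb_resP {w : V ≃ₗ[ℂ] V}
    {g : ↥(fixSub τ) ≃ₗ[ℂ] ↥(fixSub τ)} (hg : ∀ u : ↥(fixSub τ), ((g u : ↥(fixSub τ)) : V) = w (u : V))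
    (d : Px ι) : resP τ b bU (trP b b w d) = trP bU bU g (resP τ b bU d) := by
  refine evP_ext bU (fun u => ?_)
  rw [evP_resP, evP_trP, evP_trP, evP_resP, resb_symm_fix hg]

private theorem resb_pow_comm {w : V ≃ₗ[ℂ] V} (hw : w * τ = τ * w) (j : ℕ) (v : V) :
    (τ ^ j : V ≃ₗ[ℂ] V) (w v) = w ((τ ^ j : V ≃ₗ[ℂ] V) v) := by
  have h1 : Commute w τ := hw
  have h2 : w * τ ^ j = τ ^ j * w := h1.pow_right j
  have h3 := congrArg (fun F : V ≃ₗ[ℂ] V => F v) h2
  exact h3.symm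

private theorem resb_avg (v : V) : avgT τ v = (orderOf τ : ℂ)⁻¹ •
    ∑ j ∈ Finset.range (orderOf τ), (τ ^ j : V ≃ₗ[ℂ] V) v := by
  rw [avgT, LinearMap.smul_apply, LinearMap.sum_apply]
  rfl

private theorem resb_proj {w : V ≃ₗ[ℂ] V} (hw : w * τ = τ * w)
    {g : ↥(fixSub τ) ≃ₗ[ℂ] ↥(fixSub τ)} (hg : ∀ u : ↥(fixSub τ), ((g u : ↥(fixSub τ)) : V) = w (u : V))
    (v : V) : projT τ (w v) = g (projT τ v) := by
  apply Subtype.ext
  rw [hg, projT_apply_coe, projT_apply_coe, resb_avg, resb_avg, map_smul, map_sum]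
  congr 1
  exact Finset.sum_congr rfl (fun j _ => resb_pow_comm hw j v)

private theorem resb_resR {w : V ≃ₗ[ℂ] V} (hw : w * τ = τ * w)
    {g : ↥(fixSub τ) ≃ₗ[ℂ] ↥(fixSub τ)} (hg : ∀ u : ↥(fixSub τ), ((g u : ↥(fixSub τ)) : V) = w (u : V))
    (p : Rx ι) : resR τ b bU (trR b b w p) = trR bU bU g (resR τ b bU p) := by
  have key : (resR τ b bU).comp (trR b b w) = (trR bU bU g).comp (resR τ b bU) := by
    apply algHom_Rx_ext
    · intro c
      rw [AlgHom.comp_apply, AlgHom.comp_apply, trR_C, resR_C, resR_C, trR_C, resb_resP hg]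
    · intro i
      rw [AlgHom.comp_apply, AlgHom.comp_apply, ← yR_basis b i, trR_yR, resR_yR, resR_yR, trR_yR,
        resb_proj hw hg]
  exact congrArg (fun F => F p) key

private theorem resb_equivar {w : V ≃ₗ[ℂ] V} (hw : w * τ = τ * w)
    {g : ↥(fixSub τ) ≃ₗ[ℂ] ↥(fixSub τ)} (hg : ∀ u : ↥(fixSub τ), ((g u : ↥(fixSub τ)) : V) = w (u : V))
    {f : Ax ι} {s : Ax κ} (h : ResRel τ b bU f s) : ResRel τ b bU (trA b b w f) (trA bU bU g s) := by
  obtain ⟨d, p, hd, h1, h2⟩ := h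
  refine ⟨trP b b w d, trR b b w p, ?_, ?_, ?_⟩
  · rw [resb_resP hg]
    intro h0
    exact hd (trP_injective bU bU g (by rw [h0, map_zero]))
  · rw [← trA_xA, ← map_mul, h1, jR_trR]
  · rw [resb_resP hg, ← trA_xA, ← map_mul, h2, resb_resR hw hg, jR_trR]

/-- `τ` acts trivially on `U × U*`. -/
theorem ResRel.act_tau (hfin : IsOfFinOrder τ) {f : Ax ι} {s : Ax κ} (h : ResRel τ b bU f s) :
    ResRel τ b bU (act b τ f) s := by
  have h1 := resb_equivar (w := τ) (g := 1) rfl (fun u => (mem_fixSub.1 u.2).symm) h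
  have h2 : trA bU bU (1 : ↥(fixSub τ) ≃ₗ[ℂ] ↥(fixSub τ)) s = s := act_one bU s
  rwa [h2] at h1

/-- an element commuting with `τ` and inducing `g` on `U` acts compatibly. -/
theorem ResRel.equivar (hfin : IsOfFinOrder τ) {w : V ≃ₗ[ℂ] V} (hw : w * τ = τ * w)
    {g : ↥(fixSub τ) ≃ₗ[ℂ] ↥(fixSub τ)} (hg : ∀ u : ↥(fixSub τ), ((g u : ↥(fixSub τ)) : V) = w (u : V))
    {f : Ax ι} {s : Ax κ} (h : ResRel τ b bU f s) : ResRel τ b bU (trA b b w f) (trA bU bU g s) := by
  exact resb_equivar hw hg h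

/-- an eigenvector of `τ` with eigenvalue `≠ 1` restricts to `0`. -/
theorem ResRel.eq_zero_of_eigen (hfin : IsOfFinOrder τ) {f : Ax ι} {s : Ax κ} (h : ResRel τ b bU f s) {c : ℂ}
    (hc : c ≠ 1) (hf : trA b b τ f = c • f) : s = 0 := by
  have h1 := ResRel.act_tau hfin h
  have h2 : act b τ f = c • f := hf
  rw [h2] at h1
  have h3 := ResRel.unique h1 (ResRel.smul c h)
  have h4 : (1 - c) • s = 0 := by
    rw [sub_smul, one_smul, ← h3, sub_self]
  rcases smul_eq_zero.1 h4 with h5 | h5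
  · exact absurd (sub_eq_zero.1 h5).symm hc
  · exact h5

private theorem resb_dA_const (v : V) (c : ℂ) : dA b v (algebraMap ℂ (Ax ι) c) = 0 := by
  rw [Algebra.algebraMap_eq_smul_one, map_smul, dA_one, smul_zero]

private theorem resb_sub {f f' : Ax ι} {s s' : Ax κ} (h : ResRel τ b bU f s) (h' : ResRel τ b bU f' s') :
    ResRel τ b bU (f - f') (s - s') := by
  have h1 := ResRel.add h (ResRel.smul (-1) h')
  rw [neg_one_smul, neg_one_smul, ← sub_eq_add_neg, ← sub_eq_add_neg] at h1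
  exact h1

private theorem resb_xA_C (c : ℂ) : (xA (C c : Px ι) : Ax ι) = algebraMap ℂ (Ax ι) c := by
  rw [← MvPolynomial.algebraMap_eq]
  exact (xA (ι := ι)).commutes c

private theorem resb_resP_C (c : ℂ) : resP τ b bU (C c : Px ι) = C c :=
  (resP τ b bU).commutes c

private theorem resb_resR_X (i : ι) : resR τ b bU (X i) = yR bU (projT τ (b i)) := by
  rw [← yR_basis b i, resR_yR]

/-- derivative of a polynomial function of `x` along a vector of `U`. -/
private theorem resb_dA_xA (u : ↥(fixSub τ)) (p : Px ι) :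
    ResRel τ b bU (dA b (u : V) (xA p)) (dA bU u (xA (resP τ b bU p))) := by
  induction p using MvPolynomial.induction_on with
  | C a =>
    rw [resb_resP_C, resb_xA_C, resb_xA_C, resb_dA_const, resb_dA_const]
    have := ResRel.const (τ := τ) (b := b) (bU := bU) 0
    rwa [map_zero, map_zero] at this
  | add p q hp hq =>
    rw [map_add, map_add, map_add, map_add, map_add]
    exact ResRel.add hp hq
  | mul_X p i hp =>
    rw [map_mul xA, map_mul (resP τ b bU), map_mul xA, dA_mul, dA_mul]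
    refine ResRel.add (ResRel.mul (ResRel.ofP p) ?_) (ResRel.mul hp (ResRel.ofP _))
    rw [dA_xA_X, ← xl_coord b i, resP_xl, dA_xl]
    exact ResRel.const _

private theorem resb_dA_jR (u : ↥(fixSub τ)) (p : Rx ι) :
    ResRel τ b bU (dA b (u : V) (jR p)) (dA bU u (jR (resR τ b bU p))) := by
  induction p using MvPolynomial.induction_on with
  | C a =>
    rw [resR_C, jR_C, jR_C]
    exact resb_dA_xA u a
  | add p q hp hq =>
    rw [map_add, map_add, map_add, map_add, map_add]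
    exact ResRel.add hp hq
  | mul_X p i hp =>
    rw [map_mul jR, map_mul (resR τ b bU), map_mul jR, dA_mul, dA_mul]
    refine ResRel.add (ResRel.mul (ResRel.ofR p) ?_) (ResRel.mul hp (ResRel.ofR _))
    rw [jR_X, dA_X, resb_resR_X, jR_yR, dA_yA]
    have := ResRel.const (τ := τ) (b := b) (bU := bU) 0
    rwa [map_zero, map_zero] at this

private theorem resb_dA (u : ↥(fixSub τ)) {f : Ax ι} {s : Ax κ} (h : ResRel τ b bU f s) :
    ResRel τ b bU (dA b (u : V) f) (dA bU u s) := by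
  have hh := h
  obtain ⟨d, p, hd, h1, h2⟩ := hh
  refine ResRel.of_mul hd ?_
  have e1 : xA d * dA b (u : V) f = dA b (u : V) (jR p) - dA b (u : V) (xA d) * f := by
    rw [← h1, dA_mul, add_sub_cancel_right]
  have e2 : xA (resP τ b bU d) * dA bU u s
      = dA bU u (jR (resR τ b bU p)) - dA bU u (xA (resP τ b bU d)) * s := by
    rw [← h2, dA_mul, add_sub_cancel_right]
  rw [e1, e2]
  exact resb_sub (resb_dA_jR u p) (ResRel.mul (resb_dA_xA u d) h)

private theorem resb_dA_xA_mem (v : V) (p : Px ι) : ∃ q : Px ι, dA b v (xA p) = xA q := by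
  induction p using MvPolynomial.induction_on with
  | C a =>
    refine ⟨0, ?_⟩
    rw [resb_xA_C, resb_dA_const, map_zero]
  | add p q hp hq =>
    obtain ⟨p', hp'⟩ := hp
    obtain ⟨q', hq'⟩ := hq
    refine ⟨p' + q', ?_⟩
    rw [map_add, map_add, map_add, hp', hq']
  | mul_X p i hp =>
    obtain ⟨p', hp'⟩ := hp
    refine ⟨p * C (b.repr v i) + p' * X i, ?_⟩
    rw [map_mul, dA_mul, hp', dA_xA_X, map_add, map_mul, map_mul, resb_xA_C]

private theorem resb_dA_jR_mem (v : V) (p : Rx ι) : ∃ q : Rx ι, dA b v (jR p) = jR q := by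
  induction p using MvPolynomial.induction_on with
  | C a =>
    obtain ⟨q, hq⟩ := resb_dA_xA_mem (b := b) v a
    refine ⟨C q, ?_⟩
    rw [jR_C, hq, jR_C]
  | add p q hp hq =>
    obtain ⟨p', hp'⟩ := hp
    obtain ⟨q', hq'⟩ := hq
    refine ⟨p' + q', ?_⟩
    rw [map_add, map_add, map_add, hp', hq']
  | mul_X p i hp =>
    obtain ⟨p', hp'⟩ := hp
    refine ⟨p' * X i, ?_⟩
    rw [map_mul, dA_mul, hp', jR_X, dA_X, mul_zero, zero_add, map_mul, jR_X]

private theorem resb_dA_ex (v : V) {f : Ax ι} {s : Ax κ} (h : ResRel τ b bU f s) :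
    ∃ t, ResRel τ b bU (dA b v f) t := by
  obtain ⟨d, p, hd, h1, -⟩ := h
  obtain ⟨q, hq⟩ := resb_dA_jR_mem (b := b) v p
  obtain ⟨d', hd'⟩ := resb_dA_xA_mem (b := b) v d
  have e1 : xA d * dA b v f = jR q - xA d' * f := by
    rw [← hq, ← hd', ← h1, dA_mul, add_sub_cancel_right]
  refine ResRel.exists_of_den (d := d ^ 2) (p := C d * q - C d' * p) ?_ ?_
  · rw [map_pow]
    exact pow_ne_zero 2 hd
  · rw [map_pow, map_sub, map_mul, map_mul, jR_C, jR_C, ← h1, pow_two, mul_assoc, e1]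
    ring

/-- the average over the powers of `τ` of a family of functions with the same restriction. -/
private theorem resb_sum_const {F : ℕ → Ax ι} {t : Ax κ} (hfin : IsOfFinOrder τ)
    (h : ∀ j, ResRel τ b bU (F j) t) :
    ResRel τ b bU ((orderOf τ : ℂ)⁻¹ • ∑ j ∈ Finset.range (orderOf τ), F j) t := by
  have h1 := ResRel.smul ((orderOf τ : ℂ)⁻¹) (ResRel.sum (Finset.range (orderOf τ))
    (f := F) (s := fun _ => t) (fun j _ => h j))
  have h2 : (orderOf τ : ℂ) ≠ 0 := by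
    exact_mod_cast (orderOf_pos_iff.2 hfin).ne'
  rw [Finset.sum_const, Finset.card_range, ← Nat.cast_smul_eq_nsmul ℂ, smul_smul, inv_mul_cancel₀ h2,
    one_smul] at h1
  exact h1

private theorem resb_dA_sum (α : Type) (s : Finset α) (F : α → V) :
    dA b (∑ j ∈ s, F j) = ∑ j ∈ s, dA b (F j) := by
  classical
  induction s using Finset.induction_on with
  | empty =>
    rw [Finset.sum_empty, Finset.sum_empty]
    have := dA_smul b (0 : ℂ) (0 : V)
    rwa [zero_smul, zero_smul] at this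
  | insert a s ha ih => rw [Finset.sum_insert ha, Finset.sum_insert ha, dA_add, ih]

/-- for a `τ`-invariant function the derivative along `v` restricts to the derivative along the projection of `v`. -/
private theorem resb_dA_inv (hfin : IsOfFinOrder τ) (v : V) {f : Ax ι} {s : Ax κ} (h : ResRel τ b bU f s)
    (hf : trA b b τ f = f) : ResRel τ b bU (dA b v f) (dA bU (projT τ v) s) := by
  obtain ⟨t, ht⟩ := resb_dA_ex v h
  have h1 : ∀ j : ℕ, ResRel τ b bU (dA b ((τ ^ j : V ≃ₗ[ℂ] V) v) f) t := by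
    intro j
    induction j with
    | zero =>
      rw [pow_zero]
      exact ht
    | succ j ih =>
      have h2 := ResRel.act_tau hfin ih
      have h3 : act b τ (dA b ((τ ^ j : V ≃ₗ[ℂ] V) v) f) = dA b ((τ ^ (j + 1) : V ≃ₗ[ℂ] V) v) f := by
        rw [act, trA_dA, hf, pow_succ', LinearEquiv.mul_apply]
      rwa [h3] at h2
  have h4 := resb_sum_const hfin h1
  have h5 : (orderOf τ : ℂ)⁻¹ • ∑ j ∈ Finset.range (orderOf τ), dA b ((τ ^ j : V ≃ₗ[ℂ] V) v) f
      = dA b ((projT τ v : ↥(fixSub τ)) : V) f := by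
    rw [projT_apply_coe, resb_avg, dA_smul, resb_dA_sum, LinearMap.smul_apply, LinearMap.sum_apply]
  rw [h5] at h4
  rw [← ResRel.unique h4 (resb_dA (projT τ v) h)]
  exact ht

/-- the derivative in the momenta in the direction of a covector. -/
private noncomputable def pcov {V : Type} [AddCommGroup V] [Module ℂ V] {ι : Type} [Fintype ι]
    (b : Basis ι ℂ V) (φ : Dual ℂ V) : Ax ι →ₗ[ℂ] Ax ι :=
  ∑ i, φ (b i) • ((pderiv i : Derivation (Fx ι) (Ax ι) (Ax ι)) : Ax ι →ₗ[Fx ι] Ax ι).restrictScalars ℂ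

private theorem pcov_apply {V : Type} [AddCommGroup V] [Module ℂ V] {ι : Type} [Fintype ι]
    (b : Basis ι ℂ V) (φ : Dual ℂ V) (f : Ax ι) : pcov b φ f = ∑ i, φ (b i) • pderiv i f := by
  rw [pcov, LinearMap.sum_apply]
  rfl

private theorem pcov_mul {V : Type} [AddCommGroup V] [Module ℂ V] {ι : Type} [Fintype ι]
    (b : Basis ι ℂ V) (φ : Dual ℂ V) (f f' : Ax ι) : pcov b φ (f * f') = f * pcov b φ f' + pcov b φ f * f' := by
  rw [pcov_apply, pcov_apply, pcov_apply, Finset.mul_sum, Finset.sum_mul, ← Finset.sum_add_distrib]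
  refine Finset.sum_congr rfl (fun i _ => ?_)
  rw [Derivation.leibniz, smul_eq_mul, smul_eq_mul, smul_add, mul_smul_comm, smul_mul_assoc,
    mul_comm f' (pderiv i f)]

private theorem pcov_C {V : Type} [AddCommGroup V] [Module ℂ V] {ι : Type} [Fintype ι]
    (b : Basis ι ℂ V) (φ : Dual ℂ V) (c : Fx ι) : pcov b φ (C c) = 0 := by
  rw [pcov_apply]
  refine Finset.sum_eq_zero (fun i _ => ?_)
  rw [pderiv_C, smul_zero]

private theorem pcov_xA {V : Type} [AddCommGroup V] [Module ℂ V] {ι : Type} [Fintype ι]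
    (b : Basis ι ℂ V) (φ : Dual ℂ V) (p : Px ι) : pcov b φ (xA p) = 0 := by
  rw [xA_apply, pcov_C]

private theorem pcov_X {V : Type} [AddCommGroup V] [Module ℂ V] {ι : Type} [Fintype ι]
    (b : Basis ι ℂ V) (φ : Dual ℂ V) (j : ι) : pcov b φ (X j) = algebraMap ℂ (Ax ι) (φ (b j)) := by
  classical
  rw [pcov_apply, Finset.sum_eq_single j]
  · rw [pderiv_X_self, Algebra.algebraMap_eq_smul_one]
  · intro i _ hi
    rw [pderiv_X_of_ne (Ne.symm hi), smul_zero]
  · intro h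
    exact absurd (Finset.mem_univ _) h

private theorem pcov_yA {V : Type} [AddCommGroup V] [Module ℂ V] {ι : Type} [Fintype ι]
    (b : Basis ι ℂ V) (φ : Dual ℂ V) (v : V) : pcov b φ (yA b v) = algebraMap ℂ (Ax ι) (φ v) := by
  rw [yA_apply, map_sum]
  have hv : φ v = ∑ i, b.repr v i * φ (b i) := by
    conv_lhs => rw [← b.sum_repr v]
    rw [map_sum]
    exact Finset.sum_congr rfl (fun i _ => by rw [map_smul, smul_eq_mul])
  rw [hv, map_sum]
  refine Finset.sum_congr rfl (fun i _ => ?_)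
  rw [map_smul, pcov_X, map_mul, Algebra.smul_def]

/-- chain rule. -/
private theorem trA_pcov (b : Basis ι ℂ V) (g : V ≃ₗ[ℂ] V) (φ : Dual ℂ V) (f : Ax ι) :
    trA b b g (pcov b φ f) = pcov b (φ.comp (g.symm : V →ₗ[ℂ] V)) (trA b b g f) := by
  induction f using MvPolynomial.induction_on with
  | C a =>
    rw [pcov_C, map_zero, trA_C, pcov_C]
  | add p q hp hq => rw [map_add, map_add, map_add, map_add, hp, hq]
  | mul_X p l hp =>
    rw [pcov_mul, map_add, map_mul, map_mul, map_mul, hp, pcov_mul, pcov_X, AlgHom.commutes, trA_X, pcov_yA]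
    have h1 : (φ.comp (g.symm : V →ₗ[ℂ] V)) (g (b l)) = φ (b l) := by
      rw [LinearMap.comp_apply, LinearEquiv.coe_coe, LinearEquiv.symm_apply_apply]
    rw [h1]

private theorem resb_pcov_jR {φ : Dual ℂ V} (hφ : ∀ v, φ ((projT τ v : ↥(fixSub τ)) : V) = φ v) (p : Rx ι) :
    ResRel τ b bU (pcov b φ (jR p)) (pcov bU (φ.comp (fixSub τ).subtype) (jR (resR τ b bU p))) := by
  have h0 := ResRel.const (τ := τ) (b := b) (bU := bU) 0
  rw [map_zero, map_zero] at h0
  induction p using MvPolynomial.induction_on with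
  | C a =>
    rw [resR_C, jR_C, jR_C, pcov_xA, pcov_xA]
    exact h0
  | add p q hp hq =>
    rw [map_add, map_add, map_add, map_add, map_add]
    exact ResRel.add hp hq
  | mul_X p i hp =>
    rw [map_mul jR, map_mul (resR τ b bU), map_mul jR, pcov_mul, pcov_mul]
    refine ResRel.add (ResRel.mul (ResRel.ofR p) ?_) (ResRel.mul hp (ResRel.ofR _))
    rw [jR_X, pcov_X, resb_resR_X, jR_yR, pcov_yA, LinearMap.comp_apply, Submodule.subtype_apply, hφ]
    exact ResRel.const _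

private theorem resb_pcov {φ : Dual ℂ V} (hφ : ∀ v, φ ((projT τ v : ↥(fixSub τ)) : V) = φ v)
    {f : Ax ι} {s : Ax κ} (h : ResRel τ b bU f s) :
    ResRel τ b bU (pcov b φ f) (pcov bU (φ.comp (fixSub τ).subtype) s) := by
  obtain ⟨d, p, hd, h1, h2⟩ := h
  refine ResRel.of_mul hd ?_
  have e1 : xA d * pcov b φ f = pcov b φ (jR p) := by
    rw [← h1, pcov_mul, pcov_xA, zero_mul, add_zero]
  have e2 : xA (resP τ b bU d) * pcov bU (φ.comp (fixSub τ).subtype) s
      = pcov bU (φ.comp (fixSub τ).subtype) (jR (resR τ b bU p)) := by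
    rw [← h2, pcov_mul, pcov_xA, zero_mul, add_zero]
  rw [e1, e2]
  exact resb_pcov_jR hφ p

private theorem resb_pcov_jR_mem (φ : Dual ℂ V) (p : Rx ι) : ∃ q : Rx ι, pcov b φ (jR p) = jR q := by
  induction p using MvPolynomial.induction_on with
  | C a =>
    refine ⟨0, ?_⟩
    rw [jR_C, pcov_xA, map_zero]
  | add p q hp hq =>
    obtain ⟨p', hp'⟩ := hp
    obtain ⟨q', hq'⟩ := hq
    refine ⟨p' + q', ?_⟩
    rw [map_add, map_add, map_add, hp', hq']
  | mul_X p i hp =>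
    obtain ⟨p', hp'⟩ := hp
    refine ⟨p * C (C (φ (b i))) + p' * X i, ?_⟩
    rw [map_mul, pcov_mul, hp', jR_X, pcov_X, map_add, map_mul, map_mul, jR_C, jR_X, resb_xA_C]

private theorem resb_pcov_ex (φ : Dual ℂ V) {f : Ax ι} {s : Ax κ} (h : ResRel τ b bU f s) :
    ∃ t, ResRel τ b bU (pcov b φ f) t := by
  obtain ⟨d, p, hd, h1, -⟩ := h
  obtain ⟨q, hq⟩ := resb_pcov_jR_mem (b := b) φ p
  refine ResRel.exists_of_den (d := d) (p := q) hd ?_
  rw [← hq, ← h1, pcov_mul, pcov_xA, zero_mul, add_zero]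

/-- the covector `φ ∘ (projection)`. -/
private theorem resb_pcov_inv (hfin : IsOfFinOrder τ) (φ : Dual ℂ V) {f : Ax ι} {s : Ax κ}
    (h : ResRel τ b bU f s) (hf : trA b b τ f = f) :
    ResRel τ b bU (pcov b φ f) (pcov bU (φ.comp (fixSub τ).subtype) s) := by
  obtain ⟨t, ht⟩ := resb_pcov_ex φ h
  have h1 : ∀ j : ℕ, ResRel τ b bU (pcov b (φ.comp ((τ ^ j : V ≃ₗ[ℂ] V).symm : V →ₗ[ℂ] V)) f) t := by
    intro j
    induction j with
    | zero =>
      rw [pow_zero]
      exact ht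
    | succ j ih =>
      have h2 := ResRel.act_tau hfin ih
      have h3 : act b τ (pcov b (φ.comp ((τ ^ j : V ≃ₗ[ℂ] V).symm : V →ₗ[ℂ] V)) f)
          = pcov b (φ.comp ((τ ^ (j + 1) : V ≃ₗ[ℂ] V).symm : V →ₗ[ℂ] V)) f := by
        rw [act, trA_pcov, hf, pow_succ']
        rfl
      rwa [h3] at h2
  have h4 := resb_sum_const hfin h1
  set ψ : Dual ℂ V := (orderOf τ : ℂ)⁻¹ • ∑ j ∈ Finset.range (orderOf τ),
    φ.comp ((τ ^ j : V ≃ₗ[ℂ] V).symm : V →ₗ[ℂ] V) with hψ
  have h5 : (orderOf τ : ℂ)⁻¹ • ∑ j ∈ Finset.range (orderOf τ),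
      pcov b (φ.comp ((τ ^ j : V ≃ₗ[ℂ] V).symm : V →ₗ[ℂ] V)) f = pcov b ψ f := by
    simp only [pcov_apply]
    rw [Finset.sum_comm, Finset.smul_sum]
    refine Finset.sum_congr rfl (fun i _ => ?_)
    rw [← Finset.sum_smul, smul_smul, hψ, LinearMap.smul_apply, LinearMap.sum_apply, smul_eq_mul]
  rw [h5] at h4
  have hm : (orderOf τ : ℂ) ≠ 0 := by
    exact_mod_cast (orderOf_pos_iff.2 hfin).ne'
  -- `ψ` agrees with `φ` on `U` and is invariant
  have hval : ∀ v, ψ v = (orderOf τ : ℂ)⁻¹ * ∑ j ∈ Finset.range (orderOf τ),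
      φ ((τ ^ j : V ≃ₗ[ℂ] V).symm v) := by
    intro v
    rw [hψ, LinearMap.smul_apply, LinearMap.sum_apply, smul_eq_mul]
    rfl
  have hU : ∀ u : ↥(fixSub τ), ψ (u : V) = φ (u : V) := by
    intro u
    have hfix : ∀ j : ℕ, (τ ^ j : V ≃ₗ[ℂ] V) (u : V) = (u : V) := by
      intro j
      induction j with
      | zero => rfl
      | succ j ih => rw [pow_succ, LinearEquiv.mul_apply, mem_fixSub.1 u.2, ih]
    rw [hval]
    have h6 : ∀ j ∈ Finset.range (orderOf τ), φ ((τ ^ j : V ≃ₗ[ℂ] V).symm (u : V)) = φ (u : V) := by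
      intro j _
      congr 1
      rw [LinearEquiv.symm_apply_eq, hfix j]
    rw [Finset.sum_congr rfl h6, Finset.sum_const, Finset.card_range, nsmul_eq_mul, ← mul_assoc,
      inv_mul_cancel₀ hm, one_mul]
  have hτ : ∀ v, ψ (τ v) = ψ v := by
    intro v
    rw [hval, hval]
    congr 1
    have h6 : ∀ j : ℕ, φ ((τ ^ (j + 1) : V ≃ₗ[ℂ] V).symm (τ v)) = φ ((τ ^ j : V ≃ₗ[ℂ] V).symm v) := by
      intro j
      congr 1
      rw [LinearEquiv.symm_apply_eq, pow_succ', LinearEquiv.mul_apply, LinearEquiv.apply_symm_apply]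
    have h7 : ∑ j ∈ Finset.range (orderOf τ), φ ((τ ^ j : V ≃ₗ[ℂ] V).symm (τ v))
        = ∑ j ∈ Finset.range (orderOf τ), φ ((τ ^ (j + 1) : V ≃ₗ[ℂ] V).symm (τ v)) := by
      have h8 := Finset.sum_range_succ (fun j => φ ((τ ^ j : V ≃ₗ[ℂ] V).symm (τ v))) (orderOf τ)
      have h9 := Finset.sum_range_succ' (fun j => φ ((τ ^ j : V ≃ₗ[ℂ] V).symm (τ v))) (orderOf τ)
      have h10 : φ ((τ ^ (orderOf τ) : V ≃ₗ[ℂ] V).symm (τ v)) = φ ((τ ^ 0 : V ≃ₗ[ℂ] V).symm (τ v)) := by
        rw [pow_orderOf_eq_one, pow_zero]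
      rw [h9, h10] at h8
      exact (add_right_cancel h8).symm
    rw [h7]
    exact Finset.sum_congr rfl (fun j _ => h6 j)
  have hproj : ∀ v, ψ ((projT τ v : ↥(fixSub τ)) : V) = ψ v := by
    intro v
    rw [projT_apply_coe, resb_avg, map_smul, map_sum]
    have h6 : ∀ j : ℕ, ψ ((τ ^ j : V ≃ₗ[ℂ] V) v) = ψ v := by
      intro j
      induction j with
      | zero => rfl
      | succ j ih => rw [pow_succ', LinearEquiv.mul_apply, hτ, ih]
    rw [Finset.sum_congr rfl (fun j _ => h6 j), Finset.sum_const, Finset.card_range, nsmul_eq_mul,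
      smul_eq_mul, ← mul_assoc, inv_mul_cancel₀ hm, one_mul]
  have h11 : ψ.comp (fixSub τ).subtype = φ.comp (fixSub τ).subtype := by
    ext u
    exact hU u
  have h12 := resb_pcov hproj h
  rw [h11] at h12
  rw [← ResRel.unique h4 h12]
  exact ht

private theorem resb_pderiv (hfin : IsOfFinOrder τ) (i : ι) {f : Ax ι} {s : Ax κ}
    (h : ResRel τ b bU f s) (hf : trA b b τ f = f) :
    ResRel τ b bU (pderiv i f) (∑ j, b.coord i ((bU j : ↥(fixSub τ)) : V) • pderiv j s) := by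
  have h1 := resb_pcov_inv hfin (b.coord i) h hf
  have h2 : pcov b (b.coord i) f = pderiv i f := by
    rw [pcov_apply, Finset.sum_eq_single i]
    · rw [Basis.coord_apply, Basis.repr_self, Finsupp.single_eq_same, one_smul]
    · intro j _ hj
      rw [Basis.coord_apply, Basis.repr_self, Finsupp.single_eq_of_ne hj.symm, zero_smul]
    · intro hi
      exact absurd (Finset.mem_univ _) hi
  rw [h2, pcov_apply] at h1
  exact h1

/-- one half of the bracket. -/
private theorem resb_half (hfin : IsOfFinOrder τ) {f f' : Ax ι} {s s' : Ax κ} (h : ResRel τ b bU f s)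
    (h' : ResRel τ b bU f' s') (hf : trA b b τ f = f) (hf' : trA b b τ f' = f') :
    ResRel τ b bU (∑ i, pderiv i f * dA b (b i) f') (∑ j, pderiv j s * dA bU (bU j) s') := by
  have h1 : ResRel τ b bU (∑ i, pderiv i f * dA b (b i) f')
      (∑ i, (∑ j, b.coord i ((bU j : ↥(fixSub τ)) : V) • pderiv j s) * dA bU (projT τ (b i)) s') :=
    ResRel.sum _ (fun i _ => ResRel.mul (resb_pderiv hfin i h hf) (resb_dA_inv hfin (b i) h' hf'))
  have h2 : ∑ i, (∑ j, b.coord i ((bU j : ↥(fixSub τ)) : V) • pderiv j s) * dA bU (projT τ (b i)) s'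
      = ∑ j, pderiv j s * dA bU (bU j) s' := by
    have h3 : ∀ i, (∑ j, b.coord i ((bU j : ↥(fixSub τ)) : V) • pderiv j s) * dA bU (projT τ (b i)) s'
        = ∑ j, pderiv j s * dA bU (b.coord i ((bU j : ↥(fixSub τ)) : V) • projT τ (b i)) s' := by
      intro i
      rw [Finset.sum_mul]
      refine Finset.sum_congr rfl (fun j _ => ?_)
      rw [dA_smul, LinearMap.smul_apply, smul_mul_assoc, mul_smul_comm]
    rw [Finset.sum_congr rfl (fun i _ => h3 i), Finset.sum_comm]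
    refine Finset.sum_congr rfl (fun j _ => ?_)
    rw [← Finset.mul_sum, ← LinearMap.sum_apply, ← resb_dA_sum]
    have h4 : ∑ i, b.coord i ((bU j : ↥(fixSub τ)) : V) • projT τ (b i) = bU j := by
      have h5 := b.sum_repr ((bU j : ↥(fixSub τ)) : V)
      have h6 := congrArg (fun v => projT τ v) h5
      simp only [map_sum, map_smul] at h6
      rw [projT_of_mem hfin] at h6
      exact h6
    rw [h4]
  rw [h2] at h1
  exact h1

/-- for `τ`-invariant functions the canonical bracket restricts to the canonical bracket: the derivatives of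
`τ`-invariant functions in the directions of `Im(1 - τ)` vanish on `U × U*`. -/
theorem ResRel.poisson (hfin : IsOfFinOrder τ) {f f' : Ax ι} {s s' : Ax κ} (h : ResRel τ b bU f s)
    (h' : ResRel τ b bU f' s') (hf : trA b b τ f = f) (hf' : trA b b τ f' = f') :
    ResRel τ b bU (pb b f f') (pb bU s s') := by
  rw [pb, pb, Finset.sum_sub_distrib, Finset.sum_sub_distrib]
  exact resb_sub (resb_half hfin h h' hf hf') (resb_half hfin h' h hf' hf)

end

section

variable {V : Type} [AddCommGroup V] [Module ℂ V] [FiniteDimensional ℂ V]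
variable {ι : Type} [Fintype ι] [DecidableEq ι] {κ : Type} [Fintype κ] [DecidableEq κ]
variable (W : Subgroup (V ≃ₗ[ℂ] V)) [Finite W] (k : Submodule ℂ V → ℤ → ℂ)

/-- `Δ = ∏_H α_H`. -/
noncomputable def Del (b : Basis ι ℂ V) : Px ι := ∏ H ∈ arrF W, xl b (lf H)

theorem Del_ne_zero (b : Basis ι ℂ V) : Del W b ≠ 0 := by
  rw [Del, Finset.prod_ne_zero_iff]
  intro H hH
  exact xl_lf_ne_zero b H (arr_finrank W (mem_arrF.1 hH))

/-- `Δ` is semi-invariant. -/
private theorem resb_trP_Del (b : Basis ι ℂ V) {g : V ≃ₗ[ℂ] V} (hg : g ∈ W) :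
    ∃ c : ℂ, c ≠ 0 ∧ Del W b = c • trP b b g (Del W b) := by
  classical
  have hk0 : Adm W (fun _ _ => 0 : Submodule ℂ V → ℤ → ℂ) := ⟨fun _ _ _ _ _ => rfl, fun _ _ _ => rfl⟩
  have hT := tp_of_mem hk0 hg
  have h1 := sum_arrF_map hT (M := Additive (Px ι)) (fun H => Additive.ofMul (xl b (lf H)))
  have h2 : Del W b = ∏ H ∈ arrF W, xl b (lf (H.map (g : V →ₗ[ℂ] V))) := h1
  have h3 : ∀ H : Submodule ℂ V, ∃ c : ℂ, c ≠ 0 ∧ (H ∈ arrF W →
      xl b (lf (H.map (g : V →ₗ[ℂ] V))) = c • trP b b g (xl b (lf H))) := by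
    intro H
    by_cases hH : H ∈ arrF W
    · obtain ⟨c, hc, hc'⟩ := lf_map g H (arr_finrank W (mem_arrF.1 hH))
      refine ⟨c, hc, fun _ => ?_⟩
      rw [hc', map_smul, trP_xl]
    · exact ⟨1, one_ne_zero, fun h => absurd h hH⟩
  choose c hc hc' using h3
  refine ⟨∏ H ∈ arrF W, c H, Finset.prod_ne_zero_iff.2 (fun H _ => hc H), ?_⟩
  have h4 : ∏ H ∈ arrF W, xl b (lf (H.map (g : V →ₗ[ℂ] V)))
      = ∏ H ∈ arrF W, (c H • trP b b g (xl b (lf H))) := Finset.prod_congr rfl (fun H hH => hc' H hH)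
  have h5 : trP b b g (Del W b) = ∏ H ∈ arrF W, trP b b g (xl b (lf H)) := by
    rw [Del, map_prod]
  rw [h5, h2, h4, Finset.prod_smul]

/-- functions whose denominator is a power of `Δ`. -/
private def resb_den (b : Basis ι ℂ V) : Submodule ℂ (Ax ι) where
  carrier := {m | ∃ (N : ℕ) (p : Rx ι), jR p = xA (Del W b ^ N) * m}
  add_mem' := by
    rintro m m' ⟨N, p, hp⟩ ⟨N', p', hp'⟩
    refine ⟨N + N', C (Del W b ^ N') * p + C (Del W b ^ N) * p', ?_⟩
    rw [map_add, map_mul, map_mul, jR_C, jR_C, hp, hp', pow_add, map_mul]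
    ring
  zero_mem' := ⟨0, 0, by rw [map_zero, mul_zero]⟩
  smul_mem' := by
    rintro c m ⟨N, p, hp⟩
    refine ⟨N, c • p, ?_⟩
    rw [map_smul, hp, mul_smul_comm]

private theorem resb_den_mul (b : Basis ι ℂ V) {m m' : Ax ι} (h : m ∈ resb_den W b) (h' : m' ∈ resb_den W b) :
    m * m' ∈ resb_den W b := by
  obtain ⟨N, p, hp⟩ := h
  obtain ⟨N', p', hp'⟩ := h'
  refine ⟨N + N', p * p', ?_⟩
  rw [map_mul, hp, hp', pow_add, map_mul]
  ring

private theorem resb_den_jR (b : Basis ι ℂ V) (p : Rx ι) : jR p ∈ resb_den W b :=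
  ⟨0, p, by rw [pow_zero, map_one, one_mul]⟩

private theorem resb_den_act (b : Basis ι ℂ V) {g : V ≃ₗ[ℂ] V} (hg : g ∈ W) {m : Ax ι}
    (h : m ∈ resb_den W b) : act b g m ∈ resb_den W b := by
  obtain ⟨N, p, hp⟩ := h
  obtain ⟨c, hc, hc'⟩ := resb_trP_Del W b hg
  refine ⟨N, c ^ N • trR b b g p, ?_⟩
  have h1 : xA (Del W b ^ N) = c ^ N • xA (trP b b g (Del W b) ^ N) := by
    conv_lhs => rw [hc']
    rw [smul_pow, map_smul]
  rw [map_smul, jR_trR, hp, map_mul, trA_xA, map_pow, h1, smul_mul_assoc]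

private theorem resb_den_qH (b : Basis ι ℂ V) {H : Submodule ℂ V} (hH : H ∈ arrF W) (v : V) :
    (C (qH b H v) : Ax ι) ∈ resb_den W b := by
  classical
  refine ⟨1, C (C (lf H v) * ∏ H' ∈ (arrF W).erase H, xl b (lf H')), ?_⟩
  have h1 : (C (qH b H v) : Ax ι) * xA (xl b (lf H)) = algebraMap ℂ (Ax ι) (lf H v) := by
    rw [xA_apply, ← C_mul, qH_mul b H (arr_finrank W (mem_arrF.1 hH)) v]
    rfl
  have h2 : Del W b = xl b (lf H) * ∏ H' ∈ (arrF W).erase H, xl b (lf H') := by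
    rw [Del]
    exact (Finset.mul_prod_erase (arrF W) (fun H' => xl b (lf H')) hH).symm
  rw [jR_C, map_mul, resb_xA_C, ← h1, pow_one, h2, map_mul]
  ring

/-- `Δ^N m` is polynomial for some `N` (such `m` satisfy `IsStab`). -/
theorem Mk_den (b : Basis ι ℂ V) {m : Ax ι} (hm : m ∈ Mk W k b) :
    ∃ (N : ℕ) (p : Rx ι), jR p = xA (Del W b ^ N) * m := by
  have h1 : IsStab W k b (resb_den W b) := by
    refine ⟨?_, ?_, ?_⟩
    · have := resb_den_jR W b 1
      rwa [map_one] at this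
    · intro f m hm
      have h2 := resb_den_jR W b (C (xl b f))
      rw [jR_C] at h2
      exact resb_den_mul W b h2 hm
    · intro v m hm
      rw [tact_dunkl_apply]
      refine Submodule.add_mem _ ?_ ?_
      · have h2 := resb_den_jR W b (yR b v)
        rw [jR_yR] at h2
        exact resb_den_mul W b h2 hm
      · refine Submodule.sum_mem _ (fun H hH => resb_den_mul W b (resb_den_qH W b hH v) ?_)
        rw [tact_aop_apply]
        refine Submodule.sum_mem _ (fun g hg => Submodule.smul_mem _ _ (resb_den_act W b ?_ hm))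
        exact pst_le W H (mem_pstF.1 hg)
  exact Mk_le W k h1 hm

/-- if `U` contains a regular vector then `Δ|_U ≠ 0`. -/
theorem resP_Del_ne_zero (τ : V ≃ₗ[ℂ] V) (hreg : IsRegular W τ) (b : Basis ι ℂ V)
    (bU : Basis κ ℂ ↥(fixSub τ)) : resP τ b bU (Del W b) ≠ 0 := by
  obtain ⟨v, hv, hreg⟩ := hreg
  intro h0
  have h1 := evP_resP τ b bU ⟨v, hv⟩ (Del W b)
  rw [h0, map_zero, Del, map_prod] at h1
  obtain ⟨H, hH, hH0⟩ := Finset.prod_eq_zero_iff.1 h1.symm
  rw [evP_xl] at hH0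
  have hH' := mem_arrF.1 hH
  exact hreg H hH' ((mem_iff_lf H (arr_finrank W hH') v).2 hH0)

theorem exists_res (τ : V ≃ₗ[ℂ] V) (hreg : IsRegular W τ) (b : Basis ι ℂ V)
    (bU : Basis κ ℂ ↥(fixSub τ)) {m : Ax ι} (hm : m ∈ Mk W k b) : ∃ s, ResRel τ b bU m s := by
  obtain ⟨N, p, hp⟩ := Mk_den W k b hm
  refine ResRel.exists_of_den (d := Del W b ^ N) ?_ hp.symm
  rw [map_pow]
  exact pow_ne_zero N (resP_Del_ne_zero W τ hreg b bU)

theorem isRegular_of_free {τ : V ≃ₗ[ℂ] V} {u : V} (hτu : τ u = u) (hu : ∀ g ∈ W, g u = u → g = 1) :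
    IsRegular W τ := by
  refine ⟨u, hτu, ?_⟩
  rintro H ⟨s, hs, hr, rfl⟩ hmem
  have h1 : s = 1 := hu s hs hmem
  subst h1
  have h2 : fixSub (1 : V ≃ₗ[ℂ] V) = ⊤ := by
    rw [eq_top_iff]
    intro v _
    exact mem_fixSub.2 rfl
  unfold IsRefl at hr
  rw [h2, finrank_top] at hr
  omega

/-- conversely (Steinberg). -/
theorem free_of_isRegular (hW : ReflGen W) {τ : V ≃ₗ[ℂ] V} (h : IsRegular W τ) :
    ∃ u : V, τ u = u ∧ ∀ g ∈ W, g u = u → g = 1 := by
  obtain ⟨v, hv, hreg⟩ := h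
  exact ⟨v, hv, fun g hg hgv => steinberg W hW hreg hg hgv⟩

end

end Pool.Agent.CM64
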