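import Pool.Agent.LibCM64.ThInj
import Pool.Agent.LibCM64.ResB
import Pool.Agent.LibCM64.Inv

/-! Reflection subgroups `rst W E` fixing a subspace `E`; comparison of Dunkl operators. -/

set_option linter.unusedSectionVars false

namespace Pool.Agent.CM64

open Module MvPolynomial

section

variable {V : Type} [AddCommGroup V] [Module ℂ V] [FiniteDimensional ℂ V]
variable {V' : Type} [AddCommGroup V'] [Module ℂ V'] [FiniteDimensional ℂ V']
variable {ι : Type} [Fintype ι] [DecidableEq ι] {ι' : Type} [Fintype ι'] [DecidableEq ι']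

/-- the subgroup generated by the reflections of `W` which fix `E` pointwise. -/
def rst (W : Subgroup (V ≃ₗ[ℂ] V)) (E : Submodule ℂ V) : Subgroup (V ≃ₗ[ℂ] V) :=
  Subgroup.closure {s | s ∈ W ∧ IsRefl s ∧ ∀ v ∈ E, s v = v}

private theorem locA_rst_le_pst (W : Subgroup (V ≃ₗ[ℂ] V)) (E : Submodule ℂ V) : rst W E ≤ pst W E := by
  unfold rst
  rw [Subgroup.closure_le]
  rintro s ⟨hs, _, h⟩
  exact ⟨hs, h⟩

theorem rst_le (W : Subgroup (V ≃ₗ[ℂ] V)) (E : Submodule ℂ V) : rst W E ≤ W :=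
  (locA_rst_le_pst W E).trans (pst_le W E)

instance rst.instFinite (W : Subgroup (V ≃ₗ[ℂ] V)) [Finite W] (E : Submodule ℂ V) : Finite (rst W E) :=
  (Set.Finite.subset (Set.toFinite (W : Set (V ≃ₗ[ℂ] V))) (rst_le W E)).to_subtype

theorem rst_fix (W : Subgroup (V ≃ₗ[ℂ] V)) (E : Submodule ℂ V) {g : V ≃ₗ[ℂ] V} (hg : g ∈ rst W E) {v : V}
    (hv : v ∈ E) : g v = v :=
  (locA_rst_le_pst W E hg).2 v hv

private theorem locA_mem_rst {W : Subgroup (V ≃ₗ[ℂ] V)} {E : Submodule ℂ V} {s : V ≃ₗ[ℂ] V} (hs : s ∈ W)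
    (hr : IsRefl s) (h : ∀ v ∈ E, s v = v) : s ∈ rst W E :=
  Subgroup.subset_closure ⟨hs, hr, h⟩

private theorem locA_fixSub {W : Subgroup (V ≃ₗ[ℂ] V)} {H : Submodule ℂ V}
    (hH : finrank ℂ H + 1 = finrank ℂ V) {g : V ≃ₗ[ℂ] V} (hg : g ∈ pst W H) (hg1 : g ≠ 1) :
    fixSub g = H := by
  have hle : H ≤ fixSub g := fun v hv => hg.2 v hv
  have hne : fixSub g ≠ ⊤ := by
    intro h
    apply hg1
    ext v
    have hv : v ∈ fixSub g := by rw [h]; trivial
    exact hv
  have hlt : finrank ℂ (fixSub g) < finrank ℂ V := Submodule.finrank_lt hne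
  exact (Submodule.eq_of_le_of_finrank_le hle (by omega)).symm

private theorem locA_pst_le_rst (W : Subgroup (V ≃ₗ[ℂ] V)) {E H : Submodule ℂ V}
    (hH : finrank ℂ H + 1 = finrank ℂ V) (h : E ≤ H) : pst W H ≤ rst W E := by
  intro g hg
  by_cases hg1 : g = 1
  · rw [hg1]
    exact Subgroup.one_mem _
  · have h1 := locA_fixSub hH hg hg1
    refine locA_mem_rst hg.1 ?_ (fun v hv => hg.2 v (h hv))
    unfold IsRefl
    rw [h1]
    exact hH

theorem reflGen_rst (W : Subgroup (V ≃ₗ[ℂ] V)) (E : Submodule ℂ V) : ReflGen (rst W E) := by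
  unfold ReflGen
  apply le_antisymm
  · rw [Subgroup.closure_le]
    rintro s ⟨hs, _⟩
    exact hs
  · conv_lhs => unfold rst
    apply Subgroup.closure_mono
    rintro s ⟨hs, hr, h⟩
    exact ⟨locA_mem_rst hs hr h, hr⟩

theorem mem_arr_rst (W : Subgroup (V ≃ₗ[ℂ] V)) (E H : Submodule ℂ V) :
    H ∈ arr (rst W E) ↔ H ∈ arr W ∧ E ≤ H := by
  constructor
  · rintro ⟨s, hs, hr, rfl⟩
    exact ⟨⟨s, rst_le W E hs, hr, rfl⟩, fun v hv => rst_fix W E hs hv⟩
  · rintro ⟨⟨s, hs, hr, rfl⟩, hE⟩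
    exact ⟨s, locA_mem_rst hs hr (fun v hv => hE hv), hr, rfl⟩

/-- for a hyperplane `H` containing `E` the pointwise stabilisers of `H` in `W` and in `rst W E` are the same. -/
theorem pst_rst (W : Subgroup (V ≃ₗ[ℂ] V)) {E H : Submodule ℂ V} (hH : finrank ℂ H + 1 = finrank ℂ V)
    (h : E ≤ H) : pst (rst W E) H = pst W H := by
  apply le_antisymm
  · rintro g ⟨h1, h2⟩
    exact ⟨rst_le W E h1, h2⟩
  · intro g hg
    exact ⟨locA_pst_le_rst W hH h hg, hg.2⟩

/-- for a hyperplane `H`, `rst W H = W_H`. -/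
theorem rst_hyper (W : Subgroup (V ≃ₗ[ℂ] V)) {H : Submodule ℂ V} (hH : finrank ℂ H + 1 = finrank ℂ V) :
    rst W H = pst W H :=
  le_antisymm (locA_rst_le_pst W H) (locA_pst_le_rst W hH le_rfl)

theorem rst_rst (W : Subgroup (V ≃ₗ[ℂ] V)) {E E' : Submodule ℂ V} (h : E ≤ E') :
    rst (rst W E) E' = rst W E' := by
  apply le_antisymm
  · conv_lhs => unfold rst
    rw [Subgroup.closure_le]
    rintro s ⟨hs, hr, h1⟩
    exact locA_mem_rst (rst_le W E hs) hr h1
  · conv_lhs => unfold rst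
    rw [Subgroup.closure_le]
    rintro s ⟨hs, hr, h1⟩
    exact locA_mem_rst (locA_mem_rst hs hr (fun v hv => h1 v (h hv))) hr h1

theorem adm_rst {W : Subgroup (V ≃ₗ[ℂ] V)} {k : Submodule ℂ V → ℤ → ℂ} (hk : Adm W k) (E : Submodule ℂ V) :
    Adm (rst W E) k := by
  refine ⟨fun g hg H hH j => ?_, fun H hH j => ?_⟩
  · exact hk.inv g (rst_le W E hg) H ((mem_arr_rst W E H).1 hH).1 j
  · obtain ⟨h1, h2⟩ := (mem_arr_rst W E H).1 hH
    have h3 : finrank ℂ H + 1 = finrank ℂ V := by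
      obtain ⟨s, _, hs, rfl⟩ := h1
      exact hs
    have h4 : eH (rst W E) H = eH W H := by
      unfold eH
      rw [pst_rst W h3 h2]
    rw [h4]
    exact hk.per H h1 j

private theorem locA_cj_fixSub (g : V ≃ₗ[ℂ] V') (h : V ≃ₗ[ℂ] V) :
    fixSub (cj g h) = (fixSub h).map (g : V →ₗ[ℂ] V') := by
  ext v
  rw [mem_fixSub, cj_apply, Submodule.mem_map]
  constructor
  · intro hv
    refine ⟨g.symm v, ?_, by simp⟩
    rw [mem_fixSub]
    have := congrArg g.symm hv
    simpa using this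
  · rintro ⟨w, hw, rfl⟩
    rw [mem_fixSub] at hw
    simp [hw]

private theorem locA_cj_isRefl (g : V ≃ₗ[ℂ] V') {h : V ≃ₗ[ℂ] V} (hh : IsRefl h) : IsRefl (cj g h) := by
  unfold IsRefl
  rw [locA_cj_fixSub, LinearEquiv.finrank_map_eq, ← g.finrank_eq]
  exact hh

private theorem locA_cj_rst (g : V ≃ₗ[ℂ] V') (W : Subgroup (V ≃ₗ[ℂ] V)) (W' : Subgroup (V' ≃ₗ[ℂ] V'))
    (hW : ∀ h ∈ W, cj g h ∈ W') (E : Submodule ℂ V) (h : V ≃ₗ[ℂ] V) (hh : h ∈ rst W E) :
    cj g h ∈ rst W' (E.map (g : V →ₗ[ℂ] V')) := by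
  unfold rst at hh
  induction hh using Subgroup.closure_induction with
  | mem s hs =>
    obtain ⟨h1, h2, h3⟩ := hs
    refine locA_mem_rst (hW s h1) (locA_cj_isRefl g h2) ?_
    intro v' hv'
    obtain ⟨v, hv, rfl⟩ := Submodule.mem_map.1 hv'
    rw [cj_apply]
    simp [h3 v hv]
  | one =>
    have : cj g (1 : V ≃ₗ[ℂ] V) = 1 := by
      ext v
      simp [cj_apply]
    rw [this]
    exact Subgroup.one_mem _
  | mul a c _ _ ha hc =>
    have : cj g (a * c) = cj g a * cj g c := by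
      ext v
      simp [cj_apply]
    rw [this]
    exact Subgroup.mul_mem _ ha hc
  | inv a _ ha =>
    have : cj g a⁻¹ = (cj g a)⁻¹ := by
      rw [eq_inv_iff_mul_eq_one]
      ext v
      have h1 : ∀ w, a⁻¹ (a w) = w := fun w => by
        rw [← LinearEquiv.mul_apply, inv_mul_cancel]
        rfl
      rw [LinearEquiv.mul_apply, cj_apply, cj_apply, LinearEquiv.symm_apply_apply, h1]
      simp
    rw [this]
    exact Subgroup.inv_mem _ ha

theorem tp_rst {g : V ≃ₗ[ℂ] V'} {W : Subgroup (V ≃ₗ[ℂ] V)} {W' : Subgroup (V' ≃ₗ[ℂ] V')}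
    {k : Submodule ℂ V → ℤ → ℂ} {k' : Submodule ℂ V' → ℤ → ℂ} (h : Tp g W W' k k') (E : Submodule ℂ V) :
    Tp g (rst W E) (rst W' (E.map (g : V →ₗ[ℂ] V'))) k k' := by
  have hcc : ∀ u : V ≃ₗ[ℂ] V, cj g.symm (cj g u) = u := by
    intro u
    ext v
    simp [cj_apply]
  have hcc' : ∀ u : V' ≃ₗ[ℂ] V', cj g (cj g.symm u) = u := by
    intro u
    ext v
    simp [cj_apply]
  refine ⟨fun u => ⟨fun hu => ?_, fun hu => ?_⟩, fun H hH j => ?_⟩
  · exact locA_cj_rst g W W' (fun a ha => (h.grp a).1 ha) E u hu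
  · have h1 := locA_cj_rst g.symm W' W (fun a ha => by
      rw [h.grp, hcc']
      exact ha) (E.map (g : V →ₗ[ℂ] V')) (cj g u) hu
    have h2 : (E.map (g : V →ₗ[ℂ] V')).map (g.symm : V' →ₗ[ℂ] V) = E := by
      rw [← Submodule.map_comp]
      have : ((g.symm : V' →ₗ[ℂ] V).comp (g : V →ₗ[ℂ] V')) = LinearMap.id := by
        ext v
        simp
      rw [this, Submodule.map_id]
    rw [hcc, h2] at h1
    exact h1
  · exact h.par H ((mem_arr_rst W E H).1 hH).1 j

/-- a group without reflecting hyperplanes: `M = ℂ[V][ξ]`. -/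
theorem Mk_of_arr_empty {W : Subgroup (V ≃ₗ[ℂ] V)} [Finite W] (k : Submodule ℂ V → ℤ → ℂ) (b : Basis ι ℂ V)
    (h : arr W = ∅) (m : Ax ι) : m ∈ Mk W k b ↔ ∃ p : Rx ι, jR p = m := by
  have hF : arrF W = ∅ := by
    ext H
    rw [mem_arrF, h]
    simp
  have hd : ∀ (v : V) (n : Ax ι), dunkl W k b v n = yA b v * n := by
    intro v n
    unfold dunkl
    rw [hF, Finset.sum_empty, add_zero, LinearMap.mulLeft_apply]
  constructor
  · intro hm
    have hN : IsStab W k b (LinearMap.range (jR : Rx ι →ₐ[ℂ] Ax ι).toLinearMap) :=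
      { one := ⟨1, map_one (jR : Rx ι →ₐ[ℂ] Ax ι)⟩
        x := by
          rintro f _ ⟨p, rfl⟩
          refine ⟨C (xl b f) * p, ?_⟩
          show jR (C (xl b f) * p) = _
          rw [map_mul, jR_C]
          rfl
        y := by
          rintro v _ ⟨p, rfl⟩
          refine ⟨yR b v * p, ?_⟩
          show jR (yR b v * p) = _
          rw [map_mul, jR_yR, hd]
          rfl }
    obtain ⟨p, hp⟩ := Mk_le W k hN hm
    exact ⟨p, hp⟩
  · rintro ⟨p, rfl⟩
    induction p using MvPolynomial.induction_on with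
    | C a =>
      rw [jR_C]
      have := Mk_xA W k (Mk_one W k b) a
      rwa [mul_one] at this
    | add p q hp hq =>
      rw [map_add]
      exact Submodule.add_mem _ hp hq
    | mul_X p i hp =>
      have h1 := Mk_dunkl W k hp (b i)
      rw [hd, ← jR_yR, yR_basis, mul_comm, ← map_mul] at h1
      exact h1

/-- `M_k` depends only on the values of `k` on the reflecting hyperplanes. -/
theorem Mk_congr {W : Subgroup (V ≃ₗ[ℂ] V)} [Finite W] {k k' : Submodule ℂ V → ℤ → ℂ} (b : Basis ι ℂ V)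
    (h : ∀ H ∈ arr W, ∀ j, k H j = k' H j) : Mk W k b = Mk W k' b := by
  have h1 : ∀ v, dunkl W k b v = dunkl W k' b v := by
    intro v
    unfold dunkl
    congr 1
    refine Finset.sum_congr rfl (fun H hH => ?_)
    congr 1
    unfold aop
    refine Finset.sum_congr rfl (fun g _ => ?_)
    have h2 : kap W k H g = kap W k' H g := by
      unfold kap
      refine Finset.sum_congr rfl (fun j _ => ?_)
      rw [h H (mem_arrF.1 hH), h H (mem_arrF.1 hH)]
    rw [h2]
  have h2 : ∀ N : Submodule ℂ (Ax ι), IsStab W k b N ↔ IsStab W k' b N := by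
    intro N
    constructor
    · intro hN
      exact ⟨hN.one, hN.x, fun v m hm => by rw [← h1]; exact hN.y v m hm⟩
    · intro hN
      exact ⟨hN.one, hN.x, fun v m hm => by rw [h1]; exact hN.y v m hm⟩
  unfold Mk
  congr 1
  ext N
  exact h2 N

variable (W : Subgroup (V ≃ₗ[ℂ] V)) [Finite W] (k : Submodule ℂ V → ℤ → ℂ)

/-- `a_H` is the same for `W` and `rst W E` if `E ≤ H`. -/
theorem aop_rst (b : Basis ι ℂ V) {E H : Submodule ℂ V} (hH : finrank ℂ H + 1 = finrank ℂ V) (h : E ≤ H) :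
    aop (rst W E) k b H = aop W k b H := by
  have h1 : pstF (rst W E) H = pstF W H := by
    ext g
    rw [mem_pstF, mem_pstF, pst_rst W hH h]
  have h2 : ∀ g, kap (rst W E) k H g = kap W k H g := by
    intro g
    have h4 : eH (rst W E) H = eH W H := by
      unfold eH
      rw [pst_rst W hH h]
    unfold kap
    rw [h4]
  unfold aop
  rw [h1]
  exact Finset.sum_congr rfl (fun g _ => by rw [h2])

open Classical in
/-- `T_v = T_v^{rst W E} + ∑_{H ⊉ E} (α_H(v)/α_H) a_H`. -/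
theorem dunkl_rst (b : Basis ι ℂ V) (E : Submodule ℂ V) (v : V) (m : Ax ι) :
    dunkl W k b v m = dunkl (rst W E) k b v m
      + ∑ H ∈ (arrF W).filter (fun H => ¬ E ≤ H), C (qH b H v) * aop W k b H m := by
  have h1 : arrF (rst W E) = (arrF W).filter (fun H => E ≤ H) := by
    ext H
    rw [mem_arrF, Finset.mem_filter, mem_arrF, mem_arr_rst]
  have h2 : ∀ (W' : Subgroup (V ≃ₗ[ℂ] V)) [Finite W'], dunkl W' k b v m = yA b v * m +
      ∑ H ∈ arrF W', C (qH b H v) * aop W' k b H m := by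
    intro W' _
    unfold dunkl
    rw [LinearMap.add_apply, LinearMap.sum_apply]
    rfl
  rw [h2 W, h2 (rst W E), h1, add_assoc]
  congr 1
  rw [← Finset.sum_filter_add_sum_filter_not (arrF W) (fun H => E ≤ H)]
  congr 1
  refine Finset.sum_congr rfl (fun H hH => ?_)
  rw [Finset.mem_filter, mem_arrF] at hH
  rw [aop_rst W k b (arr_finrank W hH.1) hH.2]

end

end Pool.Agent.CM64
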