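import Pool.Agent.LibCM64.LocA

/-! Local description of `M_k`. -/

set_option linter.unusedSectionVars false

namespace Pool.Agent.CM64

open Module MvPolynomial

section

variable {V : Type} [AddCommGroup V] [Module ℂ V] [FiniteDimensional ℂ V]
variable {ι : Type} [Fintype ι] [DecidableEq ι]
variable (W : Subgroup (V ≃ₗ[ℂ] V)) [Finite W] (k : Submodule ℂ V → ℤ → ℂ)

/-- some multiple of `m` by a product of nonzero linear forms is polynomial. -/
def HypDen (b : Basis ι ℂ V) (m : Ax ι) : Prop :=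
  ∃ L : List (Dual ℂ V), (∀ f ∈ L, f ≠ 0) ∧ ∃ p : Rx ι, jR p = xA ((L.map (xl b)).prod) * m

/-- `m` is in `M(W_H, k)` locally at the hyperplane `H`. -/
def Loc (b : Basis ι ℂ V) (H : Submodule ℂ V) (m : Ax ι) : Prop :=
  ∃ g : Px ι, ¬ (xl b (lf H) ∣ g) ∧ xA g * m ∈ Mk (rst W H) k b

theorem prime_xl (b : Basis ι ℂ V) {f : Dual ℂ V} (hf : f ≠ 0) : Prime (xl b f) := by
  have hne : xl b f ≠ 0 := by
    intro h0
    exact hf (xl_injective b (by rw [h0, map_zero]))
  have hdeg : (xl b f).totalDegree = 1 := (xl_isHomogeneous b f).totalDegree hne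
  apply Irreducible.prime
  constructor
  · intro hu
    obtain ⟨u, hu⟩ := hu.exists_right_inv
    have hu0 : u ≠ 0 := by
      rintro rfl
      rw [mul_zero] at hu
      exact zero_ne_one hu
    have h1 := totalDegree_mul_of_isDomain hne hu0
    rw [hu, hdeg, totalDegree_one] at h1
    omega
  · intro p q hpq
    have hp0 : p ≠ 0 := by
      rintro rfl
      rw [zero_mul] at hpq
      exact hne hpq
    have hq0 : q ≠ 0 := by
      rintro rfl
      rw [mul_zero] at hpq
      exact hne hpq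
    have h1 := totalDegree_mul_of_isDomain hp0 hq0
    rw [← hpq, hdeg] at h1
    have hunit : ∀ r : Px ι, r ≠ 0 → r.totalDegree = 0 → IsUnit r := by
      intro r hr hr0
      rw [totalDegree_eq_zero_iff_eq_C] at hr0
      have hc : coeff 0 r ≠ 0 := by
        intro h0
        rw [h0, C_0] at hr0
        exact hr hr0
      rw [hr0]
      exact (IsUnit.mk0 _ hc).map (C : ℂ →+* Px ι)
    rcases Nat.eq_zero_or_pos p.totalDegree with h2 | h2
    · left
      exact hunit p hp0 h2
    · right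
      exact hunit q hq0 (by omega)

private theorem locB_lf_ne {H : Submodule ℂ V} (hH : finrank ℂ H + 1 = finrank ℂ V) : lf H ≠ 0 :=
  (lf_spec H hH).1

private theorem locB_prime (b : Basis ι ℂ V) {H : Submodule ℂ V} (hH : finrank ℂ H + 1 = finrank ℂ V) :
    Prime (xl b (lf H)) := prime_xl b (locB_lf_ne hH)

private theorem locB_trP_lf_fix (b : Basis ι ℂ V) {H : Submodule ℂ V} (hH : finrank ℂ H + 1 = finrank ℂ V)
    {g : V ≃ₗ[ℂ] V} (hg : ∀ v ∈ H, g v = v) : ∃ c : ℂ, trP b b g (xl b (lf H)) = c • xl b (lf H) := by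
  have hker : LinearMap.ker (lf H) ≤ LinearMap.ker ((lf H).comp (g.symm : V →ₗ[ℂ] V)) := by
    intro v hv
    have hvH : v ∈ H := by
      rw [← (lf_spec H hH).2]
      exact hv
    have h1 : g.symm v = v := by
      rw [LinearEquiv.symm_apply_eq, hg v hvH]
    rw [LinearMap.mem_ker, LinearMap.comp_apply, LinearEquiv.coe_coe, h1]
    exact hv
  obtain ⟨c, hc⟩ := exists_smul_of_ker_le _ _ (locB_lf_ne hH) hker
  refine ⟨c, ?_⟩
  rw [trP_xl, hc, map_smul]

private theorem locB_trP_lf_map (b : Basis ι ℂ V) {H : Submodule ℂ V}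
    (hH : finrank ℂ H + 1 = finrank ℂ V) (g : V ≃ₗ[ℂ] V) :
    ∃ c : ℂ, c ≠ 0 ∧ xl b (lf (H.map (g : V →ₗ[ℂ] V))) = c • trP b b g (xl b (lf H)) := by
  obtain ⟨c, hc, h⟩ := lf_map g H hH
  refine ⟨c, hc, ?_⟩
  rw [h, map_smul, trP_xl]

private theorem locB_map_symm_map (g : V ≃ₗ[ℂ] V) (H : Submodule ℂ V) :
    (H.map (g : V →ₗ[ℂ] V)).map (g.symm : V →ₗ[ℂ] V) = H := by
  rw [← Submodule.map_comp]
  have : ((g.symm : V →ₗ[ℂ] V).comp (g : V →ₗ[ℂ] V)) = LinearMap.id := by
    ext v
    simp
  rw [this, Submodule.map_id]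

private theorem locB_map_map_symm (g : V ≃ₗ[ℂ] V) (H : Submodule ℂ V) :
    (H.map (g.symm : V →ₗ[ℂ] V)).map (g : V →ₗ[ℂ] V) = H := by
  rw [← Submodule.map_comp]
  have : ((g : V →ₗ[ℂ] V).comp (g.symm : V →ₗ[ℂ] V)) = LinearMap.id := by
    ext v
    simp
  rw [this, Submodule.map_id]

private theorem locB_fixSub (g h : V ≃ₗ[ℂ] V) :
    fixSub (cj g h) = (fixSub h).map (g : V →ₗ[ℂ] V) := by
  ext v
  rw [mem_fixSub, cj_apply, Submodule.mem_map]
  constructor
  · intro hv
    refine ⟨g.symm v, ?_, by simp⟩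
    rw [mem_fixSub]
    have := congrArg g.symm hv
    simpa using this
  · rintro ⟨w, hw, rfl⟩
    rw [mem_fixSub] at hw
    simp [hw]

private theorem locB_isRefl (g h : V ≃ₗ[ℂ] V) (hr : IsRefl h) : IsRefl (cj g h) := by
  unfold IsRefl at hr ⊢
  rw [locB_fixSub, LinearEquiv.finrank_map_eq]
  exact hr

private theorem locB_fr_map {H : Submodule ℂ V} (hH : finrank ℂ H + 1 = finrank ℂ V) (g : V ≃ₗ[ℂ] V) :
    finrank ℂ (H.map (g : V →ₗ[ℂ] V)) + 1 = finrank ℂ V := finrank_map_equiv g H hH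

/-- linear forms of different hyperplanes are coprime. -/
theorem not_xl_dvd_xl (b : Basis ι ℂ V) {H H' : Submodule ℂ V} (hH : finrank ℂ H + 1 = finrank ℂ V)
    (hH' : finrank ℂ H' + 1 = finrank ℂ V) (h : H ≠ H') : ¬ xl b (lf H) ∣ xl b (lf H') := by
  rintro ⟨q, hq⟩
  apply h
  have hle : H ≤ H' := by
    intro v hv
    rw [mem_iff_lf H' hH']
    have h1 := congrArg (evP b v) hq
    rw [map_mul, evP_xl, evP_xl, (mem_iff_lf H hH v).1 hv, zero_mul] at h1
    exact h1
  exact Submodule.eq_of_le_of_finrank_le hle (by omega)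

theorem Loc_add (b : Basis ι ℂ V) {H : Submodule ℂ V} (hH : finrank ℂ H + 1 = finrank ℂ V) {m m' : Ax ι}
    (h : Loc W k b H m) (h' : Loc W k b H m') : Loc W k b H (m + m') := by
  obtain ⟨g, hg, hm⟩ := h
  obtain ⟨g', hg', hm'⟩ := h'
  refine ⟨g * g', ?_, ?_⟩
  · intro hd
    rcases (locB_prime b hH).dvd_or_dvd hd with h1 | h1
    · exact hg h1
    · exact hg' h1
  · have e : xA (g * g') * (m + m') = xA g' * (xA g * m) + xA g * (xA g' * m') := by
      rw [map_mul]
      ring
    rw [e]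
    exact Submodule.add_mem _ (Mk_xA _ k hm g') (Mk_xA _ k hm' g)

theorem Loc_smul (b : Basis ι ℂ V) {H : Submodule ℂ V} (c : ℂ) {m : Ax ι}
    (h : Loc W k b H m) : Loc W k b H (c • m) := by
  obtain ⟨g, hg, hm⟩ := h
  refine ⟨g, hg, ?_⟩
  rw [mul_smul_comm]
  exact Submodule.smul_mem _ _ hm

theorem Loc_xA_mul (b : Basis ι ℂ V) {H : Submodule ℂ V} (p : Px ι) {m : Ax ι}
    (h : Loc W k b H m) : Loc W k b H (xA p * m) := by
  obtain ⟨g, hg, hm⟩ := h
  refine ⟨g, hg, ?_⟩
  rw [mul_left_comm]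
  exact Mk_xA _ k hm p

theorem Loc_of_xA_mul (b : Basis ι ℂ V) {H : Submodule ℂ V} (hH : finrank ℂ H + 1 = finrank ℂ V) {p : Px ι}
    (hp : ¬ xl b (lf H) ∣ p) {m : Ax ι} (h : Loc W k b H (xA p * m)) : Loc W k b H m := by
  obtain ⟨g, hg, hm⟩ := h
  refine ⟨g * p, ?_, ?_⟩
  · intro hd
    rcases (locB_prime b hH).dvd_or_dvd hd with h1 | h1
    · exact hg h1
    · exact hp h1
  · rw [map_mul, mul_assoc]
    exact hm

private theorem locB_qH (b : Basis ι ℂ V) {H' : Submodule ℂ V} (hH' : finrank ℂ H' + 1 = finrank ℂ V) (v : V)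
    (m : Ax ι) : xA (xl b (lf H')) * (C (qH b H' v) * m) = lf H' v • m := by
  have h1 := qH_mul b H' hH' v
  rw [xA_apply, ← mul_assoc, ← C_mul, mul_comm (pF (xl b (lf H'))) (qH b H' v), h1, Algebra.smul_def]
  rfl

private theorem locB_zero (b : Basis ι ℂ V) {H : Submodule ℂ V} (hH : finrank ℂ H + 1 = finrank ℂ V) :
    Loc W k b H 0 := by
  refine ⟨1, (locB_prime b hH).not_dvd_one, ?_⟩
  rw [mul_zero]
  exact Submodule.zero_mem _

private theorem locB_sum (b : Basis ι ℂ V) {H : Submodule ℂ V} (hH : finrank ℂ H + 1 = finrank ℂ V)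
    {κ : Type*} (s : Finset κ) (F : κ → Ax ι) (h : ∀ i ∈ s, Loc W k b H (F i)) :
    Loc W k b H (∑ i ∈ s, F i) := by
  classical
  induction s using Finset.induction_on with
  | empty => rw [Finset.sum_empty]; exact locB_zero W k b hH
  | insert i s hi ih =>
    rw [Finset.sum_insert hi]
    exact Loc_add W k b hH (h i (Finset.mem_insert_self i s))
      (ih fun j hj => h j (Finset.mem_insert_of_mem hj))

/-- multiplication by `α_{H'}(v)/α_{H'}`, `H' ≠ H`. -/
theorem Loc_qH_mul (b : Basis ι ℂ V) {H H' : Submodule ℂ V} (hH : finrank ℂ H + 1 = finrank ℂ V)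
    (hH' : finrank ℂ H' + 1 = finrank ℂ V) (h : H ≠ H') (v : V) {m : Ax ι} (hm : Loc W k b H m) :
    Loc W k b H (C (qH b H' v) * m) := by
  apply Loc_of_xA_mul W k b hH (not_xl_dvd_xl b hH hH' h)
  rw [locB_qH b hH']
  exact Loc_smul W k b _ hm

/-- the denominator can be chosen invariant under the finite group `rst W H` (norm of `g`). -/
theorem Loc_inv_den (b : Basis ι ℂ V) {H : Submodule ℂ V} (hH : finrank ℂ H + 1 = finrank ℂ V) {m : Ax ι}
    (h : Loc W k b H m) : ∃ g : Px ι, ¬ (xl b (lf H) ∣ g) ∧ PInv (rst W H) b g ∧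
      xA g * m ∈ Mk (rst W H) k b := by
  classical
  obtain ⟨g, hg, hm⟩ := h
  have hone : (1 : V ≃ₗ[ℂ] V) ∈ elF (rst W H) := (mem_elF _).2 (one_mem _)
  have htr1 : trP b b (1 : V ≃ₗ[ℂ] V) g = g :=
    congrArg (fun F : Px ι →ₐ[ℂ] Px ι => F g) (trP_refl b)
  refine ⟨∏ w ∈ elF (rst W H), trP b b w g, ?_, ?_, ?_⟩
  · intro hd
    obtain ⟨w, hw, hwd⟩ := (Prime.dvd_finsetProd_iff (locB_prime b hH) _).1 hd
    have hw' : w ∈ rst W H := (mem_elF _).1 hw
    have hfix : ∀ v ∈ H, w.symm v = v := by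
      intro v hv
      rw [LinearEquiv.symm_apply_eq]
      exact (rst_fix W H hw' hv).symm
    obtain ⟨c, hc⟩ := locB_trP_lf_fix b hH hfix
    have h1 := map_dvd (trP b b w.symm) hwd
    rw [trP_symm_apply, hc] at h1
    apply hg
    exact dvd_trans (Dvd.intro_left (C c) (by rw [smul_eq_C_mul])) h1
  · intro u hu
    rw [map_prod]
    refine Finset.prod_bij' (i := fun w _ => u * w) (j := fun w _ => u⁻¹ * w) ?_ ?_ ?_ ?_ ?_
    · intro w hw
      exact (mem_elF _).2 (mul_mem hu ((mem_elF _).1 hw))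
    · intro w hw
      exact (mem_elF _).2 (mul_mem (inv_mem hu) ((mem_elF _).1 hw))
    · intro w hw
      exact inv_mul_cancel_left u w
    · intro w hw
      exact mul_inv_cancel_left u w
    · intro w hw
      rw [trP_trans_apply]
      rfl
  · rw [← Finset.mul_prod_erase _ _ hone, htr1, map_mul, mul_comm (xA g), mul_assoc]
    exact Mk_xA _ k hm _

/-- `W` preserves the system of local conditions (`tp_rst`, `trA_mem_Mk`). -/
theorem Loc_act (hk : Adm W k) (b : Basis ι ℂ V) {H : Submodule ℂ V} (hH : finrank ℂ H + 1 = finrank ℂ V)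
    {w : V ≃ₗ[ℂ] V} (hw : w ∈ W) {m : Ax ι} (h : Loc W k b H m) :
    Loc W k b (H.map (w : V →ₗ[ℂ] V)) (act b w m) := by
  obtain ⟨g, hg, hm⟩ := h
  refine ⟨trP b b w g, ?_, ?_⟩
  · intro hd
    obtain ⟨c, hc, hc'⟩ := locB_trP_lf_map b hH w
    rw [hc'] at hd
    have h1 := map_dvd (trP b b w.symm) hd
    rw [map_smul, trP_symm_apply, trP_symm_apply] at h1
    apply hg
    exact dvd_trans (Dvd.intro_left (C c) (by rw [smul_eq_C_mul])) h1
  · have htp := tp_rst (tp_of_mem hk hw) H
    have h1 := trA_mem_Mk htp b b hm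
    rw [map_mul, trA_xA] at h1
    exact h1

/-- local conditions are preserved by `T_v` (`dunkl_rst` with `E = H`, `Loc_inv_den`, `dunkl_mul_inv`, `Loc_act`). -/
theorem Loc_dunkl (hk : Adm W k) (b : Basis ι ℂ V) (v : V) {m : Ax ι}
    (h : ∀ H : Submodule ℂ V, finrank ℂ H + 1 = finrank ℂ V → Loc W k b H m) (H : Submodule ℂ V)
    (hH : finrank ℂ H + 1 = finrank ℂ V) : Loc W k b H (dunkl W k b v m) := by
  classical
  rw [dunkl_rst W k b H v m]
  refine Loc_add W k b hH ?_ (locB_sum W k b hH _ _ ?_)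
  · obtain ⟨g, hg, hinv, hm⟩ := Loc_inv_den W k b hH (h H hH)
    refine ⟨g, hg, ?_⟩
    have hI : InvA (rst W H) b (xA g) := by
      intro u hu
      rw [act, trA_xA, hinv u hu]
    rw [← dunkl_mul_inv (rst W H) k b v hI]
    exact Mk_dunkl _ k hm v
  · intro H' hH'
    rw [Finset.mem_filter] at hH'
    have hfr := arr_finrank W (mem_arrF.1 hH'.1)
    have hne : H ≠ H' := by
      rintro rfl
      exact hH'.2 le_rfl
    refine Loc_qH_mul W k b hH hfr hne v ?_
    rw [tact_aop_apply]
    refine locB_sum W k b hH _ _ (fun g hg => Loc_smul W k b _ ?_)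
    have hgW : g ∈ W := pst_le W H' (mem_pstF.1 hg)
    have hfr2 := locB_fr_map hH g.symm
    have h1 := Loc_act W k hk b hfr2 hgW (h _ hfr2)
    rw [locB_map_map_symm g H] at h1
    exact h1

/-- (2.1), first half. -/
theorem Loc_of_mem_Mk (hk : Adm W k) (b : Basis ι ℂ V) {m : Ax ι} (hm : m ∈ Mk W k b) {H : Submodule ℂ V}
    (hH : finrank ℂ H + 1 = finrank ℂ V) : Loc W k b H m := by
  let N : Submodule ℂ (Ax ι) :=
    { carrier := {m | ∀ H : Submodule ℂ V, finrank ℂ H + 1 = finrank ℂ V → Loc W k b H m}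
      add_mem' := fun {x y} hx hy H hH => Loc_add W k b hH (hx H hH) (hy H hH)
      zero_mem' := fun H hH => locB_zero W k b hH
      smul_mem' := fun c x hx H hH => Loc_smul W k b c (hx H hH) }
  have hN : IsStab W k b N := by
    constructor
    · intro H hH
      refine ⟨1, (locB_prime b hH).not_dvd_one, ?_⟩
      rw [map_one, mul_one]
      exact Mk_one _ k b
    · intro f m hm H hH
      exact Loc_xA_mul W k b _ (hm H hH)
    · intro v m hm H hH
      exact Loc_dunkl W k hk b v hm H hH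
  exact (Mk_le W k hN hm) H hH

private theorem hypDen_add (b : Basis ι ℂ V) {m m' : Ax ι} (h : HypDen b m) (h' : HypDen b m') :
    HypDen b (m + m') := by
  obtain ⟨L, hL, p, hp⟩ := h
  obtain ⟨L', hL', p', hp'⟩ := h'
  refine ⟨L ++ L', ?_, C (L'.map (xl b)).prod * p + C (L.map (xl b)).prod * p', ?_⟩
  · intro f hf
    rcases List.mem_append.1 hf with h1 | h1
    · exact hL f h1
    · exact hL' f h1
  · rw [map_add, map_mul, map_mul, jR_C, jR_C, hp, hp', List.map_append, List.prod_append, map_mul]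
    ring

private theorem hypDen_poly (b : Basis ι ℂ V) (p : Rx ι) : HypDen b (jR p) :=
  ⟨[], fun f hf => absurd hf (List.not_mem_nil), p, by rw [List.map_nil, List.prod_nil, map_one, one_mul]⟩

private theorem hypDen_mul_poly (b : Basis ι ℂ V) (q : Rx ι) {m : Ax ι} (h : HypDen b m) :
    HypDen b (jR q * m) := by
  obtain ⟨L, hL, p, hp⟩ := h
  refine ⟨L, hL, q * p, ?_⟩
  rw [map_mul, hp]
  ring

private theorem hypDen_xA_mul (b : Basis ι ℂ V) (q : Px ι) {m : Ax ι} (h : HypDen b m) :
    HypDen b (xA q * m) := by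
  rw [← jR_C]
  exact hypDen_mul_poly b _ h

private theorem hypDen_smul (b : Basis ι ℂ V) (c : ℂ) {m : Ax ι} (h : HypDen b m) : HypDen b (c • m) := by
  obtain ⟨L, hL, p, hp⟩ := h
  refine ⟨L, hL, c • p, ?_⟩
  rw [map_smul, hp, mul_smul_comm]

private theorem hypDen_sum (b : Basis ι ℂ V) {κ : Type*} (s : Finset κ) (F : κ → Ax ι)
    (h : ∀ i ∈ s, HypDen b (F i)) : HypDen b (∑ i ∈ s, F i) := by
  classical
  induction s using Finset.induction_on with
  | empty =>
    rw [Finset.sum_empty, ← map_zero (jR : Rx ι →ₐ[ℂ] Ax ι)]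
    exact hypDen_poly b 0
  | insert i s hi ih =>
    rw [Finset.sum_insert hi]
    exact hypDen_add b (h i (Finset.mem_insert_self i s))
      (ih fun j hj => h j (Finset.mem_insert_of_mem hj))

private theorem hypDen_act (b : Basis ι ℂ V) (w : V ≃ₗ[ℂ] V) {m : Ax ι} (h : HypDen b m) :
    HypDen b (act b w m) := by
  obtain ⟨L, hL, p, hp⟩ := h
  refine ⟨L.map (fun f => f.comp (w.symm : V →ₗ[ℂ] V)), ?_, trR b b w p, ?_⟩
  · intro f hf
    obtain ⟨f', hf', rfl⟩ := List.mem_map.1 hf
    intro h0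
    apply hL f' hf'
    ext v
    have := congrArg (fun F : Dual ℂ V => F (w v)) h0
    simpa using this
  · have e : (((L.map (fun f => f.comp (w.symm : V →ₗ[ℂ] V))).map (xl b)).prod : Px ι)
        = trP b b w ((L.map (xl b)).prod) := by
      rw [map_list_prod, List.map_map, List.map_map]
      congr 1
      refine List.map_congr_left fun f _ => ?_
      simp only [Function.comp_apply]
      rw [trP_xl]
    rw [jR_trR, hp, e, map_mul, trA_xA]

private theorem hypDen_qH (b : Basis ι ℂ V) {H : Submodule ℂ V} (hH : finrank ℂ H + 1 = finrank ℂ V) (v : V)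
    {m : Ax ι} (h : HypDen b m) : HypDen b (C (qH b H v) * m) := by
  obtain ⟨L, hL, p, hp⟩ := h
  refine ⟨lf H :: L, ?_, lf H v • p, ?_⟩
  · intro f hf
    rcases List.mem_cons.1 hf with h1 | h1
    · rw [h1]
      exact locB_lf_ne hH
    · exact hL f h1
  · rw [List.map_cons, List.prod_cons, map_mul, mul_assoc, mul_left_comm,
      locB_qH b hH, map_smul, hp, mul_smul_comm]

theorem HypDen_of_mem_Mk (b : Basis ι ℂ V) {m : Ax ι} (hm : m ∈ Mk W k b) : HypDen b m := by
  let N : Submodule ℂ (Ax ι) :=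
    { carrier := {m | HypDen b m}
      add_mem' := fun {x y} hx hy => hypDen_add b hx hy
      zero_mem' := by
        show HypDen b 0
        rw [← map_zero (jR : Rx ι →ₐ[ℂ] Ax ι)]
        exact hypDen_poly b 0
      smul_mem' := fun c x hx => hypDen_smul b c hx }
  have hN : IsStab W k b N := by
    constructor
    · show HypDen b 1
      rw [← map_one (jR : Rx ι →ₐ[ℂ] Ax ι)]
      exact hypDen_poly b 1
    · intro f m hm
      exact hypDen_xA_mul b _ hm
    · intro v m hm
      show HypDen b (dunkl W k b v m)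
      rw [tact_dunkl_apply, ← jR_yR]
      refine hypDen_add b (hypDen_mul_poly b _ hm) (hypDen_sum b _ _ (fun H hH => ?_))
      refine hypDen_qH b (arr_finrank W (mem_arrF.1 hH)) v ?_
      rw [tact_aop_apply]
      exact hypDen_sum b _ _ (fun g _ => hypDen_smul b _ (hypDen_act b g hm))
  exact Mk_le W k hN hm

/-- a rational function which is a quotient by a product of linear forms and which is regular at the generic points of all
hyperplanes is polynomial. -/
theorem poly_of_local (b : Basis ι ℂ V) {m : Ax ι} (hD : HypDen b m)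
    (h : ∀ H : Submodule ℂ V, finrank ℂ H + 1 = finrank ℂ V → ∃ g : Px ι, ¬ (xl b (lf H) ∣ g) ∧
      ∃ p : Rx ι, jR p = xA g * m) : ∃ p : Rx ι, jR p = m := by
  obtain ⟨L, hL, p, hp⟩ := hD
  induction L generalizing p with
  | nil =>
    refine ⟨p, ?_⟩
    rw [hp, List.map_nil, List.prod_nil, map_one, one_mul]
  | cons f L ih =>
    have hf : f ≠ 0 := hL f (List.mem_cons_self)
    have hfr : finrank ℂ (LinearMap.ker f) + 1 = finrank ℂ V :=
      Module.Dual.finrank_ker_add_one_of_ne_zero hf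
    obtain ⟨g, hg, p', hp'⟩ := h (LinearMap.ker f) hfr
    have hg2 : ¬ xl b f ∣ g := by
      intro hd
      apply hg
      obtain ⟨c, hc⟩ := exists_smul_of_ker_le (lf (LinearMap.ker f)) f (locB_lf_ne hfr)
        (le_of_eq (lf_spec _ hfr).2)
      refine dvd_trans ?_ hd
      rw [hc, map_smul]
      refine ⟨C c, ?_⟩
      rw [smul_eq_C_mul, mul_comm, ← hc]
    have hpr : Prime (C (xl b f) : Rx ι) := (MvPolynomial.prime_C_iff ι).2 (prime_xl b hf)
    have hdv : (C (xl b f) : Rx ι) ∣ C g * p := by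
      refine ⟨C (L.map (xl b)).prod * p', ?_⟩
      apply jR_injective
      rw [map_mul, map_mul, map_mul, jR_C, jR_C, jR_C, hp, hp', List.map_cons, List.prod_cons, map_mul]
      ring
    have hdp : (C (xl b f) : Rx ι) ∣ p := by
      rcases hpr.dvd_or_dvd hdv with h1 | h1
      · exfalso
        apply hg2
        rw [MvPolynomial.C_dvd_iff_dvd_coeff] at h1
        have h2 := h1 0
        rwa [coeff_C, if_pos rfl] at h2
      · exact h1
    obtain ⟨q, hq⟩ := hdp
    refine ih (fun f' hf' => hL f' (List.mem_cons_of_mem _ hf')) q ?_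
    have hne : (xA (xl b f) : Ax ι) ≠ 0 := by
      intro h0
      apply (prime_xl b hf).ne_zero
      apply xA_injective
      rw [h0, map_zero]
    apply mul_left_cancel₀ hne
    rw [← jR_C, ← map_mul, ← hq, hp, List.map_cons, List.prod_cons, map_mul, jR_C, mul_assoc]

/-- (2.1), second half (induction on the `ξ`-degree; `Mk_leading`, `poly_of_local`, `Mk_lift`). -/
theorem mem_Mk_of_Loc (hk : Adm W k) (b : Basis ι ℂ V) {m : Ax ι} (hD : HypDen b m)
    (h : ∀ H : Submodule ℂ V, finrank ℂ H + 1 = finrank ℂ V → Loc W k b H m) : m ∈ Mk W k b := by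
  obtain ⟨D, hLd⟩ := exists_Ld m
  induction D generalizing m with
  | zero =>
    rw [Ld_zero_iff] at hLd
    rw [hLd]
    exact Submodule.zero_mem _
  | succ D ih =>
    obtain ⟨p, hp⟩ : ∃ p : Rx ι, jR p = homogeneousComponent D m := by
      apply poly_of_local b
      · obtain ⟨L, hL, p, hp⟩ := hD
        refine ⟨L, hL, homogeneousComponent D p, ?_⟩
        rw [← homogeneousComponent_jR, hp, xA_apply, homogeneousComponent_C_mul]
      · intro H hH
        obtain ⟨g, hg, hm⟩ := h H hH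
        refine ⟨g, hg, ?_⟩
        have hL2 : Ld (D + 1) (xA g * m) := by
          rw [xA_apply]
          exact Ld_C_mul _ hLd
        obtain ⟨p, hp⟩ := Mk_leading (rst W H) k (adm_rst hk H) b hm hL2
        refine ⟨p, ?_⟩
        rw [hp, xA_apply, homogeneousComponent_C_mul]
    have hph : p.IsHomogeneous D := by
      have h1 : homogeneousComponent D p = p := by
        apply jR_injective
        rw [← homogeneousComponent_jR, hp]
        rw [homogeneousComponent_of_mem (homogeneousComponent_isHomogeneous D m), if_pos rfl]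
      rw [← h1]
      exact homogeneousComponent_isHomogeneous D p
    obtain ⟨m', hm', hL'⟩ := Mk_lift W k hk b hph
    have hsub : m - m' ∈ Mk W k b := by
      apply ih
      · rw [sub_eq_add_neg, ← neg_one_smul ℂ m']
        exact hypDen_add b hD (hypDen_smul b _ (HypDen_of_mem_Mk W k b hm'))
      · intro H hH
        rw [sub_eq_add_neg, ← neg_one_smul ℂ m']
        exact Loc_add W k b hH (h H hH) (Loc_smul W k b _ (Loc_of_mem_Mk W k hk b hm' hH))
      · have e : m - m' = (m - jR p) - (m' - jR p) := by ring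
        rw [e]
        refine Ld_sub ?_ hL'
        intro n hn
        rcases Nat.eq_or_lt_of_le hn with h1 | h1
        · rw [← h1, map_sub, homogeneousComponent_jR, homogeneousComponent_of_mem hph, if_pos rfl, hp,
            sub_self]
        · rw [map_sub, homogeneousComponent_jR, homogeneousComponent_of_mem hph, if_neg (by omega),
            hLd n h1, map_zero, sub_self]
    have e : m = (m - m') + m' := by ring
    rw [e]
    exact Submodule.add_mem _ hsub hm'

open Classical in
/-- the product of the linear forms of the reflecting hyperplanes not containing `E`. -/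
noncomputable def DelE (b : Basis ι ℂ V) (E : Submodule ℂ V) : Px ι :=
  ∏ H ∈ (arrF W).filter (fun H => ¬ E ≤ H), xl b (lf H)

/-- localisation: `M(W,k) ⊂ M(rst W E,k)` after multiplication by a power of `DelE`; use `mem_Mk_of_Loc` for `rst W E`:
at hyperplanes `H ⊇ E` the conditions for `W` and `rst W E` coincide, at the others the pole is removed. -/
theorem DelE_mul_mem (hk : Adm W k) (b : Basis ι ℂ V) (E : Submodule ℂ V) {m : Ax ι} (hm : m ∈ Mk W k b) :
    ∃ N : ℕ, ∀ N' ≥ N, xA (DelE W b E ^ N') * m ∈ Mk (rst W E) k b := by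
  classical
  have hHD := HypDen_of_mem_Mk W k b hm
  obtain ⟨L, hL, p, hp⟩ := hHD
  have hDne : (L.map (xl b)).prod ≠ 0 := by
    intro h0
    rw [List.prod_eq_zero_iff] at h0
    obtain ⟨f, hf, hf0⟩ := List.mem_map.1 h0
    exact (prime_xl b (hL f hf)).ne_zero hf0
  have key : ∀ H : Submodule ℂ V, ∃ (r : ℕ) (g' : Px ι), finrank ℂ H + 1 = finrank ℂ V →
      (L.map (xl b)).prod = xl b (lf H) ^ r * g' ∧ ¬ xl b (lf H) ∣ g' := by
    intro H
    by_cases hH : finrank ℂ H + 1 = finrank ℂ V
    · obtain ⟨g', hg', hg2⟩ := (FiniteMultiplicity.of_not_isUnit (locB_prime b hH).not_isUnit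
        hDne).exists_eq_pow_mul_and_not_dvd
      exact ⟨_, g', fun _ => ⟨hg', hg2⟩⟩
    · exact ⟨0, 0, fun h => absurd h hH⟩
  choose r g' hr using key
  refine ⟨∑ H ∈ arrF W, r H, fun N' hN' => ?_⟩
  apply mem_Mk_of_Loc (rst W E) k (adm_rst hk E) b
  · exact hypDen_xA_mul b _ ⟨L, hL, p, hp⟩
  · intro H hH
    by_cases hEH : E ≤ H
    · apply Loc_xA_mul
      obtain ⟨g, hg, hmg⟩ := Loc_of_mem_Mk W k hk b hm hH
      refine ⟨g, hg, ?_⟩
      have e : Mk (rst (rst W E) H) k b = Mk (rst W H) k b := by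
        have e1 := rst_rst W hEH
        have gen : ∀ (A B : Subgroup (V ≃ₗ[ℂ] V)) (hA : Finite A) (hB : Finite B), A = B →
            @Mk V _ _ ι _ A hA k b = @Mk V _ _ ι _ B hB k b := by
          intro A B hA hB hAB
          subst hAB
          rfl
        exact gen _ _ _ _ e1
      rw [e]
      exact hmg
    · have hempty : arr (rst (rst W E) H) = ∅ := by
        rw [Set.eq_empty_iff_forall_notMem]
        intro H'' hH''
        rw [mem_arr_rst, mem_arr_rst] at hH''
        have hfr := arr_finrank W hH''.1.1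
        have heq : H = H'' := Submodule.eq_of_le_of_finrank_le hH''.2 (by omega)
        apply hEH
        rw [heq]
        exact hH''.1.2
      by_cases hHW : H ∈ arr W
      · have hmem : H ∈ (arrF W).filter (fun H => ¬ E ≤ H) :=
          Finset.mem_filter.2 ⟨mem_arrF.2 hHW, hEH⟩
        obtain ⟨q, hq⟩ : xl b (lf H) ∣ DelE W b E := Finset.dvd_prod_of_mem _ hmem
        have hrN : r H ≤ N' :=
          le_trans (Finset.single_le_sum (f := r) (fun _ _ => Nat.zero_le _) (mem_arrF.2 hHW)) hN'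
        obtain ⟨h1, h2⟩ := hr H hH
        refine ⟨g' H, h2, ?_⟩
        rw [Mk_of_arr_empty k b hempty]
        refine ⟨C (xl b (lf H) ^ (N' - r H) * q ^ N') * p, ?_⟩
        rw [map_mul, jR_C, hp, h1, hq, mul_pow]
        have e3 : xl b (lf H) ^ N' = xl b (lf H) ^ r H * xl b (lf H) ^ (N' - r H) := by
          rw [← pow_add]
          congr 1
          omega
        rw [e3]
        simp only [map_mul]
        ring
      · have hempty2 : arr (rst W H) = ∅ := by
          rw [Set.eq_empty_iff_forall_notMem]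
          intro H'' hH''
          rw [mem_arr_rst] at hH''
          have hfr := arr_finrank W hH''.1
          have heq : H = H'' := Submodule.eq_of_le_of_finrank_le hH''.2 (by omega)
          apply hHW
          rw [heq]
          exact hH''.1
        obtain ⟨g, hg, hmg⟩ := Loc_of_mem_Mk W k hk b hm hH
        rw [Mk_of_arr_empty k b hempty2] at hmg
        obtain ⟨p2, hp2⟩ := hmg
        refine ⟨g, hg, ?_⟩
        rw [Mk_of_arr_empty k b hempty]
        refine ⟨C (DelE W b E ^ N') * p2, ?_⟩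
        rw [map_mul, jR_C, hp2]
        ring

/-- `DelE ^ |W|` is invariant under the pointwise stabiliser of `E`. -/
theorem DelE_pow_inv (b : Basis ι ℂ V) (E : Submodule ℂ V) {g : V ≃ₗ[ℂ] V} (hg : g ∈ W) (hE : ∀ v ∈ E, g v = v)
    (N : ℕ) : trP b b g (DelE W b E ^ (Nat.card W * N)) = DelE W b E ^ (Nat.card W * N) := by
  classical
  have key : ∀ h : V ≃ₗ[ℂ] V, h ∈ W → (∀ v ∈ E, h v = v) → ∀ H ∈ (arrF W).filter (fun H => ¬ E ≤ H),
      H.map (h : V →ₗ[ℂ] V) ∈ (arrF W).filter (fun H => ¬ E ≤ H) := by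
    intro h hh hhE H hH
    rw [Finset.mem_filter, mem_arrF] at hH ⊢
    refine ⟨?_, ?_⟩
    · obtain ⟨s, hs, hsr, rfl⟩ := hH.1
      refine ⟨cj h s, ?_, locB_isRefl h s hsr, locB_fixSub h s⟩
      rw [cj_eq_conj]
      exact W.mul_mem (W.mul_mem hh hs) (W.inv_mem hh)
    · intro hle
      apply hH.2
      intro v hv
      obtain ⟨u, hu, hu2⟩ := hle hv
      have : u = v := h.injective (by
        rw [hhE v hv]
        exact hu2)
      rw [← this]
      exact hu
  have hprod : ∃ c : ℂ, DelE W b E = c • trP b b g (DelE W b E) := by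
    have hex : ∀ H : Submodule ℂ V, ∃ c : ℂ, H ∈ (arrF W).filter (fun H => ¬ E ≤ H) →
        xl b (lf (H.map (g : V →ₗ[ℂ] V))) = C c * trP b b g (xl b (lf H)) := by
      intro H
      by_cases hH : H ∈ (arrF W).filter (fun H => ¬ E ≤ H)
      · obtain ⟨c, _, hc⟩ := locB_trP_lf_map b
          (arr_finrank W (mem_arrF.1 (Finset.mem_filter.1 hH).1)) g
        refine ⟨c, fun _ => ?_⟩
        rw [hc, smul_eq_C_mul]
      · exact ⟨0, fun h => absurd h hH⟩
    choose c hc using hex
    refine ⟨∏ H ∈ (arrF W).filter (fun H => ¬ E ≤ H), c H, ?_⟩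
    rw [smul_eq_C_mul, map_prod]
    unfold DelE
    rw [map_prod, ← Finset.prod_mul_distrib,
      ← Finset.prod_congr rfl (fun H hH => hc H hH)]
    refine (Finset.prod_nbij' (fun H => H.map (g : V →ₗ[ℂ] V))
      (fun H => H.map (g.symm : V →ₗ[ℂ] V)) ?_ ?_ ?_ ?_ ?_).symm
    · intro H hH
      exact key g hg hE H hH
    · intro H hH
      refine key g.symm (W.inv_mem hg) ?_ H hH
      intro v hv
      rw [LinearEquiv.symm_apply_eq, hE v hv]
    · intro H _
      exact locB_map_symm_map g H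
    · intro H _
      exact locB_map_map_symm g H
    · intro H _
      rfl
  obtain ⟨c, hc⟩ := hprod
  have hne : DelE W b E ≠ 0 := by
    unfold DelE
    rw [Finset.prod_ne_zero_iff]
    intro H hH
    exact xl_lf_ne_zero b H (arr_finrank W (mem_arrF.1 (Finset.mem_filter.1 hH).1))
  have hpow : ∀ n : ℕ, DelE W b E = c ^ n • trP b b (g ^ n) (DelE W b E) := by
    intro n
    induction n with
    | zero =>
      rw [pow_zero, pow_zero, one_smul]
      exact (congrArg (fun F : Px ι →ₐ[ℂ] Px ι => F (DelE W b E)) (trP_refl b)).symm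
    | succ n ih =>
      have e : trP b b (g ^ (n + 1)) (DelE W b E) = trP b b g (trP b b (g ^ n) (DelE W b E)) := by
        rw [trP_trans_apply, pow_succ']
        rfl
      rw [e]
      have h2 := congrArg (trP b b g) ih
      rw [map_smul] at h2
      rw [pow_succ, mul_comm, mul_smul, ← h2, ← hc]
  have hg1 : g ^ Nat.card W = 1 := by
    have h := pow_card_eq_one' (G := W) (x := ⟨g, hg⟩)
    have h1 := congrArg Subtype.val h
    rw [SubmonoidClass.coe_pow] at h1
    exact h1
  have hc1 : c ^ Nat.card W = 1 := by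
    have h1 := hpow (Nat.card W)
    rw [hg1] at h1
    have h2 : trP b b (1 : V ≃ₗ[ℂ] V) (DelE W b E) = DelE W b E :=
      congrArg (fun F : Px ι →ₐ[ℂ] Px ι => F (DelE W b E)) (trP_refl b)
    rw [h2] at h1
    have h3 : (c ^ Nat.card W - 1) • DelE W b E = 0 := by
      rw [sub_smul, one_smul, ← h1, sub_self]
    rcases smul_eq_zero.1 h3 with h4 | h4
    · exact sub_eq_zero.1 h4
    · exact absurd h4 hne
  rw [pow_mul, map_pow]
  congr 1
  have h5 : DelE W b E ^ Nat.card W = (c • trP b b g (DelE W b E)) ^ Nat.card W := by rw [← hc]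
  rw [smul_pow, hc1, one_smul] at h5
  rw [map_pow]
  exact h5.symm

end

end Pool.Agent.CM64
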