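import Pool.Agent.LibCM64.NerA

/-! The algebra of restrictions of `M(W,k)^W` to `U × U*`; its normalisation. -/

set_option linter.unusedSectionVars false

namespace Pool.Agent.CM64

open Module MvPolynomial

section

variable {V : Type} [AddCommGroup V] [Module ℂ V] [FiniteDimensional ℂ V]
variable {ι : Type} [Fintype ι] [DecidableEq ι] {κ : Type} [Fintype κ] [DecidableEq κ]

/-- the diagonal invariants -/
private noncomputable def nerC_inv (W : Subgroup (V ≃ₗ[ℂ] V)) (b : Basis ι ℂ V) :
    Subalgebra ℂ (Rx ι) where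
  carrier := {p | ∀ w ∈ W, trR b b w p = p}
  mul_mem' := by
    intro p q hp hq g hg
    rw [map_mul, hp g hg, hq g hg]
  add_mem' := by
    intro p q hp hq g hg
    rw [map_add, hp g hg, hq g hg]
  algebraMap_mem' := by
    intro r g _
    exact (trR b b g).commutes r

private theorem nerC_trR_mul (b : Basis ι ℂ V) (g h : V ≃ₗ[ℂ] V) (p : Rx ι) :
    trR b b g (trR b b h p) = trR b b (g * h) p := by
  rw [trR_trans_apply]
  rfl

private theorem nerC_finite (W : Subgroup (V ≃ₗ[ℂ] V)) [Finite W] (b : Basis ι ℂ V) :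
    Module.Finite (nerC_inv W b) (Rx ι) := by
  let inst : MulSemiringAction W (Rx ι) :=
    { smul := fun g p => trR b b (g : V ≃ₗ[ℂ] V) p
      one_smul := fun p => by
        change trR b b (LinearEquiv.refl ℂ V) p = p
        rw [trR_refl, AlgHom.id_apply]
      mul_smul := fun g h p => (nerC_trR_mul b (g : V ≃ₗ[ℂ] V) (h : V ≃ₗ[ℂ] V) p).symm
      smul_zero := fun g => map_zero _
      smul_add := fun g p q => map_add _ p q
      smul_one := fun g => map_one _
      smul_mul := fun g p q => map_mul _ p q }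
  have hinv : Algebra.IsInvariant (nerC_inv W b) (Rx ι) W :=
    ⟨fun p hp => ⟨⟨p, fun g hg => hp ⟨g, hg⟩⟩, rfl⟩⟩
  have h1 := Algebra.IsInvariant.isIntegral (nerC_inv W b) (Rx ι) W
  have h2 : Algebra.FiniteType ℂ (Rx ι) := inferInstance
  have h3 : Algebra.FiniteType (nerC_inv W b) (Rx ι) :=
    Algebra.FiniteType.of_restrictScalars_finiteType ℂ (nerC_inv W b) (Rx ι)
  exact Algebra.IsIntegral.finite (R := nerC_inv W b) (A := Rx ι) (h' := h3)

private theorem nerC_hc_mul {S : Type} [CommRing S] {σ : Type} {f : MvPolynomial σ S} {d : ℕ}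
    (hf : f.IsHomogeneous d) (h : MvPolynomial σ S) (e : ℕ) :
    homogeneousComponent e (h * f) = if d ≤ e then homogeneousComponent (e - d) h * f else 0 := by
  classical
  conv_lhs => rw [← sum_homogeneousComponent (φ := h)]
  rw [Finset.sum_mul, map_sum]
  have h1 : ∀ k, homogeneousComponent e (homogeneousComponent k h * f) =
      if e = k + d then homogeneousComponent k h * f else 0 := by
    intro k
    exact homogeneousComponent_of_mem ((homogeneousComponent_isHomogeneous k h).mul hf)
  simp only [h1]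
  split_ifs with hd
  · have h2 : ∀ k, (if e = k + d then homogeneousComponent k h * f else 0) =
        if k = e - d then homogeneousComponent k h * f else 0 := by
      intro k
      by_cases hk : e = k + d
      · rw [if_pos hk, if_pos (by omega)]
      · rw [if_neg hk, if_neg (by omega)]
    simp only [h2]
    rw [Finset.sum_ite_eq' (Finset.range (h.totalDegree + 1)) (e - d) (fun k => homogeneousComponent k h * f)]
    split_ifs with h3
    · rfl
    · rw [homogeneousComponent_eq_zero _ _ (by rw [Finset.mem_range] at h3; omega), zero_mul]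
  · refine Finset.sum_eq_zero (fun k _ => ?_)
    rw [if_neg (by omega)]

private theorem nerC_hc_self {S : Type} [CommRing S] {σ : Type} {f : MvPolynomial σ S} {d : ℕ}
    (hf : f.IsHomogeneous d) : homogeneousComponent d f = f := by
  classical
  rw [homogeneousComponent_of_mem hf, if_pos rfl]

/-- `ℂ[V × V*]` is generated by homogeneous elements over the diagonal invariants -/
private theorem nerC_gens (W : Subgroup (V ≃ₗ[ℂ] V)) [Finite W] (b : Basis ι ℂ V) :
    ∃ (N : ℕ) (m : Fin N → Rx ι) (e : Fin N → ℕ), (∀ j, (m j).IsHomogeneous (e j)) ∧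
      ∀ (n : ℕ) (p : Rx ι), p.IsHomogeneous n → ∃ c : Fin N → Rx ι, (∀ j, ∀ w ∈ W, trR b b w (c j) = c j) ∧
        (∀ j, e j ≤ n → (c j).IsHomogeneous (n - e j)) ∧ (∀ j, n < e j → c j = 0) ∧
        p = ∑ j, c j * m j := by
  classical
  have hfin := nerC_finite W b
  obtain ⟨S, hS⟩ := hfin.fg_top
  let T : Finset (Rx ι) := S.biUnion
    (fun s => (Finset.range (s.totalDegree + 1)).image (fun i => homogeneousComponent i s))
  have hT1 : ∀ t ∈ T, ∃ e, t.IsHomogeneous e := by
    intro t ht
    obtain ⟨s, _, h1⟩ := Finset.mem_biUnion.1 ht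
    obtain ⟨i, _, rfl⟩ := Finset.mem_image.1 h1
    exact ⟨i, homogeneousComponent_isHomogeneous i s⟩
  have hT2 : Submodule.span (nerC_inv W b) (T : Set (Rx ι)) = ⊤ := by
    rw [eq_top_iff, ← hS, Submodule.span_le]
    intro s hs
    rw [SetLike.mem_coe, ← sum_homogeneousComponent (φ := s)]
    refine Submodule.sum_mem _ (fun i hi => Submodule.subset_span ?_)
    exact Finset.mem_coe.2 (Finset.mem_biUnion.2 ⟨s, hs, Finset.mem_image.2 ⟨i, hi, rfl⟩⟩)
  have hdat : ∀ j : Fin T.card, ∃ e, ((T.equivFin.symm j : Rx ι)).IsHomogeneous e := fun j =>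
    hT1 _ (T.equivFin.symm j).2
  choose e he using hdat
  have hrange : Set.range (fun j : Fin T.card => (T.equivFin.symm j : Rx ι)) = (T : Set (Rx ι)) := by
    ext p
    constructor
    · rintro ⟨i, rfl⟩
      exact (T.equivFin.symm i).2
    · intro hp
      exact ⟨T.equivFin ⟨p, hp⟩, by simp⟩
  refine ⟨T.card, fun j => (T.equivFin.symm j : Rx ι), e, he, ?_⟩
  intro n p hp
  have hmem : p ∈ Submodule.span (nerC_inv W b) (Set.range (fun j : Fin T.card => (T.equivFin.symm j : Rx ι))) := by
    rw [hrange, hT2]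
    trivial
  obtain ⟨a, ha⟩ := (Submodule.mem_span_range_iff_exists_fun _).1 hmem
  refine ⟨fun j => if e j ≤ n then homogeneousComponent (n - e j) (a j : Rx ι) else 0, ?_, ?_, ?_, ?_⟩
  · intro j w hw
    simp only
    split_ifs
    · rw [← homogeneousComponent_trR, (a j).2 w hw]
    · rw [map_zero]
  · intro j hj
    simp only
    rw [if_pos hj]
    exact homogeneousComponent_isHomogeneous _ _
  · intro j hj
    simp only
    rw [if_neg (by omega)]
  · have h1 : p = ∑ j, homogeneousComponent n ((a j : Rx ι) * (T.equivFin.symm j : Rx ι)) := by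
      rw [← map_sum]
      have h2 : ∑ j, (a j : Rx ι) * (T.equivFin.symm j : Rx ι) = p := ha
      rw [h2, nerC_hc_self hp]
    conv_lhs => rw [h1]
    refine Finset.sum_congr rfl (fun j _ => ?_)
    rw [nerC_hc_mul (he j)]
    show (if e j ≤ n then _ else (0 : Rx ι)) = (if e j ≤ n then _ else (0 : Rx ι)) * _
    split_ifs
    · rfl
    · rw [zero_mul]

/-- `ℂ[U × U*]` is generated as a module over the restrictions of `ℂ[V]^W ⊗ ℂ[V*]^W` by finitely many homogeneous elements
(monomials), homogeneously. -/
theorem exists_module_gens (W : Subgroup (V ≃ₗ[ℂ] V)) [Finite W] {τ : V ≃ₗ[ℂ] V} (hfin : IsOfFinOrder τ)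
    (b : Basis ι ℂ V) (bU : Basis κ ℂ ↥(fixSub τ)) :
    ∃ (N : ℕ) (m : Fin N → Rx κ) (e : Fin N → ℕ), (∀ j, (m j).IsHomogeneous (e j)) ∧
      ∀ (n : ℕ) (p : Rx κ), p.IsHomogeneous n → ∃ c : Fin N → Rx ι, (∀ j, ∀ w ∈ W, trR b b w (c j) = c j) ∧
        (∀ j, e j ≤ n → (c j).IsHomogeneous (n - e j)) ∧ (∀ j, n < e j → c j = 0) ∧
        p = ∑ j, resR τ b bU (c j) * m j := by
  obtain ⟨N, m, e, he, hc⟩ := nerC_gens W b
  refine ⟨N, fun j => resR τ b bU (m j), e, fun j => ?_, ?_⟩
  · have h1 : resR τ b bU (m j) = homogeneousComponent (e j) (resR τ b bU (m j)) := by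
      rw [homogeneousComponent_resR, nerC_hc_self (he j)]
    show (resR τ b bU (m j)).IsHomogeneous (e j)
    rw [h1]
    exact homogeneousComponent_isHomogeneous _ _
  · intro n p hp
    obtain ⟨p', hp'⟩ := resR_surjective τ b bU hfin p
    obtain ⟨c, h1, h2, h3, h4⟩ := hc n (homogeneousComponent n p') (homogeneousComponent_isHomogeneous _ _)
    refine ⟨c, h1, h2, h3, ?_⟩
    have h5 : p = resR τ b bU (homogeneousComponent n p') := by
      rw [← homogeneousComponent_resR, hp', nerC_hc_self hp]
    rw [h5, h4, map_sum]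
    exact Finset.sum_congr rfl (fun j _ => map_mul _ _ _)

private theorem nerC_Ld_jR {n : ℕ} {p : Rx κ} (hp : p.IsHomogeneous n) : Ld (n + 1) (jR p : Ax κ) := by
  classical
  intro i hi
  rw [homogeneousComponent_jR, homogeneousComponent_of_mem hp, if_neg (by omega), map_zero]

/-- the restriction of a lift -/
private theorem nerC_lift (W : Subgroup (V ≃ₗ[ℂ] V)) [Finite W] {τ : V ≃ₗ[ℂ] V}
    (hreg : IsRegular W τ) (k : Submodule ℂ V → ℤ → ℂ) (hk : Adm W k) (b : Basis ι ℂ V)
    (bU : Basis κ ℂ ↥(fixSub τ)) {c : Rx ι} {n : ℕ} (hc : ∀ w ∈ W, trR b b w c = c)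
    (hh : c.IsHomogeneous n) : ∃ s ∈ BW W τ k hk b bU, Ld n (s - jR (resR τ b bU c)) := by
  obtain ⟨z, hz, hzi, hL⟩ := Mk_lift_inv W k hk b hh hc
  obtain ⟨s, hs⟩ := exists_res W k τ hreg b bU hz
  refine ⟨s, ⟨z, ⟨hz, hzi⟩, hs⟩, ?_⟩
  have h1 : ResRel τ b bU (z - jR c) (s - jR (resR τ b bU c)) := by
    have h2 := ResRel.smul (-1) (ResRel.ofR (τ := τ) (b := b) (bU := bU) c)
    have h3 := ResRel.add hs h2
    rw [neg_one_smul, neg_one_smul, ← sub_eq_add_neg, ← sub_eq_add_neg] at h3
    exact h3
  intro i hi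
  have h4 := ResRel.hcomp h1 i
  rw [hL i hi] at h4
  have h5 : ResRel τ b bU (0 : Ax ι) (0 : Ax κ) := by
    have := ResRel.const (τ := τ) (b := b) (bU := bU) 0
    rwa [map_zero, map_zero] at this
  exact ResRel.unique h4 h5

/-- integrality: every element of `M(G,l)^G` is integral over the restrictions of `M(W,k)^W`, provided the latter are
contained in `M(G,l)^G`: `M(G,l)` is a finite module over `BW` (lift the generators of `exists_module_gens` by `Mk_lift`;
induction on the `ξ`-degree, lifting the coefficients by `Mk_lift_inv`), stable under `s`. -/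
theorem integral_over_BW (W : Subgroup (V ≃ₗ[ℂ] V)) [Finite W] (hW : ReflGen W) {τ : V ≃ₗ[ℂ] V}
    (hfin : IsOfFinOrder τ) (hreg : IsRegular W τ) (k : Submodule ℂ V → ℤ → ℂ) (hk : Adm W k) (b : Basis ι ℂ V)
    (bU : Basis κ ℂ ↥(fixSub τ)) (l : Submodule ℂ ↥(fixSub τ) → ℤ → ℂ) (hl : Adm (fixGrp W τ) l)
    (hle : BW W τ k hk b bU ≤ MkW (fixGrp W τ) l hl bU) {s : Ax κ} (hs : s ∈ MkW (fixGrp W τ) l hl bU) :
    IsIntegral (BW W τ k hk b bU) s := by
  classical
  obtain ⟨N, m, e, he, hgen⟩ := exists_module_gens W hfin b bU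
  -- lifts of the generators
  have hM : ∀ j, ∃ M ∈ Mk (fixGrp W τ) l bU, Ld (e j) (M - jR (m j)) := fun j =>
    Mk_lift (fixGrp W τ) l hl bU (he j)
  choose M hM1 hM2 using hM
  -- `M(G,l)` as a module
  let P : Submodule (BW W τ k hk b bU) (Ax κ) :=
    { carrier := {f | f ∈ Mk (fixGrp W τ) l bU}
      add_mem' := fun ha hb => (Mk (fixGrp W τ) l bU).add_mem ha hb
      zero_mem' := (Mk (fixGrp W τ) l bU).zero_mem
      smul_mem' := by
        intro c f hf
        have h1 := hle c.2
        exact Mk_mul_inv (fixGrp W τ) l hl bU h1.1 h1.2 hf }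
  have hspan : ∀ D : ℕ, ∀ f ∈ Mk (fixGrp W τ) l bU, Ld D f →
      f ∈ Submodule.span (BW W τ k hk b bU) (Set.range M) := by
    intro D
    induction D with
    | zero =>
      intro f _ hf
      rw [(Ld_zero_iff f).1 hf]
      exact Submodule.zero_mem _
    | succ n ih =>
      intro f hf hD
      obtain ⟨p, hp⟩ := Mk_leading (fixGrp W τ) l hl bU hf hD
      have hp1 : jR (homogeneousComponent n p) = homogeneousComponent n f := by
        rw [← homogeneousComponent_jR, hp]
        exact nerC_hc_self (homogeneousComponent_isHomogeneous n f)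
      obtain ⟨c, c1, c2, c3, c4⟩ := hgen n (homogeneousComponent n p) (homogeneousComponent_isHomogeneous _ _)
      have hs : ∀ j, ∃ t ∈ BW W τ k hk b bU, (e j ≤ n → Ld (n - e j) (t - jR (resR τ b bU (c j)))) ∧
          (n < e j → t = 0) := by
        intro j
        by_cases hj : e j ≤ n
        · obtain ⟨t, ht, ht2⟩ := nerC_lift W hreg k hk b bU (c1 j) (c2 j hj)
          exact ⟨t, ht, fun _ => ht2, fun h => absurd h (by omega)⟩
        · exact ⟨0, (BW W τ k hk b bU).zero_mem, fun h => absurd h hj, fun _ => rfl⟩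
      choose t ht ht1 ht2 using hs
      have hterm : ∀ j, Ld n (t j * M j - jR (resR τ b bU (c j) * m j)) := by
        intro j
        by_cases hj : e j ≤ n
        · have e1 : t j * M j - jR (resR τ b bU (c j) * m j) =
              jR (m j) * (t j - jR (resR τ b bU (c j))) +
              jR (resR τ b bU (c j)) * (M j - jR (m j)) +
              (M j - jR (m j)) * (t j - jR (resR τ b bU (c j))) := by
            rw [map_mul]
            ring
          have hcj : (resR τ b bU (c j)).IsHomogeneous (n - e j) := by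
            have h1 : resR τ b bU (c j) = homogeneousComponent (n - e j) (resR τ b bU (c j)) := by
              rw [homogeneousComponent_resR, nerC_hc_self (c2 j hj)]
            rw [h1]
            exact homogeneousComponent_isHomogeneous _ _
          rw [e1]
          refine Ld_add (Ld_add ?_ ?_) ?_
          · have := Ld_mul (nerC_Ld_jR (he j)) (ht1 j hj)
            rwa [show e j + (n - e j) = n by omega] at this
          · have := Ld_mul (nerC_Ld_jR hcj) (hM2 j)
            rwa [show n - e j + e j = n by omega] at this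
          · have := Ld_mul (Ld_mono (Nat.le_succ (e j)) (hM2 j)) (ht1 j hj)
            rwa [show e j + (n - e j) = n by omega] at this
        · have h1 : t j = 0 := ht2 j (by omega)
          have h2 : c j = 0 := c3 j (by omega)
          rw [h1, h2, map_zero, zero_mul, zero_mul, map_zero, sub_zero]
          exact Ld_zero n
      have hf1 : Ld n (f - homogeneousComponent n f) := by
        intro i hi
        rw [map_sub]
        by_cases hin : i = n
        · subst hin
          rw [nerC_hc_self (homogeneousComponent_isHomogeneous i f), sub_self]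
        · rw [hD i (by omega), homogeneousComponent_of_mem (homogeneousComponent_isHomogeneous n f),
            if_neg hin, sub_zero]
      have hf2 : f - ∑ j, t j * M j = (f - homogeneousComponent n f) -
          ∑ j, (t j * M j - jR (resR τ b bU (c j) * m j)) := by
        rw [Finset.sum_sub_distrib, ← map_sum, ← c4, hp1]
        ring
      have hf3 : Ld n (f - ∑ j, t j * M j) := by
        rw [hf2]
        exact Ld_sub hf1 (Ld_sum _ _ (fun j _ => hterm j))
      have hsum : ∑ j, t j * M j ∈ P := by
        refine P.sum_mem (fun j _ => ?_)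
        exact P.smul_mem (⟨t j, ht j⟩ : BW W τ k hk b bU) (hM1 j)
      have hf4 := ih (f - ∑ j, t j * M j) ((Mk (fixGrp W τ) l bU).sub_mem hf hsum) hf3
      have hf5 : f = (f - ∑ j, t j * M j) + ∑ j, t j * M j := by ring
      rw [hf5]
      refine Submodule.add_mem _ hf4 (Submodule.sum_mem _ (fun j _ => ?_))
      exact Submodule.smul_mem _ (⟨t j, ht j⟩ : BW W τ k hk b bU) (Submodule.subset_span ⟨j, rfl⟩)
  have hPfg : P.FG := by
    have hP : P = Submodule.span (BW W τ k hk b bU) (Set.range M) := by
      apply le_antisymm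
      · intro f hf
        obtain ⟨D, hD⟩ := exists_Ld f
        exact hspan D f hf hD
      · rw [Submodule.span_le]
        rintro _ ⟨j, rfl⟩
        exact hM1 j
    rw [hP]
    exact Submodule.fg_span (Set.finite_range M)
  have hne : P ≠ ⊥ := by
    intro h
    have h1 : (1 : Ax κ) ∈ P := Mk_one (fixGrp W τ) l bU
    rw [h, Submodule.mem_bot] at h1
    exact one_ne_zero h1
  refine isIntegral_of_smul_mem_submodule P hne hPfg s ?_
  intro f hf
  exact Mk_mul_inv (fixGrp W τ) l hl bU hs.1 hs.2 hf

end

end Pool.Agent.CM64
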