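import Pool.Agent.LibCM64.NerA

/-! The algebra of restrictions of `M(W,k)^W` to `U × U*`; its normalisation. -/

set_option linter.unusedSectionVars false

namespace Pool.Agent.CM64

open Module MvPolynomial

section

variable {V : Type} [AddCommGroup V] [Module ℂ V] [FiniteDimensional ℂ V]
variable {ι : Type} [Fintype ι] [DecidableEq ι] {κ : Type} [Fintype κ] [DecidableEq κ]

/-- the restriction `ℂ[V × V*]^W → ℂ[U × U*]^{W^τ}` is surjective. -/
def SurjR (W : Subgroup (V ≃ₗ[ℂ] V)) (τ : V ≃ₗ[ℂ] V) (b : Basis ι ℂ V) (bU : Basis κ ℂ ↥(fixSub τ)) : Prop :=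
  ∀ p : Rx κ, (∀ g ∈ fixGrp W τ, trR bU bU g p = p) → ∃ q : Rx ι, (∀ w ∈ W, trR b b w q = q) ∧ resR τ b bU q = p

private theorem nerD_hc {σ R : Type} [CommSemiring R] (m n : ℕ) (f : MvPolynomial σ R) :
    homogeneousComponent m (homogeneousComponent n f) = if m = n then homogeneousComponent n f else 0 :=
  homogeneousComponent_of_mem (homogeneousComponent_isHomogeneous n f)

/-- (5.2): equality if `SurjR` (induction on the `ξ`-degree, `Mk_leading`, `Mk_lift_inv`). -/
theorem BW_eq_of_surj (W : Subgroup (V ≃ₗ[ℂ] V)) [Finite W] {τ : V ≃ₗ[ℂ] V}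
    (hfin : IsOfFinOrder τ) (hreg : IsRegular W τ) (k : Submodule ℂ V → ℤ → ℂ) (hk : Adm W k) (b : Basis ι ℂ V)
    (bU : Basis κ ℂ ↥(fixSub τ)) (l : Submodule ℂ ↥(fixSub τ) → ℤ → ℂ) (hl : Adm (fixGrp W τ) l)
    (hle : BW W τ k hk b bU ≤ MkW (fixGrp W τ) l hl bU) (hS : SurjR W τ b bU) :
    BW W τ k hk b bU = MkW (fixGrp W τ) l hl bU := by
  have _ := hfin
  refine le_antisymm hle ?_
  have key : ∀ (n : ℕ) (s : Ax κ), s ∈ MkW (fixGrp W τ) l hl bU → Ld n s → s ∈ BW W τ k hk b bU := by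
    intro n
    induction n with
    | zero =>
      intro s _ hs0
      rw [(Ld_zero_iff s).1 hs0]
      exact Subalgebra.zero_mem _
    | succ n ih =>
      intro s hs hsn
      obtain ⟨p₀, hp₀⟩ := Mk_leading (fixGrp W τ) l hl bU hs.1 hsn
      -- a homogeneous version
      set p : Rx κ := homogeneousComponent n p₀ with hp
      have hjp : jR p = homogeneousComponent n s := by
        rw [hp, ← homogeneousComponent_jR, hp₀, nerD_hc, if_pos rfl]
      have hphom : p.IsHomogeneous n := homogeneousComponent_isHomogeneous n p₀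
      have hpinv : ∀ g ∈ fixGrp W τ, trR bU bU g p = p := by
        intro g hg
        apply jR_injective
        have h1 : trA bU bU g s = s := hs.2 g hg
        rw [jR_trR, hjp, ← homogeneousComponent_trA, h1]
      obtain ⟨q₀, hq₀inv, hq₀⟩ := hS p hpinv
      set q : Rx ι := homogeneousComponent n q₀ with hq
      have hqhom : q.IsHomogeneous n := homogeneousComponent_isHomogeneous n q₀
      have hqinv : ∀ w ∈ W, trR b b w q = q := by
        intro w hw
        rw [hq, ← homogeneousComponent_trR, hq₀inv w hw]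
      have hqp : resR τ b bU q = p := by
        rw [hq, ← homogeneousComponent_resR, hq₀]
        rw [hp, nerD_hc, if_pos rfl]
      obtain ⟨m, hm, hminv, hmL⟩ := Mk_lift_inv W k hk b hqhom hqinv
      obtain ⟨t, ht⟩ := exists_res W k τ hreg b bU hm
      have htB : t ∈ BW W τ k hk b bU := ⟨m, ⟨hm, hminv⟩, ht⟩
      have hcomp : ∀ j, n ≤ j → homogeneousComponent j t = homogeneousComponent j (jR p) := by
        intro j hj
        have h1 := ResRel.hcomp ht j
        have h2 := ResRel.hcomp (ResRel.ofR (τ := τ) (b := b) (bU := bU) q) j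
        have h3 := hmL j hj
        rw [map_sub, sub_eq_zero] at h3
        rw [← h3, hqp] at h2
        exact ResRel.unique h1 h2
      have hsub : Ld n (s - t) := by
        intro j hj
        rw [map_sub, hcomp j hj, hjp, nerD_hc]
        rcases eq_or_ne j n with h | h
        · rw [if_pos h, h, sub_self]
        · rw [if_neg h, hsn j (by omega), sub_self]
      have h1 := ih (s - t) (Subalgebra.sub_mem _ hs (hle htB)) hsub
      have h2 : s = (s - t) + t := by ring
      rw [h2]
      exact Subalgebra.add_mem _ h1 htB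
  intro s hs
  obtain ⟨n, hn⟩ := exists_Ld s
  exact key n s hs hn

/-- for `k = 0`, `M_0 = ℂ[V][ξ]`. -/
theorem Mk_zero (W : Subgroup (V ≃ₗ[ℂ] V)) [Finite W] (b : Basis ι ℂ V) (m : Ax ι) :
    m ∈ Mk W 0 b ↔ ∃ p : Rx ι, jR p = m := by
  have hd : ∀ (v : V) (f : Ax ι), dunkl W 0 b v f = yA b v * f := by
    intro v f
    rw [tact_dunkl_apply]
    have h1 : ∑ H ∈ arrF W, C (qH b H v) * aop W 0 b H f = 0 := by
      refine Finset.sum_eq_zero (fun H _ => ?_)
      rw [tact_aop_apply]
      have h2 : ∀ g, kap W (0 : Submodule ℂ V → ℤ → ℂ) H g = 0 := by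
        intro g
        unfold kap
        refine Finset.sum_eq_zero (fun j _ => ?_)
        show ((0 : ℂ) - 0) * dt g ^ j = 0
        rw [sub_self, zero_mul]
      rw [Finset.sum_eq_zero (fun g _ => by rw [h2, zero_smul]), mul_zero]
    rw [h1, add_zero]
  constructor
  · intro hm
    have hst : IsStab W 0 b (LinearMap.range (jR : Rx ι →ₐ[ℂ] Ax ι).toLinearMap) := by
      refine ⟨⟨1, (jR : Rx ι →ₐ[ℂ] Ax ι).map_one⟩, ?_, ?_⟩
      · rintro f _ ⟨p, rfl⟩
        refine ⟨C (xl b f) * p, ?_⟩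
        show jR (C (xl b f) * p) = xA (xl b f) * jR p
        rw [map_mul, jR_C]
      · rintro v _ ⟨p, rfl⟩
        refine ⟨yR b v * p, ?_⟩
        rw [hd]
        show jR (yR b v * p) = yA b v * jR p
        rw [map_mul, jR_yR]
    exact Mk_le W 0 hst hm
  · rintro ⟨p, rfl⟩
    induction p using MvPolynomial.induction_on with
    | C a =>
      rw [jR_C]
      have := Mk_xA W 0 (Mk_one W 0 b) a
      rwa [mul_one] at this
    | add p q hp hq =>
      rw [map_add]
      exact Submodule.add_mem _ hp hq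
    | mul_X p i hp =>
      have h1 := Mk_dunkl W 0 hp (b i)
      rw [hd, yA_basis] at h1
      rw [map_mul, jR_X, mul_comm]
      exact h1

/-- converse at `k = 0`: equality of the algebras gives `SurjR`. -/
theorem surj_of_BW_eq (W : Subgroup (V ≃ₗ[ℂ] V)) [Finite W] {τ : V ≃ₗ[ℂ] V} (hfin : IsOfFinOrder τ)
    (b : Basis ι ℂ V) (bU : Basis κ ℂ ↥(fixSub τ)) (hk : Adm W 0) (hl : Adm (fixGrp W τ) 0)
    (h : MkW (fixGrp W τ) 0 hl bU ≤ BW W τ 0 hk b bU) : SurjR W τ b bU := by
  have _ := hfin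
  intro p hp
  have h1 : (jR p : Ax κ) ∈ MkW (fixGrp W τ) 0 hl bU := by
    refine ⟨(Mk_zero (fixGrp W τ) bU _).2 ⟨p, rfl⟩, ?_⟩
    intro g hg
    show trA bU bU g (jR p) = jR p
    rw [← jR_trR, hp g hg]
  obtain ⟨z, ⟨hz, hzinv⟩, hzr⟩ := h h1
  obtain ⟨q, rfl⟩ := (Mk_zero W b z).1 hz
  refine ⟨q, ?_, ?_⟩
  · intro w hw
    apply jR_injective
    rw [jR_trR]
    exact hzinv w hw
  · apply jR_injective
    exact ResRel.unique (ResRel.ofR (τ := τ) (b := b) (bU := bU) q) hzr

end

end Pool.Agent.CM64
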