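import Pool.Agent.LibCM64.CompC
import Pool.Agent.LibCM64.NerC
import Pool.Agent.LibCM64.NerD

/-! The properties of the restriction homomorphism `Z_k(V,W) → Z_l(U,G)`. -/

set_option linter.unusedSectionVars false
set_option maxSynthPendingDepth 3

namespace Pool.Agent.CM64

open Module MvPolynomial

/-- two homomorphisms with the same kernel, the first one onto an integrally closed domain, the second one integral and
birational onto its image: the second one is surjective. (`φ₀.range` is isomorphic to `A/ker`, hence to `C`, so integrally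
closed; every `s : B` is integral over it and in its fraction field.) -/
theorem surjective_of_ker_eq {A B C : Type} [CommRing A] [CommRing B] [CommRing C] [Algebra ℂ A] [Algebra ℂ B]
    [Algebra ℂ C] [IsDomain B] [IsDomain C] [IsIntegrallyClosed C] (φ₀ : A →ₐ[ℂ] B) (φ₁ : A →ₐ[ℂ] C)
    (hint : ∀ s : B, IsIntegral φ₀.range s) (hbir : ∀ s : B, ∃ z d : A, φ₀ d ≠ 0 ∧ φ₀ d * s = φ₀ z)
    (hs : Function.Surjective φ₁) (hker : RingHom.ker φ₁ = RingHom.ker φ₀) : Function.Surjective φ₀ := by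
  have e1 : C ≃+* φ₀.range :=
    ((RingHom.quotientKerEquivOfSurjective (f := (φ₁ : A →+* C)) hs).symm.trans
      (Ideal.quotEquivOfEq hker)).trans
      (RingHom.quotientKerEquivRange (φ₀ : A →+* B))
  have : IsIntegrallyClosed φ₀.range := IsIntegrallyClosed.of_equiv e1
  intro s
  obtain ⟨z, d, hd, hz⟩ := hbir s
  let z' : φ₀.range := ⟨φ₀ z, z, rfl⟩
  let d' : φ₀.range := ⟨φ₀ d, d, rfl⟩
  have hd' : d' ≠ 0 := fun h => hd (congrArg Subtype.val h)
  let j : FractionRing φ₀.range →ₐ[φ₀.range] FractionRing B :=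
    IsFractionRing.liftAlgHom (g := Algebra.ofId φ₀.range (FractionRing B)) (by
      intro x y hxy
      have h1 : algebraMap B (FractionRing B) x = algebraMap B (FractionRing B) y := hxy
      exact Subtype.ext (IsFractionRing.injective B (FractionRing B) h1))
  let x : FractionRing φ₀.range := algebraMap _ _ z' / algebraMap _ _ d'
  have hjx : j x = algebraMap B (FractionRing B) s := by
    have h1 : j (algebraMap _ _ z') = algebraMap B (FractionRing B) (φ₀ z) := j.commutes z'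
    have h2 : j (algebraMap _ _ d') = algebraMap B (FractionRing B) (φ₀ d) := j.commutes d'
    have h3 : algebraMap B (FractionRing B) (φ₀ d) ≠ 0 := fun h =>
      hd ((map_eq_zero_iff _ (IsFractionRing.injective B (FractionRing B))).1 h)
    rw [map_div₀, h1, h2, div_eq_iff h3, ← map_mul, mul_comm s, hz]
  have hint' : IsIntegral φ₀.range x := by
    rw [← isIntegral_algHom_iff j j.injective, hjx]
    exact (hint s).algebraMap
  obtain ⟨y, hy⟩ := IsIntegrallyClosed.algebraMap_eq_of_integral hint'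
  have h4 : y * d' = z' := by
    apply IsFractionRing.injective φ₀.range (FractionRing φ₀.range)
    rw [map_mul, hy]
    exact div_mul_cancel₀ _ (fun h => hd' ((map_eq_zero_iff _
      (IsFractionRing.injective φ₀.range (FractionRing φ₀.range))).1 h))
  have h5 : (y : B) * φ₀ d = φ₀ d * s := by
    rw [hz]
    exact congrArg Subtype.val h4
  have h6 : (y : B) = s := by
    rw [mul_comm] at h5
    exact mul_left_cancel₀ hd h5
  rw [← h6]
  exact y.2

section

variable {V : Type} [AddCommGroup V] [Module ℂ V] [FiniteDimensional ℂ V]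
variable {ι : Type} [Fintype ι] [DecidableEq ι] {κ : Type} [Fintype κ] [DecidableEq κ]
variable {W : Subgroup (V ≃ₗ[ℂ] V)} [Finite W] {τ : V ≃ₗ[ℂ] V} {k : Submodule ℂ V → ℤ → ℂ} {hk : Adm W k}
  {b : Basis ι ℂ V} {bU : Basis κ ℂ ↥(fixSub τ)}
  {l : Submodule ℂ ↥(fixSub τ) → ℤ → ℂ} {hl : Adm (fixGrp W τ) l} {φ : ZZ W k →ₐ[ℂ] ZZ (fixGrp W τ) l}

/-- `Z_k` is a domain (`zEquiv`; `MkW` is a subalgebra of the domain `Ax`). -/
theorem ZZ_isDomain (k : Submodule ℂ V → ℤ → ℂ) (hk : Adm W k) : IsDomain (ZZ W k) :=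
  (zEquiv W k hk (Module.finBasis ℂ V)).toMulEquiv.isDomain _

/-- `Z_k` is integrally closed (`zEquiv`, `isIntegrallyClosed_MkW`). -/
theorem ZZ_isIntegrallyClosed (k : Submodule ℂ V → ℤ → ℂ) (hk : Adm W k) : IsIntegrallyClosed (ZZ W k) := by
  have := isIntegrallyClosed_MkW W k hk (Module.finBasis ℂ V)
  exact IsIntegrallyClosed.of_equiv (zEquiv W k hk (Module.finBasis ℂ V)).symm.toRingEquiv

/-- the image of the restriction homomorphism is contained in `M(G,l)^G`. -/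
theorem BW_le_of_isRes (hφ : IsRes W τ k hk b bU l hl φ) :
    BW W τ k hk b bU ≤ MkW (fixGrp W τ) l hl bU := by
  rintro s ⟨z, ⟨hz, hzi⟩, hzs⟩
  obtain ⟨z0, rfl⟩ := exists_zA W k hk b hz hzi
  rw [ResRel.unique hzs (hφ z0)]
  exact ⟨zA_mem_Mk _ _ _ _ _, zA_inv _ _ _ _ _⟩

/-- `integral_over_BW` through `mem_BW_iff`. -/
theorem isIntegral_of_isRes (hW : ReflGen W) (hfin : IsOfFinOrder τ) (hreg : IsRegular W τ)
    (hφ : IsRes W τ k hk b bU l hl φ) (s : ZZ (fixGrp W τ) l) : IsIntegral φ.range s := by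
  have h0 := integral_over_BW W hW hfin hreg k hk b bU l hl (BW_le_of_isRes hφ)
    (s := zA (fixGrp W τ) l hl bU s) ⟨zA_mem_Mk _ _ _ _ _, zA_inv _ _ _ _ _⟩
  obtain ⟨p, hp, hp0⟩ := h0
  let r : ZZ W k →+* BW W τ k hk b bU :=
    (((zA (fixGrp W τ) l hl bU).comp φ).codRestrict (BW W τ k hk b bU)
      (fun z => (mem_BW_iff hφ (φ z)).2 ⟨z, rfl⟩)).toRingHom
  have hr : Function.Surjective r := by
    rintro ⟨y, hy⟩
    obtain ⟨hy1, hy2⟩ := BW_le_of_isRes hφ hy
    obtain ⟨y0, rfl⟩ := exists_zA (fixGrp W τ) l hl bU hy1 hy2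
    obtain ⟨z, hz⟩ := (mem_BW_iff hφ y0).1 hy
    refine ⟨z, Subtype.ext ?_⟩
    show zA (fixGrp W τ) l hl bU (φ z) = zA (fixGrp W τ) l hl bU y0
    rw [hz]
  obtain ⟨P, hP, -, hPm⟩ := Polynomial.lifts_and_natDegree_eq_and_monic
    ((Polynomial.mem_lifts p).2 (Polynomial.map_surjective r hr p)) hp
  refine ⟨P.map (φ.rangeRestrict : ZZ W k →+* φ.range), hPm.map _, ?_⟩
  rw [Polynomial.eval₂_map]
  apply zA_injective (fixGrp W τ) l hl bU
  rw [map_zero]
  have h1 : zA (fixGrp W τ) l hl bU (Polynomial.eval₂ ((algebraMap φ.range (ZZ (fixGrp W τ) l)).comp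
      (φ.rangeRestrict : ZZ W k →+* φ.range)) s P) =
      Polynomial.eval₂ ((zA (fixGrp W τ) l hl bU : ZZ (fixGrp W τ) l →+* Ax κ).comp
        ((algebraMap φ.range (ZZ (fixGrp W τ) l)).comp
      (φ.rangeRestrict : ZZ W k →+* φ.range))) (zA (fixGrp W τ) l hl bU s) P :=
    Polynomial.hom_eval₂ P _ (zA (fixGrp W τ) l hl bU : ZZ (fixGrp W τ) l →+* Ax κ) s
  rw [h1]
  rw [← hP, Polynomial.eval₂_map] at hp0
  exact hp0

/-- `birational`. -/
theorem birational_of_isRes (hW : ReflGen W) (hτ : Normalizes τ W) (hfin : IsOfFinOrder τ) (hreg : IsRegular W τ)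
    (hφ : IsRes W τ k hk b bU l hl φ) (s : ZZ (fixGrp W τ) l) :
    ∃ z d : ZZ W k, φ d ≠ 0 ∧ φ d * s = φ z := by
  obtain ⟨D, hD, hD0, hDB⟩ := birational W hW hτ hfin hreg k hk b bU l hl
    (s := zA (fixGrp W τ) l hl bU s) ⟨zA_mem_Mk _ _ _ _ _, zA_inv _ _ _ _ _⟩
  have hM : xA D ∈ Mk W k b := by
    have h1 := Mk_xA W k (Mk_one W k b) D
    rwa [mul_one] at h1
  have hI : InvA W b (xA D) := by
    intro w hw
    rw [act, trA_xA, hD w hw]
  obtain ⟨d, hd⟩ := exists_zA W k hk b hM hI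
  have h2 : zA (fixGrp W τ) l hl bU (φ d) = xA (resP τ b bU D) := by
    have h3 := hφ d
    rw [hd] at h3
    exact ResRel.unique h3 (ResRel.ofP D)
  rw [← h2, ← map_mul] at hDB
  obtain ⟨z, hz⟩ := (mem_BW_iff hφ _).1 hDB
  refine ⟨z, d, ?_, hz.symm⟩
  intro h4
  rw [h4, map_zero] at h2
  exact hD0 ((map_eq_zero_iff _ xA_injective).1 h2.symm)

/-- `BW_eq_of_surj`. -/
theorem surjective_of_surjR (hfin : IsOfFinOrder τ) (hreg : IsRegular W τ)
    (hφ : IsRes W τ k hk b bU l hl φ) (hS : SurjR W τ b bU) : Function.Surjective φ := by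
  intro s
  refine (mem_BW_iff hφ s).1 ?_
  rw [BW_eq_of_surj W hfin hreg k hk b bU l hl (BW_le_of_isRes hφ) hS]
  exact ⟨zA_mem_Mk _ _ _ _ _, zA_inv _ _ _ _ _⟩

/-- `surj_of_BW_eq`. -/
theorem surjR_of_surjective (hfin : IsOfFinOrder τ) (hφ : IsRes W τ k hk b bU l hl φ) (hk0 : k = 0) (hl0 : l = 0)
    (h : Function.Surjective φ) : SurjR W τ b bU := by
  subst hk0 hl0
  refine surj_of_BW_eq W hfin b bU hk hl ?_
  rintro s ⟨hs1, hs2⟩
  obtain ⟨s0, rfl⟩ := exists_zA (fixGrp W τ) 0 hl bU hs1 hs2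
  exact (mem_BW_iff hφ s0).2 (h s0)

end

end Pool.Agent.CM64
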