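import Pool.Agent.LibCM64.GlA

/-! The algebra of restrictions of `M(W,k)^W` to `U × U*`; its normalisation. -/

set_option linter.unusedSectionVars false

namespace Pool.Agent.CM64

open Module MvPolynomial

section

variable {V : Type} [AddCommGroup V] [Module ℂ V] [FiniteDimensional ℂ V]
variable {ι : Type} [Fintype ι] [DecidableEq ι] {κ : Type} [Fintype κ] [DecidableEq κ]

/-- the algebra `M_k^W`. -/
noncomputable def MkW (W : Subgroup (V ≃ₗ[ℂ] V)) [Finite W] (k : Submodule ℂ V → ℤ → ℂ) (hk : Adm W k)
    (b : Basis ι ℂ V) : Subalgebra ℂ (Ax ι) where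
  carrier := {f | f ∈ Mk W k b ∧ InvA W b f}
  mul_mem' := by
    rintro f g ⟨hf, hf'⟩ ⟨hg, hg'⟩
    refine ⟨Mk_mul_inv W k hk b hf hf' hg, fun w hw => ?_⟩
    rw [map_mul, hf' w hw, hg' w hw]
  add_mem' := by
    rintro f g ⟨hf, hf'⟩ ⟨hg, hg'⟩
    refine ⟨(Mk W k b).add_mem hf hg, fun w hw => ?_⟩
    rw [map_add, hf' w hw, hg' w hw]
  algebraMap_mem' := by
    intro r
    refine ⟨?_, fun w _ => (trA b b w).commutes r⟩
    rw [Algebra.algebraMap_eq_smul_one]
    exact (Mk W k b).smul_mem r (Mk_one W k b)

theorem mem_MkW {W : Subgroup (V ≃ₗ[ℂ] V)} [Finite W] {k : Submodule ℂ V → ℤ → ℂ} {hk : Adm W k}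
    {b : Basis ι ℂ V} {f : Ax ι} : f ∈ MkW W k hk b ↔ f ∈ Mk W k b ∧ InvA W b f := Iff.rfl

/-- the algebra of restrictions to `U × U*` of the elements of `M_k^W`. -/
noncomputable def BW (W : Subgroup (V ≃ₗ[ℂ] V)) [Finite W] (τ : V ≃ₗ[ℂ] V) (k : Submodule ℂ V → ℤ → ℂ)
    (hk : Adm W k) (b : Basis ι ℂ V) (bU : Basis κ ℂ ↥(fixSub τ)) : Subalgebra ℂ (Ax κ) where
  carrier := {s | ∃ z ∈ MkW W k hk b, ResRel τ b bU z s}
  mul_mem' := by
    rintro f g ⟨z, hz, hf⟩ ⟨z', hz', hg⟩
    exact ⟨z * z', (MkW W k hk b).mul_mem hz hz', hf.mul hg⟩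
  add_mem' := by
    rintro f g ⟨z, hz, hf⟩ ⟨z', hz', hg⟩
    exact ⟨z + z', (MkW W k hk b).add_mem hz hz', hf.add hg⟩
  algebraMap_mem' := fun r => ⟨_, (MkW W k hk b).algebraMap_mem r, ResRel.const r⟩

private theorem ner_dvd {R : Type} [CommRing R] [IsDomain R] [UniqueFactorizationMonoid R] {p d a : R}
    (hp : p ≠ 0) (h : ∀ n : ℕ, d ^ n ∣ p * a ^ n) : d ∣ a := by
  classical
  by_cases ha : a = 0
  · rw [ha]
    exact dvd_zero d
  have hd : d ≠ 0 := by
    rintro rfl
    have h1 := h 1
    rw [pow_one, zero_dvd_iff, pow_one] at h1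
    rcases mul_eq_zero.1 h1 with h2 | h2
    · exact hp h2
    · exact ha h2
  let _i : StrongNormalizationMonoid R := UniqueFactorizationMonoid.normalizationMonoid
  rw [UniqueFactorizationMonoid.dvd_iff_normalizedFactors_le_normalizedFactors hd ha, Multiset.le_iff_count]
  intro q
  by_contra hq
  push Not at hq
  set n := Multiset.count q (UniqueFactorizationMonoid.normalizedFactors p) + 1 with hn
  have h1 := h n
  rw [UniqueFactorizationMonoid.dvd_iff_normalizedFactors_le_normalizedFactors (pow_ne_zero n hd)
    (mul_ne_zero hp (pow_ne_zero n ha)), UniqueFactorizationMonoid.normalizedFactors_mul hp (pow_ne_zero n ha),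
    UniqueFactorizationMonoid.normalizedFactors_pow, UniqueFactorizationMonoid.normalizedFactors_pow,
    Multiset.le_iff_count] at h1
  have h2 := h1 q
  rw [Multiset.count_add, Multiset.count_nsmul, Multiset.count_nsmul] at h2
  have h3 : n * (Multiset.count q (UniqueFactorizationMonoid.normalizedFactors a) + 1) ≤
      n * Multiset.count q (UniqueFactorizationMonoid.normalizedFactors d) := Nat.mul_le_mul_left n hq
  rw [Nat.mul_add, Nat.mul_one] at h3
  omega

private theorem ner_closed {A : Type} [CommRing A] [IsDomain A] [Algebra ℂ A] [IsIntegrallyClosed A]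
    (R : Subalgebra ℂ A)
    (h : ∀ s c a : A, c ∈ R → c ≠ 0 → a ∈ R → c * s = a →
      (∃ e ∈ R, e ≠ 0 ∧ ∀ n : ℕ, e * s ^ n ∈ R) → s ∈ R) : IsIntegrallyClosed R := by
  have hinj' : Function.Injective (algebraMap A (FractionRing A)) :=
    IsFractionRing.injective A (FractionRing A)
  have hinjv : Function.Injective (algebraMap R A) := Subtype.val_injective
  have hf : Function.Injective ((algebraMap A (FractionRing A)).comp (algebraMap R A)) :=
    hinj'.comp hinjv
  obtain ⟨g, hg⟩ : ∃ g : FractionRing R →+* FractionRing A, ∀ r : R,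
      g (algebraMap R (FractionRing R) r) = algebraMap A (FractionRing A) (algebraMap R A r) :=
    ⟨IsFractionRing.lift hf, fun r => IsFractionRing.lift_algebraMap hf r⟩
  rw [isIntegrallyClosed_iff (FractionRing R)]
  intro x hx
  obtain ⟨p, hp, hp0⟩ := hx
  have h1 : Polynomial.eval₂ (algebraMap A (FractionRing A)) (g x) (p.map (algebraMap R A)) = 0 := by
    rw [Polynomial.eval₂_map]
    have h2 : (algebraMap A (FractionRing A)).comp (algebraMap R A) =
        g.comp (algebraMap R (FractionRing R)) := by
      ext r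
      exact (hg r).symm
    rw [h2, ← Polynomial.hom_eval₂, hp0, map_zero]
  have h2 : IsIntegral A (g x) := ⟨p.map (algebraMap R A), hp.map _, h1⟩
  obtain ⟨s, hs⟩ := IsIntegrallyClosed.isIntegral_iff.1 h2
  have hps : Polynomial.eval₂ (algebraMap R A) s p = 0 := by
    apply hinj'
    rw [Polynomial.hom_eval₂, hs, map_zero, ← Polynomial.eval₂_map]
    exact h1
  obtain ⟨a, c, hc, hac⟩ := IsFractionRing.div_surjective (A := R) x
  have hc0 : c ≠ 0 := nonZeroDivisors.ne_zero hc
  have hcA : (c : A) ≠ 0 := fun h => hc0 (Subtype.ext h)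
  have hcs : (c : A) * s = (a : A) := by
    apply hinj'
    have h3 : algebraMap R (FractionRing R) c ≠ 0 := by
      intro h
      exact hc0 (IsFractionRing.injective R (FractionRing R) (h.trans (map_zero _).symm))
    have h4 : algebraMap R (FractionRing R) c * x = algebraMap R (FractionRing R) a := by
      rw [← hac, mul_div_cancel₀ _ h3]
    have h5 := congrArg g h4
    rw [map_mul, hg, hg, ← hs] at h5
    rw [map_mul]
    exact h5
  set N := p.natDegree with hN
  have hrel : s ^ N = -∑ i ∈ Finset.range N, (p.coeff i : A) * s ^ i := by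
    rw [Polynomial.eval₂_eq_sum_range, Finset.sum_range_succ, hp.coeff_natDegree, map_one, one_mul] at hps
    rw [eq_neg_iff_add_eq_zero, add_comm]
    exact hps
  have hcon : ∀ n : ℕ, (c : A) ^ N * s ^ n ∈ R := by
    intro n
    induction n using Nat.strong_induction_on with
    | _ n ih =>
      by_cases hn : n < N
      · have h3 : (c : A) ^ N * s ^ n = (c : A) ^ (N - n) * ((c : A) * s) ^ n := by
          rw [mul_pow, ← mul_assoc, ← pow_add, Nat.sub_add_cancel hn.le]
        rw [h3, hcs]
        exact Subalgebra.mul_mem _ (Subalgebra.pow_mem _ c.2 _) (Subalgebra.pow_mem _ a.2 _)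
      · have h3 : (c : A) ^ N * s ^ n =
            -∑ i ∈ Finset.range N, (p.coeff i : A) * ((c : A) ^ N * s ^ (i + (n - N))) := by
          have h4 : s ^ n = s ^ N * s ^ (n - N) := by
            rw [← pow_add, Nat.add_sub_cancel' (by omega)]
          rw [h4, hrel, neg_mul, mul_neg, Finset.sum_mul, Finset.mul_sum]
          refine congrArg Neg.neg (Finset.sum_congr rfl (fun i _ => ?_))
          rw [pow_add]
          ring
        rw [h3]
        refine Subalgebra.neg_mem _ (Subalgebra.sum_mem _ (fun i hi => ?_))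
        have := Finset.mem_range.1 hi
        exact Subalgebra.mul_mem _ (p.coeff i).2 (ih _ (by omega))
  have hsR : s ∈ R := h s c a c.2 hcA a.2 hcs
    ⟨(c : A) ^ N, Subalgebra.pow_mem _ c.2 _, pow_ne_zero N hcA, hcon⟩
  refine ⟨⟨s, hsR⟩, ?_⟩
  apply g.injective
  rw [hg]
  exact hs

private theorem ner_den (s : Ax ι) : ∃ (d : Px ι) (a : Rx ι), d ≠ 0 ∧ jR a = xA d * s := by
  classical
  obtain ⟨d, hd⟩ := IsLocalization.exist_integer_multiples_of_finset (nonZeroDivisors (Px ι))
    (s.support.image (fun m => coeff m s))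
  have h1 : ∀ m : ι →₀ ℕ, ∃ p : Px ι, pF p = pF (d : Px ι) * coeff m s := by
    intro m
    by_cases hm : m ∈ s.support
    · obtain ⟨p, hp⟩ := hd (coeff m s) (Finset.mem_image_of_mem _ hm)
      refine ⟨p, ?_⟩
      rw [pF_apply, hp, Algebra.smul_def]
      rfl
    · refine ⟨0, ?_⟩
      rw [notMem_support_iff.1 hm, mul_zero, map_zero]
  choose p hp using h1
  refine ⟨d, ∑ m ∈ s.support, monomial m (p m), nonZeroDivisors.ne_zero d.2, ?_⟩
  ext m
  rw [coeff_jR, xA_apply, coeff_C_mul, coeff_sum]
  simp only [coeff_monomial]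
  rw [Finset.sum_ite_eq' s.support m]
  split_ifs with hm
  · exact hp m
  · rw [notMem_support_iff.1 hm, mul_zero, map_zero]

private theorem ner_sub {m : ℕ} {f : Ax ι} (hf : Ld (m + 1) f) : Ld m (f - homogeneousComponent m f) := by
  intro k hk
  have h : homogeneousComponent k (homogeneousComponent m f) = if k = m then homogeneousComponent m f else 0 :=
    homogeneousComponent_of_mem (homogeneousComponent_isHomogeneous m f)
  rw [map_sub, h]
  split_ifs with h1
  · rw [h1, sub_self]
  · rw [hf k (by omega), sub_zero]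

private theorem ner_hcL {m : ℕ} (f : Ax ι) : Ld (m + 1) (homogeneousComponent m f) := by
  intro k hk
  have h : homogeneousComponent k (homogeneousComponent m f) = if k = m then homogeneousComponent m f else 0 :=
    homogeneousComponent_of_mem (homogeneousComponent_isHomogeneous m f)
  rw [h, if_neg (by omega)]

private theorem ner_mul {m n : ℕ} {f g : Ax ι} (hf : Ld (m + 1) f) (hg : Ld (n + 1) g) :
    homogeneousComponent (m + n) (f * g) = homogeneousComponent m f * homogeneousComponent n g := by
  have h1 : Ld (n + m) (g * (f - homogeneousComponent m f)) := Ld_mul hg (ner_sub hf)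
  have h2 : Ld (m + n) (homogeneousComponent m f * (g - homogeneousComponent n g)) :=
    Ld_mul (ner_hcL f) (ner_sub hg)
  have h3 : f * g = homogeneousComponent m f * homogeneousComponent n g +
      (g * (f - homogeneousComponent m f) +
        homogeneousComponent m f * (g - homogeneousComponent n g)) := by ring
  have h4 : (homogeneousComponent m f * homogeneousComponent n g).IsHomogeneous (m + n) :=
    (homogeneousComponent_isHomogeneous m f).mul (homogeneousComponent_isHomogeneous n g)
  have h5 : homogeneousComponent (m + n) (homogeneousComponent m f * homogeneousComponent n g) =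
      if m + n = m + n then homogeneousComponent m f * homogeneousComponent n g else 0 :=
    homogeneousComponent_of_mem h4
  rw [if_pos rfl] at h5
  rw [h3, map_add, map_add, h5, h1 (m + n) (by omega), h2 (m + n) le_rfl, add_zero, add_zero]

private theorem ner_pow {D : ℕ} {s : Ax ι} (hs : Ld (D + 1) s) (n : ℕ) :
    Ld (n * D + 1) (s ^ n) ∧ homogeneousComponent (n * D) (s ^ n) = homogeneousComponent D s ^ n := by
  induction n with
  | zero =>
    have h1 : (1 : Ax ι).IsHomogeneous 0 := isHomogeneous_one _ _
    have h2 : ∀ k, homogeneousComponent k (1 : Ax ι) = if k = 0 then 1 else 0 :=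
      fun k => homogeneousComponent_of_mem h1
    rw [pow_zero, pow_zero, Nat.zero_mul]
    refine ⟨fun k hk => ?_, ?_⟩
    · rw [h2, if_neg (by omega)]
    · rw [h2, if_pos rfl]
  | succ n ih =>
    have e : (n + 1) * D = n * D + D := by ring
    rw [pow_succ, pow_succ, e]
    refine ⟨?_, ?_⟩
    · have := Ld_mul ih.1 hs
      rwa [← add_assoc] at this
    · rw [ner_mul ih.1 hs, ih.2]

/-- an element integral over `M(W,k)^W` in a strong sense is in `M(W,k)^W`: if `c s^n ∈ M_k^W` for all `n` (`c ≠ 0` in
`M_k^W`) then `s ∈ M_k`. Induction on the `ξ`-degree: the leading components `c₀ s₀^n` are polynomial for all `n`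
(`Mk_leading`), so `s₀` is polynomial (`Rx` is a UFD, hence completely integrally closed); subtract a lift
(`Mk_lift_inv`). -/
theorem mem_Mk_of_conductor (W : Subgroup (V ≃ₗ[ℂ] V)) [Finite W] (k : Submodule ℂ V → ℤ → ℂ) (hk : Adm W k)
    (b : Basis ι ℂ V) {s c : Ax ι} (hs : InvA W b s) (hc : c ∈ MkW W k hk b) (hc0 : c ≠ 0)
    (h : ∀ n : ℕ, c * s ^ n ∈ MkW W k hk b) : s ∈ Mk W k b := by
  classical
  -- the degree of `c`
  have hex : ∃ E, Ld (E + 1) c ∧ homogeneousComponent E c ≠ 0 := by
    have h1 : ∃ D, Ld D c := exists_Ld c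
    have h2 := Nat.find_spec h1
    have h3 : Nat.find h1 ≠ 0 := by
      intro h0
      rw [h0] at h2
      exact hc0 ((Ld_zero_iff c).1 h2)
    obtain ⟨E, hE⟩ := Nat.exists_eq_succ_of_ne_zero h3
    rw [hE] at h2
    refine ⟨E, h2, fun h0 => ?_⟩
    have h4 : Ld E c := by
      intro k hk'
      rcases Nat.eq_or_lt_of_le hk' with h5 | h5
      · rw [← h5]
        exact h0
      · exact h2 k h5
    exact Nat.find_min h1 (m := E) (by omega) h4
  obtain ⟨E, hE, hE0⟩ := hex
  have key : ∀ (D : ℕ) (s : Ax ι), Ld D s → InvA W b s → (∀ n : ℕ, c * s ^ n ∈ MkW W k hk b) →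
      s ∈ Mk W k b := by
    intro D
    induction D with
    | zero =>
      intro s hs _ _
      rw [(Ld_zero_iff s).1 hs]
      exact (Mk W k b).zero_mem
    | succ D ih =>
      intro s hD hs h
      -- leading components
      have h1 : ∀ n : ℕ, ∃ q : Rx ι, jR q = homogeneousComponent E c * homogeneousComponent D s ^ n := by
        intro n
        have hp := ner_pow hD n
        have hm := ner_mul hE hp.1
        rw [hp.2] at hm
        rw [← hm]
        refine Mk_leading W k hk b (h n).1 ?_
        have := Ld_mul hE hp.1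
        rwa [← add_assoc] at this
      choose q hq using h1
      obtain ⟨d, a, hd, ha⟩ := ner_den (homogeneousComponent D s)
      have hp0 : q 0 ≠ 0 := by
        intro h0
        have h2 := hq 0
        rw [h0, map_zero, pow_zero, mul_one] at h2
        exact hE0 h2.symm
      have hdvd : (C d : Rx ι) ∣ a := by
        refine ner_dvd hp0 (fun n => ⟨q n, ?_⟩)
        apply jR_injective
        rw [map_mul, map_mul, map_pow, map_pow, hq 0, hq n, ha, jR_C, pow_zero, mul_one]
        ring
      obtain ⟨r, hr⟩ := hdvd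
      have hxd : (xA d : Ax ι) ≠ 0 := by
        intro h0
        exact hd (xA_injective (h0.trans (map_zero _).symm))
      have hr' : jR r = homogeneousComponent D s := by
        rw [hr, map_mul, jR_C] at ha
        exact mul_left_cancel₀ hxd ha
      have hrh : r.IsHomogeneous D := by
        have h2 : homogeneousComponent D r = r := by
          apply jR_injective
          rw [← homogeneousComponent_jR, hr']
          have h3 : homogeneousComponent D (homogeneousComponent D s) =
              if D = D then homogeneousComponent D s else 0 :=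
            homogeneousComponent_of_mem (homogeneousComponent_isHomogeneous D s)
          rw [h3, if_pos rfl]
        rw [← h2]
        exact homogeneousComponent_isHomogeneous D r
      have hri : ∀ g ∈ W, trR b b g r = r := by
        intro g hg
        apply jR_injective
        rw [jR_trR, hr', ← homogeneousComponent_trA]
        exact congrArg _ (hs g hg)
      obtain ⟨m, hm, hmi, hmL⟩ := Mk_lift_inv W k hk b hrh hri
      have hmW : m ∈ MkW W k hk b := ⟨hm, hmi⟩
      have h5 : s - m ∈ Mk W k b := by
        refine ih (s - m) ?_ ?_ ?_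
        · have h6 := Ld_sub (ner_sub hD) hmL
          rw [hr'] at h6
          have h7 : s - homogeneousComponent D s - (m - homogeneousComponent D s) = s - m := by ring
          rwa [h7] at h6
        · intro g hg
          rw [map_sub, hs g hg, hmi g hg]
        · intro n
          rw [sub_eq_add_neg, add_pow, Finset.mul_sum]
          refine Subalgebra.sum_mem _ (fun i _ => ?_)
          have h8 : c * (s ^ i * (-m) ^ (n - i) * ((n.choose i : ℕ) : Ax ι)) =
              (c * s ^ i) * ((-m) ^ (n - i) * ((n.choose i : ℕ) : Ax ι)) := by ring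
          rw [h8]
          refine Subalgebra.mul_mem _ (h i) (Subalgebra.mul_mem _ ?_ ?_)
          · exact Subalgebra.pow_mem _ (Subalgebra.neg_mem _ hmW) _
          · exact Subalgebra.natCast_mem _ _
      have h9 := (Mk W k b).add_mem h5 hm
      rwa [sub_add_cancel] at h9
  obtain ⟨D, hD⟩ := exists_Ld s
  exact key D s hD hs h

/-- `M_k^W` is integrally closed. -/
theorem isIntegrallyClosed_MkW (W : Subgroup (V ≃ₗ[ℂ] V)) [Finite W] (k : Submodule ℂ V → ℤ → ℂ) (hk : Adm W k)
    (b : Basis ι ℂ V) : IsIntegrallyClosed (MkW W k hk b) := by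
  have hA : IsIntegrallyClosed (Ax ι) := inferInstance
  refine ner_closed (A := Ax ι) (MkW W k hk b) (fun s c a hc hc0 ha hcs he => ?_)
  obtain ⟨e, he, he0, hen⟩ := he
  have hsi : InvA W b s := by
    intro w hw
    have h3 : act b w (c * s) = act b w a := by rw [hcs]
    rw [map_mul, hc.2 w hw, ha.2 w hw, ← hcs] at h3
    exact mul_left_cancel₀ hc0 h3
  exact ⟨mem_Mk_of_conductor W k hk b hsi he he0 hen, hsi⟩

end

end Pool.Agent.CM64
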