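import Pool.Agent.LibCM64.NerA

/-! The algebra of restrictions of `M(W,k)^W` to `U × U*`; its normalisation. -/

set_option linter.unusedSectionVars false

namespace Pool.Agent.CM64

open Module MvPolynomial

section

variable {V : Type} [AddCommGroup V] [Module ℂ V] [FiniteDimensional ℂ V]
variable {ι : Type} [Fintype ι] [DecidableEq ι] {κ : Type} [Fintype κ] [DecidableEq κ]

private theorem nerB_Del_aux (W : Subgroup (V ≃ₗ[ℂ] V)) [Finite W] (k : Submodule ℂ V → ℤ → ℂ) (hk : Adm W k)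
    (b : Basis ι ℂ V) (D : ℕ) : ∀ p : Rx ι, (∀ n, D ≤ n → homogeneousComponent n p = 0) →
      ∃ N : ℕ, ∀ N' ≥ N, xA (Del W b ^ N') * jR p ∈ Mk W k b := by
  induction D with
  | zero =>
    intro p hp
    have h0 : p = 0 := by
      rw [← sum_homogeneousComponent p]
      exact Finset.sum_eq_zero (fun i _ => hp i (Nat.zero_le i))
    refine ⟨0, fun N' _ => ?_⟩
    rw [h0, map_zero, mul_zero]
    exact (Mk W k b).zero_mem
  | succ D ih =>
    intro p hp
    have hU : Ups W k b p ∈ Mk W k b := (mem_Mk_iff_Ups W k hk b _).2 ⟨p, rfl⟩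
    have hL : Ld D (Ups W k b p - jR p) := Ld_Ups_sub W k b (fun n hn => hp n hn)
    obtain ⟨M, q, hq⟩ := Mk_den W k b hU
    have hr : jR (q - C (Del W b ^ M) * p) = xA (Del W b ^ M) * (Ups W k b p - jR p) := by
      rw [map_sub, map_mul, jR_C, hq, mul_sub]
    have hdeg : ∀ n, D ≤ n → homogeneousComponent n (q - C (Del W b ^ M) * p) = 0 := by
      intro n hn
      apply jR_injective
      rw [← homogeneousComponent_jR, hr, map_zero]
      have h1 := Ld_C_mul (pF (Del W b ^ M)) hL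
      exact h1 n hn
    obtain ⟨N, hN⟩ := ih _ hdeg
    refine ⟨N + M, fun N' hN' => ?_⟩
    obtain ⟨N₁, rfl⟩ : ∃ N₁, N' = N₁ + M := ⟨N' - M, by omega⟩
    have h2 := hN N₁ (by omega)
    have h3 : xA (Del W b ^ (N₁ + M)) * jR p
        = xA (Del W b ^ (N₁ + M)) * Ups W k b p
          - xA (Del W b ^ N₁) * jR (q - C (Del W b ^ M) * p) := by
      rw [hr, pow_add, map_mul]
      ring
    rw [h3]
    exact (Mk W k b).sub_mem (Mk_xA W k hU _) h2

/-- powers of `Δ` times polynomials are in `M_k`: by induction on the `ξ`-degree, using `Ups p`. -/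
theorem Del_pow_mul_mem (W : Subgroup (V ≃ₗ[ℂ] V)) [Finite W] (k : Submodule ℂ V → ℤ → ℂ) (hk : Adm W k)
    (b : Basis ι ℂ V) (p : Rx ι) : ∃ N : ℕ, ∀ N' ≥ N, xA (Del W b ^ N') * jR p ∈ Mk W k b := by
  refine nerB_Del_aux W k hk b (p.totalDegree + 1) p (fun n hn => ?_)
  exact homogeneousComponent_eq_zero n p (by omega)

private theorem nerB_trP_smul_Del (W : Subgroup (V ≃ₗ[ℂ] V)) [Finite W] (b : Basis ι ℂ V)
    {w : V ≃ₗ[ℂ] V} (hw : w ∈ W) : ∃ c : ℂ, trP b b w (Del W b) = c • Del W b := by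
  classical
  have hT : Tp w W W (fun _ _ => (0 : ℂ)) (fun _ _ => (0 : ℂ)) :=
    tp_of_mem (W := W) ⟨fun _ _ _ _ _ => rfl, fun _ _ _ => rfl⟩ hw
  -- the constants
  have hc : ∀ H : Submodule ℂ V, ∃ c : ℂ, H ∈ arrF W →
      xl b ((lf H).comp (w.symm : V →ₗ[ℂ] V)) = c • xl b (lf (H.map (w : V →ₗ[ℂ] V))) := by
    intro H
    by_cases hH : H ∈ arrF W
    · obtain ⟨c, hc, h⟩ := lf_map w H (arr_finrank W (mem_arrF.1 hH))
      refine ⟨c⁻¹, fun _ => ?_⟩
      rw [h, map_smul, smul_smul, inv_mul_cancel₀ hc, one_smul]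
    · exact ⟨0, fun h => absurd h hH⟩
  choose c hc using hc
  refine ⟨∏ H ∈ arrF W, c H, ?_⟩
  have himg : ∏ H ∈ arrF W, xl b (lf (H.map (w : V →ₗ[ℂ] V))) = ∏ H ∈ arrF W, xl b (lf H) := by
    have hinj : Function.Injective (fun H : Submodule ℂ V => H.map (w : V →ₗ[ℂ] V)) :=
      Submodule.map_injective_of_injective w.injective
    rw [← Finset.prod_image (s := arrF W) (g := fun H : Submodule ℂ V => H.map (w : V →ₗ[ℂ] V))
      (f := fun H => xl b (lf H)) (fun x _ y _ h => hinj h)]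
    congr 1
    apply Finset.eq_of_subset_of_card_le
    · intro H' hH'
      obtain ⟨H, hH, rfl⟩ := Finset.mem_image.1 hH'
      exact mem_arrF.2 ((mem_arr_map hT H).2 (mem_arrF.1 hH))
    · rw [Finset.card_image_of_injective _ hinj]
  rw [Del, map_prod]
  have h1 : ∀ H ∈ arrF W, trP b b w (xl b (lf H)) = C (c H) * xl b (lf (H.map (w : V →ₗ[ℂ] V))) := by
    intro H hH
    rw [trP_xl, hc H hH, MvPolynomial.smul_eq_C_mul]
  rw [Finset.prod_congr rfl h1, Finset.prod_mul_distrib, himg, ← map_prod, MvPolynomial.smul_eq_C_mul]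

/-- `Δ^{|W|}` is `W`-invariant. -/
theorem Del_pow_inv (W : Subgroup (V ≃ₗ[ℂ] V)) [Finite W] (b : Basis ι ℂ V) (n : ℕ) :
    PInv W b (Del W b ^ (Nat.card W * n)) := by
  intro w hw
  obtain ⟨c, hc⟩ := nerB_trP_smul_Del W b hw
  have hpow : ∀ m : ℕ, trP b b (w ^ m) (Del W b) = c ^ m • Del W b := by
    intro m
    induction m with
    | zero =>
      rw [pow_zero, pow_zero, one_smul]
      change trP b b (LinearEquiv.refl ℂ V) _ = _
      rw [trP_refl, AlgHom.id_apply]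
    | succ m ih =>
      have h1 : trP b b (w ^ (m + 1)) (Del W b) = trP b b (w ^ m) (trP b b w (Del W b)) := by
        rw [trP_trans_apply]
        rfl
      rw [h1, hc, map_smul, ih, smul_smul, pow_succ']
  have hcard : w ^ Nat.card W = 1 := by
    have h1 := pow_card_eq_one' (x := (⟨w, hw⟩ : W))
    exact congrArg (fun g : W => (g : V ≃ₗ[ℂ] V)) h1
  have hc1 : c ^ Nat.card W = 1 := by
    have h1 := hpow (Nat.card W)
    rw [hcard] at h1
    have h2 : trP b b (1 : V ≃ₗ[ℂ] V) (Del W b) = Del W b := by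
      change trP b b (LinearEquiv.refl ℂ V) _ = _
      rw [trP_refl, AlgHom.id_apply]
    rw [h2] at h1
    have h3 : (c ^ Nat.card W - 1) • Del W b = 0 := by
      rw [sub_smul, one_smul, ← h1, sub_self]
    rcases smul_eq_zero.1 h3 with h4 | h4
    · exact sub_eq_zero.1 h4
    · exact absurd h4 (Del_ne_zero W b)
  rw [map_pow, hc, smul_pow, pow_mul, hc1, one_pow, one_smul]

private theorem nerB_resP_surj (τ : V ≃ₗ[ℂ] V) (b : Basis ι ℂ V)
    (bU : Basis κ ℂ ↥(fixSub τ)) : Function.Surjective (resP τ b bU) := by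
  intro c
  induction c using MvPolynomial.induction_on with
  | C a => exact ⟨C a, (resP τ b bU).commutes a⟩
  | add p q hp hq =>
    obtain ⟨p', hp'⟩ := hp
    obtain ⟨q', hq'⟩ := hq
    exact ⟨p' + q', by rw [map_add, hp', hq']⟩
  | mul_X p j hp =>
    obtain ⟨p', hp'⟩ := hp
    obtain ⟨f, hf⟩ := LinearMap.exists_extend (bU.coord j)
    refine ⟨p' * xl b f, ?_⟩
    rw [map_mul, hp', resP_xl, hf, xl_coord]

/-- nonzero polynomials on `U` divide restrictions of invariants which are nonzero on `U` (`ℂ[U]` is integral over the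
restrictions of `ℂ[V]^W`). -/
theorem exists_inv_multiple (W : Subgroup (V ≃ₗ[ℂ] V)) [Finite W] (τ : V ≃ₗ[ℂ] V) (b : Basis ι ℂ V)
    (bU : Basis κ ℂ ↥(fixSub τ)) {d : Px κ} (hd : d ≠ 0) :
    ∃ D : Px ι, PInv W b D ∧ resP τ b bU D ≠ 0 ∧ d ∣ resP τ b bU D := by
  obtain ⟨p', hp'⟩ := nerB_resP_surj τ b bU d
  have hint : IsIntegral (invP W b) p' := isIntegral_invP W b p'
  let R : Subalgebra ℂ (Px κ) := (invP W b).map (resP τ b bU)
  let φ : invP W b →+* R :=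
    (((resP τ b bU).comp (invP W b).val).codRestrict R
      (fun x => ⟨x.1, x.2, rfl⟩) : invP W b →ₐ[ℂ] R).toRingHom
  have hint' : IsIntegral R (resP τ b bU p') := by
    refine IsIntegral.map_of_comp_eq φ (resP τ b bU).toRingHom ?_ hint
    ext x
    rfl
  rw [hp'] at hint'
  have hne := Ideal.comap_ne_bot_of_integral_mem (R := R) (I := Ideal.span {d}) hd
    (Ideal.mem_span_singleton_self d) hint'
  obtain ⟨r, hr, hr0⟩ := Submodule.exists_mem_ne_zero_of_ne_bot hne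
  obtain ⟨D, hD, hDr⟩ := r.2
  refine ⟨D, hD, ?_, ?_⟩
  · have h1 : (resP τ b bU) D = r := hDr
    rw [h1]
    intro h0
    exact hr0 (Subtype.ext h0)
  · have h1 : (resP τ b bU) D = r := hDr
    rw [h1]
    exact Ideal.mem_span_singleton.1 (Ideal.mem_comap.1 hr)

private theorem nerB_not_mem {W : Subgroup (V ≃ₗ[ℂ] V)} {τ : V ≃ₗ[ℂ] V} (hτ : Normalizes τ W)
    {u : V} (hu : ∀ g ∈ W, g u = u → g = 1) (hτu : τ u = u) {c : V ≃ₗ[ℂ] V} (hc : c ∈ W)
    (hne : c * τ ≠ τ * c) : c u ∉ fixSub τ := by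
  intro hmem
  have h1 : τ (c u) = c u := hmem
  have h2 : τ * c * τ⁻¹ ∈ W := (hτ c).1 hc
  have h3 : τ⁻¹ u = u := by
    calc τ⁻¹ u = τ⁻¹ (τ u) := by rw [hτu]
      _ = u := by rw [← LinearEquiv.mul_apply, inv_mul_cancel]; rfl
  have h4 : (c⁻¹ * (τ * c * τ⁻¹)) u = u := by
    rw [LinearEquiv.mul_apply, LinearEquiv.mul_apply, LinearEquiv.mul_apply, h3, h1,
      ← LinearEquiv.mul_apply, inv_mul_cancel]
    rfl
  have h5 := hu _ (W.mul_mem (W.inv_mem hc) h2) h4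
  apply hne
  have h6 : τ * c * τ⁻¹ = c := by
    have := congrArg (fun x => c * x) h5
    simpa [mul_assoc] using this
  calc c * τ = (τ * c * τ⁻¹) * τ := by rw [h6]
    _ = τ * c := by rw [mul_assoc, inv_mul_cancel, mul_one]

/-- a linear form vanishing on `U` such that `v ∘ c` does not vanish on `U` for `c ∈ W` not commuting with `τ`. -/
theorem exists_generic_form (W : Subgroup (V ≃ₗ[ℂ] V)) [Finite W] {τ : V ≃ₗ[ℂ] V} (hτ : Normalizes τ W)
    {u : V} (hu : ∀ g ∈ W, g u = u → g = 1) (hτu : τ u = u) :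
    ∃ v : Dual ℂ V, (∀ x ∈ fixSub τ, v x = 0) ∧
      ∀ c ∈ W, c * τ ≠ τ * c → ∃ x ∈ fixSub τ, v (c x) ≠ 0 := by
  classical
  let S : Set (V ≃ₗ[ℂ] V) := {c | c ∈ W ∧ c * τ ≠ τ * c}
  have hS : S.Finite := Set.Finite.subset (Set.toFinite (W : Set (V ≃ₗ[ℂ] V))) (fun _ h => h.1)
  have : Finite S := hS.to_subtype
  obtain ⟨v, hv, hv'⟩ := Module.Dual.exists_forall_mem_ne_zero_of_forall_exists
    (K := ℂ) (M := Dual ℂ V) (ι := S) (fixSub τ).dualAnnihilator
    (fun c => Dual.eval ℂ V ((c : V ≃ₗ[ℂ] V) u)) (by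
      intro c
      have h1 : (c : V ≃ₗ[ℂ] V) u ∉ fixSub τ := nerB_not_mem hτ hu hτu c.2.1 c.2.2
      by_contra hcon
      push Not at hcon
      apply h1
      rw [← Subspace.forall_mem_dualAnnihilator_apply_eq_zero_iff]
      intro f hf
      exact hcon f hf)
  refine ⟨v, fun x hx => (Submodule.mem_dualAnnihilator v).1 hv x hx, fun c hc hne => ?_⟩
  exact ⟨u, hτu, hv' ⟨c, hc, hne⟩⟩

private theorem nerB_exists_fixGrp {W : Subgroup (V ≃ₗ[ℂ] V)} {τ : V ≃ₗ[ℂ] V} {w : V ≃ₗ[ℂ] V} (hw : w ∈ W)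
    (hc : w * τ = τ * w) :
    ∃ g ∈ fixGrp W τ, ∀ u : ↥(fixSub τ), ((g u : ↥(fixSub τ)) : V) = w (u : V) := by
  have h1 : ∀ x ∈ fixSub τ, w x ∈ fixSub τ := by
    intro x hx
    have : τ (w x) = w (τ x) := by
      rw [← LinearEquiv.mul_apply, ← LinearEquiv.mul_apply, hc]
    rw [mem_fixSub, this, mem_fixSub.1 hx]
  have hc' : w⁻¹ * τ = τ * w⁻¹ := by
    rw [eq_comm, mul_inv_eq_iff_eq_mul, mul_assoc, ← hc, ← mul_assoc, inv_mul_cancel, one_mul]
  have h2 : ∀ x ∈ fixSub τ, w⁻¹ x ∈ fixSub τ := by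
    intro x hx
    have : τ (w⁻¹ x) = w⁻¹ (τ x) := by
      rw [← LinearEquiv.mul_apply, ← LinearEquiv.mul_apply, hc']
    rw [mem_fixSub, this, mem_fixSub.1 hx]
  let f : ↥(fixSub τ) →ₗ[ℂ] ↥(fixSub τ) := (w : V →ₗ[ℂ] V).restrict h1
  let f' : ↥(fixSub τ) →ₗ[ℂ] ↥(fixSub τ) := ((w⁻¹ : V ≃ₗ[ℂ] V) : V →ₗ[ℂ] V).restrict h2
  let g : ↥(fixSub τ) ≃ₗ[ℂ] ↥(fixSub τ) := LinearEquiv.ofLinearMap f f'
    (by
      apply LinearMap.ext
      intro x
      apply Subtype.ext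
      change w (w⁻¹ (x : V)) = x
      rw [← LinearEquiv.mul_apply, mul_inv_cancel]
      rfl)
    (by
      apply LinearMap.ext
      intro x
      apply Subtype.ext
      change w⁻¹ (w (x : V)) = x
      rw [← LinearEquiv.mul_apply, inv_mul_cancel]
      rfl)
  exact ⟨g, ⟨w, hw, hc, fun _ => rfl⟩, fun _ => rfl⟩

private theorem nerB_trR_inv {W : Subgroup (V ≃ₗ[ℂ] V)} {τ : V ≃ₗ[ℂ] V} (hfin : IsOfFinOrder τ)
    {b : Basis ι ℂ V} {bU : Basis κ ℂ ↥(fixSub τ)} {p : Rx κ} (hp : ∀ g ∈ fixGrp W τ, trR bU bU g p = p)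
    {q : Rx ι} (hq : resR τ b bU q = p) {w : V ≃ₗ[ℂ] V} (hw : w ∈ W) (hc : w * τ = τ * w) :
    resR τ b bU (trR b b w q) = p := by
  obtain ⟨g, hg, hgw⟩ := nerB_exists_fixGrp hw hc
  have h1 : ResRel τ b bU (jR q) (jR p) := by
    rw [← hq]
    exact ResRel.ofR q
  have h2 := ResRel.equivar hfin hc hgw h1
  rw [← jR_trR, ← jR_trR, hp g hg] at h2
  have h3 := ResRel.unique h2 (ResRel.ofR _)
  exact (jR_injective h3).symm

/-- the `E`-trick: for a `G`-invariant `p ∈ ℂ[U][ξ]` there are `F ∈ ℂ[V × V*]^W` and `D ∈ ℂ[V]^W`, `D|_U ≠ 0`, with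
`F|_{U×U*} = D|_U p`: `E = ∏_{c ∈ W, cτ ≠ τc} v ∘ c`, `F = ∑_w w(E p̃)`, `D = ∑_w w(E)`, where `p̃ = p ∘ π`. -/
theorem exists_E_trick (W : Subgroup (V ≃ₗ[ℂ] V)) [Finite W] {τ : V ≃ₗ[ℂ] V} (hτ : Normalizes τ W)
    (hfin : IsOfFinOrder τ) {u : V} (hu : ∀ g ∈ W, g u = u → g = 1) (hτu : τ u = u) (b : Basis ι ℂ V)
    (bU : Basis κ ℂ ↥(fixSub τ)) (p : Rx κ) (hp : ∀ g ∈ fixGrp W τ, trR bU bU g p = p) :
    ∃ (F : Rx ι) (D : Px ι), (∀ w ∈ W, trR b b w F = F) ∧ PInv W b D ∧ resP τ b bU D ≠ 0 ∧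
      resR τ b bU F = C (resP τ b bU D) * p := by
  classical
  obtain ⟨v, hv0, hv⟩ := exists_generic_form W hτ hu hτu
  obtain ⟨q, hq⟩ := resR_surjective τ b bU hfin p
  -- sums over the group can be reindexed
  have hreidx : ∀ {M : Type} [AddCommMonoid M] (Φ : (V ≃ₗ[ℂ] V) → M) {h : V ≃ₗ[ℂ] V}, h ∈ W →
      ∑ g ∈ elF W, Φ (h * g) = ∑ g ∈ elF W, Φ g := by
    intro M _ Φ h hh
    refine Finset.sum_nbij' (fun g => h * g) (fun g => h⁻¹ * g) ?_ ?_ ?_ ?_ ?_
    · intro g hg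
      exact (mem_elF W).2 (W.mul_mem hh ((mem_elF W).1 hg))
    · intro g hg
      exact (mem_elF W).2 (W.mul_mem (W.inv_mem hh) ((mem_elF W).1 hg))
    · intro g _
      simp
    · intro g _
      simp
    · intro g _
      rfl
  set S : Finset (V ≃ₗ[ℂ] V) := (elF W).filter (fun c => c * τ ≠ τ * c) with hS
  have memS : ∀ c, c ∈ S ↔ c ∈ W ∧ c * τ ≠ τ * c := by
    intro c
    rw [hS, Finset.mem_filter, mem_elF]
  set E : Px ι := ∏ c ∈ S, xl b (v.comp (c : V →ₗ[ℂ] V)) with hE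
  have hEw : ∀ w : V ≃ₗ[ℂ] V, trP b b w E = ∏ c ∈ S, xl b (v.comp ((c * w⁻¹ : V ≃ₗ[ℂ] V) : V →ₗ[ℂ] V)) := by
    intro w
    rw [hE, map_prod]
    refine Finset.prod_congr rfl (fun c _ => ?_)
    rw [trP_xl]
    rfl
  -- `w ∈ W` commuting with `τ` fixes `E`
  have hE1 : ∀ w ∈ W, w * τ = τ * w → trP b b w E = E := by
    intro w hw hc
    have hc' : w⁻¹ * τ = τ * w⁻¹ := by
      rw [eq_comm, mul_inv_eq_iff_eq_mul, mul_assoc, ← hc, ← mul_assoc, inv_mul_cancel, one_mul]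
    rw [hEw, hE]
    refine Finset.prod_nbij' (fun c => c * w⁻¹) (fun c => c * w) ?_ ?_ ?_ ?_ ?_
    · intro c hcS
      rw [memS] at hcS ⊢
      refine ⟨W.mul_mem hcS.1 (W.inv_mem hw), fun h => hcS.2 ?_⟩
      have h2 : c * τ * w⁻¹ = τ * c * w⁻¹ := by
        rw [mul_assoc c τ, ← hc', ← mul_assoc, h, mul_assoc]
      exact mul_right_cancel h2
    · intro c hcS
      rw [memS] at hcS ⊢
      refine ⟨W.mul_mem hcS.1 hw, fun h => hcS.2 ?_⟩
      have h2 : c * τ * w = τ * c * w := by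
        rw [mul_assoc c τ, ← hc, ← mul_assoc, h, mul_assoc]
      exact mul_right_cancel h2
    · intro c _
      simp
    · intro c _
      simp
    · intro c _
      rfl
  -- the other `w ∈ W` make `E` vanish on `U`
  have hE0 : ∀ w ∈ W, w * τ ≠ τ * w → resP τ b bU (trP b b w E) = 0 := by
    intro w hw hc
    rw [hEw, map_prod]
    refine Finset.prod_eq_zero ((memS w).2 ⟨hw, hc⟩) ?_
    rw [resP_xl]
    have h1 : (v.comp ((w * w⁻¹ : V ≃ₗ[ℂ] V) : V →ₗ[ℂ] V)).comp (fixSub τ).subtype = 0 := by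
      apply LinearMap.ext
      intro x
      rw [mul_inv_cancel]
      exact hv0 x x.2
    rw [h1, map_zero]
  have hEU : resP τ b bU E ≠ 0 := by
    rw [hE, map_prod]
    refine Finset.prod_ne_zero_iff.2 (fun c hcS => ?_)
    rw [memS] at hcS
    obtain ⟨x, hx, hvx⟩ := hv c hcS.1 hcS.2
    rw [resP_xl]
    intro h0
    apply hvx
    have h1 := xl_injective bU (h0.trans (map_zero (xl bU)).symm)
    exact congrArg (fun f : Dual ℂ ↥(fixSub τ) => f ⟨x, hx⟩) h1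
  -- the number of elements commuting with `τ`
  set T : Finset (V ≃ₗ[ℂ] V) := (elF W).filter (fun c => c * τ = τ * c) with hT
  have hTcard : (T.card : ℂ) ≠ 0 := by
    have h1 : (1 : V ≃ₗ[ℂ] V) ∈ T := by
      rw [hT, Finset.mem_filter, mem_elF]
      exact ⟨W.one_mem, by rw [one_mul, mul_one]⟩
    exact_mod_cast (Finset.card_pos.2 ⟨1, h1⟩).ne'
  have htrR_mul : ∀ (h g : V ≃ₗ[ℂ] V) (x : Rx ι), trR b b h (trR b b g x) = trR b b (h * g) x :=
    fun h g x => trR_trans_apply b b b g h x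
  have htrP_mul : ∀ (h g : V ≃ₗ[ℂ] V) (x : Px ι), trP b b h (trP b b g x) = trP b b (h * g) x :=
    fun h g x => trP_trans_apply b b b g h x
  have hD : resP τ b bU (∑ w ∈ elF W, trP b b w E) = (T.card : ℂ) • resP τ b bU E := by
    rw [map_sum, ← Finset.sum_filter_add_sum_filter_not (elF W) (fun c => c * τ = τ * c)]
    have h1 : ∑ w ∈ (elF W).filter (fun c => ¬ c * τ = τ * c), resP τ b bU (trP b b w E) = 0 := by
      refine Finset.sum_eq_zero (fun w hw => ?_)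
      rw [Finset.mem_filter, mem_elF] at hw
      exact hE0 w hw.1 hw.2
    have h2 : ∑ w ∈ (elF W).filter (fun c => c * τ = τ * c), resP τ b bU (trP b b w E)
        = ∑ w ∈ T, resP τ b bU E := by
      refine Finset.sum_congr rfl (fun w hw => ?_)
      rw [Finset.mem_filter, mem_elF] at hw
      rw [hE1 w hw.1 hw.2]
    rw [h1, h2, add_zero, Finset.sum_const, Nat.cast_smul_eq_nsmul ℂ]
  refine ⟨∑ w ∈ elF W, trR b b w (C E * q), ∑ w ∈ elF W, trP b b w E, ?_, ?_, ?_, ?_⟩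
  · intro h hh
    rw [map_sum, ← hreidx (fun g => trR b b g (C E * q)) hh]
    exact Finset.sum_congr rfl (fun g _ => htrR_mul h g _)
  · intro h hh
    rw [map_sum, ← hreidx (fun g => trP b b g E) hh]
    exact Finset.sum_congr rfl (fun g _ => htrP_mul h g _)
  · rw [hD]
    exact smul_ne_zero hTcard hEU
  · rw [hD, map_sum]
    rw [← Finset.sum_filter_add_sum_filter_not (elF W) (fun c => c * τ = τ * c)]
    have h1 : ∑ w ∈ (elF W).filter (fun c => ¬ c * τ = τ * c), resR τ b bU (trR b b w (C E * q)) = 0 := by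
      refine Finset.sum_eq_zero (fun w hw => ?_)
      rw [Finset.mem_filter, mem_elF] at hw
      rw [map_mul, map_mul, trR_C, resR_C, hE0 w hw.1 hw.2, map_zero, zero_mul]
    have h2 : ∑ w ∈ (elF W).filter (fun c => c * τ = τ * c), resR τ b bU (trR b b w (C E * q))
        = ∑ w ∈ T, C (resP τ b bU E) * p := by
      refine Finset.sum_congr rfl (fun w hw => ?_)
      rw [Finset.mem_filter, mem_elF] at hw
      rw [map_mul, map_mul, trR_C, resR_C, hE1 w hw.1 hw.2, nerB_trR_inv hfin hp hq hw.1 hw.2]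
    rw [h1, h2, add_zero, Finset.sum_const, ← Nat.cast_smul_eq_nsmul ℂ]
    have h3 : (C ((T.card : ℂ) • resP τ b bU E) : Rx κ) = (T.card : ℂ) • C (resP τ b bU E) := by
      exact map_smul (Algebra.algHom ℂ (Px κ) (Rx κ)) (T.card : ℂ) (resP τ b bU E)
    rw [h3, smul_mul_assoc]

/-- birationality: every `s ∈ M(G,l)^G` is a quotient of restrictions of elements of `M(W,k)^W`; the denominator is the
restriction of an element of `ℂ[V]^W`. -/
theorem birational (W : Subgroup (V ≃ₗ[ℂ] V)) [Finite W] (hW : ReflGen W) {τ : V ≃ₗ[ℂ] V} (hτ : Normalizes τ W)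
    (hfin : IsOfFinOrder τ) (hreg : IsRegular W τ) (k : Submodule ℂ V → ℤ → ℂ) (hk : Adm W k) (b : Basis ι ℂ V)
    (bU : Basis κ ℂ ↥(fixSub τ)) (l : Submodule ℂ ↥(fixSub τ) → ℤ → ℂ) (hl : Adm (fixGrp W τ) l) {s : Ax κ}
    (hs : s ∈ MkW (fixGrp W τ) l hl bU) :
    ∃ D : Px ι, PInv W b D ∧ resP τ b bU D ≠ 0 ∧ xA (resP τ b bU D) * s ∈ BW W τ k hk b bU := by
  obtain ⟨hsM, hsI⟩ := hs
  obtain ⟨u, hτu, hu⟩ := free_of_isRegular W hW hreg
  obtain ⟨N, p0, hp0⟩ := Mk_den (fixGrp W τ) l bU hsM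
  have hd : Del (fixGrp W τ) bU ^ N ≠ 0 := pow_ne_zero _ (Del_ne_zero (fixGrp W τ) bU)
  obtain ⟨D1, hD1, hD1U, e, he⟩ := exists_inv_multiple W τ b bU hd
  -- `D1|_U s` is polynomial
  have hp1 : jR (C e * p0) = xA (resP τ b bU D1) * s := by
    rw [map_mul, jR_C, hp0, he, map_mul]
    ring
  have hinv1 : InvA (fixGrp W τ) bU (xA (resP τ b bU D1)) := by
    refine res_inv (W := W) hfin (b := b) (z := xA D1) ?_ (ResRel.ofP D1)
    intro g hg
    rw [act, trA_xA, hD1 g hg]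
  have hp1inv : ∀ g ∈ fixGrp W τ, trR bU bU g (C e * p0) = C e * p0 := by
    intro g hg
    apply jR_injective
    have h1 := hinv1 g hg
    have h2 := hsI g hg
    rw [act] at h1 h2
    rw [jR_trR, hp1, map_mul, h1, h2]
  obtain ⟨F, D2, hF, hD2, hD2U, hFr⟩ := exists_E_trick W hτ hfin hu hτu b bU _ hp1inv
  obtain ⟨M, hM⟩ := Del_pow_mul_mem W k hk b F
  have hM' : M ≤ Nat.card W * M := Nat.le_mul_of_pos_left M Nat.card_pos
  have hΔ := Del_pow_inv W b M
  have hΔU : resP τ b bU (Del W b ^ (Nat.card W * M)) ≠ 0 := by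
    rw [map_pow]
    exact pow_ne_zero _ (resP_Del_ne_zero W τ hreg b bU)
  refine ⟨Del W b ^ (Nat.card W * M) * (D2 * D1), ?_, ?_, ?_⟩
  · intro g hg
    rw [map_mul, map_mul, hΔ g hg, hD2 g hg, hD1 g hg]
  · rw [map_mul, map_mul]
    exact mul_ne_zero hΔU (mul_ne_zero hD2U hD1U)
  · refine ⟨xA (Del W b ^ (Nat.card W * M)) * jR F, ⟨hM _ hM', ?_⟩, ?_⟩
    · intro g hg
      rw [act, map_mul, trA_xA, ← jR_trR, hΔ g hg, hF g hg]
    · have h1 := ResRel.mul (ResRel.ofP (τ := τ) (b := b) (bU := bU) (Del W b ^ (Nat.card W * M)))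
        (ResRel.ofR (τ := τ) (b := b) (bU := bU) F)
      have h2 : xA (resP τ b bU (Del W b ^ (Nat.card W * M) * (D2 * D1))) * s
          = xA (resP τ b bU (Del W b ^ (Nat.card W * M))) * jR (resR τ b bU F) := by
        rw [hFr, map_mul (jR : Rx κ →ₐ[ℂ] Ax κ), hp1, jR_C, map_mul, map_mul, map_mul, map_mul]
        ring
      rw [h2]
      exact h1

end

end Pool.Agent.CM64
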