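import Pool.Agent.LibCM64.Theta

/-! `ξ`-degrees: leading terms of the Dunkl operators. `Ld D f` says that `f` has `ξ`-degree `< D`. -/

set_option linter.unusedSectionVars false

namespace Pool.Agent.CM64

open Module MvPolynomial

section

variable {V : Type} [AddCommGroup V] [Module ℂ V] [FiniteDimensional ℂ V]
variable {V' : Type} [AddCommGroup V'] [Module ℂ V'] [FiniteDimensional ℂ V']
variable {ι : Type} [Fintype ι] [DecidableEq ι] {ι' : Type} [Fintype ι'] [DecidableEq ι']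
variable (W : Subgroup (V ≃ₗ[ℂ] V)) [Finite W] (k : Submodule ℂ V → ℤ → ℂ)

private theorem cmSymb_iff {D : ℕ} {f : Ax ι} :
    Ld D f ↔ ∀ d : ι →₀ ℕ, D ≤ d.degree → coeff d f = 0 := by
  constructor
  · intro h d hd
    have h1 := congrArg (coeff d) (h d.degree hd)
    rwa [coeff_homogeneousComponent, if_pos rfl, coeff_zero] at h1
  · intro h n hn
    ext d
    rw [coeff_homogeneousComponent, coeff_zero]
    split_ifs with hd
    · exact h d (hd ▸ hn)
    · rfl

private theorem cmSymb_hc {R S : Type} [CommRing R] [CommRing S] {σ τ : Type}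
    (φ : MvPolynomial σ R →+ MvPolynomial τ S)
    (hφ : ∀ d c, (φ (monomial d c)).IsHomogeneous d.degree) (n : ℕ) (f : MvPolynomial σ R) :
    homogeneousComponent n (φ f) = φ (homogeneousComponent n f) := by
  induction f using MvPolynomial.induction_on' with
  | monomial d c =>
    rw [homogeneousComponent_of_mem (hφ d c), homogeneousComponent_of_mem (isHomogeneous_monomial c rfl)]
    split_ifs
    · rfl
    · rw [map_zero]
  | add p q hp hq => rw [map_add, map_add, hp, hq, map_add, map_add]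

theorem Ld_zero (D : ℕ) : Ld D (0 : Ax ι) := by
  intro n _
  rw [map_zero]

theorem Ld_zero_iff (f : Ax ι) : Ld 0 f ↔ f = 0 := by
  constructor
  · intro h
    ext d
    rw [coeff_zero]
    exact cmSymb_iff.1 h d (Nat.zero_le _)
  · rintro rfl
    exact Ld_zero 0

theorem Ld_mono {D D' : ℕ} (h : D ≤ D') {f : Ax ι} (hf : Ld D f) : Ld D' f :=
  fun n hn => hf n (h.trans hn)

theorem Ld_add {D : ℕ} {f f' : Ax ι} (hf : Ld D f) (hf' : Ld D f') : Ld D (f + f') := by
  intro n hn
  rw [map_add, hf n hn, hf' n hn, add_zero]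

theorem Ld_sub {D : ℕ} {f f' : Ax ι} (hf : Ld D f) (hf' : Ld D f') : Ld D (f - f') := by
  intro n hn
  rw [map_sub, hf n hn, hf' n hn, sub_zero]

theorem Ld_sum {D : ℕ} {α : Type} (s : Finset α) (f : α → Ax ι) (hf : ∀ i ∈ s, Ld D (f i)) :
    Ld D (∑ i ∈ s, f i) := by
  intro n hn
  rw [map_sum]
  exact Finset.sum_eq_zero (fun i hi => hf i hi n hn)

theorem Ld_smul {D : ℕ} {f : Ax ι} (c : ℂ) (hf : Ld D f) : Ld D (c • f) := by
  rw [cmSymb_iff] at hf ⊢
  intro d hd
  rw [coeff_smul, hf d hd, smul_zero]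

theorem Ld_C_mul {D : ℕ} {f : Ax ι} (c : Fx ι) (hf : Ld D f) : Ld D (C c * f) := by
  intro n hn
  rw [homogeneousComponent_C_mul, hf n hn, mul_zero]

private theorem cmSymb_mul {m n : ℕ} {f g : Ax ι} (hf : Ld (m + 1) f) (hg : Ld n g) :
    Ld (m + n) (f * g) := by
  rw [cmSymb_iff] at hf hg ⊢
  intro d hd
  rw [coeff_mul]
  refine Finset.sum_eq_zero (fun x hx => ?_)
  rw [Finset.HasAntidiagonal.mem_antidiagonal] at hx
  have h1 : x.1.degree + x.2.degree = d.degree := by rw [← hx, map_add]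
  by_cases h2 : m + 1 ≤ x.1.degree
  · rw [hf x.1 h2, zero_mul]
  · rw [hg x.2 (by omega), mul_zero]

private theorem cmSymb_yA_hom (b : Basis ι ℂ V) (v : V) : (yA b v : Ax ι).IsHomogeneous 1 := by
  rw [yA_apply]
  refine IsHomogeneous.sum _ _ _ (fun i _ => ?_)
  rw [Algebra.smul_def, ← zero_add 1]
  refine IsHomogeneous.mul ?_ (isHomogeneous_X _ i)
  exact isHomogeneous_C _ _

private theorem cmSymb_yR_hom (b : Basis ι ℂ V) (v : V) : (yR b v : Rx ι).IsHomogeneous 1 := by
  rw [yR_apply]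
  refine IsHomogeneous.sum _ _ _ (fun i _ => ?_)
  rw [Algebra.smul_def, ← zero_add 1]
  refine IsHomogeneous.mul ?_ (isHomogeneous_X _ i)
  exact isHomogeneous_C _ _

private theorem cmSymb_of_hom {n : ℕ} {f : Ax ι} (h : f.IsHomogeneous n) : Ld (n + 1) f := by
  intro m hm
  rw [homogeneousComponent_of_mem h, if_neg (by omega)]

theorem Ld_yA_mul (b : Basis ι ℂ V) (v : V) {D : ℕ} {f : Ax ι} (hf : Ld D f) : Ld (D + 1) (yA b v * f) := by
  rw [add_comm D 1]
  exact cmSymb_mul (cmSymb_of_hom (cmSymb_yA_hom b v)) hf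

/-- a product of elements of degree `≤ m` and `≤ n` has degree `≤ m + n`. -/
theorem Ld_mul {m n : ℕ} {f g : Ax ι} (hf : Ld (m + 1) f) (hg : Ld n g) : Ld (m + n) (f * g) :=
  cmSymb_mul hf hg

theorem exists_Ld (f : Ax ι) : ∃ D, Ld D f :=
  ⟨f.totalDegree + 1, fun _ hn => homogeneousComponent_eq_zero _ _ (by omega)⟩

/-- the transport maps preserve the `ξ`-degree. -/
theorem homogeneousComponent_trA (b : Basis ι ℂ V) (b' : Basis ι' ℂ V') (g : V ≃ₗ[ℂ] V') (n : ℕ) (f : Ax ι) :
    homogeneousComponent n (trA b b' g f) = trA b b' g (homogeneousComponent n f) := by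
  refine cmSymb_hc ((trA b b' g : Ax ι →ₐ[ℂ] Ax ι') : Ax ι →+ Ax ι') (fun d c => ?_) n f
  show (trA b b' g (monomial d c)).IsHomogeneous d.degree
  rw [monomial_eq, map_mul, trA_C, Finsupp.prod, map_prod, ← zero_add d.degree, Finsupp.degree_apply]
  refine IsHomogeneous.mul (isHomogeneous_C _ _) ?_
  refine IsHomogeneous.prod _ _ _ (fun i _ => ?_)
  rw [map_pow, trA_X]
  have h := (cmSymb_yA_hom b' (g (b i))).pow (d i)
  rwa [one_mul] at h

theorem homogeneousComponent_jR (n : ℕ) (p : Rx ι) :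
    homogeneousComponent n (jR p) = jR (homogeneousComponent n p) := by
  ext d
  rw [coeff_homogeneousComponent, coeff_jR, coeff_jR, coeff_homogeneousComponent]
  split_ifs
  · rfl
  · rw [map_zero]

theorem homogeneousComponent_trR (b : Basis ι ℂ V) (b' : Basis ι' ℂ V') (g : V ≃ₗ[ℂ] V') (n : ℕ) (f : Rx ι) :
    homogeneousComponent n (trR b b' g f) = trR b b' g (homogeneousComponent n f) := by
  refine cmSymb_hc ((trR b b' g : Rx ι →ₐ[ℂ] Rx ι') : Rx ι →+ Rx ι') (fun d c => ?_) n f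
  show (trR b b' g (monomial d c)).IsHomogeneous d.degree
  rw [monomial_eq, map_mul, trR_C, Finsupp.prod, map_prod, ← zero_add d.degree, Finsupp.degree_apply]
  refine IsHomogeneous.mul (isHomogeneous_C _ _) ?_
  refine IsHomogeneous.prod _ _ _ (fun i _ => ?_)
  rw [map_pow, trR_X]
  have h := (cmSymb_yR_hom b' (g (b i))).pow (d i)
  rwa [one_mul] at h

theorem Ld_trA (b : Basis ι ℂ V) (b' : Basis ι' ℂ V') (g : V ≃ₗ[ℂ] V') {D : ℕ} {f : Ax ι} (hf : Ld D f) :
    Ld D (trA b b' g f) := by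
  intro n hn
  rw [homogeneousComponent_trA, hf n hn, map_zero]

theorem Ld_aop (b : Basis ι ℂ V) (H : Submodule ℂ V) {D : ℕ} {f : Ax ι} (hf : Ld D f) :
    Ld D (aop W k b H f) := by
  rw [aop, LinearMap.sum_apply]
  refine Ld_sum _ _ (fun g _ => ?_)
  rw [LinearMap.smul_apply]
  exact Ld_smul _ (Ld_trA b b g hf)

/-- `T_v m = ξ_v m + ` (degree `≤ deg m`). -/
theorem Ld_dunkl_sub (b : Basis ι ℂ V) (v : V) {D : ℕ} {f : Ax ι} (hf : Ld D f) :
    Ld D (dunkl W k b v f - yA b v * f) := by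
  have h : dunkl W k b v f - yA b v * f
      = ∑ H ∈ arrF W, (C (qH b H v) : Ax ι) * aop W k b H f := by
    rw [dunkl, LinearMap.add_apply, LinearMap.sum_apply, LinearMap.mulLeft_apply, add_sub_cancel_left]
    rfl
  rw [h]
  exact Ld_sum _ _ (fun H _ => Ld_C_mul _ (Ld_aop W k b H hf))

theorem Ld_dunkl (b : Basis ι ℂ V) (v : V) {D : ℕ} {f : Ax ι} (hf : Ld D f) :
    Ld (D + 1) (dunkl W k b v f) := by
  have h : dunkl W k b v f = (dunkl W k b v f - yA b v * f) + yA b v * f := by ring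
  rw [h]
  exact Ld_add (Ld_mono (Nat.le_succ D) (Ld_dunkl_sub W k b v hf)) (Ld_yA_mul b v hf)

private def cmSymb_lead (e : ℕ) (T : Module.End ℂ (Ax ι)) (p : Ax ι) : Prop :=
  Ld (e + 1) p ∧ ∀ (D : ℕ) (f : Ax ι), Ld (D + 1) f → Ld (D + e) (T f - p * f)

private theorem cmSymb_lead_one : cmSymb_lead (ι := ι) 0 1 1 := by
  refine ⟨fun n hn => ?_, fun D f _ => ?_⟩
  · rw [homogeneousComponent_of_mem (isHomogeneous_one _ _), if_neg (by omega)]
  · rw [Module.End.one_apply, one_mul, sub_self]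
    exact Ld_zero _

private theorem cmSymb_lead_mul {e e' : ℕ} {T T' : Module.End ℂ (Ax ι)} {p p' : Ax ι}
    (h : cmSymb_lead e T p) (h' : cmSymb_lead e' T' p') : cmSymb_lead (e + e') (T * T') (p * p') := by
  refine ⟨?_, fun D f hf => ?_⟩
  · rw [add_assoc]
    exact cmSymb_mul h.1 h'.1
  · have h1 : Ld (D + e' + 1) (T' f) := by
      have h2 : T' f = (T' f - p' * f) + p' * f := by ring
      rw [h2]
      refine Ld_add (Ld_mono (Nat.le_succ _) (h'.2 D f hf)) ?_
      rw [add_comm D e', add_assoc]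
      exact cmSymb_mul h'.1 hf
    have h3 : (T * T') f - p * p' * f = (T (T' f) - p * T' f) + p * (T' f - p' * f) := by
      rw [Module.End.mul_apply]; ring
    rw [h3]
    refine Ld_add ?_ ?_
    · have := h.2 (D + e') (T' f) h1
      rwa [add_assoc, add_comm e' e] at this
    · have := cmSymb_mul h.1 (h'.2 D f hf)
      rwa [← add_assoc, add_comm e D, add_assoc] at this

private theorem cmSymb_lead_pow {e : ℕ} {T : Module.End ℂ (Ax ι)} {p : Ax ι}
    (h : cmSymb_lead e T p) (n : ℕ) : cmSymb_lead (n * e) (T ^ n) (p ^ n) := by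
  induction n with
  | zero => rw [zero_mul, pow_zero, pow_zero]; exact cmSymb_lead_one
  | succ n ih =>
    rw [pow_succ, pow_succ, Nat.succ_mul]
    exact cmSymb_lead_mul ih h

private theorem cmSymb_lead_list (b : Basis ι ℂ V) (β : ι →₀ ℕ) (l : List ι) :
    cmSymb_lead (l.map (fun i => β i)).sum ((l.map (fun i => (dunkl W k b (b i)) ^ (β i))).prod)
      ((l.map (fun i => (X i : Ax ι) ^ (β i))).prod) := by
  induction l with
  | nil => exact cmSymb_lead_one
  | cons i l ih =>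
    rw [List.map_cons, List.map_cons, List.map_cons, List.sum_cons, List.prod_cons, List.prod_cons]
    refine cmSymb_lead_mul ?_ ih
    have h0 : cmSymb_lead 1 (dunkl W k b (b i)) (X i : Ax ι) := by
      refine ⟨cmSymb_of_hom (isHomogeneous_X _ i), fun D f hf => ?_⟩
      have := Ld_dunkl_sub W k b (b i) hf
      rwa [yA_basis] at this
    have h1 := cmSymb_lead_pow h0 (β i)
    rwa [mul_one] at h1

private theorem cmSymb_sum (β : ι →₀ ℕ) :
    ((Finset.univ : Finset ι).toList.map (fun i => β i)).sum = β.degree := by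
  rw [Finset.sum_map_toList, Finsupp.degree_eq_sum]

private theorem cmSymb_prod (β : ι →₀ ℕ) :
    ((Finset.univ : Finset ι).toList.map (fun i => (X i : Ax ι) ^ (β i))).prod = monomial β 1 := by
  rw [Finset.prod_map_toList, monomial_eq, map_one, one_mul, Finsupp.prod_fintype]
  intro i
  exact pow_zero _

private theorem cmSymb_lead_TT (b : Basis ι ℂ V) (β : ι →₀ ℕ) :
    cmSymb_lead β.degree (TT W k b β) (monomial β 1 : Ax ι) := by
  have h := cmSymb_lead_list W k b β (Finset.univ : Finset ι).toList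
  rw [cmSymb_sum, cmSymb_prod] at h
  exact h

/-- leading term of `T^β m`. -/
theorem Ld_TT_sub (b : Basis ι ℂ V) (β : ι →₀ ℕ) {D : ℕ} {f : Ax ι} (hf : Ld (D + 1) f) :
    Ld (D + β.degree) (TT W k b β f - monomial β 1 * f) :=
  (cmSymb_lead_TT W k b β).2 D f hf

/-- an operator `∑ a_g g` all of whose coefficients have `ξ`-degree `< D`. -/
def OpLd (b : Basis ι ℂ V) (D : ℕ) (T : Module.End ℂ (Ax ι)) : Prop :=
  ∃ a : (V ≃ₗ[ℂ] V) → Ax ι, T = opOf W b a ∧ ∀ g ∈ W, Ld D (a g)

private theorem cmSymb_Op_add {b : Basis ι ℂ V} {D : ℕ} {T T' : Module.End ℂ (Ax ι)}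
    (h : OpLd W b D T) (h' : OpLd W b D T') : OpLd W b D (T + T') := by
  obtain ⟨a, rfl, ha⟩ := h
  obtain ⟨a', rfl, ha'⟩ := h'
  refine ⟨fun g => a g + a' g, ?_, fun g hg => Ld_add (ha g hg) (ha' g hg)⟩
  rw [opOf, opOf, opOf, ← Finset.sum_add_distrib]
  refine Finset.sum_congr rfl (fun g _ => ?_)
  refine LinearMap.ext (fun m => ?_)
  show a g * _ + a' g * _ = (a g + a' g) * _
  ring

private theorem cmSymb_Op_zero (b : Basis ι ℂ V) (D : ℕ) : OpLd W b D (0 : Module.End ℂ (Ax ι)) := by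
  refine ⟨fun _ => 0, ?_, fun _ _ => Ld_zero D⟩
  rw [opOf]
  refine (Finset.sum_eq_zero (fun g _ => ?_)).symm
  refine LinearMap.ext (fun m => ?_)
  show (0 : Ax ι) * act b g m = 0
  rw [zero_mul]

private theorem cmSymb_Op_sum (b : Basis ι ℂ V) (D : ℕ) {α : Type} (s : Finset α)
    (T : α → Module.End ℂ (Ax ι)) (h : ∀ i ∈ s, OpLd W b D (T i)) : OpLd W b D (∑ i ∈ s, T i) := by
  classical
  induction s using Finset.induction_on with
  | empty => rw [Finset.sum_empty]; exact cmSymb_Op_zero W b D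
  | insert i s hi ih =>
    rw [Finset.sum_insert hi]
    exact cmSymb_Op_add W (h i (Finset.mem_insert_self _ _))
      (ih (fun j hj => h j (Finset.mem_insert_of_mem hj)))

private theorem cmSymb_Op_single {b : Basis ι ℂ V} {D : ℕ} {c : Ax ι} (hc : Ld D c) {g : V ≃ₗ[ℂ] V}
    (hg : g ∈ W) : OpLd W b D ((LinearMap.mulLeft ℂ c) ∘ₗ (act b g).toLinearMap) := by
  classical
  refine ⟨fun u => if u = g then c else 0, ?_, fun u _ => ?_⟩
  · rw [opOf, Finset.sum_eq_single g]
    · rw [if_pos rfl]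
    · intro u _ hu
      refine LinearMap.ext (fun m => ?_)
      show (if u = g then c else 0) * _ = 0
      rw [if_neg hu, zero_mul]
    · intro h
      exact absurd ((mem_elF W).2 hg) h
  · show Ld D (if u = g then c else 0)
    split_ifs
    · exact hc
    · exact Ld_zero D

private theorem cmSymb_Op_comp {b : Basis ι ℂ V} {D E F : ℕ} {T T' : Module.End ℂ (Ax ι)}
    (hm : ∀ c c' : Ax ι, Ld D c → Ld E c' → Ld F (c * c'))
    (h : OpLd W b D T) (h' : OpLd W b E T') : OpLd W b F (T * T') := by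
  obtain ⟨a, rfl, ha⟩ := h
  obtain ⟨a', rfl, ha'⟩ := h'
  rw [opOf, opOf, Finset.sum_mul]
  refine cmSymb_Op_sum W b F _ _ (fun g hg => ?_)
  rw [Finset.mul_sum]
  refine cmSymb_Op_sum W b F _ _ (fun h hh => ?_)
  rw [mem_elF] at hg hh
  have h1 : (LinearMap.mulLeft ℂ (a g) ∘ₗ (act b g).toLinearMap : Module.End ℂ (Ax ι)) *
      (LinearMap.mulLeft ℂ (a' h) ∘ₗ (act b h).toLinearMap) =
      LinearMap.mulLeft ℂ (a g * act b g (a' h)) ∘ₗ (act b (g * h)).toLinearMap := by
    refine LinearMap.ext (fun m => ?_)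
    show a g * act b g (a' h * act b h m) = a g * act b g (a' h) * act b (g * h) m
    rw [map_mul, act_mul, mul_assoc]
  rw [h1]
  exact cmSymb_Op_single W (hm _ _ (ha g hg) (Ld_trA b b g (ha' h hh))) (W.mul_mem hg hh)

private theorem cmSymb_Op_mulLeft {b : Basis ι ℂ V} {D : ℕ} {c : Ax ι} (hc : Ld D c) :
    OpLd W b D (LinearMap.mulLeft ℂ c) := by
  have h := cmSymb_Op_single W (b := b) hc W.one_mem
  have h1 : (LinearMap.mulLeft ℂ c ∘ₗ (act b (1 : V ≃ₗ[ℂ] V)).toLinearMap : Module.End ℂ (Ax ι)) =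
      LinearMap.mulLeft ℂ c := by
    refine LinearMap.ext (fun m => ?_)
    show c * act b 1 m = c * m
    rw [act_one]
  rwa [h1] at h

private def cmSymb_olead (b : Basis ι ℂ V) (e : ℕ) (T : Module.End ℂ (Ax ι)) (p : Ax ι) : Prop :=
  Ld (e + 1) p ∧ OpLd W b e (T - LinearMap.mulLeft ℂ p)

private theorem cmSymb_mulLeft_one : LinearMap.mulLeft ℂ (1 : Ax ι) = 1 := by
  refine LinearMap.ext (fun m => ?_)
  show (1 : Ax ι) * m = m
  rw [one_mul]

private theorem cmSymb_olead_one (b : Basis ι ℂ V) : cmSymb_olead W b 0 1 (1 : Ax ι) := by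
  refine ⟨cmSymb_lead_one.1, ?_⟩
  have h : (1 : Module.End ℂ (Ax ι)) - LinearMap.mulLeft ℂ (1 : Ax ι) = 0 := by
    refine LinearMap.ext (fun m => ?_)
    show m - 1 * m = 0
    rw [one_mul, sub_self]
  rw [h]
  exact cmSymb_Op_zero W b 0

private theorem cmSymb_olead_mul {b : Basis ι ℂ V} {e e' : ℕ} {T T' : Module.End ℂ (Ax ι)} {p p' : Ax ι}
    (h : cmSymb_olead W b e T p) (h' : cmSymb_olead W b e' T' p') :
    cmSymb_olead W b (e + e') (T * T') (p * p') := by
  refine ⟨?_, ?_⟩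
  · rw [add_assoc]
    exact cmSymb_mul h.1 h'.1
  · have h3 : T * T' - LinearMap.mulLeft ℂ (p * p') =
        ((T - LinearMap.mulLeft ℂ p) * (T' - LinearMap.mulLeft ℂ p') +
          (T - LinearMap.mulLeft ℂ p) * LinearMap.mulLeft ℂ p') +
          LinearMap.mulLeft ℂ p * (T' - LinearMap.mulLeft ℂ p') := by
      refine LinearMap.ext (fun m => ?_)
      show T (T' m) - p * p' * m = ((T (T' m - p' * m) - p * (T' m - p' * m)) +
        (T (p' * m) - p * (p' * m))) + p * (T' m - p' * m)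
      rw [map_sub]
      ring
    rw [h3]
    have hA : ∀ c c' : Ax ι, Ld e c → Ld (e' + 1) c' → Ld (e + e') (c * c') := by
      intro c c' hc hc'
      rw [mul_comm, add_comm]
      exact cmSymb_mul hc' hc
    refine cmSymb_Op_add W (cmSymb_Op_add W ?_ ?_) ?_
    · exact cmSymb_Op_comp W (fun c c' hc hc' => hA c c' hc (Ld_mono (Nat.le_succ _) hc')) h.2 h'.2
    · exact cmSymb_Op_comp W hA h.2 (cmSymb_Op_mulLeft W h'.1)
    · exact cmSymb_Op_comp W (fun c c' hc hc' => cmSymb_mul hc hc') (cmSymb_Op_mulLeft W h.1) h'.2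

private theorem cmSymb_olead_pow {b : Basis ι ℂ V} {e : ℕ} {T : Module.End ℂ (Ax ι)} {p : Ax ι}
    (h : cmSymb_olead W b e T p) (n : ℕ) : cmSymb_olead W b (n * e) (T ^ n) (p ^ n) := by
  induction n with
  | zero => rw [zero_mul, pow_zero, pow_zero]; exact cmSymb_olead_one W b
  | succ n ih =>
    rw [pow_succ, pow_succ, Nat.succ_mul]
    exact cmSymb_olead_mul W ih h

private theorem cmSymb_olead_dunkl (b : Basis ι ℂ V) (i : ι) :
    cmSymb_olead W b 1 (dunkl W k b (b i)) (X i : Ax ι) := by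
  refine ⟨cmSymb_of_hom (isHomogeneous_X _ i), ?_⟩
  have h0 : dunkl W k b (b i) - LinearMap.mulLeft ℂ (X i : Ax ι) =
      ∑ H ∈ arrF W, ∑ g ∈ pstF W H,
        LinearMap.mulLeft ℂ (kap W k H g • (C (qH b H (b i)) : Ax ι)) ∘ₗ (act b g).toLinearMap := by
    refine LinearMap.ext (fun m => ?_)
    have h5 : (dunkl W k b (b i) - LinearMap.mulLeft ℂ (X i : Ax ι)) m =
        (X i * m + ∑ H ∈ arrF W, C (qH b H (b i)) * aop W k b H m) - X i * m := by
      rw [LinearMap.sub_apply, dunkl, yA_basis, LinearMap.add_apply, LinearMap.sum_apply]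
      rfl
    rw [h5, add_sub_cancel_left, LinearMap.sum_apply]
    refine Finset.sum_congr rfl (fun H _ => ?_)
    rw [aop, LinearMap.sum_apply, LinearMap.sum_apply, Finset.mul_sum]
    refine Finset.sum_congr rfl (fun g _ => ?_)
    show C (qH b H (b i)) * (kap W k H g • act b g m) = (kap W k H g • C (qH b H (b i))) * act b g m
    rw [mul_smul_comm, smul_mul_assoc]
  rw [h0]
  refine cmSymb_Op_sum W b 1 _ _ (fun H _ => cmSymb_Op_sum W b 1 _ _ (fun g hg => ?_))
  refine cmSymb_Op_single W (Ld_smul _ ?_) (pst_le W H (mem_pstF.1 hg))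
  exact cmSymb_of_hom (isHomogeneous_C _ _)

private theorem cmSymb_olead_list (b : Basis ι ℂ V) (β : ι →₀ ℕ) (l : List ι) :
    cmSymb_olead W b (l.map (fun i => β i)).sum ((l.map (fun i => (dunkl W k b (b i)) ^ (β i))).prod)
      ((l.map (fun i => (X i : Ax ι) ^ (β i))).prod) := by
  induction l with
  | nil => exact cmSymb_olead_one W b
  | cons i l ih =>
    rw [List.map_cons, List.map_cons, List.map_cons, List.sum_cons, List.prod_cons, List.prod_cons]
    refine cmSymb_olead_mul W ?_ ih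
    have h1 := cmSymb_olead_pow W (cmSymb_olead_dunkl W k b i) (β i)
    rwa [mul_one] at h1

/-- leading term of `T^β` as an operator: all coefficients of `T^β - ξ^β` have degree `< |β|`. -/
theorem OpLd_TT_sub (b : Basis ι ℂ V) (β : ι →₀ ℕ) :
    OpLd W b β.degree (TT W k b β - LinearMap.mulLeft ℂ (monomial β 1 : Ax ι)) := by
  have h := cmSymb_olead_list W k b β (Finset.univ : Finset ι).toList
  rw [cmSymb_sum, cmSymb_prod] at h
  exact h.2

/-- leading term of `Ups p = ∑ p_β T^β 1`. -/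
theorem Ld_Ups_sub (b : Basis ι ℂ V) {D : ℕ} {p : Rx ι} (hp : ∀ n, D < n → homogeneousComponent n p = 0) :
    Ld D (Ups W k b p - jR p) := by
  have h1 : jR p = ∑ β ∈ p.support, xA (coeff β p) * (monomial β 1 : Ax ι) := by
    conv_lhs => rw [p.as_sum, map_sum]
    refine Finset.sum_congr rfl (fun β _ => ?_)
    rw [jR_apply, map_monomial, xA_apply, C_mul_monomial, mul_one]
    rfl
  have h2 : Ups W k b p = ∑ β ∈ p.support, xA (coeff β p) * TT W k b β 1 := rfl
  rw [h1, h2, ← Finset.sum_sub_distrib]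
  refine Ld_sum _ _ (fun β hβ => ?_)
  rw [← mul_sub, xA_apply]
  refine Ld_C_mul _ ?_
  have h3 := Ld_TT_sub W k b β (D := 0) (cmSymb_lead_one (ι := ι)).1
  rw [mul_one, zero_add] at h3
  refine Ld_mono ?_ h3
  by_contra h4
  have h5 := congrArg (coeff β) (hp β.degree (by omega))
  rw [coeff_homogeneousComponent, if_pos rfl, coeff_zero] at h5
  exact (MvPolynomial.mem_support_iff.1 hβ) h5

end

end Pool.Agent.CM64
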