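import Pool.Agent.LibCM64.Spr
import Pool.Agent.LibCM64.Symb
import Pool.Agent.LibCM64.Deriv
import Pool.Agent.LibCM64.Dualz

/-! Restriction from `V × V*` to `U × U*`, `U = V^τ`, `U* = (V*)^τ`. -/

set_option linter.unusedSectionVars false

namespace Pool.Agent.CM64

open Module MvPolynomial

section

variable {V : Type} [AddCommGroup V] [Module ℂ V]

/-- the average `(1/m) ∑_{j<m} τ^j`, `m` the order of `τ`: the projection onto `V^τ` along `Im(1 - τ)`. -/
noncomputable def avgT (τ : V ≃ₗ[ℂ] V) : V →ₗ[ℂ] V :=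
  (orderOf τ : ℂ)⁻¹ • ∑ j ∈ Finset.range (orderOf τ), ((τ ^ j : V ≃ₗ[ℂ] V) : V →ₗ[ℂ] V)

private theorem res_avgT_apply (τ : V ≃ₗ[ℂ] V) (v : V) : avgT τ v = (orderOf τ : ℂ)⁻¹ •
    ∑ j ∈ Finset.range (orderOf τ), (τ ^ j : V ≃ₗ[ℂ] V) v := by
  rw [avgT, LinearMap.smul_apply, LinearMap.sum_apply]
  rfl

private theorem res_shift (τ : V ≃ₗ[ℂ] V) (v : V) :
    ∑ j ∈ Finset.range (orderOf τ), (τ ^ (j + 1) : V ≃ₗ[ℂ] V) v
      = ∑ j ∈ Finset.range (orderOf τ), (τ ^ j : V ≃ₗ[ℂ] V) v := by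
  have h8 := Finset.sum_range_succ (fun j => (τ ^ j : V ≃ₗ[ℂ] V) v) (orderOf τ)
  have h9 := Finset.sum_range_succ' (fun j => (τ ^ j : V ≃ₗ[ℂ] V) v) (orderOf τ)
  have h10 : (τ ^ (orderOf τ) : V ≃ₗ[ℂ] V) v = (τ ^ 0 : V ≃ₗ[ℂ] V) v := by
    rw [pow_orderOf_eq_one, pow_zero]
  rw [h9, h10] at h8
  exact add_right_cancel h8

theorem avgT_mem (τ : V ≃ₗ[ℂ] V) (v : V) : avgT τ v ∈ fixSub τ := by
  rw [mem_fixSub, res_avgT_apply, map_smul, map_sum]
  congr 1
  have h1 : ∀ j : ℕ, τ ((τ ^ j : V ≃ₗ[ℂ] V) v) = (τ ^ (j + 1) : V ≃ₗ[ℂ] V) v := by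
    intro j
    rw [pow_succ', LinearEquiv.mul_apply]
  rw [Finset.sum_congr rfl (fun j _ => h1 j), res_shift]

/-- the projection `V → V^τ`. -/
noncomputable def projT (τ : V ≃ₗ[ℂ] V) : V →ₗ[ℂ] ↥(fixSub τ) :=
  LinearMap.codRestrict (fixSub τ) (avgT τ) (avgT_mem τ)

theorem projT_apply_coe (τ : V ≃ₗ[ℂ] V) (v : V) : ((projT τ v : ↥(fixSub τ)) : V) = avgT τ v := rfl

theorem projT_of_mem {τ : V ≃ₗ[ℂ] V} (hfin : IsOfFinOrder τ) (u : ↥(fixSub τ)) : projT τ (u : V) = u := by
  apply Subtype.ext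
  rw [projT_apply_coe, res_avgT_apply]
  have hfix : ∀ j : ℕ, (τ ^ j : V ≃ₗ[ℂ] V) (u : V) = (u : V) := by
    intro j
    induction j with
    | zero => rfl
    | succ j ih => rw [pow_succ, LinearEquiv.mul_apply, mem_fixSub.1 u.2, ih]
  have hm : (orderOf τ : ℂ) ≠ 0 := by
    exact_mod_cast (orderOf_pos_iff.2 hfin).ne'
  rw [Finset.sum_congr rfl (fun j _ => hfix j), Finset.sum_const, Finset.card_range,
    ← Nat.cast_smul_eq_nsmul ℂ, smul_smul, inv_mul_cancel₀ hm, one_smul]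

theorem projT_tau {τ : V ≃ₗ[ℂ] V} (hfin : IsOfFinOrder τ) (v : V) : projT τ (τ v) = projT τ v := by
  have _ := hfin
  apply Subtype.ext
  rw [projT_apply_coe, projT_apply_coe, res_avgT_apply, res_avgT_apply]
  congr 1
  have h1 : ∀ j : ℕ, (τ ^ j : V ≃ₗ[ℂ] V) (τ v) = (τ ^ (j + 1) : V ≃ₗ[ℂ] V) v := by
    intro j
    rw [pow_succ, LinearEquiv.mul_apply]
  rw [Finset.sum_congr rfl (fun j _ => h1 j), res_shift]

end

section

variable {V : Type} [AddCommGroup V] [Module ℂ V] [FiniteDimensional ℂ V]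
variable {ι : Type} [Fintype ι] [DecidableEq ι] {κ : Type} [Fintype κ] [DecidableEq κ]
variable (τ : V ≃ₗ[ℂ] V) (b : Basis ι ℂ V) (bU : Basis κ ℂ ↥(fixSub τ))

/-- restriction of polynomial functions from `V` to `U`. -/
noncomputable def resP : Px ι →ₐ[ℂ] Px κ := pbP bU b (fixSub τ).subtype

/-- restriction of polynomial functions from `V × V*` to `U × U*`. -/
noncomputable def resR : Rx ι →ₐ[ℂ] Rx κ :=
  MvPolynomial.aevalTower ((Algebra.algHom ℂ (Px κ) (Rx κ)).comp (resP τ b bU))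
    (fun i => yR bU (projT τ (b i)))

/-- `s` is the restriction of `f` to `U × U*`. -/
def ResRel (f : Ax ι) (s : Ax κ) : Prop :=
  ∃ (d : Px ι) (p : Rx ι), resP τ b bU d ≠ 0 ∧ xA d * f = jR p ∧ xA (resP τ b bU d) * s = jR (resR τ b bU p)

theorem resP_xl (f : Dual ℂ V) : resP τ b bU (xl b f) = xl bU (f.comp (fixSub τ).subtype) :=
  pbP_xl bU b (fixSub τ).subtype f

theorem evP_resP (u : ↥(fixSub τ)) (p : Px ι) : evP bU u (resP τ b bU p) = evP b (u : V) p :=
  evP_pbP bU b (fixSub τ).subtype u p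

theorem resR_C (p : Px ι) : resR τ b bU (C p) = C (resP τ b bU p) := by
  rw [resR, MvPolynomial.aevalTower_C]
  rfl

private theorem res_resR_X (i : ι) : resR τ b bU (X i) = yR bU (projT τ (b i)) := by
  rw [resR, MvPolynomial.aevalTower_X]

theorem resR_yR (v : V) : resR τ b bU (yR b v) = yR bU (projT τ v) := by
  have h := b.sum_repr v
  conv_rhs => rw [← h]
  rw [yR_apply, map_sum, map_sum, map_sum]
  refine Finset.sum_congr rfl (fun i _ => ?_)
  rw [map_smul, res_resR_X, map_smul, map_smul]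

/-- restriction is surjective on polynomials. -/
theorem resR_surjective (hfin : IsOfFinOrder τ) : Function.Surjective (resR τ b bU) := by
  classical
  have hP : ∀ c : Px κ, ∃ p : Px ι, resP τ b bU p = c := by
    intro c
    induction c using MvPolynomial.induction_on with
    | C a => exact ⟨C a, (resP τ b bU).commutes a⟩
    | add p q hp hq =>
      obtain ⟨p', hp'⟩ := hp
      obtain ⟨q', hq'⟩ := hq
      exact ⟨p' + q', by rw [map_add, hp', hq']⟩
    | mul_X p j hp =>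
      obtain ⟨p', hp'⟩ := hp
      refine ⟨p' * xl b ((bU.coord j).comp (projT τ)), ?_⟩
      have h1 : ((bU.coord j).comp (projT τ)).comp (fixSub τ).subtype = bU.coord j := by
        apply LinearMap.ext
        intro u
        rw [LinearMap.comp_apply, LinearMap.comp_apply, Submodule.subtype_apply, projT_of_mem hfin]
      rw [map_mul, hp', resP_xl, h1, xl_coord]
  intro c
  induction c using MvPolynomial.induction_on with
  | C a =>
    obtain ⟨p, hp⟩ := hP a
    exact ⟨C p, by rw [resR_C, hp]⟩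
  | add p q hp hq =>
    obtain ⟨p', hp'⟩ := hp
    obtain ⟨q', hq'⟩ := hq
    exact ⟨p' + q', by rw [map_add, hp', hq']⟩
  | mul_X p j hp =>
    obtain ⟨p', hp'⟩ := hp
    refine ⟨p' * yR b ((bU j : ↥(fixSub τ)) : V), ?_⟩
    rw [map_mul, hp', resR_yR, projT_of_mem hfin, yR_basis]

private theorem res_yR_hom {V : Type} [AddCommGroup V] [Module ℂ V] {ι : Type} [Fintype ι]
    (b : Basis ι ℂ V) (v : V) : (yR b v : Rx ι).IsHomogeneous 1 := by
  rw [yR_apply]
  have h : ∑ i, (b.repr v i) • (X i : Rx ι) ∈ homogeneousSubmodule ι (Px ι) 1 := by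
    refine Submodule.sum_mem _ (fun i _ => ?_)
    have h1 : (b.repr v i) • (X i : Rx ι) = (C (b.repr v i) : Px ι) • (X i : Rx ι) := by
      rw [← MvPolynomial.algebraMap_eq, algebraMap_smul]
    rw [h1]
    exact Submodule.smul_mem _ _ (isHomogeneous_X (Px ι) i)
  exact h

private theorem res_hc {R S : Type} [CommRing R] [CommRing S] {σ τ : Type}
    (φ : MvPolynomial σ R →+ MvPolynomial τ S)
    (hφ : ∀ d c, (φ (monomial d c)).IsHomogeneous d.degree) (n : ℕ) (f : MvPolynomial σ R) :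
    homogeneousComponent n (φ f) = φ (homogeneousComponent n f) := by
  induction f using MvPolynomial.induction_on' with
  | monomial d c =>
    rw [homogeneousComponent_of_mem (hφ d c), homogeneousComponent_of_mem (isHomogeneous_monomial c rfl)]
    split_ifs
    · rfl
    · rw [map_zero]
  | add p q hp hq => rw [map_add, map_add, hp, hq, map_add, map_add]

theorem homogeneousComponent_resR (n : ℕ) (p : Rx ι) :
    homogeneousComponent n (resR τ b bU p) = resR τ b bU (homogeneousComponent n p) := by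
  refine res_hc ((resR τ b bU : Rx ι →ₐ[ℂ] Rx κ) : Rx ι →+ Rx κ) (fun d c => ?_) n p
  show (resR τ b bU (monomial d c)).IsHomogeneous d.degree
  rw [monomial_eq, map_mul, resR_C, Finsupp.prod, map_prod, ← zero_add d.degree, Finsupp.degree_apply]
  refine IsHomogeneous.mul (isHomogeneous_C _ _) ?_
  refine IsHomogeneous.prod _ _ _ (fun i _ => ?_)
  rw [map_pow, res_resR_X]
  have h := (res_yR_hom bU (projT τ (b i))).pow (d i)
  rwa [one_mul] at h

private theorem res_xA_ne {κ : Type} {d : Px κ} (hd : d ≠ 0) : (xA d : Ax κ) ≠ 0 :=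
  fun h => hd (xA_injective (by rw [h, map_zero]))

variable {τ b bU}

theorem ResRel.unique {f : Ax ι} {s s' : Ax κ} (h : ResRel τ b bU f s) (h' : ResRel τ b bU f s') : s = s' := by
  obtain ⟨d, p, hd, h1, h2⟩ := h
  obtain ⟨d', p', hd', h1', h2'⟩ := h'
  have e1 : C d' * p = C d * p' := by
    apply jR_injective
    rw [map_mul, map_mul, jR_C, jR_C, ← h1, ← h1']
    ring
  have e2 := congrArg (fun q => jR (resR τ b bU q)) e1
  simp only [map_mul, resR_C, jR_C] at e2
  rw [← h2, ← h2', ← mul_assoc, ← mul_assoc, mul_comm (xA (resP τ b bU d'))] at e2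
  exact mul_left_cancel₀ (mul_ne_zero (res_xA_ne hd) (res_xA_ne hd')) e2

theorem ResRel.add {f f' : Ax ι} {s s' : Ax κ} (h : ResRel τ b bU f s) (h' : ResRel τ b bU f' s') :
    ResRel τ b bU (f + f') (s + s') := by
  obtain ⟨d, p, hd, h1, h2⟩ := h
  obtain ⟨d', p', hd', h1', h2'⟩ := h'
  refine ⟨d * d', C d' * p + C d * p', ?_, ?_, ?_⟩
  · rw [map_mul]
    exact mul_ne_zero hd hd'
  · rw [map_mul, map_add, map_mul, map_mul, jR_C, jR_C, ← h1, ← h1']
    ring
  · rw [map_mul, map_mul, map_add, map_mul, map_mul, resR_C, resR_C, map_add, map_mul, map_mul, jR_C, jR_C,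
      ← h2, ← h2']
    ring

theorem ResRel.mul {f f' : Ax ι} {s s' : Ax κ} (h : ResRel τ b bU f s) (h' : ResRel τ b bU f' s') :
    ResRel τ b bU (f * f') (s * s') := by
  obtain ⟨d, p, hd, h1, h2⟩ := h
  obtain ⟨d', p', hd', h1', h2'⟩ := h'
  refine ⟨d * d', p * p', ?_, ?_, ?_⟩
  · rw [map_mul]
    exact mul_ne_zero hd hd'
  · rw [map_mul, map_mul, ← h1, ← h1']
    ring
  · rw [map_mul, map_mul, map_mul, map_mul, ← h2, ← h2']
    ring

theorem ResRel.ofR (p : Rx ι) : ResRel τ b bU (jR p) (jR (resR τ b bU p)) := by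
  refine ⟨1, p, ?_, ?_, ?_⟩
  · rw [map_one]
    exact one_ne_zero
  · rw [map_one, one_mul]
  · rw [map_one, map_one, one_mul]

private theorem res_ofP (p : Px ι) : ResRel τ b bU (xA p) (xA (resP τ b bU p)) := by
  have h := ResRel.ofR (τ := τ) (b := b) (bU := bU) (C p)
  rwa [resR_C, jR_C, jR_C] at h

theorem ResRel.const (c : ℂ) : ResRel τ b bU (algebraMap ℂ (Ax ι) c) (algebraMap ℂ (Ax κ) c) := by
  have h := res_ofP (τ := τ) (b := b) (bU := bU) (algebraMap ℂ (Px ι) c)
  have h1 : resP τ b bU (algebraMap ℂ (Px ι) c) = algebraMap ℂ (Px κ) c := (resP τ b bU).commutes c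
  have h2 : (xA (algebraMap ℂ (Px ι) c) : Ax ι) = algebraMap ℂ (Ax ι) c := (xA (ι := ι)).commutes c
  have h3 : (xA (algebraMap ℂ (Px κ) c) : Ax κ) = algebraMap ℂ (Ax κ) c := (xA (ι := κ)).commutes c
  rwa [h1, h2, h3] at h

theorem ResRel.smul {f : Ax ι} {s : Ax κ} (c : ℂ) (h : ResRel τ b bU f s) : ResRel τ b bU (c • f) (c • s) := by
  rw [Algebra.smul_def, Algebra.smul_def]
  exact ResRel.mul (ResRel.const c) h

theorem ResRel.ofP (p : Px ι) : ResRel τ b bU (xA p) (xA (resP τ b bU p)) :=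
  res_ofP p

theorem ResRel.sum {α : Type} (t : Finset α) {f : α → Ax ι} {s : α → Ax κ} (h : ∀ i ∈ t, ResRel τ b bU (f i) (s i)) :
    ResRel τ b bU (∑ i ∈ t, f i) (∑ i ∈ t, s i) := by
  classical
  induction t using Finset.induction_on with
  | empty =>
    rw [Finset.sum_empty, Finset.sum_empty]
    have h0 := ResRel.const (τ := τ) (b := b) (bU := bU) 0
    rwa [map_zero, map_zero] at h0
  | insert a t ha ih =>
    rw [Finset.sum_insert ha, Finset.sum_insert ha]
    exact ResRel.add (h a (Finset.mem_insert_self a t))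
      (ih (fun i hi => h i (Finset.mem_insert_of_mem hi)))

theorem ResRel.pow {f : Ax ι} {s : Ax κ} (h : ResRel τ b bU f s) (n : ℕ) : ResRel τ b bU (f ^ n) (s ^ n) := by
  induction n with
  | zero =>
    rw [pow_zero, pow_zero]
    have h0 := ResRel.const (τ := τ) (b := b) (bU := bU) 1
    rwa [map_one, map_one] at h0
  | succ n ih =>
    rw [pow_succ, pow_succ]
    exact ResRel.mul ih h

theorem ResRel.hcomp {f : Ax ι} {s : Ax κ} (h : ResRel τ b bU f s) (n : ℕ) :
    ResRel τ b bU (homogeneousComponent n f) (homogeneousComponent n s) := by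
  obtain ⟨d, p, hd, h1, h2⟩ := h
  refine ⟨d, homogeneousComponent n p, hd, ?_, ?_⟩
  · rw [← homogeneousComponent_jR, ← h1, xA_apply, homogeneousComponent_C_mul]
  · rw [← homogeneousComponent_resR, ← homogeneousComponent_jR, ← h2, xA_apply, homogeneousComponent_C_mul]

/-- division by a function not vanishing identically on `U`. -/
theorem ResRel.of_mul {f : Ax ι} {s : Ax κ} {d : Px ι} (hd : resP τ b bU d ≠ 0)
    (h : ResRel τ b bU (xA d * f) (xA (resP τ b bU d) * s)) :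
    ResRel τ b bU f s := by
  obtain ⟨d', p, hd', h1, h2⟩ := h
  refine ⟨d' * d, p, ?_, ?_, ?_⟩
  · rw [map_mul]
    exact mul_ne_zero hd' hd
  · rw [map_mul, mul_assoc, h1]
  · rw [map_mul, map_mul, mul_assoc, h2]

/-- if some multiple `d f`, `d|_U ≠ 0`, is polynomial then the restriction exists. -/
theorem ResRel.exists_of_den {f : Ax ι} {d : Px ι} (hd : resP τ b bU d ≠ 0) {p : Rx ι}
    (h : xA d * f = jR p) : ∃ s, ResRel τ b bU f s := by
  refine ⟨C (pF (resP τ b bU d))⁻¹ * jR (resR τ b bU p), d, p, hd, h, ?_⟩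
  have h1 : pF (resP τ b bU d) ≠ 0 := fun h0 => hd (pF_injective (by rw [h0, map_zero]))
  rw [xA_apply, ← mul_assoc, ← C_mul, mul_inv_cancel₀ h1, C_1, one_mul]

end

end Pool.Agent.CM64
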