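import Mathlib

/-! The integrality argument in rank one: an element of `ℂ[T][x^{±1}]` integral over `ℂ[x, Q(T)/x]` is in
`ℂ[x, T, Q(T)/x]`. -/

set_option linter.unusedSectionVars false

namespace Pool.Agent.CM64

open Polynomial LaurentPolynomial

/-- the subalgebra `ℂ[x, Q(T)/x]`. -/
noncomputable def subQ (Q : Polynomial ℂ) : Subalgebra ℂ (LaurentPolynomial (Polynomial ℂ)) :=
  Algebra.adjoin ℂ {T 1, LaurentPolynomial.C Q * T (-1)}

/-- the subalgebra `ℂ[x, T, Q(T)/x]`. -/
noncomputable def subTQ (Q : Polynomial ℂ) : Subalgebra ℂ (LaurentPolynomial (Polynomial ℂ)) :=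
  Algebra.adjoin ℂ {T 1, LaurentPolynomial.C Polynomial.X, LaurentPolynomial.C Q * T (-1)}

/-- the subalgebra of all `F` with `Q^{-m} ∣ F_m`. -/
private noncomputable def rkB_S (Q : Polynomial ℂ) :
    Subalgebra ℂ (LaurentPolynomial (Polynomial ℂ)) where
  carrier := {F | ∀ m : ℤ, Q ^ (-m).toNat ∣ F.coeff m}
  mul_mem' := by
    classical
    intro F G hF hG m
    rw [AddMonoidAlgebra.coeff_mul]
    unfold Finsupp.sum
    refine Finset.dvd_sum (fun a _ => Finset.dvd_sum (fun c _ => ?_))
    simp only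
    split_ifs with h
    · have h1 : Q ^ ((-a).toNat + (-c).toNat) ∣ F.coeff a * G.coeff c := by
        rw [pow_add]
        exact mul_dvd_mul (hF a) (hG c)
      exact (pow_dvd_pow Q (by omega)).trans h1
    · exact dvd_zero _
  add_mem' := by
    intro F G hF hG m
    rw [AddMonoidAlgebra.coeff_add, Finsupp.add_apply]
    exact dvd_add (hF m) (hG m)
  algebraMap_mem' := by
    intro c m
    rw [LaurentPolynomial.algebraMap_apply, LaurentPolynomial.C_apply]
    split_ifs with h
    · subst h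
      simp
    · exact dvd_zero _

private theorem rkB_C_mem (Q p : Polynomial ℂ) : LaurentPolynomial.C p ∈ subTQ Q := by
  have hX : (LaurentPolynomial.C Polynomial.X : LaurentPolynomial (Polynomial ℂ)) ∈ subTQ Q :=
    Algebra.subset_adjoin (by simp)
  induction p using Polynomial.induction_on with
  | C a =>
    have h : (LaurentPolynomial.C (Polynomial.C a) : LaurentPolynomial (Polynomial ℂ)) =
      algebraMap ℂ _ a := by
        rw [LaurentPolynomial.algebraMap_apply]
        rfl
    rw [h]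
    exact Subalgebra.algebraMap_mem _ _
  | add p q hp hq =>
    rw [map_add]
    exact Subalgebra.add_mem _ hp hq
  | monomial n a ih =>
    rw [pow_succ, ← mul_assoc, map_mul]
    exact Subalgebra.mul_mem _ ih hX

/-- `∑ x^m F_m(T)` is in `ℂ[x, T, Q(T)/x]` iff `Q^{-m} ∣ F_m` for `m < 0`. -/
theorem mem_subTQ_iff (Q : Polynomial ℂ) (F : LaurentPolynomial (Polynomial ℂ)) :
    F ∈ subTQ Q ↔ ∀ n : ℕ, Q ^ n ∣ F.coeff (-(n : ℤ)) := by
  classical
  constructor
  · intro hF n
    have h1 : subTQ Q ≤ rkB_S Q := by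
      unfold subTQ
      refine Algebra.adjoin_le ?_
      intro G hG m
      simp only [Set.mem_insert_iff, Set.mem_singleton_iff] at hG
      rcases hG with rfl | rfl | rfl
      · rw [LaurentPolynomial.T_apply]
        split_ifs with h
        · subst h
          simp
        · exact dvd_zero _
      · rw [LaurentPolynomial.C_apply]
        split_ifs with h
        · subst h
          simp
        · exact dvd_zero _
      · rw [← LaurentPolynomial.single_eq_C_mul_T, AddMonoidAlgebra.coeff_single, Finsupp.single_apply]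
        split_ifs with h
        · subst h
          simp
        · exact dvd_zero _
    have h2 := h1 hF (-(n : ℤ))
    have h3 : (-(-(n : ℤ))).toNat = n := by omega
    rwa [h3] at h2
  · intro h
    have hT : (LaurentPolynomial.T 1 : LaurentPolynomial (Polynomial ℂ)) ∈ subTQ Q :=
      Algebra.subset_adjoin (by simp)
    have hQ : (LaurentPolynomial.C Q * LaurentPolynomial.T (-1) : LaurentPolynomial (Polynomial ℂ)) ∈
        subTQ Q := Algebra.subset_adjoin (by simp)
    have hF : F = ∑ m ∈ F.coeff.support, LaurentPolynomial.C (F.coeff m) * LaurentPolynomial.T m := by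
      apply LaurentPolynomial.ext
      intro a
      rw [AddMonoidAlgebra.coeff_sum, Finsupp.finsetSum_apply]
      have h1 : ∀ m ∈ F.coeff.support, (LaurentPolynomial.C (F.coeff m) * LaurentPolynomial.T m :
          LaurentPolynomial (Polynomial ℂ)).coeff a = if m = a then F.coeff m else 0 := by
        intro m _
        rw [← LaurentPolynomial.single_eq_C_mul_T, AddMonoidAlgebra.coeff_single, Finsupp.single_apply]
      rw [Finset.sum_congr rfl h1, Finset.sum_ite_eq' F.coeff.support a (fun m => F.coeff m)]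
      split_ifs with h2
      · rfl
      · exact Finsupp.notMem_support_iff.1 h2
    rw [hF]
    refine Subalgebra.sum_mem _ (fun m _ => ?_)
    rcases le_or_gt 0 m with hm | hm
    · refine Subalgebra.mul_mem _ (rkB_C_mem Q _) ?_
      obtain ⟨k, rfl⟩ := Int.eq_ofNat_of_zero_le hm
      have h1 : (LaurentPolynomial.T (k : ℤ) : LaurentPolynomial (Polynomial ℂ)) =
          LaurentPolynomial.T 1 ^ k := by
        rw [LaurentPolynomial.T_pow, mul_one]
      rw [h1]
      exact Subalgebra.pow_mem _ hT k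
    · obtain ⟨k, hk⟩ := Int.eq_ofNat_of_zero_le (show 0 ≤ -m by omega)
      have hm' : m = -(k : ℤ) := by omega
      subst hm'
      obtain ⟨G, hG⟩ := h k
      rw [hG]
      have h1 : (LaurentPolynomial.C (Q ^ k * G) * LaurentPolynomial.T (-(k : ℤ)) :
          LaurentPolynomial (Polynomial ℂ)) =
          LaurentPolynomial.C G * (LaurentPolynomial.C Q * LaurentPolynomial.T (-1)) ^ k := by
        rw [mul_pow, LaurentPolynomial.T_pow, map_mul, map_pow]
        rw [show (k : ℤ) * (-1) = -(k : ℤ) by ring]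
        ring
      rw [h1]
      exact Subalgebra.mul_mem _ (rkB_C_mem Q _) (Subalgebra.pow_mem _ hQ k)

/-- the substitution `T = r + σ`, `x = x' σ^μ`: the ring map `ℂ[T][x^{±1}] → ℂ(x')(σ)`. -/
theorem exists_subst (r : ℂ) (μ : ℕ) : ∃ ψ : LaurentPolynomial (Polynomial ℂ) →ₐ[ℂ] RatFunc (RatFunc ℂ),
    ψ (T 1) = RatFunc.C (RatFunc.X : RatFunc ℂ) * (RatFunc.X : RatFunc (RatFunc ℂ)) ^ μ ∧
    ψ (T (-1)) = (RatFunc.C (RatFunc.X : RatFunc ℂ) * (RatFunc.X : RatFunc (RatFunc ℂ)) ^ μ)⁻¹ ∧
    ψ (LaurentPolynomial.C Polynomial.X) = RatFunc.C (RatFunc.C r) + (RatFunc.X : RatFunc (RatFunc ℂ)) := by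
  set y : RatFunc (RatFunc ℂ) :=
    RatFunc.C (RatFunc.X : RatFunc ℂ) * (RatFunc.X : RatFunc (RatFunc ℂ)) ^ μ with hydef
  have hdom : IsDomain (RatFunc (RatFunc ℂ)) := inferInstance
  have hy : y ≠ 0 := by
    refine mul_ne_zero ?_ (pow_ne_zero _ RatFunc.X_ne_zero)
    rw [Ne, map_eq_zero]
    exact RatFunc.X_ne_zero
  set f : Polynomial ℂ →ₐ[ℂ] RatFunc (RatFunc ℂ) :=
    Polynomial.aeval (RatFunc.C (RatFunc.C r) + (RatFunc.X : RatFunc (RatFunc ℂ))) with hf
  set ψ0 : LaurentPolynomial (Polynomial ℂ) →+* RatFunc (RatFunc ℂ) :=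
    LaurentPolynomial.eval₂ (f : Polynomial ℂ →+* RatFunc (RatFunc ℂ)) (Units.mk0 y hy) with hψ0
  refine ⟨{ ψ0 with
    commutes' := fun c => ?_ }, ?_, ?_, ?_⟩
  · have h1 : ψ0 (algebraMap ℂ (LaurentPolynomial (Polynomial ℂ)) c) = algebraMap ℂ _ c := by
      rw [LaurentPolynomial.algebraMap_apply, hψ0, LaurentPolynomial.eval₂_C]
      exact f.commutes c
    exact h1
  · have h1 : ψ0 (LaurentPolynomial.T 1) = y := by
      have h2 := LaurentPolynomial.eval₂_T (f : Polynomial ℂ →+* RatFunc (RatFunc ℂ)) (Units.mk0 y hy) 1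
      rw [hψ0, h2, zpow_one]
      rfl
    exact h1
  · have h1 : ψ0 (LaurentPolynomial.T (-1)) = y⁻¹ := by
      have h2 := LaurentPolynomial.eval₂_T (f : Polynomial ℂ →+* RatFunc (RatFunc ℂ)) (Units.mk0 y hy) (-1)
      rw [hψ0, h2, zpow_neg, zpow_one]
      rfl
    exact h1
  · have h1 : ψ0 (LaurentPolynomial.C Polynomial.X) = RatFunc.C (RatFunc.C r) + RatFunc.X := by
      rw [hψ0, LaurentPolynomial.eval₂_C]
      exact Polynomial.aeval_X _
    exact h1

private noncomputable def rkB_hat (r : ℂ) (p : Polynomial ℂ) : Polynomial (RatFunc ℂ) :=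
  (p.comp (Polynomial.X + Polynomial.C r)).map (algebraMap ℂ (RatFunc ℂ))

private theorem rkB_psi_C (r : ℂ) (ψ : LaurentPolynomial (Polynomial ℂ) →ₐ[ℂ] RatFunc (RatFunc ℂ))
    (h3 : ψ (LaurentPolynomial.C Polynomial.X) =
      RatFunc.C (RatFunc.C r) + (RatFunc.X : RatFunc (RatFunc ℂ))) (p : Polynomial ℂ) :
    ψ (LaurentPolynomial.C p) =
      algebraMap (Polynomial (RatFunc ℂ)) (RatFunc (RatFunc ℂ)) (rkB_hat r p) := by
  induction p using Polynomial.induction_on with
  | C a =>
    have h : (LaurentPolynomial.C (Polynomial.C a) : LaurentPolynomial (Polynomial ℂ)) =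
      algebraMap ℂ _ a := by
        rw [LaurentPolynomial.algebraMap_apply]
        rfl
    rw [h, AlgHom.commutes]
    simp only [rkB_hat, Polynomial.C_comp, Polynomial.map_C]
    have h2 : (Polynomial.C (algebraMap ℂ (RatFunc ℂ) a) : Polynomial (RatFunc ℂ)) =
      algebraMap ℂ (Polynomial (RatFunc ℂ)) a := rfl
    rw [h2, ← IsScalarTower.algebraMap_apply ℂ (Polynomial (RatFunc ℂ)) (RatFunc (RatFunc ℂ))]
  | add p q hp hq =>
    rw [map_add, map_add, hp, hq, ← map_add]
    simp [rkB_hat]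
  | monomial n a ih =>
    rw [pow_succ, ← mul_assoc, map_mul, map_mul, ih, h3]
    have h4 : rkB_hat r (Polynomial.C a * Polynomial.X ^ n * Polynomial.X) =
        rkB_hat r (Polynomial.C a * Polynomial.X ^ n) *
          (Polynomial.X + Polynomial.C (algebraMap ℂ (RatFunc ℂ) r)) := by
      simp [rkB_hat]
    rw [h4, map_mul, map_add, RatFunc.algebraMap_X, RatFunc.algebraMap_C, add_comm]
    rfl

private theorem rkB_psi_poly (r : ℂ) (μ : ℕ)
    (ψ : LaurentPolynomial (Polynomial ℂ) →ₐ[ℂ] RatFunc (RatFunc ℂ))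
    (h1 : ψ (LaurentPolynomial.T 1) =
      RatFunc.C (RatFunc.X : RatFunc ℂ) * (RatFunc.X : RatFunc (RatFunc ℂ)) ^ μ)
    (h3 : ψ (LaurentPolynomial.C Polynomial.X) =
      RatFunc.C (RatFunc.C r) + (RatFunc.X : RatFunc (RatFunc ℂ))) (G : Polynomial (Polynomial ℂ)) :
    ψ (Polynomial.toLaurent G) = algebraMap (Polynomial (RatFunc ℂ)) (RatFunc (RatFunc ℂ))
      (∑ k ∈ Finset.range (G.natDegree + 1), rkB_hat r (G.coeff k) *
        (Polynomial.C (RatFunc.X : RatFunc ℂ) * Polynomial.X ^ μ) ^ k) := by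
  conv_lhs => rw [G.as_sum_range_C_mul_X_pow]
  rw [map_sum, map_sum, map_sum]
  refine Finset.sum_congr rfl (fun k _ => ?_)
  rw [map_mul, map_pow, map_mul, map_pow, Polynomial.toLaurent_C, Polynomial.toLaurent_X, h1,
    rkB_psi_C r ψ h3, map_mul, map_pow, map_mul, map_pow, RatFunc.algebraMap_X, RatFunc.algebraMap_C]

private theorem rkB_coeff (r : ℂ) (μ : ℕ) (G : Polynomial (Polynomial ℂ)) (j : ℕ) :
    (∑ k ∈ Finset.range (G.natDegree + 1), rkB_hat r (G.coeff k) *
        (Polynomial.C (RatFunc.X : RatFunc ℂ) * Polynomial.X ^ μ) ^ k).coeff j =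
      algebraMap (Polynomial ℂ) (RatFunc ℂ) (∑ k ∈ Finset.range (G.natDegree + 1),
        Polynomial.C (((G.coeff k).comp (Polynomial.X + Polynomial.C r) * Polynomial.X ^ (μ * k)).coeff j)
          * Polynomial.X ^ k) := by
  rw [Polynomial.finsetSum_coeff, map_sum]
  refine Finset.sum_congr rfl (fun k _ => ?_)
  have h1 : rkB_hat r (G.coeff k) *
        (Polynomial.C (RatFunc.X : RatFunc ℂ) * Polynomial.X ^ μ) ^ k =
      Polynomial.C ((RatFunc.X : RatFunc ℂ) ^ k) *
        (((G.coeff k).comp (Polynomial.X + Polynomial.C r) * Polynomial.X ^ (μ * k)).map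
          (algebraMap ℂ (RatFunc ℂ))) := by
    unfold rkB_hat
    rw [Polynomial.map_mul, Polynomial.map_pow, Polynomial.map_X, mul_pow, ← pow_mul, map_pow]
    ring
  rw [h1, Polynomial.coeff_C_mul, Polynomial.coeff_map, map_mul, map_pow, RatFunc.algebraMap_X,
    mul_comm]
  congr 1

private theorem rkB_dvd (r : ℂ) (μ N' n k : ℕ) (G : Polynomial (Polynomial ℂ))
    (P : Polynomial (RatFunc ℂ)) (hk : N' = k + n)
    (h : (∑ k ∈ Finset.range (G.natDegree + 1), rkB_hat r (G.coeff k) *
        (Polynomial.C (RatFunc.X : RatFunc ℂ) * Polynomial.X ^ μ) ^ k) =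
        P * (Polynomial.C (RatFunc.X : RatFunc ℂ) * Polynomial.X ^ μ) ^ N') :
    (Polynomial.X - Polynomial.C r) ^ (n * μ) ∣ G.coeff k := by
  by_cases hkr : k ∈ Finset.range (G.natDegree + 1)
  · have h1 : Polynomial.X ^ (μ * N') ∣
        ((G.coeff k).comp (Polynomial.X + Polynomial.C r) * Polynomial.X ^ (μ * k)) := by
      rw [Polynomial.X_pow_dvd_iff]
      intro j hj
      have h2 : (P * (Polynomial.C (RatFunc.X : RatFunc ℂ) * Polynomial.X ^ μ) ^ N').coeff j = 0 := by
        have h3 : Polynomial.X ^ (μ * N') ∣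
            (P * (Polynomial.C (RatFunc.X : RatFunc ℂ) * Polynomial.X ^ μ) ^ N') := by
          rw [mul_pow, ← pow_mul]
          exact Dvd.dvd.mul_left (Dvd.dvd.mul_left (dvd_refl _) _) _
        exact Polynomial.X_pow_dvd_iff.1 h3 j hj
      rw [← h, rkB_coeff] at h2
      have h4 := (map_eq_zero_iff _ (RatFunc.algebraMap_injective ℂ)).1 h2
      have h5 := congrArg (fun q => Polynomial.coeff q k) h4
      simp only [Polynomial.finsetSum_coeff, Polynomial.coeff_C_mul_X_pow, Polynomial.coeff_zero] at h5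
      rw [Finset.sum_eq_single k] at h5
      · simpa using h5
      · intro b _ hb
        rw [if_neg (Ne.symm hb)]
      · intro hh
        exact absurd hkr hh
    have h6 : Polynomial.X ^ (μ * n) ∣ (G.coeff k).comp (Polynomial.X + Polynomial.C r) := by
      rw [hk, mul_add, pow_add, mul_comm] at h1
      exact (mul_dvd_mul_iff_right (pow_ne_zero _ Polynomial.X_ne_zero)).1 h1
    obtain ⟨H, hH⟩ := h6
    have h7 : G.coeff k = ((G.coeff k).comp (Polynomial.X + Polynomial.C r)).comp
        (Polynomial.X - Polynomial.C r) := by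
      rw [Polynomial.comp_assoc]
      simp
    rw [h7, hH, Polynomial.mul_comp, Polynomial.pow_comp, Polynomial.X_comp, mul_comm n μ]
    exact dvd_mul_right _ _
  · rw [Polynomial.coeff_eq_zero_of_natDegree_lt (by rw [Finset.mem_range] at hkr; omega)]
    exact dvd_zero _

/-- the exponent of `T - r`: if `F` is integral over `ℂ[x, Q(T)/x]` then its image under the substitution is integral
over `ℂ(x')[σ]`, which is integrally closed, so it is in `ℂ(x')[σ]`; compare the coefficients of `x'^m`. -/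
theorem root_pow_dvd {Q : Polynomial ℂ} (hQ : Q ≠ 0) {F : LaurentPolynomial (Polynomial ℂ)}
    (hF : IsIntegral (subQ Q) F) (r : ℂ) (n : ℕ) :
    (Polynomial.X - Polynomial.C r) ^ (n * Q.rootMultiplicity r) ∣ F.coeff (-(n : ℤ)) := by
  set μ : ℕ := Q.rootMultiplicity r with hμ
  obtain ⟨ψ, h1, h2, h3⟩ := exists_subst r μ
  have hdom : IsDomain (RatFunc (RatFunc ℂ)) := inferInstance
  -- the image of `subQ Q` is in the image of `ℂ(x')[σ]`
  set iota : Polynomial (RatFunc ℂ) →ₐ[ℂ] RatFunc (RatFunc ℂ) :=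
    IsScalarTower.toAlgHom ℂ (Polynomial (RatFunc ℂ)) (RatFunc (RatFunc ℂ)) with hiota
  have hinj : Function.Injective iota := RatFunc.algebraMap_injective (RatFunc ℂ)
  have hy : (RatFunc.C (RatFunc.X : RatFunc ℂ) : RatFunc (RatFunc ℂ)) ≠ 0 := by
    rw [Ne, map_eq_zero]
    exact RatFunc.X_ne_zero
  have hrange : ∀ G ∈ subQ Q, ψ G ∈ iota.range := by
    have h4 : subQ Q ≤ iota.range.comap ψ := by
      unfold subQ
      refine Algebra.adjoin_le ?_
      intro G hG
      simp only [Set.mem_insert_iff, Set.mem_singleton_iff] at hG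
      rcases hG with rfl | rfl
      · show ψ _ ∈ iota.range
        rw [h1]
        refine ⟨Polynomial.C RatFunc.X * Polynomial.X ^ μ, ?_⟩
        show algebraMap (Polynomial (RatFunc ℂ)) (RatFunc (RatFunc ℂ)) _ = _
        rw [map_mul, map_pow, RatFunc.algebraMap_X, RatFunc.algebraMap_C]
      · show ψ _ ∈ iota.range
        obtain ⟨Q1, hQ1, _⟩ := Polynomial.exists_eq_pow_rootMultiplicity_mul_and_not_dvd Q hQ r
        rw [map_mul, h2, rkB_psi_C r ψ h3]
        refine ⟨rkB_hat r Q1 * Polynomial.C (RatFunc.X)⁻¹, ?_⟩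
        show algebraMap (Polynomial (RatFunc ℂ)) (RatFunc (RatFunc ℂ)) _ = _
        have h5 : rkB_hat r Q = Polynomial.X ^ μ * rkB_hat r Q1 := by
          conv_lhs => rw [hQ1]
          simp [rkB_hat, hμ]
        rw [h5, map_mul, map_mul, map_pow, RatFunc.algebraMap_X, RatFunc.algebraMap_C, map_inv₀]
        have hX : (RatFunc.X : RatFunc (RatFunc ℂ)) ^ μ ≠ 0 := pow_ne_zero _ RatFunc.X_ne_zero
        field_simp
    exact h4
  set e := AlgEquiv.ofInjective iota hinj with he
  set φ : subQ Q →ₐ[ℂ] Polynomial (RatFunc ℂ) :=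
    (e.symm : iota.range →ₐ[ℂ] Polynomial (RatFunc ℂ)).comp
      ((ψ.comp (subQ Q).val).codRestrict iota.range (fun G => hrange G.1 G.2)) with hφ
  have hφ2 : ∀ G : subQ Q, algebraMap (Polynomial (RatFunc ℂ)) (RatFunc (RatFunc ℂ)) (φ G) = ψ G := by
    intro G
    have h4 : e (φ G) = (ψ.comp (subQ Q).val).codRestrict iota.range (fun G => hrange G.1 G.2) G := by
      rw [hφ]
      exact e.apply_symm_apply _
    exact congrArg Subtype.val h4
  have hint : IsIntegral (Polynomial (RatFunc ℂ)) (ψ F) := by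
    refine IsIntegral.map_of_comp_eq (φ : subQ Q →+* Polynomial (RatFunc ℂ))
      (ψ : LaurentPolynomial (Polynomial ℂ) →+* RatFunc (RatFunc ℂ)) ?_ hF
    apply RingHom.ext
    intro G
    exact hφ2 G
  obtain ⟨P, hP⟩ := (IsIntegrallyClosed.isIntegral_iff (R := Polynomial (RatFunc ℂ))
    (K := RatFunc (RatFunc ℂ))).1 hint
  obtain ⟨N, G, hG⟩ := LaurentPolynomial.exists_T_pow F
  have hG2 : Polynomial.toLaurent (G * Polynomial.X ^ n) = F * LaurentPolynomial.T 1 ^ (N + n) := by
    rw [map_mul, hG, Polynomial.toLaurent_X_pow, LaurentPolynomial.T_pow, mul_one,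
      LaurentPolynomial.mul_T_assoc]
    push_cast
    rfl
  have h6 := rkB_psi_poly r μ ψ h1 h3 (G * Polynomial.X ^ n)
  rw [hG2, map_mul, map_pow, h1, ← hP] at h6
  have h7 := rkB_dvd r μ (N + n) n N (G * Polynomial.X ^ n) P rfl (by
    apply RatFunc.algebraMap_injective (RatFunc ℂ)
    rw [← h6, map_mul, map_pow, map_mul, map_pow, RatFunc.algebraMap_X, RatFunc.algebraMap_C])
  have h8 : F.coeff (-(n : ℤ)) = (G * Polynomial.X ^ n).coeff N := by
    have h9 : F = Polynomial.toLaurent (G * Polynomial.X ^ n) * LaurentPolynomial.T (-((N + n : ℕ) : ℤ)) := by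
      rw [hG2, LaurentPolynomial.T_pow, mul_one, LaurentPolynomial.mul_T_assoc]
      simp
    rw [h9]
    have h10 : ∀ (A : LaurentPolynomial (Polynomial ℂ)) (a c : ℤ),
        (A * LaurentPolynomial.T a).coeff c = A.coeff (c - a) := by
      intro A a c
      have := AddMonoidAlgebra.coeff_mul_single_eq_coeff_mul (x := A) (m := a) (m₁ := c) (r := (1 : Polynomial ℂ))
        (c - a) (fun m' _ => by constructor <;> intro h <;> omega)
      rw [mul_one] at this
      exact this
    rw [h10]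
    have h11 : (-(n : ℤ) - -((N + n : ℕ) : ℤ)) = (N : ℤ) := by push_cast; ring
    rw [h11, LaurentPolynomial.coeff_toLaurent]
    exact Finsupp.mapDomain_apply Nat.cast_injective _ _
  rw [h8]
  exact h7

/-- main statement of this file. -/
theorem mem_subTQ_of_integral {Q : Polynomial ℂ} (hQ : Q.Monic) {F : LaurentPolynomial (Polynomial ℂ)}
    (hF : IsIntegral (subQ Q) F) : F ∈ subTQ Q := by
  classical
  rw [mem_subTQ_iff]
  intro n
  by_cases h0 : F.coeff (-(n : ℤ)) = 0
  · rw [h0]
    exact dvd_zero _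
  · rw [IsAlgClosed.dvd_iff_roots_le_roots (pow_ne_zero _ hQ.ne_zero) h0, Multiset.le_iff_count]
    intro r
    rw [Polynomial.count_roots, Polynomial.count_roots, Polynomial.le_rootMultiplicity_iff h0]
    have h1 : Polynomial.rootMultiplicity r (Q ^ n) = n * Q.rootMultiplicity r := by
      rw [← Polynomial.count_roots, Polynomial.roots_pow, Multiset.count_nsmul, Polynomial.count_roots]
    rw [h1]
    exact root_pow_dvd hQ.ne_zero hF r n

end Pool.Agent.CM64
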