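import Pool.Agent.LibCM64.ResB
import Pool.Agent.LibCM64.Fq
import Pool.Agent.LibCM64.RkA

/-! Rank one (`dim V^τ = 1`): restrictions of the invariants. -/

set_option linter.unusedSectionVars false

namespace Pool.Agent.CM64

open Module MvPolynomial

section

variable {V : Type} [AddCommGroup V] [Module ℂ V] [FiniteDimensional ℂ V]
variable {ι : Type} [Fintype ι] [DecidableEq ι] {κ : Type} [Fintype κ] [DecidableEq κ]
variable (Γ : Subgroup (V ≃ₗ[ℂ] V)) [Finite Γ] (τ : V ≃ₗ[ℂ] V)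

/-- the number of elements of `Γ` commuting with `τ`. -/
noncomputable def eFix : ℕ := Nat.card {g : V ≃ₗ[ℂ] V // g ∈ Γ ∧ g * τ = τ * g}

private theorem rkc_finite : Finite {g : V ≃ₗ[ℂ] V // g ∈ Γ ∧ g * τ = τ * g} :=
  Finite.of_injective (fun x : {g : V ≃ₗ[ℂ] V // g ∈ Γ ∧ g * τ = τ * g} => (⟨x.1, x.2.1⟩ : Γ))
    (fun _ _ h => Subtype.ext (congrArg (fun z : Γ => (z : V ≃ₗ[ℂ] V)) h))

theorem eFix_pos : 0 < eFix Γ τ := by
  have := rkc_finite Γ τ
  have : Nonempty {g : V ≃ₗ[ℂ] V // g ∈ Γ ∧ g * τ = τ * g} := ⟨⟨1, Γ.one_mem, by rw [one_mul, mul_one]⟩⟩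
  exact Nat.card_pos

theorem eFix_dual : eFix (dualGrp Γ) (dgHom V τ) = eFix Γ τ := by
  unfold eFix
  symm
  refine Nat.card_congr (Equiv.ofBijective (fun x : {g : V ≃ₗ[ℂ] V // g ∈ Γ ∧ g * τ = τ * g} =>
    (⟨dgHom V x.1, ⟨x.1, x.2.1, rfl⟩, by rw [← map_mul, x.2.2, map_mul]⟩ :
      {h : Dual ℂ V ≃ₗ[ℂ] Dual ℂ V // h ∈ dualGrp Γ ∧ h * dgHom V τ = dgHom V τ * h})) ⟨?_, ?_⟩)
  · intro x y h
    exact Subtype.ext (dgHom_injective (congrArg Subtype.val h))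
  · rintro ⟨h, ⟨g, hg, rfl⟩, hc⟩
    refine ⟨⟨g, hg, ?_⟩, rfl⟩
    rw [← map_mul, ← map_mul] at hc
    exact dgHom_injective hc

variable {Γ τ}

/-- a nonzero free vector of `U`. -/
private theorem rkc_nonzero {u : V} (hu : ∀ g ∈ Γ, g u = u → g = 1) (hτu : τ u = u)
    (hU : finrank ℂ (fixSub τ) = 1) :
    ∃ u' : V, u' ≠ 0 ∧ τ u' = u' ∧ ∀ g ∈ Γ, g u' = u' → g = 1 := by
  by_cases h0 : u = 0
  · subst h0
    have h1 : ∀ g ∈ Γ, g = 1 := fun g hg => hu g hg (map_zero g)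
    have : Nontrivial (fixSub τ) := Module.nontrivial_of_finrank_pos (R := ℂ) (by omega)
    obtain ⟨u', hu'⟩ := exists_ne (0 : fixSub τ)
    exact ⟨u', fun h => hu' (Subtype.ext h), u'.2, fun g hg _ => h1 g hg⟩
  · exact ⟨u, h0, hτu, hu⟩

private theorem rkc_span {u : V} (h0 : u ≠ 0) (hτu : τ u = u) (hU : finrank ℂ (fixSub τ) = 1) {v : V}
    (hv : v ∈ fixSub τ) : ∃ c : ℂ, v = c • u := by
  have h1 : (⟨u, hτu⟩ : fixSub τ) ≠ 0 := fun h => h0 (congrArg Subtype.val h)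
  obtain ⟨c, hc⟩ := (finrank_eq_one_iff_of_nonzero' (⟨u, hτu⟩ : fixSub τ) h1).1 hU ⟨v, hv⟩
  exact ⟨c, (congrArg Subtype.val hc).symm⟩

private theorem rkc_ne {b : Basis ι ℂ V} {f : ι → Px ι} {d : ι → ℕ} {θ : ι → ℂ} (hB : Basic Γ τ b f d θ)
    {u : V} (h0 : u ≠ 0) (hτu : τ u = u) {i₀ : ι} (hi : ∀ i, θ i = 1 → i = i₀) : evP b u (f i₀) ≠ 0 := by
  intro h
  apply h0
  apply basic_zero hB
  intro i
  by_cases hi' : θ i = 1
  · rw [hi i hi', h]
  · exact basic_vanish hB hτu hi'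

private theorem rkc_comm {u : V} (hτ : Normalizes τ Γ) (hu : ∀ g ∈ Γ, g u = u → g = 1) (hτu : τ u = u)
    {g : V ≃ₗ[ℂ] V} (hg : g ∈ Γ) {ζ : ℂ} (h : g u = ζ • u) : g * τ = τ * g := by
  have h1 : τ * g * τ⁻¹ ∈ Γ := (hτ g).1 hg
  have h2 : (τ⁻¹ : V ≃ₗ[ℂ] V) u = u := by
    have h3 : τ.symm u = u := by rw [LinearEquiv.symm_apply_eq, hτu]
    exact h3
  have h3 : (g⁻¹ * (τ * g * τ⁻¹)) u = u := by
    rw [LinearEquiv.mul_apply, LinearEquiv.mul_apply, LinearEquiv.mul_apply, h2, h, map_smul, hτu, ← h]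
    exact LinearEquiv.symm_apply_apply g u
  have h4 := hu _ (Γ.mul_mem (Γ.inv_mem hg) h1) h3
  have h5 : τ * g * τ⁻¹ = g := by
    have := congrArg (fun x => g * x) h4
    simpa [mul_assoc] using this
  calc g * τ = τ * g * τ⁻¹ * τ := by rw [h5]
    _ = τ * g := by group

private theorem rkc_root {b : Basis ι ℂ V} {f : ι → Px ι} {d : ι → ℕ} {θ : ι → ℂ} (hB : Basic Γ τ b f d θ)
    (hτ : Normalizes τ Γ) {u : V} (hu : ∀ g ∈ Γ, g u = u → g = 1) (hτu : τ u = u) {i₀ : ι}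
    (hi : ∀ i, θ i = 1 → i = i₀) {ζ : ℂ} (hζ : ζ ^ d i₀ = 1) :
    ∃ g ∈ Γ, g * τ = τ * g ∧ g u = ζ • u := by
  have h1 : ∀ i, evP b u (f i) = evP b (ζ • u) (f i) := by
    intro i
    rw [evP_smul b (hB.hom i)]
    by_cases hi' : θ i = 1
    · rw [hi i hi', hζ, one_mul]
    · rw [basic_vanish hB hτu hi', mul_zero]
  obtain ⟨g, hg, h2⟩ := basic_orbit hB h1
  exact ⟨g, hg, rkc_comm hτ hu hτu hg h2.symm, h2.symm⟩

/-- if `dim V^τ = 1` exactly one `θ_i` is `1` and the degree of `f_i` is `|Γ^τ|`: `f_i(u) ≠ 0`; if `ζ^{d_i} = 1` then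
`ζ u` and `u` have the same invariants, so `ζ u = g u`, and `g` commutes with `τ` as `u` is free; conversely `Γ^τ` acts on
`U` by scalars, faithfully. -/
theorem rk_deg {b : Basis ι ℂ V} {f : ι → Px ι} {d : ι → ℕ} {θ : ι → ℂ} (hB : Basic Γ τ b f d θ)
    (hτ : Normalizes τ Γ) {u : V} (hu : ∀ g ∈ Γ, g u = u → g = 1) (hτu : τ u = u)
    (hU : finrank ℂ (fixSub τ) = 1) :
    ∃ i₀, θ i₀ = 1 ∧ (∀ i, θ i = 1 → i = i₀) ∧ d i₀ = eFix Γ τ := by
  classical
  have hcard := basic_card hB hu hτu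
  rw [hU, Nat.card_eq_one_iff_exists] at hcard
  obtain ⟨⟨i₀, hi₀⟩, huniq⟩ := hcard
  have hi : ∀ i, θ i = 1 → i = i₀ := fun i hi => congrArg Subtype.val (huniq ⟨i, hi⟩)
  refine ⟨i₀, hi₀, hi, ?_⟩
  obtain ⟨u, h0, hτu, hu⟩ := rkc_nonzero hu hτu hU
  have hne := rkc_ne hB h0 hτu hi
  have hd := hB.pos i₀
  -- the character
  have hex : ∀ x : {g : V ≃ₗ[ℂ] V // g ∈ Γ ∧ g * τ = τ * g}, ∃ ζ : ℂ, x.1 u = ζ • u := by
    rintro ⟨g, hg, hc⟩
    apply rkc_span h0 hτu hU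
    show τ (g u) = g u
    have h1 := congrArg (fun F : V ≃ₗ[ℂ] V => F u) hc
    have h2 : g (τ u) = τ (g u) := h1
    rw [← h2, hτu]
  choose χ hχ using hex
  have hinj : Function.Injective χ := by
    intro x y hxy
    apply Subtype.ext
    have h1 : (y.1⁻¹ * x.1) u = u := by
      rw [LinearEquiv.mul_apply, hχ x, hxy, ← hχ y]
      exact LinearEquiv.symm_apply_apply y.1 u
    have h2 := hu _ (Γ.mul_mem (Γ.inv_mem y.2.1) x.2.1) h1
    have h3 := inv_mul_eq_one.1 h2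
    exact h3.symm
  have hrange : Set.range χ = {ζ : ℂ | ζ ^ d i₀ = 1} := by
    ext ζ
    constructor
    · rintro ⟨x, rfl⟩
      have h1 := evP_trP b b x.1 (x.1 u) (f i₀)
      rw [hB.inv i₀ x.1 x.2.1, LinearEquiv.symm_apply_apply, hχ x, evP_smul b (hB.hom i₀)] at h1
      have h2 : (χ x ^ d i₀ - 1) * evP b u (f i₀) = 0 := by rw [sub_mul, h1, one_mul, sub_self]
      rcases mul_eq_zero.1 h2 with h3 | h3
      · exact sub_eq_zero.1 h3
      · exact absurd h3 hne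
    · intro hζ
      obtain ⟨g, hg, hc, hgu⟩ := rkc_root hB hτ hu hτu hi hζ
      refine ⟨⟨g, hg, hc⟩, ?_⟩
      have h1 := hχ ⟨g, hg, hc⟩
      have h2 : (χ ⟨g, hg, hc⟩ - ζ) • u = 0 := by
        rw [sub_smul, ← h1, ← hgu, sub_self]
      rcases smul_eq_zero.1 h2 with h3 | h3
      · exact sub_eq_zero.1 h3
      · exact absurd h3 h0
  have h1 : eFix Γ τ = (Set.range χ).ncard := by
    unfold eFix
    rw [← Set.image_univ, Set.ncard_image_of_injective _ hinj, Set.ncard_univ]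
  have h2 : {ζ : ℂ | ζ ^ d i₀ = 1} = ((Polynomial.nthRootsFinset (d i₀) (1 : ℂ) : Finset ℂ) : Set ℂ) := by
    ext ζ
    simp only [Set.mem_ofPred_eq, Finset.mem_coe, Polynomial.mem_nthRootsFinset hd]
  rw [h1, hrange, h2, Set.ncard_coe_finset, (Complex.isPrimitiveRoot_exp _ hd.ne').card_nthRootsFinset]

/-- every root of unity of order dividing `|Γ^τ|` is realised. -/
theorem eFix_root (hΓ : ReflGen Γ) (hτ : Normalizes τ Γ) (hfin : IsOfFinOrder τ) {u : V}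
    (hu : ∀ g ∈ Γ, g u = u → g = 1) (hτu : τ u = u) (hU : finrank ℂ (fixSub τ) = 1) {ζ : ℂ}
    (hζ : ζ ^ eFix Γ τ = 1) : ∃ g ∈ Γ, g * τ = τ * g ∧ ∀ v ∈ fixSub τ, g v = ζ • v := by
  obtain ⟨f, d, θ, hB⟩ := exists_basic Γ τ hΓ hτ hfin (Module.finBasis ℂ V)
  obtain ⟨i₀, h1, hi, h3⟩ := rk_deg hB hτ hu hτu hU
  obtain ⟨u', h0, hτu', hu'⟩ := rkc_nonzero hu hτu hU
  obtain ⟨g, hg, hc, hgu⟩ := rkc_root hB hτ hu' hτu' hi (ζ := ζ) (by rw [h3, hζ])
  refine ⟨g, hg, hc, fun v hv => ?_⟩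
  obtain ⟨c, rfl⟩ := rkc_span h0 hτu' hU hv
  rw [map_smul, hgu, smul_comm]

/-- homogeneous polynomials in one variable. -/
private theorem rkc_hom {p : Px Unit} {n : ℕ} (hp : p.IsHomogeneous n) : ∃ c : ℂ, p = c • (X () : Px Unit) ^ n := by
  refine ⟨coeff (Finsupp.single () n) p, ?_⟩
  ext m
  obtain ⟨j, rfl⟩ : ∃ j, m = Finsupp.single () j := ⟨m (), by ext; simp⟩
  rw [coeff_smul, X_pow_eq_monomial, coeff_monomial]
  by_cases h : j = n
  · subst h
    rw [if_pos rfl, smul_eq_mul, mul_one]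
  · rw [if_neg, smul_zero]
    · by_contra hc
      have h1 := hp hc
      rw [Finsupp.weight_apply] at h1
      simp at h1
      exact h h1
    · intro hh
      have := congrArg (fun f => f ()) hh
      simp at this
      exact h this.symm

private theorem rkc_finrank (bU : Basis Unit ℂ ↥(fixSub τ)) : finrank ℂ (fixSub τ) = 1 := by
  rw [Module.finrank_eq_card_basis bU, Fintype.card_unit]

/-- invariants of `Γ` restrict to polynomials in `a^{|Γ^τ|}`. -/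
theorem rk_x (hΓ : ReflGen Γ) (hτ : Normalizes τ Γ) (hfin : IsOfFinOrder τ) {u : V}
    (hu : ∀ g ∈ Γ, g u = u → g = 1) (hτu : τ u = u) (b : Basis ι ℂ V) (bU : Basis Unit ℂ ↥(fixSub τ))
    {p : Px ι} (hp : PInv Γ b p) :
    ∃ P : Polynomial ℂ, resP τ b bU p = Polynomial.aeval ((X () : Px Unit) ^ eFix Γ τ) P := by
  obtain ⟨f, d, θ, hB⟩ := exists_basic Γ τ hΓ hτ hfin b
  obtain ⟨i₀, h1, hi, h3⟩ := rk_deg hB hτ hu hτu (rkc_finrank bU)
  have h4 : Algebra.adjoin ℂ (Set.range f) ≤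
      ((Polynomial.aeval ((X () : Px Unit) ^ eFix Γ τ) : Polynomial ℂ →ₐ[ℂ] Px Unit).range).comap
        (resP τ b bU) := by
    rw [Algebra.adjoin_le_iff]
    rintro _ ⟨i, rfl⟩
    show resP τ b bU (f i) ∈ (Polynomial.aeval ((X () : Px Unit) ^ eFix Γ τ) : Polynomial ℂ →ₐ[ℂ] Px Unit).range
    by_cases hi' : θ i = 1
    · have h5 : (resP τ b bU (f i)).IsHomogeneous (d i) := pbP_isHomogeneous bU b _ (hB.hom i)
      obtain ⟨c, hc⟩ := rkc_hom h5
      refine ⟨c • Polynomial.X, ?_⟩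
      show Polynomial.aeval ((X () : Px Unit) ^ eFix Γ τ) (c • Polynomial.X) = _
      rw [map_smul, Polynomial.aeval_X, hc, hi i hi', h3]
    · have h5 : resP τ b bU (f i) = 0 := by
        refine evP_ext bU (fun v => ?_)
        rw [evP_resP, map_zero]
        exact basic_vanish hB v.2 hi'
      rw [h5]
      exact Subalgebra.zero_mem _
  obtain ⟨P, hP⟩ := h4 (hB.gen p hp)
  exact ⟨P, hP.symm⟩

/-- restriction of polynomials on `V*` to `U* ⊂ V*` (embedded by `φ ↦ φ ∘ π`). -/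
theorem resR_xiR (hfin : IsOfFinOrder τ) (b : Basis ι ℂ V) (bU : Basis κ ℂ ↥(fixSub τ)) (q : Px ι) :
    resR τ b bU (xiR q) = xiR (pbP bU.dualBasis b.dualBasis (projT τ).dualMap q) := by
  have h : (resR τ b bU).comp (xiR : Px ι →ₐ[ℂ] Rx ι) =
      (xiR : Px κ →ₐ[ℂ] Rx κ).comp (pbP bU.dualBasis b.dualBasis (projT τ).dualMap) := by
    apply MvPolynomial.algHom_ext
    intro i
    have h1 : (b.dualBasis.coord i).comp (projT τ).dualMap = Dual.eval ℂ _ (projT τ (b i)) := by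
      ext φ
      rw [LinearMap.comp_apply, Basis.coord_apply, Basis.dualBasis_repr, Dual.eval_apply]
      rfl
    rw [AlgHom.comp_apply, AlgHom.comp_apply, xiR_X, ← yR_basis b i, resR_yR, pbP, aeval_X, h1, xiR_xl]
  exact congrArg (fun F => F q) h

/-- the properties of the basic invariant `q₀` on `V*` with `q₀|_{U*} = ξ^{e₀}`. -/
structure IsQ0 (b : Basis ι ℂ V) (bU : Basis Unit ℂ ↥(fixSub τ)) (q₀ : Px ι) : Prop where
  inv : PInv (dualGrp Γ) b.dualBasis q₀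
  hom : q₀.IsHomogeneous (eFix Γ τ)
  res : resR τ b bU (xiR q₀) = (X () : Rx Unit) ^ eFix Γ τ
  gen : ∀ q, PInv (dualGrp Γ) b.dualBasis q → ∃ P : Polynomial ℂ, (coeff 0 q = 0 → P.coeff 0 = 0) ∧
    ∀ k, Adm Γ k → Tp τ Γ Γ k k → ∀ s₀ s, ResRel τ b bU (fq Γ k b q₀) s₀ → ResRel τ b bU (fq Γ k b q) s →
      s = Polynomial.aeval s₀ P

/-- covectors fixed by `τ` come from `U*`. -/
private theorem rkc_covec (hfin : IsOfFinOrder τ) {φ : Dual ℂ V} (hφ : dgHom V τ φ = φ) :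
    (projT τ).dualMap (φ.comp (fixSub τ).subtype) = φ := by
  have h1 : ∀ v, φ (τ v) = φ v := by
    intro v
    have h2 : (dgHom V τ φ) (τ v) = φ (τ v) := by rw [hφ]
    rw [dgHom_apply, LinearMap.comp_apply, LinearEquiv.coe_coe, LinearEquiv.symm_apply_apply] at h2
    exact h2.symm
  have h2 : ∀ (j : ℕ) (v : V), φ ((τ ^ j : V ≃ₗ[ℂ] V) v) = φ v := by
    intro j
    induction j with
    | zero => intro v; rfl
    | succ j ih =>
      intro v
      rw [pow_succ', LinearEquiv.mul_apply, h1, ih]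
  ext v
  show φ ((projT τ v : ↥(fixSub τ)) : V) = φ v
  rw [projT_apply_coe, avgT, LinearMap.smul_apply, LinearMap.sum_apply, map_smul, map_sum]
  have h3 : ∀ j ∈ Finset.range (orderOf τ),
      φ (((τ ^ j : V ≃ₗ[ℂ] V) : V →ₗ[ℂ] V) v) = φ v := fun j _ => h2 j v
  have h4 : (orderOf τ : ℂ) ≠ 0 := by
    exact_mod_cast (orderOf_pos_iff.2 hfin).ne'
  rw [Finset.sum_congr rfl h3, Finset.sum_const, Finset.card_range, ← Nat.cast_smul_eq_nsmul ℂ, smul_smul,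
    inv_mul_cancel₀ h4, one_smul]

private theorem rkc_coeff_zero {q : Px ι} {n : ℕ} (hq : q.IsHomogeneous n) (hn : 0 < n) : coeff 0 q = 0 := by
  by_contra hc
  have h1 := hq hc
  rw [Finsupp.weight_apply] at h1
  simp at h1
  omega

/-- existence of `q₀`: `exists_basic`, `rk_deg` for `dualGrp Γ`, `dgHom V τ` (with `exists_free_covector`); the `f_{q_i}`
with `θ_i ≠ 1` restrict to `0` by `act_fq` and `ResRel.eq_zero_of_eigen`. -/
theorem exists_q0 (hΓ : ReflGen Γ) (hτ : Normalizes τ Γ) (hfin : IsOfFinOrder τ) {u : V}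
    (hu : ∀ g ∈ Γ, g u = u → g = 1) (hτu : τ u = u) (b : Basis ι ℂ V) (bU : Basis Unit ℂ ↥(fixSub τ)) :
    ∃ q₀ : Px ι, IsQ0 (Γ := Γ) (τ := τ) b bU q₀ := by
  obtain ⟨φ, hφ, hφfree⟩ := exists_free_covector hτ hfin hu hτu
  have hreg : IsRegular Γ τ := isRegular_of_free Γ hτu hu
  have hU : finrank ℂ (fixSub (dgHom V τ)) = 1 := by
    rw [finrank_fixSub_dual, rkc_finrank bU]
  obtain ⟨f, d, θ, hB⟩ := exists_basic (dualGrp Γ) (dgHom V τ) (reflGen_dual hΓ) (normalizes_dual hτ)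
    (isOfFinOrder_dual hfin) b.dualBasis
  obtain ⟨i₀, h1, hi, h3⟩ := rk_deg hB (normalizes_dual hτ) hφfree hφ hU
  rw [eFix_dual] at h3
  obtain ⟨φ, h0, hφ, -⟩ := rkc_nonzero hφfree hφ hU
  have hne := rkc_ne hB h0 hφ hi
  obtain ⟨c, hc⟩ := rkc_hom (pbP_isHomogeneous bU.dualBasis b.dualBasis (projT τ).dualMap (hB.hom i₀))
  have hc0 : c ≠ 0 := by
    rintro rfl
    rw [zero_smul] at hc
    apply hne
    have h5 := evP_pbP bU.dualBasis b.dualBasis (projT τ).dualMap (φ.comp (fixSub τ).subtype) (f i₀)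
    rw [hc, map_zero, rkc_covec hfin hφ] at h5
    exact h5.symm
  have hfi : f i₀ = c • (c⁻¹ • f i₀) := by rw [smul_smul, mul_inv_cancel₀ hc0, one_smul]
  refine ⟨c⁻¹ • f i₀, ?_, ?_, ?_, ?_⟩
  · intro g hg
    rw [map_smul, hB.inv i₀ g hg]
  · have h5 : c⁻¹ • f i₀ ∈ homogeneousSubmodule ι ℂ (d i₀) := Submodule.smul_mem _ _ (hB.hom i₀)
    rw [← h3]
    exact h5
  · rw [resR_xiR hfin, map_smul, hc, smul_smul, inv_mul_cancel₀ hc0, one_smul, map_pow, xiR_X, h3]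
  · intro q hq
    have key : PInv (dualGrp Γ) b.dualBasis q ∧ ∃ P : Polynomial ℂ, P.coeff 0 = coeff 0 q ∧
        ∀ k, Adm Γ k → Tp τ Γ Γ k k → ∀ s₀ s, ResRel τ b bU (fq Γ k b (c⁻¹ • f i₀)) s₀ →
          ResRel τ b bU (fq Γ k b q) s → s = Polynomial.aeval s₀ P := by
      have hmem := hB.gen q hq
      clear hq
      induction hmem using Algebra.adjoin_induction with
      | mem x hx =>
        obtain ⟨i, rfl⟩ := hx
        refine ⟨hB.inv i, ?_⟩
        by_cases hi' : θ i = 1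
        · refine ⟨c • Polynomial.X, ?_, ?_⟩
          · rw [Polynomial.coeff_smul, Polynomial.coeff_X_zero, smul_zero,
              rkc_coeff_zero (hB.hom i) (hB.pos i)]
          · intro k hk hT s₀ s hs₀ hs
            rw [hi i hi', hfi, fq_smul] at hs
            rw [ResRel.unique hs (ResRel.smul c hs₀), map_smul, Polynomial.aeval_X]
        · refine ⟨0, ?_, ?_⟩
          · rw [Polynomial.coeff_zero, rkc_coeff_zero (hB.hom i) (hB.pos i)]
          · intro k hk hT s₀ s hs₀ hs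
            rw [map_zero]
            refine ResRel.eq_zero_of_eigen hfin hs hi' ?_
            rw [act_fq Γ k b hT hk, hB.eig i, fq_smul]
      | algebraMap r =>
        refine ⟨fun g _ => (trP b.dualBasis b.dualBasis g).commutes r, Polynomial.C r, ?_, ?_⟩
        · rw [Polynomial.coeff_C_zero, MvPolynomial.algebraMap_eq, coeff_C, if_pos rfl]
        · intro k hk hT s₀ s hs₀ hs
          have h6 : fq Γ k b (algebraMap ℂ (Px ι) r) = algebraMap ℂ (Ax ι) r := by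
            rw [Algebra.algebraMap_eq_smul_one, fq_smul, fq_one, ← Algebra.algebraMap_eq_smul_one]
          rw [h6] at hs
          rw [ResRel.unique hs (ResRel.const r), Polynomial.aeval_C]
      | add x y hx hy ihx ihy =>
        obtain ⟨hx1, P, hP, hx2⟩ := ihx
        obtain ⟨hy1, P', hP', hy2⟩ := ihy
        refine ⟨fun g hg => by rw [map_add, hx1 g hg, hy1 g hg], P + P', ?_, ?_⟩
        · rw [Polynomial.coeff_add, hP, hP', coeff_add]
        · intro k hk hT s₀ s hs₀ hs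
          obtain ⟨s1, hs1⟩ := exists_res Γ k τ hreg b bU (fq_mem Γ k b x)
          obtain ⟨s2, hs2⟩ := exists_res Γ k τ hreg b bU (fq_mem Γ k b y)
          rw [fq_add] at hs
          rw [ResRel.unique hs (ResRel.add hs1 hs2), hx2 k hk hT s₀ s1 hs₀ hs1, hy2 k hk hT s₀ s2 hs₀ hs2,
            map_add]
      | mul x y hx hy ihx ihy =>
        obtain ⟨hx1, P, hP, hx2⟩ := ihx
        obtain ⟨hy1, P', hP', hy2⟩ := ihy
        refine ⟨fun g hg => by rw [map_mul, hx1 g hg, hy1 g hg], P * P', ?_, ?_⟩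
        · rw [Polynomial.mul_coeff_zero, hP, hP', ← MvPolynomial.constantCoeff_eq, map_mul]
        · intro k hk hT s₀ s hs₀ hs
          obtain ⟨s1, hs1⟩ := exists_res Γ k τ hreg b bU (fq_mem Γ k b x)
          obtain ⟨s2, hs2⟩ := exists_res Γ k τ hreg b bU (fq_mem Γ k b y)
          rw [fq_mul Γ k hk b x hy1] at hs
          rw [ResRel.unique hs (ResRel.mul hs2 hs1), hx2 k hk hT s₀ s1 hs₀ hs1, hy2 k hk hT s₀ s2 hs₀ hs2,
            map_mul, mul_comm]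
    obtain ⟨-, P, hP, h⟩ := key
    exact ⟨P, fun h0 => by rw [hP, h0], h⟩

end

end Pool.Agent.CM64
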