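import Pool.Agent.LibCM64.RkC
import Pool.Agent.LibCM64.RkB

/-! Rank one: the polynomial `Q_k` and the shape of the restrictions of `M_k^Γ`. -/

set_option linter.unusedSectionVars false

namespace Pool.Agent.CM64

open Module MvPolynomial

section

variable {V : Type} [AddCommGroup V] [Module ℂ V] [FiniteDimensional ℂ V]
variable {ι : Type} [Fintype ι] [DecidableEq ι]
variable {Γ : Subgroup (V ≃ₗ[ℂ] V)} [Finite Γ] {τ : V ≃ₗ[ℂ] V} {k : Submodule ℂ V → ℤ → ℂ}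
  {b : Basis ι ℂ V} {bU : Basis Unit ℂ ↥(fixSub τ)} {q₀ : Px ι}

/-- `Q` is the polynomial `Q_k`: `f_{q₀}|_{U×U*} = a^{-e₀} Q(a ξ)`. -/
structure IsQk (Γ : Subgroup (V ≃ₗ[ℂ] V)) [Finite Γ] (τ : V ≃ₗ[ℂ] V) (k : Submodule ℂ V → ℤ → ℂ)
    (b : Basis ι ℂ V) (bU : Basis Unit ℂ ↥(fixSub τ)) (q₀ : Px ι) (Q : Polynomial ℂ) : Prop where
  monic : Q.Monic
  deg : Q.natDegree = eFix Γ τ
  zero : Q.coeff 0 = 0
  res : ResRel τ b bU (fq Γ k b q₀) (aZ (-(eFix Γ τ : ℤ)) * Polynomial.aeval tU Q)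

private theorem rkd_xl_unit (bU : Basis Unit ℂ ↥(fixSub τ)) (f : Dual ℂ ↥(fixSub τ)) :
    xl bU f = f (bU ()) • (X () : Px Unit) := by
  rw [xl_apply, Fintype.sum_unique]

private theorem rkd_resP_Del (hreg : IsRegular Γ τ) (b : Basis ι ℂ V) (bU : Basis Unit ℂ ↥(fixSub τ)) :
    ∃ (c : ℂ) (D : ℕ), c ≠ 0 ∧ resP τ b bU (Del Γ b) = c • (X () : Px Unit) ^ D := by
  have h2 : ∀ H ∈ arrF Γ, resP τ b bU (xl b (lf H)) =
      (lf H ((bU () : ↥(fixSub τ)) : V)) • (X () : Px Unit) := by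
    intro H _
    rw [resP_xl, rkd_xl_unit]
    rfl
  have h1 : resP τ b bU (Del Γ b) =
      (∏ H ∈ arrF Γ, lf H ((bU () : ↥(fixSub τ)) : V)) • (X () : Px Unit) ^ (arrF Γ).card := by
    rw [Del, map_prod, Finset.prod_congr rfl h2, Finset.prod_smul, Finset.prod_const]
  refine ⟨_, _, ?_, h1⟩
  intro h0
  apply resP_Del_ne_zero Γ τ hreg b bU
  rw [h1, h0, zero_smul]

/-- the restriction of an element of `M_k` is in the image of `lau 1` (`Mk_den`; `Δ|_U` is a nonzero multiple of a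
power of `a`). -/
theorem restr_lau1 (hreg : IsRegular Γ τ) {m : Ax ι} (hm : m ∈ Mk Γ k b) {s : Ax Unit}
    (hs : ResRel τ b bU m s) : ∃ F : LP, lau 1 F = s := by
  obtain ⟨N, p, hp⟩ := Mk_den Γ k b hm
  obtain ⟨c, D, hc, hD⟩ := rkd_resP_Del hreg b bU
  have h1 : ResRel τ b bU (jR p) (jR (resR τ b bU p)) := ResRel.ofR p
  have h2 : ResRel τ b bU (jR p) (xA (resP τ b bU (Del Γ b ^ N)) * s) := by
    rw [hp]
    exact ResRel.mul (ResRel.ofP _) hs
  have h3 := ResRel.unique h1 h2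
  refine exists_lau ⟨D * N, (c ^ N)⁻¹ • resR τ b bU p, ?_⟩
  rw [map_smul, h3, map_pow, hD, smul_pow, ← pow_mul, map_smul, smul_mul_assoc, smul_smul,
    inv_mul_cancel₀ (pow_ne_zero N hc), one_smul]

private theorem rkd_aZ_X_ne (m : ℤ) (n : ℕ) : aZ m * (X () : Ax Unit) ^ n ≠ 0 := by
  refine mul_ne_zero ?_ (pow_ne_zero n (X_ne_zero ()))
  unfold aZ
  intro h
  rw [← C_0] at h
  exact zpow_ne_zero m pF_X_ne_zero (C_injective _ _ h)

private theorem rkd_smul_cancel {c c' : ℂ} {x : Ax Unit} (hx : x ≠ 0) (h : c • x = c' • x) : c = c' := by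
  have h1 : (c - c') • x = 0 := by rw [sub_smul, h, sub_self]
  rcases smul_eq_zero.1 h1 with h2 | h2
  · exact sub_eq_zero.1 h2
  · exact absurd h2 hx

private theorem rkd_scal_q {c : ℂ} (hc : c ≠ 0) {e : ℕ} {q : Px ι} (hq : q.IsHomogeneous e) :
    trP b.dualBasis b.dualBasis (dgHom V (scal V (Units.mk0 c hc))) q = c ^ e • q := by
  refine evP_ext b.dualBasis (fun φ => ?_)
  have h1 : (dgHom V (scal V (Units.mk0 c hc))).symm φ = c • φ := by
    ext v
    show φ (scal V (Units.mk0 c hc) v) = c * φ v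
    rw [scal_apply, map_smul, smul_eq_mul]
    rfl
  rw [evP_trP, h1, evP_smul b.dualBasis hq, map_smul, smul_eq_mul]

private theorem rkd_weight (hfin : IsOfFinOrder τ) (hk : Adm Γ k) (hq : IsQ0 (Γ := Γ) b bU q₀) {s : Ax Unit}
    (hs : ResRel τ b bU (fq Γ k b q₀) s) {c : ℂ} {g : ↥(fixSub τ) ≃ₗ[ℂ] ↥(fixSub τ)} (hc : c ≠ 0)
    (hg : ∀ u, g u = c • u) : trA bU bU g s = c ^ eFix Γ τ • s := by
  have hw : scal V (Units.mk0 c hc) * τ = τ * scal V (Units.mk0 c hc) := by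
    ext v
    show scal V (Units.mk0 c hc) (τ v) = τ (scal V (Units.mk0 c hc) v)
    rw [scal_apply, scal_apply, map_smul]
  have hgu : ∀ u : ↥(fixSub τ), ((g u : ↥(fixSub τ)) : V) = scal V (Units.mk0 c hc) (u : V) := by
    intro u
    rw [hg, scal_apply]
    rfl
  have h1 := ResRel.equivar hfin hw hgu hs
  rw [act_fq Γ k b (tp_of_normalizes (normalizes_scal Γ _) (fixesParam_scal k _)) hk, rkd_scal_q hc hq.hom,
    fq_smul] at h1
  exact ResRel.unique h1 (ResRel.smul _ hs)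

/-- existence of `Q_k`: scaling (`act_fq` for scalars, `lau_of_weight`), leading term (`Ld_fq_sub`, `IsQ0.res`,
`hc_aZ_mul`), `hc_zero_fq`. -/
theorem exists_Qk (hfin : IsOfFinOrder τ) (hreg : IsRegular Γ τ) (hk : Adm Γ k) (hq : IsQ0 (Γ := Γ) b bU q₀) :
    ∃ Q, IsQk Γ τ k b bU q₀ Q := by
  obtain ⟨s, hs⟩ := exists_res Γ k τ hreg b bU (fq_mem Γ k b q₀)
  obtain ⟨F, hF⟩ := restr_lau1 hreg (fq_mem Γ k b q₀) hs
  obtain ⟨P, hP⟩ := lau_of_weight bU (e := eFix Γ τ) (F := F) (fun c g hc hg => by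
    rw [hF]
    exact rkd_weight hfin hk hq hs hc hg)
  rw [hF] at hP
  have he := eFix_pos Γ τ
  have hld := Ld_fq_sub Γ k b hq.hom
  -- the components of the restriction
  have hcomp : ∀ n, homogeneousComponent n s = P.coeff n • (aZ (-(eFix Γ τ : ℤ) + n) * X () ^ n) := by
    intro n
    rw [hP, hc_aZ_mul]
  have hge : ∀ n, eFix Γ τ ≤ n →
      homogeneousComponent n (fq Γ k b q₀) = jR (homogeneousComponent n (xiR q₀)) := by
    intro n hn
    have h1 := hld n hn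
    rw [map_sub, sub_eq_zero] at h1
    rw [h1, homogeneousComponent_jR]
  have htop : P.coeff (eFix Γ τ) = 1 := by
    have h1 := ResRel.hcomp hs (eFix Γ τ)
    rw [hge _ le_rfl, homogeneousComponent_of_mem (xiR_isHomogeneous hq.hom), if_pos rfl] at h1
    have h2 := ResRel.unique h1 (ResRel.ofR (xiR q₀))
    rw [hq.res, map_pow, jR_X, hcomp, neg_add_cancel, aZ_zero, one_mul] at h2
    refine rkd_smul_cancel (x := (X () : Ax Unit) ^ eFix Γ τ) (pow_ne_zero _ (X_ne_zero ())) ?_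
    rw [h2, one_smul]
  have habove : ∀ n, eFix Γ τ < n → P.coeff n = 0 := by
    intro n hn
    have h1 := ResRel.hcomp hs n
    rw [hge _ hn.le, homogeneousComponent_of_mem (xiR_isHomogeneous hq.hom), if_neg (by omega), map_zero] at h1
    have h0 := ResRel.const (τ := τ) (b := b) (bU := bU) 0
    rw [map_zero, map_zero] at h0
    have h2 := ResRel.unique h1 h0
    rw [hcomp] at h2
    refine rkd_smul_cancel (rkd_aZ_X_ne (-(eFix Γ τ : ℤ) + n) n) ?_
    rw [h2, zero_smul]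
  have hzero : P.coeff 0 = 0 := by
    have h1 := ResRel.hcomp hs 0
    have hc0 : coeff 0 q₀ = 0 := by
      by_contra hcon
      have h3 := hq.hom hcon
      rw [map_zero] at h3
      omega
    rw [hc_zero_fq Γ k b hc0] at h1
    have h0 := ResRel.const (τ := τ) (b := b) (bU := bU) 0
    rw [map_zero, map_zero] at h0
    have h2 := ResRel.unique h1 h0
    rw [hcomp] at h2
    refine rkd_smul_cancel (rkd_aZ_X_ne (-(eFix Γ τ : ℤ) + ((0 : ℕ) : ℤ)) 0) ?_
    rw [h2, zero_smul]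
  have hdeg : P.natDegree = eFix Γ τ := by
    refine Polynomial.natDegree_eq_of_le_of_coeff_ne_zero ?_ ?_
    · exact Polynomial.natDegree_le_iff_coeff_eq_zero.2 habove
    · rw [htop]
      exact one_ne_zero
  refine ⟨P, ?_, hdeg, hzero, ?_⟩
  · unfold Polynomial.Monic Polynomial.leadingCoeff
    rw [hdeg, htop]
  · rw [← hP]
    exact hs

theorem Qk_unique {Q Q' : Polynomial ℂ} (h : IsQk Γ τ k b bU q₀ Q) (h' : IsQk Γ τ k b bU q₀ Q') : Q = Q' := by
  have h1 := ResRel.unique h.res h'.res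
  ext n
  have h2 := congrArg (homogeneousComponent n) h1
  rw [hc_aZ_mul, hc_aZ_mul] at h2
  exact rkd_smul_cancel (rkd_aZ_X_ne _ n) h2

/-- the restriction of an element of `M_k^Γ` is invariant under `Γ^τ`, so it is in the image of `lau e₀`
(`eFix_root`, `lau_of_inv`, `ResRel.equivar`). -/
theorem restr_lau (hΓ : ReflGen Γ) (hτ : Normalizes τ Γ) (hfin : IsOfFinOrder τ) {u : V}
    (hu : ∀ g ∈ Γ, g u = u → g = 1) (hτu : τ u = u) {z : Ax ι} (hz : z ∈ Mk Γ k b)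
    (hinv : InvA Γ b z) {s : Ax Unit} (hs : ResRel τ b bU z s) : ∃ F : LP, lau (eFix Γ τ) F = s := by
  have hreg := isRegular_of_free Γ hτu hu
  have he := eFix_pos Γ τ
  obtain ⟨F, hF⟩ := restr_lau1 hreg hz hs
  have hζ := Complex.isPrimitiveRoot_exp (eFix Γ τ) he.ne'
  have hU : finrank ℂ (fixSub τ) = 1 := by
    rw [Module.finrank_eq_card_basis bU, Fintype.card_unit]
  obtain ⟨g, hg, hgτ, hgv⟩ := eFix_root hΓ hτ hfin hu hτu hU hζ.pow_eq_one
  have hζ0 := hζ.ne_zero he.ne'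
  have hgu : ∀ x : ↥(fixSub τ),
      ((LinearEquiv.smulOfNeZero ℂ ↥(fixSub τ) _ hζ0 x : ↥(fixSub τ)) : V) = g (x : V) := by
    intro x
    rw [hgv x x.2]
    rfl
  have h1 := ResRel.equivar hfin hgτ hgu hs
  have h2 : trA b b g z = z := hinv g hg
  rw [h2] at h1
  have h3 := ResRel.unique h1 hs
  obtain ⟨F', hF'⟩ := lau_of_inv bU he hζ (g := LinearEquiv.smulOfNeZero ℂ ↥(fixSub τ) _ hζ0)
    (fun x => rfl) (F := F) (by rw [hF, h3])
  exact ⟨F', by rw [hF', hF]⟩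

/-- transfer of an integral equation along a relation. -/
private theorem rkd_transfer {R₁ R₂ : Type} [CommRing R₁] [Algebra ℂ R₁] [CommRing R₂] [Algebra ℂ R₂]
    (Rel : R₁ → R₂ → Prop) (hadd : ∀ f f' t t', Rel f t → Rel f' t' → Rel (f + f') (t + t'))
    (hmul : ∀ f f' t t', Rel f t → Rel f' t' → Rel (f * f') (t * t')) (hone : Rel 1 1) (hzz : Rel 0 0)
    (hzero : ∀ t, Rel 0 t → t = 0) {A : Subalgebra ℂ R₁} {A' : Subalgebra ℂ R₂}
    (hA : ∀ f ∈ A, ∃ t ∈ A', Rel f t) {z : R₁} {s : R₂} (hz : IsIntegral A z) (hs : Rel z s) :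
    IsIntegral A' s := by
  obtain ⟨p, hp, hp0⟩ := hz
  choose t ht1 ht2 using hA
  have hpow : ∀ n : ℕ, Rel (z ^ n) (s ^ n) := by
    intro n
    induction n with
    | zero => rw [pow_zero, pow_zero]; exact hone
    | succ n ih => rw [pow_succ, pow_succ]; exact hmul _ _ _ _ ih hs
  have hsum : ∀ n : ℕ, Rel (∑ i ∈ Finset.range n, (p.coeff i : R₁) * z ^ i)
      (∑ i ∈ Finset.range n, t (p.coeff i : R₁) (p.coeff i).2 * s ^ i) := by
    intro n
    induction n with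
    | zero => rw [Finset.sum_range_zero, Finset.sum_range_zero]; exact hzz
    | succ n ih =>
      rw [Finset.sum_range_succ, Finset.sum_range_succ]
      exact hadd _ _ _ _ ih (hmul _ _ _ _ (ht2 _ _) (hpow n))
  have h1 := hadd _ _ _ _ (hsum p.natDegree) (hpow p.natDegree)
  have h2 : (∑ i ∈ Finset.range p.natDegree, (p.coeff i : R₁) * z ^ i) + z ^ p.natDegree = 0 := by
    rw [← hp0, Polynomial.eval₂_eq_sum_range, Finset.sum_range_succ, hp.coeff_natDegree, map_one, one_mul]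
    rfl
  rw [h2] at h1
  have h3 := hzero _ h1
  refine ⟨Polynomial.X ^ p.natDegree + ∑ i : Fin p.natDegree,
    Polynomial.C (⟨t (p.coeff i : R₁) (p.coeff i).2, ht1 _ _⟩ : A') * Polynomial.X ^ (i : ℕ), ?_, ?_⟩
  · exact Polynomial.monic_X_pow_add (Polynomial.degree_sum_fin_lt _)
  · rw [Polynomial.eval₂_add, Polynomial.eval₂_pow, Polynomial.eval₂_X, Polynomial.eval₂_finsetSum, ← h3,
      add_comm]
    congr 1
    rw [← Fin.sum_univ_eq_sum_range (fun i => t (p.coeff i : R₁) (p.coeff i).2 * s ^ i)]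
    refine Finset.sum_congr rfl (fun i _ => ?_)
    rw [Polynomial.eval₂_mul, Polynomial.eval₂_C, Polynomial.eval₂_pow, Polynomial.eval₂_X]
    rfl

private theorem rkd_aeval_mem {R : Type} [CommRing R] [Algebra ℂ R] {A : Subalgebra ℂ R} {x : R} (hx : x ∈ A)
    (P : Polynomial ℂ) : Polynomial.aeval x P ∈ A := by
  rw [Polynomial.aeval_eq_sum_range]
  exact Subalgebra.sum_mem _ (fun i _ => Subalgebra.smul_mem _ (Subalgebra.pow_mem _ hx i) _)

/-- the restriction is integral over `ℂ[a^{e₀}, a^{-e₀} Q_k(T)]` (`isIntegral_Pk`, `rk_x`, `IsQ0.gen`). -/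
theorem restr_integral (hΓ : ReflGen Γ) (hτ : Normalizes τ Γ) (hfin : IsOfFinOrder τ) {u : V}
    (hu : ∀ g ∈ Γ, g u = u → g = 1) (hτu : τ u = u) (hk : Adm Γ k) (hT : Tp τ Γ Γ k k)
    (hq : IsQ0 (Γ := Γ) b bU q₀) {Q : Polynomial ℂ} (hQ : IsQk Γ τ k b bU q₀ Q) {z : Ax ι} (hz : z ∈ Mk Γ k b)
    (hinv : InvA Γ b z) {s : Ax Unit} (hs : ResRel τ b bU z s) :
    IsIntegral (Algebra.adjoin ℂ ({aZ (eFix Γ τ : ℤ), aZ (-(eFix Γ τ : ℤ)) * Polynomial.aeval tU Q} :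
      Set (Ax Unit))) s := by
  have hreg := isRegular_of_free Γ hτu hu
  have h0 := ResRel.const (τ := τ) (b := b) (bU := bU) 0
  rw [map_zero, map_zero] at h0
  have h1 := ResRel.const (τ := τ) (b := b) (bU := bU) 1
  rw [map_one, map_one] at h1
  refine rkd_transfer (fun f t => ResRel τ b bU f t) (fun _ _ _ _ h h' => ResRel.add h h')
    (fun _ _ _ _ h h' => ResRel.mul h h') h1 h0 (fun t ht => ResRel.unique ht h0) (A := Pk Γ k b) ?_
    (isIntegral_Pk Γ k hk b hz hinv) hs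
  intro f hf
  have haZ : aZ (eFix Γ τ : ℤ) ∈ Algebra.adjoin ℂ
      ({aZ (eFix Γ τ : ℤ), aZ (-(eFix Γ τ : ℤ)) * Polynomial.aeval tU Q} : Set (Ax Unit)) :=
    Algebra.subset_adjoin (Set.mem_insert _ _)
  have hQZ : aZ (-(eFix Γ τ : ℤ)) * Polynomial.aeval tU Q ∈ Algebra.adjoin ℂ
      ({aZ (eFix Γ τ : ℤ), aZ (-(eFix Γ τ : ℤ)) * Polynomial.aeval tU Q} : Set (Ax Unit)) :=
    Algebra.subset_adjoin (Set.mem_insert_of_mem _ rfl)
  unfold Pk at hf
  induction hf using Algebra.adjoin_induction with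
  | mem x hx =>
    rcases hx with ⟨p, hp, rfl⟩ | ⟨q, hqi, rfl⟩
    · obtain ⟨P, hP⟩ := rk_x hΓ hτ hfin hu hτu b bU hp
      refine ⟨xA (resP τ b bU p), ?_, ResRel.ofP p⟩
      rw [hP, ← Polynomial.aeval_algHom_apply, ← aZ_natCast]
      exact rkd_aeval_mem haZ P
    · obtain ⟨P, -, hP⟩ := hq.gen q hqi
      obtain ⟨t, ht⟩ := exists_res Γ k τ hreg b bU (fq_mem Γ k b q)
      refine ⟨t, ?_, ht⟩
      rw [hP k hk hT _ _ hQ.res ht]
      exact rkd_aeval_mem hQZ P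
  | algebraMap r => exact ⟨_, Subalgebra.algebraMap_mem _ r, ResRel.const r⟩
  | add x y _ _ hx hy =>
    obtain ⟨t, ht, ht'⟩ := hx
    obtain ⟨t₂, ht₂, ht₂'⟩ := hy
    exact ⟨t + t₂, Subalgebra.add_mem _ ht ht₂, ResRel.add ht' ht₂'⟩
  | mul x y _ _ hx hy =>
    obtain ⟨t, ht, ht'⟩ := hx
    obtain ⟨t₂, ht₂, ht₂'⟩ := hy
    exact ⟨t * t₂, Subalgebra.mul_mem _ ht ht₂, ResRel.mul ht' ht₂'⟩

/-- (4.1): the restriction is in `ℂ[a^{e₀}, T, a^{-e₀} Q_k(T)]` (`mem_subTQ_of_integral`). -/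
theorem rk_main (hΓ : ReflGen Γ) (hτ : Normalizes τ Γ) (hfin : IsOfFinOrder τ) {u : V}
    (hu : ∀ g ∈ Γ, g u = u → g = 1) (hτu : τ u = u) (hk : Adm Γ k) (hT : Tp τ Γ Γ k k)
    (hq : IsQ0 (Γ := Γ) b bU q₀) {Q : Polynomial ℂ} (hQ : IsQk Γ τ k b bU q₀ Q) {z : Ax ι} (hz : z ∈ Mk Γ k b)
    (hinv : InvA Γ b z) {s : Ax Unit} (hs : ResRel τ b bU z s) :
    s ∈ Algebra.adjoin ℂ ({aZ (eFix Γ τ : ℤ), tU, aZ (-(eFix Γ τ : ℤ)) * Polynomial.aeval tU Q} :
      Set (Ax Unit)) := by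
  have he := eFix_pos Γ τ
  obtain ⟨F, hF⟩ := restr_lau hΓ hτ hfin hu hτu hz hinv hs
  have hint := restr_integral hΓ hτ hfin hu hτu hk hT hq hQ hz hinv hs
  have g1 : lau (eFix Γ τ) (LaurentPolynomial.T 1) = aZ (eFix Γ τ : ℤ) := by
    rw [lau_T, mul_one]
  have g2 : lau (eFix Γ τ) (LaurentPolynomial.C Polynomial.X) = tU := by
    rw [lau_C, Polynomial.aeval_X]
  have g3 : lau (eFix Γ τ) (LaurentPolynomial.C Q * LaurentPolynomial.T (-1)) =
      aZ (-(eFix Γ τ : ℤ)) * Polynomial.aeval tU Q := by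
    rw [map_mul, lau_C, lau_T, mul_neg, mul_one, mul_comm]
  have hle : Algebra.adjoin ℂ ({aZ (eFix Γ τ : ℤ), aZ (-(eFix Γ τ : ℤ)) * Polynomial.aeval tU Q} :
      Set (Ax Unit)) ≤ (subQ Q).map (lau (eFix Γ τ)) := by
    refine Algebra.adjoin_le ?_
    rintro x (rfl | hx)
    · exact ⟨LaurentPolynomial.T 1, Algebra.subset_adjoin (Set.mem_insert _ _), g1⟩
    · rw [Set.mem_singleton_iff] at hx
      subst hx
      exact ⟨LaurentPolynomial.C Q * LaurentPolynomial.T (-1),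
        Algebra.subset_adjoin (Set.mem_insert_of_mem _ rfl), g3⟩
  have hFint : IsIntegral (subQ Q) F := by
    refine rkd_transfer (fun (f : Ax Unit) (t : LP) => lau (eFix Γ τ) t = f)
      (fun f f' t t' h h' => by rw [map_add, h, h']) (fun f f' t t' h h' => by rw [map_mul, h, h'])
      (map_one _) (map_zero _) (fun t ht => lau_injective he (by rw [ht, map_zero])) ?_ hint hF
    intro f hf
    obtain ⟨t, ht, ht'⟩ := hle hf
    exact ⟨t, ht, ht'⟩
  have hmem := mem_subTQ_of_integral hQ.monic hFint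
  have hle2 : subTQ Q ≤ (Algebra.adjoin ℂ ({aZ (eFix Γ τ : ℤ), tU,
      aZ (-(eFix Γ τ : ℤ)) * Polynomial.aeval tU Q} : Set (Ax Unit))).comap (lau (eFix Γ τ)) := by
    refine Algebra.adjoin_le ?_
    intro x hx
    rw [SetLike.mem_coe, Subalgebra.mem_comap]
    rcases hx with rfl | rfl | hx
    · rw [g1]
      exact Algebra.subset_adjoin (by simp)
    · rw [g2]
      exact Algebra.subset_adjoin (by simp)
    · rw [Set.mem_singleton_iff] at hx
      subst hx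
      rw [g3]
      exact Algebra.subset_adjoin (by simp)
  have h5 := hle2 hmem
  rw [← hF]
  exact h5

end

end Pool.Agent.CM64
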