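import Pool.Agent.LibCM64.RkD

/-! Rank one: `Q_k` divides a power of a polynomial annihilating `-A_k`, `A_k = ∑_H a_H ∈ ℂΓ`. -/

set_option linter.unusedSectionVars false

namespace Pool.Agent.CM64

open Module MvPolynomial

section

variable {V : Type} [AddCommGroup V] [Module ℂ V] [FiniteDimensional ℂ V]
variable {ι : Type} [Fintype ι] [DecidableEq ι]
variable (Γ : Subgroup (V ≃ₗ[ℂ] V)) [Finite Γ] (k : Submodule ℂ V → ℤ → ℂ)

/-- `A_k = ∑_H ∑_{g ∈ Γ_H} κ_H(g) g`. -/
noncomputable def Ak : MonoidAlgebra ℂ Γ :=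
  ∑ H ∈ arrF Γ, ∑ g ∈ (pstF Γ H).attach,
    MonoidAlgebra.single (⟨g.1, (mem_pstF.1 g.2).1⟩ : Γ) (kap Γ k H g.1)

/-- the action of `ℂΓ` on the polynomials on `V*`. -/
noncomputable def repD (b : Basis ι ℂ V) : MonoidAlgebra ℂ Γ →ₐ[ℂ] Module.End ℂ (Px ι) :=
  MonoidAlgebra.lift ℂ (Module.End ℂ (Px ι)) Γ
    { toFun := fun g => (trP b.dualBasis b.dualBasis (dgHom V (g : V ≃ₗ[ℂ] V))).toLinearMap
      map_one' := by
        apply LinearMap.ext
        intro p
        have : dgHom V ((1 : Γ) : V ≃ₗ[ℂ] V) = LinearEquiv.refl ℂ _ := by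
          rw [Subgroup.coe_one, map_one]; rfl
        rw [this, trP_refl]; rfl
      map_mul' := by
        intro g h
        apply LinearMap.ext
        intro p
        have : dgHom V ((g * h : Γ) : V ≃ₗ[ℂ] V)
            = (dgHom V (h : V ≃ₗ[ℂ] V)).trans (dgHom V (g : V ≃ₗ[ℂ] V)) := by
          rw [Subgroup.coe_mul, map_mul]; rfl
        rw [this, ← trP_trans b.dualBasis b.dualBasis b.dualBasis]; rfl }

/-- the Euler element `∑ x_i ξ_i`. -/
noncomputable def eu (b : Basis ι ℂ V) : Ax ι := ∑ i, xA (X i : Px ι) * X i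

theorem eu_eq (b : Basis ι ℂ V) : eu b = jR (∑ i, C (X i : Px ι) * X i : Rx ι) := by
  rw [eu, map_sum]
  refine Finset.sum_congr rfl (fun i _ => ?_)
  rw [map_mul, jR_C, jR_X]

/-- the Euler element is invariant under `GL(V)`. -/
theorem act_eu (b : Basis ι ℂ V) (g : V ≃ₗ[ℂ] V) : trA b b g (eu b) = eu b := by
  rw [eu, map_sum]
  have h1 : ∀ i, trA b b g (xA (X i : Px ι) * X i)
      = ∑ j, xA (X j : Px ι) * yA b ((b.coord i (g.symm (b j))) • g (b i)) := by
    intro i
    rw [map_mul, trA_xA, trP_X, trA_X, xl_apply, map_sum, Finset.sum_mul]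
    refine Finset.sum_congr rfl (fun j _ => ?_)
    rw [map_smul, map_smul, smul_mul_assoc, mul_smul_comm]
    rfl
  rw [Finset.sum_congr rfl (fun i _ => h1 i), Finset.sum_comm]
  refine Finset.sum_congr rfl (fun j _ => ?_)
  rw [← Finset.mul_sum, ← map_sum]
  congr 1
  have h2 : ∑ i, (b.coord i (g.symm (b j))) • g (b i) = b j := by
    have h3 := b.sum_repr (g.symm (b j))
    have h4 := congrArg g h3
    rw [map_sum, LinearEquiv.apply_symm_apply] at h4
    refine Eq.trans (Finset.sum_congr rfl (fun i _ => ?_)) h4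
    rw [map_smul]
    rfl
  rw [h2, yA_basis]

/-- `eu · f_q = ∑ x_i f_{ξ_i q} - f_{A_k q}`: as an operator `eu = ∑ x_i T_i - ∑_H a_H`. -/
theorem eu_mul_fq (hk : Adm Γ k) (b : Basis ι ℂ V) (q : Px ι) :
    eu b * fq Γ k b q = ∑ i, xA (X i : Px ι) * fq Γ k b (X i * q) - fq Γ k b (repD Γ b (Ak Γ k) q) := by
  have hX : ∀ i, fq Γ k b (X i * q) = dunkl Γ k b (b i) (fq Γ k b q) := by
    intro i
    have h1 : (X i : Px ι) = xl b.dualBasis (Dual.eval ℂ V (b i)) := by
      rw [← xl_coord b.dualBasis i]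
      congr 1
      refine b.dualBasis.ext (fun j => ?_)
      rw [Basis.coord_apply, Basis.repr_self, Dual.eval_apply, Basis.coe_dualBasis, Basis.coord_apply,
        Basis.repr_self]
      rw [Finsupp.single_apply, Finsupp.single_apply]
      simp only [eq_comm]
    rw [fq, fq, qT_mul Γ k hk, LinearMap.comp_apply, h1, qT_xl]
  have hrep : fq Γ k b (repD Γ b (Ak Γ k) q) = ∑ H ∈ arrF Γ, aop Γ k b H (fq Γ k b q) := by
    have hlin : ∀ (α : Type) (s : Finset α) (F : α → Px ι), fq Γ k b (∑ a ∈ s, F a) = ∑ a ∈ s, fq Γ k b (F a) := by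
      classical
      intro α s F
      induction s using Finset.induction_on with
      | empty =>
        rw [Finset.sum_empty, Finset.sum_empty]
        have := fq_smul Γ k b (0 : ℂ) (0 : Px ι)
        rwa [zero_smul, zero_smul] at this
      | insert a s ha ih => rw [Finset.sum_insert ha, Finset.sum_insert ha, fq_add, ih]
    rw [Ak, map_sum, LinearMap.sum_apply, hlin]
    refine Finset.sum_congr rfl (fun H _ => ?_)
    rw [map_sum, LinearMap.sum_apply, hlin, tact_aop_apply]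
    rw [← Finset.sum_attach (pstF Γ H)]
    refine Finset.sum_congr rfl (fun g _ => ?_)
    have hg : (g : V ≃ₗ[ℂ] V) ∈ Γ := (mem_pstF.1 g.2).1
    rw [repD, MonoidAlgebra.lift_single, LinearMap.smul_apply, fq_smul, act, act_fq Γ k b (tp_of_mem hk hg) hk]
    rfl
  rw [hrep]
  have h2 : ∑ i, xA (X i : Px ι) * fq Γ k b (X i * q)
      = eu b * fq Γ k b q + ∑ H ∈ arrF Γ, aop Γ k b H (fq Γ k b q) := by
    have h3 : ∀ i, xA (X i : Px ι) * fq Γ k b (X i * q) = xA (X i : Px ι) * X i * fq Γ k b q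
        + ∑ H ∈ arrF Γ, xA (X i : Px ι) * (C (qH b H (b i)) * aop Γ k b H (fq Γ k b q)) := by
      intro i
      rw [hX, tact_dunkl_apply, yA_basis, mul_add, Finset.mul_sum, mul_assoc]
    have heu : eu b = ∑ i, xA (X i : Px ι) * X i := rfl
    rw [Finset.sum_congr rfl (fun i _ => h3 i), Finset.sum_add_distrib, ← Finset.sum_mul, ← heu, Finset.sum_comm]
    congr 1
    refine Finset.sum_congr rfl (fun H hH => ?_)
    have hH' := arr_finrank Γ (mem_arrF.1 hH)
    have h4 : ∀ i, xA (X i : Px ι) * (C (qH b H (b i)) * aop Γ k b H (fq Γ k b q))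
        = (C (pF (X i : Px ι) * qH b H (b i)) : Ax ι) * aop Γ k b H (fq Γ k b q) := by
      intro i
      rw [xA_apply, C_mul, mul_assoc]
    rw [Finset.sum_congr rfl (fun i _ => h4 i), ← Finset.sum_mul, ← map_sum]
    have h5 : ∑ i, pF (X i : Px ι) * qH b H (b i) = 1 := by
      have hne : pF (xl b (lf H)) ≠ 0 := by
        intro h0
        exact xl_lf_ne_zero b H hH' (pF_injective (by rw [h0, map_zero]))
      apply mul_right_cancel₀ hne
      rw [one_mul, Finset.sum_mul]
      conv_rhs => rw [xl_apply, map_sum]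
      refine Finset.sum_congr rfl (fun i _ => ?_)
      rw [mul_assoc, qH_mul b H hH', map_smul, mul_comm, Algebra.smul_def]
    rw [h5, C_1, one_mul]
  rw [h2, add_sub_cancel_right]

/-- the span of the `p(x) q(T) 1`, `q` homogeneous of degree `≥ j`. -/
noncomputable def FilM (b : Basis ι ℂ V) (j : ℕ) : Submodule ℂ (Ax ι) :=
  Submodule.span ℂ {f | ∃ (p q : Px ι) (n : ℕ), j ≤ n ∧ q.IsHomogeneous n ∧ f = xA p * fq Γ k b q}

private theorem rke_FilM_mono (b : Basis ι ℂ V) {i j : ℕ} (h : i ≤ j) : FilM Γ k b j ≤ FilM Γ k b i := by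
  refine Submodule.span_mono ?_
  rintro f ⟨p, q, n, hn, hq, rfl⟩
  exact ⟨p, q, n, h.trans hn, hq, rfl⟩

private theorem rke_FilM_xA (b : Basis ι ℂ V) {j : ℕ} (p : Px ι) {m : Ax ι} (hm : m ∈ FilM Γ k b j) :
    xA p * m ∈ FilM Γ k b j := by
  induction hm using Submodule.span_induction with
  | mem m hm =>
    obtain ⟨p', q, n, hn, hq, rfl⟩ := hm
    refine Submodule.subset_span ⟨p * p', q, n, hn, hq, ?_⟩
    rw [map_mul, mul_assoc]
  | zero => rw [mul_zero]; exact Submodule.zero_mem _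
  | add a c _ _ iha ihc => rw [mul_add]; exact Submodule.add_mem _ iha ihc
  | smul c a _ iha => rw [mul_smul_comm]; exact Submodule.smul_mem _ c iha

private theorem rke_fq_mem (b : Basis ι ℂ V) {j n : ℕ} {q : Px ι} (hn : j ≤ n) (hq : q.IsHomogeneous n) :
    fq Γ k b q ∈ FilM Γ k b j :=
  Submodule.subset_span ⟨1, q, n, hn, hq, by rw [map_one, one_mul]⟩

private theorem rke_repD_hom (b : Basis ι ℂ V) (a : MonoidAlgebra ℂ Γ) {q : Px ι} {n : ℕ}
    (hq : q.IsHomogeneous n) : (repD Γ b a q).IsHomogeneous n := by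
  rw [repD, MonoidAlgebra.lift_apply, Finsupp.sum, LinearMap.sum_apply]
  refine IsHomogeneous.sum _ _ _ (fun g _ => ?_)
  rw [LinearMap.smul_apply]
  have h1 : (trP b.dualBasis b.dualBasis (dgHom V (g : V ≃ₗ[ℂ] V)) q).IsHomogeneous n :=
    trP_isHomogeneous _ _ _ hq
  have h2 := (isHomogeneous_C ι (a.coeff g)).mul h1
  rw [zero_add, C_mul'] at h2
  exact h2

private theorem rke_fq_zero (b : Basis ι ℂ V) : fq Γ k b 0 = 0 := by
  have := fq_smul Γ k b (0 : ℂ) (0 : Px ι)
  rwa [zero_smul, zero_smul] at this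

private theorem rke_fq_neg (b : Basis ι ℂ V) (q : Px ι) : fq Γ k b (-q) = - fq Γ k b q := by
  have := fq_smul Γ k b (-1 : ℂ) q
  rwa [neg_one_smul, neg_one_smul] at this

private theorem rke_step (hk : Adm Γ k) (b : Basis ι ℂ V) {q : Px ι} {j : ℕ} (hq : q.IsHomogeneous j) :
    eu b * fq Γ k b q - fq Γ k b (repD Γ b (-(Ak Γ k)) q) ∈ FilM Γ k b (j + 1) := by
  rw [eu_mul_fq Γ k hk, map_neg, LinearMap.neg_apply, rke_fq_neg, sub_neg_eq_add, sub_add_cancel]
  refine Submodule.sum_mem _ (fun i _ => rke_FilM_xA Γ k b _ (rke_fq_mem Γ k b (n := j + 1) le_rfl ?_))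
  have h := (isHomogeneous_X ℂ i).mul hq
  rwa [add_comm] at h

private theorem rke_eu_mem (hk : Adm Γ k) (b : Basis ι ℂ V) {j : ℕ} {m : Ax ι} (hm : m ∈ FilM Γ k b j) :
    eu b * m ∈ FilM Γ k b j := by
  induction hm using Submodule.span_induction with
  | mem m hm =>
    obtain ⟨p, q, n, hn, hq, rfl⟩ := hm
    have h1 : eu b * (xA p * fq Γ k b q) = xA p * ((eu b * fq Γ k b q - fq Γ k b (repD Γ b (-(Ak Γ k)) q))
        + fq Γ k b (repD Γ b (-(Ak Γ k)) q)) := by ring
    rw [h1]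
    refine rke_FilM_xA Γ k b _ (Submodule.add_mem _ ?_ ?_)
    · exact rke_FilM_mono Γ k b (hn.trans (Nat.le_succ n)) (rke_step Γ k hk b hq)
    · exact rke_fq_mem Γ k b hn (rke_repD_hom Γ b _ hq)
  | zero => rw [mul_zero]; exact Submodule.zero_mem _
  | add a c _ _ iha ihc => rw [mul_add]; exact Submodule.add_mem _ iha ihc
  | smul c a _ iha => rw [mul_smul_comm]; exact Submodule.smul_mem _ c iha

private theorem rke_pow (hk : Adm Γ k) (b : Basis ι ℂ V) (n : ℕ) {q : Px ι} {j : ℕ} (hq : q.IsHomogeneous j) :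
    eu b ^ n * fq Γ k b q - fq Γ k b (repD Γ b ((-(Ak Γ k)) ^ n) q) ∈ FilM Γ k b (j + 1) := by
  induction n with
  | zero =>
    rw [pow_zero, pow_zero, map_one, one_mul, Module.End.one_apply, sub_self]
    exact Submodule.zero_mem _
  | succ n ih =>
    have h0 : repD Γ b ((-(Ak Γ k)) ^ (n + 1)) q = repD Γ b (-(Ak Γ k)) (repD Γ b ((-(Ak Γ k)) ^ n) q) := by
      rw [pow_succ', map_mul, Module.End.mul_apply]
    have h1 := rke_step Γ k hk b (rke_repD_hom Γ b ((-(Ak Γ k)) ^ n) hq)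
    have h2 := rke_eu_mem Γ k hk b ih
    have h3 := Submodule.add_mem _ h1 h2
    rw [h0]
    have h4 : eu b ^ (n + 1) * fq Γ k b q - fq Γ k b (repD Γ b (-(Ak Γ k)) (repD Γ b ((-(Ak Γ k)) ^ n) q))
        = eu b * fq Γ k b (repD Γ b ((-(Ak Γ k)) ^ n) q)
          - fq Γ k b (repD Γ b (-(Ak Γ k)) (repD Γ b ((-(Ak Γ k)) ^ n) q))
          + eu b * (eu b ^ n * fq Γ k b q - fq Γ k b (repD Γ b ((-(Ak Γ k)) ^ n) q)) := by ring
    rw [h4]
    exact h3

/-- `F(eu) f_q ≡ f_{F(-A_k) q}` modulo `FilM (j+1)` for `q` homogeneous of degree `j`. -/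
theorem poly_eu_fq (hk : Adm Γ k) (b : Basis ι ℂ V) (F : Polynomial ℂ) {q : Px ι} {j : ℕ}
    (hq : q.IsHomogeneous j) :
    Polynomial.aeval (eu b) F * fq Γ k b q - fq Γ k b (repD Γ b (Polynomial.aeval (-(Ak Γ k)) F) q)
      ∈ FilM Γ k b (j + 1) := by
  induction F using Polynomial.induction_on' with
  | add F G hF hG =>
    have h := Submodule.add_mem _ hF hG
    have h1 : Polynomial.aeval (eu b) (F + G) * fq Γ k b q
        - fq Γ k b (repD Γ b (Polynomial.aeval (-(Ak Γ k)) (F + G)) q)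
        = Polynomial.aeval (eu b) F * fq Γ k b q - fq Γ k b (repD Γ b (Polynomial.aeval (-(Ak Γ k)) F) q)
          + (Polynomial.aeval (eu b) G * fq Γ k b q
            - fq Γ k b (repD Γ b (Polynomial.aeval (-(Ak Γ k)) G) q)) := by
      rw [map_add, map_add, map_add, LinearMap.add_apply, fq_add]
      ring
    rw [h1]
    exact h
  | monomial n a =>
    have h := Submodule.smul_mem _ a (rke_pow Γ k hk b n hq)
    have h1 : Polynomial.aeval (eu b) (Polynomial.monomial n a) * fq Γ k b q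
        - fq Γ k b (repD Γ b (Polynomial.aeval (-(Ak Γ k)) (Polynomial.monomial n a)) q)
        = a • (eu b ^ n * fq Γ k b q - fq Γ k b (repD Γ b ((-(Ak Γ k)) ^ n) q)) := by
      rw [Polynomial.aeval_monomial, Polynomial.aeval_monomial, ← Algebra.smul_def, ← Algebra.smul_def,
        map_smul, LinearMap.smul_apply, fq_smul, smul_mul_assoc, smul_sub]
    rw [h1]
    exact h

theorem pow_mem_FilM (hk : Adm Γ k) (b : Basis ι ℂ V) {F : Polynomial ℂ}
    (hF : Polynomial.aeval (-(Ak Γ k)) F = 0) (N : ℕ) :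
    Polynomial.aeval (eu b) (F ^ N) ∈ FilM Γ k b N := by
  induction N with
  | zero =>
    rw [pow_zero, map_one, ← fq_one Γ k b]
    exact rke_fq_mem Γ k b (n := 0) le_rfl (isHomogeneous_one _ _)
  | succ N ih =>
    rw [pow_succ', map_mul]
    generalize Polynomial.aeval (eu b) (F ^ N) = y at ih
    induction ih using Submodule.span_induction with
    | mem m hm =>
      obtain ⟨p, q, n, hn, hq, hm'⟩ := hm
      rw [hm']
      have h1 := poly_eu_fq Γ k hk b F hq
      rw [hF, map_zero, LinearMap.zero_apply, rke_fq_zero, sub_zero] at h1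
      have h2 := rke_FilM_xA Γ k b p (rke_FilM_mono Γ k b (Nat.succ_le_succ hn) h1)
      have h3 : Polynomial.aeval (eu b) F * (xA p * fq Γ k b q)
          = xA p * (Polynomial.aeval (eu b) F * fq Γ k b q) := by ring
      rw [h3]
      exact h2
    | zero => rw [mul_zero]; exact Submodule.zero_mem _
    | add a c _ _ iha ihc => rw [mul_add]; exact Submodule.add_mem _ iha ihc
    | smul c a _ iha => rw [mul_smul_comm]; exact Submodule.smul_mem _ c iha

end

end Pool.Agent.CM64
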