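import Pool.Agent.LibCM64.RkE

/-! Rank one: `Q_k` divides a power of a polynomial annihilating `-A_k`, `A_k = ∑_H a_H ∈ ℂΓ`. -/

set_option linter.unusedSectionVars false

namespace Pool.Agent.CM64

open Module MvPolynomial

section

variable {V : Type} [AddCommGroup V] [Module ℂ V] [FiniteDimensional ℂ V]
variable {ι : Type} [Fintype ι] [DecidableEq ι]
variable (Γ : Subgroup (V ≃ₗ[ℂ] V)) [Finite Γ] (k : Submodule ℂ V → ℤ → ℂ)

private theorem rke2_hc_mul (a : Px ι) (i : ι) {j m : ℕ} (hj : j ≤ m) :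
    homogeneousComponent m (a * X i ^ j) = homogeneousComponent (m - j) a * X i ^ j := by
  have h : ∀ e, homogeneousComponent m (homogeneousComponent e a * X i ^ j)
      = if e = m - j then homogeneousComponent e a * X i ^ j else 0 := by
    intro e
    have hh : (homogeneousComponent e a * X i ^ j).IsHomogeneous (e + j) :=
      (homogeneousComponent_isHomogeneous e a).mul (isHomogeneous_X_pow i j)
    rw [homogeneousComponent_of_mem hh]
    by_cases he : e = m - j
    · rw [if_pos he, if_pos (by omega)]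
    · rw [if_neg he, if_neg (by omega)]
  conv_lhs => rw [← sum_homogeneousComponent a]
  rw [Finset.sum_mul, map_sum, Finset.sum_congr rfl (fun e _ => h e), Finset.sum_ite_eq']
  by_cases hr : m - j ∈ Finset.range (a.totalDegree + 1)
  · rw [if_pos hr]
  · rw [if_neg hr, homogeneousComponent_eq_zero _ _ (by rw [Finset.mem_range] at hr; omega), zero_mul]

private theorem rke2_X_pow (b : Basis ι ℂ V) (i : ι) :
    ∃ m : ℕ, (X i : Px ι) ^ m ∈ Ideal.span {r | PInv Γ b r ∧ coeff 0 r = 0} := by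
  obtain ⟨p, hp, he⟩ := isIntegral_invP Γ b (X i)
  refine ⟨p.natDegree, ?_⟩
  rw [Polynomial.eval₂_eq_sum_range, Finset.sum_range_succ] at he
  have h1 : p.coeff p.natDegree = 1 := hp
  rw [h1, map_one, one_mul] at he
  have h2 := congrArg (homogeneousComponent p.natDegree) he
  have hX : (X i ^ p.natDegree : Px ι).IsHomogeneous p.natDegree := isHomogeneous_X_pow i _
  rw [map_add, map_zero, map_sum, homogeneousComponent_of_mem hX, if_pos rfl] at h2
  have h3 : (X i : Px ι) ^ p.natDegree = - ∑ j ∈ Finset.range p.natDegree, homogeneousComponent p.natDegree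
      (algebraMap (invP Γ b) (Px ι) (p.coeff j) * X i ^ j) := by
    rw [eq_neg_iff_add_eq_zero, add_comm]
    exact h2
  rw [h3]
  refine Submodule.neg_mem _ (Submodule.sum_mem _ (fun j hj => ?_))
  rw [Finset.mem_range] at hj
  rw [rke2_hc_mul _ i hj.le]
  refine Ideal.mul_mem_right _ _ (Ideal.subset_span ⟨?_, ?_⟩)
  · exact PInv_homogeneousComponent (p.coeff j).2 _
  · rw [coeff_homogeneousComponent, if_neg]
    rw [map_zero]
    omega

private theorem rke2_exists_N (b : Basis ι ℂ V) : ∃ N : ℕ, ∀ n ≥ N, ∀ q : Px ι, q.IsHomogeneous n →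
    q ∈ Ideal.span {r | PInv Γ b r ∧ coeff 0 r = 0} := by
  choose m hm using fun i => rke2_X_pow Γ b i
  refine ⟨∑ i, m i + 1, fun n hn q hq => ?_⟩
  rw [← q.support_sum_monomial_coeff]
  refine Submodule.sum_mem _ (fun d hd => ?_)
  have hdeg : d.degree = n := by
    have h1 := hq (mem_support_iff.1 hd)
    rw [Finsupp.weight_apply, Finsupp.sum_fintype _ _ (fun i => by simp)] at h1
    rw [Finsupp.degree_eq_sum, ← h1]
    simp
  obtain ⟨i, hi⟩ : ∃ i, m i ≤ d i := by
    by_contra hcon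
    push Not at hcon
    have h2 : d.degree ≤ ∑ i, m i := by
      rw [Finsupp.degree_eq_sum]
      exact Finset.sum_le_sum (fun i _ => (hcon i).le)
    omega
  have h3 : monomial d (coeff d q) = monomial (d - Finsupp.single i (m i)) (coeff d q) * X i ^ m i := by
    rw [X_pow_eq_monomial, monomial_mul, mul_one, tsub_add_cancel_of_le]
    rw [Finsupp.single_le_iff]
    exact hi
  rw [h3]
  exact Ideal.mul_mem_left _ _ (hm i)

/-- for large `N` the homogeneous polynomials on `V*` of degree `≥ N` are in the ideal generated by the invariants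
without constant term (`isIntegral_invP`-type argument: `ξ_i^{|Γ|}` is in this ideal). -/
theorem exists_N_ideal (b : Basis ι ℂ V) : ∃ N : ℕ, ∀ n ≥ N, ∀ q : Px ι, q.IsHomogeneous n →
    q ∈ Ideal.span {r | PInv (dualGrp Γ) b.dualBasis r ∧ coeff 0 r = 0} := by
  exact rke2_exists_N (dualGrp Γ) b.dualBasis

private noncomputable def rke2_avg (b : Basis ι ℂ V) (m : Ax ι) : Ax ι :=
  ((elF Γ).card : ℂ)⁻¹ • ∑ g ∈ elF Γ, act b g m

private theorem rke2_card_ne : ((elF Γ).card : ℂ) ≠ 0 := by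
  rw [Nat.cast_ne_zero]
  exact (Finset.card_pos.2 ⟨1, (mem_elF Γ).2 Γ.one_mem⟩).ne'

private theorem rke2_avg_mem (hk : Adm Γ k) (b : Basis ι ℂ V) {m : Ax ι} (hm : m ∈ Mk Γ k b) :
    rke2_avg Γ b m ∈ Mk Γ k b :=
  Submodule.smul_mem _ _ (Submodule.sum_mem _ (fun _ hg => act_mem_Mk hk b ((mem_elF Γ).1 hg) hm))

private theorem rke2_avg_inv (b : Basis ι ℂ V) (m : Ax ι) : InvA Γ b (rke2_avg Γ b m) := by
  intro h hh
  have h1 : ∑ g ∈ elF Γ, act b h (act b g m) = ∑ g ∈ elF Γ, act b g m := by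
    refine Finset.sum_nbij' (fun g => h * g) (fun g => h⁻¹ * g) ?_ ?_ ?_ ?_ ?_
    · intro g hg
      exact (mem_elF Γ).2 (Γ.mul_mem hh ((mem_elF Γ).1 hg))
    · intro g hg
      exact (mem_elF Γ).2 (Γ.mul_mem (Γ.inv_mem hh) ((mem_elF Γ).1 hg))
    · intro g _
      show h⁻¹ * (h * g) = g
      rw [← mul_assoc, inv_mul_cancel, one_mul]
    · intro g _
      show h * (h⁻¹ * g) = g
      rw [← mul_assoc, mul_inv_cancel, one_mul]
    · intro g _
      exact (act_mul b h g m).symm
  rw [rke2_avg, map_smul, map_sum, h1]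

private theorem rke2_avg_of_inv (b : Basis ι ℂ V) {m : Ax ι} (hm : InvA Γ b m) : rke2_avg Γ b m = m := by
  rw [rke2_avg, Finset.sum_congr rfl (fun g hg => hm g ((mem_elF Γ).1 hg)), Finset.sum_const,
    ← Nat.cast_smul_eq_nsmul ℂ, smul_smul, inv_mul_cancel₀ (rke2_card_ne Γ), one_smul]

private theorem rke2_avg_mul (b : Basis ι ℂ V) {f : Ax ι} (hf : InvA Γ b f) (m : Ax ι) :
    rke2_avg Γ b (f * m) = f * rke2_avg Γ b m := by
  rw [rke2_avg, rke2_avg, mul_smul_comm, Finset.mul_sum]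
  congr 1
  refine Finset.sum_congr rfl (fun g hg => ?_)
  rw [map_mul, hf g ((mem_elF Γ).1 hg)]

private theorem rke2_avg_add (b : Basis ι ℂ V) (m m' : Ax ι) :
    rke2_avg Γ b (m + m') = rke2_avg Γ b m + rke2_avg Γ b m' := by
  rw [rke2_avg, rke2_avg, rke2_avg, ← smul_add, ← Finset.sum_add_distrib]
  congr 1
  exact Finset.sum_congr rfl (fun g _ => by rw [map_add])

private theorem rke2_avg_smul (b : Basis ι ℂ V) (c : ℂ) (m : Ax ι) :
    rke2_avg Γ b (c • m) = c • rke2_avg Γ b m := by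
  rw [rke2_avg, rke2_avg, Finset.sum_congr rfl (fun g _ => map_smul (act b g) c m), ← Finset.smul_sum,
    smul_comm]

private theorem rke2_eu_res {τ : V ≃ₗ[ℂ] V} (hfin : IsOfFinOrder τ) (b : Basis ι ℂ V)
    (bU : Basis Unit ℂ ↥(fixSub τ)) : ResRel τ b bU (eu b) tU := by
  rw [eu_eq]
  have h : jR (resR τ b bU (∑ i, C (X i : Px ι) * X i : Rx ι)) = tU := by
    have h1 : resR τ b bU (∑ i, C (X i : Px ι) * X i : Rx ι) = C (X () : Px Unit) * X () := by
      rw [map_sum]
      have h2 : ∀ i, resR τ b bU (C (X i : Px ι) * X i)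
          = C (X () : Px Unit) * yR bU (projT τ ((b.coord i (bU () : V)) • b i)) := by
        intro i
        rw [map_mul, resR_C, ← xl_coord b i, resP_xl, ← yR_basis b i, resR_yR, xl_apply]
        have h5 : ∀ (c : ℂ) (p : Px Unit), (C (c • p) : Rx Unit) = c • C p :=
          fun c p => map_smul (Algebra.algHom ℂ (Px Unit) (Rx Unit)) c p
        rw [Fintype.sum_unique, h5, smul_mul_assoc, (projT τ).map_smul, (yR bU).map_smul, mul_smul_comm]
        rfl
      rw [Finset.sum_congr rfl (fun i _ => h2 i), ← Finset.mul_sum, ← map_sum, ← map_sum]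
      have h3 : ∑ i, (b.coord i (bU () : V)) • b i = (bU () : V) := b.sum_repr _
      rw [h3, projT_of_mem hfin, yR_basis]
    rw [h1, map_mul, jR_C, jR_X, tU, aZ_one]
  rw [← h]
  exact ResRel.ofR _

/-- `Q_k ∣ F^N`: `F(eu)^N = ∑ f_{q_l} m_l` with `q_l` invariant without constant term; average over `Γ`, restrict to
`U × U*` (`eu ↦ T`, `IsQ0.gen`), and take the coefficient of `x^0` in `lau`. -/
theorem Qk_dvd {Γ : Subgroup (V ≃ₗ[ℂ] V)} [Finite Γ] {k : Submodule ℂ V → ℤ → ℂ} {τ : V ≃ₗ[ℂ] V}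
    {b : Basis ι ℂ V} {bU : Basis Unit ℂ ↥(fixSub τ)} {q₀ : Px ι}
    (hΓ : ReflGen Γ) (hτ : Normalizes τ Γ) (hfin : IsOfFinOrder τ) {u : V}
    (hu : ∀ g ∈ Γ, g u = u → g = 1) (hτu : τ u = u) (hk : Adm Γ k) (hT : Tp τ Γ Γ k k)
    (hq : IsQ0 (Γ := Γ) b bU q₀) {Q : Polynomial ℂ} (hQ : IsQk Γ τ k b bU q₀ Q) {F : Polynomial ℂ}
    (hF : Polynomial.aeval (-(Ak Γ k)) F = 0) : ∃ N : ℕ, Q ∣ F ^ N := by
  obtain ⟨N, hN⟩ := exists_N_ideal Γ b
  refine ⟨N, ?_⟩
  have hreg : IsRegular Γ τ := isRegular_of_free Γ hτu hu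
  set e₀ := eFix Γ τ with he₀
  have hs₀ : lau e₀ (LaurentPolynomial.C Q * LaurentPolynomial.T (-1))
      = aZ (-(e₀ : ℤ)) * Polynomial.aeval tU Q := by
    rw [map_mul, lau_C, lau_T, mul_comm]
    congr 2
    ring
  -- the property of elements of `FilM`
  let P : Ax ι → Prop := fun m => ∃ G : LP, ResRel τ b bU (rke2_avg Γ b m) (lau e₀ (LaurentPolynomial.C Q * G))
  have hadd : ∀ m m', P m → P m' → P (m + m') := by
    rintro m m' ⟨G, hG⟩ ⟨G', hG'⟩
    refine ⟨G + G', ?_⟩
    rw [rke2_avg_add, mul_add, map_add]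
    exact hG.add hG'
  have hsmul : ∀ (c : ℂ) m, P m → P (c • m) := by
    rintro c m ⟨G, hG⟩
    refine ⟨c • G, ?_⟩
    rw [rke2_avg_smul, mul_smul_comm, map_smul]
    exact hG.smul c
  have hzero : P 0 := by
    refine ⟨0, ?_⟩
    have h := ResRel.const (τ := τ) (b := b) (bU := bU) 0
    rw [map_zero, map_zero] at h
    have h1 : rke2_avg Γ b (0 : Ax ι) = 0 := by
      have := rke2_avg_smul Γ b (0 : ℂ) (0 : Ax ι)
      rwa [zero_smul, zero_smul] at this
    rw [h1, mul_zero, map_zero]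
    exact h
  have hgen : ∀ r, PInv (dualGrp Γ) b.dualBasis r → coeff 0 r = 0 → ∀ m ∈ Mk Γ k b, P (fq Γ k b r * m) := by
    intro r hr hr0 m hm
    obtain ⟨Pr, hP0, hPr⟩ := hq.gen r hr
    have hrmem := fq_mem Γ k b r
    obtain ⟨s, hs⟩ := exists_res Γ k τ hreg b bU hrmem
    have h1 := hPr k hk hT _ s hQ.res hs
    obtain ⟨P', hP'⟩ := Polynomial.X_dvd_iff.2 (hP0 hr0)
    obtain ⟨s', hs'⟩ := exists_res Γ k τ hreg b bU (rke2_avg_mem Γ k hk b hm)
    obtain ⟨G, hG⟩ := restr_lau hΓ hτ hfin hu hτu (rke2_avg_mem Γ k hk b hm) (rke2_avg_inv Γ b m) hs'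
    refine ⟨LaurentPolynomial.T (-1)
      * Polynomial.aeval (LaurentPolynomial.C Q * LaurentPolynomial.T (-1) : LP) P' * G, ?_⟩
    rw [rke2_avg_mul Γ b (fq_inv Γ k hk b hr)]
    have h2 : lau e₀ (LaurentPolynomial.C Q * (LaurentPolynomial.T (-1)
        * Polynomial.aeval (LaurentPolynomial.C Q * LaurentPolynomial.T (-1) : LP) P' * G)) = s * s' := by
      rw [← hG, h1, hP', map_mul (Polynomial.aeval _), Polynomial.aeval_X, ← hs₀, ← he₀]
      rw [Polynomial.aeval_algHom_apply, ← map_mul, ← map_mul]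
      congr 1
      ring
    rw [h2]
    exact hs.mul hs'
  have hideal : ∀ q ∈ Ideal.span {r | PInv (dualGrp Γ) b.dualBasis r ∧ coeff 0 r = 0},
      ∀ p s : Px ι, P (xA p * fq Γ k b (s * q)) := by
    intro q hqm
    induction hqm using Submodule.span_induction with
    | mem r hr =>
      intro p s
      rw [fq_mul Γ k hk b s hr.1]
      have h1 : xA p * (fq Γ k b r * fq Γ k b s) = fq Γ k b r * (xA p * fq Γ k b s) := by ring
      rw [h1]
      exact hgen r hr.1 hr.2 _ (Mk_xA Γ k (fq_mem Γ k b s) p)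
    | zero =>
      intro p s
      have h0 := fq_smul Γ k b (0 : ℂ) (0 : Px ι)
      rw [zero_smul, zero_smul] at h0
      rw [mul_zero, h0, mul_zero]
      exact hzero
    | add x y _ _ ihx ihy =>
      intro p s
      rw [mul_add, fq_add, mul_add]
      exact hadd _ _ (ihx p s) (ihy p s)
    | smul c x _ ih =>
      intro p s
      rw [smul_eq_mul, ← mul_assoc]
      exact ih p (s * c)
  have hmem : ∀ m ∈ FilM Γ k b N, P m := by
    intro m hm
    induction hm using Submodule.span_induction with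
    | mem m hm =>
      obtain ⟨p, q, n, hn, hq', rfl⟩ := hm
      have h1 := hideal q (hN n hn q hq') p 1
      rwa [one_mul] at h1
    | zero => exact hzero
    | add x y _ _ ihx ihy => exact hadd _ _ ihx ihy
    | smul c x _ ih => exact hsmul c x ih
  obtain ⟨G, hG⟩ := hmem _ (pow_mem_FilM Γ k hk b hF N)
  have hres : ResRel τ b bU (Polynomial.aeval (eu b) (F ^ N)) (Polynomial.aeval tU (F ^ N)) := by
    generalize F ^ N = F'
    induction F' using Polynomial.induction_on' with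
    | add F G hF hG => rw [map_add, map_add]; exact hF.add hG
    | monomial n a =>
      rw [Polynomial.aeval_monomial, Polynomial.aeval_monomial]
      exact (ResRel.const a).mul ((rke2_eu_res hfin b bU).pow n)
  have hinv : InvA Γ b (Polynomial.aeval (eu b) (F ^ N)) := by
    intro g _
    have h1 : act b g (Polynomial.aeval (eu b) (F ^ N)) = Polynomial.aeval (act b g (eu b)) (F ^ N) :=
      (Polynomial.aeval_algHom_apply (act b g) (eu b) (F ^ N)).symm
    rw [h1, act, act_eu]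
  rw [rke2_avg_of_inv Γ b hinv] at hG
  have h2 := hG.unique hres
  rw [← lau_C e₀] at h2
  have h3 := lau_injective (eFix_pos Γ τ) h2
  have h4 := congrArg (LaurentPolynomial.eval₂ (RingHom.id (Polynomial ℂ)) 1) h3
  rw [map_mul, LaurentPolynomial.eval₂_C, LaurentPolynomial.eval₂_C, RingHom.id_apply, RingHom.id_apply] at h4
  exact ⟨_, h4.symm⟩

end

end Pool.Agent.CM64
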