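import Pool.Agent.LibCM64.RkE

/-! Rank one: `Q_k` divides a power of a polynomial annihilating `-A_k`, `A_k = ∑_H a_H ∈ ℂΓ`. -/

set_option linter.unusedSectionVars false

namespace Pool.Agent.CM64

open Module MvPolynomial

section

variable {V : Type} [AddCommGroup V] [Module ℂ V] [FiniteDimensional ℂ V]
variable {ι : Type} [Fintype ι] [DecidableEq ι]
variable (Γ : Subgroup (V ≃ₗ[ℂ] V)) [Finite Γ] (k : Submodule ℂ V → ℤ → ℂ)

open Classical in
/-- the group element `u` in the group algebra, `0` if `u` is not in the group. -/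
private noncomputable def rke_dl (u : V ≃ₗ[ℂ] V) : MonoidAlgebra ℂ Γ :=
  if hu : u ∈ Γ then MonoidAlgebra.single (⟨u, hu⟩ : Γ) 1 else 0

private theorem rke_dl_mem {u : V ≃ₗ[ℂ] V} (hu : u ∈ Γ) :
    rke_dl Γ u = MonoidAlgebra.single (⟨u, hu⟩ : Γ) 1 := by
  unfold rke_dl
  rw [dif_pos hu]

private theorem rke_Ak : Ak Γ k = ∑ H ∈ arrF Γ, ∑ u ∈ pstF Γ H, kap Γ k H u • rke_dl Γ u := by
  unfold Ak
  refine Finset.sum_congr rfl fun H _ => ?_
  rw [← Finset.sum_attach (pstF Γ H)]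
  refine Finset.sum_congr rfl fun g _ => ?_
  rw [rke_dl_mem Γ (mem_pstF.1 g.2).1, MonoidAlgebra.smul_single, smul_eq_mul, mul_one]

private theorem rke_conj (g : Γ) {u : V ≃ₗ[ℂ] V} (hu : u ∈ Γ) :
    MonoidAlgebra.single g (1 : ℂ) * rke_dl Γ u =
      rke_dl Γ (cj (g : V ≃ₗ[ℂ] V) u) * MonoidAlgebra.single g (1 : ℂ) := by
  have h1 : cj (g : V ≃ₗ[ℂ] V) u ∈ Γ := by
    rw [cj_eq_conj]
    exact Γ.mul_mem (Γ.mul_mem g.2 hu) (Γ.inv_mem g.2)
  rw [rke_dl_mem Γ hu, rke_dl_mem Γ h1, MonoidAlgebra.single_mul_single,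
    MonoidAlgebra.single_mul_single]
  congr 1
  apply Subtype.ext
  show (g : V ≃ₗ[ℂ] V) * u = cj (g : V ≃ₗ[ℂ] V) u * (g : V ≃ₗ[ℂ] V)
  rw [cj_eq_conj, inv_mul_cancel_right]

private theorem rke_comm (hk : Adm Γ k) (g : Γ) :
    MonoidAlgebra.single g (1 : ℂ) * Ak Γ k = Ak Γ k * MonoidAlgebra.single g (1 : ℂ) := by
  have hT : Tp (g : V ≃ₗ[ℂ] V) Γ Γ k k := tp_of_mem hk g.2
  conv_rhs => rw [rke_Ak, sum_arrF_map hT]
  rw [rke_Ak, Finset.mul_sum, Finset.sum_mul]
  refine Finset.sum_congr rfl fun H hH => ?_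
  rw [sum_pstF_map hT H, Finset.mul_sum, Finset.sum_mul]
  refine Finset.sum_congr rfl fun u hu => ?_
  rw [kap_map hT (mem_arrF.1 hH) u, Algebra.mul_smul_comm, Algebra.smul_mul_assoc,
    rke_conj Γ g (mem_pstF.1 hu).1]

/-- `A_k` is central (`k` is `Γ`-invariant). -/
theorem Ak_central (hk : Adm Γ k) : Ak Γ k ∈ Subalgebra.center ℂ (MonoidAlgebra ℂ Γ) := by
  rw [Subalgebra.mem_center_iff]
  intro x
  induction x using MonoidAlgebra.induction_on with
  | of g => exact rke_comm Γ k hk g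
  | add f g hf hg => rw [add_mul, mul_add, hf, hg]
  | smul c f hf => rw [Algebra.smul_mul_assoc, Algebra.mul_smul_comm, hf]

end

/-- in a finite dimensional algebra a central element `z` is annihilated by a polynomial whose roots are values at `z` of
characters of the centre. -/
theorem exists_ann {A : Type} [Ring A] [Algebra ℂ A] [FiniteDimensional ℂ A] (z : Subalgebra.center ℂ A) :
    ∃ F : Polynomial ℂ, F ≠ 0 ∧ Polynomial.aeval (z : A) F = 0 ∧
      ∀ r, F.IsRoot r → ∃ φ : Subalgebra.center ℂ A →ₐ[ℂ] ℂ, φ z = r := by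
  have hfin : FiniteDimensional ℂ (Subalgebra.center ℂ A) :=
    FiniteDimensional.finiteDimensional_subalgebra _
  have hint : IsIntegral ℂ z := Algebra.IsIntegral.isIntegral z
  have hne := minpoly.ne_zero hint
  refine ⟨minpoly ℂ z, hne, ?_, ?_⟩
  · have h1 := minpoly.aeval ℂ z
    have h2 : Polynomial.aeval (z : A) (minpoly ℂ z) =
        ((Polynomial.aeval z (minpoly ℂ z) : Subalgebra.center ℂ A) : A) := by
      exact Polynomial.aeval_algHom_apply (Subalgebra.center ℂ A).val z (minpoly ℂ z)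
    rw [h2, h1]; rfl
  · intro r hr
    obtain ⟨G, hG⟩ := Polynomial.dvd_iff_isRoot.2 hr
    have hnu : ¬ IsUnit (z - algebraMap ℂ (Subalgebra.center ℂ A) r) := by
      intro hu
      have h1 := minpoly.aeval ℂ z
      rw [hG, map_mul, map_sub, Polynomial.aeval_X, Polynomial.aeval_C] at h1
      have h2 : Polynomial.aeval z G = 0 := (hu.mul_right_eq_zero).1 h1
      have hG0 : G ≠ 0 := by
        rintro rfl
        rw [mul_zero] at hG
        exact hne hG
      have h3 := minpoly.degree_le_of_ne_zero ℂ z hG0 h2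
      rw [hG, Polynomial.degree_mul, Polynomial.degree_X_sub_C] at h3
      have h4 : G.degree = (G.natDegree : WithBot ℕ) := Polynomial.degree_eq_natDegree hG0
      rw [h4] at h3
      have h5 : ((1 + G.natDegree : ℕ) : WithBot ℕ) ≤ (G.natDegree : ℕ) := by
        push_cast; exact h3
      have h6 := WithBot.coe_le_coe.1 h5
      simp at h6
    obtain ⟨m, hm, hzm⟩ := exists_max_ideal_of_mem_nonunits (mem_nonunits_iff.2 hnu)
    let _ : Field (Subalgebra.center ℂ A ⧸ m) := Ideal.Quotient.field m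
    have hbij := IsAlgClosed.algebraMap_bijective_of_isIntegral (k := ℂ)
      (K := (Subalgebra.center ℂ A ⧸ m))
    let e : ℂ ≃ₐ[ℂ] (Subalgebra.center ℂ A ⧸ m) :=
      AlgEquiv.ofBijective (Algebra.ofId ℂ (Subalgebra.center ℂ A ⧸ m)) hbij
    refine ⟨e.symm.toAlgHom.comp (Ideal.Quotient.mkₐ ℂ m), ?_⟩
    show e.symm (Ideal.Quotient.mk m z) = r
    rw [AlgEquiv.symm_apply_eq]
    show Ideal.Quotient.mk m z = algebraMap ℂ (Subalgebra.center ℂ A ⧸ m) r
    rw [← sub_eq_zero]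
    have : algebraMap ℂ (Subalgebra.center ℂ A ⧸ m) r =
      Ideal.Quotient.mk m (algebraMap ℂ (Subalgebra.center ℂ A) r) := rfl
    rw [this, ← map_sub]
    exact Ideal.Quotient.eq_zero_iff_mem.2 hzm

theorem finite_characters (A : Type) [Ring A] [Algebra ℂ A] [FiniteDimensional ℂ A] :
    Finite (Subalgebra.center ℂ A →ₐ[ℂ] ℂ) := by
  have hfin : FiniteDimensional ℂ (Subalgebra.center ℂ A) :=
    FiniteDimensional.finiteDimensional_subalgebra _
  exact Finite.of_fintype _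

end Pool.Agent.CM64
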