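import Mathlib

/-! Polynomials depending polynomially on a parameter, whose roots are values of finitely many linear functionals. -/

set_option linter.unusedSectionVars false

namespace Pool.Agent.CM64

open Polynomial

/-- finitely many functions on a vector space `K`, each of which is somewhere nonzero and polynomial along finite
dimensional families, have a common non-zero. -/
theorem exists_common_nonzero {K : Type} [AddCommGroup K] [Module ℂ K] {Ψ : Type} [Finite Ψ] (F : Ψ → K → ℂ)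
    (hpoly : ∀ (ψ : Ψ) (r : ℕ) (κ : Fin r → K), ∃ P : MvPolynomial (Fin r) ℂ, ∀ c : Fin r → ℂ,
      F ψ (∑ i, c i • κ i) = MvPolynomial.eval c P)
    (hne : ∀ ψ, ∃ k, F ψ k ≠ 0) : ∃ k, ∀ ψ, F ψ k ≠ 0 := by
  classical
  obtain ⟨r, ⟨e⟩⟩ := Finite.exists_equiv_fin Ψ
  choose κ hκ using hne
  have h1 : ∀ ψ, ∃ P : MvPolynomial (Fin r) ℂ, ∀ c : Fin r → ℂ,
      F ψ (∑ i, c i • κ (e.symm i)) = MvPolynomial.eval c P :=
    fun ψ => hpoly ψ r (fun i => κ (e.symm i))
  choose P hP using h1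
  have hP0 : ∀ ψ, P ψ ≠ 0 := by
    intro ψ h0
    have h2 := hP ψ (Pi.single (e ψ) 1)
    have h3 : ∑ i, (Pi.single (e ψ) (1 : ℂ) : Fin r → ℂ) i • κ (e.symm i) = κ ψ := by
      rw [Finset.sum_eq_single (e ψ)]
      · rw [Pi.single_eq_same, one_smul, Equiv.symm_apply_apply]
      · intro j _ hj
        rw [Pi.single_eq_of_ne hj, zero_smul]
      · intro h
        exact absurd (Finset.mem_univ _) h
    rw [h3, h0, map_zero] at h2
    exact hκ ψ h2
  have hprod : ∏ i, P (e.symm i) ≠ 0 := Finset.prod_ne_zero_iff.2 (fun i _ => hP0 _)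
  obtain ⟨c, hc⟩ : ∃ c : Fin r → ℂ, MvPolynomial.eval c (∏ i, P (e.symm i)) ≠ 0 := by
    by_contra hcon
    push Not at hcon
    apply hprod
    apply MvPolynomial.funext
    intro c
    rw [hcon c, map_zero]
  refine ⟨∑ i, c i • κ (e.symm i), fun ψ => ?_⟩
  rw [hP ψ c]
  rw [map_prod] at hc
  have h4 := Finset.prod_ne_zero_iff.1 hc (e ψ) (Finset.mem_univ _)
  rwa [Equiv.symm_apply_apply] at h4

/-- the coefficients of a product of linear factors are polynomial along finite dimensional families. -/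
private theorem rkF_prod_poly {K : Type} [AddCommGroup K] [Module ℂ K] {n : ℕ} (ℓ : Fin n → (K →ₗ[ℂ] ℂ))
    (r : ℕ) (κ : Fin r → K) (j : ℕ) : ∃ P : MvPolynomial (Fin r) ℂ, ∀ c : Fin r → ℂ,
      (∏ i, (X - C (ℓ i (∑ m, c m • κ m)))).coeff j = MvPolynomial.eval c P := by
  refine ⟨(∏ i, ((X : Polynomial (MvPolynomial (Fin r) ℂ))
    - C (∑ m : Fin r, MvPolynomial.C (ℓ i (κ m)) * MvPolynomial.X m))).coeff j, fun c => ?_⟩
  rw [← Polynomial.coeff_map, Polynomial.map_prod]
  congr 1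
  refine Finset.prod_congr rfl (fun i _ => ?_)
  rw [Polynomial.map_sub, Polynomial.map_X, Polynomial.map_C]
  congr 2
  rw [map_sum (ℓ i), map_sum (MvPolynomial.eval c)]
  refine Finset.sum_congr rfl (fun m _ => ?_)
  rw [map_smul, smul_eq_mul, map_mul, MvPolynomial.eval_C, MvPolynomial.eval_X, mul_comm]

/-- a monic complex polynomial of degree `n` is a product of `n` linear factors. -/
private theorem rkF_factor (n : ℕ) (Q : Polynomial ℂ) (hm : Q.Monic) (hd : Q.natDegree = n) :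
    ∃ ρ : Fin n → ℂ, (∀ i, Q.IsRoot (ρ i)) ∧ Q = ∏ i, (X - C (ρ i)) := by
  have hs : Q.Splits := IsAlgClosed.splits Q
  have h1 : Q = (Q.roots.map (fun a => X - C a)).prod := by
    have := hs.eq_prod_roots
    rw [hm.leadingCoeff, C_1, one_mul] at this
    exact this
  have h2 : Multiset.card Q.roots = n := by
    rw [← hd, hs.natDegree_eq_card_roots]
  set L := Q.roots.toList with hL
  have h3 : L.length = n := by
    rw [hL, Multiset.length_toList, h2]
  refine ⟨fun i => L.get (Fin.cast h3.symm i), fun i => ?_, ?_⟩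
  · have h4 : L.get (Fin.cast h3.symm i) ∈ Q.roots := by
      rw [← Multiset.mem_toList]
      exact List.get_mem _ _
    exact Polynomial.isRoot_of_mem_roots h4
  · have h5 : (Q.roots.map (fun a => X - C a)).prod = (L.map (fun a => (X : Polynomial ℂ) - C a)).prod := by
      conv_lhs => rw [← Multiset.coe_toList Q.roots]
      rw [Multiset.map_coe, Multiset.prod_coe]
    have h6 : (L.map (fun a => (X : Polynomial ℂ) - C a)).prod
        = ∏ i : Fin L.length, ((X : Polynomial ℂ) - C (L.get i)) := by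
      rw [← List.prod_ofFn]
      congr 1
      apply List.ext_get
      · simp
      · intro m h h'
        simp
    rw [h1, h5, h6]
    exact Fintype.prod_equiv (finCongr h3) _ _ (fun i => rfl)

/-- if the monic polynomials `Q k` of degree `n` depend polynomially on `k ∈ K` and their roots are among the values of
the functionals `l φ`, then `Q k = ∏_{i<n} (X - l_{φ_i}(k))` for fixed `φ_1, …, φ_n`: otherwise for each tuple some
coefficient differs somewhere; apply `exists_common_nonzero`. -/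
theorem exists_tuple {K : Type} [AddCommGroup K] [Module ℂ K] {Φ : Type} [Finite Φ] (l : Φ → (K →ₗ[ℂ] ℂ)) (n : ℕ)
    (Q : K → Polynomial ℂ) (hm : ∀ k, (Q k).Monic) (hd : ∀ k, (Q k).natDegree = n)
    (hroot : ∀ k r, (Q k).IsRoot r → ∃ φ, l φ k = r)
    (hpoly : ∀ (r : ℕ) (κ : Fin r → K) (j : ℕ), ∃ P : MvPolynomial (Fin r) ℂ, ∀ c : Fin r → ℂ,
      (Q (∑ i, c i • κ i)).coeff j = MvPolynomial.eval c P) :
    ∃ φ : Fin n → Φ, ∀ k, Q k = ∏ i, (X - C (l (φ i) k)) := by
  classical
  by_contra hcon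
  push Not at hcon
  have h1 : ∀ φ : Fin n → Φ, ∃ (j : ℕ) (k : K), (Q k).coeff j ≠ (∏ i, (X - C (l (φ i) k))).coeff j := by
    intro φ
    obtain ⟨k, hk⟩ := hcon φ
    by_contra hc
    push Not at hc
    exact hk (Polynomial.ext (fun j => hc j k))
  choose j hj using h1
  obtain ⟨k, hk⟩ := exists_common_nonzero (K := K) (Ψ := Fin n → Φ)
    (fun φ k => (Q k).coeff (j φ) - (∏ i, (X - C (l (φ i) k))).coeff (j φ)) (by
      intro φ r κ
      obtain ⟨P, hP⟩ := hpoly r κ (j φ)
      obtain ⟨P', hP'⟩ := rkF_prod_poly (fun i => l (φ i)) r κ (j φ)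
      refine ⟨P - P', fun c => ?_⟩
      rw [map_sub, hP c, hP' c]) (by
      intro φ
      obtain ⟨k, hk⟩ := hj φ
      exact ⟨k, sub_ne_zero.2 hk⟩)
  obtain ⟨ρ, hρ, hQ⟩ := rkF_factor n (Q k) (hm k) (hd k)
  choose φ hφ using fun i => hroot k (ρ i) (hρ i)
  apply hk φ
  rw [sub_eq_zero]
  conv_lhs => rw [hQ]
  congr 1
  exact Finset.prod_congr rfl (fun i _ => by rw [hφ i])

/-- moreover, if `Q k` vanishes at `0` for all `k`, one of the functionals is zero; put it in position `0`. -/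
theorem exists_functionals {K : Type} [AddCommGroup K] [Module ℂ K] {Φ : Type} [Finite Φ] (l : Φ → (K →ₗ[ℂ] ℂ))
    (n : ℕ) (hn : 0 < n) (Q : K → Polynomial ℂ) (hm : ∀ k, (Q k).Monic) (hd : ∀ k, (Q k).natDegree = n)
    (hroot : ∀ k r, (Q k).IsRoot r → ∃ φ, l φ k = r)
    (hpoly : ∀ (r : ℕ) (κ : Fin r → K) (j : ℕ), ∃ P : MvPolynomial (Fin r) ℂ, ∀ c : Fin r → ℂ,
      (Q (∑ i, c i • κ i)).coeff j = MvPolynomial.eval c P) (h0 : ∀ k, (Q k).coeff 0 = 0) :
    ∃ ℓ : Fin n → (K →ₗ[ℂ] ℂ), (∀ i : Fin n, (i : ℕ) = 0 → ℓ i = 0) ∧ ∀ k, Q k = ∏ i, (X - C (ℓ i k)) := by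
  classical
  obtain ⟨φ, hφ⟩ := exists_tuple l n Q hm hd hroot hpoly
  obtain ⟨i₀, hi₀⟩ : ∃ i, l (φ i) = 0 := by
    by_contra hcon
    push Not at hcon
    obtain ⟨k, hk⟩ := exists_common_nonzero (K := K) (Ψ := Fin n) (fun i k => l (φ i) k) (by
      intro i r κ
      refine ⟨∑ m, MvPolynomial.C (l (φ i) (κ m)) * MvPolynomial.X m, fun c => ?_⟩
      rw [map_sum, map_sum]
      refine Finset.sum_congr rfl (fun m _ => ?_)
      rw [map_smul, smul_eq_mul, map_mul, MvPolynomial.eval_C, MvPolynomial.eval_X, mul_comm]) (by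
      intro i
      by_contra hc
      push Not at hc
      exact hcon i (LinearMap.ext hc))
    have h1 := h0 k
    rw [hφ k, Polynomial.coeff_zero_eq_eval_zero, Polynomial.eval_prod, Finset.prod_eq_zero_iff] at h1
    obtain ⟨i, _, hi⟩ := h1
    rw [Polynomial.eval_sub, Polynomial.eval_X, Polynomial.eval_C, zero_sub, neg_eq_zero] at hi
    exact hk i hi
  set z : Fin n := ⟨0, hn⟩ with hz
  refine ⟨fun i => l (φ (Equiv.swap z i₀ i)), ?_, ?_⟩
  · intro i hi
    have h1 : i = z := Fin.ext hi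
    subst h1
    show l (φ (Equiv.swap z i₀ z)) = 0
    rw [Equiv.swap_apply_left]
    exact hi₀
  · intro k
    rw [hφ k]
    exact (Equiv.prod_comp (Equiv.swap z i₀) (fun i => X - C (l (φ i) k))).symm

end Pool.Agent.CM64
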