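import Pool.Agent.LibCM64.RkE2
import Pool.Agent.LibCM64.RkE3
import Pool.Agent.LibCM64.RkF

/-! Rank one: the roots of `Q_k` are linear functions of `k`. -/

set_option linter.unusedSectionVars false

namespace Pool.Agent.CM64

open Module MvPolynomial

section

variable {V : Type} [AddCommGroup V] [Module ℂ V] [FiniteDimensional ℂ V]
variable {ι : Type} [Fintype ι] [DecidableEq ι]
variable {Γ : Subgroup (V ≃ₗ[ℂ] V)} [Finite Γ] {τ : V ≃ₗ[ℂ] V}

theorem kap_add (k k' : Submodule ℂ V → ℤ → ℂ) (H : Submodule ℂ V) (g : V ≃ₗ[ℂ] V) :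
    kap Γ (k + k') H g = kap Γ k H g + kap Γ k' H g := by
  unfold kap
  rw [← Finset.sum_add_distrib]
  refine Finset.sum_congr rfl fun j _ => ?_
  simp only [Pi.add_apply]
  ring

theorem kap_smul (c : ℂ) (k : Submodule ℂ V → ℤ → ℂ) (H : Submodule ℂ V) (g : V ≃ₗ[ℂ] V) :
    kap Γ (c • k) H g = c * kap Γ k H g := by
  unfold kap
  rw [Finset.mul_sum]
  refine Finset.sum_congr rfl fun j _ => ?_
  simp only [Pi.smul_apply, smul_eq_mul]
  ring

theorem Ak_add (k k' : Submodule ℂ V → ℤ → ℂ) : Ak Γ (k + k') = Ak Γ k + Ak Γ k' := by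
  unfold Ak
  rw [← Finset.sum_add_distrib]
  refine Finset.sum_congr rfl fun H _ => ?_
  rw [← Finset.sum_add_distrib]
  refine Finset.sum_congr rfl fun g _ => ?_
  rw [kap_add, MonoidAlgebra.single_add]

theorem Ak_smul (c : ℂ) (k : Submodule ℂ V → ℤ → ℂ) : Ak Γ (c • k) = c • Ak Γ k := by
  unfold Ak
  rw [Finset.smul_sum]
  refine Finset.sum_congr rfl fun H _ => ?_
  rw [Finset.smul_sum]
  refine Finset.sum_congr rfl fun g _ => ?_
  rw [kap_smul, MonoidAlgebra.smul_single, smul_eq_mul]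

/-- the functional `k ↦ φ(-A_k)` on a space `K` of admissible parameters. -/
noncomputable def lphi (K : Submodule ℂ (Submodule ℂ V → ℤ → ℂ)) (hK : ∀ k ∈ K, Adm Γ k)
    (φ : Subalgebra.center ℂ (MonoidAlgebra ℂ Γ) →ₐ[ℂ] ℂ) : K →ₗ[ℂ] ℂ where
  toFun k := φ (-⟨Ak Γ k.1, Ak_central Γ k.1 (hK k.1 k.2)⟩)
  map_add' k k' := by
    rw [← map_add]
    congr 1
    apply Subtype.ext
    show -(Ak Γ (k.1 + k'.1)) = -(Ak Γ k.1) + -(Ak Γ k'.1)
    rw [Ak_add]; abel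
  map_smul' c k := by
    rw [← map_smul]
    congr 1
    apply Subtype.ext
    show -(Ak Γ (c • k.1)) = c • -(Ak Γ k.1)
    rw [Ak_smul, smul_neg]

/-! auxiliary: functions with a power of `Δ` as denominator. -/

private theorem rkg_xA_C (c : ℂ) : (xA (C c : Px ι) : Ax ι) = algebraMap ℂ (Ax ι) c := by
  rw [← MvPolynomial.algebraMap_eq]
  exact xA.commutes c

private theorem rkg_trP_Del (b : Basis ι ℂ V) {g : V ≃ₗ[ℂ] V} (hg : g ∈ Γ) :
    ∃ c : ℂ, c ≠ 0 ∧ Del Γ b = c • trP b b g (Del Γ b) := by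
  classical
  have hk0 : Adm Γ (fun _ _ => 0 : Submodule ℂ V → ℤ → ℂ) := ⟨fun _ _ _ _ _ => rfl, fun _ _ _ => rfl⟩
  have hT := tp_of_mem hk0 hg
  have h1 := sum_arrF_map hT (M := Additive (Px ι)) (fun H => Additive.ofMul (xl b (lf H)))
  have h2 : Del Γ b = ∏ H ∈ arrF Γ, xl b (lf (H.map (g : V →ₗ[ℂ] V))) := h1
  have h3 : ∀ H : Submodule ℂ V, ∃ c : ℂ, c ≠ 0 ∧ (H ∈ arrF Γ →
      xl b (lf (H.map (g : V →ₗ[ℂ] V))) = c • trP b b g (xl b (lf H))) := by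
    intro H
    by_cases hH : H ∈ arrF Γ
    · obtain ⟨c, hc, hc'⟩ := lf_map g H (arr_finrank Γ (mem_arrF.1 hH))
      refine ⟨c, hc, fun _ => ?_⟩
      rw [hc', map_smul, trP_xl]
    · exact ⟨1, one_ne_zero, fun h => absurd h hH⟩
  choose c hc hc' using h3
  refine ⟨∏ H ∈ arrF Γ, c H, Finset.prod_ne_zero_iff.2 (fun H _ => hc H), ?_⟩
  have h4 : ∏ H ∈ arrF Γ, xl b (lf (H.map (g : V →ₗ[ℂ] V)))
      = ∏ H ∈ arrF Γ, (c H • trP b b g (xl b (lf H))) := Finset.prod_congr rfl (fun H hH => hc' H hH)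
  have h5 : trP b b g (Del Γ b) = ∏ H ∈ arrF Γ, trP b b g (xl b (lf H)) := by
    rw [Del, map_prod]
  rw [h5, h2, h4, Finset.prod_smul]

variable (Γ) in
/-- functions whose denominator is a power of `Δ`. -/
private def rkg_den (b : Basis ι ℂ V) : Submodule ℂ (Ax ι) where
  carrier := {m | ∃ (N : ℕ) (p : Rx ι), jR p = xA (Del Γ b ^ N) * m}
  add_mem' := by
    rintro m m' ⟨N, p, hp⟩ ⟨N', p', hp'⟩
    refine ⟨N + N', C (Del Γ b ^ N') * p + C (Del Γ b ^ N) * p', ?_⟩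
    rw [map_add, map_mul, map_mul, jR_C, jR_C, hp, hp', pow_add, map_mul]
    ring
  zero_mem' := ⟨0, 0, by rw [map_zero, mul_zero]⟩
  smul_mem' := by
    rintro c m ⟨N, p, hp⟩
    refine ⟨N, c • p, ?_⟩
    rw [map_smul, hp, mul_smul_comm]

private theorem rkg_den_mul (b : Basis ι ℂ V) {m m' : Ax ι} (h : m ∈ rkg_den Γ b)
    (h' : m' ∈ rkg_den Γ b) : m * m' ∈ rkg_den Γ b := by
  obtain ⟨N, p, hp⟩ := h
  obtain ⟨N', p', hp'⟩ := h'
  refine ⟨N + N', p * p', ?_⟩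
  rw [map_mul, hp, hp', pow_add, map_mul]
  ring

private theorem rkg_den_jR (b : Basis ι ℂ V) (p : Rx ι) : jR p ∈ rkg_den Γ b :=
  ⟨0, p, by rw [pow_zero, map_one, one_mul]⟩

private theorem rkg_den_act (b : Basis ι ℂ V) {g : V ≃ₗ[ℂ] V} (hg : g ∈ Γ) {m : Ax ι}
    (h : m ∈ rkg_den Γ b) : act b g m ∈ rkg_den Γ b := by
  obtain ⟨N, p, hp⟩ := h
  obtain ⟨c, hc, hc'⟩ := rkg_trP_Del (Γ := Γ) b hg
  refine ⟨N, c ^ N • trR b b g p, ?_⟩
  have h1 : xA (Del Γ b ^ N) = c ^ N • xA (trP b b g (Del Γ b) ^ N) := by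
    conv_lhs => rw [hc']
    rw [smul_pow, map_smul]
  rw [map_smul, jR_trR, hp, map_mul, trA_xA, map_pow, h1, smul_mul_assoc]

private theorem rkg_den_qH (b : Basis ι ℂ V) {H : Submodule ℂ V} (hH : H ∈ arrF Γ) (v : V) :
    (C (qH b H v) : Ax ι) ∈ rkg_den Γ b := by
  classical
  refine ⟨1, C (C (lf H v) * ∏ H' ∈ (arrF Γ).erase H, xl b (lf H')), ?_⟩
  have h1 : (C (qH b H v) : Ax ι) * xA (xl b (lf H)) = algebraMap ℂ (Ax ι) (lf H v) := by
    rw [xA_apply, ← C_mul, qH_mul b H (arr_finrank Γ (mem_arrF.1 hH)) v]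
    rfl
  have h2 : Del Γ b = xl b (lf H) * ∏ H' ∈ (arrF Γ).erase H, xl b (lf H') := by
    rw [Del]
    exact (Finset.mul_prod_erase (arrF Γ) (fun H' => xl b (lf H')) hH).symm
  rw [jR_C, map_mul, rkg_xA_C, ← h1, pow_one, h2, map_mul]
  ring

/-- the part of the Dunkl operator which is linear in the parameter. -/
private noncomputable def rkg_D (Γ : Subgroup (V ≃ₗ[ℂ] V)) [Finite Γ] (k : Submodule ℂ V → ℤ → ℂ)
    (b : Basis ι ℂ V) (v : V) : Module.End ℂ (Ax ι) :=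
  ∑ H ∈ arrF Γ, (LinearMap.mulLeft ℂ (C (qH b H v) : Ax ι)) ∘ₗ aop Γ k b H

private theorem rkg_dunkl (k : Submodule ℂ V → ℤ → ℂ) (b : Basis ι ℂ V) (v : V) (m : Ax ι) :
    dunkl Γ k b v m = yA b v * m + rkg_D Γ k b v m := by
  unfold dunkl rkg_D
  rw [LinearMap.add_apply]
  rfl

private theorem rkg_D_apply (k : Submodule ℂ V → ℤ → ℂ) (b : Basis ι ℂ V) (v : V) (m : Ax ι) :
    rkg_D Γ k b v m
      = ∑ H ∈ arrF Γ, C (qH b H v) * ∑ g ∈ pstF Γ H, kap Γ k H g • act b g m := by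
  unfold rkg_D
  rw [LinearMap.sum_apply]
  refine Finset.sum_congr rfl fun H _ => ?_
  rw [LinearMap.comp_apply, tact_aop_apply]
  rfl

private theorem rkg_D_add (k k' : Submodule ℂ V → ℤ → ℂ) (b : Basis ι ℂ V) (v : V) (m : Ax ι) :
    rkg_D Γ (k + k') b v m = rkg_D Γ k b v m + rkg_D Γ k' b v m := by
  rw [rkg_D_apply, rkg_D_apply, rkg_D_apply, ← Finset.sum_add_distrib]
  refine Finset.sum_congr rfl fun H _ => ?_
  rw [← mul_add, ← Finset.sum_add_distrib]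
  congr 1
  refine Finset.sum_congr rfl fun g _ => ?_
  rw [kap_add, add_smul]

private theorem rkg_D_smul (c : ℂ) (k : Submodule ℂ V → ℤ → ℂ) (b : Basis ι ℂ V) (v : V)
    (m : Ax ι) : rkg_D Γ (c • k) b v m = c • rkg_D Γ k b v m := by
  rw [rkg_D_apply, rkg_D_apply, Finset.smul_sum]
  refine Finset.sum_congr rfl fun H _ => ?_
  rw [← mul_smul_comm, Finset.smul_sum]
  congr 1
  refine Finset.sum_congr rfl fun g _ => ?_
  rw [kap_smul, mul_smul]

private theorem rkg_D_zero (b : Basis ι ℂ V) (v : V) (m : Ax ι) :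
    rkg_D Γ (0 : Submodule ℂ V → ℤ → ℂ) b v m = 0 := by
  have h := rkg_D_smul (Γ := Γ) 0 (0 : Submodule ℂ V → ℤ → ℂ) b v m
  rw [zero_smul, zero_smul] at h
  exact h

private theorem rkg_D_sum {α : Type} (s : Finset α) (κ : α → Submodule ℂ V → ℤ → ℂ) (c : α → ℂ)
    (b : Basis ι ℂ V) (v : V) (m : Ax ι) :
    rkg_D Γ (∑ i ∈ s, c i • κ i) b v m = ∑ i ∈ s, c i • rkg_D Γ (κ i) b v m := by
  classical
  induction s using Finset.induction_on with
  | empty => rw [Finset.sum_empty, Finset.sum_empty, rkg_D_zero]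
  | insert a s ha ih =>
    rw [Finset.sum_insert ha, Finset.sum_insert ha, rkg_D_add, rkg_D_smul, ih]

private theorem rkg_D_den (k : Submodule ℂ V → ℤ → ℂ) (b : Basis ι ℂ V) (v : V) {m : Ax ι}
    (hm : m ∈ rkg_den Γ b) : rkg_D Γ k b v m ∈ rkg_den Γ b := by
  rw [rkg_D_apply]
  refine Submodule.sum_mem _ fun H hH => rkg_den_mul b (rkg_den_qH b hH v) ?_
  refine Submodule.sum_mem _ fun g hg => Submodule.smul_mem _ _ (rkg_den_act b ?_ hm)
  exact pst_le Γ H (mem_pstF.1 hg)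

/-- families depending polynomially on the parameters. -/
private def rkg_PF (Γ : Subgroup (V ≃ₗ[ℂ] V)) [Finite Γ] (b : Basis ι ℂ V) (r : ℕ)
    (F : (Fin r → ℂ) → Ax ι) : Prop :=
  ∃ (t : Finset (Fin r →₀ ℕ)) (e : (Fin r →₀ ℕ) → Ax ι), (∀ γ, e γ ∈ rkg_den Γ b) ∧
    ∀ c : Fin r → ℂ, F c = ∑ γ ∈ t, (∏ i, c i ^ γ i) • e γ

private theorem rkg_PF_const (b : Basis ι ℂ V) (r : ℕ) {m : Ax ι} (hm : m ∈ rkg_den Γ b) :
    rkg_PF Γ b r (fun _ => m) := by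
  refine ⟨{0}, fun _ => m, fun _ => hm, fun c => ?_⟩
  rw [Finset.sum_singleton]
  simp

private theorem rkg_PF_add (b : Basis ι ℂ V) {r : ℕ} {F G : (Fin r → ℂ) → Ax ι}
    (hF : rkg_PF Γ b r F) (hG : rkg_PF Γ b r G) : rkg_PF Γ b r (fun c => F c + G c) := by
  classical
  obtain ⟨t, e, he, hF⟩ := hF
  obtain ⟨t', e', he', hG⟩ := hG
  refine ⟨t ∪ t', fun γ => (if γ ∈ t then e γ else 0) + (if γ ∈ t' then e' γ else 0), ?_, ?_⟩
  · intro γ
    refine Submodule.add_mem _ ?_ ?_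
    · split_ifs
      · exact he γ
      · exact Submodule.zero_mem _
    · split_ifs
      · exact he' γ
      · exact Submodule.zero_mem _
  · intro c
    show F c + G c = ∑ γ ∈ t ∪ t', (∏ i, c i ^ γ i) •
      ((if γ ∈ t then e γ else 0) + (if γ ∈ t' then e' γ else 0))
    rw [hF, hG]
    simp only [smul_add]
    rw [Finset.sum_add_distrib]
    congr 1
    · rw [← Finset.sum_subset (Finset.subset_union_left (s₁ := t) (s₂ := t'))]
      · exact Finset.sum_congr rfl fun γ hγ => by rw [if_pos hγ]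
      · intro γ _ hγ
        rw [if_neg hγ, smul_zero]
    · rw [← Finset.sum_subset (Finset.subset_union_right (s₁ := t) (s₂ := t'))]
      · exact Finset.sum_congr rfl fun γ hγ => by rw [if_pos hγ]
      · intro γ _ hγ
        rw [if_neg hγ, smul_zero]

private theorem rkg_PF_lin (b : Basis ι ℂ V) {r : ℕ} {F : (Fin r → ℂ) → Ax ι}
    (hF : rkg_PF Γ b r F) (L : Module.End ℂ (Ax ι)) (hL : ∀ m ∈ rkg_den Γ b, L m ∈ rkg_den Γ b) :
    rkg_PF Γ b r (fun c => L (F c)) := by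
  obtain ⟨t, e, he, hF⟩ := hF
  refine ⟨t, fun γ => L (e γ), fun γ => hL _ (he γ), fun c => ?_⟩
  show L (F c) = ∑ γ ∈ t, (∏ i, c i ^ γ i) • L (e γ)
  rw [hF, map_sum]
  exact Finset.sum_congr rfl fun γ _ => map_smul _ _ _

private theorem rkg_PF_coord (b : Basis ι ℂ V) {r : ℕ} {F : (Fin r → ℂ) → Ax ι}
    (hF : rkg_PF Γ b r F) (i : Fin r) : rkg_PF Γ b r (fun c => c i • F c) := by
  classical
  obtain ⟨t, e, he, hF⟩ := hF
  have hinj : Function.Injective (fun γ : Fin r →₀ ℕ => γ + Finsupp.single i 1) :=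
    add_left_injective _
  refine ⟨t.image (fun γ => γ + Finsupp.single i 1), fun γ => e (γ - Finsupp.single i 1),
    fun γ => he _, fun c => ?_⟩
  beta_reduce
  rw [hF, Finset.smul_sum, Finset.sum_image (fun a _ a' _ h => hinj h)]
  refine Finset.sum_congr rfl fun γ _ => ?_
  rw [add_tsub_cancel_right, smul_smul]
  congr 1
  have e1 : ∏ j, c j ^ γ j = c i ^ γ i * ∏ j ∈ Finset.univ.erase i, c j ^ γ j :=
    (Finset.mul_prod_erase Finset.univ (fun j => c j ^ γ j) (Finset.mem_univ i)).symm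
  have e2 : ∏ j, c j ^ (γ + Finsupp.single i 1 : Fin r →₀ ℕ) j
      = c i ^ (γ + Finsupp.single i 1 : Fin r →₀ ℕ) i
        * ∏ j ∈ Finset.univ.erase i, c j ^ (γ + Finsupp.single i 1 : Fin r →₀ ℕ) j :=
    (Finset.mul_prod_erase Finset.univ
      (fun j => c j ^ (γ + Finsupp.single i 1 : Fin r →₀ ℕ) j) (Finset.mem_univ i)).symm
  rw [e1, e2, ← mul_assoc]
  congr 1
  · rw [Finsupp.add_apply, Finsupp.single_eq_same, pow_succ]
    ring
  · refine Finset.prod_congr rfl fun j hj => ?_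
    rw [Finsupp.add_apply, Finsupp.single_eq_of_ne (Finset.ne_of_mem_erase hj), add_zero]

private theorem rkg_PF_sum (b : Basis ι ℂ V) {r : ℕ} {α : Type} (s : Finset α)
    {F : α → (Fin r → ℂ) → Ax ι} (hF : ∀ a ∈ s, rkg_PF Γ b r (F a)) :
    rkg_PF Γ b r (fun c => ∑ a ∈ s, F a c) := by
  classical
  induction s using Finset.induction_on with
  | empty =>
    simp only [Finset.sum_empty]
    exact rkg_PF_const b r (Submodule.zero_mem _)
  | insert a s ha ih =>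
    simp only [Finset.sum_insert ha]
    exact rkg_PF_add b (hF a (Finset.mem_insert_self a s))
      (ih fun a' ha' => hF a' (Finset.mem_insert_of_mem ha'))

private theorem rkg_PF_dunkl (b : Basis ι ℂ V) {r : ℕ} (κ : Fin r → Submodule ℂ V → ℤ → ℂ) (v : V)
    {F : (Fin r → ℂ) → Ax ι} (hF : rkg_PF Γ b r F) :
    rkg_PF Γ b r (fun c => dunkl Γ (∑ i, c i • κ i) b v (F c)) := by
  have e : (fun c : Fin r → ℂ => dunkl Γ (∑ i, c i • κ i) b v (F c))
      = fun c => (LinearMap.mulLeft ℂ (yA b v)) (F c)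
        + ∑ i ∈ Finset.univ, c i • rkg_D Γ (κ i) b v (F c) := by
    funext c
    rw [rkg_dunkl, rkg_D_sum, LinearMap.mulLeft_apply]
  rw [e]
  refine rkg_PF_add b (rkg_PF_lin b hF _ fun m hm => ?_) (rkg_PF_sum b _ fun i _ => ?_)
  · rw [LinearMap.mulLeft_apply, ← jR_yR]
    exact rkg_den_mul b (rkg_den_jR b _) hm
  · exact rkg_PF_coord b (rkg_PF_lin b hF (rkg_D Γ (κ i) b v) fun m hm => rkg_D_den _ b v hm) i

private theorem rkg_PF_pow (b : Basis ι ℂ V) {r : ℕ} (κ : Fin r → Submodule ℂ V → ℤ → ℂ) (v : V)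
    (n : ℕ) {F : (Fin r → ℂ) → Ax ι} (hF : rkg_PF Γ b r F) :
    rkg_PF Γ b r (fun c => (dunkl Γ (∑ i, c i • κ i) b v ^ n) (F c)) := by
  induction n with
  | zero =>
    simp only [pow_zero, Module.End.one_apply]
    exact hF
  | succ n ih =>
    have e : (fun c : Fin r → ℂ => (dunkl Γ (∑ i, c i • κ i) b v ^ (n + 1)) (F c))
        = fun c => dunkl Γ (∑ i, c i • κ i) b v ((dunkl Γ (∑ i, c i • κ i) b v ^ n) (F c)) := by
      funext c
      rw [pow_succ', Module.End.mul_apply]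
    rw [e]
    exact rkg_PF_dunkl b κ v ih

private theorem rkg_PF_list (b : Basis ι ℂ V) {r : ℕ} (κ : Fin r → Submodule ℂ V → ℤ → ℂ)
    (β : ι →₀ ℕ) (l : List ι) {F : (Fin r → ℂ) → Ax ι} (hF : rkg_PF Γ b r F) :
    rkg_PF Γ b r (fun c => (l.map (fun i => (dunkl Γ (∑ i, c i • κ i) b (b i)) ^ (β i))).prod
      (F c)) := by
  induction l with
  | nil =>
    simp only [List.map_nil, List.prod_nil, Module.End.one_apply]
    exact hF
  | cons a l ih =>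
    simp only [List.map_cons, List.prod_cons, Module.End.mul_apply]
    exact rkg_PF_pow b κ (b a) (β a) ih

/-- `f_q` depends polynomially on `k` along finite dimensional families: `T_v = ξ_v + D_v^k` with `D^k` linear in `k`;
the coefficients have a power of `Δ` as denominator. -/
theorem fq_poly (b : Basis ι ℂ V) (q : Px ι) {r : ℕ} (κ : Fin r → Submodule ℂ V → ℤ → ℂ) :
    ∃ (t : Finset (Fin r →₀ ℕ)) (e : (Fin r →₀ ℕ) → Ax ι),
      (∀ γ, ∃ (N : ℕ) (p : Rx ι), jR p = xA (Del Γ b ^ N) * e γ) ∧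
      ∀ c : Fin r → ℂ, fq Γ (∑ i, c i • κ i) b q = ∑ γ ∈ t, (∏ i, c i ^ γ i) • e γ := by
  have h1 : rkg_PF Γ b r (fun c => fq Γ (∑ i, c i • κ i) b q) := by
    have e : (fun c : Fin r → ℂ => fq Γ (∑ i, c i • κ i) b q)
        = fun c => ∑ β ∈ q.support, (coeff β q • (LinearMap.id : Module.End ℂ (Ax ι)))
          (TT Γ (∑ i, c i • κ i) b β 1) := by
      funext c
      unfold fq qT
      rw [LinearMap.sum_apply]
      rfl
    rw [e]
    refine rkg_PF_sum b _ fun β _ => ?_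
    refine rkg_PF_lin b (F := fun c => TT Γ (∑ i, c i • κ i) b β 1) ?_ _ fun m hm => ?_
    · have h1 : (1 : Ax ι) ∈ rkg_den Γ b := by
        have := rkg_den_jR (Γ := Γ) b 1
        rwa [map_one] at this
      exact rkg_PF_list b κ β _ (rkg_PF_const b r h1)
    · rw [LinearMap.smul_apply]
      exact Submodule.smul_mem _ _ hm
  obtain ⟨t, e, he, h⟩ := h1
  exact ⟨t, e, he, h⟩

/-- the coefficients of `Q_k` are polynomials in the parameters. -/
theorem Qk_coeff_poly (b : Basis ι ℂ V) (bU : Basis Unit ℂ ↥(fixSub τ)) (q₀ : Px ι) (hreg : IsRegular Γ τ)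
    {r : ℕ} (κ : Fin r → Submodule ℂ V → ℤ → ℂ) (j : ℕ) :
    ∃ P : MvPolynomial (Fin r) ℂ, ∀ (c : Fin r → ℂ) (Q : Polynomial ℂ),
      IsQk Γ τ (∑ i, c i • κ i) b bU q₀ Q → Q.coeff j = eval c P := by
  classical
  obtain ⟨t, e, he, hf⟩ := fq_poly (Γ := Γ) b q₀ κ
  have hex : ∀ γ, ∃ s, ResRel τ b bU (e γ) s := by
    intro γ
    obtain ⟨N, p, hp⟩ := he γ
    refine ResRel.exists_of_den (d := Del Γ b ^ N) ?_ hp.symm
    rw [map_pow]
    exact pow_ne_zero N (resP_Del_ne_zero Γ τ hreg b bU)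
  choose s hs using hex
  -- a functional detecting the coefficient
  set w : Ax Unit := aZ (-(eFix Γ τ : ℤ) + j) * X () ^ j with hw
  have hw0 : w ≠ 0 := by
    rw [hw]
    refine mul_ne_zero ?_ (pow_ne_zero _ (X_ne_zero _))
    intro h
    have h2 : aZ (-(eFix Γ τ : ℤ) + j) * aZ (-(-(eFix Γ τ : ℤ) + j)) = 1 := by
      rw [← aZ_add, add_neg_cancel, aZ_zero]
    rw [h, zero_mul] at h2
    exact zero_ne_one h2
  obtain ⟨φ, hφ⟩ : ∃ φ : Module.Dual ℂ (Ax Unit), φ w ≠ 0 := by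
    by_contra hcon
    push Not at hcon
    exact hw0 ((Module.forall_dual_apply_eq_zero_iff ℂ w).1 hcon)
  refine ⟨∑ γ ∈ t, monomial γ ((φ w)⁻¹ * φ (homogeneousComponent j (s γ))), ?_⟩
  intro c Q hQ
  have h1 : ResRel τ b bU (fq Γ (∑ i, c i • κ i) b q₀) (∑ γ ∈ t, (∏ i, c i ^ γ i) • s γ) := by
    rw [hf c]
    exact ResRel.sum t fun γ _ => ResRel.smul _ (hs γ)
  have h2 := ResRel.unique hQ.res h1
  have h3 : φ (homogeneousComponent j (aZ (-(eFix Γ τ : ℤ)) * Polynomial.aeval tU Q))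
      = φ (homogeneousComponent j (∑ γ ∈ t, (∏ i, c i ^ γ i) • s γ)) := by rw [h2]
  rw [hc_aZ_mul, ← hw, map_smul, smul_eq_mul] at h3
  have h4 : homogeneousComponent j (∑ γ ∈ t, (∏ i, c i ^ γ i) • s γ)
      = ∑ γ ∈ t, (∏ i, c i ^ γ i) • homogeneousComponent j (s γ) := by
    rw [map_sum]
    refine Finset.sum_congr rfl fun γ _ => ?_
    ext d
    rw [coeff_homogeneousComponent, coeff_smul, coeff_smul, coeff_homogeneousComponent]
    split_ifs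
    · rfl
    · rw [smul_zero]
  rw [h4, map_sum] at h3
  have h5 : Q.coeff j = (φ w)⁻¹ * ∑ γ ∈ t, φ ((∏ i, c i ^ γ i) • homogeneousComponent j (s γ)) := by
    rw [← h3]
    field_simp
  rw [h5, Finset.mul_sum, map_sum]
  refine Finset.sum_congr rfl fun γ _ => ?_
  rw [map_smul, smul_eq_mul, eval_monomial, Finsupp.prod_fintype _ _ (fun i => pow_zero _)]
  ring

/-- final result on the roots of `Q_k`: apply `exists_functionals` to the functionals `lphi`. -/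
theorem exists_roots (hΓ : ReflGen Γ) (hτ : Normalizes τ Γ) (hfin : IsOfFinOrder τ) {u : V}
    (hu : ∀ g ∈ Γ, g u = u → g = 1) (hτu : τ u = u) (b : Basis ι ℂ V) (bU : Basis Unit ℂ ↥(fixSub τ))
    {q₀ : Px ι} (hq : IsQ0 (Γ := Γ) b bU q₀) (K : Submodule ℂ (Submodule ℂ V → ℤ → ℂ))
    (hK : ∀ k ∈ K, Adm Γ k) (hKτ : ∀ k ∈ K, Tp τ Γ Γ k k) :
    ∃ ℓ : Fin (eFix Γ τ) → (K →ₗ[ℂ] ℂ), (∀ i : Fin (eFix Γ τ), (i : ℕ) = 0 → ℓ i = 0) ∧
      ∀ k : K, IsQk Γ τ (k : Submodule ℂ V → ℤ → ℂ) b bU q₀ (∏ i, (Polynomial.X - Polynomial.C (ℓ i k))) := by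
  classical
  have hreg : IsRegular Γ τ := isRegular_of_free Γ hτu hu
  have hex : ∀ k : K, ∃ Q, IsQk Γ τ (k : Submodule ℂ V → ℤ → ℂ) b bU q₀ Q := fun k =>
    exists_Qk hfin hreg (hK k.1 k.2) hq
  choose Q hQ using hex
  have : Finite (Subalgebra.center ℂ (MonoidAlgebra ℂ Γ) →ₐ[ℂ] ℂ) :=
    finite_characters (MonoidAlgebra ℂ Γ)
  have hroots : ∀ (k : K) (r : ℂ), (Q k).IsRoot r →
      ∃ φ : Subalgebra.center ℂ (MonoidAlgebra ℂ Γ) →ₐ[ℂ] ℂ, lphi K hK φ k = r := by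
    intro k r hr
    obtain ⟨F, hF0, hF, hroot⟩ := exists_ann (A := MonoidAlgebra ℂ Γ)
      (-⟨Ak Γ k.1, Ak_central Γ k.1 (hK k.1 k.2)⟩)
    obtain ⟨N, hN⟩ := Qk_dvd hΓ hτ hfin hu hτu (hK k.1 k.2) (hKτ k.1 k.2) hq (hQ k) (F := F) hF
    have h1 : (F ^ N).IsRoot r := Polynomial.IsRoot.dvd hr hN
    have h2 : F.IsRoot r := by
      rw [Polynomial.IsRoot.def, Polynomial.eval_pow] at h1
      exact eq_zero_of_pow_eq_zero h1
    exact hroot r h2
  have hpoly : ∀ (r : ℕ) (κ : Fin r → K) (j : ℕ), ∃ P : MvPolynomial (Fin r) ℂ,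
      ∀ c : Fin r → ℂ, (Q (∑ i, c i • κ i)).coeff j = MvPolynomial.eval c P := by
    intro r κ j
    obtain ⟨P, hP⟩ := Qk_coeff_poly (Γ := Γ) (τ := τ) b bU q₀ hreg
      (fun i => (κ i : Submodule ℂ V → ℤ → ℂ)) j
    refine ⟨P, fun c => hP c _ ?_⟩
    have e : ((∑ i, c i • κ i : K) : Submodule ℂ V → ℤ → ℂ)
        = ∑ i, c i • (κ i : Submodule ℂ V → ℤ → ℂ) := by
      rw [Submodule.coe_sum]
      rfl
    rw [← e]
    exact hQ _
  obtain ⟨ℓ, h0, hℓ⟩ := exists_functionals (K := K)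
    (Φ := Subalgebra.center ℂ (MonoidAlgebra ℂ Γ) →ₐ[ℂ] ℂ) (lphi K hK) (eFix Γ τ)
    (eFix_pos Γ τ) Q (fun k => (hQ k).monic) (fun k => (hQ k).deg) hroots hpoly
    (fun k => (hQ k).zero)
  refine ⟨ℓ, h0, fun k => ?_⟩
  rw [← hℓ k]
  exact hQ k

/-- essential rank one theorem. -/
theorem rk_final (hΓ : ReflGen Γ) (hτ : Normalizes τ Γ) (hfin : IsOfFinOrder τ) {u : V}
    (hu : ∀ g ∈ Γ, g u = u → g = 1) (hτu : τ u = u) (b : Basis ι ℂ V) (bU : Basis Unit ℂ ↥(fixSub τ))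
    (K : Submodule ℂ (Submodule ℂ V → ℤ → ℂ)) (hK : ∀ k ∈ K, Adm Γ k) (hKτ : ∀ k ∈ K, Tp τ Γ Γ k k) :
    ∃ ℓ : Fin (eFix Γ τ) → (K →ₗ[ℂ] ℂ), (∀ i : Fin (eFix Γ τ), (i : ℕ) = 0 → ℓ i = 0) ∧
      ∀ (k : K) (z : Ax ι), z ∈ Mk Γ (k : Submodule ℂ V → ℤ → ℂ) b → InvA Γ b z → ∀ s : Ax Unit,
        ResRel τ b bU z s → s ∈ Algebra.adjoin ℂ ({aZ (eFix Γ τ : ℤ), tU, aZ (-(eFix Γ τ : ℤ)) *
          Polynomial.aeval tU (∏ i, (Polynomial.X - Polynomial.C (ℓ i k)))} : Set (Ax Unit)) := by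
  obtain ⟨q₀, hq⟩ := exists_q0 hΓ hτ hfin hu hτu b bU
  obtain ⟨ℓ, h0, hℓ⟩ := exists_roots hΓ hτ hfin hu hτu b bU hq K hK hKτ
  refine ⟨ℓ, h0, fun k z hz hinv s hs => ?_⟩
  exact rk_main hΓ hτ hfin hu hτu (hK k.1 k.2) (hKτ k.1 k.2) hq (hℓ k) hz hinv hs

end

end Pool.Agent.CM64
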