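import Pool.Agent.LibCM64.RkI

/-! Rank one theorem for general `V`: `H' ⊂ U = V^τ` a hyperplane of `U` fixed pointwise by `Γ`. -/

set_option linter.unusedSectionVars false

namespace Pool.Agent.CM64

open Module MvPolynomial

section

variable {V : Type} [AddCommGroup V] [Module ℂ V] [FiniteDimensional ℂ V]
variable {ι : Type} [Fintype ι] [DecidableEq ι] {κ : Type} [Fintype κ] [DecidableEq κ]

/-- the linear map `k ↦ resK E b k`. -/
private noncomputable def rkJ_resL {ιA ιE : Type} [Fintype ιA] [DecidableEq ιA] [Fintype ιE] [DecidableEq ιE]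
    (E : Submodule ℂ V) (b : Basis (ιA ⊕ ιE) ℂ V) :
    (Submodule ℂ V → ℤ → ℂ) →ₗ[ℂ] (Submodule ℂ ↥E → ℤ → ℂ) where
  toFun k := resK E b k
  map_add' _ _ := rfl
  map_smul' _ _ := rfl

private theorem rkJ_dvd {Γ : Subgroup (V ≃ₗ[ℂ] V)} [Finite Γ] {τ : V ≃ₗ[ℂ] V} {u : V}
    (hu : ∀ g ∈ Γ, g u = u → g = 1) (hτu : τ u = u)
    (G : Subgroup (↥(fixSub τ) ≃ₗ[ℂ] ↥(fixSub τ))) [Finite G]
    (hΓG : ∀ g ∈ Γ, g * τ = τ * g → ∃ h ∈ G, ∀ v : ↥(fixSub τ), ((h v : ↥(fixSub τ)) : V) = g (v : V)) :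
    eFix Γ τ ∣ Nat.card G := by
  have h1 : fixGrp Γ τ ≤ G := by
    rintro h ⟨g, hg, hgc, hh⟩
    obtain ⟨h', hh', hv⟩ := hΓG g hg hgc
    have h2 : h = h' := by
      apply LinearEquiv.ext
      intro v
      apply Subtype.ext
      rw [hh, hv]
    rw [h2]
    exact hh'
  have h2 : eFix Γ τ = Nat.card (fixGrp Γ τ) := by
    unfold eFix
    have hres : ∀ g : {g : V ≃ₗ[ℂ] V // g ∈ Γ ∧ g * τ = τ * g}, ∃ h : ↥(fixGrp Γ τ),
        ∀ v : ↥(fixSub τ), (((h : ↥(fixSub τ) ≃ₗ[ℂ] ↥(fixSub τ)) v : ↥(fixSub τ)) : V) = g.1 (v : V) := by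
      rintro ⟨g, hg, hgc⟩
      obtain ⟨h', hh', hv⟩ := hΓG g hg hgc
      exact ⟨⟨h', g, hg, hgc, hv⟩, hv⟩
    choose F hF using hres
    refine Nat.card_congr (Equiv.ofBijective F ⟨?_, ?_⟩)
    · intro g g' hgg
      apply Subtype.ext
      have e1 := hF g ⟨u, hτu⟩
      have e2 := hF g' ⟨u, hτu⟩
      rw [hgg] at e1
      have e3 : g.1 u = g'.1 u := e1.symm.trans e2
      have e4 : (g'.1⁻¹ * g.1) u = u := by
        rw [LinearEquiv.mul_apply, e3, ← LinearEquiv.mul_apply, inv_mul_cancel]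
        rfl
      have e5 := hu _ (Γ.mul_mem (Γ.inv_mem g'.2.1) g.2.1) e4
      exact (inv_mul_eq_one.1 e5).symm
    · rintro ⟨h, g, hg, hgc, hh⟩
      refine ⟨⟨g, hg, hgc⟩, ?_⟩
      apply Subtype.ext
      apply LinearEquiv.ext
      intro v
      apply Subtype.ext
      rw [hF ⟨g, hg, hgc⟩ v]
      exact (hh v).symm
  rw [h2]
  exact Subgroup.card_dvd_of_le h1

private theorem rkJ_card {U : Type} [AddCommGroup U] [Module ℂ U] [FiniteDimensional ℂ U]
    {ιA ιE : Type} [Fintype ιA] [DecidableEq ιA] [Fintype ιE] [DecidableEq ιE]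
    {G : Subgroup (U ≃ₗ[ℂ] U)} [Finite G] {L : Submodule ℂ U} {bU : Basis (ιA ⊕ ιE) ℂ U}
    {bL : Basis ιE ℂ ↥L} (hS : Spl G L bU bL) : Nat.card (resE G L) = Nat.card G := by
  symm
  have hres : ∀ g : G, ∃ h : resE G L, ∀ e : ↥L, (((h : ↥L ≃ₗ[ℂ] ↥L) e : ↥L) : U)
      = (g : U ≃ₗ[ℂ] U) (e : U) := by
    rintro ⟨g, hg⟩
    obtain ⟨h, hh, hv⟩ := exists_resE hS hg
    exact ⟨⟨h, hh⟩, hv⟩
  choose F hF using hres
  refine Nat.card_congr (Equiv.ofBijective F ⟨?_, ?_⟩)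
  · intro g g' hgg
    apply Subtype.ext
    refine resE_inj hS g.2 g'.2 (fun e he => ?_)
    have e1 := hF g ⟨e, he⟩
    have e2 := hF g' ⟨e, he⟩
    rw [hgg] at e1
    exact e1.symm.trans e2
  · rintro ⟨h, g, hg, hh⟩
    refine ⟨⟨g, hg⟩, ?_⟩
    apply Subtype.ext
    apply LinearEquiv.ext
    intro v
    apply Subtype.ext
    rw [hF ⟨g, hg⟩ v]
    exact (hh v).symm

private theorem rkJ_avg {U : Type} [AddCommGroup U] [Module ℂ U] [FiniteDimensional ℂ U]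
    {ιA ιE : Type} [Fintype ιA] [DecidableEq ιA] [Fintype ιE] [DecidableEq ιE]
    {G : Subgroup (U ≃ₗ[ℂ] U)} [Finite G] {L : Submodule ℂ U} {bU : Basis (ιA ⊕ ιE) ℂ U}
    {bL : Basis ιE ℂ ↥L} (hS : Spl G L bU bL) (l : Submodule ℂ U → ℤ → ℂ) (T : Set (Ax ιE))
    (hT : ∀ t ∈ T, (∑ h ∈ elF (resE G L), trA bL bL h t) ∈ Mk (resE G L) (resK L bU l) bL)
    {s : Ax (ιA ⊕ ιE)} (hs : s ∈ Submodule.span ℂ {f | ∃ (p : Rx ιA) (t : Ax ιE), t ∈ T ∧
      f = jR (embA p) * embE t}) (hinv : InvA G bU s) : s ∈ Mk G l bU := by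
  classical
  have hsum : ∀ (p : Rx ιA) (t : Ax ιE), ∑ g ∈ elF G, trA bU bU g (jR (embA p) * embE t)
      = jR (embA p) * embE (∑ h ∈ elF (resE G L), trA bL bL h t) := by
    intro p t
    rw [map_sum, Finset.mul_sum]
    refine Finset.sum_bij (fun g hg => Classical.choose (exists_resE hS ((mem_elF G).1 hg))) ?_ ?_ ?_ ?_
    · intro g hg
      exact (mem_elF _).2 (Classical.choose_spec (exists_resE hS ((mem_elF G).1 hg))).1
    · intro g hg g' hg' hgg
      refine resE_inj hS ((mem_elF G).1 hg) ((mem_elF G).1 hg') (fun e he => ?_)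
      have e1 := (Classical.choose_spec (exists_resE hS ((mem_elF G).1 hg))).2 ⟨e, he⟩
      have e2 := (Classical.choose_spec (exists_resE hS ((mem_elF G).1 hg'))).2 ⟨e, he⟩
      rw [hgg] at e1
      exact e1.symm.trans e2
    · intro h hh
      obtain ⟨g, hg, hgh⟩ := (mem_elF _).1 hh
      refine ⟨g, (mem_elF G).2 hg, ?_⟩
      apply LinearEquiv.ext
      intro v
      apply Subtype.ext
      have e1 := (Classical.choose_spec (exists_resE hS hg)).2 v
      exact e1.trans (hgh v).symm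
    · intro g hg
      have e1 := (Classical.choose_spec (exists_resE hS ((mem_elF G).1 hg))).2
      rw [map_mul, ← jR_trR, trR_embA hS.basis (hS.triv g ((mem_elF G).1 hg)) e1,
        trA_embE hS.basis (hS.triv g ((mem_elF G).1 hg)) e1]
  have key : ∀ f ∈ Submodule.span ℂ {f : Ax (ιA ⊕ ιE) | ∃ (p : Rx ιA) (t : Ax ιE), t ∈ T ∧
      f = jR (embA p) * embE t}, (∑ g ∈ elF G, trA bU bU g f) ∈ Mk G l bU := by
    intro f hf
    induction hf using Submodule.span_induction with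
    | mem f hf =>
      obtain ⟨p, t, ht, rfl⟩ := hf
      rw [hsum]
      exact emb_mem_Mk hS p (hT t ht)
    | zero =>
      have h0 : ∑ g ∈ elF G, trA bU bU g (0 : Ax (ιA ⊕ ιE)) = 0 :=
        Finset.sum_eq_zero (fun g _ => map_zero _)
      rw [h0]
      exact Submodule.zero_mem _
    | add f g _ _ hf hg =>
      have h0 : ∑ x ∈ elF G, trA bU bU x (f + g) = ∑ x ∈ elF G, trA bU bU x f + ∑ x ∈ elF G, trA bU bU x g := by
        rw [← Finset.sum_add_distrib]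
        exact Finset.sum_congr rfl (fun x _ => map_add _ _ _)
      rw [h0]
      exact Submodule.add_mem _ hf hg
    | smul c f _ hf =>
      have h0 : ∑ x ∈ elF G, trA bU bU x (c • f) = c • ∑ x ∈ elF G, trA bU bU x f := by
        rw [Finset.smul_sum]
        exact Finset.sum_congr rfl (fun x _ => map_smul _ _ _)
      rw [h0]
      exact Submodule.smul_mem _ c hf
  have h2 := key s hs
  have hinv' : ∀ g ∈ elF G, trA bU bU g s = s := fun g hg => hinv g ((mem_elF G).1 hg)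
  rw [Finset.sum_congr rfl hinv', Finset.sum_const, ← Nat.cast_smul_eq_nsmul ℂ] at h2
  have hc : ((elF G).card : ℂ) ≠ 0 := by
    have h3 : 0 < (elF G).card := Finset.card_pos.2 ⟨1, (mem_elF G).2 G.one_mem⟩
    exact_mod_cast h3.ne'
  exact (Submodule.smul_mem_iff _ hc).1 h2

private theorem rkJ_line {τ : V ≃ₗ[ℂ] V} {N : Subgroup (V ≃ₗ[ℂ] V)} {E : Submodule ℂ V}
    {ιA ιE : Type} [Fintype ιA] [DecidableEq ιA] [Fintype ιE] [DecidableEq ιE]
    {b : Basis (ιA ⊕ ιE) ℂ V} {bE : Basis ιE ℂ ↥E} (hb : ∀ i, b (Sum.inr i) = (bE i : V))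
    {H' : Submodule ℂ ↥(fixSub τ)} {bU : Basis (ιA ⊕ Unit) ℂ ↥(fixSub τ)}
    (hNE : ∀ g ∈ N, ∀ e ∈ E, g e ∈ E) (hfix : ∀ g ∈ N, ∀ h ∈ H', g (h : V) = h)
    (hbU : ∀ i, ((bU (Sum.inl i) : ↥(fixSub τ)) : V) = b (Sum.inl i)) (hbUH : ∀ i, bU (Sum.inl i) ∈ H')
    (hbUE : ((bU (Sum.inr ()) : ↥(fixSub τ)) : V) ∈ E) (hH' : finrank ℂ H' + 1 = finrank ℂ ↥(fixSub τ))
    (G : Subgroup (↥(fixSub τ) ≃ₗ[ℂ] ↥(fixSub τ)))
    (hGN : ∀ h ∈ G, ∃ w ∈ N, ∀ v : ↥(fixSub τ), ((h v : ↥(fixSub τ)) : V) = w (v : V)) :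
    ∃ (L : Submodule ℂ ↥(fixSub τ)) (bL : Basis Unit ℂ ↥L), Spl G L bU bL ∧ upH L bU ⊥ = H' := by
  have hli : LinearIndependent ℂ (fun i : Unit => bU (Sum.inr i)) :=
    bU.linearIndependent.comp Sum.inr Sum.inr_injective
  have hEr : ∀ y ∈ E, ∀ i : ιA, b.repr y (Sum.inl i) = 0 := by
    intro y hy i
    have h1 : y = ∑ j, bE.repr ⟨y, hy⟩ j • b (Sum.inr j) := by
      have h2 := congrArg Subtype.val (bE.sum_repr ⟨y, hy⟩)
      rw [Submodule.coe_sum] at h2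
      refine h2.symm.trans (Finset.sum_congr rfl (fun j _ => ?_))
      rw [Submodule.coe_smul, hb]
    rw [h1, map_sum, Finsupp.finsetSum_apply]
    refine Finset.sum_eq_zero (fun j _ => ?_)
    rw [map_smul, Basis.repr_self, Finsupp.smul_apply, Finsupp.single_eq_of_ne (by simp), smul_zero]
  have hLE : ∀ x : ↥(fixSub τ), (x : V) ∈ E →
      x ∈ Submodule.span ℂ (Set.range (fun i : Unit => bU (Sum.inr i))) := by
    intro x hx
    have h1 : x = ∑ i, bU.repr x (Sum.inl i) • bU (Sum.inl i) + bU.repr x (Sum.inr ()) • bU (Sum.inr ()) := by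
      conv_lhs => rw [← bU.sum_repr x, Fintype.sum_sum_type]
      simp
    have h2 : (x : V) = ∑ i, bU.repr x (Sum.inl i) • b (Sum.inl i)
        + bU.repr x (Sum.inr ()) • ((bU (Sum.inr ()) : ↥(fixSub τ)) : V) := by
      have h3 := congrArg Subtype.val h1
      rw [Submodule.coe_add, Submodule.coe_sum, Submodule.coe_smul] at h3
      refine h3.trans ?_
      congr 1
      refine Finset.sum_congr rfl (fun j _ => ?_)
      rw [Submodule.coe_smul, hbU]
    have h3 : ∑ i, bU.repr x (Sum.inl i) • b (Sum.inl i) ∈ E := by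
      have h4 : ∑ i, bU.repr x (Sum.inl i) • b (Sum.inl i)
          = (x : V) - bU.repr x (Sum.inr ()) • ((bU (Sum.inr ()) : ↥(fixSub τ)) : V) := by
        rw [h2]
        abel
      rw [h4]
      exact E.sub_mem hx (E.smul_mem _ hbUE)
    have h4 : ∀ i, bU.repr x (Sum.inl i) = 0 := by
      intro i
      have h5 := hEr _ h3 i
      rw [map_sum, Finsupp.finsetSum_apply, Finset.sum_eq_single i] at h5
      · rw [map_smul, Basis.repr_self, Finsupp.smul_apply, Finsupp.single_eq_same, smul_eq_mul,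
          mul_one] at h5
        exact h5
      · intro j _ hj
        rw [map_smul, Basis.repr_self, Finsupp.smul_apply, Finsupp.single_eq_of_ne (by
          intro h; exact hj (Sum.inl_injective h).symm), smul_zero]
      · intro h
        exact absurd (Finset.mem_univ _) h
    have h5 : x = bU.repr x (Sum.inr ()) • bU (Sum.inr ()) := by
      conv_lhs => rw [h1]
      rw [Finset.sum_eq_zero (fun i _ => by rw [h4 i, zero_smul]), zero_add]
    rw [h5]
    exact Submodule.smul_mem _ _ (Submodule.subset_span ⟨(), rfl⟩)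
  have hEL : ∀ x ∈ Submodule.span ℂ (Set.range (fun i : Unit => bU (Sum.inr i))), (x : V) ∈ E := by
    intro x hx
    induction hx using Submodule.span_induction with
    | mem x hx =>
      obtain ⟨i, rfl⟩ := hx
      exact hbUE
    | zero => exact E.zero_mem
    | add x y _ _ hx hy => exact E.add_mem hx hy
    | smul c x _ hx => exact E.smul_mem c hx
  refine ⟨Submodule.span ℂ (Set.range (fun i : Unit => bU (Sum.inr i))), Basis.span hli, ⟨?_, ?_, ?_⟩, ?_⟩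
  · intro i
    exact (congrArg Subtype.val (Basis.span_apply hli i)).symm
  · intro g hg i
    obtain ⟨w, hw, hgw⟩ := hGN g hg
    apply Subtype.ext
    rw [hgw]
    exact hfix w hw _ (hbUH i)
  · intro g hg e he
    obtain ⟨w, hw, hgw⟩ := hGN g hg
    refine hLE _ ?_
    rw [hgw]
    exact hNE w hw _ (hEL e he)
  · unfold upH
    rw [Submodule.map_bot, sup_bot_eq]
    have hli' : LinearIndependent ℂ (fun i : ιA => bU (Sum.inl i)) :=
      bU.linearIndependent.comp Sum.inl Sum.inl_injective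
    refine Submodule.eq_of_le_of_finrank_eq ?_ ?_
    · rw [Submodule.span_le]
      rintro _ ⟨i, rfl⟩
      exact hbUH i
    · have h1 := finrank_span_eq_card hli'
      have h2 := Module.finrank_eq_card_basis bU
      rw [Fintype.card_sum, Fintype.card_unit] at h2
      omega

/-- the rank one theorem: `G` is a finite group acting on `U`, trivial on `H'`, containing the restrictions of the elements
of `Γ^τ`; its elements are induced by elements of a finite group `N` containing `Γ` and `τ` and trivial on `H'`. Choose `E`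
as in `exists_adapted`; `G` preserves the line `U ∩ E`. By `Mk_inv_span`, `rk_final`, `ResRel_emb` the restriction `s` is a sum of
`p(A) s_i`, `s_i ∈ ℂ[a^{e₀}, T, a^{-e₀} Q_k(T)]`; average over `G`, use `rkU` and `emb_mem_Mk` for `(G, U, E^τ)`. The
conclusion is for arbitrary bases (`ResRel_change`, `trA_mem_Mk_iff`). -/
theorem rank_one {Γ N : Subgroup (V ≃ₗ[ℂ] V)} [Finite Γ] [Finite N] {τ : V ≃ₗ[ℂ] V} (hΓN : Γ ≤ N) (hτN : τ ∈ N)
    (hΓ : ReflGen Γ) (hτ : Normalizes τ Γ)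
    (hfin : IsOfFinOrder τ) {u : V} (hu : ∀ g ∈ Γ, g u = u → g = 1) (hτu : τ u = u)
    (H' : Submodule ℂ ↥(fixSub τ)) (hH' : finrank ℂ H' + 1 = finrank ℂ ↥(fixSub τ))
    (hfix : ∀ g ∈ N, ∀ h ∈ H', g (h : V) = h) (b : Basis ι ℂ V) (bU : Basis κ ℂ ↥(fixSub τ))
    (G : Subgroup (↥(fixSub τ) ≃ₗ[ℂ] ↥(fixSub τ))) [Finite G]
    (hGN : ∀ h ∈ G, ∃ w ∈ N, ∀ v : ↥(fixSub τ), ((h v : ↥(fixSub τ)) : V) = w (v : V))
    (hΓG : ∀ g ∈ Γ, g * τ = τ * g → ∃ h ∈ G, ∀ v : ↥(fixSub τ), ((h v : ↥(fixSub τ)) : V) = g (v : V))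
    (K : Submodule ℂ (Submodule ℂ V → ℤ → ℂ)) (hK : ∀ k ∈ K, Adm Γ k) (hKτ : ∀ k ∈ K, Tp τ Γ Γ k k) :
    eFix Γ τ ∣ Nat.card G ∧
    ∃ ℓ : Fin (eFix Γ τ) → (K →ₗ[ℂ] ℂ), (∀ i : Fin (eFix Γ τ), (i : ℕ) = 0 → ℓ i = 0) ∧
      ∀ (k : K) (l : Submodule ℂ ↥(fixSub τ) → ℤ → ℂ), Adm G l →
        (∏ i, (Polynomial.X - Polynomial.C (ℓ i k))) ^ (Nat.card G / eFix Γ τ) = Rl (Nat.card G) (l H') →
        ∀ z : Ax ι, z ∈ Mk Γ (k : Submodule ℂ V → ℤ → ℂ) b → InvA Γ b z → ∀ s : Ax κ,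
          ResRel τ b bU z s → InvA G bU s → s ∈ Mk G l bU := by
  refine ⟨rkJ_dvd hu hτu G hΓG, ?_⟩
  have hdvd := rkJ_dvd hu hτu G hΓG
  obtain ⟨E, b1, bE, τE, bU1, bUE, hS, hNA, hNE, hτE, hbU, hbUH, hbUE⟩ :=
    exists_adapted hΓN hτN H' hH' hfix
  have hτA : ∀ i, τ (b1 (Sum.inl i)) = b1 (Sum.inl i) := fun i => hNA τ hτN i
  obtain ⟨hnE, hfE, heq, ⟨u', hτu', hu'⟩, hTp⟩ := resE_tau hτ hfin hS hτA hτE hu hτu
  have hReflE := reflGen_resE hS hΓ
  obtain ⟨L, bL, hSL, hupH⟩ := rkJ_line (N := N) hS.basis hNE hfix hbU hbUH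
    (by rw [hbUE]; exact (((bUE () : ↥(fixSub τE)) : ↥E)).2) hH' G hGN
  have hcard := rkJ_card hSL
  have hK' : ∀ k ∈ K.map (rkJ_resL E b1), Adm (resE Γ E) k := by
    rintro _ ⟨k, hk, rfl⟩
    exact adm_resE hS (hK k hk)
  have hKτ' : ∀ k ∈ K.map (rkJ_resL E b1), Tp τE (resE Γ E) (resE Γ E) k k := by
    rintro _ ⟨k, hk, rfl⟩
    exact hTp k (hKτ k hk)
  obtain ⟨ℓ', hℓ0, hℓ⟩ := rk_final hReflE hnE hfE hu' hτu' bE bUE (K.map (rkJ_resL E b1)) hK' hKτ'
  have he0 : 0 < eFix (resE Γ E) τE := eFix_pos _ _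
  rw [← heq] at hdvd ⊢
  refine ⟨fun i => (ℓ' i).comp ((rkJ_resL E b1).restrict (p := K) (q := K.map (rkJ_resL E b1))
    (fun x hx => Submodule.mem_map_of_mem hx)), ?_, ?_⟩
  · intro i hi
    show (ℓ' i).comp ((rkJ_resL E b1).restrict (p := K) (q := K.map (rkJ_resL E b1))
      (fun x hx => Submodule.mem_map_of_mem hx)) = 0
    rw [hℓ0 i hi, LinearMap.zero_comp]
  intro k l hl hprod z hz hzinv s hs hsinv
  set Q : Polynomial ℂ := ∏ i, (Polynomial.X - Polynomial.C ((ℓ' i) ((rkJ_resL E b1).restrict (p := K)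
    (q := K.map (rkJ_resL E b1)) (fun x hx => Submodule.mem_map_of_mem hx) k))) with hQdef
  have hprod' : Q ^ (Nat.card G / eFix (resE Γ E) τE) = Rl (Nat.card G) (l H') := hprod
  -- change of bases
  have hz' : trA b b1 (LinearEquiv.refl ℂ V) z ∈ Mk Γ (k : Submodule ℂ V → ℤ → ℂ) b1 :=
    trA_mem_Mk (tp_refl Γ _) b b1 hz
  have hzinv' : InvA Γ b1 (trA b b1 (LinearEquiv.refl ℂ V) z) := by
    intro g hg
    have h1 := hzinv g hg
    have h2 : trA b1 b1 g (trA b b1 (LinearEquiv.refl ℂ V) z)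
        = trA b b1 (LinearEquiv.refl ℂ V) (trA b b g z) := by
      rw [trA_trans_apply, trA_trans_apply]
      rfl
    show trA b1 b1 g (trA b b1 (LinearEquiv.refl ℂ V) z) = _
    rw [h2]
    exact congrArg _ h1
  have hs' := ResRel_change b1 bU1 hs
  have hsinv' : InvA G bU1 (trA bU bU1 (LinearEquiv.refl ℂ ↥(fixSub τ)) s) := by
    intro g hg
    have h1 := hsinv g hg
    have h2 : trA bU1 bU1 g (trA bU bU1 (LinearEquiv.refl ℂ ↥(fixSub τ)) s)
        = trA bU bU1 (LinearEquiv.refl ℂ ↥(fixSub τ)) (trA bU bU g s) := by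
      rw [trA_trans_apply, trA_trans_apply]
      rfl
    show trA bU1 bU1 g (trA bU bU1 (LinearEquiv.refl ℂ ↥(fixSub τ)) s) = _
    rw [h2]
    exact congrArg _ h1
  rw [← trA_mem_Mk_iff (tp_refl G l) bU bU1]
  -- the restriction is a sum of products
  have hspan : ∀ y ∈ Submodule.span ℂ {f | ∃ (p : Rx (Fin (finrank ℂ H'))) (m : Ax (Fin (finrank ℂ E))),
      m ∈ Mk (resE Γ E) (resK E b1 (k : Submodule ℂ V → ℤ → ℂ)) bE ∧ InvA (resE Γ E) bE m ∧
      f = jR (embA p) * embE m}, ∃ t ∈ Submodule.span ℂ {f : Ax (Fin (finrank ℂ H') ⊕ Unit) |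
        ∃ (p : Rx (Fin (finrank ℂ H'))) (t : Ax Unit),
        t ∈ ((Algebra.adjoin ℂ ({aZ (eFix (resE Γ E) τE : ℤ), tU, aZ (-(eFix (resE Γ E) τE : ℤ)) *
          Polynomial.aeval tU Q} : Set (Ax Unit)) : Subalgebra ℂ (Ax Unit)) : Set (Ax Unit)) ∧
        f = jR (embA p) * embE t}, ResRel τ b1 bU1 y t := by
    intro y hy
    induction hy using Submodule.span_induction with
    | mem f hf =>
      obtain ⟨p, m, hm, hminv, rfl⟩ := hf
      obtain ⟨t, ht⟩ := exists_res (resE Γ E) _ τE (isRegular_of_free (resE Γ E) hτu' hu') bE bUE hm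
      have ht2 := hℓ ⟨resK E b1 (k : Submodule ℂ V → ℤ → ℂ), Submodule.mem_map_of_mem k.2⟩ m hm hminv t ht
      exact ⟨jR (embA p) * embE t, Submodule.subset_span ⟨p, t, ht2, rfl⟩,
        ResRel_emb hfin hS.basis hτA hτE bU1 bUE hbU hbUE p ht⟩
    | zero =>
      refine ⟨0, Submodule.zero_mem _, ?_⟩
      have h0 := ResRel.const (τ := τ) (b := b1) (bU := bU1) 0
      rwa [map_zero, map_zero] at h0
    | add f g _ _ hf hg =>
      obtain ⟨t, ht, h1⟩ := hf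
      obtain ⟨t', ht', h1'⟩ := hg
      exact ⟨t + t', Submodule.add_mem _ ht ht', ResRel.add h1 h1'⟩
    | smul c f _ hf =>
      obtain ⟨t, ht, h1⟩ := hf
      exact ⟨c • t, Submodule.smul_mem _ c ht, ResRel.smul c h1⟩
  obtain ⟨t, ht, htr⟩ := hspan _ (Mk_inv_span (hK k k.2) hS hz' hzinv')
  rw [ResRel.unique hs' htr] at hsinv' ⊢
  refine rkJ_avg hSL l _ ?_ ht hsinv'
  intro t ht
  refine rkU (resE G L) (resK L bU1 l) bL (adm_resE hSL hl) he0 (Q := Q) ?_ ?_ ht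
  · rw [hcard]
    exact hdvd
  · rw [hcard]
    show Q ^ (Nat.card G / eFix (resE Γ E) τE) = Rl (Nat.card G) (l (upH L bU1 ⊥))
    rw [hupH]
    exact hprod'

end

end Pool.Agent.CM64
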