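import Pool.Agent.LibCM64.LocB

/-! Spectator variables: `V ⊃ A ⊕ E` with `Γ` trivial on `A`; functions on `A × A*` and on `E × E*`. -/

set_option linter.unusedSectionVars false

namespace Pool.Agent.CM64

open Module MvPolynomial

section

variable {ιA ιE : Type} [Fintype ιA] [DecidableEq ιA] [Fintype ιE] [DecidableEq ιE]

theorem embPF_injective : Function.Injective
    ((pF : Px (ιA ⊕ ιE) →ₐ[ℂ] Fx (ιA ⊕ ιE)).comp (MvPolynomial.rename (Sum.inr : ιE → ιA ⊕ ιE))) := by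
  rw [AlgHom.coe_comp]
  exact pF_injective.comp (MvPolynomial.rename_injective _ Sum.inr_injective)

/-- `ℂ(E) → ℂ(A × E)`. -/
noncomputable def embF : Fx ιE →ₐ[ℂ] Fx (ιA ⊕ ιE) :=
  IsFractionRing.liftAlgHom (A := Px ιE) (K := Fx ιE)
    (g := (pF : Px (ιA ⊕ ιE) →ₐ[ℂ] Fx (ιA ⊕ ιE)).comp (MvPolynomial.rename (Sum.inr : ιE → ιA ⊕ ιE)))
    embPF_injective

/-- functions on `E × E*` as functions on `(A ⊕ E) × (A ⊕ E)*`. -/
noncomputable def embE : Ax ιE →ₐ[ℂ] Ax (ιA ⊕ ιE) :=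
  MvPolynomial.aevalTower ((Algebra.algHom ℂ (Fx (ιA ⊕ ιE)) (Ax (ιA ⊕ ιE))).comp embF)
    (fun i => X (Sum.inr i))

/-- polynomial functions on `A × A*` as functions on `(A ⊕ E) × (A ⊕ E)*`. -/
noncomputable def embA : Rx ιA →ₐ[ℂ] Rx (ιA ⊕ ιE) :=
  MvPolynomial.aevalTower ((Algebra.algHom ℂ (Px (ιA ⊕ ιE)) (Rx (ιA ⊕ ιE))).comp
    (MvPolynomial.rename (Sum.inl : ιA → ιA ⊕ ιE))) (fun i => X (Sum.inl i))

theorem embF_pF (p : Px ιE) : embF (ιA := ιA) (pF p) = pF (MvPolynomial.rename Sum.inr p) := by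
  exact IsFractionRing.lift_algebraMap (A := Px ιE) (K := Fx ιE)
    (g := ((pF : Px (ιA ⊕ ιE) →ₐ[ℂ] Fx (ιA ⊕ ιE)).comp
      (MvPolynomial.rename (Sum.inr : ιE → ιA ⊕ ιE))).toRingHom) embPF_injective p

theorem embE_xA (p : Px ιE) : embE (ιA := ιA) (xA p) = xA (MvPolynomial.rename Sum.inr p) := by
  rw [xA_apply, embE, MvPolynomial.aevalTower_C, AlgHom.comp_apply, embF_pF]
  rfl

theorem embE_X (i : ιE) : embE (ιA := ιA) (X i) = X (Sum.inr i) := by
  rw [embE, MvPolynomial.aevalTower_X]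

theorem embA_C (p : Px ιA) : embA (ιE := ιE) (C p) = C (MvPolynomial.rename Sum.inl p) := by
  rw [embA, MvPolynomial.aevalTower_C]
  rfl

theorem embA_X (i : ιA) : embA (ιE := ιE) (X i) = X (Sum.inl i) := by
  rw [embA, MvPolynomial.aevalTower_X]

end

section

variable {V : Type} [AddCommGroup V] [Module ℂ V] [FiniteDimensional ℂ V]
variable {ιA ιE : Type} [Fintype ιA] [DecidableEq ιA] [Fintype ιE] [DecidableEq ιE]

/-- the group induced by `Γ` on `E` (for `E` stable under `Γ`). -/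
def resE (Γ : Subgroup (V ≃ₗ[ℂ] V)) (E : Submodule ℂ V) : Subgroup (↥E ≃ₗ[ℂ] ↥E) where
  carrier := {h | ∃ g ∈ Γ, ∀ e : ↥E, ((h e : ↥E) : V) = g (e : V)}
  mul_mem' := by
    rintro a b ⟨w, hw, h⟩ ⟨w', hw', h'⟩
    refine ⟨w * w', Γ.mul_mem hw hw', fun u => ?_⟩
    rw [LinearEquiv.mul_apply, LinearEquiv.mul_apply, h, h']
  one_mem' := ⟨1, Γ.one_mem, fun u => rfl⟩
  inv_mem' := by
    rintro a ⟨w, hw, h⟩
    refine ⟨w⁻¹, Γ.inv_mem hw, fun u => ?_⟩
    have h1 := h (a⁻¹ u)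
    have h2 : a (a⁻¹ u) = u := by rw [← LinearEquiv.mul_apply, mul_inv_cancel]; rfl
    rw [h2] at h1
    rw [h1, ← LinearEquiv.mul_apply, inv_mul_cancel]; rfl

/-- the situation: `b` is a basis of `V` adapted to `A ⊕ E`, `Γ` is trivial on `A` and preserves `E`. -/
structure Spl (Γ : Subgroup (V ≃ₗ[ℂ] V)) (E : Submodule ℂ V) (b : Basis (ιA ⊕ ιE) ℂ V)
    (bE : Basis ιE ℂ ↥E) : Prop where
  basis : ∀ i, b (Sum.inr i) = (bE i : V)
  triv : ∀ g ∈ Γ, ∀ i, g (b (Sum.inl i)) = b (Sum.inl i)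
  stab : ∀ g ∈ Γ, ∀ e ∈ E, g e ∈ E

/-- the subspace `A ⊕ H`. -/
def upH (E : Submodule ℂ V) (b : Basis (ιA ⊕ ιE) ℂ V) (H : Submodule ℂ ↥E) : Submodule ℂ V :=
  Submodule.span ℂ (Set.range (fun i : ιA => b (Sum.inl i))) ⊔ H.map E.subtype

/-- the induced parameter on `E`. -/
def resK (E : Submodule ℂ V) (b : Basis (ιA ⊕ ιE) ℂ V) (k : Submodule ℂ V → ℤ → ℂ) :
    Submodule ℂ ↥E → ℤ → ℂ := fun H j => k (upH E b H) j

instance resE.instFinite (Γ : Subgroup (V ≃ₗ[ℂ] V)) [Finite Γ] (E : Submodule ℂ V) : Finite (resE Γ E) := by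
  have hf : ∀ h : resE Γ E, ∃ g : Γ, ∀ e : ↥E, (((h : ↥E ≃ₗ[ℂ] ↥E) e : ↥E) : V) = (g : V ≃ₗ[ℂ] V) (e : V) := by
    intro h
    obtain ⟨g, hg, hh⟩ := h.2
    exact ⟨⟨g, hg⟩, hh⟩
  choose f hf using hf
  refine Finite.of_injective f ?_
  intro h h' hhh
  apply Subtype.ext
  apply LinearEquiv.ext
  intro e
  apply Subtype.ext
  rw [hf, hf, hhh]

variable {Γ : Subgroup (V ≃ₗ[ℂ] V)} {E : Submodule ℂ V} {b : Basis (ιA ⊕ ιE) ℂ V} {bE : Basis ιE ℂ ↥E}

/-- the projection of `V` onto `E` along `A`. -/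
noncomputable def spPr (b : Basis (ιA ⊕ ιE) ℂ V) (bE : Basis ιE ℂ ↥E) : V →ₗ[ℂ] ↥E :=
  (b.constr ℂ) (Sum.elim (fun _ => (0 : ↥E)) (fun i => bE i))

theorem spPr_inl (b : Basis (ιA ⊕ ιE) ℂ V) (bE : Basis ιE ℂ ↥E) (i : ιA) :
    spPr b bE (b (Sum.inl i)) = 0 := by
  rw [spPr, Basis.constr_basis]
  rfl

theorem spPr_inr (b : Basis (ιA ⊕ ιE) ℂ V) (bE : Basis ιE ℂ ↥E) (i : ιE) :
    spPr b bE (b (Sum.inr i)) = bE i := by
  rw [spPr, Basis.constr_basis]
  rfl

theorem spPr_coe (hS : Spl Γ E b bE) (e : ↥E) : spPr b bE (e : V) = e := by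
  have h : (spPr b bE).comp E.subtype = LinearMap.id := by
    refine bE.ext fun i => ?_
    rw [LinearMap.comp_apply, Submodule.subtype_apply, ← hS.basis i, spPr_inr, LinearMap.id_apply]
  exact congrArg (fun f => f e) h

theorem spPr_surj (hS : Spl Γ E b bE) : Function.Surjective (spPr b bE) :=
  fun e => ⟨(e : V), spPr_coe hS e⟩

theorem spPr_sub (hS : Spl Γ E b bE) (v : V) :
    v - ((spPr b bE v : ↥E) : V) ∈ Submodule.span ℂ (Set.range (fun i : ιA => b (Sum.inl i))) := by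
  have h : (⊤ : Submodule ℂ V) ≤ (Submodule.span ℂ (Set.range (fun i : ιA => b (Sum.inl i)))).comap
      (LinearMap.id - E.subtype.comp (spPr b bE)) := by
    rw [← b.span_eq, Submodule.span_le]
    rintro _ ⟨i, rfl⟩
    change ((LinearMap.id : V →ₗ[ℂ] V) - E.subtype.comp (spPr b bE)) (b i) ∈
      Submodule.span ℂ (Set.range (fun i : ιA => b (Sum.inl i)))
    rw [LinearMap.sub_apply, LinearMap.comp_apply, LinearMap.id_apply, Submodule.subtype_apply]
    rcases i with i | i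
    · rw [spPr_inl]
      refine Submodule.subset_span ⟨i, ?_⟩
      simp
    · rw [spPr_inr, ← hS.basis i, sub_self]
      exact Submodule.zero_mem _
  exact h (Submodule.mem_top : v ∈ (⊤ : Submodule ℂ V))

theorem spPr_A (b : Basis (ιA ⊕ ιE) ℂ V) (bE : Basis ιE ℂ ↥E) {v : V}
    (hv : v ∈ Submodule.span ℂ (Set.range (fun i : ιA => b (Sum.inl i)))) : spPr b bE v = 0 := by
  have h : Submodule.span ℂ (Set.range (fun i : ιA => b (Sum.inl i))) ≤ LinearMap.ker (spPr b bE) := by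
    rw [Submodule.span_le]
    rintro _ ⟨i, rfl⟩
    exact spPr_inl b bE i
  exact h hv

theorem upH_eq (hS : Spl Γ E b bE) (H : Submodule ℂ ↥E) : upH E b H = H.comap (spPr b bE) := by
  ext v
  constructor
  · intro hv
    obtain ⟨a, ha, w, hw, rfl⟩ := Submodule.mem_sup.1 hv
    obtain ⟨e, he, rfl⟩ := Submodule.mem_map.1 hw
    rw [Submodule.mem_comap, map_add, spPr_A b bE ha, zero_add, Submodule.subtype_apply, spPr_coe hS]
    exact he
  · intro hv
    rw [Submodule.mem_comap] at hv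
    refine Submodule.mem_sup.2 ⟨_, spPr_sub hS v, ((spPr b bE v : ↥E) : V), ?_, by abel⟩
    exact Submodule.mem_map.2 ⟨_, hv, rfl⟩

theorem spPr_fixA (hS : Spl Γ E b bE) {g : V ≃ₗ[ℂ] V} (hg : g ∈ Γ) {v : V}
    (hv : v ∈ Submodule.span ℂ (Set.range (fun i : ιA => b (Sum.inl i)))) : g v = v := by
  have h : Submodule.span ℂ (Set.range (fun i : ιA => b (Sum.inl i))) ≤ fixSub g := by
    rw [Submodule.span_le]
    rintro _ ⟨i, rfl⟩
    exact hS.triv g hg i
  exact h hv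

theorem spPr_apply (hS : Spl Γ E b bE) {g : V ≃ₗ[ℂ] V} (hg : g ∈ Γ) {h : ↥E ≃ₗ[ℂ] ↥E}
    (hh : ∀ e : ↥E, ((h e : ↥E) : V) = g (e : V)) (v : V) : spPr b bE (g v) = h (spPr b bE v) := by
  have h1 : v = (v - ((spPr b bE v : ↥E) : V)) + ((spPr b bE v : ↥E) : V) := by abel
  have h2 : g v = (v - ((spPr b bE v : ↥E) : V)) + ((h (spPr b bE v) : ↥E) : V) := by
    conv_lhs => rw [h1]
    rw [map_add, spPr_fixA hS hg (spPr_sub hS v), hh]
  rw [h2, map_add, spPr_A b bE (spPr_sub hS v), zero_add, spPr_coe hS]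

theorem spPr_fix (hS : Spl Γ E b bE) {g : V ≃ₗ[ℂ] V} (hg : g ∈ Γ) {h : ↥E ≃ₗ[ℂ] ↥E}
    (hh : ∀ e : ↥E, ((h e : ↥E) : V) = g (e : V)) (v : V) :
    g v = v ↔ h (spPr b bE v) = spPr b bE v := by
  constructor
  · intro hv
    rw [← spPr_apply hS hg hh, hv]
  · intro hv
    have h1 : v = (v - ((spPr b bE v : ↥E) : V)) + ((spPr b bE v : ↥E) : V) := by abel
    have h2 : g v = (v - ((spPr b bE v : ↥E) : V)) + ((h (spPr b bE v) : ↥E) : V) := by
      conv_lhs => rw [h1]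
      rw [map_add, spPr_fixA hS hg (spPr_sub hS v), hh]
    rw [h2, hv, ← h1]

theorem fixSub_upH (hS : Spl Γ E b bE) {g : V ≃ₗ[ℂ] V} (hg : g ∈ Γ) {h : ↥E ≃ₗ[ℂ] ↥E}
    (hh : ∀ e : ↥E, ((h e : ↥E) : V) = g (e : V)) : fixSub g = upH E b (fixSub h) := by
  rw [upH_eq hS]
  ext v
  rw [Submodule.mem_comap, mem_fixSub, mem_fixSub]
  exact spPr_fix hS hg hh v

theorem finrank_upH (hS : Spl Γ E b bE) (H : Submodule ℂ ↥E) :
    finrank ℂ (upH E b H) + finrank ℂ ↥E = finrank ℂ H + finrank ℂ V := by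
  have h1 := LinearMap.finrank_range_add_finrank_ker (H.mkQ.comp (spPr b bE))
  have h2 : LinearMap.ker (H.mkQ.comp (spPr b bE)) = upH E b H := by
    rw [LinearMap.ker_comp, Submodule.ker_mkQ, upH_eq hS]
  have h3 : LinearMap.range (H.mkQ.comp (spPr b bE)) = ⊤ := by
    rw [LinearMap.range_eq_top, LinearMap.coe_comp]
    exact (Submodule.mkQ_surjective H).comp (spPr_surj hS)
  rw [h2, h3, finrank_top] at h1
  have h4 := Submodule.finrank_quotient_add_finrank H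
  omega

/-- every `g ∈ Γ` induces an element of `resE Γ E`. -/
theorem exists_resE (hS : Spl Γ E b bE) {g : V ≃ₗ[ℂ] V} (hg : g ∈ Γ) :
    ∃ h ∈ resE Γ E, ∀ e : ↥E, ((h e : ↥E) : V) = g (e : V) := by
  have hm : E.map (g : V →ₗ[ℂ] V) = E := by
    apply le_antisymm
    · rintro _ ⟨e, he, rfl⟩
      exact hS.stab g hg e he
    · intro e he
      refine ⟨g⁻¹ e, hS.stab g⁻¹ (Γ.inv_mem hg) e he, ?_⟩
      change g (g⁻¹ e) = e
      rw [← LinearEquiv.mul_apply, mul_inv_cancel]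
      rfl
  exact ⟨g.ofSubmodules E E hm, ⟨g, hg, fun e => rfl⟩, fun e => rfl⟩

/-- an element of `Γ` is determined by its restriction to `E`. -/
theorem resE_inj (hS : Spl Γ E b bE) {g g' : V ≃ₗ[ℂ] V} (hg : g ∈ Γ) (hg' : g' ∈ Γ)
    (h : ∀ e ∈ E, g e = g' e) : g = g' := by
  refine b.ext' fun i => ?_
  rcases i with i | i
  · rw [hS.triv g hg i, hS.triv g' hg' i]
  · rw [hS.basis i]
    exact h _ (bE i).2

theorem dt_resE (hS : Spl Γ E b bE) {g : V ≃ₗ[ℂ] V} (hg : g ∈ Γ) {h : ↥E ≃ₗ[ℂ] ↥E}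
    (hh : ∀ e : ↥E, ((h e : ↥E) : V) = g (e : V)) : dt h = dt g := by
  have h0 : ∀ (e : ↥E) (i : ιA ⊕ ιE), b.repr (e : V) i =
      Sum.elim (fun _ => (0 : ℂ)) (fun j => bE.repr e j) i := by
    intro e i
    rcases i with i | i
    · have h : (b.coord (Sum.inl i)).comp E.subtype = 0 := by
        refine bE.ext fun j => ?_
        rw [LinearMap.comp_apply, Submodule.subtype_apply, ← hS.basis j, Basis.coord_apply, b.repr_self,
          Finsupp.single_eq_of_ne (by simp)]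
        rfl
      exact congrArg (fun f => f e) h
    · have h : (b.coord (Sum.inr i)).comp E.subtype = bE.coord i := by
        refine bE.ext fun j => ?_
        rw [LinearMap.comp_apply, Submodule.subtype_apply, ← hS.basis j, Basis.coord_apply, b.repr_self,
          Basis.coord_apply, bE.repr_self]
        by_cases hij : i = j
        · rw [hij, Finsupp.single_eq_same, Finsupp.single_eq_same]
        · rw [Finsupp.single_eq_of_ne hij, Finsupp.single_eq_of_ne (by simpa using hij)]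
      exact congrArg (fun f => f e) h
  have hM : LinearMap.toMatrix b b (g : V →ₗ[ℂ] V) =
      Matrix.fromBlocks 1 0 0 (LinearMap.toMatrix bE bE (h : ↥E →ₗ[ℂ] ↥E)) := by
    ext i j
    rw [LinearMap.toMatrix_apply]
    rcases j with j | j
    · change b.repr (g (b (Sum.inl j))) i = _
      rw [hS.triv g hg j, b.repr_self]
      rcases i with i | i
      · rw [Matrix.fromBlocks_apply₁₁, Matrix.one_apply]
        by_cases hij : i = j
        · rw [hij, Finsupp.single_eq_same, if_pos rfl]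
        · rw [Finsupp.single_eq_of_ne (by simpa using hij), if_neg hij]
      · rw [Matrix.fromBlocks_apply₂₁, Finsupp.single_eq_of_ne (by simp)]
        rfl
    · change b.repr (g (b (Sum.inr j))) i = _
      rw [hS.basis j, ← hh, h0]
      rcases i with i | i
      · rw [Matrix.fromBlocks_apply₁₂]
        rfl
      · rw [Matrix.fromBlocks_apply₂₂, LinearMap.toMatrix_apply]
        rfl
  unfold dt
  rw [← LinearMap.det_toMatrix b, ← LinearMap.det_toMatrix bE, hM, Matrix.det_fromBlocks_zero₂₁,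
    Matrix.det_one, one_mul]

theorem isRefl_resE (hS : Spl Γ E b bE) {g : V ≃ₗ[ℂ] V} (hg : g ∈ Γ) {h : ↥E ≃ₗ[ℂ] ↥E}
    (hh : ∀ e : ↥E, ((h e : ↥E) : V) = g (e : V)) : IsRefl h ↔ IsRefl g := by
  have h1 := finrank_upH hS (fixSub h)
  rw [← fixSub_upH hS hg hh] at h1
  unfold IsRefl
  omega

theorem reflGen_resE (hS : Spl Γ E b bE) (hΓ : ReflGen Γ) : ReflGen (resE Γ E) := by
  unfold ReflGen
  apply le_antisymm
  · rw [Subgroup.closure_le]
    rintro s ⟨hs, _⟩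
    exact hs
  · intro h hh
    obtain ⟨g, hg, hgh⟩ := hh
    have key : ∀ g ∈ Subgroup.closure {s | s ∈ Γ ∧ IsRefl s}, ∀ h : ↥E ≃ₗ[ℂ] ↥E,
        (∀ e : ↥E, ((h e : ↥E) : V) = g (e : V)) →
        h ∈ Subgroup.closure {s | s ∈ resE Γ E ∧ IsRefl s} := by
      intro g hg
      have hle : Subgroup.closure {s | s ∈ Γ ∧ IsRefl s} ≤ Γ := by
        rw [Subgroup.closure_le]
        rintro s ⟨hs, _⟩
        exact hs
      induction hg using Subgroup.closure_induction with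
      | mem s hs =>
        intro h hh
        exact Subgroup.subset_closure ⟨⟨s, hs.1, hh⟩, (isRefl_resE hS hs.1 hh).2 hs.2⟩
      | one =>
        intro h hh
        have : h = 1 := LinearEquiv.ext fun e => Subtype.ext (hh e)
        rw [this]
        exact Subgroup.one_mem _
      | mul x y hx hy ihx ihy =>
        intro h hh
        obtain ⟨u, _, hu⟩ := exists_resE hS (hle hx)
        obtain ⟨v, _, hv⟩ := exists_resE hS (hle hy)
        have : h = u * v := LinearEquiv.ext fun e => Subtype.ext (by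
          rw [hh, LinearEquiv.mul_apply, LinearEquiv.mul_apply, hu, hv])
        rw [this]
        exact Subgroup.mul_mem _ (ihx u hu) (ihy v hv)
      | inv x hx ihx =>
        intro h hh
        obtain ⟨u, _, hu⟩ := exists_resE hS (hle hx)
        have h2 : u * h = 1 := LinearEquiv.ext fun e => Subtype.ext (by
          rw [LinearEquiv.mul_apply, hu, hh, ← LinearEquiv.mul_apply, mul_inv_cancel]
          rfl)
        have : h = u⁻¹ := eq_inv_of_mul_eq_one_right h2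
        rw [this]
        exact Subgroup.inv_mem _ (ihx u hu)
    have hg' : g ∈ Subgroup.closure {s | s ∈ Γ ∧ IsRefl s} := by
      have : Subgroup.closure {s | s ∈ Γ ∧ IsRefl s} = Γ := hΓ
      rw [this]
      exact hg
    exact key g hg' h hgh

theorem upH_injective (hS : Spl Γ E b bE) : Function.Injective (upH E b) := by
  intro H H' h
  rw [upH_eq hS, upH_eq hS] at h
  exact Submodule.comap_injective_of_surjective (spPr_surj hS) h

/-- the reflecting hyperplanes of `Γ` are the `A ⊕ H`, `H` a reflecting hyperplane of `resE Γ E`. -/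
theorem arr_resE (hS : Spl Γ E b bE) (H : Submodule ℂ V) :
    H ∈ arr Γ ↔ ∃ H' ∈ arr (resE Γ E), H = upH E b H' := by
  constructor
  · rintro ⟨s, hs, hs1, rfl⟩
    obtain ⟨h, hh, hsh⟩ := exists_resE hS hs
    exact ⟨fixSub h, ⟨h, hh, (isRefl_resE hS hs hsh).2 hs1, rfl⟩, fixSub_upH hS hs hsh⟩
  · rintro ⟨_, ⟨h, ⟨g, hg, hh⟩, hr, rfl⟩, rfl⟩
    exact ⟨g, hg, (isRefl_resE hS hg hh).1 hr, fixSub_upH hS hg hh⟩

theorem mem_pst_resE (hS : Spl Γ E b bE) (H : Submodule ℂ ↥E) {g : V ≃ₗ[ℂ] V} (hg : g ∈ Γ)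
    {h : ↥E ≃ₗ[ℂ] ↥E} (hh : ∀ e : ↥E, ((h e : ↥E) : V) = g (e : V)) :
    g ∈ pst Γ (upH E b H) ↔ h ∈ pst (resE Γ E) H := by
  rw [mem_pst, mem_pst]
  constructor
  · rintro ⟨_, h2⟩
    refine ⟨⟨g, hg, hh⟩, fun e he => ?_⟩
    apply Subtype.ext
    rw [hh]
    apply h2
    rw [upH_eq hS, Submodule.mem_comap, spPr_coe hS]
    exact he
  · rintro ⟨_, h2⟩
    refine ⟨hg, fun v hv => ?_⟩
    rw [upH_eq hS, Submodule.mem_comap] at hv
    rw [spPr_fix hS hg hh]
    exact h2 _ hv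

theorem eH_resE (hS : Spl Γ E b bE) (H : Submodule ℂ ↥E) : eH (resE Γ E) H = eH Γ (upH E b H) := by
  have hf : ∀ g : pst Γ (upH E b H), ∃ h : pst (resE Γ E) H,
      ∀ e : ↥E, (((h : ↥E ≃ₗ[ℂ] ↥E) e : ↥E) : V) = (g : V ≃ₗ[ℂ] V) (e : V) := by
    intro g
    obtain ⟨h, _, hh⟩ := exists_resE hS (pst_le _ _ g.2)
    exact ⟨⟨h, (mem_pst_resE hS H (pst_le _ _ g.2) hh).1 g.2⟩, hh⟩
  choose f hf using hf
  symm
  refine Nat.card_congr (Equiv.ofBijective f ⟨?_, ?_⟩)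
  · intro g g' hgg
    apply Subtype.ext
    refine resE_inj hS (pst_le _ _ g.2) (pst_le _ _ g'.2) fun e he => ?_
    have h1 := hf g ⟨e, he⟩
    have h2 := hf g' ⟨e, he⟩
    rw [hgg] at h1
    exact h1.symm.trans h2
  · intro h
    obtain ⟨g, hg, hh⟩ := pst_le _ _ h.2
    refine ⟨⟨g, (mem_pst_resE hS H hg hh).2 h.2⟩, ?_⟩
    apply Subtype.ext
    apply LinearEquiv.ext
    intro e
    apply Subtype.ext
    rw [hf, hh]

theorem adm_resE (hS : Spl Γ E b bE) {k : Submodule ℂ V → ℤ → ℂ} (hk : Adm Γ k) :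
    Adm (resE Γ E) (resK E b k) := by
  refine ⟨?_, ?_⟩
  · rintro h ⟨g, hg, hh⟩ H hH j
    have h1 : upH E b (H.map (h : ↥E →ₗ[ℂ] ↥E)) = (upH E b H).map (g : V →ₗ[ℂ] V) := by
      rw [upH_eq hS, upH_eq hS]
      ext v
      rw [Submodule.mem_comap]
      constructor
      · rintro ⟨e, he, hev⟩
        refine ⟨g⁻¹ v, ?_, ?_⟩
        · change spPr b bE (g⁻¹ v) ∈ H
          have h2 : h (spPr b bE (g⁻¹ v)) = spPr b bE v := by
            rw [← spPr_apply hS hg hh, ← LinearEquiv.mul_apply, mul_inv_cancel]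
            rfl
          have h3 : h (spPr b bE (g⁻¹ v)) = h e := h2.trans hev.symm
          rw [h.injective h3]
          exact he
        · change g (g⁻¹ v) = v
          rw [← LinearEquiv.mul_apply, mul_inv_cancel]
          rfl
      · rintro ⟨u, hu, rfl⟩
        refine ⟨spPr b bE u, hu, ?_⟩
        exact (spPr_apply hS hg hh u).symm
    unfold resK
    rw [h1]
    exact hk.inv g hg _ ((arr_resE hS _).2 ⟨H, hH, rfl⟩) j
  · intro H hH j
    unfold resK
    rw [eH_resE hS]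
    exact hk.per _ ((arr_resE hS _).2 ⟨H, hH, rfl⟩) j

end

end Pool.Agent.CM64
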