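import Pool.Agent.LibCM64.SpecB

/-! `𝐇_k` is spanned by the products (product of x's)(product of y's) g. -/

set_option linter.unusedSectionVars false

namespace Pool.Agent.CM64

open Module MvPolynomial

section

variable {V : Type} [AddCommGroup V] [Module ℂ V] [FiniteDimensional ℂ V]
variable (W : Subgroup (V ≃ₗ[ℂ] V)) [Finite W] (k : Submodule ℂ V → ℤ → ℂ)

/-- the set of the products `x_1 ⋯ x_r y_1 ⋯ y_s g`, `r` arbitrary, `s ≤ n`. -/
def xyw (n : ℕ) : Set (Ch W k True) :=
  {a | ∃ (l : List (Dual ℂ V)) (l' : List V) (g : W), l'.length ≤ n ∧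
    a = (l.map (cx W k True)).prod * (l'.map (cy W k True)).prod * cw W k True g}

theorem xyw_mono {n m : ℕ} (h : n ≤ m) : xyw W k n ⊆ xyw W k m := by
  rintro a ⟨l, l', g, hl, rfl⟩
  exact ⟨l, l', g, hl.trans h, rfl⟩

private theorem spanA_mul_cw {n : ℕ} {a : Ch W k True} (ha : a ∈ Submodule.span ℂ (xyw W k n)) (g : W) :
    a * cw W k True g ∈ Submodule.span ℂ (xyw W k n) := by
  induction ha using Submodule.span_induction with
  | mem a ha =>
    obtain ⟨l, l', g', hl, rfl⟩ := ha
    apply Submodule.subset_span
    exact ⟨l, l', g' * g, hl, by rw [cw_mul, mul_assoc]⟩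
  | zero => rw [zero_mul]; exact Submodule.zero_mem _
  | add a b _ _ iha ihb => rw [add_mul]; exact Submodule.add_mem _ iha ihb
  | smul c a _ iha => rw [smul_mul_assoc]; exact Submodule.smul_mem _ c iha

private theorem spanA_mul_cy {n : ℕ} {a : Ch W k True} (ha : a ∈ Submodule.span ℂ (xyw W k n)) (v : V) :
    a * cy W k True v ∈ Submodule.span ℂ (xyw W k (n + 1)) := by
  induction ha using Submodule.span_induction with
  | mem a ha =>
    obtain ⟨l, l', g', hl, rfl⟩ := ha
    apply Submodule.subset_span
    refine ⟨l, l' ++ [(g' : V ≃ₗ[ℂ] V) v], g', by simpa using hl, ?_⟩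
    rw [mul_assoc, cw_mul_cy, List.map_append, List.prod_append]
    simp only [List.map_cons, List.map_nil, List.prod_cons, List.prod_nil, mul_one, mul_assoc]
  | zero => rw [zero_mul]; exact Submodule.zero_mem _
  | add a b _ _ iha ihb => rw [add_mul]; exact Submodule.add_mem _ iha ihb
  | smul c a _ iha => rw [smul_mul_assoc]; exact Submodule.smul_mem _ c iha

private theorem spanA_xs_mul {n : ℕ} {a : Ch W k True} (ha : a ∈ Submodule.span ℂ (xyw W k n))
    (L : List (Dual ℂ V)) :
    (L.map (cx W k True)).prod * a ∈ Submodule.span ℂ (xyw W k n) := by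
  induction ha using Submodule.span_induction with
  | mem a ha =>
    obtain ⟨l, l', g', hl, rfl⟩ := ha
    apply Submodule.subset_span
    refine ⟨L ++ l, l', g', hl, ?_⟩
    rw [List.map_append, List.prod_append]
    simp only [mul_assoc]
  | zero => rw [mul_zero]; exact Submodule.zero_mem _
  | add a b _ _ iha ihb => rw [mul_add]; exact Submodule.add_mem _ iha ihb
  | smul c a _ iha => rw [mul_smul_comm]; exact Submodule.smul_mem _ c iha

/-- `y_1 ⋯ y_n x ∈ span (xyw n)`, by induction on `n`, using `cy_mul_cx`, `ct_true`, `cw_mul_cy`. -/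
theorem ys_mul_cx (l' : List V) (f : Dual ℂ V) :
    (l'.map (cy W k True)).prod * cx W k True f ∈ Submodule.span ℂ (xyw W k l'.length) := by
  induction l' using List.reverseRecOn with
  | nil =>
    apply Submodule.subset_span
    refine ⟨[f], [], 1, le_rfl, ?_⟩
    rw [cw_one]
    simp
  | append_singleton l v ih =>
    obtain ⟨c, s, hc⟩ := cy_mul_cx W k True v f
    rw [List.map_append, List.prod_append, List.map_cons, List.map_nil, List.prod_cons, List.prod_nil,
      mul_one, mul_assoc, hc, ct_true, smul_zero, add_zero, mul_add, ← mul_assoc, Finset.mul_sum,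
      List.length_append, List.length_cons, List.length_nil, zero_add]
    refine Submodule.add_mem _ (spanA_mul_cy W k ih v) (Submodule.sum_mem _ fun g _ => ?_)
    rw [mul_smul_comm]
    refine Submodule.smul_mem _ _ (Submodule.subset_span ⟨[], l, g, Nat.le_succ _, ?_⟩)
    simp

private theorem spanA_mul_cx {n : ℕ} {a : Ch W k True} (ha : a ∈ Submodule.span ℂ (xyw W k n))
    (f : Dual ℂ V) : a * cx W k True f ∈ Submodule.span ℂ (xyw W k n) := by
  induction ha using Submodule.span_induction with
  | mem a ha =>
    obtain ⟨l, l', g', hl, rfl⟩ := ha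
    rw [mul_assoc, cw_mul_cx, mul_assoc, ← mul_assoc ((l'.map (cy W k True)).prod)]
    have h1 := ys_mul_cx W k l' (f.comp ((g' : V ≃ₗ[ℂ] V).symm : V →ₗ[ℂ] V))
    have h2 := spanA_mul_cw W k h1 g'
    exact Submodule.span_mono (xyw_mono W k hl) (spanA_xs_mul W k h2 l)
  | zero => rw [zero_mul]; exact Submodule.zero_mem _
  | add a b _ _ iha ihb => rw [add_mul]; exact Submodule.add_mem _ iha ihb
  | smul c a _ iha => rw [smul_mul_assoc]; exact Submodule.smul_mem _ c iha

private theorem spanA_exists {a : Ch W k True} (ha : a ∈ Submodule.span ℂ (⋃ n, xyw W k n)) :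
    ∃ n, a ∈ Submodule.span ℂ (xyw W k n) := by
  induction ha using Submodule.span_induction with
  | mem a ha =>
    obtain ⟨n, hn⟩ := Set.mem_iUnion.1 ha
    exact ⟨n, Submodule.subset_span hn⟩
  | zero => exact ⟨0, Submodule.zero_mem _⟩
  | add a b _ _ iha ihb =>
    obtain ⟨n, hn⟩ := iha
    obtain ⟨m, hm⟩ := ihb
    exact ⟨max n m, Submodule.add_mem _ (Submodule.span_mono (xyw_mono W k (le_max_left _ _)) hn)
      (Submodule.span_mono (xyw_mono W k (le_max_right _ _)) hm)⟩
  | smul c a _ iha =>
    obtain ⟨n, hn⟩ := iha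
    exact ⟨n, Submodule.smul_mem _ c hn⟩

private theorem spanA_le (n : ℕ) :
    Submodule.span ℂ (xyw W k n) ≤ Submodule.span ℂ (⋃ n, xyw W k n) :=
  Submodule.span_mono (Set.subset_iUnion _ n)

theorem span_xyw : Submodule.span ℂ (⋃ n, xyw W k n) = ⊤ := by
  rw [eq_top_iff]
  intro a _
  let N : Subalgebra ℂ (Ch W k True) :=
    { carrier := {a | ∀ s ∈ Submodule.span ℂ (⋃ n, xyw W k n),
        s * a ∈ Submodule.span ℂ (⋃ n, xyw W k n)}
      mul_mem' := by
        intro a b ha hb s hs
        rw [← mul_assoc]
        exact hb _ (ha _ hs)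
      add_mem' := by
        intro a b ha hb s hs
        rw [mul_add]
        exact Submodule.add_mem _ (ha _ hs) (hb _ hs)
      algebraMap_mem' := by
        intro c s hs
        rw [← Algebra.commutes, ← Algebra.smul_def]
        exact Submodule.smul_mem _ c hs }
  have hN : a ∈ N := by
    refine Ch_ind W k True N ?_ ?_ ?_ ?_ a
    · intro f s hs
      obtain ⟨n, hn⟩ := spanA_exists W k hs
      exact spanA_le W k n (spanA_mul_cx W k hn f)
    · intro v s hs
      obtain ⟨n, hn⟩ := spanA_exists W k hs
      exact spanA_le W k (n + 1) (spanA_mul_cy W k hn v)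
    · intro g s hs
      obtain ⟨n, hn⟩ := spanA_exists W k hs
      exact spanA_le W k n (spanA_mul_cw W k hn g)
    · intro s _
      rw [ct_true, mul_zero]
      exact Submodule.zero_mem _
  have h1 : (1 : Ch W k True) ∈ Submodule.span ℂ (⋃ n, xyw W k n) := by
    refine spanA_le W k 0 (Submodule.subset_span ⟨[], [], 1, le_rfl, ?_⟩)
    rw [cw_one]
    simp
  have h2 := hN 1 h1
  rwa [one_mul] at h2

variable {ι : Type} [Fintype ι] [DecidableEq ι]

/-- `x^α` in the Cherednik algebra (product in a fixed order). -/
noncomputable def cxm (b : Basis ι ℂ V) (α : ι →₀ ℕ) : Ch W k True :=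
  ((Finset.univ : Finset ι).toList.map (fun i => (cx W k True (b.coord i)) ^ (α i))).prod

/-- `y^β` in the Cherednik algebra (product in a fixed order). -/
noncomputable def cym (b : Basis ι ℂ V) (β : ι →₀ ℕ) : Ch W k True :=
  ((Finset.univ : Finset ι).toList.map (fun i => (cy W k True (b i)) ^ (β i))).prod

private theorem spanA_list {M : Type} [Monoid M] (u : ι → M) (hu : ∀ i j, Commute (u i) (u j))
    (α : ι →₀ ℕ) (i : ι) : ∀ L : List ι, L.Nodup → i ∈ L →
      u i * (L.map (fun j => u j ^ α j)).prod =
        (L.map (fun j => u j ^ ((α + Finsupp.single i 1 : ι →₀ ℕ) j))).prod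
  | [], _, h => absurd h List.not_mem_nil
  | j :: L, hnd, hi => by
    rw [List.nodup_cons] at hnd
    rw [List.map_cons, List.map_cons, List.prod_cons, List.prod_cons]
    by_cases hij : i = j
    · subst hij
      have h1 : (L.map (fun j => u j ^ ((α + Finsupp.single i 1 : ι →₀ ℕ) j))) = L.map (fun j => u j ^ α j) := by
        refine List.map_congr_left fun j hj => ?_
        have hne : j ≠ i := fun h => hnd.1 (h ▸ hj)
        rw [Finsupp.add_apply, Finsupp.single_eq_of_ne hne, add_zero]
      rw [h1, Finsupp.add_apply, Finsupp.single_eq_same, pow_succ', mul_assoc]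
    · have hi' : i ∈ L := by
        rcases List.mem_cons.1 hi with h | h
        · exact absurd h hij
        · exact h
      have h2 : (α + Finsupp.single i 1 : ι →₀ ℕ) j = α j := by
        rw [Finsupp.add_apply, Finsupp.single_eq_of_ne (Ne.symm hij), add_zero]
      rw [h2, ← spanA_list u hu α i L hnd.2 hi', ← mul_assoc, ← mul_assoc,
        ((hu i j).pow_right (α j)).eq]

private theorem spanA_cx_mul_cxm (b : Basis ι ℂ V) (i : ι) (α : ι →₀ ℕ) :
    cx W k True (b.coord i) * cxm W k b α = cxm W k b (α + Finsupp.single i 1) := by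
  unfold cxm
  exact spanA_list (fun i => cx W k True (b.coord i)) (fun i j => cx_comm W k True _ _) α i _
    (Finset.nodup_toList _) (Finset.mem_toList.2 (Finset.mem_univ i))

private theorem spanA_cy_mul_cym (b : Basis ι ℂ V) (i : ι) (α : ι →₀ ℕ) :
    cy W k True (b i) * cym W k b α = cym W k b (α + Finsupp.single i 1) := by
  unfold cym
  exact spanA_list (fun i => cy W k True (b i)) (fun i j => cy_comm W k True _ _) α i _
    (Finset.nodup_toList _) (Finset.mem_toList.2 (Finset.mem_univ i))

private theorem spanA_cxm_zero (b : Basis ι ℂ V) : cxm W k b 0 = 1 := by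
  unfold cxm
  apply List.prod_eq_one
  intro x hx
  obtain ⟨i, _, rfl⟩ := List.mem_map.1 hx
  rw [Finsupp.coe_zero, Pi.zero_apply, pow_zero]

private theorem spanA_cym_zero (b : Basis ι ℂ V) : cym W k b 0 = 1 := by
  unfold cym
  apply List.prod_eq_one
  intro x hx
  obtain ⟨i, _, rfl⟩ := List.mem_map.1 hx
  rw [Finsupp.coe_zero, Pi.zero_apply, pow_zero]

/-- `cx` as a linear map. -/
private noncomputable def spanAcxL : Dual ℂ V →ₗ[ℂ] Ch W k True where
  toFun := cx W k True
  map_add' := cx_add W k True
  map_smul' := cx_smul W k True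

/-- `cy` as a linear map. -/
private noncomputable def spanAcyL : V →ₗ[ℂ] Ch W k True where
  toFun := cy W k True
  map_add' := cy_add W k True
  map_smul' := cy_smul W k True

private theorem spanA_cx_eq (b : Basis ι ℂ V) (f : Dual ℂ V) :
    cx W k True f = ∑ i, f (b i) • cx W k True (b.coord i) := by
  have h1 : f = ∑ i, f (b i) • b.coord i := by
    refine b.ext fun j => ?_
    rw [LinearMap.sum_apply, Finset.sum_eq_single j]
    · simp
    · intro i _ hij
      simp [Finsupp.single_eq_of_ne hij]
    · intro h
      exact absurd (Finset.mem_univ j) h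
  have h2 : spanAcxL W k f = ∑ i, f (b i) • spanAcxL W k (b.coord i) := by
    conv_lhs => rw [h1]
    rw [map_sum]
    refine Finset.sum_congr rfl fun i _ => ?_
    rw [map_smul]
  exact h2

private theorem spanA_cy_eq (b : Basis ι ℂ V) (v : V) :
    cy W k True v = ∑ i, b.repr v i • cy W k True (b i) := by
  have h2 : spanAcyL W k v = ∑ i, b.repr v i • spanAcyL W k (b i) := by
    conv_lhs => rw [← b.sum_repr v]
    rw [map_sum]
    refine Finset.sum_congr rfl fun i _ => ?_
    rw [map_smul]
  exact h2

/-- products of x's are linear combinations of the `x^α`. -/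
theorem xs_mem_span (b : Basis ι ℂ V) (l : List (Dual ℂ V)) :
    (l.map (cx W k True)).prod ∈ Submodule.span ℂ (Set.range (cxm W k b)) := by
  induction l with
  | nil =>
    apply Submodule.subset_span
    exact ⟨0, by rw [spanA_cxm_zero]; simp⟩
  | cons f l ih =>
    rw [List.map_cons, List.prod_cons]
    generalize (l.map (cx W k True)).prod = a at ih
    induction ih using Submodule.span_induction with
    | mem a ha =>
      obtain ⟨α, rfl⟩ := ha
      rw [spanA_cx_eq W k b f, Finset.sum_mul]
      refine Submodule.sum_mem _ fun i _ => ?_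
      rw [smul_mul_assoc, spanA_cx_mul_cxm]
      exact Submodule.smul_mem _ _ (Submodule.subset_span ⟨_, rfl⟩)
    | zero => rw [mul_zero]; exact Submodule.zero_mem _
    | add a b _ _ iha ihb => rw [mul_add]; exact Submodule.add_mem _ iha ihb
    | smul c a _ iha => rw [mul_smul_comm]; exact Submodule.smul_mem _ c iha

theorem ys_mem_span (b : Basis ι ℂ V) (l : List V) :
    (l.map (cy W k True)).prod ∈ Submodule.span ℂ (Set.range (cym W k b)) := by
  induction l with
  | nil =>
    apply Submodule.subset_span
    exact ⟨0, by rw [spanA_cym_zero]; simp⟩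
  | cons f l ih =>
    rw [List.map_cons, List.prod_cons]
    generalize (l.map (cy W k True)).prod = a at ih
    induction ih using Submodule.span_induction with
    | mem a ha =>
      obtain ⟨α, rfl⟩ := ha
      rw [spanA_cy_eq W k b f, Finset.sum_mul]
      refine Submodule.sum_mem _ fun i _ => ?_
      rw [smul_mul_assoc, spanA_cy_mul_cym]
      exact Submodule.smul_mem _ _ (Submodule.subset_span ⟨_, rfl⟩)
    | zero => rw [mul_zero]; exact Submodule.zero_mem _
    | add a b _ _ iha ihb => rw [mul_add]; exact Submodule.add_mem _ iha ihb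
    | smul c a _ iha => rw [mul_smul_comm]; exact Submodule.smul_mem _ c iha

/-- `∑_g ∑_β p_{g,β}(x) y^β g` for `p : g ↦ p_g ∈ ℂ[V][ξ]`. -/
noncomputable def Psi (b : Basis ι ℂ V) (p : W → Rx ι) : Ch W k True :=
  ∑ g ∈ (Set.toFinite (Set.univ : Set W)).toFinset, ∑ β ∈ (p g).support,
    (∑ α ∈ (coeff β (p g)).support, coeff α (coeff β (p g)) • cxm W k b α) * cym W k b β
      * cw W k True g

/-- `p ↦ ∑_α p_α x^α`. -/
private noncomputable def spanALx (b : Basis ι ℂ V) : Px ι →ₗ[ℂ] Ch W k True where
  toFun p := ∑ α ∈ p.support, coeff α p • cxm W k b α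
  map_add' p q := by
    have hp : ∑ α ∈ p.support, coeff α p • cxm W k b α =
        ∑ α ∈ p.support ∪ q.support, coeff α p • cxm W k b α := by
      refine Finset.sum_subset Finset.subset_union_left fun α _ h => ?_
      rw [notMem_support_iff.1 h, zero_smul]
    have hq : ∑ α ∈ q.support, coeff α q • cxm W k b α =
        ∑ α ∈ p.support ∪ q.support, coeff α q • cxm W k b α := by
      refine Finset.sum_subset Finset.subset_union_right fun α _ h => ?_
      rw [notMem_support_iff.1 h, zero_smul]
    have hpq : ∑ α ∈ (p + q).support, coeff α (p + q) • cxm W k b α =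
        ∑ α ∈ p.support ∪ q.support, coeff α (p + q) • cxm W k b α := by
      refine Finset.sum_subset support_add fun α _ h => ?_
      rw [notMem_support_iff.1 h, zero_smul]
    rw [hp, hq, hpq, ← Finset.sum_add_distrib]
    refine Finset.sum_congr rfl fun α _ => ?_
    rw [coeff_add, add_smul]
  map_smul' c p := by
    have hp : ∑ α ∈ (c • p).support, coeff α (c • p) • cxm W k b α =
        ∑ α ∈ p.support, coeff α (c • p) • cxm W k b α := by
      refine Finset.sum_subset support_smul fun α _ h => ?_
      rw [notMem_support_iff.1 h, zero_smul]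
    rw [hp, RingHom.id_apply, Finset.smul_sum]
    refine Finset.sum_congr rfl fun α _ => ?_
    rw [coeff_smul, smul_assoc]

/-- `r ↦ ∑_β r_β(x) y^β g`. -/
private noncomputable def spanALy (b : Basis ι ℂ V) (g : W) : Rx ι →ₗ[ℂ] Ch W k True where
  toFun r := ∑ β ∈ r.support, spanALx W k b (coeff β r) * cym W k b β * cw W k True g
  map_add' p q := by
    have hp : ∑ β ∈ p.support, spanALx W k b (coeff β p) * cym W k b β * cw W k True g =
        ∑ β ∈ p.support ∪ q.support, spanALx W k b (coeff β p) * cym W k b β * cw W k True g := by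
      refine Finset.sum_subset Finset.subset_union_left fun α _ h => ?_
      rw [notMem_support_iff.1 h, map_zero, zero_mul, zero_mul]
    have hq : ∑ β ∈ q.support, spanALx W k b (coeff β q) * cym W k b β * cw W k True g =
        ∑ β ∈ p.support ∪ q.support, spanALx W k b (coeff β q) * cym W k b β * cw W k True g := by
      refine Finset.sum_subset Finset.subset_union_right fun α _ h => ?_
      rw [notMem_support_iff.1 h, map_zero, zero_mul, zero_mul]
    have hpq : ∑ β ∈ (p + q).support, spanALx W k b (coeff β (p + q)) * cym W k b β * cw W k True g =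
        ∑ β ∈ p.support ∪ q.support, spanALx W k b (coeff β (p + q)) * cym W k b β * cw W k True g := by
      refine Finset.sum_subset support_add fun α _ h => ?_
      rw [notMem_support_iff.1 h, map_zero, zero_mul, zero_mul]
    rw [hp, hq, hpq, ← Finset.sum_add_distrib]
    refine Finset.sum_congr rfl fun α _ => ?_
    rw [coeff_add, map_add, add_mul, add_mul]
  map_smul' c p := by
    have hp : ∑ β ∈ (c • p).support, spanALx W k b (coeff β (c • p)) * cym W k b β * cw W k True g =
        ∑ β ∈ p.support, spanALx W k b (coeff β (c • p)) * cym W k b β * cw W k True g := by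
      refine Finset.sum_subset support_smul fun α _ h => ?_
      rw [notMem_support_iff.1 h, map_zero, zero_mul, zero_mul]
    rw [hp, RingHom.id_apply, Finset.smul_sum]
    refine Finset.sum_congr rfl fun α _ => ?_
    rw [coeff_smul, map_smul, smul_mul_assoc, smul_mul_assoc]

/-- `Psi` as a linear map. -/
private noncomputable def spanAPsi (b : Basis ι ℂ V) : (W → Rx ι) →ₗ[ℂ] Ch W k True :=
  ∑ g ∈ (Set.toFinite (Set.univ : Set W)).toFinset, (spanALy W k b g).comp (LinearMap.proj g)

private theorem spanA_Psi_eq (b : Basis ι ℂ V) (p : W → Rx ι) : Psi W k b p = spanAPsi W k b p := by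
  unfold Psi spanAPsi
  rw [LinearMap.sum_apply]
  rfl

private theorem spanA_single (b : Basis ι ℂ V) (g : W) (α β : ι →₀ ℕ) :
    cxm W k b α * cym W k b β * cw W k True g ∈ LinearMap.range (spanAPsi W k b) := by
  classical
  refine ⟨Pi.single g (monomial β (monomial α 1)), ?_⟩
  unfold spanAPsi
  rw [LinearMap.sum_apply, Finset.sum_eq_single g]
  · rw [LinearMap.comp_apply, LinearMap.proj_apply, Pi.single_eq_same]
    show ∑ β' ∈ (monomial β (monomial α (1 : ℂ)) : Rx ι).support,
      spanALx W k b (coeff β' (monomial β (monomial α (1 : ℂ)) : Rx ι)) * cym W k b β' * cw W k True g = _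
    have hne : (monomial α (1 : ℂ) : Px ι) ≠ 0 := by
      rw [Ne, monomial_eq_zero]
      exact one_ne_zero
    rw [support_monomial, if_neg hne, Finset.sum_singleton, coeff_monomial, if_pos rfl]
    have h2 : spanALx W k b (monomial α (1 : ℂ)) = cxm W k b α := by
      show ∑ α' ∈ (monomial α (1 : ℂ) : Px ι).support,
        coeff α' (monomial α (1 : ℂ) : Px ι) • cxm W k b α' = _
      rw [support_monomial, if_neg one_ne_zero, Finset.sum_singleton, coeff_monomial, if_pos rfl,
        one_smul]
    rw [h2]
  · intro g' _ hg'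
    rw [LinearMap.comp_apply, LinearMap.proj_apply, Pi.single_eq_of_ne hg', map_zero]
  · intro h
    exact absurd (by simp) h

/-- every element of `𝐇_k` is `Psi p` for some `p`. -/
theorem Psi_surjective (b : Basis ι ℂ V) : Function.Surjective (Psi W k b) := by
  intro a
  have ha : a ∈ Submodule.span ℂ (⋃ n, xyw W k n) := by
    rw [span_xyw]
    trivial
  have hle : Submodule.span ℂ (⋃ n, xyw W k n) ≤ LinearMap.range (spanAPsi W k b) := by
    rw [Submodule.span_le]
    intro c hc
    obtain ⟨n, hn⟩ := Set.mem_iUnion.1 hc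
    obtain ⟨l, l', g, _, rfl⟩ := hn
    have h1 := xs_mem_span W k b l
    have h2 := ys_mem_span W k b l'
    generalize (l.map (cx W k True)).prod = x at h1
    generalize (l'.map (cy W k True)).prod = y at h2
    show x * y * cw W k True g ∈ LinearMap.range (spanAPsi W k b)
    induction h1 using Submodule.span_induction with
    | mem x hx =>
      obtain ⟨α, rfl⟩ := hx
      induction h2 using Submodule.span_induction with
      | mem y hy =>
        obtain ⟨β, rfl⟩ := hy
        exact spanA_single W k b g α β
      | zero => rw [mul_zero, zero_mul]; exact Submodule.zero_mem _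
      | add a b _ _ iha ihb => rw [mul_add, add_mul]; exact Submodule.add_mem _ iha ihb
      | smul c a _ iha =>
        rw [mul_smul_comm, smul_mul_assoc]
        exact Submodule.smul_mem _ c iha
    | zero => rw [zero_mul, zero_mul]; exact Submodule.zero_mem _
    | add a b _ _ iha ihb => rw [add_mul, add_mul]; exact Submodule.add_mem _ iha ihb
    | smul c a _ iha =>
      rw [smul_mul_assoc, smul_mul_assoc]
      exact Submodule.smul_mem _ c iha
  obtain ⟨p, hp⟩ := hle ha
  exact ⟨p, by rw [spanA_Psi_eq, hp]⟩

end

end Pool.Agent.CM64
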