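import Pool.Agent.LibCM64.Conj

/-! Relations in the Cherednik algebra, the specialisation `t = 0`, induced automorphisms. -/

set_option linter.unusedSectionVars false

namespace Pool.Agent.CM64

open Module

section

variable {V : Type} [AddCommGroup V] [Module ℂ V]
variable (W : Subgroup (V ≃ₗ[ℂ] V)) [Finite W] (k : Submodule ℂ V → ℤ → ℂ)

theorem Rel_spec {a a' : FreeAlgebra ℂ (Gen W)} (h : Rel W k False a a') : Rel W k True a a' := by
  cases h with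
  | x_add f f' => exact Rel.x_add f f'
  | x_smul c f => exact Rel.x_smul c f
  | y_add v v' => exact Rel.y_add v v'
  | y_smul c v => exact Rel.y_smul c v
  | w_one => exact Rel.w_one
  | w_mul g h => exact Rel.w_mul g h
  | xx f f' => exact Rel.xx f f'
  | yy v v' => exact Rel.yy v v'
  | wx g f => exact Rel.wx g f
  | wy g v => exact Rel.wy g v
  | tx f => exact Rel.tx f
  | ty v => exact Rel.ty v
  | tw g => exact Rel.tw g
  | yx v f => exact Rel.yx v f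
  | t_zero h => exact h.elim

/-- The specialisation `t = 0`. -/
noncomputable def spec : Ch W k False →ₐ[ℂ] Ch W k True :=
  RingQuot.liftAlgHom ℂ ⟨RingQuot.mkAlgHom ℂ (Rel W k True),
    fun _ _ h => RingQuot.mkAlgHom_rel ℂ (Rel_spec W k h)⟩

theorem spec_mk (a : FreeAlgebra ℂ (Gen W)) :
    spec W k (RingQuot.mkAlgHom ℂ (Rel W k False) a) = RingQuot.mkAlgHom ℂ (Rel W k True) a := by
  rw [spec, RingQuot.liftAlgHom_mkAlgHom_apply]

/-- The automorphism of the free algebra induced by `g` (`V*: x ↦ x ∘ g⁻¹`, `V: y ↦ g y`, `W: w ↦ g w g⁻¹`). -/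
noncomputable def indF (g : V ≃ₗ[ℂ] V) (hg : Normalizes g W) :
    FreeAlgebra ℂ (Gen W) →ₐ[ℂ] FreeAlgebra ℂ (Gen W) :=
  FreeAlgebra.lift ℂ (fun s => match s with
    | Gen.x f => xF W (f.comp (g.symm : V →ₗ[ℂ] V))
    | Gen.y v => yF W (g v)
    | Gen.w h => wF W ⟨g * h * g⁻¹, (hg h).1 h.2⟩
    | Gen.t => tF W)

end

section

variable {V : Type} [AddCommGroup V] [Module ℂ V] [FiniteDimensional ℂ V]
variable (W : Subgroup (V ≃ₗ[ℂ] V)) [Finite W] (k : Submodule ℂ V → ℤ → ℂ)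

private theorem spec_indF_x (g : V ≃ₗ[ℂ] V) (hg : Normalizes g W) (f : Dual ℂ V) :
    indF W g hg (xF W f) = xF W (f.comp (g.symm : V →ₗ[ℂ] V)) := by
  simp [indF, xF]

private theorem spec_indF_y (g : V ≃ₗ[ℂ] V) (hg : Normalizes g W) (v : V) :
    indF W g hg (yF W v) = yF W (g v) := by
  simp [indF, yF]

private theorem spec_indF_w (g : V ≃ₗ[ℂ] V) (hg : Normalizes g W) (h : W) :
    indF W g hg (wF W h) = wF W ⟨g * h * g⁻¹, (hg h).1 h.2⟩ := by
  simp [indF, wF]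

private theorem spec_indF_t (g : V ≃ₗ[ℂ] V) (hg : Normalizes g W) :
    indF W g hg (tF W) = tF W := by
  simp [indF, tF]

open Classical in
private theorem spec_epsF (H : Submodule ℂ V) (j : ℕ) :
    epsF W H j = (eH W H : ℂ)⁻¹ • ∑ u ∈ pstF W H,
      dt u ^ j • (if hu : u ∈ W then wF W ⟨u, hu⟩ else 0) := by
  unfold epsF
  congr 1
  rw [← Finset.sum_attach (pstF W H)]
  refine Finset.sum_congr rfl fun u _ => ?_
  rw [dif_pos (mem_pstF.1 u.2).1]

private theorem spec_indF_epsF (g : V ≃ₗ[ℂ] V) (hg : Normalizes g W) (hk : FixesParam g k)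
    (H : Submodule ℂ V) (j : ℕ) :
    indF W g hg (epsF W H j) = epsF W (H.map (g : V →ₗ[ℂ] V)) j := by
  have tp : Tp g W W k k := tp_of_normalizes hg hk
  classical
  rw [spec_epsF, spec_epsF, map_smul, map_sum, sum_pstF_map tp H, eH_map tp]
  congr 1
  refine Finset.sum_congr rfl fun u hu => ?_
  rw [mem_pstF] at hu
  have h1 : u ∈ W := hu.1
  have h2 : cj g u ∈ W := (tp.grp u).1 h1
  rw [map_smul, dt_cj, dif_pos h1, dif_pos h2, spec_indF_w]
  rfl

private theorem spec_indF_commF (g : V ≃ₗ[ℂ] V) (hg : Normalizes g W) (hk : FixesParam g k)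
    (v : V) (f : Dual ℂ V) :
    indF W g hg (commF W k v f) = commF W k (g v) (f.comp (g.symm : V →ₗ[ℂ] V)) := by
  have tp : Tp g W W k k := tp_of_normalizes hg hk
  unfold commF
  rw [map_add, map_smul, spec_indF_t, map_sum]
  conv_rhs => rw [sum_arrF_map tp]
  congr 1
  · simp
  · refine Finset.sum_congr rfl fun H _ => ?_
    rw [map_sum, eH_map tp]
    refine Finset.sum_congr rfl fun j _ => ?_
    rw [map_smul, spec_indF_epsF W k g hg hk, projH_map tp, hk, hk]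
    simp

theorem indF_rel (P : Prop) (g : V ≃ₗ[ℂ] V) (hg : Normalizes g W) (hk : FixesParam g k)
    {a a' : FreeAlgebra ℂ (Gen W)} (h : Rel W k P a a') :
    RingQuot.mkAlgHom ℂ (Rel W k P) (indF W g hg a) = RingQuot.mkAlgHom ℂ (Rel W k P) (indF W g hg a') := by
  cases h with
  | x_add f f' =>
    rw [map_add, spec_indF_x, spec_indF_x, spec_indF_x, LinearMap.add_comp]
    exact RingQuot.mkAlgHom_rel ℂ (Rel.x_add _ _)
  | x_smul c f =>
    rw [map_smul, spec_indF_x, spec_indF_x, LinearMap.smul_comp]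
    exact RingQuot.mkAlgHom_rel ℂ (Rel.x_smul _ _)
  | y_add v v' =>
    rw [map_add, spec_indF_y, spec_indF_y, spec_indF_y, map_add g]
    exact RingQuot.mkAlgHom_rel ℂ (Rel.y_add _ _)
  | y_smul c v =>
    rw [map_smul, spec_indF_y, spec_indF_y, map_smul g]
    exact RingQuot.mkAlgHom_rel ℂ (Rel.y_smul _ _)
  | w_one =>
    rw [map_one, spec_indF_w]
    have e : (⟨g * ((1 : W) : V ≃ₗ[ℂ] V) * g⁻¹, (hg (1 : W)).1 (1 : W).2⟩ : W) = 1 := by
      apply Subtype.ext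
      simp
    rw [e]
    exact RingQuot.mkAlgHom_rel ℂ Rel.w_one
  | w_mul u u' =>
    rw [map_mul (indF W g hg), spec_indF_w, spec_indF_w, spec_indF_w]
    have e : (⟨g * ((u * u' : W) : V ≃ₗ[ℂ] V) * g⁻¹, (hg (u * u' : W)).1 (u * u' : W).2⟩ : W) =
        ⟨g * (u : V ≃ₗ[ℂ] V) * g⁻¹, (hg u).1 u.2⟩ * ⟨g * (u' : V ≃ₗ[ℂ] V) * g⁻¹, (hg u').1 u'.2⟩ := by
      apply Subtype.ext
      show g * ((u : V ≃ₗ[ℂ] V) * (u' : V ≃ₗ[ℂ] V)) * g⁻¹ = g * (u : V ≃ₗ[ℂ] V) * g⁻¹ *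
        (g * (u' : V ≃ₗ[ℂ] V) * g⁻¹)
      group
    rw [e]
    exact RingQuot.mkAlgHom_rel ℂ (Rel.w_mul _ _)
  | xx f f' =>
    rw [map_mul (indF W g hg), map_mul (indF W g hg), spec_indF_x, spec_indF_x]
    exact RingQuot.mkAlgHom_rel ℂ (Rel.xx _ _)
  | yy v v' =>
    rw [map_mul (indF W g hg), map_mul (indF W g hg), spec_indF_y, spec_indF_y]
    exact RingQuot.mkAlgHom_rel ℂ (Rel.yy _ _)
  | wx u f =>
    rw [map_mul (indF W g hg), map_mul (indF W g hg), spec_indF_x, spec_indF_x, spec_indF_w]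
    have e : (f.comp ((u : V ≃ₗ[ℂ] V).symm : V →ₗ[ℂ] V)).comp (g.symm : V →ₗ[ℂ] V) =
        (f.comp (g.symm : V →ₗ[ℂ] V)).comp
          (((⟨g * (u : V ≃ₗ[ℂ] V) * g⁻¹, (hg u).1 u.2⟩ : W) : V ≃ₗ[ℂ] V).symm : V →ₗ[ℂ] V) := by
      ext v
      show f ((u : V ≃ₗ[ℂ] V).symm (g.symm v)) = f (g.symm ((g * (u : V ≃ₗ[ℂ] V) * g⁻¹).symm v))
      have h1 : (g * (u : V ≃ₗ[ℂ] V) * g⁻¹).symm v = g ((u : V ≃ₗ[ℂ] V).symm (g.symm v)) := by
        rw [LinearEquiv.symm_apply_eq]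
        show v = g ((u : V ≃ₗ[ℂ] V) (g.symm (g ((u : V ≃ₗ[ℂ] V).symm (g.symm v)))))
        rw [LinearEquiv.symm_apply_apply, LinearEquiv.apply_symm_apply, LinearEquiv.apply_symm_apply]
      rw [h1, LinearEquiv.symm_apply_apply]
    rw [e]
    exact RingQuot.mkAlgHom_rel ℂ (Rel.wx _ _)
  | wy u v =>
    rw [map_mul (indF W g hg), map_mul (indF W g hg), spec_indF_y, spec_indF_y, spec_indF_w]
    have e : g ((u : V ≃ₗ[ℂ] V) v) =
        ((⟨g * (u : V ≃ₗ[ℂ] V) * g⁻¹, (hg u).1 u.2⟩ : W) : V ≃ₗ[ℂ] V) (g v) := by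
      show g ((u : V ≃ₗ[ℂ] V) v) = g ((u : V ≃ₗ[ℂ] V) (g.symm (g v)))
      rw [LinearEquiv.symm_apply_apply]
    rw [e]
    exact RingQuot.mkAlgHom_rel ℂ (Rel.wy _ _)
  | tx f =>
    rw [map_mul (indF W g hg), map_mul (indF W g hg), spec_indF_x, spec_indF_t]
    exact RingQuot.mkAlgHom_rel ℂ (Rel.tx _)
  | ty v =>
    rw [map_mul (indF W g hg), map_mul (indF W g hg), spec_indF_y, spec_indF_t]
    exact RingQuot.mkAlgHom_rel ℂ (Rel.ty _)
  | tw u =>
    rw [map_mul (indF W g hg), map_mul (indF W g hg), spec_indF_w, spec_indF_t]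
    exact RingQuot.mkAlgHom_rel ℂ (Rel.tw _)
  | yx v f =>
    rw [map_mul (indF W g hg), map_add (indF W g hg), map_mul (indF W g hg), spec_indF_x, spec_indF_y, spec_indF_commF W k g hg hk]
    exact RingQuot.mkAlgHom_rel ℂ (Rel.yx _ _)
  | t_zero hP =>
    rw [spec_indF_t, map_zero]
    exact RingQuot.mkAlgHom_rel ℂ (Rel.t_zero hP)

/-- scalars. -/
noncomputable def scal (V : Type) [AddCommGroup V] [Module ℂ V] (c : ℂˣ) : V ≃ₗ[ℂ] V :=
  LinearEquiv.smulOfUnit c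

theorem scal_apply (c : ℂˣ) (v : V) : scal V c v = (c : ℂ) • v := rfl

private theorem spec_scal_conj (c : ℂˣ) (h : V ≃ₗ[ℂ] V) : scal V c * h * (scal V c)⁻¹ = h := by
  rw [mul_inv_eq_iff_eq_mul]
  ext v
  show scal V c (h v) = h (scal V c v)
  rw [scal_apply, scal_apply, map_smul]

theorem normalizes_scal (c : ℂˣ) : Normalizes (scal V c) W := by
  intro h
  rw [spec_scal_conj]

private theorem spec_map_scal (c : ℂˣ) (H : Submodule ℂ V) :
    H.map (scal V c : V →ₗ[ℂ] V) = H := by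
  ext v
  rw [Submodule.mem_map]
  constructor
  · rintro ⟨u, hu, rfl⟩
    exact H.smul_mem (c : ℂ) hu
  · intro hv
    refine ⟨((c⁻¹ : ℂˣ) : ℂ) • v, H.smul_mem _ hv, ?_⟩
    show (c : ℂ) • (((c⁻¹ : ℂˣ) : ℂ) • v) = v
    rw [smul_smul, Units.mul_inv, one_smul]

theorem fixesParam_scal (c : ℂˣ) : FixesParam (scal V c) k := by
  intro H j
  rw [spec_map_scal]

/-- The automorphism of the Cherednik algebra induced by `g ∈ GL(V)` normalising `W` and fixing `k`. -/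
noncomputable def ind (P : Prop) (g : V ≃ₗ[ℂ] V) (hg : Normalizes g W) (hk : FixesParam g k) :
    Ch W k P →ₐ[ℂ] Ch W k P :=
  RingQuot.liftAlgHom ℂ ⟨(RingQuot.mkAlgHom ℂ (Rel W k P)).comp (indF W g hg),
    fun _ _ h => indF_rel W k P g hg hk h⟩

/-- The action of `c ∈ ℂ^×` on the Cherednik algebra: `x ↦ c x`, `y ↦ c⁻¹ y`, `w ↦ w` (the grading with `V*` in
degree `1`, `V` in degree `-1` and `W` in degree `0`). -/
noncomputable def dil (P : Prop) (c : ℂˣ) : Ch W k P →ₐ[ℂ] Ch W k P :=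
  ind W k P (scal V c⁻¹) (normalizes_scal W c⁻¹) (fixesParam_scal k c⁻¹)

private theorem spec_ind_mk (P : Prop) (g : V ≃ₗ[ℂ] V) (hg : Normalizes g W) (hk : FixesParam g k)
    (a : FreeAlgebra ℂ (Gen W)) :
    ind W k P g hg hk (RingQuot.mkAlgHom ℂ (Rel W k P) a) =
      RingQuot.mkAlgHom ℂ (Rel W k P) (indF W g hg a) := by
  rw [ind, RingQuot.liftAlgHom_mkAlgHom_apply]
  rfl

theorem dil_cx (P : Prop) (c : ℂˣ) (f : Dual ℂ V) : dil W k P c (cx W k P f) = (c : ℂ) • cx W k P f := by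
  unfold dil cx
  rw [spec_ind_mk, spec_indF_x, ← map_smul]
  have e : f.comp ((scal V c⁻¹).symm : V →ₗ[ℂ] V) = (c : ℂ) • f := by
    ext v
    show f ((scal V c⁻¹).symm v) = (c : ℂ) • f v
    have h1 : (scal V c⁻¹).symm v = (c : ℂ) • v := by
      rw [LinearEquiv.symm_apply_eq, scal_apply, smul_smul, Units.inv_mul, one_smul]
    rw [h1, map_smul]
  rw [e]
  exact RingQuot.mkAlgHom_rel ℂ (Rel.x_smul _ _)

theorem dil_cy (P : Prop) (c : ℂˣ) (v : V) : dil W k P c (cy W k P v) = ((c : ℂ)⁻¹) • cy W k P v := by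
  unfold dil cy
  rw [spec_ind_mk, spec_indF_y, ← map_smul, scal_apply, Units.val_inv_eq_inv_val]
  exact RingQuot.mkAlgHom_rel ℂ (Rel.y_smul _ _)

theorem dil_cw (P : Prop) (c : ℂˣ) (g : W) : dil W k P c (cw W k P g) = cw W k P g := by
  unfold dil cw
  rw [spec_ind_mk, spec_indF_w]
  have e : (⟨scal V c⁻¹ * (g : V ≃ₗ[ℂ] V) * (scal V c⁻¹)⁻¹, (normalizes_scal W c⁻¹ g).1 g.2⟩ : W) = g :=
    Subtype.ext (spec_scal_conj c⁻¹ (g : V ≃ₗ[ℂ] V))
  rw [e]

end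

end Pool.Agent.CM64
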