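import Pool.Agent.LibCM64.Spec

/-! Relations in the Cherednik algebra and the kernel of the specialisation `t = 0`. -/

set_option linter.unusedSectionVars false

namespace Pool.Agent.CM64

open Module

section

variable {V : Type} [AddCommGroup V] [Module ℂ V] [FiniteDimensional ℂ V]
variable (W : Subgroup (V ≃ₗ[ℂ] V)) [Finite W] (k : Submodule ℂ V → ℤ → ℂ) (P : Prop)

theorem cx_add (f f' : Dual ℂ V) : cx W k P (f + f') = cx W k P f + cx W k P f' := by
  unfold cx
  rw [← map_add]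
  exact RingQuot.mkAlgHom_rel ℂ (Rel.x_add f f')

theorem cx_smul (c : ℂ) (f : Dual ℂ V) : cx W k P (c • f) = c • cx W k P f := by
  unfold cx
  rw [← map_smul]
  exact RingQuot.mkAlgHom_rel ℂ (Rel.x_smul c f)

theorem cy_add (v v' : V) : cy W k P (v + v') = cy W k P v + cy W k P v' := by
  unfold cy
  rw [← map_add]
  exact RingQuot.mkAlgHom_rel ℂ (Rel.y_add v v')

theorem cy_smul (c : ℂ) (v : V) : cy W k P (c • v) = c • cy W k P v := by
  unfold cy
  rw [← map_smul]
  exact RingQuot.mkAlgHom_rel ℂ (Rel.y_smul c v)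

theorem cw_one : cw W k P 1 = 1 := by
  unfold cw
  rw [← map_one (RingQuot.mkAlgHom ℂ (Rel W k P))]
  exact RingQuot.mkAlgHom_rel ℂ Rel.w_one

theorem cw_mul (g h : W) : cw W k P (g * h) = cw W k P g * cw W k P h := by
  unfold cw
  rw [← map_mul]
  exact RingQuot.mkAlgHom_rel ℂ (Rel.w_mul g h)

theorem cx_comm (f f' : Dual ℂ V) : cx W k P f * cx W k P f' = cx W k P f' * cx W k P f := by
  unfold cx
  rw [← map_mul, ← map_mul]
  exact RingQuot.mkAlgHom_rel ℂ (Rel.xx f f')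

theorem cy_comm (v v' : V) : cy W k P v * cy W k P v' = cy W k P v' * cy W k P v := by
  unfold cy
  rw [← map_mul, ← map_mul]
  exact RingQuot.mkAlgHom_rel ℂ (Rel.yy v v')

theorem cw_mul_cx (g : W) (f : Dual ℂ V) :
    cw W k P g * cx W k P f = cx W k P (f.comp ((g : V ≃ₗ[ℂ] V).symm : V →ₗ[ℂ] V)) * cw W k P g := by
  unfold cw cx
  rw [← map_mul, ← map_mul]
  exact RingQuot.mkAlgHom_rel ℂ (Rel.wx g f)

theorem cw_mul_cy (g : W) (v : V) :
    cw W k P g * cy W k P v = cy W k P ((g : V ≃ₗ[ℂ] V) v) * cw W k P g := by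
  unfold cw cy
  rw [← map_mul, ← map_mul]
  exact RingQuot.mkAlgHom_rel ℂ (Rel.wy g v)

private theorem pm_span (v : V) (f : Dual ℂ V) :
    (∑ H ∈ arrF W, ∑ j ∈ Finset.range (eH W H),
      ((eH W H : ℂ) * (k H j - k H (j + 1)) * f (projH W H v)) •
        RingQuot.mkAlgHom ℂ (Rel W k P) (epsF W H j)) ∈
      Submodule.span ℂ (Set.range (fun g : W => cw W k P g)) := by
  refine Submodule.sum_mem _ fun H _ => Submodule.sum_mem _ fun j _ => Submodule.smul_mem _ _ ?_
  unfold epsF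
  rw [map_smul, map_sum]
  refine Submodule.smul_mem _ _ (Submodule.sum_mem _ fun g _ => ?_)
  rw [map_smul]
  exact Submodule.smul_mem _ _ (Submodule.subset_span ⟨⟨g.1, (mem_pstF.1 g.2).1⟩, rfl⟩)

/-- `y x = x y + t⟨y,x⟩ + ∑_g c_g g`. -/
theorem cy_mul_cx (v : V) (f : Dual ℂ V) : ∃ c : W → ℂ, ∃ s : Finset W,
    cy W k P v * cx W k P f = cx W k P f * cy W k P v + f v • ct W k P + ∑ g ∈ s, c g • cw W k P g := by
  obtain ⟨c, hc⟩ := (Finsupp.mem_span_range_iff_exists_finsupp).1 (pm_span W k P v f)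
  refine ⟨c, c.support, ?_⟩
  have h1 : ∑ g ∈ c.support, c g • cw W k P g = (c.sum fun i a => a • cw W k P i) := rfl
  rw [h1, hc]
  unfold cy cx ct
  rw [← map_mul, RingQuot.mkAlgHom_rel ℂ (Rel.yx (k := k) (P := P) v f), map_add, map_mul, commF, map_add,
    map_smul, map_sum, add_assoc]
  congr 2
  refine Finset.sum_congr rfl fun H _ => ?_
  rw [map_sum]
  refine Finset.sum_congr rfl fun j _ => ?_
  rw [map_smul]

private theorem pm_ind (N : Subalgebra ℂ (Ch W k P)) (hx : ∀ f, cx W k P f ∈ N)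
    (hy : ∀ v, cy W k P v ∈ N) (hw : ∀ g, cw W k P g ∈ N) (ht : ct W k P ∈ N) (a : Ch W k P) : a ∈ N := by
  obtain ⟨a, rfl⟩ := RingQuot.mkAlgHom_surjective ℂ (Rel W k P) a
  induction a using FreeAlgebra.induction with
  | grade0 r =>
    rw [AlgHom.commutes]
    exact N.algebraMap_mem r
  | grade1 s =>
    cases s with
    | x f => exact hx f
    | y v => exact hy v
    | w g => exact hw g
    | t => exact ht
  | mul a b ha hb => rw [map_mul]; exact N.mul_mem ha hb
  | add a b ha hb => rw [map_add]; exact N.add_mem ha hb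

/-- `t` is central. -/
theorem ct_comm (a : Ch W k P) : ct W k P * a = a * ct W k P := by
  have h : a ∈ Subalgebra.centralizer ℂ {ct W k P} := by
    refine pm_ind W k P _ (fun f => ?_) (fun v => ?_) (fun g => ?_) ?_ a
    · rw [Subalgebra.mem_centralizer_iff]
      rintro g rfl
      unfold ct cx
      rw [← map_mul, ← map_mul]
      exact RingQuot.mkAlgHom_rel ℂ (Rel.tx f)
    · rw [Subalgebra.mem_centralizer_iff]
      rintro g rfl
      unfold ct cy
      rw [← map_mul, ← map_mul]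
      exact RingQuot.mkAlgHom_rel ℂ (Rel.ty v)
    · rw [Subalgebra.mem_centralizer_iff]
      rintro g' rfl
      unfold ct cw
      rw [← map_mul, ← map_mul]
      exact RingQuot.mkAlgHom_rel ℂ (Rel.tw g)
    · rw [Subalgebra.mem_centralizer_iff]
      rintro g rfl
      rfl
  exact (Subalgebra.mem_centralizer_iff ℂ).1 h _ rfl

/-- induction principle: the Cherednik algebra is generated by `x, y, w, t`. -/
theorem Ch_ind (N : Subalgebra ℂ (Ch W k P)) (hx : ∀ f, cx W k P f ∈ N)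
    (hy : ∀ v, cy W k P v ∈ N) (hw : ∀ g, cw W k P g ∈ N) (ht : ct W k P ∈ N) (a : Ch W k P) : a ∈ N :=
  pm_ind W k P N hx hy hw ht a

/-- two algebra homomorphisms that agree on the generators are equal. -/
theorem Ch_hom_ext {B : Type} [Ring B] [Algebra ℂ B] {φ ψ : Ch W k P →ₐ[ℂ] B}
    (hx : ∀ f, φ (cx W k P f) = ψ (cx W k P f)) (hy : ∀ v, φ (cy W k P v) = ψ (cy W k P v))
    (hw : ∀ g, φ (cw W k P g) = ψ (cw W k P g)) (ht : φ (ct W k P) = ψ (ct W k P)) : φ = ψ := by
  refine AlgHom.ext fun a => ?_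
  exact Ch_ind W k P (AlgHom.equalizer φ ψ) hx hy hw ht a

private theorem pm_ind_mk (g : V ≃ₗ[ℂ] V) (hg : Normalizes g W) (hk : FixesParam g k)
    (a : FreeAlgebra ℂ (Gen W)) :
    ind W k P g hg hk (RingQuot.mkAlgHom ℂ (Rel W k P) a) =
      RingQuot.mkAlgHom ℂ (Rel W k P) (indF W g hg a) := by
  unfold ind
  rw [RingQuot.liftAlgHom_mkAlgHom_apply]
  rfl

theorem ind_cx (g : V ≃ₗ[ℂ] V) (hg : Normalizes g W) (hk : FixesParam g k) (f : Dual ℂ V) :
    ind W k P g hg hk (cx W k P f) = cx W k P (f.comp (g.symm : V →ₗ[ℂ] V)) := by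
  unfold cx
  rw [pm_ind_mk]
  congr 1
  unfold indF xF
  rw [FreeAlgebra.lift_ι_apply]

theorem ind_cy (g : V ≃ₗ[ℂ] V) (hg : Normalizes g W) (hk : FixesParam g k) (v : V) :
    ind W k P g hg hk (cy W k P v) = cy W k P (g v) := by
  unfold cy
  rw [pm_ind_mk]
  congr 1
  unfold indF yF
  rw [FreeAlgebra.lift_ι_apply]

theorem ind_cw (g : V ≃ₗ[ℂ] V) (hg : Normalizes g W) (hk : FixesParam g k) (h : W) :
    ind W k P g hg hk (cw W k P h) = cw W k P ⟨g * h * g⁻¹, (hg h).1 h.2⟩ := by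
  unfold cw
  rw [pm_ind_mk]
  congr 1
  unfold indF wF
  rw [FreeAlgebra.lift_ι_apply]

theorem ind_ct (g : V ≃ₗ[ℂ] V) (hg : Normalizes g W) (hk : FixesParam g k) :
    ind W k P g hg hk (ct W k P) = ct W k P := by
  unfold ct
  rw [pm_ind_mk]
  congr 1
  unfold indF tF
  rw [FreeAlgebra.lift_ι_apply]

theorem ind_surjective (g : V ≃ₗ[ℂ] V) (hg : Normalizes g W) (hk : FixesParam g k) :
    Function.Surjective (ind W k P g hg hk) := by
  intro a
  have h := Ch_ind W k P (ind W k P g hg hk).range (fun f => ?_) (fun v => ?_) (fun h => ?_) ?_ a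
  · exact h
  · refine ⟨cx W k P (f.comp (g : V →ₗ[ℂ] V)), ?_⟩
    change ind W k P g hg hk (cx W k P (f.comp (g : V →ₗ[ℂ] V))) = cx W k P f
    rw [ind_cx]
    congr 1
    ext v
    simp
  · refine ⟨cy W k P (g.symm v), ?_⟩
    change ind W k P g hg hk (cy W k P (g.symm v)) = cy W k P v
    rw [ind_cy, LinearEquiv.apply_symm_apply]
  · have h1 : g⁻¹ * (h : V ≃ₗ[ℂ] V) * g ∈ W := by
      rw [hg]
      have : g * (g⁻¹ * (h : V ≃ₗ[ℂ] V) * g) * g⁻¹ = h := by group
      rw [this]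
      exact h.2
    refine ⟨cw W k P ⟨_, h1⟩, ?_⟩
    change ind W k P g hg hk (cw W k P ⟨_, h1⟩) = cw W k P h
    rw [ind_cw]
    congr 1
    refine Subtype.ext ?_
    change g * (g⁻¹ * (h : V ≃ₗ[ℂ] V) * g) * g⁻¹ = h
    group
  · exact ⟨ct W k P, ind_ct W k P g hg hk⟩

theorem spec_ind (g : V ≃ₗ[ℂ] V) (hg : Normalizes g W) (hk : FixesParam g k) (a : Ch W k False) :
    spec W k (ind W k False g hg hk a) = ind W k True g hg hk (spec W k a) := by
  obtain ⟨a, rfl⟩ := RingQuot.mkAlgHom_surjective ℂ (Rel W k False) a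
  rw [pm_ind_mk, spec_mk, spec_mk, pm_ind_mk]

theorem spec_surjective : Function.Surjective (spec W k) := by
  intro a
  obtain ⟨a, rfl⟩ := RingQuot.mkAlgHom_surjective ℂ (Rel W k True) a
  exact ⟨_, spec_mk W k a⟩

theorem ct_true : ct W k True = 0 := by
  unfold ct
  rw [← map_zero (RingQuot.mkAlgHom ℂ (Rel W k True))]
  exact RingQuot.mkAlgHom_rel ℂ (Rel.t_zero trivial)

theorem spec_ct : spec W k (ct W k False) = 0 := by
  rw [← ct_true W k]
  exact spec_mk W k (tF W)

private theorem pm_exact {A : Type} [Ring A] [Algebra ℂ A] {r : A → A → Prop} {a b : A}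
    (h : RingQuot.mkAlgHom ℂ r a = RingQuot.mkAlgHom ℂ r b) : Relation.EqvGen (RingQuot.Rel r) a b := by
  have h1 : (⟨Quot.mk _ a⟩ : RingQuot r) = ⟨Quot.mk _ b⟩ := by
    simpa [RingQuot.mkAlgHom_def, RingQuot.mkRingHom_def] using h
  exact Quot.eqvGen_exact (congrArg RingQuot.toQuot h1)

private theorem pm_rel {x y : FreeAlgebra ℂ (Gen W)} (h : RingQuot.Rel (Rel W k True) x y) :
    ∃ c, RingQuot.mkAlgHom ℂ (Rel W k False) x - RingQuot.mkAlgHom ℂ (Rel W k False) y =
      ct W k False * c := by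
  induction h with
  | of h =>
    have h0 : ∀ {a b : FreeAlgebra ℂ (Gen W)}, Rel W k False a b →
        ∃ c, RingQuot.mkAlgHom ℂ (Rel W k False) a - RingQuot.mkAlgHom ℂ (Rel W k False) b =
          ct W k False * c := by
      intro a b hab
      refine ⟨0, ?_⟩
      rw [RingQuot.mkAlgHom_rel ℂ hab, sub_self, mul_zero]
    cases h with
    | x_add f f' => exact h0 (Rel.x_add f f')
    | x_smul c f => exact h0 (Rel.x_smul c f)
    | y_add v v' => exact h0 (Rel.y_add v v')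
    | y_smul c v => exact h0 (Rel.y_smul c v)
    | w_one => exact h0 Rel.w_one
    | w_mul g h => exact h0 (Rel.w_mul g h)
    | xx f f' => exact h0 (Rel.xx f f')
    | yy v v' => exact h0 (Rel.yy v v')
    | wx g f => exact h0 (Rel.wx g f)
    | wy g v => exact h0 (Rel.wy g v)
    | tx f => exact h0 (Rel.tx f)
    | ty v => exact h0 (Rel.ty v)
    | tw g => exact h0 (Rel.tw g)
    | yx v f => exact h0 (Rel.yx v f)
    | t_zero h =>
      refine ⟨1, ?_⟩
      rw [map_zero, sub_zero, mul_one]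
      rfl
  | add_left _ ih =>
    obtain ⟨c, hc⟩ := ih
    refine ⟨c, ?_⟩
    rw [map_add, map_add, add_sub_add_right_eq_sub, hc]
  | mul_left _ ih =>
    rename_i z _
    obtain ⟨c, hc⟩ := ih
    refine ⟨c * RingQuot.mkAlgHom ℂ (Rel W k False) z, ?_⟩
    rw [map_mul, map_mul, ← sub_mul, hc, mul_assoc]
  | mul_right _ ih =>
    rename_i z _ _ _
    obtain ⟨c, hc⟩ := ih
    refine ⟨RingQuot.mkAlgHom ℂ (Rel W k False) z * c, ?_⟩
    rw [map_mul, map_mul, ← mul_sub, hc, ← mul_assoc, ← ct_comm, mul_assoc]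

/-- the kernel of the specialisation is generated by `t`: show that `RingQuot.Rel (Rel W k True) a a'` implies
`mk a - mk a' = t c` for some `c`. -/
theorem ker_spec {a : Ch W k False} (h : spec W k a = 0) : ∃ c, a = ct W k False * c := by
  obtain ⟨a, rfl⟩ := RingQuot.mkAlgHom_surjective ℂ (Rel W k False) a
  rw [spec_mk, ← map_zero (RingQuot.mkAlgHom ℂ (Rel W k True))] at h
  have key : ∀ x y : FreeAlgebra ℂ (Gen W), Relation.EqvGen (RingQuot.Rel (Rel W k True)) x y →
      ∃ c, RingQuot.mkAlgHom ℂ (Rel W k False) x - RingQuot.mkAlgHom ℂ (Rel W k False) y =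
        ct W k False * c := by
    intro x y hxy
    induction hxy with
    | rel x y h => exact pm_rel W k h
    | refl x => exact ⟨0, by rw [sub_self, mul_zero]⟩
    | symm x y _ ih =>
      obtain ⟨c, hc⟩ := ih
      have h1 : RingQuot.mkAlgHom ℂ (Rel W k False) y - RingQuot.mkAlgHom ℂ (Rel W k False) x =
          0 - (RingQuot.mkAlgHom ℂ (Rel W k False) x - RingQuot.mkAlgHom ℂ (Rel W k False) y) := by
        abel
      refine ⟨0 - c, ?_⟩
      rw [mul_sub, mul_zero, ← hc]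
      exact h1
    | trans x y z _ _ ih1 ih2 =>
      obtain ⟨c, hc⟩ := ih1
      obtain ⟨d, hd⟩ := ih2
      refine ⟨c + d, ?_⟩
      rw [mul_add, ← hc, ← hd, sub_add_sub_cancel]
  obtain ⟨c, hc⟩ := key a 0 (pm_exact h)
  refine ⟨c, ?_⟩
  rw [← hc, map_zero, sub_zero]

end

end Pool.Agent.CM64
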