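import Pool.Agent.LibCM64.ChevC
import Pool.Agent.LibCM64.HomSys

/-! Springer's theory of regular elements. -/

set_option linter.unusedSectionVars false

namespace Pool.Agent.CM64

open Module MvPolynomial

section

variable {V : Type} [AddCommGroup V] [Module ℂ V] [FiniteDimensional ℂ V]
variable {V' : Type} [AddCommGroup V'] [Module ℂ V'] [FiniteDimensional ℂ V']
variable {ι : Type} [Fintype ι] [DecidableEq ι] {ι' : Type} [Fintype ι'] [DecidableEq ι']

/-- pull back of polynomial functions along a linear map `φ : V' → V`. -/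
noncomputable def pbP (b' : Basis ι' ℂ V') (b : Basis ι ℂ V) (φ : V' →ₗ[ℂ] V) : Px ι →ₐ[ℂ] Px ι' :=
  aeval (fun i => xl b' ((b.coord i).comp φ))

theorem evP_pbP (b' : Basis ι' ℂ V') (b : Basis ι ℂ V) (φ : V' →ₗ[ℂ] V) (v : V') (p : Px ι) :
    evP b' v (pbP b' b φ p) = evP b (φ v) p := by
  have : (evP b' v).comp (pbP b' b φ) = evP b (φ v) := by
    apply MvPolynomial.algHom_ext
    intro i
    rw [AlgHom.comp_apply, pbP, aeval_X, evP_xl, evP, aeval_X]
    rfl
  exact congrArg (fun f => f p) this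

theorem pbP_xl (b' : Basis ι' ℂ V') (b : Basis ι ℂ V) (φ : V' →ₗ[ℂ] V) (f : Dual ℂ V) :
    pbP b' b φ (xl b f) = xl b' (f.comp φ) := by
  rw [xl_apply, map_sum]
  have : f.comp φ = ∑ i, f (b i) • ((b.coord i).comp φ) := by
    ext v
    have h := b.sum_repr (φ v)
    calc (f.comp φ) v = f (φ v) := rfl
      _ = f (∑ i, b.repr (φ v) i • b i) := by rw [h]
      _ = _ := by
        simp only [map_sum, map_smul, smul_eq_mul, LinearMap.coe_sum, Finset.sum_apply,
          LinearMap.smul_apply, LinearMap.comp_apply, Basis.coord_apply]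
        exact Finset.sum_congr rfl (fun i _ => mul_comm _ _)
  rw [this, map_sum]
  refine Finset.sum_congr rfl (fun i _ => ?_)
  rw [map_smul, pbP, aeval_X, map_smul]

theorem pbP_isHomogeneous (b' : Basis ι' ℂ V') (b : Basis ι ℂ V) (φ : V' →ₗ[ℂ] V) {p : Px ι} {d : ℕ}
    (hp : p.IsHomogeneous d) : (pbP b' b φ p).IsHomogeneous d := by
  have h := hp.aeval (fun i => xl b' ((b.coord i).comp φ)) (n := 1) (fun i => xl_isHomogeneous b' _)
  rw [one_mul] at h
  exact h

theorem dfl_pbP (b' : Basis ι' ℂ V') (b : Basis ι ℂ V) (φ : V' →ₗ[ℂ] V) (u : V') (p : Px ι) :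
    dfl b' u (pbP b' b φ p) = (dfl b (φ u) p).comp φ := by
  have key : ∀ v, dP b' v (pbP b' b φ p) = pbP b' b φ (dP b (φ v) p) := by
    intro v
    have hC : ∀ (c : ℂ) (w : V), dP b w (C c) = 0 := by
      intro c w; simp [dP]
    have hC' : ∀ (c : ℂ) (w : V'), dP b' w (C c) = 0 := by
      intro c w; simp [dP]
    induction p using MvPolynomial.induction_on with
    | C a =>
      have : pbP b' b φ (C a) = C a := (pbP b' b φ).commutes a
      rw [this, hC, hC', map_zero]
    | add p q hp hq => rw [map_add, map_add, map_add, map_add, hp, hq]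
    | mul_X p i hp =>
      have hX : dP b (φ v) (X i : Px ι) = C (b.coord i (φ v)) := by
        rw [← xl_coord b i, dP_xl]
      have hX' : dP b' v (pbP b' b φ (X i)) = C (b.coord i (φ v)) := by
        rw [pbP, aeval_X, dP_xl]
        rfl
      have hCC : pbP b' b φ (C (b.coord i (φ v))) = C (b.coord i (φ v)) := (pbP b' b φ).commutes _
      rw [map_mul, dP_mul, dP_mul, hp, hX', hX, map_add, map_mul, map_mul, hCC]
  ext v
  rw [dfl_apply, key, evP_pbP, LinearMap.comp_apply, dfl_apply]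

end

section

variable {V : Type} [AddCommGroup V] [Module ℂ V] [FiniteDimensional ℂ V]
variable {ι : Type} [Fintype ι] [DecidableEq ι]
variable {Γ : Subgroup (V ≃ₗ[ℂ] V)} [Finite Γ] {τ : V ≃ₗ[ℂ] V} {b : Basis ι ℂ V}
  {f : ι → Px ι} {d : ι → ℕ} {θ : ι → ℂ}

private theorem spr_inv_vals (hB : Basic Γ τ b f d θ) {v v' : V} (h : ∀ i, evP b v (f i) = evP b v' (f i))
    {p : Px ι} (hp : PInv Γ b p) : evP b v p = evP b v' p := by
  have hmem := hB.gen p hp
  clear hp
  induction hmem using Algebra.adjoin_induction with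
  | mem x hx =>
    obtain ⟨i, rfl⟩ := hx
    exact h i
  | algebraMap r => rw [AlgHom.commutes, AlgHom.commutes]
  | add x y hx hy ihx ihy =>
    rw [map_add, map_add, ihx, ihy]
  | mul x y hx hy ihx ihy =>
    rw [map_mul, map_mul, ihx, ihy]

private theorem spr_dfl_mul (b : Basis ι ℂ V) (u : V) (p q : Px ι) :
    dfl b u (p * q) = evP b u p • dfl b u q + evP b u q • dfl b u p := by
  ext v
  simp only [dfl_apply, dP_mul, map_add, map_mul, LinearMap.add_apply, LinearMap.smul_apply, smul_eq_mul]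
  ring

private theorem spr_dfl_add (b : Basis ι ℂ V) (u : V) (p q : Px ι) :
    dfl b u (p + q) = dfl b u p + dfl b u q := by
  ext v
  simp only [dfl_apply, map_add, LinearMap.add_apply]

private theorem spr_dfl_C (b : Basis ι ℂ V) (u : V) (r : ℂ) :
    dfl b u (algebraMap ℂ (Px ι) r) = 0 := by
  ext v
  rw [dfl_apply, MvPolynomial.algebraMap_eq]
  simp [dP]

private theorem spr_dfl_smul (b : Basis ι ℂ V) (u : V) (c : ℂ) (p : Px ι) :
    dfl b u (c • p) = c • dfl b u p := by
  ext v
  simp only [dfl_apply, map_smul, LinearMap.smul_apply]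

/-- the differential of a polynomial in the `f_i` is a combination of the differentials of the `f_i`. -/
theorem basic_span_dfl (hB : Basic Γ τ b f d θ) {u : V} (hu : ∀ g ∈ Γ, g u = u → g = 1) :
    Submodule.span ℂ (Set.range (fun i => dfl b u (f i))) = ⊤ := by
  rw [eq_top_iff]
  intro F _
  obtain ⟨p, hp, rfl⟩ := exists_inv_dfl Γ b hu F
  have hmem := hB.gen p hp
  clear hp
  induction hmem using Algebra.adjoin_induction with
  | mem x hx =>
    obtain ⟨i, rfl⟩ := hx
    exact Submodule.subset_span ⟨i, rfl⟩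
  | algebraMap r => rw [spr_dfl_C]; exact Submodule.zero_mem _
  | add x y hx hy ihx ihy =>
    rw [spr_dfl_add]
    exact Submodule.add_mem _ (ihx trivial) (ihy trivial)
  | mul x y hx hy ihx ihy =>
    rw [spr_dfl_mul]
    exact Submodule.add_mem _ (Submodule.smul_mem _ _ (ihy trivial)) (Submodule.smul_mem _ _ (ihx trivial))

theorem basic_linInd (hB : Basic Γ τ b f d θ) {u : V} (hu : ∀ g ∈ Γ, g u = u → g = 1) :
    LinearIndependent ℂ (fun i => dfl b u (f i)) := by
  apply linearIndependent_of_top_le_span_of_card_eq_finrank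
  · rw [basic_span_dfl hB hu]
  · rw [Subspace.dual_finrank_eq, Module.finrank_eq_card_basis b]

/-- `f_i` vanishes on `V^τ` if `θ_i ≠ 1`. -/
theorem basic_vanish (hB : Basic Γ τ b f d θ) {v : V} (hv : τ v = v) {i : ι} (hi : θ i ≠ 1) :
    evP b v (f i) = 0 := by
  have h1 := evP_trP b b τ v (f i)
  rw [hB.eig i, map_smul, smul_eq_mul] at h1
  have h2 : τ.symm v = v := by
    rw [LinearEquiv.symm_apply_eq, hv]
  rw [h2] at h1
  have h3 : (θ i - 1) * evP b v (f i) = 0 := by
    rw [sub_mul, h1, one_mul, sub_self]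
  rcases mul_eq_zero.1 h3 with h4 | h4
  · exact absurd (sub_eq_zero.1 h4) hi
  · exact h4

/-- more generally for `v` fixed by `w τ`, `w ∈ Γ`. -/
theorem basic_vanish' (hB : Basic Γ τ b f d θ) {w : V ≃ₗ[ℂ] V} (hw : w ∈ Γ) {v : V} (hv : w (τ v) = v) {i : ι}
    (hi : θ i ≠ 1) : evP b v (f i) = 0 := by
  have h1 := evP_trP b b τ (τ v) (f i)
  rw [hB.eig i, map_smul, smul_eq_mul, LinearEquiv.symm_apply_apply] at h1
  have h2 := evP_trP b b w v (f i)
  rw [hB.inv i w hw] at h2
  have h3' : w.symm v = τ v := by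
    rw [LinearEquiv.symm_apply_eq, hv]
  rw [h3'] at h2
  rw [← h2] at h1
  have h3 : (θ i - 1) * evP b v (f i) = 0 := by
    rw [sub_mul, h1, one_mul, sub_self]
  rcases mul_eq_zero.1 h3 with h4 | h4
  · exact absurd (sub_eq_zero.1 h4) hi
  · exact h4

/-- the number of `i` with `θ_i = 1` is `dim V^τ` (the differentials at a free `τ`-fixed vector are a basis of `V*` of
`τ`-eigenvectors). -/
theorem basic_card (hB : Basic Γ τ b f d θ) {u : V} (hu : ∀ g ∈ Γ, g u = u → g = 1) (hτu : τ u = u) :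
    Nat.card {i // θ i = 1} = finrank ℂ (fixSub τ) := by
  classical
  have hli := basic_linInd hB hu
  have hsp := basic_span_dfl hB hu
  set D : ι → Dual ℂ V := fun i => dfl b u (f i) with hD
  have htau : ∀ i v, D i (τ.symm v) = θ i * D i v := by
    intro i v
    have h1 := dfl_trP b b τ u (f i)
    rw [hτu, hB.eig i, spr_dfl_smul] at h1
    have h2 := congrArg (fun F : Dual ℂ V => F v) h1
    simp only [LinearMap.smul_apply, smul_eq_mul, LinearMap.comp_apply, LinearEquiv.coe_coe] at h2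
    exact h2.symm
  have hker : ∀ v : V, (∀ i, D i v = 0) → v = 0 := by
    intro v hv
    have h1 : ∀ F : Dual ℂ V, F v = 0 := by
      intro F
      have hF : F ∈ Submodule.span ℂ (Set.range D) := by rw [hsp]; trivial
      induction hF using Submodule.span_induction with
      | mem x hx => obtain ⟨i, rfl⟩ := hx; exact hv i
      | zero => rfl
      | add x y hx hy ihx ihy => rw [LinearMap.add_apply, ihx, ihy, add_zero]
      | smul c x hx ih => rw [LinearMap.smul_apply, ih, smul_zero]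
    exact (Module.forall_dual_apply_eq_zero_iff ℂ v).1 h1
  have hfix : ∀ v, v ∈ fixSub τ ↔ ∀ i, θ i ≠ 1 → D i v = 0 := by
    intro v
    constructor
    · intro hv i hi
      have hv' : τ v = v := hv
      have h1 := htau i v
      have h2 : τ.symm v = v := by rw [LinearEquiv.symm_apply_eq, hv']
      rw [h2] at h1
      have h3 : (θ i - 1) * D i v = 0 := by rw [sub_mul, ← h1, one_mul, sub_self]
      rcases mul_eq_zero.1 h3 with h4 | h4
      · exact absurd (sub_eq_zero.1 h4) hi
      · exact h4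
    · intro h
      have h1 : τ.symm v - v = 0 := by
        apply hker
        intro i
        rw [map_sub, htau]
        by_cases hi : θ i = 1
        · rw [hi, one_mul, sub_self]
        · rw [h i hi, mul_zero, sub_self]
      have h2 : τ.symm v = v := sub_eq_zero.1 h1
      show τ v = v
      have h3 := congrArg τ h2
      rw [LinearEquiv.apply_symm_apply] at h3
      exact h3.symm
  -- the linear map `v ↦ (D i v)` is bijective
  let Φ : V →ₗ[ℂ] (ι → ℂ) := LinearMap.pi D
  have hΦi : Function.Injective Φ := by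
    rw [← LinearMap.ker_eq_bot, LinearMap.ker_eq_bot']
    intro v hv
    exact hker v (fun i => congrFun hv i)
  have hΦs : Function.Surjective Φ := by
    have hdim : finrank ℂ V = finrank ℂ (ι → ℂ) := by
      rw [Module.finrank_fintype_fun_eq_card, Module.finrank_eq_card_basis b]
    exact (LinearMap.injective_iff_surjective_of_finrank_eq_finrank hdim).1 hΦi
  let L : ↥(fixSub τ) →ₗ[ℂ] ({i // θ i = 1} → ℂ) := LinearMap.pi (fun i => (D i.1).comp (fixSub τ).subtype)
  have hLi : Function.Injective L := by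
    rw [← LinearMap.ker_eq_bot, LinearMap.ker_eq_bot']
    intro v hv
    apply Subtype.ext
    apply hker
    intro i
    by_cases hi : θ i = 1
    · exact congrFun hv ⟨i, hi⟩
    · exact (hfix v.1).1 v.2 i hi
  have hLs : Function.Surjective L := by
    intro c
    obtain ⟨v, hv⟩ := hΦs (fun i => if hi : θ i = 1 then c ⟨i, hi⟩ else 0)
    have hv' : ∀ i, D i v = if hi : θ i = 1 then c ⟨i, hi⟩ else 0 := fun i => congrFun hv i
    refine ⟨⟨v, (hfix v).2 (fun i hi => by rw [hv' i, dif_neg hi])⟩, ?_⟩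
    ext i
    show D i.1 v = c i
    rw [hv' i.1, dif_pos i.2]
  have e := LinearEquiv.ofBijective L ⟨hLi, hLs⟩
  rw [e.finrank_eq, Module.finrank_fintype_fun_eq_card, Nat.card_eq_fintype_card]

/-- the only common zero of the `f_i` is `0`. -/
theorem basic_zero (hB : Basic Γ τ b f d θ) {v : V} (h : ∀ i, evP b v (f i) = 0) : v = 0 := by
  have h0 : ∀ i, evP b v (f i) = evP b 0 (f i) := by
    intro i
    rw [h i]
    have h1 := evP_smul b (hB.hom i) 0 (0 : V)
    rw [zero_smul, zero_pow (hB.pos i).ne', zero_mul] at h1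
    exact h1.symm
  obtain ⟨g, hg, h1⟩ := orbit_of_inv_eq Γ b (fun p hp => spr_inv_vals hB h0 hp)
  exact g.map_eq_zero_iff.1 h1.symm

/-- `V^τ → ℂ^{θ_i = 1}` is surjective (by `homog_system_surj`). -/
theorem basic_surj (hB : Basic Γ τ b f d θ) {u : V} (hu : ∀ g ∈ Γ, g u = u → g = 1) (hτu : τ u = u)
    (c : ι → ℂ) (hc : ∀ i, θ i ≠ 1 → c i = 0) : ∃ v ∈ fixSub τ, ∀ i, evP b v (f i) = c i := by
  classical
  have hcard := basic_card hB hu hτu
  rw [Nat.card_eq_fintype_card] at hcard
  let bb : Basis {i // θ i = 1} ℂ ↥(fixSub τ) := (Module.finBasis ℂ ↥(fixSub τ)).reindex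
    ((finCongr hcard.symm).trans (Fintype.equivFin {i // θ i = 1}).symm)
  let φ : {i // θ i = 1} → MvPolynomial {i // θ i = 1} ℂ := fun i => pbP bb b (fixSub τ).subtype (f i.1)
  have hev : ∀ (x : {i // θ i = 1} → ℂ) (i : {i // θ i = 1}),
      eval x (φ i) = evP b ((bb.equivFun.symm x : ↥(fixSub τ)) : V) (f i.1) := by
    intro x i
    have h1 := evP_pbP bb b (fixSub τ).subtype (bb.equivFun.symm x) (f i.1)
    rw [Submodule.subtype_apply] at h1
    rw [← h1, evP]
    have h2 : (fun j => bb.repr (bb.equivFun.symm x) j) = x := by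
      have := bb.equivFun.apply_symm_apply x
      exact this
    rw [h2]
    rfl
  obtain ⟨x, hx⟩ := homog_system_surj φ
    (fun i => ⟨d i.1, hB.pos i.1, pbP_isHomogeneous bb b _ (hB.hom i.1)⟩)
    (by
      intro x hx
      have h1 : ((bb.equivFun.symm x : ↥(fixSub τ)) : V) = 0 := by
        apply basic_zero hB
        intro i
        by_cases hi : θ i = 1
        · rw [← hx ⟨i, hi⟩, hev]
        · exact basic_vanish hB (bb.equivFun.symm x).2 hi
      have h2 : bb.equivFun.symm x = 0 := Subtype.ext h1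
      exact bb.equivFun.symm.map_eq_zero_iff.1 h2)
    (fun i => c i.1)
  refine ⟨_, (bb.equivFun.symm x).2, fun i => ?_⟩
  by_cases hi : θ i = 1
  · rw [← hev x ⟨i, hi⟩, hx]
  · rw [basic_vanish hB (bb.equivFun.symm x).2 hi, hc i hi]

/-- two vectors with the same values of the `f_i` are in the same orbit. -/
theorem basic_orbit (hB : Basic Γ τ b f d θ) {v v' : V} (h : ∀ i, evP b v (f i) = evP b v' (f i)) :
    ∃ g ∈ Γ, v' = g v := by
  exact orbit_of_inv_eq Γ b (fun p hp => spr_inv_vals hB h hp)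

/-- (3.7): if `w τ` (`w ∈ Γ`) fixes a vector `v` with trivial stabiliser and `τ` has a fixed vector with trivial stabiliser,
then `w τ = x τ x⁻¹` and `v ∈ x V^τ` for some `x ∈ Γ`. -/
theorem springer_conj (hB : Basic Γ τ b f d θ) (hτ : Normalizes τ Γ) {u : V} (hu : ∀ g ∈ Γ, g u = u → g = 1)
    (hτu : τ u = u) {w : V ≃ₗ[ℂ] V} (hw : w ∈ Γ) {v : V} (hv : ∀ g ∈ Γ, g v = v → g = 1) (hwv : w (τ v) = v) :
    ∃ x ∈ Γ, w * τ = x * τ * x⁻¹ ∧ ∃ u' ∈ fixSub τ, v = x u' := by
  obtain ⟨u', hu', h1⟩ := basic_surj hB hu hτu (fun i => evP b v (f i))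
    (fun i hi => basic_vanish' hB hw hwv hi)
  obtain ⟨x, hx, hxv⟩ := basic_orbit hB h1
  have hτu' : τ u' = u' := hu'
  have hg : x⁻¹ * w * (τ * x * τ⁻¹) ∈ Γ :=
    Γ.mul_mem (Γ.mul_mem (Γ.inv_mem hx) hw) ((hτ x).1 hx)
  have hgu : (x⁻¹ * w * (τ * x * τ⁻¹)) u' = u' := by
    have e1 : (τ⁻¹ : V ≃ₗ[ℂ] V) u' = u' := by
      have : (τ⁻¹ * τ) u' = u' := by rw [inv_mul_cancel]; rfl
      rw [LinearEquiv.mul_apply, hτu'] at this
      exact this
    rw [LinearEquiv.mul_apply, LinearEquiv.mul_apply, LinearEquiv.mul_apply, LinearEquiv.mul_apply, e1, ← hxv, hwv]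
    rw [hxv, ← LinearEquiv.mul_apply, inv_mul_cancel]
    rfl
  have hfree : ∀ g ∈ Γ, g u' = u' → g = 1 := by
    intro g hg hgu
    have h2 := hv (x * g * x⁻¹) (Γ.mul_mem (Γ.mul_mem hx hg) (Γ.inv_mem hx)) (by
      have e1 : (x⁻¹ : V ≃ₗ[ℂ] V) v = u' := by
        rw [hxv, ← LinearEquiv.mul_apply, inv_mul_cancel]; rfl
      rw [LinearEquiv.mul_apply, LinearEquiv.mul_apply, e1, hgu, hxv])
    have h3 : g = x⁻¹ * (x * g * x⁻¹) * x := by group
    rw [h3, h2]
    group
  have h4 := hfree _ hg hgu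
  refine ⟨x, hx, ?_, u', hu', hxv⟩
  have h5 : w * τ = x * (x⁻¹ * w * (τ * x * τ⁻¹)) * τ * x⁻¹ := by group
  rw [h5, h4, mul_one]

end

end Pool.Agent.CM64
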