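import Pool.Agent.LibCM64.Defs

/-! The statement: parameters, the rational Cherednik algebra, its centre `Z_k` (the functions on the Calogero-Moser space
`𝒵_k`), induced automorphisms, the Poisson bracket, the fixed locus, `V^τ` and `W^τ`, and Q1. -/

set_option linter.unusedSectionVars false

namespace Pool.Agent.CM64

open Module

section

variable {V : Type} [AddCommGroup V] [Module ℂ V] {W : Subgroup (V ≃ₗ[ℂ] V)}
variable {A B : Type} [Ring A] [Algebra ℂ A] [Ring B] [Algebra ℂ B]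

/-- `A` and `B` are algebras with generators `s`, `r` indexed by `V*`, `V`, `W` and `t`. `φ` is the homomorphism induced by
`g ∈ GL(V)`: `x ↦ x ∘ g⁻¹` (`x ∈ V*`), `y ↦ g y` (`y ∈ V`), `w ↦ g w g⁻¹` (`w ∈ W`), `t ↦ t`. -/
structure IsInd (g : V ≃ₗ[ℂ] V) (s : Gen W → A) (r : Gen W → B) (φ : A →ₐ[ℂ] B) : Prop where
  x : ∀ f : Dual ℂ V, φ (s (Gen.x f)) = r (Gen.x (f.comp (g.symm : V →ₗ[ℂ] V)))
  y : ∀ v : V, φ (s (Gen.y v)) = r (Gen.y (g v))
  w : ∀ h h' : W, (h' : V ≃ₗ[ℂ] V) = g * h * g⁻¹ → φ (s (Gen.w h)) = r (Gen.w h')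
  t : φ (s Gen.t) = r Gen.t

/-- `z'` is the image of `z` under the automorphism of the centre of `A` induced by `g`. -/
def Act (s : Gen W → A) (g : V ≃ₗ[ℂ] V) (z z' : Subalgebra.center ℂ A) : Prop :=
  ∃ φ : A →ₐ[ℂ] A, IsInd g s s φ ∧ φ z = z'

/-- The Poisson bracket on the centre of `A`, `A` being the specialisation at `t = 0` of `B`: `{z,z'} = w` if
`[ẑ,ẑ'] = t ŵ` for some lifts `ẑ, ẑ', ŵ` of `z, z', w` to `B`. -/
def Poi (s : Gen W → A) (r : Gen W → B) (z z' w : Subalgebra.center ℂ A) : Prop :=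
  ∃ π : B →ₐ[ℂ] A, IsInd 1 r s π ∧ ∃ a a' b : B, π a = z ∧ π a' = z' ∧ π b = w ∧ a * a' - a' * a = r Gen.t * b

/-- The ideal generated by the `z - τ(z)`: the ideal of the locus fixed by `τ`. -/
def FixIdeal (s : Gen W → A) (τ : V ≃ₗ[ℂ] V) : Ideal (Subalgebra.center ℂ A) :=
  Ideal.span {u | ∃ z z', Act s τ z z' ∧ u = z - z'}

/-- The prime ideal `p` is minimal over `I`, and the other minimal primes over `I` have smaller dimension: `p` is the ideal
of the (unique) irreducible component of maximal dimension of the zero locus of `I`. -/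
structure IsMaxC {Z : Type} [CommRing Z] (I p : Ideal Z) : Prop where
  minimal : p ∈ I.minimalPrimes
  max : ∀ q ∈ I.minimalPrimes, q ≠ p → ringKrullDim (Z ⧸ q) < ringKrullDim (Z ⧸ p)

variable {V' : Type} [AddCommGroup V'] [Module ℂ V'] {W' : Subgroup (V' ≃ₗ[ℂ] V')}
variable {A' B' : Type} [Ring A'] [Algebra ℂ A'] [Ring B'] [Algebra ℂ B']

/-- `φ : Z(A) → Z(A')` is a homomorphism of algebras whose kernel is the ideal of the component of maximal dimension of the
locus fixed by `τ`; it is equivariant for `ℂ^×` (the scalars of `GL(V)` and `GL(V')`) and compatible with the Poisson brackets.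
(The Poisson bracket of the restrictions to the component of `τ`-invariant functions `z`, `z'` is the restriction of `{z,z'}`,
and every function on the component is the restriction of a `τ`-invariant one.) -/
structure IsFixMap (τ : V ≃ₗ[ℂ] V) (s : Gen W → A) (r : Gen W → B) (s' : Gen W' → A') (r' : Gen W' → B')
    (φ : Subalgebra.center ℂ A →ₐ[ℂ] Subalgebra.center ℂ A') : Prop where
  ker : IsMaxC (FixIdeal s τ) (RingHom.ker φ)
  dil : ∀ (c : ℂ) (g : V ≃ₗ[ℂ] V) (g' : V' ≃ₗ[ℂ] V'), (∀ v, g v = c • v) → (∀ v, g' v = c • v) →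
    ∀ z z', Act s g z z' → Act s' g' (φ z) (φ z')
  poi : ∀ z z' w, Act s τ z z → Act s τ z' z' → Poi s r z z' w → Poi s' r' (φ z) (φ z') (φ w)

/-- The relations `Poi` and `Act` are well defined: the Poisson bracket of two central elements exists and is unique, and
every `g ∈ GL(V)` normalising `W` and fixing `k` acts on the centre. -/
structure WellD (k : Submodule ℂ V → ℤ → ℂ) (s : Gen W → A) (r : Gen W → B) : Prop where
  poi : ∀ z z', ∃! w, Poi s r z z' w
  act : ∀ g : V ≃ₗ[ℂ] V, Normalizes g W → FixesParam g k → ∀ z, ∃! z', Act s g z z'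

/-- The component of maximal dimension of the locus fixed by `τ` is isomorphic to `Spec Z(A')`, `ℂ^×`-equivariantly and as
a Poisson variety. -/
structure FixIso (τ : V ≃ₗ[ℂ] V) (k : Submodule ℂ V → ℤ → ℂ) (l : Submodule ℂ V' → ℤ → ℂ) (s : Gen W → A)
    (r : Gen W → B) (s' : Gen W' → A') (r' : Gen W' → B') : Prop where
  wd : WellD k s r
  wd' : WellD l s' r'
  iso : ∃ φ : Subalgebra.center ℂ A →ₐ[ℂ] Subalgebra.center ℂ A', IsFixMap τ s r s' r' φ ∧ Function.Surjective φ

end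

section

variable {V : Type} [AddCommGroup V] [Module ℂ V]

/-- The parameters: functions `k_{H,j}`, `H` a reflecting hyperplane and `j` an integer modulo `e_H`, which are constant on
`W`-orbits of hyperplanes (and `0` by convention if `H` is not a reflecting hyperplane). -/
structure IsParam (W : Subgroup (V ≃ₗ[ℂ] V)) (k : Submodule ℂ V → ℤ → ℂ) : Prop where
  zero : ∀ H, H ∉ arr W → ∀ j, k H j = 0
  inv : ∀ g ∈ W, ∀ H j, k (H.map (g : V →ₗ[ℂ] V)) j = k H j
  per : ∀ H j, k H (j + eH W H) = k H j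

variable {V' : Type} [AddCommGroup V'] [Module ℂ V']

/-- `λ` is a linear map from the parameters of `(V,W)` to those of `(V',W')`. -/
structure IsLin (W : Subgroup (V ≃ₗ[ℂ] V)) (W' : Subgroup (V' ≃ₗ[ℂ] V'))
    (lam : (Submodule ℂ V → ℤ → ℂ) → Submodule ℂ V' → ℤ → ℂ) : Prop where
  maps : ∀ k, IsParam W k → IsParam W' (lam k)
  lin : ∀ (a : ℂ) (k₁ k₂ k₃ : Submodule ℂ V → ℤ → ℂ), IsParam W k₁ → IsParam W k₂ →
    (∀ H j, k₃ H j = k₁ H j + a * k₂ H j) → ∀ H j, lam k₃ H j = lam k₁ H j + a * lam k₂ H j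

variable (W : Subgroup (V ≃ₗ[ℂ] V)) (τ : V ≃ₗ[ℂ] V)

/-- the group (generated by) the restrictions to `V' ⊂ V` of the `w ∈ W` with `w τ = τ w`. -/
def Restr (i : V' →ₗ[ℂ] V) : Subgroup (V' ≃ₗ[ℂ] V') :=
  Subgroup.closure {g | ∃ w ∈ W, w * τ = τ * w ∧ ∀ u, i (g u) = w (i u)}

end

section

variable {V : Type} [AddCommGroup V] [Module ℂ V]
variable (W : Subgroup (V ≃ₗ[ℂ] V)) [Finite W] (k : Submodule ℂ V → ℤ → ℂ) (P : Prop)

/-- The rational Cherednik algebra: `CA W k False` is the algebra over `ℂ[t]`, `CA W k True` is `𝐇_k`, its specialisation at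
`t = 0`. -/
def CA : Type := RingQuot (Rel W k P)

noncomputable instance CA.instRing : Ring (CA W k P) := (inferInstance : Ring (RingQuot (Rel W k P)))

noncomputable instance CA.instAlgebra : Algebra ℂ (CA W k P) := (inferInstance : Algebra ℂ (RingQuot (Rel W k P)))

/-- the generators. -/
noncomputable def CA.gen (s : Gen W) : CA W k P := RingQuot.mkAlgHom ℂ (Rel W k P) (FreeAlgebra.ι ℂ s)

variable (τ : V ≃ₗ[ℂ] V)

/-- The fixed space `V^τ`. -/
def FS : Type := ↥(fixSub τ)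

instance FS.instAddCommGroup : AddCommGroup (FS τ) := (inferInstance : AddCommGroup ↥(fixSub τ))

instance FS.instModule : Module ℂ (FS τ) := (inferInstance : Module ℂ ↥(fixSub τ))

/-- the inclusion `V^τ → V`. -/
def FS.val : FS τ →ₗ[ℂ] V := (fixSub τ).subtype

variable (W : Subgroup (V ≃ₗ[ℂ] V))

/-- `W^τ` acting on `V^τ`. -/
def FG : Subgroup (FS τ ≃ₗ[ℂ] FS τ) := Restr W τ (FS.val τ)

theorem FG_eq : FG τ W = fixGrp W τ := by
  apply le_antisymm
  · exact (Subgroup.closure_le (fixGrp W τ)).2 fun g hg => hg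
  · intro g hg
    exact Subgroup.subset_closure hg

theorem fixGrp_finite' [Finite W] : Finite (fixGrp W τ) := by
  have hc : ∀ g : fixGrp W τ, ∃ w : W, ∀ u : ↥(fixSub τ),
      (((g : ↥(fixSub τ) ≃ₗ[ℂ] ↥(fixSub τ)) u : ↥(fixSub τ)) : V) = (w : V ≃ₗ[ℂ] V) (u : V) := by
    intro g
    obtain ⟨w, hw, _, h⟩ := g.2
    exact ⟨⟨w, hw⟩, h⟩
  choose F hF using hc
  refine Finite.of_injective F fun g g' h => ?_
  apply Subtype.ext
  apply LinearEquiv.ext
  intro u
  apply Subtype.ext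
  rw [hF g u, hF g' u, h]

instance FG.instFinite [Finite W] : Finite (FG τ W) := by
  rw [FG_eq]
  exact fixGrp_finite' τ W

variable (W : Subgroup (V ≃ₗ[ℂ] V)) [Finite W] (τ : V ≃ₗ[ℂ] V)

/-- Q1 for `(V,W,τ)`: there is a linear map `λ` such that for every `τ`-stable `k` the component of maximal dimension
of `𝒵_k(V,W)^τ` is isomorphic to `𝒵_{λ(k)}(V^τ,W^τ)`, `ℂ^×`-equivariantly and as Poisson varieties. -/
def QS : Prop :=
  ∃ lam, IsLin W (FG τ W) lam ∧ ∀ k, IsParam W k → FixesParam τ k →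
    FixIso τ k (lam k) (CA.gen W k True) (CA.gen W k False) (CA.gen (FG τ W) (lam k) True)
      (CA.gen (FG τ W) (lam k) False)

end

end Pool.Agent.CM64
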