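import Pool.Agent.LibCM64.St
import Pool.Agent.LibCM64.StDefs
import Pool.Agent.LibCM64.PB

/-! The definitions of `St` agree with those of `StDefs`. -/

set_option linter.unusedSectionVars false
set_option maxSynthPendingDepth 3

namespace Pool.Agent.CM64

open Module

section

variable {V : Type} [AddCommGroup V] [Module ℂ V] [FiniteDimensional ℂ V]
variable (W : Subgroup (V ≃ₗ[ℂ] V)) [Finite W] (k : Submodule ℂ V → ℤ → ℂ) (P : Prop)

/-- the generators (as elements of `Ch`). -/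
noncomputable def gn (s : Gen W) : Ch W k P := RingQuot.mkAlgHom ℂ (Rel W k P) (FreeAlgebra.ι ℂ s)

theorem gn_x (f : Dual ℂ V) : gn W k P (Gen.x f) = cx W k P f := rfl
theorem gn_y (v : V) : gn W k P (Gen.y v) = cy W k P v := rfl
theorem gn_w (g : W) : gn W k P (Gen.w g) = cw W k P g := rfl
theorem gn_t : gn W k P Gen.t = ct W k P := rfl

theorem isInd_ind (g : V ≃ₗ[ℂ] V) (hg : Normalizes g W) (hk : FixesParam g k) :
    IsInd g (gn W k P) (gn W k P) (ind W k P g hg hk) := by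
  refine ⟨fun f => ?_, fun v => ?_, fun h h' e => ?_, ?_⟩
  · rw [gn_x, gn_x, ind_cx]
  · rw [gn_y, gn_y, ind_cy]
  · rw [gn_w, gn_w, ind_cw]
    congr 1
    exact Subtype.ext e.symm
  · rw [gn_t, ind_ct]

theorem isInd_iff (g : V ≃ₗ[ℂ] V) (hg : Normalizes g W) (hk : FixesParam g k) (φ : Ch W k P →ₐ[ℂ] Ch W k P) :
    IsInd g (gn W k P) (gn W k P) φ ↔ φ = ind W k P g hg hk := by
  constructor
  · intro h
    have h' := isInd_ind W k P g hg hk
    refine Ch_hom_ext W k P (fun f => ?_) (fun v => ?_) (fun u => ?_) ?_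
    · exact (h.x f).trans (h'.x f).symm
    · exact (h.y v).trans (h'.y v).symm
    · exact (h.w u ⟨g * u * g⁻¹, (hg u).1 u.2⟩ rfl).trans (h'.w u ⟨g * u * g⁻¹, (hg u).1 u.2⟩ rfl).symm
    · exact h.t.trans h'.t.symm
  · rintro rfl
    exact isInd_ind W k P g hg hk

theorem isInd_spec : IsInd 1 (gn W k False) (gn W k True) (spec W k) := by
  refine ⟨fun f => ?_, fun v => ?_, fun h h' e => ?_, ?_⟩
  · exact spec_mk W k _
  · exact spec_mk W k _
  · have : h' = h := by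
      apply Subtype.ext
      rw [e, one_mul, inv_one, mul_one]
    rw [this]
    exact spec_mk W k _
  · exact spec_mk W k _

theorem isInd_spec_iff (π : Ch W k False →ₐ[ℂ] Ch W k True) :
    IsInd 1 (gn W k False) (gn W k True) π ↔ π = spec W k := by
  constructor
  · intro h
    have h' := isInd_spec W k
    refine Ch_hom_ext W k False (fun f => ?_) (fun v => ?_) (fun u => ?_) ?_
    · exact (h.x f).trans (h'.x f).symm
    · exact (h.y v).trans (h'.y v).symm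
    · exact (h.w u u (by rw [one_mul, inv_one, mul_one])).trans
        (h'.w u u (by rw [one_mul, inv_one, mul_one])).symm
    · exact h.t.trans h'.t.symm
  · rintro rfl
    exact isInd_spec W k

theorem act_iff (g : V ≃ₗ[ℂ] V) (hg : Normalizes g W) (hk : FixesParam g k) (z z' : ZZ W k) :
    Act (gn W k True) g z z' ↔ z' = indZ W k g hg hk z := by
  constructor
  · rintro ⟨φ, hφ, h⟩
    rw [isInd_iff W k True g hg hk] at hφ
    subst hφ
    apply Subtype.ext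
    exact h.symm
  · rintro rfl
    exact ⟨_, isInd_ind W k True g hg hk, rfl⟩

theorem poi_iff (z z' w : ZZ W k) : Poi (gn W k True) (gn W k False) z z' w ↔ IsPB W k z z' w := by
  constructor
  · rintro ⟨π, hπ, a, a', c, h1, h2, h3, h4⟩
    rw [isInd_spec_iff W k] at hπ
    subst hπ
    exact ⟨a, a', c, h1, h2, h3, h4⟩
  · rintro ⟨a, a', c, h1, h2, h3, h4⟩
    exact ⟨_, isInd_spec W k, a, a', c, h1, h2, h3, h4⟩

theorem fixIdeal_eq (τ : V ≃ₗ[ℂ] V) (hτ : Normalizes τ W) (hk : FixesParam τ k) :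
    FixIdeal (gn W k True) τ = Itau W k τ hτ hk := by
  unfold FixIdeal Itau
  congr 1
  ext u
  constructor
  · rintro ⟨z, z', h, rfl⟩
    rw [act_iff W k τ hτ hk] at h
    exact ⟨z, by rw [h]⟩
  · rintro ⟨z, rfl⟩
    exact ⟨z, _, (act_iff W k τ hτ hk z _).2 rfl, rfl⟩

theorem isMaxC_iff (τ : V ≃ₗ[ℂ] V) (hτ : Normalizes τ W) (hk : FixesParam τ k) (p : Ideal (ZZ W k)) :
    IsMaxC (FixIdeal (gn W k True) τ) p ↔ IsMaxComp W τ k hτ hk p := by
  rw [fixIdeal_eq W k τ hτ hk]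
  exact ⟨fun h => ⟨h.1, h.2⟩, fun h => ⟨h.1, h.2⟩⟩

end

section

variable {V : Type} [AddCommGroup V] [Module ℂ V] [FiniteDimensional ℂ V]
variable (W : Subgroup (V ≃ₗ[ℂ] V)) [Finite W] (k : Submodule ℂ V → ℤ → ℂ) (τ : V ≃ₗ[ℂ] V)

private theorem eq_scal {U : Type} [AddCommGroup U] [Module ℂ U] {c : ℂˣ} {g : U ≃ₗ[ℂ] U}
    (h : ∀ v, g v = (c : ℂ) • v) : g = scal U c := LinearEquiv.ext h

theorem isFixMap_iff (hτ : Normalizes τ W) (hk : FixesParam τ k) (l : Submodule ℂ ↥(fixSub τ) → ℤ → ℂ)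
    (φ : ZZ W k →ₐ[ℂ] ZZ (fixGrp W τ) l) :
    IsFixMap τ (gn W k True) (gn W k False) (gn (fixGrp W τ) l True) (gn (fixGrp W τ) l False) φ ↔
      IsMaxComp W τ k hτ hk (RingHom.ker φ) ∧ IsCMMap W τ k hτ hk (RingHom.ker φ) l φ := by
  constructor
  · intro h
    refine ⟨(isMaxC_iff W k τ hτ hk _).1 h.ker, rfl, fun c z => ?_, fun z z' w h1 h2 h3 => ?_⟩
    · have h1 := h.dil (((c⁻¹ : ℂˣ) : ℂ)) (scal V c⁻¹) (scal ↥(fixSub τ) c⁻¹) (fun v => rfl) (fun v => rfl) z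
        (dilZ W k c z) ((act_iff W k _ (normalizes_scal W c⁻¹) (fixesParam_scal k c⁻¹) _ _).2 rfl)
      exact (act_iff (fixGrp W τ) l _ (normalizes_scal _ c⁻¹) (fixesParam_scal l c⁻¹) _ _).1 h1
    · exact (poi_iff (fixGrp W τ) l _ _ _).1 (h.poi z z' w ((act_iff W k τ hτ hk _ _).2 h1.symm)
        ((act_iff W k τ hτ hk _ _).2 h2.symm) ((poi_iff W k _ _ _).2 h3))
  · rintro ⟨h0, h⟩
    refine ⟨(isMaxC_iff W k τ hτ hk _).2 h0, fun c g g' hg hg' z z' hz => ?_, fun z z' w h1 h2 h3 => ?_⟩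
    · obtain ⟨c', h1, h2⟩ : ∃ c' : ℂˣ, (∀ v, g v = (c' : ℂ) • v) ∧ ∀ v, g' v = (c' : ℂ) • v := by
        by_cases hc : c = 0
        · subst hc
          have hV : ∀ v : V, v = 0 := by
            intro v
            have h1 : g v = 0 := by rw [hg, zero_smul]
            exact (LinearEquiv.map_eq_zero_iff g).1 h1
          refine ⟨1, fun v => ?_, fun v => ?_⟩
          · rw [hV (g v), hV v, smul_zero]
          · apply Subtype.ext
            exact (hV _).trans (hV _).symm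
        · exact ⟨Units.mk0 c hc, hg, hg'⟩
      obtain ⟨d, rfl⟩ : ∃ d : ℂˣ, c' = d⁻¹ := ⟨c'⁻¹, (inv_inv c').symm⟩
      have e1 := eq_scal h1
      have e2 := eq_scal h2
      subst e1
      subst e2
      rw [act_iff W k _ (normalizes_scal W d⁻¹) (fixesParam_scal k d⁻¹)] at hz
      rw [act_iff (fixGrp W τ) l _ (normalizes_scal _ d⁻¹) (fixesParam_scal l d⁻¹), hz]
      exact h.dil d z
    · rw [poi_iff]
      exact h.pb z z' w ((act_iff W k τ hτ hk _ _).1 h1).symm ((act_iff W k τ hτ hk _ _).1 h2).symm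
        ((poi_iff W k _ _ _).1 h3)

end

section

variable {V : Type} [AddCommGroup V] [Module ℂ V]

theorem isParam_iff {W : Subgroup (V ≃ₗ[ℂ] V)} {k : Submodule ℂ V → ℤ → ℂ} : IsParam W k ↔ k ∈ Param W :=
  ⟨fun h => ⟨h.1, h.2, h.3⟩, fun h => ⟨h.1, h.2.1, h.2.2⟩⟩

variable {V' : Type} [AddCommGroup V'] [Module ℂ V']

open Classical in
/-- from linear maps to functions. -/
noncomputable def toFn {W : Subgroup (V ≃ₗ[ℂ] V)} {W' : Subgroup (V' ≃ₗ[ℂ] V')}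
    (lam : ↥(Param W) →ₗ[ℂ] ↥(Param W')) (k : Submodule ℂ V → ℤ → ℂ) : Submodule ℂ V' → ℤ → ℂ :=
  if h : k ∈ Param W then (lam ⟨k, h⟩ : Submodule ℂ V' → ℤ → ℂ) else 0

theorem toFn_of {W : Subgroup (V ≃ₗ[ℂ] V)} {W' : Subgroup (V' ≃ₗ[ℂ] V')}
    (lam : ↥(Param W) →ₗ[ℂ] ↥(Param W')) {k : Submodule ℂ V → ℤ → ℂ} (h : k ∈ Param W) :
    toFn lam k = (lam ⟨k, h⟩ : Submodule ℂ V' → ℤ → ℂ) := by
  unfold toFn
  rw [dif_pos h]

theorem isLin_toFn {W : Subgroup (V ≃ₗ[ℂ] V)} {W' : Subgroup (V' ≃ₗ[ℂ] V')}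
    (lam : ↥(Param W) →ₗ[ℂ] ↥(Param W')) : IsLin W W' (toFn lam) := by
  constructor
  · intro k hk
    rw [isParam_iff] at hk ⊢
    rw [toFn_of lam hk]
    exact (lam ⟨k, hk⟩).2
  · intro a k₁ k₂ k₃ h1 h2 h3 H j
    rw [isParam_iff] at h1 h2
    have e : k₃ = ((⟨k₁, h1⟩ + a • ⟨k₂, h2⟩ : ↥(Param W)) : Submodule ℂ V → ℤ → ℂ) := by
      funext H j
      exact h3 H j
    have h4 : k₃ ∈ Param W := by
      rw [e]
      exact Subtype.property _
    have e' : (⟨k₃, h4⟩ : ↥(Param W)) = ⟨k₁, h1⟩ + a • ⟨k₂, h2⟩ := Subtype.ext e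
    rw [toFn_of lam h4, toFn_of lam h1, toFn_of lam h2, e', map_add, map_smul]
    rfl

/-- from functions to linear maps. -/
theorem exists_lin {W : Subgroup (V ≃ₗ[ℂ] V)} {W' : Subgroup (V' ≃ₗ[ℂ] V')}
    {lam : (Submodule ℂ V → ℤ → ℂ) → Submodule ℂ V' → ℤ → ℂ} (h : IsLin W W' lam) :
    ∃ lam' : ↥(Param W) →ₗ[ℂ] ↥(Param W'), ∀ k : ↥(Param W), (lam' k : Submodule ℂ V' → ℤ → ℂ) = lam k := by
  have h0 : ∀ H j, lam 0 H j = 0 := by
    intro H j
    have h1 : IsParam W (0 : Submodule ℂ V → ℤ → ℂ) := isParam_iff.2 (Param W).zero_mem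
    have h2 := h.lin 1 0 0 0 h1 h1 (fun H j => by simp) H j
    rw [one_mul] at h2
    exact left_eq_add.1 h2
  refine ⟨{
    toFun := fun k => ⟨lam k, isParam_iff.1 (h.maps k (isParam_iff.2 k.2))⟩
    map_add' := fun k k' => ?_
    map_smul' := fun c k => ?_ }, fun k => rfl⟩
  · apply Subtype.ext
    funext H j
    have := h.lin 1 k k' (k + k' : ↥(Param W)) (isParam_iff.2 k.2) (isParam_iff.2 k'.2)
      (fun H j => by rw [one_mul]; rfl) H j
    rw [one_mul] at this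
    exact this
  · apply Subtype.ext
    funext H j
    have := h.lin c 0 k (c • k : ↥(Param W)) (isParam_iff.2 (Param W).zero_mem) (isParam_iff.2 k.2)
      (fun H j => by
        rw [show (0 : Submodule ℂ V → ℤ → ℂ) H j = 0 from rfl, zero_add]
        rfl) H j
    rw [h0, zero_add] at this
    exact this

end

section

variable {V : Type} [AddCommGroup V] [Module ℂ V] [FiniteDimensional ℂ V]

theorem wellD_gn {W : Subgroup (V ≃ₗ[ℂ] V)} [Finite W] {k : Submodule ℂ V → ℤ → ℂ} (hk : Adm W k) :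
    WellD k (gn W k True) (gn W k False) := by
  constructor
  · intro z z'
    obtain ⟨w, hw, hu⟩ := existsUnique_isPB W k hk z z'
    exact ⟨w, (poi_iff W k _ _ _).2 hw, fun w' hw' => hu w' ((poi_iff W k _ _ _).1 hw')⟩
  · intro g hg hgk z
    exact ⟨indZ W k g hg hgk z, (act_iff W k g hg hgk _ _).2 rfl, fun z' hz' => (act_iff W k g hg hgk _ _).1 hz'⟩

/-- `QS` for a given group acting on `V^τ`. -/
def QG (W : Subgroup (V ≃ₗ[ℂ] V)) [Finite W] (τ : V ≃ₗ[ℂ] V) (G : Subgroup (FS τ ≃ₗ[ℂ] FS τ)) [Finite G] : Prop :=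
  ∃ lam, IsLin W G lam ∧ ∀ k, IsParam W k → FixesParam τ k →
    FixIso τ k (lam k) (CA.gen W k True) (CA.gen W k False) (CA.gen G (lam k) True) (CA.gen G (lam k) False)

theorem QG_congr {W : Subgroup (V ≃ₗ[ℂ] V)} [Finite W] {τ : V ≃ₗ[ℂ] V} {G G' : Subgroup (FS τ ≃ₗ[ℂ] FS τ)}
    [Finite G] [Finite G'] (e : G = G') : QG W τ G ↔ QG W τ G' := by
  subst e
  exact Iff.rfl

/-- `QG` without `FS`. -/
def QH (W : Subgroup (V ≃ₗ[ℂ] V)) [Finite W] (τ : V ≃ₗ[ℂ] V) : Prop :=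
  ∃ lam : (Submodule ℂ V → ℤ → ℂ) → Submodule ℂ ↥(fixSub τ) → ℤ → ℂ, IsLin W (fixGrp W τ) lam ∧
    ∀ k, IsParam W k → FixesParam τ k →
      FixIso τ k (lam k) (gn W k True) (gn W k False) (gn (fixGrp W τ) (lam k) True)
        (gn (fixGrp W τ) (lam k) False)

theorem QH_iff {W : Subgroup (V ≃ₗ[ℂ] V)} [Finite W] {τ : V ≃ₗ[ℂ] V} (hτ : Normalizes τ W) :
    QH W τ ↔ Q1 W τ hτ := by
  constructor
  · rintro ⟨lam, hlin, h⟩
    obtain ⟨lam', hlam⟩ := exists_lin hlin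
    refine ⟨lam', fun k hk => ?_⟩
    obtain ⟨φ, hφ, hs⟩ := (h k (isParam_iff.2 k.2) hk).iso
    have hl := hlam k
    generalize (lam' k : Submodule ℂ ↥(fixSub τ) → ℤ → ℂ) = l at hl
    subst hl
    have h2 := (isFixMap_iff W k τ hτ hk _ φ).1 hφ
    exact ⟨_, h2.1, φ, h2.2, hs⟩
  · rintro ⟨lam, h⟩
    refine ⟨toFn lam, isLin_toFn lam, fun k hk hkτ => ?_⟩
    rw [isParam_iff] at hk
    rw [toFn_of lam hk]
    obtain ⟨p, hp, φ, hφ, hs⟩ := h ⟨k, hk⟩ hkτ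
    have e : p = RingHom.ker φ := hφ.ker.symm
    subst e
    exact ⟨wellD_gn (adm_of_mem_Param hk), wellD_gn (adm_of_mem_Param (lam ⟨k, hk⟩).2), φ,
      (isFixMap_iff W k τ hτ hkτ _ φ).2 ⟨hp, hφ⟩, hs⟩

theorem QS_iff {W : Subgroup (V ≃ₗ[ℂ] V)} [Finite W] {τ : V ≃ₗ[ℂ] V} (hτ : Normalizes τ W) :
    QS W τ ↔ Q1 W τ hτ := by
  rw [← QH_iff hτ]
  have e := @QG_congr V _ _ _ W _ τ (FG τ W) (fixGrp W τ) _ (fixGrp_finite' τ W) (FG_eq τ W)
  exact e.trans Iff.rfl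

end

end Pool.Agent.CM64
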