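import Pool.Agent.LibCM64.St

/-! The statement that `Spec Z(A')` is the normalisation of the component of maximal dimension of the fixed locus. -/

namespace Pool.Agent.CM64

open Module

section

variable {V : Type} [AddCommGroup V] [Module ℂ V] {W : Subgroup (V ≃ₗ[ℂ] V)}
variable {A B : Type} [Ring A] [Algebra ℂ A] [Ring B] [Algebra ℂ B]
variable {V' : Type} [AddCommGroup V'] [Module ℂ V'] {W' : Subgroup (V' ≃ₗ[ℂ] V')}
variable {A' B' : Type} [Ring A'] [Algebra ℂ A'] [Ring B'] [Algebra ℂ B']

/-- The component of maximal dimension of the locus fixed by `τ` has dimension `2 dim V'`, and `Spec Z(A')` is its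
normalisation, `ℂ^×`-equivariantly and compatibly with the Poisson brackets: `Z(A')` is an integrally closed domain, integral
over the image of `φ` and contained in its fraction field. -/
structure IsNor (τ : V ≃ₗ[ℂ] V) (s : Gen W → A) (r : Gen W → B) (s' : Gen W' → A') (r' : Gen W' → B')
    (φ : Subalgebra.center ℂ A →ₐ[ℂ] Subalgebra.center ℂ A') : Prop where
  map : IsFixMap τ s r s' r' φ
  dim : ringKrullDim (Subalgebra.center ℂ A ⧸ RingHom.ker φ) = ((2 * finrank ℂ V' : ℕ) : WithBot ℕ∞)
  dom : IsDomain (Subalgebra.center ℂ A')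
  clo : IsIntegrallyClosed (Subalgebra.center ℂ A')
  int : ∀ u : Subalgebra.center ℂ A', IsIntegral φ.range u
  bir : ∀ u : Subalgebra.center ℂ A', ∃ z d : Subalgebra.center ℂ A, φ d ≠ 0 ∧ φ d * u = φ z

/-- `Spec Z(A')` is the normalisation of the component of maximal dimension of the locus fixed by `τ`. -/
structure FixNor (τ : V ≃ₗ[ℂ] V) (k : Submodule ℂ V → ℤ → ℂ) (l : Submodule ℂ V' → ℤ → ℂ) (s : Gen W → A)
    (r : Gen W → B) (s' : Gen W' → A') (r' : Gen W' → B') : Prop where
  wd : WellD k s r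
  wd' : WellD l s' r'
  nor : ∃ φ : Subalgebra.center ℂ A →ₐ[ℂ] Subalgebra.center ℂ A', IsNor τ s r s' r' φ

end

section

variable {V : Type} [AddCommGroup V] [Module ℂ V]

/-- There is a linear map `λ` such that for every `τ`-stable `k` the Calogero-Moser space `𝒵_{λ(k)}(V^τ,W^τ)` is the
normalisation of the component of maximal dimension of `𝒵_k(V,W)^τ`. -/
def QN (W : Subgroup (V ≃ₗ[ℂ] V)) [Finite W] (τ : V ≃ₗ[ℂ] V) : Prop :=
  ∃ lam, IsLin W (FG τ W) lam ∧ ∀ k, IsParam W k → FixesParam τ k →
    FixNor τ k (lam k) (CA.gen W k True) (CA.gen W k False) (CA.gen (FG τ W) (lam k) True)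
      (CA.gen (FG τ W) (lam k) False)

end

end Pool.Agent.CM64
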