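import Pool.Agent.LibCM64.StA
import Pool.Agent.LibCM64.StN
import Pool.Agent.LibCM64.Main

/-! The main theorem in terms of the definitions of `St`. -/

set_option linter.unusedSectionVars false
set_option maxSynthPendingDepth 3

namespace Pool.Agent.CM64

open Module

section

variable {V : Type} [AddCommGroup V] [Module ℂ V] [FiniteDimensional ℂ V]

/-- `QN` for a given group acting on `V^τ`. -/
def QNG (W : Subgroup (V ≃ₗ[ℂ] V)) [Finite W] (τ : V ≃ₗ[ℂ] V) (G : Subgroup (FS τ ≃ₗ[ℂ] FS τ)) [Finite G] : Prop :=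
  ∃ lam, IsLin W G lam ∧ ∀ k, IsParam W k → FixesParam τ k →
    FixNor τ k (lam k) (CA.gen W k True) (CA.gen W k False) (CA.gen G (lam k) True) (CA.gen G (lam k) False)

theorem QNG_congr {W : Subgroup (V ≃ₗ[ℂ] V)} [Finite W] {τ : V ≃ₗ[ℂ] V} {G G' : Subgroup (FS τ ≃ₗ[ℂ] FS τ)}
    [Finite G] [Finite G'] (e : G = G') : QNG W τ G ↔ QNG W τ G' := by
  subst e
  exact Iff.rfl

/-- `QNG` without `FS`. -/
def QNH (W : Subgroup (V ≃ₗ[ℂ] V)) [Finite W] (τ : V ≃ₗ[ℂ] V) : Prop :=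
  ∃ lam : (Submodule ℂ V → ℤ → ℂ) → Submodule ℂ ↥(fixSub τ) → ℤ → ℂ, IsLin W (fixGrp W τ) lam ∧
    ∀ k, IsParam W k → FixesParam τ k →
      FixNor τ k (lam k) (gn W k True) (gn W k False) (gn (fixGrp W τ) (lam k) True)
        (gn (fixGrp W τ) (lam k) False)

theorem QNH_holds {W : Subgroup (V ≃ₗ[ℂ] V)} [Finite W] {τ : V ≃ₗ[ℂ] V} (hW : ReflGen W) (hτ : Normalizes τ W)
    (hfin : IsOfFinOrder τ) (hreg : IsRegular W τ) : QNH W τ := by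
  obtain ⟨lam, h⟩ := main_E hW hτ hfin hreg
  refine ⟨toFn lam, isLin_toFn lam, fun k hk hkτ => ?_⟩
  rw [isParam_iff] at hk
  rw [toFn_of lam hk]
  obtain ⟨φ, h1, h2, h3, h4, h5⟩ := h ⟨k, hk⟩ hkτ
  exact ⟨wellD_gn (adm_of_mem_Param hk), wellD_gn (adm_of_mem_Param (lam ⟨k, hk⟩).2), φ, (isFixMap_iff W k τ hτ hkτ _ φ).2 ⟨h1, h3⟩, h2, ZZ_isDomain _ (adm_of_mem_Param (lam ⟨k, hk⟩).2),
    ZZ_isIntegrallyClosed _ (adm_of_mem_Param (lam ⟨k, hk⟩).2), h4, h5⟩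

theorem QN_holds {W : Subgroup (V ≃ₗ[ℂ] V)} [Finite W] {τ : V ≃ₗ[ℂ] V} (hW : ReflGen W) (hτ : Normalizes τ W)
    (hfin : IsOfFinOrder τ) (hreg : IsRegular W τ) : QN W τ := by
  have e := @QNG_congr V _ _ _ W _ τ (FG τ W) (fixGrp W τ) _ (fixGrp_finite' τ W) (FG_eq τ W)
  have h : QNG W τ (FG τ W) := e.2 (QNH_holds hW hτ hfin hreg)
  exact h

end

end Pool.Agent.CM64
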