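import Pool.Agent.LibCM64.St

/-! The triples `(V, W, τ)` for which Q1 is proved. -/

namespace Pool.Agent.CM64

open Module

section

variable {V : Type} [AddCommGroup V] [Module ℂ V]

/-- `w(b_i) = ε_i b_{s i}` for a permutation `s` and numbers `ε_i` with `ε_i^m = 1` and `(∏ ε_i)^{m/p} = 1`. If `b` is a basis
with `n` elements and `p` divides `m`, these `w` form the group `G(m,p,n)`. -/
def IsMon {ι : Type} [Fintype ι] (b : ι → V) (m p : ℕ) (w : V ≃ₗ[ℂ] V) : Prop :=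
  ∃ (s : Equiv.Perm ι) (ε : ι → ℂ), (∀ i, ε i ^ m = 1) ∧ (∏ i, ε i) ^ (m / p) = 1 ∧ ∀ i, w (b i) = ε i • b (s i)

variable {V₁ : Type} [AddCommGroup V₁] [Module ℂ V₁]
variable {V₂ : Type} [AddCommGroup V₂] [Module ℂ V₂]

/-- `(V,W,τ)` is the product of `(V₁,W₁,τ₁)` and `(V₂,W₂,τ₂)`. -/
def IsPr (W : Subgroup (V ≃ₗ[ℂ] V)) (τ : V ≃ₗ[ℂ] V) (W₁ : Subgroup (V₁ ≃ₗ[ℂ] V₁)) (τ₁ : V₁ ≃ₗ[ℂ] V₁)
    (W₂ : Subgroup (V₂ ≃ₗ[ℂ] V₂)) (τ₂ : V₂ ≃ₗ[ℂ] V₂) : Prop :=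
  ∃ (i : V₁ →ₗ[ℂ] V) (j : V₂ →ₗ[ℂ] V), (∀ v, ∃! x : V₁ × V₂, v = i x.1 + j x.2) ∧
    (∀ w : V ≃ₗ[ℂ] V, w ∈ W ↔ ∃ w₁ ∈ W₁, ∃ w₂ ∈ W₂, (∀ x, w (i x) = i (w₁ x)) ∧ ∀ x, w (j x) = j (w₂ x)) ∧
    (∀ x, τ (i x) = i (τ₁ x)) ∧ ∀ x, τ (j x) = j (τ₂ x)

/-- `(V,W,τ)`: `V` is the sum of `l + 1` copies of `V₁` and `W` the product of `l + 1` copies of `W₁`, cyclically permuted
by `τ`; `τ^{l+1}` is `σ` on each copy. -/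
def IsCy (W : Subgroup (V ≃ₗ[ℂ] V)) (τ : V ≃ₗ[ℂ] V) (W₁ : Subgroup (V₁ ≃ₗ[ℂ] V₁)) (σ : V₁ ≃ₗ[ℂ] V₁) (l : ℕ) : Prop :=
  ∃ i : Fin (l + 1) → V₁ →ₗ[ℂ] V, (∀ v, ∃! x : Fin (l + 1) → V₁, v = ∑ j, i j (x j)) ∧
    (∀ w : V ≃ₗ[ℂ] V, w ∈ W ↔ ∃ u : Fin (l + 1) → (V₁ ≃ₗ[ℂ] V₁), ∀ j, u j ∈ W₁ ∧ ∀ x, w (i j x) = i j (u j x)) ∧
    (∀ (j : Fin l) (x), τ (i j.castSucc x) = i j.succ x) ∧ ∀ x, τ (i (Fin.last l) x) = i 0 (σ x)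

/-- `dim V^τ ≤ 1` or `dim V ≤ 2` (`τ` regular, `W` a reflection group normalised by `τ`). -/
structure TypeLow (W : Subgroup (V ≃ₗ[ℂ] V)) (τ : V ≃ₗ[ℂ] V) : Prop where
  refl : ReflGen W
  norm : Normalizes τ W
  ord : IsOfFinOrder τ
  reg : IsRegular W τ
  dim : finrank ℂ (FS τ) ≤ 1 ∨ finrank ℂ V ≤ 2

/-- `W = G(m,p,n)` in some basis `b` of `V`, and the regular element `τ` is a scalar multiple of an element of `G(m,1,n)`. -/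
structure TypeMono (W : Subgroup (V ≃ₗ[ℂ] V)) (τ : V ≃ₗ[ℂ] V) : Prop where
  ord : IsOfFinOrder τ
  reg : IsRegular W τ
  mono : ∃ (ι : Type) (_ : Fintype ι) (b : Basis ι ℂ V) (m p : ℕ), 0 < m ∧ p ∣ m ∧ (∀ w, w ∈ W ↔ IsMon b m p w) ∧
    ∃ (a : ℂ) (t : V ≃ₗ[ℂ] V), IsMon b m 1 t ∧ ∀ v, τ v = a • t v

/-- `W = 𝔖_n` acting on `V = ℂ^{n-1}`, and the regular element `τ` is a scalar multiple of an element of `𝔖_n`: `W` permutes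
`n = dim V + 1` vectors `b_i` which span `V` and have sum `0`. -/
structure TypeSym (W : Subgroup (V ≃ₗ[ℂ] V)) (τ : V ≃ₗ[ℂ] V) : Prop where
  ord : IsOfFinOrder τ
  reg : IsRegular W τ
  sym : ∃ (ι : Type) (_ : Fintype ι) (b : ι → V), Submodule.span ℂ (Set.range b) = ⊤ ∧
    finrank ℂ V + 1 = Fintype.card ι ∧ ∑ i, b i = 0 ∧ (∀ w, w ∈ W ↔ IsMon b 1 1 w) ∧
    ∃ (a : ℂ) (t : V ≃ₗ[ℂ] V), IsMon b 1 1 t ∧ ∀ v, τ v = a • t v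

end

/-- The triples `(V,W,τ)` covered: `dim V^τ ≤ 1` or `dim V ≤ 2` (`low`); `τ = 1` (`one`); `W = G(m,p,n)` with `τ` a scalar multiple of an
element of `G(m,1,n)` (`mono`); `W = 𝔖_n` acting on `ℂ^{n-1}` with `τ` a scalar multiple of an element of `𝔖_n` (`sym`); products
of two such triples (`prod`); cyclically permuted copies of such triples (`cyc`). -/
inductive CovS : (V : Type) → [AddCommGroup V] → [Module ℂ V] → Subgroup (V ≃ₗ[ℂ] V) → (V ≃ₗ[ℂ] V) → Prop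
  | low {V : Type} [AddCommGroup V] [Module ℂ V] [FiniteDimensional ℂ V] (W : Subgroup (V ≃ₗ[ℂ] V)) [Finite W]
      (τ : V ≃ₗ[ℂ] V) (h : TypeLow W τ) : CovS V W τ
  | one {V : Type} [AddCommGroup V] [Module ℂ V] [FiniteDimensional ℂ V] (W : Subgroup (V ≃ₗ[ℂ] V)) (τ : V ≃ₗ[ℂ] V)
      (h : ∀ v, τ v = v) : CovS V W τ
  | mono {V : Type} [AddCommGroup V] [Module ℂ V] [FiniteDimensional ℂ V] (W : Subgroup (V ≃ₗ[ℂ] V))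
      (τ : V ≃ₗ[ℂ] V) (h : TypeMono W τ) : CovS V W τ
  | sym {V : Type} [AddCommGroup V] [Module ℂ V] [FiniteDimensional ℂ V] (W : Subgroup (V ≃ₗ[ℂ] V))
      (τ : V ≃ₗ[ℂ] V) (h : TypeSym W τ) : CovS V W τ
  | prod {V : Type} [AddCommGroup V] [Module ℂ V] [FiniteDimensional ℂ V] (W : Subgroup (V ≃ₗ[ℂ] V))
      (τ : V ≃ₗ[ℂ] V) {V₁ : Type} [AddCommGroup V₁] [Module ℂ V₁] [FiniteDimensional ℂ V₁]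
      (W₁ : Subgroup (V₁ ≃ₗ[ℂ] V₁)) [Finite W₁] (τ₁ : V₁ ≃ₗ[ℂ] V₁)
      {V₂ : Type} [AddCommGroup V₂] [Module ℂ V₂] [FiniteDimensional ℂ V₂]
      (W₂ : Subgroup (V₂ ≃ₗ[ℂ] V₂)) [Finite W₂] (τ₂ : V₂ ≃ₗ[ℂ] V₂)
      (h : IsPr W τ W₁ τ₁ W₂ τ₂) (h₁ : CovS V₁ W₁ τ₁) (h₂ : CovS V₂ W₂ τ₂) : CovS V W τ
  | cyc {V : Type} [AddCommGroup V] [Module ℂ V] [FiniteDimensional ℂ V] (W : Subgroup (V ≃ₗ[ℂ] V))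
      (τ : V ≃ₗ[ℂ] V) {V₁ : Type} [AddCommGroup V₁] [Module ℂ V₁] [FiniteDimensional ℂ V₁]
      (W₁ : Subgroup (V₁ ≃ₗ[ℂ] V₁)) (σ : V₁ ≃ₗ[ℂ] V₁) {l : ℕ}
      (h : IsCy W τ W₁ σ l) (h₁ : CovS V₁ W₁ σ) : CovS V W τ

end Pool.Agent.CM64
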