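import Pool.Agent.LibCM64.StCov
import Pool.Agent.LibCM64.CovDefs

/-! `CovS` implies `Cov`. -/

set_option linter.unusedSectionVars false

namespace Pool.Agent.CM64

open Module

section

variable {ι : Type} [Fintype ι] [DecidableEq ι]

private theorem coord_mon {U : Type} [AddCommGroup U] [Module ℂ U] (c : Basis ι ℂ U) (s : Equiv.Perm ι) (ε : ι → ℂ)
    (T : U →ₗ[ℂ] U) (h : ∀ i, T (c i) = ε i • c (s i)) (u : U) (i : ι) :
    c.equivFun (T u) (s i) = ε i * c.equivFun u i := by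
  have h1 : T u = ∑ j, c.equivFun u j • (ε j • c (s j)) := by
    conv_lhs => rw [← c.sum_equivFun u]
    rw [map_sum]
    refine Finset.sum_congr rfl fun j _ => ?_
    rw [map_smul, h]
  rw [h1, map_sum, Finset.sum_apply, Finset.sum_eq_single i]
  · rw [map_smul, map_smul, Pi.smul_apply, Pi.smul_apply, Basis.equivFun_self, if_pos rfl, smul_eq_mul,
      smul_eq_mul, mul_one, mul_comm]
  · intro j _ hj
    rw [map_smul, map_smul, Pi.smul_apply, Pi.smul_apply, Basis.equivFun_self, if_neg (fun e => hj (s.injective e)),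
      smul_zero, smul_zero]
  · intro hi
    exact absurd (Finset.mem_univ i) hi

/-- the monomial matrix. -/
private noncomputable def monT (s : Equiv.Perm ι) (ε : ι → ℂ) (hε : ∀ i, ε i ≠ 0) : (ι → ℂ) ≃ₗ[ℂ] (ι → ℂ) :=
  (LinearEquiv.piCongrRight (fun i => LinearEquiv.smulOfNeZero ℂ ℂ (ε i) (hε i))).trans
    (LinearEquiv.funCongrLeft ℂ ℂ s.symm)

private theorem monT_apply (s : Equiv.Perm ι) (ε : ι → ℂ) (hε : ∀ i, ε i ≠ 0) (v : ι → ℂ) (i : ι) :
    monT s ε hε v (s i) = ε i * v i := by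
  show ε (s.symm (s i)) • v (s.symm (s i)) = ε i * v i
  rw [s.symm_apply_apply, smul_eq_mul]

private theorem ne_of_pow {m : ℕ} (hm : 0 < m) {x : ℂ} (h : x ^ m = 1) : x ≠ 0 := by
  rintro rfl
  rw [zero_pow hm.ne'] at h
  exact zero_ne_one h

variable {V : Type} [AddCommGroup V] [Module ℂ V] {A : Type} [AddCommGroup A] [Module ℂ A]

private theorem isMono_mk {W : Subgroup (V ≃ₗ[ℂ] V)} {τ : V ≃ₗ[ℂ] V} (c : Basis ι ℂ (V × A)) {m p : ℕ} (hm : 0 < m)
    (hW : ∀ w : V ≃ₗ[ℂ] V, w ∈ W ↔ ∃ (s : Equiv.Perm ι) (ε : ι → ℂ), (∀ i, ε i ^ m = 1) ∧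
      (∏ i, ε i) ^ (m / p) = 1 ∧ ∀ i, ((w (c i).1, (c i).2) : V × A) = ε i • c (s i))
    (hex : ∀ (s : Equiv.Perm ι) (ε : ι → ℂ), (∀ i, ε i ^ m = 1) → (∏ i, ε i) ^ (m / p) = 1 →
      ∃ w : V ≃ₗ[ℂ] V, ∀ i, ((w (c i).1, (c i).2) : V × A) = ε i • c (s i))
    (α : A ≃ₗ[ℂ] A) (hα : IsOfFinOrder α) (a : ℂ) (s₀ : Equiv.Perm ι) (ε₀ : ι → ℂ) (h₀ : ∀ i, ε₀ i ^ m = 1)
    (hτ : ∀ i, ((τ (c i).1, α (c i).2) : V × A) = (a * ε₀ i) • c (s₀ i)) : IsMono W τ A ι m p := by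
  refine ⟨α, c.equivFun, hα, fun w => ⟨?_, ?_⟩, a, monT s₀ ε₀ (fun i => ne_of_pow hm (h₀ i)), ?_, ?_⟩
  · rintro ⟨s, ε, h1, h2, h3⟩
    have h1' : ∀ i, ((ε i : ℂˣ) : ℂ) ^ m = 1 := by
      intro i
      rw [← Units.val_pow_eq_pow_val, h1 i, Units.val_one]
    have h2' : (∏ i, ((ε i : ℂˣ) : ℂ)) ^ (m / p) = 1 := by
      rw [← Units.coe_prod, ← Units.val_pow_eq_pow_val, h2, Units.val_one]
    obtain ⟨w', hw'⟩ := hex s (fun i => (ε i : ℂ)) h1' h2'
    refine ⟨w', (hW w').2 ⟨s, fun i => (ε i : ℂ), h1', h2', hw'⟩, fun x => ?_⟩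
    funext j
    obtain ⟨i, rfl⟩ := s.surjective j
    rw [h3]
    exact (coord_mon c s (fun i => (ε i : ℂ)) (LinearMap.prodMap (w' : V →ₗ[ℂ] V) LinearMap.id) hw' x i).symm
  · rintro ⟨w', hw', h⟩
    obtain ⟨s, ε, h1, h2, h3⟩ := (hW w').1 hw'
    have hne : ∀ i, ε i ≠ 0 := fun i => ne_of_pow hm (h1 i)
    refine ⟨s, fun i => Units.mk0 (ε i) (hne i), fun i => ?_, ?_, fun v i => ?_⟩
    · apply Units.ext
      rw [Units.val_pow_eq_pow_val, Units.val_mk0, h1 i, Units.val_one]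
    · apply Units.ext
      rw [Units.val_pow_eq_pow_val, Units.coe_prod, Units.val_one]
      exact h2
    · have h4 := h (c.equivFun.symm v)
      rw [LinearEquiv.apply_symm_apply] at h4
      rw [h4, Units.val_mk0]
      have h5 := coord_mon c s ε (LinearMap.prodMap (w' : V →ₗ[ℂ] V) LinearMap.id) h3 (c.equivFun.symm v) i
      rw [LinearEquiv.apply_symm_apply] at h5
      exact h5
  · refine ⟨s₀, fun i => Units.mk0 (ε₀ i) (ne_of_pow hm (h₀ i)), fun i => ?_, ?_, fun v i => ?_⟩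
    · apply Units.ext
      rw [Units.val_pow_eq_pow_val, Units.val_mk0, h₀ i, Units.val_one]
    · apply Units.ext
      rw [Units.val_pow_eq_pow_val, Units.coe_prod, Units.val_one, Nat.div_one, ← Finset.prod_pow]
      exact Finset.prod_eq_one fun i _ => h₀ i
    · rw [Units.val_mk0]
      exact monT_apply s₀ ε₀ _ v i
  · intro x
    funext j
    obtain ⟨i, rfl⟩ := s₀.surjective j
    rw [Pi.smul_apply, monT_apply, smul_eq_mul, ← mul_assoc]
    exact coord_mon c s₀ (fun i => a * ε₀ i) (LinearMap.prodMap (τ : V →ₗ[ℂ] V) (α : A →ₗ[ℂ] A)) hτ x i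

end

section

variable {V : Type} [AddCommGroup V] [Module ℂ V]

private theorem exists_mon {ι : Type} [Fintype ι] [DecidableEq ι] (b : Basis ι ℂ V) (s : Equiv.Perm ι) (ε : ι → ℂ)
    (hε : ∀ i, ε i ≠ 0) : ∃ w : V ≃ₗ[ℂ] V, ∀ i, w (b i) = ε i • b (s i) := by
  refine ⟨b.equivFun.trans ((monT s ε hε).trans b.equivFun.symm), fun i => ?_⟩
  rw [LinearEquiv.trans_apply, LinearEquiv.trans_apply, LinearEquiv.symm_apply_eq, map_smul]
  funext j
  obtain ⟨j, rfl⟩ := s.surjective j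
  rw [monT_apply, Pi.smul_apply, smul_eq_mul, Basis.equivFun_self, Basis.equivFun_self]
  by_cases h : i = j
  · subst h
    rw [if_pos rfl, if_pos rfl]
  · rw [if_neg h, if_neg (fun e => h (s.injective e)), mul_zero, mul_zero]

private theorem isMono_of_mono {W : Subgroup (V ≃ₗ[ℂ] V)} {τ : V ≃ₗ[ℂ] V} {ι : Type} [Fintype ι] (b : Basis ι ℂ V)
    {m p : ℕ} (hm : 0 < m) (hW : ∀ w, w ∈ W ↔ IsMon b m p w) (a : ℂ) (t : V ≃ₗ[ℂ] V) (ht : IsMon b m 1 t)
    (hτ : ∀ v, τ v = a • t v) : IsMono W τ (Fin 0 → ℂ) ι m p := by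
  classical
  set c : Basis ι ℂ (V × (Fin 0 → ℂ)) := b.map (LinearEquiv.prodUnique).symm with hc
  have hc1 : ∀ i, (c i).1 = b i := fun i => by
    rw [hc, Basis.map_apply]
    rfl
  have key : ∀ (x : V) (y : Fin 0 → ℂ) (i : ι) (e : ℂ), ((x, y) : V × (Fin 0 → ℂ)) = e • c i ↔ x = e • b i := by
    intro x y i e
    rw [Prod.ext_iff, Prod.smul_fst, hc1]
    exact ⟨fun h => h.1, fun h => ⟨h, Subsingleton.elim _ _⟩⟩
  obtain ⟨s₀, ε₀, h1, -, h3⟩ := ht
  refine isMono_mk c hm (fun w => ?_) (fun s ε h1 h2 => ?_) 1 IsOfFinOrder.one a s₀ ε₀ h1 (fun i => ?_)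
  · rw [hW]
    unfold IsMon
    simp only [key, hc1]
  · obtain ⟨w, hw⟩ := exists_mon b s ε (fun i => ne_of_pow hm (h1 i))
    refine ⟨w, fun i => ?_⟩
    rw [key, hc1]
    exact hw i
  · rw [key, hc1, hτ, h3, smul_smul]

private theorem exists_root {ι : Type} [Fintype ι] {τ : V ≃ₗ[ℂ] V} (hfin : IsOfFinOrder τ) (b : ι → V) (a : ℂ)
    (s : Equiv.Perm ι) (h : ∀ i, τ (b i) = a • b (s i)) :
    ∃ a' : ℂ, (∃ N : ℕ, 0 < N ∧ a' ^ N = 1) ∧ ∀ i, a' • b i = a • b i := by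
  classical
  by_cases h0 : ∀ i, b i = 0
  · exact ⟨1, ⟨1, one_pos, one_pow 1⟩, fun i => by rw [h0 i, smul_zero, smul_zero]⟩
  · push Not at h0
    obtain ⟨i, hi⟩ := h0
    refine ⟨a, ?_, fun i => rfl⟩
    obtain ⟨N, hN, hτN⟩ := isOfFinOrder_iff_pow_eq_one.1 hfin
    obtain ⟨M, hM, hsM⟩ := isOfFinOrder_iff_pow_eq_one.1 (isOfFinOrder_of_finite s)
    have hpow : ∀ n : ℕ, (τ ^ n) (b i) = a ^ n • b ((s ^ n) i) := by
      intro n
      induction n with
      | zero => rw [pow_zero, pow_zero, pow_zero, one_smul]; rfl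
      | succ n ih =>
        rw [pow_succ', LinearEquiv.mul_apply, ih, map_smul, h, smul_smul, ← pow_succ, pow_succ' s]
        rfl
    refine ⟨N * M, Nat.mul_pos hN hM, ?_⟩
    have h1 := hpow (N * M)
    rw [pow_mul, hτN, one_pow, mul_comm N M, pow_mul s, hsM, one_pow] at h1
    have h2 : (1 - a ^ (M * N)) • b i = 0 := by
      rw [sub_smul, one_smul]
      exact sub_eq_zero.2 h1
    rcases smul_eq_zero.1 h2 with h3 | h3
    · rw [mul_comm N M]
      exact (sub_eq_zero.1 h3).symm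
    · exact absurd h3 hi

private theorem isMono_of_sym [FiniteDimensional ℂ V] {W : Subgroup (V ≃ₗ[ℂ] V)} {τ : V ≃ₗ[ℂ] V}
    (hfin : IsOfFinOrder τ) {ι : Type} [Fintype ι]
    (b : ι → V) (hb : Submodule.span ℂ (Set.range b) = ⊤) (hcard : finrank ℂ V + 1 = Fintype.card ι)
    (hs : ∑ i, b i = 0) (hW : ∀ w, w ∈ W ↔ IsMon b 1 1 w) (a : ℂ) (t : V ≃ₗ[ℂ] V) (ht : IsMon b 1 1 t)
    (hτ : ∀ v, τ v = a • t v) : IsMono W τ ℂ ι 1 1 := by
  classical
  set n : ℂ := (Fintype.card ι : ℂ) with hn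
  have hn0 : n ≠ 0 := by
    rw [hn, ← hcard]
    exact Nat.cast_ne_zero.2 (Nat.succ_ne_zero _)
  have hsum : ∑ i, ((b i, (1 : ℂ)) : V × ℂ) = (0, n) := by
    apply Prod.ext
    · rw [Prod.fst_sum, hs]
    · rw [Prod.snd_sum, Finset.sum_const, Finset.card_univ, nsmul_eq_mul, mul_one]
  have hspan : ⊤ ≤ Submodule.span ℂ (Set.range fun i => ((b i, (1 : ℂ)) : V × ℂ)) := by
    set S := Submodule.span ℂ (Set.range fun i => ((b i, (1 : ℂ)) : V × ℂ)) with hS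
    have h1 : ∀ i, ((b i, (1 : ℂ)) : V × ℂ) ∈ S := fun i => Submodule.subset_span ⟨i, rfl⟩
    have h2 : ((0, (1 : ℂ)) : V × ℂ) ∈ S := by
      have h3 : ((0, n) : V × ℂ) ∈ S := by
        rw [← hsum]
        exact Submodule.sum_mem _ fun i _ => h1 i
      have h4 := S.smul_mem n⁻¹ h3
      rwa [Prod.smul_mk, smul_zero, smul_eq_mul, inv_mul_cancel₀ hn0] at h4
    have h5 : ∀ v : V, ((v, (0 : ℂ)) : V × ℂ) ∈ S := by
      intro v
      have h6 : Submodule.span ℂ (Set.range b) ≤ S.comap (LinearMap.inl ℂ V ℂ) := by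
        rw [Submodule.span_le]
        rintro _ ⟨i, rfl⟩
        have h7 := S.sub_mem (h1 i) h2
        rw [Prod.mk_sub_mk, sub_zero, sub_self] at h7
        exact h7
      rw [hb] at h6
      exact h6 (Submodule.mem_top (x := v))
    rintro ⟨v, x⟩ -
    have h8 := S.add_mem (h5 v) (S.smul_mem x h2)
    rw [Prod.smul_mk, smul_zero, smul_eq_mul, mul_one, Prod.mk_add_mk, add_zero, zero_add] at h8
    exact h8
  have hcard' : Fintype.card ι = finrank ℂ (V × ℂ) := by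
    rw [Module.finrank_prod, finrank_self, hcard]
  set c : Basis ι ℂ (V × ℂ) := basisOfTopLeSpanOfCardEqFinrank _ hspan hcard' with hc
  have hci : ∀ i, c i = (b i, 1) := fun i => by
    rw [hc, coe_basisOfTopLeSpanOfCardEqFinrank]
  obtain ⟨s₀, ε₀, h1, -, h3⟩ := ht
  have hε₀ : ∀ i, ε₀ i = 1 := fun i => by have := h1 i; rwa [pow_one] at this
  obtain ⟨a', ⟨N, hN, ha'⟩, hab⟩ := exists_root hfin b a s₀
    (fun i => by rw [hτ, h3, hε₀, one_smul])
  have ha0 : a' ≠ 0 := ne_of_pow hN ha'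
  have hαN : IsOfFinOrder (LinearEquiv.smulOfNeZero ℂ ℂ a' ha0) := by
    rw [isOfFinOrder_iff_pow_eq_one]
    refine ⟨N, hN, ?_⟩
    have hp : ∀ (n : ℕ) (x : ℂ), ((LinearEquiv.smulOfNeZero ℂ ℂ a' ha0) ^ n) x = a' ^ n * x := by
      intro n x
      induction n with
      | zero => rw [pow_zero, pow_zero, one_mul]; rfl
      | succ n ih =>
        rw [pow_succ', LinearEquiv.mul_apply, ih]
        show a' * (a' ^ n * x) = _
        rw [pow_succ', mul_assoc]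
    apply LinearEquiv.ext
    intro x
    rw [hp, ha', one_mul]
    rfl
  refine isMono_mk c one_pos (fun w => ?_) (fun s ε h1 h2 => ?_) (LinearEquiv.smulOfNeZero ℂ ℂ a' ha0) hαN a' s₀ ε₀ h1
    (fun i => ?_)
  · rw [hW]
    constructor
    · rintro ⟨s, ε, h4, h5, h6⟩
      refine ⟨s, ε, h4, h5, fun i => ?_⟩
      have h7 : ε i = 1 := by have := h4 i; rwa [pow_one] at this
      rw [hci, hci, Prod.smul_mk, h6, h7, one_smul, one_smul]
    · rintro ⟨s, ε, h4, h5, h6⟩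
      refine ⟨s, ε, h4, h5, fun i => ?_⟩
      have h7 := h6 i
      rw [hci, hci, Prod.smul_mk] at h7
      exact (Prod.mk.inj h7).1
  · have hε : ∀ i, ε i = 1 := fun i => by have := h1 i; rwa [pow_one] at this
    set T : (V × ℂ) ≃ₗ[ℂ] (V × ℂ) := c.equiv c s with hT
    have hTc : ∀ i, T (c i) = c (s i) := fun i => by rw [hT, Basis.equiv_apply]
    have hT0 : T (0, 1) = (0, 1) := by
      have h4 : ((0, n) : V × ℂ) = ∑ i, c i := by
        rw [← hsum]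
        exact Finset.sum_congr rfl fun i _ => (hci i).symm
      have h5 : T (0, n) = (0, n) := by
        rw [h4, map_sum]
        simp only [hTc]
        exact Equiv.sum_comp s c
      have h6 : ((0, 1) : V × ℂ) = n⁻¹ • (0, n) := by
        rw [Prod.smul_mk, smul_zero, smul_eq_mul, inv_mul_cancel₀ hn0]
      rw [h6, map_smul, h5]
    set f : V →ₗ[ℂ] V := (LinearMap.fst ℂ V ℂ).comp ((T : (V × ℂ) →ₗ[ℂ] (V × ℂ)).comp (LinearMap.inl ℂ V ℂ)) with hf
    have hfb : ∀ i, f (b i) = b (s i) := by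
      intro i
      have h4 : ((b i, 0) : V × ℂ) = c i - (0, 1) := by
        rw [hci, Prod.mk_sub_mk, sub_zero, sub_self]
      show (T (b i, 0)).1 = _
      rw [h4, map_sub, hTc, hT0, hci, Prod.mk_sub_mk, sub_zero]
    have hfs : Function.Surjective f := by
      rw [← LinearMap.range_eq_top, eq_top_iff, ← hb, Submodule.span_le]
      rintro _ ⟨i, rfl⟩
      obtain ⟨j, rfl⟩ := s.surjective i
      exact ⟨b j, hfb j⟩
    have hfi : Function.Injective f := LinearMap.injective_iff_surjective.2 hfs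
    refine ⟨LinearEquiv.ofBijective f ⟨hfi, hfs⟩, fun i => ?_⟩
    rw [hci, hci, hε, one_smul, LinearEquiv.ofBijective_apply, hfb]
  · rw [hci, hci, hε₀, mul_one, Prod.smul_mk, hτ, h3, hε₀, one_smul, hab]
    rfl

end

section

variable {V : Type} [AddCommGroup V] [Module ℂ V]
variable {V₁ : Type} [AddCommGroup V₁] [Module ℂ V₁]
variable {V₂ : Type} [AddCommGroup V₂] [Module ℂ V₂]

private theorem isProd_of_isPr {W : Subgroup (V ≃ₗ[ℂ] V)} {τ : V ≃ₗ[ℂ] V} {W₁ : Subgroup (V₁ ≃ₗ[ℂ] V₁)}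
    {τ₁ : V₁ ≃ₗ[ℂ] V₁} {W₂ : Subgroup (V₂ ≃ₗ[ℂ] V₂)} {τ₂ : V₂ ≃ₗ[ℂ] V₂} (h : IsPr W τ W₁ τ₁ W₂ τ₂) :
    IsProd W τ W₁ τ₁ W₂ τ₂ := by
  obtain ⟨i, j, h1, h2, h3, h4⟩ := h
  have hbij : Function.Bijective (LinearMap.coprod i j) := by
    constructor
    · intro x y hxy
      obtain ⟨z, -, hz⟩ := h1 (i x.1 + j x.2)
      exact (hz x rfl).trans (hz y hxy).symm
    · intro v
      obtain ⟨z, hz, -⟩ := h1 v
      exact ⟨z, hz.symm⟩
  refine ⟨LinearEquiv.ofBijective _ hbij, fun w => ?_, fun x => ?_⟩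
  · rw [h2]
    constructor
    · rintro ⟨w₁, hw₁, w₂, hw₂, h5, h6⟩
      refine ⟨w₁, hw₁, w₂, hw₂, fun x => ?_⟩
      show w (i x.1 + j x.2) = i (w₁ x.1) + j (w₂ x.2)
      rw [map_add, h5, h6]
    · rintro ⟨w₁, hw₁, w₂, hw₂, h5⟩
      refine ⟨w₁, hw₁, w₂, hw₂, fun x => ?_, fun x => ?_⟩
      · have h6 : w (i x + j 0) = i (w₁ x) + j (w₂ 0) := h5 (x, 0)
        rwa [map_zero, map_zero, map_zero, add_zero, add_zero] at h6
      · have h6 : w (i 0 + j x) = i (w₁ 0) + j (w₂ x) := h5 (0, x)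
        rwa [map_zero, map_zero, map_zero, zero_add, zero_add] at h6
  · show τ (i x.1 + j x.2) = i (τ₁ x.1) + j (τ₂ x.2)
    rw [map_add, h3, h4]

private theorem isCyc_of_isCy {W : Subgroup (V ≃ₗ[ℂ] V)} {τ : V ≃ₗ[ℂ] V} {W₁ : Subgroup (V₁ ≃ₗ[ℂ] V₁)}
    {σ : V₁ ≃ₗ[ℂ] V₁} {l : ℕ} (h : IsCy W τ W₁ σ l) : IsCyc W τ W₁ σ l := by
  obtain ⟨i, h1, h2, h3, h4⟩ := h
  set f : (Fin (l + 1) → V₁) →ₗ[ℂ] V := ∑ j, (i j).comp (LinearMap.proj j) with hf
  have hfx : ∀ x, f x = ∑ j, i j (x j) := by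
    intro x
    rw [hf, LinearMap.sum_apply]
    rfl
  have hbij : Function.Bijective f := by
    constructor
    · intro x y hxy
      obtain ⟨z, -, hz⟩ := h1 (f x)
      exact (hz x (hfx x)).trans (hz y (hxy.trans (hfx y))).symm
    · intro v
      obtain ⟨z, hz, -⟩ := h1 v
      exact ⟨z, (hfx z).trans hz.symm⟩
  have hsingle : ∀ (j : Fin (l + 1)) (y : V₁), f (Pi.single j y) = i j y := by
    intro j y
    rw [hfx, Finset.sum_eq_single j]
    · rw [Pi.single_eq_same]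
    · intro k _ hk
      rw [Pi.single_eq_of_ne hk, map_zero]
    · intro hj
      exact absurd (Finset.mem_univ j) hj
  refine ⟨LinearEquiv.ofBijective f hbij, fun w => ?_, fun x => ?_⟩
  · rw [h2]
    constructor
    · rintro ⟨u, hu⟩
      refine ⟨u, fun j => (hu j).1, fun x => ?_⟩
      rw [LinearEquiv.ofBijective_apply, LinearEquiv.ofBijective_apply, hfx, hfx, map_sum]
      exact Finset.sum_congr rfl fun j _ => (hu j).2 _
    · rintro ⟨u, hu, hx⟩
      refine ⟨u, fun j => ⟨hu j, fun y => ?_⟩⟩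
      have h5 := hx (Pi.single j y)
      rw [LinearEquiv.ofBijective_apply, LinearEquiv.ofBijective_apply, hsingle] at h5
      have h6 : (fun k => u k ((Pi.single j y : Fin (l + 1) → V₁) k)) = Pi.single j (u j y) := by
        funext k
        by_cases hk : k = j
        · subst hk
          rw [Pi.single_eq_same, Pi.single_eq_same]
        · rw [Pi.single_eq_of_ne hk, Pi.single_eq_of_ne hk, map_zero]
      rw [h6, hsingle] at h5
      exact h5
  · rw [LinearEquiv.ofBijective_apply, LinearEquiv.ofBijective_apply, hfx, hfx, map_sum, Fin.sum_univ_castSucc,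
      Fin.sum_univ_succ, h4, Fin.cons_zero, add_comm]
    congr 1
    exact Finset.sum_congr rfl fun j _ => by rw [h3, Fin.cons_succ]

end

theorem cov_of_covS {V : Type} [AddCommGroup V] [Module ℂ V] {W : Subgroup (V ≃ₗ[ℂ] V)} {τ : V ≃ₗ[ℂ] V}
    (h : CovS V W τ) : Cov V W τ := by
  induction h with
  | low W τ h =>
    rcases h.dim with h1 | h1
    · exact Cov.line W τ h.refl h.norm h.ord h.reg h1
    · exact Cov.plane W τ h.refl h.norm h.ord h.reg h1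
  | one W τ h =>
    have e : τ = 1 := LinearEquiv.ext h
    subst e
    exact Cov.one W
  | mono W τ h =>
    obtain ⟨ι, _, b, m, p, hm, hp, hW, a, t, ht, hτ⟩ := h.mono
    exact Cov.mono W τ h.ord h.reg hm hp (isMono_of_mono b hm hW a t ht hτ)
  | sym W τ h =>
    obtain ⟨ι, _, b, hb, hc, hs, hW, a, t, ht, hτ⟩ := h.sym
    exact Cov.mono W τ h.ord h.reg one_pos (dvd_refl 1) (isMono_of_sym h.ord b hb hc hs hW a t ht hτ)
  | prod W τ W₁ τ₁ W₂ τ₂ h h₁ h₂ ih₁ ih₂ => exact Cov.prod W τ W₁ τ₁ W₂ τ₂ (isProd_of_isPr h) ih₁ ih₂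
  | cyc W τ W₁ σ h h₁ ih₁ => exact Cov.cyc W τ W₁ σ (isCyc_of_isCy h) ih₁

end Pool.Agent.CM64
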