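import Pool.Agent.LibCM64.SurjT

/-! `SurjR` if `dim U ≤ 1`. -/

set_option linter.unusedSectionVars false

namespace Pool.Agent.CM64

open Module MvPolynomial

section

variable {V : Type} [AddCommGroup V] [Module ℂ V] [FiniteDimensional ℂ V]
variable {ι : Type} [Fintype ι] [DecidableEq ι] {κ : Type} [Fintype κ] [DecidableEq κ]

/-! auxiliary lemmas (copies of the private lemmas of `RkC`) -/

private theorem surjA_nonzero {Γ : Subgroup (V ≃ₗ[ℂ] V)} {τ : V ≃ₗ[ℂ] V} {u : V} (hu : ∀ g ∈ Γ, g u = u → g = 1)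
    (hτu : τ u = u) (hU : finrank ℂ (fixSub τ) = 1) :
    ∃ u' : V, u' ≠ 0 ∧ τ u' = u' ∧ ∀ g ∈ Γ, g u' = u' → g = 1 := by
  by_cases h0 : u = 0
  · subst h0
    have h1 : ∀ g ∈ Γ, g = 1 := fun g hg => hu g hg (map_zero g)
    have : Nontrivial (fixSub τ) := Module.nontrivial_of_finrank_pos (R := ℂ) (by omega)
    obtain ⟨u', hu'⟩ := exists_ne (0 : fixSub τ)
    exact ⟨u', fun h => hu' (Subtype.ext h), u'.2, fun g hg _ => h1 g hg⟩
  · exact ⟨u, h0, hτu, hu⟩

private theorem surjA_ne {Γ : Subgroup (V ≃ₗ[ℂ] V)} [Finite Γ] {τ : V ≃ₗ[ℂ] V} {b : Basis ι ℂ V} {f : ι → Px ι}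
    {d : ι → ℕ} {θ : ι → ℂ} (hB : Basic Γ τ b f d θ)
    {u : V} (h0 : u ≠ 0) (hτu : τ u = u) {i₀ : ι} (hi : ∀ i, θ i = 1 → i = i₀) : evP b u (f i₀) ≠ 0 := by
  intro h
  apply h0
  apply basic_zero hB
  intro i
  by_cases hi' : θ i = 1
  · rw [hi i hi', h]
  · exact basic_vanish hB hτu hi'

private theorem surjA_hom {p : Px Unit} {n : ℕ} (hp : p.IsHomogeneous n) : ∃ c : ℂ, p = c • (X () : Px Unit) ^ n := by
  refine ⟨coeff (Finsupp.single () n) p, ?_⟩
  ext m
  obtain ⟨j, rfl⟩ : ∃ j, m = Finsupp.single () j := ⟨m (), by ext; simp⟩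
  rw [coeff_smul, X_pow_eq_monomial, coeff_monomial]
  by_cases h : j = n
  · subst h
    rw [if_pos rfl, smul_eq_mul, mul_one]
  · rw [if_neg, smul_zero]
    · by_contra hc
      have h1 := hp hc
      rw [Finsupp.weight_apply] at h1
      simp at h1
      exact h h1
    · intro hh
      have := congrArg (fun f => f ()) hh
      simp at this
      exact h this.symm

private theorem surjA_finrank {τ : V ≃ₗ[ℂ] V} (bU : Basis Unit ℂ ↥(fixSub τ)) : finrank ℂ (fixSub τ) = 1 := by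
  rw [Module.finrank_eq_card_basis bU, Fintype.card_unit]

/-- monomials in one variable. -/
private theorem surjA_mono {R : Type} [CommRing R] (n : Unit →₀ ℕ) (c : R) :
    monomial n c = C c * (X () : MvPolynomial Unit R) ^ n () := by
  rw [X_pow_eq_monomial, C_mul_monomial, mul_one]
  have h : n = Finsupp.single () (n ()) := by
    ext
    simp
  rw [← h]

private theorem surjA_coeff_x (a : ℂ) (c : Px Unit) (m : Unit →₀ ℕ) :
    coeff m (aeval (fun _ : Unit => (a • X () : Px Unit)) c) = a ^ m () * coeff m c := by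
  induction c using MvPolynomial.induction_on' with
  | monomial d r =>
    have h : aeval (fun _ : Unit => (a • X () : Px Unit)) (monomial d r) = monomial d (a ^ d () * r) := by
      rw [surjA_mono d r, surjA_mono d, map_mul, map_pow, aeval_X, smul_pow, mul_smul_comm, ← smul_mul_assoc]
      congr 1
      have h2 : aeval (fun _ : Unit => (a • X () : Px Unit)) (C r) = C r := AlgHom.commutes _ r
      rw [h2, C_mul, MvPolynomial.smul_eq_C_mul]
    rw [h, coeff_monomial, coeff_monomial]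
    by_cases hd : d = m
    · subst hd
      rw [if_pos rfl, if_pos rfl]
    · rw [if_neg hd, if_neg hd, mul_zero]
  | add p q hp hq => rw [map_add, coeff_add, coeff_add, hp, hq, mul_add]

private theorem surjA_coeff_xi (a a' : ℂ) (p : Rx Unit) (n : Unit →₀ ℕ) :
    coeff n (MvPolynomial.aevalTower ((Algebra.algHom ℂ (Px Unit) (Rx Unit)).comp
      (aeval (fun _ : Unit => (a • X () : Px Unit)))) (fun _ : Unit => (a' • X () : Rx Unit)) p)
      = a' ^ n () • aeval (fun _ : Unit => (a • X () : Px Unit)) (coeff n p) := by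
  induction p using MvPolynomial.induction_on' with
  | monomial d r =>
    have h : MvPolynomial.aevalTower ((Algebra.algHom ℂ (Px Unit) (Rx Unit)).comp
      (aeval (fun _ : Unit => (a • X () : Px Unit)))) (fun _ : Unit => (a' • X () : Rx Unit)) (monomial d r)
        = monomial d (a' ^ d () • aeval (fun _ : Unit => (a • X () : Px Unit)) r) := by
      rw [surjA_mono d r, surjA_mono d, map_mul, map_pow, aevalTower_X, aevalTower_C, smul_pow, mul_smul_comm,
        ← smul_mul_assoc]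
      congr 1
      exact (map_smul (Algebra.algHom ℂ (Px Unit) (Rx Unit)) _ _).symm
    rw [h, coeff_monomial, coeff_monomial]
    by_cases hd : d = n
    · subst hd
      rw [if_pos rfl, if_pos rfl]
    · rw [if_neg hd, if_neg hd, _root_.map_zero (aeval (fun _ : Unit => (a • X () : Px Unit))), smul_zero]
  | add p q hp hq =>
    rw [map_add, coeff_add, coeff_add, hp, hq, _root_.map_add (aeval (fun _ : Unit => (a • X () : Px Unit))), smul_add]

private theorem surjA_mem (e : ℕ) {ζ : ℂ} (hζ : IsPrimitiveRoot ζ e) (hζ0 : ζ ≠ 0) {m n : ℕ} (h : ζ ^ n = ζ ^ m) :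
    C ((X () : Px Unit) ^ m) * (X () : Rx Unit) ^ n
      ∈ Algebra.adjoin ℂ ({C ((X () : Px Unit) ^ e), (X () : Rx Unit) ^ e, C (X () : Px Unit) * X ()} : Set (Rx Unit)) := by
  have m1 : C ((X () : Px Unit) ^ e) ∈
      Algebra.adjoin ℂ ({C ((X () : Px Unit) ^ e), (X () : Rx Unit) ^ e, C (X () : Px Unit) * X ()} : Set (Rx Unit)) :=
    Algebra.subset_adjoin (Or.inl rfl)
  have m2 : (X () : Rx Unit) ^ e ∈
      Algebra.adjoin ℂ ({C ((X () : Px Unit) ^ e), (X () : Rx Unit) ^ e, C (X () : Px Unit) * X ()} : Set (Rx Unit)) :=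
    Algebra.subset_adjoin (Or.inr (Or.inl rfl))
  have m3 : C (X () : Px Unit) * (X () : Rx Unit) ∈
      Algebra.adjoin ℂ ({C ((X () : Px Unit) ^ e), (X () : Rx Unit) ^ e, C (X () : Px Unit) * X ()} : Set (Rx Unit)) :=
    Algebra.subset_adjoin (Or.inr (Or.inr rfl))
  rcases le_total m n with hmn | hmn
  · obtain ⟨j, rfl⟩ := Nat.exists_eq_add_of_le hmn
    rw [pow_add] at h
    have h1 : ζ ^ j = 1 := by
      have h2 : ζ ^ m * ζ ^ j = ζ ^ m * 1 := by rw [h, mul_one]
      exact mul_left_cancel₀ (pow_ne_zero m hζ0) h2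
    obtain ⟨k, rfl⟩ := (hζ.pow_eq_one_iff_dvd j).1 h1
    have h3 : C ((X () : Px Unit) ^ m) * (X () : Rx Unit) ^ (m + e * k)
        = (C (X () : Px Unit) * (X () : Rx Unit)) ^ m * ((X () : Rx Unit) ^ e) ^ k := by
      rw [C_pow, mul_pow, pow_add, pow_mul, mul_assoc]
    rw [h3]
    exact Subalgebra.mul_mem _ (Subalgebra.pow_mem _ m3 m) (Subalgebra.pow_mem _ m2 k)
  · obtain ⟨j, rfl⟩ := Nat.exists_eq_add_of_le hmn
    rw [pow_add] at h
    have h1 : ζ ^ j = 1 := by
      have h2 : ζ ^ n * ζ ^ j = ζ ^ n * 1 := by rw [← h, mul_one]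
      exact mul_left_cancel₀ (pow_ne_zero n hζ0) h2
    obtain ⟨k, rfl⟩ := (hζ.pow_eq_one_iff_dvd j).1 h1
    have h3 : C ((X () : Px Unit) ^ (n + e * k)) * (X () : Rx Unit) ^ n
        = (C (X () : Px Unit) * (X () : Rx Unit)) ^ n * (C ((X () : Px Unit) ^ e)) ^ k := by
      rw [pow_add, pow_mul, C_mul, C_pow, C_pow, C_pow, mul_pow]
      ring
    rw [h3]
    exact Subalgebra.mul_mem _ (Subalgebra.pow_mem _ m3 n) (Subalgebra.pow_mem _ m1 k)

/-- `dim U = 0`: the only functions on `U × U*` are the constants. -/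
theorem surjR_of_finrank_zero (W : Subgroup (V ≃ₗ[ℂ] V)) {τ : V ≃ₗ[ℂ] V} (h : finrank ℂ (fixSub τ) = 0)
    (b : Basis ι ℂ V) (bU : Basis κ ℂ ↥(fixSub τ)) : SurjR W τ b bU := by
  have hcard : Fintype.card κ = 0 := by rw [← Module.finrank_eq_card_basis bU, h]
  have hE : IsEmpty κ := Fintype.card_eq_zero_iff.1 hcard
  intro p _
  obtain ⟨p1, rfl⟩ := MvPolynomial.C_surjective κ p
  obtain ⟨c, rfl⟩ := MvPolynomial.C_surjective κ p1
  refine ⟨C (C c), fun w _ => ?_, ?_⟩
  · rw [trR_C]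
    congr 1
    exact (trP b b w).commutes c
  · rw [resR_C]
    congr 1
    exact (resP τ b bU).commutes c

/-- some `W`-invariant on `V` restricts to `a^{e}`, `e = |W^τ|`: `exists_basic`, `rk_deg`: the basic invariant `f_{i₀}` with
`θ_{i₀} = 1` is homogeneous of degree `e`, so it restricts to `c a^e`; `c ≠ 0`, otherwise all basic invariants vanish on `U`
(`basic_vanish`, `basic_zero`). -/
theorem exists_inv_res_pow (W : Subgroup (V ≃ₗ[ℂ] V)) [Finite W] (hW : ReflGen W) {τ : V ≃ₗ[ℂ] V}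
    (hτ : Normalizes τ W) (hfin : IsOfFinOrder τ) {u : V} (hu : ∀ g ∈ W, g u = u → g = 1) (hτu : τ u = u)
    (b : Basis ι ℂ V) (bU : Basis Unit ℂ ↥(fixSub τ)) :
    ∃ p : Px ι, PInv W b p ∧ resP τ b bU p = (X () : Px Unit) ^ eFix W τ := by
  obtain ⟨f, d, θ, hB⟩ := exists_basic W τ hW hτ hfin b
  have hU := surjA_finrank bU
  obtain ⟨i₀, h1, hi, h3⟩ := rk_deg hB hτ hu hτu hU
  obtain ⟨u', h0, hτu', hu'⟩ := surjA_nonzero hu hτu hU
  have hne := surjA_ne hB h0 hτu' hi
  obtain ⟨c, hc⟩ := surjA_hom (pbP_isHomogeneous bU b (fixSub τ).subtype (hB.hom i₀))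
  have hc0 : c ≠ 0 := by
    rintro rfl
    rw [zero_smul] at hc
    apply hne
    have h5 := evP_pbP bU b (fixSub τ).subtype ⟨u', hτu'⟩ (f i₀)
    rw [hc, map_zero] at h5
    exact h5.symm
  refine ⟨c⁻¹ • f i₀, fun g hg => by rw [map_smul, hB.inv i₀ g hg], ?_⟩
  have hc' : resP τ b bU (f i₀) = c • (X () : Px Unit) ^ d i₀ := hc
  rw [map_smul, hc', smul_smul, inv_mul_cancel₀ hc0, one_smul, h3]

/-- polynomials on `U × U*` (`dim U = 1`) invariant under `(a, ξ) ↦ (ζ⁻¹ a, ζ ξ)`, `ζ` a primitive `e`-th root of unity, are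
polynomials in `a^e`, `ξ^e`, `a ξ`. -/
theorem mem_adjoin_of_inv (e : ℕ) (he : 0 < e) {ζ : ℂ} (hζ : IsPrimitiveRoot ζ e) (p : Rx Unit)
    (hp : MvPolynomial.aevalTower ((Algebra.algHom ℂ (Px Unit) (Rx Unit)).comp
      (aeval (fun _ : Unit => (ζ⁻¹ • X () : Px Unit)))) (fun _ : Unit => (ζ • X () : Rx Unit)) p = p) :
    p ∈ Algebra.adjoin ℂ ({C ((X () : Px Unit) ^ e), (X () : Rx Unit) ^ e, C (X () : Px Unit) * X ()} : Set (Rx Unit)) := by
  have hζ0 : ζ ≠ 0 := hζ.ne_zero he.ne'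
  rw [← MvPolynomial.support_sum_monomial_coeff p]
  refine Subalgebra.sum_mem _ (fun n _ => ?_)
  rw [← MvPolynomial.support_sum_monomial_coeff (coeff n p), map_sum]
  refine Subalgebra.sum_mem _ (fun m hm => ?_)
  have hne : coeff m (coeff n p) ≠ 0 := MvPolynomial.mem_support_iff.1 hm
  have h1 : coeff m (coeff n p) = ζ ^ n () * ((ζ⁻¹) ^ m () * coeff m (coeff n p)) := by
    conv_lhs => rw [← hp]
    rw [surjA_coeff_xi, coeff_smul, surjA_coeff_x, smul_eq_mul]
  have h2 : ζ ^ n () = ζ ^ m () := by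
    have h3 : (ζ ^ n () * (ζ⁻¹) ^ m () - 1) * coeff m (coeff n p) = 0 := by
      linear_combination -h1
    rcases mul_eq_zero.1 h3 with h4 | h4
    · rw [inv_pow] at h4
      have h5 : ζ ^ m () ≠ 0 := pow_ne_zero _ hζ0
      have h6 := sub_eq_zero.1 h4
      rw [mul_inv_eq_iff_eq_mul₀ h5, one_mul] at h6
      exact h6
    · exact absurd h4 hne
  have h7 : (monomial n (monomial m (coeff m (coeff n p))) : Rx Unit)
      = coeff m (coeff n p) • (C ((X () : Px Unit) ^ m ()) * (X () : Rx Unit) ^ n ()) := by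
    rw [surjA_mono n, surjA_mono m, C_mul, mul_assoc, ← smul_mul_assoc]
    have h8 : (C (C (coeff m (coeff n p))) : Rx Unit) = algebraMap ℂ (Rx Unit) (coeff m (coeff n p)) := rfl
    rw [h8, Algebra.smul_def, mul_assoc]
  rw [h7]
  exact Subalgebra.smul_mem _ (surjA_mem e hζ hζ0 h2) _

/-- `dim U = 1`: `eFix_root` gives an element of `G` acting on `U` by a primitive `e`-th root of unity, so the invariants are
polynomials in `a^e`, `ξ^e`, `aξ` (`mem_adjoin_of_inv`), which are the restrictions of the invariants of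
`exists_inv_res_pow`, `xiR q₀` (`exists_q0`; `PInv (dualGrp W) b.dualBasis q₀` gives `trR b b w (xiR q₀) = xiR q₀` by
`xiR_trP`) and `∑ i, C (X i) * X i` (see `act_eu`). The set of the `q` invariant under `W` is a subalgebra. -/
theorem surjR_unit (W : Subgroup (V ≃ₗ[ℂ] V)) [Finite W] (hW : ReflGen W) {τ : V ≃ₗ[ℂ] V}
    (hτ : Normalizes τ W) (hfin : IsOfFinOrder τ) {u : V} (hu : ∀ g ∈ W, g u = u → g = 1) (hτu : τ u = u)
    (b : Basis ι ℂ V) (bU : Basis Unit ℂ ↥(fixSub τ)) : SurjR W τ b bU := by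
  have hU := surjA_finrank bU
  have he0 : 0 < eFix W τ := eFix_pos W τ
  obtain ⟨ζ, hζ⟩ : ∃ ζ : ℂ, IsPrimitiveRoot ζ (eFix W τ) := ⟨_, Complex.isPrimitiveRoot_exp _ he0.ne'⟩
  have hζ0 : ζ ≠ 0 := hζ.ne_zero he0.ne'
  obtain ⟨g, hg, hc, hgv⟩ := eFix_root hW hτ hfin hu hτu hU hζ.pow_eq_one
  intro p hp
  let g' : ↥(fixSub τ) ≃ₗ[ℂ] ↥(fixSub τ) := LinearEquiv.smulOfNeZero ℂ _ ζ hζ0
  have hg'a : ∀ v, g' v = ζ • v := fun v => rfl
  have hg's : ∀ v, g'.symm v = ζ⁻¹ • v := by
    intro v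
    rw [LinearEquiv.symm_apply_eq, hg'a, smul_smul, mul_inv_cancel₀ hζ0, one_smul]
  have hg' : g' ∈ fixGrp W τ := by
    refine ⟨g, hg, hc, fun v => ?_⟩
    rw [hgv v v.2, hg'a]
    rfl
  have h1 := hp g' hg'
  have h2 : trR bU bU g' = MvPolynomial.aevalTower ((Algebra.algHom ℂ (Px Unit) (Rx Unit)).comp
      (aeval (fun _ : Unit => (ζ⁻¹ • X () : Px Unit)))) (fun _ : Unit => (ζ • X () : Rx Unit)) := by
    apply algHom_Rx_ext
    · intro c
      rw [trR_C, aevalTower_C]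
      have h3 : trP bU bU g' = aeval (fun _ : Unit => (ζ⁻¹ • X () : Px Unit)) := by
        apply MvPolynomial.algHom_ext
        intro i
        rw [trP_X, aeval_X]
        have h4 : (bU.coord i).comp (g'.symm : ↥(fixSub τ) →ₗ[ℂ] ↥(fixSub τ)) = ζ⁻¹ • bU.coord () := by
          ext v
          rw [LinearMap.comp_apply, LinearEquiv.coe_coe, hg's, map_smul]
          rfl
        rw [h4, map_smul, xl_coord]
      rw [h3]
      rfl
    · intro i
      rw [trR_X, aevalTower_X, hg'a, map_smul, yR_basis]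
  rw [h2] at h1
  have h3 := mem_adjoin_of_inv (eFix W τ) he0 hζ p h1
  obtain ⟨p0, hp0, hp0'⟩ := exists_inv_res_pow W hW hτ hfin hu hτu b bU
  obtain ⟨q₀, hq₀⟩ := exists_q0 hW hτ hfin hu hτu b bU
  let S : Subalgebra ℂ (Rx ι) :=
    { carrier := {q | ∀ w ∈ W, trR b b w q = q}
      mul_mem' := by
        intro x y hx hy w hw
        rw [map_mul, hx w hw, hy w hw]
      add_mem' := by
        intro x y hx hy w hw
        rw [map_add, hx w hw, hy w hw]
      algebraMap_mem' := by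
        intro r w _
        exact (trR b b w).commutes r }
  have h4 : Algebra.adjoin ℂ ({C ((X () : Px Unit) ^ eFix W τ), (X () : Rx Unit) ^ eFix W τ,
      C (X () : Px Unit) * X ()} : Set (Rx Unit)) ≤ S.map (resR τ b bU) := by
    rw [Algebra.adjoin_le_iff]
    intro x hx
    rcases hx with hx | hx | hx
    · subst hx
      exact ⟨C p0, fun w hw => by rw [trR_C, hp0 w hw], by
        show resR τ b bU (C p0) = _
        rw [resR_C, hp0']⟩
    · subst hx
      exact ⟨xiR q₀, fun w hw => by rw [← xiR_trP, hq₀.inv _ ⟨w, hw, rfl⟩], hq₀.res⟩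
    · rw [Set.mem_singleton_iff] at hx
      subst hx
      refine ⟨∑ i, C (X i : Px ι) * X i, fun w _ => jR_injective (by rw [jR_trR, ← eu_eq b, act_eu b]), ?_⟩
      show resR τ b bU (∑ i, C (X i : Px ι) * X i : Rx ι) = C (X () : Px Unit) * X ()
      rw [map_sum]
      have h5 : ∀ i, resR τ b bU (C (X i : Px ι) * X i)
          = C (X () : Px Unit) * yR bU (projT τ ((b.coord i (bU () : V)) • b i)) := by
        intro i
        rw [map_mul, resR_C, ← xl_coord b i, resP_xl, ← yR_basis b i, resR_yR, xl_apply]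
        have h5 : ∀ (c : ℂ) (p : Px Unit), (C (c • p) : Rx Unit) = c • C p :=
          fun c p => map_smul (Algebra.algHom ℂ (Px Unit) (Rx Unit)) c p
        rw [Fintype.sum_unique, h5, smul_mul_assoc, (projT τ).map_smul, (yR bU).map_smul, mul_smul_comm]
        rfl
      rw [Finset.sum_congr rfl (fun i _ => h5 i), ← Finset.mul_sum, ← map_sum, ← map_sum]
      have h6 : ∑ i, (b.coord i (bU () : V)) • b i = (bU () : V) := b.sum_repr _
      rw [h6, projT_of_mem hfin, yR_basis]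
  obtain ⟨q, hq, hq'⟩ := h4 h3
  exact ⟨q, hq, hq'⟩

/-- `free_of_isRegular` and `surjR_bases`. -/
theorem surjR_of_finrank_le_one (W : Subgroup (V ≃ₗ[ℂ] V)) [Finite W] (hW : ReflGen W) {τ : V ≃ₗ[ℂ] V}
    (hτ : Normalizes τ W) (hfin : IsOfFinOrder τ) (hreg : IsRegular W τ) (h : finrank ℂ (fixSub τ) ≤ 1)
    (b : Basis ι ℂ V) (bU : Basis κ ℂ ↥(fixSub τ)) : SurjR W τ b bU := by
  rcases Nat.le_one_iff_eq_zero_or_eq_one.1 h with h0 | h1
  · exact surjR_of_finrank_zero W h0 b bU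
  · obtain ⟨u, hτu, hu⟩ := free_of_isRegular W hW hreg
    have h2 := surjR_unit W hW hτ hfin hu hτu b (Module.basisUnique Unit h1)
    exact surjR_bases W hfin (b' := b) (bU' := Module.basisUnique Unit h1) h2

/-- `dim V ≤ 2`: `dim U ≤ 1` or `τ = 1`. -/
theorem surjR_of_finrank_le_two (W : Subgroup (V ≃ₗ[ℂ] V)) [Finite W] (hW : ReflGen W) {τ : V ≃ₗ[ℂ] V}
    (hτ : Normalizes τ W) (hfin : IsOfFinOrder τ) (hreg : IsRegular W τ) (h : finrank ℂ V ≤ 2)
    (b : Basis ι ℂ V) (bU : Basis κ ℂ ↥(fixSub τ)) : SurjR W τ b bU := by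
  by_cases h1 : finrank ℂ (fixSub τ) ≤ 1
  · exact surjR_of_finrank_le_one W hW hτ hfin hreg h1 b bU
  · have h2 : fixSub τ = ⊤ := by
      apply Submodule.eq_top_of_finrank_eq
      have h3 := Submodule.finrank_le (fixSub τ)
      omega
    have h3 : τ = 1 := by
      ext v
      have h4 : v ∈ fixSub τ := by rw [h2]; trivial
      exact mem_fixSub.1 h4
    subst h3
    exact surjR_one W b bU

end

end Pool.Agent.CM64
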