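import Pool.Agent.LibCM64.Symb
import Pool.Agent.LibCM64.SpanA

/-! `Θ` is injective; `M_k` is the set of the `Ups p`; leading components of the elements of `M_k`. -/

set_option linter.unusedSectionVars false

namespace Pool.Agent.CM64

open Module MvPolynomial

section

variable {V : Type} [AddCommGroup V] [Module ℂ V] [FiniteDimensional ℂ V]
variable {ι : Type} [Fintype ι] [DecidableEq ι]
variable (W : Subgroup (V ≃ₗ[ℂ] V)) [Finite W] (k : Submodule ℂ V → ℤ → ℂ)

private theorem pm_mulLeft (a : Ax ι) : LinearMap.mulLeft ℂ a = Algebra.lmul ℂ (Ax ι) a := rfl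

private theorem pm_monomial (α : ι →₀ ℕ) :
    ((Finset.univ : Finset ι).toList.map (fun i => (X i : Px ι) ^ (α i))).prod = monomial α 1 := by
  rw [MvPolynomial.monomial_eq, C_1, one_mul, Finsupp.prod_fintype _ _ (fun i => pow_zero _),
    Finset.prod_map_toList]

theorem Theta_cxm (hk : Adm W k) (b : Basis ι ℂ V) (α : ι →₀ ℕ) :
    Theta W k hk b (cxm W k b α) = LinearMap.mulLeft ℂ (xA (monomial α 1 : Px ι)) := by
  unfold cxm
  rw [map_list_prod, List.map_map, ← pm_monomial, map_list_prod, List.map_map, pm_mulLeft,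
    map_list_prod, List.map_map]
  congr 1
  refine List.map_congr_left fun i _ => ?_
  simp only [Function.comp_apply, map_pow]
  rw [Theta_cx, xl_coord]
  rfl

theorem Theta_cym (hk : Adm W k) (b : Basis ι ℂ V) (β : ι →₀ ℕ) :
    Theta W k hk b (cym W k b β) = TT W k b β := by
  unfold cym TT
  rw [map_list_prod, List.map_map]
  congr 1
  refine List.map_congr_left fun i _ => ?_
  simp only [Function.comp_apply, map_pow]
  rw [Theta_cy]

private theorem pm_coeff (hk : Adm W k) (b : Basis ι ℂ V) (c : Px ι) :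
    Theta W k hk b (∑ α ∈ c.support, coeff α c • cxm W k b α) = LinearMap.mulLeft ℂ (xA c) := by
  rw [map_sum]
  conv_rhs => rw [MvPolynomial.as_sum c, map_sum, pm_mulLeft, map_sum]
  refine Finset.sum_congr rfl fun α _ => ?_
  rw [map_smul, Theta_cxm, pm_mulLeft, ← map_smul, ← map_smul]
  congr 2
  rw [MvPolynomial.smul_monomial, smul_eq_mul, mul_one]

theorem Theta_Psi (hk : Adm W k) (b : Basis ι ℂ V) (p : W → Rx ι) (m : Ax ι) :
    Theta W k hk b (Psi W k b p) m = ∑ g ∈ (Set.toFinite (Set.univ : Set W)).toFinset,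
      ∑ β ∈ (p g).support, xA (coeff β (p g)) * TT W k b β (act b (g : V ≃ₗ[ℂ] V) m) := by
  unfold Psi
  rw [map_sum, LinearMap.sum_apply]
  refine Finset.sum_congr rfl fun g _ => ?_
  rw [map_sum, LinearMap.sum_apply]
  refine Finset.sum_congr rfl fun β _ => ?_
  rw [map_mul, map_mul, pm_coeff, Theta_cym, Theta_cw]
  rfl

open Classical in
/-- extension by zero of `g ↦ jR (p g)`. -/
noncomputable def extR (p : W → Rx ι) (g : V ≃ₗ[ℂ] V) : Ax ι :=
  if h : g ∈ W then jR (p ⟨g, h⟩) else 0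

private theorem pm_sum_elF {M : Type} [AddCommMonoid M] (F : (V ≃ₗ[ℂ] V) → M) :
    ∑ g ∈ elF W, F g = ∑ g ∈ (Set.toFinite (Set.univ : Set W)).toFinset, F (g : V ≃ₗ[ℂ] V) := by
  refine Finset.sum_bij' (i := fun g hg => (⟨g, (mem_elF W).1 hg⟩ : W)) (j := fun g _ => (g : V ≃ₗ[ℂ] V))
    ?_ ?_ ?_ ?_ ?_
  · intro g hg; simp
  · intro g _; exact (mem_elF W).2 g.2
  · intro g hg; rfl
  · intro g hg; rfl
  · intro g hg; rfl

private theorem pm_opOf_add (b : Basis ι ℂ V) (a a' : (V ≃ₗ[ℂ] V) → Ax ι) :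
    opOf W b (fun g => a g + a' g) = opOf W b a + opOf W b a' := by
  refine LinearMap.ext fun m => ?_
  rw [LinearMap.add_apply, opOf_apply, opOf_apply, opOf_apply, ← Finset.sum_add_distrib]
  exact Finset.sum_congr rfl fun g _ => add_mul _ _ _

private theorem pm_OpLd_zero (b : Basis ι ℂ V) (D : ℕ) : OpLd W b D (0 : Module.End ℂ (Ax ι)) := by
  refine ⟨fun _ => 0, ?_, fun g _ => Ld_zero D⟩
  refine LinearMap.ext fun m => ?_
  rw [opOf_apply, LinearMap.zero_apply]
  simp

private theorem pm_OpLd_add (b : Basis ι ℂ V) {D : ℕ} {T T' : Module.End ℂ (Ax ι)}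
    (h : OpLd W b D T) (h' : OpLd W b D T') : OpLd W b D (T + T') := by
  obtain ⟨a, rfl, ha⟩ := h
  obtain ⟨a', rfl, ha'⟩ := h'
  exact ⟨fun g => a g + a' g, (pm_opOf_add W b a a').symm, fun g hg => Ld_add (ha g hg) (ha' g hg)⟩

private theorem pm_OpLd_sum (b : Basis ι ℂ V) {D : ℕ} {α : Type*} (s : Finset α)
    (T : α → Module.End ℂ (Ax ι)) (h : ∀ i ∈ s, OpLd W b D (T i)) : OpLd W b D (∑ i ∈ s, T i) := by
  classical
  induction s using Finset.induction_on with
  | empty => rw [Finset.sum_empty]; exact pm_OpLd_zero W b D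
  | insert i s hi ih =>
    rw [Finset.sum_insert hi]
    exact pm_OpLd_add W b (h i (Finset.mem_insert_self i s))
      (ih fun j hj => h j (Finset.mem_insert_of_mem hj))

private theorem pm_OpLd_mono (b : Basis ι ℂ V) {D D' : ℕ} (hD : D ≤ D') {T : Module.End ℂ (Ax ι)}
    (h : OpLd W b D T) : OpLd W b D' T := by
  obtain ⟨a, rfl, ha⟩ := h
  exact ⟨a, rfl, fun g hg => Ld_mono hD (ha g hg)⟩

private theorem pm_OpLd_comp (b : Basis ι ℂ V) {D : ℕ} {T : Module.End ℂ (Ax ι)}
    (h : OpLd W b D T) (c : Px ι) {g : V ≃ₗ[ℂ] V} (hg : g ∈ W) :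
    OpLd W b D (LinearMap.mulLeft ℂ (xA c) ∘ₗ (T ∘ₗ (act b g).toLinearMap)) := by
  obtain ⟨a, rfl, ha⟩ := h
  refine ⟨fun h => xA c * a (h * g⁻¹), ?_, ?_⟩
  · refine LinearMap.ext fun m => ?_
    rw [opOf_apply, LinearMap.comp_apply, LinearMap.comp_apply, opOf_apply, LinearMap.mulLeft_apply,
      Finset.mul_sum]
    refine Finset.sum_bij' (i := fun h _ => h * g) (j := fun h _ => h * g⁻¹) ?_ ?_ ?_ ?_ ?_
    · intro h hh
      exact (mem_elF W).2 (W.mul_mem ((mem_elF W).1 hh) hg)
    · intro h hh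
      exact (mem_elF W).2 (W.mul_mem ((mem_elF W).1 hh) (W.inv_mem hg))
    · intro h hh
      exact mul_inv_cancel_right h g
    · intro h hh
      exact inv_mul_cancel_right h g
    · intro h hh
      rw [mul_inv_cancel_right, act_mul, mul_assoc]
      rfl
  · intro h hh
    rw [xA_apply]
    exact Ld_C_mul _ (ha _ (W.mul_mem hh (W.inv_mem hg)))

private theorem pm_jR_sum (p : Rx ι) :
    jR p = ∑ β ∈ p.support, xA (coeff β p) * (monomial β 1 : Ax ι) := by
  conv_lhs => rw [MvPolynomial.as_sum p, map_sum]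
  refine Finset.sum_congr rfl fun β _ => ?_
  rw [jR_apply, MvPolynomial.map_monomial, xA_apply, MvPolynomial.C_mul_monomial, mul_one]
  rfl

private theorem pm_degree_le {p : Rx ι} {D : ℕ} (hp : ∀ n, D < n → homogeneousComponent n p = 0)
    {β : ι →₀ ℕ} (hβ : β ∈ p.support) : β.degree ≤ D := by
  by_contra hlt
  push Not at hlt
  have h1 := hp _ hlt
  have h2 := congrArg (coeff β) h1
  rw [coeff_homogeneousComponent, if_pos rfl, coeff_zero] at h2
  exact (mem_support_iff.1 hβ) h2

/-- leading coefficients of `Θ(Psi p)`. -/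
theorem OpLd_Theta_Psi_sub (hk : Adm W k) (b : Basis ι ℂ V) (p : W → Rx ι) {D : ℕ}
    (hp : ∀ g n, D < n → homogeneousComponent n (p g) = 0) :
    OpLd W b D (Theta W k hk b (Psi W k b p) - opOf W b (extR W p)) := by
  have key : Theta W k hk b (Psi W k b p) - opOf W b (extR W p) =
      ∑ g ∈ (Set.toFinite (Set.univ : Set W)).toFinset, ∑ β ∈ (p g).support,
        LinearMap.mulLeft ℂ (xA (coeff β (p g))) ∘ₗ
          ((TT W k b β - LinearMap.mulLeft ℂ (monomial β 1 : Ax ι)) ∘ₗ
            (act b (g : V ≃ₗ[ℂ] V)).toLinearMap) := by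
    refine LinearMap.ext fun m => ?_
    rw [LinearMap.sub_apply, Theta_Psi, opOf_apply, pm_sum_elF, ← Finset.sum_sub_distrib,
      LinearMap.sum_apply]
    refine Finset.sum_congr rfl fun g _ => ?_
    have h1 : extR W p (g : V ≃ₗ[ℂ] V) = jR (p g) := by
      unfold extR
      rw [dif_pos g.2]
    rw [h1, pm_jR_sum, Finset.sum_mul, ← Finset.sum_sub_distrib, LinearMap.sum_apply]
    refine Finset.sum_congr rfl fun β _ => ?_
    rw [mul_assoc, ← mul_sub]
    rfl
  rw [key]
  refine pm_OpLd_sum W b _ _ fun g _ => pm_OpLd_sum W b _ _ fun β hβ => ?_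
  exact pm_OpLd_comp W b (pm_OpLd_mono W b (pm_degree_le (hp g) hβ) (OpLd_TT_sub W k b β)) _ g.2

private theorem pm_hc_jR {n : ℕ} {p : Rx ι} (h : homogeneousComponent n (jR p) = 0) :
    homogeneousComponent n p = 0 := by
  rw [homogeneousComponent_jR] at h
  exact jR_injective (by rw [h, map_zero])

private theorem pm_exists_D (p : Rx ι) : ∃ D : ℕ, ∀ n, D < n → homogeneousComponent n p = 0 :=
  ⟨p.totalDegree, fun _ hn => homogeneousComponent_eq_zero _ _ hn⟩

private theorem pm_zero_of_hc {p : Rx ι} (h : ∀ n, homogeneousComponent n p = 0) : p = 0 := by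
  rw [← sum_homogeneousComponent p]
  exact Finset.sum_eq_zero fun n _ => h n

private theorem pm_zero (hk : Adm W k) (b : Basis ι ℂ V) (p : W → Rx ι)
    (h0 : Theta W k hk b (Psi W k b p) = 0) :
    ∀ D : ℕ, (∀ g n, D < n → homogeneousComponent n (p g) = 0) → p = 0 := by
  have step : ∀ D : ℕ, (∀ g n, D < n → homogeneousComponent n (p g) = 0) →
      ∀ g, homogeneousComponent D (p g) = 0 := by
    intro D hp g
    obtain ⟨a, ha, haL⟩ := OpLd_Theta_Psi_sub W k hk b p hp
    have h1 : opOf W b (fun g => a g + extR W p g) = opOf W b (fun _ => 0) := by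
      rw [pm_opOf_add, ← ha, h0]
      refine LinearMap.ext fun m => ?_
      rw [opOf_apply]
      simp
    have h2 := opOf_inj W b h1 (g : V ≃ₗ[ℂ] V) g.2
    have h3 : extR W p (g : V ≃ₗ[ℂ] V) = jR (p g) := by
      unfold extR
      rw [dif_pos g.2]
    rw [h3] at h2
    have h4 := haL (g : V ≃ₗ[ℂ] V) g.2 D le_rfl
    refine pm_hc_jR ?_
    have h5 : jR (p g) = 0 - a (g : V ≃ₗ[ℂ] V) := by rw [← h2]; ring
    rw [h5, map_sub, map_zero, h4, sub_zero]
  intro D
  induction D with
  | zero =>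
    intro hp
    funext g
    refine pm_zero_of_hc fun n => ?_
    rcases Nat.eq_zero_or_pos n with rfl | hn
    · exact step 0 hp g
    · exact hp g n hn
  | succ D ih =>
    intro hp
    refine ih fun g n hn => ?_
    rcases Nat.lt_or_ge (D + 1) n with h | h
    · exact hp g n h
    · have : n = D + 1 := by omega
      rw [this]
      exact step (D + 1) hp g

/-- `Θ` is injective: by `Psi_surjective` and `OpLd_Theta_Psi_sub` (take `D` minimal) and `opOf_inj`. -/
theorem Theta_injective (hk : Adm W k) (b : Basis ι ℂ V) : Function.Injective (Theta W k hk b) := by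
  rw [injective_iff_map_eq_zero]
  intro a ha
  obtain ⟨p, rfl⟩ := Psi_surjective W k b a
  have : Fintype W := Fintype.ofFinite W
  choose D hD using fun g : W => pm_exists_D (p g)
  have h := pm_zero W k hk b p ha (∑ g, D g) (fun g n hn => hD g n
    (lt_of_le_of_lt (Finset.single_le_sum (f := D) (fun _ _ => Nat.zero_le _) (Finset.mem_univ g)) hn))
  rw [h]
  unfold Psi
  simp

private theorem pm_Ups (b : Basis ι ℂ V) (p : Rx ι) :
    Ups W k b p = ∑ β ∈ p.support, xA (coeff β p) * TT W k b β 1 := rfl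

private theorem pm_TT_mem (b : Basis ι ℂ V) (β : ι →₀ ℕ) {m : Ax ι} (hm : m ∈ Mk W k b) :
    TT W k b β m ∈ Mk W k b := by
  have hpow : ∀ (v : V) (n : ℕ) (m : Ax ι), m ∈ Mk W k b → (dunkl W k b v ^ n) m ∈ Mk W k b := by
    intro v n
    induction n with
    | zero => intro m hm; exact hm
    | succ n ih =>
      intro m hm
      rw [pow_succ]
      exact ih _ (Mk_dunkl W k hm v)
  unfold TT
  generalize (Finset.univ : Finset ι).toList = l
  induction l with
  | nil => exact hm
  | cons i l ih =>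
    rw [List.map_cons, List.prod_cons]
    exact hpow _ _ _ ih

private theorem pm_Ups_mem (b : Basis ι ℂ V) (p : Rx ι) : Ups W k b p ∈ Mk W k b := by
  rw [pm_Ups]
  exact Submodule.sum_mem _ fun β _ => Mk_xA W k (pm_TT_mem W k b β (Mk_one W k b)) _

/-- `M_k` is the set of the `Ups p` (use `mem_Mk_iff`, `Psi_surjective`, `Theta_Psi`). -/
theorem mem_Mk_iff_Ups (hk : Adm W k) (b : Basis ι ℂ V) (m : Ax ι) :
    m ∈ Mk W k b ↔ ∃ p : Rx ι, Ups W k b p = m := by
  constructor
  · intro hm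
    obtain ⟨a, ha⟩ := (mem_Mk_iff W k hk b m).1 hm
    obtain ⟨p, rfl⟩ := Psi_surjective W k b a
    refine ⟨∑ g ∈ (Set.toFinite (Set.univ : Set W)).toFinset, p g, ?_⟩
    rw [map_sum, ← ha, Theta_Psi]
    refine Finset.sum_congr rfl fun g _ => ?_
    rw [pm_Ups]
    refine Finset.sum_congr rfl fun β _ => ?_
    rw [map_one (act b (g : V ≃ₗ[ℂ] V))]
  · rintro ⟨p, rfl⟩
    exact pm_Ups_mem W k b p

/-- the leading component of an element of `M_k` is polynomial. -/
theorem Mk_leading (hk : Adm W k) (b : Basis ι ℂ V) {m : Ax ι} (hm : m ∈ Mk W k b) {n : ℕ}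
    (hn : Ld (n + 1) m) : ∃ p : Rx ι, jR p = homogeneousComponent n m := by
  obtain ⟨p, rfl⟩ := (mem_Mk_iff_Ups W k hk b m).1 hm
  have key : ∀ D : ℕ, (∀ n', D < n' → homogeneousComponent n' p = 0) →
      ∃ q : Rx ι, jR q = homogeneousComponent n (Ups W k b p) := by
    intro D
    induction D with
    | zero =>
      intro hp
      refine ⟨homogeneousComponent n p, ?_⟩
      have h := Ld_Ups_sub W k b hp n (Nat.zero_le n)
      rw [map_sub, sub_eq_zero] at h
      rw [h, homogeneousComponent_jR]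
    | succ D ih =>
      intro hp
      have hL := Ld_Ups_sub W k b hp
      rcases Nat.lt_or_ge n (D + 1) with h | h
      · refine ih fun n' hn' => ?_
        rcases Nat.lt_or_ge (D + 1) n' with h' | h'
        · exact hp n' h'
        · have e : n' = D + 1 := by omega
          rw [e]
          have h1 := hL (D + 1) le_rfl
          have h2 := hn (D + 1) (by omega)
          rw [map_sub, h2, zero_sub, neg_eq_zero] at h1
          exact pm_hc_jR h1
      · refine ⟨homogeneousComponent n p, ?_⟩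
        have h1 := hL n h
        rw [map_sub, sub_eq_zero] at h1
        rw [h1, homogeneousComponent_jR]
  obtain ⟨D, hD⟩ := pm_exists_D p
  exact key D hD

private theorem pm_hom {p : Rx ι} {n : ℕ} (hp : p.IsHomogeneous n) :
    ∀ n', n < n' → homogeneousComponent n' p = 0 := by
  intro n' hn'
  rw [homogeneousComponent_of_mem ((mem_homogeneousSubmodule n p).2 hp), if_neg (by omega)]

/-- every polynomial is the leading component of an element of `M_k`. -/
theorem Mk_lift (hk : Adm W k) (b : Basis ι ℂ V) {p : Rx ι} {n : ℕ} (hp : p.IsHomogeneous n) :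
    ∃ m ∈ Mk W k b, Ld n (m - jR p) :=
  ⟨Ups W k b p, (mem_Mk_iff_Ups W k hk b _).2 ⟨p, rfl⟩, Ld_Ups_sub W k b (pm_hom hp)⟩

/-- averaging over `W`. -/
theorem Mk_lift_inv (hk : Adm W k) (b : Basis ι ℂ V) {p : Rx ι} {n : ℕ} (hp : p.IsHomogeneous n)
    (hinv : ∀ g ∈ W, trR b b g p = p) : ∃ m ∈ Mk W k b, InvA W b m ∧ Ld n (m - jR p) := by
  obtain ⟨m, hm, hL⟩ := Mk_lift W k hk b hp
  have hne : (elF W).Nonempty := ⟨1, (mem_elF W).2 W.one_mem⟩
  have hc : ((elF W).card : ℂ) ≠ 0 := by
    exact_mod_cast hne.card_pos.ne'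
  refine ⟨((elF W).card : ℂ)⁻¹ • ∑ g ∈ elF W, act b g m, ?_, ?_, ?_⟩
  · exact Submodule.smul_mem _ _ (Submodule.sum_mem _ fun g hg =>
      act_mem_Mk hk b ((mem_elF W).1 hg) hm)
  · intro h hh
    rw [map_smul, map_sum]
    refine congrArg (fun x : Ax ι => ((elF W).card : ℂ)⁻¹ • x) ?_
    refine Finset.sum_bij' (i := fun g _ => h * g) (j := fun g _ => h⁻¹ * g) ?_ ?_ ?_ ?_ ?_
    · intro g hg
      exact (mem_elF W).2 (W.mul_mem hh ((mem_elF W).1 hg))
    · intro g hg
      exact (mem_elF W).2 (W.mul_mem (W.inv_mem hh) ((mem_elF W).1 hg))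
    · intro g hg
      exact inv_mul_cancel_left h g
    · intro g hg
      exact mul_inv_cancel_left h g
    · intro g hg
      exact (act_mul b h g m).symm
  · have h1 : ((elF W).card : ℂ)⁻¹ • ∑ g ∈ elF W, act b g m - jR p =
        ((elF W).card : ℂ)⁻¹ • ∑ g ∈ elF W, act b g (m - jR p) := by
      have h2 : ∀ g ∈ elF W, act b g (m - jR p) = act b g m - jR p := by
        intro g hg
        rw [map_sub, ← jR_trR, hinv g ((mem_elF W).1 hg)]
      rw [Finset.sum_congr rfl h2, Finset.sum_sub_distrib, smul_sub, Finset.sum_const,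
        ← Nat.cast_smul_eq_nsmul ℂ, smul_smul, inv_mul_cancel₀ hc, one_smul]
    rw [h1]
    exact Ld_smul _ (Ld_sum _ _ fun g _ => Ld_trA b b g hL)

end

end Pool.Agent.CM64
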