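import Pool.Agent.LibCM64.DComm
import Pool.Agent.LibCM64.SpecB

/-! The representation `Θ : 𝐇_k → End(ℂ(V)[ξ])` at `t = 0`. -/

set_option linter.unusedSectionVars false

namespace Pool.Agent.CM64

open Module MvPolynomial

section

variable {V : Type} [AddCommGroup V] [Module ℂ V] [FiniteDimensional ℂ V]
variable {ι : Type} [Fintype ι] [DecidableEq ι]
variable (W : Subgroup (V ≃ₗ[ℂ] V)) [Finite W] (k : Submodule ℂ V → ℤ → ℂ)

/-- `Θ` on the generators. -/
noncomputable def thG (b : Basis ι ℂ V) : Gen W → Module.End ℂ (Ax ι)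
  | Gen.x f => LinearMap.mulLeft ℂ (xA (xl b f))
  | Gen.y v => dunkl W k b v
  | Gen.w g => (act b (g : V ≃ₗ[ℂ] V)).toLinearMap
  | Gen.t => 0

/-- `Θ` on the free algebra. -/
noncomputable def thF (b : Basis ι ℂ V) : FreeAlgebra ℂ (Gen W) →ₐ[ℂ] Module.End ℂ (Ax ι) :=
  FreeAlgebra.lift ℂ (thG W k b)

private theorem theta_thF_x (b : Basis ι ℂ V) (f : Dual ℂ V) :
    thF W k b (xF W f) = LinearMap.mulLeft ℂ (xA (xl b f)) := by
  rw [thF, xF, FreeAlgebra.lift_ι_apply]; rfl

private theorem theta_thF_y (b : Basis ι ℂ V) (v : V) :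
    thF W k b (yF W v) = dunkl W k b v := by
  rw [thF, yF, FreeAlgebra.lift_ι_apply]; rfl

private theorem theta_thF_w (b : Basis ι ℂ V) (g : W) :
    thF W k b (wF W g) = (act b (g : V ≃ₗ[ℂ] V)).toLinearMap := by
  rw [thF, wF, FreeAlgebra.lift_ι_apply]; rfl

private theorem theta_thF_t (b : Basis ι ℂ V) : thF W k b (tF W) = 0 := by
  rw [thF, tF, FreeAlgebra.lift_ι_apply]; rfl

private theorem theta_thF_eps (b : Basis ι ℂ V) (H : Submodule ℂ V) (j : ℕ) :
    thF W k b (epsF W H j) = epsop W b H j := by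
  rw [epsF, epsop, map_smul, map_sum, ← Finset.sum_attach (pstF W H)]
  refine congrArg _ (Finset.sum_congr rfl (fun g _ => ?_))
  rw [map_smul, theta_thF_w]

theorem thF_commF (b : Basis ι ℂ V) (v : V) (f : Dual ℂ V) (m : Ax ι) :
    thF W k b (commF W k v f) m = ∑ H ∈ arrF W, ∑ j ∈ Finset.range (eH W H),
          ((eH W H : ℂ) * (k H j - k H (j + 1)) * f (projH W H v)) • epsop W b H j m := by
  rw [commF, map_add, map_smul, theta_thF_t, smul_zero, zero_add, map_sum, LinearMap.sum_apply]
  refine Finset.sum_congr rfl (fun H _ => ?_)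
  rw [map_sum, LinearMap.sum_apply]
  refine Finset.sum_congr rfl (fun j _ => ?_)
  rw [map_smul, theta_thF_eps, LinearMap.smul_apply]

/-- the relations of `𝐇_k` are satisfied (by `dunkl_xl`, `dunkl_comm`, `trA_dunkl`, …). -/
theorem thF_rel (hk : Adm W k) (b : Basis ι ℂ V) {a a' : FreeAlgebra ℂ (Gen W)}
    (h : Rel W k True a a') : thF W k b a = thF W k b a' := by
  cases h with
  | x_add f f' =>
    rw [map_add, theta_thF_x, theta_thF_x, theta_thF_x]
    refine LinearMap.ext (fun m => ?_)
    rw [LinearMap.add_apply, LinearMap.mulLeft_apply, LinearMap.mulLeft_apply,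
      LinearMap.mulLeft_apply, map_add, map_add, add_mul]
  | x_smul c f =>
    rw [map_smul, theta_thF_x, theta_thF_x]
    refine LinearMap.ext (fun m => ?_)
    rw [LinearMap.smul_apply, LinearMap.mulLeft_apply, LinearMap.mulLeft_apply, map_smul, map_smul,
      smul_mul_assoc]
  | y_add v v' =>
    rw [map_add, theta_thF_y, theta_thF_y, theta_thF_y, dunkl_add]
  | y_smul c v =>
    rw [map_smul, theta_thF_y, theta_thF_y, dunkl_smul]
  | w_one =>
    rw [map_one, theta_thF_w]
    refine LinearMap.ext (fun m => ?_)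
    exact act_one b m
  | w_mul g h =>
    rw [map_mul, theta_thF_w, theta_thF_w, theta_thF_w]
    refine LinearMap.ext (fun m => ?_)
    exact act_mul b (g : V ≃ₗ[ℂ] V) (h : V ≃ₗ[ℂ] V) m
  | xx f f' =>
    rw [map_mul, map_mul, theta_thF_x, theta_thF_x]
    refine LinearMap.ext (fun m => ?_)
    rw [Module.End.mul_apply, Module.End.mul_apply, LinearMap.mulLeft_apply, LinearMap.mulLeft_apply,
      LinearMap.mulLeft_apply, LinearMap.mulLeft_apply, mul_left_comm]
  | yy v v' =>
    rw [map_mul, map_mul, theta_thF_y, theta_thF_y]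
    exact dunkl_comm W k hk b v v'
  | wx g f =>
    rw [map_mul, map_mul, theta_thF_x, theta_thF_x, theta_thF_w]
    refine LinearMap.ext (fun m => ?_)
    rw [Module.End.mul_apply, Module.End.mul_apply, LinearMap.mulLeft_apply, LinearMap.mulLeft_apply,
      AlgHom.toLinearMap_apply, AlgHom.toLinearMap_apply, map_mul, trA_xA, trP_xl]
  | wy g v =>
    rw [map_mul, map_mul, theta_thF_y, theta_thF_y, theta_thF_w]
    refine LinearMap.ext (fun m => ?_)
    rw [Module.End.mul_apply, Module.End.mul_apply, AlgHom.toLinearMap_apply,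
      AlgHom.toLinearMap_apply]
    exact trA_dunkl (tp_of_mem hk g.2) b b v m
  | tx f => rw [map_mul, map_mul, theta_thF_t, zero_mul, mul_zero]
  | ty v => rw [map_mul, map_mul, theta_thF_t, zero_mul, mul_zero]
  | tw g => rw [map_mul, map_mul, theta_thF_t, zero_mul, mul_zero]
  | yx v f =>
    rw [map_add, map_mul, map_mul, theta_thF_x, theta_thF_y]
    refine LinearMap.ext (fun m => ?_)
    rw [LinearMap.add_apply, Module.End.mul_apply, Module.End.mul_apply, LinearMap.mulLeft_apply,
      LinearMap.mulLeft_apply, thF_commF]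
    exact dunkl_xl W k hk b v f m
  | t_zero h => rw [theta_thF_t, map_zero]

/-- `Θ : 𝐇_k → End(ℂ(V)[ξ])`. -/
noncomputable def Theta (hk : Adm W k) (b : Basis ι ℂ V) : Ch W k True →ₐ[ℂ] Module.End ℂ (Ax ι) :=
  RingQuot.liftAlgHom ℂ ⟨thF W k b, fun _ _ h => thF_rel W k hk b h⟩

theorem Theta_cx (hk : Adm W k) (b : Basis ι ℂ V) (f : Dual ℂ V) :
    Theta W k hk b (cx W k True f) = LinearMap.mulLeft ℂ (xA (xl b f)) := by
  rw [Theta, cx, RingQuot.liftAlgHom_mkAlgHom_apply, theta_thF_x]

theorem Theta_cy (hk : Adm W k) (b : Basis ι ℂ V) (v : V) :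
    Theta W k hk b (cy W k True v) = dunkl W k b v := by
  rw [Theta, cy, RingQuot.liftAlgHom_mkAlgHom_apply, theta_thF_y]

theorem Theta_cw (hk : Adm W k) (b : Basis ι ℂ V) (g : W) :
    Theta W k hk b (cw W k True g) = (act b (g : V ≃ₗ[ℂ] V)).toLinearMap := by
  rw [Theta, cw, RingQuot.liftAlgHom_mkAlgHom_apply, theta_thF_w]

theorem Theta_mem_OpAlg (hk : Adm W k) (b : Basis ι ℂ V) (a : Ch W k True) :
    Theta W k hk b a ∈ OpAlg W b := by
  have h : a ∈ (OpAlg W b).comap (Theta W k hk b) := by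
    refine Ch_ind W k True _ (fun f => ?_) (fun v => ?_) (fun g => ?_) ?_ a
    · rw [Subalgebra.mem_comap, Theta_cx]
      exact mulLeft_mem_OpAlg W b _
    · rw [Subalgebra.mem_comap, Theta_cy]
      exact dunkl_mem_OpAlg W k b v
    · rw [Subalgebra.mem_comap, Theta_cw]
      exact act_mem_OpAlg W b g.2
    · rw [Subalgebra.mem_comap, ct_true, map_zero]
      exact Subalgebra.zero_mem _
  exact h

/-- `Θ(a) m ∈ M_k` for `m ∈ M_k` (by `Ch_induction`-type argument; `W` preserves `M_k`). -/
theorem Theta_apply_mem_Mk (hk : Adm W k) (b : Basis ι ℂ V) (a : Ch W k True) {m : Ax ι}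
    (hm : m ∈ Mk W k b) : Theta W k hk b a m ∈ Mk W k b := by
  let N : Subalgebra ℂ (Module.End ℂ (Ax ι)) :=
    { carrier := {T | ∀ m ∈ Mk W k b, T m ∈ Mk W k b}
      mul_mem' := fun {S T} hS hT m hm => hS _ (hT m hm)
      add_mem' := fun {S T} hS hT m hm => Submodule.add_mem _ (hS m hm) (hT m hm)
      algebraMap_mem' := fun c m hm => Submodule.smul_mem _ c hm }
  have h : a ∈ N.comap (Theta W k hk b) := by
    refine Ch_ind W k True _ (fun f => ?_) (fun v => ?_) (fun g => ?_) ?_ a
    · rw [Subalgebra.mem_comap, Theta_cx]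
      exact fun m hm => Mk_xl W k hm f
    · rw [Subalgebra.mem_comap, Theta_cy]
      exact fun m hm => Mk_dunkl W k hm v
    · rw [Subalgebra.mem_comap, Theta_cw]
      exact fun m hm => act_mem_Mk hk b g.2 hm
    · rw [Subalgebra.mem_comap, ct_true, map_zero]
      exact Subalgebra.zero_mem _
  exact h m hm

/-- `M_k = 𝐇_k 1`. -/
theorem mem_Mk_iff (hk : Adm W k) (b : Basis ι ℂ V) (m : Ax ι) :
    m ∈ Mk W k b ↔ ∃ a : Ch W k True, Theta W k hk b a 1 = m := by
  constructor
  · intro hm
    let N : Submodule ℂ (Ax ι) :=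
      { carrier := {m | ∃ a : Ch W k True, Theta W k hk b a 1 = m}
        add_mem' := by
          rintro m m' ⟨a, rfl⟩ ⟨a', rfl⟩
          exact ⟨a + a', by rw [map_add, LinearMap.add_apply]⟩
        zero_mem' := ⟨0, by rw [map_zero, LinearMap.zero_apply]⟩
        smul_mem' := by
          rintro c m ⟨a, rfl⟩
          exact ⟨c • a, by rw [map_smul, LinearMap.smul_apply]⟩ }
    have hN : IsStab W k b N :=
      { one := ⟨1, by rw [map_one (Theta W k hk b)]; rfl⟩
        x := by
          rintro f m ⟨a, rfl⟩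
          refine ⟨cx W k True f * a, ?_⟩
          rw [map_mul, Module.End.mul_apply, Theta_cx, LinearMap.mulLeft_apply]
        y := by
          rintro v m ⟨a, rfl⟩
          refine ⟨cy W k True v * a, ?_⟩
          rw [map_mul, Module.End.mul_apply, Theta_cy] }
    exact Mk_le W k hN hm
  · rintro ⟨a, rfl⟩
    exact Theta_apply_mem_Mk W k hk b a (Mk_one W k b)

/-- `Θ(a)` commutes with the multiplication by a `W`-invariant element. -/
theorem Theta_mul_inv (hk : Adm W k) (b : Basis ι ℂ V) (a : Ch W k True) {f : Ax ι}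
    (hf : InvA W b f) (m : Ax ι) : Theta W k hk b a (f * m) = f * Theta W k hk b a m := by
  let N : Subalgebra ℂ (Module.End ℂ (Ax ι)) :=
    { carrier := {T | ∀ m, T (f * m) = f * T m}
      mul_mem' := by
        intro S T hS hT m
        rw [Module.End.mul_apply, Module.End.mul_apply, hT, hS]
      add_mem' := by
        intro S T hS hT m
        rw [LinearMap.add_apply, LinearMap.add_apply, hT, hS, mul_add]
      algebraMap_mem' := by
        intro c m
        rw [Module.algebraMap_end_apply, Module.algebraMap_end_apply, mul_smul_comm] }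
  have h : a ∈ N.comap (Theta W k hk b) := by
    refine Ch_ind W k True _ (fun f' => ?_) (fun v => ?_) (fun g => ?_) ?_ a
    · rw [Subalgebra.mem_comap, Theta_cx]
      intro m
      rw [LinearMap.mulLeft_apply, LinearMap.mulLeft_apply, mul_left_comm]
    · rw [Subalgebra.mem_comap, Theta_cy]
      exact fun m => dunkl_mul_inv W k b v hf m
    · rw [Subalgebra.mem_comap, Theta_cw]
      intro m
      rw [AlgHom.toLinearMap_apply, AlgHom.toLinearMap_apply, map_mul, hf g.1 g.2]
    · rw [Subalgebra.mem_comap, ct_true, map_zero]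
      exact Subalgebra.zero_mem _
  exact h m

end

end Pool.Agent.CM64
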