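import Pool.Agent.LibCM64.Base

/-! Transport of functions along linear isomorphisms. -/

set_option linter.unusedSectionVars false

namespace Pool.Agent.CM64

open Module MvPolynomial

section Tr

variable {V : Type} [AddCommGroup V] [Module ℂ V]
variable {V' : Type} [AddCommGroup V'] [Module ℂ V']
variable {V'' : Type} [AddCommGroup V''] [Module ℂ V'']
variable {ι : Type} [Fintype ι] {ι' : Type} [Fintype ι'] {ι'' : Type} [Fintype ι'']

/-- `f ↦ f ∘ g⁻¹` on polynomial functions. -/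
noncomputable def trP (b : Basis ι ℂ V) (b' : Basis ι' ℂ V') (g : V ≃ₗ[ℂ] V') : Px ι →ₐ[ℂ] Px ι' :=
  aeval (fun i => xl b' ((b.coord i).comp (g.symm : V' →ₗ[ℂ] V)))

theorem trP_X (b : Basis ι ℂ V) (b' : Basis ι' ℂ V') (g : V ≃ₗ[ℂ] V') (i : ι) :
    trP b b' g (X i) = xl b' ((b.coord i).comp (g.symm : V' →ₗ[ℂ] V)) := by
  simp [trP]

theorem trP_xl (b : Basis ι ℂ V) (b' : Basis ι' ℂ V') (g : V ≃ₗ[ℂ] V') (f : Dual ℂ V) :
    trP b b' g (xl b f) = xl b' (f.comp (g.symm : V' →ₗ[ℂ] V)) := by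
  rw [xl_apply, map_sum]
  have : f.comp (g.symm : V' →ₗ[ℂ] V) = ∑ i, f (b i) • ((b.coord i).comp (g.symm : V' →ₗ[ℂ] V)) := by
    ext v
    have h := b.sum_repr (g.symm v)
    calc (f.comp (g.symm : V' →ₗ[ℂ] V)) v = f (g.symm v) := rfl
      _ = f (∑ i, b.repr (g.symm v) i • b i) := by rw [h]
      _ = _ := by
        simp only [map_sum, map_smul, smul_eq_mul, LinearMap.coe_sum, Finset.sum_apply,
          LinearMap.smul_apply, LinearMap.comp_apply, LinearEquiv.coe_coe, Basis.coord_apply]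
        exact Finset.sum_congr rfl (fun i _ => mul_comm _ _)
  rw [this, map_sum]
  refine Finset.sum_congr rfl (fun i _ => ?_)
  rw [map_smul, trP_X, map_smul]

theorem trP_trans (b : Basis ι ℂ V) (b' : Basis ι' ℂ V') (b'' : Basis ι'' ℂ V'')
    (g : V ≃ₗ[ℂ] V') (h : V' ≃ₗ[ℂ] V'') :
    (trP b' b'' h).comp (trP b b' g) = trP b b'' (g.trans h) := by
  apply MvPolynomial.algHom_ext
  intro i
  rw [AlgHom.comp_apply, trP_X, trP_xl, trP_X]
  rfl

theorem trP_trans_apply (b : Basis ι ℂ V) (b' : Basis ι' ℂ V') (b'' : Basis ι'' ℂ V'')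
    (g : V ≃ₗ[ℂ] V') (h : V' ≃ₗ[ℂ] V'') (p : Px ι) :
    trP b' b'' h (trP b b' g p) = trP b b'' (g.trans h) p := by
  rw [← trP_trans b b' b'' g h, AlgHom.comp_apply]

theorem trP_refl (b : Basis ι ℂ V) : trP b b (LinearEquiv.refl ℂ V) = AlgHom.id ℂ (Px ι) := by
  classical
  apply MvPolynomial.algHom_ext
  intro i
  rw [trP_X, AlgHom.id_apply]
  have : (b.coord i).comp ((LinearEquiv.refl ℂ V).symm : V →ₗ[ℂ] V) = b.coord i := by
    ext v; rfl
  rw [this, xl_coord]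

theorem trP_symm_apply (b : Basis ι ℂ V) (b' : Basis ι' ℂ V') (g : V ≃ₗ[ℂ] V') (p : Px ι) :
    trP b' b g.symm (trP b b' g p) = p := by
  rw [trP_trans_apply, LinearEquiv.self_trans_symm, trP_refl, AlgHom.id_apply]

theorem trP_injective (b : Basis ι ℂ V) (b' : Basis ι' ℂ V') (g : V ≃ₗ[ℂ] V') :
    Function.Injective (trP b b' g) :=
  Function.LeftInverse.injective (trP_symm_apply b b' g)

/-- transport of rational functions. -/
noncomputable def trF (b : Basis ι ℂ V) (b' : Basis ι' ℂ V') (g : V ≃ₗ[ℂ] V') : Fx ι →ₐ[ℂ] Fx ι' :=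
  IsFractionRing.liftAlgHom (A := Px ι) (K := Fx ι) (g := (pF : Px ι' →ₐ[ℂ] Fx ι').comp (trP b b' g))
    (pF_injective.comp (trP_injective b b' g))

theorem trF_pF (b : Basis ι ℂ V) (b' : Basis ι' ℂ V') (g : V ≃ₗ[ℂ] V') (p : Px ι) :
    trF b b' g (pF p) = pF (trP b b' g p) := by
  have hinj : Function.Injective ((pF : Px ι' →ₐ[ℂ] Fx ι').comp (trP b b' g)) :=
    pF_injective.comp (trP_injective b b' g)
  exact IsFractionRing.lift_algebraMap (A := Px ι) (K := Fx ι)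
    (g := ((pF : Px ι' →ₐ[ℂ] Fx ι').comp (trP b b' g)).toRingHom) hinj p

theorem algHom_Fx_ext {B : Type} [Field B] [Algebra ℂ B] {f g : Fx ι →ₐ[ℂ] B}
    (h : ∀ p : Px ι, f (pF p) = g (pF p)) : f = g := by
  apply AlgHom.ext
  intro x
  obtain ⟨p, q, hq, rfl⟩ := IsFractionRing.div_surjective (A := Px ι) x
  rw [map_div₀, map_div₀]
  have h1 := h p
  have h2 := h q
  rw [pF_apply] at h1 h2
  rw [h1, h2]

theorem trF_trans (b : Basis ι ℂ V) (b' : Basis ι' ℂ V') (b'' : Basis ι'' ℂ V'')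
    (g : V ≃ₗ[ℂ] V') (h : V' ≃ₗ[ℂ] V'') :
    (trF b' b'' h).comp (trF b b' g) = trF b b'' (g.trans h) := by
  apply algHom_Fx_ext
  intro p
  rw [AlgHom.comp_apply, trF_pF, trF_pF, trF_pF, trP_trans_apply]

theorem trF_refl (b : Basis ι ℂ V) : trF b b (LinearEquiv.refl ℂ V) = AlgHom.id ℂ (Fx ι) := by
  apply algHom_Fx_ext
  intro p
  rw [trF_pF, trP_refl, AlgHom.id_apply, AlgHom.id_apply]

/-- transport on `ℂ(V)[ξ]`: `x ↦ x ∘ g⁻¹` for `x ∈ V*`, `y ↦ g y` for `y ∈ V`. -/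
noncomputable def trA (b : Basis ι ℂ V) (b' : Basis ι' ℂ V') (g : V ≃ₗ[ℂ] V') : Ax ι →ₐ[ℂ] Ax ι' :=
  MvPolynomial.aevalTower ((Algebra.algHom ℂ (Fx ι') (Ax ι')).comp (trF b b' g))
    (fun i => yA b' (g (b i)))

/-- transport on `ℂ[V][ξ]`. -/
noncomputable def trR (b : Basis ι ℂ V) (b' : Basis ι' ℂ V') (g : V ≃ₗ[ℂ] V') : Rx ι →ₐ[ℂ] Rx ι' :=
  MvPolynomial.aevalTower ((Algebra.algHom ℂ (Px ι') (Rx ι')).comp (trP b b' g))
    (fun i => yR b' (g (b i)))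

theorem trA_C (b : Basis ι ℂ V) (b' : Basis ι' ℂ V') (g : V ≃ₗ[ℂ] V') (c : Fx ι) :
    trA b b' g (C c) = C (trF b b' g c) := by
  rw [trA, MvPolynomial.aevalTower_C]; rfl

theorem trA_X (b : Basis ι ℂ V) (b' : Basis ι' ℂ V') (g : V ≃ₗ[ℂ] V') (i : ι) :
    trA b b' g (X i) = yA b' (g (b i)) := by
  rw [trA, MvPolynomial.aevalTower_X]

theorem trR_C (b : Basis ι ℂ V) (b' : Basis ι' ℂ V') (g : V ≃ₗ[ℂ] V') (c : Px ι) :
    trR b b' g (C c) = C (trP b b' g c) := by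
  rw [trR, MvPolynomial.aevalTower_C]; rfl

theorem trR_X (b : Basis ι ℂ V) (b' : Basis ι' ℂ V') (g : V ≃ₗ[ℂ] V') (i : ι) :
    trR b b' g (X i) = yR b' (g (b i)) := by
  rw [trR, MvPolynomial.aevalTower_X]

theorem trA_xA (b : Basis ι ℂ V) (b' : Basis ι' ℂ V') (g : V ≃ₗ[ℂ] V') (p : Px ι) :
    trA b b' g (xA p) = xA (trP b b' g p) := by
  rw [xA_apply, trA_C, trF_pF, xA_apply]

theorem trA_yA (b : Basis ι ℂ V) (b' : Basis ι' ℂ V') (g : V ≃ₗ[ℂ] V') (v : V) :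
    trA b b' g (yA b v) = yA b' (g v) := by
  have h := b.sum_repr v
  conv_rhs => rw [← h]
  rw [yA_apply, map_sum, map_sum, map_sum]
  refine Finset.sum_congr rfl (fun i _ => ?_)
  rw [map_smul, trA_X, map_smul, map_smul]

theorem trR_yR (b : Basis ι ℂ V) (b' : Basis ι' ℂ V') (g : V ≃ₗ[ℂ] V') (v : V) :
    trR b b' g (yR b v) = yR b' (g v) := by
  have h := b.sum_repr v
  conv_rhs => rw [← h]
  rw [yR_apply, map_sum, map_sum, map_sum]
  refine Finset.sum_congr rfl (fun i _ => ?_)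
  rw [map_smul, trR_X, map_smul, map_smul]

theorem algHom_Ax_ext {B : Type} [CommRing B] [Algebra ℂ B] {f g : Ax ι →ₐ[ℂ] B}
    (hC : ∀ c : Fx ι, f (C c) = g (C c)) (hX : ∀ i, f (X i) = g (X i)) : f = g := by
  apply AlgHom.ext
  intro x
  induction x using MvPolynomial.induction_on with
  | C a => exact hC a
  | add p q hp hq => rw [map_add, map_add, hp, hq]
  | mul_X p i hp => rw [map_mul, map_mul, hp, hX]

theorem algHom_Rx_ext {B : Type} [CommRing B] [Algebra ℂ B] {f g : Rx ι →ₐ[ℂ] B}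
    (hC : ∀ c : Px ι, f (C c) = g (C c)) (hX : ∀ i, f (X i) = g (X i)) : f = g := by
  apply AlgHom.ext
  intro x
  induction x using MvPolynomial.induction_on with
  | C a => exact hC a
  | add p q hp hq => rw [map_add, map_add, hp, hq]
  | mul_X p i hp => rw [map_mul, map_mul, hp, hX]

theorem trA_trans (b : Basis ι ℂ V) (b' : Basis ι' ℂ V') (b'' : Basis ι'' ℂ V'')
    (g : V ≃ₗ[ℂ] V') (h : V' ≃ₗ[ℂ] V'') :
    (trA b' b'' h).comp (trA b b' g) = trA b b'' (g.trans h) := by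
  apply algHom_Ax_ext
  · intro c
    rw [AlgHom.comp_apply, trA_C, trA_C, trA_C, ← trF_trans b b' b'' g h, AlgHom.comp_apply]
  · intro i
    rw [AlgHom.comp_apply, trA_X, trA_yA, trA_X]
    rfl

theorem trA_trans_apply (b : Basis ι ℂ V) (b' : Basis ι' ℂ V') (b'' : Basis ι'' ℂ V'')
    (g : V ≃ₗ[ℂ] V') (h : V' ≃ₗ[ℂ] V'') (p : Ax ι) :
    trA b' b'' h (trA b b' g p) = trA b b'' (g.trans h) p := by
  rw [← trA_trans b b' b'' g h, AlgHom.comp_apply]

theorem trA_refl (b : Basis ι ℂ V) : trA b b (LinearEquiv.refl ℂ V) = AlgHom.id ℂ (Ax ι) := by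
  classical
  apply algHom_Ax_ext
  · intro c
    rw [trA_C, trF_refl, AlgHom.id_apply, AlgHom.id_apply]
  · intro i
    rw [trA_X, AlgHom.id_apply, LinearEquiv.refl_apply, yA_basis]

theorem trR_trans (b : Basis ι ℂ V) (b' : Basis ι' ℂ V') (b'' : Basis ι'' ℂ V'')
    (g : V ≃ₗ[ℂ] V') (h : V' ≃ₗ[ℂ] V'') :
    (trR b' b'' h).comp (trR b b' g) = trR b b'' (g.trans h) := by
  apply algHom_Rx_ext
  · intro c
    rw [AlgHom.comp_apply, trR_C, trR_C, trR_C, trP_trans_apply]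
  · intro i
    rw [AlgHom.comp_apply, trR_X, trR_yR, trR_X]
    rfl

theorem trR_trans_apply (b : Basis ι ℂ V) (b' : Basis ι' ℂ V') (b'' : Basis ι'' ℂ V'')
    (g : V ≃ₗ[ℂ] V') (h : V' ≃ₗ[ℂ] V'') (p : Rx ι) :
    trR b' b'' h (trR b b' g p) = trR b b'' (g.trans h) p := by
  rw [← trR_trans b b' b'' g h, AlgHom.comp_apply]

theorem trR_refl (b : Basis ι ℂ V) : trR b b (LinearEquiv.refl ℂ V) = AlgHom.id ℂ (Rx ι) := by
  classical
  apply algHom_Rx_ext
  · intro c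
    rw [trR_C, trP_refl, AlgHom.id_apply, AlgHom.id_apply]
  · intro i
    rw [trR_X, AlgHom.id_apply, LinearEquiv.refl_apply, yR_basis]

theorem jR_trR (b : Basis ι ℂ V) (b' : Basis ι' ℂ V') (g : V ≃ₗ[ℂ] V') (p : Rx ι) :
    jR (trR b b' g p) = trA b b' g (jR p) := by
  have : (jR : Rx ι' →ₐ[ℂ] Ax ι').comp (trR b b' g) = (trA b b' g).comp jR := by
    apply algHom_Rx_ext
    · intro c
      rw [AlgHom.comp_apply, AlgHom.comp_apply, trR_C, jR_C, jR_C, trA_xA]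
    · intro i
      rw [AlgHom.comp_apply, AlgHom.comp_apply, trR_X, jR_X, trA_X, jR_yR]
  exact congrArg (fun f => f p) this

theorem trA_symm_apply (b : Basis ι ℂ V) (b' : Basis ι' ℂ V') (g : V ≃ₗ[ℂ] V') (p : Ax ι) :
    trA b' b g.symm (trA b b' g p) = p := by
  rw [trA_trans_apply, LinearEquiv.self_trans_symm, trA_refl, AlgHom.id_apply]

theorem trA_apply_symm (b : Basis ι ℂ V) (b' : Basis ι' ℂ V') (g : V ≃ₗ[ℂ] V') (p : Ax ι') :
    trA b b' g (trA b' b g.symm p) = p := by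
  rw [trA_trans_apply, LinearEquiv.symm_trans_self, trA_refl, AlgHom.id_apply]

theorem trA_injective (b : Basis ι ℂ V) (b' : Basis ι' ℂ V') (g : V ≃ₗ[ℂ] V') :
    Function.Injective (trA b b' g) :=
  Function.LeftInverse.injective (trA_symm_apply b b' g)

theorem trR_symm_apply (b : Basis ι ℂ V) (b' : Basis ι' ℂ V') (g : V ≃ₗ[ℂ] V') (p : Rx ι) :
    trR b' b g.symm (trR b b' g p) = p := by
  rw [trR_trans_apply, LinearEquiv.self_trans_symm, trR_refl, AlgHom.id_apply]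

/-- the automorphism of `ℂ(V)[ξ]` given by `g ∈ GL(V)`. -/
noncomputable abbrev act (b : Basis ι ℂ V) (g : V ≃ₗ[ℂ] V) : Ax ι →ₐ[ℂ] Ax ι := trA b b g

theorem act_mul (b : Basis ι ℂ V) (g h : V ≃ₗ[ℂ] V) (p : Ax ι) :
    act b (g * h) p = act b g (act b h p) := by
  rw [act, act, act, trA_trans_apply]; rfl

theorem act_one (b : Basis ι ℂ V) (p : Ax ι) : act b (1 : V ≃ₗ[ℂ] V) p = p := by
  have := trA_refl b
  exact congrArg (fun f => f p) this

theorem act_inv_apply (b : Basis ι ℂ V) (g : V ≃ₗ[ℂ] V) (p : Ax ι) :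
    act b g⁻¹ (act b g p) = p := by
  rw [← act_mul, inv_mul_cancel, act_one]

theorem act_apply_inv (b : Basis ι ℂ V) (g : V ≃ₗ[ℂ] V) (p : Ax ι) :
    act b g (act b g⁻¹ p) = p := by
  rw [← act_mul, mul_inv_cancel, act_one]

end Tr

end Pool.Agent.CM64
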