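import Pool.Agent.LibCM64.DCent
import Pool.Agent.LibCM64.StDefs

/-! The centre as a subalgebra of `ℂ(V)[ξ]`. -/

set_option linter.unusedSectionVars false

namespace Pool.Agent.CM64

open Module MvPolynomial

section

variable {V : Type} [AddCommGroup V] [Module ℂ V] [FiniteDimensional ℂ V]
variable {ι : Type} [Fintype ι] [DecidableEq ι]
variable (W : Subgroup (V ≃ₗ[ℂ] V)) [Finite W] (k : Submodule ℂ V → ℤ → ℂ)

/-- `z ↦ Θ(z) 1`, an injective homomorphism `Z_k → ℂ(V)[ξ]`. -/
noncomputable def zA (hk : Adm W k) (b : Basis ι ℂ V) : ZZ W k →ₐ[ℂ] Ax ι where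
  toFun z := Theta W k hk b (z : Ch W k True) 1
  map_one' := by simp
  map_mul' z z' := by
    have h := (Theta_center W k hk b z.2).2.2
    have h1 : Theta W k hk b ((z * z' : ZZ W k) : Ch W k True)
        = Theta W k hk b (z : Ch W k True) * Theta W k hk b (z' : Ch W k True) := by
      rw [← map_mul]; rfl
    rw [h1, Module.End.mul_apply]
    conv_lhs => rw [h]
    rfl
  map_zero' := by simp
  map_add' z z' := by
    have h1 : Theta W k hk b ((z + z' : ZZ W k) : Ch W k True)
        = Theta W k hk b (z : Ch W k True) + Theta W k hk b (z' : Ch W k True) := by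
      rw [← map_add]; rfl
    rw [h1]; rfl
  commutes' r := by
    have h1 : Theta W k hk b ((algebraMap ℂ (ZZ W k) r : ZZ W k) : Ch W k True)
        = algebraMap ℂ _ r := by
      rw [← AlgHom.commutes (Theta W k hk b) r]; rfl
    rw [h1, Module.algebraMap_end_apply, Algebra.smul_def, mul_one]

theorem zA_apply (hk : Adm W k) (b : Basis ι ℂ V) (z : ZZ W k) :
    zA W k hk b z = Theta W k hk b (z : Ch W k True) 1 := rfl

theorem Theta_eq_mulLeft (hk : Adm W k) (b : Basis ι ℂ V) (z : ZZ W k) :
    Theta W k hk b (z : Ch W k True) = LinearMap.mulLeft ℂ (zA W k hk b z) :=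
  (Theta_center W k hk b z.2).2.2

theorem zA_injective (hk : Adm W k) (b : Basis ι ℂ V) : Function.Injective (zA W k hk b) := by
  intro z z' h
  apply Subtype.ext
  apply Theta_injective W k hk b
  rw [Theta_eq_mulLeft, Theta_eq_mulLeft, h]

theorem zA_mem_Mk (hk : Adm W k) (b : Basis ι ℂ V) (z : ZZ W k) : zA W k hk b z ∈ Mk W k b :=
  (Theta_center W k hk b z.2).1

theorem zA_inv (hk : Adm W k) (b : Basis ι ℂ V) (z : ZZ W k) : InvA W b (zA W k hk b z) :=
  (Theta_center W k hk b z.2).2.1

/-- the image of `Z_k` is `M_k^W`. -/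
theorem exists_zA (hk : Adm W k) (b : Basis ι ℂ V) {f : Ax ι} (hf : f ∈ Mk W k b)
    (hinv : InvA W b f) : ∃ z : ZZ W k, zA W k hk b z = f := by
  obtain ⟨z, hz, h⟩ := exists_center W k hk b hf hinv
  refine ⟨⟨z, hz⟩, ?_⟩
  rw [zA_apply]
  show Theta W k hk b z 1 = f
  rw [h, LinearMap.mulLeft_apply, mul_one]

theorem indZ_coe (g : V ≃ₗ[ℂ] V) (hg : Normalizes g W) (hk : FixesParam g k) (z : ZZ W k) :
    ((indZ W k g hg hk z : ZZ W k) : Ch W k True) = ind W k True g hg hk (z : Ch W k True) := rfl

/-- `Θ(g · a) = g Θ(a) g⁻¹` (`Ch_hom_ext` or `Ch_ind`). -/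
theorem Theta_ind (hkA : Adm W k) (b : Basis ι ℂ V) (g : V ≃ₗ[ℂ] V) (hg : Normalizes g W) (hk : FixesParam g k)
    (a : Ch W k True) (m : Ax ι) :
    Theta W k hkA b (ind W k True g hg hk a) (act b g m) = act b g (Theta W k hkA b a m) := by
  let N : Subalgebra ℂ (Ch W k True) :=
    { carrier := {a | ∀ m : Ax ι, Theta W k hkA b (ind W k True g hg hk a) (act b g m)
          = act b g (Theta W k hkA b a m)}
      mul_mem' := by
        intro a a' h h' m
        rw [map_mul, map_mul, map_mul, Module.End.mul_apply, Module.End.mul_apply, h' m, h]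
      add_mem' := by
        intro a a' h h' m
        rw [map_add, map_add, map_add, LinearMap.add_apply, LinearMap.add_apply, h m, h' m, map_add]
      algebraMap_mem' := by
        intro r m
        rw [AlgHom.commutes, AlgHom.commutes, Module.algebraMap_end_apply, Module.algebraMap_end_apply,
          map_smul] }
  have hN : ∀ a, a ∈ N := by
    intro a
    refine Ch_ind W k True N ?_ ?_ ?_ ?_ a
    · intro f m
      rw [ind_cx, Theta_cx, Theta_cx, LinearMap.mulLeft_apply, LinearMap.mulLeft_apply, map_mul, trA_xA,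
        trP_xl]
    · intro v m
      rw [ind_cy, Theta_cy, Theta_cy]
      exact (trA_dunkl (tp_of_normalizes hg hk) b b v m).symm
    · intro h m
      rw [ind_cw, Theta_cw, Theta_cw]
      show act b (g * h * g⁻¹) (act b g m) = act b g (act b (h : V ≃ₗ[ℂ] V) m)
      rw [← act_mul, ← act_mul, inv_mul_cancel_right]
    · intro m
      rw [ind_ct, ct_true, map_zero, LinearMap.zero_apply, LinearMap.zero_apply, map_zero]
  exact hN a m

theorem zA_indZ (hkA : Adm W k) (b : Basis ι ℂ V) (g : V ≃ₗ[ℂ] V) (hg : Normalizes g W) (hk : FixesParam g k)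
    (z : ZZ W k) : zA W k hkA b (indZ W k g hg hk z) = act b g (zA W k hkA b z) := by
  have h := Theta_ind W k hkA b g hg hk (z : Ch W k True) 1
  rw [map_one (act b g)] at h
  rw [zA_apply, zA_apply, indZ_coe]
  exact h

end

end Pool.Agent.CM64
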